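import Pool.Agent.LibNC38.G5
import Pool.Agent.LibNC38.C3a
import Pool.Agent.LibNC38.C3

set_option autoImplicit false

open Matrix MeasureTheory Topology Filter

namespace FL27

open LibNC38

/-- transpose in `SL n` -/
def tp {n : ℕ} (g : SL n) : SL n := ⟨g.1ᵀ, by rw [Matrix.det_transpose]; exact g.2⟩

theorem tp_val {n : ℕ} (g : SL n) : (tp g).1 = g.1ᵀ := rfl

theorem act_o {n : ℕ} (g : SL n) : (act g (o n)).1 = g.1 * g.1ᵀ := by
  show g.1 * (1 : Matrix (Fin n) (Fin n) ℝ) * g.1ᵀ = _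
  rw [Matrix.mul_one]

theorem act_orth {n : ℕ} (k : SL n) (hk : k.1 * k.1ᵀ = 1) : act k (o n) = o n := by
  apply Subtype.ext
  rw [act_o, hk]
  rfl

theorem inv_orth {n : ℕ} (k : SL n) (hk : k.1 * k.1ᵀ = 1) : (k⁻¹).1 = k.1ᵀ := by
  have h1 : k * tp k = 1 := Subtype.ext hk
  have h2 : k⁻¹ = tp k := by rw [inv_eq_iff_mul_eq_one]; exact h1
  rw [h2]; rfl

/-- Row R1. `g o` and `gᵀ o` have the same distance from the base point. -/
theorem dg_tp {n : ℕ} (g : SL n) : dg (o n) (act (tp g) (o n)) = dg (o n) (act g (o n)) := by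
  obtain ⟨k, z, hk, hq⟩ := polar (act g (o n))
  have hkinv := inv_orth k hk
  have h0 : ∀ k : SL n, k.1 * k.1ᵀ = 1 → dg (o n) (act k (sg z)) = 2 * ‖z‖ := by
    intro k hk
    have h1 := dg_flat k (0 : V0 n) z
    rw [(@flat_facts n).2.2.2.2.2.2.2.2.2.2.1, act_orth k hk, zero_sub, norm_neg] at h1
    exact h1
  -- `k' = (k e^z)⁻¹ g` is orthogonal
  set k' : SL n := (k * dgm z)⁻¹ * g with hk'
  have hg : g = k * dgm z * k' := by rw [hk']; group
  have hq1 : act g (o n) = act (k * dgm z) (o n) := by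
    rw [hq, (@act_facts n).2.1]; rfl
  have hk'o : act k' (o n) = o n := by
    rw [hk', (@act_facts n).2.1, hq1, ← (@act_facts n).2.1, inv_mul_cancel, (@act_facts n).1]
  have hk'1 : k'.1 * k'.1ᵀ = 1 := by
    have := congrArg Subtype.val hk'o
    rw [act_o] at this
    exact this
  have hk'2 : (tp k').1 * (tp k').1ᵀ = 1 := by
    rw [tp_val, Matrix.transpose_transpose]
    exact mul_eq_one_comm.1 hk'1
  have hdt : (dgm z).1ᵀ = (dgm z).1 := by
    simp only [dgm, Matrix.diagonal_transpose]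
  have htg : act (tp g) (o n) = act (tp k') (sg z) := by
    have e1 : tp g = tp k' * (dgm z * k⁻¹) := by
      apply Subtype.ext
      show g.1ᵀ = k'.1ᵀ * ((dgm z).1 * (k⁻¹).1)
      rw [hkinv]
      have : g.1 = k.1 * (dgm z).1 * k'.1 := congrArg Subtype.val hg
      rw [this, Matrix.transpose_mul, Matrix.transpose_mul, hdt]
    have e2 : act k⁻¹ (o n) = o n := by
      have := congrArg (act k⁻¹) (act_orth k hk)
      rw [← (@act_facts n).2.1, inv_mul_cancel, (@act_facts n).1] at this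
      exact this.symm
    rw [e1, (@act_facts n).2.1, (@act_facts n).2.1, e2]
    rfl
  rw [htg, hq, h0 _ hk'2, h0 _ hk]

end FL27
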