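import Pool.Agent.LibFL27.A01
import Pool.Agent.LibAC84C.CB

set_option autoImplicit false

open Matrix MeasureTheory Topology Filter

namespace FL27

open LibNC38

private def A02_I {r D : ℕ} (f : Fin D → Fin r) (hf : StrictMono f) :
    {I : Finset (Fin r) // I.card = D} :=
  ⟨Finset.univ.image f, by
    rw [Finset.card_image_of_injective _ hf.injective, Finset.card_univ, Fintype.card_fin]⟩

private theorem A02_emb {r D : ℕ} (f : Fin D → Fin r) (hf : StrictMono f) :
    ((A02_I f hf).1.orderEmbOfFin (A02_I f hf).2 : Fin D → Fin r) = f :=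
  (Finset.orderEmbOfFin_unique (A02_I f hf).2
    (fun x => Finset.mem_image_of_mem f (Finset.mem_univ x)) hf).symm

private theorem A02_cb {r D : ℕ} (M : Matrix (Fin r) (Fin D) ℝ) (f g : Fin D → Fin r)
    (hf : StrictMono f) (hg : StrictMono g) (x : Fin D) (hx : ∀ y, f y ≠ g x) :
    (M.submatrix f id).det ^ 2 + (M.submatrix g id).det ^ 2 ≤ (M.transpose * M).det := by
  rw [Pool.Agent.LibAC84C.cauchyBinet M M]
  have hne : A02_I f hf ≠ A02_I g hg := by
    intro h
    have h1 : g x ∈ (A02_I g hg).1 := Finset.mem_image_of_mem g (Finset.mem_univ x)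
    rw [← h] at h1
    obtain ⟨y, -, hy⟩ := Finset.mem_image.1 h1
    exact hx y hy
  have e1 : (M.submatrix f id).det ^ 2 + (M.submatrix g id).det ^ 2 =
      ∑ I ∈ ({A02_I f hf, A02_I g hg} : Finset {I : Finset (Fin r) // I.card = D}),
        (M.submatrix (I.1.orderEmbOfFin I.2) id).det *
          (M.submatrix (I.1.orderEmbOfFin I.2) id).det := by
    rw [Finset.sum_pair hne, A02_emb f hf, A02_emb g hg]
    ring
  rw [e1]
  exact Finset.sum_le_sum_of_subset_of_nonneg (Finset.subset_univ _)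
    fun I _ _ => mul_self_nonneg _

private theorem A02_prod {n : ℕ} (k : Fin n) (F : Fin n → ℝ) :
    ∏ i ∈ Finset.univ.filter (fun i : Fin n => i < k), F i =
      ∏ i : Fin k.1, F (Fin.castLE k.2.le i) := by
  symm
  refine Finset.prod_bij (fun i _ => Fin.castLE k.2.le i) ?_ ?_ ?_ ?_
  · intro i _
    exact Finset.mem_filter.2 ⟨Finset.mem_univ _, i.2⟩
  · intro i _ j _ h
    exact Fin.castLE_injective _ h
  · intro i hi
    exact ⟨⟨i.1, (Finset.mem_filter.1 hi).2⟩, Finset.mem_univ _, rfl⟩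
  · intro i _
    rfl

/-- Row A02. Leading minors of `bᵀ b`, `b` lower triangular. PLAN: `act (tp b) (o n)` has matrix
`bᵀ b`; its leading block of size `k+1` is `Bᵀ B`, `B i j = b i (castLE j)` (`n × (k+1)`), so by
`Pool.Agent.LibAC84C.cauchyBinet` the minor is the sum over the sets `I` of `k+1` rows of
`(det B_I)²`. Keep the two sets `{0..k}` and `{0..k-1, j}` (they are different): the submatrices are
lower triangular (`Matrix.det_of_lowerTriangular`) with diagonals `b 0 0, .., b (k-1) (k-1)` and then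
`b k k`, resp. `b j k`. (Any other proof is fine.) -/
theorem mnr_tp_ge {n : ℕ} (b : SL n) (hb : Lower b) (k j : Fin n) (hkj : k < j) :
    (∏ i ∈ Finset.univ.filter (fun i : Fin n => i < k), b.1 i i ^ 2) *
      (b.1 k k ^ 2 + b.1 j k ^ 2) ≤ mnr (act (tp b) (o n)).1 (k.1 + 1) := by
  have hk1 : k.1 + 1 ≤ n := k.2
  have hkj' : k.1 < j.1 := hkj
  have hmn : mnr (act (tp b) (o n)).1 (k.1 + 1) =
      ((b.1.submatrix id (Fin.castLE hk1)).transpose * (b.1.submatrix id (Fin.castLE hk1))).det := by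
    unfold mnr
    rw [dif_pos hk1, act_o, tp_val, Matrix.transpose_transpose]
    rfl
  rw [hmn]
  obtain ⟨M, hM⟩ : ∃ M : Matrix (Fin n) (Fin (k.1 + 1)) ℝ,
      M = b.1.submatrix id (Fin.castLE hk1) := ⟨_, rfl⟩
  have hMa : ∀ i c, M i c = b.1 i (Fin.castLE hk1 c) := fun i c => by rw [hM]; rfl
  rw [← hM]
  obtain ⟨g, hg⟩ : ∃ g : Fin (k.1 + 1) → Fin n,
      ∀ i, g i = if i.1 < k.1 then Fin.castLE hk1 i else j := ⟨_, fun _ => rfl⟩
  have hf : StrictMono (Fin.castLE hk1) := fun i c h => h
  have hgm : StrictMono g := by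
    intro i c h
    have h1 : i.1 < c.1 := h
    have h2 := c.2
    rw [hg, hg, if_pos (by omega)]
    by_cases h3 : c.1 < k.1
    · rw [if_pos h3]
      exact h1
    · rw [if_neg h3]
      show i.1 < j.1
      omega
  have hgl : g (Fin.last k.1) = j := by
    rw [hg, if_neg (by simp)]
  have hcb := A02_cb M (Fin.castLE hk1) g hf hgm (Fin.last k.1) (fun y h => by
    rw [hgl] at h
    have h1 : y.1 = j.1 := congrArg Fin.val h
    have := y.2
    omega)
  refine le_trans (le_of_eq ?_) hcb
  have hd : ∀ f : Fin (k.1 + 1) → Fin n, (∀ i : Fin (k.1 + 1), i.1 < k.1 → f i = Fin.castLE hk1 i) →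
      (M.submatrix f id).det = (∏ i : Fin k.1, b.1 (Fin.castLE k.2.le i) (Fin.castLE k.2.le i)) *
        b.1 (f (Fin.last k.1)) k := by
    intro f hf'
    rw [Matrix.det_of_lowerTriangular]
    · rw [Fin.prod_univ_castSucc]
      congr 1
      · refine Finset.prod_congr rfl fun i _ => ?_
        rw [Matrix.submatrix_apply, hMa, hf' i.castSucc i.2]
        rfl
      · rw [Matrix.submatrix_apply, hMa]
        rfl
    · intro i c h
      have h1 : i < c := h
      have h2 : i.1 < c.1 := h1
      have h3 := c.2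
      rw [Matrix.submatrix_apply, hMa, hf' i (by omega)]
      exact hb _ _ h1
  rw [hd (Fin.castLE hk1) (fun i _ => rfl), hd g (fun i hi => by rw [hg, if_pos hi]), hgl,
    A02_prod k (fun i => b.1 i i ^ 2)]
  have h5 : Fin.castLE hk1 (Fin.last k.1) = k := rfl
  rw [h5, Finset.prod_pow]
  ring

end FL27
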