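import Mathlib

set_option autoImplicit false

namespace FL27

private lemma A03a_abel (a v : ℕ → ℝ) (m : ℕ) :
    ∑ i ∈ Finset.range (m + 1), a i * v i =
      ∑ t ∈ Finset.range m, (∑ i ∈ Finset.range (t + 1), a i) * (v t - v (t + 1)) +
        (∑ i ∈ Finset.range (m + 1), a i) * v m := by
  induction m with
  | zero => simp
  | succ m ih =>
    have h1 := Finset.sum_range_succ (fun i => a i * v i) (m + 1)
    have h2 := Finset.sum_range_succ
      (fun t => (∑ i ∈ Finset.range (t + 1), a i) * (v t - v (t + 1))) m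
    have h3 := Finset.sum_range_succ (fun i => a i) (m + 1)
    rw [h1, h2, h3, ih]
    ring

private lemma A03a_filter {n : ℕ} (f : ℕ → ℝ) (k : Fin n) :
    ∑ i ∈ Finset.univ.filter (fun i : Fin n => i ≤ k), f i = ∑ i ∈ Finset.range ((k : ℕ) + 1), f i := by
  have h1 : ∑ i ∈ Finset.univ.filter (fun i : Fin n => i ≤ k), f i =
      ∑ i : Fin n, (fun j : ℕ => if j ≤ (k : ℕ) then f j else 0) (i : ℕ) := by
    rw [Finset.sum_filter]
    refine Finset.sum_congr rfl ?_
    intro i _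
    by_cases h : i ≤ k
    · have h' : (i : ℕ) ≤ (k : ℕ) := h
      rw [if_pos h]
      exact (if_pos h').symm
    · have h' : ¬ (i : ℕ) ≤ (k : ℕ) := h
      rw [if_neg h]
      exact (if_neg h').symm
  rw [h1, Fin.sum_univ_eq_sum_range (fun j : ℕ => if j ≤ (k : ℕ) then f j else 0) n,
    ← Finset.sum_filter]
  refine Finset.sum_congr ?_ fun _ _ => rfl
  ext j
  have := k.2
  simp only [Finset.mem_filter, Finset.mem_range]
  omega

/-- Row A03a. Abel summation. PLAN: `S k = ∑ i ≤ k, a i`, `∑ a i * v i = ∑_{k < n-1} S k (v k - v (k+1))`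
(total sum zero), all terms are `≥ 0`, and `v k - v (k+1) ≥ G` for the given `k`. Convenient:
`Finset.sum_range_by_parts` after extending by zero, or induction. -/
theorem abel_ge {n : ℕ} (a v : Fin n → ℝ) (G : ℝ) (hG : 0 ≤ G)
    (hgap : ∀ i j : Fin n, i < j → G ≤ v i - v j)
    (hS : ∀ k j : Fin n, k < j → 0 ≤ ∑ i ∈ Finset.univ.filter (fun i : Fin n => i ≤ k), a i)
    (h0 : ∑ i, a i = 0) (k j : Fin n) (hkj : k < j) :
    G * ∑ i ∈ Finset.univ.filter (fun i : Fin n => i ≤ k), a i ≤ ∑ i, a i * v i := by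
  obtain ⟨a', ha'⟩ : ∃ a' : ℕ → ℝ, ∀ i : Fin n, a' i = a i :=
    ⟨fun i => if h : i < n then a ⟨i, h⟩ else 0, fun i => by simp⟩
  obtain ⟨v', hv'⟩ : ∃ v' : ℕ → ℝ, ∀ i : Fin n, v' i = v i :=
    ⟨fun i => if h : i < n then v ⟨i, h⟩ else 0, fun i => by simp⟩
  have hk : (k : ℕ) < j := hkj
  have hj := j.2
  obtain ⟨m, rfl⟩ : ∃ m, n = m + 1 := ⟨n - 1, by omega⟩
  have e1 : ∀ k : Fin (m + 1), ∑ i ∈ Finset.univ.filter (fun i : Fin (m + 1) => i ≤ k), a i =
      ∑ i ∈ Finset.range ((k : ℕ) + 1), a' i := by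
    intro k
    rw [← A03a_filter a' k]
    exact Finset.sum_congr rfl fun i _ => (ha' i).symm
  have e2 : ∑ i, a i * v i = ∑ i ∈ Finset.range (m + 1), a' i * v' i := by
    rw [← Fin.sum_univ_eq_sum_range (fun i => a' i * v' i)]
    exact Finset.sum_congr rfl fun i _ => by rw [ha', hv']
  have e3 : ∑ i ∈ Finset.range (m + 1), a' i = 0 := by
    rw [← Fin.sum_univ_eq_sum_range (fun i => a' i), ← h0]
    exact Finset.sum_congr rfl fun i _ => ha' i
  have hS' : ∀ t, t < m → 0 ≤ ∑ i ∈ Finset.range (t + 1), a' i := by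
    intro t ht
    have h := hS ⟨t, by omega⟩ ⟨t + 1, by omega⟩ (by simp [Fin.lt_def])
    rwa [e1] at h
  have hgap' : ∀ t, t < m → G ≤ v' t - v' (t + 1) := by
    intro t ht
    have h := hgap ⟨t, by omega⟩ ⟨t + 1, by omega⟩ (by simp [Fin.lt_def])
    rw [← hv', ← hv'] at h
    exact h
  rw [e1, e2, A03a_abel, e3, zero_mul, add_zero]
  have hkm : (k : ℕ) < m := by omega
  calc G * ∑ i ∈ Finset.range ((k : ℕ) + 1), a' i
      = (∑ i ∈ Finset.range ((k : ℕ) + 1), a' i) * G := mul_comm _ _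
    _ ≤ (∑ i ∈ Finset.range ((k : ℕ) + 1), a' i) * (v' k - v' ((k : ℕ) + 1)) :=
        mul_le_mul_of_nonneg_left (hgap' k hkm) (hS' k hkm)
    _ ≤ ∑ t ∈ Finset.range m, (∑ i ∈ Finset.range (t + 1), a' i) * (v' t - v' (t + 1)) := by
        refine Finset.single_le_sum
          (f := fun t => (∑ i ∈ Finset.range (t + 1), a' i) * (v' t - v' (t + 1))) ?_
          (Finset.mem_range.2 hkm)
        intro t ht
        have ht' := Finset.mem_range.1 ht
        exact mul_nonneg (hS' t ht') (hG.trans (hgap' t ht'))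

end FL27
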