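import Pool.Agent.LibFL27.A02
import Pool.Agent.LibFL27.A03a

set_option autoImplicit false

open Matrix MeasureTheory Topology Filter

namespace FL27

open LibNC38

private theorem A03_sum {n : ℕ} (q : PD n) (k : Fin n) :
    ∑ i ∈ Finset.univ.filter (fun i : Fin n => i ≤ k), Pc q i =
      Real.log (mnr q.1 (k.1 + 1)) / 2 := by
  have h1 : ∑ i ∈ Finset.univ.filter (fun i : Fin n => i ≤ k), Pc q i =
      ∑ i ∈ Finset.range (k.1 + 1),
        (Real.log (mnr q.1 (i + 1)) / 2 - Real.log (mnr q.1 i) / 2) := by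
    symm
    refine Finset.sum_bij' (i := fun (a : ℕ) (ha : a ∈ Finset.range (k.1 + 1)) =>
      (⟨a, by have := Finset.mem_range.1 ha; have := k.2; omega⟩ : Fin n))
      (j := fun (a : Fin n) _ => a.1) ?_ ?_ ?_ ?_ ?_
    · intro a ha
      rw [Finset.mem_filter]
      have h2 := Finset.mem_range.1 ha
      refine ⟨Finset.mem_univ _, ?_⟩
      show a ≤ k.1
      omega
    · intro a ha
      rw [Finset.mem_filter] at ha
      have h2 : a.1 ≤ k.1 := ha.2
      rw [Finset.mem_range]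
      omega
    · intro a ha
      rfl
    · intro a ha
      rfl
    · intro a ha
      show _ = Pc q _
      unfold Pc
      ring
  rw [h1, Finset.sum_range_sub (fun i => Real.log (mnr q.1 i) / 2), mnr_zero]
  simp

private theorem A03_nsq {n : ℕ} (v : V0 n) : ‖v‖ ^ 2 = ∑ i, v.1 i ^ 2 := by
  have h1 : ‖v‖ = ‖v.1‖ := rfl
  rw [h1, EuclideanSpace.norm_sq_eq]
  refine Finset.sum_congr rfl fun i _ => ?_
  rw [Real.norm_eq_abs, sq_abs]

/-- Row A03. Entries of a lower triangular matrix of almost minimal displacement. PLAN. `P = Pr (bᵀ b)`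
(`act (tp b) (o n)`). `∑_{i ≤ k} P i = log (mnr (bᵀ b) (k+1)) / 2` (definition of `Pr`, `Pc`, telescoping,
`mnr_zero`), so with `a i = P i - v i`, by A02, `b i i ^ 2 = exp (2 v i)`:
`S k = ∑_{i ≤ k} a i ≥ log (1 + b j k ^ 2 exp(-2 v k)) / 2 ≥ 0` for `k < j`, and `∑ a i = 0` (`Pr`, `v` in `V0`).
`∑ a i v i = ⟪P, v⟫ - ‖v‖² ≤ (‖P‖² - ‖v‖²)/2 ≤ δ/2` because `2 ‖P‖ ≤ dg (o n) (bᵀ b) = dg (o n) (b bᵀ)`
(`Pr_lip_dg` with `Pr (o n) = 0`, `dg_tp`). A03a: `G * S k ≤ δ / 2`, so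
`1 + b j k ^ 2 exp(-2 v k) ≤ exp (2 S k) ≤ exp (δ / G)`. -/
theorem sk_bound {n : ℕ} (b : SL n) (hb : Lower b) (v : V0 n) (hv : ∀ i, |b.1 i i| = Real.exp (v.1 i))
    (G δ : ℝ) (hG : 0 < G) (hgap : ∀ i j : Fin n, i < j → G ≤ v.1 i - v.1 j)
    (hd : dg (o n) (act b (o n)) ^ 2 ≤ 4 * (‖v‖ ^ 2 + δ)) (j k : Fin n) (hkj : k < j) :
    b.1 j k ^ 2 ≤ Real.exp (2 * v.1 k) * (Real.exp (δ / G) - 1) := by
  classical
  set q : PD n := act (tp b) (o n) with hq
  have hsq : ∀ i, b.1 i i ^ 2 = Real.exp (2 * v.1 i) := by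
    intro i
    rw [← sq_abs, hv i, ← Real.exp_nat_mul]
    norm_num
  have hkey : ∀ k j : Fin n, k < j →
      Real.log (1 + b.1 j k ^ 2 * Real.exp (-(2 * v.1 k))) ≤
        2 * ∑ i ∈ Finset.univ.filter (fun i : Fin n => i ≤ k), (Pc q i - v.1 i) := by
    intro k j hkj
    have h1 := mnr_tp_ge b hb k j hkj
    rw [← hq] at h1
    have hpos : 0 < mnr q.1 (k.1 + 1) := Pr_facts.1 q _
    have hc : 0 < 1 + b.1 j k ^ 2 * Real.exp (-(2 * v.1 k)) := by positivity
    have h2 : (∏ i ∈ Finset.univ.filter (fun i : Fin n => i < k), b.1 i i ^ 2) *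
        (b.1 k k ^ 2 + b.1 j k ^ 2) =
        Real.exp (2 * ∑ i ∈ Finset.univ.filter (fun i : Fin n => i ≤ k), v.1 i) *
          (1 + b.1 j k ^ 2 * Real.exp (-(2 * v.1 k))) := by
      have h3 : Finset.univ.filter (fun i : Fin n => i ≤ k) =
          insert k (Finset.univ.filter (fun i : Fin n => i < k)) := by
        ext i
        simp only [Finset.mem_filter, Finset.mem_univ, true_and, Finset.mem_insert]
        constructor
        · intro h
          rcases h.lt_or_eq with h | h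
          · exact Or.inr h
          · exact Or.inl h
        · rintro (h | h)
          · exact h.le
          · exact h.le
      have h4 : k ∉ Finset.univ.filter (fun i : Fin n => i < k) := by
        simp
      rw [h3, Finset.sum_insert h4, mul_add 2 (v.1 k), Real.exp_add, Finset.mul_sum,
        Real.exp_sum, hsq k]
      have h5 : Real.exp (2 * v.1 k) * Real.exp (-(2 * v.1 k)) = 1 := by
        rw [← Real.exp_add]; simp
      rw [Finset.prod_congr rfl (fun i _ => hsq i)]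
      linear_combination (-(b.1 j k ^ 2 *
        ∏ i ∈ Finset.univ.filter (fun i : Fin n => i < k), Real.exp (2 * v.1 i))) * h5
    rw [h2] at h1
    have h6 := Real.log_le_log (by positivity) h1
    rw [Real.log_mul (Real.exp_pos _).ne' hc.ne', Real.log_exp] at h6
    rw [Finset.sum_sub_distrib, A03_sum]
    linarith
  have hnn : ∀ k j : Fin n, k < j →
      0 ≤ ∑ i ∈ Finset.univ.filter (fun i : Fin n => i ≤ k), (Pc q i - v.1 i) := by
    intro k j hkj
    have h1 := hkey k j hkj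
    have h2 : 0 ≤ Real.log (1 + b.1 j k ^ 2 * Real.exp (-(2 * v.1 k))) := by
      apply Real.log_nonneg
      have : 0 ≤ b.1 j k ^ 2 * Real.exp (-(2 * v.1 k)) := by positivity
      linarith
    linarith
  have h0 : ∑ i, (Pc q i - v.1 i) = 0 := by
    rw [Finset.sum_sub_distrib, Pc_sum, sum_V0, sub_zero]
  have hab := abel_ge (fun i => Pc q i - v.1 i) (fun i => v.1 i) G hG.le hgap hnn h0 k j hkj
  have hPo : Pr (o n) = 0 := by
    have h1 := (@Pr_facts n).2.2.2.1 0
    rwa [(@flat_facts n).2.2.2.2.2.2.2.2.2.2.1] at h1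
  have hP : ‖Pr q‖ ^ 2 ≤ ‖v‖ ^ 2 + δ := by
    have h1 := Pr_lip_dg (o n) q
    rw [hPo, sub_zero, hq, dg_tp] at h1
    have h2 : (2 * ‖Pr q‖) ^ 2 ≤ dg (o n) (act b (o n)) ^ 2 :=
      pow_le_pow_left₀ (by positivity) h1 2
    nlinarith
  have hin : ∑ i, (Pc q i - v.1 i) * v.1 i ≤ δ / 2 := by
    rw [A03_nsq, A03_nsq] at hP
    have h1 : ∀ i, (Pr q).1 i = Pc q i := fun i => rfl
    simp only [h1] at hP
    have h2 : ∑ i, (Pc q i - v.1 i) * v.1 i ≤ ∑ i, (Pc q i ^ 2 - v.1 i ^ 2) / 2 := by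
      refine Finset.sum_le_sum fun i _ => ?_
      nlinarith [sq_nonneg (Pc q i - v.1 i)]
    rw [← Finset.sum_div, Finset.sum_sub_distrib] at h2
    linarith
  have hS : 2 * ∑ i ∈ Finset.univ.filter (fun i : Fin n => i ≤ k), (Pc q i - v.1 i) ≤ δ / G := by
    rw [le_div_iff₀ hG]
    have h1 : G * ∑ i ∈ Finset.univ.filter (fun i : Fin n => i ≤ k), (Pc q i - v.1 i) ≤ δ / 2 :=
      hab.trans hin
    linarith
  have hlog := (hkey k j hkj).trans hS
  have hc : 0 < 1 + b.1 j k ^ 2 * Real.exp (-(2 * v.1 k)) := by positivity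
  rw [Real.log_le_iff_le_exp hc] at hlog
  have h5 : Real.exp (2 * v.1 k) * Real.exp (-(2 * v.1 k)) = 1 := by
    rw [← Real.exp_add]; simp
  have h6 : b.1 j k ^ 2 = Real.exp (2 * v.1 k) * (b.1 j k ^ 2 * Real.exp (-(2 * v.1 k))) := by
    linear_combination (-(b.1 j k ^ 2)) * h5
  rw [h6]
  exact mul_le_mul_of_nonneg_left (by linarith) (Real.exp_pos _).le

end FL27
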