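import Mathlib

set_option autoImplicit false

open Matrix

namespace FL27

private lemma A04_step {n : ℕ} (l b : Matrix (Fin n) (Fin n) ℝ) (v : Fin n → ℝ) (κ : ℝ)
    (hl : ∀ i j, i < j → l i j = 0) (hl1 : ∀ i, l i i = 1)
    (hb : ∀ i j, i < j → b i j = 0) (hb1 : ∀ i, b i i = Real.exp (v i))
    (hlb : l * b = Matrix.diagonal (fun i => Real.exp (v i)) * l)
    (hv : ∀ j k : Fin n, k < j → 1 ≤ v k - v j) (hκ : 0 ≤ κ) (hκ1 : κ ≤ 1)
    (hbk : ∀ j k : Fin n, k < j → |b j k| ≤ Real.exp (v k) * κ) (d : ℕ) :
    ∀ (j k : Fin n), k < j → (j : ℕ) - (k : ℕ) ≤ d →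
      |l j k| ≤ (2 * ((n : ℝ) + 1)) ^ d * κ := by
  induction d with
  | zero =>
    intro j k hkj hd
    exfalso
    have : (k : ℕ) < (j : ℕ) := hkj
    omega
  | succ d ih =>
    intro j k hkj hd
    have hkj' : (k : ℕ) < (j : ℕ) := hkj
    have hC1 : (1 : ℝ) ≤ 2 * ((n : ℝ) + 1) := by
      have : (0 : ℝ) ≤ n := Nat.cast_nonneg n
      linarith
    have hCd : (1 : ℝ) ≤ (2 * ((n : ℝ) + 1)) ^ d := one_le_pow₀ hC1
    have hent := congrFun (congrFun hlb j) k
    rw [Matrix.mul_apply, Matrix.diagonal_mul] at hent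
    have hne : k ≠ j := ne_of_lt hkj
    have hs1 := Finset.add_sum_erase (Finset.univ : Finset (Fin n)) (fun i => l j i * b i k)
      (Finset.mem_univ j)
    have hkmem : k ∈ (Finset.univ : Finset (Fin n)).erase j :=
      Finset.mem_erase.mpr ⟨hne, Finset.mem_univ k⟩
    have hs2 := Finset.add_sum_erase ((Finset.univ : Finset (Fin n)).erase j)
      (fun i => l j i * b i k) hkmem
    beta_reduce at hs1 hs2
    rw [hl1 j, one_mul] at hs1
    rw [hb1 k] at hs2
    have hR : |∑ i ∈ ((Finset.univ : Finset (Fin n)).erase j).erase k, l j i * b i k|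
        ≤ (n : ℝ) * ((2 * ((n : ℝ) + 1)) ^ d * (Real.exp (v k) * κ)) := by
      calc |∑ i ∈ ((Finset.univ : Finset (Fin n)).erase j).erase k, l j i * b i k|
          ≤ ∑ i ∈ ((Finset.univ : Finset (Fin n)).erase j).erase k, |l j i * b i k| :=
            Finset.abs_sum_le_sum_abs _ _
        _ ≤ ∑ i ∈ ((Finset.univ : Finset (Fin n)).erase j).erase k,
              ((2 * ((n : ℝ) + 1)) ^ d * (Real.exp (v k) * κ)) := by
            apply Finset.sum_le_sum
            intro i hi
            have hnn : 0 ≤ (2 * ((n : ℝ) + 1)) ^ d * (Real.exp (v k) * κ) := by positivity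
            rcases Finset.mem_erase.mp hi with ⟨hik, hi'⟩
            rcases Finset.mem_erase.mp hi' with ⟨hij, _⟩
            rcases lt_or_gt_of_ne hij with hij' | hij'
            · rcases lt_or_gt_of_ne hik with hik' | hik'
              · rw [hb i k hik', mul_zero, abs_zero]
                exact hnn
              · rw [abs_mul]
                have h1 : |l j i| ≤ (2 * ((n : ℝ) + 1)) ^ d := by
                  have h3 := ih j i hij' (by
                    have h4 : (i : ℕ) < (j : ℕ) := hij'
                    have h5 : (k : ℕ) < (i : ℕ) := hik'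
                    omega)
                  calc |l j i| ≤ (2 * ((n : ℝ) + 1)) ^ d * κ := h3
                    _ ≤ (2 * ((n : ℝ) + 1)) ^ d * 1 :=
                        mul_le_mul_of_nonneg_left hκ1 (by positivity)
                    _ = _ := mul_one _
                exact mul_le_mul h1 (hbk i k hik') (abs_nonneg _) (by positivity)
            · rw [hl j i hij', zero_mul, abs_zero]
              exact hnn
        _ = ((((Finset.univ : Finset (Fin n)).erase j).erase k).card : ℝ)
              * ((2 * ((n : ℝ) + 1)) ^ d * (Real.exp (v k) * κ)) := by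
            rw [Finset.sum_const, nsmul_eq_mul]
        _ ≤ (n : ℝ) * ((2 * ((n : ℝ) + 1)) ^ d * (Real.exp (v k) * κ)) := by
            apply mul_le_mul_of_nonneg_right _ (by positivity)
            have hc : (((Finset.univ : Finset (Fin n)).erase j).erase k).card ≤ n := by
              calc (((Finset.univ : Finset (Fin n)).erase j).erase k).card
                  ≤ (Finset.univ : Finset (Fin n)).card :=
                    Finset.card_le_card ((Finset.erase_subset _ _).trans (Finset.erase_subset _ _))
                _ = n := by rw [Finset.card_univ, Fintype.card_fin]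
            exact_mod_cast hc
    have hkey : (Real.exp (v k) - Real.exp (v j)) * l j k
        = - (b j k + ∑ i ∈ ((Finset.univ : Finset (Fin n)).erase j).erase k, l j i * b i k) := by
      linarith
    have hgap : Real.exp (v k) / 2 ≤ Real.exp (v k) - Real.exp (v j) := by
      have h1 := hv j k hkj
      have h2 : Real.exp (v j) * 2 ≤ Real.exp (v k) := by
        have h3 : Real.exp (v k) = Real.exp (v j) * Real.exp (v k - v j) := by
          rw [← Real.exp_add]
          ring_nf
        rw [h3]
        apply mul_le_mul_of_nonneg_left _ (Real.exp_pos _).le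
        have h4 := Real.add_one_le_exp (v k - v j)
        linarith
      linarith
    have hek := Real.exp_pos (v k)
    have hgpos : 0 < Real.exp (v k) - Real.exp (v j) := by linarith
    have habs : (Real.exp (v k) - Real.exp (v j)) * |l j k|
        ≤ Real.exp (v k) * κ + (n : ℝ) * ((2 * ((n : ℝ) + 1)) ^ d * (Real.exp (v k) * κ)) := by
      calc (Real.exp (v k) - Real.exp (v j)) * |l j k|
          = |(Real.exp (v k) - Real.exp (v j)) * l j k| := by
            rw [abs_mul, abs_of_pos hgpos]
        _ = |b j k + ∑ i ∈ ((Finset.univ : Finset (Fin n)).erase j).erase k, l j i * b i k| := by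
            rw [hkey, abs_neg]
        _ ≤ |b j k| + |∑ i ∈ ((Finset.univ : Finset (Fin n)).erase j).erase k, l j i * b i k| :=
            abs_add_le _ _
        _ ≤ _ := add_le_add (hbk j k hkj) hR
    have hfin : Real.exp (v k) / 2 * |l j k|
        ≤ Real.exp (v k) / 2 * ((2 * ((n : ℝ) + 1)) ^ (d + 1) * κ) := by
      calc Real.exp (v k) / 2 * |l j k|
          ≤ (Real.exp (v k) - Real.exp (v j)) * |l j k| :=
            mul_le_mul_of_nonneg_right hgap (abs_nonneg _)
        _ ≤ Real.exp (v k) * κ + (n : ℝ) * ((2 * ((n : ℝ) + 1)) ^ d * (Real.exp (v k) * κ)) :=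
            habs
        _ ≤ (2 * ((n : ℝ) + 1)) ^ d * (Real.exp (v k) * κ)
              + (n : ℝ) * ((2 * ((n : ℝ) + 1)) ^ d * (Real.exp (v k) * κ)) := by
            have h5 : 0 ≤ Real.exp (v k) * κ := by positivity
            nlinarith
        _ = Real.exp (v k) / 2 * ((2 * ((n : ℝ) + 1)) ^ (d + 1) * κ) := by
            rw [pow_succ]
            ring
    exact le_of_mul_le_mul_left hfin (by positivity)

/-- Row A04. The unipotent matrix that diagonalises `b`. PLAN. Entry `(j, k)`, `k < j`, of
`l b = diag (e^v) l`: `(e^(v k) - e^(v j)) l j k = - (b j k + ∑_{k < i < j} l j i * b i k)`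
(the terms `i = j`: `l j j = 1`, `i = k`: `b k k = e^(v k)`; all others vanish), and
`e^(v k) - e^(v j) ≥ e^(v k) / 2`, so `|l j k| ≤ 2 κ (1 + ∑_{k < i < j} |l j i|)`. Strong induction on
`j - k`: `|l j k| ≤ (2 (n + 1)) ^ (j - k) * κ`. -/
theorem lower_rec {n : ℕ} (l b : Matrix (Fin n) (Fin n) ℝ) (v : Fin n → ℝ) (κ : ℝ)
    (hl : ∀ i j, i < j → l i j = 0) (hl1 : ∀ i, l i i = 1)
    (hb : ∀ i j, i < j → b i j = 0) (hb1 : ∀ i, b i i = Real.exp (v i))
    (hlb : l * b = Matrix.diagonal (fun i => Real.exp (v i)) * l)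
    (hv : ∀ j k : Fin n, k < j → 1 ≤ v k - v j) (hκ : 0 ≤ κ) (hκ1 : κ ≤ 1)
    (hbk : ∀ j k : Fin n, k < j → |b j k| ≤ Real.exp (v k) * κ) (j k : Fin n) (hkj : k < j) :
    |l j k| ≤ (2 * ((n : ℝ) + 1)) ^ n * κ := by
  apply A04_step l b v κ hl hl1 hb hb1 hlb hv hκ hκ1 hbk n j k hkj
  have := j.isLt
  omega

end FL27
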