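import Pool.Agent.LibFL27.A01

set_option autoImplicit false

open Matrix MeasureTheory Topology Filter

namespace FL27

open LibNC38

private noncomputable def A05_F {n : ℕ} (q : PD n) : ℝ :=
  ∑ i, ∑ j, (q.1 i j - (1 : Matrix (Fin n) (Fin n) ℝ) i j) ^ 2

private theorem A05_normsq {n : ℕ} (z : V0 n) : ‖z‖ ^ 2 = ∑ i, (z.1 i) ^ 2 := by
  change ‖(z : EuclideanSpace ℝ (Fin n))‖ ^ 2 = _
  rw [EuclideanSpace.norm_sq_eq]
  refine Finset.sum_congr rfl fun i _ => ?_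
  rw [Real.norm_eq_abs, sq_abs]

private theorem A05_pt {n : ℕ} (q : PD n) :
    ∃ z : V0 n, dg (o n) q = 2 * ‖z‖ ∧ A05_F q = ∑ i, (Real.exp (2 * z.1 i) - 1) ^ 2 := by
  obtain ⟨k, z, hk, rfl⟩ := polar q
  refine ⟨z, ?_, frob k z hk⟩
  have h0 : act k (sg (0 : V0 n)) = o n := by
    rw [flat_facts.2.2.2.2.2.2.2.2.2.2.1]
    apply Subtype.ext
    change k.1 * 1 * k.1ᵀ = 1
    rw [mul_one, hk]
  have h1 := dg_flat k (0 : V0 n) z
  rw [h0, zero_sub, norm_neg] at h1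
  exact h1

private theorem A05_big {n : ℕ} (z : V0 n) (h : ∑ i, (Real.exp (2 * z.1 i) - 1) ^ 2 ≤ 1 / 4) :
    ‖z‖ ^ 2 ≤ ∑ i, (Real.exp (2 * z.1 i) - 1) ^ 2 := by
  rw [A05_normsq]
  refine Finset.sum_le_sum fun i _ => ?_
  have h1 : (Real.exp (2 * z.1 i) - 1) ^ 2 ≤ 1 / 4 :=
    (Finset.single_le_sum (f := fun i => (Real.exp (2 * z.1 i) - 1) ^ 2)
      (fun j _ => sq_nonneg _) (Finset.mem_univ i)).trans h
  obtain ⟨a, ha⟩ : ∃ a, a = Real.exp (2 * z.1 i) := ⟨_, rfl⟩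
  have ha0 : 0 < a := by rw [ha]; exact Real.exp_pos _
  have hl : 2 * z.1 i = Real.log a := by rw [ha, Real.log_exp]
  rw [← ha] at h1 ⊢
  have h2 : 1 / 2 ≤ a := by nlinarith [h1]
  have h3 := Real.log_le_sub_one_of_pos ha0
  have h4 := Real.one_sub_inv_le_log_of_pos ha0
  rw [← hl] at h3 h4
  have h5 : 1 - a⁻¹ = (a - 1) / a := by field_simp
  rw [h5] at h4
  rcases le_total 1 a with h6 | h6
  · have h7 : 0 ≤ (a - 1) / a := div_nonneg (by linarith) ha0.le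
    nlinarith [h3, h4, h7]
  · have h7 : -(2 * (1 - a)) ≤ (a - 1) / a := by
      rw [le_div_iff₀ ha0]
      nlinarith [h2, h6]
    nlinarith [h3, h4, h7]

private theorem A05_entry {n : ℕ} (l : SL n) (κ : ℝ) (h0 : 0 ≤ κ) (h1 : κ ≤ 1)
    (h : ∀ i j, |l.1 i j - (1 : Matrix (Fin n) (Fin n) ℝ) i j| ≤ κ) (i j : Fin n) :
    |(act l (o n)).1 i j - (1 : Matrix (Fin n) (Fin n) ℝ) i j| ≤ ((n : ℝ) + 2) * κ := by
  obtain ⟨N, hN⟩ : ∃ N : Matrix (Fin n) (Fin n) ℝ, N = l.1 - 1 := ⟨_, rfl⟩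
  have hb : ∀ i j, |N i j| ≤ κ := fun i j => by
    rw [hN, Matrix.sub_apply]
    exact h i j
  have hl : l.1 = 1 + N := by rw [hN]; abel
  have h2 : (act l (o n)).1 - 1 = N + Nᵀ + N * Nᵀ := by
    rw [act_o, hl, Matrix.transpose_add, Matrix.transpose_one, mul_add, mul_one, add_mul, one_mul]
    abel
  have h3 : (act l (o n)).1 i j - (1 : Matrix (Fin n) (Fin n) ℝ) i j =
      N i j + N j i + ∑ k, N i k * N j k := by
    rw [← Matrix.sub_apply, h2, Matrix.add_apply, Matrix.add_apply, Matrix.transpose_apply,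
      Matrix.mul_apply]
    rfl
  have h4 : |∑ k, N i k * N j k| ≤ n * κ := by
    refine (Finset.abs_sum_le_sum_abs _ _).trans ?_
    have h5 : ∑ k : Fin n, |N i k * N j k| ≤ ∑ _k : Fin n, κ := by
      refine Finset.sum_le_sum fun k _ => ?_
      rw [abs_mul]
      calc |N i k| * |N j k| ≤ κ * 1 :=
            mul_le_mul (hb i k) ((hb j k).trans h1) (abs_nonneg _) h0
        _ = κ := mul_one κ
    rwa [Finset.sum_const, Finset.card_univ, Fintype.card_fin, nsmul_eq_mul] at h5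
  rw [h3]
  have h6 := abs_add_le (N i j + N j i) (∑ k, N i k * N j k)
  have h7 := abs_add_le (N i j) (N j i)
  have h8 := hb i j
  have h9 := hb j i
  linarith

/-- Row A05. Matrices near the identity move the base point little. PLAN. `q = act l (o n) = k e^(2z) kᵀ`
(`polar`), `dg (o n) q = 2 ‖z‖` (see `h0` in the proof of `dg_tp`). `q - 1 = N + Nᵀ + N Nᵀ`, `N = l - 1`,
entries at most `(2 + n) κ`; `frob`: `∑ (exp (2 z i) - 1)² = ∑ (q - 1)_ij² ≤ (n (n+2) κ)² ≤ 1/4`, and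
`|t| ≤ 2 |e^t - 1|` if `|e^t - 1| ≤ 1/2`. So `2 ‖z‖ ≤ 2 √n n (n+2) κ`. -/
theorem dg_near {n : ℕ} : ∃ C > 0, ∃ c > 0, ∀ (l : SL n) (κ : ℝ), 0 ≤ κ →
    (∀ i j, |l.1 i j - (1 : Matrix (Fin n) (Fin n) ℝ) i j| ≤ κ) → κ ≤ c →
      dg (o n) (act l (o n)) ≤ C * κ := by
  have hn : (0 : ℝ) ≤ n := Nat.cast_nonneg n
  refine ⟨2 * (((n : ℝ) + 1) * ((n : ℝ) + 2)), by positivity,
    1 / (2 * (((n : ℝ) + 1) * ((n : ℝ) + 2))), by positivity, fun l κ h0 h hκ => ?_⟩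
  have hP : 0 < ((n : ℝ) + 1) * ((n : ℝ) + 2) := by positivity
  have hκ' : ((n : ℝ) + 1) * ((n : ℝ) + 2) * κ ≤ 1 / 2 := by
    have h1 := mul_le_mul_of_nonneg_left hκ hP.le
    have h2 : ((n : ℝ) + 1) * ((n : ℝ) + 2) * (1 / (2 * (((n : ℝ) + 1) * ((n : ℝ) + 2)))) =
        1 / 2 := by field_simp
    rwa [h2] at h1
  have hκ1 : κ ≤ 1 := by nlinarith [h0, hκ', mul_nonneg hn h0, mul_nonneg (mul_nonneg hn hn) h0]
  obtain ⟨z, hz, hF⟩ := A05_pt (act l (o n))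
  have hent : ∀ i j, ((act l (o n)).1 i j - (1 : Matrix (Fin n) (Fin n) ℝ) i j) ^ 2 ≤
      (((n : ℝ) + 2) * κ) ^ 2 := by
    intro i j
    rw [← sq_abs]
    exact pow_le_pow_left₀ (abs_nonneg _) (A05_entry l κ h0 hκ1 h i j) 2
  have hsum : A05_F (act l (o n)) ≤ (n * (((n : ℝ) + 2) * κ)) ^ 2 := by
    unfold A05_F
    have h1 : ∑ i : Fin n, ∑ j : Fin n,
        ((act l (o n)).1 i j - (1 : Matrix (Fin n) (Fin n) ℝ) i j) ^ 2 ≤
        ∑ _i : Fin n, ∑ _j : Fin n, (((n : ℝ) + 2) * κ) ^ 2 :=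
      Finset.sum_le_sum fun i _ => Finset.sum_le_sum fun j _ => hent i j
    rw [Finset.sum_const, Finset.sum_const, Finset.card_univ, Fintype.card_fin, nsmul_eq_mul,
      nsmul_eq_mul] at h1
    refine h1.trans (le_of_eq ?_)
    ring
  have hle : (n : ℝ) * (((n : ℝ) + 2) * κ) ≤ ((n : ℝ) + 1) * ((n : ℝ) + 2) * κ := by
    nlinarith [mul_nonneg (add_nonneg hn (zero_le_two : (0 : ℝ) ≤ 2)) h0]
  have h0' : 0 ≤ (n : ℝ) * (((n : ℝ) + 2) * κ) := by positivity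
  have hq : (n * (((n : ℝ) + 2) * κ)) ^ 2 ≤ 1 / 4 := by
    have h1 := pow_le_pow_left₀ h0' (hle.trans hκ') 2
    linarith [h1, show ((1 : ℝ) / 2) ^ 2 = 1 / 4 by norm_num]
  have hz2 : ‖z‖ ^ 2 ≤ (n * (((n : ℝ) + 2) * κ)) ^ 2 := by
    have h1 := A05_big z (by rw [← hF]; exact hsum.trans hq)
    rw [← hF] at h1
    exact h1.trans hsum
  have hz3 : ‖z‖ ≤ n * (((n : ℝ) + 2) * κ) := (sq_le_sq₀ (norm_nonneg z) h0').1 hz2
  rw [hz]
  have h5 : 2 * ‖z‖ ≤ 2 * (((n : ℝ) + 1) * ((n : ℝ) + 2) * κ) := by linarith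
  linarith

end FL27
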