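import Pool.Agent.LibFL27.A03
import Pool.Agent.LibFL27.A04
import Pool.Agent.LibFL27.A05
import Pool.Agent.LibNG38.Defs

set_option autoImplicit false

open Matrix MeasureTheory Topology Filter

namespace FL27

open LibNC38

private theorem A06_low_mul {n : ℕ} {a b : SL n} (ha : Lower a) (hb : Lower b) : Lower (a * b) := by
  intro i j hij
  rw [Matrix.SpecialLinearGroup.coe_mul, Matrix.mul_apply]
  refine Finset.sum_eq_zero fun k _ => ?_
  rcases lt_or_ge i k with h | h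
  · rw [ha i k h, zero_mul]
  · rw [hb k j (lt_of_le_of_lt h hij), mul_zero]

private theorem A06_mul_diag {n : ℕ} {a b : SL n} (ha : Lower a) (hb : Lower b) (i : Fin n) :
    (a * b).1 i i = a.1 i i * b.1 i i := by
  rw [Matrix.SpecialLinearGroup.coe_mul, Matrix.mul_apply]
  refine Finset.sum_eq_single i (fun k _ hk => ?_) (fun h => absurd (Finset.mem_univ i) h)
  rcases lt_or_gt_of_ne hk with h | h
  · rw [hb k i h, mul_zero]
  · rw [ha i k h, zero_mul]

private theorem A06_low_inv {n : ℕ} {a : SL n} (ha : Lower a) : Lower a⁻¹ := by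
  have h1 : a.1.BlockTriangular OrderDual.toDual := by
    intro i j hij
    exact ha i j hij
  have hu : IsUnit a.1.det := by rw [a.2]; exact isUnit_one
  haveI : Invertible a.1 := Matrix.invertibleOfIsUnitDet _ hu
  have h2 := Matrix.blockTriangular_inv_of_blockTriangular h1
  intro i j hij
  have e : (a⁻¹).1 = a.1⁻¹ := by
    have h3 : a.1 * (a⁻¹).1 = 1 := by
      rw [← Matrix.SpecialLinearGroup.coe_mul, mul_inv_cancel, Matrix.SpecialLinearGroup.coe_one]
    exact (Matrix.inv_eq_right_inv h3).symm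
  rw [e]
  exact h2 hij

private theorem A06_dgm {n : ℕ} (w : V0 n) (i j : Fin n) :
    (dgm w).1 i j = if i = j then Real.exp (w.1 i) else 0 := by
  show Matrix.diagonal (fun i => Real.exp (w.1 i)) i j = _
  rw [Matrix.diagonal_apply]

private theorem A06_dgm_low {n : ℕ} (w : V0 n) : Lower (dgm w) := by
  intro i j hij
  rw [A06_dgm, if_neg hij.ne]

/-- Row A06 (near_flat with a rate). `x = act t (o n)`, `t = D l`, `D = dgm (Pr x)`, `l` lower unipotent,
`b = l⁻¹ dgm z l`. -/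
theorem near_rate {n : ℕ} : ∃ C > 0, ∃ c > 0, ∀ (z : V0 n) (G δ : ℝ), 1 ≤ G →
    (∀ i j : Fin n, i < j → G ≤ z.1 i - z.1 j) → 0 ≤ δ → δ ≤ c * G → ∀ x : PD n,
      dg x (act (dgm z) x) ^ 2 ≤ 4 * (‖z‖ ^ 2 + δ) → dg x (sg (Pr x)) ≤ C * √ (δ / G) := by
  obtain ⟨C5, hC5, c5, hc5, h5⟩ := dg_near (n := n)
  obtain ⟨Q, hQ⟩ : ∃ Q : ℝ, Q = (2 * ((n : ℝ) + 1)) ^ n := ⟨_, rfl⟩
  have hQ0 : 0 < Q := by rw [hQ]; positivity
  obtain ⟨c, hc⟩ : ∃ c : ℝ, c = min (1 / 2) ((c5 / (2 * Q)) ^ 2) := ⟨_, rfl⟩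
  have hc0 : 0 < c := by rw [hc]; positivity
  refine ⟨C5 * (2 * Q), by positivity, c, hc0, fun z G δ hG hgap hδ hδc x hx => ?_⟩
  have hG0 : 0 < G := by linarith
  obtain ⟨t, ht⟩ : ∃ t, t = tch x := ⟨_, rfl⟩
  have htl : Lower t := by rw [ht]; exact tch_lower x
  have htp : ∀ i, 0 < t.1 i i := by rw [ht]; exact tch_pos x
  have htx : x = act t (o n) := by rw [ht]; exact tch_eq x
  obtain ⟨w, hw⟩ : ∃ w, w = Pr x := ⟨_, rfl⟩
  have hwt : ∀ i, w.1 i = Real.log (t.1 i i) := by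
    intro i
    have h1 := (Pr_facts (n := n)).2.1 t htl (o n) i
    rw [← htx, ← hw] at h1
    have h2 : Pr (o n) = 0 := by
      have h3 := (Pr_facts (n := n)).2.2.2.1 (0 : V0 n)
      rw [(@flat_facts n).2.2.2.2.2.2.2.2.2.2.1] at h3
      exact h3
    rw [h1, h2, abs_of_pos (htp i)]
    simp
  obtain ⟨l, hl⟩ : ∃ l, l = dgm (-w) * t := ⟨_, rfl⟩
  have hll : Lower l := by rw [hl]; exact A06_low_mul (A06_dgm_low _) htl
  have hl1 : ∀ i, l.1 i i = 1 := by
    intro i
    rw [hl, A06_mul_diag (A06_dgm_low _) htl, A06_dgm, if_pos rfl]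
    have : (-w).1 i = - w.1 i := rfl
    rw [this, hwt, Real.exp_neg, Real.exp_log (htp i), inv_mul_cancel₀ (htp i).ne']
  have hadd := (flat_facts (n := n)).2.1
  have hdinv : dgm w * dgm (-w) = 1 := by
    rw [← hadd, add_neg_cancel, (@flat_facts n).2.2.2.2.2.2.2.2.2.2.2]
  have htl2 : t = dgm w * l := by
    rw [hl, ← mul_assoc, hdinv, one_mul]
  have hcomm : dgm w * dgm z = dgm z * dgm w := by
    rw [← hadd, ← hadd, add_comm]
  -- the displacement
  obtain ⟨b, hb⟩ : ∃ b, b = l⁻¹ * (dgm z * l) := ⟨_, rfl⟩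
  have hbl : Lower b := by
    rw [hb]; exact A06_low_mul (A06_low_inv hll) (A06_low_mul (A06_dgm_low _) hll)
  have hlb : l * b = dgm z * l := by rw [hb, mul_inv_cancel_left]
  have hbd : ∀ i, b.1 i i = Real.exp (z.1 i) := by
    intro i
    have h1 : (l * b).1 i i = (dgm z * l).1 i i := by rw [hlb]
    rw [A06_mul_diag hll hbl, A06_mul_diag (A06_dgm_low _) hll, hl1, one_mul, mul_one, A06_dgm,
      if_pos rfl] at h1
    exact h1
  have hdisp : dg x (act (dgm z) x) = dg (o n) (act b (o n)) := by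
    have e1 : act (dgm z) x = act t (act b (o n)) := by
      rw [← act_facts.2.1, htx, ← act_facts.2.1]
      congr 1
      rw [htl2, mul_assoc, hlb, ← mul_assoc, ← mul_assoc, hcomm]
    rw [e1]
    conv_lhs => rw [htx]
    exact dg_act t _ _
  rw [hdisp] at hx
  have hsk := sk_bound b hbl z (fun i => by rw [hbd, abs_of_pos (Real.exp_pos _)]) G δ hG0 hgap hx
  -- `κ`
  have hδG : δ / G ≤ 1 / 2 := by
    rw [div_le_iff₀ hG0]
    have : c ≤ 1 / 2 := by rw [hc]; exact min_le_left _ _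
    nlinarith
  have hδG0 : 0 ≤ δ / G := by positivity
  obtain ⟨κ, hκ⟩ : ∃ κ : ℝ, κ = √ (2 * (δ / G)) := ⟨_, rfl⟩
  have hκ0 : 0 ≤ κ := by rw [hκ]; positivity
  have hκ1 : κ ≤ 1 := by
    rw [hκ, Real.sqrt_le_left zero_le_one]
    linarith
  have hκ2 : κ ^ 2 = 2 * (δ / G) := by rw [hκ]; exact Real.sq_sqrt (by positivity)
  have hexp : Real.exp (δ / G) - 1 ≤ κ ^ 2 := by
    have h1 := Real.abs_exp_sub_one_le (x := δ / G) (by rw [abs_of_nonneg hδG0]; linarith)
    rw [abs_of_nonneg hδG0] at h1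
    have := (abs_le.1 h1).2
    linarith
  have hbk : ∀ j k : Fin n, k < j → |b.1 j k| ≤ Real.exp (z.1 k) * κ := by
    intro j k hkj
    have h1 := hsk j k hkj
    refine abs_le_of_sq_le_sq ?_ (by positivity)
    calc b.1 j k ^ 2 ≤ Real.exp (2 * z.1 k) * (Real.exp (δ / G) - 1) := h1
      _ ≤ Real.exp (2 * z.1 k) * κ ^ 2 := mul_le_mul_of_nonneg_left hexp (Real.exp_pos _).le
      _ = (Real.exp (z.1 k) * κ) ^ 2 := by
          rw [mul_pow, ← Real.exp_nat_mul]
          norm_num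
  have hrec := lower_rec l.1 b.1 (fun i => z.1 i) κ hll hl1 hbl hbd
    (congrArg Subtype.val hlb) (fun j k hkj => hG.trans (hgap k j hkj)) hκ0 hκ1 hbk
  rw [← hQ] at hrec
  have hQκ : Q * κ ≤ c5 := by
    have h1 : κ ≤ c5 / Q := by
      rw [hκ, Real.sqrt_le_left (by positivity)]
      have h2 : c ≤ (c5 / (2 * Q)) ^ 2 := by rw [hc]; exact min_le_right _ _
      have h3 : δ / G ≤ (c5 / (2 * Q)) ^ 2 := by
        rw [div_le_iff₀ hG0]
        exact hδc.trans (mul_le_mul_of_nonneg_right h2 hG0.le)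
      calc 2 * (δ / G) ≤ 2 * (c5 / (2 * Q)) ^ 2 := by linarith
        _ = (c5 / Q) ^ 2 / 2 := by ring
        _ ≤ (c5 / Q) ^ 2 := by
            have := sq_nonneg (c5 / Q)
            linarith
    rw [le_div_iff₀ hQ0] at h1
    linarith
  have hnear := h5 l (Q * κ) (by positivity) (fun i j => by
    rcases lt_trichotomy i j with h | h | h
    · rw [hll i j h, Matrix.one_apply_ne h.ne, sub_zero, abs_zero]; positivity
    · subst h
      rw [hl1, Matrix.one_apply_eq, sub_self, abs_zero]; positivity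
    · rw [Matrix.one_apply_ne h.ne', sub_zero]
      exact hrec i j h) hQκ
  have hfin : dg x (sg (Pr x)) = dg (o n) (act l (o n)) := by
    have e1 : sg (Pr x) = act (dgm w) (o n) := by rw [← hw]; rfl
    have e2 : x = act (dgm w) (act l (o n)) := by
      rw [← act_facts.2.1, ← htl2]; exact htx
    rw [e1]
    conv_lhs => rw [e2]
    rw [dg_act, (dg_facts (n := n)).2.2.1]
  rw [hfin]
  refine hnear.trans ?_
  have hκ3 : κ ≤ 2 * √ (δ / G) := by
    rw [hκ, Real.sqrt_mul (by norm_num)]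
    refine mul_le_mul_of_nonneg_right ?_ (Real.sqrt_nonneg _)
    rw [Real.sqrt_le_left (by norm_num)]
    norm_num
  calc C5 * (Q * κ) ≤ C5 * (Q * (2 * √ (δ / G))) :=
        mul_le_mul_of_nonneg_left (mul_le_mul_of_nonneg_left hκ3 hQ0.le) hC5.le
    _ = _ := by ring

end FL27
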