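import Pool.Agent.LibFL27.A01

set_option autoImplicit false

open Matrix MeasureTheory Topology Filter

namespace FL27

open LibNC38

private theorem A07_norm {n : ℕ} (z : V0 n) (i : Fin n) : |z.1 i| ≤ ‖z‖ := by
  have h := PiLp.norm_apply_le z.1 i
  rw [Real.norm_eq_abs] at h
  exact h

private theorem A07_q {n : ℕ} (q : PD n) (ρ : ℝ) (h : dg (o n) q ≤ ρ) (hρ : ρ ≤ 1) (i j : Fin n) :
    |q.1 i j - (1 : Matrix (Fin n) (Fin n) ℝ) i j| ≤ 2 * ρ := by
  obtain ⟨k, z, hk, hq⟩ := polar q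
  have h1 := dg_flat k (0 : V0 n) z
  rw [(@flat_facts n).2.2.2.2.2.2.2.2.2.2.1, act_orth k hk, zero_sub, norm_neg, ← hq] at h1
  have hz : 2 * ‖z‖ ≤ ρ := by rw [← h1]; exact h
  have hrow : ∀ a : Fin n, ∑ l, k.1 a l ^ 2 = 1 := by
    intro a
    have h2 := congrFun (congrFun hk a) a
    rw [Matrix.mul_apply, Matrix.one_apply_eq] at h2
    refine Eq.trans (Finset.sum_congr rfl fun l _ => ?_) h2
    rw [Matrix.transpose_apply]; ring
  have hsg : (sg z).1 = Matrix.diagonal fun l => Real.exp (2 * z.1 l) := by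
    show (dgm z).1 * (1 : Matrix (Fin n) (Fin n) ℝ) * (dgm z).1ᵀ = _
    rw [Matrix.mul_one]
    show Matrix.diagonal _ * (Matrix.diagonal _)ᵀ = _
    rw [Matrix.diagonal_transpose, Matrix.diagonal_mul_diagonal]
    congr 1
    funext l
    rw [← Real.exp_add]; congr 1; ring
  have hq1 : q.1 - 1 = k.1 * (Matrix.diagonal fun l => Real.exp (2 * z.1 l) - 1) * k.1ᵀ := by
    have e1 : q.1 = k.1 * (Matrix.diagonal fun l => Real.exp (2 * z.1 l)) * k.1ᵀ := by
      rw [← hsg, hq]; rfl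
    have e2 : (Matrix.diagonal fun l => Real.exp (2 * z.1 l) - 1) =
        (Matrix.diagonal fun l => Real.exp (2 * z.1 l)) - 1 := by
      rw [← Matrix.diagonal_one, Matrix.diagonal_sub]
    rw [e1, e2, Matrix.mul_sub, Matrix.sub_mul, Matrix.mul_one, hk]
  have hent : q.1 i j - (1 : Matrix (Fin n) (Fin n) ℝ) i j =
      ∑ l, k.1 i l * (Real.exp (2 * z.1 l) - 1) * k.1 j l := by
    have h2 := congrFun (congrFun hq1 i) j
    rw [Matrix.sub_apply] at h2
    rw [h2, Matrix.mul_apply]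
    refine Finset.sum_congr rfl fun l _ => ?_
    rw [Matrix.mul_diagonal, Matrix.transpose_apply]
  rw [hent]
  calc |∑ l, k.1 i l * (Real.exp (2 * z.1 l) - 1) * k.1 j l|
      ≤ ∑ l, |k.1 i l * (Real.exp (2 * z.1 l) - 1) * k.1 j l| := Finset.abs_sum_le_sum_abs _ _
    _ ≤ ∑ l, 2 * ρ * ((k.1 i l ^ 2 + k.1 j l ^ 2) / 2) := by
        refine Finset.sum_le_sum fun l _ => ?_
        have h3 : |2 * z.1 l| ≤ ρ := by
          rw [abs_mul, abs_of_pos (by norm_num : (0 : ℝ) < 2)]
          have := A07_norm z l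
          linarith
        have h4 : |Real.exp (2 * z.1 l) - 1| ≤ 2 * ρ := by
          have := Real.abs_exp_sub_one_le (h3.trans hρ)
          linarith
        have h5 : |k.1 i l| * |k.1 j l| ≤ (k.1 i l ^ 2 + k.1 j l ^ 2) / 2 := by
          have h6 := sq_nonneg (|k.1 i l| - |k.1 j l|)
          have h7 := sq_abs (k.1 i l)
          have h8 := sq_abs (k.1 j l)
          nlinarith
        have h9 : 0 ≤ |k.1 i l| * |k.1 j l| := by positivity
        rw [abs_mul, abs_mul]
        calc |k.1 i l| * |Real.exp (2 * z.1 l) - 1| * |k.1 j l|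
            = |Real.exp (2 * z.1 l) - 1| * (|k.1 i l| * |k.1 j l|) := by ring
          _ ≤ 2 * ρ * (|k.1 i l| * |k.1 j l|) := mul_le_mul_of_nonneg_right h4 h9
          _ ≤ 2 * ρ * ((k.1 i l ^ 2 + k.1 j l ^ 2) / 2) :=
              mul_le_mul_of_nonneg_left h5 ((abs_nonneg _).trans h4)
    _ = 2 * ρ := by
        rw [← Finset.mul_sum, ← Finset.sum_div, Finset.sum_add_distrib, hrow, hrow]
        norm_num

private theorem A07_geo (n : ℕ) (j : Fin n) :
    ∑ k : Fin n, (if k < j then (5 : ℝ) ^ (k : ℕ) else 0) = ((5 : ℝ) ^ (j : ℕ) - 1) / 4 := by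
  have h1 : ∑ k : Fin n, (if k < j then (5 : ℝ) ^ (k : ℕ) else 0) =
      ∑ m ∈ Finset.range n, (if m < (j : ℕ) then (5 : ℝ) ^ m else 0) := by
    rw [← Fin.sum_univ_eq_sum_range (fun m => if m < (j : ℕ) then (5 : ℝ) ^ m else 0) n]
    refine Finset.sum_congr rfl fun k _ => ?_
    simp only [Fin.lt_def]
  rw [h1, ← Finset.sum_filter]
  have h2 : (Finset.range n).filter (fun m => m < (j : ℕ)) = Finset.range (j : ℕ) := by
    ext m
    rw [Finset.mem_filter, Finset.mem_range, Finset.mem_range]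
    exact ⟨fun h => h.2, fun h => ⟨h.trans j.2, h⟩⟩
  rw [h2]
  have h3 := geom_sum_mul (5 : ℝ) (j : ℕ)
  have h4 : (5 : ℝ) - 1 = 4 := by norm_num
  rw [h4] at h3
  rw [eq_div_iff (by norm_num : (4 : ℝ) ≠ 0)]
  exact h3

/-- Row A07. The Cholesky factor near the identity. PLAN. `u` lower triangular with positive diagonal,
`q = u uᵀ`, `dg (o n) q ≤ ρ ≤ 1`. Diagonal: `log (u i i) = (Pr q) i` (`Pr_facts` (2) with `x = o n`,
`Pr (o n) = 0`), `2 ‖Pr q‖ ≤ ρ` (`Pr_lip_dg`), so `|u i i - 1| ≤ ρ`, `1/2 ≤ u i i`. Entries of `q - 1`: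
`q = k e^(2z) kᵀ` (`polar`), `2 ‖z‖ = dg (o n) q`, `frob`: `|(q - 1) i j| ≤ √ ∑ (exp (2 z i) - 1)² ≤ 3 √n ρ`.
Off the diagonal (`i > j`): `u i j * u j j = q i j - ∑_{k < j} u i k * u j k`, `|u j k| ≤ √ (q j j)`
bounded, so by strong induction on `j` `|u i j| ≤ C_j ρ`. -/
theorem chol_near {n : ℕ} : ∃ C > 0, ∀ (u : SL n) (ρ : ℝ), Lower u → (∀ i, 0 < u.1 i i) →
    dg (o n) (act u (o n)) ≤ ρ → ρ ≤ 1 →
      ∀ i j, |u.1 i j - (1 : Matrix (Fin n) (Fin n) ℝ) i j| ≤ C * ρ := by
  refine ⟨4 * 5 ^ n, by positivity, ?_⟩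
  intro u ρ hL hp hd hρ1
  have hρ0 : 0 ≤ ρ := ((@dg_facts n).1 _ _).trans hd
  -- entries of `q - 1`
  have hq : ∀ i j, |(u.1 * u.1ᵀ) i j - (1 : Matrix (Fin n) (Fin n) ℝ) i j| ≤ 2 * ρ := by
    intro i j
    rw [← act_o u]
    exact A07_q _ ρ hd hρ1 i j
  have hqs : ∀ i j, (u.1 * u.1ᵀ) i j = ∑ k, u.1 i k * u.1 j k := by
    intro i j
    rw [Matrix.mul_apply]
    exact Finset.sum_congr rfl fun k _ => by rw [Matrix.transpose_apply]
  -- the diagonal
  have hPro : Pr (o n) = 0 := by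
    have h := (@Pr_facts n).2.2.2.1 (0 : V0 n)
    rw [(@flat_facts n).2.2.2.2.2.2.2.2.2.2.1] at h
    exact h
  have hdiag : ∀ i, |u.1 i i - 1| ≤ ρ := by
    intro i
    have h1 := (@Pr_facts n).2.1 u hL (o n) i
    rw [hPro] at h1
    have h2 := Pr_lip_dg (o n) (act u (o n))
    rw [hPro, sub_zero] at h2
    have h3 := A07_norm (Pr (act u (o n))) i
    have h4 : (Pr (act u (o n))).1 i = Real.log (u.1 i i) := by
      rw [h1, abs_of_pos (hp i)]
      show (0 : ℝ) + _ = _
      rw [zero_add]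
    rw [h4] at h3
    have h5 : |Real.log (u.1 i i)| ≤ ρ / 2 := by linarith
    have h6 := Real.abs_exp_sub_one_le (x := Real.log (u.1 i i)) (by linarith)
    rw [Real.exp_log (hp i)] at h6
    linarith
  have hhalf : ∀ i, 1 / 2 ≤ u.1 i i := by
    intro i
    have h1 := (@Pr_facts n).2.1 u hL (o n) i
    rw [hPro] at h1
    have h2 := Pr_lip_dg (o n) (act u (o n))
    rw [hPro, sub_zero] at h2
    have h3 := A07_norm (Pr (act u (o n))) i
    have h4 : (Pr (act u (o n))).1 i = Real.log (u.1 i i) := by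
      rw [h1, abs_of_pos (hp i)]
      show (0 : ℝ) + _ = _
      rw [zero_add]
    rw [h4] at h3
    have h5 : |Real.log (u.1 i i)| ≤ 1 / 2 := by linarith
    have h6 : -(1 / 2) ≤ Real.log (u.1 i i) := (abs_le.1 h5).1
    have h7 := Real.add_one_le_exp (Real.log (u.1 i i))
    rw [Real.exp_log (hp i)] at h7
    linarith
  -- all entries are at most 2
  have htwo : ∀ j k, |u.1 j k| ≤ 2 := by
    intro j k
    have h1 := (abs_le.1 (hq j j)).2
    rw [Matrix.one_apply_eq, hqs] at h1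
    have h2 : u.1 j k * u.1 j k ≤ ∑ l, u.1 j l * u.1 j l :=
      Finset.single_le_sum (f := fun l => u.1 j l * u.1 j l) (fun l _ => mul_self_nonneg _)
        (Finset.mem_univ k)
    refine abs_le_of_sq_le_sq ?_ (by norm_num)
    nlinarith
  -- off the diagonal
  have hoff : ∀ m : ℕ, ∀ i j : Fin n, j.val = m → j < i → |u.1 i j| ≤ 4 * 5 ^ m * ρ := by
    intro m
    induction m using Nat.strong_induction_on with
    | _ m ih =>
      intro i j hjm hji
      have h1 := hqs i j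
      rw [← Finset.add_sum_erase _ _ (Finset.mem_univ j)] at h1
      have h2 : |∑ k ∈ Finset.univ.erase j, u.1 i k * u.1 j k| ≤
          ∑ k : Fin n, (if k < j then (5 : ℝ) ^ (k : ℕ) else 0) * (8 * ρ) := by
        calc |∑ k ∈ Finset.univ.erase j, u.1 i k * u.1 j k|
            ≤ ∑ k ∈ Finset.univ.erase j, |u.1 i k * u.1 j k| := Finset.abs_sum_le_sum_abs _ _
          _ ≤ ∑ k ∈ Finset.univ.erase j, (if k < j then (5 : ℝ) ^ (k : ℕ) else 0) * (8 * ρ) := by
              refine Finset.sum_le_sum fun k hk => ?_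
              have hkj : k ≠ j := Finset.ne_of_mem_erase hk
              rcases lt_or_gt_of_ne hkj with hlt | hgt
              · rw [if_pos hlt, abs_mul]
                have h3 := ih k.val (by rw [← hjm]; exact hlt) i k rfl (hlt.trans hji)
                have h4 := htwo j k
                have h5 := abs_nonneg (u.1 i k)
                have h6 := abs_nonneg (u.1 j k)
                calc |u.1 i k| * |u.1 j k| ≤ (4 * 5 ^ k.val * ρ) * 2 :=
                      mul_le_mul h3 h4 h6 (h5.trans h3)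
                  _ = 5 ^ (k : ℕ) * (8 * ρ) := by ring
              · rw [if_neg (not_lt_of_gt hgt), hL j k hgt, mul_zero, abs_zero, zero_mul]
          _ ≤ ∑ k : Fin n, (if k < j then (5 : ℝ) ^ (k : ℕ) else 0) * (8 * ρ) := by
              refine Finset.sum_le_sum_of_subset_of_nonneg (Finset.erase_subset _ _)
                fun k _ _ => ?_
              refine mul_nonneg ?_ (by linarith)
              split_ifs
              · positivity
              · exact le_refl _
      rw [← Finset.sum_mul, A07_geo n j, hjm] at h2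
      have h3 := hq i j
      rw [Matrix.one_apply_ne (ne_of_gt hji), sub_zero] at h3
      have h4 : u.1 i j * u.1 j j = (u.1 * u.1ᵀ) i j -
          ∑ k ∈ Finset.univ.erase j, u.1 i k * u.1 j k := by rw [h1]; ring
      have h5 : |u.1 i j| * u.1 j j ≤ 2 * ρ + ((5 : ℝ) ^ m - 1) / 4 * (8 * ρ) := by
        rw [← abs_of_pos (hp j), ← abs_mul, h4]
        exact (abs_sub _ _).trans (add_le_add h3 h2)
      have h6 : |u.1 i j| * (1 / 2) ≤ |u.1 i j| * u.1 j j :=
        mul_le_mul_of_nonneg_left (hhalf j) (abs_nonneg _)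
      have h7 : 2 * ρ + ((5 : ℝ) ^ m - 1) / 4 * (8 * ρ) = 2 * 5 ^ m * ρ := by ring
      rw [h7] at h5
      linarith
  intro i j
  have hpow : ∀ m : ℕ, m ≤ n → (5 : ℝ) ^ m ≤ 5 ^ n := fun m hm =>
    pow_le_pow_right₀ (by norm_num) hm
  rcases lt_trichotomy i j with hij | hij | hij
  · rw [hL i j hij, Matrix.one_apply_ne (ne_of_lt hij), sub_zero, abs_zero]
    positivity
  · subst hij
    rw [Matrix.one_apply_eq]
    refine (hdiag i).trans ?_
    have h1 := hpow 0 (Nat.zero_le n)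
    rw [pow_zero] at h1
    nlinarith
  · rw [Matrix.one_apply_ne (ne_of_gt hij), sub_zero]
    refine (hoff j.val i j rfl hij).trans ?_
    have h1 := hpow j.val j.2.le
    exact mul_le_mul_of_nonneg_right (by linarith) hρ0

end FL27
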