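import Pool.Agent.LibFL27.Defs
import Pool.Agent.LibFL27.A01

set_option autoImplicit false

open Matrix MeasureTheory Topology Filter

namespace FL27

open LibNC38 LibNC27

/-- Row A08. A function with one bounded derivative is Lipschitz along curves. PLAN: for every `s` the curve
`t ↦ c (s + t / r)` has derivative `c s * (r⁻¹ • X s)` at `0` and `r⁻¹ • X s` has entries in `[-1, 1]`, so by `BD 1 M F`
(`RD`) `F ∘ c` has a derivative of absolute value `≤ r M` at every `s` (chain rule with `t = r τ`); mean value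
inequality on `[0, 1]` (`norm_image_sub_le_of_norm_deriv_le_segment_01'` or similar). Case `r = 0`: use `r + ε`
or treat `r > 0` only: `0 < r` is assumed. -/
theorem bd_curve {n : ℕ} (F : Fn n) (M : ℝ) (hF : BD 1 M F) (c : ℝ → SL n) (X : ℝ → Matrix (Fin n) (Fin n) ℝ) (r : ℝ)
    (hr : 0 < r) (hX : ∀ s ∈ Set.Icc (0 : ℝ) 1, (X s).trace = 0 ∧ ∀ a b, |X s a b| ≤ r)
    (hc : ∀ s ∈ Set.Icc (0 : ℝ) 1, ∀ a b, HasDerivAt (fun t => (c t).1 a b) (((c s).1 * X s) a b) s) :
    |F (c 1) - F (c 0)| ≤ r * M := by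
  have key : ∀ s ∈ Set.Icc (0 : ℝ) 1, ∃ e : ℝ, |e| ≤ r * M ∧ HasDerivAt (fun t => F (c t)) e s := by
    intro s hs
    obtain ⟨hX1, hX2⟩ := hX s hs
    obtain ⟨F', hRD, hF'⟩ := hF.2 (r⁻¹ • X s) (by rw [Matrix.trace_smul, hX1, smul_zero])
      (fun a b => by
        rw [Matrix.smul_apply, smul_eq_mul, abs_mul, abs_of_pos (inv_pos.2 hr), inv_mul_le_iff₀ hr,
          mul_one]
        exact hX2 a b)
    have h1 := hRD (fun t => c (s + r⁻¹ * t)) (by
      intro a b
      have h2 : HasDerivAt (fun t : ℝ => s + r⁻¹ * t) (r⁻¹ * 1) 0 :=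
        ((hasDerivAt_id (0 : ℝ)).const_mul r⁻¹).const_add s
      have h3 : HasDerivAt (fun t => (c t).1 a b) (((c s).1 * X s) a b) (s + r⁻¹ * 0) := by
        rw [mul_zero, add_zero]
        exact hc s hs a b
      have h4 := HasDerivAt.comp (0 : ℝ) h3 h2
      have h5 : ((c (s + r⁻¹ * 0)).1 * (r⁻¹ • X s)) a b = ((c s).1 * X s) a b * (r⁻¹ * 1) := by
        rw [mul_zero, add_zero, Matrix.mul_smul, Matrix.smul_apply, smul_eq_mul, mul_one, mul_comm]
      rw [h5]
      exact h4)
    have h6 : HasDerivAt (fun t : ℝ => r * (t - s)) (r * 1) s :=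
      ((hasDerivAt_id s).sub_const s).const_mul r
    have h7 : HasDerivAt (fun t => F (c (s + r⁻¹ * t))) (F' (c s)) (r * (s - s)) := by
      have h8 : c (s + r⁻¹ * 0) = c s := by rw [mul_zero, add_zero]
      rw [sub_self, mul_zero]
      have h9 := h1
      simp only [h8] at h9
      exact h9
    have h10 := HasDerivAt.comp s h7 h6
    have h11 : ((fun t => F (c (s + r⁻¹ * t))) ∘ fun t : ℝ => r * (t - s)) = fun t => F (c t) := by
      funext t
      show F (c (s + r⁻¹ * (r * (t - s)))) = F (c t)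
      rw [← mul_assoc, inv_mul_cancel₀ hr.ne', one_mul, add_sub_cancel]
    rw [h11] at h10
    refine ⟨F' (c s) * (r * 1), ?_, h10⟩
    rw [mul_one, abs_mul, abs_of_pos hr, mul_comm]
    exact mul_le_mul_of_nonneg_left (hF'.2 _) hr.le
  choose! e he1 he2 using key
  have h1 := Convex.norm_image_sub_le_of_norm_hasDerivWithin_le (f := fun t => F (c t)) (f' := e)
    (s := Set.Icc (0 : ℝ) 1) (C := r * M) (fun s hs => (he2 s hs).hasDerivWithinAt)
    (fun s hs => by rw [Real.norm_eq_abs]; exact he1 s hs) (convex_Icc 0 1)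
    (Set.left_mem_Icc.2 zero_le_one) (Set.right_mem_Icc.2 zero_le_one)
  rw [Real.norm_eq_abs, Real.norm_eq_abs, sub_zero, abs_one, mul_one] at h1
  exact h1

end FL27
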