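import Pool.Agent.LibFL27.A07
import Pool.Agent.LibFL27.A08

set_option autoImplicit false

open Matrix MeasureTheory Topology Filter

namespace FL27

open LibNC38 LibNC27

private theorem A09_low_iff {n : ℕ} (g : SL n) :
    Lower g ↔ Matrix.BlockTriangular g.1 (OrderDual.toDual : Fin n → (Fin n)ᵒᵈ) :=
  ⟨fun h i j hij => h i j hij, fun h i j hij => h hij⟩

private theorem A09_low_mul {n : ℕ} (g h : SL n) (hg : Lower g) (hh : Lower h) :
    Lower (g * h) := by
  rw [A09_low_iff] at *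
  exact hg.mul hh

private theorem A09_low_inv {n : ℕ} (g : SL n) (hg : Lower g) : Lower g⁻¹ := by
  rw [A09_low_iff] at *
  have hdet : IsUnit g.1.det := by rw [g.2]; exact isUnit_one
  have : Invertible g.1 := Matrix.invertibleOfIsUnitDet g.1 hdet
  have h2 := Matrix.blockTriangular_inv_of_blockTriangular hg
  have h3 : (g⁻¹ : SL n).1 = (g.1)⁻¹ := by
    symm
    apply Matrix.inv_eq_left_inv
    have h4 : ((g⁻¹ * g : SL n)).1 = 1 := by rw [inv_mul_cancel]; rfl
    exact h4
  rw [h3]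
  exact h2

private theorem A09_diag_mul {n : ℕ} (A B : Matrix (Fin n) (Fin n) ℝ)
    (hA : ∀ i j, i < j → A i j = 0) (hB : ∀ i j, i < j → B i j = 0) (i : Fin n) :
    (A * B) i i = A i i * B i i := by
  rw [Matrix.mul_apply, Finset.sum_eq_single i]
  · intro k _ hk
    rcases lt_or_gt_of_ne hk with h | h
    · rw [hB k i h, mul_zero]
    · rw [hA i k h, zero_mul]
  · intro h
    exact absurd (Finset.mem_univ i) h

private theorem A09_inv_bound {n : ℕ} (A : SL n) (B : ℝ) (hB : 1 ≤ B) (h : ∀ i j, |A.1 i j| ≤ B)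
    (i j : Fin n) : |(A⁻¹ : SL n).1 i j| ≤ (n.factorial : ℝ) * B ^ n := by
  have h0 : (A⁻¹ : SL n).1 = Matrix.adjugate A.1 := rfl
  rw [h0, Matrix.adjugate_apply]
  have h1 : ∀ a b, AbsoluteValue.abs ((A.1.updateRow j (Pi.single i 1)) a b) ≤ B := by
    intro a b
    show |(A.1.updateRow j (Pi.single i 1)) a b| ≤ B
    by_cases hj : a = j
    · subst hj
      rw [Matrix.updateRow_self]
      by_cases hb : b = i
      · subst hb
        rw [Pi.single_eq_same, abs_one]
        exact hB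
      · rw [Pi.single_eq_of_ne hb, abs_zero]
        linarith
    · rw [Matrix.updateRow_ne hj]
      exact h a b
  have h2 := Matrix.det_le h1
  rw [Fintype.card_fin, nsmul_eq_mul] at h2
  exact h2

private theorem A09_Pr_o {n : ℕ} : Pr (o n) = 0 := by
  have h1 := (Pr_facts (n := n)).2.2.2.1 0
  have h2 : sg (0 : V0 n) = o n := by
    unfold sg
    rw [(dgm_facts (n := n)).2.2.2.1, (act_facts (n := n)).1]
  rwa [h2] at h1

private theorem A09_abs {n : ℕ} (w : V0 n) (i : Fin n) : |w.1 i| ≤ ‖w‖ := by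
  have h := PiLp.norm_apply_le w.1 i
  exact h

private theorem A09_exp {x : ℝ} (hx : |x| ≤ 1 / 2) : Real.exp x ≤ 2 := by
  have h1 : Real.exp x ≤ Real.exp (1 / 2) := Real.exp_le_exp.2 ((le_abs_self x).trans hx)
  have h2 : (1 / 2 : ℝ) ≤ Real.exp (-(1 / 2)) := by
    have := Real.one_sub_le_exp_neg (1 / 2)
    linarith
  have h3 : Real.exp (1 / 2) * Real.exp (-(1 / 2)) = 1 := by
    rw [← Real.exp_add, add_neg_cancel, Real.exp_zero]
  have h4 := Real.exp_pos (1 / 2)
  nlinarith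

/-- diagonal step -/
private theorem A09_diag {n : ℕ} (F : Fn n) (M : ℝ) (hF : BD 1 M F) (g : SL n) (w : V0 n) (ρ : ℝ)
    (hρ : 0 < ρ) (hw : ‖w‖ ≤ ρ) : |F (g * dgm w) - F g| ≤ ρ * M := by
  have hv : ∀ (v : V0 n) (a b : Fin n), (dgm v).1 a b = if a = b then Real.exp (v.1 a) else 0 := by
    intro v a b
    show Matrix.diagonal (fun i => Real.exp (v.1 i)) a b = _
    rw [Matrix.diagonal_apply]
  have hm : ∀ (v : V0 n) (a b : Fin n), (g * dgm v).1 a b = g.1 a b * Real.exp (v.1 b) := by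
    intro v a b
    show (g.1 * Matrix.diagonal (fun i => Real.exp (v.1 i))) a b = _
    rw [Matrix.mul_diagonal]
  have h := bd_curve F M hF (fun s => g * dgm (s • w))
    (fun _ => Matrix.diagonal fun i => w.1 i) ρ hρ ?_ ?_
  · have e1 : dgm ((1 : ℝ) • w) = dgm w := by rw [one_smul]
    have e0 : dgm ((0 : ℝ) • w) = 1 := (dgm_facts (n := n)).2.2.1 w
    simp only [e1, e0, mul_one] at h
    exact h
  · intro s _
    refine ⟨?_, ?_⟩
    · rw [Matrix.trace_diagonal]
      exact sum_V0 w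
    · intro a b
      rw [Matrix.diagonal_apply]
      split_ifs
      · exact (A09_abs w a).trans hw
      · rw [abs_zero]; exact hρ.le
  · intro s _ a b
    have e1 : (fun t : ℝ => (g * dgm (t • w)).1 a b) = fun t => g.1 a b * Real.exp (t * w.1 b) := by
      funext t
      rw [hm]
      rfl
    have e2 : ((g * dgm (s • w)).1 * Matrix.diagonal fun i => w.1 i) a b =
        g.1 a b * (Real.exp (s * w.1 b) * w.1 b) := by
      rw [Matrix.mul_diagonal, hm]
      show g.1 a b * Real.exp (s * w.1 b) * w.1 b = _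
      ring
    show HasDerivAt (fun t : ℝ => (g * dgm (t • w)).1 a b) _ s
    rw [e1]
    show HasDerivAt _ (((g * dgm (s • w)).1 * Matrix.diagonal fun i => w.1 i) a b) s
    rw [e2]
    have h1 : HasDerivAt (fun t : ℝ => t * w.1 b) (w.1 b) s := by
      simpa using (hasDerivAt_id s).mul_const (w.1 b)
    exact h1.exp.const_mul _

/-- unipotent step -/
private theorem A09_uni {n : ℕ} (F : Fn n) (M : ℝ) (hF : BD 1 M F) (G l : SL n) (hl : Lower l)
    (hd : ∀ i, l.1 i i = 1) (D ρ : ℝ) (hD : 0 ≤ D) (hρ : 0 < ρ) (hρ1 : ρ ≤ 1)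
    (hb : ∀ i j, i ≠ j → |l.1 i j| ≤ D * ρ) :
    |F (G * l) - F G| ≤ ((n : ℝ) * ((n.factorial : ℝ) * (1 + D) ^ n) * D + 1) * ρ * M := by
  let N : Matrix (Fin n) (Fin n) ℝ := l.1 - 1
  have hNz : ∀ i j, i ≤ j → N i j = 0 := by
    intro i j hij
    show l.1 i j - (1 : Matrix (Fin n) (Fin n) ℝ) i j = 0
    rcases hij.lt_or_eq with h | h
    · rw [hl i j h, Matrix.one_apply_ne h.ne, sub_zero]
    · subst h
      rw [hd, Matrix.one_apply_eq, sub_self]
  have hNb : ∀ i j, |N i j| ≤ D * ρ := by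
    intro i j
    by_cases h : i = j
    · rw [hNz i j h.le, abs_zero]
      exact mul_nonneg hD hρ.le
    · show |l.1 i j - (1 : Matrix (Fin n) (Fin n) ℝ) i j| ≤ D * ρ
      rw [Matrix.one_apply_ne h, sub_zero]
      exact hb i j h
  have hdet : ∀ s : ℝ, (1 + s • N).det = 1 := by
    intro s
    have h1 : (1 + s • N).IsLowerTriangular := by
      intro i j hij
      have hij' : i < j := hij
      show (1 : Matrix (Fin n) (Fin n) ℝ) i j + s * N i j = 0
      rw [Matrix.one_apply_ne hij'.ne, hNz i j hij'.le, mul_zero, add_zero]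
    rw [Matrix.det_of_isLowerTriangular _ h1]
    refine Finset.prod_eq_one fun i _ => ?_
    show (1 : Matrix (Fin n) (Fin n) ℝ) i i + s * N i i = 1
    rw [Matrix.one_apply_eq, hNz i i le_rfl, mul_zero, add_zero]
  let L : ℝ → SL n := fun s => ⟨1 + s • N, hdet s⟩
  have hLv : ∀ s, (L s).1 = 1 + s • N := fun s => rfl
  have hLl : ∀ s, Lower (L s) := by
    intro s i j hij
    show (1 : Matrix (Fin n) (Fin n) ℝ) i j + s * N i j = 0
    rw [Matrix.one_apply_ne hij.ne, hNz i j hij.le, mul_zero, add_zero]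
  have hLb : ∀ s ∈ Set.Icc (0 : ℝ) 1, ∀ i j, |(L s).1 i j| ≤ 1 + D := by
    intro s hs i j
    show |(1 : Matrix (Fin n) (Fin n) ℝ) i j + s * N i j| ≤ 1 + D
    have h1 : |(1 : Matrix (Fin n) (Fin n) ℝ) i j| ≤ 1 := by
      rw [Matrix.one_apply]
      split_ifs <;> simp
    have h2 : |s * N i j| ≤ D := by
      rw [abs_mul, abs_of_nonneg hs.1]
      have h3 := hNb i j
      have h4 : D * ρ ≤ D := by nlinarith
      have h5 := abs_nonneg (N i j)
      nlinarith [hs.2]
    exact (abs_add_le _ _).trans (add_le_add h1 h2)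
  have hr : 0 < ((n : ℝ) * ((n.factorial : ℝ) * (1 + D) ^ n) * D + 1) * ρ := by positivity
  have h := bd_curve F M hF (fun s => G * L s) (fun s => ((L s)⁻¹ : SL n).1 * N)
    (((n : ℝ) * ((n.factorial : ℝ) * (1 + D) ^ n) * D + 1) * ρ) hr ?_ ?_
  · have e1 : L 1 = l := by
      apply Subtype.ext
      show 1 + (1 : ℝ) • (l.1 - 1) = l.1
      rw [one_smul, add_sub_cancel]
    have e0 : L 0 = 1 := by
      apply Subtype.ext
      show 1 + (0 : ℝ) • N = 1
      rw [zero_smul, add_zero]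
    simp only [e1, e0, mul_one] at h
    exact h
  · intro s hs
    have hinvl := A09_low_inv _ (hLl s)
    refine ⟨?_, ?_⟩
    · rw [Matrix.trace]
      refine Finset.sum_eq_zero fun i _ => ?_
      rw [Matrix.diag_apply, Matrix.mul_apply]
      refine Finset.sum_eq_zero fun k _ => ?_
      rcases lt_or_ge i k with h1 | h1
      · rw [hinvl i k h1, zero_mul]
      · rw [hNz k i h1, mul_zero]
    · intro a b
      rw [Matrix.mul_apply]
      have hB := A09_inv_bound (L s) (1 + D) (by linarith) (hLb s hs)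
      have h1 : ∀ k ∈ (Finset.univ : Finset (Fin n)),
          |((L s)⁻¹ : SL n).1 a k * N k b| ≤ (n.factorial : ℝ) * (1 + D) ^ n * (D * ρ) := by
        intro k _
        rw [abs_mul]
        exact mul_le_mul (hB a k) (hNb k b) (abs_nonneg _) (by positivity)
      have h2 := (Finset.abs_sum_le_sum_abs (fun k => ((L s)⁻¹ : SL n).1 a k * N k b)
        Finset.univ).trans (Finset.sum_le_sum h1)
      rw [Finset.sum_const, Finset.card_univ, Fintype.card_fin, nsmul_eq_mul] at h2
      refine h2.trans ?_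
      have e : ((n : ℝ) * ((n.factorial : ℝ) * (1 + D) ^ n) * D + 1) * ρ =
          (n : ℝ) * ((n.factorial : ℝ) * (1 + D) ^ n * (D * ρ)) + ρ := by ring
      rw [e]
      linarith
  · intro s _ a b
    have e1 : ∀ t : ℝ, (G * L t).1 a b = G.1 a b + t * (G.1 * N) a b := by
      intro t
      show (G.1 * (1 + t • N)) a b = _
      rw [Matrix.mul_add, Matrix.mul_one, Matrix.mul_smul]
      rfl
    have e2 : (G * L s).1 * (((L s)⁻¹ : SL n).1 * N) = G.1 * N := by
      have h1 : (L s).1 * ((L s)⁻¹ : SL n).1 = 1 := congrArg Subtype.val (mul_inv_cancel (L s))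
      show (G.1 * (L s).1) * (((L s)⁻¹ : SL n).1 * N) = G.1 * N
      rw [Matrix.mul_assoc, ← Matrix.mul_assoc (L s).1, h1, Matrix.one_mul]
    show HasDerivAt (fun t : ℝ => (G * L t).1 a b)
      (((G * L s).1 * (((L s)⁻¹ : SL n).1 * N)) a b) s
    rw [e2, funext e1]
    have h1 : HasDerivAt (fun t : ℝ => t * (G.1 * N) a b) ((G.1 * N) a b) s := by
      simpa using (hasDerivAt_id s).mul_const ((G.1 * N) a b)
    exact h1.const_add _

private theorem A09_main {n : ℕ} (C7 : ℝ) (hC7 : 0 < C7)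
    (h7 : ∀ (u : SL n) (ρ : ℝ), Lower u → (∀ i, 0 < u.1 i i) →
      dg (o n) (act u (o n)) ≤ ρ → ρ ≤ 1 →
      ∀ i j, |u.1 i j - (1 : Matrix (Fin n) (Fin n) ℝ) i j| ≤ C7 * ρ)
    (F : Fn n) (M : ℝ) (hF : BD 1 M F) (g u : SL n) (ρ : ℝ) (hu : Lower u)
    (hpos : ∀ i, 0 < u.1 i i) (hd : dg (o n) (act u (o n)) ≤ ρ) (hρ : 0 < ρ) (hρ1 : ρ ≤ 1) :
    |F g - F (g * u)| ≤
      (((n : ℝ) * ((n.factorial : ℝ) * (1 + 2 * C7) ^ n) * (2 * C7) + 1) + 1) * M * ρ := by
  obtain ⟨-, pr2, -, -, -⟩ := Pr_facts (n := n)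
  set w : V0 n := Pr (act u (o n)) with hw
  have hwi : ∀ i, w.1 i = Real.log (u.1 i i) := by
    intro i
    rw [hw, pr2 u hu (o n) i, A09_Pr_o, abs_of_pos (hpos i)]
    show (0 : ℝ) + _ = _
    rw [zero_add]
  have hwn : ‖w‖ ≤ ρ / 2 := by
    have h1 := Pr_lip_dg (o n) (act u (o n))
    rw [A09_Pr_o, sub_zero] at h1
    linarith
  have hv : ∀ (v : V0 n) (i j : Fin n), (dgm v * u).1 i j = Real.exp (v.1 i) * u.1 i j := by
    intro v i j
    show (Matrix.diagonal (fun i => Real.exp (v.1 i)) * u.1) i j = _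
    rw [Matrix.diagonal_mul]
  have hneg : ∀ i, (-w).1 i = -w.1 i := fun i => rfl
  set l : SL n := dgm (-w) * u with hl
  have hlv : ∀ i j, l.1 i j = Real.exp (-w.1 i) * u.1 i j := by
    intro i j
    rw [hl, hv, hneg]
  have hll : Lower l := by
    intro i j hij
    rw [hlv, hu i j hij, mul_zero]
  have hld : ∀ i, l.1 i i = 1 := by
    intro i
    rw [hlv, Real.exp_neg, hwi, Real.exp_log (hpos i)]
    exact inv_mul_cancel₀ (hpos i).ne'
  have hlb : ∀ i j, i ≠ j → |l.1 i j| ≤ 2 * C7 * ρ := by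
    intro i j hij
    have h1 := h7 u ρ hu hpos hd hρ1 i j
    rw [Matrix.one_apply_ne hij, sub_zero] at h1
    have h2 : Real.exp (-w.1 i) ≤ 2 := by
      refine A09_exp ?_
      rw [abs_neg]
      have := A09_abs w i
      linarith
    rw [hlv, abs_mul, abs_of_pos (Real.exp_pos _)]
    calc Real.exp (-w.1 i) * |u.1 i j| ≤ 2 * (C7 * ρ) :=
          mul_le_mul h2 h1 (abs_nonneg _) (by norm_num)
      _ = 2 * C7 * ρ := by ring
  have hM : 0 ≤ M := (abs_nonneg _).trans (hF.1.2 g)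
  have s1 := A09_diag F M hF g w ρ hρ (by linarith)
  have s2 := A09_uni F M hF (g * dgm w) l hll hld (2 * C7) ρ (by linarith) hρ hρ1 hlb
  have e : g * dgm w * l = g * u := by
    rw [hl, mul_assoc, ← mul_assoc (dgm w), ← (dgm_facts (n := n)).1, add_neg_cancel,
      (dgm_facts (n := n)).2.2.2.1, one_mul]
  rw [e] at s2
  have h3 : |F g - F (g * u)| ≤ |F (g * dgm w) - F g| + |F (g * u) - F (g * dgm w)| := by
    have h4 : F g - F (g * u) = -(F (g * dgm w) - F g) - (F (g * u) - F (g * dgm w)) := by ring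
    rw [h4]
    refine (abs_sub _ _).trans ?_
    rw [abs_neg]
  refine h3.trans ((add_le_add s1 s2).trans (le_of_eq ?_))
  ring

/-- Row A09. Lipschitz estimate in the frame of the Cholesky factors. PLAN. It is enough to treat
`ρ = dg p p' ≤ 1` with `ρ > 0` (for `ρ > 1`: `|F| ≤ M`, the difference is at most `2 M`; `ρ = 0`: `p = p'`
by `dg_nhds`, or take `ρ' > ρ` arbitrary). `u = (tch p)⁻¹ * tch p'` is lower triangular with positive
diagonal (`tch_lower`, `tch_pos`; inverse and product of such matrices) and `dg (o n) (act u (o n)) = dg p p'`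
(`dg_act`, `tch_eq`). A07: `|u - 1| ≤ C ρ`. Write `u = dgm w * l` with `w = Pr (act u (o n))`, `‖w‖ ≤ ρ / 2`,
`l = dgm (-w) * u` lower unipotent with entries `≤ C' ρ` off the diagonal. Curves: `g * dgm (s w)`
(`X s = diag w`) and `g * dgm w * (1 + s (l - 1))` (`X s = (1 + s N)⁻¹ N`, strictly lower triangular, entries
`≤ C'' ρ`: for instance by the recursion `X = N - s N X`). A08 for both. -/
theorem tch_lip {n : ℕ} : ∃ C > 0, ∀ (F : Fn n) (M : ℝ), BD 1 M F → ∀ (x : SL n) (p p' : PD n),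
    |F (x * tch p) - F (x * tch p')| ≤ C * M * dg p p' := by
  obtain ⟨C7, hC7, h7⟩ := chol_near (n := n)
  obtain ⟨act1, actm, -⟩ := act_facts (n := n)
  set K : ℝ := ((n : ℝ) * ((n.factorial : ℝ) * (1 + 2 * C7) ^ n) * (2 * C7) + 1) + 1 with hK
  have hK2 : 2 ≤ K := by
    have : 0 ≤ (n : ℝ) * ((n.factorial : ℝ) * (1 + 2 * C7) ^ n) * (2 * C7) := by positivity
    rw [hK]
    linarith
  refine ⟨K, by linarith, ?_⟩
  intro F M hF x p p'
  have hM : 0 ≤ M := (abs_nonneg _).trans (hF.1.2 x)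
  have hKM : 0 ≤ K * M := mul_nonneg (by linarith) hM
  have hd0 : 0 ≤ dg p p' := (dg_facts (n := n)).1 p p'
  set u : SL n := (tch p)⁻¹ * tch p' with hu
  have hup : x * tch p * u = x * tch p' := by rw [hu]; group
  have hlow : Lower u := A09_low_mul _ _ (A09_low_inv _ (tch_lower p)) (tch_lower p')
  have hpos : ∀ i, 0 < u.1 i i := by
    intro i
    have h1 : ((tch p)⁻¹ : SL n).1 * (tch p).1 = 1 := congrArg Subtype.val (inv_mul_cancel (tch p))
    have h2 : ((tch p)⁻¹ : SL n).1 i i * (tch p).1 i i = 1 := by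
      rw [← A09_diag_mul _ _ (A09_low_inv _ (tch_lower p)) (tch_lower p), h1, Matrix.one_apply_eq]
    have h3 : 0 < ((tch p)⁻¹ : SL n).1 i i := by
      by_contra hc
      have h4 := tch_pos p i
      have h5 : ((tch p)⁻¹ : SL n).1 i i ≤ 0 := not_lt.1 hc
      nlinarith
    have h6 : u.1 i i = ((tch p)⁻¹ : SL n).1 i i * (tch p').1 i i :=
      A09_diag_mul _ _ (A09_low_inv _ (tch_lower p)) (tch_lower p') i
    rw [h6]
    exact mul_pos h3 (tch_pos p' i)
  have hdg : dg (o n) (act u (o n)) = dg p p' := by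
    have h1 : act (tch p) (o n) = p := (tch_eq p).symm
    have h2 : act (tch p) (act u (o n)) = p' := by
      rw [← actm, hu, mul_inv_cancel_left, ← tch_eq]
    rw [← dg_act (tch p) (o n) (act u (o n)), h1, h2]
  have hmain : ∀ ρ : ℝ, 0 < ρ → ρ ≤ 1 → dg p p' ≤ ρ →
      |F (x * tch p) - F (x * tch p')| ≤ K * M * ρ := by
    intro ρ h1 h2 h3
    have h4 := A09_main C7 hC7 h7 F M hF (x * tch p) u ρ hlow hpos (by rw [hdg]; exact h3) h1 h2
    rw [hup] at h4
    exact h4
  rcases lt_or_ge 1 (dg p p') with h1 | h1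
  · have h2 : |F (x * tch p) - F (x * tch p')| ≤ M + M :=
      (abs_sub _ _).trans (add_le_add (hF.1.2 _) (hF.1.2 _))
    nlinarith [mul_nonneg hM (sub_nonneg.2 hK2), mul_nonneg hKM (sub_nonneg.2 h1.le)]
  · rcases hd0.lt_or_eq with h2 | h2
    · exact hmain _ h2 h1 le_rfl
    · rw [← h2, mul_zero]
      refine le_of_forall_pos_le_add fun ε hε => ?_
      rw [zero_add]
      have h3 : 0 < min 1 (ε / (K * M + 1)) := lt_min one_pos (div_pos hε (by linarith))
      have h4 := hmain (min 1 (ε / (K * M + 1))) h3 (min_le_left _ _) (by rw [← h2]; exact h3.le)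
      refine h4.trans ?_
      have h5 : K * M * min 1 (ε / (K * M + 1)) ≤ K * M * (ε / (K * M + 1)) :=
        mul_le_mul_of_nonneg_left (min_le_right _ _) hKM
      refine h5.trans ?_
      rw [mul_div_assoc', div_le_iff₀ (by linarith)]
      nlinarith

end FL27
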