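import Pool.Agent.LibFL27.A09
import Pool.Agent.LibNE38.E0
import Pool.Agent.LibNE38.E4
import Pool.Agent.LibNG38.GK4

set_option autoImplicit false

open Matrix MeasureTheory Topology Filter

namespace FL27

open LibNC38

/-- the deformation in the direction of the heights, seen from `x` -/
noncomputable def psi0 {n : ℕ} (h : PD n → Fm n) (x : SL n) (z : V0 n) (p : PD n) : ℝ :=
  pbF x h p (eht z p) (eht z p) - 1

theorem A10_inv {n : ℕ} (g : SL n) : g.1 * (g⁻¹).1 = 1 ∧ (g⁻¹).1 * g.1 = 1 := by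
  constructor
  · rw [← Matrix.SpecialLinearGroup.coe_mul, mul_inv_cancel, Matrix.SpecialLinearGroup.coe_one]
  · rw [← Matrix.SpecialLinearGroup.coe_mul, inv_mul_cancel, Matrix.SpecialLinearGroup.coe_one]

theorem A10_vec {n : ℕ} (g : SL n) (v : Matrix (Fin n) (Fin n) ℝ) :
    g.1 * ((g⁻¹).1 * v * (g⁻¹).1ᵀ) * g.1ᵀ = v := by
  have h2 : (g⁻¹).1ᵀ * g.1ᵀ = 1 := by rw [← Matrix.transpose_mul, (A10_inv g).1, Matrix.transpose_one]
  calc g.1 * ((g⁻¹).1 * v * (g⁻¹).1ᵀ) * g.1ᵀ = (g.1 * (g⁻¹).1) * v * ((g⁻¹).1ᵀ * g.1ᵀ) := by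
        simp only [Matrix.mul_assoc]
    _ = v := by rw [(A10_inv g).1, h2, Matrix.one_mul, Matrix.mul_one]

/-- Row A10a. The `C⁰` bound of the tensor. -/
theorem near_form {n : ℕ} (h : PD n → Fm n) (δ : ℝ) (k : ℕ) (htb : TB k δ (fun p => h p - gF p))
    (p : PD n) (v : Matrix (Fin n) (Fin n) ℝ) (hv : IsTan p v) :
    |h p v v - spd p v ^ 2| ≤ δ * spd p v ^ 2 := by
  have hp := tch_eq p
  set t := tch p with ht
  set V : Matrix (Fin n) (Fin n) ℝ := (t⁻¹).1 * v * (t⁻¹).1ᵀ with hV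
  have hgV : t.1 * V * t.1ᵀ = v := A10_vec t v
  have hVt : IsTan (o n) V := by
    have h1 := tan_facts.2.1 t⁻¹ p v hv
    have h2 : act t⁻¹ p = o n := by
      rw [hp, ← act_facts.2.1, inv_mul_cancel, act_facts.1]
    rw [h2] at h1
    exact h1
  have hVs : Vᵀ = V := hVt.1
  have hVtr : V.trace = 0 := by
    have := hVt.2
    have e : (o n).1⁻¹ = (1 : Matrix (Fin n) (Fin n) ℝ) := by
      show (1 : Matrix (Fin n) (Fin n) ℝ)⁻¹ = 1
      rw [inv_one]
    rw [e, Matrix.one_mul] at this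
    exact this
  have hspd : spd p v = √ (∑ i, ∑ j, V i j ^ 2) := by
    rw [← spd_facts.2.1 V hVs, ← spd_facts.1 t (o n) V, hgV, ← hp]
  set s := √ (∑ i, ∑ j, V i j ^ 2) with hs
  have hs0 : 0 ≤ s := Real.sqrt_nonneg _
  have hss : s ^ 2 = ∑ i, ∑ j, V i j ^ 2 :=
    Real.sq_sqrt (Finset.sum_nonneg fun i _ => Finset.sum_nonneg fun j _ => sq_nonneg _)
  have hVle : ∀ a b, |V a b| ≤ s := by
    intro a b
    refine Real.abs_le_sqrt ?_
    calc V a b ^ 2 ≤ ∑ j, V a j ^ 2 :=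
          Finset.single_le_sum (f := fun j => V a j ^ 2) (fun j _ => sq_nonneg _) (Finset.mem_univ b)
      _ ≤ ∑ i, ∑ j, V i j ^ 2 :=
          Finset.single_le_sum (f := fun i => ∑ j, V i j ^ 2)
            (fun i _ => Finset.sum_nonneg fun j _ => sq_nonneg _) (Finset.mem_univ a)
  rw [hspd]
  rcases hs0.eq_or_lt with h0 | h0
  · -- `V = 0`
    have hV0 : V = 0 := by
      ext a b
      have := hVle a b
      rw [← h0] at this
      simpa using this
    have hv0 : v = 0 := by rw [← hgV, hV0, Matrix.mul_zero, Matrix.zero_mul]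
    rw [← h0, hv0]
    simp
  · set W : Matrix (Fin n) (Fin n) ℝ := s⁻¹ • V with hW
    have hWs : Sym0 W := by
      refine ⟨?_, ?_⟩
      · rw [hW, Matrix.transpose_smul, hVs]
      · rw [hW, Matrix.trace_smul, hVtr, smul_zero]
    have hW1 : ∀ a b, |W a b| ≤ 1 := by
      intro a b
      rw [hW, Matrix.smul_apply, smul_eq_mul, abs_mul, abs_of_pos (inv_pos.2 h0)]
      rw [inv_mul_le_iff₀ h0, mul_one]
      exact hVle a b
    have hb := htb W W hWs hWs hW1 hW1
    have hbd : |Jf (fun p => h p - gF p) W W t| ≤ δ := by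
      cases k with
      | zero => exact hb.2 t
      | succ k => exact hb.1.2 t
    have hVW : V = s • W := by
      rw [hW, smul_smul, mul_inv_cancel₀ h0.ne', one_smul]
    have hvW : v = s • (t.1 * W * t.1ᵀ) := by
      rw [← hgV, hVW, Matrix.mul_smul, Matrix.smul_mul]
    have hg : gF p v v = s ^ 2 := by
      rw [gF_self p v hv, hspd]
    have hJ : Jf (fun p => h p - gF p) W W t = (h p v v - s ^ 2) / s ^ 2 := by
      unfold Jf
      have e1 : (h p - gF p) v v = s ^ 2 * (h p - gF p) (t.1 * W * t.1ᵀ) (t.1 * W * t.1ᵀ) := by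
        conv_lhs => rw [hvW]
        rw [LinearMap.map_smul₂, map_smul, smul_eq_mul, smul_eq_mul]
        ring
      have e2 : (h p - gF p) v v = h p v v - s ^ 2 := by
        rw [LinearMap.sub_apply, LinearMap.sub_apply, hg]
      rw [← hp]
      rw [← e2, e1]
      field_simp
    rw [hJ, abs_div, abs_of_pos (pow_pos h0 2), div_le_iff₀ (pow_pos h0 2)] at hbd
    exact hbd

end FL27
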