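import Pool.Agent.LibFL27.A10

set_option autoImplicit false

open Matrix MeasureTheory Topology Filter

namespace FL27

open LibNC38

private theorem A10b_cj {n : ℕ} (g h : SL n) (v : Matrix (Fin n) (Fin n) ℝ) :
    (g * h).1 * v * (g * h).1ᵀ = g.1 * (h.1 * v * h.1ᵀ) * g.1ᵀ := by
  rw [Matrix.SpecialLinearGroup.coe_mul, Matrix.transpose_mul]
  simp only [Matrix.mul_assoc]

theorem norm_V0_sq {n : ℕ} (z : V0 n) : ‖z‖ ^ 2 = ∑ i, z.1 i ^ 2 := by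
  have h1 : ‖z‖ = ‖z.1‖ := rfl
  rw [h1, EuclideanSpace.norm_sq_eq]
  simp [Real.norm_eq_abs, sq_abs]

theorem dM_sym0 {n : ℕ} (z : V0 n) : Sym0 (LibNC27.dM z) := by
  refine ⟨Matrix.diagonal_transpose _, ?_⟩
  unfold LibNC27.dM
  rw [Matrix.trace_diagonal]
  exact sum_V0 z

theorem gF_frame {n : ℕ} (g : SL n) (v w : Matrix (Fin n) (Fin n) ℝ) :
    gF (act g (o n)) (g.1 * v * g.1ᵀ) (g.1 * w * g.1ᵀ) = (v * w).trace := by
  rw [gF_apply]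
  have h1 : (act g (o n)).1 = g.1 * g.1ᵀ := act_o g
  have hi := A10_inv g
  have h2 : (g.1 * g.1ᵀ)⁻¹ = (g⁻¹).1ᵀ * (g⁻¹).1 := by
    apply Matrix.inv_eq_left_inv
    calc (g⁻¹).1ᵀ * (g⁻¹).1 * (g.1 * g.1ᵀ) = (g⁻¹).1ᵀ * ((g⁻¹).1 * g.1) * g.1ᵀ := by
          simp only [Matrix.mul_assoc]
      _ = 1 := by
          rw [hi.2, Matrix.mul_one, ← Matrix.transpose_mul, hi.1, Matrix.transpose_one]
  rw [h1, h2]
  have e : ∀ v : Matrix (Fin n) (Fin n) ℝ, (g⁻¹).1ᵀ * (g⁻¹).1 * (g.1 * v * g.1ᵀ) =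
      (g⁻¹).1ᵀ * v * g.1ᵀ := by
    intro v
    calc (g⁻¹).1ᵀ * (g⁻¹).1 * (g.1 * v * g.1ᵀ) = (g⁻¹).1ᵀ * ((g⁻¹).1 * g.1) * v * g.1ᵀ := by
          simp only [Matrix.mul_assoc]
      _ = _ := by rw [hi.2, Matrix.mul_one]
  rw [e, e]
  have e2 : (g⁻¹).1ᵀ * v * g.1ᵀ * ((g⁻¹).1ᵀ * w * g.1ᵀ) = (g⁻¹).1ᵀ * (v * w) * g.1ᵀ := by
    calc (g⁻¹).1ᵀ * v * g.1ᵀ * ((g⁻¹).1ᵀ * w * g.1ᵀ) =
        (g⁻¹).1ᵀ * v * (g.1ᵀ * (g⁻¹).1ᵀ) * w * g.1ᵀ := by simp only [Matrix.mul_assoc]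
      _ = _ := by
          rw [← Matrix.transpose_mul, hi.2, Matrix.transpose_one, Matrix.mul_one]
          simp only [Matrix.mul_assoc]
  rw [e2, Matrix.trace_mul_comm, ← Matrix.mul_assoc, ← Matrix.transpose_mul, hi.2,
    Matrix.transpose_one, Matrix.one_mul]

theorem psi0_eq {n : ℕ} (h : PD n → Fm n) (x : SL n) (z : V0 n) (hz : z ≠ 0) (p : PD n) :
    psi0 h x z p = Jf (fun p => h p - gF p) (LibNC27.dM z) (LibNC27.dM z) (x * tch p) / ‖z‖ ^ 2 := by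
  have hzn : ‖z‖ ≠ 0 := norm_ne_zero_iff.2 hz
  have hp := tch_eq p
  have he : x.1 * eht z p * x.1ᵀ =
      ‖z‖⁻¹ • ((x * tch p).1 * LibNC27.dM z * (x * tch p).1ᵀ) := by
    rw [A10b_cj, ← Matrix.smul_mul, ← Matrix.mul_smul, ← Matrix.smul_mul, ← Matrix.mul_smul]
    unfold eht LibNC27.dM
    rw [← Matrix.diagonal_smul]
    have hfun : (fun i => z.1 i / ‖z‖) = ‖z‖⁻¹ • fun i => z.1 i := by
      funext i
      rw [Pi.smul_apply, smul_eq_mul]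
      ring
    rw [hfun]
  have hb : act x p = act (x * tch p) (o n) := by
    conv_lhs => rw [hp]
    rw [← act_facts.2.1]
  unfold psi0
  rw [pbF_apply, he, hb]
  unfold Jf
  rw [LinearMap.sub_apply, LinearMap.sub_apply, gF_frame]
  have ht : (LibNC27.dM z * LibNC27.dM z).trace = ‖z‖ ^ 2 := by
    unfold LibNC27.dM
    rw [Matrix.diagonal_mul_diagonal, Matrix.trace_diagonal, norm_V0_sq]
    exact Finset.sum_congr rfl fun i _ => by ring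
  rw [ht, LinearMap.map_smul₂, map_smul, smul_eq_mul, smul_eq_mul]
  field_simp

/-- Row A10b. Bound and Lipschitz constant of `psi0`. -/
theorem psi0_lip {n : ℕ} : ∃ C > 0, ∀ (h : PD n → Fm n) (δ : ℝ), TB 1 δ (fun p => h p - gF p) →
    ∀ (x : SL n) (z : V0 n), z ≠ 0 → (∀ p, |psi0 h x z p| ≤ δ) ∧
      ∀ p p', |psi0 h x z p - psi0 h x z p'| ≤ C * δ * dg p p' := by
  obtain ⟨C, hC, hlip⟩ := tch_lip (n := n)
  refine ⟨C, hC, fun h δ htb x z hz => ?_⟩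
  have hzn : 0 < ‖z‖ := norm_pos_iff.2 hz
  -- the unit vector
  have hu : LibNC27.dM (‖z‖⁻¹ • z) = ‖z‖⁻¹ • LibNC27.dM z := by
    unfold LibNC27.dM
    rw [← Matrix.diagonal_smul]
    rfl
  have hu1 : ∀ a b, |LibNC27.dM (‖z‖⁻¹ • z) a b| ≤ 1 := by
    intro a b
    unfold LibNC27.dM
    by_cases hab : a = b
    · subst hab
      rw [Matrix.diagonal_apply_eq]
      have h1 : ‖(‖z‖⁻¹ • z).1‖ = 1 := by
        show ‖(‖z‖⁻¹ • z : V0 n)‖ = 1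
        rw [norm_smul, norm_inv, norm_norm, inv_mul_cancel₀ hzn.ne']
      have h2 := PiLp.norm_apply_le (‖z‖⁻¹ • z).1 a
      rw [h1] at h2
      exact h2
    · rw [Matrix.diagonal_apply_ne _ hab, abs_zero]
      exact zero_le_one
  have hBD := htb _ _ (dM_sym0 (‖z‖⁻¹ • z)) (dM_sym0 (‖z‖⁻¹ • z)) hu1 hu1
  have hJ : ∀ g : SL n, Jf (fun p => h p - gF p) (LibNC27.dM (‖z‖⁻¹ • z)) (LibNC27.dM (‖z‖⁻¹ • z)) g =
      Jf (fun p => h p - gF p) (LibNC27.dM z) (LibNC27.dM z) g / ‖z‖ ^ 2 := by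
    intro g
    rw [hu]
    unfold Jf
    rw [Matrix.mul_smul, Matrix.smul_mul, LinearMap.map_smul₂, map_smul, smul_eq_mul, smul_eq_mul]
    field_simp
  refine ⟨fun p => ?_, fun p p' => ?_⟩
  · rw [psi0_eq h x z hz, ← hJ]
    exact hBD.1.2 _
  · rw [psi0_eq h x z hz, psi0_eq h x z hz, ← hJ, ← hJ]
    exact hlip _ δ hBD x p p'

end FL27
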