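import Pool.Agent.LibFL27.A10b
import Pool.Agent.LibNG38.GF2

set_option autoImplicit false

open Matrix MeasureTheory Topology Filter Finset

namespace FL27

open LibNC38

private theorem A11_conn {n : ℕ} (N : PD n → Mt n → ℝ) (g : SL n) (N' : PD n → Mt n → ℝ)
    (hg : ∀ x v, IsTan x v → N' (act g x) (g.1 * v * g.1ᵀ) = N x v) {p q : PD n} {l : ℝ}
    (h : ConnN N p q l) : ConnN N' (act g p) (act g q) l := by
  induction h with
  | seg c v h =>
    have h1 := (curve_facts c v h).2.2.1 g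
    have h2 := ConnN.seg (N := N') _ _ h1
    have h3 : lenN N' (fun s => act g (c s)) (fun s => g.1 * v s * g.1ᵀ) = lenN N c v := by
      unfold lenN
      have h4 : ∀ s : ℝ, N' (act g (c s)) (g.1 * v s * g.1ᵀ) = N (c s) (v s) :=
        fun s => hg _ _ (tan_facts.1 c v h s)
      simp only [h4]
    rw [h3] at h2
    exact h2
  | trans _ _ ih1 ih2 => exact ConnN.trans ih1 ih2


private theorem A11_act_inv {n : ℕ} (g : SL n) (p : PD n) : act g (act g⁻¹ p) = p := by
  rw [← act_facts.2.1, mul_inv_cancel, act_facts.1]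


private theorem A11_inv_act {n : ℕ} (g : SL n) (p : PD n) : act g⁻¹ (act g p) = p := by
  rw [← act_facts.2.1, inv_mul_cancel, act_facts.1]


private theorem A11_vec {n : ℕ} (g : SL n) (v : Mt n) :
    g.1 * (g⁻¹.1 * v * g⁻¹.1ᵀ) * g.1ᵀ = v := by
  have ht1 : g.1 * g⁻¹.1 = 1 := by
    rw [← Matrix.SpecialLinearGroup.coe_mul, mul_inv_cancel, Matrix.SpecialLinearGroup.coe_one]
  have h2 : g⁻¹.1ᵀ * g.1ᵀ = 1 := by rw [← Matrix.transpose_mul, ht1, Matrix.transpose_one]
  calc g.1 * (g⁻¹.1 * v * g⁻¹.1ᵀ) * g.1ᵀ = (g.1 * g⁻¹.1) * v * (g⁻¹.1ᵀ * g.1ᵀ) := by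
        simp only [Matrix.mul_assoc]
    _ = v := by rw [ht1, h2, Matrix.one_mul, Matrix.mul_one]


private theorem A11_cont {n : ℕ} (h : SL n) : Continuous (act h) := by
  refine Continuous.subtype_mk ?_ _
  exact (continuous_const.matrix_mul continuous_subtype_val).matrix_mul continuous_const


private theorem A11_dist {n : ℕ} (g : SL n) (h : PD n → Fm n) (p q : PD n) :
    dN (nrm h) (act g p) (act g q) = dN (nrm (pbF g h)) p q := by
  unfold dN
  congr 1
  ext l
  constructor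
  · intro hl
    have h1 : ConnN (nrm (pbF g h)) (act g⁻¹ (act g p)) (act g⁻¹ (act g q)) l := by
      refine A11_conn (nrm h) g⁻¹ (nrm (pbF g h)) (fun x v _ => ?_) hl
      unfold nrm
      rw [pbF_apply, A11_act_inv, A11_vec]
    rw [A11_inv_act, A11_inv_act] at h1
    exact h1
  · intro hl
    exact A11_conn (nrm (pbF g h)) g (nrm h) (fun x v _ => rfl) hl


private theorem A11_fm {n : ℕ} (Γ : Subgroup (SL n)) (κ : PD n → Fm n) (h : FmOK Γ κ) (g : SL n) :
    FmOK (cj g Γ) (pbF g κ) := by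
  refine ⟨fun v w => ?_, fun p v w => ?_, fun γ hγ p v hv => ?_⟩
  · exact (h.cont _ _).comp (A11_cont g)
  · rw [pbF_apply, pbF_apply]
    exact h.symm _ _ _
  · rw [mem_cj] at hγ
    rw [pbF_apply, pbF_apply, ← h.inv _ hγ (act g p) _ (tan_facts.2.1 g p v hv)]
    have h1 : act (g * γ * g⁻¹) (act g p) = act g (act γ p) := by
      rw [← act_facts.2.1, ← act_facts.2.1, inv_mul_cancel_right]
    have h2 : (g * γ * g⁻¹).1 * (g.1 * v * g.1ᵀ) * (g * γ * g⁻¹).1ᵀ =
        g.1 * (γ.1 * v * γ.1ᵀ) * g.1ᵀ := by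
      have e1 : (g * γ * g⁻¹).1 * g.1 = g.1 * γ.1 := by
        rw [← Matrix.SpecialLinearGroup.coe_mul, inv_mul_cancel_right,
          Matrix.SpecialLinearGroup.coe_mul]
      have e2 : g.1ᵀ * (g * γ * g⁻¹).1ᵀ = γ.1ᵀ * g.1ᵀ := by
        rw [← Matrix.transpose_mul, e1, Matrix.transpose_mul]
      calc (g * γ * g⁻¹).1 * (g.1 * v * g.1ᵀ) * (g * γ * g⁻¹).1ᵀ
          = ((g * γ * g⁻¹).1 * g.1) * v * (g.1ᵀ * (g * γ * g⁻¹).1ᵀ) := by
            simp only [Matrix.mul_assoc]
        _ = _ := by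
            rw [e1, e2]
            simp only [Matrix.mul_assoc]
    rw [h1, h2]


private theorem A11_nc {n : ℕ} (g : SL n) (h : PD n → Fm n) (hnc : NoConj (dN (nrm h))) :
    NoConj (dN (nrm (pbF g h))) := by
  have hinj : ∀ p q : PD n, act g p = act g q → p = q := by
    intro p q e
    rw [← A11_inv_act g p, e, A11_inv_act]
  have hgeo : ∀ (L : ℝ) (c : ℝ → PD n), IsGeod (dN (nrm (pbF g h))) L c →
      IsGeod (dN (nrm h)) L (fun t => act g (c t)) := by
    intro L c hc t ht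
    obtain ⟨ε, hε, H⟩ := hc t ht
    refine ⟨ε, hε, fun u hu v hv h1 h2 => ?_⟩
    rw [A11_dist]
    exact H u hu v hv h1 h2
  intro L L' c c' hL hL' hc hc' h0 h1 hne
  obtain ⟨e1, e2⟩ := hnc L L' _ _ hL hL' (hgeo L c hc) (hgeo L' c' hc')
    (by simp only [h0]) (by simp only [h1]) (fun e => hne (hinj _ _ e))
  exact ⟨e1, fun t ht => hinj _ _ (e2 t ht)⟩


private theorem A11_geod {Y : Type*} (d d' : Y → Y → ℝ) (r : ℝ) (hr : 0 < r)
    (hd : ∀ p q, d' p q = r * d p q) (L : ℝ) (c : ℝ → Y) (h : IsGeod d' L c) :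
    IsGeod d (L / r) (fun s => c (r * s)) := by
  intro t ht
  have hrt : r * t ∈ Set.Icc 0 L := by
    refine ⟨mul_nonneg hr.le ht.1, ?_⟩
    have := mul_le_mul_of_nonneg_left ht.2 hr.le
    rwa [mul_div_cancel₀ _ hr.ne'] at this
  obtain ⟨ε, hε, H⟩ := h (r * t) hrt
  refine ⟨ε / r, div_pos hε hr, fun u hu v hv hut hvt => ?_⟩
  have hmem : ∀ w, w ∈ Set.Icc 0 (L / r) → r * w ∈ Set.Icc 0 L := by
    intro w hw
    refine ⟨mul_nonneg hr.le hw.1, ?_⟩
    have := mul_le_mul_of_nonneg_left hw.2 hr.le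
    rwa [mul_div_cancel₀ _ hr.ne'] at this
  have habs : ∀ a b : ℝ, |r * a - r * b| = r * |a - b| := by
    intro a b
    rw [← mul_sub, abs_mul, abs_of_pos hr]
  have h1 : |r * u - r * t| < ε := by
    rw [habs]
    rw [lt_div_iff₀ hr] at hut
    linarith
  have h2 : |r * v - r * t| < ε := by
    rw [habs]
    rw [lt_div_iff₀ hr] at hvt
    linarith
  have h3 := H (r * u) (hmem u hu) (r * v) (hmem v hv) h1 h2
  rw [hd, habs] at h3
  exact mul_left_cancel₀ hr.ne' h3


private theorem A11_ncs {Y : Type*} (d d' : Y → Y → ℝ) (r : ℝ) (hr : 0 < r)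
    (hd : ∀ p q, d' p q = r * d p q) (hnc : NoConj d) : NoConj d' := by
  intro L L' c c' hL hL' hc hc' h0 h1 hne
  have g1 := A11_geod d _ r hr hd L c hc
  have g2 := A11_geod d _ r hr hd L' c' hc'
  have hrL : ∀ M : ℝ, r * (M / r) = M := fun M => mul_div_cancel₀ _ hr.ne'
  obtain ⟨e1, e2⟩ := hnc (L / r) (L' / r) _ _ (div_pos hL hr) (div_pos hL' hr) g1 g2
    (by simpa using h0) (by simpa only [hrL] using h1)
    (by
      intro h
      apply hne
      simpa only [hrL, mul_zero] using h)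
  refine ⟨?_, fun t ht => ?_⟩
  · have := congrArg (fun x => r * x) e1
    simpa only [hrL] using this
  · have h3 := e2 (t / r) ⟨div_nonneg ht.1 hr.le, div_le_div_of_nonneg_right ht.2 hr.le⟩
    simpa only [hrL] using h3


private theorem A11_smul {n : ℕ} (h : Fm n) (r : ℝ) (v : Mt n) : h (r • v) (r • v) = r ^ 2 * h v v := by
  rw [LinearMap.map_smul₂, map_smul, smul_eq_mul, smul_eq_mul]
  ring



/-- the scaled norm of the metric seen from `x` -/
noncomputable def NX {n : ℕ} (h : PD n → Fm n) (δ : ℝ) (x : SL n) (p : PD n)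
    (v : Matrix (Fin n) (Fin n) ℝ) : ℝ := (1 + 2 * δ) * nrm (pbF x h) p v

private theorem A11_form {n : ℕ} {Γ : Subgroup (SL n)} {δ : ℝ} {h : PD n → Fm n} {k : ℕ}
    (hN : Near Γ k δ h) (x : SL n) (p : PD n) (v : Matrix (Fin n) (Fin n) ℝ) (hv : IsTan p v) :
    |pbF x h p v v - spd p v ^ 2| ≤ δ * spd p v ^ 2 := by
  have h1 := near_form h δ k hN.tb (act x p) (x.1 * v * x.1ᵀ) (tan_facts.2.1 x p v hv)
  rw [spd_facts.1] at h1
  rw [pbF_apply]
  exact h1

/-- Row A11. The scaled norm of the metric seen from `x`. -/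
theorem NX_facts {n : ℕ} (Γ : Subgroup (SL n)) (δ : ℝ) (hδ : 0 < δ) (hδ1 : δ ≤ 1 / 8)
    (h : PD n → Fm n) (hN : Near Γ 1 δ h) (x : SL n) (z : V0 n) (hz : z ≠ 0) :
    GN (NX h δ x) 1 2 ∧ (∀ γ ∈ cj x Γ, InvN (NX h δ x) γ) ∧ NoConj (dN (NX h δ x)) ∧
    Continuous (psi0 h x z) ∧
    (∀ p v, IsTan p v →
      (1 + δ * (psi0 h x z p / (2 * δ) + (2 - 17 * δ))) * |dht z p v| ≤ NX h δ x p v) ∧
    ∀ y : V0 n, NX h δ x (sg y) (vel y z) ≤
      2 * ‖z‖ * ((1 + 2 * δ) * (1 + psi0 h x z (sg y) / 2)) := by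
  have hfm := A11_fm Γ h hN.ok x
  have hform := A11_form hN x
  have hef := eht_facts z hz
  have hspd0 : ∀ (p : PD n) (v : Matrix (Fin n) (Fin n) ℝ), 0 ≤ spd p v := fun p v => Real.sqrt_nonneg _
  have hlo : ∀ p v, IsTan p v → spd p v ^ 2 * (1 - δ) ≤ pbF x h p v v := by
    intro p v hv
    have := (abs_le.1 (hform p v hv)).1
    linarith
  have hhi : ∀ p v, IsTan p v → pbF x h p v v ≤ spd p v ^ 2 * (1 + δ) := by
    intro p v hv
    have := (abs_le.1 (hform p v hv)).2
    linarith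
  have hgn0 : GN (nrm (pbF x h)) (1 / 2) 2 := by
    refine ⟨((fm_cont _ _ hfm).sqrt).continuousOn, ?_, by norm_num, ?_, ?_⟩
    · intro p v _ r
      unfold nrm
      rw [A11_smul, Real.sqrt_mul (sq_nonneg r), Real.sqrt_sq_eq_abs]
    · intro p v hv
      apply Real.le_sqrt_of_sq_le
      have h1 := hlo p v hv
      have h2 := sq_nonneg (spd p v)
      nlinarith
    · intro p v hv
      apply Real.sqrt_le_iff.2
      refine ⟨mul_nonneg (by norm_num) (hspd0 p v), ?_⟩
      have h1 := hhi p v hv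
      have h2 := sq_nonneg (spd p v)
      nlinarith
  have hsc : (0 : ℝ) < 1 + 2 * δ := by linarith
  have hgn : GN (NX h δ x) 1 2 := by
    refine ⟨continuousOn_const.mul hgn0.cont, ?_, one_pos, ?_, ?_⟩
    · intro p v hv r
      show (1 + 2 * δ) * nrm (pbF x h) p (r • v) = |r| * ((1 + 2 * δ) * nrm (pbF x h) p v)
      rw [hgn0.hom p v hv r]
      ring
    · intro p v hv
      show 1 * spd p v ≤ (1 + 2 * δ) * √ (pbF x h p v v)
      have h1 := hlo p v hv
      have h3 : spd p v / (1 + 2 * δ) ≤ √ (pbF x h p v v) := by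
        apply Real.le_sqrt_of_sq_le
        refine le_trans ?_ h1
        rw [div_pow, div_le_iff₀ (by positivity)]
        have h2 := sq_nonneg (spd p v)
        have h4 : 1 ≤ (1 - δ) * (1 + 2 * δ) ^ 2 := by nlinarith [mul_pos hδ hδ]
        calc spd p v ^ 2 = spd p v ^ 2 * 1 := by ring
          _ ≤ spd p v ^ 2 * ((1 - δ) * (1 + 2 * δ) ^ 2) := mul_le_mul_of_nonneg_left h4 h2
          _ = _ := by ring
      rw [div_le_iff₀ hsc] at h3
      linarith
    · intro p v hv
      show (1 + 2 * δ) * √ (pbF x h p v v) ≤ 2 * spd p v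
      have h1 := hhi p v hv
      have h3 : √ (pbF x h p v v) ≤ (1 + δ) * spd p v := by
        apply Real.sqrt_le_iff.2
        refine ⟨mul_nonneg (by linarith) (hspd0 p v), h1.trans ?_⟩
        have h2 := sq_nonneg (spd p v)
        nlinarith
      calc (1 + 2 * δ) * √ (pbF x h p v v) ≤ (1 + 2 * δ) * ((1 + δ) * spd p v) :=
            mul_le_mul_of_nonneg_left h3 hsc.le
        _ = ((1 + 2 * δ) * (1 + δ)) * spd p v := by ring
        _ ≤ 2 * spd p v := mul_le_mul_of_nonneg_right (by nlinarith) (hspd0 p v)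
  refine ⟨hgn, ?_, ?_, ?_, ?_, ?_⟩
  · intro γ hγ p v hv
    show (1 + 2 * δ) * nrm (pbF x h) (act γ p) (γ.1 * v * γ.1ᵀ) = (1 + 2 * δ) * nrm (pbF x h) p v
    unfold nrm
    rw [hfm.inv γ hγ p v hv]
  · exact A11_ncs (dN (nrm (pbF x h))) _ _ hsc (dN_smul _ _ _ hgn0 _ hsc) (A11_nc x h hN.nc)
  · exact ((fm_cont _ _ hfm).comp (continuous_id.prodMk (eht_cont z))).sub continuous_const
  · intro p v hv
    have hpsi : |psi0 h x z p| ≤ δ := by
      have h1 := hform p _ (hef p).1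
      rw [(hef p).2.1, one_pow, mul_one] at h1
      exact h1
    have h3 := fm_low z hz p (pbF x h p) (δ⁻¹ • (pbF x h p - gF p)) (fun v w => hfm.symm p v w)
      (fun v w => by
        rw [LinearMap.smul_apply, LinearMap.smul_apply, LinearMap.smul_apply, LinearMap.smul_apply,
          LinearMap.sub_apply, LinearMap.sub_apply, LinearMap.sub_apply, LinearMap.sub_apply,
          hfm.symm p v w, gF_apply, gF_apply, Matrix.trace_mul_comm]) 1 δ δ zero_le_one hδ hδ
      (by linarith) (by linarith) (fun v hv => by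
        rw [LinearMap.smul_apply, LinearMap.smul_apply, LinearMap.sub_apply, LinearMap.sub_apply,
          gF_self p v hv, smul_eq_mul, mul_inv_cancel_left₀ hδ.ne', sub_self, abs_zero]
        have := sq_nonneg (spd p v)
        positivity) (fun v hv => by
        rw [LinearMap.smul_apply, LinearMap.smul_apply, LinearMap.sub_apply, LinearMap.sub_apply,
          gF_self p v hv, smul_eq_mul, abs_mul, abs_of_pos (inv_pos.2 hδ), inv_mul_le_iff₀ hδ]
        have := hform p v hv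
        linarith) v hv
    rw [LinearMap.smul_apply, LinearMap.smul_apply, LinearMap.sub_apply, LinearMap.sub_apply,
      gF_self p _ (hef p).1, (hef p).2.1, smul_eq_mul] at h3
    have e1 : δ * (δ⁻¹ * (pbF x h p (eht z p) (eht z p) - 1 ^ 2) / 2 - δ / 2 - 3 * δ * (1 + 1) ^ 2) =
        psi0 h x z p / 2 - 25 / 2 * δ ^ 2 := by
      unfold psi0
      field_simp
      ring
    rw [e1] at h3
    have e2 : 1 + δ * (psi0 h x z p / (2 * δ) + (2 - 17 * δ)) =
        1 + psi0 h x z p / 2 + 2 * δ - 17 * δ ^ 2 := by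
      field_simp
      ring
    rw [e2]
    show _ ≤ (1 + 2 * δ) * √ (pbF x h p v v)
    have h4 := mul_le_mul_of_nonneg_left h3 hsc.le
    refine le_trans ?_ h4
    rw [← mul_assoc]
    refine mul_le_mul_of_nonneg_right ?_ (abs_nonneg _)
    have h5 := (abs_le.1 hpsi).1
    nlinarith [mul_pos hδ hδ]
  · intro y
    show (1 + 2 * δ) * √ (pbF x h (sg y) (vel y z) (vel y z)) ≤ _
    have hzn : 0 < ‖z‖ := norm_pos_iff.2 hz
    have hpsi : |psi0 h x z (sg y)| ≤ δ := by
      have h1 := hform (sg y) _ (hef (sg y)).1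
      rw [(hef (sg y)).2.1, one_pow, mul_one] at h1
      exact h1
    have h5 := (abs_le.1 hpsi).1
    rw [eht_flat z hz y, A11_smul, Real.sqrt_mul (sq_nonneg _), Real.sqrt_sq (by positivity)]
    have h1 : √ (pbF x h (sg y) (eht z (sg y)) (eht z (sg y))) ≤ 1 + psi0 h x z (sg y) / 2 := by
      apply Real.sqrt_le_iff.2
      refine ⟨by linarith, ?_⟩
      have e : pbF x h (sg y) (eht z (sg y)) (eht z (sg y)) = 1 + psi0 h x z (sg y) := by
        unfold psi0; ring
      rw [e]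
      nlinarith [sq_nonneg (psi0 h x z (sg y))]
    calc (1 + 2 * δ) * (2 * ‖z‖ * √ (pbF x h (sg y) (eht z (sg y)) (eht z (sg y)))) ≤
        (1 + 2 * δ) * (2 * ‖z‖ * (1 + psi0 h x z (sg y) / 2)) :=
          mul_le_mul_of_nonneg_left (mul_le_mul_of_nonneg_left h1 (by positivity)) hsc.le
      _ = _ := by ring

end FL27
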