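import Pool.Agent.LibFL27.A11
import Pool.Agent.LibFL27.A06
import Pool.Agent.LibNC38.G6

set_option autoImplicit false

open Matrix MeasureTheory Topology Filter Finset

namespace FL27

open LibNC38

private theorem A12_riemann (f : ℝ → ℝ) (hf : Continuous f) :
    Tendsto (fun K : ℕ => (∑ j ∈ range K, f ((j : ℝ) / K)) / K) atTop
      (𝓝 (∫ s in (0 : ℝ)..1, f s)) := by
  rw [Metric.tendsto_atTop]
  intro ε hε
  have huc := isCompact_Icc.uniformContinuousOn_of_continuous (hf.continuousOn (s := Set.Icc (0 : ℝ) 1))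
  obtain ⟨d, hd, hdd⟩ := Metric.uniformContinuousOn_iff.1 huc (ε / 2) (by positivity)
  obtain ⟨N, hN⟩ := exists_nat_gt (1 / d)
  refine ⟨N + 1, fun K hK => ?_⟩
  have hK0 : (0 : ℝ) < K := by
    have : (N : ℝ) + 1 ≤ K := by exact_mod_cast hK
    have : (0 : ℝ) ≤ N := Nat.cast_nonneg N
    linarith
  have hKd : 1 / (K : ℝ) < d := by
    have h1 : 1 / d < K := by
      have : (N : ℝ) + 1 ≤ K := by exact_mod_cast hK
      linarith
    rw [div_lt_iff₀ hd] at h1
    rw [div_lt_iff₀ hK0]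
    linarith
  have hsum : ∑ j ∈ range K, ∫ s in ((j : ℝ) / K)..(((j + 1 : ℕ) : ℝ) / K), f s = ∫ s in (0 : ℝ)..1, f s := by
    have h1 := intervalIntegral.sum_integral_adjacent_intervals (f := f) (μ := volume)
      (a := fun j : ℕ => (j : ℝ) / K) (n := K) (fun j _ => hf.intervalIntegrable _ _)
    simp only [Nat.cast_zero, zero_div, div_self hK0.ne'] at h1
    exact h1
  have hdiff : (∑ j ∈ range K, f ((j : ℝ) / K)) / K - ∫ s in (0 : ℝ)..1, f s =
      ∑ j ∈ range K, ∫ s in ((j : ℝ) / K)..(((j + 1 : ℕ) : ℝ) / K), (f ((j : ℝ) / K) - f s) := by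
    rw [← hsum, Finset.sum_div, ← Finset.sum_sub_distrib]
    refine Finset.sum_congr rfl fun j _ => ?_
    rw [intervalIntegral.integral_sub (intervalIntegrable_const) (hf.intervalIntegrable _ _),
      intervalIntegral.integral_const, smul_eq_mul]
    have : ((j + 1 : ℕ) : ℝ) / K - (j : ℝ) / K = 1 / K := by
      push_cast
      ring
    rw [this]
    ring
  rw [Real.dist_eq, hdiff]
  have hterm : ∀ j ∈ range K,
      ‖∫ s in ((j : ℝ) / K)..(((j + 1 : ℕ) : ℝ) / K), (f ((j : ℝ) / K) - f s)‖ ≤ ε / 2 * (1 / K) := by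
    intro j hj
    have hjK : (j : ℝ) + 1 ≤ K := by exact_mod_cast Finset.mem_range.1 hj
    have hj0 : (0 : ℝ) ≤ j := Nat.cast_nonneg j
    have hle : (j : ℝ) / K ≤ ((j + 1 : ℕ) : ℝ) / K := by
      apply div_le_div_of_nonneg_right _ hK0.le
      push_cast
      linarith
    have h1 := intervalIntegral.norm_integral_le_of_norm_le_const (a := (j : ℝ) / K)
      (b := ((j + 1 : ℕ) : ℝ) / K) (f := fun s => f ((j : ℝ) / K) - f s) (C := ε / 2) (by
        intro s hs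
        rw [Set.uIoc_of_le hle] at hs
        have hs1 : (j : ℝ) / K < s := hs.1
        have hs2 : s ≤ ((j + 1 : ℕ) : ℝ) / K := hs.2
        have hs3 : ((j + 1 : ℕ) : ℝ) / K ≤ 1 := by
          rw [div_le_one hK0]
          push_cast
          exact hjK
        have hjd : 0 ≤ (j : ℝ) / K := by positivity
        have hw : ((j + 1 : ℕ) : ℝ) / K = (j : ℝ) / K + 1 / K := by
          push_cast
          ring
        have h2 := hdd ((j : ℝ) / K) ⟨hjd, by linarith⟩ s ⟨by linarith, by linarith⟩ (by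
          rw [Real.dist_eq, abs_sub_comm, abs_of_pos (by linarith)]
          linarith)
        rw [Real.dist_eq] at h2
        exact h2.le)
    have h2 : |((j + 1 : ℕ) : ℝ) / K - (j : ℝ) / K| = 1 / K := by
      have : ((j + 1 : ℕ) : ℝ) / K - (j : ℝ) / K = 1 / K := by
        push_cast
        ring
      rw [this, abs_of_pos (by positivity)]
    rw [h2] at h1
    exact h1
  calc |∑ j ∈ range K, ∫ s in ((j : ℝ) / K)..(((j + 1 : ℕ) : ℝ) / K), (f ((j : ℝ) / K) - f s)|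
      ≤ ∑ j ∈ range K, |∫ s in ((j : ℝ) / K)..(((j + 1 : ℕ) : ℝ) / K), (f ((j : ℝ) / K) - f s)| :=
        Finset.abs_sum_le_sum_abs _ _
    _ ≤ ∑ _j ∈ range K, ε / 2 * (1 / K) := Finset.sum_le_sum hterm
    _ = ε / 2 := by
        rw [Finset.sum_const, Finset.card_range, nsmul_eq_mul]
        field_simp
    _ < ε := by linarith


private theorem A12_c1 {n : ℕ} (y z : V0 n) :
    IsC1 (fun s : ℝ => sg (y + s • z)) (fun s => vel (y + s • z) z) := by
  obtain ⟨hsg, -⟩ := flat_facts (n := n)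
  have hcoord : ∀ (s : ℝ) (i : Fin n), (y + s • z).1 i = y.1 i + s * z.1 i := fun s i => rfl
  constructor
  · intro s i j
    simp only [hsg, vel]
    by_cases hij : i = j
    · subst hij
      simp only [Matrix.diagonal_apply_eq, hcoord]
      have h1 : HasDerivAt (fun s : ℝ => 2 * (y.1 i + s * z.1 i)) (2 * z.1 i) s := by
        have := (((hasDerivAt_id s).mul_const (z.1 i)).const_add (y.1 i)).const_mul 2
        simpa using this
      have h2 := h1.exp
      rw [mul_comm] at h2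
      exact h2
    · simp only [Matrix.diagonal_apply_ne _ hij]
      exact hasDerivAt_const s 0
  · intro i j
    simp only [vel]
    by_cases hij : i = j
    · subst hij
      simp only [Matrix.diagonal_apply_eq, hcoord]
      fun_prop
    · simp only [Matrix.diagonal_apply_ne _ hij]
      exact continuous_const


private theorem A12_line {n : ℕ} (ψ : PD n → ℝ) (hψ : Continuous ψ) (y z : V0 n) :
    Continuous fun s : ℝ => ψ (sg (y + s • z)) := by
  obtain ⟨-, -, -, -, -, -, -, -, hsg, -⟩ := flat_facts (n := n)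
  exact hψ.comp (hsg.comp (continuous_const.add (continuous_id.smul continuous_const)))



/-- the final real computation -/
private theorem A12_real (δ X A E M μ : ℝ) (hδ : 0 < δ) (hδ1 : δ ≤ 1 / 8) (hM : 0 < M)
    (hX : |X| ≤ δ) (hA : |A| ≤ δ) (hE : 0 ≤ E) (hδE : δ * (5 + E) ≤ 1 / 2) (hμ0 : 0 ≤ μ)
    (hμ : μ ≤ 2 * M * ((1 + 2 * δ) * (1 + X / 2)))
    (hlow : 2 * M ≤ μ * (1 - δ * ((A / (2 * δ) + (2 - 17 * δ)) - E) + 2 * δ ^ 2 * (5 + E) ^ 2)) :
    A ≤ X + 500 * δ ^ 2 + 12 * (δ * E) := by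
  have e1 : 1 - δ * ((A / (2 * δ) + (2 - 17 * δ)) - E) + 2 * δ ^ 2 * (5 + E) ^ 2 =
      1 - A / 2 - 2 * δ + (17 * δ ^ 2 + δ * E + 2 * (δ * (5 + E)) ^ 2) := by
    field_simp
    ring
  rw [e1] at hlow
  set R := 17 * δ ^ 2 + δ * E + 2 * (δ * (5 + E)) ^ 2 with hR
  have hR0 : 0 ≤ R := by positivity
  set W := 1 - A / 2 - 2 * δ + R with hW
  have hX1 := abs_le.1 hX
  have hA1 := abs_le.1 hA
  have hW0 : 0 ≤ W := by
    have : 0 ≤ 1 - A / 2 - 2 * δ := by linarith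
    linarith
  have h1 : 2 * M ≤ 2 * M * ((1 + 2 * δ) * (1 + X / 2)) * W :=
    hlow.trans (mul_le_mul_of_nonneg_right hμ hW0)
  have h2 : 1 ≤ ((1 + 2 * δ) * (1 + X / 2)) * W := by
    have h3 : 2 * M * 1 ≤ 2 * M * (((1 + 2 * δ) * (1 + X / 2)) * W) := by
      rw [mul_one, ← mul_assoc]
      exact h1
    exact le_of_mul_le_mul_left h3 (by positivity)
  set u := (1 + 2 * δ) * (1 + X / 2) with hu
  have hu1 : u = 1 + 2 * δ + X / 2 + δ * X := by rw [hu]; ring
  have hδX : |δ * X| ≤ δ ^ 2 := by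
    rw [abs_mul, abs_of_pos hδ]
    nlinarith
  have hδX1 := abs_le.1 hδX
  have hδ2 : δ ^ 2 ≤ δ / 8 := by nlinarith
  have hu2 : |u - 1| ≤ 3 * δ := by
    rw [hu1, abs_le]
    constructor <;> linarith
  have hu3 : u ≤ 2 := by
    have := (abs_le.1 hu2).2
    linarith
  have h4 : |A / 2 + 2 * δ| ≤ 5 / 2 * δ := by
    rw [abs_le]
    constructor <;> linarith
  have h5 : |(u - 1) * (A / 2 + 2 * δ)| ≤ 15 / 2 * δ ^ 2 := by
    rw [abs_mul]
    calc |u - 1| * |A / 2 + 2 * δ| ≤ (3 * δ) * (5 / 2 * δ) :=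
          mul_le_mul hu2 h4 (abs_nonneg _) (by positivity)
      _ = _ := by ring
  have h6 : u * W = u - (A / 2 + 2 * δ) - (u - 1) * (A / 2 + 2 * δ) + u * R := by
    rw [hW]; ring
  have h7 : u * R ≤ 2 * R := mul_le_mul_of_nonneg_right hu3 hR0
  have h8 := (abs_le.1 h5).1
  have h9 : (δ * (5 + E)) ^ 2 ≤ 50 * δ ^ 2 + δ * E := by
    have h10 : δ * E ≤ 1 / 2 := by nlinarith
    have h11 : 0 ≤ δ * E := by positivity
    have h12 : (δ * E) ^ 2 ≤ δ * E / 2 := by nlinarith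
    nlinarith [sq_nonneg (5 * δ - δ * E)]
  rw [h6] at h2
  have h13 : R ≤ 117 * δ ^ 2 + 3 * (δ * E) := by
    rw [hR]; linarith
  linarith

/-- Row A12. One metric without conjugate points: averages over parallel translates of a closed
regular geodesic, one side. -/
theorem one_side {n : ℕ} (hn : 2 ≤ n) : ∃ C : ℝ, 0 < C ∧ ∀ (Γ : Subgroup (SL n)), Disc Γ → Coc Γ →
    ∀ (h : PD n → Fm n) (δ : ℝ), 0 < δ → C * δ ≤ 1 → Near Γ 1 δ h →
    ∀ (x : SL n) (v : V0 n) (ω L : ℝ), 0 < ω → ω ≤ 1 → (∀ i j : Fin n, i < j → v.1 j + ω * ‖v‖ ≤ v.1 i) →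
      1 ≤ ω * ‖v‖ → ‖v‖ ≤ L → C * δ * L ≤ ω → x * dgm v * x⁻¹ ∈ Γ → ∀ y y' : V0 n,
      (∫ s in (0 : ℝ)..1, psi0 h x v (sg (y + s • v))) ≤
        (∫ s in (0 : ℝ)..1, psi0 h x v (sg (y' + s • v))) + C * (δ * √ δ) * (L / ω) := by
  obtain ⟨C9, hC9, hlip⟩ := psi0_lip (n := n)
  obtain ⟨C6, hC6, c6, hc6, hnear⟩ := near_rate (n := n)
  -- the constant
  obtain ⟨C, hC⟩ : ∃ C : ℝ, C = 1000 + 7 / c6 + 200 * (C9 * (C6 + 1)) + 100 := ⟨_, rfl⟩
  have hCpos : 0 < C := by rw [hC]; positivity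
  have hC8 : 100 ≤ C := by
    rw [hC]
    have : 0 ≤ 7 / c6 + 200 * (C9 * (C6 + 1)) := by positivity
    linarith
  refine ⟨C, hCpos, fun Γ hd hc h δ hδ hCδ hN x v ω L hω hω1 hgap hωv hvL hCL hxv y y' => ?_⟩
  have hv0 : 0 < ‖v‖ := by
    by_contra hcon
    have h1 : ‖v‖ = 0 := le_antisymm (not_lt.1 hcon) (norm_nonneg _)
    rw [h1, mul_zero] at hωv
    linarith
  have hvne : v ≠ 0 := norm_pos_iff.1 hv0
  have hv1 : 1 ≤ ‖v‖ := by nlinarith
  have hL1 : 1 ≤ L := hv1.trans hvL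
  have hδ1 : δ ≤ 1 / 8 := by
    have : 100 * δ ≤ C * δ := mul_le_mul_of_nonneg_right hC8 hδ.le
    linarith
  obtain ⟨hGN, hInv, hNC, hpc, hlow, hup⟩ := NX_facts Γ δ hδ hδ1 h hN x v hvne
  obtain ⟨hbd, hlp⟩ := hlip h δ hN.tb x v hvne
  -- the closed geodesic
  have hα : dgm v ∈ cj x Γ := (mem_cj x _ Γ).2 hxv
  have hlog : IsLog (dgm v) v := (flat_facts (n := n)).2.2.1 v
  have hreg : Reg (dgm v) := by
    intro i j hij heq
    have e1 : ∀ i, |(dgm v).1 i i| = Real.exp (v.1 i) := by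
      intro i
      have : (dgm v).1 i i = Real.exp (v.1 i) := by
        show Matrix.diagonal (fun i => Real.exp (v.1 i)) i i = _
        rw [Matrix.diagonal_apply_eq]
      rw [this, abs_of_pos (Real.exp_pos _)]
    rw [e1, e1, Real.exp_eq_exp] at heq
    rcases lt_or_gt_of_ne hij with h1 | h1
    · have := hgap i j h1
      have h2 : 0 < ω * ‖v‖ := by positivity
      linarith
    · have := hgap j i h1
      have h2 : 0 < ω * ‖v‖ := by positivity
      linarith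
  obtain ⟨hd', hc'⟩ := cj_facts x Γ hd hc
  obtain ⟨R, hR⟩ := selberg (cj x Γ) hd' hc' (dgm v) hlog.1 hreg hα
  obtain ⟨p, hpy, hmin⟩ := propA_dN hn (NX h δ x) 1 2 hGN hNC (cj x Γ) hInv (dgm v) hα v hlog hreg R hR y
  obtain ⟨μ, hμ⟩ : ∃ μ : ℝ, μ = dN (NX h δ x) p (act (dgm v) p) := ⟨_, rfl⟩
  have hμ0 : 0 ≤ μ := by rw [hμ]; exact (dN_facts _ 1 2 hGN).2.1 _ _
  obtain ⟨X, hX⟩ : ∃ X : ℝ, X = ∫ s in (0 : ℝ)..1, psi0 h x v (sg (y' + s • v)) := ⟨_, rfl⟩
  have hline : ∀ y : V0 n, Continuous fun s : ℝ => psi0 h x v (sg (y + s • v)) := fun y =>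
    A12_line _ hpc y v
  have hXd : |X| ≤ δ := by
    rw [hX]
    have h1 := intervalIntegral.norm_integral_le_of_norm_le_const (a := (0 : ℝ)) (b := 1)
      (f := fun s : ℝ => psi0 h x v (sg (y' + s • v))) (C := δ) (fun s _ => hbd _)
    rw [sub_zero, abs_one, mul_one] at h1
    exact h1
  -- upper bound of the displacement
  have hμup : μ ≤ 2 * ‖v‖ * ((1 + 2 * δ) * (1 + X / 2)) := by
    have h1 := hmin (sg y')
    rw [(flat_facts (n := n)).2.2.2.1 (dgm v) v y' hlog] at h1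
    have h2 := dN_flat (NX h δ x) 1 2 hGN y' v
    have hi1 : IntervalIntegrable (fun s : ℝ => NX h δ x (sg (y' + s • v)) (vel (y' + s • v) v))
        volume 0 1 := (tan_facts.2.2.2 _ _ (A12_c1 y' v) _ 1 2 hGN).intervalIntegrable _ _
    have hi2 : IntervalIntegrable (fun s : ℝ => 2 * ‖v‖ * ((1 + 2 * δ) *
        (1 + psi0 h x v (sg (y' + s • v)) / 2))) volume 0 1 := by
      refine Continuous.intervalIntegrable ?_ _ _
      exact ((((hline y').div_const 2).const_add 1).const_mul (1 + 2 * δ)).const_mul (2 * ‖v‖)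
    have h3 : (∫ s in (0 : ℝ)..1, NX h δ x (sg (y' + s • v)) (vel (y' + s • v) v)) ≤
        ∫ s in (0 : ℝ)..1, 2 * ‖v‖ * ((1 + 2 * δ) * (1 + psi0 h x v (sg (y' + s • v)) / 2)) :=
      intervalIntegral.integral_mono_on zero_le_one hi1 hi2 fun s _ => hup _
    have h4 : (∫ s in (0 : ℝ)..1, 2 * ‖v‖ * ((1 + 2 * δ) *
        (1 + psi0 h x v (sg (y' + s • v)) / 2))) = 2 * ‖v‖ * ((1 + 2 * δ) * (1 + X / 2)) := by
      have hi3 : IntervalIntegrable (fun s : ℝ => psi0 h x v (sg (y' + s • v)) / 2) volume 0 1 :=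
        ((hline y').div_const 2).intervalIntegrable _ _
      rw [intervalIntegral.integral_const_mul, intervalIntegral.integral_const_mul,
        intervalIntegral.integral_add (by simp) hi3, intervalIntegral.integral_div, ← hX]
      simp
    rw [hμ]
    linarith
  have hμ3 : μ ≤ 2 * ‖v‖ * (1 + 3 * δ) := by
    refine hμup.trans (mul_le_mul_of_nonneg_left ?_ (by positivity))
    have := (abs_le.1 hXd).2
    nlinarith [mul_pos hδ hδ]
  have hexc : μ ^ 2 ≤ 4 * (‖v‖ ^ 2 + 7 * δ * ‖v‖ ^ 2) := by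
    have h1 : μ ^ 2 ≤ (2 * ‖v‖ * (1 + 3 * δ)) ^ 2 := pow_le_pow_left₀ hμ0 hμ3 2
    have h2 : (1 + 3 * δ) ^ 2 ≤ 1 + 7 * δ + 0 := by nlinarith
    have h3 := sq_nonneg ‖v‖
    nlinarith
  -- all points of small displacement are near the flat
  obtain ⟨ε, hε⟩ : ∃ ε : ℝ, ε = C6 * √ (7 * δ * ‖v‖ ^ 2 / (ω * ‖v‖)) := ⟨_, rfl⟩
  have hεn : ∀ x', dg x' (act (dgm v) x') ≤ dN (NX h δ x) p (act (dgm v) p) →
      dg x' (sg (Pr x')) ≤ ε := by
    intro x' hx'
    rw [← hμ] at hx'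
    rw [hε]
    refine hnear v (ω * ‖v‖) (7 * δ * ‖v‖ ^ 2) hωv (fun i j hij => by linarith [hgap i j hij])
      (by positivity) ?_ x' ?_
    · have h1 : 7 * δ * L ≤ c6 * ω := by
        have h2 : 7 / c6 * (δ * L) ≤ C * (δ * L) := by
          refine mul_le_mul_of_nonneg_right ?_ (by positivity)
          rw [hC]
          have : 0 ≤ 200 * (C9 * (C6 + 1)) := by positivity
          linarith
        have h3 : 7 / c6 * (δ * L) ≤ ω := by linarith
        rw [div_mul_eq_mul_div, div_le_iff₀ hc6] at h3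
        linarith
      have h2 : 7 * δ * ‖v‖ ≤ c6 * ω := by
        refine le_trans ?_ h1
        exact mul_le_mul_of_nonneg_left hvL (by positivity)
      calc 7 * δ * ‖v‖ ^ 2 = (7 * δ * ‖v‖) * ‖v‖ := by ring
        _ ≤ (c6 * ω) * ‖v‖ := mul_le_mul_of_nonneg_right h2 hv0.le
        _ = _ := by ring
    · have h1 : dg x' (act (dgm v) x') ^ 2 ≤ μ ^ 2 :=
        pow_le_pow_left₀ ((dg_facts (n := n)).1 _ _) hx' 2
      exact h1.trans hexc
  have hsq : √ (μ ^ 2 / 4 - ‖v‖ ^ 2) ≤ √ (7 * δ) * ‖v‖ := by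
    have h1 : μ ^ 2 / 4 - ‖v‖ ^ 2 ≤ (7 * δ) * ‖v‖ ^ 2 := by linarith
    calc √ (μ ^ 2 / 4 - ‖v‖ ^ 2) ≤ √ ((7 * δ) * ‖v‖ ^ 2) := Real.sqrt_le_sqrt h1
      _ = √ (7 * δ) * ‖v‖ := by rw [Real.sqrt_mul (by positivity), Real.sqrt_sq hv0.le]
  -- the error at infinity
  obtain ⟨E0, hE0⟩ : ∃ E0 : ℝ, E0 = C9 * (ε + √ (7 * δ) * ‖v‖) := ⟨_, rfl⟩
  have hε0 : 0 ≤ ε := by rw [hε]; positivity
  have hE00 : 0 ≤ E0 := by rw [hE0]; positivity
  have hsd1 : √ δ ≤ 1 := by
    rw [Real.sqrt_le_left zero_le_one]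
    linarith
  have hE0le : E0 ≤ 3 * (C9 * (C6 + 1)) * (√ δ * (L / ω)) := by
    have h7 : √ (7 * δ) ≤ 3 * √ δ := by
      rw [Real.sqrt_mul (by norm_num)]
      refine mul_le_mul_of_nonneg_right ?_ (Real.sqrt_nonneg _)
      rw [Real.sqrt_le_left (by norm_num)]
      norm_num
    have hLω : L ≤ L / ω := by
      rw [le_div_iff₀ hω]
      nlinarith
    have h8 : √ (7 * δ) * ‖v‖ ≤ 3 * (√ δ * (L / ω)) := by
      calc √ (7 * δ) * ‖v‖ ≤ (3 * √ δ) * (L / ω) :=
            mul_le_mul h7 (hvL.trans hLω) hv0.le (by positivity)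
        _ = _ := by ring
    have h9 : ε ≤ C6 * (3 * (√ δ * (L / ω))) := by
      rw [hε]
      refine mul_le_mul_of_nonneg_left ?_ hC6.le
      have h10 : 7 * δ * ‖v‖ ^ 2 / (ω * ‖v‖) = (7 * δ) * (‖v‖ / ω) := by
        field_simp
      rw [h10, Real.sqrt_mul (by positivity)]
      have h11 : √ (‖v‖ / ω) ≤ L / ω := by
        have h12 : ‖v‖ / ω ≤ L / ω := div_le_div_of_nonneg_right hvL hω.le
        have h13 : 1 ≤ L / ω := hL1.trans hLω
        calc √ (‖v‖ / ω) ≤ √ ((L / ω) ^ 2) := by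
              apply Real.sqrt_le_sqrt
              nlinarith
          _ = L / ω := Real.sqrt_sq (by linarith)
      calc √ (7 * δ) * √ (‖v‖ / ω) ≤ (3 * √ δ) * (L / ω) :=
            mul_le_mul h7 h11 (Real.sqrt_nonneg _) (by positivity)
        _ = _ := by ring
    rw [hE0]
    calc C9 * (ε + √ (7 * δ) * ‖v‖) ≤ C9 * (C6 * (3 * (√ δ * (L / ω))) + 3 * (√ δ * (L / ω))) :=
          mul_le_mul_of_nonneg_left (add_le_add h9 h8) hC9.le
      _ = _ := by ring
  have hδE0 : δ * E0 ≤ 1 / 16 := by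
    have h1 : δ * E0 ≤ δ * (3 * (C9 * (C6 + 1)) * (√ δ * (L / ω))) :=
      mul_le_mul_of_nonneg_left hE0le hδ.le
    have hLω0 : 0 ≤ δ * (L / ω) := by positivity
    have h2 : δ * (3 * (C9 * (C6 + 1)) * (√ δ * (L / ω))) ≤ 3 * (C9 * (C6 + 1)) * (δ * (L / ω)) := by
      calc δ * (3 * (C9 * (C6 + 1)) * (√ δ * (L / ω))) =
          3 * (C9 * (C6 + 1)) * (δ * (L / ω)) * √ δ := by ring
        _ ≤ 3 * (C9 * (C6 + 1)) * (δ * (L / ω)) * 1 :=
          mul_le_mul_of_nonneg_left hsd1 (by positivity)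
        _ = _ := by ring
    have h3 : C * (δ * (L / ω)) ≤ 1 := by
      rw [← mul_div_assoc, ← mul_div_assoc, div_le_one hω]
      linarith
    have h4 : 200 * (C9 * (C6 + 1)) * (δ * (L / ω)) ≤ C * (δ * (L / ω)) := by
      refine mul_le_mul_of_nonneg_right ?_ hLω0
      rw [hC]
      have : 0 ≤ 7 / c6 := by positivity
      linarith
    linarith
  -- the inequality for `K` points
  have hKey : ∀ K : ℕ, 0 < K → δ * (5 + (E0 + C9 * (2 * μ / K))) ≤ 1 / 2 →
      (∑ j ∈ range K, psi0 h x v (sg (y + ((j : ℝ) / K) • v))) / K ≤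
        X + 500 * δ ^ 2 + 12 * (δ * (E0 + C9 * (2 * μ / K))) := by
    intro K hK hKE
    have hKR : (0 : ℝ) < K := by exact_mod_cast hK
    obtain ⟨E, hE⟩ : ∃ E : ℝ, E = E0 + C9 * (2 * μ / K) := ⟨_, rfl⟩
    rw [← hE] at hKE ⊢
    have hEnn : 0 ≤ E := by rw [hE]; positivity
    have hmain := lower_bdN (NX h δ x) 2 hGN (dgm v) v hlog hvne (hInv _ hα)
      (fun q => psi0 h x v q / (2 * δ) + (2 - 17 * δ)) 5 (by
        intro q
        have h1 := abs_le.1 (hbd q)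
        have h2 : |psi0 h x v q / (2 * δ)| ≤ 1 / 2 := by
          rw [abs_div, abs_of_pos (by positivity : (0 : ℝ) < 2 * δ), div_le_iff₀ (by positivity)]
          have := hbd q
          linarith
        have h3 := abs_le.1 h2
        rw [abs_le]
        constructor <;> linarith) δ hδ hlow p K hK ε hεn E hEnn (by
        intro x' τ hτ0 hτ1 hx'
        rw [← hμ, hpy] at hx'
        rw [hpy]
        have h1 := hlp (sg (y + τ • v)) x'
        rw [(dg_facts (n := n)).2.2.1] at h1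
        have h2 := (abs_le.1 h1).2
        have h3 : C9 * δ * dg x' (sg (y + τ • v)) ≤ δ * E := by
          have h4 : dg x' (sg (y + τ • v)) ≤ ε + √ (7 * δ) * ‖v‖ + 2 * μ / K := by linarith
          calc C9 * δ * dg x' (sg (y + τ • v)) ≤ C9 * δ * (ε + √ (7 * δ) * ‖v‖ + 2 * μ / K) :=
                mul_le_mul_of_nonneg_left h4 (by positivity)
            _ = δ * E := by rw [hE, hE0]; ring
        have h5 : psi0 h x v (sg (y + τ • v)) / (2 * δ) - psi0 h x v x' / (2 * δ) ≤ E := by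
          rw [← sub_div, div_le_iff₀ (by positivity)]
          have : δ * E ≤ E * (2 * δ) := by nlinarith [mul_nonneg hδ.le hEnn]
          linarith
        show psi0 h x v (sg (y + τ • v)) / (2 * δ) + (2 - 17 * δ) - E ≤
          psi0 h x v x' / (2 * δ) + (2 - 17 * δ)
        linarith) hKE
    rw [← hμ, hpy] at hmain
    have hsum : (∑ j ∈ range K, (psi0 h x v (sg (y + ((j : ℝ) / K) • v)) / (2 * δ) +
        (2 - 17 * δ))) / K =
        ((∑ j ∈ range K, psi0 h x v (sg (y + ((j : ℝ) / K) • v))) / K) / (2 * δ) +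
          (2 - 17 * δ) := by
      rw [Finset.sum_add_distrib, Finset.sum_const, card_range, nsmul_eq_mul, ← Finset.sum_div]
      field_simp
    rw [hsum] at hmain
    have hAd : |(∑ j ∈ range K, psi0 h x v (sg (y + ((j : ℝ) / K) • v))) / K| ≤ δ := by
      rw [abs_div, abs_of_pos hKR, div_le_iff₀ hKR]
      calc |∑ j ∈ range K, psi0 h x v (sg (y + ((j : ℝ) / K) • v))| ≤
          ∑ j ∈ range K, |psi0 h x v (sg (y + ((j : ℝ) / K) • v))| := Finset.abs_sum_le_sum_abs _ _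
        _ ≤ ∑ _j ∈ range K, δ := Finset.sum_le_sum fun j _ => hbd _
        _ = δ * K := by rw [Finset.sum_const, card_range, nsmul_eq_mul]; ring
    exact A12_real δ X _ E ‖v‖ μ hδ hδ1 hv0 hXd hAd hEnn hKE hμ0 hμup hmain
  -- the limit
  have hlimE : Tendsto (fun K : ℕ => E0 + C9 * (2 * μ / (K : ℝ))) atTop (𝓝 (E0 + C9 * 0)) := by
    refine (Tendsto.const_mul C9 ?_).const_add E0
    exact tendsto_const_div_atTop_nhds_zero_nat (2 * μ)
  rw [mul_zero, add_zero] at hlimE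
  have hev : ∀ᶠ K : ℕ in atTop, δ * (5 + (E0 + C9 * (2 * μ / K))) ≤ 1 / 2 := by
    have h1 : Tendsto (fun K : ℕ => δ * (5 + (E0 + C9 * (2 * μ / (K : ℝ))))) atTop
        (𝓝 (δ * (5 + E0))) := (hlimE.const_add 5).const_mul δ
    have h2 : δ * (5 + E0) < 1 / 2 := by
      have h3 : 100 * δ ≤ C * δ := mul_le_mul_of_nonneg_right hC8 hδ.le
      linarith
    exact (h1.eventually_lt_const h2).mono fun K hK => hK.le
  have hlim := le_of_tendsto_of_tendsto (A12_riemann (fun s => psi0 h x v (sg (y + s • v))) (hline y))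
    (((hlimE.const_mul δ).const_mul 12).const_add (X + 500 * δ ^ 2)) (by
      filter_upwards [hev, eventually_gt_atTop 0] with K hK1 hK0
      exact hKey K hK0 hK1)
  rw [← hX]
  refine hlim.trans ?_
  have hLω1 : 1 ≤ L / ω := by
    rw [le_div_iff₀ hω]
    linarith
  have hsδ : √ δ * √ δ = δ := Real.mul_self_sqrt hδ.le
  have h1 : 500 * δ ^ 2 ≤ 500 * (δ * √ δ) * (L / ω) := by
    have h2 : δ ^ 2 ≤ δ * √ δ := by
      have : δ ≤ √ δ := by nlinarith [Real.sqrt_nonneg δ]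
      nlinarith
    have h3 : 0 ≤ δ * √ δ := by positivity
    nlinarith
  have h2 : 12 * (δ * E0) ≤ 36 * (C9 * (C6 + 1)) * (δ * √ δ) * (L / ω) := by
    calc 12 * (δ * E0) ≤ 12 * (δ * (3 * (C9 * (C6 + 1)) * (√ δ * (L / ω)))) :=
          mul_le_mul_of_nonneg_left (mul_le_mul_of_nonneg_left hE0le hδ.le) (by norm_num)
      _ = _ := by ring
  have h3 : (500 + 36 * (C9 * (C6 + 1))) * ((δ * √ δ) * (L / ω)) ≤ C * ((δ * √ δ) * (L / ω)) := by
    refine mul_le_mul_of_nonneg_right ?_ (by positivity)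
    rw [hC]
    have : 0 ≤ 7 / c6 := by positivity
    have h4 : 0 ≤ C9 * (C6 + 1) := by positivity
    linarith
  linarith

end FL27
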