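import Pool.Agent.LibFL27.A12

set_option autoImplicit false

open Matrix MeasureTheory Topology Filter Finset

namespace FL27

open LibNC38

private theorem A13_entry {n : ℕ} (t : Matrix (Fin n) (Fin n) ℝ) (ht : ∀ i j, i < j → t i j = 0) (i j : Fin n) :
    (t * tᵀ) i j = (∑ k ∈ Finset.univ.filter (fun k => k < j), t i k * t j k) + t i j * t j j := by
  rw [Matrix.mul_apply]
  simp only [Matrix.transpose_apply]
  have h1 : ∑ k : Fin n, t i k * t j k
      = ∑ k ∈ Finset.univ.filter (fun k => k < j), t i k * t j k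
        + ∑ k ∈ Finset.univ.filter (fun k => ¬ k < j), t i k * t j k :=
    (Finset.sum_filter_add_sum_filter_not _ _ _).symm
  rw [h1]
  congr 1
  rw [Finset.sum_eq_single j]
  · intro k hk hkj
    simp only [Finset.mem_filter, Finset.mem_univ, true_and, not_lt] at hk
    have : j < k := lt_of_le_of_ne hk (Ne.symm hkj)
    rw [ht j k this, mul_zero]
  · intro hj
    simp at hj


private theorem A13_unique {n : ℕ} (t u : Matrix (Fin n) (Fin n) ℝ) (ht : ∀ i j, i < j → t i j = 0)
    (hu : ∀ i j, i < j → u i j = 0) (htp : ∀ i, 0 < t i i) (hup : ∀ i, 0 < u i i)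
    (h : t * tᵀ = u * uᵀ) : t = u := by
  have key : ∀ (m : ℕ) (j : Fin n), j.1 = m → ∀ i, t i j = u i j := by
    intro m
    induction m using Nat.strong_induction_on with
    | _ m ih =>
      intro j hj i
      have hs : ∀ i, (∑ k ∈ Finset.univ.filter (fun k => k < j), t i k * t j k)
          = ∑ k ∈ Finset.univ.filter (fun k => k < j), u i k * u j k := by
        intro i
        refine Finset.sum_congr rfl fun k hk => ?_
        simp only [Finset.mem_filter, Finset.mem_univ, true_and] at hk
        have hk' : k.1 < m := by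
          rw [← hj]; exact hk
        rw [ih k.1 hk' k rfl i, ih k.1 hk' k rfl j]
      have e : ∀ i, t i j * t j j = u i j * u j j := by
        intro i
        have h1 := A13_entry t ht i j
        have h2 := A13_entry u hu i j
        rw [h, h2, hs i] at h1
        linarith
      have hd : t j j = u j j := by
        have h1 := e j
        have h2 := htp j
        have h3 := hup j
        nlinarith
      have h1 := e i
      rw [hd] at h1
      exact mul_right_cancel₀ (ne_of_gt (hup j)) h1
  ext i j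
  exact key j.1 j rfl i


private theorem A13_tchmul {n : ℕ} (x : PD n) : (tch x).1 * (tch x).1ᵀ = x.1 := by
  have h := congrArg Subtype.val (tch_eq x)
  simp only [act, o, mul_one] at h
  exact h.symm


private theorem A13_tch {n : ℕ} (y : V0 n) : tch (sg y) = dgm y := by
  apply Subtype.ext
  have h1 : (dgm y).1 = Matrix.diagonal fun i => Real.exp (y.1 i) := rfl
  rw [h1]
  apply A13_unique _ _ (tch_lower (sg y)) ?_ (tch_pos (sg y)) ?_ ?_
  · intro i j hij
    exact Matrix.diagonal_apply_ne _ (ne_of_lt hij)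
  · intro i
    rw [Matrix.diagonal_apply_eq]
    exact Real.exp_pos _
  · rw [A13_tchmul]
    simp only [sg, act, o, dgm, mul_one]

/-- Board A. -/
theorem AStat_proof : AStat := by
  intro n hn Γ hd hc
  obtain ⟨C, hC, h1⟩ := one_side (n := n) (by omega)
  refine ⟨C, hC, fun h δ hδ hCδ hN x v ω L hω hω1 hgap hωv hvL hCL hxv y y' => ?_⟩
  have hv0 : 0 < ‖v‖ := by
    by_contra hcon
    have h2 : ‖v‖ = 0 := le_antisymm (not_lt.1 hcon) (norm_nonneg _)
    rw [h2, mul_zero] at hωv
    linarith
  have hvne : v ≠ 0 := norm_pos_iff.1 hv0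
  have hA := h1 Γ hd hc h δ hδ hCδ hN x v ω L hω hω1 hgap hωv hvL hCL hxv y y'
  have hB := h1 Γ hd hc h δ hδ hCδ hN x v ω L hω hω1 hgap hωv hvL hCL hxv y' y
  have e : ∀ y : V0 n, (∫ s in (0 : ℝ)..1, Jf (fun p => h p - gF p) (LibNC27.dM v) (LibNC27.dM v)
      (x * dgm (y + s • v))) = ‖v‖ ^ 2 * ∫ s in (0 : ℝ)..1, psi0 h x v (sg (y + s • v)) := by
    intro y
    rw [← intervalIntegral.integral_const_mul]
    refine intervalIntegral.integral_congr fun s _ => ?_
    show _ = ‖v‖ ^ 2 * psi0 h x v (sg (y + s • v))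
    rw [psi0_eq h x v hvne, A13_tch]
    field_simp
  rw [e, e, ← mul_sub, abs_mul, abs_of_pos (by positivity : (0 : ℝ) < ‖v‖ ^ 2)]
  have h3 : |(∫ s in (0 : ℝ)..1, psi0 h x v (sg (y + s • v))) -
      ∫ s in (0 : ℝ)..1, psi0 h x v (sg (y' + s • v))| ≤ C * (δ * √ δ) * (L / ω) := by
    rw [abs_le]
    constructor <;> linarith
  calc ‖v‖ ^ 2 * _ ≤ ‖v‖ ^ 2 * (C * (δ * √ δ) * (L / ω)) :=
        mul_le_mul_of_nonneg_left h3 (by positivity)
    _ = _ := by ring

end FL27
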