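import Pool.Agent.LibFL27.DefsD

set_option autoImplicit false
set_option maxSynthPendingDepth 3

open Matrix MeasureTheory Topology Filter LibNC38
open LibNC27 hiding Mt
open scoped Matrix.Norms.Elementwise

namespace FL27

private theorem d0a_det_one {n : ℕ} (M : Mt n) :
    HasDerivAt (fun x : ℝ => (1 + x • M).det) M.trace 0 := by
  have hp : ∀ x : ℝ, (1 + x • M).det =
      (det (1 + (Polynomial.X : Polynomial ℝ) • M.map Polynomial.C)).eval x := by
    intro x
    rw [← Polynomial.coe_evalRingHom, RingHom.map_det]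
    congr 1
    ext i j
    by_cases hij : i = j
    · simp [hij]
      exact mul_comm _ _
    · simp [hij]
      exact mul_comm _ _
  have h1 := (det (1 + (Polynomial.X : Polynomial ℝ) • M.map Polynomial.C)).hasDerivAt 0
  rw [Matrix.derivative_det_one_add_X_smul] at h1
  refine h1.congr_of_eventuallyEq ?_
  exact Filter.Eventually.of_forall hp

/-- derivative of the determinant along a line -/
private theorem d0a_det {n : ℕ} (y z : Mt n) (s : ℝ) (hz : (1 + s • y) * z = y) :
    HasDerivAt (fun t : ℝ => (1 + t • y).det) ((1 + s • y).det * z.trace) s := by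
  have h1 : HasDerivAt (fun h : ℝ => (1 + s • y).det * (1 + h • z).det)
      ((1 + s • y).det * z.trace) 0 := (d0a_det_one z).const_mul _
  have h2 : HasDerivAt (fun t : ℝ => (1 + s • y).det * (1 + (t - s) • z).det)
      ((1 + s • y).det * z.trace) s := by
    have h3 : HasDerivAt (fun h : ℝ => (1 + s • y).det * (1 + h • z).det)
      ((1 + s • y).det * z.trace) (s - s) := by rw [sub_self]; exact h1
    exact h3.comp_sub_const s s
  refine h2.congr_of_eventuallyEq (Filter.Eventually.of_forall fun t => ?_)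
  show (1 + t • y).det = (1 + s • y).det * (1 + (t - s) • z).det
  rw [← Matrix.det_mul]
  congr 1
  rw [mul_add, mul_one, Matrix.mul_smul, hz]
  rw [add_assoc, ← add_smul]
  congr 2
  ring

/-- the scaled line -/
private noncomputable def d0a_phi {n : ℕ} (y : Mt n) (t : ℝ) : ℝ :=
  Real.exp (-(Real.log ((1 + t • y).det) / n))

private theorem d0a_phi_det {n : ℕ} (y : Mt n) (t : ℝ) (h : 0 < (1 + t • y).det) :
    (d0a_phi y t • (1 + t • y)).det = 1 := by
  rw [Matrix.det_smul, Fintype.card_fin]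
  unfold d0a_phi
  rcases Nat.eq_zero_or_pos n with rfl | hn
  · simp
  · rw [← Real.exp_nat_mul]
    have hn' : (n : ℝ) ≠ 0 := by positivity
    rw [show (n : ℝ) * -(Real.log ((1 + t • y).det) / n) = -Real.log ((1 + t • y).det) by
      field_simp]
    rw [Real.exp_neg, Real.exp_log h, inv_mul_cancel₀ h.ne']

open Classical in
private noncomputable def d0a_P {n : ℕ} (y : Mt n) (t : ℝ) : SL n :=
  if h : 0 < (1 + t • y).det then ⟨d0a_phi y t • (1 + t • y), d0a_phi_det y t h⟩ else 1

private theorem d0a_P_eq {n : ℕ} (y : Mt n) (t : ℝ) (h : 0 < (1 + t • y).det) :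
    (d0a_P y t).1 = d0a_phi y t • (1 + t • y) := congrArg Subtype.val (dif_pos h)

private theorem d0a_der {n : ℕ} (y z : Mt n) (s : ℝ) (hz : (1 + s • y) * z = y)
    (hd : 0 < (1 + s • y).det) (a b : Fin n) :
    HasDerivAt (fun t => (d0a_P y t).1 a b)
      (((d0a_P y s).1 * (z - (z.trace / n) • 1)) a b) s := by
  have h1 := d0a_det y z s hz
  have h2 : HasDerivAt (fun t => d0a_phi y t) (d0a_phi y s * -(z.trace / n)) s := by
    have h3 : HasDerivAt (fun t => Real.exp (-(Real.log ((1 + t • y).det) / n)))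
      (Real.exp (-(Real.log ((1 + s • y).det) / n)) *
        -((1 + s • y).det * z.trace / (1 + s • y).det / n)) s :=
      (((h1.log hd.ne').div_const (n : ℝ)).neg).exp
    refine h3.congr_deriv ?_
    rw [mul_div_cancel_left₀ _ hd.ne']
    rfl
  have h4 : HasDerivAt (fun t : ℝ => (1 + t • y) a b) (y a b) s := by
    have := ((hasDerivAt_id s).mul_const (y a b)).const_add ((1 : Mt n) a b)
    rw [one_mul] at this
    exact this
  have h5 := h2.mul h4
  have h6 : ∀ᶠ t in 𝓝 s, 0 < (1 + t • y).det := h1.continuousAt.eventually (lt_mem_nhds hd)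
  have h7 : (fun t => (d0a_P y t).1 a b) =ᶠ[𝓝 s] fun t => d0a_phi y t * (1 + t • y) a b := by
    filter_upwards [h6] with t ht
    rw [d0a_P_eq y t ht]
    rfl
  refine (h5.congr_of_eventuallyEq h7).congr_deriv ?_
  rw [d0a_P_eq y s hd, Matrix.smul_mul, mul_sub, hz, Matrix.mul_smul, mul_one]
  simp only [Matrix.smul_apply, Matrix.sub_apply, smul_eq_mul]
  ring

/-- the entries of `(1 + s y)⁻¹ y` -/
private theorem d0a_bound {n : ℕ} (y z : Mt n) (s δ : ℝ) (hs : |s| ≤ 1) (hy : ∀ a b, |y a b| ≤ δ)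
    (hδ : (n : ℝ) * δ ≤ 1 / 2) (hz : (1 + s • y) * z = y) (a b : Fin n) : |z a b| ≤ 2 * δ := by
  have hne : (Finset.univ : Finset (Fin n × Fin n)).Nonempty := ⟨(a, b), Finset.mem_univ _⟩
  obtain ⟨⟨i, j⟩, -, hm⟩ := Finset.exists_max_image Finset.univ (fun p : Fin n × Fin n => |z p.1 p.2|) hne
  have hδ0 : 0 ≤ δ := (abs_nonneg _).trans (hy a b)
  have h1 : z i j = y i j - s * ∑ k, y i k * z k j := by
    have h2 := congrFun (congrFun hz i) j
    rw [add_mul, one_mul, Matrix.smul_mul, Matrix.add_apply, Matrix.smul_apply, smul_eq_mul,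
      Matrix.mul_apply] at h2
    linarith
  have h3 : |∑ k, y i k * z k j| ≤ n * (δ * |z i j|) := by
    calc |∑ k, y i k * z k j| ≤ ∑ k, |y i k * z k j| := Finset.abs_sum_le_sum_abs _ _
      _ ≤ ∑ _k : Fin n, δ * |z i j| := by
          refine Finset.sum_le_sum fun k _ => ?_
          rw [abs_mul]
          exact mul_le_mul (hy i k) (hm (k, j) (Finset.mem_univ _)) (abs_nonneg _) hδ0
      _ = n * (δ * |z i j|) := by
          rw [Finset.sum_const, Finset.card_univ, Fintype.card_fin, nsmul_eq_mul]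
  have h4 : |z i j| ≤ δ + 1 / 2 * |z i j| := by
    calc |z i j| = |y i j - s * ∑ k, y i k * z k j| := by rw [← h1]
      _ ≤ |y i j| + |s * ∑ k, y i k * z k j| := abs_sub _ _
      _ ≤ δ + 1 * (n * (δ * |z i j|)) := by
          refine add_le_add (hy i j) ?_
          rw [abs_mul]
          exact mul_le_mul hs h3 (abs_nonneg _) zero_le_one
      _ ≤ δ + 1 / 2 * |z i j| := by
          have := mul_le_mul_of_nonneg_right hδ (abs_nonneg (z i j))
          nlinarith
  have h5 : |z a b| ≤ |z i j| := hm (a, b) (Finset.mem_univ _)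
  linarith

/-- near the identity -/
private theorem d0a_near {n : ℕ} : ∃ r : ℝ, 0 < r ∧ ∀ A : Mt n, ‖A - 1‖ < r → 0 < A.det := by
  have h1 : Continuous fun A : Mt n => A.det := continuous_id.matrix_det
  have h2 : ∀ᶠ A : Mt n in 𝓝 1, 0 < A.det := by
    have h3 : 0 < (1 : Mt n).det := by rw [Matrix.det_one]; norm_num
    exact h1.continuousAt.eventually (lt_mem_nhds h3)
  obtain ⟨r, hr, h⟩ := Metric.eventually_nhds_iff.1 h2
  exact ⟨r, hr, fun A hA => h (by rw [dist_eq_norm]; exact hA)⟩

private theorem d0a_lip {n : ℕ} {r : ℝ} (hr : ∀ A : Mt n, ‖A - 1‖ < r → 0 < A.det)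
    (hn : (n : ℝ) * r ≤ 1 / 2) {M : ℝ} {F : Fn n} (hM : 0 ≤ M) (hF : BD 1 M F) (g q : SL n)
    (hq : dE q < r) : |F (g * q) - F g| ≤ 4 * M * dE q := by
  set y : Mt n := q.1 - 1 with hy
  have hyd : ∀ a b, |y a b| ≤ dE q := fun a b => by
    rw [← Real.norm_eq_abs]
    exact Matrix.norm_entry_le_entrywise_sup_norm y
  rcases (norm_nonneg y).eq_or_lt with h0 | h0
  · have hq1 : q = 1 := by
      apply Subtype.ext
      have : y = 0 := norm_eq_zero.1 h0.symm
      exact sub_eq_zero.1 this
    have hd0 : 0 ≤ dE q := norm_nonneg _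
    rw [hq1, mul_one, sub_self, abs_zero, ← hq1]
    positivity
  have hdet : ∀ s : ℝ, s ∈ Set.Icc (0 : ℝ) 1 → 0 < (1 + s • y).det := by
    intro s hs
    apply hr
    rw [add_sub_cancel_left, norm_smul, Real.norm_eq_abs, abs_of_nonneg hs.1]
    calc s * ‖y‖ ≤ 1 * ‖y‖ := mul_le_mul_of_nonneg_right hs.2 (norm_nonneg _)
      _ < r := by rw [one_mul]; exact hq
  have hder : ∀ s ∈ Set.Icc (0 : ℝ) 1, ∃ f' : ℝ, HasDerivAt (fun t => F (g * d0a_P y t)) f' s ∧
      |f'| ≤ 4 * M * dE q := by
    intro s hs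
    set z : Mt n := (1 + s • y)⁻¹ * y with hz'
    have hz : (1 + s • y) * z = y := by
      rw [hz', ← Matrix.mul_assoc, Matrix.mul_nonsing_inv _ (hdet s hs).ne'.isUnit, Matrix.one_mul]
    have hzb : ∀ a b, |z a b| ≤ 2 * dE q := by
      intro a b
      refine d0a_bound y z s (dE q) (by rw [abs_of_nonneg hs.1]; exact hs.2) hyd ?_ hz a b
      exact (mul_le_mul_of_nonneg_left hq.le (Nat.cast_nonneg n)).trans hn
    set x : Mt n := z - (z.trace / n) • 1 with hx
    have hn0 : n ≠ 0 := by
      rintro rfl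
      apply h0.ne
      have : y = 0 := Subsingleton.elim _ _
      rw [this, norm_zero]
    have hn1 : (n : ℝ) ≠ 0 := Nat.cast_ne_zero.2 hn0
    have htr : x.trace = 0 := by
      rw [hx, Matrix.trace_sub, Matrix.trace_smul, Matrix.trace_one, Fintype.card_fin, smul_eq_mul,
        div_mul_cancel₀ _ hn1, sub_self]
    have htz : |z.trace / n| ≤ 2 * dE q := by
      have h1 : |z.trace| ≤ n * (2 * dE q) := by
        calc |z.trace| ≤ ∑ i, |z i i| := Finset.abs_sum_le_sum_abs _ _
          _ ≤ ∑ _i : Fin n, 2 * dE q := Finset.sum_le_sum fun i _ => hzb i i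
          _ = n * (2 * dE q) := by
            rw [Finset.sum_const, Finset.card_univ, Fintype.card_fin, nsmul_eq_mul]
      have hnp : (0 : ℝ) < n := by positivity
      rw [abs_div, abs_of_pos hnp, div_le_iff₀ hnp, mul_comm _ (n : ℝ)]
      exact h1
    have hxb : ∀ a b, |x a b| ≤ 4 * dE q := by
      intro a b
      have h1 : x a b = z a b - (z.trace / n) * (1 : Mt n) a b := by
        rw [hx, Matrix.sub_apply, Matrix.smul_apply, smul_eq_mul]
      have h2 : |(z.trace / n) * (1 : Mt n) a b| ≤ 2 * dE q := by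
        rw [abs_mul]
        have h3 : |(1 : Mt n) a b| ≤ 1 := by
          by_cases hab : a = b
          · rw [hab, Matrix.one_apply_eq, abs_one]
          · rw [Matrix.one_apply_ne hab, abs_zero]; norm_num
        calc |z.trace / n| * |(1 : Mt n) a b| ≤ (2 * dE q) * 1 :=
              mul_le_mul htz h3 (abs_nonneg _) (by have : 0 ≤ dE q := norm_nonneg _; positivity)
          _ = 2 * dE q := mul_one _
      rw [h1]
      calc |z a b - (z.trace / n) * (1 : Mt n) a b| ≤ |z a b| + |(z.trace / n) * (1 : Mt n) a b| :=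
            abs_sub _ _
        _ ≤ 2 * dE q + 2 * dE q := add_le_add (hzb a b) h2
        _ = 4 * dE q := by ring
    have hd0 : 0 < dE q := h0
    set lam : ℝ := 4 * dE q with hlam
    have hl0 : 0 < lam := by positivity
    obtain ⟨F', hRD, -, hF'⟩ := hF.2 (lam⁻¹ • x) (by rw [Matrix.trace_smul, htr, smul_zero])
      (fun a b => by
        rw [Matrix.smul_apply, smul_eq_mul, abs_mul, abs_of_pos (inv_pos.2 hl0),
          inv_mul_le_iff₀ hl0, mul_one]
        exact hxb a b)
    refine ⟨F' (g * d0a_P y s) * lam, ?_, ?_⟩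
    · have h1 : HasDerivAt (fun h : ℝ => F (g * d0a_P y (s + lam⁻¹ * h))) (F' (g * d0a_P y s)) 0 := by
        have h2 := hRD (fun h : ℝ => g * d0a_P y (s + lam⁻¹ * h)) (by
          intro a b
          have h3 : ∀ k b, HasDerivAt (fun h : ℝ => (d0a_P y (s + lam⁻¹ * h)).1 k b)
              (((d0a_P y s).1 * x) k b * lam⁻¹) 0 := by
            intro k b
            have h4 := d0a_der y z s hz (hdet s hs) k b
            have h5 : HasDerivAt (fun h : ℝ => s + lam⁻¹ * h) lam⁻¹ 0 := by
              have := ((hasDerivAt_id (0 : ℝ)).const_mul lam⁻¹).const_add s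
              rw [mul_one] at this
              exact this
            have h6 : HasDerivAt (fun t => (d0a_P y t).1 k b) (((d0a_P y s).1 * x) k b)
                (s + lam⁻¹ * 0) := by rw [mul_zero, add_zero]; exact h4
            exact h6.comp 0 h5
          have h7 : HasDerivAt (fun h : ℝ => ∑ k, g.1 a k * (d0a_P y (s + lam⁻¹ * h)).1 k b)
              (∑ k, g.1 a k * (((d0a_P y s).1 * x) k b * lam⁻¹)) 0 :=
            HasDerivAt.fun_sum fun k _ => (h3 k b).const_mul _
          have h8 : (∑ k, g.1 a k * (((d0a_P y s).1 * x) k b * lam⁻¹)) =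
              (((g * d0a_P y (s + lam⁻¹ * 0)).1 * (lam⁻¹ • x)) a b) := by
            rw [mul_zero, add_zero, Matrix.mul_smul, Matrix.smul_apply, smul_eq_mul]
            show _ = lam⁻¹ * ((g.1 * (d0a_P y s).1 * x) a b)
            rw [Matrix.mul_assoc, Matrix.mul_apply, Finset.mul_sum]
            refine Finset.sum_congr rfl fun k _ => ?_
            ring
          rw [← h8]
          exact h7)
        simp only [mul_zero, add_zero] at h2
        exact h2
      have h9 : HasDerivAt (fun t : ℝ => lam * (t - s)) lam s := by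
        have := ((hasDerivAt_id s).sub_const s).const_mul lam
        rw [mul_one] at this
        exact this
      have h10 : HasDerivAt (fun h : ℝ => F (g * d0a_P y (s + lam⁻¹ * h))) (F' (g * d0a_P y s))
          (lam * (s - s)) := by rw [sub_self, mul_zero]; exact h1
      have h11 := h10.comp s h9
      refine h11.congr_of_eventuallyEq (Filter.Eventually.of_forall fun t => ?_)
      show F (g * d0a_P y t) = F (g * d0a_P y (s + lam⁻¹ * (lam * (t - s))))
      rw [inv_mul_cancel_left₀ hl0.ne', add_sub_cancel]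
    · rw [abs_mul, abs_of_pos hl0, hlam]
      calc |F' (g * d0a_P y s)| * (4 * dE q) ≤ M * (4 * dE q) :=
            mul_le_mul_of_nonneg_right (hF' _) (by positivity)
        _ = 4 * M * dE q := by ring
  choose! f' hf1 hf2 using hder
  have hmv := norm_image_sub_le_of_norm_deriv_le_segment_01' (f := fun t => F (g * d0a_P y t))
    (f' := f') (C := 4 * M * dE q) (fun s hs => (hf1 s hs).hasDerivWithinAt)
    (fun s hs => by rw [Real.norm_eq_abs]; exact hf2 s ⟨hs.1, hs.2.le⟩)
  have hP1 : d0a_P y 1 = q := by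
    apply Subtype.ext
    rw [d0a_P_eq y 1 (hdet 1 ⟨zero_le_one, le_rfl⟩)]
    have h1 : (1 : Mt n) + (1 : ℝ) • y = q.1 := by rw [one_smul, hy, add_sub_cancel]
    have h2 : d0a_phi y 1 = 1 := by
      unfold d0a_phi
      rw [h1, q.2, Real.log_one, zero_div, neg_zero, Real.exp_zero]
    rw [h1, h2, one_smul]
  have hP0 : d0a_P y 0 = 1 := by
    apply Subtype.ext
    rw [d0a_P_eq y 0 (hdet 0 ⟨le_rfl, zero_le_one⟩)]
    have h1 : (1 : Mt n) + (0 : ℝ) • y = 1 := by rw [zero_smul, add_zero]
    have h2 : d0a_phi y 0 = 1 := by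
      unfold d0a_phi
      rw [h1, Matrix.det_one, Real.log_one, zero_div, neg_zero, Real.exp_zero]
    rw [h1, h2, one_smul]
    rfl
  rw [hP1, hP0, mul_one, Real.norm_eq_abs] at hmv
  exact hmv

/-- Row D0a. One bounded derivative gives a Lipschitz bound. (For dE q small join 1 and q by the
normalised segment c(s) = (1 + s(q-1)) / det^(1/n) or by LU factors; c' = c x with entries of x
at most C dE q; mean value inequality; RD scales linearly in x. For dE q not small use the bound M.) -/
theorem BD_LB (n : ℕ) : ∃ C : ℝ, 1 ≤ C ∧ ∀ (Γ : Subgroup (SL n)) (M : ℝ) (F : Fn n), 0 ≤ M →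
    (∀ γ ∈ Γ, ∀ g, F (γ * g) = F g) → BD 1 M F → LB Γ (C * M) F := by
  obtain ⟨r1, hr1, h1⟩ := d0a_near (n := n)
  set r : ℝ := min r1 (1 / (2 * (n + 1))) with hr
  have hr0 : 0 < r := lt_min hr1 (by positivity)
  have hnr : (n : ℝ) * r ≤ 1 / 2 := by
    have h2 : r ≤ 1 / (2 * (n + 1)) := min_le_right _ _
    calc (n : ℝ) * r ≤ n * (1 / (2 * (n + 1))) := mul_le_mul_of_nonneg_left h2 (Nat.cast_nonneg n)
      _ ≤ 1 / 2 := by
        rw [mul_one_div, div_le_div_iff₀ (by positivity) (by norm_num)]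
        nlinarith [Nat.cast_nonneg (α := ℝ) n]
  refine ⟨max 4 (2 / r), le_trans (by norm_num) (le_max_left _ _), ?_⟩
  intro Γ M F hM hinv hF
  have hC1 : (1 : ℝ) ≤ max 4 (2 / r) := le_trans (by norm_num) (le_max_left _ _)
  refine ⟨hinv, fun g => ?_, fun g q => ?_⟩
  · calc |F g| ≤ M := hF.1.2 g
      _ ≤ max 4 (2 / r) * M := le_mul_of_one_le_left hM hC1
  · have hd0 : 0 ≤ dE q := norm_nonneg _
    rcases lt_or_ge (dE q) r with hq | hq
    · calc |F (g * q) - F g| ≤ 4 * M * dE q :=
            d0a_lip (fun A hA => h1 A (lt_of_lt_of_le hA (min_le_left _ _))) hnr hM hF g q hq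
        _ ≤ max 4 (2 / r) * M * dE q :=
            mul_le_mul_of_nonneg_right (mul_le_mul_of_nonneg_right (le_max_left _ _) hM) hd0
    · calc |F (g * q) - F g| ≤ |F (g * q)| + |F g| := abs_sub _ _
        _ ≤ M + M := add_le_add (hF.1.2 _) (hF.1.2 _)
        _ = 2 / r * M * r := by field_simp; ring
        _ ≤ 2 / r * M * dE q := mul_le_mul_of_nonneg_left hq (by positivity)
        _ ≤ max 4 (2 / r) * M * dE q :=
            mul_le_mul_of_nonneg_right (mul_le_mul_of_nonneg_right (le_max_right _ _) hM) hd0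

end FL27
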