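import Pool.Agent.LibFL27.DefsD

set_option autoImplicit false
set_option maxSynthPendingDepth 3

open Matrix MeasureTheory Topology Filter LibNC38
open LibNC27 hiding Mt
open scoped Matrix.Norms.Elementwise

namespace FL27

private theorem D0b_dE_nonneg {n : ℕ} (q : SL n) : 0 ≤ dE q := norm_nonneg _

private theorem D0b_dE_one {n : ℕ} : dE (1 : SL n) = 0 := by
  have h : (1 : SL n).1 - 1 = 0 := by
    show (1 : Mt n) - 1 = 0
    exact sub_self _
  show ‖(1 : SL n).1 - 1‖ = 0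
  rw [h, norm_zero]

private theorem D0b_cont_dE {n : ℕ} : Continuous (dE : SL n → ℝ) := by
  have h1 : Continuous (fun q : SL n => q.1) := continuous_subtype_val
  exact (h1.sub continuous_const).norm

private theorem D0b_cont {n : ℕ} (M : ℝ) (F : Fn n)
    (h : ∀ g q : SL n, |F (g * q) - F g| ≤ M * √ (dE q)) : Continuous F := by
  rw [continuous_iff_continuousAt]
  intro g0
  rw [ContinuousAt, tendsto_iff_norm_sub_tendsto_zero]
  have h1 : Continuous (fun g : SL n => M * √ (dE (g0⁻¹ * g))) := by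
    refine continuous_const.mul (Real.continuous_sqrt.comp (D0b_cont_dE.comp ?_))
    exact continuous_const.mul continuous_id
  have h2 : Tendsto (fun g : SL n => M * √ (dE (g0⁻¹ * g))) (𝓝 g0) (𝓝 0) := by
    have h3 := h1.tendsto g0
    have h4 : M * √ (dE (g0⁻¹ * g0)) = 0 := by
      rw [inv_mul_cancel, D0b_dE_one, Real.sqrt_zero, mul_zero]
    rw [h4] at h3
    exact h3
  refine squeeze_zero (fun g => norm_nonneg _) (fun g => ?_) h2
  have h5 := h g0 (g0⁻¹ * g)
  rw [mul_inv_cancel_left] at h5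
  exact h5

private theorem D0b_lh {n : ℕ} (M : ℝ) (F : Fn n) (hb : ∀ g, |F g| ≤ M)
    (h : ∀ g q : SL n, |F (g * q) - F g| ≤ M * dE q) :
    ∀ g q : SL n, |F (g * q) - F g| ≤ (2 * M) * √ (dE q) := by
  intro g q
  have hM : 0 ≤ M := (abs_nonneg _).trans (hb g)
  have hd := D0b_dE_nonneg q
  rcases le_total (dE q) 1 with h1 | h1
  · have h2 : dE q ≤ √ (dE q) := by
      have h3 : √ (dE q) ≤ 1 := by
        calc √ (dE q) ≤ √ 1 := Real.sqrt_le_sqrt h1
          _ = 1 := Real.sqrt_one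
      have h4 := Real.mul_self_sqrt hd
      nlinarith [Real.sqrt_nonneg (dE q)]
    have h5 := h g q
    have h6 : M * dE q ≤ M * √ (dE q) := mul_le_mul_of_nonneg_left h2 hM
    have h7 : 0 ≤ M * √ (dE q) := mul_nonneg hM (Real.sqrt_nonneg _)
    linarith
  · have h2 : 1 ≤ √ (dE q) := by
      rw [Real.one_le_sqrt]
      exact h1
    have h3 : |F (g * q) - F g| ≤ M + M :=
      (abs_sub _ _).trans (add_le_add (hb _) (hb _))
    have h4 : M * 1 ≤ M * √ (dE q) := mul_le_mul_of_nonneg_left h2 hM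
    linarith

/-- Row D0b. Algebra of HB, LB. -/
theorem HB_facts {n : ℕ} (Γ : Subgroup (SL n)) :
    (∀ M F, HB Γ M F → Inv Γ F) ∧ (∀ M F, LB Γ M F → Inv Γ F) ∧
    (∀ M F, LB Γ M F → HB Γ (2 * M) F) ∧
    (∀ M M' F, M ≤ M' → HB Γ M F → HB Γ M' F) ∧ (∀ M M' F, M ≤ M' → LB Γ M F → LB Γ M' F) ∧
    (∀ M F a, HB Γ M F → HB Γ (|a| * M) (fun g => a * F g)) ∧
    (∀ M M' F F', HB Γ M F → HB Γ M' F' → HB Γ (M + M') (fun g => F g + F' g)) ∧
    (∀ M F a, LB Γ M F → LB Γ (|a| * M) (fun g => a * F g)) ∧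
    (∀ M M' F F', LB Γ M F → LB Γ M' F' → LB Γ (M + M') (fun g => F g + F' g)) := by
  refine ⟨fun M F h => ⟨D0b_cont M F h.hol, h.inv⟩,
    fun M F h => ⟨D0b_cont (2 * M) F (D0b_lh M F h.bd h.lip), h.inv⟩,
    fun M F h => ⟨h.inv, fun g => ?_, D0b_lh M F h.bd h.lip⟩,
    fun M M' F hM h => ⟨h.inv, fun g => (h.bd g).trans hM, fun g q => (h.hol g q).trans
      (mul_le_mul_of_nonneg_right hM (Real.sqrt_nonneg _))⟩,
    fun M M' F hM h => ⟨h.inv, fun g => (h.bd g).trans hM, fun g q => (h.lip g q).trans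
      (mul_le_mul_of_nonneg_right hM (D0b_dE_nonneg q))⟩,
    fun M F a h => ⟨fun γ hγ g => ?_, fun g => ?_, fun g q => ?_⟩,
    fun M M' F F' h h' => ⟨fun γ hγ g => ?_, fun g => ?_, fun g q => ?_⟩,
    fun M F a h => ⟨fun γ hγ g => ?_, fun g => ?_, fun g q => ?_⟩,
    fun M M' F F' h h' => ⟨fun γ hγ g => ?_, fun g => ?_, fun g q => ?_⟩⟩
  · have hM : 0 ≤ M := (abs_nonneg _).trans (h.bd g)
    have := h.bd g
    linarith
  · show a * F (γ * g) = a * F g
    rw [h.inv γ hγ g]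
  · show |a * F g| ≤ |a| * M
    rw [abs_mul]
    exact mul_le_mul_of_nonneg_left (h.bd g) (abs_nonneg a)
  · show |a * F (g * q) - a * F g| ≤ |a| * M * √ (dE q)
    rw [← mul_sub, abs_mul, mul_assoc]
    exact mul_le_mul_of_nonneg_left (h.hol g q) (abs_nonneg a)
  · show F (γ * g) + F' (γ * g) = F g + F' g
    rw [h.inv γ hγ g, h'.inv γ hγ g]
  · show |F g + F' g| ≤ M + M'
    exact (abs_add_le _ _).trans (add_le_add (h.bd g) (h'.bd g))
  · show |F (g * q) + F' (g * q) - (F g + F' g)| ≤ (M + M') * √ (dE q)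
    have h1 : F (g * q) + F' (g * q) - (F g + F' g) = (F (g * q) - F g) + (F' (g * q) - F' g) := by
      ring
    rw [h1, add_mul]
    exact (abs_add_le _ _).trans (add_le_add (h.hol g q) (h'.hol g q))
  · show a * F (γ * g) = a * F g
    rw [h.inv γ hγ g]
  · show |a * F g| ≤ |a| * M
    rw [abs_mul]
    exact mul_le_mul_of_nonneg_left (h.bd g) (abs_nonneg a)
  · show |a * F (g * q) - a * F g| ≤ |a| * M * dE q
    rw [← mul_sub, abs_mul, mul_assoc]
    exact mul_le_mul_of_nonneg_left (h.lip g q) (abs_nonneg a)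
  · show F (γ * g) + F' (γ * g) = F g + F' g
    rw [h.inv γ hγ g, h'.inv γ hγ g]
  · show |F g + F' g| ≤ M + M'
    exact (abs_add_le _ _).trans (add_le_add (h.bd g) (h'.bd g))
  · show |F (g * q) + F' (g * q) - (F g + F' g)| ≤ (M + M') * dE q
    have h1 : F (g * q) + F' (g * q) - (F g + F' g) = (F (g * q) - F g) + (F' (g * q) - F' g) := by
      ring
    rw [h1, add_mul]
    exact (abs_add_le _ _).trans (add_le_add (h.lip g q) (h'.lip g q))

end FL27
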