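import Pool.Agent.LibFL27.DefsB
import Pool.Agent.LibFL27.D0a
import Pool.Agent.LibFL27.D0b

set_option autoImplicit false
set_option maxSynthPendingDepth 3

open Matrix MeasureTheory Topology Filter LibNC38
open LibNC27 hiding Mt
open scoped Matrix.Norms.Elementwise

namespace FL27

private theorem B0_smul {n : ℕ} (c : ℝ) (v : V0 n) : dM (c • v) = c • dM v := by
  unfold dM
  rw [← Matrix.diagonal_smul]
  rfl

private theorem B0_half {n : ℕ} (v : V0 n) : dM v = (2 : ℝ) • dM ((1 / 2 : ℝ) • v) := by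
  rw [B0_smul, smul_smul]
  norm_num

private theorem B0_ent {n : ℕ} (v : V0 n) (hv : ‖v‖ ≤ 2) (a b : Fin n) :
    |dM ((1 / 2 : ℝ) • v) a b| ≤ 1 := by
  unfold dM
  rw [Matrix.diagonal_apply]
  by_cases hab : a = b
  · rw [if_pos hab]
    have h1 : |v.1 a| ≤ ‖v‖ := by
      have h2 := PiLp.norm_apply_le v.1 a
      rw [Real.norm_eq_abs] at h2
      exact h2
    have h3 : ((1 / 2 : ℝ) • v).1 a = 1 / 2 * v.1 a := rfl
    rw [h3, abs_mul, abs_of_pos (by norm_num : (0 : ℝ) < 1 / 2)]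
    linarith
  · rw [if_neg hab, abs_zero]
    exact zero_le_one

private theorem B0_sym {n : ℕ} (v : V0 n) : (dM v)ᵀ = dM v ∧ (dM v).trace = 0 := by
  unfold dM
  refine ⟨Matrix.diagonal_transpose _, ?_⟩
  rw [Matrix.trace_diagonal]
  exact sum_V0 v

private theorem B0_curve {n : ℕ} (z : V0 n) (g : SL n) (a b : Fin n) :
    HasDerivAt (fun s : ℝ => (g * dgm (s • z)).1 a b) (((g * dgm ((0 : ℝ) • z)).1 * dM z) a b) 0 := by
  have h0 : dgm ((0 : ℝ) • z) = 1 := (dgm_facts (n := n)).2.2.1 z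
  rw [h0, mul_one]
  have h1 : (fun s : ℝ => (g * dgm (s • z)).1 a b) = fun s => g.1 a b * Real.exp (s * z.1 b) := by
    funext s
    rw [Matrix.SpecialLinearGroup.coe_mul]
    show (g.1 * Matrix.diagonal fun i => Real.exp ((s • z).1 i)) a b = _
    rw [Matrix.mul_diagonal]
    rfl
  have h2 : (g.1 * dM z) a b = g.1 a b * z.1 b := by
    unfold dM
    rw [Matrix.mul_diagonal]
  rw [h1, h2]
  have h3 := (((hasDerivAt_id (0 : ℝ)).mul_const (z.1 b)).exp).const_mul (g.1 a b)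
  simpa using h3

private theorem B0_uniq {n : ℕ} (z : V0 n) (F F1 F2 : Fn n) (h1 : RD (dM z) F F1)
    (h2 : RD (dM z) F F2) : F1 = F2 := by
  funext g
  have h0 : dgm ((0 : ℝ) • z) = 1 := (dgm_facts (n := n)).2.2.1 z
  have e1 := h1 (fun s => g * dgm (s • z)) (B0_curve z g)
  have e2 := h2 (fun s => g * dgm (s • z)) (B0_curve z g)
  have e3 := e1.unique e2
  simp only [h0, mul_one] at e3
  exact e3

private theorem B0_succ {n : ℕ} (k : ℕ) (M : ℝ) (F : Fn n) (h : BD (k + 1) M F) : BD k M F := by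
  induction k generalizing F with
  | zero => exact h.1
  | succ k ih =>
    refine ⟨h.1, fun x hx hx1 => ?_⟩
    obtain ⟨F', h1, h2⟩ := h.2 x hx hx1
    exact ⟨F', h1, ih F' h2⟩

private theorem B0_step {n : ℕ} (k : ℕ) (M : ℝ) (F F1 : Fn n) (z : V0 n)
    (hz : ∀ a b, |dM z a b| ≤ 1) (h : BD (k + 1) M F) (h1 : RD (dM z) F F1) : BD k M F1 := by
  obtain ⟨F', h2, h3⟩ := h.2 (dM z) (B0_sym z).2 hz
  rw [B0_uniq z F F1 F' h1 h2]
  exact h3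

private theorem B0_bd {n : ℕ} (M M' a : ℝ) (F : Fn n) (ha : 0 ≤ a) (hM : a * M ≤ M') (h : BD 1 M F) :
    BD 1 M' (fun g => a * F g) := by
  have hb : ∀ G : Fn n, (Continuous G ∧ ∀ g, |G g| ≤ M) →
      (Continuous (fun g => a * G g) ∧ ∀ g, |a * G g| ≤ M') := by
    rintro G ⟨h1, h2⟩
    refine ⟨continuous_const.mul h1, fun g => ?_⟩
    rw [abs_mul, abs_of_nonneg ha]
    exact (mul_le_mul_of_nonneg_left (h2 g) ha).trans hM
  refine ⟨hb F h.1, fun x hx hx1 => ?_⟩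
  obtain ⟨F', h2, h3⟩ := h.2 x hx hx1
  exact ⟨fun g => a * F' g, fun c hc => (h2 c hc).const_mul a, hb F' h3⟩

/-- Row B0. Bounds of the jet from TB 4: the functions are left invariant (LibNC27 `jm_inv`), the
derivatives in `BD` agree with `J1`, `J2` by uniqueness of derivatives, scale `dM v`, `‖v‖ ≤ 2`. -/
theorem jm_bounds (n : ℕ) : ∃ C : ℝ, 1 ≤ C ∧ ∀ (Γ : Subgroup (SL n)) (κ : PD n → Fm n) (δ : ℝ),
    0 ≤ δ → FmOK Γ κ → TB 4 δ κ → ∀ (J : Mt n →ₗ[ℝ] Mt n →ₗ[ℝ] Fn n)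
      (J1 : Mt n →ₗ[ℝ] Mt n →ₗ[ℝ] Mt n →ₗ[ℝ] Fn n)
      (J2 : Mt n →ₗ[ℝ] Mt n →ₗ[ℝ] Mt n →ₗ[ℝ] Mt n →ₗ[ℝ] Fn n), Jm Γ J J1 J2 →
      (∀ v w g, J v w g = Jf κ v w g) → ∀ x y v w : V0 n, ‖x‖ ≤ 2 → ‖y‖ ≤ 2 → ‖v‖ ≤ 2 → ‖w‖ ≤ 2 →
      LB Γ (C * δ) (J (dM v) (dM w)) ∧ LB Γ (C * δ) (J1 (dM x) (dM v) (dM w)) ∧
      LB Γ (C * δ) (J2 (dM x) (dM y) (dM v) (dM w)) ∧
      BD 1 (C * δ) (J2 (dM x) (dM y) (dM v) (dM w)) := by
  obtain ⟨C, hC, hLB⟩ := BD_LB n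
  refine ⟨16 * C, by linarith, fun Γ κ δ hδ _ hTB J J1 J2 HJ hJ x y v w hx hy hv hw => ?_⟩
  obtain ⟨-, -, -, -, hmono, -, -, hsm, -⟩ := HB_facts Γ
  have hCδ : 0 ≤ C * δ := mul_nonneg (by linarith) hδ
  obtain ⟨x', hx'⟩ : ∃ x', x' = (1 / 2 : ℝ) • x := ⟨_, rfl⟩
  obtain ⟨y', hy'⟩ : ∃ y', y' = (1 / 2 : ℝ) • y := ⟨_, rfl⟩
  obtain ⟨v', hv'⟩ : ∃ v', v' = (1 / 2 : ℝ) • v := ⟨_, rfl⟩
  obtain ⟨w', hw'⟩ : ∃ w', w' = (1 / 2 : ℝ) • w := ⟨_, rfl⟩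
  have ex := B0_half x
  have ey := B0_half y
  have ev := B0_half v
  have ew := B0_half w
  have nx := B0_ent x hx
  have ny := B0_ent y hy
  have nv := B0_ent v hv
  have nw := B0_ent w hw
  rw [← hx'] at ex nx
  rw [← hy'] at ey ny
  rw [← hv'] at ev nv
  rw [← hw'] at ew nw
  -- the bounds for entries at most one
  have b0 : BD 4 δ (J (dM v') (dM w')) := by
    have h1 : J (dM v') (dM w') = Jf κ (dM v') (dM w') := funext fun g => hJ _ _ g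
    rw [h1]
    exact hTB _ _ (B0_sym v') (B0_sym w') nv nw
  have c0 : BD 1 δ (J (dM v') (dM w')) := B0_succ _ _ _ (B0_succ _ _ _ (B0_succ _ _ _ b0))
  have b1 : ∀ z : V0 n, (∀ a b, |dM z a b| ≤ 1) → BD 3 δ (J1 (dM z) (dM v') (dM w')) := fun z hz =>
    B0_step 3 δ _ _ z hz b0 (HJ.d1 (dM z) (dM v') (dM w'))
  have c1 : BD 1 δ (J1 (dM x') (dM v') (dM w')) := B0_succ _ _ _ (B0_succ _ _ _ (b1 x' nx))
  have b2 : BD 2 δ (J2 (dM x') (dM y') (dM v') (dM w')) :=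
    B0_step 2 δ _ _ x' nx (b1 y' ny) (HJ.d2 (dM x') (dM y') (dM v') (dM w'))
  have c2 : BD 1 δ (J2 (dM x') (dM y') (dM v') (dM w')) := B0_succ _ _ _ b2
  obtain ⟨i1, -, i2, -⟩ := jm_inv Γ J J1 J2 HJ (dM v') (dM w') (B0_sym v').1 (B0_sym v').2
    (B0_sym w').1 (B0_sym w').2
  have l0 := hLB Γ δ _ hδ (fun γ hγ g => HJ.inv γ hγ (dM v') (dM w') (B0_sym v').1 (B0_sym v').2
    (B0_sym w').1 (B0_sym w').2 g) c0
  have l1 := hLB Γ δ _ hδ (i1 x') c1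
  have l2 := hLB Γ δ _ hδ (i2 x' y') c2
  -- scaling
  have s0 : J (dM v) (dM w) = fun g => 4 * J (dM v') (dM w') g := by
    funext g
    rw [ev, ew]
    simp only [map_smul, LinearMap.smul_apply, Pi.smul_apply, smul_eq_mul]
    ring
  have s1 : J1 (dM x) (dM v) (dM w) = fun g => 8 * J1 (dM x') (dM v') (dM w') g := by
    funext g
    rw [ex, ev, ew]
    simp only [map_smul, LinearMap.smul_apply, Pi.smul_apply, smul_eq_mul]
    ring
  have s2 : J2 (dM x) (dM y) (dM v) (dM w) =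
      fun g => 16 * J2 (dM x') (dM y') (dM v') (dM w') g := by
    funext g
    rw [ex, ey, ev, ew]
    simp only [map_smul, LinearMap.smul_apply, Pi.smul_apply, smul_eq_mul]
    ring
  rw [s0, s1, s2]
  refine ⟨hmono _ _ _ ?_ (hsm _ _ 4 l0), hmono _ _ _ ?_ (hsm _ _ 8 l1),
    hmono _ _ _ ?_ (hsm _ _ 16 l2), B0_bd _ _ 16 _ (by norm_num) ?_ c2⟩
  · rw [abs_of_pos (by norm_num : (0 : ℝ) < 4)]
    linarith
  · rw [abs_of_pos (by norm_num : (0 : ℝ) < 8)]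
    linarith
  · rw [abs_of_pos (by norm_num : (0 : ℝ) < 16)]
    linarith
  · have h1 : δ ≤ C * δ := le_mul_of_one_le_left hδ hC
    linarith

end FL27
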