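import Pool.Agent.LibFL27.DefsB

set_option autoImplicit false
set_option maxSynthPendingDepth 3

open Matrix MeasureTheory Topology Filter LibNC38
open LibNC27 hiding Mt
open scoped Matrix.Norms.Elementwise

namespace FL27

private theorem B1_mulbd {n : ℕ} (A B : Matrix (Fin n) (Fin n) ℝ) (a b : ℝ) (ha : ∀ i j, |A i j| ≤ a)
    (hb : ∀ i j, |B i j| ≤ b) (i j : Fin n) : |(A * B) i j| ≤ n * (a * b) := by
  have ha0 : 0 ≤ a := (abs_nonneg _).trans (ha i i)
  rw [Matrix.mul_apply]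
  refine (Finset.abs_sum_le_sum_abs _ _).trans ?_
  have h2 : ∑ k, |A i k * B k j| ≤ ∑ _k : Fin n, a * b := by
    refine Finset.sum_le_sum (fun k _ => ?_)
    rw [abs_mul]
    exact mul_le_mul (ha i k) (hb k j) (abs_nonneg _) ha0
  rwa [Finset.sum_const, Finset.card_univ, Fintype.card_fin, nsmul_eq_mul] at h2

/-- the inverse of a matrix near `1` -/
private theorem B1_inv {n : ℕ} (w : SL n) (δ : ℝ) (hw : ∀ i j, |(w.1 - 1) i j| ≤ δ) (hδ : (n : ℝ) * δ ≤ 1 / 2) :
    ∀ i j, |((w⁻¹).1 - 1) i j| ≤ 2 * δ := by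
  set B : Matrix (Fin n) (Fin n) ℝ := (w⁻¹).1 - 1 with hB
  set A : Matrix (Fin n) (Fin n) ℝ := w.1 - 1 with hA
  have h1 : (w⁻¹).1 * w.1 = 1 := by
    have h : (w⁻¹ * w).1 = (1 : SL n).1 := by rw [inv_mul_cancel]
    exact h
  have h2 : B = -A - B * A := by
    have h3 : (1 + B) * (1 + A) = 1 := by
      rw [hA, hB, add_sub_cancel, add_sub_cancel, h1]
    have h4 : (1 + B) * (1 + A) = 1 + (A + B + B * A) := by
      rw [add_mul, one_mul, mul_add, mul_one]
      abel
    rw [h4] at h3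
    have h5 : A + B + B * A = 0 := by
      have h51 : 1 + (A + B + B * A) = 1 + 0 := by rw [h3, add_zero]
      exact add_left_cancel h51
    have h6 : B = -A - B * A + (A + B + B * A) := by abel
    rw [h5, add_zero] at h6
    exact h6
  intro i j
  have hδ0 : 0 ≤ δ := (abs_nonneg _).trans (hw i j)
  have hb : ∀ i j, |B i j| ≤ ‖B‖ := fun i j => by
    rw [← Real.norm_eq_abs]
    exact Matrix.norm_entry_le_entrywise_sup_norm B
  have h7 : ‖B‖ ≤ δ + 1 / 2 * ‖B‖ := by
    rw [Matrix.norm_le_iff (by positivity)]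
    intro i j
    rw [Real.norm_eq_abs]
    have h8 : B i j = -(A i j) - (B * A) i j := by
      conv_lhs => rw [h2]
      rfl
    rw [h8]
    refine (abs_sub _ _).trans ?_
    rw [abs_neg]
    have h9 := B1_mulbd B A ‖B‖ δ hb hw i j
    have h10 : (n : ℝ) * (‖B‖ * δ) ≤ 1 / 2 * ‖B‖ := by
      have := mul_le_mul_of_nonneg_left hδ (norm_nonneg B)
      nlinarith
    have := hw i j
    linarith
  have := hb i j
  linarith

/-- the determinant of a matrix with diagonal `1` and small other entries -/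
private theorem B1_det {n : ℕ} (u : Matrix (Fin n) (Fin n) ℝ) (b : ℝ) (h0 : 0 ≤ b) (h1 : b ≤ 1)
    (hd : ∀ i, u i i = 1) (hb : ∀ i j, i ≠ j → |u i j| ≤ b) : |u.det - 1| ≤ (n.factorial : ℝ) * b := by
  have hle : ∀ i j, |u i j| ≤ 1 := by
    intro i j
    by_cases h : i = j
    · rw [h, hd]; norm_num
    · exact (hb i j h).trans h1
  have hterm : ∀ σ : Equiv.Perm (Fin n), |(((Equiv.Perm.sign σ : ℤˣ) : ℤ) : ℝ) * ∏ i, u (σ i) i -
      (if σ = 1 then 1 else 0)| ≤ b := by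
    intro σ
    by_cases hσ : σ = 1
    · subst hσ
      simp [hd, h0]
    · rw [if_neg hσ, sub_zero, abs_mul]
      have hs : |(((Equiv.Perm.sign σ : ℤˣ) : ℤ) : ℝ)| = 1 := by
        rcases Int.units_eq_one_or (Equiv.Perm.sign σ) with h | h <;> rw [h] <;> simp
      rw [hs, one_mul, Finset.abs_prod]
      obtain ⟨i, hi⟩ : ∃ i, σ i ≠ i := by
        by_contra h
        exact hσ (Equiv.ext fun i => by_contra fun hi => h ⟨i, hi⟩)
      rw [← Finset.mul_prod_erase _ _ (Finset.mem_univ i)]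
      have h2 : ∏ k ∈ Finset.univ.erase i, |u (σ k) k| ≤ 1 :=
        Finset.prod_le_one (fun _ _ => abs_nonneg _) (fun k _ => hle _ _)
      calc |u (σ i) i| * ∏ k ∈ Finset.univ.erase i, |u (σ k) k| ≤ b * 1 :=
            mul_le_mul (hb _ _ hi) h2 (Finset.prod_nonneg fun _ _ => abs_nonneg _) h0
        _ = b := mul_one b
  have hsum : u.det - 1 = ∑ σ : Equiv.Perm (Fin n), ((((Equiv.Perm.sign σ : ℤˣ) : ℤ) : ℝ) *
      ∏ i, u (σ i) i - (if σ = 1 then 1 else 0)) := by
    rw [Finset.sum_sub_distrib, Finset.sum_ite_eq' Finset.univ (1 : Equiv.Perm (Fin n)),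
      if_pos (Finset.mem_univ _), Matrix.det_apply']
  rw [hsum]
  refine (Finset.abs_sum_le_sum_abs _ _).trans ?_
  refine (Finset.sum_le_sum fun σ _ => hterm σ).trans ?_
  rw [Finset.sum_const, Finset.card_univ, Fintype.card_perm, Fintype.card_fin, nsmul_eq_mul]

/-- norm of an element of `V0` from its coordinates -/
private theorem B1_norm {n : ℕ} (v : V0 (n + 1)) (b : ℝ) (h0 : 0 ≤ b) (hv : ∀ i, |v.1 i| ≤ b) :
    ‖v‖ ≤ (n + 1) * b := by
  have h1 : ‖v‖ = ‖v.1‖ := rfl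
  rw [h1, EuclideanSpace.norm_eq]
  refine Real.sqrt_le_iff.2 ⟨by positivity, ?_⟩
  have h2 : ∑ i, ‖v.1 i‖ ^ 2 ≤ ∑ _i : Fin (n + 1), b ^ 2 := by
    refine Finset.sum_le_sum (fun i _ => ?_)
    rw [Real.norm_eq_abs]
    exact pow_le_pow_left₀ (abs_nonneg _) (hv i) 2
  rw [Finset.sum_const, Finset.card_univ, Fintype.card_fin, nsmul_eq_mul] at h2
  refine h2.trans ?_
  push_cast
  have h3 : (0 : ℝ) ≤ n := Nat.cast_nonneg n
  nlinarith [sq_nonneg b, mul_nonneg h3 (sq_nonneg b), mul_nonneg (mul_nonneg h3 h3) (sq_nonneg b)]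

private theorem B1_log (t : ℝ) (ht : |t| ≤ 1 / 2) : |Real.log (1 + t)| ≤ 2 * |t| := by
  have h := abs_le.1 ht
  have hp : 0 < 1 + t := by linarith [h.1]
  rw [abs_le]
  constructor
  · have h1 := Real.one_sub_inv_le_log_of_pos hp
    have h2 : -(2 * |t|) ≤ 1 - (1 + t)⁻¹ := by
      have h3 : 1 - (1 + t)⁻¹ = t / (1 + t) := by field_simp; ring
      rw [h3, le_div_iff₀ hp]
      rcases abs_cases t with ⟨h4, h5⟩ | ⟨h4, h5⟩ <;> rw [h4] <;> nlinarith [h.1, h.2]
    linarith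
  · have h1 := Real.log_le_sub_one_of_pos hp
    have h2 := le_abs_self t
    have h3 := abs_nonneg t
    linarith

/-- the bootstrap for one eigenvector -/
private theorem B1_boot {n : ℕ} (E : Matrix (Fin n) (Fin n) ℝ) (η : ℝ) (hη : 0 ≤ η)
    (hE : ∀ i j, |E i j| ≤ η) (d : Fin n → ℝ) (hd : ∀ i, 0 < d i)
    (hdd : ∀ i j, i < j → d j ≤ 1 / 8 * d i) (i : Fin n) (x : Fin n → ℝ) (μ : ℝ) (hxi : x i = 1)
    (hx : ∀ j, j ≠ i → |x j| ≤ 1) (hμ1 : d i / 2 ≤ μ) (hμ2 : μ ≤ 2 * d i)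
    (heq : ∀ j, d j * x j = μ * (x j + (E *ᵥ x) j)) :
    (∀ j, |(E *ᵥ x) j| ≤ n * η) ∧ ∀ j, j ≠ i → |x j| ≤ 2 * (n * η) := by
  have hx1 : ∀ j, |x j| ≤ 1 := by
    intro j
    by_cases h : j = i
    · rw [h, hxi]; norm_num
    · exact hx j h
  have hEx : ∀ j, |(E *ᵥ x) j| ≤ n * η := by
    intro j
    have h1 : |(E *ᵥ x) j| ≤ ∑ k, |E j k * x k| := by
      unfold Matrix.mulVec dotProduct
      exact Finset.abs_sum_le_sum_abs _ _
    have h2 : ∑ k, |E j k * x k| ≤ ∑ _k : Fin n, η := by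
      refine Finset.sum_le_sum (fun k _ => ?_)
      rw [abs_mul]
      calc |E j k| * |x k| ≤ η * 1 := mul_le_mul (hE j k) (hx1 k) (abs_nonneg _) hη
        _ = η := mul_one η
    rw [Finset.sum_const, Finset.card_univ, Fintype.card_fin, nsmul_eq_mul] at h2
    exact h1.trans h2
  refine ⟨hEx, ?_⟩
  intro j hj
  have hdi := hd i
  have hdj := hd j
  have hμ0 : 0 < μ := by linarith
  have hb := hEx j
  have hn : 0 ≤ (n : ℝ) * η := (abs_nonneg _).trans hb
  have h3 : |(d j - μ) * x j| ≤ μ * (n * η) := by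
    have h4 : (d j - μ) * x j = μ * (E *ᵥ x) j := by
      have := heq j
      linarith
    rw [h4, abs_mul, abs_of_pos hμ0]
    exact mul_le_mul_of_nonneg_left hb hμ0.le
  rw [abs_mul] at h3
  have h5 : μ / 2 ≤ |d j - μ| := by
    rcases lt_or_gt_of_ne hj with h | h
    · have h6 := hdd j i h
      have h7 : d j - μ ≤ |d j - μ| := le_abs_self _
      linarith
    · have h6 := hdd i j h
      have h7 : -(d j - μ) ≤ |d j - μ| := neg_le_abs _
      linarith
  have h8 : μ / 2 * |x j| ≤ μ * (n * η) :=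
    (mul_le_mul_of_nonneg_right h5 (abs_nonneg _)).trans h3
  have h9 : μ * |x j| ≤ μ * (2 * (n * η)) := by nlinarith
  exact le_of_mul_le_mul_left h9 hμ0

/-- Row B1. Closing lemma with rate (LibNC38/G3 `eigv`, G4 `closing` with linear dependence): column i of `u`
solves `D x = μ_i w⁻¹ x`, `x_i = 1`; `|x_j| ≤ C δ` for j ≠ i, `μ_i = d_i (1 + O(δ))`; normalise det. -/
theorem closing_rate (n : ℕ) : ∃ κ δ0 C : ℝ, 0 < κ ∧ 0 < δ0 ∧ 0 < C ∧
    ∀ (w : SL n) (d : V0 n) (δ : ℝ), dE w ≤ δ → δ ≤ δ0 →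
      (∀ i j : Fin n, i < j → Real.exp (d.1 j) ≤ κ * Real.exp (d.1 i)) →
      ∃ (u : SL n) (μ : V0 n), w * dgm d = u * dgm μ * u⁻¹ ∧ dE u ≤ C * δ ∧ ‖μ - d‖ ≤ C * δ := by
  rcases n with _ | n
  · refine ⟨1, 1, 1, one_pos, one_pos, one_pos, fun w d δ hw _ _ => ⟨1, d, ?_, ?_, ?_⟩⟩
    · apply Subtype.ext
      ext i
      exact i.elim0
    · have h1 : dE (1 : SL 0) = 0 := by
        have h2 : (1 : SL 0).1 - 1 = 0 := by
          ext i
          exact i.elim0
        unfold dE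
        rw [h2, norm_zero]
      rw [h1, one_mul]
      exact (norm_nonneg _).trans hw
    · rw [sub_self, norm_zero, one_mul]
      exact (norm_nonneg _).trans hw
  obtain ⟨ω, hω, κ, hκ, hE⟩ := eigv (n := n + 1) (1 / 2) (by norm_num)
  set N : ℝ := (n : ℝ) + 1 with hN
  have hN1 : 1 ≤ N := by
    have : (0 : ℝ) ≤ n := Nat.cast_nonneg n
    linarith
  set P : ℝ := ((n + 1).factorial : ℝ) with hP
  have hP1 : 1 ≤ P := by
    have h1 : 1 ≤ (n + 1).factorial := Nat.succ_le_of_lt (Nat.factorial_pos _)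
    rw [hP]
    exact Nat.one_le_cast.2 h1
  have hNP : 0 < 8 * N * P := by positivity
  refine ⟨min κ (1 / 8), min (ω / 2) (1 / (8 * N * P)), 8 * N * (1 + P) + 4 * N * N,
    by positivity, by positivity, by positivity, ?_⟩
  intro w d δ hw hδ hdd
  have hδ1 : δ ≤ ω / 2 := hδ.trans (min_le_left _ _)
  have hδ2 : δ * (8 * N * P) ≤ 1 := by
    have := hδ.trans (min_le_right _ _)
    rwa [le_div_iff₀ hNP] at this
  have hδ0 : 0 ≤ δ := (norm_nonneg _).trans hw
  have hNδ : N * δ ≤ 1 / 8 := by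
    have h1 : N * δ * 1 ≤ N * δ * P := mul_le_mul_of_nonneg_left hP1 (by positivity)
    nlinarith
  have hw1 : ∀ i j, |(w.1 - 1) i j| ≤ δ := fun i j => by
    rw [← Real.norm_eq_abs]
    exact (Matrix.norm_entry_le_entrywise_sup_norm _).trans hw
  have hcast : ((n + 1 : ℕ) : ℝ) = N := by rw [hN]; push_cast; ring
  have hwi := B1_inv w δ hw1 (by rw [hcast]; linarith)
  have hd : ∀ i : Fin (n + 1), 0 < Real.exp (d.1 i) := fun i => Real.exp_pos _
  have hdd1 : ∀ i j : Fin (n + 1), i < j → Real.exp (d.1 j) ≤ κ * Real.exp (d.1 i) := fun i j hij =>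
    (hdd i j hij).trans (mul_le_mul_of_nonneg_right (min_le_left _ _) (hd i).le)
  have hdd2 : ∀ i j : Fin (n + 1), i < j → Real.exp (d.1 j) ≤ 1 / 8 * Real.exp (d.1 i) := fun i j hij =>
    (hdd i j hij).trans (mul_le_mul_of_nonneg_right (min_le_right _ _) (hd i).le)
  choose x μ hx1 hx2 hμ1 hμ2 hx3 using hE ((w⁻¹).1 - 1) (fun i j => (hwi i j).trans (by linarith))
    (fun i => Real.exp (d.1 i)) hd hdd1
  have hboot := fun i => B1_boot ((w⁻¹).1 - 1) (2 * δ) (by positivity) hwi (fun i => Real.exp (d.1 i)) hd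
    hdd2 i (x i) (μ i) (hx1 i) (fun j hj => (hx2 i j hj).trans (by norm_num)) (hμ1 i) (hμ2 i) (hx3 i)
  have hEx : ∀ i j, |(((w⁻¹).1 - 1) *ᵥ x i) j| ≤ 2 * (N * δ) := by
    intro i j
    have h1 := (hboot i).1 j
    rw [hcast] at h1
    linarith
  have hxb : ∀ i j, j ≠ i → |x i j| ≤ 4 * (N * δ) := by
    intro i j hj
    have h1 := (hboot i).2 j hj
    rw [hcast] at h1
    linarith
  have hμ0 : ∀ i, 0 < μ i := fun i => lt_of_lt_of_le (half_pos (hd i)) (hμ1 i)
  let u0 : Matrix (Fin (n + 1)) (Fin (n + 1)) ℝ := Matrix.of fun j i => x i j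
  set b : ℝ := 4 * (N * δ) with hb
  have hb0 : 0 ≤ b := by positivity
  have hb1 : b ≤ 1 := by linarith
  have hPb : P * b ≤ 1 / 2 := by
    have : P * b = δ * (8 * N * P) / 2 := by rw [hb]; ring
    rw [this]
    linarith
  have hd0 : |u0.det - 1| ≤ P * b := B1_det u0 b hb0 hb1 (fun i => hx1 i) (fun i j hij => hxb j i hij)
  have hdpos : 1 / 2 ≤ u0.det := by
    have := (abs_le.1 (hd0.trans hPb)).1
    linarith
  have hdne : u0.det ≠ 0 := by linarith
  have hcol : (dgm d).1 * u0 = (w⁻¹).1 * u0 * Matrix.diagonal μ := by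
    ext j i
    have h0 : ((dgm d).1 * u0) j i = Real.exp (d.1 j) * u0 j i := Matrix.diagonal_mul _ _ _ _
    rw [h0, Matrix.mul_diagonal]
    have h1 := hx3 i j
    have h2 : ((w⁻¹).1 * u0) j i = x i j + (((w⁻¹).1 - 1) *ᵥ x i) j := by
      rw [Matrix.sub_mulVec, Matrix.one_mulVec]
      have h3 : ((w⁻¹).1 * u0) j i = ((w⁻¹).1 *ᵥ x i) j := rfl
      rw [h3, Pi.sub_apply]
      ring
    have h3 : u0 j i = x i j := rfl
    rw [h2, h3, h1]
    ring
  have hww : w.1 * (w⁻¹).1 = 1 := by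
    have h1 : (w * w⁻¹).1 = (1 : SL (n + 1)).1 := by rw [mul_inv_cancel]
    exact h1
  have hmain : w.1 * (dgm d).1 * u0 = u0 * Matrix.diagonal μ := by
    rw [Matrix.mul_assoc, hcol, ← Matrix.mul_assoc, ← Matrix.mul_assoc, hww, Matrix.one_mul]
  have hprod : ∏ i, μ i = 1 := by
    have h1 := congrArg Matrix.det hmain
    rw [Matrix.det_mul, Matrix.det_mul, Matrix.det_mul, Matrix.det_diagonal, w.2, (dgm d).2, one_mul,
      one_mul] at h1
    have h2 : u0.det * ∏ i, μ i = u0.det * 1 := by rw [mul_one, ← h1]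
    exact mul_left_cancel₀ hdne h2
  -- the logarithms of the eigenvalues
  have hμmem : (WithLp.toLp 2 (fun i => Real.log (μ i)) : EuclideanSpace ℝ (Fin (n + 1))) ∈ sz (n + 1) := by
    show ∑ i, Real.log (μ i) = 0
    rw [← Real.log_prod (fun i _ => (hμ0 i).ne'), hprod, Real.log_one]
  set y : V0 (n + 1) := ⟨_, hμmem⟩ with hy
  have hyi : ∀ i, y.1 i = Real.log (μ i) := fun i => rfl
  have hdy : (dgm y).1 = Matrix.diagonal μ := by
    have h1 : (dgm y).1 = Matrix.diagonal fun i => Real.exp (y.1 i) := rfl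
    rw [h1]
    congr 1
    funext i
    rw [hyi, Real.exp_log (hμ0 i)]
  let s : Fin (n + 1) → ℝ := fun i => if i = 0 then (u0.det)⁻¹ else 1
  have hs : ∏ i, s i = (u0.det)⁻¹ := by
    have h1 := Finset.prod_ite_eq' (Finset.univ : Finset (Fin (n + 1))) (0 : Fin (n + 1))
      (fun _ => (u0.det)⁻¹)
    rw [if_pos (Finset.mem_univ _)] at h1
    exact h1
  have hdetu : (u0 * Matrix.diagonal s).det = 1 := by
    rw [Matrix.det_mul, Matrix.det_diagonal, hs, mul_inv_cancel₀ hdne]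
  let U : SL (n + 1) := ⟨u0 * Matrix.diagonal s, hdetu⟩
  refine ⟨U, y, ?_, ?_, ?_⟩
  · have key : w * dgm d * U = U * dgm y := by
      apply Subtype.ext
      show w.1 * (dgm d).1 * (u0 * Matrix.diagonal s) = (u0 * Matrix.diagonal s) * (dgm y).1
      rw [hdy, ← Matrix.mul_assoc, hmain, Matrix.mul_assoc, Matrix.mul_assoc, Matrix.diagonal_mul_diagonal,
        Matrix.diagonal_mul_diagonal]
      congr 2
      ext i
      ring
    rw [← key, mul_assoc (w * dgm d), mul_inv_cancel, mul_one]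
  · show ‖u0 * Matrix.diagonal s - 1‖ ≤ _
    rw [Matrix.norm_le_iff (by positivity)]
    intro j i
    rw [Real.norm_eq_abs, Matrix.sub_apply]
    have h1 : (u0 * Matrix.diagonal s) j i = u0 j i * s i := Matrix.mul_diagonal _ _ _ _
    rw [h1]
    have h2 : |u0 j i - (1 : Matrix (Fin (n + 1)) (Fin (n + 1)) ℝ) j i| ≤ b := by
      by_cases h : j = i
      · subst h
        have h1 : u0 j j = 1 := hx1 j
        rw [h1, Matrix.one_apply_eq, sub_self, abs_zero]
        exact hb0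
      · have h1 : u0 j i = x i j := rfl
        rw [h1, Matrix.one_apply_ne h, sub_zero]
        exact hxb i j h
    have h1abs : |(1 : Matrix (Fin (n + 1)) (Fin (n + 1)) ℝ) j i| ≤ 1 := by
      rw [Matrix.one_apply]
      split_ifs <;> simp
    have hgoal : 2 * b + 2 * (P * b) ≤ (8 * N * (1 + P) + 4 * N * N) * δ := by
      have h3 : 2 * b + 2 * (P * b) = 8 * N * (1 + P) * δ := by rw [hb]; ring
      have h4 : 0 ≤ 4 * N * N * δ := by positivity
      rw [h3]
      linarith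
    refine le_trans ?_ hgoal
    have hPb0 : 0 ≤ P * b := by positivity
    by_cases hi : i = 0
    · have h3 : s i = (u0.det)⁻¹ := if_pos hi
      rw [h3]
      have hdp : 0 < u0.det := by linarith
      have hinv : (u0.det)⁻¹ ≤ 2 := by
        rw [inv_le_comm₀ hdp (by norm_num)]
        linarith
      have hinv0 : 0 < (u0.det)⁻¹ := inv_pos.2 hdp
      have h4 : u0 j i * (u0.det)⁻¹ - (1 : Matrix (Fin (n + 1)) (Fin (n + 1)) ℝ) j i
          = (u0 j i - (1 : Matrix (Fin (n + 1)) (Fin (n + 1)) ℝ) j i) * (u0.det)⁻¹ -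
            (1 : Matrix (Fin (n + 1)) (Fin (n + 1)) ℝ) j i * ((u0.det - 1) * (u0.det)⁻¹) := by
        field_simp
        ring
      rw [h4]
      refine (abs_sub _ _).trans ?_
      rw [abs_mul, abs_mul, abs_mul, abs_of_pos hinv0]
      have h5 : |u0 j i - (1 : Matrix (Fin (n + 1)) (Fin (n + 1)) ℝ) j i| * (u0.det)⁻¹ ≤
          b * 2 := mul_le_mul h2 hinv hinv0.le hb0
      have h6 : |u0.det - 1| * (u0.det)⁻¹ ≤ P * b * 2 :=
        mul_le_mul hd0 hinv hinv0.le hPb0
      have h7 : |(1 : Matrix (Fin (n + 1)) (Fin (n + 1)) ℝ) j i| *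
          (|u0.det - 1| * (u0.det)⁻¹) ≤ 1 * (P * b * 2) :=
        mul_le_mul h1abs h6 (by positivity) one_pos.le
      linarith
    · have h3 : s i = 1 := if_neg hi
      rw [h3, mul_one]
      linarith
  · have hco : ∀ i, |(y - d).1 i| ≤ 4 * (N * δ) := by
      intro i
      have h1 : (y - d).1 i = Real.log (μ i) - d.1 i := rfl
      set t : ℝ := (((w⁻¹).1 - 1) *ᵥ x i) i with ht
      have ht1 : |t| ≤ 2 * (N * δ) := hEx i i
      have ht2 : |t| ≤ 1 / 2 := by linarith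
      have htp : 0 < 1 + t := by
        have := (abs_le.1 ht2).1
        linarith
      have h2 : Real.exp (d.1 i) = μ i * (1 + t) := by
        have h3 := hx3 i i
        rw [hx1 i, mul_one] at h3
        exact h3
      have h3 : d.1 i = Real.log (μ i) + Real.log (1 + t) := by
        rw [← Real.log_mul (hμ0 i).ne' htp.ne', ← h2, Real.log_exp]
      rw [h1, h3]
      have h4 : Real.log (μ i) - (Real.log (μ i) + Real.log (1 + t)) = -Real.log (1 + t) := by ring
      rw [h4, abs_neg]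
      have := B1_log t ht2
      linarith
    have h1 := B1_norm (y - d) (4 * (N * δ)) (by positivity) hco
    refine h1.trans ?_
    have h2 : ((n : ℝ) + 1) * (4 * (N * δ)) = 4 * N * N * δ := by rw [← hN]; ring
    have h3 : 0 ≤ 8 * N * (1 + P) * δ := by positivity
    rw [h2]
    linarith

end FL27
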