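import Pool.Agent.LibFL27.DefsD

set_option autoImplicit false
set_option maxSynthPendingDepth 3

open Matrix MeasureTheory Topology Filter LibNC38
open LibNC27 hiding Mt
open scoped Matrix.Norms.Elementwise

namespace FL27

theorem D0c_sub {n : ℕ} (k l q : SL n) (hkl : k.1 * l.1 = 1) :
    (k * q * l).1 - 1 = k.1 * (q.1 - 1) * l.1 := by
  have h1 : (k * q * l).1 = k.1 * q.1 * l.1 := rfl
  rw [h1, Matrix.mul_sub, Matrix.sub_mul, Matrix.mul_one, hkl]

theorem D0c_mul {n : ℕ} (A B : Matrix (Fin n) (Fin n) ℝ) (x y : ℝ) (hx : 0 ≤ x) (hA : ∀ a b, |A a b| ≤ x)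
    (hB : ∀ a b, |B a b| ≤ y) (a b : Fin n) : |(A * B) a b| ≤ n * (x * y) := by
  rw [Matrix.mul_apply]
  calc |∑ c, A a c * B c b| ≤ ∑ c, |A a c * B c b| := Finset.abs_sum_le_sum_abs _ _
    _ ≤ ∑ _c : Fin n, x * y := by
        refine Finset.sum_le_sum fun c _ => ?_
        rw [abs_mul]
        exact mul_le_mul (hA a c) (hB c b) (abs_nonneg _) hx
    _ = n * (x * y) := by simp

theorem D0c_conj {n : ℕ} (k l q : SL n) (hkl : k.1 * l.1 = 1) (x y : ℝ) (hx : 0 ≤ x) (hy : 0 ≤ y)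
    (hk : ∀ a b, |k.1 a b| ≤ x) (hl : ∀ a b, |l.1 a b| ≤ y) :
    dE (k * q * l) ≤ (n : ℝ) ^ 2 * x * y * dE q := by
  unfold dE
  rw [D0c_sub k l q hkl]
  have hq0 : 0 ≤ ‖q.1 - 1‖ := norm_nonneg _
  have hn : (0 : ℝ) ≤ n := Nat.cast_nonneg n
  refine (Matrix.norm_le_iff (by positivity)).2 fun a b => ?_
  rw [Real.norm_eq_abs]
  have h1 := D0c_mul k.1 (q.1 - 1) x ‖q.1 - 1‖ hx hk
    (fun c d => by rw [← Real.norm_eq_abs]; exact Matrix.norm_entry_le_entrywise_sup_norm _)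
  have h2 := D0c_mul (k.1 * (q.1 - 1)) l.1 _ y (by positivity) h1 hl a b
  calc _ ≤ _ := h2
    _ = _ := by ring

theorem D0c_inv {n : ℕ} (k : SL n) (M : ℝ) (hM : 1 ≤ M) (hk : ∀ a b, |k.1 a b| ≤ M) (a b : Fin n) :
    |(k⁻¹).1 a b| ≤ n.factorial * M ^ n := by
  have h0 : (k⁻¹).1 = k.1.adjugate := Matrix.SpecialLinearGroup.coe_inv k
  rw [h0, Matrix.adjugate_apply]
  have h1 := Matrix.det_le (R := ℝ) (S := ℝ) (A := k.1.updateRow b (Pi.single a 1)) (abv := AbsoluteValue.abs)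
    (x := M) ?_
  · simpa [nsmul_eq_mul] using h1
  · intro c d
    show |(k.1.updateRow b (Pi.single a 1)) c d| ≤ M
    rw [Matrix.updateRow_apply]
    split_ifs with h
    · rw [Pi.single_apply]
      split_ifs
      · simpa using hM
      · simpa using le_trans zero_le_one hM
    · exact hk c d

theorem D0c_conj_inv {n : ℕ} (k q : SL n) (M : ℝ) (hM : 1 ≤ M) (hk : ∀ a b, |k.1 a b| ≤ M) :
    dE (k⁻¹ * q * k) ≤ (n : ℝ) ^ 2 * (n.factorial * M ^ n) * M * dE q := by
  refine D0c_conj k⁻¹ k q ?_ _ _ (by positivity) (by positivity) (D0c_inv k M hM hk) hk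
  have h : (k⁻¹ * k).1 = (1 : SL n).1 := by rw [inv_mul_cancel]
  exact h

theorem D0c_diag {n : ℕ} (y : V0 n) (q : SL n) (c : ℝ) (hc : ∀ a b : Fin n, y.1 b - y.1 a ≤ c) :
    dE (dgm (-y) * q * dgm y) ≤ Real.exp c * dE q := by
  unfold dE
  have hkl : (dgm (-y)).1 * (dgm y).1 = 1 := by
    show Matrix.diagonal (fun a => Real.exp ((-y).1 a)) * Matrix.diagonal (fun a => Real.exp (y.1 a)) = 1
    rw [Matrix.diagonal_mul_diagonal, ← Matrix.diagonal_one]
    congr 1
    funext a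
    rw [← Real.exp_add]
    have : (-y).1 a + y.1 a = 0 := by
      show -(y.1 a) + y.1 a = 0
      ring
    rw [this, Real.exp_zero]
  rw [D0c_sub _ _ q hkl]
  have hq0 : 0 ≤ ‖q.1 - 1‖ := norm_nonneg _
  refine (Matrix.norm_le_iff (by positivity)).2 fun a b => ?_
  rw [Real.norm_eq_abs]
  have h1 : ((dgm (-y)).1 * (q.1 - 1) * (dgm y).1) a b = Real.exp (y.1 b - y.1 a) * (q.1 - 1) a b := by
    show (Matrix.diagonal (fun a => Real.exp ((-y).1 a)) * (q.1 - 1) *
      Matrix.diagonal (fun a => Real.exp (y.1 a))) a b = _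
    rw [Matrix.mul_diagonal, Matrix.diagonal_mul]
    have : (-y).1 a = -(y.1 a) := rfl
    rw [this, sub_eq_add_neg (y.1 b), Real.exp_add]
    ring
  rw [h1, abs_mul, abs_of_pos (Real.exp_pos _)]
  refine mul_le_mul (Real.exp_le_exp.2 (hc a b)) ?_ (abs_nonneg _) (Real.exp_pos _).le
  rw [← Real.norm_eq_abs]
  exact Matrix.norm_entry_le_entrywise_sup_norm _

theorem D0c_coord {n : ℕ} (y : V0 n) (a : Fin n) : |y.1 a| ≤ ‖y‖ := by
  have h := EuclideanSpace.norm_eq y.1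
  have h1 : ‖y‖ = ‖y.1‖ := rfl
  rw [h1, h]
  refine Real.le_sqrt_of_sq_le ?_
  rw [sq_abs]
  have h2 : (y.1 a) ^ 2 = ‖y.1 a‖ ^ 2 := by rw [Real.norm_eq_abs, sq_abs]
  rw [h2]
  exact Finset.single_le_sum (f := fun i => ‖y.1 i‖ ^ 2) (fun i _ => sq_nonneg _) (Finset.mem_univ a)

theorem D0c_tv {n : ℕ} (i j : Fin n) (h : i ≠ j) (r : ℝ) (hr : |r| ≤ 1) (a b : Fin n) :
    |(tv i j h r).1 a b| ≤ 1 := by
  show |(Matrix.transvection i j r) a b| ≤ 1
  unfold Matrix.transvection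
  rw [Matrix.add_apply, Matrix.single_apply]
  by_cases hab : a = b
  · subst hab
    have h1 : ¬ (i = a ∧ j = a) := fun h' => h (h'.1.trans h'.2.symm)
    rw [if_neg h1, add_zero, Matrix.one_apply_eq, abs_one]
  · rw [Matrix.one_apply_ne hab, zero_add]
    split_ifs
    · exact hr
    · simp

theorem D0c_rot {n : ℕ} (i j : Fin n) (t : ℝ) (a b : Fin n) : |(rot i j t).1 a b| ≤ 1 := by
  by_cases h : (rotM i j t).det = 1
  · have e : rot i j t = ⟨rotM i j t, h⟩ := dif_pos h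
    rw [e]
    show |rotM i j t a b| ≤ 1
    unfold rotM
    split_ifs <;>
      first
        | exact Real.abs_cos_le_one t
        | exact Real.abs_sin_le_one t
        | (rw [abs_neg]; exact Real.abs_sin_le_one t)
        | simp
  · have e : rot i j t = 1 := dif_neg h
    rw [e]
    show |(1 : Matrix (Fin n) (Fin n) ℝ) a b| ≤ 1
    rw [Matrix.one_apply]
    split_ifs <;> simp

theorem D0c_exp (x : ℝ) : |Real.exp x - 1| ≤ |x| * Real.exp |x| := by
  rcases le_total 0 x with hx | hx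
  · have h1 : 1 ≤ Real.exp x := Real.one_le_exp hx
    rw [abs_of_nonneg hx, abs_of_nonneg (by linarith)]
    have h2 := Real.add_one_le_exp (-x)
    have h3 : Real.exp (-x) * Real.exp x = 1 := by rw [← Real.exp_add]; simp
    nlinarith [Real.exp_pos x]
  · have h1 : Real.exp x ≤ 1 := Real.exp_le_one_iff.2 hx
    rw [abs_of_nonpos hx, abs_of_nonpos (by linarith)]
    have h2 := Real.add_one_le_exp x
    have h3 : 1 ≤ Real.exp (-x) := Real.one_le_exp (by linarith)
    nlinarith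

/-- Row D0c. Estimates of `dE` under conjugation: by `dgm y` and by a fixed compact set. -/
theorem dE_facts (n : ℕ) : ∃ C : ℝ, 1 ≤ C ∧
    (∀ (y : V0 n) (q : SL n), dE (dgm (-y) * q * dgm y) ≤ Real.exp (2 * ‖y‖) * dE q) ∧
    (∀ (i j : Fin n) (h : i ≠ j) (s : ℝ) (q : SL n), 0 ≤ s →
      dE (dgm (-(s • Hv i j)) * q * dgm (s • Hv i j)) ≤ Real.exp (2 * s) * dE q) ∧
    (∀ (i j : Fin n) (h : i ≠ j) (r : ℝ), dE (tv i j h r) ≤ |r|) ∧
    (∀ (i j : Fin n) (h : i ≠ j) (r : ℝ) (q : SL n), |r| ≤ 1 →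
      dE (tv i j h (-r) * q * tv i j h r) ≤ C * dE q) ∧
    (∀ (i j : Fin n) (h : i ≠ j) (t : ℝ) (q : SL n),
      dE ((rot i j t)⁻¹ * q * rot i j t) ≤ C * dE q) ∧
    (∀ (i j : Fin n) (h : i ≠ j) (q : SL n), dE ((kk i j h)⁻¹ * q * kk i j h) ≤ C * dE q) ∧
    (∀ y : V0 n, ‖y‖ ≤ 4 → dE (dgm y) ≤ C * ‖y‖) := by
  set M : ℝ := (n : ℝ) ^ 2 + 1 with hM
  have hM1 : 1 ≤ M := by rw [hM]; nlinarith [sq_nonneg (n : ℝ)]
  set D : ℝ := (n : ℝ) ^ 2 * (n.factorial * M ^ n) * M with hD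
  have hD0 : 0 ≤ D := by positivity
  have hn2 : (0 : ℝ) ≤ (n : ℝ) ^ 2 := by positivity
  have hfac : (1 : ℝ) ≤ n.factorial := by exact_mod_cast Nat.one_le_iff_ne_zero.2 (Nat.factorial_ne_zero n)
  have hMn : (1 : ℝ) ≤ M ^ n := one_le_pow₀ hM1
  have hn2D : (n : ℝ) ^ 2 ≤ D := by
    rw [hD]
    have h1 : (1 : ℝ) ≤ n.factorial * M ^ n := by nlinarith
    have h2 : (1 : ℝ) ≤ (n.factorial * M ^ n) * M := by nlinarith
    calc (n : ℝ) ^ 2 = (n : ℝ) ^ 2 * 1 := (mul_one _).symm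
      _ ≤ (n : ℝ) ^ 2 * ((n.factorial * M ^ n) * M) := mul_le_mul_of_nonneg_left h2 hn2
      _ = _ := by ring
  have hdE : ∀ q : SL n, 0 ≤ dE q := fun q => norm_nonneg _
  have hinv : ∀ (k q : SL n), (∀ a b, |k.1 a b| ≤ M) → dE (k⁻¹ * q * k) ≤ (Real.exp 4 + D) * dE q := by
    intro k q hk
    refine (D0c_conj_inv k q M hM1 hk).trans ?_
    refine mul_le_mul_of_nonneg_right ?_ (hdE q)
    linarith [Real.exp_pos 4]
  refine ⟨Real.exp 4 + D, ?_, ?_, ?_, ?_, ?_, ?_, ?_, ?_⟩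
  · have := Real.one_le_exp (show (0 : ℝ) ≤ 4 by norm_num)
    linarith
  · intro y q
    refine D0c_diag y q _ fun a b => ?_
    have h1 := abs_le.1 (D0c_coord y a)
    have h2 := abs_le.1 (D0c_coord y b)
    linarith [h1.1, h2.2]
  · intro i j h s q hs
    refine D0c_diag (s • Hv i j) q _ fun a b => ?_
    have h1 : ∀ c : Fin n, |(s • Hv i j).1 c| ≤ s := by
      intro c
      have e : (s • Hv i j).1 c = s * ((if c = i then (1 : ℝ) else 0) - (if c = j then 1 else 0)) := rfl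
      rw [e, abs_mul, abs_of_nonneg hs]
      have : |(if c = i then (1 : ℝ) else 0) - (if c = j then 1 else 0)| ≤ 1 := by
        split_ifs <;> norm_num
      nlinarith
    have h2 := abs_le.1 (h1 a)
    have h3 := abs_le.1 (h1 b)
    linarith [h2.1, h3.2]
  · intro i j h r
    unfold dE
    refine (Matrix.norm_le_iff (abs_nonneg r)).2 fun a b => ?_
    rw [Real.norm_eq_abs]
    have e : (tv i j h r).1 - 1 = Matrix.single i j r := by
      show Matrix.transvection i j r - 1 = _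
      unfold Matrix.transvection
      rw [add_sub_cancel_left]
    rw [e, Matrix.single_apply]
    split_ifs
    · exact le_refl _
    · simp
  · intro i j h r q hr
    have hkl : (tv i j h (-r)).1 * (tv i j h r).1 = 1 := by
      show Matrix.transvection i j (-r) * Matrix.transvection i j r = 1
      rw [Matrix.transvection_mul_transvection_same i j h, neg_add_cancel, Matrix.transvection_zero]
    have h1 := D0c_conj (tv i j h (-r)) (tv i j h r) q hkl 1 1 zero_le_one zero_le_one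
      (D0c_tv i j h (-r) (by rwa [abs_neg])) (D0c_tv i j h r hr)
    refine h1.trans ?_
    rw [mul_one, mul_one]
    refine mul_le_mul_of_nonneg_right ?_ (hdE q)
    linarith [Real.exp_pos 4]
  · intro i j h t q
    exact hinv _ q fun a b => (D0c_rot i j t a b).trans hM1
  · intro i j h q
    refine hinv _ q fun a b => ?_
    have e : (kk i j h).1 = (tv i j h 1).1 * (tv j i h.symm (-1)).1 * (tv i j h 1).1 := rfl
    rw [e]
    have h1 := D0c_mul (tv i j h 1).1 (tv j i h.symm (-1)).1 1 1 zero_le_one (D0c_tv i j h 1 (by simp))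
      (D0c_tv j i h.symm (-1) (by simp))
    have h2 := D0c_mul ((tv i j h 1).1 * (tv j i h.symm (-1)).1) (tv i j h 1).1 _ 1 (by positivity) h1
      (D0c_tv i j h 1 (by simp)) a b
    refine h2.trans ?_
    rw [hM]
    nlinarith
  · intro y hy
    unfold dE
    have hy0 : 0 ≤ ‖y‖ := norm_nonneg y
    have hC0 : 0 ≤ Real.exp 4 + D := by linarith [Real.exp_pos 4]
    refine (Matrix.norm_le_iff (by positivity)).2 fun a b => ?_
    rw [Real.norm_eq_abs]
    have e : ((dgm y).1 - 1) a b = if a = b then Real.exp (y.1 a) - 1 else 0 := by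
      show (Matrix.diagonal (fun i => Real.exp (y.1 i)) - 1) a b = _
      rw [Matrix.sub_apply, Matrix.diagonal_apply, Matrix.one_apply]
      split_ifs <;> simp
    rw [e]
    split_ifs
    · have h1 := D0c_coord y a
      have h2 : |Real.exp (y.1 a) - 1| ≤ |y.1 a| * Real.exp |y.1 a| := D0c_exp _
      refine h2.trans ?_
      have h3 : Real.exp |y.1 a| ≤ Real.exp 4 := Real.exp_le_exp.2 (h1.trans hy)
      calc |y.1 a| * Real.exp |y.1 a| ≤ ‖y‖ * Real.exp 4 := mul_le_mul h1 h3 (Real.exp_pos _).le hy0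
        _ ≤ _ := by nlinarith
    · simp only [abs_zero]
      positivity

end FL27
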