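import Pool.Agent.LibFL27.DefsB
import Pool.Agent.LibFL27.D0b
import Pool.Agent.LibFL27.D0c

set_option autoImplicit false
set_option maxSynthPendingDepth 3

open Matrix MeasureTheory Topology Filter LibNC38
open LibNC27 hiding Mt
open scoped Matrix.Norms.Elementwise

namespace FL27

private theorem B6a_int {n : ℕ} (Γ : Subgroup (SL n)) (hc : Coc Γ)
    (ν : @Measure (SL n) (borel (SL n))) (h1 : ν Set.univ = 1) (F : Fn n) (hF : Inv Γ F) :
    @Integrable ℝ _ _ (SL n) (borel (SL n)) F ν := by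
  let _ : MeasurableSpace (SL n) := borel (SL n)
  have _ : BorelSpace (SL n) := ⟨rfl⟩
  have _ : IsProbabilityMeasure ν := ⟨h1⟩
  obtain ⟨B, hB⟩ := (unif Γ hc F hF.cont hF.inv).1
  exact Integrable.of_bound (hF.cont.aestronglyMeasurable) B
    (Filter.Eventually.of_forall fun g => by rw [Real.norm_eq_abs]; exact hB g)

/-- the integral of a derivative along the flats is zero -/
private theorem B6a_zero {n : ℕ} (Γ : Subgroup (SL n)) (hc : Coc Γ)
    (ν : @Measure (SL n) (borel (SL n))) (K c : ℝ) (hM : Mix Γ ν K c) (x : V0 n) (F F' : Fn n)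
    (hF : Inv Γ F) (hF' : Inv Γ F') (hd : Rd x F F') :
    @integral (SL n) ℝ _ _ (borel (SL n)) ν F' = 0 := by
  let _ : MeasurableSpace (SL n) := borel (SL n)
  have _ : BorelSpace (SL n) := ⟨rfl⟩
  have _ : IsProbabilityMeasure ν := ⟨hM.prob⟩
  obtain ⟨B, hB⟩ := (unif Γ hc F' hF'.cont hF'.inv).1
  have hc1 : ∀ (G : Fn n), Inv Γ G → ∀ q : SL n, Continuous fun g : SL n => G (g * q) :=
    fun G hG q => hG.cont.comp (continuous_id.mul continuous_const)
  have h0 : dgm ((0 : ℝ) • x) = 1 := (dgm_facts (n := n)).2.2.1 x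
  have key := (hasDerivAt_integral_of_dominated_loc_of_deriv_le (μ := ν)
    (F := fun (t : ℝ) (g : SL n) => F (g * dgm (t • x)))
    (F' := fun (t : ℝ) (g : SL n) => F' (g * dgm (t • x))) (x₀ := (0 : ℝ)) (s := Set.univ)
    (bound := fun _ => B) Filter.univ_mem
    (Filter.Eventually.of_forall fun t => (hc1 F hF _).aestronglyMeasurable)
    (by
      have e : (fun g : SL n => F (g * dgm ((0 : ℝ) • x))) = F := by
        funext g; rw [h0, mul_one]
      rw [e]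
      exact B6a_int Γ hc ν hM.prob F hF)
    ((hc1 F' hF' _).aestronglyMeasurable)
    (Filter.Eventually.of_forall fun g t _ => by rw [Real.norm_eq_abs]; exact hB _)
    (integrable_const B)
    (Filter.Eventually.of_forall fun g t _ => Rd_at x F F' hd g t)).2
  have e1 : (fun t : ℝ => ∫ g, F (g * dgm (t • x)) ∂ν) = fun _ => ∫ g, F g ∂ν := by
    funext t
    exact hM.inv F hF (dgm (t • x))
  have e2 : ∫ g, F' (g * dgm ((0 : ℝ) • x)) ∂ν = ∫ g, F' g ∂ν := hM.inv F' hF' _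
  rw [e1] at key
  have h3 := key.unique (hasDerivAt_const (0 : ℝ) (∫ g, F g ∂ν))
  rw [← e2]
  exact h3

/-- Row B6a. The mean of `Kf` is zero (it is a sum of derivatives along the flats; invariance). -/
theorem mean_K {n : ℕ} (Γ : Subgroup (SL n)) (hc : Coc Γ) (ν : @Measure (SL n) (borel (SL n)))
    (K c : ℝ) (hM : Mix Γ ν K c) (J : Mt n →ₗ[ℝ] Mt n →ₗ[ℝ] Fn n)
    (J1 : Mt n →ₗ[ℝ] Mt n →ₗ[ℝ] Mt n →ₗ[ℝ] Fn n)
    (J2 : Mt n →ₗ[ℝ] Mt n →ₗ[ℝ] Mt n →ₗ[ℝ] Mt n →ₗ[ℝ] Fn n) (HJ : Jm Γ J J1 J2) (e f : V0 n) :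
    @integral (SL n) ℝ _ _ (borel (SL n)) ν (Kf J2 e f) = 0 := by
  let _ : MeasurableSpace (SL n) := borel (SL n)
  have _ : BorelSpace (SL n) := ⟨rfl⟩
  have _ : IsProbabilityMeasure ν := ⟨hM.prob⟩
  obtain ⟨A, A1, A2, hA, hA1, hA2, hAb⟩ := ab_of_jm Γ hc J J1 J2 HJ
  have hi : ∀ x y v w : V0 n, Integrable (A2 x y v w) ν := fun x y v w =>
    B6a_int Γ hc ν hM.prob _ (hAb.inv2 x y v w)
  have hz : ∀ x y v w : V0 n, ∫ g, A2 x y v w g ∂ν = 0 := fun x y v w =>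
    B6a_zero Γ hc ν K c hM x _ _ (hAb.inv1 y v w) (hAb.inv2 x y v w) (hAb.d2 x y v w)
  have e0 : Kf J2 e f = fun g => A2 f f e e g - 2 * A2 f e e f g + A2 e e f f g := by
    funext g
    simp only [Kf, hA2]
  rw [e0]
  show ∫ g, (A2 f f e e g - 2 * A2 f e e f g + A2 e e f f g) ∂ν = 0
  have s1 : ∫ g, (A2 f f e e g - 2 * A2 f e e f g + A2 e e f f g) ∂ν =
      ∫ g, (A2 f f e e g - 2 * A2 f e e f g) ∂ν + ∫ g, A2 e e f f g ∂ν :=
    integral_add ((hi f f e e).sub ((hi f e e f).const_mul 2)) (hi e e f f)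
  have s2 : ∫ g, (A2 f f e e g - 2 * A2 f e e f g) ∂ν =
      ∫ g, A2 f f e e g ∂ν - ∫ g, 2 * A2 f e e f g ∂ν :=
    integral_sub (hi f f e e) ((hi f e e f).const_mul 2)
  rw [s1, s2, integral_const_mul, hz, hz, hz]
  ring

end FL27
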