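import Pool.Agent.LibFL27.DefsB
import Pool.Agent.LibFL27.D0b
import Pool.Agent.LibFL27.D0c

set_option autoImplicit false
set_option maxSynthPendingDepth 3

open Matrix MeasureTheory Topology Filter LibNC38
open LibNC27 hiding Mt
open scoped Matrix.Norms.Elementwise

namespace FL27

/-- Row B6b. Exponential decay and Lipschitz bound of the correlation. -/
theorem Cor_facts {n : ℕ} (Γ : Subgroup (SL n)) (hc : Coc Γ) (ν : @Measure (SL n) (borel (SL n)))
    (K c : ℝ) (hM : Mix Γ ν K c) : ∃ C : ℝ, 1 ≤ C ∧ ∀ F : Fn n, LB Γ 1 F → BD 1 1 F →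
      @integral (SL n) ℝ _ _ (borel (SL n)) ν F = 0 →
      (∀ y, |Cor ν F y| ≤ C * Real.exp (-(c * ‖y‖))) ∧
      ∀ y y', |Cor ν F y - Cor ν F y'| ≤ C * ‖y - y'‖ := by
  letI : MeasurableSpace (SL n) := borel (SL n)
  haveI : BorelSpace (SL n) := ⟨rfl⟩
  obtain ⟨C0, hC0, -, -, -, -, -, -, hdgm⟩ := dE_facts n
  haveI hprob : IsProbabilityMeasure ν := ⟨hM.prob⟩
  refine ⟨max 2 (max K C0), le_trans (by norm_num) (le_max_left _ _), fun F hL hB hI => ?_⟩
  have hcF : Continuous F := hB.1.1
  have hinv : Inv Γ F := ⟨hcF, hL.inv⟩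
  refine ⟨fun y => ?_, fun y y' => ?_⟩
  · have h1 := hM.mix F F 1 1 hinv hinv hB hB y
    have h2 : @integral (SL n) ℝ _ _ (borel (SL n)) ν F *
        @integral (SL n) ℝ _ _ (borel (SL n)) ν F = 0 := by rw [hI, mul_zero]
    rw [h2, sub_zero, mul_one, mul_one] at h1
    refine h1.trans (mul_le_mul_of_nonneg_right ?_ (Real.exp_pos _).le)
    exact (le_max_left K C0).trans (le_max_right _ _)
  · have hbd : ∀ g, |F g| ≤ 1 := hL.bd
    have hint : ∀ z : V0 n, Integrable (fun g => F (g * dgm z) * F g) ν := by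
      intro z
      have hcz : Continuous fun g : SL n => F (g * dgm z) * F g :=
        (hcF.comp (continuous_id.mul continuous_const)).mul hcF
      refine Integrable.mono' (integrable_const (1 : ℝ)) hcz.measurable.aestronglyMeasurable
        (Eventually.of_forall fun g => ?_)
      rw [Real.norm_eq_abs, abs_mul]
      exact mul_le_one₀ (hbd _) (abs_nonneg _) (hbd _)
    have e1 : Cor ν F y - Cor ν F y' = ∫ g, (F (g * dgm y) * F g - F (g * dgm y') * F g) ∂ν := by
      unfold Cor
      exact (integral_sub (hint y) (hint y')).symm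
    have key : ∀ g : SL n, ‖F (g * dgm y) * F g - F (g * dgm y') * F g‖ ≤
        max 2 (max K C0) * ‖y - y'‖ := by
      intro g
      rw [Real.norm_eq_abs, ← sub_mul, abs_mul]
      have a1 : |F (g * dgm y) - F (g * dgm y')| ≤ max 2 (max K C0) * ‖y - y'‖ := by
        by_cases h4 : ‖y - y'‖ ≤ 4
        · have h5 : dgm y = dgm y' * dgm (y - y') := by
            rw [← dgm_facts.1, add_sub_cancel]
          have h6 := hL.lip (g * dgm y') (dgm (y - y'))
          rw [mul_assoc, ← h5, one_mul] at h6
          refine h6.trans ((hdgm _ h4).trans (mul_le_mul_of_nonneg_right ?_ (norm_nonneg _)))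
          exact (le_max_right K C0).trans (le_max_right _ _)
        · push Not at h4
          have h5 : |F (g * dgm y) - F (g * dgm y')| ≤ 2 := by
            have := abs_sub (F (g * dgm y)) (F (g * dgm y'))
            have b1 := hbd (g * dgm y)
            have b2 := hbd (g * dgm y')
            linarith
          have h6 : (2 : ℝ) ≤ max 2 (max K C0) := le_max_left _ _
          nlinarith
      calc |F (g * dgm y) - F (g * dgm y')| * |F g|
          ≤ |F (g * dgm y) - F (g * dgm y')| * 1 :=
            mul_le_mul_of_nonneg_left (hbd g) (abs_nonneg _)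
        _ ≤ max 2 (max K C0) * ‖y - y'‖ := by rw [mul_one]; exact a1
    have h7 := norm_integral_le_of_norm_le_const (μ := ν) (Eventually.of_forall key)
    rw [e1, ← Real.norm_eq_abs]
    refine h7.trans (le_of_eq ?_)
    rw [probReal_univ, mul_one]

end FL27
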