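import Pool.Agent.LibFL27.DefsB
import Pool.Agent.LibFL27.D0b
import Pool.Agent.LibFL27.D0c

set_option autoImplicit false
set_option maxSynthPendingDepth 3

open Matrix MeasureTheory Topology Filter LibNC38
open LibNC27 hiding Mt
open scoped Matrix.Norms.Elementwise

namespace FL27

private theorem B6c_fej (C : ℝ → ℝ) (hC : Continuous C) (T : ℝ) (hT : 0 < T) :
    ∫ s' in (0 : ℝ)..T, ∫ s in (0 : ℝ)..T, C (s - s') = ∫ u in (-T)..T, (T - |u|) * C u := by
  set Q : ℝ → ℝ := fun x => ∫ u in (0 : ℝ)..x, C u with hQdef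
  have hQ : ∀ x, HasDerivAt Q (C x) x := fun x => (hC.integral_hasStrictDerivAt 0 x).hasDerivAt
  have hQc : Continuous Q := continuous_iff_continuousAt.mpr fun x => (hQ x).continuousAt
  have hQ0 : Q 0 = 0 := by
    rw [hQdef]
    exact intervalIntegral.integral_same
  have hint : ∀ a b : ℝ, IntervalIntegrable C volume a b := fun a b => hC.intervalIntegrable a b
  have h1 : ∀ s' : ℝ, ∫ s in (0 : ℝ)..T, C (s - s') = Q (T - s') - Q (-s') := by
    intro s'
    rw [intervalIntegral.integral_comp_sub_right (fun x => C x) s', zero_sub]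
    show _ = (∫ u in (0 : ℝ)..(T - s'), C u) - ∫ u in (0 : ℝ)..(-s'), C u
    rw [intervalIntegral.integral_interval_sub_left (hint _ _) (hint _ _)]
  have h2 : ∫ s' in (0 : ℝ)..T, ∫ s in (0 : ℝ)..T, C (s - s') =
      (∫ x in (0 : ℝ)..T, Q x) - ∫ x in (-T)..0, Q x := by
    rw [intervalIntegral.integral_congr (g := fun s' => Q (T - s') - Q (-s')) (fun s' _ => h1 s'),
      intervalIntegral.integral_sub]
    · rw [intervalIntegral.integral_comp_sub_left (fun x => Q x) T,
        intervalIntegral.integral_comp_neg (fun x => Q x), sub_self, sub_zero, neg_zero]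
    · exact (hQc.comp (continuous_const.sub continuous_id)).intervalIntegrable _ _
    · exact (hQc.comp continuous_neg).intervalIntegrable _ _
  have h3 : ∫ u in (0 : ℝ)..T, (T - |u|) * C u = ∫ x in (0 : ℝ)..T, Q x := by
    have e1 : ∫ u in (0 : ℝ)..T, (T - |u|) * C u = ∫ u in (0 : ℝ)..T, (T - u) * C u := by
      apply intervalIntegral.integral_congr
      intro u hu
      rw [Set.uIcc_of_le hT.le] at hu
      show (T - |u|) * C u = (T - u) * C u
      rw [abs_of_nonneg hu.1]
    have e2 := intervalIntegral.integral_mul_deriv_eq_deriv_mul (a := 0) (b := T)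
      (u := fun u : ℝ => T - u) (u' := fun _ => (-1 : ℝ)) (v := Q) (v' := C)
      (fun x _ => by simpa using (hasDerivAt_id x).const_sub T) (fun x _ => hQ x)
      (continuous_const.intervalIntegrable _ _) (hint _ _)
    rw [e1, e2, hQ0]
    simp only [neg_mul, one_mul, intervalIntegral.integral_neg]
    ring
  have h4 : ∫ u in (-T)..0, (T - |u|) * C u = -∫ x in (-T)..0, Q x := by
    have e1 : ∫ u in (-T)..0, (T - |u|) * C u = ∫ u in (-T)..0, (T + u) * C u := by
      apply intervalIntegral.integral_congr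
      intro u hu
      rw [Set.uIcc_of_le (by linarith)] at hu
      show (T - |u|) * C u = (T + u) * C u
      rw [abs_of_nonpos hu.2]
      ring
    have e2 := intervalIntegral.integral_mul_deriv_eq_deriv_mul (a := -T) (b := 0)
      (u := fun u : ℝ => T + u) (u' := fun _ => (1 : ℝ)) (v := Q) (v' := C)
      (fun x _ => by simpa using (hasDerivAt_id x).const_add T) (fun x _ => hQ x)
      (continuous_const.intervalIntegrable _ _) (hint _ _)
    rw [e1, e2, hQ0]
    simp only [one_mul]
    ring
  have hcont : Continuous fun u : ℝ => (T - |u|) * C u :=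
    (continuous_const.sub continuous_abs).mul hC
  rw [h2, ← intervalIntegral.integral_add_adjacent_intervals
    (hcont.intervalIntegrable (-T) 0) (hcont.intervalIntegrable 0 T), h3, h4]
  ring

/-- Row B6c. Small averages give small (Fejér weighted) line integrals of the correlation. Fubini:
`∫∫_{[0,T]²} F(g D(y + s lam)) F(g D(s' lam)) = ∫_{-T}^{T} (T - |u|) Cor(y + u lam) du` after integration. -/
theorem Cor_line {n : ℕ} (Γ : Subgroup (SL n)) (hc : Coc Γ) (ν : @Measure (SL n) (borel (SL n)))
    (K c : ℝ) (hM : Mix Γ ν K c) (F : Fn n) (hF : LB Γ 1 F) (lam y : V0 n) (T B : ℝ) (hT : 0 < T)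
    (h : ∀ g : SL n, |∫ s in (0 : ℝ)..T, F (g * dgm (s • lam))| ≤ B) :
    |∫ u in (-T)..T, (T - |u|) * Cor ν F (y + u • lam)| ≤ B ^ 2 := by
  letI : MeasurableSpace (SL n) := borel (SL n)
  haveI : BorelSpace (SL n) := ⟨rfl⟩
  haveI : IsProbabilityMeasure ν := ⟨hM.prob⟩
  obtain ⟨-, hLI, -⟩ := HB_facts Γ
  have hI : Inv Γ F := hLI 1 F hF
  have hFc : Continuous F := hI.cont
  obtain ⟨hadd, -, -, -, -, hdc⟩ := dgm_facts (n := n)
  have hdl : Continuous fun s : ℝ => dgm (s • lam) :=
    hdc.comp (continuous_id.smul continuous_const)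
  have hFb : ∀ g, |F g| ≤ 1 := hF.bd
  have hB : 0 ≤ B := (abs_nonneg _).trans (h 1)
  set I : Set ℝ := Set.Ioc 0 T with hIdef
  set μ : Measure ℝ := volume.restrict I with hμ
  haveI : IsFiniteMeasure μ := ⟨by
    rw [hμ, Measure.restrict_apply_univ, hIdef, Real.volume_Ioc]
    exact ENNReal.ofReal_lt_top⟩
  -- the correlation
  have hCor : ∀ v : V0 n, Cor ν F v = ∫ g, F (g * dgm v) * F g ∂ν := fun v => rfl
  have hCc : Continuous fun u : ℝ => Cor ν F (y + u • lam) := by
    have e : (fun u : ℝ => Cor ν F (y + u • lam)) =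
        fun u : ℝ => ∫ g, F (g * dgm (y + u • lam)) * F g ∂ν := funext fun u => hCor _
    rw [e]
    apply continuous_of_dominated (bound := fun _ => (1 : ℝ))
    · intro u
      exact ((hFc.comp (continuous_id.mul continuous_const)).mul hFc).aestronglyMeasurable
    · intro u
      refine Filter.Eventually.of_forall fun g => ?_
      rw [Real.norm_eq_abs, abs_mul]
      exact mul_le_one₀ (hFb _) (abs_nonneg _) (hFb _)
    · exact integrable_const _
    · refine Filter.Eventually.of_forall fun g => ?_
      have h1 : Continuous fun u : ℝ => dgm (y + u • lam) :=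
        hdc.comp (continuous_const.add (continuous_id.smul continuous_const))
      exact (hFc.comp (continuous_const.mul h1)).mul continuous_const
  -- the average
  set P : SL n → ℝ := fun g => ∫ s in (0 : ℝ)..T, F (g * dgm (s • lam)) with hP
  have hPb : ∀ g, |P g| ≤ B := h
  have hP' : ∀ g, P g = ∫ s, F (g * dgm (s • lam)) ∂μ := fun g =>
    intervalIntegral.integral_of_le hT.le
  set f : SL n → ℝ × ℝ → ℝ := fun g p =>
    F (g * dgm (p.1 • lam)) * F (g * dgm y * dgm (p.2 • lam)) with hf
  have hfc : Continuous (Function.uncurry f) := by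
    have h1 : Continuous fun x : SL n × (ℝ × ℝ) => dgm (x.2.1 • lam) :=
      hdl.comp (continuous_fst.comp continuous_snd)
    have h2 : Continuous fun x : SL n × (ℝ × ℝ) => dgm (x.2.2 • lam) :=
      hdl.comp (continuous_snd.comp continuous_snd)
    have h3 : Continuous fun x : SL n × (ℝ × ℝ) => x.1 * dgm (x.2.1 • lam) :=
      continuous_fst.mul h1
    have h4 : Continuous fun x : SL n × (ℝ × ℝ) => x.1 * dgm y * dgm (x.2.2 • lam) :=
      (continuous_fst.mul continuous_const).mul h2
    exact (hFc.comp h3).mul (hFc.comp h4)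
  have hfb : ∀ x, ‖Function.uncurry f x‖ ≤ 1 := by
    intro x
    show ‖F _ * F _‖ ≤ 1
    rw [Real.norm_eq_abs, abs_mul]
    exact mul_le_one₀ (hFb _) (abs_nonneg _) (hFb _)
  have hfi : Integrable (Function.uncurry f) (ν.prod (μ.prod μ)) :=
    Integrable.of_bound hfc.aestronglyMeasurable 1 (Filter.Eventually.of_forall hfb)
  have hG : ∀ g, P (g * dgm y) * P g = ∫ p, f g p ∂(μ.prod μ) := by
    intro g
    rw [hP', hP', mul_comm]
    exact (integral_prod_mul (fun s' : ℝ => F (g * dgm (s' • lam)))
      (fun s : ℝ => F (g * dgm y * dgm (s • lam)))).symm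
  have hswap : ∫ g, P (g * dgm y) * P g ∂ν = ∫ p, ∫ g, f g p ∂ν ∂(μ.prod μ) := by
    rw [← integral_integral_swap hfi]
    exact integral_congr_ae (Filter.Eventually.of_forall hG)
  have hinner : ∀ p : ℝ × ℝ, ∫ g, f g p ∂ν = Cor ν F (y + (p.2 - p.1) • lam) := by
    intro p
    have hH : Inv Γ (fun g => F (g * dgm (y + (p.2 - p.1) • lam)) * F g) := by
      refine ⟨(hFc.comp (continuous_id.mul continuous_const)).mul hFc, ?_⟩
      intro γ hγ g
      show F (γ * g * _) * F (γ * g) = _
      rw [mul_assoc γ g, hI.inv γ hγ, hI.inv γ hγ]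
    have h1 := hM.inv _ hH (dgm (p.1 • lam))
    rw [hCor, ← h1]
    refine integral_congr_ae (Filter.Eventually.of_forall fun g => ?_)
    show F (g * dgm (p.1 • lam)) * F (g * dgm y * dgm (p.2 • lam)) =
      F (g * dgm (p.1 • lam) * dgm (y + (p.2 - p.1) • lam)) * F (g * dgm (p.1 • lam))
    have e1 : g * dgm (p.1 • lam) * dgm (y + (p.2 - p.1) • lam) =
        g * dgm y * dgm (p.2 • lam) := by
      rw [mul_assoc, ← hadd, mul_assoc, ← hadd]
      congr 2
      rw [sub_smul]
      abel
    rw [e1, mul_comm]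
  have hfin : ∫ g, P (g * dgm y) * P g ∂ν =
      ∫ u in (-T)..T, (T - |u|) * Cor ν F (y + u • lam) := by
    rw [hswap, integral_congr_ae (Filter.Eventually.of_forall hinner)]
    have hint : Integrable (fun p : ℝ × ℝ => Cor ν F (y + (p.2 - p.1) • lam)) (μ.prod μ) := by
      have hcc : Continuous fun p : ℝ × ℝ => Cor ν F (y + (p.2 - p.1) • lam) :=
        hCc.comp (continuous_snd.sub continuous_fst)
      refine Integrable.of_bound hcc.aestronglyMeasurable 1
        (Filter.Eventually.of_forall fun p => ?_)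
      rw [hCor]
      refine (norm_integral_le_of_norm_le_const (C := 1)
        (Filter.Eventually.of_forall fun g => ?_)).trans ?_
      · rw [Real.norm_eq_abs, abs_mul]
        exact mul_le_one₀ (hFb _) (abs_nonneg _) (hFb _)
      · simp
    rw [integral_prod _ hint]
    rw [← B6c_fej (fun u => Cor ν F (y + u • lam)) hCc T hT,
      intervalIntegral.integral_of_le hT.le]
    refine integral_congr_ae (Filter.Eventually.of_forall fun s' => ?_)
    show ∫ s, Cor ν F (y + (s - s') • lam) ∂μ =
      ∫ s in (0 : ℝ)..T, Cor ν F (y + (s - s') • lam)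
    rw [intervalIntegral.integral_of_le hT.le]
  rw [← hfin, ← Real.norm_eq_abs]
  refine (norm_integral_le_of_norm_le_const (C := B ^ 2)
    (Filter.Eventually.of_forall fun g => ?_)).trans ?_
  · rw [Real.norm_eq_abs, abs_mul, pow_two]
    exact mul_le_mul (hPb _) (hPb _) (abs_nonneg _) hB
  · simp

end FL27
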