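import Pool.Agent.LibFL27.DefsB

set_option autoImplicit false
set_option maxSynthPendingDepth 3

open Matrix MeasureTheory Topology Filter LibNC38
open LibNC27 hiding Mt
open scoped Matrix.Norms.Elementwise

namespace FL27

/-- the kernel -/
private noncomputable def B7c_Ph (ρ a b : ℝ) : ℝ := 1 / (2 * Real.pi * ρ ^ 2) /
        ((1 + (a ^ 2 + b ^ 2) / ρ ^ 2) * √ (1 + (a ^ 2 + b ^ 2) / ρ ^ 2))

private noncomputable def B7c_g (x : ℝ) : ℝ := (1 + x ^ 2) ^ (-(5 / 8) : ℝ)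

private theorem B7c_g_int : Integrable B7c_g := by
  have h := integrable_rpow_neg_one_add_norm_sq (E := ℝ) (r := 5 / 4) (μ := volume)
    (by simp; norm_num)
  refine h.congr (Filter.Eventually.of_forall fun x => ?_)
  simp only [B7c_g, Real.norm_eq_abs, sq_abs]
  norm_num

private theorem B7c_g_pos (x : ℝ) : 0 < B7c_g x := by
  unfold B7c_g
  positivity

/-- pointwise bounds of the normalised kernel -/
private theorem B7c_pt (u v : ℝ) :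
    √ (√ (u ^ 2 + v ^ 2)) / ((1 + (u ^ 2 + v ^ 2)) * √ (1 + (u ^ 2 + v ^ 2))) ≤ B7c_g u * B7c_g v ∧
    1 / ((1 + (u ^ 2 + v ^ 2)) * √ (1 + (u ^ 2 + v ^ 2))) ≤ B7c_g u * B7c_g v := by
  have hs : (1 : ℝ) ≤ 1 + (u ^ 2 + v ^ 2) := by nlinarith [sq_nonneg u, sq_nonneg v]
  set s : ℝ := 1 + (u ^ 2 + v ^ 2) with hs'
  have hs0 : 0 < s := by linarith
  have h32 : s * √ s = s ^ ((3 : ℝ) / 2) := by
    rw [Real.sqrt_eq_rpow]
    nth_rewrite 1 [← Real.rpow_one s]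
    rw [← Real.rpow_add hs0]
    norm_num
  have hg : s ^ (-(5 / 4) : ℝ) ≤ B7c_g u * B7c_g v := by
    unfold B7c_g
    rw [← Real.mul_rpow (by positivity) (by positivity)]
    have h1 : (1 + u ^ 2) * (1 + v ^ 2) ≤ s ^ (2 : ℝ) := by
      rw [Real.rpow_two]
      nlinarith [sq_nonneg u, sq_nonneg v, sq_nonneg (u * v), mul_nonneg (sq_nonneg u) (sq_nonneg v)]
    have h2 : s ^ (-(5 / 4) : ℝ) = (s ^ (2 : ℝ)) ^ (-(5 / 8) : ℝ) := by
      rw [← Real.rpow_mul hs0.le]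
      norm_num
    rw [h2]
    exact Real.rpow_le_rpow_of_nonpos (by positivity) h1 (by norm_num)
  rw [h32]
  constructor
  · have h1 : √ (√ (u ^ 2 + v ^ 2)) ≤ s ^ ((1 : ℝ) / 4) := by
      have : √ (√ s) = s ^ ((1 : ℝ) / 4) := by
        rw [Real.sqrt_eq_rpow, Real.sqrt_eq_rpow, ← Real.rpow_mul hs0.le]
        norm_num
      rw [← this]
      exact Real.sqrt_le_sqrt (Real.sqrt_le_sqrt (by linarith))
    calc √ (√ (u ^ 2 + v ^ 2)) / s ^ ((3 : ℝ) / 2) ≤ s ^ ((1 : ℝ) / 4) / s ^ ((3 : ℝ) / 2) := by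
          gcongr
      _ = s ^ (-(5 / 4) : ℝ) := by
          rw [← Real.rpow_sub hs0]
          norm_num
      _ ≤ _ := hg
  · calc 1 / s ^ ((3 : ℝ) / 2) = s ^ (-(3 / 2) : ℝ) := by
          rw [Real.rpow_neg hs0.le, one_div]
      _ ≤ s ^ (-(5 / 4) : ℝ) := Real.rpow_le_rpow_of_exponent_le hs (by norm_num)
      _ ≤ _ := hg

private theorem B7c_scale (ρ : ℝ) (hρ : 0 < ρ) (a b : ℝ) :
    B7c_Ph ρ a b = 1 / (2 * Real.pi * ρ ^ 2) *
      (1 / ((1 + ((a / ρ) ^ 2 + (b / ρ) ^ 2)) * √ (1 + ((a / ρ) ^ 2 + (b / ρ) ^ 2)))) := by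
  unfold B7c_Ph
  have : (a ^ 2 + b ^ 2) / ρ ^ 2 = (a / ρ) ^ 2 + (b / ρ) ^ 2 := by
    field_simp
  rw [this]
  ring

private theorem B7c_prod_int (ρ : ℝ) (hρ : 0 < ρ) :
    Integrable (fun x : ℝ × ℝ => B7c_g (x.1 / ρ) * B7c_g (x.2 / ρ)) := by
  have h := B7c_g_int.comp_div hρ.ne'
  exact h.mul_prod h

private theorem B7c_prod_val (ρ : ℝ) (hρ : 0 < ρ) :
    ∫ x : ℝ × ℝ, B7c_g (x.1 / ρ) * B7c_g (x.2 / ρ) = ρ ^ 2 * (∫ x, B7c_g x) ^ 2 := by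
  have h1 : ∫ x, B7c_g (x / ρ) = ρ * ∫ x, B7c_g x := by
    rw [Measure.integral_comp_div, abs_of_pos hρ, smul_eq_mul]
  have h2 := integral_prod_mul (μ := (volume : Measure ℝ)) (ν := (volume : Measure ℝ))
    (fun a => B7c_g (a / ρ)) (fun b => B7c_g (b / ρ))
  rw [Measure.volume_eq_prod, h2, h1]
  ring

private theorem B7c_line (A : ℝ) (hA : 0 < A) :
    Integrable (fun b : ℝ => 1 / ((A + b ^ 2) * √ (A + b ^ 2))) ∧
    ∫ b : ℝ, 1 / ((A + b ^ 2) * √ (A + b ^ 2)) = 2 / A := by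
  have hpos : ∀ b : ℝ, 0 < A + b ^ 2 := fun b => by positivity
  have hint : Integrable (fun b : ℝ => 1 / ((A + b ^ 2) * √ (A + b ^ 2))) := by
    have h0 : Integrable (fun b : ℝ => (1 / (√ A)) * (A⁻¹ * (1 + (b / √ A) ^ 2)⁻¹)) :=
      (((integrable_inv_one_add_sq).comp_div (Real.sqrt_pos.2 hA).ne').const_mul _).const_mul _
    refine h0.mono' ?_ (Filter.Eventually.of_forall fun b => ?_)
    · refine Continuous.aestronglyMeasurable ?_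
      refine continuous_const.div (by fun_prop) fun b => ?_
      have := hpos b
      positivity
    · have h1 := hpos b
      rw [Real.norm_eq_abs, abs_of_nonneg (by positivity)]
      have h2 : A⁻¹ * (1 + (b / √ A) ^ 2)⁻¹ = (A + b ^ 2)⁻¹ := by
        rw [← mul_inv, div_pow, Real.sq_sqrt hA.le]
        congr 1
        field_simp
      rw [h2, one_div, one_div, mul_inv, mul_comm]
      gcongr
      nlinarith [sq_nonneg b]
  refine ⟨hint, ?_⟩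
  have hd : ∀ b : ℝ, HasDerivAt (fun b => b / (A * √ (A + b ^ 2)))
      (1 / ((A + b ^ 2) * √ (A + b ^ 2))) b := by
    intro b
    have h1 := hpos b
    have h2 : HasDerivAt (fun b : ℝ => A + b ^ 2) (2 * b) b := by
      simpa using (hasDerivAt_pow 2 b).const_add A
    have h3 := (h2.sqrt h1.ne').const_mul A
    have h5 : √ (A + b ^ 2) ^ 2 = A + b ^ 2 := Real.sq_sqrt h1.le
    have h6 : 0 < √ (A + b ^ 2) := Real.sqrt_pos.2 h1
    have h4 := (hasDerivAt_id b).div h3 (by positivity)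
    have h7 : (1 : ℝ) / ((A + b ^ 2) * √ (A + b ^ 2)) =
        (1 * (A * √ (A + b ^ 2)) - id b * (A * (2 * b / (2 * √ (A + b ^ 2))))) /
          (A * √ (A + b ^ 2)) ^ 2 := by
      rw [div_eq_div_iff (by positivity) (by positivity), mul_pow, h5]
      simp only [id]
      have h8 : √ (A + b ^ 2) * √ (A + b ^ 2) = A + b ^ 2 := Real.mul_self_sqrt h1.le
      field_simp
      nlinarith [h8]
    rw [h7]
    exact h4
  have htop : Tendsto (fun b : ℝ => b / (A * √ (A + b ^ 2))) atTop (𝓝 (1 / A)) := by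
    have e : ∀ᶠ b : ℝ in atTop, (1 / (A * √ (A * (b⁻¹) ^ 2 + 1))) = b / (A * √ (A + b ^ 2)) := by
      filter_upwards [eventually_gt_atTop 0] with b hb
      have h1 : A + b ^ 2 = (A * (b⁻¹) ^ 2 + 1) * b ^ 2 := by
        field_simp
      rw [h1, Real.sqrt_mul (by positivity), Real.sqrt_sq hb.le]
      field_simp
    refine Tendsto.congr' e ?_
    have h2 : Tendsto (fun b : ℝ => b⁻¹) atTop (𝓝 0) := tendsto_inv_atTop_zero
    have h3 : Continuous fun x : ℝ => 1 / (A * √ (A * x ^ 2 + 1)) := by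
      refine continuous_const.div (by fun_prop) fun x => ?_
      positivity
    have h4 := (h3.tendsto 0).comp h2
    have h5 : (1 : ℝ) / (A * √ (A * 0 ^ 2 + 1)) = 1 / A := by simp
    rw [h5] at h4
    exact h4
  have hbot : Tendsto (fun b : ℝ => b / (A * √ (A + b ^ 2))) atBot (𝓝 (-(1 / A))) := by
    have h1 := (htop.comp tendsto_neg_atBot_atTop).neg
    refine h1.congr fun b => ?_
    simp only [Function.comp]
    rw [neg_sq]
    ring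
  rw [integral_of_hasDerivAt_of_tendsto hd hint hbot htop]
  ring

private theorem B7c_one (ρ : ℝ) (hρ : 0 < ρ) : ∫ a : ℝ, ∫ b : ℝ, B7c_Ph ρ a b = 1 := by
  have h1 : ∀ a b : ℝ, B7c_Ph ρ a b = (ρ / (2 * Real.pi)) *
      (1 / (((ρ ^ 2 + a ^ 2) + b ^ 2) * √ ((ρ ^ 2 + a ^ 2) + b ^ 2))) := by
    intro a b
    unfold B7c_Ph
    have h2 : 1 + (a ^ 2 + b ^ 2) / ρ ^ 2 = (ρ ^ 2 + a ^ 2 + b ^ 2) / ρ ^ 2 := by
      field_simp
      ring
    rw [h2, Real.sqrt_div (by positivity), Real.sqrt_sq hρ.le]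
    have h3 : 0 < √ (ρ ^ 2 + a ^ 2 + b ^ 2) := Real.sqrt_pos.2 (by positivity)
    field_simp
  have h2 : ∀ a : ℝ, ∫ b : ℝ, B7c_Ph ρ a b = (1 / (Real.pi * ρ)) * (1 + (a / ρ) ^ 2)⁻¹ := by
    intro a
    simp_rw [h1]
    rw [integral_const_mul, (B7c_line (ρ ^ 2 + a ^ 2) (by positivity)).2]
    field_simp
  simp_rw [h2]
  rw [integral_const_mul, Measure.integral_comp_div (fun x : ℝ => (1 + x ^ 2)⁻¹),
    integral_univ_inv_one_add_sq, abs_of_pos hρ, smul_eq_mul]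
  field_simp

private theorem B7c_Ph_nonneg (ρ a b : ℝ) : 0 ≤ B7c_Ph ρ a b := by
  unfold B7c_Ph
  positivity

private theorem B7c_Ph_cont (ρ : ℝ) (hρ : 0 < ρ) : Continuous fun x : ℝ × ℝ => B7c_Ph ρ x.1 x.2 := by
  unfold B7c_Ph
  refine continuous_const.div (by fun_prop) fun x => ?_
  positivity

private theorem B7c_Ph_int (ρ : ℝ) (hρ : 0 < ρ) :
    Integrable (fun x : ℝ × ℝ => B7c_Ph ρ x.1 x.2) := by
  refine ((B7c_prod_int ρ hρ).const_mul (1 / (2 * Real.pi * ρ ^ 2))).mono'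
    (B7c_Ph_cont ρ hρ).aestronglyMeasurable (Filter.Eventually.of_forall fun x => ?_)
  rw [Real.norm_eq_abs, abs_of_nonneg (B7c_Ph_nonneg _ _ _), B7c_scale ρ hρ]
  exact mul_le_mul_of_nonneg_left (B7c_pt _ _).2 (by positivity)

/-- Row B7c. The value at 0: `∫∫ Φ_ρ = 1` and `∫∫ min(1, r) Φ_ρ ≤ C ρ (1 + log(1/ρ)) ≤ C √ρ`. -/
theorem plane_zero : ∃ C : ℝ, 0 < C ∧ ∀ (f : ℝ → ℝ → ℝ) (K ρ : ℝ),
    (Continuous fun x : ℝ × ℝ => f x.1 x.2) → 0 < ρ → ρ ≤ 1 → (∀ a b, |f a b| ≤ K) →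
    (∀ a b, |f a b - f 0 0| ≤ K * √ (a ^ 2 + b ^ 2)) →
    |(∫ a : ℝ, ∫ b : ℝ, f a b * (1 / (2 * Real.pi * ρ ^ 2) /
        ((1 + (a ^ 2 + b ^ 2) / ρ ^ 2) * √ (1 + (a ^ 2 + b ^ 2) / ρ ^ 2)))) - f 0 0| ≤
      C * K * √ ρ := by
  refine ⟨(1 / Real.pi) * (∫ x, B7c_g x) ^ 2 + 1, by positivity, ?_⟩
  intro f K ρ hf hρ hρ1 hK hL
  have hK0 : 0 ≤ K := (abs_nonneg _).trans (hK 0 0)
  have hPi := B7c_Ph_int ρ hρ
  have hPc := B7c_Ph_cont ρ hρ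
  have hfP : Integrable (fun x : ℝ × ℝ => f x.1 x.2 * B7c_Ph ρ x.1 x.2) := by
    refine (hPi.const_mul K).mono' (hf.mul hPc).aestronglyMeasurable
      (Filter.Eventually.of_forall fun x => ?_)
    rw [norm_mul, Real.norm_eq_abs, Real.norm_eq_abs, abs_of_nonneg (B7c_Ph_nonneg _ _ _)]
    exact mul_le_mul_of_nonneg_right (hK _ _) (B7c_Ph_nonneg _ _ _)
  have e1 : ∫ a : ℝ, ∫ b : ℝ, f a b * (1 / (2 * Real.pi * ρ ^ 2) /
        ((1 + (a ^ 2 + b ^ 2) / ρ ^ 2) * √ (1 + (a ^ 2 + b ^ 2) / ρ ^ 2))) =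
      ∫ x : ℝ × ℝ, f x.1 x.2 * B7c_Ph ρ x.1 x.2 := by
    rw [Measure.volume_eq_prod] at hfP ⊢
    rw [integral_prod _ hfP]
    rfl
  have e2 : ∫ x : ℝ × ℝ, B7c_Ph ρ x.1 x.2 = 1 := by
    rw [← B7c_one ρ hρ]
    rw [Measure.volume_eq_prod] at hPi ⊢
    rw [integral_prod _ hPi]
  have e3 : (∫ x : ℝ × ℝ, f x.1 x.2 * B7c_Ph ρ x.1 x.2) - f 0 0 =
      ∫ x : ℝ × ℝ, (f x.1 x.2 - f 0 0) * B7c_Ph ρ x.1 x.2 := by
    have e4 : f 0 0 = ∫ x : ℝ × ℝ, f 0 0 * B7c_Ph ρ x.1 x.2 := by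
      rw [integral_const_mul, e2, mul_one]
    calc (∫ x : ℝ × ℝ, f x.1 x.2 * B7c_Ph ρ x.1 x.2) - f 0 0 =
        (∫ x : ℝ × ℝ, f x.1 x.2 * B7c_Ph ρ x.1 x.2) - ∫ x : ℝ × ℝ, f 0 0 * B7c_Ph ρ x.1 x.2 := by
          rw [← e4]
      _ = _ := by
          rw [← integral_sub hfP (hPi.const_mul _)]
          congr 1
          funext x
          ring
  rw [e1, e3]
  have hG : Integrable (fun x : ℝ × ℝ => (2 * K * √ ρ * (1 / (2 * Real.pi * ρ ^ 2))) *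
      (B7c_g (x.1 / ρ) * B7c_g (x.2 / ρ))) := (B7c_prod_int ρ hρ).const_mul _
  have hb : ∀ x : ℝ × ℝ, ‖(f x.1 x.2 - f 0 0) * B7c_Ph ρ x.1 x.2‖ ≤
      (2 * K * √ ρ * (1 / (2 * Real.pi * ρ ^ 2))) * (B7c_g (x.1 / ρ) * B7c_g (x.2 / ρ)) := by
    intro x
    rw [norm_mul, Real.norm_eq_abs, Real.norm_eq_abs, abs_of_nonneg (B7c_Ph_nonneg _ _ _)]
    set r : ℝ := √ (x.1 ^ 2 + x.2 ^ 2) with hr
    have hr0 : 0 ≤ r := Real.sqrt_nonneg _
    have h1 : |f x.1 x.2 - f 0 0| ≤ 2 * K * √ r := by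
      rcases le_total r 1 with h | h
      · have h2 : r ≤ √ r := by
          have : r ^ 2 ≤ r := by nlinarith
          exact Real.le_sqrt_of_sq_le this
        calc |f x.1 x.2 - f 0 0| ≤ K * r := hL _ _
          _ ≤ K * √ r := by gcongr
          _ ≤ 2 * K * √ r := by nlinarith [mul_nonneg hK0 (Real.sqrt_nonneg r)]
      · have h2 : 1 ≤ √ r := Real.one_le_sqrt.2 h
        calc |f x.1 x.2 - f 0 0| ≤ |f x.1 x.2| + |f 0 0| := abs_sub _ _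
          _ ≤ K + K := add_le_add (hK _ _) (hK _ _)
          _ = 2 * K * 1 := by ring
          _ ≤ 2 * K * √ r := by gcongr
    have h3 : √ r = √ ρ * √ (√ ((x.1 / ρ) ^ 2 + (x.2 / ρ) ^ 2)) := by
      rw [← Real.sqrt_mul hρ.le]
      congr 1
      have h4 : x.1 ^ 2 + x.2 ^ 2 = ρ ^ 2 * ((x.1 / ρ) ^ 2 + (x.2 / ρ) ^ 2) := by
        field_simp
      rw [hr, h4, Real.sqrt_mul (by positivity), Real.sqrt_sq hρ.le]
    rw [B7c_scale ρ hρ]
    calc |f x.1 x.2 - f 0 0| * (1 / (2 * Real.pi * ρ ^ 2) *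
          (1 / ((1 + ((x.1 / ρ) ^ 2 + (x.2 / ρ) ^ 2)) * √ (1 + ((x.1 / ρ) ^ 2 + (x.2 / ρ) ^ 2))))) ≤
          (2 * K * √ r) * (1 / (2 * Real.pi * ρ ^ 2) *
          (1 / ((1 + ((x.1 / ρ) ^ 2 + (x.2 / ρ) ^ 2)) * √ (1 + ((x.1 / ρ) ^ 2 + (x.2 / ρ) ^ 2))))) :=
          mul_le_mul_of_nonneg_right h1 (by positivity)
      _ = (2 * K * √ ρ * (1 / (2 * Real.pi * ρ ^ 2))) *
          (√ (√ ((x.1 / ρ) ^ 2 + (x.2 / ρ) ^ 2)) /
          ((1 + ((x.1 / ρ) ^ 2 + (x.2 / ρ) ^ 2)) * √ (1 + ((x.1 / ρ) ^ 2 + (x.2 / ρ) ^ 2)))) := by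
          rw [h3]; ring
      _ ≤ _ := mul_le_mul_of_nonneg_left (B7c_pt _ _).1 (by positivity)
  have h5 := norm_integral_le_of_norm_le hG (Filter.Eventually.of_forall hb)
  rw [Real.norm_eq_abs, integral_const_mul, B7c_prod_val ρ hρ] at h5
  refine h5.trans ?_
  have h6 : 2 * K * √ ρ * (1 / (2 * Real.pi * ρ ^ 2)) * (ρ ^ 2 * (∫ x, B7c_g x) ^ 2) =
      (1 / Real.pi) * (∫ x, B7c_g x) ^ 2 * K * √ ρ := by
    field_simp
  rw [h6]
  have : 0 ≤ K * √ ρ := mul_nonneg hK0 (Real.sqrt_nonneg _)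
  nlinarith

end FL27
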