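import Pool.Agent.LibFL27.B7b
import Pool.Agent.LibFL27.B7c

set_option autoImplicit false
set_option maxSynthPendingDepth 3

open Matrix MeasureTheory Topology Filter LibNC38
open LibNC27 hiding Mt
open scoped Matrix.Norms.Elementwise

namespace FL27

private theorem B7_exp (a : ℝ) (ha : 0 < a) : Integrable (fun s : ℝ => Real.exp (-(a * |s|))) := by
  have h1 : Integrable (fun s : ℝ => (1 + 2 / a ^ 2) * (1 + s ^ 2)⁻¹) :=
    integrable_inv_one_add_sq.const_mul _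
  have h2 : Continuous fun s : ℝ => Real.exp (-(a * |s|)) := by fun_prop
  refine h1.mono' h2.aestronglyMeasurable (Eventually.of_forall fun s => ?_)
  rw [Real.norm_eq_abs, abs_of_pos (Real.exp_pos _)]
  have h3 : 0 ≤ a * |s| := mul_nonneg ha.le (abs_nonneg _)
  have h4 := Real.quadratic_le_exp_of_nonneg h3
  have h5 : 1 + s ^ 2 ≤ (1 + 2 / a ^ 2) * Real.exp (a * |s|) := by
    have h6 : (1 + 2 / a ^ 2) * Real.exp (a * |s|) = Real.exp (a * |s|) +
        2 / a ^ 2 * Real.exp (a * |s|) := by ring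
    have h7 : 2 / a ^ 2 * ((a * |s|) ^ 2 / 2) = s ^ 2 := by
      rw [mul_pow, sq_abs]
      field_simp
    have h8 : 2 / a ^ 2 * ((a * |s|) ^ 2 / 2) ≤ 2 / a ^ 2 * Real.exp (a * |s|) :=
      mul_le_mul_of_nonneg_left (by linarith) (by positivity)
    have h9 : (1 : ℝ) ≤ Real.exp (a * |s|) := Real.one_le_exp h3
    rw [h6, ← h7]
    linarith
  rw [Real.exp_neg, ← div_eq_mul_inv, le_div_iff₀ (by positivity), inv_mul_le_iff₀ (Real.exp_pos _)]
  linarith

private theorem B7_expabs (a : ℝ) (ha : 0 < a) :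
    Integrable (fun s : ℝ => |s| * Real.exp (-(a * |s|))) := by
  have h1 : Integrable (fun s : ℝ => 2 / a * Real.exp (-(a / 2 * |s|))) :=
    (B7_exp (a / 2) (by positivity)).const_mul _
  have h2 : Continuous fun s : ℝ => |s| * Real.exp (-(a * |s|)) := by fun_prop
  refine h1.mono' h2.aestronglyMeasurable (Eventually.of_forall fun s => ?_)
  rw [Real.norm_eq_abs, abs_mul, abs_abs, abs_of_pos (Real.exp_pos _)]
  have h3 : a / 2 * |s| ≤ Real.exp (a / 2 * |s|) := by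
    have := Real.add_one_le_exp (a / 2 * |s|)
    linarith
  have h4 : |s| ≤ 2 / a * Real.exp (a / 2 * |s|) := by
    have h5 : |s| = 2 / a * (a / 2 * |s|) := by field_simp
    calc |s| = 2 / a * (a / 2 * |s|) := h5
      _ ≤ 2 / a * Real.exp (a / 2 * |s|) := mul_le_mul_of_nonneg_left h3 (by positivity)
  calc |s| * Real.exp (-(a * |s|)) ≤ 2 / a * Real.exp (a / 2 * |s|) * Real.exp (-(a * |s|)) :=
        mul_le_mul_of_nonneg_right h4 (Real.exp_pos _).le
    _ = 2 / a * Real.exp (-(a / 2 * |s|)) := by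
        rw [mul_assoc, ← Real.exp_add]
        congr 2
        ring

private theorem B7_line {K c T : ℝ} (hK : 0 < K) (hc : 0 < c) (hT : 2 ≤ T) (g : ℝ → ℝ)
    (hg : Continuous g) (hd : ∀ s, |g s| ≤ K * Real.exp (-(c * |s|))) :
    |∫ s, g s| ≤ K * ∫ s : ℝ, Real.exp (-(c * |s|)) ∧
    ∀ B : ℝ, |∫ s in (-T)..T, (T - |s|) * g s| ≤ B →
      |∫ s, g s| ≤ (B + K * ∫ s : ℝ, |s| * Real.exp (-(c * |s|))) / T := by
  have hint : Integrable g := by
    refine ((B7_exp c hc).const_mul K).mono' hg.aestronglyMeasurable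
      (Eventually.of_forall fun s => ?_)
    rw [Real.norm_eq_abs]
    exact hd s
  refine ⟨?_, fun B hB => ?_⟩
  · rw [← integral_const_mul, ← Real.norm_eq_abs]
    exact norm_integral_le_of_norm_le ((B7_exp c hc).const_mul K)
      (Eventually.of_forall fun s => by rw [Real.norm_eq_abs]; exact hd s)
  · have hT0 : 0 < T := by linarith
    have hTT : -T ≤ T := by linarith
    have hcont : Continuous fun s : ℝ => (T - |s|) * g s := by fun_prop
    have hi1 : Integrable ((Set.Ioc (-T) T).indicator fun s : ℝ => (T - |s|) * g s) := by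
      rw [integrable_indicator_iff measurableSet_Ioc]
      exact (intervalIntegrable_iff_integrableOn_Ioc_of_le hTT).1 (hcont.intervalIntegrable _ _)
    have hi2 : Integrable fun s : ℝ => T * g s - (Set.Ioc (-T) T).indicator
        (fun s : ℝ => (T - |s|) * g s) s := (hint.const_mul T).sub hi1
    have e1 : T * ∫ s, g s = (∫ s in (-T)..T, (T - |s|) * g s) +
        ∫ s, (T * g s - (Set.Ioc (-T) T).indicator (fun s : ℝ => (T - |s|) * g s) s) := by
      rw [integral_sub (hint.const_mul T) hi1, integral_indicator measurableSet_Ioc,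
        intervalIntegral.integral_of_le hTT, integral_const_mul]
      ring
    have e2 : |∫ s, (T * g s - (Set.Ioc (-T) T).indicator (fun s : ℝ => (T - |s|) * g s) s)| ≤
        K * ∫ s : ℝ, |s| * Real.exp (-(c * |s|)) := by
      rw [← integral_const_mul, ← Real.norm_eq_abs]
      refine norm_integral_le_of_norm_le ((B7_expabs c hc).const_mul K)
        (Eventually.of_forall fun s => ?_)
      rw [Real.norm_eq_abs]
      have h1 : |T * g s - (Set.Ioc (-T) T).indicator (fun s : ℝ => (T - |s|) * g s) s| ≤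
          |s| * |g s| := by
        by_cases hs : s ∈ Set.Ioc (-T) T
        · rw [Set.indicator_of_mem hs]
          have : T * g s - (T - |s|) * g s = |s| * g s := by ring
          rw [this, abs_mul, abs_abs]
        · rw [Set.indicator_of_notMem hs, sub_zero, abs_mul, abs_of_pos hT0]
          refine mul_le_mul_of_nonneg_right ?_ (abs_nonneg _)
          by_contra hc2
          push Not at hc2
          have := abs_lt.1 hc2
          exact hs ⟨this.1, this.2.le⟩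
      refine h1.trans ?_
      calc |s| * |g s| ≤ |s| * (K * Real.exp (-(c * |s|))) :=
            mul_le_mul_of_nonneg_left (hd s) (abs_nonneg _)
        _ = K * (|s| * Real.exp (-(c * |s|))) := by ring
    rw [le_div_iff₀ hT0]
    have e3 : |∫ s, g s| * T = |T * ∫ s, g s| := by
      rw [abs_mul, abs_of_pos hT0, mul_comm]
    rw [e3, e1]
    exact (abs_add_le _ _).trans (add_le_add hB e2)

private theorem B7_G {ρ M : ℝ} (hρ : 0 < ρ) (X : ℝ → ℝ) (hX : ∀ p, |X p| ≤ M) :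
    |∫ p : ℝ, 1 / (2 * Real.pi ^ 2 * ρ ^ 2) *
        ((1 - p ^ 2 / ρ ^ 2) / (1 + p ^ 2 / ρ ^ 2) ^ 2) * X p| ≤ M / (2 * Real.pi * ρ) := by
  have hpi := Real.pi_pos
  have hM : 0 ≤ M := (abs_nonneg _).trans (hX 0)
  have h1 : Integrable fun p : ℝ => M / (2 * Real.pi ^ 2 * ρ ^ 2) * (1 + (p / ρ) ^ 2)⁻¹ :=
    (integrable_inv_one_add_sq.comp_div hρ.ne').const_mul _
  have h2 : ∫ p : ℝ, M / (2 * Real.pi ^ 2 * ρ ^ 2) * (1 + (p / ρ) ^ 2)⁻¹ =
      M / (2 * Real.pi * ρ) := by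
    rw [integral_const_mul, Measure.integral_comp_div (fun x : ℝ => (1 + x ^ 2)⁻¹) ρ,
      integral_univ_inv_one_add_sq, abs_of_pos hρ, smul_eq_mul]
    field_simp
  rw [← h2, ← Real.norm_eq_abs]
  refine norm_integral_le_of_norm_le h1 (Eventually.of_forall fun p => ?_)
  have h3 : 0 ≤ p ^ 2 / ρ ^ 2 := by positivity
  have h4 : |(1 - p ^ 2 / ρ ^ 2) / (1 + p ^ 2 / ρ ^ 2) ^ 2| ≤ (1 + (p / ρ) ^ 2)⁻¹ := by
    rw [abs_div, abs_of_pos (show 0 < (1 + p ^ 2 / ρ ^ 2) ^ 2 by positivity), div_pow,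
      div_le_iff₀ (by positivity)]
    have h5 : (1 + p ^ 2 / ρ ^ 2)⁻¹ * (1 + p ^ 2 / ρ ^ 2) ^ 2 = 1 + p ^ 2 / ρ ^ 2 := by
      field_simp
    rw [h5]
    exact abs_le.2 ⟨by linarith, by linarith⟩
  rw [Real.norm_eq_abs, abs_mul, abs_mul, abs_of_pos (show 0 < 1 / (2 * Real.pi ^ 2 * ρ ^ 2) by
    positivity)]
  calc 1 / (2 * Real.pi ^ 2 * ρ ^ 2) * |(1 - p ^ 2 / ρ ^ 2) / (1 + p ^ 2 / ρ ^ 2) ^ 2| * |X p|
      ≤ 1 / (2 * Real.pi ^ 2 * ρ ^ 2) * (1 + (p / ρ) ^ 2)⁻¹ * M := by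
        refine mul_le_mul (mul_le_mul_of_nonneg_left h4 (by positivity)) (hX p) (abs_nonneg _) ?_
        positivity
    _ = M / (2 * Real.pi ^ 2 * ρ ^ 2) * (1 + (p / ρ) ^ 2)⁻¹ := by ring

/-- Row B7. Conclusion: line integrals small in most directions give a small value at 0.
`ρ = T^(-1/8)`; `|X_φ(p)| ≤ C T^(-1/4)` for good φ, `≤ C exp(-c |p|/2)` always. -/
theorem plane_small (K c : ℝ) (hK : 0 < K) (hc : 0 < c) : ∃ C b : ℝ, 0 < C ∧ 0 < b ∧
    ∀ (f : ℝ → ℝ → ℝ) (T : ℝ) (S : Set ℝ), (Continuous fun x : ℝ × ℝ => f x.1 x.2) → 2 ≤ T →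
    (∀ a b, |f a b| ≤ K * Real.exp (-(c * √ (a ^ 2 + b ^ 2)))) →
    (∀ a b, |f a b - f 0 0| ≤ K * √ (a ^ 2 + b ^ 2)) →
    MeasurableSet S → volume (S ∩ Set.Icc 0 Real.pi) ≤ ENNReal.ofReal (K * T ^ (-(1 / 4) : ℝ)) →
    (∀ φ ∈ Set.Icc 0 Real.pi, φ ∉ S → ∀ p : ℝ,
      |∫ s in (-T)..T, (T - |s|) *
        f (s * Real.cos φ - p * Real.sin φ) (s * Real.sin φ + p * Real.cos φ)| ≤
        K * T ^ (3 / 4 : ℝ)) →
    |f 0 0| ≤ C * T ^ (-b) := by
  obtain ⟨C1, hC1, hzero⟩ := plane_zero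
  have hpi := Real.pi_pos
  set E1 : ℝ := ∫ s : ℝ, Real.exp (-(c * |s|)) with hE1
  set E2 : ℝ := ∫ s : ℝ, |s| * Real.exp (-(c * |s|)) with hE2
  have hE1n : 0 ≤ E1 := integral_nonneg fun s => (Real.exp_pos _).le
  have hE2n : 0 ≤ E2 := integral_nonneg fun s => mul_nonneg (abs_nonneg _) (Real.exp_pos _).le
  refine ⟨(K + K * E2) / 2 + K * E1 * K / (2 * Real.pi) + C1 * K, 1 / 16, by positivity,
    by norm_num, ?_⟩
  intro f T S hf hT hd hl hS hvol hgood
  have hT0 : 0 < T := by linarith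
  have hT1 : 1 ≤ T := by linarith
  set ρ : ℝ := T ^ (-(1 / 8) : ℝ) with hρd
  have hρ : 0 < ρ := Real.rpow_pos_of_pos hT0 _
  have hρ1 : ρ ≤ 1 := Real.rpow_le_one_of_one_le_of_nonpos hT1 (by norm_num)
  have hfK : ∀ a b, |f a b| ≤ K := by
    intro a b
    refine (hd a b).trans ?_
    have h1 : Real.exp (-(c * √ (a ^ 2 + b ^ 2))) ≤ 1 := by
      rw [Real.exp_le_one_iff]
      have : 0 ≤ c * √ (a ^ 2 + b ^ 2) := by positivity
      linarith
    nlinarith
  have hz := hzero f K ρ hf hρ hρ1 hfK hl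
  rw [plane_lines f K c ρ hf hc hρ hd] at hz
  -- the lines
  have hline : ∀ φ p : ℝ, |∫ s : ℝ, f (s * Real.cos φ - p * Real.sin φ)
      (s * Real.sin φ + p * Real.cos φ)| ≤ K * E1 ∧ ∀ B : ℝ, |∫ s in (-T)..T, (T - |s|) *
        f (s * Real.cos φ - p * Real.sin φ) (s * Real.sin φ + p * Real.cos φ)| ≤ B →
      |∫ s : ℝ, f (s * Real.cos φ - p * Real.sin φ) (s * Real.sin φ + p * Real.cos φ)| ≤
        (B + K * E2) / T := by
    intro φ p
    refine B7_line hK hc hT (fun s => f (s * Real.cos φ - p * Real.sin φ)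
      (s * Real.sin φ + p * Real.cos φ)) ?_ ?_
    · have h1 : Continuous fun s : ℝ => ((s * Real.cos φ - p * Real.sin φ,
          s * Real.sin φ + p * Real.cos φ) : ℝ × ℝ) := by fun_prop
      exact hf.comp h1
    · intro s
      refine (hd _ _).trans (mul_le_mul_of_nonneg_left ?_ hK.le)
      rw [Real.exp_le_exp]
      have h2 : (s * Real.cos φ - p * Real.sin φ) ^ 2 + (s * Real.sin φ + p * Real.cos φ) ^ 2 =
          s ^ 2 + p ^ 2 := by
        have := Real.sin_sq_add_cos_sq φ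
        linear_combination (s ^ 2 + p ^ 2) * this
      rw [h2]
      have h3 : |s| ≤ √ (s ^ 2 + p ^ 2) := by
        refine Real.abs_le_sqrt ?_
        nlinarith [sq_nonneg p]
      nlinarith
  have hTq : T ^ (-(1 / 4) : ℝ) = T ^ (3 / 4 : ℝ) / T := by
    have h1 : T ^ (3 / 4 : ℝ) / T = T ^ ((3 / 4 : ℝ) - 1) := by
      rw [Real.rpow_sub hT0, Real.rpow_one]
    rw [h1]
    norm_num
  have hTi : 1 / T ≤ T ^ (-(1 / 4) : ℝ) := by
    rw [one_div, ← Real.rpow_neg_one]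
    exact Real.rpow_le_rpow_of_exponent_le hT1 (by norm_num)
  have hbad : ∀ φ : ℝ, |∫ p : ℝ, 1 / (2 * Real.pi ^ 2 * ρ ^ 2) *
        ((1 - p ^ 2 / ρ ^ 2) / (1 + p ^ 2 / ρ ^ 2) ^ 2) *
        ∫ s : ℝ, f (s * Real.cos φ - p * Real.sin φ) (s * Real.sin φ + p * Real.cos φ)| ≤
      K * E1 / (2 * Real.pi * ρ) := by
    intro φ
    exact B7_G hρ (fun p => ∫ s : ℝ, f (s * Real.cos φ - p * Real.sin φ)
      (s * Real.sin φ + p * Real.cos φ)) fun p => (hline φ p).1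
  have hgd : ∀ φ ∈ Set.Icc 0 Real.pi, φ ∉ S → |∫ p : ℝ, 1 / (2 * Real.pi ^ 2 * ρ ^ 2) *
        ((1 - p ^ 2 / ρ ^ 2) / (1 + p ^ 2 / ρ ^ 2) ^ 2) *
        ∫ s : ℝ, f (s * Real.cos φ - p * Real.sin φ) (s * Real.sin φ + p * Real.cos φ)| ≤
      (K + K * E2) * T ^ (-(1 / 4) : ℝ) / (2 * Real.pi * ρ) := by
    intro φ hφ hφS
    refine B7_G hρ (fun p => ∫ s : ℝ, f (s * Real.cos φ - p * Real.sin φ)
      (s * Real.sin φ + p * Real.cos φ)) fun p => ?_
    refine ((hline φ p).2 _ (hgood φ hφ hφS p)).trans ?_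
    have h1 : (K * T ^ (3 / 4 : ℝ) + K * E2) / T =
        K * T ^ (-(1 / 4) : ℝ) + K * E2 * (1 / T) := by
      rw [hTq]
      ring
    rw [h1, add_mul]
    have h2 : K * E2 * (1 / T) ≤ K * E2 * T ^ (-(1 / 4) : ℝ) :=
      mul_le_mul_of_nonneg_left hTi (by positivity)
    linarith
  set A : ℝ := (K + K * E2) * T ^ (-(1 / 4) : ℝ) / (2 * Real.pi * ρ) with hA
  set B : ℝ := K * E1 / (2 * Real.pi * ρ) with hB
  have hA0 : 0 ≤ A := by positivity
  have hB0 : 0 ≤ B := by positivity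
  have hmeas : MeasurableSet (S ∩ Set.Icc 0 Real.pi) := hS.inter measurableSet_Icc
  have hint : IntegrableOn ((S ∩ Set.Icc 0 Real.pi).indicator fun _ : ℝ => B)
      (Set.Ioc 0 Real.pi) := by
    refine Integrable.integrableOn ?_
    rw [integrable_indicator_iff hmeas]
    refine integrableOn_const (hs := ?_)
    exact ne_of_lt (hvol.trans_lt ENNReal.ofReal_lt_top)
  have hI : |∫ φ in (0 : ℝ)..Real.pi, ∫ p : ℝ, 1 / (2 * Real.pi ^ 2 * ρ ^ 2) *
        ((1 - p ^ 2 / ρ ^ 2) / (1 + p ^ 2 / ρ ^ 2) ^ 2) *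
        ∫ s : ℝ, f (s * Real.cos φ - p * Real.sin φ) (s * Real.sin φ + p * Real.cos φ)| ≤
      A * Real.pi + B * (K * T ^ (-(1 / 4) : ℝ)) := by
    have h1 : ∀ᵐ φ : ℝ, φ ∈ Set.Ioc 0 Real.pi → ‖∫ p : ℝ, 1 / (2 * Real.pi ^ 2 * ρ ^ 2) *
        ((1 - p ^ 2 / ρ ^ 2) / (1 + p ^ 2 / ρ ^ 2) ^ 2) *
        ∫ s : ℝ, f (s * Real.cos φ - p * Real.sin φ) (s * Real.sin φ + p * Real.cos φ)‖ ≤
        A + (S ∩ Set.Icc 0 Real.pi).indicator (fun _ : ℝ => B) φ := by
      refine Eventually.of_forall fun φ hφ => ?_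
      have hφ' : φ ∈ Set.Icc 0 Real.pi := ⟨hφ.1.le, hφ.2⟩
      rw [Real.norm_eq_abs]
      by_cases hφS : φ ∈ S
      · rw [Set.indicator_of_mem (show φ ∈ S ∩ Set.Icc 0 Real.pi from ⟨hφS, hφ'⟩)]
        exact (hbad φ).trans (by linarith)
      · rw [Set.indicator_of_notMem (fun h => hφS h.1), add_zero]
        exact hgd φ hφ' hφS
    have hii : IntervalIntegrable
        (fun φ => A + (S ∩ Set.Icc 0 Real.pi).indicator (fun _ : ℝ => B) φ) volume 0 Real.pi := by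
      rw [intervalIntegrable_iff_integrableOn_Ioc_of_le hpi.le]
      exact (integrableOn_const (by simp)).add hint
    have h2 := intervalIntegral.norm_integral_le_of_norm_le hpi.le h1 hii
    rw [Real.norm_eq_abs] at h2
    refine h2.trans ?_
    have hcA : IntegrableOn (fun _ : ℝ => A) (Set.Ioc 0 Real.pi) :=
      integrableOn_const (hs := by simp)
    have h0 : ∫ φ in Set.Ioc 0 Real.pi, (A + (S ∩ Set.Icc 0 Real.pi).indicator
        (fun _ : ℝ => B) φ) = (∫ _ in Set.Ioc 0 Real.pi, A) + ∫ φ in Set.Ioc 0 Real.pi,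
        (S ∩ Set.Icc 0 Real.pi).indicator (fun _ : ℝ => B) φ :=
      integral_add (μ := volume.restrict (Set.Ioc 0 Real.pi)) hcA hint
    rw [intervalIntegral.integral_of_le hpi.le, h0, integral_const]
    have h3 : ∫ φ in Set.Ioc 0 Real.pi, (S ∩ Set.Icc 0 Real.pi).indicator (fun _ : ℝ => B) φ ≤
        B * (K * T ^ (-(1 / 4) : ℝ)) := by
      have h4 : ∫ φ in Set.Ioc 0 Real.pi, (S ∩ Set.Icc 0 Real.pi).indicator (fun _ : ℝ => B) φ ≤
          ∫ φ, (S ∩ Set.Icc 0 Real.pi).indicator (fun _ : ℝ => B) φ := by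
        refine setIntegral_le_integral ?_ (Eventually.of_forall fun φ =>
          Set.indicator_nonneg (fun _ _ => hB0) φ)
        rw [integrable_indicator_iff hmeas]
        exact integrableOn_const (hs := ne_of_lt (hvol.trans_lt ENNReal.ofReal_lt_top))
      refine h4.trans ?_
      rw [integral_indicator hmeas, setIntegral_const, smul_eq_mul, mul_comm]
      refine mul_le_mul_of_nonneg_left ?_ hB0
      rw [measureReal_def]
      exact ENNReal.toReal_le_of_le_ofReal (by positivity) hvol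
    have h5 : (volume.restrict (Set.Ioc 0 Real.pi)).real Set.univ • A = A * Real.pi := by
      rw [measureReal_restrict_apply_univ, Real.volume_real_Ioc_of_le hpi.le, sub_zero,
        smul_eq_mul, mul_comm]
    rw [h5]
    linarith
  -- numbers
  have hr1 : 1 / ρ = T ^ (1 / 8 : ℝ) := by
    rw [hρd, Real.rpow_neg hT0.le, one_div, inv_inv]
  have hr2 : √ ρ = T ^ (-(1 / 16) : ℝ) := by
    rw [hρd, Real.sqrt_eq_rpow, ← Real.rpow_mul hT0.le]
    norm_num
  have hr3 : T ^ (-(1 / 4) : ℝ) * (1 / ρ) ≤ T ^ (-(1 / 16) : ℝ) := by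
    rw [hr1, ← Real.rpow_add hT0]
    exact Real.rpow_le_rpow_of_exponent_le hT1 (by norm_num)
  have e1 : A * Real.pi = (K + K * E2) / 2 * (T ^ (-(1 / 4) : ℝ) * (1 / ρ)) := by
    rw [hA]
    field_simp
  have e2 : B * (K * T ^ (-(1 / 4) : ℝ)) =
      K * E1 * K / (2 * Real.pi) * (T ^ (-(1 / 4) : ℝ) * (1 / ρ)) := by
    rw [hB]
    field_simp
  rw [hr2] at hz
  have e3 : |f 0 0| ≤ A * Real.pi + B * (K * T ^ (-(1 / 4) : ℝ)) +
      C1 * K * T ^ (-(1 / 16) : ℝ) := by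
    have h1 := abs_sub_abs_le_abs_sub (f 0 0) (∫ φ in (0 : ℝ)..Real.pi, ∫ p : ℝ,
        1 / (2 * Real.pi ^ 2 * ρ ^ 2) * ((1 - p ^ 2 / ρ ^ 2) / (1 + p ^ 2 / ρ ^ 2) ^ 2) *
        ∫ s : ℝ, f (s * Real.cos φ - p * Real.sin φ) (s * Real.sin φ + p * Real.cos φ))
    rw [abs_sub_comm] at h1
    linarith
  rw [e1, e2] at e3
  have e4 : (K + K * E2) / 2 * (T ^ (-(1 / 4) : ℝ) * (1 / ρ)) ≤
      (K + K * E2) / 2 * T ^ (-(1 / 16) : ℝ) := mul_le_mul_of_nonneg_left hr3 (by positivity)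
  have e5 : K * E1 * K / (2 * Real.pi) * (T ^ (-(1 / 4) : ℝ) * (1 / ρ)) ≤
      K * E1 * K / (2 * Real.pi) * T ^ (-(1 / 16) : ℝ) :=
    mul_le_mul_of_nonneg_left hr3 (by positivity)
  calc |f 0 0| ≤ (K + K * E2) / 2 * T ^ (-(1 / 16) : ℝ) +
        K * E1 * K / (2 * Real.pi) * T ^ (-(1 / 16) : ℝ) + C1 * K * T ^ (-(1 / 16) : ℝ) := by
        linarith
    _ = ((K + K * E2) / 2 + K * E1 * K / (2 * Real.pi) + C1 * K) * T ^ (-(1 / 16) : ℝ) := by
        ring

end FL27
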