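import Pool.Agent.LibFL27.DefsB

set_option autoImplicit false
set_option maxSynthPendingDepth 3

open Matrix MeasureTheory Topology Filter LibNC38
open LibNC27 hiding Mt
open scoped Matrix.Norms.Elementwise

namespace FL27

private theorem B8a_near (ψ : ℝ) (h1 : -Real.pi ≤ ψ) (h2 : ψ ≤ 2 * Real.pi) :
    ∃ k : Fin 3, |ψ - Real.pi / 2 - ((k.1 : ℝ) - 1) * Real.pi| ≤ Real.pi / 2 * |Real.cos ψ| := by
  have hpi := Real.pi_pos
  have main : ∀ m : ℝ, (|Real.sin (ψ - Real.pi / 2 - m * Real.pi)| = |Real.cos ψ|) →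
      |ψ - Real.pi / 2 - m * Real.pi| ≤ Real.pi / 2 →
      |ψ - Real.pi / 2 - m * Real.pi| ≤ Real.pi / 2 * |Real.cos ψ| := by
    intro m e h
    have := Real.mul_abs_le_abs_sin h
    rw [e] at this
    rw [div_mul_eq_mul_div, div_le_iff₀ hpi] at this
    rw [div_mul_eq_mul_div, le_div_iff₀ two_pos]
    linarith
  rcases le_total ψ 0 with h | h
  · refine ⟨0, ?_⟩
    have e0 : (((0 : Fin 3).1 : ℝ) - 1) = -1 := by norm_num
    rw [e0]
    refine main (-1) ?_ ?_
    · have : ψ - Real.pi / 2 - (-1) * Real.pi = ψ + Real.pi / 2 := by ring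
      rw [this, Real.sin_add_pi_div_two]
    · rw [abs_le]; constructor <;> linarith
  rcases le_total ψ Real.pi with h' | h'
  · refine ⟨1, ?_⟩
    have e0 : (((1 : Fin 3).1 : ℝ) - 1) = 0 := by norm_num
    rw [e0]
    refine main 0 ?_ ?_
    · have : ψ - Real.pi / 2 - 0 * Real.pi = ψ - Real.pi / 2 := by ring
      rw [this, Real.sin_sub_pi_div_two, abs_neg]
    · rw [abs_le]; constructor <;> linarith
  · refine ⟨2, ?_⟩
    have e0 : (((2 : Fin 3).1 : ℝ) - 1) = 1 := by norm_num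
    rw [e0]
    refine main 1 ?_ ?_
    · have : ψ - Real.pi / 2 - 1 * Real.pi = (ψ - Real.pi / 2) - Real.pi := by ring
      rw [this, Real.sin_sub_pi, Real.sin_sub_pi_div_two, neg_neg]
    · rw [abs_le]; constructor <;> linarith

private theorem B8a_one (c : ℝ) (hc : 0 < c) (η : ℝ) (hη : 0 < η) (a b : ℝ)
    (hab : c ≤ a ^ 2 + b ^ 2) :
    volume ({φ : ℝ | |Real.cos φ * a + Real.sin φ * b| < η} ∩ Set.Icc 0 Real.pi) ≤
      ENNReal.ofReal (3 * (Real.pi * (η / Real.sqrt c))) := by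
  have hpi := Real.pi_pos
  set z : ℂ := ⟨a, b⟩ with hz
  have hz2 : ‖z‖ ^ 2 = a ^ 2 + b ^ 2 := by
    rw [Complex.sq_norm, Complex.normSq_mk]; ring
  have hsc : 0 < Real.sqrt c := Real.sqrt_pos.2 hc
  have hR : Real.sqrt c ≤ ‖z‖ := by
    rw [← Real.sqrt_sq (norm_nonneg z), hz2]
    exact Real.sqrt_le_sqrt hab
  have hR0 : 0 < ‖z‖ := hsc.trans_le hR
  have ha : a = ‖z‖ * Real.cos z.arg := by
    have := Complex.norm_mul_cos_arg z
    rw [this]
  have hb : b = ‖z‖ * Real.sin z.arg := by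
    have := Complex.norm_mul_sin_arg z
    rw [this]
  have hfun : ∀ φ : ℝ, Real.cos φ * a + Real.sin φ * b = ‖z‖ * Real.cos (φ - z.arg) := by
    intro φ
    rw [Real.cos_sub]
    conv_lhs => rw [ha, hb]
    ring
  set s : ℝ := η / Real.sqrt c with hs
  have hs0 : 0 < s := div_pos hη hsc
  have hsub : ({φ : ℝ | |Real.cos φ * a + Real.sin φ * b| < η} ∩ Set.Icc 0 Real.pi) ⊆
      ⋃ k : Fin 3, Metric.ball (z.arg + Real.pi / 2 + ((k.1 : ℝ) - 1) * Real.pi)
        (Real.pi / 2 * s) := by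
    rintro φ ⟨h1, h2, h3⟩
    have h1' : |Real.cos φ * a + Real.sin φ * b| < η := h1
    rw [hfun, abs_mul, abs_of_pos hR0] at h1'
    have hcos : |Real.cos (φ - z.arg)| < s := by
      rw [hs, lt_div_iff₀ hsc]
      have := mul_le_mul_of_nonneg_left hR (abs_nonneg (Real.cos (φ - z.arg)))
      linarith
    have g1 := Complex.neg_pi_lt_arg z
    have g2 := Complex.arg_le_pi z
    obtain ⟨k, hk⟩ := B8a_near (φ - z.arg) (by linarith) (by linarith)
    refine Set.mem_iUnion.2 ⟨k, ?_⟩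
    rw [Metric.mem_ball, Real.dist_eq]
    have e : φ - (z.arg + Real.pi / 2 + ((k.1 : ℝ) - 1) * Real.pi) =
        φ - z.arg - Real.pi / 2 - ((k.1 : ℝ) - 1) * Real.pi := by ring
    rw [e]
    exact hk.trans_lt (mul_lt_mul_of_pos_left hcos (by positivity))
  calc volume ({φ : ℝ | |Real.cos φ * a + Real.sin φ * b| < η} ∩ Set.Icc 0 Real.pi)
      ≤ volume (⋃ k : Fin 3, Metric.ball (z.arg + Real.pi / 2 + ((k.1 : ℝ) - 1) * Real.pi)
        (Real.pi / 2 * s)) := measure_mono hsub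
    _ ≤ ∑ k : Fin 3, volume (Metric.ball (z.arg + Real.pi / 2 + ((k.1 : ℝ) - 1) * Real.pi)
        (Real.pi / 2 * s)) := measure_iUnion_fintype_le _ _
    _ = ∑ _k : Fin 3, ENNReal.ofReal (Real.pi * s) := by
        refine Finset.sum_congr rfl fun k _ => ?_
        rw [Real.volume_ball]
        congr 1
        ring
    _ = ENNReal.ofReal (3 * (Real.pi * s)) := by
        rw [Finset.sum_const, Finset.card_univ, Fintype.card_fin, nsmul_eq_mul,
          ENNReal.ofReal_mul (by norm_num : (0:ℝ) ≤ 3)]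
        norm_num

/-- Row B8a. The set of directions of the plane that are not `η`-regular is small. -/
theorem bad_dir {n : ℕ} (c : ℝ) (hc : 0 < c) : ∃ C : ℝ, 0 < C ∧ ∀ (e f : V0 n) (η : ℝ), 0 < η →
    (∀ i j : Fin n, i ≠ j → c ≤ (e.1 i - e.1 j) ^ 2 + (f.1 i - f.1 j) ^ 2) →
    MeasurableSet {φ : ℝ | ∃ i j : Fin n, i ≠ j ∧
      |(Real.cos φ • e + Real.sin φ • f : V0 n).1 i -
        (Real.cos φ • e + Real.sin φ • f : V0 n).1 j| < η} ∧
    volume ({φ : ℝ | ∃ i j : Fin n, i ≠ j ∧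
      |(Real.cos φ • e + Real.sin φ • f : V0 n).1 i -
        (Real.cos φ • e + Real.sin φ • f : V0 n).1 j| < η} ∩ Set.Icc 0 Real.pi) ≤
      ENNReal.ofReal (C * η) := by
  have hpi := Real.pi_pos
  have hsc : 0 < Real.sqrt c := Real.sqrt_pos.2 hc
  refine ⟨(n : ℝ) * n * (3 * (Real.pi / Real.sqrt c)) + 1, by positivity, ?_⟩
  intro e f η hη h
  have ev : ∀ (φ : ℝ) (i j : Fin n), (Real.cos φ • e + Real.sin φ • f : V0 n).1 i -
      (Real.cos φ • e + Real.sin φ • f : V0 n).1 j =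
      Real.cos φ * (e.1 i - e.1 j) + Real.sin φ * (f.1 i - f.1 j) := by
    intro φ i j
    have e1 : ∀ i : Fin n, (Real.cos φ • e + Real.sin φ • f : V0 n).1 i =
        Real.cos φ * e.1 i + Real.sin φ * f.1 i := fun i => rfl
    rw [e1, e1]
    ring
  have hset : {φ : ℝ | ∃ i j : Fin n, i ≠ j ∧
      |(Real.cos φ • e + Real.sin φ • f : V0 n).1 i -
        (Real.cos φ • e + Real.sin φ • f : V0 n).1 j| < η} =
      ⋃ p : {p : Fin n × Fin n // p.1 ≠ p.2},
        {φ : ℝ | |Real.cos φ * (e.1 p.1.1 - e.1 p.1.2) +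
          Real.sin φ * (f.1 p.1.1 - f.1 p.1.2)| < η} := by
    ext φ
    simp only [Set.mem_setOf_eq, Set.mem_iUnion, ev]
    constructor
    · rintro ⟨i, j, hij, h1⟩
      exact ⟨⟨(i, j), hij⟩, h1⟩
    · rintro ⟨⟨⟨i, j⟩, hij⟩, h1⟩
      exact ⟨i, j, hij, h1⟩
  rw [hset]
  constructor
  · refine MeasurableSet.iUnion fun p => ?_
    refine (isOpen_lt ?_ continuous_const).measurableSet
    fun_prop
  · rw [Set.iUnion_inter]
    calc volume (⋃ p : {p : Fin n × Fin n // p.1 ≠ p.2},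
          {φ : ℝ | |Real.cos φ * (e.1 p.1.1 - e.1 p.1.2) +
            Real.sin φ * (f.1 p.1.1 - f.1 p.1.2)| < η} ∩ Set.Icc 0 Real.pi)
        ≤ ∑ p : {p : Fin n × Fin n // p.1 ≠ p.2},
          volume ({φ : ℝ | |Real.cos φ * (e.1 p.1.1 - e.1 p.1.2) +
            Real.sin φ * (f.1 p.1.1 - f.1 p.1.2)| < η} ∩ Set.Icc 0 Real.pi) :=
          measure_iUnion_fintype_le _ _
      _ ≤ ∑ _p : {p : Fin n × Fin n // p.1 ≠ p.2},
          ENNReal.ofReal (3 * (Real.pi * (η / Real.sqrt c))) :=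
          Finset.sum_le_sum fun p _ => B8a_one c hc η hη _ _ (h p.1.1 p.1.2 p.2)
      _ ≤ ENNReal.ofReal (((n : ℝ) * n * (3 * (Real.pi / Real.sqrt c)) + 1) * η) := by
          rw [Finset.sum_const, Finset.card_univ, nsmul_eq_mul, ← ENNReal.ofReal_natCast,
            ← ENNReal.ofReal_mul (by positivity)]
          refine ENNReal.ofReal_le_ofReal ?_
          have hcard : ((Fintype.card {p : Fin n × Fin n // p.1 ≠ p.2} : ℕ) : ℝ) ≤
              (n : ℝ) * n := by
            have h1 : Fintype.card {p : Fin n × Fin n // p.1 ≠ p.2} ≤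
                Fintype.card (Fin n × Fin n) := Fintype.card_subtype_le _
            rw [Fintype.card_prod, Fintype.card_fin] at h1
            exact_mod_cast h1
          have hpos : 0 ≤ 3 * (Real.pi * (η / Real.sqrt c)) := by positivity
          have e2 : ((n : ℝ) * n * (3 * (Real.pi / Real.sqrt c)) + 1) * η =
              (n : ℝ) * n * (3 * (Real.pi * (η / Real.sqrt c))) + η := by
            field_simp
          rw [e2]
          have := mul_le_mul_of_nonneg_right hcard hpos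
          linarith

end FL27
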