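import Pool.Agent.LibFL27.DefsD

set_option autoImplicit false
set_option maxSynthPendingDepth 3

open Matrix MeasureTheory Topology Filter LibNC38
open LibNC27 hiding Mt
open scoped Matrix.Norms.Elementwise

namespace FL27

/-- the linearised curvature of the plane spanned by `e, f` -/
def Kf {n : ℕ} (J2 : Mt n →ₗ[ℝ] Mt n →ₗ[ℝ] Mt n →ₗ[ℝ] Mt n →ₗ[ℝ] Fn n) (e f : V0 n) : Fn n := fun g =>
  J2 (dM f) (dM f) (dM e) (dM e) g - 2 * J2 (dM f) (dM e) (dM e) (dM f) g +
    J2 (dM e) (dM e) (dM f) (dM f) g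

/-- the correlation function of `F` along the flats -/
noncomputable def Cor {n : ℕ} (ν : @Measure (SL n) (borel (SL n))) (F : Fn n) (y : V0 n) : ℝ :=
  @integral (SL n) ℝ _ _ (borel (SL n)) ν (fun g => F (g * dgm y) * F g)

end FL27
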