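import Pool.Agent.LibFL27.D0b
import Pool.Agent.LibFL27.DefsB

set_option autoImplicit false
set_option maxSynthPendingDepth 3

open Matrix MeasureTheory Topology Filter LibNC38
open LibNC27 hiding Mt
open scoped Matrix.Norms.Elementwise

namespace FL27

private theorem B8b_dE_le {n : ℕ} (q : SL n) (r : ℝ) (hr : 0 ≤ r)
    (h : ∀ i j, |q.1 i j - (1 : Mt n) i j| ≤ r) : dE q ≤ r := by
  unfold dE
  rw [Matrix.norm_le_iff hr]
  intro i j
  have := h i j
  simpa [Matrix.sub_apply, Real.norm_eq_abs] using this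

/-- Row B8b. Sup bound from the mean square (`low` of Mix, Lipschitz). -/
theorem sup_of_sq {n : ℕ} (Γ : Subgroup (SL n)) (hc : Coc Γ) (ν : @Measure (SL n) (borel (SL n)))
    (K c : ℝ) (hM : Mix Γ ν K c) : ∃ C b : ℝ, 0 < C ∧ 0 < b ∧ ∀ (F : Fn n) (a : ℝ), LB Γ 1 F →
      @integral (SL n) ℝ _ _ (borel (SL n)) ν (fun g => F g * F g) ≤ a →
      ∀ g, |F g| ≤ C * a ^ b := by
  obtain ⟨c0, D, hc0, hlow⟩ := hM.low
  have hD2 : (0 : ℝ) < (D : ℝ) + 2 := by positivity
  refine ⟨2 * (1 / c0) ^ (1 / ((D : ℝ) + 2)), 1 / ((D : ℝ) + 2), by positivity, by positivity, ?_⟩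
  intro F a hF ha g
  have hInv : Inv Γ F := (HB_facts Γ).2.1 1 F hF
  have hInv2 : Inv Γ (fun g => F g * F g) :=
    ⟨hInv.cont.mul hInv.cont, fun γ hγ g => by simp only [hInv.inv γ hγ g]⟩
  have ha0 : 0 ≤ a := le_trans (integral_nonneg fun g => mul_self_nonneg (F g)) ha
  by_cases hA0 : |F g| = 0
  · rw [hA0]; positivity
  have hA : 0 < |F g| := lt_of_le_of_ne (abs_nonneg _) (Ne.symm hA0)
  have hA1 : |F g| ≤ 1 := hF.bd g
  have key := hlow (fun g => F g * F g) hInv2 (fun g => mul_self_nonneg _) g (|F g| / 2)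
    ((|F g| / 2) ^ 2) (by positivity) (by linarith) (by positivity) (by
      intro q hq
      have hd : dE q ≤ |F g| / 2 := B8b_dE_le q _ (by positivity) hq
      have hl := hF.lip g q
      have h1 : |F (g * q) - F g| ≤ |F g| / 2 := by linarith
      have h2 : |F g| / 2 ≤ |F (g * q)| := by
        have := abs_sub_abs_le_abs_sub (F g) (F (g * q))
        rw [abs_sub_comm] at this
        linarith
      calc (|F g| / 2) ^ 2 ≤ |F (g * q)| ^ 2 := by
            apply pow_le_pow_left₀ (by positivity) h2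
        _ = F (g * q) * F (g * q) := by rw [sq_abs, sq])
  have h3 : c0 * (|F g| / 2) ^ (D + 2) ≤ a := by
    calc c0 * (|F g| / 2) ^ (D + 2) = c0 * (|F g| / 2) ^ D * (|F g| / 2) ^ 2 := by ring
      _ ≤ _ := key
      _ ≤ a := ha
  have h4 : (|F g| / 2) ^ (D + 2) ≤ (1 / c0) * a := by
    rw [one_div, inv_mul_eq_div, le_div_iff₀ hc0]
    linarith
  have h5 : |F g| / 2 ≤ ((1 / c0) * a) ^ (1 / ((D : ℝ) + 2)) := by
    have h6 : ((|F g| / 2) ^ (D + 2)) ^ (1 / ((D : ℝ) + 2)) = |F g| / 2 := by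
      rw [← Real.rpow_natCast, ← Real.rpow_mul (by positivity)]
      rw [show (((D + 2 : ℕ) : ℝ) * (1 / ((D : ℝ) + 2))) = 1 by
        push_cast; field_simp]
      exact Real.rpow_one _
    rw [← h6]
    exact Real.rpow_le_rpow (by positivity) h4 (by positivity)
  rw [Real.mul_rpow (by positivity) ha0] at h5
  nlinarith [h5]

end FL27
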