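import Pool.Agent.LibFL27.DefsB

set_option autoImplicit false
set_option maxSynthPendingDepth 3

open Matrix MeasureTheory Topology Filter LibNC38
open LibNC27 hiding Mt
open scoped Matrix.Norms.Elementwise

namespace FL27

private def B9Q {n : ℕ} (B : V0 n →ₗ[ℝ] V0 n →ₗ[ℝ] V0 n →ₗ[ℝ] V0 n →ₗ[ℝ] ℝ) (e f : V0 n) : ℝ :=
  B f f e e - 2 * B f e e f + B e e f f

private theorem B9_shift {n : ℕ} (B : V0 n →ₗ[ℝ] V0 n →ₗ[ℝ] V0 n →ₗ[ℝ] V0 n →ₗ[ℝ] ℝ)
    (h1 : ∀ x y v w, B x y v w = B y x v w) (h2 : ∀ x y v w, B x y v w = B x y w v)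
    (e f : V0 n) (a b s : ℝ) : B9Q B (a • e) (b • e + s • f) = a ^ 2 * s ^ 2 * B9Q B e f := by
  unfold B9Q
  simp only [map_add, map_smul, LinearMap.add_apply, LinearMap.smul_apply, smul_eq_mul]
  have e1 : B e f e e = B f e e e := h1 e f e e
  have e2 : B e e f e = B e e e f := h2 e e f e
  rw [e1, e2]
  ring

private theorem B9_quad {n : ℕ} (B : V0 n →ₗ[ℝ] V0 n →ₗ[ℝ] V0 n →ₗ[ℝ] V0 n →ₗ[ℝ] ℝ)
    (x v w : V0 n) (h : ℝ) :
    B9Q B (x + h • v) w + B9Q B (x + (-h) • v) w - 2 * B9Q B x w = 2 * h ^ 2 * B9Q B v w := by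
  unfold B9Q
  simp only [map_add, map_smul, LinearMap.add_apply, LinearMap.smul_apply, smul_eq_mul]
  ring

/-- a vector with distinct coordinates -/
private theorem B9_vec (n : ℕ) : ∃ x : V0 n, ∀ i j : Fin n, i ≠ j → 1 ≤ |x.1 i - x.1 j| := by
  rcases Nat.eq_zero_or_pos n with h0 | hpos
  · subst h0
    exact ⟨0, fun i => i.elim0⟩
  set m : ℝ := (∑ i : Fin n, (i : ℝ)) / n with hm
  have hn0 : (n : ℝ) ≠ 0 := by positivity
  refine ⟨⟨WithLp.toLp 2 (fun i : Fin n => (i : ℝ) - m), ?_⟩, ?_⟩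
  · change ∑ i : Fin n, ((i : ℝ) - m) = 0
    rw [Finset.sum_sub_distrib, Finset.sum_const, Finset.card_univ, Fintype.card_fin, nsmul_eq_mul,
      hm, mul_div_cancel₀ _ hn0, sub_self]
  · intro i j hij
    change 1 ≤ |((i : ℝ) - m) - ((j : ℝ) - m)|
    have e1 : ((i : ℝ) - m) - ((j : ℝ) - m) = (((i : ℤ) - (j : ℤ) : ℤ) : ℝ) := by
      push_cast; ring
    rw [e1, ← Int.cast_abs]
    have h2 : (1 : ℤ) ≤ |(i : ℤ) - (j : ℤ)| := by
      apply Int.one_le_abs
      intro h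
      apply hij
      apply Fin.ext
      have : (i : ℤ) = (j : ℤ) := by linarith
      exact_mod_cast this
    exact_mod_cast h2

/-- Row B9. Generic planes suffice (linear algebra; equivalence of seminorms on a finite dimensional
space of polynomials: a curvature type form vanishing on an open set of pairs vanishes). -/
theorem generic {n : ℕ} (hn : 3 ≤ n) : ∃ c C : ℝ, 0 < c ∧ 0 < C ∧
    ∀ (B : V0 n →ₗ[ℝ] V0 n →ₗ[ℝ] V0 n →ₗ[ℝ] V0 n →ₗ[ℝ] ℝ) (σ : ℝ), 0 ≤ σ →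
      (∀ x y v w, B x y v w = B y x v w) → (∀ x y v w, B x y v w = B x y w v) →
      (∀ e f : V0 n, ‖e‖ = 1 → ‖f‖ = 1 → inner ℝ e f = 0 →
        (∀ i j : Fin n, i ≠ j → c ≤ (e.1 i - e.1 j) ^ 2 + (f.1 i - f.1 j) ^ 2) →
        |B f f e e - 2 * B f e e f + B e e f f| ≤ σ) →
      ∀ v w : V0 n, ‖v‖ ≤ 1 → ‖w‖ ≤ 1 → |B w w v v - 2 * B w v v w + B v v w w| ≤ C * σ := by
  obtain ⟨x0, hx0⟩ := B9_vec n
  set R : ℝ := ‖x0‖ + 1 with hR
  have hRp : 0 < R := by have := norm_nonneg x0; linarith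
  refine ⟨1 / (4 * R ^ 2), 32 * R ^ 2, by positivity, by positivity, ?_⟩
  intro B σ hσ hs1 hs2 hgen v w hv hw
  -- pairs with a generic first vector
  have key : ∀ x : V0 n, ‖x‖ ≤ R → (∀ i j : Fin n, i ≠ j → 1 / 2 ≤ |x.1 i - x.1 j|) →
      |B9Q B x w| ≤ R ^ 2 * σ := by
    intro x hxR hxd
    have hx : x ≠ 0 := by
      intro h
      have h1 := hxd ⟨0, by omega⟩ ⟨1, by omega⟩ (by simp)
      rw [h] at h1
      norm_num at h1
    have hxn : 0 < ‖x‖ := norm_pos_iff.mpr hx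
    set e : V0 n := ‖x‖⁻¹ • x with he
    have hen : ‖e‖ = 1 := by
      rw [he, norm_smul, norm_inv, norm_norm, inv_mul_cancel₀ hxn.ne']
    have hxe : x = ‖x‖ • e := by
      rw [he, smul_smul, mul_inv_cancel₀ hxn.ne', one_smul]
    set b : ℝ := inner ℝ e w with hb
    set f' : V0 n := w - b • e with hf'
    have hef' : inner ℝ e f' = (0 : ℝ) := by
      rw [hf', inner_sub_right, inner_smul_right, real_inner_self_eq_norm_sq, hen]
      simp [hb]
    have hwd : w = b • e + f' := by rw [hf']; abel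
    have hf'n : ‖f'‖ ≤ 1 := by
      have h2 : ‖w‖ * ‖w‖ = ‖b • e‖ * ‖b • e‖ + ‖f'‖ * ‖f'‖ := by
        conv_lhs => rw [hwd]
        apply norm_add_sq_eq_norm_sq_add_norm_sq_real
        rw [inner_smul_left, hef', mul_zero]
      have h3 : ‖f'‖ * ‖f'‖ ≤ ‖w‖ * ‖w‖ := by
        have := mul_self_nonneg ‖b • e‖
        linarith
      have h4 := abs_le_of_sq_le_sq' (a := ‖f'‖) (b := ‖w‖) (by nlinarith) (norm_nonneg w)
      exact h4.2.trans hw
    by_cases hf0 : f' = 0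
    · have h5 : B9Q B x w = 0 := by
        have h6 := B9_shift B hs1 hs2 e e ‖x‖ b 0
        rw [← hxe] at h6
        rw [hwd, hf0]
        rw [zero_smul] at h6
        rw [h6]; ring
      rw [h5, abs_zero]; positivity
    · have hfn : 0 < ‖f'‖ := norm_pos_iff.mpr hf0
      set f : V0 n := ‖f'‖⁻¹ • f' with hf
      have hfn1 : ‖f‖ = 1 := by
        rw [hf, norm_smul, norm_inv, norm_norm, inv_mul_cancel₀ hfn.ne']
      have hff : f' = ‖f'‖ • f := by
        rw [hf, smul_smul, mul_inv_cancel₀ hfn.ne', one_smul]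
      have hef : inner ℝ e f = (0 : ℝ) := by
        rw [hf, inner_smul_right, hef', mul_zero]
      have hg := hgen e f hen hfn1 hef (by
        intro i j hij
        have h7 : e.1 i - e.1 j = ‖x‖⁻¹ * (x.1 i - x.1 j) := by
          have e1 : e.1 i = ‖x‖⁻¹ * x.1 i := rfl
          have e2 : e.1 j = ‖x‖⁻¹ * x.1 j := rfl
          rw [e1, e2]; ring
        have h8 : (1 / 2 : ℝ) ^ 2 ≤ (x.1 i - x.1 j) ^ 2 := by
          rw [← sq_abs (x.1 i - x.1 j)]
          exact pow_le_pow_left₀ (by norm_num) (hxd i j hij) 2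
        have h9 : 1 / R ^ 2 ≤ (‖x‖⁻¹) ^ 2 := by
          rw [inv_pow, ← one_div]
          exact one_div_le_one_div_of_le (by positivity) (pow_le_pow_left₀ hxn.le hxR 2)
        have h10 : 1 / (4 * R ^ 2) ≤ (e.1 i - e.1 j) ^ 2 := by
          rw [h7, mul_pow]
          have h11 : 1 / (4 * R ^ 2) = 1 / R ^ 2 * (1 / 2) ^ 2 := by
            field_simp; norm_num
          rw [h11]
          exact mul_le_mul h9 h8 (by positivity) (by positivity)
        have := sq_nonneg (f.1 i - f.1 j)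
        linarith)
      have h6 := B9_shift B hs1 hs2 e f ‖x‖ b ‖f'‖
      rw [← hxe, ← hff, ← hwd] at h6
      rw [h6, abs_mul, abs_of_nonneg (by positivity : (0 : ℝ) ≤ ‖x‖ ^ 2 * ‖f'‖ ^ 2)]
      have h12 : ‖x‖ ^ 2 ≤ R ^ 2 := pow_le_pow_left₀ hxn.le hxR 2
      have h13 : ‖f'‖ ^ 2 ≤ 1 := pow_le_one₀ (norm_nonneg _) hf'n
      have h14 : ‖x‖ ^ 2 * ‖f'‖ ^ 2 ≤ R ^ 2 * 1 := mul_le_mul h12 h13 (by positivity) (by positivity)
      rw [mul_one] at h14
      exact mul_le_mul h14 hg (abs_nonneg _) (by positivity)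
  have hcoord : ∀ k : Fin n, |v.1 k| ≤ 1 := fun k => by
    have h1 := PiLp.norm_apply_le v.1 k
    rw [Real.norm_eq_abs] at h1
    exact h1.trans hv
  have hclose : ∀ t : ℝ, |t| ≤ 1 / 4 → |B9Q B (x0 + t • v) w| ≤ R ^ 2 * σ := by
    intro t ht
    apply key
    · refine (norm_add_le _ _).trans ?_
      rw [norm_smul, Real.norm_eq_abs, hR]
      have : |t| * ‖v‖ ≤ 1 / 4 * 1 := mul_le_mul ht hv (norm_nonneg _) (by norm_num)
      linarith
    · intro i j hij
      have e1 : (x0 + t • v).1 i - (x0 + t • v).1 j =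
          (x0.1 i - x0.1 j) + t * (v.1 i - v.1 j) := by
        have e2 : (x0 + t • v).1 i = x0.1 i + t * v.1 i := rfl
        have e3 : (x0 + t • v).1 j = x0.1 j + t * v.1 j := rfl
        rw [e2, e3]; ring
      rw [e1]
      have h1 := hx0 i j hij
      have h2 : |t * (v.1 i - v.1 j)| ≤ 1 / 2 := by
        rw [abs_mul]
        have h3 : |v.1 i - v.1 j| ≤ 2 := by
          have := abs_sub (v.1 i) (v.1 j)
          have := hcoord i
          have := hcoord j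
          linarith
        have : |t| * |v.1 i - v.1 j| ≤ 1 / 4 * 2 := mul_le_mul ht h3 (abs_nonneg _) (by norm_num)
        linarith
      have h4 := abs_sub_abs_le_abs_add (x0.1 i - x0.1 j) (t * (v.1 i - v.1 j))
      linarith
  have h1 := hclose (1 / 4) (by norm_num)
  have h2 := hclose (-(1 / 4)) (by norm_num)
  have h3 := hclose 0 (by norm_num)
  rw [zero_smul, add_zero] at h3
  have h4 := B9_quad B x0 v w (1 / 4)
  have h5 : B9Q B v w = 8 * (B9Q B (x0 + (1 / 4 : ℝ) • v) w + B9Q B (x0 + (-(1 / 4 : ℝ)) • v) w -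
      2 * B9Q B x0 w) := by
    rw [h4]; ring
  change |B9Q B v w| ≤ 32 * R ^ 2 * σ
  rw [h5, abs_le]
  rw [abs_le] at h1 h2 h3
  constructor <;> nlinarith

end FL27
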