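import Pool.Agent.LibFL27.B5
import Pool.Agent.LibFL27.B6a
import Pool.Agent.LibFL27.B6b
import Pool.Agent.LibFL27.B6c
import Pool.Agent.LibFL27.B7
import Pool.Agent.LibFL27.B8a
import Pool.Agent.LibFL27.B8b
import Pool.Agent.LibFL27.B9
import Pool.Agent.LibFL27.B0

set_option autoImplicit false
set_option maxSynthPendingDepth 3

open Matrix MeasureTheory Topology Filter LibNC38
open LibNC27 hiding Mt
open scoped Matrix.Norms.Elementwise

namespace FL27

theorem B10_bd_mono {n : ℕ} (k : ℕ) (M : ℝ) : ∀ F : Fn n, BD (k + 1) M F → BD k M F := by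
  induction k with
  | zero => exact fun F h => h.1
  | succ k ih =>
    intro F h
    refine ⟨h.1, fun x hx hx1 => ?_⟩
    obtain ⟨F', h1, h2⟩ := h.2 x hx hx1
    exact ⟨F', h1, ih F' h2⟩

theorem B10_tb {n : ℕ} (δ : ℝ) (κ : PD n → Fm n) (h : TB 6 δ κ) : TB 4 δ κ := fun v w hv hw hv1 hw1 =>
  B10_bd_mono 4 δ _ (B10_bd_mono 5 δ _ (h v w hv hw hv1 hw1))

theorem B10_bd_smul {n : ℕ} (k : ℕ) (a M : ℝ) : ∀ F : Fn n, BD k M F →
    BD k (|a| * M) (fun g => a * F g) := by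
  have h0 : ∀ F : Fn n, (Continuous F ∧ ∀ g, |F g| ≤ M) →
      (Continuous (fun g => a * F g) ∧ ∀ g, |a * F g| ≤ |a| * M) := fun F h =>
    ⟨continuous_const.mul h.1, fun g => by
      rw [abs_mul]
      exact mul_le_mul_of_nonneg_left (h.2 g) (abs_nonneg a)⟩
  induction k with
  | zero => exact fun F h => h0 F h
  | succ k ih =>
    intro F h
    refine ⟨h0 F h.1, fun x hx hx1 => ?_⟩
    obtain ⟨F', h1, h2⟩ := h.2 x hx hx1
    exact ⟨fun g => a * F' g, fun c hc => (h1 c hc).const_mul a, ih F' h2⟩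

theorem B10_bd_add {n : ℕ} (k : ℕ) (M M' : ℝ) : ∀ F G : Fn n, BD k M F → BD k M' G →
    BD k (M + M') (fun g => F g + G g) := by
  have h0 : ∀ F G : Fn n, (Continuous F ∧ ∀ g, |F g| ≤ M) → (Continuous G ∧ ∀ g, |G g| ≤ M') →
      (Continuous (fun g => F g + G g) ∧ ∀ g, |F g + G g| ≤ M + M') := fun F G h h' =>
    ⟨h.1.add h'.1, fun g => (abs_add_le _ _).trans (add_le_add (h.2 g) (h'.2 g))⟩
  induction k with
  | zero => exact fun F G h h' => h0 F G h h'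
  | succ k ih =>
    intro F G h h'
    refine ⟨h0 F G h.1 h'.1, fun x hx hx1 => ?_⟩
    obtain ⟨F', h1, h2⟩ := h.2 x hx hx1
    obtain ⟨G', h1', h2'⟩ := h'.2 x hx hx1
    exact ⟨fun g => F' g + G' g, fun c hc => (h1 c hc).add (h1' c hc), ih F' G' h2 h2'⟩

theorem B10_norm {n : ℕ} (e f : V0 n) (he : ‖e‖ = 1) (hf : ‖f‖ = 1) (hef : inner ℝ e f = 0) (a b : ℝ) :
    ‖a • e + b • f‖ = √ (a ^ 2 + b ^ 2) := by
  have h1 : ‖a • e + b • f‖ ^ 2 = a ^ 2 + b ^ 2 := by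
    rw [norm_add_sq_real, inner_smul_left, inner_smul_right, hef, norm_smul, norm_smul, he, hf]
    simp
  rw [← h1, Real.sqrt_sq (norm_nonneg _)]

theorem B10_dgm0 {n : ℕ} : dgm (0 : V0 n) = 1 := by
  apply Subtype.ext
  show Matrix.diagonal (fun i => Real.exp ((0 : V0 n).1 i)) = 1
  rw [← Matrix.diagonal_one]
  congr 1
  funext i
  have : (0 : V0 n).1 i = 0 := rfl
  rw [this, Real.exp_zero]

theorem B10_norm_F {n : ℕ} (Γ : Subgroup (SL n)) (A : ℝ) (hA : 0 < A)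
    (J2 : Mt n →ₗ[ℝ] Mt n →ₗ[ℝ] Mt n →ₗ[ℝ] Mt n →ₗ[ℝ] Fn n) (e f : V0 n)
    (h1 : LB Γ A (J2 (dM f) (dM f) (dM e) (dM e)) ∧ BD 1 A (J2 (dM f) (dM f) (dM e) (dM e)))
    (h2 : LB Γ A (J2 (dM f) (dM e) (dM e) (dM f)) ∧ BD 1 A (J2 (dM f) (dM e) (dM e) (dM f)))
    (h3 : LB Γ A (J2 (dM e) (dM e) (dM f) (dM f)) ∧ BD 1 A (J2 (dM e) (dM e) (dM f) (dM f))) :
    LB Γ 1 (fun g => 1 / (4 * A) * Kf J2 e f g) ∧ BD 1 1 (fun g => 1 / (4 * A) * Kf J2 e f g) := by
  obtain ⟨-, -, -, -, -, -, -, hm, ha⟩ := HB_facts Γ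
  have e1 : (fun g => 1 / (4 * A) * Kf J2 e f g) = fun g => 1 / (4 * A) *
      ((J2 (dM f) (dM f) (dM e) (dM e) g + (-2) * J2 (dM f) (dM e) (dM e) (dM f) g) +
        J2 (dM e) (dM e) (dM f) (dM f) g) := by
    funext g
    unfold Kf
    ring
  have e2 : |1 / (4 * A)| * ((A + |(-2 : ℝ)| * A) + A) = 1 := by
    have h4 : |(-2 : ℝ)| = 2 := by norm_num
    rw [abs_of_pos (by positivity), h4]
    field_simp
    norm_num
  rw [e1]
  constructor
  · have := hm _ _ (1 / (4 * A)) (ha _ _ _ _ (ha _ _ _ _ h1.1 (hm _ _ (-2) h2.1)) h3.1)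
    rw [e2] at this
    exact this
  · have := B10_bd_smul 1 (1 / (4 * A)) _ _ (B10_bd_add 1 _ _ _ _ (B10_bd_add 1 _ _ _ _ h1.2
      (B10_bd_smul 1 (-2) _ _ h2.2)) h3.2)
    rw [e2] at this
    exact this

theorem B10_flat {n : ℕ} (hn : 3 ≤ n) : ∃ c C : ℝ, 0 < c ∧ 0 < C ∧ ∀ (Γ : Subgroup (SL n)), Coc Γ →
    ∀ (J : Mt n →ₗ[ℝ] Mt n →ₗ[ℝ] Fn n)
      (J1 : Mt n →ₗ[ℝ] Mt n →ₗ[ℝ] Mt n →ₗ[ℝ] Fn n)
      (J2 : Mt n →ₗ[ℝ] Mt n →ₗ[ℝ] Mt n →ₗ[ℝ] Mt n →ₗ[ℝ] Fn n), Jm Γ J J1 J2 → ∀ σ : ℝ, 0 ≤ σ →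
      (∀ e f : V0 n, ‖e‖ = 1 → ‖f‖ = 1 → inner ℝ e f = 0 →
        (∀ i j : Fin n, i ≠ j → c ≤ (e.1 i - e.1 j) ^ 2 + (f.1 i - f.1 j) ^ 2) → ∀ g : SL n,
        |Kf J2 e f g| ≤ σ) → FlatQ (C * σ) J2 := by
  obtain ⟨c, C, hc, hC, H⟩ := generic hn
  refine ⟨c, C, hc, hC, fun Γ hco J J1 J2 HJ σ hσ hK v w hv hw g => ?_⟩
  obtain ⟨A, A1, A2, -, -, hA2, HA⟩ := ab_of_jm Γ hco J J1 J2 HJ
  let ev : Fn n →ₗ[ℝ] ℝ := LinearMap.proj g
  let B : V0 n →ₗ[ℝ] V0 n →ₗ[ℝ] V0 n →ₗ[ℝ] V0 n →ₗ[ℝ] ℝ :=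
    (LinearMap.compRight ℝ (LinearMap.compRight ℝ (LinearMap.compRight ℝ ev))) ∘ₗ A2
  have hB : ∀ x y v w, B x y v w = J2 (dM x) (dM y) (dM v) (dM w) g := by
    intro x y v w
    show A2 x y v w g = _
    rw [hA2]
  have h1 := H B σ hσ
    (by
      intro x y v w
      show A2 x y v w g = A2 y x v w g
      rw [HA.com2])
    (by
      intro x y v w
      show A2 x y v w g = A2 x y w v g
      rw [HA.sym2])
    (by
      intro e f he hf hef hreg
      have := hK e f he hf hef hreg g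
      simp only [hB]
      exact this) v w hv hw
  simp only [hB] at h1
  exact h1

/-- Row B10. Board B: `T = δ^(-a)`, `η = T^(-1/4)`, `F = Kf/(C δ)`, rows B5-B9. -/
theorem B_main (hA : AStat) (hM : MStat) : BStat := by
  intro n hn Γ hd hco
  obtain ⟨ν, Km, c, HM⟩ := hM n hn Γ hd hco
  have hc : 0 < c := HM.pos
  obtain ⟨C5, a5, hC5, ha5, H5⟩ := avg_K hA hM hn Γ hd hco
  obtain ⟨C0, hC0, H0⟩ := jm_bounds n
  obtain ⟨C6, hC6, H6⟩ := Cor_facts Γ hco ν Km c HM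
  obtain ⟨C8, b8, hC8, hb8, H8⟩ := sup_of_sq Γ hco ν Km c HM
  obtain ⟨c9, C9, hc9, hC9, H9⟩ := B10_flat hn
  obtain ⟨Ca, hCa, Ha⟩ := bad_dir (n := n) c9 hc9
  set K7 : ℝ := C6 + Ca + 4 * C5 ^ 2 with hK7
  have hK7p : 0 < K7 := by positivity
  have hK76 : C6 ≤ K7 := by
    have := sq_nonneg C5
    linarith
  have hK7a : Ca ≤ K7 := by
    have := sq_nonneg C5
    linarith
  have hK75 : 4 * C5 ^ 2 ≤ K7 := by linarith
  clear_value K7
  obtain ⟨C7, b7, hC7, hb7, H7⟩ := plane_small K7 c hK7p hc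
  set D : ℝ := 4 * C0 * C8 * C7 ^ b8 * C9 with hD
  have hDp : 0 < D := by positivity
  set E : ℝ := (16 * C5 ^ 2) ^ (1 / a5) with hE
  have hEp : 0 < E := by positivity
  refine ⟨C5 + E + D, a5 * b7 * b8, by positivity, by positivity, ?_⟩
  intro h δ hδ hCδ HN J J1 J2 HJ hJ
  have h5δ : C5 * δ ≤ 1 := by nlinarith
  have hEδ : E * δ ≤ 1 := by nlinarith
  have hA0 : 0 < C0 * δ := by positivity
  -- the scale
  set T : ℝ := δ ^ (-a5) with hT
  have hT0 : 0 < T := by positivity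
  have hT16 : 16 * C5 ^ 2 ≤ T := by
    have h1 : E ≤ δ⁻¹ := by
      rw [← one_div, le_div_iff₀ hδ]
      exact hEδ
    have h2 : E ^ a5 ≤ (δ⁻¹) ^ a5 := Real.rpow_le_rpow hEp.le h1 ha5.le
    have h3 : E ^ a5 = 16 * C5 ^ 2 := by
      rw [hE, ← Real.rpow_mul (by positivity), one_div, inv_mul_cancel₀ ha5.ne', Real.rpow_one]
    rw [h3, Real.inv_rpow hδ.le, ← Real.rpow_neg hδ.le] at h2
    exact h2
  have hC5sq : 1 ≤ C5 ^ 2 := by nlinarith
  have hT2 : 2 ≤ T := by linarith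
  have hT1 : 1 ≤ T := by linarith
  set η : ℝ := T ^ (-(1 / 4) : ℝ) with hη
  have hηp : 0 < η := by positivity
  have hη1 : η ≤ 1 := by
    rw [hη]
    exact Real.rpow_le_one_of_one_le_of_nonpos hT1 (by norm_num)
  have hηT : η * T = T ^ (3 / 4 : ℝ) := by
    have : T ^ (-(1 / 4) : ℝ) * T ^ (1 : ℝ) = T ^ (3 / 4 : ℝ) := by
      rw [← Real.rpow_add hT0]
      norm_num
    rwa [Real.rpow_one] at this
  have hηi : 1 / η = T ^ (1 / 4 : ℝ) := by
    rw [hη, Real.rpow_neg hT0.le, one_div, inv_inv]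
  have hlog : Real.log T ≤ 4 * T ^ (1 / 4 : ℝ) := by
    have := Real.log_le_rpow_div hT0.le (show (0 : ℝ) < 1 / 4 by norm_num)
    calc Real.log T ≤ T ^ (1 / 4 : ℝ) / (1 / 4) := this
      _ = _ := by ring
  have hq : (T ^ (1 / 4 : ℝ)) ^ 2 = T ^ (1 / 2 : ℝ) := by
    rw [← Real.rpow_natCast, ← Real.rpow_mul hT0.le]
    norm_num
  have hh : T ^ (1 / 4 : ℝ) * T ^ (1 / 2 : ℝ) = T ^ (3 / 4 : ℝ) := by
    rw [← Real.rpow_add hT0]
    norm_num
  have hhalf : 4 * C5 ≤ T ^ (1 / 2 : ℝ) := by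
    rw [← Real.sqrt_eq_rpow]
    refine Real.le_sqrt_of_sq_le ?_
    nlinarith
  have hq1 : 1 ≤ T ^ (1 / 4 : ℝ) := Real.one_le_rpow hT1 (by norm_num)
  have hq0 : 0 < T ^ (1 / 4 : ℝ) := by linarith
  have hr1 : C5 * Real.log T ≤ η * T := by
    rw [hηT, ← hh]
    nlinarith
  have hr2 : C5 ≤ η * T := by
    rw [hηT, ← hh]
    nlinarith
  have h34 : T ^ (1 / 2 : ℝ) ≤ T ^ (3 / 4 : ℝ) :=
    Real.rpow_le_rpow_of_exponent_le hT1 (by norm_num)
  -- the tensor
  have hκ : FmOK Γ (fun p => h p - gF p) := by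
    have h1 := fmOK_add Γ _ _ HN.ok (fmOK_smul Γ _ (fmOK_gF Γ) (-1))
    have e : (fun p => h p + (-1 : ℝ) • gF p) = fun p => h p - gF p := by
      funext p
      module
    rw [e] at h1
    exact h1
  have hjm := H0 Γ (fun p => h p - gF p) δ hδ.le hκ (B10_tb δ _ HN.tb) J J1 J2 HJ hJ
  -- the generic planes
  set σ : ℝ := 4 * (C0 * δ) * (C8 * (C7 * T ^ (-b7)) ^ b8) with hσ
  have hσ0 : 0 ≤ σ := by positivity
  have key : ∀ e f : V0 n, ‖e‖ = 1 → ‖f‖ = 1 → inner ℝ e f = 0 →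
      (∀ i j : Fin n, i ≠ j → c9 ≤ (e.1 i - e.1 j) ^ 2 + (f.1 i - f.1 j) ^ 2) → ∀ g : SL n,
      |Kf J2 e f g| ≤ σ := by
    intro e f he hf hef hreg
    have he2 : ‖e‖ ≤ 2 := by rw [he]; norm_num
    have hf2 : ‖f‖ ≤ 2 := by rw [hf]; norm_num
    set F : Fn n := fun g => 1 / (4 * (C0 * δ)) * Kf J2 e f g with hF
    obtain ⟨hLB, hBD⟩ := B10_norm_F Γ (C0 * δ) hA0 J2 e f
      ⟨(hjm f f e e hf2 hf2 he2 he2).2.2.1, (hjm f f e e hf2 hf2 he2 he2).2.2.2⟩
      ⟨(hjm f e e f hf2 he2 he2 hf2).2.2.1, (hjm f e e f hf2 he2 he2 hf2).2.2.2⟩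
      ⟨(hjm e e f f he2 he2 hf2 hf2).2.2.1, (hjm e e f f he2 he2 hf2 hf2).2.2.2⟩
    have hmean : @integral (SL n) ℝ _ _ (borel (SL n)) ν F = 0 := by
      have h1 := mean_K Γ hco ν Km c HM J J1 J2 HJ e f
      have h2 : @integral (SL n) ℝ _ _ (borel (SL n)) ν F =
          1 / (4 * (C0 * δ)) * @integral (SL n) ℝ _ _ (borel (SL n)) ν (Kf J2 e f) :=
        integral_const_mul _ _
      rw [h2, h1, mul_zero]
    obtain ⟨hdec, hlip⟩ := H6 F hLB hBD hmean
    have hcont : Continuous (Cor ν F) := by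
      have : LipschitzWith ⟨C6, by linarith⟩ (Cor ν F) := by
        refine LipschitzWith.of_dist_le_mul fun y y' => ?_
        rw [Real.dist_eq, dist_eq_norm]
        exact hlip y y'
      exact this.continuous
    have hnorm := B10_norm e f he hf hef
    have hsq := H7 (fun a b => Cor ν F (a • e + b • f)) T
      {φ : ℝ | ∃ i j : Fin n, i ≠ j ∧
        |(Real.cos φ • e + Real.sin φ • f : V0 n).1 i -
          (Real.cos φ • e + Real.sin φ • f : V0 n).1 j| < η}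
      (by
        have : Continuous fun x : ℝ × ℝ => x.1 • e + x.2 • f := by fun_prop
        exact hcont.comp this) hT2
      (by
        intro a b
        have h1 := hdec (a • e + b • f)
        rw [hnorm] at h1
        exact h1.trans (mul_le_mul_of_nonneg_right hK76 (Real.exp_pos _).le))
      (by
        intro a b
        have h1 := hlip (a • e + b • f) ((0 : ℝ) • e + (0 : ℝ) • f)
        have h2 : a • e + b • f - ((0 : ℝ) • e + (0 : ℝ) • f) = a • e + b • f := by module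
        rw [h2, hnorm] at h1
        exact h1.trans (mul_le_mul_of_nonneg_right hK76 (Real.sqrt_nonneg _)))
      (Ha e f η hηp hreg).1
      (by
        refine (Ha e f η hηp hreg).2.trans (ENNReal.ofReal_le_ofReal ?_)
        exact mul_le_mul_of_nonneg_right hK7a hηp.le)
      (by
        intro φ hφ hφS p
        have hreg' : ∀ i j : Fin n, i ≠ j → η ≤ |(Real.cos φ • e + Real.sin φ • f : V0 n).1 i -
            (Real.cos φ • e + Real.sin φ • f : V0 n).1 j| := by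
          intro i j hij
          by_contra hcon
          exact hφS ⟨i, j, hij, not_le.1 hcon⟩
        have h5 := H5 h δ hδ h5δ HN J J1 J2 HJ hJ e f φ η T he hf hef hηp hη1 hreg' hT2 (le_refl _)
          hr1 hr2
        have hB : ∀ g : SL n,
            |∫ s in (0 : ℝ)..T, F (g * dgm (s • (Real.cos φ • e + Real.sin φ • f : V0 n)))| ≤
              2 * C5 * T ^ (1 / 4 : ℝ) := by
          intro g
          have e1 : (∫ s in (0 : ℝ)..T, F (g * dgm (s • (Real.cos φ • e + Real.sin φ • f : V0 n)))) =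
              1 / (4 * (C0 * δ)) * ∫ s in (0 : ℝ)..T,
                Kf J2 e f (g * dgm (s • (Real.cos φ • e + Real.sin φ • f : V0 n))) :=
            intervalIntegral.integral_const_mul _ _
          rw [e1, abs_mul, abs_of_pos (by positivity)]
          calc _ ≤ 1 / (4 * (C0 * δ)) * (C5 * δ * (Real.log T + 1 / η)) :=
                mul_le_mul_of_nonneg_left (h5 g) (by positivity)
            _ = C5 * (Real.log T + T ^ (1 / 4 : ℝ)) / (4 * C0) := by
                rw [hηi]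
                field_simp
            _ ≤ C5 * (8 * T ^ (1 / 4 : ℝ)) / (4 * C0) := by
                refine div_le_div_of_nonneg_right ?_ (by positivity)
                refine mul_le_mul_of_nonneg_left ?_ (by linarith)
                linarith
            _ ≤ 2 * C5 * T ^ (1 / 4 : ℝ) := by
                rw [div_le_iff₀ (by positivity)]
                have : 0 ≤ C5 * T ^ (1 / 4 : ℝ) := by positivity
                nlinarith
        have h6 := Cor_line Γ hco ν Km c HM F hLB (Real.cos φ • e + Real.sin φ • f)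
          (p • (-Real.sin φ • e + Real.cos φ • f)) T (2 * C5 * T ^ (1 / 4 : ℝ)) hT0 hB
        have e2 : ∀ s : ℝ, (s * Real.cos φ - p * Real.sin φ) • e +
            (s * Real.sin φ + p * Real.cos φ) • f =
            p • (-Real.sin φ • e + Real.cos φ • f) + s • (Real.cos φ • e + Real.sin φ • f) := by
          intro s
          module
        simp only [e2]
        refine h6.trans ?_
        have e3 : (2 * C5 * T ^ (1 / 4 : ℝ)) ^ 2 = 4 * C5 ^ 2 * T ^ (1 / 2 : ℝ) := by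
          rw [mul_pow, hq]
          ring
        rw [e3]
        exact mul_le_mul hK75 h34 (by positivity) hK7p.le)
    have hsq' : @integral (SL n) ℝ _ _ (borel (SL n)) ν (fun g => F g * F g) ≤ C7 * T ^ (-b7) := by
      have h1 : Cor ν F ((0 : ℝ) • e + (0 : ℝ) • f) =
          @integral (SL n) ℝ _ _ (borel (SL n)) ν (fun g => F g * F g) := by
        have h2 : (0 : ℝ) • e + (0 : ℝ) • f = (0 : V0 n) := by module
        rw [h2]
        unfold Cor
        rw [B10_dgm0]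
        simp only [mul_one]
      rw [← h1]
      exact (le_abs_self _).trans hsq
    intro g
    have h8 := H8 F (C7 * T ^ (-b7)) hLB hsq' g
    have e4 : Kf J2 e f g = 4 * (C0 * δ) * F g := by
      rw [hF]
      field_simp
    rw [e4, abs_mul, abs_of_pos (by positivity : (0 : ℝ) < 4 * (C0 * δ)), hσ]
    exact mul_le_mul_of_nonneg_left h8 (by positivity)
  have hfl := H9 Γ hco J J1 J2 HJ σ hσ0 key
  have hfin : C9 * σ ≤ (C5 + E + D) * δ * δ ^ (a5 * b7 * b8) := by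
    have e5 : (C7 * T ^ (-b7)) ^ b8 = C7 ^ b8 * δ ^ (a5 * b7 * b8) := by
      rw [Real.mul_rpow hC7.le (by positivity), hT, ← Real.rpow_mul hδ.le, ← Real.rpow_mul hδ.le]
      congr 2
      ring
    rw [hσ, e5]
    have e6 : C9 * (4 * (C0 * δ) * (C8 * (C7 ^ b8 * δ ^ (a5 * b7 * b8)))) =
        D * (δ * δ ^ (a5 * b7 * b8)) := by
      rw [hD]
      ring
    rw [e6]
    have h1 : 0 ≤ δ * δ ^ (a5 * b7 * b8) := by positivity
    have h2 : (C5 + E + D) * δ * δ ^ (a5 * b7 * b8) = (C5 + E + D) * (δ * δ ^ (a5 * b7 * b8)) := by ring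
    rw [h2]
    exact mul_le_mul_of_nonneg_right (by linarith) h1
  intro v w hv hw g
  exact (hfl v w hv hw g).trans hfin

end FL27
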