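import Pool.Agent.LibFL27.DefsB

set_option autoImplicit false
set_option maxSynthPendingDepth 3

open Matrix MeasureTheory Topology Filter LibNC38
open LibNC27 hiding Mt
open scoped Matrix.Norms.Elementwise

namespace FL27

private theorem B2a_lu (n : ℕ) : ∃ δ0 C : ℝ, 0 < δ0 ∧ 1 ≤ C ∧
    ∀ (A : Matrix (Fin n) (Fin n) ℝ) (δ : ℝ), (∀ i j, |A i j - (1 : Matrix (Fin n) (Fin n) ℝ) i j| ≤ δ) →
      δ ≤ δ0 → ∃ (L U : Matrix (Fin n) (Fin n) ℝ) (d : Fin n → ℝ), A = L * diagonal d * U ∧
      (∀ i j : Fin n, i < j → L i j = 0) ∧ (∀ i, L i i = 1) ∧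
      (∀ i j : Fin n, j < i → U i j = 0) ∧ (∀ i, U i i = 1) ∧
      (∀ i j, |L i j - (1 : Matrix (Fin n) (Fin n) ℝ) i j| ≤ C * δ) ∧
      (∀ i j, |U i j - (1 : Matrix (Fin n) (Fin n) ℝ) i j| ≤ C * δ) ∧
      (∀ i, |d i - 1| ≤ C * δ) := by
  induction n with
  | zero =>
    refine ⟨1, 1, one_pos, le_rfl, fun A δ _ _ => ⟨1, 1, fun _ => 1, ?_, ?_, ?_, ?_, ?_, ?_, ?_, ?_⟩⟩
    · ext i; exact i.elim0
    all_goals exact fun i => i.elim0
  | succ n ih =>
    obtain ⟨δ0, C, hδ0, hC, H⟩ := ih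
    refine ⟨min (1 / 2) (δ0 / 2), 2 * C, lt_min (by norm_num) (by positivity), by linarith, ?_⟩
    intro A δ hA hδ
    have hδh : δ ≤ 1 / 2 := hδ.trans (min_le_left _ _)
    have hδ2 : δ ≤ δ0 / 2 := hδ.trans (min_le_right _ _)
    have hδnn : 0 ≤ δ := (abs_nonneg _).trans (hA 0 0)
    have ha := hA 0 0
    rw [one_apply_eq] at ha
    have ha2 := abs_le.1 ha
    have ha0 : 1 / 2 ≤ A 0 0 := by linarith [ha2.1]
    have hapos : 0 < A 0 0 := by linarith
    have hb : ∀ j : Fin n, |A 0 j.succ| ≤ δ := by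
      intro j
      have := hA 0 j.succ
      rwa [one_apply_ne (Fin.succ_ne_zero j).symm, sub_zero] at this
    have hc : ∀ i : Fin n, |A i.succ 0| ≤ δ := by
      intro i
      have := hA i.succ 0
      rwa [one_apply_ne (Fin.succ_ne_zero i), sub_zero] at this
    have hdiv : ∀ x : ℝ, |x| ≤ δ → |x / A 0 0| ≤ 2 * δ := by
      intro x hx
      rw [abs_div, abs_of_pos hapos, div_le_iff₀ hapos]
      nlinarith
    obtain ⟨L', U', d', hLU, hL1, hL2, hU1, hU2, hL3, hU3, hd⟩ :=
      H (Matrix.of fun i j => A i.succ j.succ - A i.succ 0 * A 0 j.succ / A 0 0) (2 * δ) (by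
        intro i j
        have h1 := hA i.succ j.succ
        have h2 : (1 : Matrix (Fin (n + 1)) (Fin (n + 1)) ℝ) i.succ j.succ =
            (1 : Matrix (Fin n) (Fin n) ℝ) i j := by
          rw [one_apply, one_apply]
          simp only [Fin.succ_inj]
        rw [h2] at h1
        have h3 : |A i.succ 0 * A 0 j.succ / A 0 0| ≤ δ := by
          rw [mul_div_assoc, abs_mul]
          have h4 := hdiv _ (hb j)
          calc |A i.succ 0| * |A 0 j.succ / A 0 0| ≤ δ * (2 * δ) :=
                mul_le_mul (hc i) h4 (abs_nonneg _) hδnn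
            _ ≤ δ := by nlinarith
        show |A i.succ j.succ - A i.succ 0 * A 0 j.succ / A 0 0 -
          (1 : Matrix (Fin n) (Fin n) ℝ) i j| ≤ 2 * δ
        rw [abs_le] at h1 h3 ⊢
        constructor <;> linarith [h1.1, h1.2, h3.1, h3.2]) (by linarith)
    have hCδ : 2 * δ ≤ 2 * C * δ := by nlinarith
    have hCδ0 : 0 ≤ 2 * C * δ := by positivity
    refine ⟨Matrix.of (Fin.cons (Fin.cons 1 fun _ => 0) fun i => Fin.cons (A i.succ 0 / A 0 0) (L' i)),
      Matrix.of (Fin.cons (Fin.cons 1 fun j => A 0 j.succ / A 0 0) fun i => Fin.cons 0 (U' i)),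
      Fin.cons (A 0 0) d', ?_, ?_, ?_, ?_, ?_, ?_, ?_, ?_⟩
    · ext i j
      rw [Matrix.mul_apply, Fin.sum_univ_succ]
      refine Fin.cases ?_ (fun i => ?_) i <;> refine Fin.cases ?_ (fun j => ?_) j
      · simp [Matrix.mul_diagonal]
      · simp [Matrix.mul_diagonal]
        field_simp
      · simp [Matrix.mul_diagonal]
        field_simp
      · have h1 := congrFun (congrFun hLU i) j
        rw [Matrix.mul_apply] at h1
        simp only [Matrix.mul_diagonal, Matrix.of_apply] at h1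
        simp only [Matrix.mul_diagonal, Matrix.of_apply, Fin.cons_succ, Fin.cons_zero]
        rw [← h1]
        field_simp
        ring
    · intro i j
      refine Fin.cases ?_ (fun i => ?_) i <;> refine Fin.cases ?_ (fun j => ?_) j
      · simp
      · simp
      · simp
      · intro h; simpa using hL1 i j (by simpa using h)
    · intro i
      refine Fin.cases ?_ (fun i => ?_) i
      · simp
      · simpa using hL2 i
    · intro i j
      refine Fin.cases ?_ (fun i => ?_) i <;> refine Fin.cases ?_ (fun j => ?_) j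
      · simp
      · simp
      · simp
      · intro h; simpa using hU1 i j (by simpa using h)
    · intro i
      refine Fin.cases ?_ (fun i => ?_) i
      · simp
      · simpa using hU2 i
    · intro i j
      refine Fin.cases ?_ (fun i => ?_) i <;> refine Fin.cases ?_ (fun j => ?_) j
      · simpa using hCδ0
      · rw [one_apply_ne (Fin.succ_ne_zero j).symm]; simpa using hCδ0
      · rw [one_apply_ne (Fin.succ_ne_zero i)]; simpa using (hdiv _ (hc i)).trans hCδ
      · have h2 : (1 : Matrix (Fin (n + 1)) (Fin (n + 1)) ℝ) i.succ j.succ =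
            (1 : Matrix (Fin n) (Fin n) ℝ) i j := by
          rw [one_apply, one_apply]
          simp only [Fin.succ_inj]
        rw [h2]
        have := hL3 i j
        simp only [Matrix.of_apply, Fin.cons_succ]
        linarith
    · intro i j
      refine Fin.cases ?_ (fun i => ?_) i <;> refine Fin.cases ?_ (fun j => ?_) j
      · simpa using hCδ0
      · rw [one_apply_ne (Fin.succ_ne_zero j).symm]; simpa using (hdiv _ (hb j)).trans hCδ
      · rw [one_apply_ne (Fin.succ_ne_zero i)]; simpa using hCδ0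
      · have h2 : (1 : Matrix (Fin (n + 1)) (Fin (n + 1)) ℝ) i.succ j.succ =
            (1 : Matrix (Fin n) (Fin n) ℝ) i j := by
          rw [one_apply, one_apply]
          simp only [Fin.succ_inj]
        rw [h2]
        have := hU3 i j
        simp only [Matrix.of_apply, Fin.cons_succ]
        linarith
    · intro i
      refine Fin.cases ?_ (fun i => ?_) i
      · rw [Fin.cons_zero]
        have h5 : δ ≤ 2 * C * δ := by nlinarith
        exact ha.trans h5
      · rw [Fin.cons_succ]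
        have := hd i
        linarith

private theorem B2a_le {n : ℕ} (q : SL n) (r : ℝ) (hr : 0 ≤ r)
    (h : ∀ i j, |q.1 i j - (1 : Matrix (Fin n) (Fin n) ℝ) i j| ≤ r) : dE q ≤ r := by
  rw [dE, Matrix.norm_le_iff hr]
  intro i j
  rw [Real.norm_eq_abs, Matrix.sub_apply]
  exact h i j

private theorem B2a_ge {n : ℕ} (q : SL n) (i j : Fin n) :
    |q.1 i j - (1 : Matrix (Fin n) (Fin n) ℝ) i j| ≤ dE q := by
  have h := Matrix.norm_entry_le_entrywise_sup_norm (q.1 - 1) (i := i) (j := j)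
  rw [Real.norm_eq_abs, Matrix.sub_apply] at h
  exact h

private theorem B2a_nn {n : ℕ} (q : SL n) : 0 ≤ dE q := norm_nonneg _

private theorem B2a_mul {n : ℕ} (X Y : Matrix (Fin n) (Fin n) ℝ) (a b : ℝ) (ha : 0 ≤ a) 
    (hX : ∀ i j, |X i j| ≤ a) (hY : ∀ i j, |Y i j| ≤ b) (i j : Fin n) :
    |(X * Y) i j| ≤ n * (a * b) := by
  rw [Matrix.mul_apply]
  refine (Finset.abs_sum_le_sum_abs _ _).trans ?_
  have h : ∀ k ∈ Finset.univ, |X i k * Y k j| ≤ a * b := by
    intro k _
    rw [abs_mul]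
    exact mul_le_mul (hX i k) (hY k j) (abs_nonneg _) ha
  refine (Finset.sum_le_card_nsmul _ _ _ h).trans (le_of_eq ?_)
  rw [Finset.card_univ, Fintype.card_fin, nsmul_eq_mul]

/-- Row B2a. LU decomposition near the identity and contraction of triangular matrices. -/
theorem lu_near (n : ℕ) : ∃ δ0 C : ℝ, 0 < δ0 ∧ 1 ≤ C ∧
    (∀ (v : SL n) (δ : ℝ), dE v ≤ δ → δ ≤ δ0 → ∃ (l p : SL n) (d : V0 n), v = l * dgm d * p ∧
      (∀ i j : Fin n, i < j → l.1 i j = 0) ∧ (∀ i, l.1 i i = 1) ∧
      (∀ i j : Fin n, j < i → p.1 i j = 0) ∧ (∀ i, p.1 i i = 1) ∧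
      dE l ≤ C * δ ∧ ‖d‖ ≤ C * δ ∧ dE p ≤ C * δ) ∧
    (∀ (l : SL n) (y : V0 n), (∀ i j : Fin n, i < j → l.1 i j = 0) →
      (∀ i j : Fin n, i < j → y.1 j ≤ y.1 i) → dE (dgm y * l * dgm (-y)) ≤ dE l) ∧
    (∀ (p : SL n) (y : V0 n), (∀ i j : Fin n, j < i → p.1 i j = 0) →
      (∀ i j : Fin n, i < j → y.1 j ≤ y.1 i) → dE (dgm (-y) * p * dgm y) ≤ dE p) ∧
    (∀ (q q' : SL n), dE q ≤ 1 → dE q' ≤ 1 → dE (q * q') ≤ C * (dE q + dE q') ∧
      (dE q ≤ δ0 → dE q⁻¹ ≤ C * dE q)) := by
  obtain ⟨δ1, C1, hδ1, hC1, H⟩ := B2a_lu n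
  have hn0 : (0 : ℝ) ≤ n := Nat.cast_nonneg n
  obtain ⟨δ0, hδ0def⟩ : ∃ δ0 : ℝ, δ0 = min δ1 (min (1 / (2 * C1)) (1 / (2 * (n + 1)))) := ⟨_, rfl⟩
  have hδ0 : 0 < δ0 := by
    rw [hδ0def]
    refine lt_min hδ1 (lt_min ?_ ?_) <;> positivity
  have hδ01 : δ0 ≤ δ1 := by rw [hδ0def]; exact min_le_left _ _
  have hδ02 : δ0 ≤ 1 / (2 * C1) := by
    rw [hδ0def]; exact (min_le_right _ _).trans (min_le_left _ _)
  have hδ03 : δ0 ≤ 1 / (2 * (n + 1)) := by
    rw [hδ0def]; exact (min_le_right _ _).trans (min_le_right _ _)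
  refine ⟨δ0, 2 * (n + 1) * C1 + 2, hδ0, by nlinarith, ?_, ?_, ?_, ?_⟩
  · intro v δ hv hδ
    have hδnn : 0 ≤ δ := (B2a_nn v).trans hv
    obtain ⟨L, U, d, hLU, hL1, hL2, hU1, hU2, hL3, hU3, hd⟩ :=
      H v.1 δ (fun i j => (B2a_ge v i j).trans hv) (hδ.trans hδ01)
    have hCδ : C1 * δ ≤ 1 / 2 := by
      have h1 : δ ≤ 1 / (2 * C1) := hδ.trans hδ02
      rw [le_div_iff₀ (by positivity)] at h1
      linarith
    have hCδ' : C1 * δ ≤ (2 * (n + 1) * C1 + 2) * δ := by nlinarith [mul_nonneg hn0 hδnn, mul_nonneg (mul_nonneg hn0 hδnn) (by linarith : 0 ≤ C1)]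
    have hCδnn : 0 ≤ (2 * (n + 1) * C1 + 2) * δ := by positivity
    have hdL : L.det = 1 := by
      rw [Matrix.det_of_lowerTriangular L (fun i j h => hL1 i j h)]
      exact Finset.prod_eq_one fun i _ => hL2 i
    have hdU : U.det = 1 := by
      rw [Matrix.det_of_upperTriangular (M := U) (fun i j h => hU1 i j h)]
      exact Finset.prod_eq_one fun i _ => hU2 i
    have hdpos : ∀ i, 0 < d i := by
      intro i
      have := (abs_le.1 (hd i)).1
      linarith
    have hprod : ∏ i, d i = 1 := by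
      have h1 := congrArg Matrix.det hLU
      rw [v.2, Matrix.det_mul, Matrix.det_mul, hdL, hdU, Matrix.det_diagonal, one_mul, mul_one] at h1
      exact h1.symm
    have hsum : ∑ i, Real.log (d i) = 0 := by
      rw [← Real.log_prod (fun i _ => (hdpos i).ne'), hprod, Real.log_one]
    refine ⟨⟨L, hdL⟩, ⟨U, hdU⟩, ⟨WithLp.toLp 2 fun i => Real.log (d i), hsum⟩, ?_, hL1, hL2, hU1, hU2,
      ?_, ?_, ?_⟩
    · apply Subtype.ext
      show v.1 = L * (Matrix.diagonal fun i => Real.exp (Real.log (d i))) * U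
      rw [hLU]
      congr 3
      funext i
      exact (Real.exp_log (hdpos i)).symm
    · exact B2a_le _ _ hCδnn fun i j => (hL3 i j).trans hCδ'
    · have hlog : ∀ i, |Real.log (d i)| ≤ 2 * (C1 * δ) := by
        intro i
        have h1 := abs_le.1 (hd i)
        have h2 : Real.log (d i) ≤ d i - 1 := Real.log_le_sub_one_of_pos (hdpos i)
        have h3 : 1 - (d i)⁻¹ ≤ Real.log (d i) := Real.one_sub_inv_le_log_of_pos (hdpos i)
        have h4 : -(2 * (C1 * δ)) ≤ 1 - (d i)⁻¹ := by
          have h5 : (d i)⁻¹ ≤ 1 + 2 * (C1 * δ) := by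
            rw [inv_le_comm₀ (hdpos i) (by positivity)]
            have h6 : (1 + 2 * (C1 * δ))⁻¹ ≤ 1 - C1 * δ := by
              rw [inv_le_iff_one_le_mul₀ (by positivity)]
              nlinarith [mul_nonneg (by linarith : 0 ≤ C1) hδnn]
            linarith [h1.1]
          linarith
        have h7 : 0 ≤ C1 * δ := by positivity
        rw [abs_le]
        constructor
        · linarith
        · linarith [h1.2]
      have h8 : ‖(WithLp.toLp 2 fun i => Real.log (d i) : EuclideanSpace ℝ (Fin n))‖ ≤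
          ∑ i, |Real.log (d i)| := by
        rw [EuclideanSpace.norm_eq]
        apply Real.sqrt_le_iff.2
        refine ⟨Finset.sum_nonneg fun i _ => abs_nonneg _, ?_⟩
        have h9 := Finset.sum_sq_le_sq_sum_of_nonneg (s := Finset.univ) (f := fun i => |Real.log (d i)|)
          (fun i _ => abs_nonneg _)
        simpa using h9
      show ‖(WithLp.toLp 2 fun i => Real.log (d i) : EuclideanSpace ℝ (Fin n))‖ ≤ _
      refine h8.trans ?_
      refine (Finset.sum_le_card_nsmul _ _ _ fun i _ => hlog i).trans ?_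
      rw [Finset.card_univ, Fintype.card_fin, nsmul_eq_mul]
      nlinarith [mul_nonneg (by linarith : 0 ≤ C1) hδnn]
    · exact B2a_le _ _ hCδnn fun i j => (hU3 i j).trans hCδ'
  · intro l y hl hy
    refine B2a_le _ _ (B2a_nn l) fun i j => ?_
    have e : (dgm y * l * dgm (-y)).1 i j = Real.exp (y.1 i) * l.1 i j * Real.exp (-(y.1 j)) := by
      show ((Matrix.diagonal fun i => Real.exp (y.1 i)) * l.1 *
        (Matrix.diagonal fun i => Real.exp ((-y).1 i))) i j = _
      rw [Matrix.mul_diagonal, Matrix.diagonal_mul]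
      rfl
    rw [e]
    refine le_trans ?_ (B2a_ge l i j)
    rcases lt_trichotomy i j with h | h | h
    · rw [hl i j h, one_apply_ne h.ne]
      simp
    · subst h
      have e1 : Real.exp (y.1 i) * l.1 i i * Real.exp (-(y.1 i)) = l.1 i i := by
        rw [Real.exp_neg]
        field_simp
      rw [e1]
    · rw [one_apply_ne h.ne', sub_zero, sub_zero]
      have e1 : Real.exp (y.1 i) * l.1 i j * Real.exp (-(y.1 j)) =
          Real.exp (y.1 i - y.1 j) * l.1 i j := by
        rw [sub_eq_add_neg, Real.exp_add]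
        ring
      rw [e1, abs_mul, abs_of_pos (Real.exp_pos _)]
      have h1 : Real.exp (y.1 i - y.1 j) ≤ 1 := Real.exp_le_one_iff.2 (by linarith [hy j i h])
      exact mul_le_of_le_one_left (abs_nonneg _) h1
  · intro p y hp hy
    refine B2a_le _ _ (B2a_nn p) fun i j => ?_
    have e : (dgm (-y) * p * dgm y).1 i j = Real.exp (-(y.1 i)) * p.1 i j * Real.exp (y.1 j) := by
      show ((Matrix.diagonal fun i => Real.exp ((-y).1 i)) * p.1 *
        (Matrix.diagonal fun i => Real.exp (y.1 i))) i j = _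
      rw [Matrix.mul_diagonal, Matrix.diagonal_mul]
      rfl
    rw [e]
    refine le_trans ?_ (B2a_ge p i j)
    rcases lt_trichotomy i j with h | h | h
    · rw [one_apply_ne h.ne, sub_zero, sub_zero]
      have e1 : Real.exp (-(y.1 i)) * p.1 i j * Real.exp (y.1 j) =
          Real.exp (y.1 j - y.1 i) * p.1 i j := by
        rw [sub_eq_add_neg, Real.exp_add]
        ring
      rw [e1, abs_mul, abs_of_pos (Real.exp_pos _)]
      have h1 : Real.exp (y.1 j - y.1 i) ≤ 1 := Real.exp_le_one_iff.2 (by linarith [hy i j h])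
      exact mul_le_of_le_one_left (abs_nonneg _) h1
    · subst h
      have e1 : Real.exp (-(y.1 i)) * p.1 i i * Real.exp (y.1 i) = p.1 i i := by
        rw [Real.exp_neg]
        field_simp
      rw [e1]
    · rw [hp i j h, one_apply_ne h.ne']
      simp
  · intro q q' hq hq'
    constructor
    · have hC' : 0 ≤ (2 * (n + 1) * C1 + 2) * (dE q + dE q') := by
        have := B2a_nn q
        have := B2a_nn q'
        positivity
      refine B2a_le _ _ hC' fun i j => ?_
      have e : (q * q').1 i j - (1 : Matrix (Fin n) (Fin n) ℝ) i j =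
          ((q.1 - 1) * q'.1) i j + (q'.1 i j - (1 : Matrix (Fin n) (Fin n) ℝ) i j) := by
        rw [Matrix.sub_mul, one_mul, Matrix.sub_apply]
        show (q.1 * q'.1) i j - _ = _
        ring
      rw [e]
      have h1 := B2a_mul (q.1 - 1) q'.1 (dE q) 2 (B2a_nn q) (fun i j => B2a_ge q i j)
        (fun i j => by
          have h2 := abs_le.1 ((B2a_ge q' i j).trans hq')
          have h3 : (1 : Matrix (Fin n) (Fin n) ℝ) i j ≤ 1 ∧
              0 ≤ (1 : Matrix (Fin n) (Fin n) ℝ) i j := by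
            rw [one_apply]
            split_ifs <;> norm_num
          rw [abs_le]
          constructor <;> linarith [h2.1, h2.2, h3.1, h3.2]) i j
      have h4 := B2a_ge q' i j
      have h5 := B2a_nn q
      have h6 := B2a_nn q'
      refine (abs_add_le _ _).trans ?_
      have h7 : (n : ℝ) * (dE q * 2) ≤ 2 * (n + 1) * C1 * dE q := by
        have h8 : 0 ≤ (n : ℝ) * dE q := mul_nonneg hn0 h5
        nlinarith [mul_nonneg h8 (by linarith : 0 ≤ C1 - 1), mul_nonneg h5 (by linarith : 0 ≤ C1)]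
      have h9 : 0 ≤ 2 * ((n : ℝ) + 1) * C1 * dE q' := by positivity
      nlinarith
    · intro hqδ
      have h5 := B2a_nn q
      have h6 := B2a_nn q⁻¹
      -- dE q⁻¹ ≤ dE q + n dE q⁻¹ dE q
      have h1 : dE q⁻¹ ≤ dE q + n * (dE q⁻¹ * dE q) := by
        refine B2a_le _ _ (by positivity) fun i j => ?_
        have e : (q⁻¹).1 * q.1 = 1 := by
          have : (q⁻¹ * q) = 1 := inv_mul_cancel q
          exact congrArg Subtype.val this
        have e2 : (q⁻¹).1 i j - (1 : Matrix (Fin n) (Fin n) ℝ) i j =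
            -(q.1 i j - (1 : Matrix (Fin n) (Fin n) ℝ) i j) -
              (((q⁻¹).1 - 1) * (q.1 - 1)) i j := by
          rw [Matrix.sub_mul, Matrix.mul_sub, Matrix.mul_sub, e]
          simp only [mul_one, one_mul, Matrix.sub_apply]
          ring
        rw [e2]
        refine (abs_sub _ _).trans ?_
        rw [abs_neg]
        exact add_le_add (B2a_ge q i j) (B2a_mul _ _ _ _ h6 (fun i j => B2a_ge q⁻¹ i j)
          (fun i j => B2a_ge q i j) i j)
      have h2 : n * dE q ≤ 1 / 2 := by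
        have h3 : dE q ≤ 1 / (2 * (n + 1)) := hqδ.trans hδ03
        rw [le_div_iff₀ (by positivity)] at h3
        nlinarith
      have h3 : n * (dE q⁻¹ * dE q) ≤ 1 / 2 * dE q⁻¹ := by nlinarith
      have h4 : dE q⁻¹ ≤ 2 * dE q := by linarith
      refine h4.trans ?_
      have h9 : 0 ≤ 2 * ((n : ℝ) + 1) * C1 * dE q := by positivity
      nlinarith

end FL27
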