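import Pool.Agent.LibFL27.B1
import Pool.Agent.LibFL27.B2a

set_option autoImplicit false
set_option maxSynthPendingDepth 3

open Matrix MeasureTheory Topology Filter LibNC38
open LibNC27 hiding Mt
open scoped Matrix.Norms.Elementwise

namespace FL27

private theorem B2_dgm_mul {n : ℕ} (g : SL n) (w : V0 n) (a b : Fin n) :
    (dgm w * g).1 a b = Real.exp (w.1 a) * g.1 a b := by
  show ((Matrix.diagonal fun i => Real.exp (w.1 i)) * g.1) a b = _
  rw [Matrix.diagonal_mul]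

private theorem B2_mul_dgm {n : ℕ} (g : SL n) (w : V0 n) (a b : Fin n) :
    (g * dgm w).1 a b = g.1 a b * Real.exp (w.1 b) := by
  show (g.1 * Matrix.diagonal fun i => Real.exp (w.1 i)) a b = _
  rw [Matrix.mul_diagonal]

private theorem B2_coord {n : ℕ} (v : V0 n) (i : Fin n) : |v.1 i| ≤ ‖v‖ := by
  have h := PiLp.norm_apply_le (v.1) i
  rw [Real.norm_eq_abs] at h
  exact h

private theorem B2_small {K Ki δ e : ℝ} (hKi : Ki ≤ K) (hδ : 0 ≤ δ) (h : K * δ ≤ e) : Ki * δ ≤ e :=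
  (mul_le_mul_of_nonneg_right hKi hδ).trans h

private theorem B2_cancel {G : Type*} [Group G] {a b : G} : a * (a⁻¹ * b) = b := by
  rw [← mul_assoc, mul_inv_cancel, one_mul]

/-- Row B2. Closing of two long segments (page, B2). -/
theorem closing2 (n : ℕ) : ∃ C δ0 : ℝ, 1 ≤ C ∧ 0 < δ0 ∧
    ∀ (lam : V0 n) (η T m δ : ℝ) (v1 v2 : SL n), ‖lam‖ = 1 → 0 < η →
      (∀ i j : Fin n, i < j → lam.1 j + η ≤ lam.1 i) → C ≤ η * T → C ≤ η * m → 0 ≤ δ →
      dE v1 ≤ δ → dE v2 ≤ δ → δ ≤ δ0 →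
      ∃ (x : SL n) (v : V0 n), dgm (T • lam) * v1 * dgm (m • lam) * v2 = x * dgm v * x⁻¹ ∧
        ‖v - (T + m) • lam‖ ≤ C * δ ∧
        ∀ s : ℝ, 0 ≤ s → s ≤ T → dE (dgm (-(s • lam)) * x * dgm (s • lam)) ≤ C * δ := by
  obtain ⟨κ, δ1, C1, hκ, hδ1, hC1, hB1⟩ := closing_rate n
  obtain ⟨δ2, C2, hδ2, hC2, hLU, hlow, hupp, hdE⟩ := lu_near n
  obtain ⟨hadd, hcomm, -, hzero, hsmul, -⟩ := dgm_facts (n := n)
  have hC20 : 0 < C2 := lt_of_lt_of_le one_pos hC2
  have hneg : ∀ w : V0 n, dgm (-w) = (dgm w)⁻¹ := by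
    intro w
    apply eq_inv_of_mul_eq_one_left
    rw [← hadd, neg_add_cancel, hzero]
  have hmul : ∀ (q q' : SL n) (a b : ℝ), dE q ≤ a → dE q' ≤ b → a ≤ 1 → b ≤ 1 →
      dE (q * q') ≤ C2 * (a + b) := by
    intro q q' a b h1 h2 ha hb
    have h := (hdE q q' (h1.trans ha) (h2.trans hb)).1
    exact h.trans (mul_le_mul_of_nonneg_left (add_le_add h1 h2) hC20.le)
  have hinv : ∀ (q : SL n) (a : ℝ), dE q ≤ a → a ≤ 1 → a ≤ δ2 → dE q⁻¹ ≤ C2 * a := by
    intro q a h1 ha hb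
    have h := (hdE q q (h1.trans ha) (h1.trans ha)).2 (h1.trans hb)
    exact h.trans (mul_le_mul_of_nonneg_left h1 hC20.le)
  obtain ⟨K1, hK1⟩ : ∃ K1 : ℝ, K1 = C2 * (C2 * (C2 + 1) + C2) := ⟨_, rfl⟩
  obtain ⟨K2, hK2⟩ : ∃ K2 : ℝ, K2 = C1 * K1 := ⟨_, rfl⟩
  obtain ⟨K3, hK3⟩ : ∃ K3 : ℝ, K3 = C2 * K2 := ⟨_, rfl⟩
  obtain ⟨K4, hK4⟩ : ∃ K4 : ℝ, K4 = C2 * K1 := ⟨_, rfl⟩
  obtain ⟨K5, hK5⟩ : ∃ K5 : ℝ, K5 = C2 * (K4 + K2) := ⟨_, rfl⟩
  obtain ⟨K6, hK6⟩ : ∃ K6 : ℝ, K6 = C2 * K3 := ⟨_, rfl⟩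
  obtain ⟨K7, hK7⟩ : ∃ K7 : ℝ, K7 = C2 * (K6 + K5) := ⟨_, rfl⟩
  obtain ⟨K8, hK8⟩ : ∃ K8 : ℝ, K8 = C2 * (C2 + K3) := ⟨_, rfl⟩
  obtain ⟨K9, hK9⟩ : ∃ K9 : ℝ, K9 = C2 * (K8 + K7) := ⟨_, rfl⟩
  obtain ⟨K10, hK10⟩ : ∃ K10 : ℝ, K10 = C2 * (C2 + 1) := ⟨_, rfl⟩
  have h1 : 0 < K1 := by rw [hK1]; positivity
  have h2 : 0 < K2 := by rw [hK2]; positivity
  have h3 : 0 < K3 := by rw [hK3]; positivity
  have h4 : 0 < K4 := by rw [hK4]; positivity
  have h5 : 0 < K5 := by rw [hK5]; positivity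
  have h6 : 0 < K6 := by rw [hK6]; positivity
  have h7 : 0 < K7 := by rw [hK7]; positivity
  have h8 : 0 < K8 := by rw [hK8]; positivity
  have h9 : 0 < K9 := by rw [hK9]; positivity
  have h10 : 0 < K10 := by rw [hK10]; positivity
  obtain ⟨K, hK⟩ : ∃ K : ℝ, K = C2 + 1 + K1 + K2 + K3 + K4 + K5 + K6 + K7 + K8 + K9 + K10 := ⟨_, rfl⟩
  have hK0 : 0 < K := by rw [hK]; positivity
  obtain ⟨e, he⟩ : ∃ e : ℝ, e = min 1 (min δ1 δ2) := ⟨_, rfl⟩
  have he0 : 0 < e := by rw [he]; exact lt_min one_pos (lt_min hδ1 hδ2)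
  have he1 : e ≤ 1 := by rw [he]; exact min_le_left _ _
  have he2 : e ≤ δ1 := by rw [he]; exact (min_le_right _ _).trans (min_le_left _ _)
  have he3 : e ≤ δ2 := by rw [he]; exact (min_le_right _ _).trans (min_le_right _ _)
  refine ⟨K + |Real.log κ| + 2, e / K, ?_, div_pos he0 hK0, ?_⟩
  · have := abs_nonneg (Real.log κ)
    linarith
  intro lam η T m δ v1 v2 hlam hη hgap hT hm hδ hv1 hv2 hδ0
  have hKδ : K * δ ≤ e := by
    have := (le_div_iff₀ hK0).mp hδ0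
    linarith
  have hlog := abs_nonneg (Real.log κ)
  have hT0 : 0 < T := by
    by_contra hcon
    push Not at hcon
    have : η * T ≤ 0 := mul_nonpos_of_nonneg_of_nonpos hη.le hcon
    linarith
  have hm0 : 0 < m := by
    by_contra hcon
    push Not at hcon
    have : η * m ≤ 0 := mul_nonpos_of_nonneg_of_nonpos hη.le hcon
    linarith
  -- smallness facts
  have s1 : 1 * δ ≤ e := B2_small (by linarith) hδ hKδ
  rw [one_mul] at s1
  have sC2 : C2 * δ ≤ e := B2_small (by linarith) hδ hKδ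
  have sK1 : K1 * δ ≤ e := B2_small (by linarith) hδ hKδ
  have sK2 : K2 * δ ≤ e := B2_small (by linarith) hδ hKδ
  have sK3 : K3 * δ ≤ e := B2_small (by linarith) hδ hKδ
  have sK4 : K4 * δ ≤ e := B2_small (by linarith) hδ hKδ
  have sK5 : K5 * δ ≤ e := B2_small (by linarith) hδ hKδ
  have sK6 : K6 * δ ≤ e := B2_small (by linarith) hδ hKδ
  have sK7 : K7 * δ ≤ e := B2_small (by linarith) hδ hKδ
  have sK8 : K8 * δ ≤ e := B2_small (by linarith) hδ hKδ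
  have sK10 : K10 * δ ≤ e := B2_small (by linarith) hδ hKδ
  -- LU of v1
  obtain ⟨l1, p1, d1, hv1e, hl1z, -, hp1z, -, hl1, hd1, hp1⟩ := hLU v1 δ hv1 (s1.trans he3)
  -- monotonicity
  have hdec : ∀ r : ℝ, 0 ≤ r → ∀ i j : Fin n, i < j → (r • lam).1 j ≤ (r • lam).1 i := by
    intro r hr i j hij
    have h := hgap i j hij
    have e1 : (r • lam).1 j = r * lam.1 j := rfl
    have e2 : (r • lam).1 i = r * lam.1 i := rfl
    rw [e1, e2]
    exact mul_le_mul_of_nonneg_left (by linarith) hr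
  obtain ⟨l1', hl1'⟩ : ∃ l1' : SL n, l1' = dgm (T • lam) * l1 * dgm (-(T • lam)) := ⟨_, rfl⟩
  obtain ⟨p1', hp1'⟩ : ∃ p1' : SL n, p1' = dgm (-(m • lam)) * p1 * dgm (m • lam) := ⟨_, rfl⟩
  obtain ⟨y, hy⟩ : ∃ y : V0 n, y = d1 + (T + m) • lam := ⟨_, rfl⟩
  have bl1' : dE l1' ≤ C2 * δ := by
    rw [hl1']
    exact (hlow l1 (T • lam) hl1z (hdec T hT0.le)).trans hl1
  have bp1' : dE p1' ≤ C2 * δ := by
    rw [hp1']
    exact (hupp p1 (m • lam) hp1z (hdec m hm0.le)).trans hp1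
  obtain ⟨w, hw⟩ : ∃ w : SL n, w = p1' * v2 * l1' := ⟨_, rfl⟩
  have bpv : dE (p1' * v2) ≤ K10 * δ := by
    have h := hmul p1' v2 (C2 * δ) δ bp1' hv2 (sC2.trans he1) (s1.trans he1)
    refine h.trans (le_of_eq ?_)
    rw [hK10]
    ring
  have bw : dE w ≤ K1 * δ := by
    rw [hw]
    have h := hmul (p1' * v2) l1' (K10 * δ) (C2 * δ) bpv bl1' (sK10.trans he1) (sC2.trans he1)
    refine h.trans (le_of_eq ?_)
    rw [hK1, hK10]
    ring
  have hd1c : ∀ i j : Fin n, -2 ≤ d1.1 i - d1.1 j := by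
    intro i j
    have h1 := B2_coord d1 i
    have h2 := B2_coord d1 j
    have h3 := (hd1.trans sC2).trans he1
    have h4 := neg_abs_le (d1.1 i)
    have h5 := le_abs_self (d1.1 j)
    linarith
  have hydec : ∀ s : ℝ, s ≤ T → ∀ i j : Fin n, i < j → 
      K + |Real.log κ| ≤ (y - s • lam).1 i - (y - s • lam).1 j := by
    intro s hs i j hij
    have h1 := hd1c i j
    have h := hgap i j hij
    have e1 : ∀ k, (y - s • lam).1 k = d1.1 k + (T + m) * lam.1 k - s * lam.1 k := by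
      intro k
      rw [hy]
      rfl
    rw [e1, e1]
    have h2 : m * η ≤ (T + m - s) * (lam.1 i - lam.1 j) := by
      apply mul_le_mul
      · linarith
      · linarith
      · exact hη.le
      · linarith
    have h3 : d1.1 i + (T + m) * lam.1 i - s * lam.1 i - (d1.1 j + (T + m) * lam.1 j - s * lam.1 j)
        = (d1.1 i - d1.1 j) + (T + m - s) * (lam.1 i - lam.1 j) := by ring
    rw [h3]
    have h4 : m * η = η * m := mul_comm _ _
    linarith
  have hy0 : ∀ i j : Fin n, i < j → K + |Real.log κ| ≤ y.1 i - y.1 j := by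
    intro i j hij
    have h := hydec 0 hT0.le i j hij
    rw [zero_smul, sub_zero] at h
    exact h
  have hratio : ∀ i j : Fin n, i < j → Real.exp (y.1 j) ≤ κ * Real.exp (y.1 i) := by
    intro i j hij
    have h := hy0 i j hij
    have h2 : κ = Real.exp (Real.log κ) := (Real.exp_log hκ).symm
    rw [h2, ← Real.exp_add]
    apply Real.exp_le_exp.mpr
    have := neg_abs_le (Real.log κ)
    linarith
  obtain ⟨u, μ, hu, bu, bμ⟩ := hB1 w y (K1 * δ) bw (sK1.trans he2) hratio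
  have bu' : dE u ≤ K2 * δ := bu.trans (le_of_eq (by rw [hK2]; ring))
  have bμ' : ‖μ - y‖ ≤ K2 * δ := bμ.trans (le_of_eq (by rw [hK2]; ring))
  obtain ⟨l, p, d, hue, hlz, -, hpz, -, hl, hd, hp⟩ := hLU u (K2 * δ) bu' (sK2.trans he3)
  obtain ⟨l', hl'⟩ : ∃ l' : SL n, l' = dgm y * l * dgm (-y) := ⟨_, rfl⟩
  obtain ⟨q, hq⟩ : ∃ q : SL n, q = dgm y * dgm d * p * dgm (-μ) := ⟨_, rfl⟩
  have bl : dE l ≤ K3 * δ := hl.trans (le_of_eq (by rw [hK3]; ring))
  have bl' : dE l' ≤ K3 * δ := by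
    rw [hl']
    refine (hlow l y hlz ?_).trans bl
    intro i j hij
    have := hy0 i j hij
    linarith
  have hwu : w⁻¹ * u = l' * q := by
    have e1 : w⁻¹ * u = dgm y * u * (dgm μ)⁻¹ := by
      rw [eq_mul_inv_iff_mul_eq, mul_assoc, inv_mul_eq_iff_eq_mul, ← mul_assoc, hu]
      group
    rw [e1, hl', hq, hneg, hneg, hue]
    group
  have bwu : dE (w⁻¹ * u) ≤ K5 * δ := by
    have h1 : dE w⁻¹ ≤ K4 * δ := (hinv w (K1 * δ) bw (sK1.trans he1) (sK1.trans he3)).trans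
      (le_of_eq (by rw [hK4]; ring))
    have h := hmul w⁻¹ u (K4 * δ) (K2 * δ) h1 bu' (sK4.trans he1) (sK2.trans he1)
    exact h.trans (le_of_eq (by rw [hK5]; ring))
  have bq : dE q ≤ K7 * δ := by
    have e1 : q = l'⁻¹ * (w⁻¹ * u) := by
      rw [hwu]
      group
    have h1 : dE l'⁻¹ ≤ K6 * δ := (hinv l' (K3 * δ) bl' (sK3.trans he1) (sK3.trans he3)).trans
      (le_of_eq (by rw [hK6]; ring))
    have h := hmul l'⁻¹ (w⁻¹ * u) (K6 * δ) (K5 * δ) h1 bwu (sK6.trans he1) (sK5.trans he1)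
    rw [← e1] at h
    exact h.trans (le_of_eq (by rw [hK7]; ring))
  have hqz : ∀ i j : Fin n, j < i → q.1 i j = 0 := by
    intro i j hij
    rw [hq, B2_mul_dgm, mul_assoc, B2_dgm_mul, B2_dgm_mul, hpz i j hij]
    ring
  have hCK : K * δ ≤ (K + |Real.log κ| + 2) * δ :=
    mul_le_mul_of_nonneg_right (by linarith) hδ
  refine ⟨l1' * (w⁻¹ * u), μ, ?_, ?_, ?_⟩
  · -- the conjugation identity
    have e1 : dgm (T • lam) * v1 * dgm (m • lam) * v2 = l1' * (dgm y * (w * l1'⁻¹)) := by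
      have e2 : dgm y = dgm d1 * dgm (T • lam) * dgm (m • lam) := by
        rw [hy, hadd, add_smul, hadd, mul_assoc]
      have e3 : dgm d1 * dgm (T • lam) = dgm (T • lam) * dgm d1 := hcomm _ _
      rw [e2, e3, hw, hl1', hp1', hneg, hneg, hv1e]
      group
    have e4 : dgm y = w⁻¹ * (u * dgm μ * u⁻¹) := by
      rw [← hu]
      group
    rw [e1, e4]
    group
  · have e1 : μ - (T + m) • lam = (μ - y) + d1 := by
      rw [hy]
      abel
    rw [e1]
    have h := norm_add_le (μ - y) d1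
    have h11 : K2 * δ + C2 * δ ≤ K * δ := by
      rw [← add_mul]
      exact mul_le_mul_of_nonneg_right (by linarith) hδ
    linarith
  · intro s hs0 hsT
    rw [hwu]
    have e1 : dgm (-(s • lam)) * (l1' * (l' * q)) * dgm (s • lam) =
        (dgm ((T - s) • lam) * l1 * dgm (-((T - s) • lam))) *
        (dgm (y - s • lam) * l * dgm (-(y - s • lam))) *
        (dgm (-(s • lam)) * q * dgm (s • lam)) := by
      have e2 : dgm ((T - s) • lam) = (dgm (s • lam))⁻¹ * dgm (T • lam) := by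
        rw [← hneg, ← hadd]
        congr 1
        rw [sub_smul]
        abel
      have e3 : dgm (y - s • lam) = (dgm (s • lam))⁻¹ * dgm y := by
        rw [← hneg, ← hadd]
        congr 1
        abel
      rw [hneg, hneg, hneg, e2, e3, hl1', hl', hneg, hneg]
      group
    rw [e1]
    have a1 : dE (dgm ((T - s) • lam) * l1 * dgm (-((T - s) • lam))) ≤ C2 * δ :=
      (hlow l1 ((T - s) • lam) hl1z (hdec (T - s) (by linarith))).trans hl1
    have a2 : dE (dgm (y - s • lam) * l * dgm (-(y - s • lam))) ≤ K3 * δ := by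
      refine (hlow l (y - s • lam) hlz ?_).trans bl
      intro i j hij
      have := hydec s hsT i j hij
      linarith
    have a3 : dE (dgm (-(s • lam)) * q * dgm (s • lam)) ≤ K7 * δ :=
      (hupp q (s • lam) hqz (hdec s hs0)).trans bq
    have a4 := hmul _ _ _ _ a1 a2 (sC2.trans he1) (sK3.trans he1)
    have a5 : C2 * (C2 * δ + K3 * δ) = K8 * δ := by rw [hK8]; ring
    rw [a5] at a4
    have a6 := hmul _ _ _ _ a4 a3 (sK8.trans he1) (sK7.trans he1)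
    have a7 : C2 * (K8 * δ + K7 * δ) = K9 * δ := by rw [hK9]; ring
    rw [a7] at a6
    have a8 : K9 * δ ≤ K * δ := mul_le_mul_of_nonneg_right (by linarith) hδ
    linarith

end FL27
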