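import Pool.Agent.LibFL27.B3a
import Pool.Agent.LibFL27.DefsB

set_option autoImplicit false
set_option maxSynthPendingDepth 3

open Matrix MeasureTheory Topology Filter LibNC38
open LibNC27 hiding Mt
open scoped Matrix.Norms.Elementwise

namespace FL27

private theorem B3_entry {n : ℕ} (q : SL n) (r : ℝ) (hr : 0 ≤ r)
    (h : ∀ i j, |q.1 i j - (1 : Mt n) i j| ≤ r) : dE q ≤ r := by
  unfold dE
  rw [Matrix.norm_le_iff hr]
  intro i j
  rw [Real.norm_eq_abs, Matrix.sub_apply]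
  exact h i j

private theorem B3_norm_mul {n : ℕ} (A B : Mt n) : ‖A * B‖ ≤ n * (‖A‖ * ‖B‖) := by
  rw [Matrix.norm_le_iff (by positivity)]
  intro i j
  rw [Matrix.mul_apply]
  refine (norm_sum_le _ _).trans ?_
  calc ∑ k, ‖A i k * B k j‖ ≤ ∑ _k : Fin n, ‖A‖ * ‖B‖ := by
        refine Finset.sum_le_sum fun k _ => ?_
        rw [norm_mul]
        exact mul_le_mul (Matrix.norm_entry_le_entrywise_sup_norm A)
          (Matrix.norm_entry_le_entrywise_sup_norm B) (norm_nonneg _) (norm_nonneg _)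
    _ = n * (‖A‖ * ‖B‖) := by
        rw [Finset.sum_const, Finset.card_univ, Fintype.card_fin, nsmul_eq_mul]

private theorem B3_norm_one {n : ℕ} : ‖(1 : Mt n)‖ ≤ 1 := by
  rw [Matrix.norm_le_iff zero_le_one]
  intro i j
  rw [Matrix.one_apply]
  split_ifs <;> simp

private theorem B3_inv {n : ℕ} (b : SL n) (δ : ℝ) (h1 : dE b ≤ δ / (2 * n)) (hn : 1 ≤ n)
    (hδ : 0 < δ) (hδ2 : δ ≤ 1 / 2) : dE b⁻¹ ≤ δ := by
  have hn' : (1 : ℝ) ≤ n := by exact_mod_cast hn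
  have hmul : (b⁻¹).1 * b.1 = 1 := by
    have h2 : b⁻¹ * b = 1 := inv_mul_cancel b
    have h3 := congrArg Subtype.val h2
    exact h3
  have e : (b⁻¹).1 - 1 = -((b⁻¹).1 * (b.1 - 1)) := by
    rw [Matrix.mul_sub, hmul, Matrix.mul_one]
    abel
  have h4 : dE b⁻¹ ≤ n * (‖(b⁻¹).1‖ * dE b) := by
    have h5 : dE b⁻¹ = ‖(b⁻¹).1 * (b.1 - 1)‖ := by
      show ‖(b⁻¹).1 - 1‖ = _
      rw [e, norm_neg]
    rw [h5]
    exact B3_norm_mul _ _
  have h6 : ‖(b⁻¹).1‖ ≤ 1 + dE b⁻¹ := by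
    have h7 : (b⁻¹).1 = 1 + ((b⁻¹).1 - 1) := by abel
    calc ‖(b⁻¹).1‖ = ‖(1 : Mt n) + ((b⁻¹).1 - 1)‖ := by rw [← h7]
      _ ≤ ‖(1 : Mt n)‖ + ‖(b⁻¹).1 - 1‖ := norm_add_le _ _
      _ ≤ 1 + dE b⁻¹ := add_le_add B3_norm_one le_rfl
  have h8 : 0 ≤ dE b⁻¹ := norm_nonneg _
  have h9 : 0 ≤ dE b := norm_nonneg _
  have h10 : (n : ℝ) * (δ / (2 * n)) = δ / 2 := by
    field_simp
  have h11 : dE b⁻¹ ≤ (1 + dE b⁻¹) * (δ / 2) := by
    calc dE b⁻¹ ≤ n * (‖(b⁻¹).1‖ * dE b) := h4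
      _ ≤ n * ((1 + dE b⁻¹) * (δ / (2 * n))) := by
          refine mul_le_mul_of_nonneg_left ?_ (by linarith)
          exact mul_le_mul h6 h1 h9 (by linarith)
      _ = (1 + dE b⁻¹) * (n * (δ / (2 * n))) := by ring
      _ = (1 + dE b⁻¹) * (δ / 2) := by rw [h10]
  nlinarith

/-- Row B3. Transitivity in time `C log(1/δ)` from exponential mixing. -/
theorem trans {n : ℕ} (hn : 3 ≤ n) (Γ : Subgroup (SL n)) (hd : Disc Γ) (hc : Coc Γ)
    (ν : @Measure (SL n) (borel (SL n))) (K c : ℝ) (hM : Mix Γ ν K c) : ∃ C : ℝ, 1 ≤ C ∧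
    ∀ (δ m : ℝ) (lam : V0 n) (g1 g2 : SL n), 0 < δ → δ ≤ 1 / 2 → ‖lam‖ = 1 →
      C * Real.log (1 / δ) ≤ m → ∃ γ ∈ Γ, ∃ v1 v2 : SL n, dE v1 ≤ δ ∧ dE v2 ≤ δ ∧
        γ * g2 = g1 * v1 * dgm (m • lam) * v2 := by
  obtain ⟨Cb, hCb, hbump⟩ := bump Γ hd hc
  obtain ⟨c0, D, hc0, hlow⟩ := hM.low
  have hcp : 0 < c := hM.pos
  have hn' : (3 : ℝ) ≤ n := by exact_mod_cast hn
  set N : ℝ := 2 * n with hN
  have hNp : 1 ≤ N := by rw [hN]; linarith
  have hN0 : 0 < N := by linarith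
  have hCb0 : 0 < Cb := by linarith
  set P : ℝ := Cb * N with hP
  have hPp : 0 < P := mul_pos hCb0 hN0
  set K' : ℝ := |K| + 1 with hK'
  have hK'p : 0 < K' := by rw [hK']; positivity
  set κ : ℝ := c0 ^ 2 / (K' * P ^ 2 * P ^ (2 * D)) with hκ
  have hκp : 0 < κ := by rw [hκ]; positivity
  obtain ⟨E, hE⟩ := exists_pow_lt_of_lt_one hκp (by norm_num : (1 / 2 : ℝ) < 1)
  refine ⟨max 1 ((2 + 2 * D + E : ℕ) / c), le_max_left _ _, ?_⟩
  intro δ m lam g1 g2 hδ hδ2 hlam hm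
  have hlog : 0 < Real.log (1 / δ) := by
    apply Real.log_pos
    rw [lt_div_iff₀ hδ]
    linarith
  have hm1 : ((2 + 2 * D + E : ℕ) : ℝ) * Real.log (1 / δ) ≤ c * m := by
    have h1 : ((2 + 2 * D + E : ℕ) : ℝ) / c * Real.log (1 / δ) ≤ m :=
      (mul_le_mul_of_nonneg_right (le_max_right _ _) hlog.le).trans hm
    calc ((2 + 2 * D + E : ℕ) : ℝ) * Real.log (1 / δ) =
          c * (((2 + 2 * D + E : ℕ) : ℝ) / c * Real.log (1 / δ)) := by
          field_simp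
      _ ≤ c * m := mul_le_mul_of_nonneg_left h1 hcp.le
  have hm0 : 0 < m := by
    have h1 : 1 * Real.log (1 / δ) ≤ m :=
      (mul_le_mul_of_nonneg_right (le_max_left _ _) hlog.le).trans hm
    linarith
  have hexp : Real.exp (-(c * m)) ≤ δ ^ (2 + 2 * D + E) := by
    have h1 : Real.log (1 / δ) = -Real.log δ := by rw [one_div, Real.log_inv]
    rw [h1] at hm1
    calc Real.exp (-(c * m)) ≤ Real.exp (((2 + 2 * D + E : ℕ) : ℝ) * Real.log δ) := by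
          apply Real.exp_le_exp.mpr
          linarith
      _ = δ ^ (2 + 2 * D + E) := by rw [Real.exp_nat_mul, Real.exp_log hδ]
  -- the decisive inequality
  have hkey : K' * (P / δ) * (P / δ) * Real.exp (-(c * m)) < (c0 * (δ / P) ^ D) * (c0 * (δ / P) ^ D) := by
    have h1 : δ ^ E ≤ (1 / 2 : ℝ) ^ E := pow_le_pow_left₀ hδ.le hδ2 E
    have h2 : δ ^ (2 + 2 * D + E) < δ ^ 2 * δ ^ (2 * D) * κ := by
      rw [pow_add, pow_add]
      exact mul_lt_mul_of_pos_left (lt_of_le_of_lt h1 hE) (by positivity)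
    have h3 : 0 < K' * (P / δ) * (P / δ) := by positivity
    calc K' * (P / δ) * (P / δ) * Real.exp (-(c * m)) <
          K' * (P / δ) * (P / δ) * (δ ^ 2 * δ ^ (2 * D) * κ) :=
          mul_lt_mul_of_pos_left (lt_of_le_of_lt hexp h2) h3
      _ = (c0 * (δ / P) ^ D) * (c0 * (δ / P) ^ D) := by
          rw [hκ, div_pow]
          field_simp
          ring
  obtain ⟨F1, hi1, hp1, hb1, hs1, hl1⟩ := hbump g1 (δ / N) (by positivity)
    ((div_le_one hN0).mpr (by linarith))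
  obtain ⟨F2, hi2, hp2, hb2, hs2, hl2⟩ := hbump g2 (δ / N) (by positivity)
    ((div_le_one hN0).mpr (by linarith))
  have hr : δ / N / Cb = δ / P := by
    rw [hP, div_div, mul_comm N Cb]
  have hr0 : 0 < δ / P := by positivity
  have hr1 : δ / P ≤ 1 := by
    rw [div_le_one hPp, hP]
    nlinarith
  have hM' : Cb / (δ / N) = P / δ := by
    rw [hP]
    field_simp
  rw [hM'] at hb1 hb2
  have hI1 := hlow F1 hi1 hp1 g1 (δ / P) 1 hr0 hr1 zero_le_one (fun q hq =>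
    hl1 q (by rw [hr]; exact B3_entry q _ hr0.le hq))
  have hI2 := hlow F2 hi2 hp2 g2 (δ / P) 1 hr0 hr1 zero_le_one (fun q hq =>
    hl2 q (by rw [hr]; exact B3_entry q _ hr0.le hq))
  rw [mul_one] at hI1 hI2
  have hmix := hM.mix F2 F1 (P / δ) (P / δ) hi2 hi1 hb2 hb1 (m • lam)
  have hnm : ‖m • lam‖ = m := by
    rw [norm_smul, hlam, mul_one, Real.norm_eq_abs, abs_of_pos hm0]
  rw [hnm] at hmix
  -- some g is in both supports
  have hex : ∃ g : SL n, F2 (g * dgm (m • lam)) ≠ 0 ∧ F1 g ≠ 0 := by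
    by_contra hcon
    push Not at hcon
    have h0 : (fun g : SL n => F2 (g * dgm (m • lam)) * F1 g) = fun _ => 0 := by
      funext g
      by_cases h1 : F2 (g * dgm (m • lam)) = 0
      · rw [h1, zero_mul]
      · rw [hcon g h1, mul_zero]
    rw [h0] at hmix
    have h1 : @integral (SL n) ℝ _ _ (borel (SL n)) ν (fun _ => (0 : ℝ)) = 0 :=
      @integral_zero (SL n) ℝ _ _ (borel (SL n)) ν
    rw [h1, zero_sub, abs_neg] at hmix
    have h2 : (c0 * (δ / P) ^ D) * (c0 * (δ / P) ^ D) ≤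
        @integral (SL n) ℝ _ _ (borel (SL n)) ν F2 * @integral (SL n) ℝ _ _ (borel (SL n)) ν F1 :=
      mul_le_mul hI2 hI1 (by positivity) (le_trans (by positivity) hI2)
    have h3 : K * (P / δ) * (P / δ) * Real.exp (-(c * m)) ≤
        K' * (P / δ) * (P / δ) * Real.exp (-(c * m)) := by
      have h4 : K ≤ K' := by
        rw [hK']
        linarith [le_abs_self K]
      have h5 : 0 < P / δ := by positivity
      gcongr
    have h6 := le_abs_self (@integral (SL n) ℝ _ _ (borel (SL n)) ν F2 *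
      @integral (SL n) ℝ _ _ (borel (SL n)) ν F1)
    linarith
  obtain ⟨g, hg2, hg1⟩ := hex
  obtain ⟨γ1, hγ1, ha⟩ := hs1 g hg1
  obtain ⟨γ2, hγ2, hb⟩ := hs2 _ hg2
  refine ⟨γ1 * γ2⁻¹, Γ.mul_mem hγ1 (Γ.inv_mem hγ2), g1⁻¹ * (γ1 * g),
    (g2⁻¹ * (γ2 * (g * dgm (m • lam))))⁻¹, ?_, ?_, ?_⟩
  · refine ha.trans ?_
    rw [div_le_iff₀ hN0]
    nlinarith
  · exact B3_inv _ δ hb (by omega) hδ hδ2
  · group

end FL27
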