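import Pool.Agent.LibFL27.DefsB

set_option autoImplicit false
set_option maxSynthPendingDepth 3

open Matrix MeasureTheory Topology Filter LibNC38
open LibNC27 hiding Mt
open scoped Matrix.Norms.Elementwise

namespace FL27

/-- the square of the positive part is differentiable -/
private theorem B3a_pp (t : ℝ) : HasDerivAt (fun s : ℝ => (max 0 s) ^ 2) (2 * max 0 t) t := by
  rcases lt_trichotomy t 0 with h | h | h
  · have h1 : (fun s : ℝ => (max 0 s) ^ 2) =ᶠ[𝓝 t] fun _ => (0 : ℝ) := by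
      filter_upwards [Iio_mem_nhds h] with s hs
      rw [max_eq_left (le_of_lt hs)]; simp
    rw [max_eq_left h.le, mul_zero]
    exact (hasDerivAt_const t (0 : ℝ)).congr_of_eventuallyEq h1
  · subst h
    rw [max_self, mul_zero]
    rw [hasDerivAt_iff_isLittleO_nhds_zero]
    simp only [zero_add, max_self, smul_zero, sub_zero]
    have h2 : (fun h : ℝ => h ^ 2) =o[𝓝 0] fun h => h := by
      simpa using (Asymptotics.isLittleO_pow_id (𝕜 := ℝ) (n := 2) (by norm_num))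
    refine Asymptotics.IsBigO.trans_isLittleO ?_ h2
    refine Asymptotics.IsBigO.of_bound 1 (Filter.Eventually.of_forall fun s => ?_)
    rw [one_mul, Real.norm_eq_abs, Real.norm_eq_abs]
    have h3 : (max 0 s) ^ 2 ≤ s ^ 2 := by
      rcases le_total 0 s with h | h
      · rw [max_eq_right h]
      · rw [max_eq_left h]; nlinarith [sq_nonneg s]
    have h4 : (0 : ℝ) ≤ (max 0 s) ^ 2 := by positivity
    rw [abs_of_nonneg (by positivity : (0 : ℝ) ≤ s ^ 2)]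
    have e : (max 0 s) ^ 2 - 0 ^ 2 = (max 0 s) ^ 2 := by ring
    rw [e, abs_of_nonneg h4]
    exact h3
  · have h1 : (fun s : ℝ => (max 0 s) ^ 2) =ᶠ[𝓝 t] fun s => s ^ 2 := by
      filter_upwards [Ioi_mem_nhds h] with s hs
      rw [max_eq_right (le_of_lt hs)]
    rw [max_eq_right h.le]
    have h2 : HasDerivAt (fun s : ℝ => s ^ 2) (2 * t) t := by
      simpa using hasDerivAt_pow 2 t
    exact h2.congr_of_eventuallyEq h1

/-- squared euclidean distance to the identity -/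
private noncomputable def B3a_rho {n : ℕ} (q : SL n) : ℝ :=
  ∑ a, ∑ b, (q.1 a b - (1 : Mt n) a b) ^ 2

/-- the bump -/
private noncomputable def B3a_phi {n : ℕ} (δ : ℝ) (q : SL n) : ℝ :=
  4 * (max 0 (1 - B3a_rho q / δ ^ 2)) ^ 2

/-- the right derivative of the squared distance -/
private noncomputable def B3a_dr {n : ℕ} (x : Mt n) (q : SL n) : ℝ :=
  ∑ a, ∑ b, 2 * (q.1 a b - (1 : Mt n) a b) * (q.1 * x) a b

/-- the right derivative of the bump -/
private noncomputable def B3a_dphi {n : ℕ} (δ : ℝ) (x : Mt n) (q : SL n) : ℝ :=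
  4 * (2 * max 0 (1 - B3a_rho q / δ ^ 2) * (-(B3a_dr x q / δ ^ 2)))

private theorem B3a_cent {n : ℕ} (a b : Fin n) : Continuous fun q : SL n => q.1 a b :=
  (continuous_apply_apply a b).comp continuous_subtype_val

private theorem B3a_cmul {n : ℕ} (x : Mt n) (a b : Fin n) :
    Continuous fun q : SL n => (q.1 * x) a b := by
  simp only [Matrix.mul_apply]
  exact continuous_finsetSum _ fun c _ => (B3a_cent a c).mul continuous_const

private theorem B3a_crho {n : ℕ} : Continuous (B3a_rho (n := n)) := by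
  unfold B3a_rho
  exact continuous_finsetSum _ fun a _ => continuous_finsetSum _ fun b _ =>
    ((B3a_cent a b).sub continuous_const).pow 2

private theorem B3a_cdr {n : ℕ} (x : Mt n) : Continuous (B3a_dr x) := by
  unfold B3a_dr
  exact continuous_finsetSum _ fun a _ => continuous_finsetSum _ fun b _ =>
    (continuous_const.mul ((B3a_cent a b).sub continuous_const)).mul (B3a_cmul x a b)

private theorem B3a_cphi {n : ℕ} (δ : ℝ) : Continuous (B3a_phi (n := n) δ) := by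
  unfold B3a_phi
  exact continuous_const.mul ((continuous_const.max
    (continuous_const.sub (B3a_crho.div_const _))).pow 2)

private theorem B3a_cdphi {n : ℕ} (δ : ℝ) (x : Mt n) : Continuous (B3a_dphi δ x) := by
  unfold B3a_dphi
  exact continuous_const.mul ((continuous_const.mul (continuous_const.max
    (continuous_const.sub (B3a_crho.div_const _)))).mul ((B3a_cdr x).div_const _).neg)

private theorem B3a_rho_nn {n : ℕ} (q : SL n) : 0 ≤ B3a_rho q :=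
  Finset.sum_nonneg fun _ _ => Finset.sum_nonneg fun _ _ => sq_nonneg _

private theorem B3a_ent_le {n : ℕ} (q : SL n) (a b : Fin n) :
    (q.1 a b - (1 : Mt n) a b) ^ 2 ≤ B3a_rho q := by
  have h1 : (q.1 a b - (1 : Mt n) a b) ^ 2 ≤ ∑ b, (q.1 a b - (1 : Mt n) a b) ^ 2 :=
    Finset.single_le_sum (f := fun b => (q.1 a b - (1 : Mt n) a b) ^ 2)
      (fun _ _ => sq_nonneg _) (Finset.mem_univ b)
  have h2 : ∑ b, (q.1 a b - (1 : Mt n) a b) ^ 2 ≤ B3a_rho q :=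
    Finset.single_le_sum (f := fun a => ∑ b, (q.1 a b - (1 : Mt n) a b) ^ 2)
      (fun _ _ => Finset.sum_nonneg fun _ _ => sq_nonneg _) (Finset.mem_univ a)
  exact h1.trans h2

private theorem B3a_pos {n : ℕ} {δ : ℝ} (hδ : 0 < δ) (q : SL n)
    (h : max 0 (1 - B3a_rho q / δ ^ 2) ≠ 0) : B3a_rho q < δ ^ 2 := by
  by_contra hc
  push Not at hc
  apply h
  apply max_eq_left
  have h1 : 1 ≤ B3a_rho q / δ ^ 2 := by
    rw [le_div_iff₀ (by positivity)]; linarith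
  linarith

private theorem B3a_ent {n : ℕ} {δ : ℝ} (hδ : 0 < δ) (q : SL n) (h : B3a_rho q < δ ^ 2)
    (a b : Fin n) : |q.1 a b - (1 : Mt n) a b| ≤ δ := by
  have h1 := (B3a_ent_le q a b).trans h.le
  exact abs_le_of_sq_le_sq h1 hδ.le

private theorem B3a_dE {n : ℕ} {δ : ℝ} (hδ : 0 < δ) (q : SL n) (h : B3a_rho q < δ ^ 2) :
    dE q ≤ δ := by
  unfold dE
  rw [Matrix.norm_le_iff hδ.le]
  intro a b
  exact B3a_ent hδ q h a b

private theorem B3a_max_le {n : ℕ} (δ : ℝ) (q : SL n) : max 0 (1 - B3a_rho q / δ ^ 2) ≤ 1 := by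
  refine max_le zero_le_one ?_
  have := div_nonneg (B3a_rho_nn q) (sq_nonneg δ)
  linarith

private theorem B3a_phi_nn {n : ℕ} (δ : ℝ) (q : SL n) : 0 ≤ B3a_phi δ q := by
  unfold B3a_phi; positivity

private theorem B3a_phi_le {n : ℕ} (δ : ℝ) (q : SL n) : |B3a_phi δ q| ≤ 4 := by
  rw [abs_of_nonneg (B3a_phi_nn δ q)]
  unfold B3a_phi
  have h1 := B3a_max_le δ q
  have h0 : (0 : ℝ) ≤ max 0 (1 - B3a_rho q / δ ^ 2) := le_max_left _ _
  nlinarith

private theorem B3a_ab_one {n : ℕ} (a b : Fin n) : |(1 : Mt n) a b| ≤ 1 := by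
  by_cases h : a = b
  · subst h; simp
  · rw [Matrix.one_apply_ne h]; simp

private theorem B3a_dr_le {n : ℕ} {δ : ℝ} (hδ : 0 < δ) (hδ1 : δ ≤ 1) (x : Mt n)
    (hx : ∀ a b, |x a b| ≤ 1) (q : SL n) (h : B3a_rho q < δ ^ 2) :
    |B3a_dr x q| ≤ 4 * (n : ℝ) ^ 3 * δ := by
  have hq : ∀ a b, |q.1 a b| ≤ 2 := by
    intro a b
    have h1 := B3a_ent hδ q h a b
    have h2 := B3a_ab_one a b
    have h3 : q.1 a b = (q.1 a b - (1 : Mt n) a b) + (1 : Mt n) a b := by ring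
    rw [h3]
    refine (abs_add_le _ _).trans ?_
    linarith
  have hm : ∀ a b, |(q.1 * x) a b| ≤ 2 * n := by
    intro a b
    rw [Matrix.mul_apply]
    refine (Finset.abs_sum_le_sum_abs _ _).trans ?_
    have : ∀ c ∈ (Finset.univ : Finset (Fin n)), |q.1 a c * x c b| ≤ 2 := by
      intro c _
      rw [abs_mul]
      have h1 := hq a c
      have h2 := hx c b
      have h3 := abs_nonneg (q.1 a c)
      have h4 := abs_nonneg (x c b)
      nlinarith
    refine (Finset.sum_le_card_nsmul _ _ _ this).trans ?_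
    simp only [Finset.card_univ, Fintype.card_fin, nsmul_eq_mul]
    linarith
  unfold B3a_dr
  refine (Finset.abs_sum_le_sum_abs _ _).trans ?_
  have h5 : ∀ a ∈ (Finset.univ : Finset (Fin n)),
      |∑ b, 2 * (q.1 a b - (1 : Mt n) a b) * (q.1 * x) a b| ≤ n * (4 * n * δ) := by
    intro a _
    refine (Finset.abs_sum_le_sum_abs _ _).trans ?_
    have h6 : ∀ b ∈ (Finset.univ : Finset (Fin n)),
        |2 * (q.1 a b - (1 : Mt n) a b) * (q.1 * x) a b| ≤ 4 * n * δ := by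
      intro b _
      rw [abs_mul, abs_mul, abs_two]
      have h7 := B3a_ent hδ q h a b
      have h8 := hm a b
      have h9 := abs_nonneg (q.1 a b - (1 : Mt n) a b)
      have h10 := abs_nonneg ((q.1 * x) a b)
      calc 2 * |q.1 a b - (1 : Mt n) a b| * |(q.1 * x) a b| ≤ 2 * δ * (2 * n) := by
            apply mul_le_mul _ h8 h10 (by positivity)
            linarith
        _ = 4 * n * δ := by ring
    refine (Finset.sum_le_card_nsmul _ _ _ h6).trans ?_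
    simp only [Finset.card_univ, Fintype.card_fin, nsmul_eq_mul]
    exact le_refl _
  refine (Finset.sum_le_card_nsmul _ _ _ h5).trans ?_
  simp only [Finset.card_univ, Fintype.card_fin, nsmul_eq_mul]
  apply le_of_eq
  ring

private theorem B3a_dphi_le {n : ℕ} {δ : ℝ} (hδ : 0 < δ) (hδ1 : δ ≤ 1) (x : Mt n)
    (hx : ∀ a b, |x a b| ≤ 1) (q : SL n) : |B3a_dphi δ x q| ≤ 32 * (n : ℝ) ^ 3 / δ := by
  by_cases h : max 0 (1 - B3a_rho q / δ ^ 2) = 0
  · unfold B3a_dphi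
    rw [h]
    simp only [mul_zero, zero_mul, abs_zero]
    positivity
  · have h1 := B3a_pos hδ q h
    have h2 := B3a_dr_le hδ hδ1 x hx q h1
    have h3 := B3a_max_le δ q
    have h0 : (0 : ℝ) ≤ max 0 (1 - B3a_rho q / δ ^ 2) := le_max_left _ _
    unfold B3a_dphi
    rw [abs_mul, abs_mul, abs_mul, abs_neg, abs_div, abs_two, abs_of_nonneg h0,
      abs_of_nonneg (sq_nonneg δ), abs_of_nonneg (by norm_num : (0 : ℝ) ≤ 4)]
    have h4 : |B3a_dr x q| / δ ^ 2 ≤ 4 * (n : ℝ) ^ 3 / δ := by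
      rw [div_le_div_iff₀ (by positivity) hδ]
      calc |B3a_dr x q| * δ ≤ 4 * (n : ℝ) ^ 3 * δ * δ := by
            apply mul_le_mul_of_nonneg_right h2 hδ.le
        _ = 4 * (n : ℝ) ^ 3 * δ ^ 2 := by ring
    have h5 : (0 : ℝ) ≤ |B3a_dr x q| / δ ^ 2 := by positivity
    calc 4 * (2 * max 0 (1 - B3a_rho q / δ ^ 2) * (|B3a_dr x q| / δ ^ 2))
        ≤ 4 * (2 * 1 * (4 * (n : ℝ) ^ 3 / δ)) := by
          apply mul_le_mul_of_nonneg_left _ (by norm_num)
          apply mul_le_mul _ h4 h5 (by norm_num)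
          linarith
      _ = 32 * (n : ℝ) ^ 3 / δ := by ring

private theorem B3a_dphi_supp {n : ℕ} {δ : ℝ} (hδ : 0 < δ) (x : Mt n) (q : SL n)
    (h : B3a_dphi δ x q ≠ 0) : dE q ≤ δ := by
  apply B3a_dE hδ q
  apply B3a_pos hδ q
  intro h1
  apply h
  unfold B3a_dphi
  rw [h1]; ring

private theorem B3a_phi_supp {n : ℕ} {δ : ℝ} (hδ : 0 < δ) (q : SL n)
    (h : B3a_phi δ q ≠ 0) : dE q ≤ δ := by
  apply B3a_dE hδ q
  apply B3a_pos hδ q
  intro h1
  apply h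
  unfold B3a_phi
  rw [h1]; ring

private theorem B3a_phi_one {n : ℕ} {δ C : ℝ} (hδ : 0 < δ) (hC : 1 ≤ C) (hC2 : 2 * (n : ℝ) ≤ C)
    (q : SL n) (h : dE q ≤ δ / C) : 1 ≤ B3a_phi δ q := by
  have hC0 : 0 < C := by linarith
  have hdc : 0 ≤ δ / C := by positivity
  have h1 : ∀ a b, (q.1 a b - (1 : Mt n) a b) ^ 2 ≤ (δ / C) ^ 2 := by
    intro a b
    unfold dE at h
    rw [Matrix.norm_le_iff hdc] at h
    have h2 := h a b
    rw [Real.norm_eq_abs] at h2
    exact sq_le_sq' (by have := neg_abs_le (q.1 a b - (1 : Mt n) a b); exact (neg_le_neg h2).trans this)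
      ((le_abs_self _).trans h2)
  have h2 : B3a_rho q ≤ n * (n * (δ / C) ^ 2) := by
    unfold B3a_rho
    have h5 : ∀ a ∈ (Finset.univ : Finset (Fin n)),
        ∑ b, (q.1 a b - (1 : Mt n) a b) ^ 2 ≤ n * (δ / C) ^ 2 := by
      intro a _
      refine (Finset.sum_le_card_nsmul _ _ _ fun b _ => h1 a b).trans ?_
      simp only [Finset.card_univ, Fintype.card_fin, nsmul_eq_mul]
      exact le_refl _
    refine (Finset.sum_le_card_nsmul _ _ _ h5).trans ?_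
    simp only [Finset.card_univ, Fintype.card_fin, nsmul_eq_mul]
    exact le_refl _
  have h3 : B3a_rho q / δ ^ 2 ≤ 1 / 4 := by
    rw [div_le_iff₀ (by positivity)]
    refine h2.trans ?_
    rw [div_pow]
    have h6 : (n : ℝ) * (n * (δ ^ 2 / C ^ 2)) = (n : ℝ) ^ 2 * δ ^ 2 / C ^ 2 := by ring
    rw [h6, div_le_iff₀ (by positivity)]
    have h7 : (n : ℝ) ^ 2 ≤ 1 / 4 * C ^ 2 := by
      have hn : (0 : ℝ) ≤ n := Nat.cast_nonneg n
      nlinarith
    have h8 := mul_le_mul_of_nonneg_right h7 (sq_nonneg δ)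
    linarith
  have h4 : 3 / 4 ≤ max 0 (1 - B3a_rho q / δ ^ 2) := le_trans (by linarith) (le_max_right _ _)
  unfold B3a_phi
  nlinarith

/-- the bump has the right derivative `B3a_dphi` -/
private theorem B3a_rd {n : ℕ} (δ : ℝ) (x : Mt n) (h : SL n) (c : ℝ → SL n)
    (hc : ∀ a b, HasDerivAt (fun s => (c s).1 a b) (((c 0).1 * x) a b) 0) :
    HasDerivAt (fun s => B3a_phi δ (h * c s)) (B3a_dphi δ x (h * c 0)) 0 := by
  have h1 : ∀ a b, HasDerivAt (fun s => (h * c s).1 a b) (((h * c 0).1 * x) a b) 0 := by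
    intro a b
    have e1 : (fun s => (h * c s).1 a b) = fun s => ∑ k, h.1 a k * (c s).1 k b := by
      funext s
      show (h.1 * (c s).1) a b = _
      rw [Matrix.mul_apply]
    have e2 : ((h * c 0).1 * x) a b = ∑ k, h.1 a k * ((c 0).1 * x) k b := by
      show (h.1 * (c 0).1 * x) a b = _
      rw [Matrix.mul_assoc, Matrix.mul_apply]
    rw [e1, e2]
    exact HasDerivAt.fun_sum fun k _ => (hc k b).const_mul _
  have h2 : HasDerivAt (fun s => B3a_rho (h * c s)) (B3a_dr x (h * c 0)) 0 := by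
    unfold B3a_rho B3a_dr
    refine HasDerivAt.fun_sum fun a _ => HasDerivAt.fun_sum fun b _ => ?_
    have h3 := ((h1 a b).sub_const ((1 : Mt n) a b)).fun_pow 2
    have e : 2 * ((h * c 0).1 a b - (1 : Mt n) a b) * ((h * c 0).1 * x) a b =
        ((2 : ℕ) : ℝ) * ((h * c 0).1 a b - (1 : Mt n) a b) ^ (2 - 1) * ((h * c 0).1 * x) a b := by
      norm_num
    rw [e]
    exact h3
  have h4 : HasDerivAt (fun s => 1 - B3a_rho (h * c s) / δ ^ 2) (-(B3a_dr x (h * c 0) / δ ^ 2)) 0 :=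
    (h2.div_const _).const_sub 1
  have h5 := (B3a_pp (1 - B3a_rho (h * c 0) / δ ^ 2)).comp (0 : ℝ) h4
  exact h5.const_mul 4

/-- elements with entries at most two -/
private def B3a_B (n : ℕ) : Set (SL n) := {q : SL n | ∀ i j, |q.1 i j| ≤ 2}

private theorem B3a_B_nhds {n : ℕ} : B3a_B n ∈ 𝓝 (1 : SL n) := by
  have h1 : ∀ i j : Fin n, ∀ᶠ q : SL n in 𝓝 1, |q.1 i j| ≤ 2 := by
    intro i j
    have hcont : ContinuousAt (fun q : SL n => |q.1 i j|) 1 := (B3a_cent i j).abs.continuousAt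
    have hlt : |(1 : SL n).1 i j| < 2 := by
      have := B3a_ab_one i j
      show |(1 : Mt n) i j| < 2
      linarith
    exact (hcont.eventually (gt_mem_nhds hlt)).mono fun q hq => hq.le
  have h2 : ∀ᶠ q : SL n in 𝓝 1, ∀ i j, |q.1 i j| ≤ 2 :=
    Filter.eventually_all.2 fun i => Filter.eventually_all.2 fun j => h1 i j
  exact h2

private theorem B3a_B_of {n : ℕ} (q : SL n) (h : dE q ≤ 1) : q ∈ B3a_B n := by
  intro a b
  unfold dE at h
  rw [Matrix.norm_le_iff zero_le_one] at h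
  have h1 := h a b
  rw [Real.norm_eq_abs] at h1
  have h1' : |q.1 a b - (1 : Mt n) a b| ≤ 1 := h1
  have h2 := B3a_ab_one a b
  have h3 : q.1 a b = (q.1 a b - (1 : Mt n) a b) + (1 : Mt n) a b := by ring
  rw [h3]
  refine (abs_add_le _ _).trans ?_
  linarith

/-- orbit sums -/
private noncomputable def B3a_S {n : ℕ} (Γ : Subgroup (SL n)) (g0 : SL n) (f : Fn n) : Fn n :=
  fun g => ∑ᶠ γ : Γ, f (g0⁻¹ * ((γ : SL n) * g))

private theorem B3a_loc {n : ℕ} (Γ : Subgroup (SL n)) (hd : Disc Γ) (g0 g1 : SL n) :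
    ∃ S : Finset Γ, ∀ᶠ g in 𝓝 g1, ∀ f : Fn n, (∀ q, f q ≠ 0 → dE q ≤ 1) →
      B3a_S Γ g0 f g = ∑ γ ∈ S, f (g0⁻¹ * ((γ : SL n) * g)) := by
  classical
  have hK : IsCompact ((fun p : SL n × SL n => g0 * p.1 * p.2⁻¹ * g1⁻¹) ''
      (B3a_B n ×ˢ B3a_B n)) := by
    apply ((bounded_compact (n := n) 2).prod (bounded_compact (n := n) 2)).image
    fun_prop
  have hfin := disc_finite Γ hd _ hK
  have hfin2 : {γ : Γ | (γ : SL n) ∈ ((fun p : SL n × SL n => g0 * p.1 * p.2⁻¹ * g1⁻¹) ''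
      (B3a_B n ×ˢ B3a_B n))}.Finite := by
    have h1 := hfin.preimage (f := fun γ : Γ => (γ : SL n)) (Subtype.val_injective.injOn)
    refine h1.subset ?_
    intro γ hγ
    exact ⟨γ.2, hγ⟩
  refine ⟨hfin2.toFinset, ?_⟩
  have hev : ∀ᶠ g in 𝓝 g1, g1⁻¹ * g ∈ B3a_B n := by
    have hcont : Continuous fun g : SL n => g1⁻¹ * g := by fun_prop
    have h1 := hcont.tendsto g1
    simp only [inv_mul_cancel] at h1
    exact h1 B3a_B_nhds
  filter_upwards [hev] with g hg f hf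
  unfold B3a_S
  apply finsum_eq_sum_of_support_subset
  intro γ hγ
  rw [Function.mem_support] at hγ
  have h1 := B3a_B_of _ (hf _ hγ)
  simp only [Set.Finite.coe_toFinset, Set.mem_ofPred_eq]
  refine ⟨(g0⁻¹ * ((γ : SL n) * g), g1⁻¹ * g), ⟨h1, hg⟩, ?_⟩
  show g0 * (g0⁻¹ * ((γ : SL n) * g)) * (g1⁻¹ * g)⁻¹ * g1⁻¹ = (γ : SL n)
  group

private theorem B3a_cont {n : ℕ} (Γ : Subgroup (SL n)) (hd : Disc Γ) (g0 : SL n) (f : Fn n)
    (hf : ∀ q, f q ≠ 0 → dE q ≤ 1) (hfc : Continuous f) : Continuous (B3a_S Γ g0 f) := by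
  rw [continuous_iff_continuousAt]
  intro g1
  obtain ⟨S, hS⟩ := B3a_loc Γ hd g0 g1
  have h1 : B3a_S Γ g0 f =ᶠ[𝓝 g1] fun g => ∑ γ ∈ S, f (g0⁻¹ * ((γ : SL n) * g)) :=
    hS.mono fun g hg => hg f hf
  have h2 : Continuous fun g : SL n => ∑ γ ∈ S, f (g0⁻¹ * ((γ : SL n) * g)) := by
    refine continuous_finsetSum _ fun γ _ => hfc.comp ?_
    fun_prop
  exact h2.continuousAt.congr h1.symm

private theorem B3a_inv {n : ℕ} (Γ : Subgroup (SL n)) (g0 : SL n) (f : Fn n) :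
    ∀ γ ∈ Γ, ∀ g, B3a_S Γ g0 f (γ * g) = B3a_S Γ g0 f g := by
  intro γ hγ g
  unfold B3a_S
  rw [← finsum_comp_equiv (Equiv.mulRight (⟨γ, hγ⟩ : Γ))
    (f := fun γ' : Γ => f (g0⁻¹ * ((γ' : SL n) * g)))]
  apply finsum_congr
  intro γ'
  show f (g0⁻¹ * ((γ' : SL n) * (γ * g))) = f (g0⁻¹ * ((γ' : SL n) * γ * g))
  rw [mul_assoc]

/-- the number of terms is bounded uniformly -/
private theorem B3a_num {n : ℕ} (Γ : Subgroup (SL n)) (hd : Disc Γ) (hc : Coc Γ) :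
    ∃ N : ℕ, ∀ (g0 g : SL n), ∃ S : Finset Γ, S.card ≤ N ∧
      ∀ γ : Γ, dE (g0⁻¹ * ((γ : SL n) * g)) ≤ 1 → γ ∈ S := by
  classical
  obtain ⟨Q, hQ, hQ2⟩ := hc
  have hK : IsCompact ((fun p : SL n × SL n × SL n => p.1 * p.2.1 * p.2.2⁻¹) ''
      (Q ×ˢ B3a_B n ×ˢ Q)) := by
    apply (hQ.prod ((bounded_compact (n := n) 2).prod hQ)).image
    fun_prop
  have hfin := disc_finite Γ hd _ hK
  have hfin2 : {γ : Γ | (γ : SL n) ∈ ((fun p : SL n × SL n × SL n => p.1 * p.2.1 * p.2.2⁻¹) ''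
      (Q ×ˢ B3a_B n ×ˢ Q))}.Finite := by
    have h1 := hfin.preimage (f := fun γ : Γ => (γ : SL n)) (Subtype.val_injective.injOn)
    refine h1.subset ?_
    intro γ hγ
    exact ⟨γ.2, hγ⟩
  refine ⟨hfin2.toFinset.card, fun g0 g => ?_⟩
  obtain ⟨η0, hη0, hk0⟩ := hQ2 g0
  obtain ⟨η, hη, hk⟩ := hQ2 g
  refine ⟨hfin2.toFinset.image fun γ : Γ => (⟨η0, hη0⟩ : Γ)⁻¹ * γ * (⟨η, hη⟩ : Γ),
    Finset.card_image_le, fun γ hγ => ?_⟩
  rw [Finset.mem_image]
  refine ⟨(⟨η0, hη0⟩ : Γ) * γ * (⟨η, hη⟩ : Γ)⁻¹, ?_, by group⟩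
  rw [Set.Finite.mem_toFinset]
  refine ⟨(η0 * g0, g0⁻¹ * ((γ : SL n) * g), η * g), ⟨hk0, B3a_B_of _ hγ, hk⟩, ?_⟩
  show η0 * g0 * (g0⁻¹ * ((γ : SL n) * g)) * (η * g)⁻¹ = η0 * (γ : SL n) * η⁻¹
  group

private theorem B3a_bd {n : ℕ} (Γ : Subgroup (SL n)) (N : ℕ) (g0 g : SL n) (S : Finset Γ)
    (hS : S.card ≤ N) (hS2 : ∀ γ : Γ, dE (g0⁻¹ * ((γ : SL n) * g)) ≤ 1 → γ ∈ S) (f : Fn n)
    (M : ℝ) (hM : 0 ≤ M) (hf : ∀ q, f q ≠ 0 → dE q ≤ 1) (hfM : ∀ q, |f q| ≤ M) :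
    |B3a_S Γ g0 f g| ≤ N * M := by
  have h1 : B3a_S Γ g0 f g = ∑ γ ∈ S, f (g0⁻¹ * ((γ : SL n) * g)) := by
    unfold B3a_S
    apply finsum_eq_sum_of_support_subset
    intro γ hγ
    rw [Function.mem_support] at hγ
    exact hS2 γ (hf _ hγ)
  rw [h1]
  refine (Finset.abs_sum_le_sum_abs _ _).trans ?_
  refine (Finset.sum_le_card_nsmul _ _ _ fun γ _ => hfM _).trans ?_
  rw [nsmul_eq_mul]
  apply mul_le_mul_of_nonneg_right _ hM
  exact_mod_cast hS

/-- Row B3a. Bump functions on `Γ \ G`: `F g = ∑_γ φ(g0⁻¹ γ g)`, `φ` a smooth bump of the entries of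
radius δ; the number of terms is bounded uniformly (Disc, Coc). -/
theorem bump {n : ℕ} (Γ : Subgroup (SL n)) (hd : Disc Γ) (hc : Coc Γ) : ∃ C : ℝ, 1 ≤ C ∧
    ∀ (g0 : SL n) (δ : ℝ), 0 < δ → δ ≤ 1 → ∃ F : Fn n, Inv Γ F ∧ (∀ g, 0 ≤ F g) ∧
      BD 1 (C / δ) F ∧ (∀ g, F g ≠ 0 → ∃ γ ∈ Γ, dE (g0⁻¹ * (γ * g)) ≤ δ) ∧
      ∀ q : SL n, dE q ≤ δ / C → 1 ≤ F (g0 * q) := by
  obtain ⟨N, hN⟩ := B3a_num Γ hd hc
  have hN0 : (0 : ℝ) ≤ N := Nat.cast_nonneg N
  have hn0 : (0 : ℝ) ≤ n := Nat.cast_nonneg n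
  set C : ℝ := 1 + N * 4 + N * (32 * (n : ℝ) ^ 3) + 2 * n with hCdef
  have hA : 0 ≤ (N : ℝ) * (32 * (n : ℝ) ^ 3) := by positivity
  have hA2 : 0 ≤ (N : ℝ) * 4 := by positivity
  refine ⟨C, by linarith, fun g0 δ hδ hδ1 => ?_⟩
  have hC1 : 1 ≤ C := by linarith
  have hsp : ∀ q : SL n, B3a_phi δ q ≠ 0 → dE q ≤ 1 := fun q hq =>
    (B3a_phi_supp hδ q hq).trans hδ1
  have hsd : ∀ (x : Mt n) (q : SL n), B3a_dphi δ x q ≠ 0 → dE q ≤ 1 := fun x q hq =>
    (B3a_dphi_supp hδ x q hq).trans hδ1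
  refine ⟨B3a_S Γ g0 (B3a_phi δ), ⟨B3a_cont Γ hd g0 _ hsp (B3a_cphi δ), B3a_inv Γ g0 _⟩,
    fun g => finsum_nonneg fun γ => B3a_phi_nn δ _, ?_, ?_, ?_⟩
  · refine ⟨⟨B3a_cont Γ hd g0 _ hsp (B3a_cphi δ), fun g => ?_⟩, fun x _ hx => ?_⟩
    · obtain ⟨S, hS1, hS2⟩ := hN g0 g
      refine (B3a_bd Γ N g0 g S hS1 hS2 _ 4 (by norm_num) hsp (B3a_phi_le δ)).trans ?_
      rw [le_div_iff₀ hδ]
      have h1 : (N : ℝ) * 4 * δ ≤ N * 4 * 1 := mul_le_mul_of_nonneg_left hδ1 hA2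
      linarith
    · refine ⟨B3a_S Γ g0 (B3a_dphi δ x), ?_, B3a_cont Γ hd g0 _ (hsd x) (B3a_cdphi δ x),
        fun g => ?_⟩
      · intro c hcv
        obtain ⟨S, hS⟩ := B3a_loc Γ hd g0 (c 0)
        have hc0 : ContinuousAt c 0 := by
          unfold ContinuousAt
          refine (Matrix.SpecialLinearGroup.isClosedEmbedding_val
            (n := Fin n) (R := ℝ)).isEmbedding.isInducing.tendsto_nhds_iff.2 ?_
          refine tendsto_pi_nhds.2 fun a => tendsto_pi_nhds.2 fun b => ?_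
          exact (hcv a b).continuousAt
        have h1 : (fun s => B3a_S Γ g0 (B3a_phi δ) (c s)) =ᶠ[𝓝 0]
            fun s => ∑ γ ∈ S, B3a_phi δ ((g0⁻¹ * (γ : SL n)) * c s) := by
          filter_upwards [hc0.eventually hS] with s hs
          rw [hs _ hsp]
          refine Finset.sum_congr rfl fun γ _ => ?_
          rw [mul_assoc]
        have h2 : B3a_S Γ g0 (B3a_dphi δ x) (c 0) =
            ∑ γ ∈ S, B3a_dphi δ x ((g0⁻¹ * (γ : SL n)) * c 0) := by
          rw [hS.self_of_nhds _ (hsd x)]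
          refine Finset.sum_congr rfl fun γ _ => ?_
          rw [mul_assoc]
        rw [h2]
        refine HasDerivAt.congr_of_eventuallyEq ?_ h1
        exact HasDerivAt.fun_sum fun γ _ => B3a_rd δ x _ c hcv
      · obtain ⟨S, hS1, hS2⟩ := hN g0 g
        refine (B3a_bd Γ N g0 g S hS1 hS2 _ (32 * (n : ℝ) ^ 3 / δ) (by positivity) (hsd x)
          (B3a_dphi_le hδ hδ1 x hx)).trans ?_
        rw [← mul_div_assoc]
        apply div_le_div_of_nonneg_right _ hδ.le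
        linarith
  · intro g hg
    by_contra hcon
    push Not at hcon
    apply hg
    unfold B3a_S
    have h1 : ∀ γ : Γ, B3a_phi δ (g0⁻¹ * ((γ : SL n) * g)) = 0 := by
      intro γ
      by_contra h2
      exact absurd (B3a_phi_supp hδ _ h2) (not_le.2 (hcon γ γ.2))
    simp only [h1]
    exact finsum_zero
  · intro q hq
    obtain ⟨S, _, hS2⟩ := hN g0 (g0 * q)
    have h1 : B3a_S Γ g0 (B3a_phi δ) (g0 * q) =
        ∑ γ ∈ S, B3a_phi δ (g0⁻¹ * ((γ : SL n) * (g0 * q))) := by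
      unfold B3a_S
      apply finsum_eq_sum_of_support_subset
      intro γ hγ
      rw [Function.mem_support] at hγ
      exact hS2 γ (hsp _ hγ)
    rw [h1]
    have he : g0⁻¹ * (((1 : Γ) : SL n) * (g0 * q)) = q := by
      rw [Subgroup.coe_one]
      group
    have h3 := B3a_phi_one (δ := δ) hδ hC1 (by linarith : 2 * (n : ℝ) ≤ C) q hq
    have h4 : (1 : Γ) ∈ S := by
      apply hS2
      rw [he]
      refine hq.trans ?_
      rw [div_le_iff₀ (by linarith)]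
      linarith
    have h5 : B3a_phi δ (g0⁻¹ * (((1 : Γ) : SL n) * (g0 * q))) ≤
        ∑ γ ∈ S, B3a_phi δ (g0⁻¹ * ((γ : SL n) * (g0 * q))) :=
      Finset.single_le_sum (f := fun γ : Γ => B3a_phi δ (g0⁻¹ * ((γ : SL n) * (g0 * q))))
        (fun _ _ => B3a_phi_nn δ _) h4
    rw [he] at h5
    exact h3.trans h5

end FL27
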