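import Pool.Agent.LibFL27.DefsB

set_option autoImplicit false
set_option maxSynthPendingDepth 3

open Matrix MeasureTheory Topology Filter LibNC38
open LibNC27 hiding Mt
open scoped Matrix.Norms.Elementwise

namespace FL27

private theorem B4a_key (f f' f'' : ℝ → ℝ) (E K : ℝ) (hK : 0 < K)
    (h1 : ∀ t, HasDerivAt f (f' t) t) (h2 : ∀ t, HasDerivAt f' (f'' t) t)
    (h3 : ∀ t, |f'' t - f'' 0| ≤ K * |t|) (h4 : ∀ t, |t| ≤ 1 → |f t - f 0| ≤ E)
    (h : ℝ) (hh0 : 0 < h) (hh1 : h ≤ 1) : |f'' 0| * h ^ 2 ≤ 2 * E + 2 * K * h ^ 3 := by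
  have hneg : ∀ t : ℝ, HasDerivAt (fun t : ℝ => -t) (-1) t := fun t => (hasDerivAt_id t).neg
  have hg' : ∀ t, HasDerivAt (fun t => f' t - f' (-t) - 2 * t * f'' 0)
      (f'' t + f'' (-t) - 2 * f'' 0) t := by
    intro t
    have ha := h2 t
    have hb : HasDerivAt (fun t => f' (-t)) (f'' (-t) * (-1)) t := (h2 (-t)).comp t (hneg t)
    have hc : HasDerivAt (fun t : ℝ => 2 * t * f'' 0) (2 * f'' 0) t := by
      have := ((hasDerivAt_id t).const_mul (2 : ℝ)).mul_const (f'' 0)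
      simpa using this
    exact ((ha.sub hb).sub hc).congr_deriv (by ring)
  have hg : ∀ t, HasDerivAt (fun t => f t + f (-t) - 2 * f 0 - t ^ 2 * f'' 0)
      (f' t - f' (-t) - 2 * t * f'' 0) t := by
    intro t
    have ha := h1 t
    have hb : HasDerivAt (fun t => f (-t)) (f' (-t) * (-1)) t := (h1 (-t)).comp t (hneg t)
    have hc : HasDerivAt (fun t : ℝ => t ^ 2 * f'' 0) (2 * t * f'' 0) t := by
      have := ((hasDerivAt_id t).pow 2).mul_const (f'' 0)
      simpa using this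
    exact (((ha.add hb).sub_const (2 * f 0)).sub hc).congr_deriv (by ring)
  have b1 : ∀ t ∈ Set.Icc (0 : ℝ) h, |f'' t + f'' (-t) - 2 * f'' 0| ≤ 2 * K * h := by
    intro t ht
    have c1 := h3 t
    have c2 := h3 (-t)
    rw [abs_neg] at c2
    rw [abs_of_nonneg ht.1] at c1 c2
    have c3 : f'' t + f'' (-t) - 2 * f'' 0 = (f'' t - f'' 0) + (f'' (-t) - f'' 0) := by ring
    rw [c3]
    refine le_trans (abs_add_le _ _) ?_
    nlinarith [ht.2]
  have b2 : ∀ t ∈ Set.Icc (0 : ℝ) h, |f' t - f' (-t) - 2 * t * f'' 0| ≤ 2 * K * h * h := by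
    intro t ht
    have c1 := Convex.norm_image_sub_le_of_norm_hasDerivWithin_le
      (f := fun t => f' t - f' (-t) - 2 * t * f'' 0) (f' := fun t => f'' t + f'' (-t) - 2 * f'' 0)
      (C := 2 * K * h) (s := Set.Icc 0 h) (x := 0) (y := t)
      (fun x _ => (hg' x).hasDerivWithinAt) b1 (convex_Icc 0 h) ⟨le_refl _, hh0.le⟩ ht
    simp only [neg_zero, sub_self, mul_zero, zero_mul, sub_zero, Real.norm_eq_abs] at c1
    rw [abs_of_nonneg ht.1] at c1
    refine le_trans c1 ?_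
    exact mul_le_mul_of_nonneg_left ht.2 (by positivity)
  have c1 := Convex.norm_image_sub_le_of_norm_hasDerivWithin_le
      (f := fun t => f t + f (-t) - 2 * f 0 - t ^ 2 * f'' 0)
      (f' := fun t => f' t - f' (-t) - 2 * t * f'' 0)
      (C := 2 * K * h * h) (s := Set.Icc 0 h) (x := 0) (y := h)
      (fun x _ => (hg x).hasDerivWithinAt) b2 (convex_Icc 0 h) ⟨le_refl _, hh0.le⟩ ⟨hh0.le, le_refl _⟩
  have c2 : (f 0 + f (-0) - 2 * f 0 - (0 : ℝ) ^ 2 * f'' 0) = 0 := by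
    rw [neg_zero]; ring
  simp only [c2, sub_zero, Real.norm_eq_abs] at c1
  rw [abs_of_pos hh0] at c1
  have c3 := h4 h (by rw [abs_of_pos hh0]; exact hh1)
  have c4 := h4 (-h) (by rw [abs_neg, abs_of_pos hh0]; exact hh1)
  have c5 : |f'' 0| * h ^ 2 = |h ^ 2 * f'' 0| := by
    rw [abs_mul, abs_of_nonneg (sq_nonneg h), mul_comm]
  rw [c5]
  have c6 : h ^ 2 * f'' 0 = (f h - f 0) + (f (-h) - f 0) -
      (f h + f (-h) - 2 * f 0 - h ^ 2 * f'' 0) := by ring
  rw [c6]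
  have c7 := abs_sub ((f h - f 0) + (f (-h) - f 0)) (f h + f (-h) - 2 * f 0 - h ^ 2 * f'' 0)
  have c8 := abs_add_le (f h - f 0) (f (-h) - f 0)
  nlinarith

/-- Row B4a. Second difference. -/
theorem second_diff (f f' f'' : ℝ → ℝ) (E K : ℝ) (hE : 0 ≤ E) (hK : 0 < K) (hEK : E ≤ K)
    (h1 : ∀ t, HasDerivAt f (f' t) t) (h2 : ∀ t, HasDerivAt f' (f'' t) t)
    (h3 : ∀ t, |f'' t - f'' 0| ≤ K * |t|) (h4 : ∀ t, |t| ≤ 1 → |f t - f 0| ≤ E) :
    |f'' 0| ≤ 4 * E ^ (1 / 3 : ℝ) * K ^ (2 / 3 : ℝ) := by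
  rcases hE.eq_or_lt with hE0 | hE0
  · subst hE0
    have hz : |f'' 0| ≤ 0 := by
      refine le_of_forall_pos_le_add fun ε hε => ?_
      have hm : 0 < min 1 (ε / (2 * K)) := lt_min one_pos (by positivity)
      have := B4a_key f f' f'' 0 K hK h1 h2 h3 h4 (min 1 (ε / (2 * K))) hm (min_le_left _ _)
      set h := min 1 (ε / (2 * K)) with hh
      have hle : h ≤ ε / (2 * K) := min_le_right _ _
      have h5 : |f'' 0| * h ^ 2 ≤ (2 * K * h) * h ^ 2 := by nlinarith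
      have h6 : |f'' 0| ≤ 2 * K * h := le_of_mul_le_mul_right h5 (by positivity)
      have h7 : h * (2 * K) ≤ ε := (le_div_iff₀ (by positivity)).mp hle
      linarith
    refine le_trans hz ?_
    positivity
  · set h : ℝ := (E / K) ^ (1 / 3 : ℝ) with hh
    have hEK0 : 0 < E / K := by positivity
    have hh0 : 0 < h := Real.rpow_pos_of_pos hEK0 _
    have hh1 : h ≤ 1 := Real.rpow_le_one hEK0.le ((div_le_one hK).mpr hEK) (by norm_num)
    have hkey := B4a_key f f' f'' E K hK h1 h2 h3 h4 h hh0 hh1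
    set x : ℝ := E ^ (1 / 3 : ℝ) with hx
    set y : ℝ := K ^ (1 / 3 : ℝ) with hy
    have hx0 : 0 < x := Real.rpow_pos_of_pos hE0 _
    have hy0 : 0 < y := Real.rpow_pos_of_pos hK _
    have hx3 : x ^ 3 = E := by
      rw [hx, ← Real.rpow_natCast, ← Real.rpow_mul hE0.le]
      norm_num
    have hy3 : y ^ 3 = K := by
      rw [hy, ← Real.rpow_natCast, ← Real.rpow_mul hK.le]
      norm_num
    have hy2 : K ^ (2 / 3 : ℝ) = y ^ 2 := by
      rw [hy, ← Real.rpow_natCast, ← Real.rpow_mul hK.le]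
      norm_num
    have hhxy : h * y = x := by
      rw [hh, Real.div_rpow hE0.le hK.le]
      exact div_mul_cancel₀ _ hy0.ne'
    rw [hy2]
    rw [← hx3, ← hy3] at hkey
    have h8 : (|f'' 0| * h ^ 2) ≤ (4 * x * y ^ 2) * h ^ 2 := by
      have e1 : 2 * x ^ 3 + 2 * y ^ 3 * h ^ 3 = (4 * x * y ^ 2) * h ^ 2 := by
        rw [← hhxy]
        ring
      linarith
    exact le_of_mul_le_mul_right h8 (by positivity)

end FL27
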