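import Pool.Agent.LibFL27.B0
import Pool.Agent.LibFL27.B4a
import Pool.Agent.LibFL27.DefsB

set_option autoImplicit false
set_option maxSynthPendingDepth 3

open Matrix MeasureTheory Topology Filter LibNC38
open LibNC27 hiding Mt
open scoped Matrix.Norms.Elementwise

namespace FL27

private theorem B4b_add {n : ℕ} (y z : V0 n) : dgm (y + z) = dgm y * dgm z :=
  (dgm_facts (n := n)).1 y z

private theorem B4b_cont {n : ℕ} : Continuous fun v : V0 n => dgm v :=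
  (dgm_facts (n := n)).2.2.2.2.2

/-- derivative along the flow at any time -/
private theorem B4b_deriv {n : ℕ} (φ φ' : Fn n) (w : V0 n) (h1 : Rd w φ φ') (x : SL n) (z : V0 n)
    (t : ℝ) : HasDerivAt (fun t : ℝ => φ (x * dgm (t • w + z))) (φ' (x * dgm (t • w + z))) t := by
  have h' : HasDerivAt (fun τ : ℝ => φ (x * dgm (t • w + z) * dgm (τ • w)))
      (φ' (x * dgm (t • w + z))) (t - t) := by
    rw [sub_self]
    exact h1 (x * dgm (t • w + z))
  have h2 := h'.comp_sub_const t t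
  have e : (fun τ : ℝ => φ (x * dgm (τ • w + z))) =
      fun τ : ℝ => φ (x * dgm (t • w + z) * dgm ((τ - t) • w)) := by
    funext τ
    rw [mul_assoc, ← B4b_add]
    congr 3
    rw [sub_smul]
    abel
  rw [e]
  exact h2

/-- differentiation under the integral -/
private theorem B4b_int {n : ℕ} (φ φ' : Fn n) (hφ : Continuous φ) (hφ' : Continuous φ') (w : V0 n)
    (h1 : Rd w φ φ') (B : ℝ) (hB : ∀ g, |φ' g| ≤ B) (x : SL n) (v : V0 n) (t : ℝ) :
    HasDerivAt (fun t : ℝ => ∫ s in (0 : ℝ)..1, φ (x * dgm (t • w + s • v)))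
      (∫ s in (0 : ℝ)..1, φ' (x * dgm (t • w + s • v))) t := by
  have hc : ∀ (ψ : Fn n), Continuous ψ → ∀ t : ℝ, Continuous fun s : ℝ => ψ (x * dgm (t • w + s • v)) := by
    intro ψ hψ t
    refine hψ.comp (continuous_const.mul (B4b_cont.comp ?_))
    exact continuous_const.add (continuous_id.smul continuous_const)
  refine (intervalIntegral.hasDerivAt_integral_of_dominated_loc_of_deriv_le (bound := fun _ => B)
    (s := Set.univ) (F := fun t s => φ (x * dgm (t • w + s • v)))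
    (F' := fun t s => φ' (x * dgm (t • w + s • v))) Filter.univ_mem
    (Eventually.of_forall fun t => (hc φ hφ t).aestronglyMeasurable)
    ((hc φ hφ t).intervalIntegrable _ _) (hc φ' hφ' t).aestronglyMeasurable
    (Eventually.of_forall fun s _ t _ => ?_) intervalIntegrable_const
    (Eventually.of_forall fun s _ t _ => ?_)).2
  · rw [Real.norm_eq_abs]
    exact hB _
  · exact B4b_deriv φ φ' w h1 x (s • v) t

/-- monotonicity of `BD` -/
private theorem B4b_BD_succ {n : ℕ} (k : ℕ) (M : ℝ) (F : Fn n) (h : BD (k + 1) M F) : BD k M F := by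
  induction k generalizing F with
  | zero => exact h.1
  | succ k ih =>
    refine ⟨h.1, fun x hx hx1 => ?_⟩
    obtain ⟨F', h1, h2⟩ := h.2 x hx hx1
    exact ⟨F', h1, ih F' h2⟩

private theorem B4b_BD_mono {n : ℕ} (k m : ℕ) (hkm : k ≤ m) (M : ℝ) (F : Fn n) (h : BD m M F) :
    BD k M F := by
  induction m, hkm using Nat.le_induction with
  | base => exact h
  | succ m _ ih => exact ih (B4b_BD_succ m M F h)

private theorem B4b_near {n : ℕ} (Γ : Subgroup (SL n)) (k m : ℕ) (hkm : k ≤ m) (δ : ℝ)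
    (h : PD n → Fm n) (hN : Near Γ m δ h) : Near Γ k δ h :=
  ⟨hN.ok, hN.pos, fun v w hv hw hv1 hw1 => B4b_BD_mono k m hkm δ _ (hN.tb v w hv hw hv1 hw1), hN.nc⟩

private theorem B4b_ok {n : ℕ} (Γ : Subgroup (SL n)) (h : PD n → Fm n) (hh : FmOK Γ h) :
    FmOK Γ (fun p => h p - gF p) := by
  have hg := fmOK_gF (n := n) Γ
  refine ⟨fun v w => ?_, fun p v w => ?_, fun γ hγ p v hv => ?_⟩
  · exact (hh.cont v w).sub (hg.cont v w)
  · show h p v w - gF p v w = h p w v - gF p w v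
    rw [hh.symm, hg.symm]
  · show h _ _ _ - gF _ _ _ = h p v v - gF p v v
    rw [hh.inv γ hγ p v hv, hg.inv γ hγ p v hv]

/-- a function with `BD 1 M` is Lipschitz along the flow -/
private theorem B4b_lip {n : ℕ} (M : ℝ) (F : Fn n) (h : BD 1 M F) (w : V0 n) (hw : ‖w‖ ≤ 1)
    (x : SL n) (z : V0 n) (t : ℝ) :
    |F (x * dgm (t • w + z)) - F (x * dgm ((0 : ℝ) • w + z))| ≤ M * |t| := by
  obtain ⟨F', h1, h2⟩ := h.2 (dM w) (by
    show (Matrix.diagonal fun i => w.1 i).trace = 0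
    rw [Matrix.trace_diagonal]
    exact sum_V0 w) (by
    intro a b
    show |(Matrix.diagonal fun i => w.1 i) a b| ≤ 1
    rw [Matrix.diagonal_apply]
    split_ifs
    · have h3 : ‖w.1 a‖ ≤ ‖w.1‖ := PiLp.norm_apply_le w.1 a
      rw [Real.norm_eq_abs] at h3
      exact h3.trans hw
    · simp)
  have hRd : Rd w F F' := by
    intro g
    have h3 := h1 (fun s => g * dgm (s • w)) (fun a b => by
      have e1 : (fun s : ℝ => (g * dgm (s • w)).1 a b) = fun s => g.1 a b * Real.exp (s * w.1 b) := by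
        funext s
        show (g.1 * (Matrix.diagonal fun i => Real.exp ((s • w).1 i))) a b = _
        rw [Matrix.mul_diagonal]
        rfl
      have e2 : ((g * dgm ((0 : ℝ) • w)).1 * dM w) a b = g.1 a b * (Real.exp (0 * w.1 b) * w.1 b) := by
        rw [(dgm_facts (n := n)).2.2.1 w, mul_one]
        show (g.1 * (Matrix.diagonal fun i => w.1 i)) a b = _
        rw [Matrix.mul_diagonal, zero_mul, Real.exp_zero, one_mul]
      rw [e1, e2]
      refine HasDerivAt.const_mul _ ?_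
      have h4 : HasDerivAt (fun s : ℝ => s * w.1 b) (w.1 b) 0 := by
        simpa using (hasDerivAt_id (0 : ℝ)).mul_const (w.1 b)
      exact h4.exp)
    have e3 : g * dgm ((0 : ℝ) • w) = g := by
      rw [(dgm_facts (n := n)).2.2.1 w, mul_one]
    simpa only [e3] using h3
  have h5 := Convex.norm_image_sub_le_of_norm_hasDerivWithin_le (s := (Set.univ : Set ℝ))
    (f := fun t : ℝ => F (x * dgm (t • w + z))) (f' := fun t : ℝ => F' (x * dgm (t • w + z))) (C := M)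
    (fun t _ => (B4b_deriv F F' w hRd x z t).hasDerivWithinAt)
    (fun t _ => by rw [Real.norm_eq_abs]; exact h2.2 _) convex_univ (Set.mem_univ (0 : ℝ))
    (Set.mem_univ t)
  simpa only [Real.norm_eq_abs, sub_zero] using h5

/-- Row B4b. Second derivative of the X-ray over closed geodesics, from board A, B0 and B4a with
`E = C ‖v‖² δ^{3/2} L/η`, `K = C ‖v‖² δ`, f(t) = ∫_0^1 J(v,v)(x D(t w + s v)) ds. -/
theorem xray2 (hA : AStat) {n : ℕ} (hn : 3 ≤ n) (Γ : Subgroup (SL n)) (hd : Disc Γ) (hc : Coc Γ) :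
    ∃ C : ℝ, 1 ≤ C ∧ ∀ (h : PD n → Fm n) (δ : ℝ), 0 < δ → C * δ ≤ 1 → Near Γ 6 δ h →
    ∀ (J : Mt n →ₗ[ℝ] Mt n →ₗ[ℝ] Fn n) (J1 : Mt n →ₗ[ℝ] Mt n →ₗ[ℝ] Mt n →ₗ[ℝ] Fn n)
      (J2 : Mt n →ₗ[ℝ] Mt n →ₗ[ℝ] Mt n →ₗ[ℝ] Mt n →ₗ[ℝ] Fn n), Jm Γ J J1 J2 →
      (∀ v w g, J v w g = Jf (fun p => h p - gF p) v w g) →
    ∀ (x : SL n) (v : V0 n) (η L : ℝ), 0 < η → η ≤ 1 →
      (∀ i j : Fin n, i < j → v.1 j + η * ‖v‖ ≤ v.1 i) →
      1 ≤ η * ‖v‖ → ‖v‖ ≤ L → C * δ * L ^ 2 ≤ η ^ 2 → x * dgm v * x⁻¹ ∈ Γ → ∀ w : V0 n, ‖w‖ ≤ 1 →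
      |∫ s in (0 : ℝ)..1, J2 (dM w) (dM w) (dM v) (dM v) (x * dgm (s • v))| ≤
        C * ‖v‖ ^ 2 * δ * (δ * (L / η) ^ 2) ^ (1 / 6 : ℝ) := by
  obtain ⟨CA, hCA, HA⟩ := hA n hn Γ hd hc
  obtain ⟨CB, hCB, HB⟩ := jm_bounds n
  refine ⟨4 * (CA + CB), by linarith, ?_⟩
  intro h δ hδ hCδ hN J J1 J2 HJ hJ x v η L hη hη1 hgap hηv hvL hCL hx w hw
  have hv1 : 1 ≤ ‖v‖ := by
    have h0 : (0 : ℝ) ≤ ‖v‖ := norm_nonneg v
    nlinarith
  have hv0 : 0 < ‖v‖ := by linarith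
  have hL1 : 1 ≤ L := by linarith
  have hδL : δ * L ^ 2 ≤ η ^ 2 := by
    have : 0 ≤ δ * L ^ 2 := by positivity
    nlinarith
  have hM0 : 0 < CA + CB := by linarith
  obtain ⟨A, A1, A2, eA, eA1, eA2, hAb⟩ := ab_of_jm Γ hc J J1 J2 HJ
  -- unit vector
  set u : V0 n := ‖v‖⁻¹ • v with hu
  have hvu : v = ‖v‖ • u := by
    rw [hu, smul_smul, mul_inv_cancel₀ hv0.ne', one_smul]
  have hun : ‖u‖ ≤ 2 := by
    rw [hu, norm_smul, norm_inv, norm_norm, inv_mul_cancel₀ hv0.ne']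
    norm_num
  have hw2 : ‖w‖ ≤ 2 := by linarith
  have hscale1 : ∀ g, A1 w v v g = ‖v‖ ^ 2 * A1 w u u g := by
    intro g
    conv_lhs => rw [hvu]
    simp only [map_smul, LinearMap.smul_apply, Pi.smul_apply, smul_eq_mul]
    ring
  have hscale2 : ∀ g, A2 w w v v g = ‖v‖ ^ 2 * A2 w w u u g := by
    intro g
    conv_lhs => rw [hvu]
    simp only [map_smul, LinearMap.smul_apply, Pi.smul_apply, smul_eq_mul]
    ring
  obtain ⟨b0, b1, b2, b3⟩ := HB Γ (fun p => h p - gF p) δ hδ.le (B4b_ok Γ h hN.ok)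
    (B4b_near Γ 4 6 (by norm_num) δ h hN).tb J J1 J2 HJ hJ w w u u hw2 hw2 hun hun
  have hb1 : ∀ g, |A1 w v v g| ≤ ‖v‖ ^ 2 * (CB * δ) := by
    intro g
    rw [hscale1, abs_mul, abs_of_nonneg (by positivity : (0 : ℝ) ≤ ‖v‖ ^ 2), eA1]
    exact mul_le_mul_of_nonneg_left (b1.bd g) (by positivity)
  have hb2 : ∀ g, |A2 w w v v g| ≤ ‖v‖ ^ 2 * (CB * δ) := by
    intro g
    rw [hscale2, abs_mul, abs_of_nonneg (by positivity : (0 : ℝ) ≤ ‖v‖ ^ 2), eA2]
    exact mul_le_mul_of_nonneg_left (b2.bd g) (by positivity)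
  -- the functions
  set f : ℝ → ℝ := fun t => ∫ s in (0 : ℝ)..1, A v v (x * dgm (t • w + s • v)) with hf
  set f' : ℝ → ℝ := fun t => ∫ s in (0 : ℝ)..1, A1 w v v (x * dgm (t • w + s • v)) with hf'
  set f'' : ℝ → ℝ := fun t => ∫ s in (0 : ℝ)..1, A2 w w v v (x * dgm (t • w + s • v)) with hf''
  have k1 : ∀ t, HasDerivAt f (f' t) t := fun t =>
    B4b_int (A v v) (A1 w v v) (hAb.inv0 v v).cont (hAb.inv1 w v v).cont w (hAb.d1 w v v) _ hb1 x v t
  have k2 : ∀ t, HasDerivAt f' (f'' t) t := fun t =>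
    B4b_int (A1 w v v) (A2 w w v v) (hAb.inv1 w v v).cont (hAb.inv2 w w v v).cont w
      (hAb.d2 w w v v) _ hb2 x v t
  set r : ℝ := √δ * (L / η) with hr
  have hL0 : 0 < L := by linarith
  have hr0 : 0 < r := by positivity
  have hr2 : r ^ 2 = δ * (L / η) ^ 2 := by
    rw [hr, mul_pow, Real.sq_sqrt hδ.le]
  have hr1 : r ≤ 1 := by
    have : r ^ 2 ≤ 1 := by
      rw [hr2, div_pow, ← mul_div_assoc, div_le_one (by positivity)]
      exact hδL
    nlinarith
  set K : ℝ := (CA + CB) * (‖v‖ ^ 2 * δ) with hK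
  have hK0 : 0 < K := by positivity
  have k3 : ∀ t, |f'' t - f'' 0| ≤ K * |t| := by
    intro t
    have hcc : ∀ t : ℝ, Continuous fun s : ℝ => A2 w w v v (x * dgm (t • w + s • v)) := by
      intro t
      refine (hAb.inv2 w w v v).cont.comp (continuous_const.mul (B4b_cont.comp ?_))
      exact continuous_const.add (continuous_id.smul continuous_const)
    have e : f'' t - f'' 0 = ∫ s in (0 : ℝ)..1, (A2 w w v v (x * dgm (t • w + s • v)) -
        A2 w w v v (x * dgm ((0 : ℝ) • w + s • v))) := by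
      rw [hf'', intervalIntegral.integral_sub ((hcc t).intervalIntegrable _ _)
        ((hcc 0).intervalIntegrable _ _)]
    rw [e, ← Real.norm_eq_abs]
    refine (intervalIntegral.norm_integral_le_of_norm_le_const (C := K * |t|) fun s _ => ?_).trans
      (by simp)
    rw [Real.norm_eq_abs, hscale2, hscale2, ← mul_sub, abs_mul,
      abs_of_nonneg (by positivity : (0 : ℝ) ≤ ‖v‖ ^ 2), eA2]
    have h3 := B4b_lip (CB * δ) _ b3 w hw x (s • v) t
    calc ‖v‖ ^ 2 * |J2 (dM w) (dM w) (dM u) (dM u) (x * dgm (t • w + s • v)) -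
          J2 (dM w) (dM w) (dM u) (dM u) (x * dgm ((0 : ℝ) • w + s • v))|
        ≤ ‖v‖ ^ 2 * (CB * δ * |t|) := mul_le_mul_of_nonneg_left h3 (by positivity)
      _ ≤ K * |t| := by
        rw [hK]
        have : 0 ≤ CA * (‖v‖ ^ 2 * δ) * |t| := by positivity
        nlinarith
  have k4 : ∀ t, |t| ≤ 1 → |f t - f 0| ≤ K * r := by
    intro t _
    have h4 := HA h δ hδ (by nlinarith) (B4b_near Γ 1 6 (by norm_num) δ h hN) x v η L hη hη1 hgap hηv
      hvL ?_ hx (t • w) ((0 : ℝ) • w)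
    · have e : ∀ y : V0 n, (∫ s in (0 : ℝ)..1, Jf (fun p => h p - gF p) (dM v) (dM v)
          (x * dgm (y + s • v))) = ∫ s in (0 : ℝ)..1, A v v (x * dgm (y + s • v)) := by
        intro y
        refine intervalIntegral.integral_congr fun s _ => ?_
        simp only [eA, hJ]
      rw [e, e] at h4
      refine h4.trans ?_
      rw [hK, hr]
      have h5 : CA * ‖v‖ ^ 2 * (δ * √δ) * (L / η) = CA * (‖v‖ ^ 2 * δ) * (√δ * (L / η)) := by ring
      rw [h5]
      have : 0 ≤ CB * (‖v‖ ^ 2 * δ) * (√δ * (L / η)) := by positivity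
      nlinarith
    · -- CA * δ * L ≤ η
      have h6 : 4 * (CA + CB) * δ * L ≤ 4 * (CA + CB) * δ * L ^ 2 := by
        have h9 : 0 ≤ 4 * (CA + CB) * δ := by positivity
        have h10 : L ≤ L ^ 2 := by nlinarith
        exact mul_le_mul_of_nonneg_left h10 h9
      have h7 : CA * δ * L ≤ 4 * (CA + CB) * δ * L := by
        have : 0 ≤ δ * L := by positivity
        nlinarith
      have h8 : η ^ 2 ≤ η := by nlinarith
      linarith
  have key := second_diff f f' f'' (K * r) K (by positivity) hK0 (by nlinarith) k1 k2 k3 k4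
  have e0 : f'' 0 = ∫ s in (0 : ℝ)..1, J2 (dM w) (dM w) (dM v) (dM v) (x * dgm (s • v)) := by
    rw [hf'']
    refine intervalIntegral.integral_congr fun s _ => ?_
    simp only [zero_smul, zero_add, eA2]
  rw [e0] at key
  refine key.trans ?_
  have e1 : (K * r) ^ (1 / 3 : ℝ) = K ^ (1 / 3 : ℝ) * r ^ (1 / 3 : ℝ) :=
    Real.mul_rpow hK0.le hr0.le
  have e2 : K ^ (1 / 3 : ℝ) * K ^ (2 / 3 : ℝ) = K := by
    rw [← Real.rpow_add hK0]
    norm_num
  have e3 : (δ * (L / η) ^ 2) ^ (1 / 6 : ℝ) = r ^ (1 / 3 : ℝ) := by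
    rw [← hr2, ← Real.rpow_natCast r 2, ← Real.rpow_mul hr0.le]
    norm_num
  rw [e1, e3, show 4 * (K ^ (1 / 3 : ℝ) * r ^ (1 / 3 : ℝ)) * K ^ (2 / 3 : ℝ) =
    4 * (K ^ (1 / 3 : ℝ) * K ^ (2 / 3 : ℝ)) * r ^ (1 / 3 : ℝ) by ring, e2, hK]
  apply le_of_eq
  ring

end FL27
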