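import Pool.Agent.LibFL27.DefsB

set_option autoImplicit false
set_option maxSynthPendingDepth 3

open Matrix MeasureTheory Topology Filter LibNC38
open LibNC27 hiding Mt
open scoped Matrix.Norms.Elementwise

namespace FL27

private theorem B4c_det {n : ℕ} (x : Mt n) (hx : x.trace = 0) :
    HasDerivAt (fun s : ℝ => (1 + s • x : Mt n).det) 0 0 := by
  set P := ((1 + (Polynomial.X : Polynomial ℝ) • x.map Polynomial.C).det).divX.divX with hP
  have h : (fun s : ℝ => (1 + s • x : Mt n).det) = fun s => 1 + P.eval s * s ^ 2 := by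
    funext s
    rw [Matrix.det_one_add_smul, hx]
    ring
  rw [h]
  have h1 : HasDerivAt (fun s : ℝ => P.eval s * s ^ 2)
      (P.derivative.eval 0 * 0 ^ 2 + P.eval 0 * (2 * 0 ^ 1 * 1)) 0 := by
    refine (P.hasDerivAt 0).mul ?_
    have h := hasDerivAt_pow 2 (0 : ℝ)
    exact h.congr_deriv (by simp)
  have h2 := h1.const_add 1
  refine h2.congr_deriv ?_
  ring

private theorem B4c_curve {n : ℕ} (x : Mt n) (hx : x.trace = 0) :
    ∃ u : ℝ → SL n, u 0 = 1 ∧ ∀ a b, HasDerivAt (fun s => (u s).1 a b) (x a b) 0 := by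
  rcases n with _ | n
  · exact ⟨fun _ => 1, rfl, fun a => a.elim0⟩
  classical
  set d : ℝ → ℝ := fun s => (1 + s • x : Mt (n + 1)).det with hd
  have hd0 : d 0 = 1 := by simp [hd]
  have hdd : HasDerivAt d 0 0 := B4c_det x hx
  have hdet : ∀ s, d s ≠ 0 →
      ((1 + s • x : Mt (n + 1)).updateRow 0 ((d s)⁻¹ • (1 + s • x : Mt (n + 1)) 0)).det = 1 := by
    intro s hs
    rw [Matrix.det_updateRow_smul, Matrix.updateRow_eq_self]
    exact inv_mul_cancel₀ hs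
  let u : ℝ → SL (n + 1) := fun s =>
    if h : d s ≠ 0 then
      ⟨(1 + s • x : Mt (n + 1)).updateRow 0 ((d s)⁻¹ • (1 + s • x : Mt (n + 1)) 0), hdet s h⟩ else 1
  have hu : ∀ s, d s ≠ 0 → (u s).1 =
      (1 + s • x : Mt (n + 1)).updateRow 0 ((d s)⁻¹ • (1 + s • x : Mt (n + 1)) 0) := by
    intro s hs
    simp only [u]
    rw [dif_pos hs]
  refine ⟨u, ?_, ?_⟩
  · apply Subtype.ext
    rw [hu 0 (by rw [hd0]; exact one_ne_zero), hd0]
    simp
  · intro a b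
    have hev : ∀ᶠ s in 𝓝 (0 : ℝ), d s ≠ 0 :=
      hdd.continuousAt.eventually_ne (by rw [hd0]; exact one_ne_zero)
    have hlin : ∀ a b, HasDerivAt (fun s : ℝ => (1 + s • x : Mt (n + 1)) a b) (x a b) 0 := by
      intro a b
      have h1 : HasDerivAt (fun s : ℝ => (1 : Mt (n + 1)) a b + s * x a b) (1 * x a b) 0 :=
        ((hasDerivAt_id (0 : ℝ)).mul_const (x a b)).const_add _
      rw [one_mul] at h1
      exact h1
    by_cases ha : a = 0
    · subst ha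
      have h2 : HasDerivAt (fun s : ℝ => (d s)⁻¹ * (1 + s • x : Mt (n + 1)) 0 b)
          (-0 / (d 0) ^ 2 * (1 + (0 : ℝ) • x : Mt (n + 1)) 0 b + (d 0)⁻¹ * x 0 b) 0 :=
        (hdd.inv (by rw [hd0]; exact one_ne_zero)).mul (hlin 0 b)
      have h3 := h2.congr_deriv (g' := x 0 b) (by rw [hd0]; simp)
      refine h3.congr_of_eventuallyEq ?_
      filter_upwards [hev] with s hs
      rw [hu s hs]
      simp [Matrix.updateRow_self]
    · refine (hlin a b).congr_of_eventuallyEq ?_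
      filter_upwards [hev] with s hs
      rw [hu s hs, Matrix.updateRow_ne ha]

/-- Row B4c. `J2` is equivariant under orthogonal matrices (curve `g exp(s k x kᵀ) k`, `ort1`, `d2`). -/
theorem jm_ort2 {n : ℕ} (Γ : Subgroup (SL n)) (J : Mt n →ₗ[ℝ] Mt n →ₗ[ℝ] Fn n)
    (J1 : Mt n →ₗ[ℝ] Mt n →ₗ[ℝ] Mt n →ₗ[ℝ] Fn n)
    (J2 : Mt n →ₗ[ℝ] Mt n →ₗ[ℝ] Mt n →ₗ[ℝ] Mt n →ₗ[ℝ] Fn n) (HJ : Jm Γ J J1 J2)
    (k : SL n) (hk : Ort k) (x y v w : Mt n) (hx : x.trace = 0) (g : SL n) :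
    J2 x y v w (g * k) = J2 (k.1 * x * k.1ᵀ) (k.1 * y * k.1ᵀ) (k.1 * v * k.1ᵀ) (k.1 * w * k.1ᵀ) g := by
  have hk1 : k.1 * k.1ᵀ = 1 := hk
  have hk2 : k.1ᵀ * k.1 = 1 := by
    have := mul_eq_one_comm.mp hk1
    exact this
  have htr : (k.1 * x * k.1ᵀ).trace = 0 := by
    rw [Matrix.trace_mul_comm, ← Matrix.mul_assoc, hk2, Matrix.one_mul, hx]
  obtain ⟨u, hu0, hu⟩ := B4c_curve (k.1 * x * k.1ᵀ) htr
  -- the two curves
  have hA : ∀ a b, HasDerivAt (fun s => (g * u s).1 a b)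
      (((g * u 0).1 * (k.1 * x * k.1ᵀ)) a b) 0 := by
    intro a b
    have h1 : HasDerivAt (fun s => ∑ j, g.1 a j * (u s).1 j b)
        (∑ j, g.1 a j * (k.1 * x * k.1ᵀ) j b) 0 :=
      HasDerivAt.fun_sum fun j _ => (hu j b).const_mul (g.1 a j)
    rw [hu0, mul_one]
    exact h1
  have hB : ∀ a b, HasDerivAt (fun s => (g * u s * k).1 a b)
      (((g * u 0 * k).1 * x) a b) 0 := by
    intro a b
    have h1 : HasDerivAt (fun s => ∑ j, (g * u s).1 a j * k.1 j b)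
        (∑ j, ((g * u 0).1 * (k.1 * x * k.1ᵀ)) a j * k.1 j b) 0 :=
      HasDerivAt.fun_sum fun j _ => (hA a j).mul_const (k.1 j b)
    have h2 : ∑ j, ((g * u 0).1 * (k.1 * x * k.1ᵀ)) a j * k.1 j b = ((g * u 0 * k).1 * x) a b := by
      have h3 : (g * u 0).1 * (k.1 * x * k.1ᵀ) * k.1 = (g * u 0 * k).1 * x := by
        have h4 : (g * u 0 * k).1 = (g * u 0).1 * k.1 := rfl
        rw [h4]
        simp only [Matrix.mul_assoc, hk2, Matrix.mul_one]
      rw [← h3]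
      rfl
    rw [← h2]
    exact h1
  have h1 := HJ.d2 x y v w (fun s => g * u s * k) hB
  have h2 := HJ.d2 (k.1 * x * k.1ᵀ) (k.1 * y * k.1ᵀ) (k.1 * v * k.1ᵀ) (k.1 * w * k.1ᵀ)
    (fun s => g * u s) hA
  have h3 : (fun s => J1 y v w (g * u s * k)) =
      fun s => J1 (k.1 * y * k.1ᵀ) (k.1 * v * k.1ᵀ) (k.1 * w * k.1ᵀ) (g * u s) := by
    funext s
    exact HJ.ort1 k hk y v w (g * u s)
  simp only [hu0, mul_one] at h1 h2
  rw [h3] at h1
  exact h1.unique h2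

end FL27
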