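import Pool.Agent.LibFL27.B3
import Pool.Agent.LibFL27.B2
import Pool.Agent.LibFL27.B4b
import Pool.Agent.LibFL27.B0
import Pool.Agent.LibFL27.D0c
import Pool.Agent.LibNC27.A1a
import Pool.Agent.LibNE38.E4

set_option autoImplicit false
set_option maxSynthPendingDepth 3

open Matrix MeasureTheory Topology Filter LibNC38
open LibNC27 hiding Mt
open scoped Matrix.Norms.Elementwise

namespace FL27

private theorem B4d_ok {n : ℕ} (Γ : Subgroup (SL n)) (h : PD n → Fm n) (h0 : FmOK Γ h) :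
    FmOK Γ (fun p => h p - gF p) := by
  have g0 := fmOK_gF Γ
  refine ⟨fun v w => ?_, fun p v w => ?_, fun γ hγ p v hv => ?_⟩
  · exact (h0.cont v w).sub (g0.cont v w)
  · show h p v w - gF p v w = h p w v - gF p w v
    rw [h0.symm, g0.symm]
  · show h _ _ _ - gF _ _ _ = h _ _ _ - gF _ _ _
    rw [h0.inv γ hγ p v hv, g0.inv γ hγ p v hv]

private theorem B4d_BD {n : ℕ} (k : ℕ) : ∀ (M : ℝ) (F : Fn n), BD (k + 1) M F → BD k M F := by
  induction k with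
  | zero => intro M F h; exact h.1
  | succ k ih =>
    intro M F h
    refine ⟨h.1, fun x hx hx' => ?_⟩
    obtain ⟨F', h1, h2⟩ := h.2 x hx hx'
    exact ⟨F', h1, ih M F' h2⟩

private theorem B4d_TB {n : ℕ} (M : ℝ) (κ : PD n → Fm n) (h : TB 6 M κ) : TB 4 M κ :=
  fun v w hv hw hv' hw' => B4d_BD 4 M _ (B4d_BD 5 M _ (h v w hv hw hv' hw'))

private theorem B4d_add {n : ℕ} (a b : V0 n) : dM (a + b) = dM a + dM b := by
  unfold dM
  rw [Matrix.diagonal_add]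
  rfl

private theorem B4d_smul {n : ℕ} (c : ℝ) (a : V0 n) : dM (c • a) = c • dM a := by
  unfold dM
  rw [← Matrix.diagonal_smul]
  rfl

private theorem B4d_zero {n : ℕ} : dM (0 : V0 n) = 0 := by
  have := B4d_smul (0 : ℝ) (0 : V0 n)
  rwa [zero_smul, zero_smul] at this

private theorem B4d_bil {n : ℕ} (B : Mt n →ₗ[ℝ] Mt n →ₗ[ℝ] Fn n) (M : ℝ)
    (hB : ∀ a b : V0 n, ‖a‖ ≤ 1 → ‖b‖ ≤ 1 → ∀ g, |B (dM a) (dM b) g| ≤ M) (a b : V0 n) (g : SL n) :
    |B (dM a) (dM b) g| ≤ M * ‖a‖ * ‖b‖ := by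
  by_cases ha : a = 0
  · rw [ha, B4d_zero, map_zero, norm_zero, mul_zero, zero_mul]
    simp
  by_cases hb : b = 0
  · rw [hb, B4d_zero, map_zero, norm_zero, mul_zero]
    simp
  have ha' : 0 < ‖a‖ := norm_pos_iff.mpr ha
  have hb' : 0 < ‖b‖ := norm_pos_iff.mpr hb
  have key : ∀ c : V0 n, 0 < ‖c‖ → ∃ c' : V0 n, ‖c'‖ ≤ 1 ∧ dM c = ‖c‖ • dM c' := by
    intro c hc
    refine ⟨‖c‖⁻¹ • c, ?_, ?_⟩
    · rw [norm_smul, norm_inv, norm_norm, inv_mul_cancel₀ hc.ne']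
    · rw [← B4d_smul, smul_smul, mul_inv_cancel₀ hc.ne', one_smul]
  obtain ⟨a', ha1, ha2⟩ := key a ha'
  obtain ⟨b', hb1, hb2⟩ := key b hb'
  have h3 := hB a' b' ha1 hb1 g
  have h4 : B (dM a) (dM b) g = ‖a‖ * (‖b‖ * B (dM a') (dM b') g) := by
    rw [ha2, hb2]
    simp only [map_smul, LinearMap.smul_apply, Pi.smul_apply, smul_eq_mul]
    ring
  rw [h4, abs_mul, abs_mul, abs_of_pos ha', abs_of_pos hb']
  have h5 : ‖a‖ * (‖b‖ * |B (dM a') (dM b') g|) ≤ ‖a‖ * (‖b‖ * M) := by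
    gcongr
  have h6 : ‖a‖ * (‖b‖ * M) = M * ‖a‖ * ‖b‖ := by ring
  rw [← h6]
  exact h5

private theorem B4d_path {n : ℕ} (F : Fn n) (hF : Continuous F) (g : SL n) (w : V0 n) :
    Continuous fun s : ℝ => F (g * dgm (s • w)) := by
  have h1 : Continuous fun s : ℝ => dgm (s • w) :=
    (dgm_facts (n := n)).2.2.2.2.2.comp (continuous_id.smul continuous_const)
  exact hF.comp (continuous_const.mul h1)

private theorem B4d_core {n : ℕ} (B : Mt n →ₗ[ℝ] Mt n →ₗ[ℝ] Fn n) (M C' : ℝ) (hM : 0 ≤ M)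
    (hcont : ∀ a b, Continuous (B a b))
    (hB : ∀ a b : V0 n, ‖a‖ ≤ 1 → ‖b‖ ≤ 1 → ∀ g, |B (dM a) (dM b) g| ≤ M)
    (lam e : V0 n) (hl : ‖lam‖ = 1)
    (hlip : ∀ g q : SL n, |B (dM lam) (dM lam) (g * q) - B (dM lam) (dM lam) g| ≤ M * dE q)
    (hC' : 0 ≤ C') (hD : ∀ y : V0 n, ‖y‖ ≤ 4 → dE (dgm y) ≤ C' * ‖y‖)
    (S : ℝ) (hS : 1 ≤ S) (he : ‖e‖ ≤ 1) (x' : SL n) (X : ℝ)
    (hX : |∫ s in (0 : ℝ)..1, B (dM (S • lam + e)) (dM (S • lam + e))
      (x' * dgm (s • (S • lam + e)))| ≤ X) :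
    |∫ s in (0 : ℝ)..S, B (dM lam) (dM lam) (x' * dgm (s • lam))| ≤
      X / S + M * ‖e‖ * (3 + S * C') := by
  have hS0 : 0 < S := by linarith
  set F : Fn n := B (dM lam) (dM lam) with hF
  have hFc : Continuous F := hcont _ _
  -- pointwise comparison
  have h1 : ∀ p : SL n, |B (dM (S • lam + e)) (dM (S • lam + e)) p - S ^ 2 * F p| ≤
      M * (2 * S * ‖e‖ + ‖e‖ ^ 2) := by
    intro p
    have e1 : B (dM (S • lam + e)) (dM (S • lam + e)) p =
        S ^ 2 * F p + (S * B (dM lam) (dM e) p + S * B (dM e) (dM lam) p + B (dM e) (dM e) p) := by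
      rw [B4d_add, B4d_smul, hF]
      simp only [map_add, map_smul, LinearMap.add_apply, LinearMap.smul_apply, Pi.add_apply,
        Pi.smul_apply, smul_eq_mul]
      ring
    rw [e1, add_sub_cancel_left]
    have b1 := B4d_bil B M hB lam e p
    have b2 := B4d_bil B M hB e lam p
    have b3 := B4d_bil B M hB e e p
    rw [hl] at b1 b2
    have t1 := abs_add_le (S * B (dM lam) (dM e) p + S * B (dM e) (dM lam) p) (B (dM e) (dM e) p)
    have t2 := abs_add_le (S * B (dM lam) (dM e) p) (S * B (dM e) (dM lam) p)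
    rw [abs_mul, abs_mul, abs_of_pos hS0] at t2
    have t3 : S * |B (dM lam) (dM e) p| ≤ S * (M * 1 * ‖e‖) := mul_le_mul_of_nonneg_left b1 hS0.le
    have t4 : S * |B (dM e) (dM lam) p| ≤ S * (M * ‖e‖ * 1) := mul_le_mul_of_nonneg_left b2 hS0.le
    nlinarith [t1, t2, t3, t4, b3]
  have h2 : ∀ s ∈ Set.uIoc (0 : ℝ) 1, ‖B (dM (S • lam + e)) (dM (S • lam + e))
      (x' * dgm (s • (S • lam + e))) - S ^ 2 * F (x' * dgm ((s * S) • lam))‖ ≤
      M * (2 * S * ‖e‖ + ‖e‖ ^ 2) + S ^ 2 * (M * (C' * ‖e‖)) := by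
    intro s hs
    rw [Set.uIoc_of_le zero_le_one] at hs
    have hs1 : |s| ≤ 1 := by rw [abs_le]; constructor <;> linarith [hs.1, hs.2]
    have e1 : x' * dgm (s • (S • lam + e)) = x' * dgm ((s * S) • lam) * dgm (s • e) := by
      rw [smul_add, smul_smul, (dgm_facts (n := n)).1, mul_assoc]
    have b1 := h1 (x' * dgm (s • (S • lam + e)))
    have b2 := hlip (x' * dgm ((s * S) • lam)) (dgm (s • e))
    rw [← e1] at b2
    have b3 : ‖s • e‖ ≤ ‖e‖ := by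
      rw [norm_smul, Real.norm_eq_abs]
      nlinarith [norm_nonneg e]
    have b4 : dE (dgm (s • e)) ≤ C' * ‖e‖ :=
      (hD (s • e) (by linarith)).trans (mul_le_mul_of_nonneg_left b3 hC')
    have b5 : |F (x' * dgm (s • (S • lam + e))) - F (x' * dgm ((s * S) • lam))| ≤ M * (C' * ‖e‖) :=
      b2.trans (mul_le_mul_of_nonneg_left b4 hM)
    rw [Real.norm_eq_abs]
    have e2 : B (dM (S • lam + e)) (dM (S • lam + e)) (x' * dgm (s • (S • lam + e))) -
        S ^ 2 * F (x' * dgm ((s * S) • lam)) =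
        (B (dM (S • lam + e)) (dM (S • lam + e)) (x' * dgm (s • (S • lam + e))) -
          S ^ 2 * F (x' * dgm (s • (S • lam + e)))) +
        S ^ 2 * (F (x' * dgm (s • (S • lam + e))) - F (x' * dgm ((s * S) • lam))) := by ring
    rw [e2]
    refine (abs_add_le _ _).trans (add_le_add b1 ?_)
    rw [abs_mul, abs_of_nonneg (sq_nonneg S)]
    exact mul_le_mul_of_nonneg_left b5 (sq_nonneg S)
  have h3 := intervalIntegral.norm_integral_le_of_norm_le_const h2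
  have c1 : Continuous fun s : ℝ => B (dM (S • lam + e)) (dM (S • lam + e))
      (x' * dgm (s • (S • lam + e))) := B4d_path _ (hcont _ _) x' _
  have c2 : Continuous fun s : ℝ => F (x' * dgm ((s * S) • lam)) :=
    (B4d_path F hFc x' lam).comp (continuous_id.mul continuous_const)
  have c3 : Continuous fun s : ℝ => S ^ 2 * F (x' * dgm ((s * S) • lam)) :=
    continuous_const.mul c2
  rw [intervalIntegral.integral_sub (c1.intervalIntegrable _ _) (c3.intervalIntegrable _ _),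
    intervalIntegral.integral_const_mul,
    intervalIntegral.integral_comp_mul_right (fun u : ℝ => F (x' * dgm (u • lam))) hS0.ne',
    zero_mul, one_mul, sub_zero, abs_one, mul_one, smul_eq_mul, Real.norm_eq_abs] at h3
  set I := ∫ s in (0 : ℝ)..S, F (x' * dgm (s • lam)) with hI
  set A := ∫ s in (0 : ℝ)..1, B (dM (S • lam + e)) (dM (S • lam + e))
      (x' * dgm (s • (S • lam + e))) with hA
  have h4 : S ^ 2 * (S⁻¹ * I) = S * I := by
    field_simp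
  rw [h4] at h3
  have h5 : |S * I| ≤ X + (M * (2 * S * ‖e‖ + ‖e‖ ^ 2) + S ^ 2 * (M * (C' * ‖e‖))) := by
    have := abs_sub_abs_le_abs_sub (S * I) A
    rw [abs_sub_comm (S * I) A] at this
    linarith
  rw [abs_mul, abs_of_pos hS0] at h5
  have h6 : |I| ≤ (X + (M * (2 * S * ‖e‖ + ‖e‖ ^ 2) + S ^ 2 * (M * (C' * ‖e‖)))) / S := by
    rw [le_div_iff₀ hS0]
    linarith
  refine h6.trans ?_
  rw [add_div]
  refine add_le_add le_rfl ?_
  rw [div_le_iff₀ hS0]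
  have h7 : ‖e‖ ^ 2 ≤ S * ‖e‖ := by
    nlinarith [norm_nonneg e]
  have h8 : M * ‖e‖ ^ 2 ≤ M * (S * ‖e‖) := mul_le_mul_of_nonneg_left h7 hM
  nlinarith [h8]

private theorem B4d_num (C C0 C1 C2 C3 C' Λ δ η L : ℝ) (hδ : 0 < δ) (hη : 1 ≤ 1 / η) (hL : 0 ≤ L)
    (h1 : 0 ≤ C1) (h2 : 0 ≤ C0 * C2 * (4 + 2 * C')) (h3 : 0 ≤ C0 * C3 * Λ)
    (h4 : C0 * C3 ≤ C)
    (h5 : 8 * C1 + C0 * C2 * (4 + 2 * C') + C0 * C3 * Λ + C0 * C2 ≤ C) :
    8 * C1 * δ + C0 * δ * (C2 * (3 + 2 * C')) +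
      (C0 * δ * (C3 * L) + C0 * δ * (C3 * Λ) + C0 * δ * C2 * (1 / η)) + C0 * δ * C2 ≤
      C * δ * (L + 1 / η) := by
  have e0 : 0 ≤ δ * (1 / η) := by positivity
  have e1 : δ ≤ δ * (1 / η) := le_mul_of_one_le_right hδ.le hη
  have b1 : (8 * C1) * δ ≤ (8 * C1) * (δ * (1 / η)) := mul_le_mul_of_nonneg_left e1 (by linarith)
  have b2 : (C0 * C2 * (4 + 2 * C')) * δ ≤ (C0 * C2 * (4 + 2 * C')) * (δ * (1 / η)) :=
    mul_le_mul_of_nonneg_left e1 h2
  have b3 : (C0 * C3 * Λ) * δ ≤ (C0 * C3 * Λ) * (δ * (1 / η)) := mul_le_mul_of_nonneg_left e1 h3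
  have b4 : (C0 * C3) * (δ * L) ≤ C * (δ * L) := mul_le_mul_of_nonneg_right h4 (by positivity)
  have b5 : (8 * C1 + C0 * C2 * (4 + 2 * C') + C0 * C3 * Λ + C0 * C2) * (δ * (1 / η)) ≤
      C * (δ * (1 / η)) := mul_le_mul_of_nonneg_right h5 e0
  have e2 : 8 * C1 * δ + C0 * δ * (C2 * (3 + 2 * C')) +
      (C0 * δ * (C3 * L) + C0 * δ * (C3 * Λ) + C0 * δ * C2 * (1 / η)) + C0 * δ * C2 =
      (8 * C1) * δ + (C0 * C2 * (4 + 2 * C')) * δ + (C0 * C3 * Λ) * δ + (C0 * C3) * (δ * L) +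
        (C0 * C2) * (δ * (1 / η)) := by ring
  have e3 : C * δ * (L + 1 / η) = C * (δ * L) + C * (δ * (1 / η)) := by ring
  have e4 : (8 * C1 + C0 * C2 * (4 + 2 * C') + C0 * C3 * Λ + C0 * C2) * (δ * (1 / η)) =
      (8 * C1) * (δ * (1 / η)) + (C0 * C2 * (4 + 2 * C')) * (δ * (1 / η)) +
        (C0 * C3 * Λ) * (δ * (1 / η)) + (C0 * C2) * (δ * (1 / η)) := by ring
  rw [e2, e3]
  linarith

private theorem B4d_coord {n : ℕ} (v : V0 n) (i : Fin n) : |v.1 i| ≤ ‖v‖ := by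
  have h := PiLp.norm_apply_le (p := 2) v.1 i
  rw [Real.norm_eq_abs] at h
  exact h

/-- Row B4d. Averages along every decreasing regular direction (page, B4). -/
theorem avg_dec (hA : AStat) (hM : MStat) {n : ℕ} (hn : 3 ≤ n) (Γ : Subgroup (SL n)) (hd : Disc Γ)
    (hc : Coc Γ) : ∃ C a : ℝ, 1 ≤ C ∧ 0 < a ∧ ∀ (h : PD n → Fm n) (δ : ℝ), 0 < δ → C * δ ≤ 1 →
    Near Γ 6 δ h → ∀ (J : Mt n →ₗ[ℝ] Mt n →ₗ[ℝ] Fn n)
      (J1 : Mt n →ₗ[ℝ] Mt n →ₗ[ℝ] Mt n →ₗ[ℝ] Fn n)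
      (J2 : Mt n →ₗ[ℝ] Mt n →ₗ[ℝ] Mt n →ₗ[ℝ] Mt n →ₗ[ℝ] Fn n), Jm Γ J J1 J2 →
      (∀ v w g, J v w g = Jf (fun p => h p - gF p) v w g) →
    ∀ (lam : V0 n) (η T : ℝ), ‖lam‖ = 1 → 0 < η → η ≤ 1 →
      (∀ i j : Fin n, i < j → lam.1 j + η ≤ lam.1 i) → 2 ≤ T → T ≤ δ ^ (-a) →
      C * Real.log T ≤ η * T → C ≤ η * T → ∀ w : V0 n, ‖w‖ ≤ 1 → ∀ g : SL n,
      |∫ s in (0 : ℝ)..T, J2 (dM w) (dM w) (dM lam) (dM lam) (g * dgm (s • lam))| ≤
        C * δ * (Real.log T + 1 / η) := by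
  obtain ⟨C1, hC1, HX⟩ := xray2 hA hn Γ hd hc
  obtain ⟨ν, K, c, hMix⟩ := hM n hn Γ hd hc
  obtain ⟨C3, hC3, HT⟩ := trans hn Γ hd hc ν K c hMix
  obtain ⟨C2, δ0, hC2, hδ0, HC⟩ := closing2 n
  obtain ⟨C0, hC0, HJ0⟩ := jm_bounds n
  obtain ⟨C', hC', -, -, -, -, -, -, HD⟩ := dE_facts n
  obtain ⟨d1, hd1p, hd1a, hd1b⟩ : ∃ d1 : ℝ, 0 < d1 ∧ d1 ≤ δ0 ∧ d1 ≤ 1 / 2 :=
    ⟨min δ0 (1 / 2), lt_min hδ0 (by norm_num), min_le_left _ _, min_le_right _ _⟩
  obtain ⟨Λ, hΛ⟩ : ∃ Λ : ℝ, Λ = Real.log (1 / d1) := ⟨_, rfl⟩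
  have hΛ0 : 0 ≤ Λ := by
    rw [hΛ]
    exact Real.log_nonneg (by rw [le_div_iff₀ hd1p]; linarith)
  have q1 : 0 ≤ C0 * C2 * (4 + 2 * C') := by positivity
  have q2 : 0 ≤ C0 * C3 * (1 + Λ) := by positivity
  have q3 : 0 ≤ C3 * Λ := by positivity
  have q4 : 0 ≤ C0 * C2 := by positivity
  obtain ⟨C, hCdef⟩ : ∃ C : ℝ, C = 16 * C1 + C0 * C2 * (4 + 2 * C') + C0 * C3 * (1 + Λ) +
    C0 * C2 + 4 * C2 + 4 * C3 + 4 * (C3 * Λ) := ⟨_, rfl⟩
  have q5 : 0 ≤ C0 * C3 := by positivity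
  have q6 : 0 ≤ C0 * C3 * Λ := by positivity
  have q7 : C0 * C3 * (1 + Λ) = C0 * C3 + C0 * C3 * Λ := by ring
  have hCe : C0 * C3 ≤ C := by linarith
  have hCf : 8 * C1 + C0 * C2 * (4 + 2 * C') + C0 * C3 * Λ + C0 * C2 ≤ C := by linarith
  have hCa : 16 * C1 ≤ C := by linarith
  have hCb : 4 * C2 ≤ C := by linarith
  have hCc : 4 * C3 ≤ C := by linarith
  have hCd : 4 * (C3 * Λ) ≤ C := by linarith
  have hC1' : 1 ≤ C := by linarith
  refine ⟨C, 1 / 10, hC1', by norm_num, ?_⟩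
  intro h δ hδ hCδ hN J J1 J2 HJ HJf lam η T hlam hη hη1 hgap hT hTδ hlog hηT w hw g
  -- basic inequalities
  have hT0 : 0 < T := by linarith
  have hηTT : η * T ≤ T := by
    have := mul_le_mul_of_nonneg_right hη1 hT0.le
    linarith
  have hTC : C ≤ T := hηT.trans hηTT
  have hlogT : 0 ≤ Real.log T := Real.log_nonneg (by linarith)
  have hT10 : δ * T ^ 10 ≤ 1 := by
    have h1 : T ^ 10 ≤ (δ ^ (-(1 / 10 : ℝ))) ^ 10 := pow_le_pow_left₀ hT0.le hTδ 10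
    have h2 : (δ ^ (-(1 / 10 : ℝ))) ^ 10 = δ⁻¹ := by
      rw [← Real.rpow_natCast, ← Real.rpow_mul hδ.le, ← Real.rpow_neg_one]
      norm_num
    rw [h2] at h1
    calc δ * T ^ 10 ≤ δ * δ⁻¹ := mul_le_mul_of_nonneg_left h1 hδ.le
      _ = 1 := mul_inv_cancel₀ hδ.ne'
  have hT4 : δ * T ^ 4 ≤ 1 := by
    have : T ^ 4 ≤ T ^ 10 := pow_le_pow_right₀ (by linarith) (by norm_num)
    exact (mul_le_mul_of_nonneg_left this hδ.le).trans hT10
  -- the constants of the closing step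
  obtain ⟨dd, hdd⟩ : ∃ dd : ℝ, dd = d1 / T := ⟨_, rfl⟩
  have hddp : 0 < dd := by rw [hdd]; positivity
  have hddT : dd * T = d1 := by rw [hdd]; field_simp
  have hddle : dd ≤ d1 := by
    rw [hdd]; exact div_le_self hd1p.le (by linarith)
  have hlogdd : Real.log (1 / dd) = Real.log T + Λ := by
    rw [hdd, hΛ, ← Real.log_mul hT0.ne' (by positivity)]
    congr 1
    field_simp
  obtain ⟨m, hm⟩ : ∃ m : ℝ, m = C3 * (Real.log T + Λ) + C2 / η := ⟨_, rfl⟩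
  have hC2η : C2 ≤ C2 / η := by
    rw [le_div_iff₀ hη]
    exact mul_le_of_le_one_right (by linarith) hη1
  have hm0 : C2 ≤ m := by
    have : 0 ≤ C3 * (Real.log T + Λ) := by positivity
    linarith
  have hm1 : m ≤ 3 * T / 4 := by
    have a1 : C3 * Real.log T ≤ T / 4 := by
      have := mul_le_mul_of_nonneg_right hCc hlogT
      linarith
    have a2 : C3 * Λ ≤ T / 4 := by linarith
    have a3 : C2 / η ≤ T / 4 := by
      rw [div_le_iff₀ hη]
      linarith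
    rw [hm]
    linarith
  obtain ⟨γ, hγ, v1, v2, hv1, hv2, hγg⟩ := HT dd m lam (g * dgm (T • lam)) g hddp
    (by linarith) hlam (by rw [hlogdd, hm]; have : 0 ≤ C2 / η := by positivity
                           linarith)
  obtain ⟨x, v, hW, hv, hx⟩ := HC lam η T m dd v1 v2 hlam hη hgap (by linarith)
    (by
      have : η * (C2 / η) ≤ η * m := mul_le_mul_of_nonneg_left (by
        have : 0 ≤ C3 * (Real.log T + Λ) := by positivity
        linarith) hη.le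
      rw [mul_div_cancel₀ C2 hη.ne'] at this
      exact this) hddp.le hv1 hv2 (hddle.trans hd1a)
  obtain ⟨S, hS⟩ : ∃ S : ℝ, S = T + m := ⟨_, rfl⟩
  rw [← hS] at hv
  obtain ⟨e, he⟩ : ∃ e : V0 n, e = v - S • lam := ⟨_, rfl⟩
  rw [← he] at hv
  have hve : S • lam + e = v := by rw [he]; abel
  have hC2T : C2 / T ≤ 1 / 4 := by
    rw [div_le_iff₀ hT0]; linarith
  have heC : ‖e‖ ≤ C2 * dd := hv
  have heC' : C2 * dd ≤ C2 / T * d1 := by rw [hdd]; apply le_of_eq; ring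
  have he8 : ‖e‖ ≤ 1 / 8 := by
    have : C2 / T * d1 ≤ 1 / 4 * (1 / 2) := by
      apply mul_le_mul hC2T hd1b hd1p.le (by norm_num)
    linarith
  have hS1 : 1 ≤ S := by linarith
  have hST : T ≤ S := by linarith
  have hS2 : S ≤ 7 * T / 4 := by rw [hS]; linarith
  have hSl : ‖S • lam‖ = S := by
    rw [norm_smul, hlam, mul_one, Real.norm_eq_abs, abs_of_pos (by linarith)]
  have hvu : ‖v‖ ≤ S + ‖e‖ := by
    rw [← hve]
    refine (norm_add_le _ _).trans ?_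
    rw [hSl]
  have hvl : S - ‖e‖ ≤ ‖v‖ := by
    have h1 : S • lam = v - e := by rw [← hve]; abel
    have h2 := norm_sub_le v e
    rw [← h1, hSl] at h2
    linarith
  have hv2T : ‖v‖ ≤ 2 * T := by linarith
  have hvT : T ≤ ‖v‖ := by linarith
  -- the closed geodesic
  have hclosed : (g * x) * dgm v * (g * x)⁻¹ ∈ Γ := by
    have h1 : γ = (g * x) * dgm v * (g * x)⁻¹ := by
      have h2 : γ * g = g * (dgm (T • lam) * v1 * dgm (m • lam) * v2) := by
        rw [hγg]; group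
      rw [hW] at h2
      calc γ = γ * g * g⁻¹ := by group
        _ = _ := by rw [h2]; group
    rw [← h1]; exact hγ
  -- the X-ray estimate
  have hC1δ : C1 * δ ≤ 1 := by
    have : C1 * δ ≤ C * δ := mul_le_mul_of_nonneg_right (by linarith) hδ.le
    linarith
  have hXr := HX h δ hδ hC1δ hN J J1 J2 HJ HJf (g * x) v (η / 2) ‖v‖ (by linarith)
    (by linarith)
    (by
      intro i j hij
      have a1 := hgap i j hij
      have a2 := B4d_coord e i
      have a3 := B4d_coord e j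
      have a4 : v.1 i = S * lam.1 i + e.1 i := by
        conv_lhs => rw [← hve]
        rfl
      have a5 : v.1 j = S * lam.1 j + e.1 j := by
        conv_lhs => rw [← hve]
        rfl
      rw [abs_le] at a2 a3
      have a6 : S * (lam.1 j + η) ≤ S * lam.1 i := mul_le_mul_of_nonneg_left a1 (by linarith)
      have a7 : η / 2 * ‖v‖ ≤ η / 2 * (S + ‖e‖) := mul_le_mul_of_nonneg_left hvu (by linarith)
      have a8 : η / 2 * ‖e‖ ≤ 1 / 2 * (1 / 8) := by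
        apply mul_le_mul (by linarith) he8 (norm_nonneg e) (by norm_num)
      have a9 : 4 ≤ η * S := by
        have : η * T ≤ η * S := mul_le_mul_of_nonneg_left hST hη.le
        linarith
      have b6 : S * (lam.1 j + η) = S * lam.1 j + η * S := by ring
      have b7 : η / 2 * (S + ‖e‖) = η * S / 2 + η / 2 * ‖e‖ := by ring
      rw [b6] at a6
      rw [b7] at a7
      rw [a4, a5]
      linarith [a2.1, a3.2])
    (by
      have : η / 2 * T ≤ η / 2 * ‖v‖ := mul_le_mul_of_nonneg_left hvT (by linarith)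
      linarith) le_rfl
    (by
      have a1 : ‖v‖ ^ 2 ≤ (2 * T) ^ 2 := pow_le_pow_left₀ (norm_nonneg v) hv2T 2
      have a2 : C1 * δ * ‖v‖ ^ 2 ≤ C1 * δ * (2 * T) ^ 2 :=
        mul_le_mul_of_nonneg_left a1 (by positivity)
      refine a2.trans ?_
      have a3 : (16 * C1) * (δ * T ^ 4) ≤ (16 * C1) * 1 :=
        mul_le_mul_of_nonneg_left hT4 (by positivity)
      have a4 : 16 * C1 ≤ (η * T) ^ 2 := by
        have : C * 1 ≤ (η * T) * (η * T) := mul_le_mul hηT (by linarith) (by norm_num) (by positivity)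
        rw [sq]
        linarith
      have a5 : (16 * C1 * δ * T ^ 2) * T ^ 2 ≤ η ^ 2 * T ^ 2 := by
        have c1 : (16 * C1 * δ * T ^ 2) * T ^ 2 = (16 * C1) * (δ * T ^ 4) := by ring
        have c2 : η ^ 2 * T ^ 2 = (η * T) ^ 2 := by ring
        rw [c1, c2]
        linarith
      have a6 : 16 * C1 * δ * T ^ 2 ≤ η ^ 2 := le_of_mul_le_mul_right a5 (by positivity)
      have c3 : C1 * δ * (2 * T) ^ 2 = (16 * C1 * δ * T ^ 2) / 4 := by ring
      have c4 : (η / 2) ^ 2 = η ^ 2 / 4 := by ring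
      rw [c3, c4]
      linarith) hclosed w hw
  obtain ⟨Y, hY⟩ : ∃ Y : ℝ, Y = (δ * (‖v‖ / (η / 2)) ^ 2) ^ (1 / 6 : ℝ) := ⟨_, rfl⟩
  rw [← hY] at hXr
  have hY0 : 0 ≤ Y := by rw [hY]; positivity
  have hTY : T * Y ≤ 2 := by
    have b1 : Y ^ 6 = δ * (‖v‖ / (η / 2)) ^ 2 := by
      rw [hY, ← Real.rpow_natCast, ← Real.rpow_mul (by positivity)]
      norm_num
    have b2 : ‖v‖ / (η / 2) ≤ 4 * T ^ 2 := by
      rw [div_le_iff₀ (by linarith)]
      have c1 : 1 ≤ η * T := by linarith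
      have c2 : 2 * T * 1 ≤ 2 * T * (η * T) := mul_le_mul_of_nonneg_left c1 (by linarith)
      have c3 : 4 * T ^ 2 * (η / 2) = 2 * T * (η * T) := by ring
      rw [c3]
      linarith
    have b3 : (‖v‖ / (η / 2)) ^ 2 ≤ (4 * T ^ 2) ^ 2 := pow_le_pow_left₀ (by positivity) b2 2
    have b4 : (T * Y) ^ 6 ≤ 2 ^ 6 := by
      rw [mul_pow, b1]
      calc T ^ 6 * (δ * (‖v‖ / (η / 2)) ^ 2) ≤ T ^ 6 * (δ * (4 * T ^ 2) ^ 2) := by gcongr
        _ = 16 * (δ * T ^ 10) := by ring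
        _ ≤ 16 * 1 := by gcongr
        _ ≤ 2 ^ 6 := by norm_num
    exact le_of_pow_le_pow_left₀ (by norm_num) (by norm_num) b4
  -- bounds of the jet
  have hTB : TB 4 δ (fun p => h p - gF p) := B4d_TB δ _ hN.tb
  have hLB : ∀ a b : V0 n, ‖a‖ ≤ 2 → ‖b‖ ≤ 2 →
      LB Γ (C0 * δ) (J2 (dM w) (dM w) (dM a) (dM b)) := fun a b ha hb =>
    (HJ0 Γ (fun p => h p - gF p) δ hδ.le (B4d_ok Γ h hN.ok) hTB J J1 J2 HJ HJf w w a b
      (by linarith) (by linarith) ha hb).2.2.1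
  obtain ⟨M, hMdef⟩ : ∃ M : ℝ, M = C0 * δ := ⟨_, rfl⟩
  rw [← hMdef] at hLB
  have hM0 : 0 ≤ M := by rw [hMdef]; positivity
  have hLam := hLB lam lam (by linarith) (by linarith)
  have hcore := B4d_core (J2 (dM w) (dM w)) M C' hM0 (fun a b => HJ.cont2 _ _ a b)
    (fun a b ha hb => (hLB a b (by linarith) (by linarith)).bd) lam e hlam hLam.lip (by linarith)
    HD S hS1 (by linarith) (g * x) (C1 * ‖v‖ ^ 2 * δ * Y) (by rw [hve]; exact hXr)
  obtain ⟨F, hF⟩ : ∃ F : Fn n, F = J2 (dM w) (dM w) (dM lam) (dM lam) := ⟨_, rfl⟩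
  rw [← hF] at hcore hLam ⊢
  have hFc : Continuous F := by rw [hF]; exact HJ.cont2 _ _ _ _
  -- comparison on [0, T]
  have hcmp : |∫ s in (0 : ℝ)..T, (F (g * x * dgm (s • lam)) - F (g * dgm (s • lam)))| ≤
      M * (C2 * dd) * T := by
    have h1 : ∀ s ∈ Set.uIoc (0 : ℝ) T, ‖F (g * x * dgm (s • lam)) - F (g * dgm (s • lam))‖ ≤
        M * (C2 * dd) := by
      intro s hs
      rw [Set.uIoc_of_le hT0.le] at hs
      have h2 := hLam.lip (g * dgm (s • lam)) (dgm (-(s • lam)) * x * dgm (s • lam))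
      have h3 : g * dgm (s • lam) * (dgm (-(s • lam)) * x * dgm (s • lam)) =
          g * x * dgm (s • lam) := by
        have h4 : dgm (s • lam) * dgm (-(s • lam)) = 1 := by
          rw [← (dgm_facts (n := n)).1, add_neg_cancel, (dgm_facts (n := n)).2.2.2.1]
        calc g * dgm (s • lam) * (dgm (-(s • lam)) * x * dgm (s • lam))
            = g * (dgm (s • lam) * dgm (-(s • lam))) * x * dgm (s • lam) := by group
          _ = _ := by rw [h4, mul_one]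
      rw [h3] at h2
      rw [Real.norm_eq_abs]
      exact h2.trans (mul_le_mul_of_nonneg_left (hx s hs.1.le hs.2) hM0)
    have h2 := intervalIntegral.norm_integral_le_of_norm_le_const h1
    rw [sub_zero, abs_of_pos hT0, Real.norm_eq_abs] at h2
    exact h2
  have htail : |∫ s in T..S, F (g * x * dgm (s • lam))| ≤ M * m := by
    have h1 : ∀ s ∈ Set.uIoc T S, ‖F (g * x * dgm (s • lam))‖ ≤ M := by
      intro s _
      rw [Real.norm_eq_abs]
      exact hLam.bd _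
    have h2 := intervalIntegral.norm_integral_le_of_norm_le_const h1
    rw [Real.norm_eq_abs, abs_of_nonneg (by linarith : 0 ≤ S - T)] at h2
    have h3 : S - T = m := by rw [hS]; ring
    rw [h3] at h2
    exact h2
  have hsplit : ∫ s in (0 : ℝ)..T, F (g * dgm (s • lam)) =
      (∫ s in (0 : ℝ)..S, F (g * x * dgm (s • lam))) - (∫ s in T..S, F (g * x * dgm (s • lam))) -
      ∫ s in (0 : ℝ)..T, (F (g * x * dgm (s • lam)) - F (g * dgm (s • lam))) := by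
    have h1 := intervalIntegral.integral_add_adjacent_intervals
      ((B4d_path F hFc (g * x) lam).intervalIntegrable (μ := volume) 0 T)
      ((B4d_path F hFc (g * x) lam).intervalIntegrable (μ := volume) T S)
    rw [intervalIntegral.integral_sub ((B4d_path F hFc (g * x) lam).intervalIntegrable _ _)
      ((B4d_path F hFc g lam).intervalIntegrable _ _), ← h1]
    ring
  rw [hsplit]
  have hsum : |(∫ s in (0 : ℝ)..S, F (g * x * dgm (s • lam))) -
      (∫ s in T..S, F (g * x * dgm (s • lam))) -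
      ∫ s in (0 : ℝ)..T, (F (g * x * dgm (s • lam)) - F (g * dgm (s • lam)))| ≤
      |∫ s in (0 : ℝ)..S, F (g * x * dgm (s • lam))| +
      |∫ s in T..S, F (g * x * dgm (s • lam))| +
      |∫ s in (0 : ℝ)..T, (F (g * x * dgm (s • lam)) - F (g * dgm (s • lam)))| := by
    refine (abs_sub _ _).trans (add_le_add (abs_sub _ _) le_rfl)
  refine hsum.trans ?_
  have hXS : C1 * ‖v‖ ^ 2 * δ * Y / S ≤ 8 * C1 * δ := by
    rw [div_le_iff₀ (by linarith)]
    have a1 : ‖v‖ ^ 2 ≤ (2 * T) ^ 2 := pow_le_pow_left₀ (norm_nonneg v) hv2T 2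
    have a2 : ‖v‖ ^ 2 * Y ≤ (2 * T) ^ 2 * Y := mul_le_mul_of_nonneg_right a1 hY0
    have a3 : (2 * T) ^ 2 * Y = 4 * T * (T * Y) := by ring
    have a4 : 4 * T * (T * Y) ≤ 4 * T * 2 := mul_le_mul_of_nonneg_left hTY (by positivity)
    have a5 : ‖v‖ ^ 2 * Y ≤ 8 * S := by linarith
    have a6 : C1 * δ * (‖v‖ ^ 2 * Y) ≤ C1 * δ * (8 * S) := mul_le_mul_of_nonneg_left a5 (by positivity)
    linarith [a6, (by ring : C1 * δ * (‖v‖ ^ 2 * Y) = C1 * ‖v‖ ^ 2 * δ * Y),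
      (by ring : C1 * δ * (8 * S) = 8 * C1 * δ * S)]
  have heT : ‖e‖ * T ≤ C2 := by
    have a1 : ‖e‖ * T ≤ C2 * dd * T := mul_le_mul_of_nonneg_right heC hT0.le
    have a2 : C2 * dd * T = C2 * d1 := by rw [mul_assoc, hddT]
    have a3 : C2 * d1 ≤ C2 * 1 := mul_le_mul_of_nonneg_left (by linarith) (by linarith)
    linarith
  have he3 : M * ‖e‖ * (3 + S * C') ≤ M * (C2 * (3 + 2 * C')) := by
    rw [mul_assoc]
    apply mul_le_mul_of_nonneg_left _ hM0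
    have a1 : ‖e‖ ≤ C2 := by linarith
    have a2 : ‖e‖ * (S * C') ≤ ‖e‖ * (2 * T * C') := by
      apply mul_le_mul_of_nonneg_left _ (norm_nonneg e)
      apply mul_le_mul_of_nonneg_right (by linarith) (by linarith)
    have a3 : ‖e‖ * (2 * T * C') = 2 * C' * (‖e‖ * T) := by ring
    have a4 : 2 * C' * (‖e‖ * T) ≤ 2 * C' * C2 := mul_le_mul_of_nonneg_left heT (by linarith)
    have a5 : ‖e‖ * (3 + S * C') = 3 * ‖e‖ + ‖e‖ * (S * C') := by ring
    have a6 : C2 * (3 + 2 * C') = 3 * C2 + 2 * C' * C2 := by ring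
    rw [a5, a6]
    linarith
  have hcmp' : M * (C2 * dd) * T ≤ M * C2 := by
    have a1 : M * (C2 * dd) * T = M * C2 * d1 := by
      rw [← hddT]; ring
    rw [a1]
    exact mul_le_of_le_one_right (by positivity) (by linarith)
  have hη' : 1 ≤ 1 / η := by
    rw [le_div_iff₀ hη]; linarith
  have hm' : M * m = M * (C3 * Real.log T) + M * (C3 * Λ) + M * C2 * (1 / η) := by
    rw [hm]; ring
  have hfin : 8 * C1 * δ + M * (C2 * (3 + 2 * C')) + M * m + M * C2 ≤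
      C * δ * (Real.log T + 1 / η) := by
    rw [hm', hMdef]
    exact B4d_num C C0 C1 C2 C3 C' Λ δ η (Real.log T) hδ hη' hlogT (by linarith) q1 q6 hCe hCf
  linarith [hcore, htail, hcmp, hXS, he3, hcmp', hfin]

end FL27
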