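import Pool.Agent.LibFL27.B4d
import Pool.Agent.LibFL27.B4c
import Pool.Agent.LibFL27.B0

set_option autoImplicit false
set_option maxSynthPendingDepth 3

open Matrix MeasureTheory Topology Filter LibNC38
open LibNC27 hiding Mt
open scoped Matrix.Norms.Elementwise

namespace FL27

private noncomputable def B4e_pv {n : ℕ} (σ : Equiv.Perm (Fin n)) (v : V0 n) : V0 n :=
  ⟨WithLp.toLp 2 fun a => v.1 (σ a), by
    change ∑ a, v.1 (σ a) = 0
    rw [Equiv.sum_comp σ (fun a => v.1 a)]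
    exact sum_V0 v⟩

private theorem B4e_pv_apply {n : ℕ} (σ : Equiv.Perm (Fin n)) (v : V0 n) (a : Fin n) :
    (B4e_pv σ v).1 a = v.1 (σ a) := rfl

private theorem B4e_norm {n : ℕ} (σ : Equiv.Perm (Fin n)) (v : V0 n) :
    ‖B4e_pv σ v‖ = ‖v‖ := by
  change ‖(B4e_pv σ v).1‖ = ‖v.1‖
  rw [EuclideanSpace.norm_eq, EuclideanSpace.norm_eq]
  congr 1
  exact Equiv.sum_comp σ (fun a => ‖v.1 a‖ ^ 2)

private theorem B4e_sign {n : ℕ} (d : ℝ) (hn : 3 ≤ n) :
    (∏ i : Fin n, (if i.val = 0 then d else 1)) = d := by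
  cases n with
  | zero => omega
  | succ m =>
    rw [Fin.prod_univ_succ]
    simp

/-- the signed permutation matrix -/
private theorem B4e_k {n : ℕ} (hn : 3 ≤ n) (σ : Equiv.Perm (Fin n)) :
    ∃ k : SL n, k.1 * k.1ᵀ = 1 ∧ ∀ u : Fin n → ℝ,
      k.1 * Matrix.diagonal (fun a => u (σ a)) * k.1ᵀ = Matrix.diagonal u := by
  classical
  set U : Matrix (Fin n) (Fin n) ℝ := fun i j => if σ j = i then (1 : ℝ) else 0 with hU
  have hdg : ∀ u : Fin n → ℝ, U * Matrix.diagonal (fun a => u (σ a)) * Uᵀ = Matrix.diagonal u := by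
    intro u
    ext i j
    rw [Matrix.mul_apply]
    have e1 : ∀ x : Fin n, (U * Matrix.diagonal (fun a => u (σ a))) i x * Uᵀ x j =
        if x = σ.symm i then (if i = j then u i else 0) else 0 := by
      intro x
      rw [Matrix.mul_diagonal, Matrix.transpose_apply]
      simp only [hU]
      by_cases hx : x = σ.symm i
      · have : σ x = i := by rw [hx]; exact Equiv.apply_symm_apply σ i
        rw [if_pos hx, if_pos this, this, one_mul]
        split_ifs <;> simp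
      · have : ¬ σ x = i := fun h => hx (by rw [← h]; exact (Equiv.symm_apply_apply σ x).symm)
        rw [if_neg hx, if_neg this, zero_mul, zero_mul]
    rw [Finset.sum_congr rfl fun x _ => e1 x, Finset.sum_ite_eq' Finset.univ (σ.symm i),
      if_pos (Finset.mem_univ _), Matrix.diagonal_apply]
  have hUU : U * Uᵀ = 1 := by
    have h := hdg (fun _ => 1)
    rw [Matrix.diagonal_one, Matrix.mul_one] at h
    exact h
  have hdU : U.det * U.det = 1 := by
    have := congrArg Matrix.det hUU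
    rwa [Matrix.det_mul, Matrix.det_transpose, Matrix.det_one] at this
  set e : Fin n → ℝ := fun i => if i.val = 0 then U.det else 1 with he
  have hee : ∀ i, e i * e i = 1 := by
    intro i
    simp only [he]
    split_ifs
    · exact hdU
    · norm_num
  have hde : (U * Matrix.diagonal e).det = 1 := by
    rw [Matrix.det_mul, Matrix.det_diagonal, B4e_sign U.det hn, hdU]
  refine ⟨⟨U * Matrix.diagonal e, hde⟩, ?_, fun u => ?_⟩
  · change U * Matrix.diagonal e * (U * Matrix.diagonal e)ᵀ = 1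
    rw [Matrix.transpose_mul, Matrix.diagonal_transpose, Matrix.mul_assoc,
      ← Matrix.mul_assoc (Matrix.diagonal e), Matrix.diagonal_mul_diagonal]
    have : (fun i => e i * e i) = fun _ => (1 : ℝ) := funext hee
    rw [this, Matrix.diagonal_one, Matrix.one_mul, hUU]
  · change U * Matrix.diagonal e * Matrix.diagonal (fun a => u (σ a)) *
      (U * Matrix.diagonal e)ᵀ = Matrix.diagonal u
    rw [Matrix.transpose_mul, Matrix.diagonal_transpose, Matrix.mul_assoc U,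
      Matrix.diagonal_mul_diagonal, Matrix.mul_assoc U, ← Matrix.mul_assoc (Matrix.diagonal _),
      Matrix.diagonal_mul_diagonal]
    have : (fun i => e i * u (σ i) * e i) = fun i => u (σ i) := by
      funext i
      rw [mul_right_comm, hee, one_mul]
    rw [this, ← Matrix.mul_assoc, hdg]

/-- Row B4e. The same for every regular direction (Weyl element: `lam = k lam' k⁻¹`, `lam'` sorted). -/
theorem avg_reg (hA : AStat) (hM : MStat) {n : ℕ} (hn : 3 ≤ n) (Γ : Subgroup (SL n)) (hd : Disc Γ)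
    (hc : Coc Γ) : ∃ C a : ℝ, 1 ≤ C ∧ 0 < a ∧ ∀ (h : PD n → Fm n) (δ : ℝ), 0 < δ → C * δ ≤ 1 →
    Near Γ 6 δ h → ∀ (J : Mt n →ₗ[ℝ] Mt n →ₗ[ℝ] Fn n)
      (J1 : Mt n →ₗ[ℝ] Mt n →ₗ[ℝ] Mt n →ₗ[ℝ] Fn n)
      (J2 : Mt n →ₗ[ℝ] Mt n →ₗ[ℝ] Mt n →ₗ[ℝ] Mt n →ₗ[ℝ] Fn n), Jm Γ J J1 J2 →
      (∀ v w g, J v w g = Jf (fun p => h p - gF p) v w g) →
    ∀ (lam : V0 n) (η T : ℝ), ‖lam‖ = 1 → 0 < η → η ≤ 1 →
      (∀ i j : Fin n, i ≠ j → η ≤ |lam.1 i - lam.1 j|) → 2 ≤ T → T ≤ δ ^ (-a) →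
      C * Real.log T ≤ η * T → C ≤ η * T → ∀ w : V0 n, ‖w‖ ≤ 1 → ∀ g : SL n,
      |∫ s in (0 : ℝ)..T, J2 (dM w) (dM w) (dM lam) (dM lam) (g * dgm (s • lam))| ≤
        C * δ * (Real.log T + 1 / η) := by
  obtain ⟨C, a, hC, ha, H⟩ := avg_dec hA hM hn Γ hd hc
  refine ⟨C, a, hC, ha, ?_⟩
  intro h δ hδ hCδ hN J J1 J2 hJ hJf lam η T hlam hη hη1 hgap hT hTδ hCT hCT2 w hw g
  set σ : Equiv.Perm (Fin n) := Tuple.sort (fun i => - lam.1 i) with hσ
  have hmono : Monotone ((fun i => - lam.1 i) ∘ σ) := Tuple.monotone_sort _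
  obtain ⟨k, hk, hkd⟩ := B4e_k hn σ
  have hkd' : ∀ v : V0 n, k.1 * dM (B4e_pv σ v) * k.1ᵀ = dM v := fun v => hkd (fun a => v.1 a)
  have hkO : Ort k := hk
  have hkinv : k.1ᵀ * k.1 = 1 := mul_eq_one_comm.mp hk
  have hdgm : ∀ s : ℝ, g * k * dgm (s • B4e_pv σ lam) = g * dgm (s • lam) * k := by
    intro s
    have e1 : k * dgm (s • B4e_pv σ lam) = dgm (s • lam) * k := by
      apply Subtype.ext
      change k.1 * Matrix.diagonal (fun i => Real.exp ((s • B4e_pv σ lam).1 i)) =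
        Matrix.diagonal (fun i => Real.exp ((s • lam).1 i)) * k.1
      have e2 := hkd (fun i => Real.exp ((s • lam).1 i))
      have e3 : (fun i => Real.exp ((s • B4e_pv σ lam).1 i)) =
          fun a => (fun i => Real.exp ((s • lam).1 i)) (σ a) := rfl
      rw [e3, ← e2, Matrix.mul_assoc _ k.1ᵀ k.1, hkinv, Matrix.mul_one]
    rw [mul_assoc, e1, ← mul_assoc]
  have hgap' : ∀ i j : Fin n, i < j → (B4e_pv σ lam).1 j + η ≤ (B4e_pv σ lam).1 i := by
    intro i j hij
    rw [B4e_pv_apply, B4e_pv_apply]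
    have h1 : lam.1 (σ j) ≤ lam.1 (σ i) := by
      have := hmono hij.le
      simp only [Function.comp_apply, neg_le_neg_iff] at this
      exact this
    have h2 := hgap (σ i) (σ j) (fun e => hij.ne (σ.injective e))
    rw [abs_of_nonneg (sub_nonneg.2 h1)] at h2
    linarith
  have htr : ∀ v : V0 n, (dM v).trace = 0 := by
    intro v
    rw [dM, Matrix.trace_diagonal]
    exact sum_V0 v
  have hmain := H h δ hδ hCδ hN J J1 J2 hJ hJf (B4e_pv σ lam) η T
    (by rw [B4e_norm, hlam]) hη hη1 hgap' hT hTδ hCT hCT2 (B4e_pv σ w)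
    (by rw [B4e_norm]; exact hw) (g * k)
  have hfun : ∀ s : ℝ, J2 (dM (B4e_pv σ w)) (dM (B4e_pv σ w)) (dM (B4e_pv σ lam))
      (dM (B4e_pv σ lam)) (g * k * dgm (s • B4e_pv σ lam)) =
      J2 (dM w) (dM w) (dM lam) (dM lam) (g * dgm (s • lam)) := by
    intro s
    rw [hdgm s, jm_ort2 Γ J J1 J2 hJ k hkO _ _ _ _ (htr _), hkd', hkd']
  simp only [hfun] at hmain
  exact hmain

end FL27
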