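import Pool.Agent.LibFL27.B4e
import Pool.Agent.LibFL27.B0
import Pool.Agent.LibFL27.DefsB

set_option autoImplicit false
set_option maxSynthPendingDepth 3

open Matrix MeasureTheory Topology Filter LibNC38
open LibNC27 hiding Mt
open scoped Matrix.Norms.Elementwise

namespace FL27

private theorem B5_BD {n : ℕ} (k : ℕ) (M : ℝ) : ∀ F : Fn n, BD (k + 1) M F → BD k M F := by
  induction k with
  | zero => exact fun F h => h.1
  | succ k ih =>
    intro F h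
    refine ⟨h.1, fun x hx hx1 => ?_⟩
    obtain ⟨F', h1, h2⟩ := h.2 x hx hx1
    exact ⟨F', h1, ih F' h2⟩

private theorem B5_TB {n : ℕ} (M : ℝ) (κ : PD n → Fm n) (h : TB 6 M κ) : TB 4 M κ :=
  fun v w hv hw hv1 hw1 => B5_BD 4 M _ (B5_BD 5 M _ (h v w hv hw hv1 hw1))

private theorem B5_ok {n : ℕ} (Γ : Subgroup (SL n)) (h : PD n → Fm n) (hh : FmOK Γ h) :
    FmOK Γ (fun p => h p - gF p) := by
  have hg := fmOK_gF (n := n) Γ
  refine ⟨fun v w => ?_, fun p v w => ?_, fun γ hγ p v hv => ?_⟩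
  · exact (hh.cont v w).sub (hg.cont v w)
  · show h p v w - gF p v w = h p w v - gF p w v
    rw [hh.symm, hg.symm]
  · show h _ _ _ - gF _ _ _ = h p v v - gF p v v
    rw [hh.inv γ hγ p v hv, hg.inv γ hγ p v hv]

/-- `K (e, f) = K (c e + s f, - s e + c f)` for `c ^ 2 + s ^ 2 = 1` -/
private theorem B5_rot {n : ℕ} (A2 : V0 n →ₗ[ℝ] V0 n →ₗ[ℝ] V0 n →ₗ[ℝ] V0 n →ₗ[ℝ] Fn n)
    (hs : ∀ x y v w, A2 x y v w = A2 x y w v) (hc : ∀ x y v w, A2 x y v w = A2 y x v w)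
    (e f : V0 n) (c s : ℝ) (h : c ^ 2 + s ^ 2 = 1) (g : SL n) :
    A2 f f e e g - 2 * A2 f e e f g + A2 e e f f g =
      A2 (-s • e + c • f) (-s • e + c • f) (c • e + s • f) (c • e + s • f) g -
      2 * A2 (-s • e + c • f) (c • e + s • f) (c • e + s • f) (-s • e + c • f) g +
      A2 (c • e + s • f) (c • e + s • f) (-s • e + c • f) (-s • e + c • f) g := by
  have h1 : ∀ v w, A2 f e v w = A2 e f v w := fun v w => hc f e v w
  have h2 : ∀ x y, A2 x y f e = A2 x y e f := fun x y => hs x y f e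
  simp only [map_add, map_smul, LinearMap.add_apply, LinearMap.smul_apply, Pi.add_apply,
    Pi.smul_apply, smul_eq_mul, h1, h2]
  linear_combination (-(c ^ 2 + s ^ 2 + 1) * (A2 f f e e g - 2 * A2 e f e f g + A2 e e f f g)) * h

private theorem B5_der {n : ℕ} (lam : V0 n) (F F' : Fn n) (h : Rd lam F F') (hF' : Continuous F')
    (B : ℝ) (hB : ∀ g, |F g| ≤ B) (g : SL n) (T : ℝ) :
    |∫ s in (0 : ℝ)..T, F' (g * dgm (s • lam))| ≤ 2 * B := by
  rw [Rd_ftc lam F F' h hF' g T]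
  have h1 := abs_le.1 (hB (g * dgm (T • lam)))
  have h2 := abs_le.1 (hB g)
  exact abs_le.2 ⟨by linarith [h1.1, h2.2], by linarith [h1.2, h2.1]⟩

private theorem B5_line {n : ℕ} (f : Fn n) (hf : Continuous f) (x : V0 n) (g : SL n) (T : ℝ) :
    IntervalIntegrable (fun s : ℝ => f (g * dgm (s • x))) MeasureTheory.volume 0 T := by
  have hd : Continuous fun v : V0 n => dgm v := (dgm_facts (n := n)).2.2.2.2.2
  have h1 : Continuous fun s : ℝ => f (g * dgm (s • x)) :=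
    hf.comp (continuous_const.mul (hd.comp (continuous_id.smul continuous_const)))
  exact h1.intervalIntegrable _ _

private theorem B5_norm {n : ℕ} (e f : V0 n) (he : ‖e‖ = 1) (hf : ‖f‖ = 1)
    (hef : inner ℝ e f = (0 : ℝ)) (c s : ℝ) (h : c ^ 2 + s ^ 2 = 1) : ‖c • e + s • f‖ = 1 := by
  have h1 : ‖c • e + s • f‖ ^ 2 = 1 := by
    rw [norm_add_sq_real, real_inner_smul_left, real_inner_smul_right, hef, norm_smul, norm_smul,
      he, hf, Real.norm_eq_abs, Real.norm_eq_abs, mul_one, mul_one, sq_abs, sq_abs]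
    linarith
  have h2 : 0 ≤ ‖c • e + s • f‖ := norm_nonneg _
  nlinarith

/-- Row B5. Averages of `Kf` along all regular directions of its plane: `Kf e f = Kf lam w`,
`lam = cos φ e + sin φ f`, `w = - sin φ e + cos φ f`; the other terms of `Kf lam w` are derivatives
along `lam`. -/
theorem avg_K (hA : AStat) (hM : MStat) {n : ℕ} (hn : 3 ≤ n) (Γ : Subgroup (SL n)) (hd : Disc Γ)
    (hc : Coc Γ) : ∃ C a : ℝ, 1 ≤ C ∧ 0 < a ∧ ∀ (h : PD n → Fm n) (δ : ℝ), 0 < δ → C * δ ≤ 1 →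
    Near Γ 6 δ h → ∀ (J : Mt n →ₗ[ℝ] Mt n →ₗ[ℝ] Fn n)
      (J1 : Mt n →ₗ[ℝ] Mt n →ₗ[ℝ] Mt n →ₗ[ℝ] Fn n)
      (J2 : Mt n →ₗ[ℝ] Mt n →ₗ[ℝ] Mt n →ₗ[ℝ] Mt n →ₗ[ℝ] Fn n), Jm Γ J J1 J2 →
      (∀ v w g, J v w g = Jf (fun p => h p - gF p) v w g) →
    ∀ (e f : V0 n) (φ η T : ℝ), ‖e‖ = 1 → ‖f‖ = 1 → inner ℝ e f = 0 → 0 < η → η ≤ 1 →
      (∀ i j : Fin n, i ≠ j → η ≤ |(Real.cos φ • e + Real.sin φ • f : V0 n).1 i -
        (Real.cos φ • e + Real.sin φ • f : V0 n).1 j|) → 2 ≤ T → T ≤ δ ^ (-a) →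
      C * Real.log T ≤ η * T → C ≤ η * T → ∀ g : SL n,
      |∫ s in (0 : ℝ)..T, Kf J2 e f (g * dgm (s • (Real.cos φ • e + Real.sin φ • f : V0 n)))| ≤
        C * δ * (Real.log T + 1 / η) := by
  obtain ⟨C1, a, hC1, ha, havg⟩ := avg_reg hA hM hn Γ hd hc
  obtain ⟨C0, hC0, hjm⟩ := jm_bounds n
  refine ⟨C1 + 6 * C0, a, by linarith, ha, ?_⟩
  intro h δ hδ hCδ hN J J1 J2 HJ hJ e f φ η T he hf hef hη hη1 hreg hT hTa hC2 hC3 g
  set c : ℝ := Real.cos φ with hcd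
  set s : ℝ := Real.sin φ with hsd
  have hcs : c ^ 2 + s ^ 2 = 1 := Real.cos_sq_add_sin_sq φ
  set lam : V0 n := c • e + s • f with hlam
  set w : V0 n := -s • e + c • f with hw
  have hln : ‖lam‖ = 1 := B5_norm e f he hf hef c s hcs
  have hwn : ‖w‖ = 1 := B5_norm e f he hf hef (-s) c (by linarith [neg_sq s])
  obtain ⟨A, A1, A2, -, eA1, eA2, HA⟩ := ab_of_jm Γ hc J J1 J2 HJ
  have hlog : 0 ≤ Real.log T := Real.log_nonneg (by linarith)
  have hη' : 1 ≤ 1 / η := by rw [le_div_iff₀ hη]; linarith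
  have h1 := havg h δ hδ (le_trans (mul_le_mul_of_nonneg_right (by linarith) hδ.le) hCδ) hN J J1 J2
    HJ hJ lam η T hln hη hη1 hreg hT hTa
    (le_trans (mul_le_mul_of_nonneg_right (by linarith) hlog) hC2) (by linarith) w hwn.le g
  have hb := hjm Γ (fun p => h p - gF p) δ hδ.le (B5_ok Γ h hN.ok) (B5_TB δ _ hN.tb) J J1 J2 HJ hJ
  have hl2 : ‖lam‖ ≤ 2 := by rw [hln]; norm_num
  have hw2 : ‖w‖ ≤ 2 := by rw [hwn]; norm_num
  have hb1 : ∀ g, |A1 w lam w g| ≤ C0 * δ := fun g => by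
    rw [eA1]
    exact (hb w lam lam w hw2 hl2 hl2 hw2).2.1.bd g
  have hb2 : ∀ g, |A1 lam w w g| ≤ C0 * δ := fun g => by
    rw [eA1]
    exact (hb lam lam w w hl2 hl2 hw2 hw2).2.1.bd g
  have h2 := B5_der lam (A1 w lam w) (A2 lam w lam w) (HA.d2 lam w lam w) (HA.inv2 _ _ _ _).cont
    (C0 * δ) hb1 g T
  have h3 := B5_der lam (A1 lam w w) (A2 lam lam w w) (HA.d2 lam lam w w) (HA.inv2 _ _ _ _).cont
    (C0 * δ) hb2 g T
  rw [← eA2] at h1
  have hK : ∀ g', Kf J2 e f g' = A2 w w lam lam g' - 2 * A2 lam w lam w g' +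
      A2 lam lam w w g' := by
    intro g'
    have e1 : Kf J2 e f g' = A2 f f e e g' - 2 * A2 f e e f g' + A2 e e f f g' := by
      unfold Kf
      rw [eA2, eA2, eA2]
    rw [e1, B5_rot A2 HA.sym2 HA.com2 e f c s hcs g', HA.com2 (-s • e + c • f) (c • e + s • f)]
  have hint : ∫ t in (0 : ℝ)..T, Kf J2 e f (g * dgm (t • lam)) =
      (∫ t in (0 : ℝ)..T, A2 w w lam lam (g * dgm (t • lam))) -
      2 * (∫ t in (0 : ℝ)..T, A2 lam w lam w (g * dgm (t • lam))) +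
      ∫ t in (0 : ℝ)..T, A2 lam lam w w (g * dgm (t • lam)) := by
    have i1 := B5_line (A2 w w lam lam) (HA.inv2 _ _ _ _).cont lam g T
    have i2 := B5_line (A2 lam w lam w) (HA.inv2 _ _ _ _).cont lam g T
    have i3 := B5_line (A2 lam lam w w) (HA.inv2 _ _ _ _).cont lam g T
    rw [← intervalIntegral.integral_const_mul, ← intervalIntegral.integral_sub i1
      (i2.const_mul 2), ← intervalIntegral.integral_add (i1.sub (i2.const_mul 2)) i3]
    exact intervalIntegral.integral_congr fun t _ => hK _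
  rw [hint]
  have a1 := abs_le.1 h1
  have a2 := abs_le.1 h2
  have a3 := abs_le.1 h3
  have hS : 6 * (C0 * δ) ≤ 6 * C0 * δ * (Real.log T + 1 / η) := by
    have h4 : 0 ≤ 6 * C0 * δ := by positivity
    nlinarith
  have hE : (C1 + 6 * C0) * δ * (Real.log T + 1 / η) = C1 * δ * (Real.log T + 1 / η) +
      6 * C0 * δ * (Real.log T + 1 / η) := by ring
  rw [hE]
  exact abs_le.2 ⟨by linarith [a1.1, a2.2, a3.1], by linarith [a1.2, a2.1, a3.2]⟩

end FL27
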