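import Pool.Agent.LibFL27.DefsB

set_option autoImplicit false
set_option maxSynthPendingDepth 3

open Matrix MeasureTheory Topology Filter LibNC38
open LibNC27 hiding Mt
open scoped Matrix.Norms.Elementwise

namespace FL27

private theorem B7a_frac (D N X : ℝ) (hD : D ≠ 0) (hN : N ≠ 0) :
    1 - 1 / (D / N ^ 2) * (X / N ^ 2) = (D - X) / D := by
  field_simp

/-- the algebra of the derivative of the arcus tangens part -/
private theorem B7a_alg (R k s c : ℝ) (hk0 : 0 < k) (hk2 : k ^ 2 = 1 + R ^ 2) (hsc : s ^ 2 + c ^ 2 = 1)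
    (hN : 0 < k * c ^ 2 + s ^ 2) :
    1 - 1 / (1 + ((k - 1) * (s * c) / (k * c ^ 2 + s ^ 2)) ^ 2) *
      (((k - 1) * (c * c + s * -s) * (k * c ^ 2 + s ^ 2) -
        (k - 1) * (s * c) * (k * (2 * c * -s) + 2 * s * c)) / (k * c ^ 2 + s ^ 2) ^ 2) =
      k / (1 + R ^ 2 * c ^ 2) := by
  have hD : 0 < 1 + R ^ 2 * c ^ 2 := by positivity
  have e1 : (k * c ^ 2 + s ^ 2) ^ 2 + ((k - 1) * (s * c)) ^ 2 = 1 + R ^ 2 * c ^ 2 := by
    linear_combination (k ^ 2 * c ^ 2 + s ^ 2) * hsc + c ^ 2 * hk2 + hsc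
  have e2 : (k - 1) * (c * c + s * -s) * (k * c ^ 2 + s ^ 2) -
      (k - 1) * (s * c) * (k * (2 * c * -s) + 2 * s * c) = (k - 1) * (k * c ^ 2 - s ^ 2) := by
    linear_combination (k - 1) * (k * c ^ 2 - s ^ 2) * hsc
  have e3 : 1 + ((k - 1) * (s * c) / (k * c ^ 2 + s ^ 2)) ^ 2 =
      (1 + R ^ 2 * c ^ 2) / (k * c ^ 2 + s ^ 2) ^ 2 := by
    rw [← e1]
    field_simp
  have e4 : k = (1 + R ^ 2 * c ^ 2) - (k - 1) * (k * c ^ 2 - s ^ 2) := by
    linear_combination (-k) * hsc + c ^ 2 * hk2 + hsc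
  rw [e2, e3]
  have e5 : k / (1 + R ^ 2 * c ^ 2) =
      ((1 + R ^ 2 * c ^ 2) - (k - 1) * (k * c ^ 2 - s ^ 2)) / (1 + R ^ 2 * c ^ 2) := by
    rw [← e4]
  rw [e5]
  exact B7a_frac _ _ _ hD.ne' hN.ne'

private theorem B7a_der (R φ : ℝ) : HasDerivAt (fun x : ℝ =>
    1 / (1 + R ^ 2) * (1 / √ (1 + R ^ 2) * (x - Real.arctan ((√ (1 + R ^ 2) - 1) *
      (Real.sin x * Real.cos x) / (√ (1 + R ^ 2) * Real.cos x ^ 2 + Real.sin x ^ 2)))) +
    -R ^ 2 / (1 + R ^ 2) * (Real.sin x * Real.cos x / (1 + R ^ 2 * Real.cos x ^ 2)))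
    ((1 - R ^ 2 * Real.cos φ ^ 2) / (1 + R ^ 2 * Real.cos φ ^ 2) ^ 2) φ := by
  set k : ℝ := √ (1 + R ^ 2) with hk
  have hk2 : k ^ 2 = 1 + R ^ 2 := Real.sq_sqrt (by positivity)
  have hk0 : 0 < k := Real.sqrt_pos.mpr (by positivity)
  have hsc : Real.sin φ ^ 2 + Real.cos φ ^ 2 = 1 := Real.sin_sq_add_cos_sq φ
  have hN : 0 < k * Real.cos φ ^ 2 + Real.sin φ ^ 2 := by
    by_cases h : Real.cos φ = 0
    · rw [h] at hsc ⊢
      nlinarith
    · have : 0 < Real.cos φ ^ 2 := by positivity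
      positivity
  have hD : 0 < 1 + R ^ 2 * Real.cos φ ^ 2 := by positivity
  have hs : HasDerivAt (fun x : ℝ => Real.sin x) (Real.cos φ) φ := Real.hasDerivAt_sin φ
  have hc : HasDerivAt (fun x : ℝ => Real.cos x) (-Real.sin φ) φ := Real.hasDerivAt_cos φ
  have hm : HasDerivAt (fun x : ℝ => Real.sin x * Real.cos x)
      (Real.cos φ * Real.cos φ + Real.sin φ * -Real.sin φ) φ := hs.mul hc
  have hc2 : HasDerivAt (fun x : ℝ => Real.cos x ^ 2) (2 * Real.cos φ * -Real.sin φ) φ := by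
    have h := hc.pow 2
    refine h.congr_deriv ?_
    norm_num
  have hs2 : HasDerivAt (fun x : ℝ => Real.sin x ^ 2) (2 * Real.sin φ * Real.cos φ) φ := by
    have h := hs.pow 2
    refine h.congr_deriv ?_
    norm_num
  have hNd : HasDerivAt (fun x : ℝ => k * Real.cos x ^ 2 + Real.sin x ^ 2)
      (k * (2 * Real.cos φ * -Real.sin φ) + 2 * Real.sin φ * Real.cos φ) φ :=
    (hc2.const_mul k).add hs2
  have hg : HasDerivAt (fun x : ℝ => (k - 1) * (Real.sin x * Real.cos x) /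
      (k * Real.cos x ^ 2 + Real.sin x ^ 2))
      (((k - 1) * (Real.cos φ * Real.cos φ + Real.sin φ * -Real.sin φ) *
        (k * Real.cos φ ^ 2 + Real.sin φ ^ 2) - (k - 1) * (Real.sin φ * Real.cos φ) *
        (k * (2 * Real.cos φ * -Real.sin φ) + 2 * Real.sin φ * Real.cos φ)) /
        (k * Real.cos φ ^ 2 + Real.sin φ ^ 2) ^ 2) φ :=
    (hm.const_mul (k - 1)).div hNd hN.ne'
  have ha := hg.arctan
  have hx := (hasDerivAt_id φ).sub ha
  have h1 := (hx.const_mul (1 / k)).const_mul (1 / (1 + R ^ 2))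
  have hDd : HasDerivAt (fun x : ℝ => 1 + R ^ 2 * Real.cos x ^ 2)
      (R ^ 2 * (2 * Real.cos φ * -Real.sin φ)) φ := by
    have h := (hc2.const_mul (R ^ 2)).const_add 1
    exact h
  have h2 := (hm.div hDd hD.ne').const_mul (-R ^ 2 / (1 + R ^ 2))
  have h3 := h1.add h2
  refine h3.congr_deriv ?_
  rw [B7a_alg R k (Real.sin φ) (Real.cos φ) hk0 hk2 hsc hN]
  have hR : (0 : ℝ) < 1 + R ^ 2 := by positivity
  have e1 : 1 / (1 + R ^ 2) * (1 / k * (k / (1 + R ^ 2 * Real.cos φ ^ 2))) =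
      1 / (1 + R ^ 2) * ((1 + R ^ 2 * Real.cos φ ^ 2) / (1 + R ^ 2 * Real.cos φ ^ 2) ^ 2) := by
    field_simp
  have e2 : (Real.cos φ * Real.cos φ + Real.sin φ * -Real.sin φ) * (1 + R ^ 2 * Real.cos φ ^ 2) -
      Real.sin φ * Real.cos φ * (R ^ 2 * (2 * Real.cos φ * -Real.sin φ)) =
      (2 + R ^ 2) * Real.cos φ ^ 2 - 1 := by
    linear_combination (-1 + R ^ 2 * Real.cos φ ^ 2) * hsc
  rw [e1, e2]
  field_simp
  ring

/-- Row B7a. The Poisson kernel as an average over directions: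
`∫_0^π (1 - R² cos²) / (1 + R² cos²)² = π (1 + R²)^{-3/2}` (substitution `t = tan φ`, or an explicit
primitive). -/
theorem poisson_dir (R : ℝ) :
    ∫ φ in (0 : ℝ)..Real.pi, (1 - R ^ 2 * Real.cos φ ^ 2) / (1 + R ^ 2 * Real.cos φ ^ 2) ^ 2 =
      Real.pi / ((1 + R ^ 2) * √ (1 + R ^ 2)) := by
  have hcont : Continuous fun φ : ℝ =>
      (1 - R ^ 2 * Real.cos φ ^ 2) / (1 + R ^ 2 * Real.cos φ ^ 2) ^ 2 := by
    refine Continuous.div (by fun_prop) (by fun_prop) ?_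
    intro x
    have : 0 < 1 + R ^ 2 * Real.cos x ^ 2 := by positivity
    positivity
  rw [intervalIntegral.integral_eq_sub_of_hasDerivAt (fun φ _ => B7a_der R φ)
    (hcont.intervalIntegrable _ _)]
  have hk0 : 0 < √ (1 + R ^ 2) := Real.sqrt_pos.mpr (by positivity)
  have hR : (0 : ℝ) < 1 + R ^ 2 := by positivity
  simp only [Real.sin_pi, Real.sin_zero, zero_mul, mul_zero, zero_div, Real.arctan_zero, sub_zero,
    add_zero]
  field_simp

end FL27
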