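import Pool.Agent.LibFL27.B7a
import Pool.Agent.LibFL27.DefsB

set_option autoImplicit false
set_option maxSynthPendingDepth 3

open Matrix MeasureTheory Topology Filter LibNC38
open LibNC27 hiding Mt
open scoped Matrix.Norms.Elementwise

namespace FL27

/-- the direction integral at a point -/
private theorem B7b_dir (a b ρ : ℝ) (hρ : 0 < ρ) :
    ∫ φ in (0 : ℝ)..Real.pi, (1 - (-a * Real.sin φ + b * Real.cos φ) ^ 2 / ρ ^ 2) /
        (1 + (-a * Real.sin φ + b * Real.cos φ) ^ 2 / ρ ^ 2) ^ 2 =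
      Real.pi / ((1 + (a ^ 2 + b ^ 2) / ρ ^ 2) * √ (1 + (a ^ 2 + b ^ 2) / ρ ^ 2)) := by
  obtain ⟨r, θ, ha, hb⟩ : ∃ r θ : ℝ, a = r * Real.cos θ ∧ b = r * Real.sin θ := by
    refine ⟨‖(⟨a, b⟩ : ℂ)‖, Complex.arg ⟨a, b⟩, ?_, ?_⟩
    · have := Complex.norm_mul_cos_arg (⟨a, b⟩ : ℂ)
      exact this.symm
    · have := Complex.norm_mul_sin_arg (⟨a, b⟩ : ℂ)
      exact this.symm
  have hper : Function.Periodic (fun x : ℝ => (1 - (r / ρ) ^ 2 * Real.cos x ^ 2) /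
      (1 + (r / ρ) ^ 2 * Real.cos x ^ 2) ^ 2) Real.pi := by
    intro x
    simp only [Real.cos_add_pi, neg_sq]
  have h1 : ∀ φ : ℝ, (1 - (-a * Real.sin φ + b * Real.cos φ) ^ 2 / ρ ^ 2) /
      (1 + (-a * Real.sin φ + b * Real.cos φ) ^ 2 / ρ ^ 2) ^ 2 =
      (1 - (r / ρ) ^ 2 * Real.cos (φ + (Real.pi / 2 - θ)) ^ 2) /
        (1 + (r / ρ) ^ 2 * Real.cos (φ + (Real.pi / 2 - θ)) ^ 2) ^ 2 := by
    intro φ
    have e1 : Real.cos (φ + (Real.pi / 2 - θ)) = Real.sin (θ - φ) := by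
      rw [show φ + (Real.pi / 2 - θ) = Real.pi / 2 - (θ - φ) by ring, Real.cos_pi_div_two_sub]
    have e2 : (-a * Real.sin φ + b * Real.cos φ) ^ 2 / ρ ^ 2 =
        (r / ρ) ^ 2 * Real.cos (φ + (Real.pi / 2 - θ)) ^ 2 := by
      rw [e1, Real.sin_sub, ha, hb]
      field_simp
      ring
    rw [e2]
  simp only [h1]
  rw [intervalIntegral.integral_comp_add_right (fun x => (1 - (r / ρ) ^ 2 * Real.cos x ^ 2) /
      (1 + (r / ρ) ^ 2 * Real.cos x ^ 2) ^ 2)]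
  have h2 := hper.intervalIntegral_add_eq (0 + (Real.pi / 2 - θ)) 0
  rw [zero_add] at h2
  rw [show Real.pi + (Real.pi / 2 - θ) = 0 + (Real.pi / 2 - θ) + Real.pi by ring, zero_add, h2,
    zero_add, poisson_dir]
  have h3 : (r / ρ) ^ 2 = (a ^ 2 + b ^ 2) / ρ ^ 2 := by
    rw [ha, hb, div_pow]
    congr 1
    have := Real.sin_sq_add_cos_sq θ
    linear_combination (-r ^ 2) * this
  rw [h3]

private theorem B7b_h (q : ℝ) : |(1 - q ^ 2) / (1 + q ^ 2) ^ 2| ≤ 1 := by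
  have h : (0 : ℝ) < (1 + q ^ 2) ^ 2 := by positivity
  rw [abs_div, abs_of_pos h, div_le_one h, abs_le]
  constructor <;> nlinarith [sq_nonneg q, sq_nonneg (q ^ 2)]

/-- rotation -/
private theorem B7b_rot (φ : ℝ) : MeasurePreserving (fun x : ℝ × ℝ =>
    (x.1 * Real.cos φ - x.2 * Real.sin φ, x.1 * Real.sin φ + x.2 * Real.cos φ)) := by
  obtain ⟨L, hL⟩ : ∃ L : (ℝ × ℝ) →ₗ[ℝ] (ℝ × ℝ), L = Matrix.toLin (Module.Basis.finTwoProd ℝ)
    (Module.Basis.finTwoProd ℝ) !![Real.cos φ, -Real.sin φ; Real.sin φ, Real.cos φ] := ⟨_, rfl⟩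
  have hdet : LinearMap.det L = 1 := by
    rw [hL, LinearMap.det_toLin, Matrix.det_fin_two_of]
    have := Real.sin_sq_add_cos_sq φ
    linear_combination this
  have hfun : (fun x : ℝ × ℝ =>
      (x.1 * Real.cos φ - x.2 * Real.sin φ, x.1 * Real.sin φ + x.2 * Real.cos φ)) = L := by
    funext x
    rw [hL, Matrix.toLin_finTwoProd_apply]
    ext <;> simp <;> ring
  rw [hfun]
  refine ⟨(LinearMap.continuous_of_finiteDimensional L).measurable, ?_⟩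
  rw [MeasureTheory.Measure.map_linearMap_addHaar_eq_smul_addHaar _ (by rw [hdet]; norm_num), hdet]
  simp

private theorem B7b_exp {c : ℝ} (hc : 0 < c) :
    Integrable (fun x : ℝ => Real.exp (-(c * |x|))) := by
  rw [← integrableOn_univ, ← Set.Iic_union_Ioi (a := (0 : ℝ)), integrableOn_union]
  constructor
  · refine (integrableOn_exp_mul_Iic hc 0).congr_fun (fun x hx => ?_) measurableSet_Iic
    have hx' : x ≤ 0 := hx
    show Real.exp (c * x) = Real.exp (-(c * |x|))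
    rw [abs_of_nonpos hx']
    ring_nf
  · refine (integrableOn_exp_mul_Ioi (a := -c) (by linarith) 0).congr_fun (fun x hx => ?_)
      measurableSet_Ioi
    have hx' : 0 < x := hx
    show Real.exp (-c * x) = Real.exp (-(c * |x|))
    rw [abs_of_pos hx']
    ring_nf

private theorem B7b_int (f : ℝ → ℝ → ℝ) (K c : ℝ) (hf : Continuous fun x : ℝ × ℝ => f x.1 x.2)
    (hc : 0 < c) (hd : ∀ a b, |f a b| ≤ K * Real.exp (-(c * √ (a ^ 2 + b ^ 2)))) :
    Integrable (fun x : ℝ × ℝ => f x.1 x.2) := by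
  have h1 : Integrable (fun x : ℝ × ℝ => K * (Real.exp (-(c / 2 * |x.1|)) *
      Real.exp (-(c / 2 * |x.2|)))) :=
    ((B7b_exp (half_pos hc)).mul_prod (B7b_exp (half_pos hc))).const_mul K
  have hK : 0 ≤ K := by
    have h2 := (abs_nonneg _).trans (hd 0 0)
    by_contra hK
    rw [not_le] at hK
    have h3 := Real.exp_pos (-(c * √ ((0 : ℝ) ^ 2 + 0 ^ 2)))
    nlinarith
  refine h1.mono' hf.aestronglyMeasurable (Filter.Eventually.of_forall fun x => ?_)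
  rw [Real.norm_eq_abs]
  refine (hd x.1 x.2).trans (mul_le_mul_of_nonneg_left ?_ hK)
  rw [← Real.exp_add, Real.exp_le_exp]
  have h4 : |x.1| ≤ √ (x.1 ^ 2 + x.2 ^ 2) := Real.abs_le_sqrt (by nlinarith [sq_nonneg x.2])
  have h5 : |x.2| ≤ √ (x.1 ^ 2 + x.2 ^ 2) := Real.abs_le_sqrt (by nlinarith [sq_nonneg x.1])
  nlinarith

/-- Row B7b. Integral against the Poisson kernel in the plane through line integrals (Fubini and
rotation, B7a with `R = r/ρ`): with `lam_φ = (cos φ, sin φ)`, `ν_φ = (- sin φ, cos φ)`. -/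
theorem plane_lines (f : ℝ → ℝ → ℝ) (K c ρ : ℝ) (hf : Continuous fun x : ℝ × ℝ => f x.1 x.2)
    (hc : 0 < c) (hρ : 0 < ρ)
    (hd : ∀ a b, |f a b| ≤ K * Real.exp (-(c * √ (a ^ 2 + b ^ 2)))) :
    ∫ a : ℝ, ∫ b : ℝ, f a b * (1 / (2 * Real.pi * ρ ^ 2) /
        ((1 + (a ^ 2 + b ^ 2) / ρ ^ 2) * √ (1 + (a ^ 2 + b ^ 2) / ρ ^ 2))) =
      ∫ φ in (0 : ℝ)..Real.pi, ∫ p : ℝ, 1 / (2 * Real.pi ^ 2 * ρ ^ 2) *
        ((1 - p ^ 2 / ρ ^ 2) / (1 + p ^ 2 / ρ ^ 2) ^ 2) *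
        ∫ s : ℝ, f (s * Real.cos φ - p * Real.sin φ) (s * Real.sin φ + p * Real.cos φ) := by
  have hfi := B7b_int f K c hf hc hd
  have hπ := Real.pi_pos
  -- the weight
  obtain ⟨W, hW⟩ : ∃ W : ℝ → ℝ, W = fun p => 1 / (2 * Real.pi ^ 2 * ρ ^ 2) *
    ((1 - p ^ 2 / ρ ^ 2) / (1 + p ^ 2 / ρ ^ 2) ^ 2) := ⟨_, rfl⟩
  obtain ⟨W0, hW0⟩ : ∃ W0 : ℝ, W0 = 1 / (2 * Real.pi ^ 2 * ρ ^ 2) := ⟨_, rfl⟩
  have hW0p : 0 < W0 := by rw [hW0]; positivity
  have hWb : ∀ p, |W p| ≤ W0 := by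
    intro p
    rw [hW]
    show |1 / (2 * Real.pi ^ 2 * ρ ^ 2) * ((1 - p ^ 2 / ρ ^ 2) / (1 + p ^ 2 / ρ ^ 2) ^ 2)| ≤ W0
    rw [← hW0, abs_mul, abs_of_pos hW0p]
    have h1 := B7b_h (p / ρ)
    rw [div_pow] at h1
    nlinarith
  have hWc : Continuous W := by
    rw [hW]
    refine continuous_const.mul (Continuous.div (by fun_prop) (by fun_prop) fun p => ?_)
    positivity
  -- the integrand in the plane
  have hGi : ∀ φ : ℝ, Integrable (fun x : ℝ × ℝ =>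
      W (-x.1 * Real.sin φ + x.2 * Real.cos φ) * f x.1 x.2) := by
    intro φ
    refine (hfi.norm.const_mul W0).mono' ?_ (Filter.Eventually.of_forall fun x => ?_)
    · exact ((hWc.comp (by fun_prop : Continuous fun x : ℝ × ℝ =>
        -x.1 * Real.sin φ + x.2 * Real.cos φ)).mul hf).aestronglyMeasurable
    · rw [norm_mul, Real.norm_eq_abs]
      exact mul_le_mul_of_nonneg_right (hWb _) (norm_nonneg _)
  -- rotation and Fubini
  have h1 : ∀ φ : ℝ, (∫ p : ℝ, W p *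
      ∫ s : ℝ, f (s * Real.cos φ - p * Real.sin φ) (s * Real.sin φ + p * Real.cos φ)) =
      ∫ x : ℝ × ℝ, W (-x.1 * Real.sin φ + x.2 * Real.cos φ) * f x.1 x.2 := by
    intro φ
    have hmp := B7b_rot φ
    obtain ⟨R, hR⟩ : ∃ R : ℝ × ℝ → ℝ × ℝ, R = fun x : ℝ × ℝ =>
      (x.1 * Real.cos φ - x.2 * Real.sin φ, x.1 * Real.sin φ + x.2 * Real.cos φ) := ⟨_, rfl⟩
    rw [← hR] at hmp
    have hG : ∀ x : ℝ × ℝ, W (-(R x).1 * Real.sin φ + (R x).2 * Real.cos φ) *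
        f (R x).1 (R x).2 = W x.2 * f (R x).1 (R x).2 := by
      intro x
      have e : -(R x).1 * Real.sin φ + (R x).2 * Real.cos φ = x.2 := by
        rw [hR]
        show -(x.1 * Real.cos φ - x.2 * Real.sin φ) * Real.sin φ +
          (x.1 * Real.sin φ + x.2 * Real.cos φ) * Real.cos φ = x.2
        have := Real.sin_sq_add_cos_sq φ
        linear_combination x.2 * this
      rw [e]
    have h2 : ∫ x : ℝ × ℝ, W (-x.1 * Real.sin φ + x.2 * Real.cos φ) * f x.1 x.2 =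
        ∫ x : ℝ × ℝ, W x.2 * f (R x).1 (R x).2 := by
      have h3 := MeasureTheory.integral_map (μ := (volume : Measure (ℝ × ℝ))) (φ := R)
        hmp.measurable.aemeasurable (f := fun x : ℝ × ℝ =>
          W (-x.1 * Real.sin φ + x.2 * Real.cos φ) * f x.1 x.2)
        (by rw [hmp.map_eq]; exact (hGi φ).aestronglyMeasurable)
      rw [hmp.map_eq] at h3
      rw [h3]
      exact integral_congr_ae (Filter.Eventually.of_forall hG)
    have h4 : Integrable (fun x : ℝ × ℝ => W x.2 * f (R x).1 (R x).2) := by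
      have h5 := (hmp.integrable_comp (hGi φ).aestronglyMeasurable).2 (hGi φ)
      exact h5.congr (Filter.Eventually.of_forall hG)
    rw [h2]
    have h6 := MeasureTheory.integral_prod_symm (μ := (volume : Measure ℝ))
      (ν := (volume : Measure ℝ)) (fun x : ℝ × ℝ => W x.2 * f (R x).1 (R x).2) h4
    have h7 : (∫ x : ℝ × ℝ, W x.2 * f (R x).1 (R x).2) =
        ∫ y : ℝ, ∫ x : ℝ, W y * f (R (x, y)).1 (R (x, y)).2 := h6
    rw [h7]
    refine integral_congr_ae (Filter.Eventually.of_forall fun y => ?_)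
    show W y * (∫ s : ℝ, f (s * Real.cos φ - y * Real.sin φ) (s * Real.sin φ + y * Real.cos φ)) =
      ∫ x : ℝ, W y * f (R (x, y)).1 (R (x, y)).2
    rw [MeasureTheory.integral_const_mul, hR]
  -- the right-hand side
  have h2 : (∫ φ in (0 : ℝ)..Real.pi, ∫ p : ℝ, 1 / (2 * Real.pi ^ 2 * ρ ^ 2) *
        ((1 - p ^ 2 / ρ ^ 2) / (1 + p ^ 2 / ρ ^ 2) ^ 2) *
        ∫ s : ℝ, f (s * Real.cos φ - p * Real.sin φ) (s * Real.sin φ + p * Real.cos φ)) =
      ∫ φ in (0 : ℝ)..Real.pi, ∫ x : ℝ × ℝ,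
        W (-x.1 * Real.sin φ + x.2 * Real.cos φ) * f x.1 x.2 := by
    refine intervalIntegral.integral_congr fun φ _ => ?_
    show (∫ p : ℝ, 1 / (2 * Real.pi ^ 2 * ρ ^ 2) *
        ((1 - p ^ 2 / ρ ^ 2) / (1 + p ^ 2 / ρ ^ 2) ^ 2) *
        ∫ s : ℝ, f (s * Real.cos φ - p * Real.sin φ) (s * Real.sin φ + p * Real.cos φ)) =
      ∫ x : ℝ × ℝ, W (-x.1 * Real.sin φ + x.2 * Real.cos φ) * f x.1 x.2
    rw [← h1 φ, hW]
  rw [h2]
  -- exchange
  have h3 : Integrable (Function.uncurry fun (φ : ℝ) (x : ℝ × ℝ) =>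
      W (-x.1 * Real.sin φ + x.2 * Real.cos φ) * f x.1 x.2)
      ((volume.restrict (Set.uIoc (0 : ℝ) Real.pi)).prod volume) := by
    have hone : Integrable (fun _ : ℝ => W0) (volume.restrict (Set.uIoc (0 : ℝ) Real.pi)) := by
      rw [Set.uIoc_of_le hπ.le]
      exact integrableOn_const (by simp)
    have h4 := hone.mul_prod (ν := (volume : Measure (ℝ × ℝ))) hfi.norm
    refine h4.mono' ?_ (Filter.Eventually.of_forall fun z => ?_)
    · have hcont : Continuous (Function.uncurry fun (φ : ℝ) (x : ℝ × ℝ) =>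
          W (-x.1 * Real.sin φ + x.2 * Real.cos φ) * f x.1 x.2) := by
        refine Continuous.mul (hWc.comp ?_) (hf.comp continuous_snd)
        fun_prop
      exact hcont.aestronglyMeasurable
    · show ‖W (-z.2.1 * Real.sin z.1 + z.2.2 * Real.cos z.1) * f z.2.1 z.2.2‖ ≤
        W0 * ‖f z.2.1 z.2.2‖
      rw [norm_mul, Real.norm_eq_abs (W _)]
      exact mul_le_mul_of_nonneg_right (hWb _) (norm_nonneg _)
  rw [MeasureTheory.intervalIntegral_integral_swap h3]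
  -- the inner integral
  have h5 : ∀ x : ℝ × ℝ, (∫ φ in (0 : ℝ)..Real.pi,
      W (-x.1 * Real.sin φ + x.2 * Real.cos φ) * f x.1 x.2) =
      f x.1 x.2 * (1 / (2 * Real.pi * ρ ^ 2) /
        ((1 + (x.1 ^ 2 + x.2 ^ 2) / ρ ^ 2) * √ (1 + (x.1 ^ 2 + x.2 ^ 2) / ρ ^ 2))) := by
    intro x
    rw [intervalIntegral.integral_mul_const, hW]
    show (∫ φ in (0 : ℝ)..Real.pi, 1 / (2 * Real.pi ^ 2 * ρ ^ 2) *
        ((1 - (-x.1 * Real.sin φ + x.2 * Real.cos φ) ^ 2 / ρ ^ 2) /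
        (1 + (-x.1 * Real.sin φ + x.2 * Real.cos φ) ^ 2 / ρ ^ 2) ^ 2)) * f x.1 x.2 = _
    rw [intervalIntegral.integral_const_mul, B7b_dir _ _ _ hρ]
    have h6 : 0 < (1 + (x.1 ^ 2 + x.2 ^ 2) / ρ ^ 2) := by positivity
    have h7 : 0 < √ (1 + (x.1 ^ 2 + x.2 ^ 2) / ρ ^ 2) := Real.sqrt_pos.2 h6
    field_simp
  simp only [h5]
  have h8 : Integrable (fun x : ℝ × ℝ => f x.1 x.2 * (1 / (2 * Real.pi * ρ ^ 2) /
        ((1 + (x.1 ^ 2 + x.2 ^ 2) / ρ ^ 2) * √ (1 + (x.1 ^ 2 + x.2 ^ 2) / ρ ^ 2)))) := by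
    refine (hfi.norm.const_mul (1 / (2 * Real.pi * ρ ^ 2))).mono' ?_
      (Filter.Eventually.of_forall fun x => ?_)
    · refine (hf.mul (Continuous.div continuous_const ?_ fun x => ?_)).aestronglyMeasurable
      · fun_prop
      · have h6 : 0 < (1 + (x.1 ^ 2 + x.2 ^ 2) / ρ ^ 2) := by positivity
        exact (mul_pos h6 (Real.sqrt_pos.2 h6)).ne'
    · rw [norm_mul, mul_comm]
      refine mul_le_mul_of_nonneg_right ?_ (norm_nonneg _)
      have h6 : 1 ≤ (1 + (x.1 ^ 2 + x.2 ^ 2) / ρ ^ 2) := by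
        have : 0 ≤ (x.1 ^ 2 + x.2 ^ 2) / ρ ^ 2 := by positivity
        linarith
      have h7 : 1 ≤ √ (1 + (x.1 ^ 2 + x.2 ^ 2) / ρ ^ 2) := Real.one_le_sqrt.2 h6
      have h9 : 0 < 1 / (2 * Real.pi * ρ ^ 2) := by positivity
      rw [Real.norm_eq_abs, abs_of_nonneg (by positivity)]
      refine div_le_self h9.le ?_
      nlinarith
  have h9 := MeasureTheory.integral_prod (μ := (volume : Measure ℝ))
    (ν := (volume : Measure ℝ)) _ h8
  exact h9.symm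

end FL27
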