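import Pool.Agent.LibFL27.CDefs

set_option autoImplicit false
set_option maxSynthPendingDepth 3

open Matrix MeasureTheory Topology Filter LibNC38
open LibNC27 hiding Mt
open scoped Matrix.Norms.Elementwise ContDiff

namespace FL27

private theorem CA0_gen {E : Type*} [NormedRing E] [NormedAlgebra ℝ E] [FiniteDimensional ℝ E]
    (x : E) (t : ℝ) (L : E →ₗ[ℝ] ℝ) :
    HasDerivAt (fun s : ℝ => L (NormedSpace.exp (s • x))) (L (NormedSpace.exp (t • x) * x)) t := by
  have : CompleteSpace E := FiniteDimensional.complete ℝ E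
  have h := hasDerivAt_exp_smul_const (𝕂 := ℝ) x t
  exact (LinearMap.toContinuousLinearMap L).hasFDerivAt.comp_hasDerivAt t h

private theorem CA0_der {n : ℕ} (x : Mt n) (t : ℝ) (a b : Fin n) :
    HasDerivAt (fun s : ℝ => (NormedSpace.exp (s • x)) a b)
      ((NormedSpace.exp (t • x) * x) a b) t :=
  @CA0_gen (Mt n) Matrix.linftyOpNormedRing Matrix.linftyOpNormedAlgebra
    (inferInstanceAs (FiniteDimensional ℝ (Mt n))) x t (Matrix.entryLinearMap ℝ ℝ a b)

private theorem CA0_det {n : ℕ} (x : Mt n) (hx : x.trace = 0) (t : ℝ) :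
    (NormedSpace.exp (t • x)).det = 1 := by
  have hadd : ∀ s u : ℝ, NormedSpace.exp ((s + u) • x) =
      NormedSpace.exp (s • x) * NormedSpace.exp (u • x) := by
    intro s u
    rw [add_smul]
    exact Matrix.exp_add_of_commute _ _ (((Commute.refl x).smul_left s).smul_right u)
  have h0 : HasDerivAt (fun s : ℝ => (NormedSpace.exp (s • x)).det) 0 0 := by
    have h := mnr_deriv (fun s : ℝ => NormedSpace.exp (s • x)) x 0
      (by simp) (fun i j => by
        have := CA0_der x 0 i j
        simpa using this) n le_rfl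
    have e1 : (fun s : ℝ => mnr (NormedSpace.exp (s • x)) n) =
        fun s : ℝ => (NormedSpace.exp (s • x)).det := by
      funext s
      exact mnr_self _
    have e2 : (∑ j : Fin n, if (j : ℕ) < n then x j j else 0) = 0 := by
      have : (∑ j : Fin n, if (j : ℕ) < n then x j j else 0) = x.trace :=
        Finset.sum_congr rfl fun j _ => if_pos j.2
      rw [this, hx]
    rw [e1, e2] at h
    exact h
  have hd : ∀ s : ℝ, HasDerivAt (fun s : ℝ => (NormedSpace.exp (s • x)).det) 0 s := by
    intro s
    have h1 : HasDerivAt (fun u : ℝ => (NormedSpace.exp ((u - s) • x)).det) 0 s := by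
      have h2 : HasDerivAt (fun s : ℝ => (NormedSpace.exp (s • x)).det) 0 (s - s) := by
        rw [sub_self]; exact h0
      have h3 : HasDerivAt (fun u : ℝ => u - s) 1 s := (hasDerivAt_id s).sub_const s
      have h5 := HasDerivAt.comp (h := fun u : ℝ => u - s) s h2 h3
      rw [zero_mul] at h5
      exact h5
    have h4 := h1.const_mul (NormedSpace.exp (s • x)).det
    rw [mul_zero] at h4
    have e : (fun u : ℝ => (NormedSpace.exp (u • x)).det) =
        fun u : ℝ => (NormedSpace.exp (s • x)).det * (NormedSpace.exp ((u - s) • x)).det := by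
      funext u
      rw [← Matrix.det_mul, ← hadd, add_sub_cancel]
    rw [e]
    exact h4
  have hc := is_const_of_deriv_eq_zero (fun s => (hd s).differentiableAt)
    (fun s => (hd s).deriv) t 0
  simpa using hc

private theorem CA0_val {n : ℕ} (x : Mt n) (hx : x.trace = 0) : (ex x).1 = NormedSpace.exp x := by
  have h : (NormedSpace.exp x).det = 1 := by
    have := CA0_det x hx 1
    rwa [one_smul] at this
  rw [ex, dif_pos h]

/-- Row CA0. Facts on `ex`. PLAN. `Matrix.det_exp` (or `LibNC38.det_exp_symm` style argument: `det (exp x) =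
exp (tr x)`); the curve `t ↦ exp (t x)` is additive (`NormedSpace.exp_add_of_commute`) and has derivative
`exp (t x) x` (`hasDerivAt_exp_smul_const`), read off in the entries. -/
theorem ex_facts {n : ℕ} :
    (∀ x : Mt n, x.trace = 0 → (ex x).1 = NormedSpace.exp x) ∧
    (∀ x : Mt n, x.trace = 0 → ∀ s t : ℝ, ex ((s + t) • x) = ex (s • x) * ex (t • x)) ∧
    (∀ x : Mt n, x.trace = 0 → ∀ (g : SL n) (t : ℝ) (a b : Fin n),
      HasDerivAt (fun s : ℝ => (g * ex (s • x)).1 a b) (((g * ex (t • x)).1 * x) a b) t) ∧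
    (ex (0 : Mt n) = 1) ∧
    (∀ x : Mt n, x.trace = 0 → ∀ b : SL n, b * ex x * b⁻¹ = ex (b.1 * x * b⁻¹.1)) ∧
    (∀ x : Mt n, x.trace = 0 → Continuous fun t : ℝ => ex (t • x)) := by
  have hsm : ∀ (x : Mt n) (s : ℝ), x.trace = 0 → (s • x).trace = 0 := by
    intro x s hx
    rw [Matrix.trace_smul, hx, smul_zero]
  refine ⟨fun x hx => CA0_val x hx, ?_, ?_, ?_, ?_, ?_⟩
  · intro x hx s t
    apply Subtype.ext
    change (ex ((s + t) • x)).1 = (ex (s • x)).1 * (ex (t • x)).1
    rw [CA0_val _ (hsm x _ hx), CA0_val _ (hsm x _ hx), CA0_val _ (hsm x _ hx), add_smul]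
    exact Matrix.exp_add_of_commute _ _ (((Commute.refl x).smul_left s).smul_right t)
  · intro x hx g t a b
    have e1 : (fun s : ℝ => (g * ex (s • x)).1 a b) =
        fun s : ℝ => ∑ j, g.1 a j * (NormedSpace.exp (s • x)) j b := by
      funext s
      change (g.1 * (ex (s • x)).1) a b = _
      rw [CA0_val _ (hsm x _ hx), Matrix.mul_apply]
    have e2 : ((g * ex (t • x)).1 * x) a b =
        ∑ j, g.1 a j * (NormedSpace.exp (t • x) * x) j b := by
      change (g.1 * (ex (t • x)).1 * x) a b = _
      rw [CA0_val _ (hsm x _ hx), Matrix.mul_assoc, Matrix.mul_apply]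
    rw [e1, e2]
    exact HasDerivAt.fun_sum fun j _ => (CA0_der x t j b).const_mul _
  · apply Subtype.ext
    rw [CA0_val _ (Matrix.trace_zero _ _)]
    exact NormedSpace.exp_zero
  · intro x hx b
    have hb : b.1 * (b⁻¹).1 = 1 := by
      have := congrArg Subtype.val (mul_inv_cancel b)
      exact this
    have hb2 : (b⁻¹).1 * b.1 = 1 := mul_eq_one_comm.mp hb
    have hinv : (b.1)⁻¹ = (b⁻¹).1 := Matrix.inv_eq_right_inv hb
    have htr : (b.1 * x * (b⁻¹).1).trace = 0 := by
      rw [Matrix.trace_mul_comm, ← Matrix.mul_assoc, hb2, Matrix.one_mul, hx]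
    apply Subtype.ext
    change b.1 * (ex x).1 * (b⁻¹).1 = (ex (b.1 * x * (b⁻¹).1)).1
    rw [CA0_val _ htr, CA0_val _ hx, ← hinv]
    symm
    apply Matrix.exp_conj
    rw [Matrix.isUnit_iff_isUnit_det, b.2]
    exact isUnit_one
  · intro x hx
    refine continuous_induced_rng.2 ?_
    refine continuous_pi fun a => continuous_pi fun b => ?_
    have e : (fun t : ℝ => (ex (t • x)).1 a b) =
        fun t : ℝ => (NormedSpace.exp (t • x)) a b := by
      funext t
      rw [CA0_val _ (hsm x _ hx)]
    have hc : Continuous (fun t : ℝ => (ex (t • x)).1 a b) := by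
      rw [e]
      exact continuous_iff_continuousAt.2 fun t => (CA0_der x t a b).continuousAt
    exact hc

end FL27
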