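import Pool.Agent.LibFL27.CDefs
import Pool.Agent.LibFL27.CA0

set_option autoImplicit false
set_option maxSynthPendingDepth 3

open Matrix MeasureTheory Topology Filter LibNC38
open LibNC27 hiding Mt
open scoped Matrix.Norms.Elementwise ContDiff

namespace FL27

private theorem CA1_left {n : ℕ} (M : Mt n) (A : ℝ → Mt n) (A' : Mt n) (t : ℝ)
    (h : ∀ a b, HasDerivAt (fun s => A s a b) (A' a b) t) (a b : Fin n) :
    HasDerivAt (fun s => (M * A s) a b) ((M * A') a b) t := by
  have h1 : (fun s => (M * A s) a b) = fun s => ∑ j, M a j * A s j b :=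
    funext fun s => Matrix.mul_apply
  rw [h1, Matrix.mul_apply]
  exact HasDerivAt.fun_sum fun j _ => (h j b).const_mul (M a j)

private theorem CA1_right {n : ℕ} (M : Mt n) (A : ℝ → Mt n) (A' : Mt n) (t : ℝ)
    (h : ∀ a b, HasDerivAt (fun s => A s a b) (A' a b) t) (a b : Fin n) :
    HasDerivAt (fun s => (A s * M) a b) ((A' * M) a b) t := by
  have h1 : (fun s => (A s * M) a b) = fun s => ∑ j, A s a j * M j b :=
    funext fun s => Matrix.mul_apply
  rw [h1, Matrix.mul_apply]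
  exact HasDerivAt.fun_sum fun j _ => (h a j).mul_const (M j b)

/-- Row CA1. Basic rules for `RD`. PLAN. `rd_uniq`: the curve `s ↦ g * ex (s • x)` of `ex_facts`.
`rd_ex`: for the curve `s ↦ g * ex ((t + s) • x)`. Sums and products: `HasDerivAt.add`, `.mul`.
Translations: the curve `γ * c`, `c * b` has derivative `γ c x`, `c x b = (c b) (b⁻¹ x b)`. -/
theorem rd_rules {n : ℕ} :
    (∀ (x : Mt n) (F F1 F2 : Fn n), x.trace = 0 → RD x F F1 → RD x F F2 → F1 = F2) ∧
    (∀ (x : Mt n) (F F' : Fn n), x.trace = 0 → RD x F F' → ∀ (g : SL n) (t : ℝ),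
      HasDerivAt (fun s : ℝ => F (g * ex (s • x))) (F' (g * ex (t • x))) t) ∧
    (∀ (x : Mt n) (F F' G G' : Fn n), RD x F F' → RD x G G' →
      RD x (fun g => F g + G g) (fun g => F' g + G' g)) ∧
    (∀ (x : Mt n) (F F' G G' : Fn n), RD x F F' → RD x G G' →
      RD x (fun g => F g * G g) (fun g => F' g * G g + F g * G' g)) ∧
    (∀ (x : Mt n) (F F' : Fn n) (r : ℝ), RD x F F' → RD x (fun g => r * F g) (fun g => r * F' g)) ∧
    (∀ (x : Mt n) (r : ℝ), RD x (fun _ => r) (fun _ => 0)) ∧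
    (∀ (x : Mt n) (F F' : Fn n) (r : ℝ), r ≠ 0 → RD x F F' → RD (r • x) F (fun g => r * F' g)) ∧
    (∀ (x : Mt n) (F F' : Fn n) (γ : SL n), RD x F F' →
      RD x (fun g => F (γ * g)) (fun g => F' (γ * g))) ∧
    (∀ (x : Mt n) (F F' : Fn n) (b : SL n), RD (b⁻¹.1 * x * b.1) F F' →
      RD x (fun g => F (g * b)) (fun g => F' (g * b))) := by
  obtain ⟨-, -, e3, e4, -, -⟩ := ex_facts (n := n)
  refine ⟨?_, ?_, ?_, ?_, ?_, ?_, ?_, ?_, ?_⟩
  · intro x F F1 F2 hx h1 h2
    funext g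
    have hc : ∀ a b, HasDerivAt (fun s : ℝ => (g * ex (s • x)).1 a b)
        (((g * ex ((0 : ℝ) • x)).1 * x) a b) 0 := fun a b => e3 x hx g 0 a b
    have h3 := (h1 (fun s : ℝ => g * ex (s • x)) hc).unique (h2 (fun s : ℝ => g * ex (s • x)) hc)
    have h4 : g * ex ((0 : ℝ) • x) = g := by rw [zero_smul, e4, mul_one]
    simpa only [h4] using h3
  · intro x F F' hx h g t
    have hc : ∀ a b, HasDerivAt (fun s : ℝ => (g * ex ((s + t) • x)).1 a b)
        (((g * ex (((0 : ℝ) + t) • x)).1 * x) a b) 0 := fun a b => by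
      have h1 := e3 x hx g (0 + t) a b
      exact h1.comp_add_const 0 t
    have h2 := h (fun s : ℝ => g * ex ((s + t) • x)) hc
    have h3 : HasDerivAt (fun s : ℝ => F (g * ex ((s + t) • x))) (F' (g * ex ((0 + t) • x)))
        (t - t) := by
      rw [sub_self]
      exact h2
    have h4 := h3.comp_sub_const t t
    have h5 : (fun s : ℝ => F (g * ex ((s - t + t) • x))) = fun s : ℝ => F (g * ex (s • x)) := by
      funext s
      rw [sub_add_cancel]
    rw [h5, zero_add] at h4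
    exact h4
  · intro x F F' G G' h1 h2 c hc
    exact (h1 c hc).add (h2 c hc)
  · intro x F F' G G' h1 h2 c hc
    exact (h1 c hc).mul (h2 c hc)
  · intro x F F' r h1 c hc
    exact (h1 c hc).const_mul r
  · intro x r c hc
    exact hasDerivAt_const 0 r
  · intro x F F' r hr h c hc
    have h0 : c (r⁻¹ * 0) = c 0 := by rw [mul_zero]
    have h1 : ∀ a b, HasDerivAt (fun s => (c (r⁻¹ * s)).1 a b) (((c (r⁻¹ * 0)).1 * x) a b) 0 := by
      intro a b
      have h2 : HasDerivAt (fun s => (c s).1 a b) (((c 0).1 * (r • x)) a b) (r⁻¹ * 0) := by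
        rw [mul_zero]
        exact hc a b
      have h3 := HasDerivAt.comp (0 : ℝ) h2 ((hasDerivAt_id (0 : ℝ)).const_mul r⁻¹)
      have h4 : ((c 0).1 * (r • x)) a b * (r⁻¹ * 1) = ((c (r⁻¹ * 0)).1 * x) a b := by
        rw [h0, Matrix.mul_smul, Matrix.smul_apply, smul_eq_mul]
        field_simp
      rw [h4] at h3
      exact h3
    have h5 := h (fun s => c (r⁻¹ * s)) h1
    have h6 : HasDerivAt (fun s => F (c (r⁻¹ * s))) (F' (c (r⁻¹ * 0))) (r * 0) := by
      rw [mul_zero r]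
      exact h5
    have h7 := HasDerivAt.comp (0 : ℝ) h6 ((hasDerivAt_id (0 : ℝ)).const_mul r)
    have h8 : (fun s => F (c (r⁻¹ * s))) ∘ (HMul.hMul r) = fun s => F (c s) := by
      funext s
      show F (c (r⁻¹ * (r * s))) = F (c s)
      rw [← mul_assoc, inv_mul_cancel₀ hr, one_mul]
    have h9 : F' (c (r⁻¹ * 0)) * (r * 1) = r * F' (c 0) := by
      rw [h0]
      ring
    rw [h8, h9] at h7
    exact h7
  · intro x F F' γ h c hc
    refine h (fun s => γ * c s) fun a b => ?_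
    have h1 := CA1_left γ.1 (fun s => (c s).1) ((c 0).1 * x) 0 hc a b
    rw [← Matrix.mul_assoc] at h1
    exact h1
  · intro x F F' b h c hc
    refine h (fun s => c s * b) fun i j => ?_
    have h1 := CA1_right b.1 (fun s => (c s).1) ((c 0).1 * x) 0 hc i j
    have h2 : b.1 * b⁻¹.1 = 1 := by
      have h3 : (b * b⁻¹).1 = (1 : SL n).1 := by rw [mul_inv_cancel]
      exact h3
    have h4 : (c 0).1 * x * b.1 = ((c 0 * b).1) * (b⁻¹.1 * x * b.1) := by
      have h5 : (c 0 * b).1 = (c 0).1 * b.1 := rfl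
      rw [h5]
      calc (c 0).1 * x * b.1 = (c 0).1 * (b.1 * b⁻¹.1) * x * b.1 := by rw [h2, Matrix.mul_one]
        _ = (c 0).1 * b.1 * (b⁻¹.1 * x * b.1) := by simp only [Matrix.mul_assoc]
    rw [h4] at h1
    exact h1

end FL27
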