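import Pool.Agent.LibFL27.CDefs

set_option autoImplicit false
set_option maxSynthPendingDepth 3

open Matrix MeasureTheory Topology Filter LibNC38
open LibNC27 hiding Mt
open scoped Matrix.Norms.Elementwise ContDiff

namespace FL27

private theorem CA10_bd_wb {n : ℕ} : ∀ (k : ℕ) (M : ℝ) (F : Fn n), BD k M F ↔ WB 1 k M F
  | 0, _, _ => Iff.rfl
  | k + 1, M, F => by
    simp only [BD, WB, T1, mul_one]
    constructor
    · rintro ⟨h, hx⟩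
      refine ⟨h, fun x hx1 => ?_⟩
      obtain ⟨F', h1, h2⟩ := hx x hx1.1 hx1.2
      exact ⟨F', h1, (CA10_bd_wb k M F').1 h2⟩
    · rintro ⟨h, hx⟩
      refine ⟨h, fun x hx1 hx2 => ?_⟩
      obtain ⟨F', h1, h2⟩ := hx x ⟨hx1, hx2⟩
      exact ⟨F', h1, (CA10_bd_wb k M F').2 h2⟩

private theorem CA10_zero {n : ℕ} {θ M : ℝ} {F : Fn n} : ∀ (k : ℕ), WB θ k M F →
    Continuous F ∧ ∀ g, |F g| ≤ M
  | 0, h => h
  | _ + 1, h => h.1

private theorem CA10_wb_bd {n : ℕ} {θ : ℝ} (hθ : 1 ≤ θ) : ∀ (j k : ℕ) (M : ℝ) (F : Fn n),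
    0 ≤ M → j ≤ k → WB θ k M F → BD j (M * θ ^ j) F
  | 0, k, M, F, _, _, h => by
    simpa [BD] using CA10_zero k h
  | j + 1, 0, _, _, _, hj, _ => absurd hj (by omega)
  | j + 1, k + 1, M, F, hM, hj, h => by
    refine ⟨⟨h.1.1, fun g => (h.1.2 g).trans ?_⟩, fun x hx1 hx2 => ?_⟩
    · exact le_mul_of_one_le_right hM (one_le_pow₀ hθ)
    · obtain ⟨F', h1, h2⟩ := h.2 x ⟨hx1, hx2⟩
      refine ⟨F', h1, ?_⟩
      have := CA10_wb_bd hθ j k (M * θ) F' (mul_nonneg hM (by linarith)) (by omega) h2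
      have e : M * θ ^ (j + 1) = M * θ * θ ^ j := by ring
      rw [e]; exact this

/-- Row CA10. Comparison with the definitions of FL27. PLAN. `BD k M = WB 1 k M` (unfold, `M * 1 = M`); induction:
`WB θ k M → BD j (M θ^j)`, `j ≤ k`, `1 ≤ θ`, `0 ≤ M`. -/
theorem tw_tb {n : ℕ} (κ : PD n → Fm n) :
    (∀ (k : ℕ) (M : ℝ), TB k M κ ↔ TW 1 k M κ) ∧
    (∀ (θ : ℝ) (k j : ℕ) (M : ℝ), 1 ≤ θ → 0 ≤ M → j ≤ k → TW θ k M κ → TB j (M * θ ^ j) κ) := by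
  refine ⟨fun k M => ⟨fun h v w hv hw h1 h2 => ?_, fun h v w hv hw h1 h2 => ?_⟩,
    fun θ k j M hθ hM hj h v w hv hw h1 h2 => ?_⟩
  · exact (CA10_bd_wb k M _).1 (h v w hv hw h1 h2)
  · exact (CA10_bd_wb k M _).2 (h v w hv hw h1 h2)
  · exact CA10_wb_bd hθ j k M _ hM hj (h v w hv hw h1 h2)

end FL27
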