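import Pool.Agent.LibFL27.CDefs
import Pool.Agent.LibFL27.CA1
import Pool.Agent.LibNT38.TB1

set_option autoImplicit false
set_option maxSynthPendingDepth 3

open Matrix MeasureTheory Topology Filter LibNC38
open LibNC27 hiding Mt
open scoped Matrix.Norms.Elementwise ContDiff

namespace FL27

private theorem CA2_mul (z H : ℝ → ℝ) (x h : ℝ) (hz0 : z 0 = 0) (hz : HasDerivAt z x 0)
    (hH : Tendsto H (𝓝[≠] 0) (𝓝 h)) : HasDerivAt (fun s => z s * H s) (x * h) 0 := by
  rw [hasDerivAt_iff_tendsto_slope] at hz ⊢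
  have h1 : Tendsto (fun s => slope z 0 s * H s) (𝓝[≠] 0) (𝓝 (x * h)) := hz.mul hH
  refine h1.congr (fun s => ?_)
  rw [slope_def_field, slope_def_field, hz0]
  ring

private theorem CA2_mvt {n : ℕ} (F : Fn n) (G : Mt n →ₗ[ℝ] Fn n)
    (h : ∀ x : Mt n, x.trace = 0 → ∀ g : SL n,
      HasDerivAt (fun t : ℝ => F (g * ex (t • x))) (G x g) 0) (g : SL n) (z : Mt n)
    (hz : z.trace = 0) : ∃ t ∈ Set.Ioo (0 : ℝ) 1, F (g * ex z) - F g = G z (g * ex (t • z)) := by
  obtain ⟨-, hadd, -, h0, -, -⟩ := @ex_facts n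
  have hd : ∀ t : ℝ, HasDerivAt (fun r : ℝ => F (g * ex (r • z))) (G z (g * ex (t • z))) t := by
    intro t
    have h1 := h z hz (g * ex (t • z))
    have h2 : (fun s : ℝ => F (g * ex (t • z) * ex (s • z))) = fun s : ℝ => F (g * ex ((t + s) • z)) := by
      funext s
      rw [hadd z hz, mul_assoc]
    rw [h2] at h1
    have h3 : HasDerivAt (fun r : ℝ => r - t) 1 t := (hasDerivAt_id t).sub_const t
    have h1' : HasDerivAt (fun s : ℝ => F (g * ex ((t + s) • z))) (G z (g * ex (t • z)))
        ((fun r : ℝ => r - t) t) := by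
      show HasDerivAt (fun s : ℝ => F (g * ex ((t + s) • z))) (G z (g * ex (t • z))) (t - t)
      rw [sub_self]; exact h1
    have h4 := HasDerivAt.comp (h := fun r : ℝ => r - t)
      (h₂ := fun s : ℝ => F (g * ex ((t + s) • z))) t h1' h3
    rw [mul_one] at h4
    refine h4.congr_of_eventuallyEq (Eventually.of_forall (fun r => ?_))
    show F (g * ex (r • z)) = F (g * ex ((t + (r - t)) • z))
    rw [add_sub_cancel]
  obtain ⟨t, ht, ht'⟩ := exists_hasDerivAt_eq_slope (fun r : ℝ => F (g * ex (r • z)))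
    (fun t => G z (g * ex (t • z))) (zero_lt_one) (fun r _ => (hd r).continuousAt.continuousWithinAt)
    (fun r _ => hd r)
  refine ⟨t, ht, ?_⟩
  rw [ht']
  simp only [one_smul, zero_smul, h0, mul_one, sub_zero, div_one]

private theorem CA2_tr {n : ℕ} (z : Mt n) (hz : (NormedSpace.exp z : Mt n).det = 1) : z.trace = 0 := by
  rcases Nat.eq_zero_or_pos n with hn | hn
  · subst hn
    simp [Matrix.trace]
  obtain ⟨hex, -, -, -, -, -⟩ := @ex_facts n
  have hn' : (n : ℝ) ≠ 0 := by positivity
  set z0 : Mt n := z - (z.trace / n) • (1 : Mt n) with hz0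
  have h1 : z0.trace = 0 := by
    rw [hz0, Matrix.trace_sub, Matrix.trace_smul, Matrix.trace_one, Fintype.card_fin, smul_eq_mul]
    field_simp
    ring
  have h2 : (NormedSpace.exp z0 : Mt n).det = 1 := by
    rw [← hex z0 h1]; exact (ex z0).2
  have h3 : z = z0 + (z.trace / n) • (1 : Mt n) := by rw [hz0]; abel
  have h4 : (NormedSpace.exp z : Mt n) = NormedSpace.exp z0 * NormedSpace.exp ((z.trace / n) • (1 : Mt n)) := by
    conv_lhs => rw [h3]
    exact Matrix.exp_add_of_commute _ _ ((Commute.one_right z0).smul_right _)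
  have h5 : (NormedSpace.exp ((z.trace / n) • (1 : Mt n)) : Mt n) = Matrix.diagonal (fun _ => Real.exp (z.trace / n)) := by
    have h6 : ((z.trace / n) • (1 : Mt n) : Mt n) = Matrix.diagonal (fun _ : Fin n => z.trace / n) := by
      rw [← Matrix.diagonal_one]
      ext i j
      by_cases hij : i = j
      · subst hij; simp
      · simp [Matrix.diagonal_apply_ne _ hij, Matrix.one_apply_ne hij]
    rw [h6, Matrix.exp_diagonal]
    congr 1
    funext i
    rw [Pi.coe_exp, Real.exp_eq_exp_ℝ]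
  rw [h4, Matrix.det_mul, h2, one_mul, h5, Matrix.det_diagonal, Finset.prod_const, Finset.card_univ,
    Fintype.card_fin, ← Real.exp_nat_mul] at hz
  have h7 := Real.exp_eq_one_iff _ |>.1 hz
  field_simp at h7
  exact h7

/-- Row CA2. Criterion: derivatives along the exponential curves, continuous and linear in the direction,
give `RD`. PLAN. Near `g`: `g' = g ex z` with `z` small, smooth in `g'` (logarithm near `1`: inverse function
theorem for `NormedSpace.exp` at `0`, `LibNC38.log_ex`; trace zero as `det = 1`). `F (g ex z) - F g =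
∫_0^1 (G z) (g ex (t z)) dt` (derivative of `t ↦ F (g ex (t z))` at `t`: hypothesis at the point
`g ex (t z)`), `= G z g + o(|z|)` by continuity of the `G e_ab` and linearity (`G z = ∑ z_ab G e_ab`). For a
curve `c` with `c'(0) = c(0) x` the logarithm `z(s)` of `c(0)⁻¹ c(s)` has derivative `x` at `0`. -/
theorem rd_crit {n : ℕ} (F : Fn n) (G : Mt n →ₗ[ℝ] Fn n) (hG : ∀ x, Continuous (G x))
    (h : ∀ x : Mt n, x.trace = 0 → ∀ g : SL n,
      HasDerivAt (fun t : ℝ => F (g * ex (t • x))) (G x g) 0) :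
    ∀ x : Mt n, x.trace = 0 → RD x F (G x) := by
  classical
  intro x hx c hc
  obtain ⟨hex, hadd, hcur, hex0, -, -⟩ := @ex_facts n
  obtain ⟨N, N', L, hN, hN', h0N', hL, -, hLN, hLN'⟩ := @log_ex n
  set g : SL n := c 0 with hg
  -- the curve near 1
  set u : ℝ → Mt n := fun s => (g⁻¹ * c s).1 with hu
  have hu0 : u 0 = 1 := by
    show (g⁻¹ * c 0).1 = 1
    rw [← hg, inv_mul_cancel]
    rfl
  have hud : HasDerivAt u x 0 := by
    refine hasDerivAt_pi.2 fun a => hasDerivAt_pi.2 fun b => ?_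
    have h1 : (fun s => u s a b) = fun s => ∑ k, g⁻¹.1 a k * (c s).1 k b := by
      funext s
      show (g⁻¹.1 * (c s).1) a b = _
      exact Matrix.mul_apply
    have h2 : x a b = ∑ k, g⁻¹.1 a k * (g.1 * x) k b := by
      have h3 : g⁻¹.1 * (g.1 * x) = x := by
        rw [← Matrix.mul_assoc]
        have h4 : g⁻¹.1 * g.1 = (1 : Mt n) := by
          have h5 : (g⁻¹ * g).1 = (1 : SL n).1 := by rw [inv_mul_cancel]
          exact h5
        rw [h4, Matrix.one_mul]
      conv_lhs => rw [← h3]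
      exact Matrix.mul_apply
    rw [h1, h2]
    exact HasDerivAt.fun_sum (fun k _ => (hc k b).const_mul _)
  have h1N : (1 : Mt n) ∈ N := by
    have h1 := (hLN' 0 h0N').1
    rwa [NormedSpace.exp_zero] at h1
  have hL1 : L 1 = 0 := by
    have h1 := (hLN' 0 h0N').2
    rwa [NormedSpace.exp_zero] at h1
  have hLd : DifferentiableAt ℝ L 1 :=
    (hL.contDiffAt (hN.mem_nhds h1N)).differentiableAt (by simp)
  obtain ⟨D, hD⟩ : ∃ D : Mt n →L[ℝ] Mt n, HasFDerivAt L D 1 := hLd
  have hDx : D x = x := by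
    have h1 : HasDerivAt (fun s : ℝ => (NormedSpace.exp (s • x) : Mt n)) x 0 := by
      have h2 := exp_deriv x 0
      rw [zero_smul, NormedSpace.exp_zero, mul_one] at h2
      exact h2
    have h3 : HasFDerivAt L D ((fun s : ℝ => (NormedSpace.exp (s • x) : Mt n)) 0) := by
      show HasFDerivAt L D (NormedSpace.exp ((0 : ℝ) • x))
      rw [zero_smul, NormedSpace.exp_zero]
      exact hD
    have h4 := h3.comp_hasDerivAt (0 : ℝ) h1
    have h5 : ∀ᶠ s : ℝ in 𝓝 0, s • x ∈ N' := by
      have h6 : Tendsto (fun s : ℝ => s • x) (𝓝 0) (𝓝 ((0 : ℝ) • x)) :=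
        (continuous_id.smul continuous_const).tendsto 0
      rw [zero_smul] at h6
      exact h6.eventually (hN'.mem_nhds h0N')
    have h7 : HasDerivAt (fun s : ℝ => s • x) (D x) 0 := by
      refine h4.congr_of_eventuallyEq ?_
      filter_upwards [h5] with s hs
      exact (hLN' _ hs).2.symm
    have h8 : HasDerivAt (fun s : ℝ => s • x) ((1 : ℝ) • x) 0 := (hasDerivAt_id (0 : ℝ)).smul_const x
    rw [one_smul] at h8
    exact h7.unique h8
  set z : ℝ → Mt n := fun s => L (u s) with hz
  have hz0 : z 0 = 0 := by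
    show L (u 0) = 0
    rw [hu0, hL1]
  have hzd : HasDerivAt z x 0 := by
    have h1 : HasFDerivAt L D (u 0) := by rw [hu0]; exact hD
    have h2 := h1.comp_hasDerivAt (0 : ℝ) hud
    exact h2.congr_deriv hDx
  have huN : ∀ᶠ s in 𝓝 (0 : ℝ), u s ∈ N := by
    have h1 := hud.continuousAt.tendsto
    rw [hu0] at h1
    exact h1.eventually (hN.mem_nhds h1N)
  have hzt : ∀ s, u s ∈ N → (z s).trace = 0 ∧ c s = g * ex (z s) := by
    intro s hs
    have h1 : (NormedSpace.exp (z s) : Mt n) = u s := (hLN _ hs).2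
    have h2 : (z s).trace = 0 := by
      apply CA2_tr
      rw [h1]
      exact (g⁻¹ * c s).2
    refine ⟨h2, ?_⟩
    have h3 : ex (z s) = g⁻¹ * c s := by
      apply Subtype.ext
      rw [hex _ h2, h1]
    rw [h3, mul_inv_cancel_left]
  -- the intermediate point
  have hp : ∀ s, ∃ t : ℝ, t ∈ Set.Ioo (0 : ℝ) 1 ∧
      ((z s).trace = 0 → F (g * ex (z s)) - F g = G (z s) (g * ex (t • z s))) := by
    intro s
    by_cases h1 : (z s).trace = 0
    · obtain ⟨t, ht, ht'⟩ := CA2_mvt F G h g (z s) h1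
      exact ⟨t, ht, fun _ => ht'⟩
    · exact ⟨1 / 2, ⟨by norm_num, by norm_num⟩, fun h2 => absurd h2 h1⟩
  choose t ht ht' using hp
  set p : ℝ → SL n := fun s => g * ex (t s • z s) with hpd
  have hpt : Tendsto p (𝓝 0) (𝓝 g) := by
    refine tendsto_subtype_rng.2 ?_
    have h1 : Tendsto (fun s => t s • z s) (𝓝 0) (𝓝 0) := by
      refine tendsto_zero_iff_norm_tendsto_zero.2 ?_
      have h2 : Tendsto (fun s => ‖z s‖) (𝓝 0) (𝓝 0) := by
        have h3 := hzd.continuousAt.tendsto
        rw [hz0] at h3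
        exact tendsto_zero_iff_norm_tendsto_zero.1 h3
      refine squeeze_zero (fun s => norm_nonneg _) (fun s => ?_) h2
      rw [norm_smul, Real.norm_eq_abs, abs_of_pos (ht s).1]
      exact mul_le_of_le_one_left (norm_nonneg _) (ht s).2.le
    have h4 : Tendsto (fun s => g.1 * (NormedSpace.exp (t s • z s) : Mt n)) (𝓝 0) (𝓝 g.1) := by
      have h5 : Continuous (fun A : Mt n => g.1 * (NormedSpace.exp A : Mt n)) :=
        continuous_const.matrix_mul exp_smooth.continuous
      have h6 := (h5.tendsto 0).comp h1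
      rw [NormedSpace.exp_zero, mul_one] at h6
      exact h6
    refine h4.congr' ?_
    filter_upwards [huN] with s hs
    have h7 : (t s • z s).trace = 0 := by
      rw [Matrix.trace_smul, (hzt s hs).1, smul_zero]
    show g.1 * (NormedSpace.exp (t s • z s) : Mt n) = (g * ex (t s • z s)).1
    rw [← hex _ h7]
    rfl
  have hexp : ∀ (w : Mt n) (q : SL n), G w q = ∑ a, ∑ b, w a b * G (Matrix.single a b 1) q := by
    intro w q
    have h1 : w = ∑ a, ∑ b, w a b • (Matrix.single a b (1 : ℝ) : Mt n) := by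
      conv_lhs => rw [Matrix.matrix_eq_sum_single w]
      refine Finset.sum_congr rfl (fun a _ => Finset.sum_congr rfl (fun b _ => ?_))
      rw [Matrix.smul_single, smul_eq_mul, mul_one]
    conv_lhs => rw [h1]
    simp only [map_sum, map_smul, Finset.sum_apply, Pi.smul_apply, smul_eq_mul]
  have hfin : HasDerivAt (fun s => F g + ∑ a, ∑ b, z s a b * G (Matrix.single a b 1) (p s))
      (G x g) 0 := by
    rw [hexp x g]
    refine HasDerivAt.const_add _ (HasDerivAt.fun_sum (fun a _ => HasDerivAt.fun_sum (fun b _ => ?_)))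
    refine CA2_mul (fun s => z s a b) (fun s => G (Matrix.single a b 1) (p s)) _ _ ?_ ?_ ?_
    · show z 0 a b = 0
      rw [hz0]; rfl
    · exact hasDerivAt_pi.1 (hasDerivAt_pi.1 hzd a) b
    · exact ((hG _).tendsto g).comp (hpt.mono_left nhdsWithin_le_nhds)
  show HasDerivAt (fun s => F (c s)) (G x g) 0
  refine hfin.congr_of_eventuallyEq ?_
  filter_upwards [huN] with s hs
  rw [← hexp (z s) (p s)]
  obtain ⟨h1, h2⟩ := hzt s hs
  have h3 := ht' s h1
  rw [← h2] at h3
  show F (c s) = F g + G (z s) (g * ex (t s • z s))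
  linarith

end FL27
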