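import Pool.Agent.LibFL27.CDefs
import Pool.Agent.LibFL27.CA1

set_option autoImplicit false
set_option maxSynthPendingDepth 3

open Matrix MeasureTheory Topology Filter LibNC38
open LibNC27 hiding Mt
open scoped Matrix.Norms.Elementwise ContDiff

namespace FL27

private theorem CA3_slope (f ψ : ℝ → ℝ) (hψ : Continuous ψ) (h : ∀ t, f t = t * ψ t) :
    HasDerivAt f (ψ 0) 0 := by
  rw [hasDerivAt_iff_tendsto_slope]
  have h1 : Tendsto ψ (𝓝[≠] 0) (𝓝 (ψ 0)) := (hψ.tendsto 0).mono_left nhdsWithin_le_nhds
  refine h1.congr' ?_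
  filter_upwards [self_mem_nhdsWithin] with t ht
  have ht0 : t ≠ 0 := ht
  rw [slope_def_field, h t, h 0]
  field_simp
  ring

/-- Row CA3. Linearity in the direction: for functions of class `C¹` (all `x` in the box have a continuous
derivative) the derivatives assemble to a linear map; it is normalised by `G 1 = 0`. PLAN. `n = 0`: trivial
(`Mt 0` is a subsingleton). `D x` := the derivative for `x` in the box (choice), for general `x` of trace zero
scale into the box (`rd_rules` 7; `x = 0`: constant curves give `D 0 = 0`). Uniqueness `rd_rules` 1 gives homogeneity.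
Additivity: along `c(t) = g ex (t x) ex (t y)` (velocity `g (x + y)` at `0`):
`F (g ex(tx) ex(ty)) - F g = [F (g ex(tx) ex(ty)) - F (g ex(tx))] + [F (g ex(tx)) - F g]`; the first is
`t (D y) (g ex(tx) ex(sy))` by the mean value theorem; continuity of `D y`. `G x := D (x - (tr x / n) 1)`. -/
theorem rd_lin {n : ℕ} (F : Fn n)
    (h : ∀ x : Mt n, T1 x → ∃ F' : Fn n, RD x F F' ∧ Continuous F') :
    ∃ G : Mt n →ₗ[ℝ] Fn n, (∀ x : Mt n, x.trace = 0 → RD x F (G x)) ∧ G 1 = 0 ∧
      ∀ x, Continuous (G x) := by
  classical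
  obtain ⟨hR1, hR2, -, -, -, -, hR7, -, -⟩ := rd_rules (n := n)
  obtain ⟨-, -, hE3, hE4, -, hE6⟩ := ex_facts (n := n)
  rcases Nat.eq_zero_or_pos n with hn | hn
  · subst hn
    refine ⟨0, fun x _ c _ => ?_, rfl, fun x => continuous_const⟩
    have h1 : (fun s => F (c s)) = fun _ => F (c 0) := funext fun s => by
      congr 1
      exact Subtype.ext (Matrix.ext fun i => i.elim0)
    rw [h1]
    exact hasDerivAt_const _ _
  have hD : ∀ x : Mt n, x.trace = 0 → ∃ F' : Fn n, RD x F F' ∧ Continuous F' := by
    intro x hx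
    set N : ℝ := 1 + ∑ a, ∑ b, |x a b| with hN
    have hs : 0 ≤ ∑ a, ∑ b, |x a b| :=
      Finset.sum_nonneg fun a _ => Finset.sum_nonneg fun b _ => abs_nonneg _
    have hN0 : 0 < N := by linarith
    obtain ⟨F', h1, h2⟩ := h (N⁻¹ • x) ⟨by rw [Matrix.trace_smul, hx, smul_zero], fun a b => by
      rw [Matrix.smul_apply, smul_eq_mul, abs_mul, abs_of_pos (inv_pos.2 hN0),
        inv_mul_le_iff₀ hN0, mul_one]
      have e1 : |x a b| ≤ ∑ b, |x a b| :=
        Finset.single_le_sum (f := fun b => |x a b|) (fun b _ => abs_nonneg _) (Finset.mem_univ b)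
      have e2 : ∑ b, |x a b| ≤ ∑ a, ∑ b, |x a b| :=
        Finset.single_le_sum (f := fun a => ∑ b, |x a b|)
          (fun a _ => Finset.sum_nonneg fun b _ => abs_nonneg _) (Finset.mem_univ a)
      linarith⟩
    have h3 := hR7 (N⁻¹ • x) F F' N hN0.ne' h1
    rw [smul_inv_smul₀ hN0.ne'] at h3
    exact ⟨_, h3, continuous_const.mul h2⟩
  choose! D hD1 hD2 using hD
  have htr0 : (0 : Mt n).trace = 0 := Matrix.trace_zero _ _
  have hD0 : D 0 = 0 := by
    funext g
    have h1 := hD1 0 htr0 (fun _ => g) (fun a b => by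
      have h2 : (g.1 * (0 : Mt n)) a b = 0 := by rw [Matrix.mul_zero]; rfl
      rw [h2]
      exact hasDerivAt_const _ _)
    exact h1.unique (hasDerivAt_const _ _)
  have hsmul : ∀ (r : ℝ) (x : Mt n), x.trace = 0 → D (r • x) = r • D x := by
    intro r x hx
    by_cases hr : r = 0
    · rw [hr, zero_smul, zero_smul, hD0]
    · have ht : (r • x).trace = 0 := by rw [Matrix.trace_smul, hx, smul_zero]
      have h1 := hR1 (r • x) F _ _ ht (hD1 _ ht) (hR7 x F (D x) r hr (hD1 x hx))
      rw [h1]
      rfl
  have hadd : ∀ x y : Mt n, x.trace = 0 → y.trace = 0 → D (x + y) = D x + D y := by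
    intro x y hx hy
    funext g
    have ht : (x + y).trace = 0 := by rw [Matrix.trace_add, hx, hy, add_zero]
    -- the curve
    have hc0 : g * ex ((0 : ℝ) • x) * ex ((0 : ℝ) • y) = g := by
      rw [zero_smul, zero_smul, hE4, mul_one, mul_one]
    have hA : ∀ a k, HasDerivAt (fun t : ℝ => (g * ex (t • x)).1 a k) ((g.1 * x) a k) 0 := by
      intro a k
      have h1 := hE3 x hx g 0 a k
      rw [zero_smul, hE4, mul_one] at h1
      exact h1
    have hB : ∀ k b, HasDerivAt (fun t : ℝ => (ex (t • y)).1 k b) (y k b) 0 := by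
      intro k b
      have h1 := hE3 y hy 1 0 k b
      rw [zero_smul, hE4, mul_one] at h1
      simp only [one_mul] at h1
      have h2 : ((1 : SL n).1 * y) k b = y k b := by
        rw [show (1 : SL n).1 = (1 : Mt n) from rfl, Matrix.one_mul]
      rwa [h2] at h1
    have hder : HasDerivAt (fun t : ℝ => F (g * ex (t • x) * ex (t • y))) (D (x + y) g) 0 := by
      have h1 := hD1 (x + y) ht (fun t : ℝ => g * ex (t • x) * ex (t • y)) (fun a b => by
        rw [hc0]
        have h2 : ∀ t : ℝ, (g * ex (t • x) * ex (t • y)).1 a b =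
            ∑ k, (g * ex (t • x)).1 a k * (ex (t • y)).1 k b := fun t => Matrix.mul_apply
        simp only [h2]
        have h3 : (g.1 * (x + y)) a b = ∑ k, ((g.1 * x) a k * (1 : Mt n) k b + g.1 a k * y k b) := by
          rw [Matrix.mul_add, Matrix.add_apply, Finset.sum_add_distrib]
          congr 1
          · rw [← Matrix.mul_apply, Matrix.mul_one]
        rw [h3]
        refine HasDerivAt.fun_sum fun k _ => ?_
        have h4 := (hA a k).mul (hB k b)
        simp only [zero_smul, hE4, mul_one] at h4
        exact h4)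
      have h5 : D (x + y) (g * ex ((0 : ℝ) • x) * ex ((0 : ℝ) • y)) = D (x + y) g := by rw [hc0]
      rw [← h5]
      exact h1
    have hx' : HasDerivAt (fun t : ℝ => F (g * ex (t • x))) (D x g) 0 := by
      have h1 := hR2 x F (D x) hx (hD1 x hx) g 0
      rw [zero_smul, hE4, mul_one] at h1
      exact h1
    have hψ : Continuous fun t : ℝ => ∫ u in (0 : ℝ)..1, D y (g * ex (t • x) * ex ((u * t) • y)) := by
      refine intervalIntegral.continuous_parametric_intervalIntegral_of_continuous' ?_ 0 1
      have h1 := hE6 x hx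
      have h2 := hE6 y hy
      have h3 : Continuous fun p : ℝ × ℝ => g * ex (p.1 • x) * ex ((p.2 * p.1) • y) :=
        (continuous_const.mul (h1.comp continuous_fst)).mul
          (h2.comp (continuous_snd.mul continuous_fst))
      exact (hD2 y hy).comp h3
    have hφ : HasDerivAt (fun t : ℝ => F (g * ex (t • x) * ex (t • y)) - F (g * ex (t • x)))
        (D y g) 0 := by
      have h0 := CA3_slope (fun t : ℝ => F (g * ex (t • x) * ex (t • y)) - F (g * ex (t • x))) _ hψ
        (fun t => by
          have h1 : ∀ u ∈ Set.uIcc (0 : ℝ) 1, HasDerivAt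
              (fun u : ℝ => F (g * ex (t • x) * ex ((u * t) • y)))
              (t * D y (g * ex (t • x) * ex ((u * t) • y))) u := by
            intro u _
            have h2 := hR2 y F (D y) hy (hD1 y hy) (g * ex (t • x)) (u * t)
            have h3 : HasDerivAt (fun u : ℝ => u * t) t u := by
              simpa using (hasDerivAt_id u).mul_const t
            have h4 := h2.scomp u h3
            rw [smul_eq_mul] at h4
            exact h4
          have h5 : IntervalIntegrable (fun u : ℝ => t * D y (g * ex (t • x) * ex ((u * t) • y)))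
              volume 0 1 := by
            refine Continuous.intervalIntegrable ?_ _ _
            refine continuous_const.mul ((hD2 y hy).comp (continuous_const.mul ?_))
            exact (hE6 y hy).comp (continuous_id.mul continuous_const)
          have h6 := intervalIntegral.integral_eq_sub_of_hasDerivAt h1 h5
          rw [intervalIntegral.integral_const_mul] at h6
          rw [h6, one_mul, zero_mul, zero_smul, hE4, mul_one])
      simp only [zero_smul, mul_zero, hE4, mul_one, intervalIntegral.integral_const, sub_zero,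
        one_smul] at h0
      exact h0
    have hsum := hφ.add hx'
    have h7 : (fun t : ℝ => F (g * ex (t • x) * ex (t • y)) - F (g * ex (t • x)) +
        F (g * ex (t • x))) = fun t : ℝ => F (g * ex (t • x) * ex (t • y)) :=
      funext fun t => sub_add_cancel _ _
    have h8 : HasDerivAt (fun t : ℝ => F (g * ex (t • x) * ex (t • y))) (D y g + D x g) 0 := by
      rw [← h7]
      exact hsum
    rw [hder.unique h8, Pi.add_apply, add_comm]
  -- projection to trace zero
  have hnn : (n : ℝ) ≠ 0 := by exact_mod_cast hn.ne'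
  have hpt : ∀ x : Mt n, (x - (x.trace / n) • (1 : Mt n)).trace = 0 := by
    intro x
    rw [Matrix.trace_sub, Matrix.trace_smul, Matrix.trace_one, Fintype.card_fin, smul_eq_mul,
      div_mul_cancel₀ _ hnn, sub_self]
  refine ⟨{ toFun := fun x => D (x - (x.trace / n) • (1 : Mt n))
            map_add' := fun x y => ?_
            map_smul' := fun r x => ?_ }, fun x hx => ?_, ?_, fun x => hD2 _ (hpt x)⟩
  · rw [← hadd _ _ (hpt x) (hpt y)]
    congr 1
    rw [Matrix.trace_add, add_div, add_smul]
    abel
  · rw [RingHom.id_apply, ← hsmul _ _ (hpt x)]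
    congr 1
    rw [Matrix.trace_smul, smul_sub, smul_smul, smul_eq_mul, mul_div_assoc]
  · show RD x F (D (x - (x.trace / n) • (1 : Mt n)))
    rw [hx, zero_div, zero_smul, sub_zero]
    exact hD1 x hx
  · show D ((1 : Mt n) - ((1 : Mt n).trace / n) • (1 : Mt n)) = 0
    rw [Matrix.trace_one, Fintype.card_fin, div_self hnn, one_smul, sub_self, hD0]

end FL27
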