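import Pool.Agent.LibFL27.CDefs
import Pool.Agent.LibFL27.CA1

set_option autoImplicit false
set_option maxSynthPendingDepth 3

open Matrix MeasureTheory Topology Filter LibNC38
open LibNC27 hiding Mt
open scoped Matrix.Norms.Elementwise ContDiff

namespace FL27

private theorem CA5_mono {n : ℕ} (θ : ℝ) : ∀ (k j : ℕ) (M : ℝ) (F : Fn n), j ≤ k →
    WB θ k M F → WB θ j M F := by
  intro k
  induction k with
  | zero =>
    intro j M F hj h
    obtain rfl : j = 0 := by omega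
    exact h
  | succ k ih =>
    intro j M F hj h
    cases j with
    | zero => exact h.1
    | succ j =>
      refine ⟨h.1, fun x hx => ?_⟩
      obtain ⟨F', h1, h2⟩ := h.2 x hx
      exact ⟨F', h1, ih j _ _ (by omega) h2⟩

private theorem CA5_le {n : ℕ} (θ θ' : ℝ) (hθ : 0 ≤ θ) (hθ' : θ ≤ θ') : ∀ (k : ℕ) (M M' : ℝ)
    (F : Fn n), M ≤ M' → 0 ≤ M → WB θ k M F → WB θ' k M' F := by
  intro k
  induction k with
  | zero =>
    intro M M' F hM hM0 h
    exact ⟨h.1, fun g => (h.2 g).trans hM⟩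
  | succ k ih =>
    intro M M' F hM hM0 h
    refine ⟨⟨h.1.1, fun g => (h.1.2 g).trans hM⟩, fun x hx => ?_⟩
    obtain ⟨F', h1, h2⟩ := h.2 x hx
    exact ⟨F', h1, ih _ _ _ (mul_le_mul hM hθ' hθ (hM0.trans hM)) (mul_nonneg hM0 hθ) h2⟩

private theorem CA5_zero {n : ℕ} (θ : ℝ) (hθ : 0 ≤ θ) : ∀ (k : ℕ) (M : ℝ), 0 ≤ M →
    WB θ k M (fun _ : SL n => (0 : ℝ)) := by
  intro k
  induction k with
  | zero =>
    intro M hM
    exact ⟨continuous_const, fun g => by rw [abs_zero]; exact hM⟩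
  | succ k ih =>
    intro M hM
    refine ⟨⟨continuous_const, fun g => by rw [abs_zero]; exact hM⟩, fun x _ => ?_⟩
    exact ⟨fun _ => 0, (rd_rules (n := n)).2.2.2.2.2.1 x 0, ih _ (mul_nonneg hM hθ)⟩

private theorem CA5_const {n : ℕ} (θ : ℝ) (hθ : 0 ≤ θ) (k : ℕ) (r : ℝ) :
    WB θ k |r| (fun _ : SL n => r) := by
  cases k with
  | zero => exact ⟨continuous_const, fun g => le_rfl⟩
  | succ k =>
    refine ⟨⟨continuous_const, fun g => le_rfl⟩, fun x _ => ?_⟩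
    exact ⟨fun _ => 0, (rd_rules (n := n)).2.2.2.2.2.1 x r,
      CA5_zero θ hθ k _ (mul_nonneg (abs_nonneg r) hθ)⟩

private theorem CA5_add {n : ℕ} (θ : ℝ) : ∀ (k : ℕ) (M N : ℝ) (F G : Fn n), WB θ k M F →
    WB θ k N G → WB θ k (M + N) (fun g => F g + G g) := by
  intro k
  induction k with
  | zero =>
    intro M N F G hF hG
    exact ⟨hF.1.add hG.1, fun g => (abs_add_le _ _).trans (add_le_add (hF.2 g) (hG.2 g))⟩
  | succ k ih =>
    intro M N F G hF hG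
    refine ⟨⟨hF.1.1.add hG.1.1,
      fun g => (abs_add_le _ _).trans (add_le_add (hF.1.2 g) (hG.1.2 g))⟩, fun x hx => ?_⟩
    obtain ⟨F', h1, h2⟩ := hF.2 x hx
    obtain ⟨G', h3, h4⟩ := hG.2 x hx
    refine ⟨fun g => F' g + G' g, (rd_rules (n := n)).2.2.1 x F F' G G' h1 h3, ?_⟩
    rw [add_mul]
    exact ih _ _ _ _ h2 h4

private theorem CA5_smul {n : ℕ} (θ r : ℝ) : ∀ (k : ℕ) (M : ℝ) (F : Fn n), WB θ k M F →
    WB θ k (|r| * M) (fun g => r * F g) := by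
  intro k
  induction k with
  | zero =>
    intro M F hF
    refine ⟨continuous_const.mul hF.1, fun g => ?_⟩
    rw [abs_mul]
    exact mul_le_mul_of_nonneg_left (hF.2 g) (abs_nonneg r)
  | succ k ih =>
    intro M F hF
    refine ⟨⟨continuous_const.mul hF.1.1, fun g => ?_⟩, fun x hx => ?_⟩
    · rw [abs_mul]
      exact mul_le_mul_of_nonneg_left (hF.1.2 g) (abs_nonneg r)
    · obtain ⟨F', h1, h2⟩ := hF.2 x hx
      refine ⟨fun g => r * F' g, (rd_rules (n := n)).2.2.2.2.1 x F F' r h1, ?_⟩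
      rw [mul_assoc]
      exact ih _ _ h2

private theorem CA5_mul {n : ℕ} (θ : ℝ) (hθ : 0 ≤ θ) : ∀ (k : ℕ) (M N : ℝ) (F G : Fn n),
    0 ≤ M → 0 ≤ N → WB θ k M F → WB θ k N G → WB θ k (2 ^ k * (M * N)) (fun g => F g * G g) := by
  intro k
  induction k with
  | zero =>
    intro M N F G hM hN hF hG
    refine ⟨hF.1.mul hG.1, fun g => ?_⟩
    rw [abs_mul, pow_zero, one_mul]
    exact mul_le_mul (hF.2 g) (hG.2 g) (abs_nonneg _) hM
  | succ k ih =>
    intro M N F G hM hN hF hG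
    refine ⟨⟨hF.1.1.mul hG.1.1, fun g => ?_⟩, fun x hx => ?_⟩
    · rw [abs_mul]
      have h1 : |F g| * |G g| ≤ M * N := mul_le_mul (hF.1.2 g) (hG.1.2 g) (abs_nonneg _) hM
      have h2 : M * N ≤ 2 ^ (k + 1) * (M * N) :=
        le_mul_of_one_le_left (mul_nonneg hM hN) (one_le_pow₀ one_le_two)
      exact h1.trans h2
    · obtain ⟨F', h1, h2⟩ := hF.2 x hx
      obtain ⟨G', h3, h4⟩ := hG.2 x hx
      refine ⟨fun g => F' g * G g + F g * G' g, (rd_rules (n := n)).2.2.2.1 x F F' G G' h1 h3, ?_⟩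
      have hF0 : WB θ k M F := CA5_mono θ (k + 1) k M F (by omega) hF
      have hG0 : WB θ k N G := CA5_mono θ (k + 1) k N G (by omega) hG
      have e1 := ih (M * θ) N F' G (mul_nonneg hM hθ) hN h2 hG0
      have e2 := ih M (N * θ) F G' hM (mul_nonneg hN hθ) hF0 h4
      have e3 := CA5_add θ k _ _ _ _ e1 e2
      have e4 : 2 ^ k * (M * θ * N) + 2 ^ k * (M * (N * θ)) = 2 ^ (k + 1) * (M * N) * θ := by ring
      rw [e4] at e3
      exact e3

private theorem CA5_sum {n : ℕ} (θ : ℝ) (hθ : 0 ≤ θ) (k : ℕ) (M : ℝ) (ι : Type) (s : Finset ι)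
    (F : ι → Fn n) : (∀ i ∈ s, WB θ k M (F i)) → WB θ k (s.card * M) (fun g => ∑ i ∈ s, F i g) := by
  classical
  induction s using Finset.induction_on with
  | empty =>
    intro _
    simp only [Finset.card_empty, Nat.cast_zero, zero_mul, Finset.sum_empty]
    exact CA5_zero θ hθ k 0 le_rfl
  | insert a s ha ih =>
    intro h
    have h1 := ih fun i hi => h i (Finset.mem_insert_of_mem hi)
    have h2 := h a (Finset.mem_insert_self a s)
    have h3 := CA5_add θ k _ _ _ _ h2 h1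
    have e1 : (fun g => ∑ i ∈ insert a s, F i g) = fun g => F a g + ∑ i ∈ s, F i g := by
      funext g
      rw [Finset.sum_insert ha]
    have e2 : ((insert a s).card : ℝ) * M = M + s.card * M := by
      rw [Finset.card_insert_of_notMem ha]
      push_cast
      ring
    rw [e1, e2]
    exact h3

private theorem CA5_left {n : ℕ} (θ : ℝ) (γ : SL n) : ∀ (k : ℕ) (M : ℝ) (F : Fn n), WB θ k M F →
    WB θ k M (fun g => F (γ * g)) := by
  intro k
  induction k with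
  | zero =>
    intro M F hF
    exact ⟨hF.1.comp (continuous_const.mul continuous_id), fun g => hF.2 _⟩
  | succ k ih =>
    intro M F hF
    refine ⟨⟨hF.1.1.comp (continuous_const.mul continuous_id), fun g => hF.1.2 _⟩, fun x hx => ?_⟩
    obtain ⟨F', h1, h2⟩ := hF.2 x hx
    exact ⟨fun g => F' (γ * g), (rd_rules (n := n)).2.2.2.2.2.2.2.1 x F F' γ h1, ih _ _ h2⟩

/-- Row CA5. Algebra of scaled bounds. PLAN. Inductions over `k` from `rd_rules`. Product: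
`R_x(FG) = F'G + FG'`, both terms in `WB θ k (2^k M N θ)` (`WB θ (k+1) ⊆ WB θ k`). -/
theorem wb_alg {n : ℕ} :
    (∀ (θ : ℝ) (k j : ℕ) (M : ℝ) (F : Fn n), j ≤ k → WB θ k M F → WB θ j M F) ∧
    (∀ (θ θ' : ℝ) (k : ℕ) (M M' : ℝ) (F : Fn n), 0 ≤ θ → θ ≤ θ' → M ≤ M' → 0 ≤ M → WB θ k M F →
      WB θ' k M' F) ∧
    (∀ (θ : ℝ) (k : ℕ) (r : ℝ), 0 ≤ θ → WB θ k |r| (fun _ : SL n => r)) ∧
    (∀ (θ : ℝ) (k : ℕ) (M N : ℝ) (F G : Fn n), WB θ k M F → WB θ k N G →
      WB θ k (M + N) (fun g => F g + G g)) ∧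
    (∀ (θ : ℝ) (k : ℕ) (M r : ℝ) (F : Fn n), WB θ k M F → WB θ k (|r| * M) (fun g => r * F g)) ∧
    (∀ (θ : ℝ) (k : ℕ) (M N : ℝ) (F G : Fn n), 0 ≤ θ → 0 ≤ M → 0 ≤ N → WB θ k M F → WB θ k N G →
      WB θ k (2 ^ k * (M * N)) (fun g => F g * G g)) ∧
    (∀ (θ : ℝ) (k : ℕ) (M : ℝ) (ι : Type) (s : Finset ι) (F : ι → Fn n), 0 ≤ θ →
      (∀ i ∈ s, WB θ k M (F i)) → WB θ k (s.card * M) (fun g => ∑ i ∈ s, F i g)) ∧
    (∀ (θ : ℝ) (k : ℕ) (M : ℝ) (F : Fn n) (γ : SL n), WB θ k M F →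
      WB θ k M (fun g => F (γ * g))) :=
  ⟨fun θ k j M F hj h => CA5_mono θ k j M F hj h,
    fun θ θ' k M M' F hθ hθ' hM hM0 h => CA5_le θ θ' hθ hθ' k M M' F hM hM0 h,
    fun θ k r hθ => CA5_const θ hθ k r,
    fun θ k M N F G hF hG => CA5_add θ k M N F G hF hG,
    fun θ k M r F hF => CA5_smul θ r k M F hF,
    fun θ k M N F G hθ hM hN hF hG => CA5_mul θ hθ k M N F G hM hN hF hG,
    fun θ k M ι s F hθ h => CA5_sum θ hθ k M ι s F h,
    fun θ k M F γ hF => CA5_left θ γ k M F hF⟩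

end FL27
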