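import Pool.Agent.LibFL27.CDefs
import Pool.Agent.LibFL27.CA3
import Pool.Agent.LibFL27.CA5
import Pool.Agent.LibFL27.CA1

set_option autoImplicit false
set_option maxSynthPendingDepth 3

open Matrix MeasureTheory Topology Filter LibNC38
open LibNC27 hiding Mt
open scoped Matrix.Norms.Elementwise ContDiff

namespace FL27

private theorem CA4_cont {n : ℕ} (θ : ℝ) (k : ℕ) (M : ℝ) (F : Fn n) (hF : WB θ k M F) :
    Continuous F := by
  cases k with
  | zero => exact hF.1
  | succ k => exact hF.1.1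

/-- the traceless part of a matrix of the box is twice a matrix of the box -/
private theorem CA4_half {n : ℕ} (v : Mt n) (hv : Bx v) :
    T1 ((1 / 2 : ℝ) • (v - (v.trace / n) • (1 : Mt n))) := by
  rcases Nat.eq_zero_or_pos n with h0 | hn
  · subst h0
    exact ⟨by simp [Matrix.trace], fun a => a.elim0⟩
  have hn' : (0 : ℝ) < n := by exact_mod_cast hn
  have htr : |v.trace / n| ≤ 1 := by
    rw [abs_div, abs_of_pos hn', div_le_one hn']
    rw [Matrix.trace]
    calc |∑ i, Matrix.diag v i| ≤ ∑ i, |Matrix.diag v i| := Finset.abs_sum_le_sum_abs _ _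
      _ ≤ ∑ _i : Fin n, (1 : ℝ) := Finset.sum_le_sum fun i _ => hv i i
      _ = n := by simp
  refine ⟨?_, fun a b => ?_⟩
  · rw [Matrix.trace_smul, Matrix.trace_sub, Matrix.trace_smul, Matrix.trace_one,
      Fintype.card_fin, smul_eq_mul, smul_eq_mul, div_mul_cancel₀ _ (ne_of_gt hn'), sub_self,
      mul_zero]
  · rw [Matrix.smul_apply, Matrix.sub_apply, Matrix.smul_apply, smul_eq_mul, smul_eq_mul, abs_mul]
    have h1 : |v a b - v.trace / n * (1 : Mt n) a b| ≤ 2 := by
      have h2 : |v.trace / n * (1 : Mt n) a b| ≤ 1 := by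
        rw [abs_mul]
        have h3 : |(1 : Mt n) a b| ≤ 1 := by
          rw [Matrix.one_apply]
          split_ifs <;> norm_num
        calc |v.trace / n| * |(1 : Mt n) a b| ≤ 1 * 1 :=
              mul_le_mul htr h3 (abs_nonneg _) zero_le_one
          _ = 1 := one_mul 1
      calc |v a b - v.trace / n * (1 : Mt n) a b| ≤ |v a b| + |v.trace / n * (1 : Mt n) a b| :=
            abs_sub _ _
        _ ≤ 1 + 1 := add_le_add (hv a b) h2
        _ = 2 := by norm_num
    have h4 : |(1 / 2 : ℝ)| = 1 / 2 := by norm_num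
    rw [h4]
    linarith

/-- Row CA4. `WB` in linear form, and the same for `SG`. PLAN. `rd_lin`; the functions `F'` of the definition
are the `G x` by uniqueness (`rd_rules` 1). For a matrix unit (or any `v` with entries in `[-1,1]`, `n ≥ 1`)
`G v = G (v - (tr v / n) 1)`, whose entries are `≤ 2`: `WB` with `2 M θ` (`G (r x) = r G x`, scaling of `WB`: prove
`WB θ k M F → WB θ k (|r| M) (r F)` by induction). -/
theorem wb_lin {n : ℕ} (θ : ℝ) (k : ℕ) (M : ℝ) (F : Fn n) (hF : WB θ (k + 1) M F) :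
    ∃ G : Mt n →ₗ[ℝ] Fn n, (∀ x : Mt n, x.trace = 0 → RD x F (G x)) ∧
      (∀ x : Mt n, T1 x → WB θ k (M * θ) (G x)) ∧ (∀ v : Mt n, Bx v → WB θ k (2 * (M * θ)) (G v)) ∧
      G 1 = 0 := by
  obtain ⟨G, hG, hG1, _⟩ := rd_lin F (fun x hx => by
    obtain ⟨F', h1, h2⟩ := hF.2 x hx
    exact ⟨F', h1, CA4_cont _ _ _ _ h2⟩)
  have hT : ∀ x : Mt n, T1 x → WB θ k (M * θ) (G x) := by
    intro x hx
    obtain ⟨F', h1, h2⟩ := hF.2 x hx
    have h3 : G x = F' := rd_rules.1 x F (G x) F' hx.1 (hG x hx.1) h1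
    rw [h3]
    exact h2
  refine ⟨G, hG, hT, ?_, hG1⟩
  intro v hv
  have h1 := hT _ (CA4_half v hv)
  have h2 := wb_alg.2.2.2.2.1 θ k (M * θ) 2 _ h1
  have h3 : (fun g => 2 * G ((1 / 2 : ℝ) • (v - (v.trace / n) • (1 : Mt n))) g) = G v := by
    funext g
    rw [map_smul, map_sub, map_smul, hG1, smul_zero, sub_zero, Pi.smul_apply, smul_eq_mul]
    ring
  rw [h3, abs_two] at h2
  exact h2

end FL27
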