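import Pool.Agent.LibFL27.CDefs
import Pool.Agent.LibFL27.CA1

set_option autoImplicit false
set_option maxSynthPendingDepth 3

open Matrix MeasureTheory Topology Filter LibNC38
open LibNC27 hiding Mt
open scoped Matrix.Norms.Elementwise ContDiff

namespace FL27

private theorem CA5b_mono {n : ℕ} : ∀ (k j : ℕ) (F : Fn n), j ≤ k → SG k F → SG j F := by
  intro k
  induction k with
  | zero =>
    intro j F hj h
    have h0 : j = 0 := by omega
    subst h0
    exact h
  | succ k ih =>
    intro j F hj h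
    cases j with
    | zero => exact h.1
    | succ j =>
      refine ⟨h.1, fun x hx => ?_⟩
      obtain ⟨F', h1, h2⟩ := h.2 x hx
      exact ⟨F', h1, ih j F' (by omega) h2⟩

private theorem CA5b_const {n : ℕ} : ∀ (k : ℕ) (r : ℝ), SG k (fun _ : SL n => r) := by
  intro k
  induction k with
  | zero => exact fun r => continuous_const
  | succ k ih =>
    intro r
    refine ⟨continuous_const, fun x hx => ⟨fun _ => 0, ?_, ih 0⟩⟩
    obtain ⟨_, _, _, _, _, h, _⟩ := rd_rules (n := n)
    exact h x r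

private theorem CA5b_add {n : ℕ} : ∀ (k : ℕ) (F G : Fn n), SG k F → SG k G →
    SG k (fun g => F g + G g) := by
  intro k
  induction k with
  | zero => exact fun F G hF hG => Continuous.add hF hG
  | succ k ih =>
    intro F G hF hG
    refine ⟨hF.1.add hG.1, fun x hx => ?_⟩
    obtain ⟨F', h1, h2⟩ := hF.2 x hx
    obtain ⟨G', h3, h4⟩ := hG.2 x hx
    obtain ⟨_, _, h, _⟩ := rd_rules (n := n)
    exact ⟨fun g => F' g + G' g, h x F F' G G' h1 h3, ih F' G' h2 h4⟩

private theorem CA5b_mul {n : ℕ} : ∀ (k : ℕ) (F G : Fn n), SG k F → SG k G →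
    SG k (fun g => F g * G g) := by
  intro k
  induction k with
  | zero => exact fun F G hF hG => Continuous.mul hF hG
  | succ k ih =>
    intro F G hF hG
    refine ⟨hF.1.mul hG.1, fun x hx => ?_⟩
    obtain ⟨F', h1, h2⟩ := hF.2 x hx
    obtain ⟨G', h3, h4⟩ := hG.2 x hx
    obtain ⟨_, _, _, h, _⟩ := rd_rules (n := n)
    refine ⟨fun g => F' g * G g + F g * G' g, h x F F' G G' h1 h3, ?_⟩
    exact CA5b_add k (fun g => F' g * G g) (fun g => F g * G' g)
      (ih F' G h2 (CA5b_mono (k + 1) k G (Nat.le_succ k) hG))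
      (ih F G' (CA5b_mono (k + 1) k F (Nat.le_succ k) hF) h4)

private theorem CA5b_sum {n : ℕ} : ∀ (k : ℕ) (ι : Type) (s : Finset ι) (F : ι → Fn n),
    (∀ i ∈ s, SG k (F i)) → SG k (fun g => ∑ i ∈ s, F i g) := by
  classical
  intro k ι s F
  induction s using Finset.induction_on with
  | empty =>
    intro _
    have h := CA5b_const (n := n) k 0
    simpa using h
  | insert a s ha ih =>
    intro h
    have h1 : (fun g => ∑ i ∈ insert a s, F i g) = fun g => F a g + ∑ i ∈ s, F i g := by
      funext g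
      exact Finset.sum_insert ha
    rw [h1]
    exact CA5b_add k _ _ (h a (Finset.mem_insert_self a s))
      (ih fun i hi => h i (Finset.mem_insert_of_mem hi))

private theorem CA5b_wb {n : ℕ} (θ : ℝ) : ∀ (k : ℕ) (M : ℝ) (F : Fn n), WB θ k M F → SG k F := by
  intro k
  induction k with
  | zero => exact fun M F h => h.1
  | succ k ih =>
    intro M F h
    refine ⟨h.1.1, fun x hx => ?_⟩
    obtain ⟨r, hr⟩ : ∃ r : ℝ, r = 1 + ∑ a, ∑ b, |x a b| := ⟨_, rfl⟩
    have hr0 : 0 < r := by
      rw [hr]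
      have : 0 ≤ ∑ a, ∑ b, |x a b| :=
        Finset.sum_nonneg fun a _ => Finset.sum_nonneg fun b _ => abs_nonneg _
      linarith
    have hT : T1 ((1 / r) • x) := by
      refine ⟨?_, fun a b => ?_⟩
      · rw [Matrix.trace_smul, hx, smul_zero]
      · rw [Matrix.smul_apply, smul_eq_mul, abs_mul, abs_of_pos (by positivity : 0 < 1 / r)]
        have h1 : |x a b| ≤ ∑ b, |x a b| :=
          Finset.single_le_sum (f := fun b => |x a b|) (fun b _ => abs_nonneg _)
            (Finset.mem_univ b)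
        have h2 : ∑ b, |x a b| ≤ ∑ a, ∑ b, |x a b| :=
          Finset.single_le_sum (f := fun a => ∑ b, |x a b|)
            (fun a _ => Finset.sum_nonneg fun b _ => abs_nonneg _) (Finset.mem_univ a)
        rw [div_mul_eq_mul_div, one_mul, div_le_one hr0]
        linarith
    obtain ⟨F', h1, h2⟩ := h.2 _ hT
    obtain ⟨_, _, _, _, _, _, h3, _⟩ := rd_rules (n := n)
    have h4 := h3 _ F F' r hr0.ne' h1
    have h5 : r • ((1 / r) • x) = x := by
      rw [smul_smul, mul_one_div_cancel hr0.ne', one_smul]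
    rw [h5] at h4
    exact ⟨fun g => r * F' g, h4,
      CA5b_mul k (fun _ => r) F' (CA5b_const k r) (ih _ F' h2)⟩

private theorem CA5b_entry {n : ℕ} : ∀ (k : ℕ) (a b : Fin n), SG k (fun g : SL n => g.1 a b) := by
  intro k
  have hc : ∀ a b : Fin n, Continuous fun g : SL n => g.1 a b := fun a b =>
    (continuous_apply_apply a b).comp continuous_subtype_val
  induction k with
  | zero => exact fun a b => hc a b
  | succ k ih =>
    intro a b
    refine ⟨hc a b, fun x hx => ⟨fun g => (g.1 * x) a b, fun c h => h a b, ?_⟩⟩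
    have h1 : (fun g : SL n => (g.1 * x) a b) = fun g => ∑ j ∈ Finset.univ, g.1 a j * x j b := by
      funext g
      rw [Matrix.mul_apply]
    rw [h1]
    exact CA5b_sum k (Fin n) Finset.univ (fun j g => g.1 a j * x j b) fun j _ =>
      CA5b_mul k (fun g => g.1 a j) (fun _ => x j b) (ih a j) (CA5b_const k _)

/-- Row CA5b. Algebra of `SG`. PLAN. Inductions over `k` from `rd_rules`; `WB → SG` by scaling into the box
(`x = 0`: take `F' = 0`, which is the derivative of the box at `x = 0` by constant curves). -/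
theorem sg_alg {n : ℕ} :
    (∀ (k j : ℕ) (F : Fn n), j ≤ k → SG k F → SG j F) ∧
    (∀ (k : ℕ) (r : ℝ), SG k (fun _ : SL n => r)) ∧
    (∀ (k : ℕ) (F G : Fn n), SG k F → SG k G → SG k (fun g => F g + G g)) ∧
    (∀ (k : ℕ) (F G : Fn n), SG k F → SG k G → SG k (fun g => F g * G g)) ∧
    (∀ (k : ℕ) (ι : Type) (s : Finset ι) (F : ι → Fn n), (∀ i ∈ s, SG k (F i)) →
      SG k (fun g => ∑ i ∈ s, F i g)) ∧
    (∀ (θ : ℝ) (k : ℕ) (M : ℝ) (F : Fn n), WB θ k M F → SG k F) ∧
    (∀ (k : ℕ) (a b : Fin n), SG k (fun g : SL n => g.1 a b)) :=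
  ⟨CA5b_mono, CA5b_const, CA5b_add, CA5b_mul, CA5b_sum, CA5b_wb, CA5b_entry⟩

end FL27
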