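import Pool.Agent.LibFL27.CDefs
import Pool.Agent.LibFL27.CA3
import Pool.Agent.LibFL27.CA5b

set_option autoImplicit false
set_option maxSynthPendingDepth 3

open Matrix MeasureTheory Topology Filter LibNC38
open LibNC27 hiding Mt
open scoped Matrix.Norms.Elementwise ContDiff

namespace FL27

private theorem CA4b_cont {n : ℕ} (k : ℕ) (F : Fn n) (hF : SG k F) : Continuous F := by
  cases k with
  | zero => exact hF
  | succ k => exact hF.1

/-- Row CA4b. The same for `SG` (plan as in CA4). -/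
theorem sg_lin {n : ℕ} (k : ℕ) (F : Fn n) (hF : SG (k + 1) F) :
    ∃ G : Mt n →ₗ[ℝ] Fn n, (∀ x : Mt n, x.trace = 0 → RD x F (G x)) ∧ (∀ v : Mt n, SG k (G v)) ∧
      G 1 = 0 := by
  obtain ⟨G, hG, hG1, _⟩ := rd_lin F (fun x hx => by
    obtain ⟨F', h1, h2⟩ := hF.2 x hx.1
    exact ⟨F', h1, CA4b_cont k F' h2⟩)
  refine ⟨G, hG, ?_, hG1⟩
  intro v
  set v0 : Mt n := v - (v.trace / n) • (1 : Mt n) with hv0
  have htr : v0.trace = 0 := by
    rw [hv0, Matrix.trace_sub, Matrix.trace_smul, Matrix.trace_one, Fintype.card_fin, smul_eq_mul]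
    rcases Nat.eq_zero_or_pos n with h | h
    · subst h
      simp [Matrix.trace]
    · have h1 : (n : ℝ) ≠ 0 := by positivity
      field_simp
      ring
  have hGv : G v = G v0 := by
    rw [hv0, map_sub, map_smul, hG1, smul_zero, sub_zero]
  obtain ⟨F', h1, h2⟩ := hF.2 v0 htr
  have h3 : G v0 = F' := rd_rules.1 v0 F (G v0) F' htr (hG v0 htr) h1
  rw [hGv, h3]
  exact h2

end FL27
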