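import Pool.Agent.LibFL27.CDefs
import Pool.Agent.LibFL27.CA4
import Pool.Agent.LibNT38.TB1

set_option autoImplicit false
set_option maxSynthPendingDepth 3

open Matrix MeasureTheory Topology Filter LibNC38
open LibNC27 hiding Mt
open scoped Matrix.Norms.Elementwise ContDiff

namespace FL27

/-- the local logarithm is Lipschitz at `1` -/
private theorem CA6_log {n : ℕ} : ∃ (ε C : ℝ), 0 < ε ∧ 0 ≤ C ∧ ∀ (A : Mt n) (r : ℝ), 0 ≤ r → r < ε →
    (∀ a b, |A a b - (1 : Mt n) a b| ≤ r) →
      ∃ z : Mt n, NormedSpace.exp z = A ∧ ∀ a b, |z a b| ≤ C * r := by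
  obtain ⟨N, N', L, hN, hN', h0, hL, -, hx, hZ⟩ := log_ex (n := n)
  have h1 : NormedSpace.exp (0 : Mt n) = 1 := NormedSpace.exp_zero
  have h1N : (1 : Mt n) ∈ N := by
    have h := (hZ 0 h0).1
    rwa [h1] at h
  have hL1 : L 1 = 0 := by
    have h := (hZ 0 h0).2
    rwa [h1] at h
  have hd : DifferentiableAt ℝ L 1 :=
    (hL.contDiffAt (hN.mem_nhds h1N)).differentiableAt (by norm_num)
  obtain ⟨c, hc⟩ := hd.isBigO_sub.bound
  have hev : ∀ᶠ A in 𝓝 (1 : Mt n), A ∈ N ∧ ‖L A - L 1‖ ≤ c * ‖A - 1‖ :=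
    (show ∀ᶠ A in 𝓝 (1 : Mt n), A ∈ N from hN.mem_nhds h1N).and hc
  obtain ⟨ε, hε, hball⟩ := Metric.eventually_nhds_iff.1 hev
  refine ⟨ε, |c|, hε, abs_nonneg c, ?_⟩
  intro A r hr hrε hA
  have hnorm : ‖A - 1‖ ≤ r := by
    rw [Matrix.norm_le_iff hr]
    intro a b
    rw [Matrix.sub_apply, Real.norm_eq_abs]
    exact hA a b
  have hdist : dist A 1 < ε := by
    rw [dist_eq_norm]
    exact lt_of_le_of_lt hnorm hrε
  obtain ⟨hAN, hAb⟩ := hball hdist
  refine ⟨L A, (hx A hAN).2, ?_⟩
  intro a b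
  rw [hL1, sub_zero] at hAb
  have h2 : ‖L A a b‖ ≤ ‖L A‖ := Matrix.norm_entry_le_entrywise_sup_norm (L A)
  rw [Real.norm_eq_abs] at h2
  calc |L A a b| ≤ ‖L A‖ := h2
    _ ≤ c * ‖A - 1‖ := hAb
    _ ≤ |c| * ‖A - 1‖ := mul_le_mul_of_nonneg_right (le_abs_self c) (norm_nonneg _)
    _ ≤ |c| * r := mul_le_mul_of_nonneg_left hnorm (abs_nonneg c)

/-- the logarithm has trace zero -/
private theorem CA6_tr {n : ℕ} (q : SL n) (z : Mt n) (hz : NormedSpace.exp z = q.1) :
    z.trace = 0 ∧ ex z = q := by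
  have htr : z.trace = 0 := by
    rcases Nat.eq_zero_or_pos n with hn | hn
    · subst hn
      exact Finset.sum_eq_zero fun i _ => i.elim0
    · have hn' : (n : ℝ) ≠ 0 := by positivity
      set c : ℝ := z.trace / n with hc
      have hz0 : (z - c • (1 : Mt n)).trace = 0 := by
        rw [Matrix.trace_sub, Matrix.trace_smul, Matrix.trace_one, Fintype.card_fin, smul_eq_mul, hc]
        field_simp
        ring
      have hcomm : Commute (z - c • (1 : Mt n)) (c • (1 : Mt n)) :=
        (Commute.one_right _).smul_right c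
      have hexp : NormedSpace.exp z = NormedSpace.exp (z - c • (1 : Mt n)) *
          NormedSpace.exp (c • (1 : Mt n)) := by
        rw [← Matrix.exp_add_of_commute _ _ hcomm, sub_add_cancel]
      have hdiag : NormedSpace.exp (c • (1 : Mt n)) =
          (Matrix.diagonal fun _ => Real.exp c : Mt n) := by
        have h1 : c • (1 : Mt n) = Matrix.diagonal fun _ => c := by
          rw [Matrix.smul_one_eq_diagonal]
        rw [h1, Matrix.exp_diagonal]
        congr 1
        funext i
        rw [Pi.exp_def, Real.exp_eq_exp_ℝ]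
      have hd : (NormedSpace.exp (z - c • (1 : Mt n))).det = 1 := by
        rw [← ex_facts.1 _ hz0]
        exact (ex (z - c • (1 : Mt n))).2
      have hdet : (1 : ℝ) = Real.exp c ^ n := by
        have h2 : q.1.det = 1 := q.2
        rw [← hz, hexp, Matrix.det_mul, hd, hdiag, Matrix.det_diagonal] at h2
        rw [← h2]
        simp
      have hec : Real.exp c = 1 := by
        exact (pow_eq_one_iff_of_nonneg (Real.exp_pos c).le hn.ne').1 hdet.symm
      have hc0 : c = 0 := Real.exp_eq_one_iff c |>.1 hec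
      rw [hc] at hc0
      rcases div_eq_zero_iff.1 hc0 with h | h
      · exact h
      · exact absurd h hn'
  refine ⟨htr, ?_⟩
  apply Subtype.ext
  rw [← hz]
  exact ex_facts.1 z htr

/-- Row CA6. Lipschitz bound. PLAN. `r ≥ r0`: trivial (`2 M`, `1 ≤ θ`). `r < r0`: `q = ex z`, `z` of trace zero
with entries `≤ C r` (logarithm near `1`), `F (g ex z) - F g = ∫_0^1 (G z)(g ex (t z)) dt`, `|G z| ≤ C r M θ`
(`wb_lin`, `rd_rules` 2). -/
theorem wb_lip {n : ℕ} : ∃ C : ℝ, 0 < C ∧ ∀ (θ M : ℝ) (F : Fn n), 1 ≤ θ → 0 ≤ M → WB θ 1 M F →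
    ∀ (g q : SL n) (r : ℝ), 0 ≤ r → (∀ a b, |q.1 a b - (1 : Mt n) a b| ≤ r) →
      |F (g * q) - F g| ≤ C * M * θ * r := by
  obtain ⟨ε, C, hε, hC, hlog⟩ := CA6_log (n := n)
  refine ⟨C + 2 / ε + 1, by positivity, ?_⟩
  intro θ M F hθ hM hF g q r hr hq
  have hθ0 : (0 : ℝ) ≤ θ := by linarith
  have hMθr : 0 ≤ M * θ * r := by positivity
  obtain ⟨⟨hFc, hFb⟩, hFd⟩ := hF
  rcases lt_or_ge r ε with hre | hre
  · obtain ⟨z, hz, hzb⟩ := hlog q.1 r hr hre hq
    obtain ⟨htr, hexz⟩ := CA6_tr q z hz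
    have key : |F (g * q) - F g| ≤ M * θ * (C * r) := by
      rcases (mul_nonneg hC hr).eq_or_lt with h0 | hpos
      · have hz0 : z = 0 := by
          ext a b
          have h := hzb a b
          rw [← h0] at h
          simpa using abs_nonpos_iff.1 h
        have hq1 : q = 1 := by
          rw [← hexz, hz0]
          exact ex_facts.2.2.2.1
        rw [hq1, mul_one, sub_self, abs_zero]
        positivity
      · set ρ : ℝ := C * r with hρ
        set x : Mt n := ρ⁻¹ • z with hxd
        have hxz : ρ • x = z := by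
          rw [hxd, smul_smul, mul_inv_cancel₀ hpos.ne', one_smul]
        have hxt : x.trace = 0 := by
          rw [hxd, Matrix.trace_smul, htr, smul_zero]
        have hT1 : T1 x := by
          refine ⟨hxt, fun a b => ?_⟩
          rw [hxd, Matrix.smul_apply, smul_eq_mul, abs_mul, abs_inv, abs_of_pos hpos,
            inv_mul_le_iff₀ hpos, mul_one]
          exact hzb a b
        obtain ⟨F', hRD, hF'⟩ := hFd x hT1
        have hder : ∀ t : ℝ, HasDerivAt (fun s : ℝ => F (g * ex (s • x))) (F' (g * ex (t • x))) t :=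
          fun t => rd_rules.2.1 x F F' hxt hRD g t
        have hmv := Convex.norm_image_sub_le_of_norm_hasDerivWithin_le
          (f := fun s : ℝ => F (g * ex (s • x))) (f' := fun t : ℝ => F' (g * ex (t • x)))
          (C := M * θ) (s := Set.univ) (x := 0) (y := ρ)
          (fun t _ => (hder t).hasDerivWithinAt)
          (fun t _ => by rw [Real.norm_eq_abs]; exact hF'.2 _) convex_univ (Set.mem_univ _)
          (Set.mem_univ _)
        simp only [hxz, zero_smul, sub_zero] at hmv
        rw [ex_facts.2.2.2.1, mul_one, hexz, Real.norm_eq_abs, Real.norm_eq_abs,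
          abs_of_pos hpos] at hmv
        exact hmv
    calc |F (g * q) - F g| ≤ M * θ * (C * r) := key
      _ = C * (M * θ * r) := by ring
      _ ≤ (C + 2 / ε + 1) * (M * θ * r) := by
        apply mul_le_mul_of_nonneg_right _ hMθr
        have : 0 < 2 / ε := by positivity
        linarith
      _ = (C + 2 / ε + 1) * M * θ * r := by ring
  · have h1 : |F (g * q) - F g| ≤ 2 * M := by
      have h2 := hFb (g * q)
      have h3 := hFb g
      calc |F (g * q) - F g| ≤ |F (g * q)| + |F g| := abs_sub _ _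
        _ ≤ 2 * M := by linarith
    have h4 : 2 * M ≤ 2 / ε * (M * θ * r) := by
      have h5 : 1 ≤ r / ε := (one_le_div hε).2 hre
      have h6 : 1 ≤ θ * (r / ε) := by
        calc (1 : ℝ) = 1 * 1 := by ring
          _ ≤ θ * (r / ε) := mul_le_mul hθ h5 zero_le_one hθ0
      calc 2 * M = 2 * M * 1 := by ring
        _ ≤ 2 * M * (θ * (r / ε)) := mul_le_mul_of_nonneg_left h6 (by positivity)
        _ = 2 / ε * (M * θ * r) := by ring
    calc |F (g * q) - F g| ≤ 2 / ε * (M * θ * r) := h1.trans h4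
      _ ≤ (C + 2 / ε + 1) * (M * θ * r) := by
        apply mul_le_mul_of_nonneg_right _ hMθr
        linarith
      _ = (C + 2 / ε + 1) * M * θ * r := by ring

end FL27
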