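import Pool.Agent.LibFL27.CDefs
import Pool.Agent.LibFL27.CA4
import Pool.Agent.LibFL27.CA5

set_option autoImplicit false
set_option maxSynthPendingDepth 3

open Matrix MeasureTheory Topology Filter LibNC38
open LibNC27 hiding Mt
open scoped Matrix.Norms.Elementwise ContDiff

namespace FL27

private theorem CA7_bx {n : ℕ} (a b : Fin n) : Bx (Matrix.single a b (1 : ℝ)) := by
  intro i j
  rw [Matrix.single_apply]
  split_ifs <;> simp

private theorem CA7_exp {n : ℕ} (G : Mt n →ₗ[ℝ] Fn n) (y : Mt n) (q : SL n) :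
    G y q = ∑ p : Fin n × Fin n, y p.1 p.2 * G (Matrix.single p.1 p.2 1) q := by
  have h1 : y = ∑ p : Fin n × Fin n, y p.1 p.2 • Matrix.single p.1 p.2 (1 : ℝ) := by
    conv_lhs => rw [Matrix.matrix_eq_sum_single y]
    rw [← Finset.univ_product_univ, Finset.sum_product]
    refine Finset.sum_congr rfl fun i _ => Finset.sum_congr rfl fun j _ => ?_
    rw [Matrix.smul_single, smul_eq_mul, mul_one]
  conv_lhs => rw [h1]
  rw [map_sum, Finset.sum_apply]
  refine Finset.sum_congr rfl fun p _ => ?_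
  rw [map_smul, Pi.smul_apply, smul_eq_mul]

private theorem CA7_bd {n : ℕ} {θ : ℝ} (k : ℕ) {M : ℝ} {F : Fn n} (h : WB θ k M F) :
    Continuous F ∧ ∀ g, |F g| ≤ M := by
  cases k with
  | zero => exact h
  | succ k => exact h.1

private theorem CA7_main {n : ℕ} (k : ℕ) (B : ℝ) (hB : 0 ≤ B) : ∃ C : ℝ, 1 ≤ C ∧
    ∀ (θ M : ℝ) (F : Fn n) (Φ : SL n → SL n) (X : Mt n → SL n → Mt n), 1 ≤ θ → 0 ≤ M →
    Continuous Φ → LD Φ X → (∀ x : Mt n, T1 x → ∀ g, (X x g).trace = 0) →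
    (∀ x : Mt n, T1 x → ∀ a b, WB θ (k - 1) B (fun g => X x g a b)) → WB θ k M F →
    WB θ k (C * M) (fun g => F (Φ g)) := by
  obtain ⟨hmono, hmon2, -, -, -, hmul, hsum, -⟩ := wb_alg (n := n)
  induction k with
  | zero =>
    refine ⟨1, le_rfl, fun θ M F Φ X _ _ hΦ _ _ _ hF => ?_⟩
    rw [one_mul]
    exact ⟨hF.1.comp hΦ, fun g => hF.2 _⟩
  | succ k ih =>
    obtain ⟨C, hC1, hC⟩ := ih
    have hC0 : 0 ≤ C := by linarith
    set D : ℝ := ((Finset.univ : Finset (Fin n × Fin n)).card : ℝ) * (2 ^ k * (B * (C * 2)))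
      with hD
    have hD0 : 0 ≤ D := by positivity
    refine ⟨1 + D, by linarith, fun θ M F Φ X hθ hM hΦ hLD htr hX hF => ?_⟩
    have hθ0 : 0 ≤ θ := by linarith
    obtain ⟨G, hG1, -, hG2, -⟩ := wb_lin θ k M F hF
    have hX' : ∀ x : Mt n, T1 x → ∀ a b, WB θ k B (fun g => X x g a b) := hX
    refine ⟨⟨hF.1.1.comp hΦ, fun g => (hF.1.2 _).trans ?_⟩, fun x hx => ?_⟩
    · nlinarith
    · refine ⟨fun g => ∑ p : Fin n × Fin n, X x g p.1 p.2 * G (Matrix.single p.1 p.2 1) (Φ g),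
        fun c hc => ?_, ?_⟩
      · have h1 := hG1 (X x (c 0)) (htr x hx (c 0)) (fun s => Φ (c s)) (hLD x hx.1 c hc)
        have h2 := CA7_exp G (X x (c 0)) (Φ (c 0))
        show HasDerivAt (fun s => F (Φ (c s))) (∑ p : Fin n × Fin n,
          (X x (c 0)) p.1 p.2 * G (Matrix.single p.1 p.2 1) (Φ (c 0))) 0
        rw [← h2]
        exact h1
      · have h1 : ∀ p ∈ (Finset.univ : Finset (Fin n × Fin n)), WB θ k
            (2 ^ k * (B * (C * (2 * (M * θ)))))
            (fun g => X x g p.1 p.2 * G (Matrix.single p.1 p.2 1) (Φ g)) := by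
          intro p _
          refine hmul θ k B (C * (2 * (M * θ))) _ _ hθ0 hB (by positivity) (hX' x hx p.1 p.2) ?_
          exact hC θ (2 * (M * θ)) (G (Matrix.single p.1 p.2 1)) Φ X hθ (by positivity) hΦ hLD htr
            (fun x hx a b => hmono θ k (k - 1) B _ (Nat.sub_le _ _) (hX' x hx a b))
            (hG2 _ (CA7_bx p.1 p.2))
        have h2 := hsum θ k _ (Fin n × Fin n) Finset.univ
          (fun p g => X x g p.1 p.2 * G (Matrix.single p.1 p.2 1) (Φ g)) hθ0 h1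
        refine hmon2 θ θ k _ ((1 + D) * M * θ) _ hθ0 le_rfl ?_ (by positivity) h2
        have h3 : ((Finset.univ : Finset (Fin n × Fin n)).card : ℝ) *
            (2 ^ k * (B * (C * (2 * (M * θ))))) = D * M * θ := by
          rw [hD]
          ring
        rw [h3]
        have h4 : 0 ≤ M * θ := mul_nonneg hM hθ0
        nlinarith

/-- Row CA7. Composition. PLAN. Induction over `k` (statement for all `F`, `M` at once). `G` from `wb_lin`.
`F ∘ Φ` has along `x` the derivative `g ↦ (G (X x g)) (Φ g) = ∑_ab (X x g)_ab (G e_ab)(Φ g)`: for a curve `c` with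
`c'(0) = c(0) x` the curve `Φ ∘ c` has `(Φ ∘ c)'(0) = Φ(c 0) X x (c 0)`, apply `RD (X x (c 0)) F _`. Products
and sums (`wb_alg`), induction for the `G e_ab ∈ WB θ k (2 M θ)`. Zeroth order: `G e_ab ∘ Φ` continuous, bounded. -/
theorem wb_comp {n : ℕ} (k : ℕ) (B : ℝ) (hB : 0 ≤ B) : ∃ C : ℝ, 1 ≤ C ∧ ∀ (θ M : ℝ) (F : Fn n)
    (Φ : SL n → SL n) (X : Mt n → SL n → Mt n), 1 ≤ θ → 0 ≤ M → Continuous Φ → LD Φ X →
    (∀ x : Mt n, T1 x → ∀ g, (X x g).trace = 0) →
    (∀ x : Mt n, T1 x → ∀ a b, WB θ k B (fun g => X x g a b)) → WB θ (k + 1) M F →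
    WB θ (k + 1) (C * M) (fun g => F (Φ g)) := by
  obtain ⟨C, hC1, hC⟩ := CA7_main (n := n) (k + 1) B hB
  exact ⟨C, hC1, fun θ M F Φ X hθ hM hΦ hLD htr hX hF => hC θ M F Φ X hθ hM hΦ hLD htr hX hF⟩

end FL27
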