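import Pool.Agent.LibFL27.CDefs
import Pool.Agent.LibFL27.CA4
import Pool.Agent.LibFL27.CA5

set_option autoImplicit false
set_option maxSynthPendingDepth 3

open Matrix MeasureTheory Topology Filter LibNC38
open LibNC27 hiding Mt
open scoped Matrix.Norms.Elementwise ContDiff

namespace FL27

private theorem CA8_gen1 {V : Type} [NormedAddCommGroup V] [NormedSpace ℝ V] (f : V → ℝ)
    (hf : ContDiff ℝ ∞ f) (v : V) : ContDiff ℝ ∞ (fun x => fderiv ℝ f x v) :=
  (contDiff_infty_iff_fderiv.1 hf).2.clm_apply contDiff_const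

private theorem CA8_gen2 {V : Type} [NormedAddCommGroup V] [NormedSpace ℝ V] [FiniteDimensional ℝ V]
    (f : V → ℝ) (hf : ContDiff ℝ ∞ f) :
    ∃ L : ℝ, 1 ≤ L ∧ ∀ x : V, ‖x‖ ≤ 1 → |f x - f 0| ≤ L * ‖x‖ := by
  have : ProperSpace V := FiniteDimensional.proper ℝ V
  have hK : IsCompact (Metric.closedBall (0 : V) 1) := isCompact_closedBall _ _
  have hfc : Continuous (fderiv ℝ f) := hf.continuous_fderiv (by simp)
  obtain ⟨L, hL⟩ := hK.exists_bound_of_continuousOn hfc.continuousOn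
  refine ⟨max 1 L, le_max_left _ _, ?_⟩
  intro x hx
  have h1 : x ∈ Metric.closedBall (0 : V) 1 := by
    rw [mem_closedBall_zero_iff]
    exact hx
  have h0 : (0 : V) ∈ Metric.closedBall (0 : V) 1 := by
    rw [mem_closedBall_zero_iff, norm_zero]
    exact zero_le_one
  have h2 := (convex_closedBall (0 : V) 1).norm_image_sub_le_of_norm_fderiv_le
    (f := f) (C := max 1 L) (fun M _ => (hf.differentiable (by simp)) M)
    (fun M hM => (hL M hM).trans (le_max_right _ _)) h0 h1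
  rw [sub_zero, Real.norm_eq_abs] at h2
  exact h2

private theorem CA8_sum {n : ℕ} (L : Mt n →L[ℝ] ℝ) (H : Mt n) :
    L H = ∑ a, ∑ b, H a b * L (Matrix.single a b (1 : ℝ)) := by
  conv_lhs => rw [Matrix.matrix_eq_sum_single H]
  rw [map_sum]
  refine Finset.sum_congr rfl fun a _ => ?_
  rw [map_sum]
  refine Finset.sum_congr rfl fun b _ => ?_
  have : Matrix.single a b (H a b) = H a b • Matrix.single a b (1 : ℝ) := by
    rw [Matrix.smul_single, smul_eq_mul, mul_one]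
  rw [this, map_smul, smul_eq_mul]

private theorem CA8_rd {n : ℕ} (E : Mt n → ℝ) (hE : ContDiff ℝ ∞ E) (y A : SL n → Mt n) (x : Mt n)
    (h : ∀ a b, RD x (fun g => y g a b) (fun g => A g a b)) :
    RD x (fun g => E (y g)) (fun g => fderiv ℝ E (y g) (A g)) := by
  intro c hc
  have h1 : HasDerivAt (fun s => y (c s)) (A (c 0)) 0 := by
    apply hasDerivAt_pi.2
    intro a
    apply hasDerivAt_pi.2
    intro b
    exact h a b c hc
  have h2 : HasFDerivAt E (fderiv ℝ E (y (c 0))) (y (c 0)) :=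
    ((hE.differentiable (by simp)) (y (c 0))).hasFDerivAt
  exact h2.comp_hasDerivAt 0 h1

private theorem CA8_cont {n : ℕ} (y : SL n → Mt n) (h : ∀ a b, Continuous fun g => y g a b) :
    Continuous y := by
  apply continuous_pi
  intro a
  apply continuous_pi
  intro b
  exact h a b

/-- first clause at level `k` -/
private def CA8_P {n : ℕ} (k : ℕ) (E : Mt n → ℝ) (C : ℝ) : Prop :=
  ∀ (θ B : ℝ) (y : SL n → Mt n), 1 ≤ θ → 0 ≤ B → B ≤ 1 → (∀ a b, WB θ k B (fun g => y g a b)) →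
    WB θ k (C * B) (fun g => E (y g) - E 0)

private theorem CA8_zero {n : ℕ} (E : Mt n → ℝ) (hE : ContDiff ℝ ∞ E) :
    ∃ C : ℝ, 1 ≤ C ∧ CA8_P 0 E C := by
  obtain ⟨L, hL1, hL⟩ := CA8_gen2 E hE
  refine ⟨L, hL1, ?_⟩
  intro θ B y hθ hB hB1 hy
  refine ⟨?_, ?_⟩
  · have h1 : Continuous y := CA8_cont y fun a b => (hy a b).1
    exact (hE.continuous.comp h1).sub continuous_const
  · intro g
    have hn : ‖y g‖ ≤ B := by
      rw [Matrix.norm_le_iff hB]
      intro a b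
      exact (hy a b).2 g
    exact (hL (y g) (hn.trans hB1)).trans
      (mul_le_mul_of_nonneg_left hn (zero_le_one.trans hL1))

private theorem CA8_second {n : ℕ} (k : ℕ)
    (hP : ∀ E : Mt n → ℝ, ContDiff ℝ ∞ E → ∃ C : ℝ, 1 ≤ C ∧ CA8_P k E C)
    (E : Mt n → ℝ) (hE : ContDiff ℝ ∞ E) : ∃ C : ℝ, 1 ≤ C ∧
    ∀ (θ B : ℝ) (y : SL n → Mt n), 1 ≤ θ → 0 ≤ B → B ≤ 1 → (∀ a b, WB θ k B (fun g => y g a b)) →
      ∀ (A : SL n → Mt n) (B' : ℝ), 0 ≤ B' → (∀ a b, WB θ k B' (fun g => A g a b)) →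
        WB θ k (C * B') (fun g => fderiv ℝ E (y g) (A g)) := by
  obtain ⟨-, w2, w3, w4, -, w6, w7, -⟩ := wb_alg (n := n)
  have hEab : ∀ a b : Fin n, ContDiff ℝ ∞ (fun M : Mt n => fderiv ℝ E M (Matrix.single a b (1 : ℝ))) :=
    fun a b => CA8_gen1 E hE _
  choose c hc1 hc2 using fun a b => hP _ (hEab a b)
  obtain ⟨D, hD⟩ : ∃ D : ℝ, ∀ a b : Fin n,
      c a b + |fderiv ℝ E 0 (Matrix.single a b (1 : ℝ))| ≤ D := by
    refine ⟨∑ a, ∑ b, (c a b + |fderiv ℝ E 0 (Matrix.single a b (1 : ℝ))|), ?_⟩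
    intro a b
    have hnn : ∀ a b : Fin n, 0 ≤ c a b + |fderiv ℝ E 0 (Matrix.single a b (1 : ℝ))| := by
      intro a b
      have := hc1 a b
      have := abs_nonneg (fderiv ℝ E 0 (Matrix.single a b (1 : ℝ)))
      linarith
    have h1 := Finset.single_le_sum (f := fun b => c a b + |fderiv ℝ E 0 (Matrix.single a b (1 : ℝ))|)
      (fun b _ => hnn a b) (Finset.mem_univ b)
    have h2 := Finset.single_le_sum
      (f := fun a => ∑ b, (c a b + |fderiv ℝ E 0 (Matrix.single a b (1 : ℝ))|))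
      (fun a _ => Finset.sum_nonneg fun b _ => hnn a b) (Finset.mem_univ a)
    exact h1.trans h2
  obtain ⟨D', hD'1, hD'0⟩ : ∃ D' : ℝ, D ≤ D' ∧ 1 ≤ D' := ⟨max D 1, le_max_left _ _, le_max_right _ _⟩
  refine ⟨max 1 ((n : ℝ) * (n * (2 ^ k * D'))), le_max_left _ _, ?_⟩
  intro θ B y hθ hB hB1 hy A B' hB' hA
  have hθ0 : 0 ≤ θ := zero_le_one.trans hθ
  have hD0 : 0 ≤ D' := zero_le_one.trans hD'0
  have hterm : ∀ a b : Fin n, WB θ k (2 ^ k * (B' * D'))
      (fun g => A g a b * fderiv ℝ E (y g) (Matrix.single a b (1 : ℝ))) := by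
    intro a b
    have h1 := hc2 a b θ B y hθ hB hB1 hy
    have h2 := w3 θ k (fderiv ℝ E 0 (Matrix.single a b (1 : ℝ))) hθ0
    have h3 := w4 θ k _ _ _ _ h1 h2
    have hle : c a b * B + |fderiv ℝ E 0 (Matrix.single a b (1 : ℝ))| ≤ D' := by
      have h4 : c a b * B ≤ c a b := mul_le_of_le_one_right (zero_le_one.trans (hc1 a b)) hB1
      have h5 := hD a b
      linarith
    have hnn : 0 ≤ c a b * B + |fderiv ℝ E 0 (Matrix.single a b (1 : ℝ))| :=
      add_nonneg (mul_nonneg (zero_le_one.trans (hc1 a b)) hB) (abs_nonneg _)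
    have h6 := w2 θ θ k _ D' _ hθ0 le_rfl hle hnn h3
    have h7 : (fun g : SL n => fderiv ℝ E (y g) (Matrix.single a b (1 : ℝ)) -
        fderiv ℝ E 0 (Matrix.single a b (1 : ℝ)) + fderiv ℝ E 0 (Matrix.single a b (1 : ℝ))) =
        fun g => fderiv ℝ E (y g) (Matrix.single a b (1 : ℝ)) := by
      funext g
      ring
    have h8 : WB θ k D' (fun g => fderiv ℝ E (y g) (Matrix.single a b (1 : ℝ))) := by
      rw [← h7]
      exact h6
    exact w6 θ k B' D' _ _ hθ0 hB' hD0 (hA a b) h8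
  have hs1 : ∀ a : Fin n, WB θ k ((n : ℝ) * (2 ^ k * (B' * D')))
      (fun g => ∑ b, A g a b * fderiv ℝ E (y g) (Matrix.single a b (1 : ℝ))) := by
    intro a
    have h := w7 θ k (2 ^ k * (B' * D')) (Fin n) Finset.univ
      (fun b g => A g a b * fderiv ℝ E (y g) (Matrix.single a b (1 : ℝ))) hθ0 (fun b _ => hterm a b)
    rw [Finset.card_univ, Fintype.card_fin] at h
    exact h
  have hs2 : WB θ k ((n : ℝ) * ((n : ℝ) * (2 ^ k * (B' * D'))))
      (fun g => ∑ a, ∑ b, A g a b * fderiv ℝ E (y g) (Matrix.single a b (1 : ℝ))) := by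
    have h := w7 θ k ((n : ℝ) * (2 ^ k * (B' * D'))) (Fin n) Finset.univ
      (fun a g => ∑ b, A g a b * fderiv ℝ E (y g) (Matrix.single a b (1 : ℝ))) hθ0 (fun a _ => hs1 a)
    rw [Finset.card_univ, Fintype.card_fin] at h
    exact h
  have hf : (fun g : SL n => fderiv ℝ E (y g) (A g)) =
      fun g => ∑ a, ∑ b, A g a b * fderiv ℝ E (y g) (Matrix.single a b (1 : ℝ)) := by
    funext g
    exact CA8_sum _ _
  rw [hf]
  refine w2 θ θ k _ _ _ hθ0 le_rfl ?_ ?_ hs2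
  · have h1 : (n : ℝ) * ((n : ℝ) * (2 ^ k * (B' * D'))) = (n : ℝ) * (n * (2 ^ k * D')) * B' := by ring
    rw [h1]
    exact mul_le_mul_of_nonneg_right (le_max_right _ _) hB'
  · positivity

private theorem CA8_first {n : ℕ} (k : ℕ) :
    ∀ E : Mt n → ℝ, ContDiff ℝ ∞ E → ∃ C : ℝ, 1 ≤ C ∧ CA8_P k E C := by
  induction k with
  | zero => exact fun E hE => CA8_zero E hE
  | succ k ih =>
    intro E hE
    obtain ⟨w1, w2, -⟩ := wb_alg (n := n)
    obtain ⟨C0, hC0, h0⟩ := CA8_zero E hE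
    obtain ⟨C2, hC2, h2⟩ := CA8_second k ih E hE
    refine ⟨max C0 C2, hC0.trans (le_max_left _ _), ?_⟩
    intro θ B y hθ hB hB1 hy
    have hθ0 : 0 ≤ θ := zero_le_one.trans hθ
    have hy0 : ∀ a b, WB θ 0 B (fun g => y g a b) := fun a b => w1 θ (k + 1) 0 B _ (Nat.zero_le _) (hy a b)
    have hyk : ∀ a b, WB θ k B (fun g => y g a b) := fun a b => w1 θ (k + 1) k B _ (Nat.le_succ _) (hy a b)
    have h3 := h0 θ B y hθ hB hB1 hy0
    refine ⟨⟨h3.1, fun g => (h3.2 g).trans (mul_le_mul_of_nonneg_right (le_max_left _ _) hB)⟩, ?_⟩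
    intro x hx
    choose A hA1 hA2 using fun a b => (hy a b).2 x hx
    refine ⟨fun g => fderiv ℝ E (y g) (Matrix.of fun a b => A a b g), ?_, ?_⟩
    · have h4 := CA8_rd E hE y (fun g => Matrix.of fun a b => A a b g) x (fun a b => hA1 a b)
      intro c hc
      exact (h4 c hc).sub_const (E 0)
    · have h5 := h2 θ B y hθ hB hB1 hyk (fun g => Matrix.of fun a b => A a b g) (B * θ)
        (mul_nonneg hB hθ0) (fun a b => hA2 a b)
      refine w2 θ θ k _ _ _ hθ0 le_rfl ?_ (mul_nonneg (zero_le_one.trans hC2) (mul_nonneg hB hθ0)) h5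
      rw [mul_assoc]
      exact mul_le_mul_of_nonneg_right (le_max_right _ _) (mul_nonneg hB hθ0)

/-- Row CA8. Smooth functions of functions with scaled bounds. PLAN. Induction over `k` for all smooth `E`.
Pointwise: mean value on the compact convex set of matrices with entries in `[-1,1]`. `R_x (E ∘ y) =
∑_ab (∂_ab E)(y) R_x y_ab` (chain rule for curves: `E` differentiable, `y ∘ c` differentiable entrywise);
`(∂_ab E)(y) = [(∂_ab E)(y) - (∂_ab E)(0)] + const ∈ WB θ k C`; product rule. Second clause: the same formula. -/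
theorem wb_fun {n : ℕ} (E : Mt n → ℝ) (hE : ContDiff ℝ ∞ E) (k : ℕ) : ∃ C : ℝ, 1 ≤ C ∧
    ∀ (θ B : ℝ) (y : SL n → Mt n), 1 ≤ θ → 0 ≤ B → B ≤ 1 → (∀ a b, WB θ k B (fun g => y g a b)) →
    WB θ k (C * B) (fun g => E (y g) - E 0) ∧
    ∀ (x : Mt n) (A : SL n → Mt n) (B' : ℝ), 0 ≤ B' → (∀ a b, RD x (fun g => y g a b) (fun g => A g a b)) →
      (∀ a b, WB θ k B' (fun g => A g a b)) →
      RD x (fun g => E (y g)) (fun g => fderiv ℝ E (y g) (A g)) ∧
      WB θ k (C * B') (fun g => fderiv ℝ E (y g) (A g)) := by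
  obtain ⟨-, w2, -⟩ := wb_alg (n := n)
  obtain ⟨C1, hC1, h1⟩ := CA8_first k E hE
  obtain ⟨C2, hC2, h2⟩ := CA8_second k (CA8_first k) E hE
  refine ⟨max C1 C2, hC1.trans (le_max_left _ _), ?_⟩
  intro θ B y hθ hB hB1 hy
  have hθ0 : 0 ≤ θ := zero_le_one.trans hθ
  refine ⟨?_, ?_⟩
  · exact w2 θ θ k _ _ _ hθ0 le_rfl (mul_le_mul_of_nonneg_right (le_max_left _ _) hB)
      (mul_nonneg (zero_le_one.trans hC1) hB) (h1 θ B y hθ hB hB1 hy)
  · intro x A B' hB' hA1 hA2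
    refine ⟨CA8_rd E hE y A x hA1, ?_⟩
    exact w2 θ θ k _ _ _ hθ0 le_rfl (mul_le_mul_of_nonneg_right (le_max_right _ _) hB')
      (mul_nonneg (zero_le_one.trans hC2) hB') (h2 θ B y hθ hB hB1 hy A B' hB' hA2)

end FL27
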