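import Pool.Agent.LibFL27.CDefs
import Pool.Agent.LibFL27.CA4

set_option autoImplicit false
set_option maxSynthPendingDepth 3

open Matrix MeasureTheory Topology Filter LibNC38
open LibNC27 hiding Mt
open scoped Matrix.Norms.Elementwise ContDiff

namespace FL27

private def CA9_E {n : ℕ} : ℕ → ℝ → Fn n → Prop
  | 0, A, F => ∀ g, |F g| ≤ A
  | j + 1, A, F => ∀ x : Mt n, T1 x → ∀ F' : Fn n, RD x F F' → CA9_E j A F'

private theorem CA9_mono {n : ℕ} (j : ℕ) {A B : ℝ} (h : A ≤ B) (F : Fn n) (hF : CA9_E j A F) :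
    CA9_E j B F := by
  induction j generalizing F with
  | zero => intro g; exact (hF g).trans h
  | succ j ih => intro x hx F' hF'; exact ih F' (hF x hx F' hF')

private theorem CA9_of {n : ℕ} (θ : ℝ) (j : ℕ) (k : ℕ) (M : ℝ) (F : Fn n) (hjk : j ≤ k)
    (hF : WB θ k M F) : CA9_E j (M * θ ^ j) F := by
  induction j generalizing F k M with
  | zero =>
    intro g
    rw [pow_zero, mul_one]
    cases k with
    | zero => exact hF.2 g
    | succ k => exact hF.1.2 g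
  | succ j ih =>
    intro x hx F' hF'
    cases k with
    | zero => omega
    | succ k =>
      obtain ⟨F'', h1, h2⟩ := hF.2 x hx
      have e : F' = F'' := rd_rules.1 x F F' F'' hx.1 hF' h1
      rw [e]
      have h3 := ih k (M * θ) F'' (by omega) h2
      have e2 : M * θ ^ (j + 1) = M * θ * θ ^ j := by ring
      rw [e2]
      exact h3

private theorem CA9_lim {n : ℕ} (j : ℕ) (A : ℝ) (F : Fn n) (h : ∀ ε : ℝ, 0 < ε → CA9_E j (A + ε) F) :
    CA9_E j A F := by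
  induction j generalizing F with
  | zero => intro g; exact le_of_forall_pos_le_add fun ε hε => h ε hε g
  | succ j ih => intro x hx F' hF'; exact ih F' fun ε hε => h ε hε x hx F' hF'

private theorem CA9_quad (y N0 N2 : ℝ) (h0 : 0 ≤ N0) (h2 : 0 ≤ N2)
    (h : ∀ t : ℝ, 0 < t → |y| * t ≤ 2 * N0 + N2 * t ^ 2) : y ^ 2 ≤ 8 * N0 * N2 := by
  rcases eq_or_ne y 0 with hy | hy
  · have h9 : 0 ≤ 8 * N0 * N2 := by positivity
    rw [hy, zero_pow two_ne_zero]
    exact h9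
  have hy' : 0 < |y| := abs_pos.2 hy
  have hsq : y ^ 2 = |y| ^ 2 := (sq_abs y).symm
  rw [hsq]
  rcases h2.lt_or_eq with h3 | h3
  · have h4 := h (|y| / (2 * N2)) (by positivity)
    have e1 : |y| * (|y| / (2 * N2)) = |y| ^ 2 / (2 * N2) := by ring
    have e2 : N2 * (|y| / (2 * N2)) ^ 2 = |y| ^ 2 / (4 * N2) := by
      field_simp
      ring
    rw [e1, e2] at h4
    have e3 : |y| ^ 2 / (2 * N2) = 2 * (|y| ^ 2 / (4 * N2)) := by
      field_simp
      ring
    rw [e3] at h4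
    have h5 : |y| ^ 2 / (4 * N2) ≤ 2 * N0 := by linarith
    rw [div_le_iff₀ (by positivity)] at h5
    linarith
  · have h4 := h ((2 * N0 + 1) / |y|) (by positivity)
    rw [← h3] at h4
    have e1 : |y| * ((2 * N0 + 1) / |y|) = 2 * N0 + 1 := by field_simp
    rw [e1] at h4
    linarith

private theorem CA9_land (f f' f'' : ℝ → ℝ) (hf : ∀ t, HasDerivAt f (f' t) t)
    (hf' : ∀ t, HasDerivAt f' (f'' t) t) (N0 N2 : ℝ) (h0 : ∀ t, |f t| ≤ N0)
    (h2 : ∀ t, |f'' t| ≤ N2) : f' 0 ^ 2 ≤ 8 * N0 * N2 := by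
  refine CA9_quad _ _ _ ((abs_nonneg _).trans (h0 0)) ((abs_nonneg _).trans (h2 0)) ?_
  intro t ht
  obtain ⟨ξ, hξ, e1⟩ := exists_hasDerivAt_eq_slope f f' ht
    (fun x _ => (hf x).continuousAt.continuousWithinAt) (fun x _ => hf x)
  obtain ⟨η, hη, e2⟩ := exists_hasDerivAt_eq_slope f' f'' hξ.1
    (fun x _ => (hf' x).continuousAt.continuousWithinAt) (fun x _ => hf' x)
  rw [sub_zero] at e1 e2
  have hξ0 := hξ.1
  have e3 : f' 0 = f' ξ - ξ * f'' η := by
    rw [e2]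
    field_simp
    ring
  have e4 : f' 0 * t = (f t - f 0) - ξ * t * f'' η := by
    rw [e3, e1]
    field_simp
  have h3 : |f' 0| * t = |f' 0 * t| := by rw [abs_mul, abs_of_pos ht]
  rw [h3, e4]
  have h4 : |ξ * t * f'' η| ≤ N2 * t ^ 2 := by
    rw [abs_mul, abs_of_pos (mul_pos hξ0 ht)]
    have h5 : ξ * t ≤ t ^ 2 := by nlinarith [hξ.2]
    have h6 : 0 ≤ N2 := (abs_nonneg _).trans (h2 0)
    calc ξ * t * |f'' η| ≤ t ^ 2 * N2 := by
          apply mul_le_mul h5 (h2 η) (abs_nonneg _) (by positivity)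
      _ = N2 * t ^ 2 := by ring
  have h7 := h0 t
  have h8 := h0 0
  calc |f t - f 0 - ξ * t * f'' η| ≤ |f t - f 0| + |ξ * t * f'' η| := abs_sub _ _
    _ ≤ (|f t| + |f 0|) + |ξ * t * f'' η| := by gcongr; exact abs_sub _ _
    _ ≤ 2 * N0 + N2 * t ^ 2 := by linarith

private theorem CA9_conv {n : ℕ} (θ : ℝ) (i : ℕ) (A B M : ℝ) (F : Fn n) (h1 : CA9_E i A F)
    (h2 : CA9_E (i + 2) B F) (hW : WB θ (i + 2) M F) : CA9_E (i + 1) (√ (8 * A * B)) F := by
  induction i generalizing F M with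
  | zero =>
    intro x hx F' hF' g
    obtain ⟨F1, k1, k2⟩ := hW.2 x hx
    have e : F' = F1 := rd_rules.1 x F F' F1 hx.1 hF' k1
    obtain ⟨F2, k3, k4⟩ := k2.2 x hx
    rw [← e] at k3
    have k5 := h2 x hx F' hF' x hx F2 k3
    have k6 := CA9_land (fun t => F (g * (ex ((0 : ℝ) • x))⁻¹ * ex (t • x)))
      (fun t => F' (g * (ex ((0 : ℝ) • x))⁻¹ * ex (t • x)))
      (fun t => F2 (g * (ex ((0 : ℝ) • x))⁻¹ * ex (t • x)))
      (fun t => rd_rules.2.1 x F F' hx.1 hF' _ t) (fun t => rd_rules.2.1 x F' F2 hx.1 k3 _ t)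
      A B (fun t => h1 _) (fun t => k5 _)
    simp only [inv_mul_cancel_right] at k6
    have k7 := Real.abs_le_sqrt k6
    exact k7
  | succ i ih =>
    intro x hx F' hF'
    obtain ⟨F1, k1, k2⟩ := hW.2 x hx
    have e : F' = F1 := rd_rules.1 x F F' F1 hx.1 hF' k1
    rw [← e] at k2
    exact ih _ F' (h1 x hx F' hF') (h2 x hx F' hF') k2

private theorem CA9_back {n : ℕ} (θ θ' : ℝ) (k : ℕ) (M K : ℝ) (F : Fn n) (hW : WB θ k K F)
    (h : ∀ j, j ≤ k → CA9_E j (M * θ' ^ j) F) : WB θ' k M F := by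
  induction k generalizing F M K with
  | zero =>
    refine ⟨hW.1, fun g => ?_⟩
    have := h 0 le_rfl g
    rwa [pow_zero, mul_one] at this
  | succ k ih =>
    refine ⟨⟨hW.1.1, fun g => ?_⟩, fun x hx => ?_⟩
    · have := h 0 (Nat.zero_le _) g
      rwa [pow_zero, mul_one] at this
    · obtain ⟨F1, k1, k2⟩ := hW.2 x hx
      refine ⟨F1, k1, ih (M * θ') (K * θ) F1 k2 fun j hj => ?_⟩
      have := h (j + 1) (by omega) x hx F1 k1
      have e2 : M * θ' ^ (j + 1) = M * θ' * θ' ^ j := by ring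
      rwa [e2] at this

private theorem CA9_max (m : ℕ) (a W : ℕ → ℝ) (ha : ∀ j, 0 ≤ a j) (hW : ∀ j, 0 < W j)
    (h0 : a 0 ≤ W 0) (hm : a m ≤ W m) (hc : ∀ i, i + 2 ≤ m → a (i + 1) ^ 2 ≤ 8 * a i * a (i + 2))
    (hw : ∀ i, i + 2 ≤ m → W (i + 1) ^ 2 = 9 * W i * W (i + 2)) : ∀ j, j ≤ m → a j ≤ W j := by
  obtain ⟨p, hp, hmax⟩ := Finset.exists_max_image (Finset.range (m + 1)) (fun j => a j / W j)
    ⟨0, by simp⟩
  rw [Finset.mem_range] at hp
  have hR : ∀ j, j ≤ m → a j ≤ a p / W p * W j := by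
    intro j hj
    have := hmax j (by rw [Finset.mem_range]; omega)
    rwa [div_le_iff₀ (hW j)] at this
  suffices h : a p / W p ≤ 1 by
    intro j hj
    calc a j ≤ a p / W p * W j := hR j hj
      _ ≤ 1 * W j := by gcongr; exact (hW j).le
      _ = W j := one_mul _
  by_contra hcon
  push Not at hcon
  have hap : W p < a p := by rwa [lt_div_iff₀ (hW p), one_mul] at hcon
  have hp0 : p ≠ 0 := by rintro rfl; linarith
  have hpm : p ≠ m := by rintro rfl; linarith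
  obtain ⟨i, rfl⟩ : ∃ i, p = i + 1 := ⟨p - 1, by omega⟩
  have h1 := hc i (by omega)
  have h2 := hw i (by omega)
  set R := a (i + 1) / W (i + 1) with hRdef
  have hRW : a (i + 1) = R * W (i + 1) := by
    rw [hRdef, div_mul_cancel₀ _ (hW _).ne']
  have h3 := hR i (by omega)
  have h4 := hR (i + 2) (by omega)
  have hRpos : 0 < R := by linarith
  have h5 : a i * a (i + 2) ≤ (R * W i) * (R * W (i + 2)) :=
    mul_le_mul h3 h4 (ha _) (by have := hW i; positivity)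
  have h6 : a (i + 1) ^ 2 ≤ 8 / 9 * a (i + 1) ^ 2 := by
    calc a (i + 1) ^ 2 ≤ 8 * (a i * a (i + 2)) := by linarith
      _ ≤ 8 * ((R * W i) * (R * W (i + 2))) := by linarith
      _ = 8 / 9 * (R ^ 2 * (9 * W i * W (i + 2))) := by ring
      _ = 8 / 9 * (R ^ 2 * W (i + 1) ^ 2) := by rw [h2]
      _ = 8 / 9 * a (i + 1) ^ 2 := by rw [hRW]; ring
  have h7 : 0 < a (i + 1) := (hW _).trans hap
  nlinarith

/-- Row CA9. Interpolation. PLAN. Landau on the line: `f` twice differentiable, `|f| ≤ N0`, `|f''| ≤ N2` on `ℝ`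
give `|f'| ≤ N0 / t + N2 t` for all `t > 0`, so `|f'|^2 ≤ 4 N0 N2` (if `N0, N2 > 0`); use for
`f(t) = F (g ex (t x))`, `f' = R_x F`, `f'' = R_x R_x F`. Let `N_j` = supremum of all word derivatives of exact
length `j` (finite, define it recursively with uniqueness of derivatives, or work with the predicate: all word
derivatives of exact length `j` are `≤ A`): `N_j^2 ≤ 4 N_{j-1} N_{j+1}` (first letter `x` of the word: `G` =
derivative along the other letters; `|R_x G|^2 ≤ 4 |G| |R_x R_x G|`). `N_0 ≤ d`, `N_m ≤ K θ^m` give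
`N_j ≤ 4^{m^2} d^{1-j/m} (K θ^m)^{j/m} = 4^{m^2} d θ'^j` for `θ'^m = K θ^m / d`. -/
theorem wb_interp {n : ℕ} (m : ℕ) (hm : 1 ≤ m) : ∃ C : ℝ, 1 ≤ C ∧ ∀ (θ θ' d K : ℝ) (F : Fn n),
    1 ≤ θ → 0 < d → d ≤ K → 0 ≤ θ' → θ' ^ m * d = K * θ ^ m → WB θ m K F → (∀ g, |F g| ≤ d) →
    WB θ' m (C * d) F := by
  refine ⟨3 ^ (m * m), one_le_pow₀ (by norm_num), ?_⟩
  intro θ θ' d K F hθ hd hdK hθ' he hW hF
  have hKp : 0 < K := hd.trans_le hdK
  have hθp : 0 < θ := by linarith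
  have hθ'p : 0 < θ' := by
    rcases hθ'.lt_or_eq with h | h
    · exact h
    · exfalso
      rw [← h, zero_pow (by omega), zero_mul] at he
      have : 0 < K * θ ^ m := by positivity
      linarith
  -- the exact bounds
  have hne : ∀ j, j ≤ m → (K * θ ^ j) ∈ {A : ℝ | 0 ≤ A ∧ CA9_E j A F} := fun j hj =>
    ⟨by positivity, CA9_of θ j m K F hj hW⟩
  obtain ⟨a, hadef⟩ : ∃ a : ℕ → ℝ, a = fun j => sInf {A : ℝ | 0 ≤ A ∧ CA9_E j A F} := ⟨_, rfl⟩
  have hbdd : ∀ j, BddBelow {A : ℝ | 0 ≤ A ∧ CA9_E j A F} := fun j => ⟨0, fun A hA => hA.1⟩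
  have ha0 : ∀ j, 0 ≤ a j := by
    intro j
    rw [hadef]
    exact Real.sInf_nonneg fun A hA => hA.1
  have haE : ∀ j, j ≤ m → CA9_E j (a j) F := by
    intro j hj
    refine CA9_lim j _ F fun ε hε => ?_
    obtain ⟨A, hA, hlt⟩ := exists_lt_of_csInf_lt ⟨_, hne j hj⟩
      (show sInf {A : ℝ | 0 ≤ A ∧ CA9_E j A F} < a j + ε by rw [hadef]; simp only; linarith)
    exact CA9_mono j hlt.le F hA.2
  have hale : ∀ (j : ℕ) (A : ℝ), 0 ≤ A → CA9_E j A F → a j ≤ A := by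
    intro j A hA h
    rw [hadef]
    exact csInf_le (hbdd j) ⟨hA, h⟩
  obtain ⟨W, hWdef⟩ : ∃ W : ℕ → ℝ, W = fun j => d * θ' ^ j * 3 ^ (j * (m - j)) := ⟨_, rfl⟩
  have hWp : ∀ j, 0 < W j := by
    intro j
    rw [hWdef]
    simp only
    positivity
  have key := CA9_max m a W ha0 hWp ?_ ?_ ?_ ?_
  · refine CA9_back θ θ' m _ K F hW fun j hj => ?_
    refine CA9_mono j ?_ F (haE j hj)
    refine (key j hj).trans ?_
    rw [hWdef]
    simp only
    have h1 : (3 : ℝ) ^ (j * (m - j)) ≤ 3 ^ (m * m) := by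
      apply pow_le_pow_right₀ (by norm_num)
      exact Nat.mul_le_mul hj (Nat.sub_le m j)
    calc d * θ' ^ j * 3 ^ (j * (m - j)) ≤ d * θ' ^ j * 3 ^ (m * m) := by gcongr
      _ = 3 ^ (m * m) * d * θ' ^ j := by ring
  · have h1 : W 0 = d := by rw [hWdef]; simp
    rw [h1]
    exact hale 0 d hd.le hF
  · have h1 : W m = K * θ ^ m := by
      rw [hWdef]
      simp only [Nat.sub_self, mul_zero, pow_zero, mul_one]
      rw [← he]; ring
    rw [h1]
    exact hale m _ (hne m le_rfl).1 (hne m le_rfl).2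
  · intro i hi
    have h1 := CA9_conv θ i (a i) (a (i + 2)) K F (haE i (by omega)) (haE (i + 2) hi)
      ((wb_alg (n := n)).1 θ m (i + 2) K F hi hW)
    have h2 := hale (i + 1) _ (Real.sqrt_nonneg _) h1
    have h3 : 0 ≤ 8 * a i * a (i + 2) := by
      have := ha0 i
      have := ha0 (i + 2)
      positivity
    calc a (i + 1) ^ 2 ≤ √ (8 * a i * a (i + 2)) ^ 2 := by
          exact pow_le_pow_left₀ (ha0 _) h2 2
      _ = 8 * a i * a (i + 2) := Real.sq_sqrt h3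
  · intro i hi
    obtain ⟨k, rfl⟩ : ∃ k, m = i + 2 + k := ⟨m - (i + 2), by omega⟩
    rw [hWdef]
    simp only
    have e1 : i + 2 + k - (i + 1) = k + 1 := by omega
    have e2 : i + 2 + k - i = k + 2 := by omega
    have e3 : i + 2 + k - (i + 2) = k := by omega
    rw [e1, e2, e3]
    have e4 : (3 : ℝ) ^ ((i + 1) * (k + 1)) * 3 ^ ((i + 1) * (k + 1)) =
        9 * (3 ^ (i * (k + 2)) * 3 ^ ((i + 2) * k)) := by
      have e5 : (9 : ℝ) = 3 ^ 2 := by norm_num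
      rw [e5, ← pow_add, ← pow_add, ← pow_add]
      congr 1
      ring
    calc (d * θ' ^ (i + 1) * 3 ^ ((i + 1) * (k + 1))) ^ 2 =
        (d * θ' ^ (i + 1)) ^ 2 * (3 ^ ((i + 1) * (k + 1)) * 3 ^ ((i + 1) * (k + 1))) := by ring
      _ = (d * θ' ^ (i + 1)) ^ 2 * (9 * (3 ^ (i * (k + 2)) * 3 ^ ((i + 2) * k))) := by rw [e4]
      _ = _ := by ring

end FL27
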