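import Pool.Agent.LibFL27.CDefs

set_option autoImplicit false
set_option maxSynthPendingDepth 3

open Matrix MeasureTheory Topology Filter LibNC38
open LibNC27 hiding Mt
open scoped Matrix.Norms.Elementwise ContDiff

namespace FL27

private theorem CB1_sq {n : ℕ} (A : Mt n) : (A * Aᵀ).trace = ∑ a, ∑ b, A a b ^ 2 := by
  simp only [Matrix.trace, Matrix.diag, Matrix.mul_apply, Matrix.transpose_apply]
  exact Finset.sum_congr rfl fun a _ => Finset.sum_congr rfl fun b _ => (sq _).symm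

private theorem CB1_le {n : ℕ} (A : Mt n) (a b : Fin n) : A a b ^ 2 ≤ (A * Aᵀ).trace := by
  rw [CB1_sq]
  have h1 : A a b ^ 2 ≤ ∑ b, A a b ^ 2 :=
    Finset.single_le_sum (f := fun b => A a b ^ 2) (fun _ _ => sq_nonneg _) (Finset.mem_univ b)
  have h2 : ∑ b, A a b ^ 2 ≤ ∑ a, ∑ b, A a b ^ 2 :=
    Finset.single_le_sum (f := fun a => ∑ b, A a b ^ 2)
      (fun _ _ => Finset.sum_nonneg fun _ _ => sq_nonneg _) (Finset.mem_univ a)
  exact h1.trans h2

private theorem CB1_open {n : ℕ} : IsOpen {u : SL n | (u.1 * u.1ᵀ).trace < n + 1} := by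
  have h1 : Continuous fun u : SL n => (u.1 * u.1ᵀ).trace := by
    have h2 : Continuous fun u : SL n => (u.1 : Mt n) := continuous_subtype_val
    exact (h2.matrix_mul h2.matrix_transpose).matrix_trace
  exact isOpen_lt h1 continuous_const

private theorem CB1_one {n : ℕ} : (1 : SL n) ∈ {u : SL n | (u.1 * u.1ᵀ).trace < n + 1} := by
  show ((1 : SL n).1 * (1 : SL n).1ᵀ).trace < (n : ℝ) + 1
  have h : ((1 : SL n).1 : Mt n) = 1 := rfl
  rw [h, Matrix.transpose_one, mul_one, Matrix.trace_one, Fintype.card_fin]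
  linarith

private theorem CB1_cpt {n : ℕ} : ∃ K : Set (SL n), IsCompact K ∧
    {u : SL n | (u.1 * u.1ᵀ).trace < n + 1} ⊆ K := by
  have hce : IsClosedEmbedding ((↑) : SL n → Matrix (Fin n) (Fin n) ℝ) :=
    Matrix.SpecialLinearGroup.isClosedEmbedding_val
  have hp : ProperSpace (Matrix (Fin n) (Fin n) ℝ) :=
    FiniteDimensional.proper ℝ (Matrix (Fin n) (Fin n) ℝ)
  refine ⟨_, hce.isCompact_preimage (isCompact_closedBall (0 : Matrix (Fin n) (Fin n) ℝ) (n + 1)),
    ?_⟩
  intro u hu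
  have hu' : (u.1 * u.1ᵀ).trace < (n : ℝ) + 1 := hu
  have hn : (0 : ℝ) ≤ n := Nat.cast_nonneg n
  show u.1 ∈ Metric.closedBall (0 : Matrix (Fin n) (Fin n) ℝ) (n + 1)
  rw [mem_closedBall_zero_iff, Matrix.norm_le_iff (by linarith)]
  intro a b
  have h1 := CB1_le u.1 a b
  rw [Real.norm_eq_abs]
  refine abs_le_of_sq_le_sq ?_ (by linarith)
  show u.1 a b ^ 2 ≤ ((n : ℝ) + 1) ^ 2
  nlinarith

private theorem CB1_inv {n : ℕ} (k : SL n) (hk : Ort k) :
    (fun x => x * k⁻¹) '' {u : SL n | (u.1 * u.1ᵀ).trace < n + 1} =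
      {u : SL n | (u.1 * u.1ᵀ).trace < n + 1} := by
  have hk' : k.1 * k.1ᵀ = 1 := hk
  have h1 : ∀ u : SL n, ((u * k).1 * (u * k).1ᵀ).trace = (u.1 * u.1ᵀ).trace := by
    intro u
    have h2 : (u * k).1 = u.1 * k.1 := rfl
    rw [h2, Matrix.transpose_mul, Matrix.mul_assoc, ← Matrix.mul_assoc k.1, hk', Matrix.one_mul]
  ext v
  constructor
  · rintro ⟨u, hu, rfl⟩
    have h3 := h1 (u * k⁻¹)
    rw [inv_mul_cancel_right] at h3
    have hu' : (u.1 * u.1ᵀ).trace < (n : ℝ) + 1 := hu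
    show ((u * k⁻¹).1 * (u * k⁻¹).1ᵀ).trace < (n : ℝ) + 1
    rw [← h3]
    exact hu'
  · intro hv
    refine ⟨v * k, ?_, by simp⟩
    show ((v * k).1 * (v * k).1ᵀ).trace < (n : ℝ) + 1
    rw [h1]
    exact hv

/-- Row CB1. Haar measure. PLAN. `LibNC38.SL_top` (topological group, locally compact, second countable, T2) and
`Measure.haar` as in `LibNC38.SL_haar` (here the `MeasurableSpace` instance is `borel`). Right translation by
`k`, `k kᵀ = 1`, multiplies by a constant `c(k)` (`SL_haar`, or `Measure.map_right_mul_eq_modularCharacterFun_smul`);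
the bounded open nonempty set `U = {u | ∑ u_ab^2 < n + 1}` satisfies `U k = U`, `0 < ν U < ∞` (closure compact in the
closed subset `SL n` of the matrices): `c(k) = 1`. -/
theorem haarK {n : ℕ} : ∃ ν : Measure (SL n), HK ν := by
  obtain ⟨hT, hL, hS, hG, -⟩ := SL_top (n := n)
  obtain ⟨ν, hl, hr, ho, hc⟩ := SL_haar (n := n)
  refine ⟨ν, ⟨fun g => ?_, fun k hk => ?_, hc, ho⟩⟩
  · ext S hS'
    have hm : Measurable fun u : SL n => g * u := (continuous_const.mul continuous_id).measurable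
    rw [Measure.map_apply hm hS']
    have h1 : (fun u => g * u) ⁻¹' S = (fun x => g⁻¹ * x) '' S := by
      rw [Set.image_mul_left, inv_inv]
    rw [h1]
    exact hl g⁻¹ S hS'
  · obtain ⟨c, -, -, hcS⟩ := hr k⁻¹
    have hU := hcS _ (CB1_open (n := n)).measurableSet
    rw [CB1_inv k hk] at hU
    obtain ⟨K, hK, hUK⟩ := CB1_cpt (n := n)
    have hfin : ν {u : SL n | (u.1 * u.1ᵀ).trace < n + 1} ≠ ⊤ :=
      ne_top_of_le_ne_top (hc K hK).ne (measure_mono hUK)
    have hpos : ν {u : SL n | (u.1 * u.1ᵀ).trace < n + 1} ≠ 0 :=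
      (ho _ CB1_open ⟨1, CB1_one⟩).ne'
    have hc1 : c = 1 := by
      have h2 : 1 * ν {u : SL n | (u.1 * u.1ᵀ).trace < n + 1} =
          c * ν {u : SL n | (u.1 * u.1ᵀ).trace < n + 1} := by rw [one_mul]; exact hU
      exact ((ENNReal.mul_left_inj hpos hfin).1 h2).symm
    ext S hS'
    have hm : Measurable fun u : SL n => u * k := (continuous_id.mul continuous_const).measurable
    rw [Measure.map_apply hm hS']
    have h1 : (fun u => u * k) ⁻¹' S = (fun x => x * k⁻¹) '' S := by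
      rw [Set.image_mul_right, inv_inv]
    rw [h1]
    have h3 := hcS S hS'
    rw [hc1, one_mul] at h3
    exact h3

end FL27
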