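import Pool.Agent.LibFL27.CDefs

set_option autoImplicit false
set_option maxSynthPendingDepth 3

open Matrix MeasureTheory Topology Filter LibNC38
open LibNC27 hiding Mt
open scoped Matrix.Norms.Elementwise ContDiff

namespace FL27

private theorem CB2_ort_inv {n : ℕ} {a : SL n} (ha : Ort a) : Ort a⁻¹ := by
  have h1 : (a⁻¹ * a).1 = (1 : SL n).1 := by rw [inv_mul_cancel]
  have h2 : (a⁻¹).1 * a.1 = 1 := h1
  have h3 : (a⁻¹).1 = a.1ᵀ := by
    calc (a⁻¹).1 = (a⁻¹).1 * (a.1 * a.1ᵀ) := by rw [ha, Matrix.mul_one]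
      _ = a.1ᵀ := by rw [← Matrix.mul_assoc, h2, Matrix.one_mul]
  unfold Ort
  rw [h3, Matrix.transpose_transpose]
  exact mul_eq_one_comm.1 ha

private theorem CB2_emb {n : ℕ} : IsClosedEmbedding (fun u : SL n => u.1) := by
  have hc : IsClosed {A : Mt n | A.det = 1} :=
    isClosed_eq (Continuous.matrix_det continuous_id) continuous_const
  exact hc.isClosedEmbedding_subtypeVal

private theorem CB2_cont {n : ℕ} {κ : Mt n → ℝ} (hκ : Continuous κ) :
    Continuous (fun u : SL n => κ u.1) := hκ.comp CB2_emb.continuous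

private theorem CB2_supp {n : ℕ} {κ : Mt n → ℝ} (hs : HasCompactSupport κ) :
    HasCompactSupport (fun u : SL n => κ u.1) := hs.comp_isClosedEmbedding CB2_emb

private theorem CB2_left {n : ℕ} (ν : Measure (SL n)) (hν : HK ν) (h : SL n → ℝ) (g : SL n) :
    ∫ u, h (g * u) ∂ν = ∫ u, h u ∂ν := by
  have e := (Homeomorph.mulLeft g).measurableEmbedding.integral_map (μ := ν) h
  have e2 : Measure.map (⇑(Homeomorph.mulLeft g)) ν = ν := hν.left g
  rw [e2] at e
  exact e.symm

private theorem CB2_right {n : ℕ} (ν : Measure (SL n)) (hν : HK ν) (h : SL n → ℝ) (k : SL n)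
    (hk : Ort k) : ∫ u, h (u * k) ∂ν = ∫ u, h u ∂ν := by
  have e := (Homeomorph.mulRight k).measurableEmbedding.integral_map (μ := ν) h
  have e2 : Measure.map (⇑(Homeomorph.mulRight k)) ν = ν := hν.ort k hk
  rw [e2] at e
  exact e.symm

private theorem CB2_both {n : ℕ} (ν : Measure (SL n)) (hν : HK ν) (f : SL n → ℝ) (k k' : SL n)
    (hk' : Ort k') : ∫ u, f (k * u * k') ∂ν = ∫ u, f u ∂ν := by
  rw [CB2_left ν hν (fun u => f (u * k')) k, CB2_right ν hν f k' hk']

private theorem CB2_int {n : ℕ} (ν : Measure (SL n)) (hν : HK ν) (κ : Mt n → ℝ) (F : Fn n)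
    (hκ : Continuous κ) (hs : HasCompactSupport κ) (hF : Continuous F) (g : SL n) :
    Integrable (fun u : SL n => κ u.1 * F (g * u)) ν := by
  have : IsFiniteMeasureOnCompacts ν := ⟨fun {K} hK => hν.fin K hK⟩
  refine Continuous.integrable_of_hasCompactSupport ?_ ?_
  · exact (CB2_cont hκ).mul (hF.comp (continuous_const.mul continuous_id))
  · exact (CB2_supp hs).mul_right

private theorem CB2_cv {n : ℕ} (ν : Measure (SL n)) (hν : HK ν) (κ : Mt n → ℝ) (F : Fn n)
    (hκ : Continuous κ) (hs : HasCompactSupport κ) (hF : Continuous F) :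
    Continuous (cv ν κ F) := by
  have : IsFiniteMeasureOnCompacts ν := ⟨fun {K} hK => hν.fin K hK⟩
  have h := continuousOn_integral_of_compact_support (μ := ν) (s := (Set.univ : Set (SL n)))
    (f := fun (g : SL n) (u : SL n) => κ u.1 * F (g * u)) (k := tsupport fun u : SL n => κ u.1)
    (CB2_supp hs) ?_ ?_
  · exact continuousOn_univ.1 h
  · refine Continuous.continuousOn ?_
    exact ((CB2_cont hκ).comp continuous_snd).mul (hF.comp (continuous_fst.mul continuous_snd))
  · intro p x _ hx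
    have : κ x.1 = 0 := by
      by_contra h0
      exact hx (subset_tsupport _ h0)
    show κ x.1 * F (p * x) = 0
    rw [this, zero_mul]

/-- Row CB2. Elementary facts on the convolution. PLAN. Change of variables `u ↦ g⁻¹ u` (`HK.left`), `u ↦ k⁻¹ u k`
(`HK.left`, `HK.ort`); continuity of `cv` (kernel with compact support: for `g` in a compact set everything happens on
a compact set; `continuous_of_dominated`); `SL n` is closed in the matrices, so `{u | κ u.1 ≠ 0}` has compact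
closure. Linearity in `F`, `κ`. -/
theorem cv_facts {n : ℕ} (ν : Measure (SL n)) (hν : HK ν) :
    (∀ (κ : Mt n → ℝ) (F : Fn n), Continuous κ → HasCompactSupport κ → Continuous F →
      (∀ g : SL n, Integrable (fun u : SL n => κ u.1 * F (g * u)) ν) ∧ Continuous (cv ν κ F)) ∧
    (∀ (κ : Mt n → ℝ) (F : Fn n) (g : SL n), cv ν κ F g = ∫ u : SL n, κ (g⁻¹ * u).1 * F u ∂ν) ∧
    (∀ (κ : Mt n → ℝ) (F : Fn n) (γ g : SL n), cv ν κ (fun q => F (γ * q)) g = cv ν κ F (γ * g)) ∧
    (∀ (κ : Mt n → ℝ) (F : Fn n) (k g : SL n), Ort k → (∀ u : SL n, κ (k * u * k⁻¹).1 = κ u.1) →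
      cv ν κ (fun q => F (q * k)) g = cv ν κ F (g * k)) ∧
    (∀ (f : SL n → ℝ) (k k' : SL n), Ort k → Ort k' → ∫ u, f (k * u * k') ∂ν = ∫ u, f u ∂ν) ∧
    (∀ (κ : Mt n → ℝ) (F G : Fn n) (r : ℝ), Continuous κ → HasCompactSupport κ → Continuous F →
      Continuous G → (∀ g, cv ν κ (fun q => F q + G q) g = cv ν κ F g + cv ν κ G g) ∧
        (∀ g, cv ν κ (fun q => r * F q) g = r * cv ν κ F g)) := by
  refine ⟨fun κ F hκ hs hF => ⟨CB2_int ν hν κ F hκ hs hF, CB2_cv ν hν κ F hκ hs hF⟩, ?_, ?_, ?_,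
    fun f k k' _ hk' => CB2_both ν hν f k k' hk', ?_⟩
  · intro κ F g
    rw [← CB2_left ν hν (fun u => κ (g⁻¹ * u).1 * F u) g]
    show ∫ u : SL n, κ u.1 * F (g * u) ∂ν = ∫ u : SL n, κ (g⁻¹ * (g * u)).1 * F (g * u) ∂ν
    refine integral_congr_ae (Eventually.of_forall fun u => ?_)
    show κ u.1 * F (g * u) = κ (g⁻¹ * (g * u)).1 * F (g * u)
    rw [inv_mul_cancel_left]
  · intro κ F γ g
    show ∫ u : SL n, κ u.1 * F (γ * (g * u)) ∂ν = ∫ u : SL n, κ u.1 * F (γ * g * u) ∂ν
    refine integral_congr_ae (Eventually.of_forall fun u => ?_)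
    show κ u.1 * F (γ * (g * u)) = κ u.1 * F (γ * g * u)
    rw [mul_assoc]
  · intro κ F k g hk hc
    show ∫ u : SL n, κ u.1 * F (g * u * k) ∂ν = ∫ u : SL n, κ u.1 * F (g * k * u) ∂ν
    rw [← CB2_both ν hν (fun u => κ u.1 * F (g * u * k)) k k⁻¹ (CB2_ort_inv hk)]
    refine integral_congr_ae (Eventually.of_forall fun u => ?_)
    show κ (k * u * k⁻¹).1 * F (g * (k * u * k⁻¹) * k) = κ u.1 * F (g * k * u)
    rw [hc u]
    have : g * (k * u * k⁻¹) * k = g * k * u := by group
    rw [this]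
  · intro κ F G r hκ hs hF hG
    constructor
    · intro g
      show ∫ u : SL n, κ u.1 * (F (g * u) + G (g * u)) ∂ν =
        ∫ u : SL n, κ u.1 * F (g * u) ∂ν + ∫ u : SL n, κ u.1 * G (g * u) ∂ν
      rw [← integral_add (CB2_int ν hν κ F hκ hs hF g) (CB2_int ν hν κ G hκ hs hG g)]
      refine integral_congr_ae (Eventually.of_forall fun u => ?_)
      exact mul_add _ _ _
    · intro g
      show ∫ u : SL n, κ u.1 * (r * F (g * u)) ∂ν = r * ∫ u : SL n, κ u.1 * F (g * u) ∂ν
      rw [← integral_const_mul]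
      refine integral_congr_ae (Eventually.of_forall fun u => ?_)
      exact mul_left_comm _ _ _

end FL27
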