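import Pool.Agent.LibFL27.CDefs
import Pool.Agent.LibFL27.CA2
import Pool.Agent.LibFL27.CB2

set_option autoImplicit false
set_option maxSynthPendingDepth 3

open Matrix MeasureTheory Topology Filter LibNC38
open LibNC27 hiding Mt
open scoped Matrix.Norms.Elementwise ContDiff

namespace FL27

private theorem CB3b_lin {n : ℕ} (G : Mt n →ₗ[ℝ] Fn n) (z : Mt n) (q : SL n) :
    G z q = ∑ a, ∑ b, z a b * G (Matrix.single a b 1) q := by
  have h : z = ∑ a, ∑ b, z a b • (Matrix.single a b 1 : Mt n) := by
    conv_lhs => rw [Matrix.matrix_eq_sum_single z]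
    refine Finset.sum_congr rfl fun a _ => Finset.sum_congr rfl fun b _ => ?_
    rw [Matrix.smul_single, smul_eq_mul, mul_one]
  conv_lhs => rw [h]
  rw [map_sum, Finset.sum_apply]
  refine Finset.sum_congr rfl fun a _ => ?_
  rw [map_sum, Finset.sum_apply]
  refine Finset.sum_congr rfl fun b _ => ?_
  rw [map_smul, Pi.smul_apply, smul_eq_mul]

private theorem CB3b_ke {n : ℕ} (κ : Mt n → ℝ) (hκ : Continuous κ) (hc : HasCompactSupport κ)
    (y : Mt n) (a b : Fin n) : Continuous (fun A : Mt n => κ A * (A.adjugate * y * A) a b) ∧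
      HasCompactSupport (fun A : Mt n => κ A * (A.adjugate * y * A) a b) := by
  constructor
  · have h1 : Continuous fun A : Mt n => A.adjugate * y * A :=
      ((continuous_id.matrix_adjugate).matrix_mul continuous_const).matrix_mul continuous_id
    exact hκ.mul (h1.matrix_elem a b)
  · exact hc.mul_right

private theorem CB3b_cpt {n : ℕ} (κ : Mt n → ℝ) (hc : HasCompactSupport κ) :
    IsCompact {u : SL n | u.1 ∈ tsupport κ} := by
  have hce : IsClosedEmbedding ((↑) : SL n → Matrix (Fin n) (Fin n) ℝ) :=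
    Matrix.SpecialLinearGroup.isClosedEmbedding_val
  exact hce.isCompact_preimage hc

private theorem CB3b_curve {n : ℕ} (y : Mt n) (hy : y.trace = 0) (g u : SL n) (s : ℝ) :
    g * ex (s • y) * u = g * u * ex (s • (u.1.adjugate * y * u.1)) := by
  obtain ⟨-, -, -, -, x5, -⟩ := ex_facts (n := n)
  have hty : (s • y).trace = 0 := by rw [Matrix.trace_smul, hy, smul_zero]
  have h := x5 (s • y) hty u⁻¹
  rw [inv_inv, Matrix.SpecialLinearGroup.coe_inv, Matrix.mul_smul, Matrix.smul_mul] at h
  rw [← h]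
  group

private theorem CB3b_tr {n : ℕ} (y : Mt n) (hy : y.trace = 0) (u : SL n) :
    (u.1.adjugate * y * u.1).trace = 0 := by
  have h1 : u.1 * u.1.adjugate = 1 := by
    rw [Matrix.mul_adjugate, u.2, one_smul]
  rw [Matrix.trace_mul_comm, ← Matrix.mul_assoc, h1, Matrix.one_mul, hy]

private theorem CB3b_diff {n : ℕ} (ν : Measure (SL n)) (hν : HK ν) (κ : Mt n → ℝ)
    (hκ : Continuous κ) (hc : HasCompactSupport κ) (F : Fn n) (hF : Continuous F)
    (G : Mt n →ₗ[ℝ] Fn n) (hG : ∀ v, Continuous (G v))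
    (hFG : ∀ x : Mt n, x.trace = 0 → RD x F (G x)) (y : Mt n) (hy : y.trace = 0) (g : SL n) :
    HasDerivAt (fun t : ℝ => cv ν κ F (g * ex (t • y))) (∑ a, ∑ b,
      cv ν (fun A => κ A * (A.adjugate * y * A) a b) (G (Matrix.single a b 1)) g) 0 := by
  obtain ⟨hT, hL, hS, hGrp, -⟩ := SL_top (n := n)
  obtain ⟨c1, -, -, -, -, -⟩ := cv_facts ν hν
  obtain ⟨-, -, -, x4, -, x6⟩ := ex_facts (n := n)
  obtain ⟨-, r2, -⟩ := rd_rules (n := n)
  obtain ⟨Ψ, hΨ⟩ : ∃ Ψ : ℝ → SL n → ℝ, ∀ t u, Ψ t u = ∑ a, ∑ b,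
      (u.1.adjugate * y * u.1) a b * G (Matrix.single a b 1) (g * ex (t • y) * u) :=
    ⟨_, fun _ _ => rfl⟩
  have hcont : Continuous fun p : ℝ × SL n => Ψ p.1 p.2 := by
    simp only [hΨ]
    refine continuous_finsetSum _ fun a _ => continuous_finsetSum _ fun b _ => ?_
    have h2 : Continuous fun p : ℝ × SL n => p.2.1 := continuous_subtype_val.comp continuous_snd
    have h1 : Continuous fun p : ℝ × SL n => p.2.1.adjugate * y * p.2.1 :=
      ((h2.matrix_adjugate).matrix_mul continuous_const).matrix_mul h2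
    have h3 : Continuous fun p : ℝ × SL n => g * ex (p.1 • y) * p.2 :=
      (continuous_const.mul ((x6 y hy).comp continuous_fst)).mul continuous_snd
    exact (h1.matrix_elem a b).mul ((hG _).comp h3)
  obtain ⟨B, hB⟩ := (isCompact_Icc (a := (-1 : ℝ)) (b := 1)).prod (CB3b_cpt κ hc)
    |>.exists_bound_of_continuousOn hcont.continuousOn
  have hone := (c1 κ (fun _ => (1 : ℝ)) hκ hc continuous_const).1 1
  have hmeas : ∀ t : ℝ, Continuous fun u : SL n => κ u.1 * Ψ t u := fun t =>
    (hκ.comp continuous_subtype_val).mul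
      (hcont.comp (continuous_const.prodMk continuous_id))
  have key := hasDerivAt_integral_of_dominated_loc_of_deriv_le (μ := ν) (𝕜 := ℝ)
    (F := fun (t : ℝ) (u : SL n) => κ u.1 * F (g * ex (t • y) * u))
    (F' := fun (t : ℝ) (u : SL n) => κ u.1 * Ψ t u) (x₀ := 0) (s := Set.Icc (-1 : ℝ) 1)
    (bound := fun u : SL n => ‖κ u.1 * 1‖ * |B|)
    (Icc_mem_nhds (by norm_num) (by norm_num))
    (Filter.Eventually.of_forall fun t =>
      ((c1 κ F hκ hc hF).1 (g * ex (t • y))).aestronglyMeasurable)
    ((c1 κ F hκ hc hF).1 (g * ex ((0 : ℝ) • y)))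
    ((hmeas 0).aestronglyMeasurable)
    (Filter.Eventually.of_forall fun u t ht => by
      rw [mul_one, norm_mul]
      by_cases hu : κ u.1 = 0
      · rw [hu]
        simp
      · refine mul_le_mul_of_nonneg_left ?_ (norm_nonneg _)
        exact (hB (t, u) ⟨ht, subset_tsupport κ hu⟩).trans (le_abs_self B))
    (hone.norm.mul_const _)
    (Filter.Eventually.of_forall fun u t _ => by
      have h1 := r2 (u.1.adjugate * y * u.1) F (G (u.1.adjugate * y * u.1)) (CB3b_tr y hy u)
        (hFG _ (CB3b_tr y hy u)) (g * u) t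
      have h2 : (fun s : ℝ => κ u.1 * F (g * ex (s • y) * u)) =
          fun s : ℝ => κ u.1 * F (g * u * ex (s • (u.1.adjugate * y * u.1))) := by
        funext s
        rw [CB3b_curve y hy g u s]
      rw [h2, hΨ, ← CB3b_lin, CB3b_curve y hy g u t]
      exact h1.const_mul _)
  have h3 := key.2
  have h4 : ∫ u : SL n, κ u.1 * Ψ 0 u ∂ν = ∑ a, ∑ b,
      cv ν (fun A => κ A * (A.adjugate * y * A) a b) (G (Matrix.single a b 1)) g := by
    have h5 : ∀ a b, Integrable (fun u : SL n => κ u.1 * (u.1.adjugate * y * u.1) a b *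
        G (Matrix.single a b 1) (g * u)) ν := fun a b =>
      (c1 _ (G (Matrix.single a b 1)) (CB3b_ke κ hκ hc y a b).1 (CB3b_ke κ hκ hc y a b).2
        (hG _)).1 g
    have h6 : (fun u : SL n => κ u.1 * Ψ 0 u) = fun u : SL n => ∑ a, ∑ b,
        κ u.1 * (u.1.adjugate * y * u.1) a b * G (Matrix.single a b 1) (g * u) := by
      funext u
      rw [hΨ, zero_smul, x4, mul_one, Finset.mul_sum]
      refine Finset.sum_congr rfl fun a _ => ?_
      rw [Finset.mul_sum]
      refine Finset.sum_congr rfl fun b _ => ?_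
      ring
    rw [h6, integral_finsetSum _ fun a _ => integrable_finsetSum _ fun b _ => h5 a b]
    refine Finset.sum_congr rfl fun a _ => ?_
    rw [integral_finsetSum _ fun b _ => h5 a b]
    rfl
  rw [h4] at h3
  exact h3

/-- Row CB3b. First derivative of the convolution, all on `F` (part of the proof of CB3, needed separately). `ad u x`
is the matrix `u⁻¹ x u`. PLAN. See CB3 (`κ` continuous with compact support, `F` of class `C¹` with the linear
derivative `G`, `G v` continuous). -/
theorem cv_rd_F {n : ℕ} (ν : Measure (SL n)) (hν : HK ν) (κ : Mt n → ℝ) (hκ : Continuous κ)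
    (hc : HasCompactSupport κ) (F : Fn n) (hF : Continuous F) (G : Mt n →ₗ[ℝ] Fn n)
    (hG : ∀ v, Continuous (G v)) (hFG : ∀ x : Mt n, x.trace = 0 → RD x F (G x)) (x : Mt n)
    (hx : x.trace = 0) :
    RD x (cv ν κ F) (fun g => ∑ a, ∑ b,
      cv ν (fun A => κ A * (A.adjugate * x * A) a b) (G (Matrix.single a b 1)) g) := by
  obtain ⟨c1, -, -, -, -, -⟩ := cv_facts ν hν
  have h5 : ∀ (y : Mt n) (a b : Fin n) (g : SL n),
      Integrable (fun u : SL n => κ u.1 * (u.1.adjugate * y * u.1) a b *
        G (Matrix.single a b 1) (g * u)) ν := fun y a b g =>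
    (c1 _ (G (Matrix.single a b 1)) (CB3b_ke κ hκ hc y a b).1 (CB3b_ke κ hκ hc y a b).2
      (hG _)).1 g
  obtain ⟨H, hH⟩ : ∃ H : Mt n →ₗ[ℝ] Fn n, ∀ y g, H y g = ∑ a, ∑ b,
      cv ν (fun A => κ A * (A.adjugate * y * A) a b) (G (Matrix.single a b 1)) g := by
    refine ⟨{ toFun := fun y g => ∑ a, ∑ b,
                cv ν (fun A => κ A * (A.adjugate * y * A) a b) (G (Matrix.single a b 1)) g
              map_add' := ?_
              map_smul' := ?_ }, fun y g => rfl⟩
    · intro y y'
      funext g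
      rw [Pi.add_apply, ← Finset.sum_add_distrib]
      refine Finset.sum_congr rfl fun a _ => ?_
      rw [← Finset.sum_add_distrib]
      refine Finset.sum_congr rfl fun b _ => ?_
      unfold cv
      rw [← integral_add (h5 y a b g) (h5 y' a b g)]
      refine integral_congr_ae (Filter.Eventually.of_forall fun u => ?_)
      simp only [Matrix.mul_add, Matrix.add_mul, Matrix.add_apply]
      ring
    · intro r y
      funext g
      rw [RingHom.id_apply, Pi.smul_apply, smul_eq_mul, Finset.mul_sum]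
      refine Finset.sum_congr rfl fun a _ => ?_
      rw [Finset.mul_sum]
      refine Finset.sum_congr rfl fun b _ => ?_
      unfold cv
      rw [← integral_const_mul]
      refine integral_congr_ae (Filter.Eventually.of_forall fun u => ?_)
      simp only [Matrix.mul_smul, Matrix.smul_mul, Matrix.smul_apply, smul_eq_mul]
      ring
  have hHc : ∀ y, Continuous (H y) := by
    intro y
    have e : H y = fun g => ∑ a, ∑ b,
        cv ν (fun A => κ A * (A.adjugate * y * A) a b) (G (Matrix.single a b 1)) g := by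
      funext g
      exact hH y g
    rw [e]
    exact continuous_finsetSum _ fun a _ => continuous_finsetSum _ fun b _ =>
      (c1 _ (G (Matrix.single a b 1)) (CB3b_ke κ hκ hc y a b).1 (CB3b_ke κ hκ hc y a b).2
        (hG _)).2
  have hres := rd_crit (cv ν κ F) H hHc (fun y hy g => by
    rw [hH]
    exact CB3b_diff ν hν κ hκ hc F hF G hG hFG y hy g) x hx
  have e : H x = fun g => ∑ a, ∑ b,
      cv ν (fun A => κ A * (A.adjugate * x * A) a b) (G (Matrix.single a b 1)) g := by
    funext g
    exact hH x g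
  rw [e] at hres
  exact hres

end FL27
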