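import Pool.Agent.LibFL27.CDefs
import Pool.Agent.LibFL27.CB3b
import Pool.Agent.LibFL27.CA4

set_option autoImplicit false
set_option maxSynthPendingDepth 3

open Matrix MeasureTheory Topology Filter LibNC38
open LibNC27 hiding Mt
open scoped Matrix.Norms.Elementwise ContDiff

namespace FL27

private theorem CB3_bd (n : ℕ) (R : ℝ) : ∃ K : ℝ, 0 ≤ K ∧ ∀ A x : Mt n, (∀ a b, |A a b| ≤ R) →
    (∀ a b, |x a b| ≤ 1) → ∀ a b, |(A.adjugate * x * A) a b| ≤ K := by
  have hc : IsCompact (Metric.closedBall (0 : Mt n) |R| ×ˢ Metric.closedBall (0 : Mt n) 1) :=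
    (isCompact_closedBall _ _).prod (isCompact_closedBall _ _)
  have hf : Continuous fun p : Mt n × Mt n => p.1.adjugate * p.2 * p.1 :=
    ((continuous_fst.matrix_adjugate).matrix_mul continuous_snd).matrix_mul continuous_fst
  obtain ⟨K, hK⟩ := hc.exists_bound_of_continuousOn hf.continuousOn
  refine ⟨|K|, abs_nonneg _, fun A x hA hx a b => ?_⟩
  have h1 : A ∈ Metric.closedBall (0 : Mt n) |R| := by
    rw [mem_closedBall_zero_iff, Matrix.norm_le_iff (abs_nonneg R)]
    exact fun i j => (hA i j).trans (le_abs_self R)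
  have h2 : x ∈ Metric.closedBall (0 : Mt n) 1 := by
    rw [mem_closedBall_zero_iff, Matrix.norm_le_iff zero_le_one]
    exact fun i j => hx i j
  have h3 := hK (A, x) ⟨h1, h2⟩
  have h4 : ‖(A.adjugate * x * A) a b‖ ≤ ‖A.adjugate * x * A‖ := Matrix.norm_entry_le_entrywise_sup_norm _
  rw [Real.norm_eq_abs] at h4
  exact h4.trans (h3.trans (le_abs_self K))

private theorem CB3_int {n : ℕ} (ν : Measure (SL n)) (hν : HK ν) (κ : Mt n → ℝ)
    (hκ : Continuous κ) (hc : HasCompactSupport κ) : Integrable (fun u : SL n => κ u.1) ν := by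
  have h := ((cv_facts ν hν).1 κ (fun _ => 1) hκ hc continuous_const).1 1
  simpa using h

private theorem CB3_G {n : ℕ} (G : Mt n →ₗ[ℝ] Fn n) (h : ∀ a b, Continuous (G (Matrix.single a b 1)))
    (v : Mt n) : Continuous (G v) := by
  have h1 : G v = fun g => ∑ a, ∑ b, v a b * G (Matrix.single a b 1) g := by
    conv_lhs => rw [Matrix.matrix_eq_sum_single v]
    funext g
    rw [map_sum, Finset.sum_apply]
    refine Finset.sum_congr rfl fun a _ => ?_
    rw [map_sum, Finset.sum_apply]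
    refine Finset.sum_congr rfl fun b _ => ?_
    have h2 : Matrix.single a b (v a b) = v a b • Matrix.single a b (1 : ℝ) := by
      rw [Matrix.smul_single, smul_eq_mul, mul_one]
    rw [h2, map_smul, Pi.smul_apply, smul_eq_mul]
  rw [h1]
  exact continuous_finsetSum _ fun a _ => continuous_finsetSum _ fun b _ =>
    continuous_const.mul (h a b)

private theorem CB3_cont {n : ℕ} {θ : ℝ} {k : ℕ} {M : ℝ} {F : Fn n} (h : WB θ k M F) :
    Continuous F ∧ ∀ g, |F g| ≤ M := by
  cases k with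
  | zero => exact h
  | succ k => exact h.1

/-- Row CB3. Convolution preserves scaled bounds. PLAN. Induction over `k` for all `κ`, `F`. Order 0: clear. Along
`x` the derivative of `g ↦ F (g u)` is `(G (u⁻¹ x u)) (g u)` (`G` from `wb_lin`), so with
`κ_ab(A) = κ(A) (adjugate A * x * A)_ab` (continuous, support in that of `κ`, `|κ_ab| ≤ C_R |κ|`) the derivative of
`cv κ F` is `∑_ab cv κ_ab (G e_ab)`. Proof of `RD`: `rd_crit` with the linear map
`x ↦ ∑_ab cv κ_ab^x (G e_ab)`; along exponential curves `F (g ex(t x) u) = F (g u ex(t u⁻¹ x u))` has derivative at every `t`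
(`rd_rules` 2), bounded on the support: `hasDerivAt_integral_of_dominated_loc_of_deriv_le`. -/
theorem cv_wb {n : ℕ} (ν : Measure (SL n)) (hν : HK ν) (k : ℕ) (R : ℝ) : ∃ C : ℝ, 1 ≤ C ∧
    ∀ (κ : Mt n → ℝ), Continuous κ → HasCompactSupport κ →
    (∀ u : SL n, κ u.1 ≠ 0 → ∀ a b, |u.1 a b| ≤ R) → ∀ (θ M : ℝ) (F : Fn n), 1 ≤ θ → 0 ≤ M →
    WB θ k M F → WB θ k (C * (∫ u : SL n, |κ u.1| ∂ν) * M) (cv ν κ F) := by
  obtain ⟨K, hK0, hK⟩ := CB3_bd n R
  -- order 0
  have base : ∀ (C : ℝ), 1 ≤ C → ∀ (κ : Mt n → ℝ), Continuous κ → HasCompactSupport κ →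
      ∀ (M : ℝ) (F : Fn n), 0 ≤ M → Continuous F → (∀ g, |F g| ≤ M) →
      Continuous (cv ν κ F) ∧ ∀ g, |cv ν κ F g| ≤ C * (∫ u : SL n, |κ u.1| ∂ν) * M := by
    intro C hC κ hκ hc M F hM hF hFM
    have h1 := (cv_facts ν hν).1 κ F hκ hc hF
    refine ⟨h1.2, fun g => ?_⟩
    have hi : Integrable (fun u : SL n => |κ u.1|) ν := (CB3_int ν hν κ hκ hc).abs
    have h2 : ‖cv ν κ F g‖ ≤ ∫ u : SL n, |κ u.1| * M ∂ν := by
      unfold cv
      refine norm_integral_le_of_norm_le (hi.mul_const M) (Eventually.of_forall fun u => ?_)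
      rw [norm_mul, Real.norm_eq_abs, Real.norm_eq_abs]
      exact mul_le_mul_of_nonneg_left (hFM _) (abs_nonneg _)
    rw [integral_mul_const, Real.norm_eq_abs] at h2
    have h3 : 0 ≤ ∫ u : SL n, |κ u.1| ∂ν := integral_nonneg fun u => abs_nonneg _
    have h4 : (∫ u : SL n, |κ u.1| ∂ν) * M ≤ C * ((∫ u : SL n, |κ u.1| ∂ν) * M) :=
      le_mul_of_one_le_left (mul_nonneg h3 hM) hC
    calc |cv ν κ F g| ≤ (∫ u : SL n, |κ u.1| ∂ν) * M := h2
      _ ≤ C * ((∫ u : SL n, |κ u.1| ∂ν) * M) := h4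
      _ = C * (∫ u : SL n, |κ u.1| ∂ν) * M := by ring
  induction k with
  | zero =>
    refine ⟨1, le_refl 1, fun κ hκ hc _ θ M F _ hM hF => ?_⟩
    exact base 1 (le_refl 1) κ hκ hc M F hM hF.1 hF.2
  | succ k ih =>
    obtain ⟨C, hC, ih⟩ := ih
    set C' : ℝ := 1 + (n : ℝ) * ((n : ℝ) * (C * K * 2)) with hC'
    have hC'1 : 1 ≤ C' := by
      have : 0 ≤ (n : ℝ) * ((n : ℝ) * (C * K * 2)) := by positivity
      linarith
    refine ⟨C', hC'1, fun κ hκ hc hR θ M F hθ hM hF => ?_⟩
    have hθ0 : 0 ≤ θ := zero_le_one.trans hθ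
    have hcF := CB3_cont hF
    refine ⟨base C' hC'1 κ hκ hc M F hM hcF.1 hcF.2, fun x hx => ?_⟩
    obtain ⟨G, hG1, -, hG3, -⟩ := wb_lin θ k M F hF
    have hBx : ∀ a b : Fin n, Bx (Matrix.single a b (1 : ℝ)) := by
      intro a b i j
      rw [Matrix.single_apply]
      split_ifs <;> simp
    have hGc : ∀ v, Continuous (G v) := CB3_G G fun a b => (CB3_cont (hG3 _ (hBx a b))).1
    refine ⟨_, cv_rd_F ν hν κ hκ hc F hcF.1 G hGc hG1 x hx.1, ?_⟩
    set I : ℝ := ∫ u : SL n, |κ u.1| ∂ν with hI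
    have hI0 : 0 ≤ I := integral_nonneg fun u => abs_nonneg _
    -- each term
    have hterm : ∀ a b : Fin n, WB θ k (C * (K * I) * (2 * (M * θ)))
        (cv ν (fun A => κ A * (A.adjugate * x * A) a b) (G (Matrix.single a b 1))) := by
      intro a b
      have hadj : Continuous fun A : Mt n => (A.adjugate * x * A) a b :=
        (((continuous_id.matrix_adjugate).matrix_mul continuous_const).matrix_mul
          continuous_id).matrix_elem a b
      have hκ' : Continuous fun A : Mt n => κ A * (A.adjugate * x * A) a b := hκ.mul hadj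
      have hc' : HasCompactSupport fun A : Mt n => κ A * (A.adjugate * x * A) a b :=
        hc.mul_right
      have h1 := ih (fun A => κ A * (A.adjugate * x * A) a b) hκ' hc'
        (fun u hu => hR u (left_ne_zero_of_mul hu)) θ (2 * (M * θ)) (G (Matrix.single a b 1)) hθ
        (by positivity) (hG3 _ (hBx a b))
      have h2 : ∫ u : SL n, |κ u.1 * (u.1.adjugate * x * u.1) a b| ∂ν ≤ K * I := by
        rw [hI, ← integral_const_mul]
        refine integral_mono (CB3_int ν hν _ hκ' hc').abs ((CB3_int ν hν κ hκ hc).abs.const_mul K)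
          fun u => ?_
        show |κ u.1 * (u.1.adjugate * x * u.1) a b| ≤ K * |κ u.1|
        rw [abs_mul]
        by_cases hu : κ u.1 = 0
        · rw [hu]; simp
        · rw [mul_comm K]
          exact mul_le_mul_of_nonneg_left (hK u.1 x (hR u hu) hx.2 a b) (abs_nonneg _)
      have h0 : 0 ≤ ∫ u : SL n, |κ u.1 * (u.1.adjugate * x * u.1) a b| ∂ν :=
        integral_nonneg fun u => abs_nonneg _
      have hC0 : 0 ≤ C := zero_le_one.trans hC
      refine (wb_alg (n := n)).2.1 θ θ k _ _ _ hθ0 (le_refl θ) ?_ ?_ h1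
      · exact mul_le_mul_of_nonneg_right (mul_le_mul_of_nonneg_left h2 hC0) (by positivity)
      · exact mul_nonneg (mul_nonneg hC0 h0) (by positivity)
    have hsum := (wb_alg (n := n)).2.2.2.2.2.2.1
    have hin : ∀ a : Fin n, WB θ k ((n : ℝ) * (C * (K * I) * (2 * (M * θ)))) (fun g => ∑ b,
        cv ν (fun A => κ A * (A.adjugate * x * A) a b) (G (Matrix.single a b 1)) g) := by
      intro a
      have h1 := hsum θ k (C * (K * I) * (2 * (M * θ))) (Fin n) Finset.univ
        (fun b => cv ν (fun A => κ A * (A.adjugate * x * A) a b) (G (Matrix.single a b 1)))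
        hθ0 (fun b _ => hterm a b)
      rwa [Finset.card_univ, Fintype.card_fin] at h1
    have hout := hsum θ k ((n : ℝ) * (C * (K * I) * (2 * (M * θ)))) (Fin n) Finset.univ
        (fun a g => ∑ b, cv ν (fun A => κ A * (A.adjugate * x * A) a b)
          (G (Matrix.single a b 1)) g) hθ0 (fun a _ => hin a)
    rw [Finset.card_univ, Fintype.card_fin] at hout
    have hC0 : 0 ≤ C := zero_le_one.trans hC
    refine (wb_alg (n := n)).2.1 θ θ k _ _ _ hθ0 (le_refl θ) ?_ (by positivity) hout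
    have e1 : (n : ℝ) * ((n : ℝ) * (C * (K * I) * (2 * (M * θ)))) =
        (n : ℝ) * ((n : ℝ) * (C * K * 2)) * (I * M * θ) := by ring
    have e2 : C' * I * M * θ = I * M * θ + (n : ℝ) * ((n : ℝ) * (C * K * 2)) * (I * M * θ) := by
      rw [hC']; ring
    rw [e1, e2]
    have : 0 ≤ I * M * θ := by positivity
    linarith

end FL27
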