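import Pool.Agent.LibFL27.CDefs
import Pool.Agent.LibFL27.CA2
import Pool.Agent.LibFL27.CB2
import Pool.Agent.LibFL27.CA5b

set_option autoImplicit false
set_option maxSynthPendingDepth 3

open Matrix MeasureTheory Topology Filter LibNC38
open LibNC27 hiding Mt
open scoped Matrix.Norms.Elementwise ContDiff

namespace FL27

private theorem CB4_gen {E : Type} [NormedAddCommGroup E] [NormedSpace ℝ E] (κ : E → ℝ)
    (hκ : ContDiff ℝ ∞ κ) (hc : HasCompactSupport κ) (L : E →L[ℝ] E) :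
    ContDiff ℝ ∞ (fun A => - fderiv ℝ κ A (L A)) ∧
      HasCompactSupport (fun A => - fderiv ℝ κ A (L A)) ∧
      ∀ A, A ∉ tsupport κ → - fderiv ℝ κ A (L A) = 0 := by
  refine ⟨?_, ?_, ?_⟩
  · have h1 : ContDiff ℝ ∞ (fderiv ℝ κ) := hκ.fderiv_right (by simp)
    exact (h1.clm_apply L.contDiff).neg
  · refine HasCompactSupport.mono (hc.fderiv (𝕜 := ℝ)) ?_
    intro A hA h0
    apply hA
    show - fderiv ℝ κ A (L A) = 0
    rw [h0]
    simp
  · intro A hA
    have h1 : fderiv ℝ κ A = 0 := by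
      by_contra h
      exact hA (support_fderiv_subset ℝ (by exact h))
    rw [h1]
    simp

private theorem CB4_lk3 {n : ℕ} (κ : Mt n → ℝ) (hκ : ContDiff ℝ ∞ κ) (hc : HasCompactSupport κ)
    (y : Mt n) : ContDiff ℝ ∞ (Lk y κ) ∧ HasCompactSupport (Lk y κ) ∧
      ∀ A, A ∉ tsupport κ → Lk y κ A = 0 := by
  let L : Mt n →ₗ[ℝ] Mt n :=
    { toFun := fun X => y * X
      map_add' := fun X Y => Matrix.mul_add _ _ _
      map_smul' := fun r X => by rw [Matrix.mul_smul]; rfl }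
  exact CB4_gen κ hκ hc (LinearMap.toContinuousLinearMap L)

private theorem CB4_lk {n : ℕ} (κ : Mt n → ℝ) (hκ : ContDiff ℝ ∞ κ) (hc : HasCompactSupport κ)
    (y : Mt n) : ContDiff ℝ ∞ (Lk y κ) ∧ HasCompactSupport (Lk y κ) :=
  ⟨(CB4_lk3 κ hκ hc y).1, (CB4_lk3 κ hκ hc y).2.1⟩

private theorem CB4_inv {n : ℕ} (y : Mt n) (hy : y.trace = 0) (t : ℝ) :
    (ex (t • y))⁻¹ = ex (t • (-y)) := by
  obtain ⟨-, h2, -, h4, -, -⟩ := ex_facts (n := n)
  have h5 := h2 y hy (-t) t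
  rw [neg_add_cancel, zero_smul, h4] at h5
  rw [smul_neg, ← neg_smul]
  exact (eq_inv_of_mul_eq_one_left h5.symm).symm

private theorem CB4_curve {n : ℕ} (κ : Mt n → ℝ) (hκ : ContDiff ℝ ∞ κ) (y : Mt n)
    (hy : y.trace = 0) (w : SL n) (t : ℝ) :
    HasDerivAt (fun s : ℝ => κ (ex (s • (-y)) * w).1) (Lk y κ (ex (t • (-y)) * w).1) t := by
  obtain ⟨h1, h2, h3, h4, -, -⟩ := ex_facts (n := n)
  have hy' : (-y).trace = 0 := by rw [Matrix.trace_neg, hy, neg_zero]
  have hty : (t • (-y)).trace = 0 := by rw [Matrix.trace_smul, hy', smul_zero]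
  have hcom : (ex (t • (-y))).1 * y = y * (ex (t • (-y))).1 := by
    rw [h1 _ hty]
    have hc1 : Commute y (t • (-y)) := ((Commute.refl y).neg_right).smul_right t
    exact (hc1.exp_right).eq.symm
  have hA : HasDerivAt (fun s : ℝ => (ex (s • (-y)) * w).1) (-(y * (ex (t • (-y)) * w).1)) t := by
    refine hasDerivAt_pi.2 fun a => hasDerivAt_pi.2 fun b => ?_
    have h5 : ∀ s : ℝ, (ex (s • (-y)) * w).1 a b = ∑ c, (1 * ex (s • (-y))).1 a c * w.1 c b := by
      intro s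
      rw [one_mul]
      exact Matrix.mul_apply
    have h6 : HasDerivAt (fun s : ℝ => ∑ c, (1 * ex (s • (-y))).1 a c * w.1 c b)
        (∑ c, ((1 * ex (t • (-y))).1 * (-y)) a c * w.1 c b) t :=
      HasDerivAt.fun_sum fun c _ => (h3 (-y) hy' 1 t a c).mul_const (w.1 c b)
    have h7 : (-(y * (ex (t • (-y)) * w).1)) a b =
        ∑ c, ((1 * ex (t • (-y))).1 * (-y)) a c * w.1 c b := by
      rw [← Matrix.mul_apply, one_mul, Matrix.mul_neg, hcom, Matrix.neg_mul, Matrix.mul_assoc]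
      rfl
    rw [h7]
    refine h6.congr_of_eventuallyEq ?_
    exact Filter.Eventually.of_forall h5
  have hk : HasFDerivAt κ (fderiv ℝ κ (ex (t • (-y)) * w).1) (ex (t • (-y)) * w).1 :=
    (hκ.differentiable (by simp)).differentiableAt.hasFDerivAt
  have h8 := hk.comp_hasDerivAt t hA
  have h9 : Lk y κ (ex (t • (-y)) * w).1 =
      fderiv ℝ κ (ex (t • (-y)) * w).1 (-(y * (ex (t • (-y)) * w).1)) := by
    rw [map_neg]
    rfl
  rw [h9]
  exact h8

private theorem CB4_hd {n : ℕ} (ν : Measure (SL n)) (hν : HK ν) (κ : Mt n → ℝ) (hκ : ContDiff ℝ ∞ κ)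
    (hc : HasCompactSupport κ) (F : Fn n) (hF : Continuous F) (y : Mt n) (hy : y.trace = 0)
    (g : SL n) : HasDerivAt (fun t : ℝ => cv ν κ F (g * ex (t • y))) (cv ν (Lk y κ) F g) 0 := by
  obtain ⟨hf1, hf2, -⟩ := cv_facts ν hν
  obtain ⟨hl1, hl2⟩ := CB4_lk κ hκ hc y
  obtain ⟨e1, e2, e3, e4, -, e6⟩ := ex_facts (n := n)
  have hy' : (-y).trace = 0 := by rw [Matrix.trace_neg, hy, neg_zero]
  -- the compact set
  let K : Set (SL n) := (fun u : SL n => u.1) ⁻¹' (tsupport κ)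
  have hK : IsCompact K := by
    exact Matrix.SpecialLinearGroup.isClosedEmbedding_val.isCompact_preimage hc
  let m : ℝ × SL n → SL n := fun p => g * ex (p.1 • y) * p.2
  have hm : Continuous m :=
    ((continuous_const.mul ((e6 y hy).comp continuous_fst))).mul continuous_snd
  let K' : Set (SL n) := m '' (Set.Icc (-1 : ℝ) 1 ×ˢ K)
  have hK' : IsCompact K' := (isCompact_Icc.prod hK).image hm
  have hmem : ∀ (t : ℝ) (u : SL n), t ∈ Set.Icc (-1 : ℝ) 1 → u ∉ K' →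
      (ex (t • (-y)) * (g⁻¹ * u)).1 ∉ tsupport κ := by
    intro t u ht hu h
    apply hu
    refine ⟨(t, ex (t • (-y)) * (g⁻¹ * u)), ⟨ht, h⟩, ?_⟩
    show g * ex (t • y) * (ex (t • (-y)) * (g⁻¹ * u)) = u
    rw [← CB4_inv y hy t]
    group
  have hLsup : ∀ A : Mt n, A ∉ tsupport κ → Lk y κ A = 0 := (CB4_lk3 κ hκ hc y).2.2
  obtain ⟨C, hC⟩ := hl1.continuous.bounded_above_of_compact_support hl2
  obtain ⟨C0, hC0⟩ := hκ.continuous.bounded_above_of_compact_support hc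
  obtain ⟨M, hM⟩ := hK'.exists_bound_of_continuousOn hF.continuousOn
  have hKm : MeasurableSet K' := hK'.isClosed.measurableSet
  have hbi : ∀ r : ℝ, Integrable (K'.indicator fun _ => r) ν := by
    intro r
    rw [integrable_indicator_iff hKm]
    exact integrableOn_const (hs := (hν.fin K' hK').ne)
  have hexc : Continuous fun t : ℝ => ex (t • (-y)) := e6 (-y) hy'
  have hval : Continuous fun u : SL n => u.1 := continuous_subtype_val
  have hcont : ∀ (k : Mt n → ℝ), Continuous k → ∀ t : ℝ,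
      Continuous fun u : SL n => k (ex (t • (-y)) * (g⁻¹ * u)).1 * F u := by
    intro k hk t
    exact (hk.comp (hval.comp (continuous_const.mul (continuous_const.mul continuous_id)))).mul hF
  have hbd : ∀ (k : Mt n → ℝ) (B : ℝ), (∀ A, ‖k A‖ ≤ B) → (∀ A, A ∉ tsupport κ → k A = 0) →
      ∀ (u : SL n) (t : ℝ), t ∈ Set.Icc (-1 : ℝ) 1 →
        ‖k (ex (t • (-y)) * (g⁻¹ * u)).1 * F u‖ ≤ K'.indicator (fun _ => B * M) u := by
    intro k B hB hk u t ht
    by_cases hu : u ∈ K'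
    · rw [Set.indicator_of_mem hu, norm_mul]
      exact mul_le_mul (hB _) (hM u hu) (norm_nonneg _) ((norm_nonneg _).trans (hB 0))
    · rw [Set.indicator_of_notMem hu, hk _ (hmem t u ht hu), zero_mul, norm_zero]
  have hmain := hasDerivAt_integral_of_dominated_loc_of_deriv_le (μ := ν) (x₀ := (0 : ℝ))
    (s := Set.Icc (-1 : ℝ) 1) (F := fun t u => κ (ex (t • (-y)) * (g⁻¹ * u)).1 * F u)
    (F' := fun t u => Lk y κ (ex (t • (-y)) * (g⁻¹ * u)).1 * F u)
    (bound := K'.indicator fun _ => C * M)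
    (Icc_mem_nhds (by norm_num) (by norm_num))
    (Filter.Eventually.of_forall fun t => (hcont κ hκ.continuous t).aestronglyMeasurable)
    (Integrable.mono' (hbi (C0 * M)) (hcont κ hκ.continuous 0).aestronglyMeasurable
      (Filter.Eventually.of_forall fun u => hbd κ C0 hC0 (fun A hA => image_eq_zero_of_notMem_tsupport hA)
        u 0 (by norm_num)))
    (hcont (Lk y κ) hl1.continuous 0).aestronglyMeasurable
    (Filter.Eventually.of_forall fun u t ht => hbd (Lk y κ) C hC hLsup u t ht)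
    (hbi (C * M))
    (Filter.Eventually.of_forall fun u t _ =>
      (CB4_curve κ hκ y hy (g⁻¹ * u) t).mul_const (F u))
  have h1 : (fun t : ℝ => cv ν κ F (g * ex (t • y))) =
      fun t : ℝ => ∫ u, κ (ex (t • (-y)) * (g⁻¹ * u)).1 * F u ∂ν := by
    funext t
    rw [hf2 κ F (g * ex (t • y))]
    simp only [_root_.mul_inv_rev, CB4_inv y hy t, mul_assoc]
  have h2 : cv ν (Lk y κ) F g = ∫ u, Lk y κ (ex ((0 : ℝ) • (-y)) * (g⁻¹ * u)).1 * F u ∂ν := by
    rw [hf2 (Lk y κ) F g]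
    simp only [zero_smul, e4, one_mul]
  rw [h1, h2]
  exact hmain.2

private noncomputable def CB4_G {n : ℕ} (ν : Measure (SL n)) (hν : HK ν) (κ : Mt n → ℝ)
    (hκ : ContDiff ℝ ∞ κ) (hc : HasCompactSupport κ) (F : Fn n) (hF : Continuous F) :
    Mt n →ₗ[ℝ] Fn n where
  toFun y := cv ν (Lk y κ) F
  map_add' y z := by
    funext g
    obtain ⟨hf1, -⟩ := cv_facts ν hν
    obtain ⟨hy1, hy2⟩ := CB4_lk κ hκ hc y
    obtain ⟨hz1, hz2⟩ := CB4_lk κ hκ hc z
    show (∫ u : SL n, Lk (y + z) κ u.1 * F (g * u) ∂ν) =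
      (∫ u : SL n, Lk y κ u.1 * F (g * u) ∂ν) + ∫ u : SL n, Lk z κ u.1 * F (g * u) ∂ν
    rw [← integral_add ((hf1 _ F hy1.continuous hy2 hF).1 g) ((hf1 _ F hz1.continuous hz2 hF).1 g)]
    congr 1
    funext u
    unfold Lk
    rw [Matrix.add_mul, map_add]
    ring
  map_smul' r y := by
    funext g
    show (∫ u : SL n, Lk (r • y) κ u.1 * F (g * u) ∂ν) =
      r * ∫ u : SL n, Lk y κ u.1 * F (g * u) ∂ν
    rw [← integral_const_mul]
    congr 1
    funext u
    unfold Lk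
    rw [Matrix.smul_mul, map_smul, smul_eq_mul]
    ring

private theorem CB4_rd {n : ℕ} (ν : Measure (SL n)) (hν : HK ν) (κ : Mt n → ℝ) (hκ : ContDiff ℝ ∞ κ)
    (hc : HasCompactSupport κ) (F : Fn n) (hF : Continuous F) (y : Mt n) (hy : y.trace = 0) :
    RD y (cv ν κ F) (cv ν (Lk y κ) F) := by
  refine rd_crit (cv ν κ F) (CB4_G ν hν κ hκ hc F hF) ?_ ?_ y hy
  · intro x
    obtain ⟨hf1, -⟩ := cv_facts ν hν
    obtain ⟨hx1, hx2⟩ := CB4_lk κ hκ hc x
    exact (hf1 _ F hx1.continuous hx2 hF).2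
  · intro x hx g
    exact CB4_hd ν hν κ hκ hc F hF x hx g

/-- Row CB4. Derivative on the kernel. PLAN. `cv κ F g = ∫ κ(g⁻¹ u) F u` (`cv_facts`). Along the exponential curve
`κ (ex(-t y) g⁻¹ u)` has derivative `Lk y κ (ex(-t y) g⁻¹ u)` at every `t` (chain rule: `fderiv`, `y` commutes with
`exp (-t y)`), continuous and supported in a compact set for `|t| ≤ 1`; `hasDerivAt_integral_of_dominated_loc_of_deriv_le`,
then `rd_crit` with the linear map `y ↦ cv (Lk y κ) F`. Second clause: induction over `j` (`Lk y κ` is smooth with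
compact support). -/
theorem cv_rd {n : ℕ} (ν : Measure (SL n)) (hν : HK ν) (κ : Mt n → ℝ) (hκ : ContDiff ℝ ∞ κ)
    (hc : HasCompactSupport κ) (F : Fn n) (hF : Continuous F) :
    (∀ y : Mt n, y.trace = 0 → RD y (cv ν κ F) (cv ν (Lk y κ) F)) ∧ (∀ j, SG j (cv ν κ F)) ∧
    (∀ y : Mt n, ContDiff ℝ ∞ (Lk y κ) ∧ HasCompactSupport (Lk y κ)) := by
  refine ⟨fun y hy => CB4_rd ν hν κ hκ hc F hF y hy, ?_, fun y => CB4_lk κ hκ hc y⟩
  intro j
  induction j generalizing κ with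
  | zero =>
    obtain ⟨hf1, -⟩ := cv_facts ν hν
    exact (hf1 κ F hκ.continuous hc hF).2
  | succ j ih =>
    obtain ⟨hf1, -⟩ := cv_facts ν hν
    refine ⟨(hf1 κ F hκ.continuous hc hF).2, ?_⟩
    intro x hx
    obtain ⟨hx1, hx2⟩ := CB4_lk κ hκ hc x
    exact ⟨cv ν (Lk x κ) F, CB4_rd ν hν κ hκ hc F hF x hx, ih (Lk x κ) hx1 hx2⟩

end FL27
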