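import Pool.Agent.LibFL27.CDefs
import Pool.Agent.LibFL27.CB2

set_option autoImplicit false
set_option maxSynthPendingDepth 3

open Matrix MeasureTheory Topology Filter LibNC38
open LibNC27 hiding Mt
open scoped Matrix.Norms.Elementwise ContDiff

namespace FL27

/-- squared Frobenius distance to the identity -/
private noncomputable def CB5_N {n : ℕ} (A : Mt n) : ℝ := ∑ a, ∑ b, (A a b - (1 : Mt n) a b) ^ 2

private noncomputable def CB5_phi (t : ℝ) : ℝ := Real.smoothTransition ((1 - t) * (4 / 3))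

private theorem CB5_phi_smooth : ContDiff ℝ ∞ CB5_phi :=
  Real.smoothTransition.contDiff.comp (by fun_prop)

private theorem CB5_phi_nonneg (t : ℝ) : 0 ≤ CB5_phi t := Real.smoothTransition.nonneg _

private theorem CB5_phi_le (t : ℝ) : CB5_phi t ≤ 1 := Real.smoothTransition.le_one _

private theorem CB5_phi_one {t : ℝ} (h : t ≤ 1 / 4) : CB5_phi t = 1 :=
  Real.smoothTransition.one_of_one_le (by linarith)

private theorem CB5_phi_zero {t : ℝ} (h : 1 ≤ t) : CB5_phi t = 0 :=
  Real.smoothTransition.zero_of_nonpos (by linarith)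

private theorem CB5_phi_deriv : ∃ D : ℝ, 0 ≤ D ∧ (∀ t, 0 ≤ t → |deriv CB5_phi t| ≤ D) ∧
    ∀ t, 1 < t → deriv CB5_phi t = 0 := by
  have hz : ∀ t, 1 < t → deriv CB5_phi t = 0 := by
    intro t ht
    have h : CB5_phi =ᶠ[𝓝 t] fun _ => (0 : ℝ) := by
      filter_upwards [lt_mem_nhds ht] with y hy
      exact CB5_phi_zero hy.le
    rw [h.deriv_eq, deriv_const]
  have hc : Continuous (deriv CB5_phi) := CB5_phi_smooth.continuous_deriv (by simp)
  obtain ⟨D, hD⟩ := isCompact_Icc.exists_bound_of_continuousOn (s := Set.Icc (0 : ℝ) 1)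
    hc.continuousOn
  refine ⟨max D 0, le_max_right _ _, ?_, hz⟩
  intro t ht
  rcases le_or_gt t 1 with h | h
  · exact (hD t ⟨ht, h⟩).trans (le_max_left _ _)
  · rw [hz t h, abs_zero]
    exact le_max_right _ _

private theorem CB5_N_smooth {n : ℕ} : ContDiff ℝ ∞ (CB5_N (n := n)) := by
  unfold CB5_N
  refine ContDiff.sum fun a _ => ContDiff.sum fun b _ => ?_
  have h : ContDiff ℝ ∞ (fun A : Mt n => A a b) :=
    contDiff_apply_apply ℝ ℝ (n := ∞) a b
  exact (h.sub contDiff_const).pow 2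

private theorem CB5_N_nonneg {n : ℕ} (A : Mt n) : 0 ≤ CB5_N A :=
  Finset.sum_nonneg fun a _ => Finset.sum_nonneg fun b _ => sq_nonneg _

private theorem CB5_entry {n : ℕ} {A : Mt n} {s : ℝ} (hs : 0 ≤ s) (h : CB5_N A ≤ s ^ 2) (a b : Fin n) :
    |A a b - (1 : Mt n) a b| ≤ s := by
  have h1 : (A a b - (1 : Mt n) a b) ^ 2 ≤ CB5_N A := by
    unfold CB5_N
    refine le_trans ?_ (Finset.single_le_sum (f := fun a => ∑ b, (A a b - (1 : Mt n) a b) ^ 2)
      (fun _ _ => Finset.sum_nonneg fun _ _ => sq_nonneg _) (Finset.mem_univ a))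
    exact Finset.single_le_sum (f := fun b => (A a b - (1 : Mt n) a b) ^ 2)
      (fun b _ => sq_nonneg _) (Finset.mem_univ b)
  exact abs_le_of_sq_le_sq (h1.trans h) hs

private theorem CB5_N_trace {n : ℕ} (A : Mt n) : CB5_N A = ((A - 1) * (A - 1)ᵀ).trace := by
  unfold CB5_N
  simp only [Matrix.trace, Matrix.diag, Matrix.mul_apply, Matrix.transpose_apply,
    Matrix.sub_apply]
  refine Finset.sum_congr rfl fun a _ => Finset.sum_congr rfl fun b _ => ?_
  ring

private theorem CB5_N_conj {n : ℕ} (k u : SL n) (hk : Ort k) :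
    CB5_N (k * u * k⁻¹).1 = CB5_N u.1 := by
  have hk1 : k.1 * k.1ᵀ = 1 := hk
  have hk2 : k.1ᵀ * k.1 = 1 := mul_eq_one_comm.mp hk1
  have hi : (k⁻¹).1 = k.1ᵀ := by
    have h0 : (k⁻¹).1 * k.1 = 1 := by
      exact congrArg (fun x : SL n => x.1) (inv_mul_cancel k)
    calc (k⁻¹).1 = (k⁻¹).1 * (k.1 * k.1ᵀ) := by rw [hk1, mul_one]
      _ = ((k⁻¹).1 * k.1) * k.1ᵀ := by rw [mul_assoc]
      _ = k.1ᵀ := by rw [h0, one_mul]
  have e : (k * u * k⁻¹).1 = k.1 * u.1 * k.1ᵀ := by
    rw [← hi]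
    rfl
  rw [CB5_N_trace, CB5_N_trace, e]
  have e2 : k.1 * u.1 * k.1ᵀ - 1 = k.1 * (u.1 - 1) * k.1ᵀ := by
    rw [Matrix.mul_sub, Matrix.sub_mul, mul_one, hk1]
  rw [e2, Matrix.transpose_mul, Matrix.transpose_mul, Matrix.transpose_transpose]
  have e3 : k.1 * (u.1 - 1) * k.1ᵀ * (k.1 * ((u.1 - 1)ᵀ * k.1ᵀ)) =
      k.1 * ((u.1 - 1) * (u.1 - 1)ᵀ * k.1ᵀ) := by
    calc k.1 * (u.1 - 1) * k.1ᵀ * (k.1 * ((u.1 - 1)ᵀ * k.1ᵀ))
        = k.1 * (u.1 - 1) * (k.1ᵀ * k.1) * ((u.1 - 1)ᵀ * k.1ᵀ) := by simp only [Matrix.mul_assoc]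
      _ = _ := by rw [hk2, mul_one]; simp only [Matrix.mul_assoc]
  rw [e3, Matrix.trace_mul_comm, Matrix.mul_assoc, hk2, mul_one]

private theorem CB5_compactM {n : ℕ} {r : ℝ} (hr : 0 ≤ r) : IsCompact {A : Mt n | CB5_N A ≤ r} := by
  have : ProperSpace (Mt n) := inferInstanceAs (ProperSpace (Fin n → Fin n → ℝ))
  refine (isCompact_closedBall (1 : Mt n) (√r)).of_isClosed_subset
    (isClosed_le CB5_N_smooth.continuous continuous_const) ?_
  intro A hA
  rw [Metric.mem_closedBall, dist_eq_norm, Matrix.norm_le_iff (Real.sqrt_nonneg r)]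
  intro a b
  have hA' : CB5_N A ≤ (√r) ^ 2 := by rw [Real.sq_sqrt hr]; exact hA
  exact CB5_entry (Real.sqrt_nonneg r) hA' a b

private theorem CB5_compact {n : ℕ} {r : ℝ} (hr : 0 ≤ r) : IsCompact {u : SL n | CB5_N u.1 ≤ r} :=
  Matrix.SpecialLinearGroup.isClosedEmbedding_val.isCompact_preimage (CB5_compactM hr)

private theorem CB5_meas {n : ℕ} (r : ℝ) : MeasurableSet {u : SL n | CB5_N u.1 ≤ r} := by
  have hc : Continuous (fun u : SL n => CB5_N u.1) :=
    CB5_N_smooth.continuous.comp Matrix.SpecialLinearGroup.isClosedEmbedding_val.continuous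
  exact (isClosed_le hc continuous_const).measurableSet

private theorem CB5_inv {n : ℕ} : ∃ R : ℝ, 0 ≤ R ∧ ∀ u : SL n, CB5_N u.1 ≤ 1 →
    ∀ a b, |(u⁻¹).1 a b| ≤ R := by
  have : IsTopologicalGroup (SL n) := SL_top.2.2.2.1
  have hc : Continuous (fun u : SL n => (u⁻¹).1) :=
    Matrix.SpecialLinearGroup.isClosedEmbedding_val.continuous.comp continuous_inv
  obtain ⟨R, hR⟩ := (CB5_compact (n := n) zero_le_one).exists_bound_of_continuousOn
    hc.continuousOn
  refine ⟨max R 0, le_max_right _ _, fun u hu a b => ?_⟩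
  exact ((Matrix.norm_entry_le_entrywise_sup_norm _).trans (hR u hu)).trans (le_max_left _ _)

private theorem CB5_doubling {n : ℕ} (ν : Measure (SL n)) (hν : HK ν) : ∃ N : ℕ, ∀ s : ℝ,
    0 < s → s ≤ 1 → ν {u : SL n | CB5_N u.1 ≤ s ^ 2} ≤
      N * ν {u : SL n | CB5_N u.1 ≤ s ^ 2 / 4} := by
  have : IsTopologicalGroup (SL n) := SL_top.2.2.2.1
  have : ProperSpace (Mt n) := inferInstanceAs (ProperSpace (Fin n → Fin n → ℝ))
  obtain ⟨R, hR0, hR⟩ := CB5_inv (n := n)
  obtain ⟨ε, hε, hε2⟩ : ∃ ε : ℝ, 0 < ε ∧ 2 * (n : ℝ) ^ 2 * R * ε ≤ 1 / 2 := by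
    refine ⟨1 / (4 * ((n : ℝ) ^ 2 + 1) * (R + 1)), by positivity, ?_⟩
    rw [mul_one_div, div_le_div_iff₀ (by positivity) (by norm_num)]
    have h1 : 0 ≤ (n : ℝ) ^ 2 := by positivity
    nlinarith
  obtain ⟨t, -, htf, ht⟩ := (isCompact_closedBall (0 : Mt n) 1).finite_cover_balls hε
  refine ⟨htf.toFinset.card, fun s hs hs1 => ?_⟩
  set B : Set (SL n) := {u : SL n | CB5_N u.1 ≤ s ^ 2 / 4} with hB
  let T : Mt n → Set (SL n) := fun c =>
    {u : SL n | CB5_N u.1 ≤ s ^ 2 ∧ (1 / s) • (u.1 - 1) ∈ Metric.ball c ε}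
  have h1 : {u : SL n | CB5_N u.1 ≤ s ^ 2} ⊆ ⋃ c ∈ htf.toFinset, T c := by
    intro u hu
    have hm : (1 / s) • (u.1 - 1) ∈ Metric.closedBall (0 : Mt n) 1 := by
      rw [Metric.mem_closedBall, dist_zero_right, Matrix.norm_le_iff zero_le_one]
      intro a b
      have := CB5_entry hs.le hu a b
      rw [Matrix.smul_apply, Matrix.sub_apply, smul_eq_mul, Real.norm_eq_abs, abs_mul,
        abs_of_pos (by positivity : (0 : ℝ) < 1 / s), one_div, inv_mul_le_iff₀ hs, mul_one]
      exact this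
    have h2 := ht hm
    simp only [Set.mem_iUnion] at h2
    obtain ⟨c, hc, hcb⟩ := h2
    simp only [Set.mem_iUnion]
    exact ⟨c, htf.mem_toFinset.mpr hc, hu, hcb⟩
  have h2 : ∀ c ∈ htf.toFinset, ν (T c) ≤ ν B := by
    intro c _
    rcases (T c).eq_empty_or_nonempty with h | ⟨v, hv⟩
    · rw [h, measure_empty]
      exact bot_le
    · have hsub : T c ⊆ (fun u => v⁻¹ * u) ⁻¹' B := by
        intro u hu
        have hd : ∀ a b, |u.1 a b - v.1 a b| ≤ 2 * ε * s := by
          intro a b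
          have h3 : ‖(1 / s) • (u.1 - 1) - (1 / s) • (v.1 - 1)‖ ≤ 2 * ε := by
            have h4 := hu.2
            have h5 := hv.2
            rw [Metric.mem_ball] at h4 h5
            rw [← dist_eq_norm]
            have h6 := dist_triangle_right ((1 / s) • (u.1 - 1)) ((1 / s) • (v.1 - 1)) c
            linarith
          have h7 := (Matrix.norm_entry_le_entrywise_sup_norm _ (i := a) (j := b)).trans h3
          have e : ((1 / s) • (u.1 - 1) - (1 / s) • (v.1 - 1)) a b =
              (1 / s) * (u.1 a b - v.1 a b) := by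
            simp only [Matrix.sub_apply, Matrix.smul_apply, smul_eq_mul]
            ring
          rw [e, Real.norm_eq_abs, abs_mul, abs_of_pos (by positivity : (0 : ℝ) < 1 / s), one_div,
            inv_mul_le_iff₀ hs] at h7
          linarith
        have he : ∀ a b, |(v⁻¹ * u).1 a b - (1 : Mt n) a b| ≤ n * (R * (2 * ε * s)) := by
          intro a b
          have hvv : (v⁻¹).1 * v.1 = 1 := congrArg (fun x : SL n => x.1) (inv_mul_cancel v)
          have e1 : (v⁻¹ * u).1 a b - (1 : Mt n) a b =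
              ∑ j, (v⁻¹).1 a j * (u.1 j b - v.1 j b) := by
            have e2 : (v⁻¹ * u).1 = (v⁻¹).1 * u.1 := rfl
            rw [e2, ← hvv, Matrix.mul_apply, Matrix.mul_apply, ← Finset.sum_sub_distrib]
            refine Finset.sum_congr rfl fun j _ => ?_
            ring
          rw [e1]
          refine (Finset.abs_sum_le_sum_abs _ _).trans ?_
          refine (Finset.sum_le_sum (g := fun _ => R * (2 * ε * s)) fun j _ => ?_).trans ?_
          · rw [abs_mul]
            exact mul_le_mul (hR v (hv.1.trans (by nlinarith)) a j) (hd j b) (abs_nonneg _) hR0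
          · rw [Finset.sum_const, Finset.card_univ, Fintype.card_fin, nsmul_eq_mul]
        change CB5_N (v⁻¹ * u).1 ≤ s ^ 2 / 4
        unfold CB5_N
        calc ∑ a, ∑ b, ((v⁻¹ * u).1 a b - (1 : Mt n) a b) ^ 2
            ≤ ∑ _a : Fin n, ∑ _b : Fin n, (n * (R * (2 * ε * s))) ^ 2 := by
              refine Finset.sum_le_sum fun a _ => Finset.sum_le_sum fun b _ => ?_
              rw [← sq_abs ((v⁻¹ * u).1 a b - (1 : Mt n) a b)]
              exact pow_le_pow_left₀ (abs_nonneg _) (he a b) 2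
          _ = (2 * (n : ℝ) ^ 2 * R * ε) ^ 2 * s ^ 2 := by
              simp only [Finset.sum_const, Finset.card_univ, Fintype.card_fin, nsmul_eq_mul]
              ring
          _ ≤ (1 / 2) ^ 2 * s ^ 2 := by
              refine mul_le_mul_of_nonneg_right ?_ (by positivity)
              exact pow_le_pow_left₀ (by positivity) hε2 2
          _ = s ^ 2 / 4 := by ring
      have hm : ν ((fun u => v⁻¹ * u) ⁻¹' B) = ν B := by
        have hmm : Measurable (fun u : SL n => v⁻¹ * u) :=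
          (continuous_const.mul continuous_id).measurable
        calc ν ((fun u => v⁻¹ * u) ⁻¹' B) = (Measure.map (fun u => v⁻¹ * u) ν) B :=
              (Measure.map_apply hmm (CB5_meas _)).symm
          _ = ν B := by rw [hν.left]
      exact (measure_mono hsub).trans hm.le
  calc ν {u : SL n | CB5_N u.1 ≤ s ^ 2} ≤ ν (⋃ c ∈ htf.toFinset, T c) := measure_mono h1
    _ ≤ ∑ c ∈ htf.toFinset, ν (T c) := measure_biUnion_finset_le _ _
    _ ≤ ∑ _c ∈ htf.toFinset, ν B := Finset.sum_le_sum h2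
    _ = htf.toFinset.card * ν B := by rw [Finset.sum_const, nsmul_eq_mul]

private theorem CB5_fderiv {n : ℕ} (s Z : ℝ) (A v : Mt n) :
    fderiv ℝ (fun A : Mt n => CB5_phi (CB5_N A / s ^ 2) / Z) A v =
      deriv CB5_phi (CB5_N A / s ^ 2) *
        ((∑ a, ∑ b, 2 * (A a b - (1 : Mt n) a b) * v a b) / s ^ 2) / Z := by
  have hN : HasDerivAt (fun t : ℝ => CB5_N (A + t • v))
      (∑ a, ∑ b, 2 * (A a b - (1 : Mt n) a b) * v a b) 0 := by
    unfold CB5_N
    refine HasDerivAt.fun_sum fun a _ => HasDerivAt.fun_sum fun b _ => ?_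
    have h1 : HasDerivAt (fun t : ℝ => (A + t • v) a b - (1 : Mt n) a b) (v a b) 0 := by
      have h2 : HasDerivAt (fun t : ℝ => A a b + t * v a b - (1 : Mt n) a b) (v a b) 0 := by
        have h3 := (((hasDerivAt_id (0 : ℝ)).mul_const (v a b)).const_add (A a b)).sub_const
          ((1 : Mt n) a b)
        simpa using h3
      exact h2
    have h4 := h1.pow 2
    have e : (2 : ℕ) * ((A + (0 : ℝ) • v) a b - (1 : Mt n) a b) ^ (2 - 1) * v a b =
        2 * (A a b - (1 : Mt n) a b) * v a b := by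
      rw [zero_smul, add_zero]
      norm_num
    rw [← e]
    exact h4
  have hsm : ContDiff ℝ ∞ (fun A : Mt n => CB5_phi (CB5_N A / s ^ 2) / Z) :=
    (CB5_phi_smooth.comp (CB5_N_smooth.div_const _)).div_const _
  have hd : HasFDerivAt (fun A : Mt n => CB5_phi (CB5_N A / s ^ 2) / Z)
      (fderiv ℝ (fun A : Mt n => CB5_phi (CB5_N A / s ^ 2) / Z) A) (A + (0 : ℝ) • v) := by
    rw [zero_smul, add_zero]
    exact (hsm.differentiable (by simp) A).hasFDerivAt
  have hl : HasDerivAt (fun t : ℝ => A + t • v) v 0 := by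
    have h3 : HasDerivAt (fun t : ℝ => A + t • v) ((1 : ℝ) • v) 0 :=
      ((hasDerivAt_id (0 : ℝ)).smul_const v).const_add A
    rwa [one_smul] at h3
  have h5 := hd.comp_hasDerivAt (0 : ℝ) hl
  have hp : HasDerivAt CB5_phi (deriv CB5_phi (CB5_N A / s ^ 2)) (CB5_N (A + (0 : ℝ) • v) / s ^ 2) := by
    rw [zero_smul, add_zero]
    exact (CB5_phi_smooth.differentiable (by simp) _).hasDerivAt
  have h6 := ((hp.comp (0 : ℝ) (hN.div_const (s ^ 2))).div_const Z)
  exact h5.unique h6

/-- Row CB5. Mollifiers. PLAN. `κ(A) = φ(|A - 1|^2/s^2)/Z`, `|.|` Frobenius norm (invariant under `A ↦ k A kᵀ`,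
smooth square), `φ ≥ 0` smooth, `φ = 1` on `[0,1/4]`, `φ = 0` on `[1,∞)`, `Z = ∫ φ(|u-1|^2/s^2) dν > 0`.
`|Lk y κ| ≤ C/s · 1_{|u-1| ≤ s}/Z`. DOUBLING: `ν {|u-1| ≤ s} ≤ N ν {|u-1| ≤ s/2}` for `s ≤ 1`: the points of
`SL n` in `{|u-1| ≤ s}` fall into at most `N = (C n)^(n^2)` cubes of side `s/(C n)`; choose a point `u_i ∈ SL n` in each
nonempty cube: `|u_i⁻¹ u - 1| ≤ |u_i⁻¹| |u - u_i| ≤ s/2` for all other points `u` of the cube, left invariance. -/
theorem molli {n : ℕ} (ν : Measure (SL n)) (hν : HK ν) : ∃ C : ℝ, 1 ≤ C ∧ ∀ s : ℝ, 0 < s → s ≤ 1 →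
    ∃ κ : Mt n → ℝ, ContDiff ℝ ∞ κ ∧ HasCompactSupport κ ∧ (∀ A, 0 ≤ κ A) ∧
      ∫ u : SL n, κ u.1 ∂ν = 1 ∧ (∀ u : SL n, κ u.1 ≠ 0 → ∀ a b, |u.1 a b - (1 : Mt n) a b| ≤ s) ∧
      (∀ k u : SL n, Ort k → κ (k * u * k⁻¹).1 = κ u.1) ∧
      (∀ y : Mt n, Bx y → ∫ u : SL n, |Lk y κ u.1| ∂ν ≤ C / s) := by
  obtain ⟨Nn, hN⟩ := CB5_doubling ν hν
  obtain ⟨D, hD0, hD, hDz⟩ := CB5_phi_deriv
  refine ⟨max 1 (D * (4 * (n : ℝ) ^ 3) * Nn), le_max_left _ _, fun s hs hs1 => ?_⟩
  have hs2 : 0 < s ^ 2 := by positivity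
  set h : Mt n → ℝ := fun A => CB5_phi (CB5_N A / s ^ 2) with hh
  set S : Set (SL n) := {u : SL n | CB5_N u.1 ≤ s ^ 2} with hS
  set B : Set (SL n) := {u : SL n | CB5_N u.1 ≤ s ^ 2 / 4} with hB
  have hsm : ContDiff ℝ ∞ h := CB5_phi_smooth.comp (CB5_N_smooth.div_const _)
  have h0 : ∀ A, 0 ≤ h A := fun A => CB5_phi_nonneg _
  have hz : ∀ A, h A ≠ 0 → CB5_N A ≤ s ^ 2 := by
    intro A hA
    by_contra hc
    rw [not_le] at hc
    exact hA (CB5_phi_zero ((one_le_div hs2).mpr hc.le))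
  have hcs : HasCompactSupport h :=
    HasCompactSupport.of_support_subset_isCompact (CB5_compactM hs2.le) fun A hA => hz A hA
  have hSm : MeasurableSet S := CB5_meas _
  have hBm : MeasurableSet B := CB5_meas _
  have hSfin : ν S < ⊤ := hν.fin S (CB5_compact hs2.le)
  have hBS : B ⊆ S := by
    intro u hu
    have hu' : CB5_N u.1 ≤ s ^ 2 / 4 := hu
    change CB5_N u.1 ≤ s ^ 2
    linarith
  have hBfin : ν B < ⊤ := (measure_mono hBS).trans_lt hSfin
  have hval : Continuous (fun u : SL n => u.1) :=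
    Matrix.SpecialLinearGroup.isClosedEmbedding_val.continuous
  have hcont : Continuous (fun u : SL n => h u.1) := hsm.continuous.comp hval
  have hind : Integrable (S.indicator fun _ : SL n => (1 : ℝ)) ν :=
    (integrable_indicator_iff hSm).mpr (integrableOn_const hSfin.ne)
  have hindB : Integrable (B.indicator fun _ : SL n => (1 : ℝ)) ν :=
    (integrable_indicator_iff hBm).mpr (integrableOn_const hBfin.ne)
  have hint : Integrable (fun u : SL n => h u.1) ν := by
    refine hind.mono' hcont.measurable.aestronglyMeasurable (Eventually.of_forall fun u => ?_)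
    rw [Real.norm_eq_abs, abs_of_nonneg (h0 _)]
    by_cases hu : u ∈ S
    · rw [Set.indicator_of_mem hu]
      exact CB5_phi_le _
    · rw [Set.indicator_of_notMem hu]
      by_contra hc
      rw [not_le] at hc
      exact hu (hz _ hc.ne')
  set Z : ℝ := ∫ u : SL n, h u.1 ∂ν with hZd
  have hBZ : ν.real B ≤ Z := by
    have e : ν.real B = ∫ u, B.indicator (fun _ : SL n => (1 : ℝ)) u ∂ν := by
      rw [integral_indicator_const _ hBm, smul_eq_mul, mul_one]
    rw [e]
    refine integral_mono hindB hint fun u => ?_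
    by_cases hu : u ∈ B
    · rw [Set.indicator_of_mem hu]
      have hu' : CB5_N u.1 ≤ s ^ 2 / 4 := hu
      refine (CB5_phi_one ?_).ge
      rw [div_le_div_iff₀ hs2 (by norm_num)]
      linarith
    · rw [Set.indicator_of_notMem hu]
      exact h0 _
  have hBpos : 0 < ν.real B := by
    have hU : IsOpen {u : SL n | CB5_N u.1 < s ^ 2 / 4} :=
      isOpen_lt (CB5_N_smooth.continuous.comp hval) continuous_const
    have hne : {u : SL n | CB5_N u.1 < s ^ 2 / 4}.Nonempty := by
      refine ⟨1, ?_⟩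
      change CB5_N (1 : SL n).1 < s ^ 2 / 4
      have e : CB5_N (1 : SL n).1 = 0 := by
        unfold CB5_N
        refine Finset.sum_eq_zero fun a _ => Finset.sum_eq_zero fun b _ => ?_
        have e1 : (1 : SL n).1 = (1 : Mt n) := rfl
        rw [e1]
        ring
      rw [e]
      positivity
    have h1 := hν.pos _ hU hne
    have h2 : 0 < ν B := h1.trans_le (measure_mono fun u hu => (le_of_lt hu : CB5_N u.1 ≤ s ^ 2 / 4))
    exact ENNReal.toReal_pos h2.ne' hBfin.ne
  have hZ : 0 < Z := hBpos.trans_le hBZ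
  have hSB : ν.real S ≤ Nn * Z := by
    have h1 : ν.real S ≤ Nn * ν.real B := by
      have h2 := ENNReal.toReal_mono (ENNReal.mul_ne_top (ENNReal.natCast_ne_top Nn) hBfin.ne)
        (hN s hs hs1)
      rw [ENNReal.toReal_mul, ENNReal.toReal_natCast] at h2
      exact h2
    exact h1.trans (mul_le_mul_of_nonneg_left hBZ (Nat.cast_nonneg _))
  refine ⟨fun A => h A / Z, hsm.div_const Z, ?_, fun A => div_nonneg (h0 A) hZ.le, ?_, ?_, ?_, ?_⟩
  · refine HasCompactSupport.of_support_subset_isCompact (CB5_compactM hs2.le) fun A hA => hz A ?_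
    intro hc
    apply hA
    change h A / Z = 0
    rw [hc, zero_div]
  · rw [integral_div]
    exact div_self hZ.ne'
  · intro u hu a b
    refine CB5_entry hs.le (hz u.1 ?_) a b
    intro hc
    exact hu (by change h u.1 / Z = 0; rw [hc, zero_div])
  · intro k u hk
    change CB5_phi (CB5_N (k * u * k⁻¹).1 / s ^ 2) / Z = CB5_phi (CB5_N u.1 / s ^ 2) / Z
    rw [CB5_N_conj k u hk]
  · intro y hy
    have hbd : ∀ u : SL n, |Lk y (fun A => h A / Z) u.1| ≤
        S.indicator (fun _ => D * (4 * (n : ℝ) ^ 3) / (s * Z)) u := by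
      intro u
      have e1 : |Lk y (fun A => h A / Z) u.1| = |deriv CB5_phi (CB5_N u.1 / s ^ 2) *
          ((∑ a, ∑ b, 2 * (u.1 a b - (1 : Mt n) a b) * (y * u.1) a b) / s ^ 2) / Z| := by
        unfold Lk
        rw [abs_neg, ← CB5_fderiv s Z u.1 (y * u.1)]
      rw [e1]
      by_cases hu : u ∈ S
      · rw [Set.indicator_of_mem hu]
        have hd := hD (CB5_N u.1 / s ^ 2) (div_nonneg (CB5_N_nonneg _) hs2.le)
        have hent := CB5_entry hs.le (show CB5_N u.1 ≤ s ^ 2 from hu)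
        have hyu : ∀ a b, |(y * u.1) a b| ≤ n * 2 := by
          intro a b
          rw [Matrix.mul_apply]
          refine (Finset.abs_sum_le_sum_abs _ _).trans ?_
          refine (Finset.sum_le_sum (g := fun _ => (2 : ℝ)) fun j _ => ?_).trans ?_
          · rw [abs_mul]
            have h1 : |u.1 j b| ≤ 2 := by
              have h2 := hent j b
              have h3 : |(1 : Mt n) j b| ≤ 1 := by
                rw [Matrix.one_apply]
                split_ifs <;> simp
              have h4 : |u.1 j b| ≤ |u.1 j b - (1 : Mt n) j b| + |(1 : Mt n) j b| := by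
                have := abs_add_le (u.1 j b - (1 : Mt n) j b) ((1 : Mt n) j b)
                simpa using this
              linarith
            calc |y a j| * |u.1 j b| ≤ 1 * 2 :=
                  mul_le_mul (hy a j) h1 (abs_nonneg _) zero_le_one
              _ = 2 := by ring
          · rw [Finset.sum_const, Finset.card_univ, Fintype.card_fin, nsmul_eq_mul]
        have hsum : |∑ a, ∑ b, 2 * (u.1 a b - (1 : Mt n) a b) * (y * u.1) a b| ≤
            4 * (n : ℝ) ^ 3 * s := by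
          refine (Finset.abs_sum_le_sum_abs _ _).trans ?_
          refine (Finset.sum_le_sum (g := fun _ => (n : ℝ) * (2 * s * (n * 2))) fun a _ => ?_).trans ?_
          · refine (Finset.abs_sum_le_sum_abs _ _).trans ?_
            refine (Finset.sum_le_sum (g := fun _ => 2 * s * ((n : ℝ) * 2)) fun b _ => ?_).trans ?_
            · rw [abs_mul, abs_mul, abs_two]
              exact mul_le_mul (mul_le_mul_of_nonneg_left (hent a b) zero_le_two) (hyu a b)
                (abs_nonneg _) (by positivity)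
            · rw [Finset.sum_const, Finset.card_univ, Fintype.card_fin, nsmul_eq_mul]
          · rw [Finset.sum_const, Finset.card_univ, Fintype.card_fin, nsmul_eq_mul]
            exact le_of_eq (by ring)
        rw [abs_div, abs_mul, abs_div, abs_of_pos hZ, abs_of_pos hs2]
        have h5 : |deriv CB5_phi (CB5_N u.1 / s ^ 2)| *
            (|∑ a, ∑ b, 2 * (u.1 a b - (1 : Mt n) a b) * (y * u.1) a b| / s ^ 2) / Z ≤
            D * (4 * (n : ℝ) ^ 3 * s / s ^ 2) / Z := by
          refine div_le_div_of_nonneg_right ?_ hZ.le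
          exact mul_le_mul hd (div_le_div_of_nonneg_right hsum hs2.le)
            (div_nonneg (abs_nonneg _) hs2.le) hD0
        refine h5.trans (le_of_eq ?_)
        field_simp
      · rw [Set.indicator_of_notMem hu]
        have h1 : s ^ 2 < CB5_N u.1 := not_le.mp hu
        rw [hDz _ ((one_lt_div hs2).mpr h1), zero_mul, zero_div, abs_zero]
    have hg : Integrable (S.indicator fun _ : SL n => D * (4 * (n : ℝ) ^ 3) / (s * Z)) ν :=
      (integrable_indicator_iff hSm).mpr (integrableOn_const hSfin.ne)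
    calc ∫ u : SL n, |Lk y (fun A => h A / Z) u.1| ∂ν
        ≤ ∫ u : SL n, S.indicator (fun _ => D * (4 * (n : ℝ) ^ 3) / (s * Z)) u ∂ν :=
          integral_mono_of_nonneg (Eventually.of_forall fun u => abs_nonneg _) hg
            (Eventually.of_forall hbd)
      _ = ν.real S * (D * (4 * (n : ℝ) ^ 3) / (s * Z)) := by
          rw [integral_indicator_const _ hSm, smul_eq_mul]
      _ ≤ (Nn * Z) * (D * (4 * (n : ℝ) ^ 3) / (s * Z)) :=
          mul_le_mul_of_nonneg_right hSB (by positivity)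
      _ = D * (4 * (n : ℝ) ^ 3) * Nn / s := by
          field_simp
      _ ≤ max 1 (D * (4 * (n : ℝ) ^ 3) * Nn) / s :=
          div_le_div_of_nonneg_right (le_max_right _ _) hs.le

end FL27
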