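import Pool.Agent.LibFL27.CDefs
import Pool.Agent.LibFL27.CB3
import Pool.Agent.LibFL27.CA6
import Pool.Agent.LibFL27.CB3b
import Pool.Agent.LibFL27.CB2
import Pool.Agent.LibFL27.CA4
import Pool.Agent.LibFL27.CA5

set_option autoImplicit false
set_option maxSynthPendingDepth 3

open Matrix MeasureTheory Topology Filter LibNC38
open LibNC27 hiding Mt
open scoped Matrix.Norms.Elementwise ContDiff

namespace FL27

private theorem CB6_zero {n : ℕ} (ν : Measure (SL n)) (hν : HK ν) (C0 : ℝ)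
    (hlip : ∀ (θ M : ℝ) (F : Fn n), 1 ≤ θ → 0 ≤ M → WB θ 1 M F →
      ∀ (g q : SL n) (r : ℝ), 0 ≤ r → (∀ a b, |q.1 a b - (1 : Mt n) a b| ≤ r) →
        |F (g * q) - F g| ≤ C0 * M * θ * r)
    (s : ℝ) (κ : Mt n → ℝ) (hs : 0 < s) (hκ : Continuous κ) (hc : HasCompactSupport κ)
    (h0 : ∀ A, 0 ≤ κ A) (hint : ∫ u : SL n, κ u.1 ∂ν = 1)
    (hsupp : ∀ u : SL n, κ u.1 ≠ 0 → ∀ a b, |u.1 a b - (1 : Mt n) a b| ≤ s)
    (θ M : ℝ) (F : Fn n) (hθ : 1 ≤ θ) (hM : 0 ≤ M) (hF : WB θ 1 M F) (g : SL n) :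
    |F g - cv ν κ F g| ≤ C0 * M * θ * s := by
  have hFc : Continuous F := hF.1.1
  have i1 := ((cv_facts ν hν).1 κ F hκ hc hFc).1 g
  have i2 := ((cv_facts ν hν).1 κ (fun _ => F g) hκ hc continuous_const).1 g
  have i3 := ((cv_facts ν hν).1 κ (fun _ => C0 * M * θ * s) hκ hc continuous_const).1 g
  have e1 : ∫ u : SL n, κ u.1 * F g ∂ν = F g := by
    rw [integral_mul_const, hint, one_mul]
  have e3 : ∫ u : SL n, κ u.1 * (C0 * M * θ * s) ∂ν = C0 * M * θ * s := by
    rw [integral_mul_const, hint, one_mul]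
  have e2 : F g - cv ν κ F g = ∫ u : SL n, (κ u.1 * F g - κ u.1 * F (g * u)) ∂ν := by
    rw [integral_sub i2 i1, e1]
    rfl
  rw [e2, ← Real.norm_eq_abs]
  conv_rhs => rw [← e3]
  refine norm_integral_le_of_norm_le i3 (Filter.Eventually.of_forall fun u => ?_)
  have e4 : κ u.1 * F g - κ u.1 * F (g * u) = κ u.1 * -(F (g * u) - F g) := by ring
  show ‖κ u.1 * F g - κ u.1 * F (g * u)‖ ≤ κ u.1 * (C0 * M * θ * s)
  rw [e4, norm_mul, norm_neg, Real.norm_eq_abs, Real.norm_eq_abs, abs_of_nonneg (h0 _)]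
  by_cases hu : κ u.1 = 0
  · rw [hu, zero_mul, zero_mul]
  · exact mul_le_mul_of_nonneg_left (hlip θ M F hθ hM hF g u s hs.le (hsupp u hu)) (h0 _)

private theorem CB6_mul {n : ℕ} (A B : Mt n) (p q : ℝ) (hp : 0 ≤ p) (hA : ∀ a b, |A a b| ≤ p)
    (hB : ∀ a b, |B a b| ≤ q) (a b : Fin n) : |(A * B) a b| ≤ n * (p * q) := by
  rw [Matrix.mul_apply]
  refine (Finset.abs_sum_le_sum_abs _ _).trans ?_
  have h1 : ∑ c : Fin n, |A a c * B c b| ≤ ∑ _c : Fin n, p * q := by
    refine Finset.sum_le_sum fun c _ => ?_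
    rw [abs_mul]
    exact mul_le_mul (hA a c) (hB c b) (abs_nonneg _) hp
  refine h1.trans ?_
  rw [Finset.sum_const, Finset.card_univ, Fintype.card_fin, nsmul_eq_mul]

private theorem CB6_adj {n : ℕ} : ∃ Ca : ℝ, 0 ≤ Ca ∧ ∀ A : Mt n, (∀ a b, |A a b| ≤ 2) →
    ∀ a b, |A.adjugate a b| ≤ Ca := by
  have : ProperSpace (Mt n) := FiniteDimensional.proper ℝ (Mt n)
  have hcont : Continuous fun A : Mt n => A.adjugate := continuous_id.matrix_adjugate
  obtain ⟨C, hC⟩ := (isCompact_closedBall (0 : Mt n) 2).exists_bound_of_continuousOn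
    hcont.continuousOn
  refine ⟨max C 0, le_max_right _ _, fun A hA a b => ?_⟩
  have h1 : A ∈ Metric.closedBall (0 : Mt n) 2 := by
    rw [mem_closedBall_zero_iff, Matrix.norm_le_iff (by norm_num)]
    exact hA
  have h2 := hC A h1
  have h3 : ‖A.adjugate a b‖ ≤ ‖A.adjugate‖ := Matrix.norm_entry_le_entrywise_sup_norm _
  exact (h3.trans h2).trans (le_max_left _ _)

private theorem CB6_conj {n : ℕ} (Ca : ℝ) (hCa : 0 ≤ Ca)
    (hadj : ∀ A : Mt n, (∀ a b, |A a b| ≤ 2) → ∀ a b, |A.adjugate a b| ≤ Ca)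
    (s : ℝ) (hs : 0 < s) (hs1 : s ≤ 1) (x : Mt n) (hx : ∀ a b, |x a b| ≤ 1) (u : SL n)
    (hu : ∀ a b, |u.1 a b - (1 : Mt n) a b| ≤ s) (a b : Fin n) :
    |(u.1.adjugate * x * u.1) a b - x a b| ≤ n * (Ca * (n * (1 * s) + n * (s * 1))) := by
  have hu2 : ∀ a b, |u.1 a b| ≤ 2 := by
    intro a b
    have h1 := hu a b
    have h2 : |(1 : Mt n) a b| ≤ 1 := by
      by_cases hab : a = b
      · subst hab
        rw [Matrix.one_apply_eq, abs_one]
      · rw [Matrix.one_apply_ne hab, abs_zero]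
        exact zero_le_one
    have h3 : u.1 a b = (u.1 a b - (1 : Mt n) a b) + (1 : Mt n) a b := by ring
    rw [h3]
    refine (abs_add_le _ _).trans ?_
    linarith
  have e1 : u.1.adjugate * x * u.1 - x = u.1.adjugate * (x * (u.1 - 1) - (u.1 - 1) * x) := by
    have h1 : u.1.adjugate * u.1 = 1 := by
      rw [Matrix.adjugate_mul, u.2, one_smul]
    have h2 : x = u.1.adjugate * (u.1 * x) := by
      rw [← Matrix.mul_assoc, h1, Matrix.one_mul]
    have h3 : x * (u.1 - 1) - (u.1 - 1) * x = x * u.1 - u.1 * x := by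
      rw [Matrix.mul_sub, Matrix.sub_mul, Matrix.mul_one, Matrix.one_mul]
      abel
    rw [h3, Matrix.mul_sub, ← h2, Matrix.mul_assoc]
  have e2 : (u.1.adjugate * x * u.1) a b - x a b =
      (u.1.adjugate * (x * (u.1 - 1) - (u.1 - 1) * x)) a b := by
    rw [← e1, Matrix.sub_apply]
  rw [e2]
  refine CB6_mul _ _ Ca _ hCa (hadj u.1 hu2) (fun c d => ?_) a b
  rw [Matrix.sub_apply]
  have hE : ∀ a b, |(u.1 - 1 : Mt n) a b| ≤ s := by
    intro a b
    rw [Matrix.sub_apply]
    exact hu a b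
  have h4 := CB6_mul x (u.1 - 1) 1 s zero_le_one hx hE c d
  have h5 := CB6_mul (u.1 - 1) x s 1 hs.le hE hx c d
  exact (abs_sub _ _).trans (add_le_add h4 h5)

private theorem CB6_bx {n : ℕ} (a b : Fin n) : Bx (Matrix.single a b (1 : ℝ)) := by
  intro c d
  rw [Matrix.single_apply]
  split_ifs
  · rw [abs_one]
  · rw [abs_zero]
    exact zero_le_one

/-- Row CB6. One step of smoothing. PLAN. Induction over `k` for all `F`, `M`. Order 0: `wb_lip`, `∫ κ = 1`. Along
`x ∈ T1`: `G x - ∑_ab cv κ_ab (G e_ab)` (CB3b) `= [G x - cv κ (G x)] - ∑_ab cv (κ ((A⁻¹ x A)_ab - x_ab)) (G e_ab)`;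
first term by induction (`G x ∈ WB θ (k+1) (Mθ)`), second: `|u⁻¹ x u - x| ≤ C s` on the support, so the kernels
have integral `≤ C s` and `cv_wb` (with `R = 2`) gives `WB θ k (C s M θ)`; `θ ≥ 1`. -/
theorem cv_step {n : ℕ} (ν : Measure (SL n)) (hν : HK ν) (k : ℕ) : ∃ C : ℝ, 1 ≤ C ∧
    ∀ (s : ℝ) (κ : Mt n → ℝ), 0 < s → s ≤ 1 → Continuous κ → HasCompactSupport κ → (∀ A, 0 ≤ κ A) →
    ∫ u : SL n, κ u.1 ∂ν = 1 → (∀ u : SL n, κ u.1 ≠ 0 → ∀ a b, |u.1 a b - (1 : Mt n) a b| ≤ s) →
    ∀ (θ M : ℝ) (F : Fn n), 1 ≤ θ → 0 ≤ M → WB θ (k + 1) M F →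
      WB θ k (C * s * θ * M) (fun g => F g - cv ν κ F g) := by
  induction k with
  | zero =>
    obtain ⟨C0, hC0, hlip⟩ := wb_lip (n := n)
    refine ⟨max 1 C0, le_max_left _ _, ?_⟩
    intro s κ hs hs1 hκ hc h0 hint hsupp θ M F hθ hM hF
    refine ⟨hF.1.1.sub ((cv_facts ν hν).1 κ F hκ hc hF.1.1).2, fun g => ?_⟩
    have h1 := CB6_zero ν hν C0 hlip s κ hs hκ hc h0 hint hsupp θ M F hθ hM hF g
    refine h1.trans ?_
    have h2 : C0 * M * θ * s = C0 * (M * θ * s) := by ring
    have h3 : max 1 C0 * s * θ * M = max 1 C0 * (M * θ * s) := by ring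
    rw [h2, h3]
    have h4 : 0 ≤ M * θ * s := by positivity
    exact mul_le_mul_of_nonneg_right (le_max_right _ _) h4
  | succ k ih =>
    obtain ⟨C, hC1, hC⟩ := ih
    obtain ⟨Cw, hCw1, hCw⟩ := cv_wb ν hν k 2
    obtain ⟨Ca, hCa, hadj⟩ := CB6_adj (n := n)
    set C1 : ℝ := n * (Ca * (n * 1 + n * 1)) with hC1d
    have hC1n : 0 ≤ C1 := by positivity
    set C2 : ℝ := ((Finset.univ : Finset (Fin n × Fin n)).card : ℝ) * (Cw * C1 * 2) with hC2d
    have hC2n : 0 ≤ C2 := by positivity
    refine ⟨C + C2, by linarith, ?_⟩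
    intro s κ hs hs1 hκ hc h0 hint hsupp θ M F hθ hM hF
    have hθ0 : (0 : ℝ) ≤ θ := by linarith
    have hFk : WB θ (k + 1) M F := (wb_alg (n := n)).1 θ (k + 1 + 1) (k + 1) M F (by omega) hF
    have hI := hC s κ hs hs1 hκ hc h0 hint hsupp θ M F hθ hM hFk
    have hI0 := (wb_alg (n := n)).1 θ k 0 _ _ (Nat.zero_le k) hI
    obtain ⟨G, hG1, hG2, hG3, hG4⟩ := wb_lin θ (k + 1) M F hF
    refine ⟨⟨hI0.1, fun g => (hI0.2 g).trans ?_⟩, ?_⟩
    · have h1 : C * s * θ * M = C * (s * θ * M) := by ring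
      have h2 : (C + C2) * s * θ * M = (C + C2) * (s * θ * M) := by ring
      rw [h1, h2]
      have h3 : 0 ≤ s * θ * M := by positivity
      exact mul_le_mul_of_nonneg_right (by linarith) h3
    intro x hx
    -- continuity of the derivatives
    have hGs : ∀ a b : Fin n, WB θ k (2 * (M * θ)) (G (Matrix.single a b 1)) := fun a b =>
      (wb_alg (n := n)).1 θ (k + 1) k _ _ (by omega) (hG3 _ (CB6_bx a b))
    have hGsc : ∀ a b : Fin n, Continuous (G (Matrix.single a b 1)) := fun a b =>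
      (hG3 _ (CB6_bx a b)).1.1
    have hexp : ∀ v : Mt n, G v = ∑ a, ∑ b, v a b • G (Matrix.single a b (1 : ℝ)) := by
      intro v
      have h2 : v = ∑ l, ∑ i, v l i • Matrix.single l i (1 : ℝ) := by
        conv_lhs => rw [Matrix.matrix_eq_sum_single v]
        refine Finset.sum_congr rfl fun i _ => Finset.sum_congr rfl fun j _ => ?_
        rw [Matrix.smul_single, smul_eq_mul, mul_one]
      conv_lhs => rw [h2]
      simp only [map_sum, map_smul]
    have hexp' : ∀ (v : Mt n) (g : SL n),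
        G v g = ∑ a, ∑ b, v a b * G (Matrix.single a b (1 : ℝ)) g := by
      intro v g
      rw [hexp v]
      simp only [Finset.sum_apply, Pi.smul_apply, smul_eq_mul]
    have hGc : ∀ v, Continuous (G v) := by
      intro v
      have h1 : G v = fun g => ∑ a, ∑ b, v a b * G (Matrix.single a b (1 : ℝ)) g := by
        funext g
        exact hexp' v g
      rw [h1]
      exact continuous_finsetSum _ fun a _ => continuous_finsetSum _ fun b _ =>
        continuous_const.mul (hGsc a b)
    have hrd := cv_rd_F ν hν κ hκ hc F hF.1.1 G hGc hG1 x hx.1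
    -- the kernels
    let L : Fin n × Fin n → Mt n → ℝ := fun p A => κ A * ((A.adjugate * x * A) p.1 p.2 - x p.1 p.2)
    have hLc : ∀ p, Continuous (L p) := by
      intro p
      refine hκ.mul (Continuous.sub ?_ continuous_const)
      exact ((continuous_id.matrix_adjugate.matrix_mul continuous_const).matrix_mul
        continuous_id).matrix_elem p.1 p.2
    have hLs : ∀ p, HasCompactSupport (L p) := fun p => hc.mul_right
    have hLi : ∀ p, ∫ u : SL n, |L p u.1| ∂ν ≤ C1 * s := by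
      intro p
      have i3 := ((cv_facts ν hν).1 κ (fun _ => C1 * s) hκ hc continuous_const).1 1
      have i4 := (((cv_facts ν hν).1 (L p) (fun _ => 1) (hLc p) (hLs p) continuous_const).1 1).abs
      have e3 : ∫ u : SL n, κ u.1 * (C1 * s) ∂ν = C1 * s := by
        rw [integral_mul_const, hint, one_mul]
      rw [← e3]
      simp only [mul_one] at i4
      refine integral_mono i4 i3 fun u => ?_
      show |κ u.1 * ((u.1.adjugate * x * u.1) p.1 p.2 - x p.1 p.2)| ≤ κ u.1 * (C1 * s)
      rw [abs_mul, abs_of_nonneg (h0 _)]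
      by_cases hu : κ u.1 = 0
      · rw [hu, zero_mul, zero_mul]
      · refine mul_le_mul_of_nonneg_left ?_ (h0 _)
        have h5 := CB6_conj Ca hCa hadj s hs hs1 x hx.2 u (hsupp u hu) p.1 p.2
        refine h5.trans (le_of_eq ?_)
        rw [hC1d]
        ring
    have hLsupp : ∀ p, ∀ u : SL n, L p u.1 ≠ 0 → ∀ a b, |u.1 a b| ≤ 2 := by
      intro p u hu a b
      have h1 : κ u.1 ≠ 0 := by
        intro h
        apply hu
        show κ u.1 * _ = 0
        rw [h, zero_mul]
      have h2 := hsupp u h1 a b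
      have h3 : |(1 : Mt n) a b| ≤ 1 := by
        by_cases hab : a = b
        · subst hab
          rw [Matrix.one_apply_eq, abs_one]
        · rw [Matrix.one_apply_ne hab, abs_zero]
          exact zero_le_one
      have h4 : u.1 a b = (u.1 a b - (1 : Mt n) a b) + (1 : Mt n) a b := by ring
      rw [h4]
      refine (abs_add_le _ _).trans ?_
      linarith
    have hterm : ∀ p ∈ (Finset.univ : Finset (Fin n × Fin n)),
        WB θ k (Cw * C1 * 2 * s * θ * M) (cv ν (L p) (G (Matrix.single p.1 p.2 1))) := by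
      intro p _
      have h1 := hCw (L p) (hLc p) (hLs p) (hLsupp p) θ (2 * (M * θ)) (G (Matrix.single p.1 p.2 1))
        hθ (by positivity) (hGs p.1 p.2)
      have h2 : 0 ≤ ∫ u : SL n, |L p u.1| ∂ν := integral_nonneg fun u => abs_nonneg _
      refine (wb_alg (n := n)).2.1 θ θ k _ _ _ hθ0 le_rfl ?_ ?_ h1
      · have h3 := hLi p
        have h4 : Cw * (∫ u : SL n, |L p u.1| ∂ν) ≤ Cw * (C1 * s) :=
          mul_le_mul_of_nonneg_left h3 (by linarith)
        have h5 : 0 ≤ 2 * (M * θ) := by positivity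
        calc Cw * (∫ u : SL n, |L p u.1| ∂ν) * (2 * (M * θ)) ≤ Cw * (C1 * s) * (2 * (M * θ)) :=
              mul_le_mul_of_nonneg_right h4 h5
          _ = Cw * C1 * 2 * s * θ * M := by ring
      · have h6 : 0 ≤ Cw := by linarith
        positivity
    have hsum := (wb_alg (n := n)).2.2.2.2.2.2.1 θ k _ _ Finset.univ _ hθ0 hterm
    have hneg := (wb_alg (n := n)).2.2.2.2.1 θ k _ (-1) _ hsum
    have hIx := hC s κ hs hs1 hκ hc h0 hint hsupp θ (M * θ) (G x) hθ (by positivity) (hG2 x hx)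
    have hadd := (wb_alg (n := n)).2.2.2.1 θ k _ _ _ _ hIx hneg
    refine ⟨fun g => G x g + (-1) * ∑ a, ∑ b,
      cv ν (fun A => κ A * (A.adjugate * x * A) a b) (G (Matrix.single a b 1)) g, ?_, ?_⟩
    · have h1 := (rd_rules (n := n)).2.2.1 x _ _ _ _ (hG1 x hx.1)
        ((rd_rules (n := n)).2.2.2.2.1 x _ _ (-1) hrd)
      have h2 : (fun g => F g - cv ν κ F g) = fun g => F g + (-1) * cv ν κ F g := by
        funext g
        ring
      rw [h2]
      exact h1
    · have hfun : (fun g => G x g + (-1) * ∑ a, ∑ b,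
          cv ν (fun A => κ A * (A.adjugate * x * A) a b) (G (Matrix.single a b 1)) g) =
          fun g => (G x g - cv ν κ (G x) g) +
            (-1) * ∑ p : Fin n × Fin n, cv ν (L p) (G (Matrix.single p.1 p.2 1)) g := by
        funext g
        have hi1 : ∀ a b : Fin n,
            Integrable (fun u : SL n => κ u.1 * G (Matrix.single a b 1) (g * u)) ν := fun a b =>
          ((cv_facts ν hν).1 κ _ hκ hc (hGsc a b)).1 g
        have hi2 : ∀ p : Fin n × Fin n,
            Integrable (fun u : SL n => L p u.1 * G (Matrix.single p.1 p.2 1) (g * u)) ν :=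
          fun p => ((cv_facts ν hν).1 (L p) _ (hLc p) (hLs p) (hGsc p.1 p.2)).1 g
        have e1 : ∀ a b : Fin n,
            cv ν (fun A => κ A * (A.adjugate * x * A) a b) (G (Matrix.single a b 1)) g =
              cv ν (L (a, b)) (G (Matrix.single a b 1)) g +
                x a b * cv ν κ (G (Matrix.single a b 1)) g := by
          intro a b
          unfold cv
          rw [← integral_const_mul, ← integral_add (hi2 (a, b)) ((hi1 a b).const_mul _)]
          congr 1
          funext u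
          show κ u.1 * (u.1.adjugate * x * u.1) a b * _ =
            κ u.1 * ((u.1.adjugate * x * u.1) a b - x a b) * _ + x a b * (κ u.1 * _)
          ring
        have e2 : cv ν κ (G x) g = ∑ a, ∑ b, x a b * cv ν κ (G (Matrix.single a b 1)) g := by
          unfold cv
          have e3 : ∀ u : SL n, κ u.1 * G x (g * u) =
              ∑ a, ∑ b, x a b * (κ u.1 * G (Matrix.single a b 1) (g * u)) := by
            intro u
            rw [hexp' x, Finset.mul_sum]
            refine Finset.sum_congr rfl fun a _ => ?_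
            rw [Finset.mul_sum]
            refine Finset.sum_congr rfl fun b _ => ?_
            ring
          simp only [e3]
          rw [integral_finsetSum _ fun a _ => integrable_finsetSum _ fun b _ =>
            (hi1 a b).const_mul _]
          refine Finset.sum_congr rfl fun a _ => ?_
          rw [integral_finsetSum _ fun b _ => (hi1 a b).const_mul _]
          refine Finset.sum_congr rfl fun b _ => ?_
          rw [integral_const_mul]
        simp only [e1, Finset.sum_add_distrib]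
        rw [e2, Fintype.sum_prod_type]
        ring
      rw [hfun]
      refine (wb_alg (n := n)).2.1 θ θ k _ _ _ hθ0 le_rfl ?_ ?_ hadd
      · rw [abs_neg, abs_one, one_mul]
        have h1 : C * s * θ * (M * θ) +
            ((Finset.univ : Finset (Fin n × Fin n)).card : ℝ) * (Cw * C1 * 2 * s * θ * M) =
            C * (s * θ * M) * θ + C2 * (s * θ * M) * 1 := by
          rw [hC2d]
          generalize ((Finset.univ : Finset (Fin n × Fin n)).card : ℝ) = N0
          ring
        have h2 : (C + C2) * s * θ * M * θ = C * (s * θ * M) * θ + C2 * (s * θ * M) * θ := by ring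
        rw [h1, h2]
        have h3 : 0 ≤ C2 * (s * θ * M) := mul_nonneg hC2n (by positivity)
        have h4 := mul_le_mul_of_nonneg_left hθ h3
        linarith
      · have h6 : 0 ≤ Cw := by linarith
        have h7 : 0 ≤ C := by linarith
        have h8 : (0 : ℝ) ≤ ((Finset.univ : Finset (Fin n × Fin n)).card : ℝ) := Nat.cast_nonneg _
        rw [abs_neg, abs_one, one_mul]
        refine add_nonneg (by positivity) (mul_nonneg h8 (by positivity))

end FL27
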