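import Pool.Agent.LibFL27.CDefs
import Pool.Agent.LibFL27.CA1
import Pool.Agent.LibFL27.CA5
import Pool.Agent.LibFL27.CA5b
import Pool.Agent.LibFL27.CB1
import Pool.Agent.LibFL27.CB6
import Pool.Agent.LibFL27.CB5
import Pool.Agent.LibFL27.CB4

set_option autoImplicit false
set_option maxSynthPendingDepth 3

open Matrix MeasureTheory Topology Filter LibNC38
open LibNC27 hiding Mt
open scoped Matrix.Norms.Elementwise ContDiff

namespace FL27

private noncomputable def CB7_Q {n : ℕ} (ν : Measure (SL n)) (κ : Mt n → ℝ) : ℕ → Fn n → Fn n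
  | 0, F => F
  | j + 1, F => fun g => CB7_Q ν κ j F g - cv ν κ (CB7_Q ν κ j F) g

private theorem CB7_tel {n : ℕ} (ν : Measure (SL n)) (κ : Mt n → ℝ) (F : Fn n) (m : ℕ) :
    (fun g => F g - CB7_Q ν κ m F g) =
      fun g => ∑ j ∈ Finset.range m, cv ν κ (CB7_Q ν κ j F) g := by
  funext g
  induction m with
  | zero => simp [CB7_Q]
  | succ m ih =>
    rw [Finset.sum_range_succ, ← ih]
    simp only [CB7_Q]
    ring

private theorem CB7_cont {n : ℕ} (ν : Measure (SL n)) (hν : HK ν) (κ : Mt n → ℝ)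
    (hκ : Continuous κ) (hc : HasCompactSupport κ) (F : Fn n) (hF : Continuous F) (j : ℕ) :
    Continuous (CB7_Q ν κ j F) := by
  induction j with
  | zero => exact hF
  | succ j ih => exact ih.sub ((cv_facts ν hν).1 κ _ hκ hc ih).2

private theorem CB7_supp {n : ℕ} (κ : Mt n → ℝ) (hκ : ContDiff ℝ ∞ κ) (s : ℝ)
    (hs : ∀ u : SL n, κ u.1 ≠ 0 → ∀ a b, |u.1 a b - (1 : Mt n) a b| ≤ s) (y : Mt n)
    (hy : y.trace = 0) (u : SL n) (hu : Lk y κ u.1 ≠ 0) (a b : Fin n) :
    |u.1 a b - (1 : Mt n) a b| ≤ s := by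
  by_contra hcon
  push Not at hcon
  apply hu
  obtain ⟨-, -, h3, h4, h5, h6⟩ := ex_facts (n := n)
  set z : Mt n := u⁻¹.1 * (-y) * u.1 with hz
  have hzt : z.trace = 0 := by
    rw [hz, Matrix.mul_assoc, Matrix.trace_mul_comm, Matrix.mul_assoc]
    have h1 : u.1 * u⁻¹.1 = 1 := by
      rw [← Matrix.SpecialLinearGroup.coe_mul, mul_inv_cancel, Matrix.SpecialLinearGroup.coe_one]
    rw [h1, Matrix.mul_one, Matrix.trace_neg, hy, neg_zero]
  have hc : ∀ a b, HasDerivAt (fun t : ℝ => (u * ex (t • z)).1 a b) ((u.1 * z) a b) 0 := by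
    intro a b
    have := h3 z hzt u 0 a b
    rw [zero_smul, h4, mul_one] at this
    exact this
  have huz : u.1 * z = -(y * u.1) := by
    have h1 : u.1 * u⁻¹.1 = 1 := by
      rw [← Matrix.SpecialLinearGroup.coe_mul, mul_inv_cancel, Matrix.SpecialLinearGroup.coe_one]
    rw [hz, ← Matrix.mul_assoc, ← Matrix.mul_assoc, h1, Matrix.one_mul, Matrix.neg_mul]
  have hcm : HasDerivAt (fun t : ℝ => (u * ex (t • z)).1) (u.1 * z) 0 :=
    hasDerivAt_pi.2 fun a => hasDerivAt_pi.2 fun b => hc a b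
  have hu0 : (u * ex ((0 : ℝ) • z)).1 = u.1 := by rw [zero_smul, h4, mul_one]
  have hd : HasDerivAt (fun t : ℝ => κ (u * ex (t • z)).1) (fderiv ℝ κ u.1 (u.1 * z)) 0 := by
    have hk : HasFDerivAt κ (fderiv ℝ κ u.1) ((fun t : ℝ => (u * ex (t • z)).1) 0) := by
      simp only [hu0]
      exact (hκ.differentiable (by simp) u.1).hasFDerivAt
    exact hk.comp_hasDerivAt 0 hcm
  have he : (fun t : ℝ => κ (u * ex (t • z)).1) =ᶠ[𝓝 0] fun _ => (0 : ℝ) := by
    have hct : ContinuousAt (fun t : ℝ => |(u * ex (t • z)).1 a b - (1 : Mt n) a b|) 0 :=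
      ((hc a b).continuousAt.sub continuousAt_const).abs
    have : ∀ᶠ t in 𝓝 (0 : ℝ), s < |(u * ex (t • z)).1 a b - (1 : Mt n) a b| := by
      apply hct.eventually_const_lt
      simpa only [hu0] using hcon
    filter_upwards [this] with t ht
    by_contra hne
    exact absurd (hs _ hne a b) (not_le.2 ht)
  have hd0 : fderiv ℝ κ u.1 (u.1 * z) = 0 :=
    hd.unique ((hasDerivAt_const (0 : ℝ) (0 : ℝ)).congr_of_eventuallyEq he)
  rw [huz, map_neg] at hd0
  exact hd0

private theorem CB7_R2 {n : ℕ} (s : ℝ) (hs1 : s ≤ 1) (u : SL n)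
    (h : ∀ a b, |u.1 a b - (1 : Mt n) a b| ≤ s) (a b : Fin n) : |u.1 a b| ≤ 2 := by
  have h1 := h a b
  have h2 : |(1 : Mt n) a b| ≤ 1 := by
    rw [Matrix.one_apply]
    split_ifs <;> simp
  have h3 := abs_sub_abs_le_abs_sub (u.1 a b) ((1 : Mt n) a b)
  linarith

private theorem CB7_rd {n : ℕ} (y : Mt n) (m : ℕ) (F F' : ℕ → Fn n) (h : ∀ j, RD y (F j) (F' j)) :
    RD y (fun g => ∑ j ∈ Finset.range m, F j g) (fun g => ∑ j ∈ Finset.range m, F' j g) := by
  obtain ⟨-, -, hadd, -, -, h0, -⟩ := rd_rules (n := n)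
  induction m with
  | zero => simpa using h0 y 0
  | succ m ih =>
    simp only [Finset.sum_range_succ]
    exact hadd y _ _ _ _ ih (h m)

/-- Row CB7. The smoothing operator. PLAN. `κ` from `molli`, `S = cv ν κ`, `Q_0 = id`, `Q_{j+1} F = Q_j F - S (Q_j F)`,
`P F = F - Q_m F = ∑_{j<m} S (Q_j F)`. (1) `Q_j F ∈ WB θ (m-j) (C (s θ)^j M)` by `cv_step`, so `|F - P F| ≤ C (s θ)^m M`.
(2) `Q_j F ∈ WB θ m (C M)`, `S Q_j F ∈ WB θ m (C M)` by `cv_wb` (`∫ |κ| = 1`, `R = 2`). (3) `R_y (S Q_j F) =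
cv (Lk y κ) (Q_j F) ∈ WB θ m (C M / s)` by `cv_rd`, `cv_wb`. (4) `SG` from `cv_rd`. (5)-(7) `cv_facts`. -/
theorem smooth_op {n : ℕ} (m : ℕ) : ∃ C : ℝ, 1 ≤ C ∧ ∀ s : ℝ, 0 < s → s ≤ 1 →
    ∃ P : Fn n → Fn n,
      (∀ (θ M : ℝ) (F : Fn n), 1 ≤ θ → 0 ≤ M → WB θ m M F →
        (∀ g, |F g - P F g| ≤ C * (s * θ) ^ m * M) ∧ WB θ m (C * M) (P F) ∧
        ∀ y : Mt n, T1 y → ∃ F' : Fn n, RD y (P F) F' ∧ WB θ m (C * M / s) F') ∧
      (∀ F : Fn n, Continuous F → ∀ j, SG j (P F)) ∧
      (∀ F G : Fn n, Continuous F → Continuous G → P (fun g => F g + G g) = fun g => P F g + P G g) ∧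
      (∀ (F : Fn n) (r : ℝ), Continuous F → P (fun g => r * F g) = fun g => r * P F g) ∧
      (∀ (F : Fn n) (γ : SL n), P (fun g => F (γ * g)) = fun g => P F (γ * g)) ∧
      (∀ (F : Fn n) (k : SL n), Ort k → P (fun g => F (g * k)) = fun g => P F (g * k)) := by
  obtain ⟨ν, hν⟩ := haarK (n := n)
  choose K hK1 hK using fun k => cv_step ν hν k
  obtain ⟨C2, hC2, hwb⟩ := cv_wb ν hν m 2
  obtain ⟨C3, hC3, hmol⟩ := molli ν hν
  obtain ⟨wle, wmono, -, wadd, wmul, -, wsum, -⟩ := wb_alg (n := n)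
  obtain ⟨cf1, -, cf3, cf4, -, cf6⟩ := cv_facts ν hν
  set A : ℝ := ∑ k ∈ Finset.range (m + 1), K k with hA
  have hKA : ∀ k, k < m + 1 → K k ≤ A := fun k hk =>
    Finset.single_le_sum (f := K) (fun i _ => (zero_le_one.trans (hK1 i))) (Finset.mem_range.2 hk)
  have hA1 : 1 ≤ A := (hK1 0).trans (hKA 0 (Nat.succ_pos m))
  have hA0 : 0 ≤ A := zero_le_one.trans hA1
  have hD0 : 0 ≤ 1 + C2 := by linarith
  have hD1 : 1 ≤ 1 + C2 := by linarith
  have hDm : ∀ j, 0 ≤ (1 + C2) ^ j := fun j => pow_nonneg hD0 j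
  have hE0 : 0 ≤ (m : ℝ) * (C2 * C3 * (1 + C2) ^ m) := by positivity
  refine ⟨A ^ m + (1 + (1 + C2) ^ m) + m * (C2 * C3 * (1 + C2) ^ m), ?_, ?_⟩
  · have := pow_nonneg hA0 m
    have := hDm m
    linarith
  intro s hs hs1
  obtain ⟨κ, hκ, hcs, hpos, hint, hsup, hort, hLk⟩ := hmol s hs hs1
  have hκc : Continuous κ := hκ.continuous
  have hiabs : ∫ u : SL n, |κ u.1| ∂ν = 1 :=
    (integral_congr_ae (Eventually.of_forall fun u => abs_of_nonneg (hpos _))).trans hint
  have hR : ∀ u : SL n, κ u.1 ≠ 0 → ∀ a b, |u.1 a b| ≤ 2 := fun u hu a b =>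
    CB7_R2 s hs1 u (hsup u hu) a b
  refine ⟨fun F => fun g => F g - CB7_Q ν κ m F g, ?_, ?_, ?_, ?_, ?_, ?_⟩
  · intro θ M F hθ hM hF
    have hθ0 : 0 ≤ θ := zero_le_one.trans hθ
    have hFc : Continuous F := by
      cases m with
      | zero => exact hF.1
      | succ m => exact hF.1.1
    -- order reduction
    have h1 : ∀ j, j ≤ m → WB θ (m - j) ((A * s * θ) ^ j * M) (CB7_Q ν κ j F) := by
      intro j
      induction j with
      | zero => intro _; simpa [CB7_Q] using hF
      | succ j ih =>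
        intro hj
        have ih' := ih (by omega)
        obtain ⟨k, hk⟩ : ∃ k, m - j = k + 1 := ⟨m - j - 1, by omega⟩
        have hk2 : m - (j + 1) = k := by omega
        rw [hk] at ih'
        rw [hk2]
        have hMj : 0 ≤ (A * s * θ) ^ j * M := by positivity
        have h2 := hK k s κ hs hs1 hκc hcs hpos hint hsup θ _ _ hθ hMj ih'
        refine wmono θ θ k _ _ _ hθ0 le_rfl ?_ ?_ h2
        · have hkA : K k ≤ A := hKA k (by omega)
          have : K k * s * θ * ((A * s * θ) ^ j * M) ≤ A * s * θ * ((A * s * θ) ^ j * M) := by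
            apply mul_le_mul_of_nonneg_right _ hMj
            apply mul_le_mul_of_nonneg_right _ hθ0
            exact mul_le_mul_of_nonneg_right hkA hs.le
          calc K k * s * θ * ((A * s * θ) ^ j * M) ≤ A * s * θ * ((A * s * θ) ^ j * M) := this
            _ = (A * s * θ) ^ (j + 1) * M := by ring
        · have := zero_le_one.trans (hK1 k)
          positivity
    -- full order bounds
    have h3 : ∀ j, WB θ m ((1 + C2) ^ j * M) (CB7_Q ν κ j F) := by
      intro j
      induction j with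
      | zero => simpa [CB7_Q] using hF
      | succ j ih =>
        have hMj : 0 ≤ (1 + C2) ^ j * M := mul_nonneg (hDm j) hM
        have h4 := hwb κ hκc hcs hR θ _ _ hθ hMj ih
        rw [hiabs, mul_one] at h4
        have h5 := wadd θ m _ _ _ _ ih (wmul θ m _ (-1) _ h4)
        have e1 : (fun g => CB7_Q ν κ j F g + -1 * cv ν κ (CB7_Q ν κ j F) g) =
            CB7_Q ν κ (j + 1) F := by
          funext g
          simp only [CB7_Q]
          ring
        have e2 : (1 + C2) ^ j * M + |(-1 : ℝ)| * (C2 * ((1 + C2) ^ j * M)) =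
            (1 + C2) ^ (j + 1) * M := by
          rw [abs_neg, abs_one]
          ring
        rw [e1, e2] at h5
        exact h5
    refine ⟨?_, ?_, ?_⟩
    · intro g
      have h6 := h1 m le_rfl
      rw [Nat.sub_self] at h6
      have h7 := h6.2 g
      have e3 : F g - (F g - CB7_Q ν κ m F g) = CB7_Q ν κ m F g := by ring
      simp only [e3]
      refine h7.trans ?_
      have e4 : (A * s * θ) ^ m * M = A ^ m * ((s * θ) ^ m * M) := by
        rw [mul_assoc A s θ, mul_pow]
        ring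
      rw [e4, mul_assoc]
      apply mul_le_mul_of_nonneg_right _ (by positivity)
      have := hDm m
      linarith
    · have h5 := wadd θ m _ _ _ _ hF (wmul θ m _ (-1) _ (h3 m))
      have e1 : (fun g => F g + -1 * CB7_Q ν κ m F g) = fun g => F g - CB7_Q ν κ m F g := by
        funext g
        ring
      rw [e1] at h5
      refine wmono θ θ m _ _ _ hθ0 le_rfl ?_ ?_ h5
      · rw [abs_neg, abs_one, one_mul]
        have := pow_nonneg hA0 m
        nlinarith [mul_nonneg this hM, mul_nonneg hE0 hM]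
      · rw [abs_neg, abs_one, one_mul]
        have := mul_nonneg (hDm m) hM
        linarith
    · intro y hy
      have hy0 : y.trace = 0 := hy.1
      refine ⟨fun g => ∑ j ∈ Finset.range m, cv ν (Lk y κ) (CB7_Q ν κ j F) g, ?_, ?_⟩
      · show RD y (fun g => F g - CB7_Q ν κ m F g) _
        rw [CB7_tel]
        exact CB7_rd y m (fun j => cv ν κ (CB7_Q ν κ j F)) (fun j => cv ν (Lk y κ) (CB7_Q ν κ j F))
          fun j => (cv_rd ν hν κ hκ hcs _ (CB7_cont ν hν κ hκc hcs F hFc j)).1 y hy0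
      · have hLc := (cv_rd ν hν κ hκ hcs F hFc).2.2 y
        have hLR : ∀ u : SL n, Lk y κ u.1 ≠ 0 → ∀ a b, |u.1 a b| ≤ 2 := fun u hu a b =>
          CB7_R2 s hs1 u (CB7_supp κ hκ s hsup y hy0 u hu) a b
        have hI0 : 0 ≤ ∫ u : SL n, |Lk y κ u.1| ∂ν := integral_nonneg fun u => abs_nonneg _
        have hI1 := hLk y hy.2
        have hall : ∀ j ∈ Finset.range m, WB θ m (C2 * C3 * (1 + C2) ^ m * M / s)
            (cv ν (Lk y κ) (CB7_Q ν κ j F)) := by
          intro j hj
          have hMj : 0 ≤ (1 + C2) ^ j * M := mul_nonneg (hDm j) hM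
          have h8 := hwb (Lk y κ) hLc.1.continuous hLc.2 hLR θ _ _ hθ hMj (h3 j)
          refine wmono θ θ m _ _ _ hθ0 le_rfl ?_ ?_ h8
          · have hp : (1 + C2) ^ j ≤ (1 + C2) ^ m :=
              pow_le_pow_right₀ hD1 (Finset.mem_range.1 hj).le
            calc C2 * (∫ u : SL n, |Lk y κ u.1| ∂ν) * ((1 + C2) ^ j * M)
                ≤ C2 * (C3 / s) * ((1 + C2) ^ m * M) := by
                  apply mul_le_mul
                  · exact mul_le_mul_of_nonneg_left hI1 (by linarith)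
                  · exact mul_le_mul_of_nonneg_right hp hM
                  · exact hMj
                  · have : 0 ≤ C3 / s := by positivity
                    positivity
              _ = C2 * C3 * (1 + C2) ^ m * M / s := by ring
          · positivity
        have h9 := wsum θ m _ ℕ (Finset.range m) _ hθ0 hall
        rw [Finset.card_range] at h9
        refine wmono θ θ m _ _ _ hθ0 le_rfl ?_ ?_ h9
        · have e5 : (m : ℝ) * (C2 * C3 * (1 + C2) ^ m * M / s) =
              (m * (C2 * C3 * (1 + C2) ^ m)) * M / s := by ring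
          rw [e5]
          apply div_le_div_of_nonneg_right _ hs.le
          apply mul_le_mul_of_nonneg_right _ hM
          have := pow_nonneg hA0 m
          have := hDm m
          linarith
        · positivity
  · intro F hF j
    show SG j (fun g => F g - CB7_Q ν κ m F g)
    rw [CB7_tel]
    exact (sg_alg (n := n)).2.2.2.2.1 j ℕ (Finset.range m) _ fun i _ =>
      (cv_rd ν hν κ hκ hcs _ (CB7_cont ν hν κ hκc hcs F hF i)).2.1 j
  · intro F G hF hG
    have h : ∀ j, CB7_Q ν κ j (fun g => F g + G g) =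
        fun g => CB7_Q ν κ j F g + CB7_Q ν κ j G g := by
      intro j
      induction j with
      | zero => rfl
      | succ j ih =>
        funext g
        simp only [CB7_Q]
        rw [ih, (cf6 κ _ _ 1 hκc hcs (CB7_cont ν hν κ hκc hcs F hF j)
          (CB7_cont ν hν κ hκc hcs G hG j)).1 g]
        ring
    funext g
    simp only [h]
    ring
  · intro F r hF
    have h : ∀ j, CB7_Q ν κ j (fun g => r * F g) = fun g => r * CB7_Q ν κ j F g := by
      intro j
      induction j with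
      | zero => rfl
      | succ j ih =>
        funext g
        simp only [CB7_Q]
        rw [ih, (cf6 κ _ _ r hκc hcs (CB7_cont ν hν κ hκc hcs F hF j)
          (CB7_cont ν hν κ hκc hcs F hF j)).2 g]
        ring
    funext g
    simp only [h]
    ring
  · intro F γ
    have h : ∀ j, CB7_Q ν κ j (fun g => F (γ * g)) = fun g => CB7_Q ν κ j F (γ * g) := by
      intro j
      induction j with
      | zero => rfl
      | succ j ih =>
        funext g
        simp only [CB7_Q]
        rw [ih, cf3]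
    funext g
    simp only [h]
  · intro F k hk
    have h : ∀ j, CB7_Q ν κ j (fun g => F (g * k)) = fun g => CB7_Q ν κ j F (g * k) := by
      intro j
      induction j with
      | zero => rfl
      | succ j ih =>
        funext g
        simp only [CB7_Q]
        rw [ih, cf4 κ _ k g hk fun u => hort k u hk]
    funext g
    simp only [h]

end FL27
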