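import Pool.Agent.LibFL27.CDefs
import Pool.Agent.LibFL27.CB7

set_option autoImplicit false
set_option maxSynthPendingDepth 3

open Matrix MeasureTheory Topology Filter LibNC38
open LibNC27 hiding Mt
open scoped Matrix.Norms.Elementwise ContDiff

namespace FL27

/-- Row CB8. The smoothed tensor. PLAN. `Js v w := P (J v w)` with `P` from `smooth_op` (linear by its clauses 3, 4:
`LinearMap.mk₂`), `FJ` from clauses 5, 6: `J v w (g k) = J (k v kᵀ) (k w kᵀ) g` gives
`P (J v w) (g k) = P (fun g => J v w (g k)) g = P (J (k v kᵀ) (k w kᵀ)) g`. -/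
theorem smooth_tensor {n : ℕ} (m : ℕ) : ∃ C : ℝ, 1 ≤ C ∧ ∀ (Γ : Subgroup (SL n))
    (J : Mt n →ₗ[ℝ] Mt n →ₗ[ℝ] Fn n) (θ M s : ℝ), FJ Γ J → 1 ≤ θ → 0 ≤ M → 0 < s → s ≤ 1 →
    (∀ v w : Mt n, Bx v → Bx w → WB θ m M (J v w)) →
    ∃ Js : Mt n →ₗ[ℝ] Mt n →ₗ[ℝ] Fn n, FJ Γ Js ∧ (∀ v w j, SG j (Js v w)) ∧
      ∀ v w : Mt n, Bx v → Bx w → (∀ g, |J v w g - Js v w g| ≤ C * (s * θ) ^ m * M) ∧
        WB θ m (C * M) (Js v w) ∧
        ∀ y : Mt n, T1 y → ∃ F' : Fn n, RD y (Js v w) F' ∧ WB θ m (C * M / s) F' := by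
  obtain ⟨C, hC, hP⟩ := smooth_op (n := n) m
  refine ⟨C, hC, fun Γ J θ M s hJ hθ hM hs hs1 hW => ?_⟩
  obtain ⟨P, p1, p2, p3, p4, p5, p6⟩ := hP s hs hs1
  have hadd : ∀ F G : Fn n, Continuous F → Continuous G → P (F + G) = P F + P G :=
    fun F G hF hG => p3 F G hF hG
  have hsmul : ∀ (r : ℝ) (F : Fn n), Continuous F → P (r • F) = r • P F :=
    fun r F hF => p4 F r hF
  let Js : Mt n →ₗ[ℝ] Mt n →ₗ[ℝ] Fn n := LinearMap.mk₂ ℝ (fun v w => P (J v w))
    (by
      intro a b c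
      rw [LinearMap.map_add₂]
      exact hadd _ _ (hJ.cont a c) (hJ.cont b c))
    (by
      intro r a c
      rw [LinearMap.map_smul₂]
      exact hsmul r _ (hJ.cont a c))
    (by
      intro a b c
      rw [map_add]
      exact hadd _ _ (hJ.cont a b) (hJ.cont a c))
    (by
      intro r a c
      rw [map_smul]
      exact hsmul r _ (hJ.cont a c))
  have hJs : ∀ v w, Js v w = P (J v w) := fun v w => rfl
  refine ⟨Js, ?_, ?_, ?_⟩
  · refine ⟨?_, ?_, ?_, ?_, ?_⟩
    · intro v w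
      rw [hJs]
      exact p2 (J v w) (hJ.cont v w) 0
    · intro v w
      rw [hJs, hJs, hJ.symm v w]
    · intro γ hγ v w g
      rw [hJs]
      have h1 := p5 (J v w) γ
      have h2 : (fun g => J v w (γ * g)) = J v w := by
        funext g
        exact hJ.inv γ hγ v w g
      rw [h2] at h1
      exact (congrFun h1 g).symm
    · intro k hk v w g
      rw [hJs, hJs]
      have h1 := p6 (J v w) k hk
      have h2 : (fun g => J v w (g * k)) = J (k.1 * v * k.1ᵀ) (k.1 * w * k.1ᵀ) := by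
        funext g
        exact hJ.ort k hk v w g
      rw [h2] at h1
      exact (congrFun h1 g).symm
    · intro v w
      rw [hJs, hJs, ← hJ.pr v w]
  · intro v w j
    rw [hJs]
    exact p2 (J v w) (hJ.cont v w) j
  · intro v w hv hw
    rw [hJs]
    exact p1 θ M (J v w) hθ hM (hW v w hv hw)

end FL27
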