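import Pool.Agent.LibFL27.CDefs
import Pool.Agent.LibNC38.G1a
import Pool.Agent.LibNC38.G6a

set_option autoImplicit false
set_option maxSynthPendingDepth 3

open Matrix MeasureTheory Topology Filter LibNC38
open LibNC27 hiding Mt
open scoped Matrix.Norms.Elementwise ContDiff

namespace FL27

/-- `tr (g gᵀ)` -/
private noncomputable def CC1_q {n : ℕ} (g : SL n) : ℝ := (g.1 * g.1ᵀ).trace

private theorem CC1_cont {n : ℕ} : Continuous (CC1_q : SL n → ℝ) := by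
  unfold CC1_q
  have h1 : Continuous fun g : SL n => g.1 := continuous_subtype_val
  exact (h1.matrix_mul h1.matrix_transpose).matrix_trace

private theorem CC1_entry {n : ℕ} (g : SL n) (i j : Fin n) : g.1 i j ^ 2 ≤ CC1_q g := by
  unfold CC1_q
  rw [Matrix.trace]
  have h0 : ∀ a : Fin n, (g.1 * g.1ᵀ).diag a = ∑ b, g.1 a b ^ 2 := by
    intro a
    rw [Matrix.diag_apply, Matrix.mul_apply]
    refine Finset.sum_congr rfl fun b _ => ?_
    rw [Matrix.transpose_apply, sq]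
  calc g.1 i j ^ 2 ≤ ∑ b, g.1 i b ^ 2 :=
        Finset.single_le_sum (f := fun b => g.1 i b ^ 2) (fun b _ => sq_nonneg _) (Finset.mem_univ j)
    _ ≤ ∑ a, ∑ b, g.1 a b ^ 2 :=
        Finset.single_le_sum (f := fun a => ∑ b, g.1 a b ^ 2)
          (fun a _ => Finset.sum_nonneg fun b _ => sq_nonneg _) (Finset.mem_univ i)
    _ = ∑ a, (g.1 * g.1ᵀ).diag a := Finset.sum_congr rfl fun a _ => (h0 a).symm

private theorem CC1_ort {n : ℕ} (g k : SL n) (hk : Ort k) : CC1_q (g * k) = CC1_q g := by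
  unfold CC1_q
  have e : (g * k).1 = g.1 * k.1 := rfl
  have hk' : k.1 * k.1ᵀ = 1 := hk
  rw [e, Matrix.transpose_mul, Matrix.mul_assoc, ← Matrix.mul_assoc k.1, hk', Matrix.one_mul]

private theorem CC1_cpt {n : ℕ} (R : ℝ) (hR : 0 ≤ R) : ∃ S : Set (SL n), IsCompact S ∧
    ∀ g : SL n, CC1_q g ≤ R + 1 → g ∈ S := by
  refine ⟨_, bounded_compact (n := n) (R + 1), ?_⟩
  intro g hg i j
  have h1 := CC1_entry g i j
  have h2 : g.1 i j ^ 2 ≤ (R + 1) ^ 2 := by nlinarith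
  exact abs_le_of_sq_le_sq h2 (by linarith)

/-- Row CC1. Averaging weight. PLAN. `Q` compact from `Coc`; `f(g) = φ(∑ g_ab^2)`, `φ ≥ 0` continuous with compact
support, `> 0` on the values of `∑ g_ab^2` on `Q`: `f` continuous, compactly supported (`SL n` is closed in the
matrices), right invariant under orthogonal matrices. `Disc`: `{γ ∈ Γ | f (γ g) ≠ 0}` is finite, locally
uniformly (see the rows `LibNC38` / `LibNS38` on proper discontinuity; a compact set meets finitely many elements of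
a discrete subgroup: a closed discrete subset). `w = f / ∑_γ f(γ ·)`. -/
theorem weight {n : ℕ} (Γ : Subgroup (SL n)) (hd : Disc Γ) (hc : Coc Γ) :
    ∃ w : SL n → ℝ, Continuous w ∧ (∀ g, 0 ≤ w g) ∧ (∀ k, Ort k → ∀ g, w (g * k) = w g) ∧
      (∀ g : SL n, ∃ U ∈ nhds g, {γ : Γ | ∃ q ∈ U, w (γ.1 * q) ≠ 0}.Finite) ∧
      ∀ g, ∑ᶠ γ : Γ, w (γ.1 * g) = 1 := by
  obtain ⟨hT, hL, hS, hG, -⟩ := SL_top (n := n)
  obtain ⟨Q, hQ, hQc⟩ := hc
  obtain ⟨R0, hR0⟩ : ∃ R : ℝ, ∀ g ∈ Q, CC1_q g ≤ R := by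
    have h1 : BddAbove (CC1_q '' Q) := (hQ.image CC1_cont).bddAbove
    obtain ⟨R, hR⟩ := h1
    exact ⟨R, fun g hg => hR ⟨g, hg, rfl⟩⟩
  set R : ℝ := max R0 0 with hR
  have hRp : 0 ≤ R := le_max_right _ _
  have hRQ : ∀ g ∈ Q, CC1_q g ≤ R := fun g hg => (hR0 g hg).trans (le_max_left _ _)
  obtain ⟨S0, hS0, hSm⟩ := CC1_cpt (n := n) R hRp
  set f : SL n → ℝ := fun g => max 0 (R + 1 - CC1_q g) with hf
  have fc : Continuous f := continuous_const.max (continuous_const.sub CC1_cont)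
  have f0 : ∀ g, 0 ≤ f g := fun g => le_max_left _ _
  have fk : ∀ k : SL n, Ort k → ∀ g, f (g * k) = f g := by
    intro k hk g
    simp only [hf]
    rw [CC1_ort g k hk]
  have fs : ∀ g, f g ≠ 0 → g ∈ S0 := by
    intro g hg
    apply hSm
    by_contra hcon
    apply hg
    simp only [hf]
    exact max_eq_left (by linarith)
  have f1 : ∀ g ∈ Q, 1 ≤ f g := by
    intro g hg
    have := hRQ g hg
    exact le_max_of_le_right (by linarith)
  -- finitely many translates over a compact set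
  have hK : ∀ K : Set (SL n), IsCompact K → {γ : Γ | ∃ g ∈ K, f (γ.1 * g) ≠ 0}.Finite := by
    intro K hK
    have h1 : IsCompact ((fun p : SL n × SL n => p.1 * p.2⁻¹) '' (S0 ×ˢ K)) :=
      (hS0.prod hK).image (continuous_fst.mul continuous_snd.inv)
    have h2 := disc_finite Γ hd _ h1
    refine Set.Finite.of_finite_image (f := Subtype.val) (h2.subset ?_)
      Subtype.val_injective.injOn
    rintro _ ⟨γ, ⟨g, hg, hfg⟩, rfl⟩
    refine ⟨γ.2, ⟨(γ.1 * g, g), ⟨fs _ hfg, hg⟩, ?_⟩⟩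
    show γ.1 * g * g⁻¹ = γ.1
    group
  have hpt : ∀ g : SL n, {γ : Γ | f (γ.1 * g) ≠ 0}.Finite := by
    intro g
    refine (hK {g} isCompact_singleton).subset ?_
    intro γ hγ
    exact ⟨g, rfl, hγ⟩
  set s : SL n → ℝ := fun g => ∑ᶠ γ : Γ, f (γ.1 * g) with hs
  have hsc : Continuous s := by
    refine continuous_finsum (fun γ => fc.comp (continuous_const.mul continuous_id)) ?_
    intro g
    obtain ⟨K, hKc, hKn⟩ := exists_compact_mem_nhds g
    refine ⟨K, hKn, (hK K hKc).subset ?_⟩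
    rintro γ ⟨x, hx1, hx2⟩
    exact ⟨x, hx2, hx1⟩
  have hsp : ∀ g : SL n, 0 < s g := by
    intro g
    obtain ⟨γ, hγ, hγg⟩ := hQc g
    have h1 : 1 ≤ f (γ * g) := f1 _ hγg
    have h2 : f ((⟨γ, hγ⟩ : Γ).1 * g) ≤ s g :=
      single_le_finsum (⟨γ, hγ⟩ : Γ) (hpt g) (fun δ => f0 _)
    have h3 : f ((⟨γ, hγ⟩ : Γ).1 * g) = f (γ * g) := rfl
    linarith
  have hsi : ∀ (δ : Γ) (g : SL n), s (δ.1 * g) = s g := by
    intro δ g
    simp only [hs]
    have h1 : ∑ᶠ γ : Γ, f (((Equiv.mulRight δ) γ).1 * g) = ∑ᶠ γ : Γ, f (γ.1 * g) :=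
      finsum_comp_equiv (Equiv.mulRight δ) (f := fun γ : Γ => f (γ.1 * g))
    rw [← h1]
    refine finsum_congr fun γ => ?_
    rw [Equiv.coe_mulRight, Subgroup.coe_mul, mul_assoc]
  have hsk : ∀ k : SL n, Ort k → ∀ g, s (g * k) = s g := by
    intro k hk g
    simp only [hs]
    refine finsum_congr fun γ => ?_
    rw [← mul_assoc, fk k hk]
  refine ⟨fun g => f g / s g, fc.div hsc fun g => (hsp g).ne', fun g => div_nonneg (f0 g) (hsp g).le,
    ?_, ?_, ?_⟩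
  · intro k hk g
    show f (g * k) / s (g * k) = f g / s g
    rw [fk k hk, hsk k hk]
  · intro g
    obtain ⟨K, hKc, hKn⟩ := exists_compact_mem_nhds g
    refine ⟨K, hKn, (hK K hKc).subset ?_⟩
    rintro γ ⟨q, hq, hq1⟩
    refine ⟨q, hq, fun h0 => hq1 ?_⟩
    show f (γ.1 * q) / s (γ.1 * q) = 0
    rw [h0, zero_div]
  · intro g
    have h1 : ∀ γ : Γ, f (γ.1 * g) / s (γ.1 * g) = f (γ.1 * g) * (s g)⁻¹ := by
      intro γ
      rw [hsi γ g, div_eq_mul_inv]
    calc ∑ᶠ γ : Γ, f (γ.1 * g) / s (γ.1 * g) = ∑ᶠ γ : Γ, f (γ.1 * g) * (s g)⁻¹ :=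
          finsum_congr h1
      _ = (∑ᶠ γ : Γ, f (γ.1 * g)) * (s g)⁻¹ := (finsum_mul' _ _ (hpt g)).symm
      _ = 1 := mul_inv_cancel₀ (hsp g).ne'

end FL27
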