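import Pool.Agent.LibFL27.CDefs
import Pool.Agent.LibFL27.CB4
import Pool.Agent.LibFL27.CA4b

set_option autoImplicit false
set_option maxSynthPendingDepth 3

open Matrix MeasureTheory Topology Filter LibNC38
open LibNC27 hiding Mt
open scoped Matrix.Norms.Elementwise ContDiff

namespace FL27

private def CC10_Op (n : ℕ) : Type := Matrix (Fin n) (Fin n) ℝ

private noncomputable instance CC10_nr (n : ℕ) : NormedRing (CC10_Op n) :=
  Matrix.linftyOpNormedRing (n := Fin n) (α := ℝ)

private noncomputable instance CC10_na (n : ℕ) : NormedAlgebra ℝ (CC10_Op n) :=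
  Matrix.linftyOpNormedAlgebra (n := Fin n) (R := ℝ) (α := ℝ)

private noncomputable def CC10_e (n : ℕ) : Mt n ≃ₗ[ℝ] CC10_Op n :=
  { toFun := fun A => A
    invFun := fun A => A
    map_add' := fun _ _ => rfl
    map_smul' := fun _ _ => rfl
    left_inv := fun _ => rfl
    right_inv := fun _ => rfl }

private theorem CC10_exp {n : ℕ} : Continuous (fun A : Mt n => NormedSpace.exp A) := by
  have hfin : FiniteDimensional ℝ (CC10_Op n) := LinearEquiv.finiteDimensional (CC10_e n)
  have hcomp : CompleteSpace (CC10_Op n) := FiniteDimensional.complete ℝ (CC10_Op n)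
  have h1 : Continuous (fun B : CC10_Op n => NormedSpace.exp B) := by
    rw [continuous_iff_continuousAt]
    intro B
    exact (NormedSpace.exp_analytic (𝕂 := ℝ) B).continuousAt
  have h2 : Continuous (fun A : Mt n => CC10_e n A) :=
    (LinearMap.toContinuousLinearMap (CC10_e n).toLinearMap).continuous
  have h3 : Continuous (fun B : CC10_Op n => (CC10_e n).symm B) :=
    (LinearMap.toContinuousLinearMap (CC10_e n).symm.toLinearMap).continuous
  exact h3.comp (h1.comp h2)

/-- `ex` of a continuous family of matrices of trace zero is continuous. -/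
private theorem CC10_ex {n : ℕ} {Y : Type} [TopologicalSpace Y] (m : Y → Mt n) (hm : Continuous m)
    (ht : ∀ y, (m y).trace = 0) : Continuous fun y => ex (m y) := by
  have hce : IsEmbedding ((↑) : SL n → Matrix (Fin n) (Fin n) ℝ) :=
    Matrix.SpecialLinearGroup.isClosedEmbedding_val.isEmbedding
  have h1 : (fun y => (ex (m y)).1) = fun y => NormedSpace.exp (m y) :=
    funext fun y => ex_facts.1 (m y) (ht y)
  have h2 : Continuous (fun y => (ex (m y)).1) := by
    rw [h1]
    exact CC10_exp.comp hm
  exact hce.continuous_iff.2 h2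

private theorem CC10_lin {n : ℕ} (L : Mt n →ₗ[ℝ] Fn n) (M : Mt n) (q : SL n) :
    L M q = ∑ e : Fin n × Fin n, M e.1 e.2 * L (Matrix.single e.1 e.2 1) q := by
  conv_lhs => rw [Matrix.matrix_eq_sum_single M]
  rw [map_sum, Finset.sum_apply, Fintype.sum_prod_type]
  refine Finset.sum_congr rfl fun a _ => ?_
  rw [map_sum, Finset.sum_apply]
  refine Finset.sum_congr rfl fun b _ => ?_
  have h1 : Matrix.single a b (M a b) = M a b • Matrix.single a b (1 : ℝ) := by
    rw [Matrix.smul_single, smul_eq_mul, mul_one]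
  rw [h1, map_smul]
  rfl

section par

variable {n : ℕ} {Y : Type} [TopologicalSpace Y] [MeasurableSpace Y] [OpensMeasurableSpace Y] [T2Space Y]
  {μ : Measure Y} [IsFiniteMeasureOnCompacts μ] [IsLocallyFiniteMeasure μ] {S : Set Y}

/-- Parameter integrals over a compact set preserve `SG`. -/
private theorem CC10_T (hS : IsCompact S) (b : Y → SL n) (hb : Continuous b) : ∀ (j : ℕ) (F : Fn n), SG j F →
    ∀ p : Y → ℝ, Continuous p → SG j (fun g => ∫ y in S, p y * F (g * b y) ∂μ) := by
  obtain ⟨-, hL, hSC, hG, -⟩ := SL_top (n := n)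
  have hval : Continuous ((↑) : SL n → Matrix (Fin n) (Fin n) ℝ) :=
    Matrix.SpecialLinearGroup.isClosedEmbedding_val.continuous
  have hcont : ∀ (F : Fn n), Continuous F → ∀ p : Y → ℝ, Continuous p →
      Continuous (fun g => ∫ y in S, p y * F (g * b y) ∂μ) := by
    intro F hF p hp
    refine continuous_parametric_integral_of_continuous (f := fun g y => p y * F (g * b y)) ?_ hS
    exact (hp.comp continuous_snd).mul (hF.comp (continuous_fst.mul (hb.comp continuous_snd)))
  intro j
  induction j with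
  | zero =>
    intro F hF p hp
    exact hcont F hF p hp
  | succ j ih =>
    intro F hF p hp
    have hFc : Continuous F := hF.1
    refine ⟨hcont F hFc p hp, fun x hx => ?_⟩
    obtain ⟨G, hG1, hG2, -⟩ := sg_lin j F hF
    have hGc : ∀ w, Continuous (G w) := by
      intro w
      have h := hG2 w
      cases j with
      | zero => exact h
      | succ j => exact h.1
    -- the conjugation
    have hconj : ∀ (w : Mt n), Continuous fun y => (b y)⁻¹.1 * w * (b y).1 := fun w =>
      ((hval.comp hb.inv).mul continuous_const).mul (hval.comp hb)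
    have htr : ∀ (w : Mt n) (y : Y), w.trace = 0 → ((b y)⁻¹.1 * w * (b y).1).trace = 0 := by
      intro w y hw
      rw [Matrix.trace_mul_comm, ← Matrix.mul_assoc]
      have h1 : (b y).1 * (b y)⁻¹.1 = 1 := by
        have := congrArg Subtype.val (mul_inv_cancel (b y))
        exact this
      rw [h1, Matrix.one_mul]
      exact hw
    -- the derivative in the direction `w`
    have hjoint : ∀ (w : Mt n) (q : SL n), Continuous fun y => p y * G ((b y)⁻¹.1 * w * (b y).1) (q * b y) := by
      intro w q
      have h1 : (fun y => p y * G ((b y)⁻¹.1 * w * (b y).1) (q * b y)) = fun y => p y *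
          ∑ e : Fin n × Fin n, ((b y)⁻¹.1 * w * (b y).1) e.1 e.2 * G (Matrix.single e.1 e.2 1) (q * b y) := by
        funext y
        rw [CC10_lin]
      rw [h1]
      refine hp.mul (continuous_finsetSum _ fun e _ => ?_)
      refine Continuous.mul ?_ ((hGc _).comp (continuous_const.mul hb))
      exact (continuous_apply e.2).comp ((continuous_apply e.1).comp (hconj w))
    have hint : ∀ f : Y → ℝ, Continuous f → Integrable f (μ.restrict S) := fun f hf =>
      (hf.continuousOn (s := S)).integrableOn_compact hS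
    set H : Mt n → Fn n := fun w g => ∫ y in S, p y * G ((b y)⁻¹.1 * w * (b y).1) (g * b y) ∂μ with hH
    have hadd : ∀ w w', H (w + w') = H w + H w' := by
      intro w w'
      funext g
      rw [Pi.add_apply, hH]
      simp only
      rw [← integral_add (hint _ (hjoint w g)) (hint _ (hjoint w' g))]
      refine integral_congr_ae (Eventually.of_forall fun y => ?_)
      simp only
      rw [Matrix.mul_add, Matrix.add_mul, map_add, Pi.add_apply, mul_add]
    have hsmul : ∀ (r : ℝ) w, H (r • w) = r • H w := by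
      intro r w
      funext g
      rw [Pi.smul_apply, smul_eq_mul, hH]
      simp only
      rw [← integral_const_mul]
      refine integral_congr_ae (Eventually.of_forall fun y => ?_)
      simp only
      rw [Matrix.mul_smul, Matrix.smul_mul, map_smul, Pi.smul_apply, smul_eq_mul]
      ring
    set HL : Mt n →ₗ[ℝ] Fn n := { toFun := H, map_add' := hadd, map_smul' := hsmul } with hHL
    -- it is a sum of integrals of the same kind
    have hsum : ∀ w : Mt n, H w = fun g => ∑ e ∈ (Finset.univ : Finset (Fin n × Fin n)),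
        ∫ y in S, (p y * ((b y)⁻¹.1 * w * (b y).1) e.1 e.2) * G (Matrix.single e.1 e.2 1) (g * b y) ∂μ := by
      intro w
      funext g
      rw [← integral_finsetSum]
      · rw [hH]
        refine integral_congr_ae (Eventually.of_forall fun y => ?_)
        simp only
        rw [CC10_lin, Finset.mul_sum]
        exact Finset.sum_congr rfl fun e _ => by ring
      · intro e _
        refine hint _ ((hp.mul ?_).mul ((hGc _).comp (continuous_const.mul hb)))
        exact (continuous_apply e.2).comp ((continuous_apply e.1).comp (hconj w))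
    have hSG : ∀ w : Mt n, SG j (H w) := by
      intro w
      rw [hsum w]
      refine sg_alg.2.2.2.2.1 j _ _ _ fun e _ => ih _ (hG2 _) _ (hp.mul ?_)
      exact (continuous_apply e.2).comp ((continuous_apply e.1).comp (hconj w))
    have hHc : ∀ w, Continuous (H w) := by
      intro w
      have h := hSG w
      cases j with
      | zero => exact h
      | succ j => exact h.1
    refine ⟨H x, ?_, hSG x⟩
    refine rd_crit (fun g => ∫ y in S, p y * F (g * b y) ∂μ) HL hHc ?_ x hx
    intro w hw g
    -- differentiate under the integral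
    have hexc : Continuous fun t : ℝ => ex (t • w) := ex_facts.2.2.2.2.2 w hw
    have hder : ∀ (y : Y) (t : ℝ), HasDerivAt (fun s : ℝ => p y * F (g * ex (s • w) * b y))
        (p y * G ((b y)⁻¹.1 * w * (b y).1) (g * ex (t • w) * b y)) t := by
      intro y t
      have h1 : RD w (fun g => F (g * b y)) (fun g => G ((b y)⁻¹.1 * w * (b y).1) (g * b y)) :=
        rd_rules.2.2.2.2.2.2.2.2 w F _ (b y) (hG1 _ (htr w y hw))
      exact (rd_rules.2.1 w _ _ hw h1 g t).const_mul (p y)
    have hjoint2 : Continuous fun q : ℝ × Y =>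
        p q.2 * G ((b q.2)⁻¹.1 * w * (b q.2).1) (g * ex (q.1 • w) * b q.2) := by
      have h1 : (fun q : ℝ × Y => p q.2 * G ((b q.2)⁻¹.1 * w * (b q.2).1) (g * ex (q.1 • w) * b q.2)) =
          fun q : ℝ × Y => p q.2 * ∑ e : Fin n × Fin n, ((b q.2)⁻¹.1 * w * (b q.2).1) e.1 e.2 *
            G (Matrix.single e.1 e.2 1) (g * ex (q.1 • w) * b q.2) := by
        funext q
        rw [CC10_lin]
      rw [h1]
      refine (hp.comp continuous_snd).mul (continuous_finsetSum _ fun e _ => ?_)
      refine Continuous.mul ?_ ((hGc _).comp ((continuous_const.mul (hexc.comp continuous_fst)).mul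
        (hb.comp continuous_snd)))
      exact ((continuous_apply e.2).comp ((continuous_apply e.1).comp (hconj w))).comp continuous_snd
    obtain ⟨C, hC⟩ := ((isCompact_Icc (a := (-1 : ℝ)) (b := 1)).prod hS).exists_bound_of_continuousOn
      hjoint2.continuousOn
    have hmeas : ∀ t : ℝ, Continuous fun y => p y * F (g * ex (t • w) * b y) := fun t =>
      hp.mul (hFc.comp (continuous_const.mul hb))
    have key := (hasDerivAt_integral_of_dominated_loc_of_deriv_le (μ := μ.restrict S)
      (F := fun (t : ℝ) (y : Y) => p y * F (g * ex (t • w) * b y))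
      (F' := fun (t : ℝ) (y : Y) => p y * G ((b y)⁻¹.1 * w * (b y).1) (g * ex (t • w) * b y))
      (x₀ := 0) (s := Set.Icc (-1 : ℝ) 1) (bound := fun _ => C)
      (Icc_mem_nhds (by norm_num) (by norm_num))
      (Eventually.of_forall fun t => (hint _ (hmeas t)).aestronglyMeasurable)
      (hint _ (hmeas 0))
      ((hint _ (hjoint w (g * ex ((0 : ℝ) • w)))).aestronglyMeasurable)
      ?_ ?_ (Eventually.of_forall fun y t _ => hder y t)).2
    · have h0 : g * ex ((0 : ℝ) • w) = g := by
        rw [zero_smul, ex_facts.2.2.2.1, mul_one]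
      rw [h0] at key
      exact key
    · refine (ae_restrict_iff' hS.measurableSet).2 (Eventually.of_forall fun y hy t ht => ?_)
      exact hC (t, y) ⟨ht, hy⟩
    · exact hint _ continuous_const

end par

private theorem CC10_entry {n : ℕ} (a b : Fin n) : ContDiff ℝ ∞ (fun A : Mt n => A a b) :=
  contDiff_apply_apply ℝ ℝ a b

private theorem CC10_adj {n : ℕ} (a b : Fin n) : ContDiff ℝ ∞ (fun A : Mt n => A.adjugate a b) := by
  have h1 : (fun A : Mt n => A.adjugate a b) = fun A : Mt n =>
      ∑ σ : Equiv.Perm (Fin n), ((Equiv.Perm.sign σ : ℤ) : ℝ) *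
        ∏ i, (A.updateRow b (Pi.single a 1)) (σ i) i := by
    funext A
    rw [Matrix.adjugate_apply, Matrix.det_apply']
  rw [h1]
  refine ContDiff.sum fun σ _ => contDiff_const.mul (contDiff_prod fun i _ => ?_)
  by_cases h : σ i = b
  · have h2 : (fun A : Mt n => (A.updateRow b (Pi.single a 1)) (σ i) i) =
        fun _ => (Pi.single a (1 : ℝ) : Fin n → ℝ) i := by
      funext A
      rw [h, Matrix.updateRow_self]
    rw [h2]
    exact contDiff_const
  · have h2 : (fun A : Mt n => (A.updateRow b (Pi.single a 1)) (σ i) i) = fun A : Mt n => A (σ i) i := by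
      funext A
      rw [Matrix.updateRow_ne h]
    rw [h2]
    exact CC10_entry _ _

private theorem CC10_mul {n : ℕ} {M N : Mt n → Mt n} (hM : ∀ a b, ContDiff ℝ ∞ (fun A => M A a b))
    (hN : ∀ a b, ContDiff ℝ ∞ (fun A => N A a b)) (a b : Fin n) :
    ContDiff ℝ ∞ (fun A => (M A * N A) a b) := by
  have h1 : (fun A => (M A * N A) a b) = fun A => ∑ k, M A a k * N A k b := by
    funext A
    rw [Matrix.mul_apply]
  rw [h1]
  exact ContDiff.sum fun k _ => (hM a k).mul (hN k b)

/-- The first part. -/
private theorem CC10_P1 {n : ℕ} (ν : Measure (SL n)) (hν : HK ν) (κ : Mt n →ₗ[ℝ] (Mt n → ℝ)) (z : Mt n → Mt n)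
    (hK : Ker ν κ z) (x : Mt n →ₗ[ℝ] Fn n) (hx : ∀ v, Continuous (x v)) (v : Mt n) (j : ℕ) :
    SG j (fun g => ∫ u : SL n, κ v u.1 * x (u⁻¹.1 * ((2 : ℝ) • z u.1) * u.1) (g * u) ∂ν) := by
  set κe : Fin n × Fin n → Mt n → ℝ := fun e A =>
    κ v A * (A.adjugate * ((2 : ℝ) • z A) * A) e.1 e.2 with hκe
  have hsm : ∀ e, ContDiff ℝ ∞ (κe e) := by
    intro e
    refine (hK.ksm v).mul (CC10_mul (CC10_mul (fun a b => CC10_adj a b) fun a b => ?_)
      (fun a b => CC10_entry a b) e.1 e.2)
    show ContDiff ℝ ∞ (fun A => (2 : ℝ) * z A a b)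
    exact contDiff_const.mul (hK.zsm a b)
  have hcs : ∀ e, HasCompactSupport (κe e) := fun e => (hK.kc v).mul_right
  have h1 : (fun g => ∫ u : SL n, κ v u.1 * x (u⁻¹.1 * ((2 : ℝ) • z u.1) * u.1) (g * u) ∂ν) =
      fun g => ∑ e ∈ (Finset.univ : Finset (Fin n × Fin n)),
        cv ν (κe e) (x (Matrix.single e.1 e.2 1)) g := by
    funext g
    have h2 : ∀ e ∈ (Finset.univ : Finset (Fin n × Fin n)), Integrable
        (fun u : SL n => κe e u.1 * x (Matrix.single e.1 e.2 1) (g * u)) ν := fun e _ =>
      ((cv_facts ν hν).1 (κe e) _ (hsm e).continuous (hcs e) (hx _)).1 g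
    unfold cv
    rw [← integral_finsetSum _ h2]
    refine integral_congr_ae (Eventually.of_forall fun u => ?_)
    simp only
    rw [CC10_lin, Finset.mul_sum]
    refine Finset.sum_congr rfl fun e _ => ?_
    rw [hκe]
    simp only
    rw [Matrix.SpecialLinearGroup.coe_inv]
    ring
  rw [h1]
  exact sg_alg.2.2.2.2.1 j _ _ _ fun e _ => (cv_rd ν hν (κe e) (hsm e) (hcs e) _ (hx _)).2.1 j

private theorem CC10_tr {n : ℕ} (A : Mt n) : (A - (A.trace / n) • (1 : Mt n)).trace = 0 := by
  rw [Matrix.trace_sub, Matrix.trace_smul, Matrix.trace_one, Fintype.card_fin, smul_eq_mul]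
  rcases Nat.eq_zero_or_pos n with h | h
  · subst h
    simp [Matrix.trace]
  · have : (n : ℝ) ≠ 0 := by positivity
    field_simp
    ring

/-- The second part. -/
private theorem CC10_P2 {n : ℕ} (ν : Measure (SL n)) (hν : HK ν) (κ : Mt n →ₗ[ℝ] (Mt n → ℝ)) (z : Mt n → Mt n)
    (hK : Ker ν κ z) (J : Mt n →ₗ[ℝ] Mt n →ₗ[ℝ] Fn n) (hJ : ∀ v w j, SG j (J v w)) (c : ℝ) (v : Mt n) (j : ℕ) :
    SG j (fun g => ∫ u : SL n, κ v u.1 * en J c (z u.1) g ∂ν) := by
  obtain ⟨hT2, hL, hSC, hG, -⟩ := SL_top (n := n)
  have hce := Matrix.SpecialLinearGroup.isClosedEmbedding_val (n := Fin n) (R := ℝ)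
  have hval : Continuous ((↑) : SL n → Matrix (Fin n) (Fin n) ℝ) := hce.continuous
  haveI : IsFiniteMeasureOnCompacts ν := ⟨fun K hK => hν.fin K hK⟩
  haveI : IsLocallyFiniteMeasure ν := isLocallyFiniteMeasure_of_isFiniteMeasureOnCompacts
  haveI : SigmaFinite ν := inferInstance
  -- trace free version of `z`
  set z' : Mt n → Mt n := fun A => z A - ((z A).trace / n) • (1 : Mt n) with hz'
  have hzt : ∀ A, (z' A).trace = 0 := fun A => CC10_tr _
  have hzc : Continuous z := by
    refine continuous_pi fun a => continuous_pi fun b => (hK.zsm a b).continuous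
  have hz'c : Continuous z' := by
    have h1 : Continuous fun A => (z A).trace / (n : ℝ) :=
      (continuous_finsetSum _ fun i _ => (hK.zsm i i).continuous).div_const _
    have h2 : Continuous fun A => ((z A).trace / (n : ℝ)) • (1 : Mt n) := h1.smul continuous_const
    exact hzc.sub h2
  have hzz : ∀ u : SL n, κ v u.1 ≠ 0 → z' u.1 = z u.1 := by
    intro u hu
    have h1 : (z u.1).trace = 0 := ((hK.zs v u hu).1).2
    rw [hz']
    simp only
    rw [h1, zero_div, zero_smul, sub_zero]
  set K : Set (SL n) := {u | u.1 ∈ tsupport (κ v)} with hKd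
  have hKc : IsCompact K := hce.isCompact_preimage (hK.kc v)
  set S : Set (SL n × ℝ) := K ×ˢ Set.Icc (0 : ℝ) 1 with hSd
  have hSc : IsCompact S := hKc.prod isCompact_Icc
  set b : SL n × ℝ → SL n := fun y => ex ((y.2 - 1) • z' y.1.1) with hb
  have hzy : Continuous fun y : SL n × ℝ => z' y.1.1 := hz'c.comp (hval.comp continuous_fst)
  have hbc : Continuous b := by
    refine CC10_ex _ ((continuous_snd.sub continuous_const).smul hzy) fun y => ?_
    rw [Matrix.trace_smul, hzt, smul_zero]
  have hkc : Continuous fun y : SL n × ℝ => κ v y.1.1 :=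
    (hK.ksm v).continuous.comp (hval.comp continuous_fst)
  have hze : ∀ e : Fin n × Fin n, Continuous fun y : SL n × ℝ => ((2 : ℝ) • z' y.1.1) e.1 e.2 := fun e =>
    (continuous_apply e.2).comp ((continuous_apply e.1).comp (hzy.const_smul (2 : ℝ)))
  have hJc : ∀ v w, Continuous (J v w) := fun v w => hJ v w 0
  -- the integrand
  set p : (Fin n × Fin n) × (Fin n × Fin n) → SL n × ℝ → ℝ := fun e y =>
    κ v y.1.1 * (((2 : ℝ) • z' y.1.1) e.1.1 e.1.2 * ((2 : ℝ) • z' y.1.1) e.2.1 e.2.2) with hp
  have hpc : ∀ e, Continuous (p e) := fun e => hkc.mul ((hze e.1).mul (hze e.2))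
  set p0 : SL n × ℝ → ℝ := fun y =>
    κ v y.1.1 * -(c * (((2 : ℝ) • z' y.1.1) * ((2 : ℝ) • z' y.1.1)).trace) with hp0
  have hp0c : Continuous p0 := by
    refine hkc.mul ((continuous_const.mul ?_).neg)
    have h1 : Continuous fun y : SL n × ℝ => ((2 : ℝ) • z' y.1.1) * ((2 : ℝ) • z' y.1.1) :=
      (hzy.const_smul (2 : ℝ)).mul (hzy.const_smul (2 : ℝ))
    exact continuous_finsetSum _ fun i _ => (continuous_apply i).comp ((continuous_apply i).comp h1)
  set Je : (Fin n × Fin n) × (Fin n × Fin n) → Fn n := fun e =>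
    J (Matrix.single e.1.1 e.1.2 1) (Matrix.single e.2.1 e.2.2 1) with hJe
  have hint : ∀ f : SL n × ℝ → ℝ, Continuous f → Integrable f ((ν.prod volume).restrict S) := fun f hf =>
    (hf.continuousOn (s := S)).integrableOn_compact hSc
  have hpJ : ∀ (e : (Fin n × Fin n) × (Fin n × Fin n)) (g : SL n), Continuous fun y => p e y * Je e (g * b y) :=
    fun e g => (hpc e).mul ((hJc _ _).comp (continuous_const.mul hbc))
  have hmain : (fun g => ∫ u : SL n, κ v u.1 * en J c (z u.1) g ∂ν) = fun g =>
      (∑ e ∈ (Finset.univ : Finset ((Fin n × Fin n) × (Fin n × Fin n))),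
        ∫ y in S, p e y * Je e (g * b y) ∂(ν.prod volume)) + ∫ y in S, p0 y ∂(ν.prod volume) := by
    funext g
    rw [← integral_finsetSum _ (fun e _ => hint _ (hpJ e g)),
      ← integral_add (integrable_finsetSum _ fun e _ => hint _ (hpJ e g)) (hint _ hp0c)]
    set Φ : SL n × ℝ → ℝ := fun y => (∑ e, p e y * Je e (g * b y)) + p0 y with hΦ
    have hΦc : Continuous Φ := (continuous_finsetSum _ fun e _ => hpJ e g).add hp0c
    have hΦe : ∀ (u : SL n) (s : ℝ), Φ (u, s) = κ v u.1 *
        (J ((2 : ℝ) • z' u.1) ((2 : ℝ) • z' u.1) (g * ex ((s - 1) • z' u.1)) -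
          c * (((2 : ℝ) • z' u.1) * ((2 : ℝ) • z' u.1)).trace) := by
      intro u s
      have h1 : J ((2 : ℝ) • z' u.1) ((2 : ℝ) • z' u.1) (g * ex ((s - 1) • z' u.1)) =
          ∑ e : (Fin n × Fin n) × (Fin n × Fin n), ((2 : ℝ) • z' u.1) e.1.1 e.1.2 *
            (((2 : ℝ) • z' u.1) e.2.1 e.2.2 * Je e (g * ex ((s - 1) • z' u.1))) := by
        have h2 : J ((2 : ℝ) • z' u.1) = ∑ e : Fin n × Fin n, ((2 : ℝ) • z' u.1) e.1 e.2 •
            J (Matrix.single e.1 e.2 1) := by
          conv_lhs => rw [Matrix.matrix_eq_sum_single ((2 : ℝ) • z' u.1)]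
          rw [map_sum, Fintype.sum_prod_type]
          refine Finset.sum_congr rfl fun a _ => ?_
          rw [map_sum]
          refine Finset.sum_congr rfl fun b _ => ?_
          have h1 : Matrix.single a b (((2 : ℝ) • z' u.1) a b) =
              ((2 : ℝ) • z' u.1) a b • Matrix.single a b (1 : ℝ) := by
            rw [Matrix.smul_single, smul_eq_mul, mul_one]
          rw [h1, map_smul]
        rw [h2, LinearMap.sum_apply, Finset.sum_apply]
        symm
        rw [Fintype.sum_prod_type]
        refine Finset.sum_congr rfl fun e _ => ?_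
        rw [LinearMap.smul_apply, Pi.smul_apply, smul_eq_mul, CC10_lin, Finset.mul_sum]
      rw [h1, hΦ]
      simp only
      rw [hp, hp0, mul_sub, Finset.mul_sum]
      simp only
      rw [sub_eq_add_neg, mul_neg]
      congr 1
      refine Finset.sum_congr rfl fun e _ => ?_
      rw [hb]
      simp only
      ring
    have h3 : ∫ y in S, Φ y ∂(ν.prod volume) = ∫ u in K, (∫ s in Set.Icc (0 : ℝ) 1, Φ (u, s)) ∂ν := by
      rw [hSd]
      exact setIntegral_prod _ (hint Φ hΦc)
    rw [h3, ← setIntegral_eq_integral_of_forall_compl_eq_zero (s := K)]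
    · refine setIntegral_congr_fun hKc.measurableSet fun u _ => ?_
      by_cases hu : κ v u.1 = 0
      · rw [hu, zero_mul]
        symm
        have h4 : ∀ s, Φ (u, s) = 0 := fun s => by rw [hΦe, hu, zero_mul]
        simp [h4]
      · rw [← hzz u hu]
        unfold en
        rw [intervalIntegral.integral_of_le zero_le_one, ← integral_Icc_eq_integral_Ioc,
          ← integral_const_mul]
        refine integral_congr_ae (Eventually.of_forall fun s => ?_)
        simp only
        rw [hΦe]
    · intro u hu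
      have h4 : κ v u.1 = 0 := image_eq_zero_of_notMem_tsupport hu
      rw [h4, zero_mul]
  rw [hmain]
  refine sg_alg.2.2.1 j _ _ ?_ (sg_alg.2.1 j _)
  exact sg_alg.2.2.2.2.1 j _ _ _ fun e _ => CC10_T hSc b hbc j _ (hJ _ _ j) _ (hpc e)

/-- Row CC10. Smoothness of `yv`. PLAN. First part: sum of convolutions with smooth kernels (`cv_rd` 2). Second part: as in
CC9 without bounds (all word derivatives of the `J v w` are continuous; kernels with compact support): induction over `j`
for parameter integrals `∫ κ(u) ∫_0^1 p(s,u) F(g b(s,u))` with `F ∈ SG j`, `κ, p` continuous, `b(s,u) = ex((s-1) z(u))`. -/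
theorem yv_sg {n : ℕ} (ν : Measure (SL n)) (hν : HK ν) (κ : Mt n →ₗ[ℝ] (Mt n → ℝ)) (z : Mt n → Mt n)
    (hK : Ker ν κ z) (x : Mt n →ₗ[ℝ] Fn n) (hx : ∀ v, Continuous (x v))
    (J : Mt n →ₗ[ℝ] Mt n →ₗ[ℝ] Fn n) (hJ : ∀ v w j, SG j (J v w)) (c : ℝ) (v : Mt n) (j : ℕ) :
    SG j (fun g => yv ν κ z x J c v g) :=
  sg_alg.2.2.1 j _ _ (CC10_P1 ν hν κ z hK x hx v j) (CC10_P2 ν hν κ z hK J hJ c v j)

end FL27
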