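import Pool.Agent.LibFL27.CDefs
import Pool.Agent.LibFL27.CA5

set_option autoImplicit false
set_option maxSynthPendingDepth 3

open Matrix MeasureTheory Topology Filter LibNC38
open LibNC27 hiding Mt
open scoped Matrix.Norms.Elementwise ContDiff

namespace FL27

private theorem CC3_mul {n : ℕ} (g h : SL n) : (g * h).1 = g.1 * h.1 := rfl

private theorem CC3_act_mul {n : ℕ} (g h : SL n) (p : PD n) :
    act (g * h) p = act g (act h p) := by
  apply Subtype.ext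
  change (g * h).1 * p.1 * (g * h).1ᵀ = g.1 * (h.1 * p.1 * h.1ᵀ) * g.1ᵀ
  rw [CC3_mul, Matrix.transpose_mul]
  simp only [Matrix.mul_assoc]

private theorem CC3_cj {n : ℕ} (g h : SL n) (v : Mt n) :
    (g * h).1 * v * (g * h).1ᵀ = g.1 * (h.1 * v * h.1ᵀ) * g.1ᵀ := by
  rw [CC3_mul, Matrix.transpose_mul]
  simp only [Matrix.mul_assoc]

private theorem CC3_pr0 {n : ℕ} (v : Mt n) :
    pr0 v = (1 / 2 : ℝ) • (v + vᵀ) - (v.trace / n) • (1 : Mt n) := rfl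

private theorem CC3_ort' {n : ℕ} {k : SL n} (hk : Ort k) : k.1ᵀ * k.1 = 1 :=
  mul_eq_one_comm.1 hk

private theorem CC3_sym {n : ℕ} (v : Mt n) : Sym0 (pr0 v) := by
  constructor
  · rw [CC3_pr0, Matrix.transpose_sub, Matrix.transpose_smul, Matrix.transpose_add,
      Matrix.transpose_transpose, Matrix.transpose_smul, Matrix.transpose_one, add_comm vᵀ v]
  · rw [CC3_pr0, Matrix.trace_sub, Matrix.trace_smul, Matrix.trace_add, Matrix.trace_transpose,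
      Matrix.trace_smul, Matrix.trace_one, Fintype.card_fin, smul_eq_mul, smul_eq_mul]
    rcases Nat.eq_zero_or_pos n with h0 | h0
    · subst h0
      simp [Matrix.trace]
    · have h1 : (n : ℝ) ≠ 0 := by exact_mod_cast h0.ne'
      field_simp
      ring

private theorem CC3_id {n : ℕ} (v : Mt n) (h : Sym0 v) : pr0 v = v := by
  rw [CC3_pr0, h.1, h.2, zero_div, zero_smul, sub_zero, ← two_smul ℝ v, smul_smul]
  norm_num

private theorem CC3_conj {n : ℕ} (k : SL n) (v : Mt n) (hk : Ort k) :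
    pr0 (k.1 * v * k.1ᵀ) = k.1 * pr0 v * k.1ᵀ := by
  have h1 : (k.1 * v * k.1ᵀ).trace = v.trace := by
    rw [Matrix.trace_mul_comm, ← Matrix.mul_assoc, CC3_ort' hk, Matrix.one_mul]
  have h2 : (k.1 * v * k.1ᵀ)ᵀ = k.1 * vᵀ * k.1ᵀ := by
    rw [Matrix.transpose_mul, Matrix.transpose_mul, Matrix.transpose_transpose, Matrix.mul_assoc]
  have h3 : k.1 * k.1ᵀ = 1 := hk
  rw [CC3_pr0, CC3_pr0, h1, h2, Matrix.mul_sub, Matrix.sub_mul, Matrix.mul_smul, Matrix.smul_mul,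
    Matrix.mul_add, Matrix.add_mul, Matrix.mul_smul, Matrix.smul_mul, Matrix.mul_one, h3]

private theorem CC3_Jp {n : ℕ} (κ : PD n → Fm n) (v w : Mt n) :
    Jp κ v w = Jf κ (pr0 v) (pr0 w) := rfl

private theorem CC3_tan {n : ℕ} (v : Mt n) (h : Sym0 v) : IsTan (o n) v := by
  refine ⟨h.1, ?_⟩
  change Matrix.trace ((1 : Mt n)⁻¹ * v) = 0
  rw [inv_one, Matrix.one_mul]
  exact h.2

private theorem CC3_inv {n : ℕ} {Γ : Subgroup (SL n)} {κ : PD n → Fm n} (h : FmOK Γ κ) {γ : SL n}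
    (hγ : γ ∈ Γ) (p : PD n) (v w : Mt n) (hv : IsTan p v) (hw : IsTan p w) :
    κ (act γ p) (γ.1 * v * γ.1ᵀ) (γ.1 * w * γ.1ᵀ) = κ p v w := by
  have hvw : IsTan p (v + w) := by
    have := tan_facts.2.2.1 p v w 1 1 hv hw
    simpa using this
  have h1 := h.inv γ hγ p _ hvw
  have h2 := h.inv γ hγ p v hv
  have h3 := h.inv γ hγ p w hw
  have e : γ.1 * (v + w) * γ.1ᵀ = γ.1 * v * γ.1ᵀ + γ.1 * w * γ.1ᵀ := by
    rw [Matrix.mul_add, Matrix.add_mul]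
  rw [e] at h1
  simp only [map_add, LinearMap.add_apply] at h1
  have s1 := h.symm (act γ p) (γ.1 * v * γ.1ᵀ) (γ.1 * w * γ.1ᵀ)
  have s2 := h.symm p v w
  linarith

private theorem CC3_cont {n : ℕ} {Γ : Subgroup (SL n)} {κ : PD n → Fm n} (h : FmOK Γ κ)
    (A B : Mt n) : Continuous fun g : SL n => Jf κ A B g := by
  have hval : Continuous fun g : SL n => g.1 := continuous_subtype_val
  have hc : ∀ A : Mt n, Continuous fun g : SL n => g.1 * A * g.1ᵀ := fun A =>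
    (hval.matrix_mul continuous_const).matrix_mul hval.matrix_transpose
  have hp : Continuous fun g : SL n => act g (o n) := Continuous.subtype_mk (hc _) _
  have hq : ∀ A : Mt n, Continuous fun g : SL n =>
      κ (act g (o n)) (g.1 * A * g.1ᵀ) (g.1 * A * g.1ᵀ) := fun A =>
    (fm_cont Γ κ h).comp (hp.prodMk (hc A))
  have e : (fun g : SL n => Jf κ A B g) = fun g =>
      (κ (act g (o n)) (g.1 * (A + B) * g.1ᵀ) (g.1 * (A + B) * g.1ᵀ) -
        κ (act g (o n)) (g.1 * A * g.1ᵀ) (g.1 * A * g.1ᵀ) -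
        κ (act g (o n)) (g.1 * B * g.1ᵀ) (g.1 * B * g.1ᵀ)) / 2 := by
    funext g
    have e1 : g.1 * (A + B) * g.1ᵀ = g.1 * A * g.1ᵀ + g.1 * B * g.1ᵀ := by
      rw [Matrix.mul_add, Matrix.add_mul]
    have s1 := h.symm (act g (o n)) (g.1 * A * g.1ᵀ) (g.1 * B * g.1ᵀ)
    rw [e1]
    simp only [map_add, LinearMap.add_apply]
    unfold Jf
    linarith
  rw [e]
  exact (((hq _).sub (hq _)).sub (hq _)).div_const _

private theorem CC3_bx {n : ℕ} (v : Mt n) (h : Bx v) : Bx ((1 / 2 : ℝ) • pr0 v) := by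
  intro a b
  have hn : 0 < n := a.pos
  have hn' : (0 : ℝ) < n := by exact_mod_cast hn
  have h1 : |v.trace / n| ≤ 1 := by
    rw [abs_div, abs_of_pos hn', div_le_one hn']
    unfold Matrix.trace
    refine (Finset.abs_sum_le_sum_abs _ _).trans ?_
    refine (Finset.sum_le_sum fun i _ => h i i).trans ?_
    simp
  have h2 : pr0 v a b = 1 / 2 * (v a b + v b a) - v.trace / n * (1 : Mt n) a b := by
    rw [CC3_pr0]
    rfl
  have h3 : |(1 : Mt n) a b| ≤ 1 := by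
    rw [Matrix.one_apply]
    split_ifs <;> simp
  have h4 : |v.trace / n * (1 : Mt n) a b| ≤ 1 := by
    rw [abs_mul]
    exact mul_le_one₀ h1 (abs_nonneg _) h3
  have h5 := abs_le.1 (h a b)
  have h6 := abs_le.1 (h b a)
  have h7 := abs_le.1 h4
  rw [Matrix.smul_apply, smul_eq_mul, h2, abs_le]
  constructor <;> linarith [h5.1, h5.2, h6.1, h6.2, h7.1, h7.2]

/-- Row CC3. The tensor `κ` in the frame. PLAN. `pr0 (k v kᵀ) = k (pr0 v) kᵀ` for orthogonal `k`, `pr0 v` is `Sym0`, `pr0`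
is the identity on `Sym0`; `act (g k) o = act g o`; `g (pr0 v) gᵀ` is tangent at `act g o`; invariance: `FmOK.inv` and
polarisation. Bounds: `pr0 v` has entries `≤ 2` for `Bx v` (`n ≥ 1`), `Jf` bilinear: `WB θ k (4 M)`. `Jp gF v w =
tr (pr0 v pr0 w)`. -/
theorem jp_facts {n : ℕ} (Γ : Subgroup (SL n)) :
    (∀ κ : PD n → Fm n, FmOK Γ κ → FJ Γ (Jp κ)) ∧
    (∀ (κ : PD n → Fm n) (v w : Mt n), Sym0 v → Sym0 w → Jp κ v w = Jf κ v w) ∧
    (∀ (κ : PD n → Fm n) (θ M : ℝ) (k : ℕ), 1 ≤ θ → 0 ≤ M → TW θ k M κ → ∀ v w : Mt n, Bx v → Bx w →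
      WB θ k (4 * M) (Jp κ v w)) ∧
    (∀ v w : Mt n, Sym0 v → Sym0 w → ∀ g, Jf gF v w g = (v * w).trace) ∧
    (∀ v : Mt n, Sym0 (pr0 v)) ∧ (∀ v : Mt n, Sym0 v → pr0 v = v) ∧
    (∀ (k : SL n) (v : Mt n), Ort k → pr0 (k.1 * v * k.1ᵀ) = k.1 * pr0 v * k.1ᵀ) := by
  refine ⟨fun κ h => ?_, fun κ v w hv hw => ?_, fun κ θ M k hθ hM hT v w hv hw => ?_,
    fun v w _ _ g => ?_, CC3_sym, CC3_id, CC3_conj⟩
  · constructor
    · intro v w
      rw [CC3_Jp]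
      exact CC3_cont h _ _
    · intro v w
      funext g
      rw [CC3_Jp, CC3_Jp]
      exact h.symm _ _ _
    · intro γ hγ v w g
      rw [CC3_Jp]
      unfold Jf
      rw [CC3_act_mul, CC3_cj, CC3_cj]
      exact CC3_inv h hγ _ _ _ (tan_facts.2.1 g (o n) _ (CC3_tan _ (CC3_sym v)))
        (tan_facts.2.1 g (o n) _ (CC3_tan _ (CC3_sym w)))
    · intro k hk v w g
      rw [CC3_Jp, CC3_Jp, CC3_conj k v hk, CC3_conj k w hk]
      unfold Jf
      have h1 : act k (o n) = o n := by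
        apply Subtype.ext
        change k.1 * 1 * k.1ᵀ = 1
        rw [Matrix.mul_one]
        exact hk
      rw [CC3_act_mul, CC3_cj, CC3_cj, h1]
    · intro v w
      rw [CC3_Jp, CC3_Jp, CC3_id _ (CC3_sym v), CC3_id _ (CC3_sym w)]
  · rw [CC3_Jp, CC3_id v hv, CC3_id w hw]
  · have h1 : Jp κ v w = fun g => 4 * Jf κ ((1 / 2 : ℝ) • pr0 v) ((1 / 2 : ℝ) • pr0 w) g := by
      funext g
      rw [CC3_Jp]
      unfold Jf
      simp only [Matrix.mul_smul, Matrix.smul_mul, map_smul, LinearMap.smul_apply, smul_eq_mul]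
      ring
    have hs : ∀ x : Mt n, Sym0 ((1 / 2 : ℝ) • pr0 x) := by
      intro x
      refine ⟨?_, ?_⟩
      · rw [Matrix.transpose_smul, (CC3_sym x).1]
      · rw [Matrix.trace_smul, (CC3_sym x).2, smul_zero]
    have h2 := wb_alg.2.2.2.2.1 θ k M 4 _ (hT _ _ (hs v) (hs w) (CC3_bx v hv) (CC3_bx w hw))
    rw [h1]
    have h3 : |(4 : ℝ)| = 4 := by norm_num
    rw [h3] at h2
    exact h2
  · change ((g.1 * 1 * g.1ᵀ)⁻¹ * (g.1 * v * g.1ᵀ) * ((g.1 * 1 * g.1ᵀ)⁻¹ * (g.1 * w * g.1ᵀ))).trace = _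
    have e1 : g⁻¹.1 * g.1 = 1 := congrArg Subtype.val (inv_mul_cancel g)
    have e2 : g.1 * g⁻¹.1 = 1 := congrArg Subtype.val (mul_inv_cancel g)
    have e3 : g⁻¹.1ᵀ * g.1ᵀ = 1 := by rw [← Matrix.transpose_mul, e2, Matrix.transpose_one]
    have e4 : g.1ᵀ * g⁻¹.1ᵀ = 1 := by rw [← Matrix.transpose_mul, e1, Matrix.transpose_one]
    have hinv : (g.1 * 1 * g.1ᵀ)⁻¹ = g⁻¹.1ᵀ * g⁻¹.1 := by
      apply Matrix.inv_eq_left_inv
      rw [Matrix.mul_one]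
      calc g⁻¹.1ᵀ * g⁻¹.1 * (g.1 * g.1ᵀ) = g⁻¹.1ᵀ * (g⁻¹.1 * g.1) * g.1ᵀ := by
            simp only [Matrix.mul_assoc]
        _ = 1 := by rw [e1, Matrix.mul_one, e3]
    have h1 : ∀ x : Mt n, (g.1 * 1 * g.1ᵀ)⁻¹ * (g.1 * x * g.1ᵀ) = g⁻¹.1ᵀ * x * g.1ᵀ := by
      intro x
      rw [hinv]
      calc g⁻¹.1ᵀ * g⁻¹.1 * (g.1 * x * g.1ᵀ) = g⁻¹.1ᵀ * (g⁻¹.1 * g.1) * x * g.1ᵀ := by
            simp only [Matrix.mul_assoc]
        _ = _ := by rw [e1, Matrix.mul_one]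
    rw [h1, h1]
    have h2 : g⁻¹.1ᵀ * v * g.1ᵀ * (g⁻¹.1ᵀ * w * g.1ᵀ) = g⁻¹.1ᵀ * (v * w * g.1ᵀ) := by
      calc g⁻¹.1ᵀ * v * g.1ᵀ * (g⁻¹.1ᵀ * w * g.1ᵀ) =
            g⁻¹.1ᵀ * v * (g.1ᵀ * g⁻¹.1ᵀ) * w * g.1ᵀ := by simp only [Matrix.mul_assoc]
        _ = _ := by rw [e4, Matrix.mul_one]; simp only [Matrix.mul_assoc]
    rw [h2, Matrix.trace_mul_comm, Matrix.mul_assoc, e4, Matrix.mul_one]

end FL27
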