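import Pool.Agent.LibFL27.CDefs
import Pool.Agent.LibFL27.CB2
import Pool.Agent.LibFL27.CA0
import Pool.Agent.LibFL27.CA1
import Pool.Agent.LibFL27.CC3

set_option autoImplicit false
set_option maxSynthPendingDepth 3

open Matrix MeasureTheory Topology Filter LibNC38
open LibNC27 hiding Mt
open scoped Matrix.Norms.Elementwise ContDiff

namespace FL27

private theorem CC7s_x {n : ℕ} (x : Mt n →ₗ[ℝ] Fn n) (w : Mt n) (h : SL n) :
    x w h = ∑ i, ∑ j, w i j * x (Matrix.single i j (1 : ℝ)) h := by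
  conv_lhs => rw [Matrix.matrix_eq_sum_single w]
  simp only [map_sum, Finset.sum_apply]
  refine Finset.sum_congr rfl fun i _ => Finset.sum_congr rfl fun j _ => ?_
  have e : Matrix.single i j (w i j) = w i j • Matrix.single i j (1 : ℝ) := by
    rw [Matrix.smul_single, smul_eq_mul, mul_one]
  rw [e, map_smul]
  rfl

private theorem CC7s_J {n : ℕ} (J : Mt n →ₗ[ℝ] Mt n →ₗ[ℝ] Fn n) (v w : Mt n) (h : SL n) :
    J v w h = ∑ i, ∑ j, v i j * ∑ k, ∑ l, w k l *
      J (Matrix.single i j (1 : ℝ)) (Matrix.single k l (1 : ℝ)) h := by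
  have h1 := CC7s_x (J.flip w) v h
  rw [LinearMap.flip_apply] at h1
  rw [h1]
  refine Finset.sum_congr rfl fun i _ => Finset.sum_congr rfl fun j _ => ?_
  rw [LinearMap.flip_apply, CC7s_x (J (Matrix.single i j (1 : ℝ))) w h]

private theorem CC7s_cx {n : ℕ} {Y : Type*} [TopologicalSpace Y] (x : Mt n →ₗ[ℝ] Fn n)
    (hx : ∀ v, Continuous (x v)) (W : Y → Mt n) (hW : ∀ a b, Continuous fun y => W y a b)
    (H : Y → SL n) (hH : Continuous H) : Continuous fun y => x (W y) (H y) := by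
  have e : (fun y => x (W y) (H y)) = fun y => ∑ i, ∑ j, W y i j *
      x (Matrix.single i j (1 : ℝ)) (H y) := by
    funext y
    exact CC7s_x x (W y) (H y)
  rw [e]
  exact continuous_finsetSum _ fun i _ => continuous_finsetSum _ fun j _ =>
    (hW i j).mul ((hx _).comp hH)

private theorem CC7s_cJ {n : ℕ} {Y : Type*} [TopologicalSpace Y] (J : Mt n →ₗ[ℝ] Mt n →ₗ[ℝ] Fn n)
    (hJ : ∀ v w, Continuous (J v w)) (W : Y → Mt n) (hW : ∀ a b, Continuous fun y => W y a b)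
    (H : Y → SL n) (hH : Continuous H) : Continuous fun y => J (W y) (W y) (H y) := by
  have e : (fun y => J (W y) (W y) (H y)) = fun y => ∑ i, ∑ j, W y i j * ∑ k, ∑ l, W y k l *
      J (Matrix.single i j (1 : ℝ)) (Matrix.single k l (1 : ℝ)) (H y) := by
    funext y
    exact CC7s_J J (W y) (W y) (H y)
  rw [e]
  exact continuous_finsetSum _ fun i _ => continuous_finsetSum _ fun j _ =>
    (hW i j).mul (continuous_finsetSum _ fun k _ => continuous_finsetSum _ fun l _ =>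
      (hW k l).mul ((hJ _ _).comp hH))

private theorem CC7s_cex {n : ℕ} {Y : Type*} [TopologicalSpace Y] (W : Y → Mt n)
    (hW : Continuous W) (h0 : ∀ y, (W y).trace = 0) : Continuous fun y => ex (W y) := by
  refine continuous_induced_rng.2 ?_
  have e : (fun y => (ex (W y)).1) = fun y => NormedSpace.exp (W y) := by
    funext y
    exact ex_facts.1 (W y) (h0 y)
  change Continuous fun y => (ex (W y)).1
  rw [e]
  exact exp_smooth.continuous.comp hW

private theorem CC7s_sm {n : ℕ} {Y : Type*} [TopologicalSpace Y] (c : Y → ℝ) (W : Y → Mt n)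
    (hc : Continuous c) (hW : Continuous W) : Continuous fun y => c y • W y := hc.smul hW


/-- continuity of the energy in all variables -/
private theorem CC7s_cen {n : ℕ} (J : Mt n →ₗ[ℝ] Mt n →ₗ[ℝ] Fn n) (hJ : ∀ v w, Continuous (J v w))
    (c : ℝ) (Z : SL n → Mt n) (hZ : Continuous Z) (h0 : ∀ u, (Z u).trace = 0) :
    Continuous fun q : SL n × SL n => en J c (Z q.2) q.1 := by
  haveI : IsTopologicalGroup (SL n) := (SL_top (n := n)).2.2.2.1
  refine intervalIntegral.continuous_parametric_intervalIntegral_of_continuous'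
    (f := fun (q : SL n × SL n) s => J ((2 : ℝ) • Z q.2) ((2 : ℝ) • Z q.2) (q.1 * ex ((s - 1) • Z q.2)) -
      c * (((2 : ℝ) • Z q.2) * ((2 : ℝ) • Z q.2)).trace) ?_ 0 1
  have hZ1 : Continuous fun y : (SL n × SL n) × ℝ => Z y.1.2 :=
    hZ.comp (continuous_snd.comp continuous_fst)
  have h2 : Continuous fun y : (SL n × SL n) × ℝ => (2 : ℝ) • Z y.1.2 :=
    CC7s_sm (fun _ => 2) _ continuous_const hZ1
  have h3 : Continuous fun y : (SL n × SL n) × ℝ => (y.2 - 1) • Z y.1.2 :=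
    (continuous_snd.sub continuous_const).smul hZ1
  have h4 : Continuous fun y : (SL n × SL n) × ℝ => ex ((y.2 - 1) • Z y.1.2) :=
    CC7s_cex _ h3 fun y => by rw [Matrix.trace_smul, h0, smul_zero]
  refine (CC7s_cJ J hJ _ (fun a b => h2.matrix_elem a b) _
    ((continuous_fst.comp continuous_fst).mul h4)).sub ?_
  exact continuous_const.mul (h2.matrix_mul h2).matrix_trace

private theorem CC7s_emb {n : ℕ} : IsClosedEmbedding (fun u : SL n => u.1) := by
  have hc : IsClosed {A : Mt n | A.det = 1} :=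
    isClosed_eq (Continuous.matrix_det continuous_id) continuous_const
  exact hc.isClosedEmbedding_subtypeVal

private theorem CC7s_kT {n : ℕ} (k : SL n) (hk : Ort k) : k⁻¹.1 = k.1ᵀ := by
  have h2 : k⁻¹.1 * k.1 = 1 := by
    have : (k⁻¹ * k).1 = 1 := by rw [inv_mul_cancel]; rfl
    exact this
  calc k⁻¹.1 = k⁻¹.1 * (k.1 * k.1ᵀ) := by rw [show k.1 * k.1ᵀ = 1 from hk, Matrix.mul_one]
    _ = k.1ᵀ := by rw [← Matrix.mul_assoc, h2, Matrix.one_mul]

private theorem CC7s_oi {n : ℕ} (k : SL n) (hk : Ort k) : Ort k⁻¹ := by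
  show k⁻¹.1 * k⁻¹.1ᵀ = 1
  rw [CC7s_kT k hk, Matrix.transpose_transpose, ← CC7s_kT k hk]
  have : (k⁻¹ * k).1 = 1 := by rw [inv_mul_cancel]; rfl
  exact this

/-- the energy in a rotated frame -/
private theorem CC7s_en {n : ℕ} (Γ : Subgroup (SL n)) (J : Mt n →ₗ[ℝ] Mt n →ₗ[ℝ] Fn n) (hJ : FJ Γ J)
    (c : ℝ) (k g : SL n) (hk : Ort k) (Z : Mt n) (h0 : Z.trace = 0) :
    en J c (k.1 * Z * k.1ᵀ) g = en J c Z (g * k) := by
  have hT := CC7s_kT k hk
  have hkk : k.1ᵀ * k.1 = 1 := by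
    rw [← hT]
    have : (k⁻¹ * k).1 = 1 := by rw [inv_mul_cancel]; rfl
    exact this
  unfold en
  refine intervalIntegral.integral_congr fun s _ => ?_
  have e1 : ex ((s - 1) • (k.1 * Z * k.1ᵀ)) = k * ex ((s - 1) • Z) * k⁻¹ := by
    rw [ex_facts.2.2.2.2.1 _ (by rw [Matrix.trace_smul, h0, smul_zero]) k, hT, Matrix.mul_smul,
      Matrix.smul_mul]
  have e2 : (2 : ℝ) • (k.1 * Z * k.1ᵀ) = k.1 * ((2 : ℝ) • Z) * k.1ᵀ := by
    rw [Matrix.mul_smul, Matrix.smul_mul]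
  have e3 : J (k.1 * ((2 : ℝ) • Z) * k.1ᵀ) (k.1 * ((2 : ℝ) • Z) * k.1ᵀ)
      (g * (k * ex ((s - 1) • Z) * k⁻¹)) =
      J ((2 : ℝ) • Z) ((2 : ℝ) • Z) (g * k * ex ((s - 1) • Z)) := by
    have h1 := hJ.ort k hk ((2 : ℝ) • Z) ((2 : ℝ) • Z) (g * (k * ex ((s - 1) • Z) * k⁻¹))
    rw [← h1]
    congr 1
    group
  have e4 : ((k.1 * ((2 : ℝ) • Z) * k.1ᵀ) * (k.1 * ((2 : ℝ) • Z) * k.1ᵀ)).trace =
      (((2 : ℝ) • Z) * ((2 : ℝ) • Z)).trace := by
    calc ((k.1 * ((2 : ℝ) • Z) * k.1ᵀ) * (k.1 * ((2 : ℝ) • Z) * k.1ᵀ)).trace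
        = (k.1 * ((2 : ℝ) • Z) * (k.1ᵀ * k.1) * ((2 : ℝ) • Z) * k.1ᵀ).trace := by
          simp only [Matrix.mul_assoc]
      _ = (k.1 * (((2 : ℝ) • Z) * ((2 : ℝ) • Z)) * k.1ᵀ).trace := by
          rw [hkk, Matrix.mul_one]
          simp only [Matrix.mul_assoc]
      _ = (k.1ᵀ * (k.1 * (((2 : ℝ) • Z) * ((2 : ℝ) • Z)))).trace := Matrix.trace_mul_comm _ _
      _ = _ := by rw [← Matrix.mul_assoc, hkk, Matrix.one_mul]
  simp only [e1, e2, e3, e4]

/-- Row CC7. `yv` is linear in `v` and equivariant. -/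
theorem yv_fx {n : ℕ} (ν : Measure (SL n)) (hν : HK ν) (κ : Mt n →ₗ[ℝ] (Mt n → ℝ)) (z : Mt n → Mt n)
    (hK : Ker ν κ z) (Γ : Subgroup (SL n)) (x : Mt n →ₗ[ℝ] Fn n) (hx : FX Γ x)
    (J : Mt n →ₗ[ℝ] Mt n →ₗ[ℝ] Fn n) (hJ : FJ Γ J) (c : ℝ) :
    ∃ y : Mt n →ₗ[ℝ] Fn n, (∀ v g, y v g = yv ν κ z x J c v g) ∧ FX Γ y := by
  haveI : IsTopologicalGroup (SL n) := (SL_top (n := n)).2.2.2.1
  haveI : IsFiniteMeasureOnCompacts ν := ⟨fun {K} hK => hν.fin K hK⟩
  obtain ⟨-, -, -, -, p5, p6, p7⟩ := jp_facts (n := n) Γ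
  -- continuity
  have hzc : Continuous fun u : SL n => z u.1 := by
    refine continuous_matrix fun a b => ?_
    exact (hK.zsm a b).continuous.comp continuous_subtype_val
  have hpz : Continuous fun u : SL n => pr0 (z u.1) :=
    (LinearMap.continuous_of_finiteDimensional (pr0 : Mt n →ₗ[ℝ] Mt n)).comp hzc
  have hκc : ∀ v, Continuous fun u : SL n => κ v u.1 := fun v =>
    (hK.ksm v).continuous.comp continuous_subtype_val
  have hκs : ∀ v, HasCompactSupport fun u : SL n => κ v u.1 := fun v =>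
    (hK.kc v).comp_isClosedEmbedding CC7s_emb
  set f1 : SL n → SL n → ℝ := fun g u => x (u⁻¹.1 * ((2 : ℝ) • z u.1) * u.1) (g * u) with hf1
  set f2 : SL n → SL n → ℝ := fun g u => en J c (pr0 (z u.1)) g with hf2
  have hc1 : Continuous fun q : SL n × SL n => f1 q.1 q.2 := by
    have hiv0 : Continuous fun u : SL n => u⁻¹.1 := continuous_subtype_val.comp continuous_inv
    have hiv : Continuous fun q : SL n × SL n => q.2⁻¹.1 := hiv0.comp continuous_snd
    have hw : Continuous fun q : SL n × SL n => q.2⁻¹.1 * ((2 : ℝ) • z q.2.1) * q.2.1 :=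
      (hiv.matrix_mul (CC7s_sm (fun _ => 2) _ continuous_const (hzc.comp continuous_snd))).matrix_mul
        (continuous_subtype_val.comp continuous_snd)
    exact CC7s_cx x hx.cont _ (fun a b => hw.matrix_elem a b) _ (continuous_fst.mul continuous_snd)
  have hc2 : Continuous fun q : SL n × SL n => f2 q.1 q.2 :=
    CC7s_cen J hJ.cont c _ hpz (fun u => (p5 _).2)
  have hyv : ∀ v g, yv ν κ z x J c v g =
      (∫ u : SL n, κ v u.1 * f1 g u ∂ν) + ∫ u : SL n, κ v u.1 * f2 g u ∂ν := by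
    intro v g
    unfold yv
    congr 1
    refine integral_congr_ae (Eventually.of_forall fun u => ?_)
    show κ v u.1 * en J c (z u.1) g = κ v u.1 * en J c (pr0 (z u.1)) g
    by_cases h0 : κ v u.1 = 0
    · rw [h0, zero_mul, zero_mul]
    · rw [p6 _ (hK.zs v u h0).1]
  have hint : ∀ (f : SL n → SL n → ℝ), (Continuous fun q : SL n × SL n => f q.1 q.2) → ∀ v g,
      Integrable (fun u : SL n => κ v u.1 * f g u) ν := by
    intro f hf v g
    refine Continuous.integrable_of_hasCompactSupport ((hκc v).mul ?_) ((hκs v).mul_right)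
    exact hf.comp (continuous_const.prodMk continuous_id)
  have hcont : ∀ (f : SL n → SL n → ℝ), (Continuous fun q : SL n × SL n => f q.1 q.2) → ∀ v,
      Continuous fun g : SL n => ∫ u : SL n, κ v u.1 * f g u ∂ν := by
    intro f hf v
    have h := continuousOn_integral_of_compact_support (μ := ν) (s := (Set.univ : Set (SL n)))
      (f := fun (g : SL n) (u : SL n) => κ v u.1 * f g u) (k := tsupport fun u : SL n => κ v u.1)
      (hκs v) ?_ ?_
    · exact continuousOn_univ.1 h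
    · exact (((hκc v).comp continuous_snd).mul hf).continuousOn
    · intro p u _ hu
      have : κ v u.1 = 0 := image_eq_zero_of_notMem_tsupport (f := fun u : SL n => κ v u.1) hu
      simp [this]
  have hadd : ∀ (f : SL n → SL n → ℝ), (Continuous fun q : SL n × SL n => f q.1 q.2) → ∀ v w g,
      ∫ u : SL n, κ (v + w) u.1 * f g u ∂ν =
        (∫ u : SL n, κ v u.1 * f g u ∂ν) + ∫ u : SL n, κ w u.1 * f g u ∂ν := by
    intro f hf v w g
    rw [← integral_add (hint f hf v g) (hint f hf w g)]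
    refine integral_congr_ae (Eventually.of_forall fun u => ?_)
    show κ (v + w) u.1 * f g u = κ v u.1 * f g u + κ w u.1 * f g u
    rw [map_add, Pi.add_apply]
    ring
  have hsm : ∀ (f : SL n → SL n → ℝ) (r : ℝ) v g,
      ∫ u : SL n, κ (r • v) u.1 * f g u ∂ν = r * ∫ u : SL n, κ v u.1 * f g u ∂ν := by
    intro f r v g
    rw [← integral_const_mul]
    refine integral_congr_ae (Eventually.of_forall fun u => ?_)
    show κ (r • v) u.1 * f g u = r * (κ v u.1 * f g u)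
    rw [map_smul, Pi.smul_apply, smul_eq_mul]
    ring
  refine ⟨{ toFun := fun v g => (∫ u : SL n, κ v u.1 * f1 g u ∂ν) + ∫ u : SL n, κ v u.1 * f2 g u ∂ν
            map_add' := ?_
            map_smul' := ?_ }, ?_, ?_⟩
  · intro v w
    funext g
    show (∫ u : SL n, κ (v + w) u.1 * f1 g u ∂ν) + ∫ u : SL n, κ (v + w) u.1 * f2 g u ∂ν =
      ((∫ u : SL n, κ v u.1 * f1 g u ∂ν) + ∫ u : SL n, κ v u.1 * f2 g u ∂ν) +
        ((∫ u : SL n, κ w u.1 * f1 g u ∂ν) + ∫ u : SL n, κ w u.1 * f2 g u ∂ν)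
    rw [hadd f1 hc1, hadd f2 hc2]
    ring
  · intro r v
    funext g
    show (∫ u : SL n, κ (r • v) u.1 * f1 g u ∂ν) + ∫ u : SL n, κ (r • v) u.1 * f2 g u ∂ν =
      r * ((∫ u : SL n, κ v u.1 * f1 g u ∂ν) + ∫ u : SL n, κ v u.1 * f2 g u ∂ν)
    rw [hsm f1, hsm f2]
    ring
  · intro v g
    rw [hyv]
    rfl
  · refine ⟨?_, ?_, ?_, ?_⟩
    · intro v
      exact (hcont f1 hc1 v).add (hcont f2 hc2 v)
    · intro γ hγ v g
      have e1 : ∀ u, f1 (γ * g) u = f1 g u := by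
        intro u
        show x (u⁻¹.1 * ((2 : ℝ) • z u.1) * u.1) (γ * g * u) = x (u⁻¹.1 * ((2 : ℝ) • z u.1) * u.1) (g * u)
        rw [_root_.mul_assoc γ g u, hx.inv γ hγ]
      have e2 : ∀ u, f2 (γ * g) u = f2 g u := by
        intro u
        show en J c _ (γ * g) = en J c _ g
        unfold en
        refine intervalIntegral.integral_congr fun s _ => ?_
        show J _ _ (γ * g * ex ((s - 1) • pr0 (z u.1))) - _ = J _ _ (g * ex ((s - 1) • pr0 (z u.1))) - _
        rw [_root_.mul_assoc γ g, hJ.inv γ hγ]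
      show (∫ u : SL n, κ v u.1 * f1 (γ * g) u ∂ν) + ∫ u : SL n, κ v u.1 * f2 (γ * g) u ∂ν =
        (∫ u : SL n, κ v u.1 * f1 g u ∂ν) + ∫ u : SL n, κ v u.1 * f2 g u ∂ν
      simp only [e1, e2]
    · intro k hk v g
      have hT := CC7s_kT k hk
      have hoi := CC7s_oi k hk
      show (∫ u : SL n, κ v u.1 * f1 (g * k) u ∂ν) + ∫ u : SL n, κ v u.1 * f2 (g * k) u ∂ν =
        (∫ u : SL n, κ (k.1 * v * k.1ᵀ) u.1 * f1 g u ∂ν) +
          ∫ u : SL n, κ (k.1 * v * k.1ᵀ) u.1 * f2 g u ∂ν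
      have hz : ∀ u : SL n, z (k * u * k⁻¹).1 = k.1 * z u.1 * k.1ᵀ := fun u => hK.zort k k⁻¹ hk hoi u
      have hκ : ∀ u : SL n, κ (k.1 * v * k.1ᵀ) (k * u * k⁻¹).1 = κ v u.1 :=
        fun u => hK.kort k k⁻¹ hk hoi v u
      have hs := (cv_facts ν hν).2.2.2.2.1
      rw [← hs (fun u => κ (k.1 * v * k.1ᵀ) u.1 * f1 g u) k k⁻¹ hk hoi,
        ← hs (fun u => κ (k.1 * v * k.1ᵀ) u.1 * f2 g u) k k⁻¹ hk hoi]
      congr 1
      · refine integral_congr_ae (Eventually.of_forall fun u => ?_)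
        show κ v u.1 * f1 (g * k) u = κ (k.1 * v * k.1ᵀ) (k * u * k⁻¹).1 * f1 g (k * u * k⁻¹)
        rw [hκ]
        congr 1
        show x (u⁻¹.1 * ((2 : ℝ) • z u.1) * u.1) (g * k * u) =
          x ((k * u * k⁻¹)⁻¹.1 * ((2 : ℝ) • z (k * u * k⁻¹).1) * (k * u * k⁻¹).1) (g * (k * u * k⁻¹))
        rw [hz]
        have e1 : (k * u * k⁻¹)⁻¹.1 * ((2 : ℝ) • (k.1 * z u.1 * k.1ᵀ)) * (k * u * k⁻¹).1 =
            k.1 * (u⁻¹.1 * ((2 : ℝ) • z u.1) * u.1) * k.1ᵀ := by
          have a1 : (k * u * k⁻¹)⁻¹.1 = k.1 * u⁻¹.1 * k⁻¹.1 := by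
            have : (k * u * k⁻¹)⁻¹ = k * u⁻¹ * k⁻¹ := by group
            rw [this]
            rfl
          have a2 : (k * u * k⁻¹).1 = k.1 * u.1 * k⁻¹.1 := rfl
          have a3 : k⁻¹.1 * k.1 = 1 := by
            have : (k⁻¹ * k).1 = 1 := by rw [inv_mul_cancel]; rfl
            exact this
          rw [a1, a2, ← hT, Matrix.mul_smul, Matrix.smul_mul, Matrix.mul_smul, Matrix.smul_mul,
            Matrix.mul_smul, Matrix.smul_mul]
          congr 1
          calc k.1 * u⁻¹.1 * k⁻¹.1 * (k.1 * z u.1 * k⁻¹.1) * (k.1 * u.1 * k⁻¹.1)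
              = k.1 * u⁻¹.1 * (k⁻¹.1 * k.1) * z u.1 * (k⁻¹.1 * k.1) * u.1 * k⁻¹.1 := by
                simp only [Matrix.mul_assoc]
            _ = k.1 * (u⁻¹.1 * z u.1 * u.1) * k⁻¹.1 := by
                rw [a3, Matrix.mul_one, Matrix.mul_one]
                simp only [Matrix.mul_assoc]
        rw [e1, ← hx.ort k hk]
        congr 1
        group
      · refine integral_congr_ae (Eventually.of_forall fun u => ?_)
        show κ v u.1 * f2 (g * k) u = κ (k.1 * v * k.1ᵀ) (k * u * k⁻¹).1 * f2 g (k * u * k⁻¹)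
        rw [hκ]
        congr 1
        show en J c (pr0 (z u.1)) (g * k) = en J c (pr0 (z (k * u * k⁻¹).1)) g
        rw [hz, p7 k _ hk, CC7s_en Γ J hJ c k g hk _ (p5 _).2]
    · intro v
      funext g
      show (∫ u : SL n, κ v u.1 * f1 g u ∂ν) + ∫ u : SL n, κ v u.1 * f2 g u ∂ν =
        (∫ u : SL n, κ (pr0 v) u.1 * f1 g u ∂ν) + ∫ u : SL n, κ (pr0 v) u.1 * f2 g u ∂ν
      rw [← hK.pr v]

end FL27
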