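import Pool.Agent.LibFL27.CDefs
import Pool.Agent.LibFL27.CC7

set_option autoImplicit false
set_option maxSynthPendingDepth 3

open Matrix MeasureTheory Topology Filter LibNC38
open LibNC27 hiding Mt
open scoped Matrix.Norms.Elementwise ContDiff

namespace FL27

private theorem CC11_x {n : ℕ} (x : Mt n →ₗ[ℝ] Fn n) (w : Mt n) (h : SL n) :
    x w h = ∑ i, ∑ j, w i j * x (Matrix.single i j (1 : ℝ)) h := by
  conv_lhs => rw [Matrix.matrix_eq_sum_single w]
  simp only [map_sum, Finset.sum_apply]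
  refine Finset.sum_congr rfl fun i _ => Finset.sum_congr rfl fun j _ => ?_
  have e : Matrix.single i j (w i j) = w i j • Matrix.single i j (1 : ℝ) := by
    rw [Matrix.smul_single, smul_eq_mul, mul_one]
  rw [e, map_smul]
  rfl

private theorem CC11_J {n : ℕ} (J : Mt n →ₗ[ℝ] Mt n →ₗ[ℝ] Fn n) (v w : Mt n) (h : SL n) :
    J v w h = ∑ i, ∑ j, v i j * ∑ k, ∑ l, w k l *
      J (Matrix.single i j (1 : ℝ)) (Matrix.single k l (1 : ℝ)) h := by
  have h1 := CC11_x (J.flip w) v h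
  rw [LinearMap.flip_apply] at h1
  rw [h1]
  refine Finset.sum_congr rfl fun i _ => Finset.sum_congr rfl fun j _ => ?_
  rw [LinearMap.flip_apply, CC11_x (J (Matrix.single i j (1 : ℝ))) w h]

private theorem CC11_cx {n : ℕ} {Y : Type*} [TopologicalSpace Y] (x : Mt n →ₗ[ℝ] Fn n)
    (hx : ∀ v, Continuous (x v)) (W : Y → Mt n) (hW : ∀ a b, Continuous fun y => W y a b)
    (H : Y → SL n) (hH : Continuous H) : Continuous fun y => x (W y) (H y) := by
  have e : (fun y => x (W y) (H y)) = fun y => ∑ i, ∑ j, W y i j *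
      x (Matrix.single i j (1 : ℝ)) (H y) := by
    funext y
    exact CC11_x x (W y) (H y)
  rw [e]
  exact continuous_finsetSum _ fun i _ => continuous_finsetSum _ fun j _ =>
    (hW i j).mul ((hx _).comp hH)

private theorem CC11_cJ {n : ℕ} {Y : Type*} [TopologicalSpace Y] (J : Mt n →ₗ[ℝ] Mt n →ₗ[ℝ] Fn n)
    (hJ : ∀ v w, Continuous (J v w)) (W : Y → Mt n) (hW : ∀ a b, Continuous fun y => W y a b)
    (H : Y → SL n) (hH : Continuous H) : Continuous fun y => J (W y) (W y) (H y) := by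
  have e : (fun y => J (W y) (W y) (H y)) = fun y => ∑ i, ∑ j, W y i j * ∑ k, ∑ l, W y k l *
      J (Matrix.single i j (1 : ℝ)) (Matrix.single k l (1 : ℝ)) (H y) := by
    funext y
    exact CC11_J J (W y) (W y) (H y)
  rw [e]
  exact continuous_finsetSum _ fun i _ => continuous_finsetSum _ fun j _ =>
    (hW i j).mul (continuous_finsetSum _ fun k _ => continuous_finsetSum _ fun l _ =>
      (hW k l).mul ((hJ _ _).comp hH))

private theorem CC11_cex {n : ℕ} {Y : Type*} [TopologicalSpace Y] (W : Y → Mt n)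
    (hW : Continuous W) (h0 : ∀ y, (W y).trace = 0) : Continuous fun y => ex (W y) := by
  refine continuous_induced_rng.2 ?_
  have e : (fun y => (ex (W y)).1) = fun y => NormedSpace.exp (W y) := by
    funext y
    exact ex_facts.1 (W y) (h0 y)
  change Continuous fun y => (ex (W y)).1
  rw [e]
  exact exp_smooth.continuous.comp hW

private theorem CC11_sm {n : ℕ} {Y : Type*} [TopologicalSpace Y] (c : Y → ℝ) (W : Y → Mt n)
    (hc : Continuous c) (hW : Continuous W) : Continuous fun y => c y • W y := hc.smul hW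

/-- continuity of the energy -/
private theorem CC11_cen {n : ℕ} (J : Mt n →ₗ[ℝ] Mt n →ₗ[ℝ] Fn n) (hJ : ∀ v w, Continuous (J v w))
    (c : ℝ) (Z : SL n → Mt n) (hZ : Continuous Z) (h0 : ∀ u, (Z u).trace = 0) (g : SL n) :
    Continuous fun u => en J c (Z u) g := by
  haveI : IsTopologicalGroup (SL n) := (SL_top (n := n)).2.2.2.1
  refine intervalIntegral.continuous_parametric_intervalIntegral_of_continuous'
    (f := fun u s => J ((2 : ℝ) • Z u) ((2 : ℝ) • Z u) (g * ex ((s - 1) • Z u)) -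
      c * (((2 : ℝ) • Z u) * ((2 : ℝ) • Z u)).trace) ?_ 0 1
  have hZ1 : Continuous fun y : SL n × ℝ => Z y.1 := hZ.comp continuous_fst
  have h2 : Continuous fun y : SL n × ℝ => (2 : ℝ) • Z y.1 :=
    CC11_sm (fun _ => 2) _ continuous_const hZ1
  have h3 : Continuous fun y : SL n × ℝ => (y.2 - 1) • Z y.1 :=
    (continuous_snd.sub continuous_const).smul hZ1
  have h4 : Continuous fun y : SL n × ℝ => ex ((y.2 - 1) • Z y.1) :=
    CC11_cex _ h3 fun y => by rw [Matrix.trace_smul, h0, smul_zero]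
  refine (CC11_cJ J hJ _ (fun a b => h2.matrix_elem a b) _ (continuous_const.mul h4)).sub ?_
  exact continuous_const.mul (h2.matrix_mul h2).matrix_trace

/-- entries of a symmetric matrix with `tr Z² ≤ 1` -/
private theorem CC11_bx {n : ℕ} (Z : Mt n) (hs : Sym0 Z) (h1 : (Z * Z).trace ≤ 1) : Bx Z := by
  have e : (Z * Z).trace = ∑ i, ∑ j, Z i j ^ 2 := by
    rw [Matrix.trace]
    refine Finset.sum_congr rfl fun i _ => ?_
    rw [Matrix.diag_apply, Matrix.mul_apply]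
    refine Finset.sum_congr rfl fun j _ => ?_
    have : Z j i = Z i j := by
      conv_rhs => rw [← hs.1]
      rfl
    rw [this]
    ring
  intro a b
  have h2 : Z a b ^ 2 ≤ ∑ i, ∑ j, Z i j ^ 2 := by
    have h3 : Z a b ^ 2 ≤ ∑ j, Z a j ^ 2 :=
      Finset.single_le_sum (f := fun j => Z a j ^ 2) (fun j _ => sq_nonneg _) (Finset.mem_univ b)
    exact h3.trans (Finset.single_le_sum (f := fun i => ∑ j, Z i j ^ 2)
      (fun i _ => Finset.sum_nonneg fun j _ => sq_nonneg _) (Finset.mem_univ a))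
  rw [← e] at h2
  have h4 : Z a b ^ 2 ≤ 1 := h2.trans h1
  exact abs_le_one_iff_mul_self_le_one.2 (by rw [← pow_two]; exact h4)

/-- the pointwise estimate -/
private theorem CC11_pt {n : ℕ} (Γ : Subgroup (SL n)) (x : Mt n →ₗ[ℝ] Fn n)
    (J J0 : Mt n →ₗ[ℝ] Mt n →ₗ[ℝ] Fn n) (c σ ρ : ℝ) (hx : FX Γ x) (hJ : FJ Γ J) (hJ0 : FJ Γ J0)
    (hE : EnR x J0 c σ) (hd : ∀ v w : Mt n, Bx v → Bx w → ∀ g, |J v w g - J0 v w g| ≤ ρ)
    (Z : Mt n) (u g : SL n) (hs : Sym0 Z) (h1 : (Z * Z).trace ≤ 1)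
    (hu : u.1 * u.1ᵀ = NormedSpace.exp (-((2 : ℝ) • Z))) :
    |x (u⁻¹.1 * ((2 : ℝ) • Z) * u.1) (g * u) + en J c Z g - x ((2 : ℝ) • Z) g| ≤ σ + 4 * ρ := by
  obtain ⟨f1, f2, -, f4, -, f6⟩ := ex_facts (n := n)
  haveI : IsTopologicalGroup (SL n) := (SL_top (n := n)).2.2.2.1
  have ht : Z.trace = 0 := hs.2
  have a1 : ex ((1 : ℝ) • Z) = ex Z := by rw [one_smul]
  have a2 : ex Z * ex ((-1 : ℝ) • Z) = 1 := by
    rw [← a1, ← f2 Z ht]
    norm_num
    exact f4
  have a3 : ex ((-1 : ℝ) • Z) * ex Z = 1 := by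
    rw [← a1, ← f2 Z ht]
    norm_num
    exact f4
  have a4 : ex ((-1 : ℝ) • Z) * ex Z = 1 := a3
  have hinv : (ex Z)⁻¹ = ex ((-1 : ℝ) • Z) := inv_eq_of_mul_eq_one_right a2
  set k : SL n := ex Z * u with hk
  -- k is orthogonal
  have hexp : (ex Z).1 = NormedSpace.exp Z := f1 Z ht
  have hET : (ex Z).1ᵀ = (ex Z).1 := by
    rw [hexp, ← Matrix.exp_transpose, hs.1]
  have hm2 : (ex ((-2 : ℝ) • Z)).1 = NormedSpace.exp (-((2 : ℝ) • Z)) := by
    rw [f1 _ (by rw [Matrix.trace_smul, ht, smul_zero]), neg_smul]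
  have hort : Ort k := by
    show (ex Z * u).1 * (ex Z * u).1ᵀ = 1
    have e1 : (ex Z * u).1 = (ex Z).1 * u.1 := rfl
    rw [e1, Matrix.transpose_mul, hET]
    calc (ex Z).1 * u.1 * (u.1ᵀ * (ex Z).1) = (ex Z).1 * (u.1 * u.1ᵀ) * (ex Z).1 := by
          simp only [Matrix.mul_assoc]
      _ = (ex Z).1 * (ex ((-2 : ℝ) • Z)).1 * (ex Z).1 := by rw [hu, hm2]
      _ = (ex Z * ex ((-2 : ℝ) • Z) * ex Z).1 := rfl
      _ = 1 := by
        have e2 : ex Z * ex ((-2 : ℝ) • Z) * ex Z = 1 := by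
          rw [← a1, ← f2 Z ht, ← f2 Z ht]
          norm_num
          exact f4
        rw [e2]
        rfl
  have hgu : g * u = g * ex ((-1 : ℝ) • Z) * k := by
    rw [hk, mul_assoc, ← mul_assoc (ex ((-1 : ℝ) • Z)), a3, one_mul]
  have hku : k * u⁻¹ = ex Z := by rw [hk, mul_assoc, mul_inv_cancel, mul_one]
  have hkT : k.1ᵀ = k⁻¹.1 := by
    have h2 : k.1 * k⁻¹.1 = 1 := by
      have : (k * k⁻¹).1 = 1 := by rw [mul_inv_cancel]; rfl
      exact this
    have h3 : k⁻¹.1 * k.1 = 1 := by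
      have : (k⁻¹ * k).1 = 1 := by rw [inv_mul_cancel]; rfl
      exact this
    calc k.1ᵀ = (k⁻¹.1 * k.1) * k.1ᵀ := by rw [h3, Matrix.one_mul]
      _ = k⁻¹.1 * (k.1 * k.1ᵀ) := by rw [Matrix.mul_assoc]
      _ = k⁻¹.1 := by rw [show k.1 * k.1ᵀ = 1 from hort, Matrix.mul_one]
  have hcomm : (ex Z).1 * Z = Z * (ex Z).1 := by
    rw [hexp]
    exact (Commute.refl Z).exp_left
  have hw : k.1 * (u⁻¹.1 * ((2 : ℝ) • Z) * u.1) * k.1ᵀ = (2 : ℝ) • Z := by
    rw [hkT]
    have e1 : u.1 * k⁻¹.1 = ((ex Z)⁻¹).1 := by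
      have : u * k⁻¹ = (ex Z)⁻¹ := by
        rw [hk, _root_.mul_inv_rev, mul_inv_cancel_left]
      rw [← this]
      rfl
    have e2 : k.1 * u⁻¹.1 = (ex Z).1 := by
      rw [← hku]
      rfl
    calc k.1 * (u⁻¹.1 * ((2 : ℝ) • Z) * u.1) * k⁻¹.1
        = (k.1 * u⁻¹.1) * ((2 : ℝ) • Z) * (u.1 * k⁻¹.1) := by simp only [Matrix.mul_assoc]
      _ = (ex Z).1 * ((2 : ℝ) • Z) * ((ex Z)⁻¹).1 := by rw [e1, e2]
      _ = (2 : ℝ) • (Z * ((ex Z).1 * ((ex Z)⁻¹).1)) := by
        rw [Matrix.mul_smul, hcomm, Matrix.smul_mul, Matrix.mul_assoc]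
      _ = (2 : ℝ) • Z := by
        have : (ex Z).1 * ((ex Z)⁻¹).1 = 1 := by
          have h2 : (ex Z * (ex Z)⁻¹).1 = 1 := by rw [mul_inv_cancel]; rfl
          exact h2
        rw [this, Matrix.mul_one]
  have hxw : x (u⁻¹.1 * ((2 : ℝ) • Z) * u.1) (g * u) = x ((2 : ℝ) • Z) (g * ex ((-1 : ℝ) • Z)) := by
    rw [hgu, hx.ort k hort, hw]
  -- the energy relation
  have h2 := hE (g * ex ((-1 : ℝ) • Z)) Z hs h1
  have e3 : g * ex ((-1 : ℝ) • Z) * ex Z = g := by rw [mul_assoc, a3, mul_one]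
  have e4 : ∀ s : ℝ, g * ex ((-1 : ℝ) • Z) * ex (s • Z) = g * ex ((s - 1) • Z) := by
    intro s
    rw [mul_assoc, ← f2 Z ht]
    congr 3
    ring
  rw [e3] at h2
  simp only [e4] at h2
  have h3 : |x ((2 : ℝ) • Z) g - x ((2 : ℝ) • Z) (g * ex ((-1 : ℝ) • Z)) - en J0 c Z g| ≤ σ := h2
  -- comparison of the energies
  have h4 : |en J c Z g - en J0 c Z g| ≤ 4 * ρ := by
    have hc : ∀ J' : Mt n →ₗ[ℝ] Mt n →ₗ[ℝ] Fn n, (∀ v w, Continuous (J' v w)) →
        Continuous fun s : ℝ => J' ((2 : ℝ) • Z) ((2 : ℝ) • Z) (g * ex ((s - 1) • Z)) -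
          c * (((2 : ℝ) • Z) * ((2 : ℝ) • Z)).trace := by
      intro J' hJ'
      refine ((hJ' _ _).comp (continuous_const.mul ?_)).sub continuous_const
      exact (f6 Z ht).comp (continuous_id.sub continuous_const)
    have e5 : en J c Z g - en J0 c Z g = ∫ s in (0 : ℝ)..1,
        (J ((2 : ℝ) • Z) ((2 : ℝ) • Z) (g * ex ((s - 1) • Z)) -
          J0 ((2 : ℝ) • Z) ((2 : ℝ) • Z) (g * ex ((s - 1) • Z))) := by
      unfold en
      rw [← intervalIntegral.integral_sub ((hc J hJ.cont).intervalIntegrable _ _)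
        ((hc J0 hJ0.cont).intervalIntegrable _ _)]
      refine intervalIntegral.integral_congr fun s _ => ?_
      ring
    rw [e5, ← Real.norm_eq_abs]
    refine (intervalIntegral.norm_integral_le_of_norm_le_const (C := 4 * ρ) fun s _ => ?_).trans
      (by simp)
    rw [Real.norm_eq_abs]
    have hb := CC11_bx Z hs h1
    have h5 := hd Z Z hb hb (g * ex ((s - 1) • Z))
    have e6 : J ((2 : ℝ) • Z) ((2 : ℝ) • Z) (g * ex ((s - 1) • Z)) -
        J0 ((2 : ℝ) • Z) ((2 : ℝ) • Z) (g * ex ((s - 1) • Z)) =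
        4 * (J Z Z (g * ex ((s - 1) • Z)) - J0 Z Z (g * ex ((s - 1) • Z))) := by
      simp only [map_smul, LinearMap.smul_apply, Pi.smul_apply, smul_eq_mul]
      ring
    rw [e6, abs_mul, abs_of_pos (by norm_num : (0 : ℝ) < 4)]
    linarith
  rw [hxw]
  have h6 : x ((2 : ℝ) • Z) (g * ex ((-1 : ℝ) • Z)) + en J c Z g - x ((2 : ℝ) • Z) g =
      (en J c Z g - en J0 c Z g) -
        (x ((2 : ℝ) • Z) g - x ((2 : ℝ) • Z) (g * ex ((-1 : ℝ) • Z)) - en J0 c Z g) := by ring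
  rw [h6]
  refine (abs_sub _ _).trans ?_
  linarith

/-- Row CC11. `yv` is close to `x`. PLAN. For `u` with `κ v u ≠ 0` put `z = z u`, `k = ex z u` (orthogonal:
`u uᵀ = exp(-2z)`), `g u = g ex(-z) k`; `k w kᵀ = 2 z` for `w = u⁻¹ 2 z u`, so
`x w (g u) = x (2z) (g ex(-z))`; `EnR` at the point `g ex(-z)` (`g ex(-z) ex(s z) = g ex((s-1) z)`) :
`|x w (g u) + en J0 c z g - x (2z) g| ≤ σ`; `|en J - en J0| ≤ C ρ` (`2z` has entries `≤ 2`). Multiply by `κ v u` and integrate: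
`∫ κ_v(u) x(2 z(u)) g dν = x v g` by `Ker.rep` and linearity. `∫ |κ_v| ≤ C`. Differences of integrals: integrability from
continuity and compact support (as in CC7). -/
theorem yv_close {n : ℕ} (ν : Measure (SL n)) (hν : HK ν) (κ : Mt n →ₗ[ℝ] (Mt n → ℝ)) (z : Mt n → Mt n)
    (hK : Ker ν κ z) : ∃ C : ℝ, 1 ≤ C ∧ ∀ (Γ : Subgroup (SL n)) (x : Mt n →ₗ[ℝ] Fn n)
    (J J0 : Mt n →ₗ[ℝ] Mt n →ₗ[ℝ] Fn n) (c σ ρ : ℝ), 0 ≤ σ → 0 ≤ ρ → FX Γ x → FJ Γ J → FJ Γ J0 →
    EnR x J0 c σ → (∀ v w : Mt n, Bx v → Bx w → ∀ g, |J v w g - J0 v w g| ≤ ρ) →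
    ∀ v : Mt n, Sym0 v → Bx v → ∀ g, |yv ν κ z x J c v g - x v g| ≤ C * (σ + ρ) := by
  haveI : IsTopologicalGroup (SL n) := (SL_top (n := n)).2.2.2.1
  -- integrability of continuous functions against the kernels
  have hint : ∀ (v : Mt n) (F : Fn n), Continuous F → Integrable (fun u : SL n => κ v u.1 * F u) ν := by
    intro v F hF
    have h := ((cv_facts ν hν).1 (κ v) F (hK.ksm v).continuous (hK.kc v) hF).1 1
    simpa only [one_mul] using h
  have hκ1 : ∀ v, Integrable (fun u : SL n => κ v u.1) ν := by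
    intro v
    simpa only [mul_one] using hint v (fun _ => 1) continuous_const
  set C0 : ℝ := ∑ i, ∑ j, ∫ u : SL n, |κ (Matrix.single i j (1 : ℝ)) u.1| ∂ν with hC0
  have hC0n : 0 ≤ C0 := Finset.sum_nonneg fun i _ => Finset.sum_nonneg fun j _ =>
    integral_nonneg fun u => abs_nonneg _
  refine ⟨4 * C0 + 1, by linarith, ?_⟩
  intro Γ x J J0 c σ ρ hσ hρ hx hJ hJ0 hE hd v hv hb g
  -- the kernel
  have hκe : ∀ u : SL n, κ v u.1 = ∑ i, ∑ j, v i j * κ (Matrix.single i j (1 : ℝ)) u.1 := by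
    intro u
    conv_lhs => rw [Matrix.matrix_eq_sum_single v]
    simp only [map_sum, Finset.sum_apply]
    refine Finset.sum_congr rfl fun i _ => Finset.sum_congr rfl fun j _ => ?_
    have e : Matrix.single i j (v i j) = v i j • Matrix.single i j (1 : ℝ) := by
      rw [Matrix.smul_single, smul_eq_mul, mul_one]
    rw [e, map_smul]
    rfl
  have hκb : ∫ u : SL n, |κ v u.1| ∂ν ≤ C0 := by
    have h1 : ∫ u : SL n, |κ v u.1| ∂ν ≤
        ∫ u : SL n, ∑ i, ∑ j, |κ (Matrix.single i j (1 : ℝ)) u.1| ∂ν := by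
      refine integral_mono (hκ1 v).abs (integrable_finsetSum _ fun i _ => integrable_finsetSum _
        fun j _ => (hκ1 _).abs) fun u => ?_
      show |κ v u.1| ≤ _
      rw [hκe u]
      refine (Finset.abs_sum_le_sum_abs _ _).trans (Finset.sum_le_sum fun i _ =>
        (Finset.abs_sum_le_sum_abs _ _).trans (Finset.sum_le_sum fun j _ => ?_))
      rw [abs_mul]
      have := hb i j
      have h2 : 0 ≤ |κ (Matrix.single i j (1 : ℝ)) u.1| := abs_nonneg _
      nlinarith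
    refine h1.trans (le_of_eq ?_)
    rw [integral_finsetSum _ fun i _ => integrable_finsetSum _ fun j _ => (hκ1 _).abs]
    refine Finset.sum_congr rfl fun i _ => ?_
    rw [integral_finsetSum _ fun j _ => (hκ1 _).abs]
  -- continuity
  obtain ⟨-, -, -, -, p5, p6, -⟩ := jp_facts (n := n) Γ
  have hzc : Continuous fun u : SL n => z u.1 := by
    refine continuous_matrix fun a b => ?_
    exact (hK.zsm a b).continuous.comp continuous_subtype_val
  have hpz : Continuous fun u : SL n => pr0 (z u.1) :=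
    (LinearMap.continuous_of_finiteDimensional (pr0 : Mt n →ₗ[ℝ] Mt n)).comp hzc
  have hc1 : Continuous fun u : SL n => x (u⁻¹.1 * ((2 : ℝ) • z u.1) * u.1) (g * u) := by
    have hiv : Continuous fun u : SL n => u⁻¹.1 := continuous_subtype_val.comp continuous_inv
    have hw : Continuous fun u : SL n => u⁻¹.1 * ((2 : ℝ) • z u.1) * u.1 :=
      (hiv.matrix_mul (CC11_sm (fun _ => 2) _ continuous_const hzc)).matrix_mul continuous_subtype_val
    exact CC11_cx x hx.cont _ (fun a b => hw.matrix_elem a b) _ (continuous_const.mul continuous_id)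
  have hc2 : Continuous fun u : SL n => en J c (pr0 (z u.1)) g :=
    CC11_cen J hJ.cont c _ hpz (fun u => (p5 _).2) g
  have hz2 : Continuous fun u : SL n => (2 : ℝ) • z u.1 :=
    CC11_sm (fun _ => 2) _ continuous_const hzc
  have hc3 : Continuous fun u : SL n => x ((2 : ℝ) • z u.1) g :=
    CC11_cx x hx.cont _ (fun a b => hz2.matrix_elem a b) _ continuous_const
  -- the second integral
  have e2 : ∫ u : SL n, κ v u.1 * en J c (z u.1) g ∂ν =
      ∫ u : SL n, κ v u.1 * en J c (pr0 (z u.1)) g ∂ν := by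
    refine integral_congr_ae (Eventually.of_forall fun u => ?_)
    show κ v u.1 * en J c (z u.1) g = κ v u.1 * en J c (pr0 (z u.1)) g
    by_cases h0 : κ v u.1 = 0
    · rw [h0, zero_mul, zero_mul]
    · rw [p6 _ (hK.zs v u h0).1]
  -- the third integral
  have e3 : ∫ u : SL n, κ v u.1 * x ((2 : ℝ) • z u.1) g ∂ν = x v g := by
    have h1 : (fun u : SL n => κ v u.1 * x ((2 : ℝ) • z u.1) g) = fun u : SL n =>
        ∑ i, ∑ j, (κ v u.1 * (2 * z u.1 i j)) * x (Matrix.single i j (1 : ℝ)) g := by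
      funext u
      rw [CC11_x x ((2 : ℝ) • z u.1) g, Finset.mul_sum]
      refine Finset.sum_congr rfl fun i _ => ?_
      rw [Finset.mul_sum]
      refine Finset.sum_congr rfl fun j _ => ?_
      rw [Matrix.smul_apply, smul_eq_mul]
      ring
    have hi : ∀ i j, Integrable (fun u : SL n => (κ v u.1 * (2 * z u.1 i j)) *
        x (Matrix.single i j (1 : ℝ)) g) ν := by
      intro i j
      refine Integrable.mul_const (hint v (fun u => 2 * z u.1 i j) ?_) _
      exact continuous_const.mul (hzc.matrix_elem i j)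
    rw [h1, integral_finsetSum _ fun i _ => integrable_finsetSum _ fun j _ => hi i j]
    rw [CC11_x x v g]
    refine Finset.sum_congr rfl fun i _ => ?_
    rw [integral_finsetSum _ fun j _ => hi i j]
    refine Finset.sum_congr rfl fun j _ => ?_
    rw [integral_mul_const, hK.rep v hv i j]
  have i1 := hint v _ hc1
  have i2 := hint v _ hc2
  have i3 := hint v _ hc3
  have e4 : yv ν κ z x J c v g - x v g = ∫ u : SL n, (κ v u.1 *
      x (u⁻¹.1 * ((2 : ℝ) • z u.1) * u.1) (g * u) + κ v u.1 * en J c (pr0 (z u.1)) g -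
      κ v u.1 * x ((2 : ℝ) • z u.1) g) ∂ν := by
    have h8 := integral_sub (f := fun u : SL n => κ v u.1 *
      x (u⁻¹.1 * ((2 : ℝ) • z u.1) * u.1) (g * u) + κ v u.1 * en J c (pr0 (z u.1)) g) (i1.add i2) i3
    have h9 := integral_add i1 i2
    rw [h8, h9, e3]
    unfold yv
    rw [e2]
  rw [e4, ← Real.norm_eq_abs]
  have h5 : ‖∫ u : SL n, (κ v u.1 *
      x (u⁻¹.1 * ((2 : ℝ) • z u.1) * u.1) (g * u) + κ v u.1 * en J c (pr0 (z u.1)) g -
      κ v u.1 * x ((2 : ℝ) • z u.1) g) ∂ν‖ ≤ ∫ u : SL n, |κ v u.1| * (σ + 4 * ρ) ∂ν := by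
    refine norm_integral_le_of_norm_le ((hκ1 v).abs.mul_const _) (Eventually.of_forall fun u => ?_)
    rw [Real.norm_eq_abs]
    by_cases h0 : κ v u.1 = 0
    · rw [h0]
      simp
    · obtain ⟨q1, q2, q3⟩ := hK.zs v u h0
      rw [p6 _ q1]
      have h6 := CC11_pt Γ x J J0 c σ ρ hx hJ hJ0 hE hd (z u.1) u g q1 q2 q3
      have e5 : κ v u.1 * x (u⁻¹.1 * ((2 : ℝ) • z u.1) * u.1) (g * u) + κ v u.1 * en J c (z u.1) g -
          κ v u.1 * x ((2 : ℝ) • z u.1) g = κ v u.1 * (x (u⁻¹.1 * ((2 : ℝ) • z u.1) * u.1) (g * u) +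
          en J c (z u.1) g - x ((2 : ℝ) • z u.1) g) := by ring
      rw [e5, abs_mul]
      exact mul_le_mul_of_nonneg_left h6 (abs_nonneg _)
  refine h5.trans ?_
  rw [integral_mul_const]
  have h7 : 0 ≤ ∫ u : SL n, |κ v u.1| ∂ν := integral_nonneg fun u => abs_nonneg _
  have h8 : (∫ u : SL n, |κ v u.1| ∂ν) * (σ + 4 * ρ) ≤ C0 * (σ + 4 * ρ) :=
    mul_le_mul_of_nonneg_right hκb (by positivity)
  nlinarith [mul_nonneg hC0n hσ, mul_nonneg hC0n hρ]

end FL27
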