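import Pool.Agent.LibFL27.CDefs
import Pool.Agent.LibFL27.CC1

set_option autoImplicit false
set_option maxSynthPendingDepth 3

open Matrix MeasureTheory Topology Filter LibNC38
open LibNC27 hiding Mt
open scoped Matrix.Norms.Elementwise ContDiff

namespace FL27

private theorem CC2_fin {n : ℕ} (Γ : Subgroup (SL n)) (w : SL n → ℝ)
    (hf : ∀ g : SL n, ∃ U ∈ nhds g, {γ : Γ | ∃ q ∈ U, w (γ.1 * q) ≠ 0}.Finite) (g : SL n) :
    {γ : Γ | w (γ.1 * g) ≠ 0}.Finite := by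
  obtain ⟨U, hU, h⟩ := hf g
  exact h.subset fun γ hγ => ⟨g, mem_of_mem_nhds hU, hγ⟩

private theorem CC2_supp {n : ℕ} (Γ : Subgroup (SL n)) (w : SL n → ℝ)
    (hf : ∀ g : SL n, ∃ U ∈ nhds g, {γ : Γ | ∃ q ∈ U, w (γ.1 * q) ≠ 0}.Finite) (f : SL n → ℝ)
    (g : SL n) : (Function.support fun γ : Γ => w (γ.1 * g) * f (γ.1 * g)).Finite :=
  (CC2_fin Γ w hf g).subset fun γ hγ => by
    simp only [Function.mem_support] at hγ
    exact left_ne_zero_of_mul hγ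

private theorem CC2_avg {n : ℕ} (Γ : Subgroup (SL n)) (w : SL n → ℝ) (hw : ∀ g, 0 ≤ w g)
    (hf : ∀ g : SL n, ∃ U ∈ nhds g, {γ : Γ | ∃ q ∈ U, w (γ.1 * q) ≠ 0}.Finite)
    (h1 : ∀ g, ∑ᶠ γ : Γ, w (γ.1 * g) = 1) (f : SL n → ℝ) (r σ : ℝ) (g : SL n)
    (h : ∀ γ : Γ, |f (γ.1 * g) - r| ≤ σ) :
    |(∑ᶠ γ : Γ, w (γ.1 * g) * f (γ.1 * g)) - r| ≤ σ := by
  have hF := CC2_fin Γ w hf g
  have e1 : ∑ᶠ γ : Γ, w (γ.1 * g) * f (γ.1 * g) =
      ∑ γ ∈ hF.toFinset, w (γ.1 * g) * f (γ.1 * g) :=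
    finsum_eq_sum_of_support_subset _ fun γ hγ => by
      simp only [Function.mem_support] at hγ
      simpa using left_ne_zero_of_mul hγ
  have e2 : ∑ γ ∈ hF.toFinset, w (γ.1 * g) = 1 := by
    rw [← h1 g]
    exact (finsum_eq_sum_of_support_subset _ fun γ hγ => by simpa using hγ).symm
  have e3 : (∑ᶠ γ : Γ, w (γ.1 * g) * f (γ.1 * g)) - r =
      ∑ γ ∈ hF.toFinset, w (γ.1 * g) * (f (γ.1 * g) - r) := by
    simp only [mul_sub]
    rw [Finset.sum_sub_distrib, ← Finset.sum_mul, e2, one_mul, e1]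
  rw [e3]
  calc |∑ γ ∈ hF.toFinset, w (γ.1 * g) * (f (γ.1 * g) - r)|
      ≤ ∑ γ ∈ hF.toFinset, |w (γ.1 * g) * (f (γ.1 * g) - r)| := Finset.abs_sum_le_sum_abs _ _
    _ ≤ ∑ γ ∈ hF.toFinset, w (γ.1 * g) * σ := Finset.sum_le_sum fun γ _ => by
        rw [abs_mul, abs_of_nonneg (hw _)]
        exact mul_le_mul_of_nonneg_left (h γ) (hw _)
    _ = σ := by rw [← Finset.sum_mul, e2, one_mul]

/-- Row CC2. Exact invariance. PLAN. `x' v g = ∑ᶠ γ, w(γ g) x v (γ g)` with `w` from `weight` (locally finite sum: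
continuity; for fixed `g` a convex combination: bound and difference `≤ σ`; `γ ↦ γ γ0` permutes `Γ`: invariance). -/
theorem exact_inv {n : ℕ} (Γ : Subgroup (SL n)) (hd : Disc Γ) (hc : Coc Γ) (x : Mt n →ₗ[ℝ] Fn n)
    (M σ : ℝ) (h1 : ∀ v, Continuous (x v))
    (h2 : ∀ k : SL n, Ort k → ∀ v g, x v (g * k) = x (k.1 * v * k.1ᵀ) g)
    (h3 : ∀ v, x v = x (pr0 v)) (h4 : ∀ v, Bx v → ∀ g, |x v g| ≤ M)
    (h5 : ∀ γ ∈ Γ, ∀ v, Bx v → ∀ g, |x v (γ * g) - x v g| ≤ σ) :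
    ∃ x' : Mt n →ₗ[ℝ] Fn n, FX Γ x' ∧ (∀ v, Bx v → ∀ g, |x' v g| ≤ M) ∧
      ∀ v, Bx v → ∀ g, |x' v g - x v g| ≤ σ := by
  obtain ⟨w, wc, w0, wk, wf, w1⟩ := weight Γ hd hc
  let x' : Mt n →ₗ[ℝ] Fn n :=
    { toFun := fun v g => ∑ᶠ γ : Γ, w (γ.1 * g) * x v (γ.1 * g)
      map_add' := fun u v => by
        funext g
        show _ = (∑ᶠ γ : Γ, w (γ.1 * g) * x u (γ.1 * g)) + ∑ᶠ γ : Γ, w (γ.1 * g) * x v (γ.1 * g)
        rw [← finsum_add_distrib (CC2_supp Γ w wf (x u) g) (CC2_supp Γ w wf (x v) g)]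
        refine finsum_congr fun γ => ?_
        rw [map_add, Pi.add_apply, mul_add]
      map_smul' := fun r v => by
        funext g
        show _ = r * ∑ᶠ γ : Γ, w (γ.1 * g) * x v (γ.1 * g)
        have e := mul_finsum (fun γ : Γ => w (γ.1 * g) * x v (γ.1 * g)) r
        refine Eq.trans ?_ e.symm
        refine finsum_congr fun γ => ?_
        rw [map_smul, Pi.smul_apply, smul_eq_mul]
        ring }
  have hx' : ∀ v g, x' v g = ∑ᶠ γ : Γ, w (γ.1 * g) * x v (γ.1 * g) := fun _ _ => rfl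
  refine ⟨x', ⟨fun v => ?_, fun γ hγ v g => ?_, fun k hk v g => ?_, fun v => ?_⟩, fun v hv g => ?_,
    fun v hv g => ?_⟩
  · -- continuity
    refine continuous_finsum (f := fun (γ : Γ) g => w (γ.1 * g) * x v (γ.1 * g)) (fun γ => ?_)
      fun g => ?_
    · exact (wc.comp (continuous_const.mul continuous_id)).mul
        ((h1 v).comp (continuous_const.mul continuous_id))
    · obtain ⟨U, hU, h⟩ := wf g
      refine ⟨U, hU, h.subset ?_⟩
      rintro γ ⟨q, hq, hqU⟩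
      exact ⟨q, hqU, left_ne_zero_of_mul hq⟩
  · -- invariance
    rw [hx', hx', ← finsum_comp_equiv (Equiv.mulRight (⟨γ, hγ⟩ : Γ))
      (f := fun δ : Γ => w (δ.1 * g) * x v (δ.1 * g))]
    refine finsum_congr fun δ => ?_
    simp only [Equiv.coe_mulRight, Subgroup.coe_mul, mul_assoc]
  · rw [hx', hx']
    refine finsum_congr fun δ => ?_
    rw [← mul_assoc, wk k hk, h2 k hk]
  · funext g
    rw [hx', hx', h3 v]
  · have := CC2_avg Γ w w0 wf w1 (x v) 0 M g fun γ => by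
      rw [sub_zero]; exact h4 v hv _
    rwa [sub_zero] at this
  · exact CC2_avg Γ w w0 wf w1 (x v) (x v g) σ g fun γ => h5 γ.1 γ.2 v hv g

end FL27
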