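import Pool.Agent.LibFL27.CDefs
import Pool.Agent.LibFL27.CC3
import Pool.Agent.LibFL27.CA0

set_option autoImplicit false
set_option maxSynthPendingDepth 3

open Matrix MeasureTheory Topology Filter LibNC38
open LibNC27 hiding Mt
open scoped Matrix.Norms.Elementwise ContDiff

namespace FL27

private theorem CC4_sign {n : ℕ} (U : Mt n) :
    (∏ i : Fin n, (if i.val = 0 then U.det else 1)) = U.det := by
  cases n with
  | zero => simp [Matrix.det_fin_zero]
  | succ m =>
    rw [Fin.prod_univ_succ]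
    simp

/-- spectral theorem with a matrix in `SO(n)` -/
private theorem CC4_spec {n : ℕ} (w : Mt n) (hw : wᵀ = w) (ht : w.trace = 0) :
    ∃ (k : SL n) (v : V0 n), Ort k ∧ w = k.1 * dM v * k.1ᵀ := by
  classical
  have hq : w.IsHermitian := by
    rw [Matrix.IsHermitian, Matrix.conjTranspose_eq_transpose_of_trivial, hw]
  set lam : Fin n → ℝ := hq.eigenvalues with hlam
  set U : Mt n := (hq.eigenvectorUnitary : Matrix (Fin n) (Fin n) ℝ) with hU
  have hst : star U = Uᵀ := by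
    rw [Matrix.star_eq_conjTranspose, Matrix.conjTranspose_eq_transpose_of_trivial]
  have hUU : U * Uᵀ = 1 := by
    rw [← hst]; exact Unitary.coe_mul_star_self hq.eigenvectorUnitary
  have hUU' : Uᵀ * U = 1 := by
    rw [← hst]; exact Unitary.coe_star_mul_self hq.eigenvectorUnitary
  have hspec : w = U * Matrix.diagonal lam * Uᵀ := by
    have h := hq.spectral_theorem
    rw [Unitary.conjStarAlgAut_apply] at h
    rw [← hst]
    exact h
  have hdU : U.det * U.det = 1 := by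
    have := congrArg Matrix.det hUU
    rwa [Matrix.det_mul, Matrix.det_transpose, Matrix.det_one] at this
  set e : Fin n → ℝ := fun i => if i.val = 0 then U.det else 1 with he
  have hee : ∀ i, e i * e i = 1 := by
    intro i
    simp only [he]
    split_ifs
    · exact hdU
    · norm_num
  have hde : (U * Matrix.diagonal e).det = 1 := by
    rw [Matrix.det_mul, Matrix.det_diagonal, CC4_sign U, hdU]
  have hsum : ∑ i, lam i = 0 := by
    have h1 : w.trace = (Matrix.diagonal lam).trace := by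
      rw [hspec, Matrix.trace_mul_comm, ← Matrix.mul_assoc, hUU', Matrix.one_mul]
    rw [ht, Matrix.trace_diagonal] at h1
    exact h1.symm
  refine ⟨⟨U * Matrix.diagonal e, hde⟩, ⟨WithLp.toLp 2 lam, hsum⟩, ?_, ?_⟩
  · change U * Matrix.diagonal e * (U * Matrix.diagonal e)ᵀ = 1
    rw [Matrix.transpose_mul, Matrix.diagonal_transpose, Matrix.mul_assoc,
      ← Matrix.mul_assoc (Matrix.diagonal e), Matrix.diagonal_mul_diagonal]
    have : (fun i => e i * e i) = fun _ => (1 : ℝ) := funext hee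
    rw [this, Matrix.diagonal_one, Matrix.one_mul, hUU]
  · change w = U * Matrix.diagonal e * Matrix.diagonal lam * (U * Matrix.diagonal e)ᵀ
    rw [Matrix.transpose_mul, Matrix.diagonal_transpose]
    have h2 : U * Matrix.diagonal e * Matrix.diagonal lam * (Matrix.diagonal e * Uᵀ)
        = U * (Matrix.diagonal e * Matrix.diagonal lam * Matrix.diagonal e) * Uᵀ := by
      simp only [Matrix.mul_assoc]
    rw [h2, Matrix.diagonal_mul_diagonal, Matrix.diagonal_mul_diagonal]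
    have h3 : (fun i => e i * lam i * e i) = lam := by
      funext i
      rw [mul_right_comm, hee, one_mul]
    rw [h3, ← hspec]

private theorem CC4_vel {n : ℕ} (y z : V0 n) :
    vel y z = (dgm y).1 * ((2 : ℝ) • dM z) * (dgm y).1ᵀ := by
  unfold vel dM
  show _ = Matrix.diagonal _ * _ * (Matrix.diagonal _)ᵀ
  rw [Matrix.diagonal_transpose]
  ext i j
  rw [Matrix.mul_diagonal, Matrix.diagonal_mul, Matrix.smul_apply, smul_eq_mul]
  by_cases hij : i = j
  · subst hij
    rw [Matrix.diagonal_apply_eq, Matrix.diagonal_apply_eq]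
    have : Real.exp (2 * y.1 i) = Real.exp (y.1 i) * Real.exp (y.1 i) := by
      rw [← Real.exp_add]; ring_nf
    rw [this]; ring
  · rw [Matrix.diagonal_apply_ne _ hij, Matrix.diagonal_apply_ne _ hij]; ring

private theorem CC4_gvel {n : ℕ} (g : SL n) (z : V0 n) (s : ℝ) :
    gvel g z s = (g * dgm (s • z)).1 * ((2 : ℝ) • dM z) * (g * dgm (s • z)).1ᵀ := by
  have h : (g * dgm (s • z)).1 = g.1 * (dgm (s • z)).1 := rfl
  rw [gvel, CC4_vel, h, Matrix.transpose_mul]
  simp only [Matrix.mul_assoc]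

private theorem CC4_pt {n : ℕ} (g : SL n) (y : V0 n) :
    act g (sg y) = act (g * dgm y) (o n) := by
  rw [act_facts.2.1]; rfl

/-- the orthogonal group fixes the base point -/
private theorem CC4_ok {n : ℕ} (g k : SL n) (hk : Ort k) : act (g * k) (o n) = act g (o n) := by
  rw [act_facts.2.1]
  congr 1
  apply Subtype.ext
  show k.1 * 1 * k.1ᵀ = 1
  rw [Matrix.mul_one]
  exact hk

private theorem CC4_cj {n : ℕ} (g h : SL n) (v : Mt n) :
    (g * h).1 * v * (g * h).1ᵀ = g.1 * (h.1 * v * h.1ᵀ) * g.1ᵀ := by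
  have h0 : (g * h).1 = g.1 * h.1 := rfl
  rw [h0, Matrix.transpose_mul]
  simp only [Matrix.mul_assoc]

private theorem CC4_sg0 {n : ℕ} : sg (0 : V0 n) = o n := by
  apply Subtype.ext
  show Matrix.diagonal (fun i => Real.exp ((0 : V0 n).1 i)) * 1 *
    (Matrix.diagonal (fun i => Real.exp ((0 : V0 n).1 i)))ᵀ = 1
  have h : (fun i : Fin n => Real.exp ((0 : V0 n).1 i)) = fun _ => (1 : ℝ) := by
    funext i
    simp
  rw [h, Matrix.diagonal_one, Matrix.transpose_one, Matrix.mul_one, Matrix.mul_one]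

private theorem CC4_tan {n : ℕ} (g : SL n) (w : Mt n) (hw : Sym0 w) :
    IsTan (act g (o n)) (g.1 * w * g.1ᵀ) := by
  constructor
  · rw [Matrix.transpose_mul, Matrix.transpose_mul, Matrix.transpose_transpose, hw.1,
      Matrix.mul_assoc]
  · have hg : IsUnit g.1.det := by rw [g.2]; exact isUnit_one
    have hgt : IsUnit g.1ᵀ.det := by rw [Matrix.det_transpose]; exact hg
    have h1 : (act g (o n)).1⁻¹ * (g.1 * w * g.1ᵀ) = g.1ᵀ⁻¹ * w * g.1ᵀ := by
      change (g.1 * 1 * g.1ᵀ)⁻¹ * (g.1 * w * g.1ᵀ) = _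
      rw [Matrix.mul_one, Matrix.mul_inv_rev]
      calc g.1ᵀ⁻¹ * g.1⁻¹ * (g.1 * w * g.1ᵀ) = g.1ᵀ⁻¹ * (g.1⁻¹ * g.1) * w * g.1ᵀ := by
            simp only [Matrix.mul_assoc]
        _ = _ := by rw [Matrix.nonsing_inv_mul _ hg, Matrix.mul_one]
    rw [h1, Matrix.trace_mul_comm, ← Matrix.mul_assoc, Matrix.mul_nonsing_inv _ hgt,
      Matrix.one_mul]
    exact hw.2

private theorem CC4_ex {n : ℕ} (y : V0 n) (hy : (dM y).trace = 0) : ex (dM y) = dgm y := by
  apply Subtype.ext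
  rw [ex_facts.1 _ hy]
  unfold dM
  rw [Matrix.exp_diagonal]
  show _ = Matrix.diagonal fun i => Real.exp (y.1 i)
  congr 1
  funext i
  rw [Pi.coe_exp, ← Real.exp_eq_exp_ℝ]

private theorem CC4_trdM {n : ℕ} (y : V0 n) : (dM y).trace = 0 := by
  unfold dM
  rw [Matrix.trace_diagonal]
  exact sum_V0 y

private theorem CC4_bx {n : ℕ} (v : Mt n) (hv : Bx v) (i j : Fin n) : |pr0 v i j| ≤ 2 := by
  have hn : (0 : ℝ) < n := by
    have : 0 < n := Fin.pos i
    exact_mod_cast this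
  have h0 : pr0 v i j = 1 / 2 * (v i j + v j i) - v.trace / n * (1 : Mt n) i j := rfl
  have h1 : |1 / 2 * (v i j + v j i)| ≤ 1 := by
    have h2 := abs_add_le (v i j) (v j i)
    rw [abs_mul, abs_of_pos (by norm_num : (0 : ℝ) < 1 / 2)]
    have h3 := hv i j
    have h4 := hv j i
    linarith
  have h5 : |v.trace / n * (1 : Mt n) i j| ≤ 1 := by
    rw [abs_mul]
    have h6 : |v.trace / n| ≤ 1 := by
      rw [abs_div, abs_of_pos hn, div_le_one hn]
      calc |v.trace| = |∑ i, v i i| := rfl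
        _ ≤ ∑ i, |v i i| := Finset.abs_sum_le_sum_abs _ _
        _ ≤ ∑ _i : Fin n, (1 : ℝ) := Finset.sum_le_sum fun i _ => hv i i
        _ = n := by simp
    have h7 : |(1 : Mt n) i j| ≤ 1 := by
      by_cases hij : i = j
      · subst hij
        rw [Matrix.one_apply_eq, abs_one]
      · rw [Matrix.one_apply_ne hij, abs_zero]
        norm_num
    calc |v.trace / n| * |(1 : Mt n) i j| ≤ 1 * 1 :=
          mul_le_mul h6 h7 (abs_nonneg _) zero_le_one
      _ = 1 := one_mul 1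
  rw [h0]
  have h8 := abs_sub (1 / 2 * (v i j + v j i)) (v.trace / n * (1 : Mt n) i j)
  linarith

private theorem CC4_spd {n : ℕ} (g : SL n) (v : Mt n) (hs : Sym0 (pr0 v)) (hv : Bx v) :
    spd (act g (o n)) (g.1 * pr0 v * g.1ᵀ) ≤ 2 * n := by
  rw [spd_facts.1, spd_facts.2.1 _ hs.1]
  have h1 : ∑ i, ∑ j, pr0 v i j ^ 2 ≤ (2 * (n : ℝ)) ^ 2 := by
    calc ∑ i, ∑ j, pr0 v i j ^ 2 ≤ ∑ _i : Fin n, ∑ _j : Fin n, (4 : ℝ) := by
          refine Finset.sum_le_sum fun i _ => Finset.sum_le_sum fun j _ => ?_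
          have h2 := CC4_bx v hv i j
          have h3 : pr0 v i j ^ 2 = |pr0 v i j| ^ 2 := (sq_abs _).symm
          rw [h3]
          have h4 := abs_nonneg (pr0 v i j)
          nlinarith
      _ = (2 * (n : ℝ)) ^ 2 := by
          simp
          ring
  calc √(∑ i, ∑ j, pr0 v i j ^ 2) ≤ √((2 * (n : ℝ)) ^ 2) := Real.sqrt_le_sqrt h1
    _ = 2 * n := Real.sqrt_sq (by positivity)

private theorem CC4_sqtr {n : ℕ} (w : Mt n) (hw : wᵀ = w) : ∑ i, ∑ j, w i j ^ 2 = (w * w).trace := by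
  rw [Matrix.trace]
  refine Finset.sum_congr rfl fun i _ => ?_
  rw [Matrix.diag_apply, Matrix.mul_apply]
  refine Finset.sum_congr rfl fun j _ => ?_
  have h : w j i = w i j := by
    conv_rhs => rw [← hw]
    rfl
  rw [h]
  ring

/-- Row CC4. From `Apx` to the frame. PLAN. `x = xp ξ`. Continuity: `Apx.cont`, `sg 0 = o n`. Equivariance as in `jp_facts`; bounds: `spd (act g o)
(g v gᵀ)^2 = tr (v v) ≤ n^2` for `v` symmetric with entries `≤ 2`: constant `4 n`. Energy relation: `z = k dM(y) kᵀ` with `k`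
orthogonal (spectral theorem, row in LibNC27/LibNT38: symmetric matrices are orthogonally diagonalisable with
`det k = 1`), `‖y‖^2 = tr (z z)`; `g ex (s z) = (g k) dgm (s y) k⁻¹`, so `act (g ex (s z)) o = act (g k) (sg (s y))` and
`gvel (g k) y s = (g ex (s z)) (2 z) (g ex (s z))ᵀ`; `Apx.int` for `g k`, `y`. -/
theorem apx_frame {n : ℕ} (Γ : Subgroup (SL n)) : ∃ C : ℝ, 1 ≤ C ∧ ∀ (M σ c : ℝ)
    (κ : PD n → Fm n) (ξ : PD n → Mt n →ₗ[ℝ] ℝ), 0 ≤ M → 0 ≤ σ → FmOK Γ κ → Apx Γ M σ κ c ξ →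
    (∀ v, Continuous (xp ξ v)) ∧
    (∀ k : SL n, Ort k → ∀ v g, xp ξ v (g * k) = xp ξ (k.1 * v * k.1ᵀ) g) ∧
    (∀ v, xp ξ v = xp ξ (pr0 v)) ∧ (∀ v, Bx v → ∀ g, |xp ξ v g| ≤ C * M) ∧
    (∀ γ ∈ Γ, ∀ v, Bx v → ∀ g, |xp ξ v (γ * g) - xp ξ v g| ≤ C * σ) ∧
    EnR (xp ξ) (Jp κ) c σ := by
  obtain ⟨-, hJ, -, -, hs, hs', hpk⟩ := jp_facts (n := n) Γ
  refine ⟨2 * n + 1, by linarith [Nat.cast_nonneg (α := ℝ) n], ?_⟩
  intro M σ c κ ξ hM hσ hκ hA
  have hxp : ∀ v g, xp ξ v g = ξ (act g (o n)) (g.1 * pr0 v * g.1ᵀ) := fun v g => rfl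
  refine ⟨?_, ?_, ?_, ?_, ?_, ?_⟩
  · intro v
    have h := hA.cont (pr0 v) (hs v)
    rw [CC4_sg0] at h
    exact h
  · intro k hk v g
    rw [hxp, hxp, CC4_ok g k hk, CC4_cj, hpk k v hk]
  · intro v
    funext g
    rw [hxp, hxp, hs' (pr0 v) (hs v)]
  · intro v hv g
    rw [hxp]
    have h1 := hA.bd (act g (o n)) (g.1 * pr0 v * g.1ᵀ) (CC4_tan g _ (hs v))
    have h2 := CC4_spd g v (hs v) hv
    have h3 := mul_le_mul_of_nonneg_left h2 hM
    linarith
  · intro γ hγ v hv g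
    rw [hxp, hxp, act_facts.2.1, CC4_cj]
    have h1 := hA.inv γ hγ (act g (o n)) (g.1 * pr0 v * g.1ᵀ) (CC4_tan g _ (hs v))
    have h2 := CC4_spd g v (hs v) hv
    have h3 := mul_le_mul_of_nonneg_left h2 hσ
    linarith
  · intro g z hz htr
    obtain ⟨k, y, hk, hzk⟩ := CC4_spec z hz.1 hz.2
    have hkt : k.1ᵀ * k.1 = 1 := mul_eq_one_comm.mp hk
    have hkinv : k⁻¹.1 = k.1ᵀ := by
      have h1 : k.1 * k⁻¹.1 = 1 := congrArg Subtype.val (mul_inv_cancel k)
      calc k⁻¹.1 = (k.1ᵀ * k.1) * k⁻¹.1 := by rw [hkt, Matrix.one_mul]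
        _ = k.1ᵀ * (k.1 * k⁻¹.1) := Matrix.mul_assoc _ _ _
        _ = k.1ᵀ := by rw [h1, Matrix.mul_one]
    have hdMs : ∀ s : ℝ, dM (s • y) = s • dM y := by
      intro s
      unfold dM
      rw [← Matrix.diagonal_smul]
      rfl
    have hexs : ∀ s : ℝ, ex (s • z) = k * dgm (s • y) * k⁻¹ := by
      intro s
      have h1 := ex_facts.2.2.2.2.1 (dM (s • y)) (CC4_trdM (s • y)) k
      rw [CC4_ex _ (CC4_trdM (s • y))] at h1
      rw [h1]
      congr 1
      rw [hdMs, hzk, hkinv, Matrix.mul_smul, Matrix.smul_mul]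
    have hgk : ∀ s : ℝ, g * k * dgm (s • y) = g * ex (s • z) * k := by
      intro s
      rw [hexs s]
      group
    have hpt : ∀ s : ℝ, act (g * k) (sg (s • y)) = act (g * ex (s • z)) (o n) := by
      intro s
      rw [CC4_pt, hgk, CC4_ok _ _ hk]
    have hS2 : Sym0 ((2 : ℝ) • z) := by
      constructor
      · rw [Matrix.transpose_smul, hz.1]
      · rw [Matrix.trace_smul, hz.2, smul_zero]
    have hvel : ∀ s : ℝ, gvel (g * k) y s =
        (g * ex (s • z)).1 * ((2 : ℝ) • z) * (g * ex (s • z)).1ᵀ := by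
      intro s
      rw [CC4_gvel, hgk, CC4_cj]
      congr 2
      rw [Matrix.mul_smul, Matrix.smul_mul, ← hzk]
    have hx : ∀ s : ℝ, ξ (act (g * k) (sg (s • y))) (gvel (g * k) y s) =
        xp ξ ((2 : ℝ) • z) (g * ex (s • z)) := by
      intro s
      rw [hpt, hvel, hxp, hs' _ hS2]
    have hJs : ∀ s : ℝ, κ (act (g * k) (sg (s • y))) (gvel (g * k) y s) (gvel (g * k) y s) =
        Jp κ ((2 : ℝ) • z) ((2 : ℝ) • z) (g * ex (s • z)) := by
      intro s
      rw [hpt, hvel, hJ κ _ _ hS2 hS2]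
      rfl
    have hsp : ∀ s : ℝ, spd (act (g * k) (sg (s • y))) (gvel (g * k) y s) ^ 2 =
        (((2 : ℝ) • z) * ((2 : ℝ) • z)).trace := by
      intro s
      rw [hpt, hvel, spd_facts.1, spd_facts.2.1 _ hS2.1, CC4_sqtr _ hS2.1, Real.sq_sqrt]
      rw [← CC4_sqtr _ hS2.1]
      positivity
    have hny : ‖y‖ ≤ 1 := by
      have h1 : ‖y‖ ^ 2 = (z * z).trace := by
        have h2 : (z * z).trace = (dM y * dM y).trace := by
          rw [hzk]
          calc (k.1 * dM y * k.1ᵀ * (k.1 * dM y * k.1ᵀ)).trace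
              = (k.1 * (dM y * (k.1ᵀ * k.1) * dM y * k.1ᵀ)).trace := by
                simp only [Matrix.mul_assoc]
            _ = (dM y * dM y * k.1ᵀ * k.1).trace := by
                rw [hkt, Matrix.mul_one, Matrix.trace_mul_comm]
            _ = (dM y * dM y).trace := by rw [Matrix.mul_assoc _ k.1ᵀ, hkt, Matrix.mul_one]
        rw [h2]
        unfold dM
        rw [Matrix.diagonal_mul_diagonal, Matrix.trace_diagonal]
        have h3 : ‖y‖ = ‖y.1‖ := rfl
        rw [h3, EuclideanSpace.norm_eq, Real.sq_sqrt (by positivity)]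
        refine Finset.sum_congr rfl fun i _ => ?_
        rw [Real.norm_eq_abs, sq_abs]
        ring
      have h4 : ‖y‖ ^ 2 ≤ 1 := by rw [h1]; exact htr
      have h5 := norm_nonneg y
      nlinarith
    have hint := hA.int (g * k) y hny
    have e1 : ξ (act (g * k) (sg y)) (gvel (g * k) y 1) = xp ξ ((2 : ℝ) • z) (g * ex z) := by
      have h := hx 1
      rw [one_smul, one_smul] at h
      exact h
    have e0 : ξ (act (g * k) (sg 0)) (gvel (g * k) y 0) = xp ξ ((2 : ℝ) • z) g := by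
      have h := hx 0
      rw [zero_smul, zero_smul, ex_facts.2.2.2.1, mul_one] at h
      exact h
    rw [e1, e0] at hint
    have e2 : (fun s : ℝ => κ (act (g * k) (sg (s • y))) (gvel (g * k) y s) (gvel (g * k) y s) -
        c * spd (act (g * k) (sg (s • y))) (gvel (g * k) y s) ^ 2) =
        fun s : ℝ => Jp κ ((2 : ℝ) • z) ((2 : ℝ) • z) (g * ex (s • z)) -
        c * (((2 : ℝ) • z) * ((2 : ℝ) • z)).trace := by
      funext s
      rw [hJs, hsp]
    rw [e2] at hint
    exact hint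

end FL27
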