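import Pool.Agent.LibFL27.CDefs
import Pool.Agent.LibFL27.CA0

set_option autoImplicit false
set_option maxSynthPendingDepth 3

open Matrix MeasureTheory Topology Filter LibNC38
open LibNC27 hiding Mt
open scoped Matrix.Norms.Elementwise ContDiff

namespace FL27

/-- square of the Frobenius norm -/
private noncomputable def CC5_Fr {n : ℕ} (A : Mt n) : ℝ := ∑ a, ∑ b, (A a b) ^ 2

private theorem CC5_nonneg {n : ℕ} (A : Mt n) : 0 ≤ CC5_Fr A :=
  Finset.sum_nonneg fun _ _ => Finset.sum_nonneg fun _ _ => sq_nonneg _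

private theorem CC5_entry {n : ℕ} (A : Mt n) (a b : Fin n) : (A a b) ^ 2 ≤ CC5_Fr A := by
  unfold CC5_Fr
  refine le_trans ?_ (Finset.single_le_sum (f := fun a => ∑ b, (A a b) ^ 2)
    (fun _ _ => Finset.sum_nonneg fun _ _ => sq_nonneg _) (Finset.mem_univ a))
  exact Finset.single_le_sum (f := fun b => (A a b) ^ 2) (fun _ _ => sq_nonneg _)
    (Finset.mem_univ b)

private theorem CC5_trace {n : ℕ} (A : Mt n) : CC5_Fr A = (A * Aᵀ).trace := by
  unfold CC5_Fr Matrix.trace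
  refine Finset.sum_congr rfl fun a _ => ?_
  rw [Matrix.diag_apply, Matrix.mul_apply]
  refine Finset.sum_congr rfl fun b _ => ?_
  rw [Matrix.transpose_apply, sq]

private theorem CC5_ort {n : ℕ} (k : SL n) (hk : Ort k) (A : Mt n) :
    CC5_Fr (k.1 * A * k.1ᵀ) = CC5_Fr A := by
  have h1 : k.1ᵀ * k.1 = 1 := mul_eq_one_comm.1 hk
  rw [CC5_trace, CC5_trace]
  have h2 : k.1 * A * k.1ᵀ * (k.1 * A * k.1ᵀ)ᵀ = k.1 * (A * Aᵀ * k.1ᵀ) := by
    rw [Matrix.transpose_mul, Matrix.transpose_mul, Matrix.transpose_transpose]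
    calc k.1 * A * k.1ᵀ * (k.1 * (Aᵀ * k.1ᵀ))
        = k.1 * A * (k.1ᵀ * k.1) * (Aᵀ * k.1ᵀ) := by simp only [Matrix.mul_assoc]
      _ = k.1 * (A * Aᵀ * k.1ᵀ) := by rw [h1, Matrix.mul_one]; simp only [Matrix.mul_assoc]
  rw [h2, Matrix.trace_mul_comm, Matrix.mul_assoc, h1, Matrix.mul_one]

private theorem CC5_small {n : ℕ} {A : Mt n} {s : ℝ} (hs : 0 < s) (h : CC5_Fr A < s ^ 2) :
    ‖A‖ < s := by
  rw [Matrix.norm_lt_iff hs]
  intro i j
  rw [Real.norm_eq_abs]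
  exact abs_lt_of_sq_lt_sq ((CC5_entry A i j).trans_lt h) hs.le

private theorem CC5_smooth {n : ℕ} : ContDiff ℝ ∞ (fun A : Mt n => CC5_Fr (A - 1)) := by
  unfold CC5_Fr
  refine ContDiff.sum fun a _ => ContDiff.sum fun b _ => ContDiff.pow ?_ 2
  have h : ContDiff ℝ ∞ (fun A : Mt n => A - 1) := contDiff_id.sub contDiff_const
  exact (contDiff_pi.1 ((contDiff_pi.1 h) a)) b

private noncomputable def CC5_chi (r t : ℝ) : ℝ :=
  Real.smoothTransition ((4 * r ^ 2 - t) / (3 * r ^ 2))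

private theorem CC5_chi_one {r t : ℝ} (hr : 0 < r) (h : t ≤ r ^ 2) : CC5_chi r t = 1 := by
  unfold CC5_chi
  refine Real.smoothTransition.one_of_one_le ?_
  rw [le_div_iff₀ (by positivity)]
  linarith

private theorem CC5_chi_zero {r t : ℝ} (hr : 0 < r) (h : 4 * r ^ 2 ≤ t) : CC5_chi r t = 0 := by
  unfold CC5_chi
  refine Real.smoothTransition.zero_of_nonpos ?_
  exact div_nonpos_of_nonpos_of_nonneg (by linarith) (by positivity)

/-- Row CC5. The logarithm of symmetric matrices, cut off. PLAN. `LibNC38.log_sym`: `N, N', L`. Choose `r` with the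
Frobenius ball of radius `3 r` around `1` in `N`, and such that symmetric matrices in it are `exp Z`, `Z` symmetric in
`N'`-ball invariant under conjugation (then `L (k S kᵀ) = k (L S) kᵀ` by uniqueness: `exp (k Z kᵀ) = k exp Z kᵀ`,
`k Z kᵀ ∈ N'`). `ℓ(A) = χ(|A - 1|^2) L(A)`, `χ` smooth cutoff (`χ = 1` on `[0, r^2]`, `0` beyond `4 r^2`; extension by zero),
`|.|` Frobenius (`∑ entries^2`). -/
theorem logc {n : ℕ} : ∃ (r : ℝ) (L : Mt n → Mt n), 0 < r ∧ (∀ a b, ContDiff ℝ ∞ (fun A => L A a b)) ∧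
    (∀ A : Mt n, Aᵀ = A → A.det = 1 → (∑ a, ∑ b, (A a b - (1 : Mt n) a b) ^ 2) < r ^ 2 →
      NormedSpace.exp (L A) = A ∧ Sym0 (L A) ∧ (L A * L A).trace ≤ 1) ∧
    (∀ A : Mt n, Aᵀ = A → ∀ k : SL n, Ort k → L (k.1 * A * k.1ᵀ) = k.1 * L A * k.1ᵀ) ∧
    (∃ r' : ℝ, 0 < r' ∧ ∀ Z : Mt n, Sym0 Z → (∀ a b, |Z a b| < r') →
      L (NormedSpace.exp Z) = Z ∧ (∑ a, ∑ b, ((NormedSpace.exp Z) a b - (1 : Mt n) a b) ^ 2) < r ^ 2) := by
  obtain ⟨N, N', L, hN, hN', h0, hLs, hL1, hL2, hL3⟩ := log_sym (n := n)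
  obtain ⟨ρ0, hρ0, hb0⟩ := Metric.isOpen_iff.1 hN' 0 h0
  obtain ⟨ρ, hρ, hρ1, hρ2⟩ : ∃ ρ : ℝ, 0 < ρ ∧ ρ ≤ ρ0 ∧ ρ ≤ 1 :=
    ⟨min ρ0 1, lt_min hρ0 one_pos, min_le_left _ _, min_le_right _ _⟩
  have hball : ∀ Z : Mt n, CC5_Fr Z < ρ ^ 2 → Z ∈ N' := by
    intro Z hZ
    refine hb0 ?_
    rw [Metric.mem_ball, dist_zero_right]
    exact (CC5_small hρ hZ).trans_le hρ1
  have h1N : (1 : Mt n) ∈ N := by
    have := (hL2 0 h0).1
    rwa [NormedSpace.exp_zero] at this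
  have hL10 : L 1 = 0 := by
    have := (hL2 0 h0).2
    rwa [NormedSpace.exp_zero] at this
  have hLc : ContinuousAt L 1 := hLs.continuousOn.continuousAt (hN.mem_nhds h1N)
  have hFc : Continuous (fun A : Mt n => CC5_Fr A) := by
    unfold CC5_Fr
    refine continuous_finsetSum _ fun a _ => continuous_finsetSum _ fun b _ => ?_
    exact ((continuous_apply b).comp (continuous_apply a)).pow 2
  have hev : ∀ᶠ A in 𝓝 (1 : Mt n), A ∈ N ∧ CC5_Fr (L A) < ρ ^ 2 := by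
    have hm : ∀ᶠ A in 𝓝 (1 : Mt n), A ∈ N := hN.mem_nhds h1N
    refine hm.and ?_
    have h1 : ContinuousAt (fun A => CC5_Fr (L A)) 1 := hFc.continuousAt.comp hLc
    refine h1.eventually_lt continuousAt_const ?_
    show CC5_Fr (L 1) < ρ ^ 2
    rw [hL10]
    unfold CC5_Fr
    simp only [Matrix.zero_apply, ne_eq, OfNat.ofNat_ne_zero, not_false_eq_true, zero_pow,
      Finset.sum_const_zero]
    positivity
  obtain ⟨s, hs, hs2⟩ := Metric.eventually_nhds_iff.1 hev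
  obtain ⟨r, hr, hrs⟩ : ∃ r : ℝ, 0 < r ∧ 3 * r ≤ s := ⟨s / 3, by positivity, by linarith⟩
  have hin : ∀ A : Mt n, CC5_Fr (A - 1) < (3 * r) ^ 2 → A ∈ N ∧ CC5_Fr (L A) < ρ ^ 2 := by
    intro A hA
    refine hs2 ?_
    rw [dist_eq_norm]
    exact (CC5_small (by positivity) hA).trans_le hrs
  have hsum : ∀ A : Mt n, (∑ a, ∑ b, (A a b - (1 : Mt n) a b) ^ 2) = CC5_Fr (A - 1) := by
    intro A
    rfl
  have h49 : ∀ t : ℝ, t < 4 * r ^ 2 → t < (3 * r) ^ 2 := by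
    intro t ht
    nlinarith [sq_nonneg r]
  have hexpc : Continuous (fun A : Mt n => NormedSpace.exp A) := exp_smooth.continuous
  refine ⟨r, fun A => CC5_chi r (CC5_Fr (A - 1)) • L A, hr, ?_, ?_, ?_, ?_⟩
  · intro a b
    rw [contDiff_iff_contDiffAt]
    intro A
    rcases lt_or_ge (CC5_Fr (A - 1)) ((3 * r) ^ 2) with h | h
    · have hA := (hin A h).1
      have h1 : ContDiffAt ℝ ∞ (fun A : Mt n => CC5_chi r (CC5_Fr (A - 1))) A := by
        unfold CC5_chi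
        exact (Real.smoothTransition.contDiff.comp
          ((contDiff_const.sub CC5_smooth).div_const _)).contDiffAt
      have h2 : ContDiffAt ℝ ∞ L A :=
        ((hLs A hA).contDiffAt (hN.mem_nhds hA)).of_le le_top
      have h3 : ContDiffAt ℝ ∞ (fun A => L A a b) A :=
        (contDiffAt_pi.1 ((contDiffAt_pi.1 h2) a)) b
      exact h1.mul h3
    · have h1 : ∀ᶠ B in 𝓝 A, (fun B : Mt n => (CC5_chi r (CC5_Fr (B - 1)) • L B) a b) B =
          (fun _ : Mt n => (0 : ℝ)) B := by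
        have h2 : ∀ᶠ B in 𝓝 A, 4 * r ^ 2 < CC5_Fr (B - 1) := by
          refine continuousAt_const.eventually_lt CC5_smooth.continuous.continuousAt ?_
          nlinarith [sq_pos_of_pos hr]
        filter_upwards [h2] with B hB
        rw [CC5_chi_zero hr hB.le, zero_smul]
        rfl
      exact contDiffAt_const.congr_of_eventuallyEq h1
  · intro A hA hdet h
    rw [hsum] at h
    have h3 : CC5_Fr (A - 1) < (3 * r) ^ 2 := by nlinarith [sq_pos_of_pos hr]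
    obtain ⟨h4, h5⟩ := hin A h3
    have h6 : CC5_chi r (CC5_Fr (A - 1)) • L A = L A := by
      rw [CC5_chi_one hr h.le, one_smul]
    show NormedSpace.exp (CC5_chi r (CC5_Fr (A - 1)) • L A) = A ∧
      Sym0 (CC5_chi r (CC5_Fr (A - 1)) • L A) ∧
      ((CC5_chi r (CC5_Fr (A - 1)) • L A) * (CC5_chi r (CC5_Fr (A - 1)) • L A)).trace ≤ 1
    rw [h6]
    have h7 := hL3 A h4 hA hdet
    refine ⟨hL1 A h4, h7, ?_⟩
    have h8 : (L A * L A).trace = CC5_Fr (L A) := by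
      rw [CC5_trace, h7.1]
    rw [h8]
    have h9 : ρ ^ 2 ≤ 1 := by
      have := pow_le_pow_left₀ hρ.le hρ2 2
      rwa [one_pow] at this
    linarith
  · intro A _ k hk
    have h1 : k.1ᵀ * k.1 = 1 := mul_eq_one_comm.1 hk
    have h2 : k.1 * A * k.1ᵀ - 1 = k.1 * (A - 1) * k.1ᵀ := by
      rw [Matrix.mul_sub, Matrix.sub_mul, Matrix.mul_one]
      rw [show k.1 * k.1ᵀ = 1 from hk]
    show CC5_chi r (CC5_Fr (k.1 * A * k.1ᵀ - 1)) • L (k.1 * A * k.1ᵀ) =
      k.1 * (CC5_chi r (CC5_Fr (A - 1)) • L A) * k.1ᵀ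
    rw [h2, CC5_ort k hk]
    rcases lt_or_ge (CC5_Fr (A - 1)) (4 * r ^ 2) with h | h
    · obtain ⟨h4, h5⟩ := hin A (h49 _ h)
      have h6 : k.1 * L A * k.1ᵀ ∈ N' := hball _ (by rw [CC5_ort k hk]; exact h5)
      have h7 := (hL2 _ h6).2
      have hinv : k.1⁻¹ = k.1ᵀ := Matrix.inv_eq_right_inv hk
      have hunit : IsUnit k.1 := by
        rw [Matrix.isUnit_iff_isUnit_det, k.2]
        exact isUnit_one
      have h8 : NormedSpace.exp (k.1 * L A * k.1ᵀ) = k.1 * A * k.1ᵀ := by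
        have h9 := Matrix.exp_conj k.1 (L A) hunit
        rw [hinv] at h9
        rw [h9, hL1 A h4]
      rw [h8] at h7
      rw [h7, Matrix.mul_smul, Matrix.smul_mul]
    · rw [CC5_chi_zero hr h, zero_smul, zero_smul, Matrix.mul_zero, Matrix.zero_mul]
  · have hev2 : ∀ᶠ Z in 𝓝 (0 : Mt n), Z ∈ N' ∧ CC5_Fr (NormedSpace.exp Z - 1) < r ^ 2 := by
      have hm : ∀ᶠ A in 𝓝 (0 : Mt n), A ∈ N' := hN'.mem_nhds h0
      refine hm.and ?_
      have h1 : ContinuousAt (fun Z : Mt n => CC5_Fr (NormedSpace.exp Z - 1)) 0 :=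
        (hFc.comp (hexpc.sub continuous_const)).continuousAt
      refine h1.eventually_lt continuousAt_const ?_
      show CC5_Fr (NormedSpace.exp (0 : Mt n) - 1) < r ^ 2
      rw [NormedSpace.exp_zero, sub_self]
      unfold CC5_Fr
      simp only [Matrix.zero_apply, ne_eq, OfNat.ofNat_ne_zero, not_false_eq_true, zero_pow,
        Finset.sum_const_zero]
      positivity
    obtain ⟨r', hr', hr2⟩ := Metric.eventually_nhds_iff.1 hev2
    refine ⟨r', hr', fun Z _ hZ => ?_⟩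
    have h1 : dist Z 0 < r' := by
      rw [dist_zero_right, Matrix.norm_lt_iff hr']
      exact hZ
    obtain ⟨h2, h3⟩ := hr2 h1
    rw [hsum]
    refine ⟨?_, h3⟩
    show CC5_chi r (CC5_Fr (NormedSpace.exp Z - 1)) • L (NormedSpace.exp Z) = Z
    rw [CC5_chi_one hr h3.le, one_smul]
    exact (hL2 Z h2).2

end FL27
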