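import Pool.Agent.LibFL27.CDefs
import Pool.Agent.LibFL27.CC5
import Pool.Agent.LibFL27.CB2

set_option autoImplicit false
set_option maxSynthPendingDepth 3

open Matrix MeasureTheory Topology Filter LibNC38
open LibNC27 hiding Mt
open scoped Matrix.Norms.Elementwise ContDiff

namespace FL27

private noncomputable def CC6_q {n : ℕ} (A : Mt n) : ℝ :=
  ∑ a, ∑ b, ((A * Aᵀ) a b - (1 : Mt n) a b) ^ 2

private noncomputable def CC6_phi {n : ℕ} (r : ℝ) (A : Mt n) : ℝ :=
  expNegInvGlue (r ^ 2 - CC6_q A)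

private theorem CC6_frob {n : ℕ} (M : Mt n) : ∑ a, ∑ b, (M a b) ^ 2 = (M * Mᵀ).trace := by
  simp [Matrix.trace, Matrix.mul_apply, pow_two]

private theorem CC6_ortT {n : ℕ} {k : SL n} (hk : Ort k) : k.1ᵀ * k.1 = 1 := by
  have h : k.1 * k.1ᵀ = 1 := hk
  exact mul_eq_one_comm.1 h

private theorem CC6_conj_tr {n : ℕ} {k : SL n} (hk : Ort k) (M : Mt n) :
    (k.1 * M * k.1ᵀ).trace = M.trace := by
  rw [Matrix.trace_mul_comm, ← Matrix.mul_assoc, CC6_ortT hk, Matrix.one_mul]

private theorem CC6_conj_mul {n : ℕ} {k : SL n} (hk : Ort k) (M N : Mt n) :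
    (k.1 * M * k.1ᵀ) * (k.1 * N * k.1ᵀ) = k.1 * (M * N) * k.1ᵀ := by
  calc (k.1 * M * k.1ᵀ) * (k.1 * N * k.1ᵀ) = k.1 * M * (k.1ᵀ * k.1) * N * k.1ᵀ := by
        simp only [Matrix.mul_assoc]
    _ = k.1 * (M * N) * k.1ᵀ := by rw [CC6_ortT hk]; simp only [Matrix.mul_assoc, Matrix.one_mul]

private theorem CC6_kAk {n : ℕ} {k k' : SL n} (_hk : Ort k) (hk' : Ort k') (A : Mt n) :
    (k.1 * A * k'.1) * (k.1 * A * k'.1)ᵀ = k.1 * (A * Aᵀ) * k.1ᵀ := by
  have h : k'.1 * k'.1ᵀ = 1 := hk'
  calc (k.1 * A * k'.1) * (k.1 * A * k'.1)ᵀ = k.1 * A * (k'.1 * k'.1ᵀ) * Aᵀ * k.1ᵀ := by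
        simp only [Matrix.transpose_mul, Matrix.mul_assoc]
    _ = k.1 * (A * Aᵀ) * k.1ᵀ := by rw [h]; simp only [Matrix.mul_assoc, Matrix.one_mul]

private theorem CC6_q_inv {n : ℕ} {k k' : SL n} (hk : Ort k) (hk' : Ort k') (A : Mt n) :
    CC6_q (k.1 * A * k'.1) = CC6_q A := by
  have h1 : k.1 * (A * Aᵀ) * k.1ᵀ - 1 = k.1 * (A * Aᵀ - 1) * k.1ᵀ := by
    have h : k.1 * k.1ᵀ = 1 := hk
    rw [Matrix.mul_sub, Matrix.sub_mul, Matrix.mul_one, h]
  have h2 : CC6_q (k.1 * A * k'.1) =
      ∑ a, ∑ b, ((k.1 * (A * Aᵀ - 1) * k.1ᵀ) a b) ^ 2 := by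
    unfold CC6_q
    rw [CC6_kAk hk hk', ← h1]
    simp only [Matrix.sub_apply]
  have h3 : CC6_q A = ∑ a, ∑ b, ((A * Aᵀ - 1) a b) ^ 2 := by
    unfold CC6_q
    simp only [Matrix.sub_apply]
  rw [h2, h3, CC6_frob, CC6_frob]
  have h4 : (k.1 * (A * Aᵀ - 1) * k.1ᵀ)ᵀ = k.1 * (A * Aᵀ - 1)ᵀ * k.1ᵀ := by
    simp only [Matrix.transpose_mul, Matrix.transpose_transpose, Matrix.mul_assoc]
  rw [h4, CC6_conj_mul hk, CC6_conj_tr hk]

private theorem CC6_entry {n : ℕ} (a b : Fin n) : ContDiff ℝ ∞ (fun A : Mt n => A a b) :=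
  (LinearMap.toContinuousLinearMap (Matrix.entryLinearMap ℝ ℝ a b)).contDiff

private theorem CC6_aat_entry {n : ℕ} (a b : Fin n) :
    ContDiff ℝ ∞ (fun A : Mt n => (A * Aᵀ) a b) := by
  have h : (fun A : Mt n => (A * Aᵀ) a b) = fun A : Mt n => ∑ c, A a c * A b c := by
    funext A
    simp [Matrix.mul_apply]
  rw [h]
  exact ContDiff.sum fun c _ => (CC6_entry a c).mul (CC6_entry b c)

private theorem CC6_aat {n : ℕ} : ContDiff ℝ ∞ (fun A : Mt n => A * Aᵀ) := by
  have h : (fun A : Mt n => A * Aᵀ) =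
      fun A : Mt n => ∑ a, ∑ b, ((A * Aᵀ) a b) • (Matrix.single a b (1 : ℝ)) := by
    funext A
    conv_lhs => rw [Matrix.matrix_eq_sum_single (A * Aᵀ)]
    simp [Matrix.smul_single]
  rw [h]
  exact ContDiff.sum fun a _ => ContDiff.sum fun b _ => (CC6_aat_entry a b).smul contDiff_const

private theorem CC6_q_smooth {n : ℕ} : ContDiff ℝ ∞ (fun A : Mt n => CC6_q A) := by
  unfold CC6_q
  exact ContDiff.sum fun a _ => ContDiff.sum fun b _ =>
    ((CC6_aat_entry a b).sub contDiff_const).pow 2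

private theorem CC6_phi_smooth {n : ℕ} (r : ℝ) : ContDiff ℝ ∞ (fun A : Mt n => CC6_phi r A) := by
  unfold CC6_phi
  exact expNegInvGlue.contDiff.comp (contDiff_const.sub CC6_q_smooth)

private theorem CC6_phi_inv {n : ℕ} (r : ℝ) {k k' : SL n} (hk : Ort k) (hk' : Ort k') (A : Mt n) :
    CC6_phi r (k.1 * A * k'.1) = CC6_phi r A := by
  unfold CC6_phi
  rw [CC6_q_inv hk hk']

private theorem CC6_phi_supp {n : ℕ} (r : ℝ) : HasCompactSupport (fun A : Mt n => CC6_phi r A) := by
  have hC : 0 ≤ 1 + |r| := by positivity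
  refine HasCompactSupport.intro (isCompact_closedBall (0 : Mt n) (1 + |r|)) ?_
  intro A hA
  have h1 : ¬ ∀ a b, ‖A a b‖ ≤ 1 + |r| := by
    intro h
    apply hA
    rw [mem_closedBall_zero_iff]
    exact (Matrix.norm_le_iff hC).2 h
  push Not at h1
  obtain ⟨a, b, hab⟩ := h1
  rw [Real.norm_eq_abs] at hab
  have h2 : (1 + |r|) ^ 2 < (A a b) ^ 2 := by
    rw [← sq_abs (A a b)]
    exact pow_lt_pow_left₀ hab hC two_ne_zero
  have h3 : (A a b) ^ 2 ≤ (A * Aᵀ) a a := by
    have h : (A * Aᵀ) a a = ∑ c, (A a c) ^ 2 := by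
      simp [Matrix.mul_apply, pow_two]
    rw [h]
    exact Finset.single_le_sum (f := fun c => (A a c) ^ 2) (fun c _ => sq_nonneg _)
      (Finset.mem_univ b)
  have h4 : |r| < (A * Aᵀ) a a - 1 := by
    nlinarith [abs_nonneg r]
  have h5 : r ^ 2 < CC6_q A := by
    have h6 : ((A * Aᵀ) a a - (1 : Mt n) a a) ^ 2 ≤ CC6_q A := by
      unfold CC6_q
      have h7 : ((A * Aᵀ) a a - (1 : Mt n) a a) ^ 2 ≤
          ∑ b, ((A * Aᵀ) a b - (1 : Mt n) a b) ^ 2 :=
        Finset.single_le_sum (f := fun b => ((A * Aᵀ) a b - (1 : Mt n) a b) ^ 2)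
          (fun c _ => sq_nonneg _) (Finset.mem_univ a)
      refine h7.trans ?_
      exact Finset.single_le_sum (f := fun a => ∑ b, ((A * Aᵀ) a b - (1 : Mt n) a b) ^ 2)
        (fun c _ => Finset.sum_nonneg fun d _ => sq_nonneg _) (Finset.mem_univ a)
    rw [Matrix.one_apply_eq] at h6
    refine lt_of_lt_of_le ?_ h6
    rw [← sq_abs r]
    exact pow_lt_pow_left₀ h4 (abs_nonneg r) two_ne_zero
  show CC6_phi r A = 0
  unfold CC6_phi
  exact expNegInvGlue.zero_of_nonpos (by linarith)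

private theorem CC6_pr_id {n : ℕ} {v : Mt n} (hv : Sym0 v) : pr0 v = v := by
  obtain ⟨h1, h2⟩ := hv
  show (1 / 2 : ℝ) • (v + vᵀ) - (v.trace / n) • (1 : Mt n) = v
  rw [h1, h2]
  ext i j
  simp only [Matrix.sub_apply, Matrix.smul_apply, Matrix.add_apply, smul_eq_mul]
  ring

private theorem CC6_pr_sym {n : ℕ} (v : Mt n) : Sym0 (pr0 v) := by
  constructor
  · show ((1 / 2 : ℝ) • (v + vᵀ) - (v.trace / n) • (1 : Mt n))ᵀ = _
    rw [Matrix.transpose_sub, Matrix.transpose_smul, Matrix.transpose_smul, Matrix.transpose_add,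
      Matrix.transpose_transpose, Matrix.transpose_one, add_comm vᵀ v]
    rfl
  · show ((1 / 2 : ℝ) • (v + vᵀ) - (v.trace / n) • (1 : Mt n)).trace = 0
    rw [Matrix.trace_sub, Matrix.trace_smul, Matrix.trace_smul, Matrix.trace_add,
      Matrix.trace_transpose, Matrix.trace_one, Fintype.card_fin, smul_eq_mul, smul_eq_mul]
    rcases Nat.eq_zero_or_pos n with hn | hn
    · subst hn
      simp [Matrix.trace]
    · have : (n : ℝ) ≠ 0 := by positivity
      field_simp
      ring

private theorem CC6_pr_conj {n : ℕ} {k : SL n} (hk : Ort k) (v : Mt n) :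
    pr0 (k.1 * v * k.1ᵀ) = k.1 * pr0 v * k.1ᵀ := by
  show (1 / 2 : ℝ) • (k.1 * v * k.1ᵀ + (k.1 * v * k.1ᵀ)ᵀ) -
    ((k.1 * v * k.1ᵀ).trace / n) • (1 : Mt n) =
    k.1 * ((1 / 2 : ℝ) • (v + vᵀ) - (v.trace / n) • (1 : Mt n)) * k.1ᵀ
  have h : k.1 * k.1ᵀ = 1 := hk
  have h4 : (k.1 * v * k.1ᵀ)ᵀ = k.1 * vᵀ * k.1ᵀ := by
    simp only [Matrix.transpose_mul, Matrix.transpose_transpose, Matrix.mul_assoc]
  rw [CC6_conj_tr hk, h4, Matrix.mul_sub, Matrix.sub_mul, Matrix.mul_smul, Matrix.mul_smul,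
    Matrix.smul_mul, Matrix.smul_mul, Matrix.mul_one, h, Matrix.mul_add, Matrix.add_mul]

/-- the moment map of the kernel -/
private noncomputable def CC6_M {n : ℕ} (c : Fin n → Fin n → Mt n) : Mt n →ₗ[ℝ] Mt n where
  toFun w := ∑ i, ∑ j, w i j • c i j
  map_add' a b := by
    simp only [Matrix.add_apply, add_smul, Finset.sum_add_distrib]
  map_smul' r a := by
    simp only [Matrix.smul_apply, smul_eq_mul, RingHom.id_apply, Finset.smul_sum, smul_smul]

/-- Row CC6. The kernel. PLAN. `logc`: `z(A) = -(1/2) L(A Aᵀ)`; for `u ∈ SL n` with `∑ u_ab^2 < n + ρ` (`ρ` small) the matrix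
`u uᵀ` has `|u uᵀ - 1| < r` (all eigenvalues of `u uᵀ` are near `1` as their product is `1` and their sum is `< n + ρ`; or by
compactness: `u uᵀ = 1` is the only zero of the continuous `∑ u_ab^2 - n ≥ 0` (AM-GM) on the closed set `SL n`, proper).
`φ(u) = χ(∑ u_ab^2)` smooth, `> 0` iff `∑ u_ab^2 < n + ρ`. `B(v,w) = ∫ φ(u) tr(v z(u)) 2 tr(w z(u)) dν` is symmetric positive
definite on `Sym0` (`v ≠ 0`: near `u = exp(-ε v)` the integrand is positive: `HK.pos`), invariant under `v, w ↦ k v kᵀ, k w kᵀ`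
(`cv_facts` 5). Let `T` be the linear map of `Sym0` with `B(T v, w) = tr(v w)`; `T (k v kᵀ) = k (T v) kᵀ`;
`κ v A = φ(A) tr(T(pr0 v) z(A))`. Then `∫ κ_v(u) 2 tr(w z(u)) = tr(v w)` for all `w ∈ Sym0`, i.e. `rep`. -/
theorem ker_ex {n : ℕ} (ν : Measure (SL n)) (hν : HK ν) :
    ∃ (κ : Mt n →ₗ[ℝ] (Mt n → ℝ)) (z : Mt n → Mt n), Ker ν κ z := by
  obtain ⟨hint0, -, -, -, hchg, -⟩ := cv_facts ν hν
  obtain ⟨r, L, hr, hLsm, hLexp, hLort, r', hr', hLinv⟩ := logc (n := n)
  -- integrability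
  have hint : ∀ κ : Mt n → ℝ, Continuous κ → HasCompactSupport κ →
      Integrable (fun u : SL n => κ u.1) ν := by
    intro κ h1 h2
    have := (hint0 κ (fun _ => 1) h1 h2 continuous_const).1 1
    simpa using this
  set φ : Mt n → ℝ := fun A => CC6_phi r A with hφ
  have hφsm : ContDiff ℝ ∞ φ := CC6_phi_smooth r
  have hφsupp : HasCompactSupport φ := CC6_phi_supp r
  have hφ0 : ∀ A, 0 ≤ φ A := fun A => expNegInvGlue.nonneg _
  set z : Mt n → Mt n := fun A => -((1 / 2 : ℝ) • L (A * Aᵀ)) with hz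
  have hzsm : ∀ a b, ContDiff ℝ ∞ (fun A => z A a b) := by
    intro a b
    have h : (fun A => z A a b) = fun A => -((1 / 2 : ℝ) * (L (A * Aᵀ)) a b) := by
      funext A
      simp [hz]
    rw [h]
    exact (contDiff_const.mul ((hLsm a b).comp CC6_aat)).neg
  have hzort : ∀ k k' : SL n, Ort k → Ort k' → ∀ A : Mt n,
      z (k.1 * A * k'.1) = k.1 * z A * k.1ᵀ := by
    intro k k' hk hk' A
    show -((1 / 2 : ℝ) • L ((k.1 * A * k'.1) * (k.1 * A * k'.1)ᵀ)) =
      k.1 * (-((1 / 2 : ℝ) • L (A * Aᵀ))) * k.1ᵀ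
    rw [CC6_kAk hk hk', hLort (A * Aᵀ) (by rw [Matrix.transpose_mul, Matrix.transpose_transpose]) k hk]
    rw [Matrix.mul_neg, Matrix.neg_mul, Matrix.mul_smul, Matrix.smul_mul]
  have hgood : ∀ u : SL n, φ u.1 ≠ 0 → Sym0 (z u.1) ∧ (z u.1 * z u.1).trace ≤ 1 ∧
      u.1 * u.1ᵀ = NormedSpace.exp (-((2 : ℝ) • z u.1)) := by
    intro u hu
    have hq : CC6_q u.1 < r ^ 2 := by
      by_contra hcon
      push Not at hcon
      exact hu (expNegInvGlue.zero_of_nonpos (by linarith))
    have hsym : (u.1 * u.1ᵀ)ᵀ = u.1 * u.1ᵀ := by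
      rw [Matrix.transpose_mul, Matrix.transpose_transpose]
    have hdet : (u.1 * u.1ᵀ).det = 1 := by
      rw [Matrix.det_mul, Matrix.det_transpose, u.2, mul_one]
    obtain ⟨h1, h2, h3⟩ := hLexp (u.1 * u.1ᵀ) hsym hdet hq
    refine ⟨⟨?_, ?_⟩, ?_, ?_⟩
    · show (-((1 / 2 : ℝ) • L (u.1 * u.1ᵀ)))ᵀ = -((1 / 2 : ℝ) • L (u.1 * u.1ᵀ))
      rw [Matrix.transpose_neg, Matrix.transpose_smul, h2.1]
    · show (-((1 / 2 : ℝ) • L (u.1 * u.1ᵀ))).trace = 0
      rw [Matrix.trace_neg, Matrix.trace_smul, h2.2, smul_zero, neg_zero]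
    · show ((-((1 / 2 : ℝ) • L (u.1 * u.1ᵀ))) * (-((1 / 2 : ℝ) • L (u.1 * u.1ᵀ)))).trace ≤ 1
      rw [Matrix.neg_mul, Matrix.mul_neg, neg_neg, Matrix.smul_mul, Matrix.mul_smul, smul_smul,
        Matrix.trace_smul, smul_eq_mul]
      linarith
    · have h4 : -((2 : ℝ) • z u.1) = L (u.1 * u.1ᵀ) := by
        show -((2 : ℝ) • (-((1 / 2 : ℝ) • L (u.1 * u.1ᵀ)))) = L (u.1 * u.1ᵀ)
        rw [smul_neg, neg_neg, smul_smul]
        norm_num
      rw [h4, h1]
  have hzc : ∀ a b, Continuous (fun A => z A a b) := fun a b => (hzsm a b).continuous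
  have hφc : Continuous φ := hφsm.continuous
  -- the moment map
  set c : Fin n → Fin n → Mt n := fun i j => Matrix.of fun a b =>
    ∫ u : SL n, φ u.1 * z u.1 j i * (2 * z u.1 a b) ∂ν with hc
  have hI : ∀ (i j a b : Fin n), Integrable (fun u : SL n => φ u.1 * z u.1 j i * (2 * z u.1 a b)) ν := by
    intro i j a b
    refine hint (fun A => φ A * z A j i * (2 * z A a b)) ?_ ?_
    · exact (hφc.mul (hzc j i)).mul (continuous_const.mul (hzc a b))
    · have h : (fun A => φ A * z A j i * (2 * z A a b)) =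
          fun A => φ A * (z A j i * (2 * z A a b)) := by funext A; ring
      rw [h]
      exact hφsupp.mul_right
  have hM : ∀ (w : Mt n) (a b : Fin n), CC6_M c w a b =
      ∫ u : SL n, φ u.1 * (w * z u.1).trace * (2 * z u.1 a b) ∂ν := by
    intro w a b
    have h1 : ∀ u : SL n, φ u.1 * (w * z u.1).trace * (2 * z u.1 a b) =
        ∑ i, ∑ j, w i j * (φ u.1 * z u.1 j i * (2 * z u.1 a b)) := by
      intro u
      simp only [Matrix.trace, Matrix.diag_apply, Matrix.mul_apply, Finset.mul_sum, Finset.sum_mul]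
      refine Finset.sum_congr rfl fun i _ => Finset.sum_congr rfl fun j _ => ?_
      ring
    simp only [h1]
    rw [integral_finsetSum _ (fun i _ => integrable_finsetSum _ fun j _ => (hI i j a b).const_mul _)]
    show (∑ i, ∑ j, w i j • c i j) a b = _
    rw [Matrix.sum_apply]
    refine Finset.sum_congr rfl fun i _ => ?_
    rw [integral_finsetSum _ (fun j _ => (hI i j a b).const_mul _), Matrix.sum_apply]
    refine Finset.sum_congr rfl fun j _ => ?_
    rw [integral_const_mul]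
    rfl
  have hIw : ∀ (w : Mt n) (a b : Fin n),
      Integrable (fun u : SL n => φ u.1 * (w * z u.1).trace * (2 * z u.1 a b)) ν := by
    intro w a b
    have h1 : (fun u : SL n => φ u.1 * (w * z u.1).trace * (2 * z u.1 a b)) =
        fun u : SL n => ∑ i, ∑ j, w i j * (φ u.1 * z u.1 j i * (2 * z u.1 a b)) := by
      funext u
      simp only [Matrix.trace, Matrix.diag_apply, Matrix.mul_apply, Finset.mul_sum, Finset.sum_mul]
      refine Finset.sum_congr rfl fun i _ => Finset.sum_congr rfl fun j _ => ?_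
      ring
    rw [h1]
    exact integrable_finsetSum _ fun i _ => integrable_finsetSum _ fun j _ =>
      (hI i j a b).const_mul _
  -- values of the moment map are symmetric of trace zero
  have hMsym : ∀ w : Mt n, Sym0 (CC6_M c w) := by
    intro w
    constructor
    · ext a b
      rw [Matrix.transpose_apply, hM, hM]
      refine integral_congr_ae (Eventually.of_forall fun u => ?_)
      by_cases hu : φ u.1 = 0
      · simp only [hu, zero_mul]
      · have h := (hgood u hu).1.1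
        have h2 : z u.1 b a = z u.1 a b := by
          conv_lhs => rw [← h]
          rfl
        simp only [h2]
    · show ∑ a, CC6_M c w a a = 0
      simp only [hM]
      rw [← integral_finsetSum _ (fun a _ => hIw w a a)]
      have h0 : ∀ u : SL n, ∑ a, φ u.1 * (w * z u.1).trace * (2 * z u.1 a a) = 0 := by
        intro u
        by_cases hu : φ u.1 = 0
        · simp only [hu, zero_mul, Finset.sum_const_zero]
        · have h := (hgood u hu).1.2
          rw [← Finset.mul_sum, ← Finset.mul_sum]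
          have h3 : ∑ a, z u.1 a a = 0 := h
          rw [h3]
          ring
      simp only [h0, integral_zero]
  -- positive definiteness
  have hpos : ∀ w : Mt n, Sym0 w → CC6_M c w = 0 → w = 0 := by
    intro w hw hMw
    by_contra hne
    have h1 : ∫ u : SL n, 2 * φ u.1 * (w * z u.1).trace ^ 2 ∂ν = 0 := by
      have h2 : ∀ u : SL n, 2 * φ u.1 * (w * z u.1).trace ^ 2 =
          ∑ a, ∑ b, w b a * (φ u.1 * (w * z u.1).trace * (2 * z u.1 a b)) := by
        intro u
        have h3 : (w * z u.1).trace = ∑ a, ∑ b, w b a * z u.1 a b := by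
          rw [Finset.sum_comm]
          simp only [Matrix.trace, Matrix.diag_apply, Matrix.mul_apply]
        calc 2 * φ u.1 * (w * z u.1).trace ^ 2
            = (2 * φ u.1 * (w * z u.1).trace) * (w * z u.1).trace := by ring
          _ = (2 * φ u.1 * (w * z u.1).trace) * ∑ a, ∑ b, w b a * z u.1 a b := by
              congr 1
          _ = _ := by
              rw [Finset.mul_sum]
              refine Finset.sum_congr rfl fun a _ => ?_
              rw [Finset.mul_sum]
              refine Finset.sum_congr rfl fun b _ => ?_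
              ring
      simp only [h2]
      rw [integral_finsetSum _ (fun a _ => integrable_finsetSum _ fun b _ =>
        (hIw w a b).const_mul _)]
      refine Finset.sum_eq_zero fun a _ => ?_
      rw [integral_finsetSum _ (fun b _ => (hIw w a b).const_mul _)]
      refine Finset.sum_eq_zero fun b _ => ?_
      rw [integral_const_mul, ← hM, hMw]
      simp
    have : IsFiniteMeasureOnCompacts ν := ⟨fun K hK => hν.fin K hK⟩
    have : ν.IsOpenPosMeasure := ⟨fun U hU hne => (hν.pos U hU hne).ne'⟩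
    have hce : IsClosedEmbedding ((↑) : SL n → Mt n) :=
      Matrix.SpecialLinearGroup.isClosedEmbedding_val
    -- the point
    set C : ℝ := 1 + ‖w‖ with hC
    have hC0 : 0 < C := by positivity
    set ε : ℝ := r' / (2 * C) with hε
    have hε0 : 0 < ε := by positivity
    have hx0 : (-(ε • w)).trace = 0 := by
      rw [Matrix.trace_neg, Matrix.trace_smul, hw.2, smul_zero, neg_zero]
    set u0 : SL n := ex (-(ε • w)) with hu0
    have hu0v : u0.1 = NormedSpace.exp (-(ε • w)) := ex_facts.1 _ hx0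
    have hu0u : u0.1 * u0.1ᵀ = NormedSpace.exp (-((2 * ε) • w)) := by
      rw [hu0v, ← Matrix.exp_transpose]
      have h2 : (-(ε • w))ᵀ = -(ε • w) := by
        rw [Matrix.transpose_neg, Matrix.transpose_smul, hw.1]
      rw [h2, ← Matrix.exp_add_of_commute _ _ (Commute.refl _)]
      congr 1
      rw [← neg_add, ← add_smul, two_mul]
    have hZ0 : Sym0 (-((2 * ε) • w)) := by
      constructor
      · rw [Matrix.transpose_neg, Matrix.transpose_smul, hw.1]
      · rw [Matrix.trace_neg, Matrix.trace_smul, hw.2, smul_zero, neg_zero]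
    have hZb : ∀ a b, |(-((2 * ε) • w)) a b| < r' := by
      intro a b
      have h2 : ‖w a b‖ ≤ ‖w‖ := Matrix.norm_entry_le_entrywise_sup_norm w
      rw [Real.norm_eq_abs] at h2
      have h3 : |(-((2 * ε) • w)) a b| = 2 * ε * |w a b| := by
        rw [Matrix.neg_apply, Matrix.smul_apply, smul_eq_mul, abs_neg, abs_mul,
          abs_of_pos (by positivity : 0 < 2 * ε)]
      rw [h3, hε]
      have h4 : 2 * (r' / (2 * C)) * |w a b| = r' * (|w a b| / C) := by
        field_simp
      rw [h4]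
      have h5 : |w a b| / C < 1 := by
        rw [div_lt_one hC0]
        linarith
      nlinarith
    obtain ⟨hL1, hL2⟩ := hLinv _ hZ0 hZb
    have hz0 : z u0.1 = ε • w := by
      show -((1 / 2 : ℝ) • L (u0.1 * u0.1ᵀ)) = ε • w
      rw [hu0u, hL1, smul_neg, neg_neg, smul_smul]
      congr 1
      ring
    have hφu0 : 0 < φ u0.1 := by
      show 0 < expNegInvGlue (r ^ 2 - CC6_q u0.1)
      apply expNegInvGlue.pos_of_pos
      have : CC6_q u0.1 < r ^ 2 := by
        unfold CC6_q
        rw [hu0u]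
        exact hL2
      linarith
    have htr : 0 < (w * w).trace := by
      have h2 : (w * w).trace = ∑ a, ∑ b, (w a b) ^ 2 := by
        rw [CC6_frob, hw.1]
      rw [h2]
      have h3 : ∃ a b, w a b ≠ 0 := by
        by_contra hcon
        push Not at hcon
        exact hne (by ext a b; exact hcon a b)
      obtain ⟨a, b, hab⟩ := h3
      refine lt_of_lt_of_le (pow_pos (abs_pos.2 hab) 2) ?_
      rw [sq_abs]
      refine (Finset.single_le_sum (f := fun b => (w a b) ^ 2) (fun c _ => sq_nonneg _)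
        (Finset.mem_univ b)).trans ?_
      exact Finset.single_le_sum (f := fun a => ∑ b, (w a b) ^ 2)
        (fun c _ => Finset.sum_nonneg fun d _ => sq_nonneg _) (Finset.mem_univ a)
    have hftr : Continuous (fun A : Mt n => (w * z A).trace) := by
      have h2 : (fun A : Mt n => (w * z A).trace) = fun A => ∑ a, ∑ b, w a b * z A b a := by
        funext A
        simp only [Matrix.trace, Matrix.diag_apply, Matrix.mul_apply]
      rw [h2]
      exact continuous_finsetSum _ fun a _ => continuous_finsetSum _ fun b _ =>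
        continuous_const.mul (hzc b a)
    have hfc : Continuous (fun A : Mt n => 2 * φ A * (w * z A).trace ^ 2) :=
      (continuous_const.mul hφc).mul (hftr.pow 2)
    have hfs : HasCompactSupport (fun A : Mt n => 2 * φ A * (w * z A).trace ^ 2) := by
      have h : (fun A : Mt n => 2 * φ A * (w * z A).trace ^ 2) =
          fun A => φ A * (2 * (w * z A).trace ^ 2) := by funext A; ring
      rw [h]
      exact hφsupp.mul_right
    have hp := Continuous.integral_pos_of_hasCompactSupport_nonneg_nonzero (μ := ν)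
      (f := fun u : SL n => 2 * φ u.1 * (w * z u.1).trace ^ 2) (x := u0)
      (hfc.comp hce.continuous) (hfs.comp_isClosedEmbedding hce)
      (fun u => mul_nonneg (mul_nonneg zero_le_two (hφ0 _)) (sq_nonneg _)) (by
        show 2 * φ u0.1 * (w * z u0.1).trace ^ 2 ≠ 0
        rw [hz0, Matrix.mul_smul, Matrix.trace_smul, smul_eq_mul]
        positivity)
    rw [h1] at hp
    exact lt_irrefl _ hp
  -- equivariance of the moment map
  have hMort : ∀ (k : SL n), Ort k → ∀ w : Mt n,
      CC6_M c (k.1 * w * k.1ᵀ) = k.1 * CC6_M c w * k.1ᵀ := by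
    intro k hk w
    have hone : Ort (1 : SL n) := by
      show (1 : SL n).1 * (1 : SL n).1ᵀ = 1
      simp
    ext a b
    rw [hM, ← hchg _ k 1 hk hone]
    have h1 : ∀ u : SL n, φ (k * u * 1).1 * (k.1 * w * k.1ᵀ * z (k * u * 1).1).trace *
        (2 * z (k * u * 1).1 a b) =
        ∑ i, ∑ j, (k.1 a i * k.1 b j) * (φ u.1 * (w * z u.1).trace * (2 * z u.1 i j)) := by
      intro u
      have h2 : (k * u * 1 : SL n).1 = k.1 * u.1 * (1 : SL n).1 := by
        simp
      rw [h2, hzort k 1 hk hone, CC6_conj_mul hk, CC6_conj_tr hk]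
      have h3 : φ (k.1 * u.1 * (1 : SL n).1) = φ u.1 := CC6_phi_inv r hk hone u.1
      rw [h3]
      have h4 : (k.1 * z u.1 * k.1ᵀ) a b = ∑ i, ∑ j, k.1 a i * z u.1 i j * k.1 b j := by
        simp only [Matrix.mul_apply, Matrix.transpose_apply, Finset.sum_mul]
        rw [Finset.sum_comm]
      rw [h4]
      simp only [Finset.mul_sum]
      refine Finset.sum_congr rfl fun i _ => Finset.sum_congr rfl fun j _ => ?_
      ring
    simp only [h1]
    rw [integral_finsetSum _ (fun i _ => integrable_finsetSum _ fun j _ =>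
      (hIw w i j).const_mul _)]
    have h4 : (k.1 * CC6_M c w * k.1ᵀ) a b = ∑ i, ∑ j, k.1 a i * CC6_M c w i j * k.1 b j := by
      simp only [Matrix.mul_apply, Matrix.transpose_apply, Finset.sum_mul]
      rw [Finset.sum_comm]
    rw [h4]
    refine Finset.sum_congr rfl fun i _ => ?_
    rw [integral_finsetSum _ (fun j _ => (hIw w i j).const_mul _)]
    refine Finset.sum_congr rfl fun j _ => ?_
    rw [integral_const_mul, hM]
    ring
  -- the invertible extension
  set N : Mt n →ₗ[ℝ] Mt n := (CC6_M c).comp pr0 + (LinearMap.id - pr0) with hN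
  have hNap : ∀ w, N w = CC6_M c (pr0 w) + (w - pr0 w) := fun w => rfl
  have hprpr : ∀ w : Mt n, pr0 (pr0 w) = pr0 w := fun w => CC6_pr_id (CC6_pr_sym w)
  have hprN : ∀ w, pr0 (N w) = CC6_M c (pr0 w) := by
    intro w
    rw [hNap, map_add, map_sub, hprpr, sub_self, add_zero, CC6_pr_id (hMsym _)]
  have hNinj : Function.Injective N := by
    rw [injective_iff_map_eq_zero]
    intro w hw
    have h1 : CC6_M c (pr0 w) = 0 := by rw [← hprN, hw, map_zero]
    have h2 : pr0 w = 0 := hpos _ (CC6_pr_sym w) h1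
    rw [hNap, h2, map_zero, zero_add, sub_zero] at hw
    exact hw
  set T : Mt n ≃ₗ[ℝ] Mt n := (LinearEquiv.ofInjectiveEndo N hNinj).symm with hT
  have hNT : ∀ v, N (T v) = v := fun v =>
    (LinearEquiv.ofInjectiveEndo N hNinj).apply_symm_apply v
  have hNort : ∀ (k : SL n), Ort k → ∀ w : Mt n, N (k.1 * w * k.1ᵀ) = k.1 * N w * k.1ᵀ := by
    intro k hk w
    rw [hNap, hNap, CC6_pr_conj hk, hMort k hk, Matrix.mul_add, Matrix.add_mul, Matrix.mul_sub,
      Matrix.sub_mul]
  have hTort : ∀ (k : SL n), Ort k → ∀ v : Mt n, T (k.1 * v * k.1ᵀ) = k.1 * T v * k.1ᵀ := by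
    intro k hk v
    apply hNinj
    rw [hNT, hNort k hk, hNT]
  set κ : Mt n →ₗ[ℝ] (Mt n → ℝ) :=
    { toFun := fun v A => φ A * (pr0 (T (pr0 v)) * z A).trace
      map_add' := by
        intro v w
        funext A
        simp only [map_add, Matrix.add_mul, Matrix.trace_add, Pi.add_apply]
        ring
      map_smul' := by
        intro t v
        funext A
        simp only [map_smul, Matrix.smul_mul, Matrix.trace_smul, Pi.smul_apply, smul_eq_mul,
          RingHom.id_apply]
        ring } with hκ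
  have hκap : ∀ v A, κ v A = φ A * (pr0 (T (pr0 v)) * z A).trace := fun v A => rfl
  refine ⟨κ, z, ?_⟩
  refine ⟨hzsm, ?_, ?_, ?_, ?_, ?_, ?_, ?_⟩
  · intro v
    have h : κ v = fun A => φ A * ∑ a, ∑ b, (pr0 (T (pr0 v))) a b * z A b a := by
      funext A
      rw [hκap]
      simp only [Matrix.trace, Matrix.diag_apply, Matrix.mul_apply]
    rw [h]
    exact hφsm.mul (ContDiff.sum fun a _ => ContDiff.sum fun b _ => contDiff_const.mul (hzsm b a))
  · intro v
    exact hφsupp.mul_right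
  · intro v u hu
    exact hgood u fun h => hu (by rw [hκap, h, zero_mul])
  · intro k k' hk hk' v u
    have h2 : (k * u * k' : SL n).1 = k.1 * u.1 * k'.1 := by simp
    rw [hκap, hκap, h2, CC6_pr_conj hk, hTort k hk, CC6_pr_conj hk, hzort k k' hk hk',
      CC6_conj_mul hk, CC6_conj_tr hk]
    have h3 : φ (k.1 * u.1 * k'.1) = φ u.1 := CC6_phi_inv r hk hk' u.1
    rw [h3]
  · intro k k' hk hk' u
    have h2 : (k * u * k' : SL n).1 = k.1 * u.1 * k'.1 := by simp
    rw [h2]
    exact hzort k k' hk hk' u.1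
  · intro v
    funext A
    rw [hκap, hκap, hprpr]
  · intro v hv a b
    have h1 : CC6_M c (pr0 (T v)) = v := by
      rw [← hprN, hNT, CC6_pr_id hv]
    have h2 : ∀ u : SL n, κ v u.1 * (2 * z u.1 a b) =
        φ u.1 * (pr0 (T v) * z u.1).trace * (2 * z u.1 a b) := by
      intro u
      rw [hκap, CC6_pr_id hv]
    simp only [h2]
    rw [← hM, h1]

end FL27
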