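import Pool.Agent.LibFL27.CDefs
import Pool.Agent.LibFL27.CB4
import Pool.Agent.LibFL27.CB3

set_option autoImplicit false
set_option maxSynthPendingDepth 3

open Matrix MeasureTheory Topology Filter LibNC38
open LibNC27 hiding Mt
open scoped Matrix.Norms.Elementwise ContDiff

namespace FL27

private theorem CC8_adj {n : ℕ} : ContDiff ℝ ∞ (fun A : Mt n => A.adjugate) := by
  rw [← contDiffOn_univ, cd_iff]
  intro i j
  have h1 : (fun x : Mt n => x.adjugate i j) = fun x => (x.updateRow j (Pi.single i 1)).det := by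
    funext x
    rw [Matrix.adjugate_apply]
  rw [h1]
  refine cd_det ?_
  rw [cd_iff]
  intro a b
  simp only [Matrix.updateRow_apply]
  split_ifs
  · exact contDiffOn_const
  · exact cd_entry contDiffOn_id a b

private theorem CC8_Lk {n : ℕ} (y : Mt n) (κ : Mt n → ℝ) (hκ : ContDiff ℝ ∞ κ)
    (hc : HasCompactSupport κ) : ContDiff ℝ ∞ (Lk y κ) ∧ HasCompactSupport (Lk y κ) := by
  constructor
  · have h2 : ContDiff ℝ ∞ (fun A : Mt n => y * A) := by
      rw [← contDiffOn_univ]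
      exact cd_mul contDiffOn_const contDiffOn_id
    have h1 : ContDiff ℝ ∞ (Function.uncurry fun (_ : Mt n) (B : Mt n) => κ B) :=
      hκ.comp contDiff_snd
    have h3 : ContDiff ℝ ∞ (fun A : Mt n => fderiv ℝ κ A (y * A)) :=
      h1.fderiv_apply (m := ∞) (n := ∞) contDiff_id h2 (by simp)
    exact h3.neg
  · refine HasCompactSupport.mono (hc.fderiv (𝕜 := ℝ)) ?_
    intro A hA hA0
    apply hA
    show -(fderiv ℝ κ A (y * A)) = 0
    rw [hA0]
    simp

private theorem CC8_lin {n : ℕ} (x : Mt n) (κ : Mt n → ℝ) (A : Mt n) :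
    Lk x κ A = ∑ i : Fin n × Fin n, x i.1 i.2 * Lk (Matrix.single i.1 i.2 1) κ A := by
  have h1 : x * A = ∑ i : Fin n × Fin n, x i.1 i.2 • (Matrix.single i.1 i.2 1 * A) := by
    rw [Fintype.sum_prod_type]
    conv_lhs => rw [Matrix.matrix_eq_sum_single x]
    rw [Finset.sum_mul]
    refine Finset.sum_congr rfl fun a _ => ?_
    rw [Finset.sum_mul]
    refine Finset.sum_congr rfl fun b _ => ?_
    have : Matrix.single a b (x a b) = x a b • Matrix.single a b (1 : ℝ) := by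
      rw [Matrix.smul_single, smul_eq_mul, mul_one]
    rw [this, Matrix.smul_mul]
  unfold Lk
  rw [h1, map_sum, ← Finset.sum_neg_distrib]
  refine Finset.sum_congr rfl fun i _ => ?_
  rw [map_smul, smul_eq_mul, mul_neg]

private theorem CC8_sum {n : ℕ} (ν : Measure (SL n)) (hν : HK ν) {ι : Type} (s : Finset ι) (r : ι → ℝ)
    (K : ι → Mt n → ℝ) (F : ι → Fn n) (hK : ∀ i ∈ s, Continuous (K i))
    (hc : ∀ i ∈ s, HasCompactSupport (K i)) (hF : ∀ i ∈ s, Continuous (F i)) (g : SL n) :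
    ∫ u : SL n, (∑ i ∈ s, r i * (K i u.1 * F i (g * u))) ∂ν = ∑ i ∈ s, r i * cv ν (K i) (F i) g := by
  rw [integral_finsetSum]
  · refine Finset.sum_congr rfl fun i _ => ?_
    rw [integral_const_mul]
    rfl
  · intro i hi
    exact (((cv_facts ν hν).1 (K i) (F i) (hK i hi) (hc i hi) (hF i hi)).1 g).const_mul (r i)

private theorem CC8_wbsum {n : ℕ} {ι : Type} (s : Finset ι) (k : ℕ) (M : ℝ) (hM : 0 ≤ M) (r : ι → ℝ)
    (hr : ∀ i ∈ s, |r i| ≤ 1) (F : ι → Fn n) (hF : ∀ i ∈ s, WB 1 k M (F i)) :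
    WB 1 k (s.card * M) (fun g => ∑ i ∈ s, r i * F i g) := by
  obtain ⟨-, hmono, -, -, hsm, -, hsum, -⟩ := wb_alg (n := n)
  refine hsum 1 k M ι s (fun i g => r i * F i g) zero_le_one fun i hi => ?_
  refine hmono 1 1 k (|r i| * M) M _ zero_le_one le_rfl ?_ (by positivity) (hsm 1 k M (r i) _ (hF i hi))
  calc |r i| * M ≤ 1 * M := mul_le_mul_of_nonneg_right (hr i hi) hM
    _ = M := one_mul M

private theorem CC8_zero {n : ℕ} (ν : Measure (SL n)) (hν : HK ν) (K : Mt n → ℝ) (hK : Continuous K)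
    (hc : HasCompactSupport K) (F : Fn n) (M : ℝ) (hF : Continuous F) (hb : ∀ g, |F g| ≤ M) :
    Continuous (cv ν K F) ∧ ∀ g, |cv ν K F g| ≤ (∫ u : SL n, |K u.1| ∂ν) * M := by
  refine ⟨((cv_facts ν hν).1 K F hK hc hF).2, fun g => ?_⟩
  have h1 : Integrable (fun u : SL n => |K u.1|) ν := by
    have := ((cv_facts ν hν).1 K (fun _ => 1) hK hc continuous_const).1 g
    simp only [mul_one] at this
    exact this.abs
  have h2 : ‖∫ u : SL n, K u.1 * F (g * u) ∂ν‖ ≤ ∫ u : SL n, |K u.1| * M ∂ν := by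
    refine norm_integral_le_of_norm_le (h1.mul_const M) (Filter.Eventually.of_forall fun u => ?_)
    rw [Real.norm_eq_abs, abs_mul]
    exact mul_le_mul_of_nonneg_left (hb _) (abs_nonneg _)
  rw [integral_mul_const] at h2
  exact h2

private theorem CC8_wb {n : ℕ} (ν : Measure (SL n)) (hν : HK ν) (k : ℕ) : ∀ K : Mt n → ℝ,
    ContDiff ℝ ∞ K → HasCompactSupport K → ∃ C : ℝ, 0 ≤ C ∧ ∀ (F : Fn n) (M : ℝ), Continuous F →
      0 ≤ M → (∀ g, |F g| ≤ M) → WB 1 k (C * M) (cv ν K F) := by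
  induction k with
  | zero =>
    intro K hK hc
    refine ⟨∫ u : SL n, |K u.1| ∂ν, integral_nonneg fun _ => abs_nonneg _, fun F M hF hM hb => ?_⟩
    exact CC8_zero ν hν K hK.continuous hc F M hF hb
  | succ k ih =>
    intro K hK hc
    choose C hC0 hC using fun i : Fin n × Fin n =>
      ih (Lk (Matrix.single i.1 i.2 1) K) (CC8_Lk _ K hK hc).1 (CC8_Lk _ K hK hc).2
    set C0 : ℝ := ∫ u : SL n, |K u.1| ∂ν with hC0'
    have hC00 : 0 ≤ C0 := integral_nonneg fun _ => abs_nonneg _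
    set S : ℝ := ∑ i, C i with hS
    have hS0 : 0 ≤ S := Finset.sum_nonneg fun i _ => hC0 i
    have hCS : ∀ i, C i ≤ S := fun i => Finset.single_le_sum (fun j _ => hC0 j) (Finset.mem_univ i)
    set N : ℝ := ((Finset.univ : Finset (Fin n × Fin n)).card : ℝ) with hN
    have hN0 : 0 ≤ N := Nat.cast_nonneg _
    obtain ⟨-, hmono, -, -, -, -, -, -⟩ := wb_alg (n := n)
    refine ⟨C0 + N * S, by positivity, fun F M hF hM hb => ?_⟩
    obtain ⟨hz1, hz2⟩ := CC8_zero ν hν K hK.continuous hc F M hF hb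
    refine ⟨⟨hz1, fun g => (hz2 g).trans ?_⟩, fun x hx => ?_⟩
    · refine mul_le_mul_of_nonneg_right ?_ hM
      have : 0 ≤ N * S := by positivity
      linarith
    · refine ⟨cv ν (Lk x K) F, (cv_rd ν hν K hK hc F hF).1 x hx.1, ?_⟩
      have e : cv ν (Lk x K) F = fun g => ∑ i : Fin n × Fin n,
          x i.1 i.2 * cv ν (Lk (Matrix.single i.1 i.2 1) K) F g := by
        funext g
        rw [← CC8_sum ν hν Finset.univ (fun i : Fin n × Fin n => x i.1 i.2)
          (fun i => Lk (Matrix.single i.1 i.2 1) K) (fun _ => F)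
          (fun i _ => (CC8_Lk _ K hK hc).1.continuous) (fun i _ => (CC8_Lk _ K hK hc).2)
          (fun _ _ => hF) g]
        unfold cv
        congr 1
        funext u
        rw [CC8_lin, Finset.sum_mul]
        refine Finset.sum_congr rfl fun i _ => ?_
        ring
      rw [e]
      have h1 := CC8_wbsum Finset.univ k (S * M) (by positivity) (fun i : Fin n × Fin n => x i.1 i.2)
        (fun i _ => hx.2 i.1 i.2) (fun i => cv ν (Lk (Matrix.single i.1 i.2 1) K) F)
        (fun i _ => hmono 1 1 k (C i * M) (S * M) _ zero_le_one le_rfl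
          (mul_le_mul_of_nonneg_right (hCS i) hM) (mul_nonneg (hC0 i) hM) (hC i F M hF hM hb))
      refine hmono 1 1 k _ _ _ zero_le_one le_rfl ?_ (by positivity) h1
      have : 0 ≤ C0 * M := by positivity
      rw [← hN]
      nlinarith

/-- Row CC8. Scaled bounds of the first part of `yv`. PLAN. It is `∑_ab cv ν (κ_v w_ab) (x e_ab)` with the smooth
compactly supported kernels `κ_v(A) w_ab(A)`, `w(A) = adjugate A * (2 z A) * A`. `cv_rd` (all derivatives on the kernel) gives by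
induction `WB 1 k (C M)` for every `k`; `WB 1 ⊆ WB θ` (`wb_alg` 2). The derivative along `y` has the same form with the
kernel `Lk y (κ_v w_ab)`. Uniformity in `v`, `y ∈` box: linear in `v` (matrix units) and in `y`. -/
theorem yv_wb1 {n : ℕ} (ν : Measure (SL n)) (hν : HK ν) (κ : Mt n →ₗ[ℝ] (Mt n → ℝ)) (z : Mt n → Mt n)
    (hK : Ker ν κ z) (k : ℕ) : ∃ C : ℝ, 1 ≤ C ∧ ∀ (x : Mt n →ₗ[ℝ] Fn n) (M θ : ℝ),
    (∀ v, Continuous (x v)) → 0 ≤ M → 1 ≤ θ → (∀ v, Bx v → ∀ g, |x v g| ≤ M) → ∀ v : Mt n, Bx v →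
    WB θ k (C * M) (fun g => ∫ u : SL n, κ v u.1 * x (u⁻¹.1 * ((2 : ℝ) • z u.1) * u.1) (g * u) ∂ν) ∧
    ∀ y : Mt n, T1 y → ∃ F' : Fn n,
      RD y (fun g => ∫ u : SL n, κ v u.1 * x (u⁻¹.1 * ((2 : ℝ) • z u.1) * u.1) (g * u) ∂ν) F' ∧
        WB θ k (C * M) F' := by
  classical
  -- the kernels
  let KK : (Fin n × Fin n) × (Fin n × Fin n) → Mt n → ℝ := fun i A =>
    κ (Matrix.single i.1.1 i.1.2 1) A * (A.adjugate * ((2 : ℝ) • z A) * A) i.2.1 i.2.2
  have hKs : ∀ i, ContDiff ℝ ∞ (KK i) := by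
    intro i
    refine (hK.ksm _).mul ?_
    have hz : ContDiffOn ℝ ∞ (fun A : Mt n => (2 : ℝ) • z A) Set.univ := by
      rw [cd_iff]
      intro a b
      have := contDiffOn_univ.2 (hK.zsm a b)
      exact contDiffOn_const.mul this
    have h1 := cd_mul (cd_mul (contDiffOn_univ.2 (CC8_adj (n := n))) hz)
      (contDiffOn_id (𝕜 := ℝ) (E := Mt n) (n := ∞) (s := Set.univ))
    exact contDiffOn_univ.1 (cd_entry h1 i.2.1 i.2.2)
  have hKc : ∀ i, HasCompactSupport (KK i) := fun i => (hK.kc _).mul_right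
  choose C hC0 hC using fun i => CC8_wb ν hν (k + 1) (KK i) (hKs i) (hKc i)
  set S : ℝ := ∑ i, C i with hS
  have hS0 : 0 ≤ S := Finset.sum_nonneg fun i _ => hC0 i
  have hCS : ∀ i, C i ≤ S := fun i => Finset.single_le_sum (fun j _ => hC0 j) (Finset.mem_univ i)
  set N : ℝ := ((Finset.univ : Finset ((Fin n × Fin n) × (Fin n × Fin n))).card : ℝ) with hN
  have hN0 : 0 ≤ N := Nat.cast_nonneg _
  obtain ⟨hdown, hmono, -, -, -, -, -, -⟩ := wb_alg (n := n)
  refine ⟨1 + N * S, by nlinarith [mul_nonneg hN0 hS0], fun x M θ hx hM hθ hb v hv => ?_⟩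
  have hsingle : ∀ a b : Fin n, Bx (Matrix.single a b (1 : ℝ)) := by
    intro a b c d
    rw [Matrix.single_apply]
    split_ifs <;> simp
  have e : (fun g => ∫ u : SL n, κ v u.1 * x (u⁻¹.1 * ((2 : ℝ) • z u.1) * u.1) (g * u) ∂ν) =
      fun g => ∑ i : (Fin n × Fin n) × (Fin n × Fin n),
        v i.1.1 i.1.2 * cv ν (KK i) (x (Matrix.single i.2.1 i.2.2 1)) g := by
    funext g
    rw [← CC8_sum ν hν Finset.univ (fun i : (Fin n × Fin n) × (Fin n × Fin n) => v i.1.1 i.1.2) KK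
      (fun i => x (Matrix.single i.2.1 i.2.2 1)) (fun i _ => (hKs i).continuous) (fun i _ => hKc i)
      (fun i _ => hx _) g]
    congr 1
    funext u
    have h1 : κ v u.1 = ∑ i : Fin n × Fin n, v i.1 i.2 * κ (Matrix.single i.1 i.2 1) u.1 := by
      rw [Fintype.sum_prod_type]
      conv_lhs => rw [Matrix.matrix_eq_sum_single v]
      rw [map_sum, Finset.sum_apply]
      refine Finset.sum_congr rfl fun a _ => ?_
      rw [map_sum, Finset.sum_apply]
      refine Finset.sum_congr rfl fun b _ => ?_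
      have : Matrix.single a b (v a b) = v a b • Matrix.single a b (1 : ℝ) := by
        rw [Matrix.smul_single, smul_eq_mul, mul_one]
      rw [this, map_smul]
      rfl
    have h2 : ∀ W : Mt n, x W (g * u) =
        ∑ i : Fin n × Fin n, W i.1 i.2 * x (Matrix.single i.1 i.2 1) (g * u) := by
      intro W
      rw [Fintype.sum_prod_type]
      conv_lhs => rw [Matrix.matrix_eq_sum_single W]
      rw [map_sum, Finset.sum_apply]
      refine Finset.sum_congr rfl fun a _ => ?_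
      rw [map_sum, Finset.sum_apply]
      refine Finset.sum_congr rfl fun b _ => ?_
      have : Matrix.single a b (W a b) = W a b • Matrix.single a b (1 : ℝ) := by
        rw [Matrix.smul_single, smul_eq_mul, mul_one]
      rw [this, map_smul]
      rfl
    have h3 : (u⁻¹).1 = u.1.adjugate := Matrix.SpecialLinearGroup.coe_inv u
    rw [h1, h2, h3, Finset.sum_mul_sum]
    refine Eq.trans ?_ (Fintype.sum_prod_type _).symm
    refine Finset.sum_congr rfl fun i _ => Finset.sum_congr rfl fun j _ => ?_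
    show _ = v i.1 i.2 * ((κ (Matrix.single i.1 i.2 1) u.1 *
      (u.1.adjugate * ((2 : ℝ) • z u.1) * u.1) j.1 j.2) * x (Matrix.single j.1 j.2 1) (g * u))
    ring
  have key : WB 1 (k + 1) ((1 + N * S) * M)
      (fun g => ∫ u : SL n, κ v u.1 * x (u⁻¹.1 * ((2 : ℝ) • z u.1) * u.1) (g * u) ∂ν) := by
    rw [e]
    have h1 := CC8_wbsum Finset.univ (k + 1) (S * M) (by positivity)
      (fun i : (Fin n × Fin n) × (Fin n × Fin n) => v i.1.1 i.1.2) (fun i _ => hv i.1.1 i.1.2)
      (fun i => cv ν (KK i) (x (Matrix.single i.2.1 i.2.2 1)))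
      (fun i _ => hmono 1 1 (k + 1) (C i * M) (S * M) _ zero_le_one le_rfl
        (mul_le_mul_of_nonneg_right (hCS i) hM) (mul_nonneg (hC0 i) hM)
        (hC i _ M (hx _) hM (hb _ (hsingle _ _))))
    refine hmono 1 1 (k + 1) _ _ _ zero_le_one le_rfl ?_ (by positivity) h1
    rw [← hN]
    nlinarith
  have hCM : 0 ≤ (1 + N * S) * M := by positivity
  refine ⟨hmono 1 θ k _ _ _ zero_le_one hθ le_rfl hCM (hdown 1 (k + 1) k _ _ (Nat.le_succ k) key),
    fun y hy => ?_⟩
  obtain ⟨F', h1, h2⟩ := key.2 y hy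
  rw [mul_one] at h2
  exact ⟨F', h1, hmono 1 θ k _ _ _ zero_le_one hθ le_rfl hCM h2⟩

end FL27
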