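import Pool.Agent.LibFL27.CDefs
import Pool.Agent.LibFL27.CA2
import Pool.Agent.LibFL27.CA4
import Pool.Agent.LibFL27.CB2

set_option autoImplicit false
set_option maxSynthPendingDepth 3

open Matrix MeasureTheory Topology Filter LibNC38
open LibNC27 hiding Mt
open scoped Matrix.Norms.Elementwise ContDiff

namespace FL27

private theorem CC9_wb0 {n : ℕ} {θ M : ℝ} {k : ℕ} {F : Fn n} (h : WB θ k M F) :
    Continuous F ∧ ∀ g, |F g| ≤ M := by
  cases k with
  | zero => exact h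
  | succ k => exact h.1

private theorem CC9_expand {n : ℕ} {X : Type} (L : Mt n →ₗ[ℝ] (X → ℝ)) (v : Mt n) (g : X) :
    L v g = ∑ q : Fin n × Fin n, v q.1 q.2 * L (Matrix.single q.1 q.2 1) g := by
  have h1 : v = ∑ q : Fin n × Fin n, v q.1 q.2 • Matrix.single q.1 q.2 (1 : ℝ) := by
    rw [Fintype.sum_prod_type]
    conv_lhs => rw [Matrix.matrix_eq_sum_single v]
    refine Finset.sum_congr rfl fun i _ => Finset.sum_congr rfl fun j _ => ?_
    rw [Matrix.smul_single, smul_eq_mul, mul_one]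
  conv_lhs => rw [h1]
  rw [map_sum, Finset.sum_apply]
  refine Finset.sum_congr rfl fun q _ => ?_
  rw [map_smul]
  rfl

private theorem CC9_conj {n : ℕ} (A x B : Mt n) (i j : Fin n) :
    (A * x * B) i j = ∑ r : Fin n × Fin n, A i r.1 * x r.1 r.2 * B r.2 j := by
  rw [Fintype.sum_prod_type, Matrix.mul_apply, Finset.sum_comm]
  refine Finset.sum_congr rfl fun l _ => ?_
  rw [Matrix.mul_apply, Finset.sum_mul]

private theorem CC9_first (n : ℕ) : FirstCountableTopology (SL n) := by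
  have : FirstCountableTopology (Matrix (Fin n) (Fin n) ℝ) :=
    inferInstanceAs (FirstCountableTopology (Fin n → Fin n → ℝ))
  have h : Topology.IsInducing (fun w : SL n => (w.1 : Matrix (Fin n) (Fin n) ℝ)) := ⟨rfl⟩
  exact h.firstCountableTopology

private theorem CC9_single {n : ℕ} (i j : Fin n) : Bx (Matrix.single i j (1 : ℝ)) := by
  intro a b
  rw [Matrix.single_apply]
  split_ifs <;> simp

private theorem CC9_cont {n : ℕ} {P : Type} [MeasurableSpace P] (μ : Measure P) (b : P → SL n)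
    (hb : Measurable b) {M A : ℝ} {F : Fn n} {ρ : P → ℝ} (hρm : Measurable ρ) (hρi : Integrable ρ μ)
    (hA : ∫ p, |ρ p| ∂μ ≤ A) (hF : Continuous F) (hM : ∀ g, |F g| ≤ M) :
    (∀ g, Integrable (fun p => ρ p * F (g * b p)) μ) ∧
      Continuous (fun g => ∫ p, ρ p * F (g * b p) ∂μ) ∧
      ∀ g, |∫ p, ρ p * F (g * b p) ∂μ| ≤ A * M := by
  have hM0 : 0 ≤ M := (abs_nonneg _).trans (hM 1)
  have hmeas : ∀ g, Measurable fun p => ρ p * F (g * b p) := fun g =>
    hρm.mul (hF.measurable.comp ((continuous_const.mul continuous_id).measurable.comp hb))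
  have hbd : ∀ g p, ‖ρ p * F (g * b p)‖ ≤ ‖ρ p‖ * M := fun g p => by
    rw [norm_mul]
    exact mul_le_mul_of_nonneg_left (hM _) (norm_nonneg _)
  have hint : ∀ g, Integrable (fun p => ρ p * F (g * b p)) μ := fun g =>
    (hρi.norm.mul_const M).mono' (hmeas g).aestronglyMeasurable (Filter.Eventually.of_forall (hbd g))
  refine ⟨hint, ?_, fun g => ?_⟩
  · have := CC9_first n
    refine continuous_of_dominated (fun g => (hmeas g).aestronglyMeasurable)
      (fun g => Filter.Eventually.of_forall (hbd g)) (hρi.norm.mul_const M)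
      (Filter.Eventually.of_forall fun p => ?_)
    exact continuous_const.mul (hF.comp (continuous_id.mul continuous_const))
  · calc |∫ p, ρ p * F (g * b p) ∂μ| ≤ ∫ p, ‖ρ p * F (g * b p)‖ ∂μ := by
          rw [← Real.norm_eq_abs]
          exact norm_integral_le_integral_norm _
      _ ≤ ∫ p, ‖ρ p‖ * M ∂μ := integral_mono (hint g).norm (hρi.norm.mul_const M) (hbd g)
      _ = (∫ p, |ρ p| ∂μ) * M := by
          rw [integral_mul_const]
          rfl
      _ ≤ A * M := mul_le_mul_of_nonneg_right hA hM0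

private theorem CC9_rho {n : ℕ} {P : Type} [MeasurableSpace P] (μ : Measure P) (b : P → SL n)
    (hb : Measurable b) {R A : ℝ} (hR : 0 ≤ R) {ρ : P → ℝ} (hρm : Measurable ρ)
    (hρi : Integrable ρ μ) (hA : ∫ p, |ρ p| ∂μ ≤ A)
    (hρb : ∀ p, ρ p ≠ 0 → ∀ i j, |(b p).1 i j| ≤ R ∧ |(b p)⁻¹.1 i j| ≤ R) (i k l j : Fin n) :
    Measurable (fun p => ρ p * ((b p)⁻¹.1 i k * (b p).1 l j)) ∧
      Integrable (fun p => ρ p * ((b p)⁻¹.1 i k * (b p).1 l j)) μ ∧
      ∫ p, |ρ p * ((b p)⁻¹.1 i k * (b p).1 l j)| ∂μ ≤ R ^ 2 * A ∧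
      ∀ p, ρ p * ((b p)⁻¹.1 i k * (b p).1 l j) ≠ 0 →
        ∀ i j, |(b p).1 i j| ≤ R ∧ |(b p)⁻¹.1 i j| ≤ R := by
  have hm : Measurable (fun p => ρ p * ((b p)⁻¹.1 i k * (b p).1 l j)) := by
    have h0 : Continuous fun g : SL n => g⁻¹ := continuous_inv
    have h1 : Continuous fun g : SL n => g⁻¹.1 i k :=
      (continuous_subtype_val.comp h0).matrix_elem i k
    have h2 : Continuous fun g : SL n => g.1 l j := continuous_subtype_val.matrix_elem l j
    exact hρm.mul ((h1.measurable.comp hb).mul (h2.measurable.comp hb))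
  have hbd : ∀ p, ‖ρ p * ((b p)⁻¹.1 i k * (b p).1 l j)‖ ≤ ‖ρ p‖ * R ^ 2 := by
    intro p
    rw [norm_mul, norm_mul]
    by_cases h : ρ p = 0
    · rw [h, norm_zero, zero_mul, zero_mul]
    · refine mul_le_mul_of_nonneg_left ?_ (norm_nonneg _)
      rw [pow_two]
      exact mul_le_mul (hρb p h i k).2 (hρb p h l j).1 (norm_nonneg _) hR
  have hint := (hρi.norm.mul_const (R ^ 2)).mono' hm.aestronglyMeasurable
    (Filter.Eventually.of_forall hbd)
  refine ⟨hm, hint, ?_, fun p hp => hρb p fun h => hp (by rw [h, zero_mul])⟩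
  calc ∫ p, |ρ p * ((b p)⁻¹.1 i k * (b p).1 l j)| ∂μ ≤ ∫ p, ‖ρ p‖ * R ^ 2 ∂μ :=
        integral_mono hint.norm (hρi.norm.mul_const (R ^ 2)) hbd
    _ = (∫ p, |ρ p| ∂μ) * R ^ 2 := by
        rw [integral_mul_const]
        rfl
    _ ≤ A * R ^ 2 := mul_le_mul_of_nonneg_right hA (by positivity)
    _ = R ^ 2 * A := mul_comm _ _

private theorem CC9_der {n : ℕ} {P : Type} [MeasurableSpace P] (μ : Measure P) (b : P → SL n)
    (hb : Measurable b) {R θ : ℝ} (hR : 0 ≤ R) (hθ : 0 ≤ θ) (k : ℕ) (c : ℝ)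
    (IH : ∀ (A M : ℝ) (F : Fn n) (ρ : P → ℝ), Measurable ρ → Integrable ρ μ →
      ∫ p, |ρ p| ∂μ ≤ A → (∀ p, ρ p ≠ 0 → ∀ i j, |(b p).1 i j| ≤ R ∧ |(b p)⁻¹.1 i j| ≤ R) →
      WB θ k M F → WB θ k (c * A * M) (fun g => ∫ p, ρ p * F (g * b p) ∂μ)) (hc : 0 ≤ c)
    {A M0 N : ℝ} {F : Fn n} {ρ : P → ℝ} (hρm : Measurable ρ) (hρi : Integrable ρ μ)
    (hA : ∫ p, |ρ p| ∂μ ≤ A)
    (hρb : ∀ p, ρ p ≠ 0 → ∀ i j, |(b p).1 i j| ≤ R ∧ |(b p)⁻¹.1 i j| ≤ R)
    (hFc : Continuous F) (hFb : ∀ g, |F g| ≤ M0) (L : Mt n →ₗ[ℝ] Fn n)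
    (hL : ∀ x : Mt n, x.trace = 0 → RD x F (L x)) (hN : 0 ≤ N)
    (hLW : ∀ v : Mt n, Bx v → WB θ k N (L v)) :
    ∀ x : Mt n, T1 x → ∃ F' : Fn n, RD x (fun g => ∫ p, ρ p * F (g * b p) ∂μ) F' ∧
      WB θ k ((n : ℝ) ^ 4 * R ^ 2 * c * A * N) F' := by
  have hA0 : 0 ≤ A := le_trans (integral_nonneg fun _ => abs_nonneg _) hA
  have hLc : ∀ i j : Fin n, Continuous (L (Matrix.single i j 1)) ∧
      ∀ g, |L (Matrix.single i j 1) g| ≤ N := fun i j => CC9_wb0 (hLW _ (CC9_single i j))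
  let W : Fin n × Fin n → Fn n := fun r g => ∑ q : Fin n × Fin n,
    ∫ p, (ρ p * ((b p)⁻¹.1 q.1 r.1 * (b p).1 r.2 q.2)) * L (Matrix.single q.1 q.2 1) (g * b p) ∂μ
  have hterm : ∀ q r : Fin n × Fin n, WB θ k (c * (R ^ 2 * A) * N) (fun g => ∫ p,
      (ρ p * ((b p)⁻¹.1 q.1 r.1 * (b p).1 r.2 q.2)) * L (Matrix.single q.1 q.2 1) (g * b p) ∂μ) := by
    intro q r
    obtain ⟨h1, h2, h3, h4⟩ := CC9_rho μ b hb hR hρm hρi hA hρb q.1 r.1 r.2 q.2
    exact IH _ _ _ _ h1 h2 h3 h4 (hLW _ (CC9_single _ _))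
  have hW : ∀ r, WB θ k ((n : ℝ) ^ 2 * (c * (R ^ 2 * A) * N)) (W r) := by
    intro r
    have h := wb_alg.2.2.2.2.2.2.1 θ k (c * (R ^ 2 * A) * N) (Fin n × Fin n) Finset.univ
      (fun q g => ∫ p, (ρ p * ((b p)⁻¹.1 q.1 r.1 * (b p).1 r.2 q.2)) *
        L (Matrix.single q.1 q.2 1) (g * b p) ∂μ) hθ (fun q _ => hterm q r)
    have e : ((Finset.univ : Finset (Fin n × Fin n)).card : ℝ) = (n : ℝ) ^ 2 := by
      rw [Finset.card_univ, Fintype.card_prod, Fintype.card_fin]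
      push_cast
      ring
    rw [e] at h
    exact h
  let G : Mt n →ₗ[ℝ] Fn n := ∑ r : Fin n × Fin n, (Matrix.entryLinearMap ℝ ℝ r.1 r.2).smulRight (W r)
  have hG : ∀ x g, G x g = ∑ r : Fin n × Fin n, x r.1 r.2 * W r g := by
    intro x g
    show (∑ r : Fin n × Fin n, (Matrix.entryLinearMap ℝ ℝ r.1 r.2).smulRight (W r)) x g = _
    rw [LinearMap.sum_apply, Finset.sum_apply]
    rfl
  have hGc : ∀ x, Continuous (G x) := by
    intro x
    have : G x = fun g => ∑ r : Fin n × Fin n, x r.1 r.2 * W r g := funext fun g => hG x g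
    rw [this]
    exact continuous_finsetSum _ fun r _ => continuous_const.mul (CC9_wb0 (hW r)).1
  obtain ⟨hint, -, -⟩ := CC9_cont μ b hb hρm hρi hA hFc hFb
  have hderiv : ∀ x : Mt n, x.trace = 0 → ∀ g : SL n,
      HasDerivAt (fun t : ℝ => ∫ p, ρ p * F (g * ex (t • x) * b p) ∂μ) (G x g) 0 := by
    intro x hx g
    -- the derivative of the integrand
    have htr : ∀ p, ((b p)⁻¹.1 * x * (b p).1).trace = 0 := by
      intro p
      have e : (b p).1 * (b p)⁻¹.1 = 1 := congrArg Subtype.val (mul_inv_cancel (b p))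
      rw [Matrix.trace_mul_comm, ← Matrix.mul_assoc, e, Matrix.one_mul, hx]
    have hd : ∀ (p : P) (t : ℝ), HasDerivAt (fun t : ℝ => F (g * ex (t • x) * b p))
        (L ((b p)⁻¹.1 * x * (b p).1) (g * ex (t • x) * b p)) t := by
      intro p t
      have h1 := rd_rules.2.2.2.2.2.2.2.2 x F (L ((b p)⁻¹.1 * x * (b p).1)) (b p) (hL _ (htr p))
      exact rd_rules.2.1 x _ _ hx h1 g t
    have hexp : ∀ p (g' : SL n), L ((b p)⁻¹.1 * x * (b p).1) g' = ∑ q : Fin n × Fin n,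
        ∑ r : Fin n × Fin n, x r.1 r.2 * (((b p)⁻¹.1 q.1 r.1 * (b p).1 r.2 q.2) *
          L (Matrix.single q.1 q.2 1) g') := by
      intro p g'
      rw [CC9_expand]
      refine Finset.sum_congr rfl fun q _ => ?_
      rw [CC9_conj, Finset.sum_mul]
      refine Finset.sum_congr rfl fun r _ => ?_
      ring
    set D : ℝ := ∑ q : Fin n × Fin n, ∑ r : Fin n × Fin n, |x r.1 r.2| * ((R * R) * N) with hD
    have hbd : ∀ (p : P) (t : ℝ), ‖ρ p * L ((b p)⁻¹.1 * x * (b p).1) (g * ex (t • x) * b p)‖ ≤ ‖ρ p‖ * D := by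
      intro p t
      rw [norm_mul]
      by_cases h : ρ p = 0
      · rw [h, norm_zero, zero_mul, zero_mul]
      · refine mul_le_mul_of_nonneg_left ?_ (norm_nonneg _)
        rw [hexp, hD]
        refine (norm_sum_le _ _).trans (Finset.sum_le_sum fun q _ => ?_)
        refine (norm_sum_le _ _).trans (Finset.sum_le_sum fun r _ => ?_)
        rw [norm_mul, norm_mul, norm_mul]
        refine mul_le_mul_of_nonneg_left ?_ (norm_nonneg _)
        refine mul_le_mul ?_ ((hLc q.1 q.2).2 _) (norm_nonneg _) (mul_nonneg hR hR)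
        exact mul_le_mul (hρb p h _ _).2 (hρb p h _ _).1 (norm_nonneg _) hR
    have hmeas : ∀ t : ℝ, Measurable fun p => ρ p * F (g * ex (t • x) * b p) := fun t =>
      hρm.mul (hFc.measurable.comp ((continuous_const.mul continuous_id).measurable.comp hb))
    have hint2 : ∀ q r : Fin n × Fin n, Integrable (fun p =>
        (ρ p * ((b p)⁻¹.1 q.1 r.1 * (b p).1 r.2 q.2)) * L (Matrix.single q.1 q.2 1) (g * b p)) μ := by
      intro q r
      obtain ⟨h1, h2, h3, -⟩ := CC9_rho μ b hb hR hρm hρi hA hρb q.1 r.1 r.2 q.2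
      exact (CC9_cont μ b hb h1 h2 h3 (hLc q.1 q.2).1 (hLc q.1 q.2).2).1 g
    have e0 : ∀ p, ρ p * L ((b p)⁻¹.1 * x * (b p).1) (g * ex ((0 : ℝ) • x) * b p) =
        ∑ r : Fin n × Fin n, ∑ q : Fin n × Fin n, x r.1 r.2 *
          ((ρ p * ((b p)⁻¹.1 q.1 r.1 * (b p).1 r.2 q.2)) *
            L (Matrix.single q.1 q.2 1) (g * b p)) := by
      intro p
      rw [zero_smul, ex_facts.2.2.2.1, mul_one, hexp, Finset.mul_sum]
      refine Eq.trans (Finset.sum_congr rfl fun q _ => Finset.mul_sum _ _ _)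
        (Eq.trans Finset.sum_comm ?_)
      refine Finset.sum_congr rfl fun r _ => Finset.sum_congr rfl fun q _ => ?_
      ring
    have hint3 : Integrable (fun p => ρ p * L ((b p)⁻¹.1 * x * (b p).1) (g * ex ((0 : ℝ) • x) * b p)) μ := by
      rw [funext e0]
      exact integrable_finset_sum _ fun r _ => integrable_finset_sum _ fun q _ =>
        (hint2 q r).const_mul _
    have key := hasDerivAt_integral_of_dominated_loc_of_deriv_le (μ := μ) (𝕜 := ℝ)
      (F := fun (t : ℝ) p => ρ p * F (g * ex (t • x) * b p))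
      (F' := fun (t : ℝ) p => ρ p * L ((b p)⁻¹.1 * x * (b p).1) (g * ex (t • x) * b p))
      (x₀ := 0) (s := Set.univ) (bound := fun p => ‖ρ p‖ * D) Filter.univ_mem
      (Filter.Eventually.of_forall fun t => (hmeas t).aestronglyMeasurable)
      (by
        have := hint (g * ex ((0 : ℝ) • x))
        exact this) hint3.aestronglyMeasurable
      (Filter.Eventually.of_forall fun p t _ => hbd p t) (hρi.norm.mul_const D)
      (Filter.Eventually.of_forall fun p t _ => (hd p t).const_mul (ρ p))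
    have e1 : ∫ p, ρ p * L ((b p)⁻¹.1 * x * (b p).1) (g * ex ((0 : ℝ) • x) * b p) ∂μ = G x g := by
      rw [hG, integral_congr_ae (Filter.Eventually.of_forall e0),
        integral_finset_sum _ fun r _ => integrable_finset_sum _ fun q _ => (hint2 q r).const_mul _]
      refine Finset.sum_congr rfl fun r _ => ?_
      rw [integral_finset_sum _ fun q _ => (hint2 q r).const_mul _]
      show _ = x r.1 r.2 * ∑ q : Fin n × Fin n, _
      rw [Finset.mul_sum]
      refine Finset.sum_congr rfl fun q _ => ?_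
      rw [integral_const_mul]
    rw [← e1]
    exact key.2
  have hRD := rd_crit (fun g => ∫ p, ρ p * F (g * b p) ∂μ) G hGc hderiv
  intro x hx
  refine ⟨G x, hRD x hx.1, ?_⟩
  have hGe : G x = fun g => ∑ r : Fin n × Fin n, x r.1 r.2 * W r g := funext fun g => hG x g
  rw [hGe]
  have hB : 0 ≤ (n : ℝ) ^ 2 * (c * (R ^ 2 * A) * N) := by positivity
  have h := wb_alg.2.2.2.2.2.2.1 θ k ((n : ℝ) ^ 2 * (c * (R ^ 2 * A) * N)) (Fin n × Fin n)
    Finset.univ (fun r g => x r.1 r.2 * W r g) hθ (fun r _ => by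
      have h1 := wb_alg.2.2.2.2.1 θ k _ (x r.1 r.2) _ (hW r)
      refine wb_alg.2.1 θ θ k _ _ _ hθ le_rfl ?_ (mul_nonneg (abs_nonneg _) hB) h1
      exact mul_le_of_le_one_left hB (hx.2 _ _))
  have e : ((Finset.univ : Finset (Fin n × Fin n)).card : ℝ) = (n : ℝ) ^ 2 := by
    rw [Finset.card_univ, Fintype.card_prod, Fintype.card_fin]
    push_cast
    ring
  rw [e] at h
  have e2 : (n : ℝ) ^ 2 * ((n : ℝ) ^ 2 * (c * (R ^ 2 * A) * N)) =
      (n : ℝ) ^ 4 * R ^ 2 * c * A * N := by ring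
  rw [e2] at h
  exact h

private theorem CC9_gl {n : ℕ} {P : Type} [MeasurableSpace P] (μ : Measure P) (b : P → SL n)
    (hb : Measurable b) {R θ : ℝ} (hR : 0 ≤ R) (hθ : 0 ≤ θ) (k : ℕ) :
    ∀ (A M : ℝ) (F : Fn n) (ρ : P → ℝ), Measurable ρ → Integrable ρ μ →
      ∫ p, |ρ p| ∂μ ≤ A → (∀ p, ρ p ≠ 0 → ∀ i j, |(b p).1 i j| ≤ R ∧ |(b p)⁻¹.1 i j| ≤ R) →
      WB θ k M F → WB θ k ((1 + 2 * (n : ℝ) ^ 4 * R ^ 2) ^ k * A * M)
        (fun g => ∫ p, ρ p * F (g * b p) ∂μ) := by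
  induction k with
  | zero =>
    intro A M F ρ hρm hρi hA hρb hF
    obtain ⟨h1, h2, h3⟩ := CC9_cont μ b hb hρm hρi hA hF.1 hF.2
    refine ⟨h2, fun g => ?_⟩
    rw [pow_zero, one_mul]
    exact h3 g
  | succ k ih =>
    intro A M F ρ hρm hρi hA hρb hF
    have hA0 : 0 ≤ A := le_trans (integral_nonneg fun _ => abs_nonneg _) hA
    have hM0 : 0 ≤ M := (abs_nonneg _).trans (hF.1.2 1)
    obtain ⟨L, hL, -, hLW, -⟩ := wb_lin θ k M F hF
    obtain ⟨h1, h2, h3⟩ := CC9_cont μ b hb hρm hρi hA hF.1.1 hF.1.2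
    set d : ℝ := 1 + 2 * (n : ℝ) ^ 4 * R ^ 2 with hd
    have hd1 : 1 ≤ d := by
      rw [hd]
      have : 0 ≤ 2 * (n : ℝ) ^ 4 * R ^ 2 := by positivity
      linarith
    have hdk : 0 ≤ d ^ k := by positivity
    have hder := CC9_der μ b hb hR hθ k (d ^ k) ih hdk hρm hρi hA hρb hF.1.1 hF.1.2 L hL
      (N := 2 * (M * θ)) (by positivity) hLW
    refine ⟨⟨h2, fun g => (h3 g).trans ?_⟩, fun x hx => ?_⟩
    · refine mul_le_mul_of_nonneg_right ?_ hM0
      exact le_mul_of_one_le_left hA0 (one_le_pow₀ hd1)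
    · obtain ⟨F', hF', hW⟩ := hder x hx
      refine ⟨F', hF', wb_alg.2.1 θ θ k _ _ _ hθ le_rfl ?_ ?_ hW⟩
      · have e : (n : ℝ) ^ 4 * R ^ 2 * d ^ k * A * (2 * (M * θ)) =
            (2 * (n : ℝ) ^ 4 * R ^ 2) * (d ^ k * A * M * θ) := by ring
        have e2 : d ^ (k + 1) * A * M * θ = d * (d ^ k * A * M * θ) := by ring
        rw [e, e2]
        refine mul_le_mul_of_nonneg_right ?_ (by positivity)
        rw [hd]
        linarith
      · positivity

private theorem CC9_expand2 {n : ℕ} (J : Mt n →ₗ[ℝ] Mt n →ₗ[ℝ] Fn n) (v w : Mt n) (g : SL n) :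
    J v w g = ∑ r : (Fin n × Fin n) × (Fin n × Fin n), v r.1.1 r.1.2 * w r.2.1 r.2.2 *
      J (Matrix.single r.1.1 r.1.2 1) (Matrix.single r.2.1 r.2.2 1) g := by
  have h1 : J v w g = ∑ q : Fin n × Fin n, v q.1 q.2 * J (Matrix.single q.1 q.2 1) w g :=
    CC9_expand (X := SL n) (J.flip w) v g
  rw [h1]
  symm
  rw [Fintype.sum_prod_type]
  refine Finset.sum_congr rfl fun q _ => ?_
  rw [CC9_expand (J (Matrix.single q.1 q.2 1)) w g, Finset.mul_sum]
  refine Finset.sum_congr rfl fun q' _ => ?_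
  ring

private theorem CC9_bound {n : ℕ} (κ : Mt n →ₗ[ℝ] (Mt n → ℝ)) (hs : ∀ v, Continuous (κ v))
    (hc : ∀ v, HasCompactSupport (κ v)) :
    ∃ B : ℝ, 0 ≤ B ∧ ∀ v : Mt n, Bx v → ∀ A, |κ v A| ≤ B := by
  have h : ∀ q : Fin n × Fin n, ∃ C, ∀ A, ‖κ (Matrix.single q.1 q.2 1) A‖ ≤ C := fun q =>
    (hc _).exists_bound_of_continuous (hs _)
  choose C hC using h
  refine ⟨∑ q, |C q|, Finset.sum_nonneg fun _ _ => abs_nonneg _, fun v hv A => ?_⟩
  rw [CC9_expand κ v A]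
  refine (Finset.abs_sum_le_sum_abs _ _).trans (Finset.sum_le_sum fun q _ => ?_)
  rw [abs_mul]
  have h1 : |κ (Matrix.single q.1 q.2 1) A| ≤ |C q| := (hC q A).trans (le_abs_self _)
  calc |v q.1 q.2| * |κ (Matrix.single q.1 q.2 1) A| ≤ 1 * |C q| :=
        mul_le_mul (hv _ _) h1 (abs_nonneg _) zero_le_one
    _ = |C q| := one_mul _

private theorem CC9_K {n : ℕ} (κ : Mt n →ₗ[ℝ] (Mt n → ℝ)) (hc : ∀ v, HasCompactSupport (κ v)) :
    ∃ K : Set (SL n), IsCompact K ∧ ∀ (v : Mt n) (u : SL n), κ v u.1 ≠ 0 → u ∈ K := by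
  have hem : Topology.IsClosedEmbedding (fun w : SL n => (w.1 : Mt n)) := by
    refine ⟨⟨⟨rfl⟩, Subtype.val_injective⟩, ?_⟩
    have hr : Set.range (fun w : SL n => (w.1 : Mt n)) = {A : Mt n | A.det = 1} := by
      ext A
      constructor
      · rintro ⟨w, rfl⟩
        exact w.2
      · intro hA
        exact ⟨⟨A, hA⟩, rfl⟩
    rw [hr]
    exact isClosed_eq (continuous_id.matrix_det) continuous_const
  refine ⟨(fun w : SL n => (w.1 : Mt n)) ⁻¹'
    (⋃ q : Fin n × Fin n, tsupport (κ (Matrix.single q.1 q.2 1))), ?_, fun v u hu => ?_⟩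
  · exact hem.isCompact_preimage (isCompact_iUnion fun q => hc _)
  · by_contra hcon
    apply hu
    rw [CC9_expand κ v u.1]
    refine Finset.sum_eq_zero fun q _ => ?_
    have h1 : u.1 ∉ tsupport (κ (Matrix.single q.1 q.2 1)) := fun h =>
      hcon (Set.mem_preimage.2 (Set.mem_iUnion.2 ⟨q, h⟩))
    rw [image_eq_zero_of_notMem_tsupport h1, mul_zero]

private theorem CC9_pr0 {n : ℕ} (v : Mt n) : (pr0 v).trace = 0 ∧ (Sym0 v → pr0 v = v) := by
  have e : pr0 v = (1 / 2 : ℝ) • (v + vᵀ) - (v.trace / n) • (1 : Mt n) := rfl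
  constructor
  · rw [e, Matrix.trace_sub, Matrix.trace_smul, Matrix.trace_smul, Matrix.trace_add,
      Matrix.trace_transpose, Matrix.trace_one, Fintype.card_fin, smul_eq_mul, smul_eq_mul]
    rcases Nat.eq_zero_or_pos n with h | h
    · subst h
      simp [Matrix.trace]
    · have hn : (n : ℝ) ≠ 0 := by exact_mod_cast h.ne'
      field_simp
      ring
  · intro hv
    rw [e, hv.1, hv.2, zero_div, zero_smul, sub_zero, ← two_smul ℝ v, smul_smul]
    norm_num

private theorem CC9_R (n : ℕ) : ∃ R : ℝ, 0 ≤ R ∧ ∀ x : Mt n, Bx x → ∀ i j,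
    |(NormedSpace.exp x) i j| ≤ R := by
  have hcomp : IsCompact {x : Mt n | Bx x} := by
    have h : {x : Mt n | Bx x} = Set.pi Set.univ fun _ : Fin n => Set.pi Set.univ fun _ : Fin n =>
        Set.Icc (-1 : ℝ) 1 := by
      ext x
      exact ⟨fun h i _ j _ => abs_le.1 (h i j), fun h i j =>
        abs_le.2 (h i (Set.mem_univ i) j (Set.mem_univ j))⟩
    rw [h]
    exact isCompact_univ_pi fun _ => isCompact_univ_pi fun _ => isCompact_Icc
  obtain ⟨C, hC⟩ := hcomp.exists_bound_of_continuousOn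
    (exp_smooth.continuous.continuousOn (s := {x : Mt n | Bx x}))
  refine ⟨|C|, abs_nonneg _, fun x hx i j => ?_⟩
  exact ((Matrix.norm_entry_le_entrywise_sup_norm _).trans (hC x hx)).trans (le_abs_self _)

private theorem CC9_lin {n : ℕ} {θ N : ℝ} {k : ℕ} (F : Fn n)
    (h : ∀ y : Mt n, T1 y → ∃ F' : Fn n, RD y F F' ∧ WB θ k N F') :
    ∃ L : Mt n →ₗ[ℝ] Fn n, (∀ x : Mt n, x.trace = 0 → RD x F (L x)) ∧
      ∀ v : Mt n, Bx v → WB θ k (2 * N) (L v) := by
  obtain ⟨L, hL, hL1, -⟩ := rd_lin F fun x hx => by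
    obtain ⟨F', h1, h2⟩ := h x hx
    exact ⟨F', h1, (CC9_wb0 h2).1⟩
  refine ⟨L, hL, fun v hv => ?_⟩
  set t : ℝ := v.trace / n with ht
  have htr : |t| ≤ 1 := by
    rw [ht, abs_div]
    rcases Nat.eq_zero_or_pos n with h0 | h0
    · subst h0
      simp
    · have hn : (0 : ℝ) < n := by exact_mod_cast h0
      rw [abs_of_pos hn, div_le_one hn]
      unfold Matrix.trace
      refine (Finset.abs_sum_le_sum_abs _ _).trans ?_
      refine (Finset.sum_le_sum fun i _ => hv i i).trans ?_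
      simp
  set x : Mt n := (1 / 2 : ℝ) • (v - t • (1 : Mt n)) with hx
  have hx0 : x.trace = 0 := by
    rw [hx, Matrix.trace_smul, Matrix.trace_sub, Matrix.trace_smul, Matrix.trace_one,
      Fintype.card_fin, ht, smul_eq_mul, smul_eq_mul]
    rcases Nat.eq_zero_or_pos n with h0 | h0
    · subst h0
      simp [Matrix.trace]
    · have hn : (n : ℝ) ≠ 0 := by exact_mod_cast h0.ne'
      field_simp
      ring
  have hxT : T1 x := by
    refine ⟨hx0, fun a b => ?_⟩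
    have e : x a b = 1 / 2 * (v a b - t * (1 : Mt n) a b) := rfl
    rw [e, abs_mul, abs_of_pos (by norm_num : (0 : ℝ) < 1 / 2)]
    have h1 : |v a b - t * (1 : Mt n) a b| ≤ 2 := by
      refine (abs_sub _ _).trans ?_
      have h2 : |t * (1 : Mt n) a b| ≤ 1 := by
        rw [abs_mul, Matrix.one_apply]
        split_ifs
        · rw [abs_one, mul_one]; exact htr
        · rw [abs_zero, mul_zero]; exact zero_le_one
      have := hv a b
      linarith
    linarith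
  obtain ⟨F', hF1, hF2⟩ := h x hxT
  have hLx : L x = F' := rd_rules.1 x F _ _ hx0 (hL x hx0) hF1
  have hLv : L v = fun g => 2 * F' g := by
    have e1 : v = (2 : ℝ) • x + t • (1 : Mt n) := by
      rw [hx, smul_smul]
      norm_num
    conv_lhs => rw [e1]
    rw [map_add, map_smul L (2 : ℝ) x, map_smul L t (1 : Mt n), hL1, smul_zero, add_zero, hLx]
    rfl
  rw [hLv]
  have h3 := wb_alg.2.2.2.2.1 θ k N 2 F' hF2
  rw [abs_of_pos (by norm_num : (0 : ℝ) < 2)] at h3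
  exact h3

private theorem CC9_rd_sum {n : ℕ} {ι : Type} (s : Finset ι) (y : Mt n) (f f' : ι → Fn n)
    (h : ∀ r ∈ s, RD y (f r) (f' r)) :
    RD y (fun g => ∑ r ∈ s, f r g) (fun g => ∑ r ∈ s, f' r g) := by
  classical
  induction s using Finset.induction_on with
  | empty =>
    simp only [Finset.sum_empty]
    exact rd_rules.2.2.2.2.2.1 y 0
  | insert a s ha ih =>
    simp only [Finset.sum_insert ha]
    exact rd_rules.2.2.1 y _ _ _ _ (h a (Finset.mem_insert_self _ _))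
      (ih fun r hr => h r (Finset.mem_insert_of_mem hr))

/-- Row CC9. Scaled bounds of the second part of `yv`. PLAN. It is `∫ κ_v(u) ∫_0^1 [∑ 4 z_ab z_cd (J e_ab e_cd)(g ex((s-1) z)) -
c tr(4 z z)] ds du`. For `b` with `|b|, |b⁻¹| ≤ R`: `WB θ k M F → WB θ k (C M) (F(· b))` (`rd_rules` 9: derivative along `x` of `F(g b)` is
`(G (b⁻¹ x b))(g b)`; induction), jointly continuous in the parameter. Differentiate under both integrals (bounded continuous
derivatives along exponential curves, `rd_crit`). Two statements: bounds of `J` give bounds of the function; bounds of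
the derivatives of `J` give bounds of the derivative: the derivative along `y` is `∫ κ_v ∫ ∑ 4 z_ab z_cd
(R_{b⁻¹ y b} J e_ab e_cd)(g b)`, `b = ex((s-1)z(u))` (the constant `c` drops out). -/
theorem yv_wb2 {n : ℕ} (ν : Measure (SL n)) (hν : HK ν) (κ : Mt n →ₗ[ℝ] (Mt n → ℝ)) (z : Mt n → Mt n)
    (hK : Ker ν κ z) (k : ℕ) : ∃ C : ℝ, 1 ≤ C ∧ ∀ (J : Mt n →ₗ[ℝ] Mt n →ₗ[ℝ] Fn n)
    (c M M' θ : ℝ), |c| ≤ M → 0 ≤ M' → 1 ≤ θ → (∀ v w : Mt n, Bx v → Bx w → WB θ k M (J v w)) →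
    (∀ v w : Mt n, Bx v → Bx w → ∀ y : Mt n, T1 y → ∃ F' : Fn n, RD y (J v w) F' ∧ WB θ k M' F') →
    ∀ v : Mt n, Bx v → WB θ k (C * M) (fun g => ∫ u : SL n, κ v u.1 * en J c (z u.1) g ∂ν) ∧
    ∀ y : Mt n, T1 y → ∃ F' : Fn n,
      RD y (fun g => ∫ u : SL n, κ v u.1 * en J c (z u.1) g ∂ν) F' ∧ WB θ k (C * M') F' := by
  obtain ⟨B, hB0, hB⟩ := CC9_bound κ (fun v => (hK.ksm v).continuous) hK.kc
  obtain ⟨K, hKc, hKm⟩ := CC9_K κ hK.kc
  obtain ⟨R, hR0, hR⟩ := CC9_R n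
  have hfin : IsFiniteMeasure (ν.restrict K) := ⟨by
    rw [Measure.restrict_apply_univ]; exact hν.fin K hKc⟩
  have hzc : Continuous z := continuous_matrix fun a b => (hK.zsm a b).continuous
  have hprc : Continuous (pr0 : Mt n →ₗ[ℝ] Mt n) := LinearMap.continuous_of_finiteDimensional _
  let w : SL n → Mt n := fun u => pr0 (z u.1)
  have hwc : Continuous w := hprc.comp (hzc.comp continuous_subtype_val)
  have hw0 : ∀ u, (w u).trace = 0 := fun u => (CC9_pr0 _).1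
  have hwz : ∀ (v : Mt n) (u : SL n), κ v u.1 ≠ 0 → w u = z u.1 := fun v u h =>
    (CC9_pr0 _).2 (hK.zs v u h).1
  have htrz : ∀ (v : Mt n) (u : SL n), κ v u.1 ≠ 0 →
      (z u.1 * z u.1).trace = ∑ i, ∑ j, z u.1 i j ^ 2 := by
    intro v u h
    unfold Matrix.trace
    refine Finset.sum_congr rfl fun i _ => ?_
    rw [Matrix.diag_apply, Matrix.mul_apply]
    refine Finset.sum_congr rfl fun j _ => ?_
    have : z u.1 j i = z u.1 i j := congrFun (congrFun (hK.zs v u h).1.1 i) j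
    rw [this, pow_two]
  have hwb : ∀ (v : Mt n) (u : SL n), κ v u.1 ≠ 0 → Bx (w u) := by
    intro v u h i j
    rw [hwz v u h]
    have e2 : z u.1 i j ^ 2 ≤ 1 := by
      refine le_trans ?_ ((htrz v u h) ▸ (hK.zs v u h).2.1)
      refine le_trans ?_ (Finset.single_le_sum (f := fun i => ∑ j, z u.1 i j ^ 2)
        (fun i _ => Finset.sum_nonneg fun j _ => sq_nonneg _) (Finset.mem_univ i))
      exact Finset.single_le_sum (f := fun j => z u.1 i j ^ 2) (fun j _ => sq_nonneg _)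
        (Finset.mem_univ j)
    exact (sq_le_one_iff_abs_le_one _).1 e2
  let cl : ℝ → ℝ := fun s => max (-1) (min 0 (s - 1))
  have hcl : Continuous cl :=
    continuous_const.max (continuous_const.min (continuous_id.sub continuous_const))
  have hcl1 : ∀ s, |cl s| ≤ 1 := fun s => by
    rw [abs_le]
    exact ⟨le_max_left _ _, max_le (by norm_num) ((min_le_left _ _).trans zero_le_one)⟩
  have hcl2 : ∀ s, s ∈ Set.Ioc (0 : ℝ) 1 → cl s = s - 1 := fun s hs => by
    show max (-1) (min 0 (s - 1)) = s - 1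
    rw [min_eq_right (by linarith [hs.2]), max_eq_right (by linarith [hs.1])]
  let b : SL n × ℝ → SL n := fun p => ex (cl p.2 • w p.1)
  have htr : ∀ (t : ℝ) u, (t • w u).trace = 0 := fun t u => by
    rw [Matrix.trace_smul, hw0, smul_zero]
  have hbv : ∀ (t : ℝ) u, (ex (t • w u)).1 = NormedSpace.exp (t • w u) := fun t u =>
    ex_facts.1 _ (htr t u)
  have hbc : Continuous b := by
    have hi : Topology.IsInducing (fun w : SL n => (w.1 : Mt n)) := ⟨rfl⟩
    refine hi.continuous_iff.2 ?_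
    have : (fun w : SL n => (w.1 : Mt n)) ∘ b =
        fun p : SL n × ℝ => NormedSpace.exp (cl p.2 • w p.1) := funext fun p => hbv _ _
    rw [this]
    exact exp_smooth.continuous.comp ((hcl.comp continuous_snd).smul (hwc.comp continuous_fst))
  have hbm : Measurable b := hbc.measurable
  have hinv : ∀ (t : ℝ) u, (ex (t • w u))⁻¹ = ex ((-t) • w u) := fun t u => by
    rw [inv_eq_iff_mul_eq_one, ← ex_facts.2.1 _ (hw0 u), add_neg_cancel, zero_smul,
      ex_facts.2.2.2.1]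
  have hbR : ∀ (v : Mt n) (p : SL n × ℝ), κ v p.1.1 ≠ 0 → ∀ i j,
      |(b p).1 i j| ≤ R ∧ |(b p)⁻¹.1 i j| ≤ R := by
    intro v p h i j
    have hbx : ∀ t : ℝ, |t| ≤ 1 → Bx (t • w p.1) := by
      intro t ht i j
      show |t * w p.1 i j| ≤ 1
      rw [abs_mul]
      exact mul_le_one₀ ht (abs_nonneg _) (hwb v p.1 h i j)
    constructor
    · show |(ex (cl p.2 • w p.1)).1 i j| ≤ R
      rw [hbv]
      exact hR _ (hbx _ (hcl1 _)) i j
    · show |(ex (cl p.2 • w p.1))⁻¹.1 i j| ≤ R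
      rw [hinv, hbv]
      exact hR _ (hbx _ (by rw [abs_neg]; exact hcl1 _)) i j
  let μ : Measure (SL n × ℝ) := (ν.restrict K).prod (volume.restrict (Set.Ioc (0 : ℝ) 1))
  have hμf : IsFiniteMeasure μ := inferInstanceAs
    (IsFiniteMeasure ((ν.restrict K).prod (volume.restrict (Set.Ioc (0 : ℝ) 1))))
  let ρ : Mt n → ((Fin n × Fin n) × (Fin n × Fin n)) → SL n × ℝ → ℝ := fun v r p =>
    κ v p.1.1 * ((2 * w p.1 r.1.1 r.1.2) * (2 * w p.1 r.2.1 r.2.2))
  let τ : Mt n → SL n × ℝ → ℝ := fun v p =>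
    κ v p.1.1 * (((2 : ℝ) • w p.1) * ((2 : ℝ) • w p.1)).trace
  have hκc : ∀ v, Continuous fun p : SL n × ℝ => κ v p.1.1 := fun v =>
    (hK.ksm v).continuous.comp (continuous_subtype_val.comp continuous_fst)
  have hwe : ∀ i j, Continuous fun p : SL n × ℝ => w p.1 i j := fun i j =>
    (hwc.comp continuous_fst).matrix_elem i j
  have hρc : ∀ v r, Continuous (ρ v r) := fun v r =>
    (hκc v).mul ((continuous_const.mul (hwe _ _)).mul (continuous_const.mul (hwe _ _)))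
  have hτc : ∀ v, Continuous (τ v) := fun v => by
    have h1 : Continuous fun p : SL n × ℝ => (2 : ℝ) • w p.1 :=
      (hwc.comp continuous_fst).const_smul (2 : ℝ)
    exact (hκc v).mul ((h1.matrix_mul h1).matrix_trace)
  have hρb : ∀ v, Bx v → ∀ r p, ‖ρ v r p‖ ≤ B * 4 := by
    intro v hv r p
    show ‖κ v p.1.1 * ((2 * w p.1 r.1.1 r.1.2) * (2 * w p.1 r.2.1 r.2.2))‖ ≤ B * 4
    by_cases h : κ v p.1.1 = 0
    · rw [h, zero_mul, norm_zero]; positivity
    · rw [norm_mul]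
      refine mul_le_mul (hB v hv _) ?_ (norm_nonneg _) hB0
      have h1 := hwb v p.1 h r.1.1 r.1.2
      have h2 := hwb v p.1 h r.2.1 r.2.2
      rw [norm_mul, norm_mul, norm_mul, Real.norm_eq_abs, Real.norm_eq_abs, Real.norm_eq_abs,
        abs_two]
      nlinarith [abs_nonneg (w p.1 r.1.1 r.1.2), abs_nonneg (w p.1 r.2.1 r.2.2)]
  have hτb : ∀ v, Bx v → ∀ p, ‖τ v p‖ ≤ B * 4 := by
    intro v hv p
    show ‖κ v p.1.1 * (((2 : ℝ) • w p.1) * ((2 : ℝ) • w p.1)).trace‖ ≤ B * 4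
    by_cases h : κ v p.1.1 = 0
    · rw [h, zero_mul, norm_zero]; positivity
    · rw [norm_mul]
      refine mul_le_mul (hB v hv _) ?_ (norm_nonneg _) hB0
      rw [Matrix.smul_mul, Matrix.mul_smul, Matrix.trace_smul, Matrix.trace_smul, smul_eq_mul,
        smul_eq_mul, hwz v p.1 h, Real.norm_eq_abs]
      have h1 := htrz v p.1 h
      have h2 := (hK.zs v p.1 h).2.1
      have h3 : 0 ≤ (z p.1.1 * z p.1.1).trace := by
        rw [h1]
        exact Finset.sum_nonneg fun i _ => Finset.sum_nonneg fun j _ => sq_nonneg _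
      rw [abs_le]
      constructor <;> linarith
  have hρi : ∀ v, Bx v → ∀ r, Integrable (ρ v r) μ := fun v hv r =>
    Integrable.of_bound (hρc v r).measurable.aestronglyMeasurable (B * 4)
      (Filter.Eventually.of_forall (hρb v hv r))
  have hτi : ∀ v, Bx v → Integrable (τ v) μ := fun v hv =>
    Integrable.of_bound (hτc v).measurable.aestronglyMeasurable (B * 4)
      (Filter.Eventually.of_forall (hτb v hv))
  set A : ℝ := μ.real Set.univ * (B * 4) with hA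
  have hA0 : 0 ≤ A := mul_nonneg measureReal_nonneg (by positivity)
  have hρA : ∀ v, Bx v → ∀ r, ∫ p, |ρ v r p| ∂μ ≤ A := by
    intro v hv r
    have h1 : ∫ p, |ρ v r p| ∂μ ≤ ∫ _p, B * 4 ∂μ :=
      integral_mono (hρi v hv r).norm (integrable_const _) (hρb v hv r)
    rw [integral_const, smul_eq_mul] at h1
    exact h1
  have hτA : ∀ v, Bx v → |∫ p, τ v p ∂μ| ≤ A := by
    intro v hv
    have h0 : |∫ p, τ v p ∂μ| ≤ ∫ p, ‖τ v p‖ ∂μ := by
      rw [← Real.norm_eq_abs]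
      exact norm_integral_le_integral_norm _
    have h1 : ∫ p, ‖τ v p‖ ∂μ ≤ ∫ _p, B * 4 ∂μ :=
      integral_mono (hτi v hv).norm (integrable_const _) (hτb v hv)
    rw [integral_const, smul_eq_mul] at h1
    exact h0.trans h1
  have hρR : ∀ v r (p : SL n × ℝ), ρ v r p ≠ 0 → ∀ i j, |(b p).1 i j| ≤ R ∧ |(b p)⁻¹.1 i j| ≤ R := by
    intro v r p hp
    refine hbR v p fun h => hp ?_
    show κ v p.1.1 * _ = 0
    rw [h, zero_mul]
  -- the formula
  have hform : ∀ (J : Mt n →ₗ[ℝ] Mt n →ₗ[ℝ] Fn n) (c M : ℝ), (∀ v w : Mt n, Bx v → Bx w →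
      Continuous (J v w) ∧ ∀ g, |J v w g| ≤ M) → ∀ v : Mt n, Bx v →
      (fun g => ∫ u : SL n, κ v u.1 * en J c (z u.1) g ∂ν) = fun g =>
        (∑ r : (Fin n × Fin n) × (Fin n × Fin n), ∫ p, ρ v r p *
          J (Matrix.single r.1.1 r.1.2 1) (Matrix.single r.2.1 r.2.2 1) (g * b p) ∂μ) +
        (-(c * ∫ p, τ v p ∂μ)) := by
    intro J c M hJ v hv
    funext g
    have hJi : ∀ r : (Fin n × Fin n) × (Fin n × Fin n), Integrable (fun p => ρ v r p *
        J (Matrix.single r.1.1 r.1.2 1) (Matrix.single r.2.1 r.2.2 1) (g * b p)) μ := fun r =>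
      (CC9_cont μ b hbm (hρc v r).measurable (hρi v hv r) (hρA v hv r)
        (hJ _ _ (CC9_single _ _) (CC9_single _ _)).1
        (hJ _ _ (CC9_single _ _) (CC9_single _ _)).2).1 g
    let Φ : SL n × ℝ → ℝ := fun p => (∑ r : (Fin n × Fin n) × (Fin n × Fin n), ρ v r p *
        J (Matrix.single r.1.1 r.1.2 1) (Matrix.single r.2.1 r.2.2 1) (g * b p)) +
        (-(c * τ v p))
    have hni : Integrable (fun p => -(c * τ v p)) μ := ((hτi v hv).const_mul c).neg
    have hΦi : Integrable Φ μ := (integrable_finset_sum _ fun r _ => hJi r).add hni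
    have hpt : ∀ u : SL n, κ v u.1 * en J c (z u.1) g = ∫ s in Set.Ioc (0 : ℝ) 1, Φ (u, s) := by
      intro u
      unfold en
      rw [← intervalIntegral.integral_const_mul, intervalIntegral.integral_of_le zero_le_one]
      refine setIntegral_congr_fun measurableSet_Ioc fun s hs => ?_
      show κ v u.1 * (J ((2 : ℝ) • z u.1) ((2 : ℝ) • z u.1) (g * ex ((s - 1) • z u.1)) -
        c * (((2 : ℝ) • z u.1) * ((2 : ℝ) • z u.1)).trace) =
        (∑ r : (Fin n × Fin n) × (Fin n × Fin n),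
          (κ v u.1 * ((2 * w u r.1.1 r.1.2) * (2 * w u r.2.1 r.2.2))) *
        J (Matrix.single r.1.1 r.1.2 1) (Matrix.single r.2.1 r.2.2 1) (g * ex (cl s • w u))) +
        (-(c * (κ v u.1 * (((2 : ℝ) • w u) * ((2 : ℝ) • w u)).trace)))
      by_cases h : κ v u.1 = 0
      · rw [h]
        simp only [zero_mul, Finset.sum_const_zero, mul_zero, neg_zero, add_zero]
      · rw [hcl2 s hs, hwz v u h, CC9_expand2 J, mul_sub, Finset.mul_sum]
        have e : ∀ r : (Fin n × Fin n) × (Fin n × Fin n),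
            κ v u.1 * (((2 : ℝ) • z u.1) r.1.1 r.1.2 * ((2 : ℝ) • z u.1) r.2.1 r.2.2 *
            J (Matrix.single r.1.1 r.1.2 1) (Matrix.single r.2.1 r.2.2 1)
              (g * ex ((s - 1) • z u.1))) =
            (κ v u.1 * ((2 * z u.1 r.1.1 r.1.2) * (2 * z u.1 r.2.1 r.2.2))) *
            J (Matrix.single r.1.1 r.1.2 1) (Matrix.single r.2.1 r.2.2 1)
              (g * ex ((s - 1) • z u.1)) := by
          intro r
          show κ v u.1 * ((2 * z u.1 r.1.1 r.1.2) * (2 * z u.1 r.2.1 r.2.2) * _) = _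
          ring
        rw [Finset.sum_congr rfl fun r _ => e r]
        ring
    have h1 : ∫ u : SL n, κ v u.1 * en J c (z u.1) g ∂ν =
        ∫ u in K, κ v u.1 * en J c (z u.1) g ∂ν := by
      refine (setIntegral_eq_integral_of_forall_compl_eq_zero fun u hu => ?_).symm
      have : κ v u.1 = 0 := by
        by_contra h
        exact hu (hKm v u h)
      rw [this, zero_mul]
    have h2 : ∫ p, Φ p ∂μ = ∫ u in K, (∫ s in Set.Ioc (0 : ℝ) 1, Φ (u, s)) ∂ν :=
      integral_prod Φ hΦi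
    show ∫ u : SL n, κ v u.1 * en J c (z u.1) g ∂ν = _
    rw [h1, funext hpt, ← h2]
    show ∫ p, ((∑ r : (Fin n × Fin n) × (Fin n × Fin n), ρ v r p *
        J (Matrix.single r.1.1 r.1.2 1) (Matrix.single r.2.1 r.2.2 1) (g * b p)) +
        (-(c * τ v p))) ∂μ = _
    rw [integral_add (integrable_finset_sum _ fun r _ => hJi r) hni,
      integral_finset_sum _ fun r _ => hJi r, integral_neg, integral_const_mul]
  have hcard : ((Finset.univ : Finset ((Fin n × Fin n) × (Fin n × Fin n))).card : ℝ) =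
      (n : ℝ) ^ 4 := by
    rw [Finset.card_univ, Fintype.card_prod, Fintype.card_prod, Fintype.card_fin]
    push_cast
    ring
  set d : ℝ := (1 + 2 * (n : ℝ) ^ 4 * R ^ 2) ^ k with hd
  have hd0 : 0 ≤ d := by positivity
  refine ⟨1 + (n : ℝ) ^ 4 * (d * A) + A + (n : ℝ) ^ 4 * ((n : ℝ) ^ 4 * R ^ 2 * d * A * 2),
    by nlinarith [mul_nonneg (pow_nonneg (Nat.cast_nonneg n : (0 : ℝ) ≤ n) 4) (mul_nonneg hd0 hA0),
      mul_nonneg (pow_nonneg (Nat.cast_nonneg n : (0 : ℝ) ≤ n) 4)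
        (by positivity : 0 ≤ (n : ℝ) ^ 4 * R ^ 2 * d * A * 2)], ?_⟩
  intro J c M M' θ hc hM' hθ hJ hJ' v hv
  have hθ0 : 0 ≤ θ := zero_le_one.trans hθ
  have hM : 0 ≤ M := (abs_nonneg _).trans hc
  have hn4 : 0 ≤ (n : ℝ) ^ 4 := by positivity
  rw [hform J c M (fun v w hv hw => CC9_wb0 (hJ v w hv hw)) v hv]
  have hp2 : 0 ≤ (n : ℝ) ^ 4 * ((n : ℝ) ^ 4 * R ^ 2 * d * A * 2) := by positivity
  have hp1 : 0 ≤ (n : ℝ) ^ 4 * (d * A) := by positivity
  constructor
  · have h1 := wb_alg.2.2.2.2.2.2.1 θ k (d * A * M) ((Fin n × Fin n) × (Fin n × Fin n))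
      Finset.univ (fun r g => ∫ p, ρ v r p *
        J (Matrix.single r.1.1 r.1.2 1) (Matrix.single r.2.1 r.2.2 1) (g * b p) ∂μ) hθ0
      (fun r _ => CC9_gl μ b hbm hR0 hθ0 k A M _ _ (hρc v r).measurable (hρi v hv r)
        (hρA v hv r) (hρR v r) (hJ _ _ (CC9_single _ _) (CC9_single _ _)))
    rw [hcard] at h1
    have h2 := (wb_alg (n := n)).2.2.1 θ k (-(c * ∫ p, τ v p ∂μ)) hθ0
    have h3 := wb_alg.2.2.2.1 θ k _ _ _ _ h1 h2
    refine wb_alg.2.1 θ θ k _ _ _ hθ0 le_rfl ?_ ?_ h3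
    · have h4 : |-(c * ∫ p, τ v p ∂μ)| ≤ M * A := by
        rw [abs_neg, abs_mul]
        exact mul_le_mul hc (hτA v hv) (abs_nonneg _) hM
      have h5 : 0 ≤ (1 + (n : ℝ) ^ 4 * ((n : ℝ) ^ 4 * R ^ 2 * d * A * 2)) * M := by positivity
      nlinarith
    · positivity
  · intro y hy
    have hder : ∀ r : (Fin n × Fin n) × (Fin n × Fin n), ∃ F' : Fn n,
        RD y (fun g => ∫ p, ρ v r p *
          J (Matrix.single r.1.1 r.1.2 1) (Matrix.single r.2.1 r.2.2 1) (g * b p) ∂μ) F' ∧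
        WB θ k ((n : ℝ) ^ 4 * R ^ 2 * d * A * (2 * M')) F' := by
      intro r
      obtain ⟨L, hL, hLW⟩ := CC9_lin (θ := θ) (N := M') (k := k)
        (J (Matrix.single r.1.1 r.1.2 1) (Matrix.single r.2.1 r.2.2 1))
        (hJ' _ _ (CC9_single _ _) (CC9_single _ _))
      have hJb := CC9_wb0 (hJ _ _ (CC9_single r.1.1 r.1.2) (CC9_single r.2.1 r.2.2))
      exact CC9_der μ b hbm hR0 hθ0 k d (fun A M F ρ h1 h2 h3 h4 h5 =>
        CC9_gl μ b hbm hR0 hθ0 k A M F ρ h1 h2 h3 h4 h5) hd0 (hρc v r).measurable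
        (hρi v hv r) (hρA v hv r) (hρR v r) hJb.1 hJb.2 L hL (by positivity) hLW y hy
    choose F' hF1 hF2 using hder
    have h1 := CC9_rd_sum Finset.univ y _ F' fun r _ => hF1 r
    have h2 := rd_rules.2.2.2.2.2.1 y (-(c * ∫ p, τ v p ∂μ))
    have h3 := rd_rules.2.2.1 y _ _ _ _ h1 h2
    refine ⟨_, h3, ?_⟩
    have e : (fun g : SL n => (∑ r : (Fin n × Fin n) × (Fin n × Fin n), F' r g) + 0) =
        fun g => ∑ r : (Fin n × Fin n) × (Fin n × Fin n), F' r g := funext fun g => add_zero _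
    rw [e]
    have h4 := wb_alg.2.2.2.2.2.2.1 θ k ((n : ℝ) ^ 4 * R ^ 2 * d * A * (2 * M'))
      ((Fin n × Fin n) × (Fin n × Fin n)) Finset.univ F' hθ0 (fun r _ => hF2 r)
    rw [hcard] at h4
    refine wb_alg.2.1 θ θ k _ _ _ hθ0 le_rfl ?_ (by positivity) h4
    have h5 : 0 ≤ (1 + (n : ℝ) ^ 4 * (d * A) + A) * M' := by positivity
    nlinarith

end FL27
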