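import Pool.Agent.LibFL27.CDefs
import Pool.Agent.LibFL27.CC11
import Pool.Agent.LibFL27.CC10
import Pool.Agent.LibFL27.CC9
import Pool.Agent.LibFL27.CC8
import Pool.Agent.LibFL27.CC7
import Pool.Agent.LibFL27.CC6
import Pool.Agent.LibFL27.CC4
import Pool.Agent.LibFL27.CC3
import Pool.Agent.LibFL27.CC2
import Pool.Agent.LibFL27.CB8
import Pool.Agent.LibFL27.CB1

set_option autoImplicit false
set_option maxSynthPendingDepth 3

open Matrix MeasureTheory Topology Filter LibNC38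
open LibNC27 hiding Mt
open scoped Matrix.Norms.Elementwise ContDiff

namespace FL27

private lemma CC12_bx {n : ℕ} (z : Mt n) (hz : Sym0 z) (ht : (z * z).trace ≤ 1) : Bx z := by
  intro a b
  have hs : zᵀ = z := hz.1
  have h1 : (z * z).trace = ∑ i, ∑ j, z i j ^ 2 := by
    simp only [Matrix.trace, Matrix.diag, Matrix.mul_apply]
    refine Finset.sum_congr rfl fun i _ => Finset.sum_congr rfl fun j _ => ?_
    have : z j i = z i j := by
      conv_lhs => rw [← hs]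
      rfl
    rw [this, sq]
  have h2 : z a b ^ 2 ≤ ∑ i, ∑ j, z i j ^ 2 := by
    have h3 : z a b ^ 2 ≤ ∑ j, z a j ^ 2 :=
      Finset.single_le_sum (f := fun j => z a j ^ 2) (fun j _ => sq_nonneg _) (Finset.mem_univ b)
    have h4 : ∑ j, z a j ^ 2 ≤ ∑ i, ∑ j, z i j ^ 2 :=
      Finset.single_le_sum (f := fun i => ∑ j, z i j ^ 2)
        (fun i _ => Finset.sum_nonneg fun j _ => sq_nonneg _) (Finset.mem_univ a)
    exact h3.trans h4
  have h5 : z a b ^ 2 ≤ 1 := by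
    rw [← h1] at h2
    exact h2.trans ht
  exact abs_le_one_iff_mul_self_le_one.mpr (by nlinarith)

/-- Row CC12. Summary (assembly of CC1-CC11, CB1, CB7, CB8). PLAN. `ν` from `haarK`, `κ, z` from `ker_ex`; `x = xp ξ`
(`apx_frame`), `x'` from `exact_inv`, `EnR x' (Jp η) c (C σ)`; `Js` from `smooth_tensor` (for `M = 4 δ`, `jp_facts` 3);
`y` from `yv_fx` for `x'`, `Js`. Bounds: `yv_wb1` + `yv_wb2`; closeness `yv_close`. -/
theorem smooth_form {n : ℕ} (Γ : Subgroup (SL n)) (hd : Disc Γ) (hc : Coc Γ) (m : ℕ) (hm : 1 ≤ m) :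
    ∃ C : ℝ, 1 ≤ C ∧ ∀ (η : PD n → Fm n) (δ θ s M σ c : ℝ) (ξ : PD n → Mt n →ₗ[ℝ] ℝ), FmOK Γ η →
    0 < δ → δ ≤ M → 1 ≤ θ → 0 < s → s ≤ 1 → 0 ≤ σ → TW θ m δ η → Apx Γ M σ η c ξ →
    ∃ x y : Mt n →ₗ[ℝ] Fn n, FX Γ x ∧ FX Γ y ∧ (∀ v j, SG j (y v)) ∧ EnR x (Jp η) c (C * σ) ∧
      (∀ v, Sym0 v → Bx v → ∀ g, |y v g - x v g| ≤ C * (σ + δ * (s * θ) ^ m)) ∧
      (∀ v, Bx v → WB θ m (C * M) (y v)) ∧
      ∀ v, Bx v → ∀ e : Mt n, T1 e → ∃ F' : Fn n, RD e (y v) F' ∧ WB θ m (C * M / s) F' := by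
  obtain ⟨ν, hν⟩ := haarK (n := n)
  obtain ⟨κ, z, hK⟩ := ker_ex ν hν
  obtain ⟨C4, hC4, hA⟩ := apx_frame (n := n) Γ
  obtain ⟨C8, hC8, hT⟩ := smooth_tensor (n := n) m
  obtain ⟨D1, hD1, hw1⟩ := yv_wb1 ν hν κ z hK m
  obtain ⟨D2, hD2, hw2⟩ := yv_wb2 ν hν κ z hK m
  obtain ⟨D3, hD3, hcl⟩ := yv_close ν hν κ z hK
  obtain ⟨hj1, -, hj3, -, -, -, -⟩ := jp_facts (n := n) Γ
  obtain ⟨-, hmono, -, hadd, -, -, -, -⟩ := wb_alg (n := n)
  obtain ⟨-, -, hrdadd, -, -, -, -, -, -⟩ := rd_rules (n := n)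
  have hC40 : 0 ≤ C4 := by linarith
  have hC80 : 0 ≤ C8 := by linarith
  have hD10 : 0 ≤ D1 := by linarith
  have hD20 : 0 ≤ D2 := by linarith
  have hD30 : 0 ≤ D3 := by linarith
  set C : ℝ := 1 + 4 * C4 + D3 * (1 + 4 * C4 + 4 * C8) + (D1 * C4 + D2 * (4 * C8)) with hCdef
  have e1 : 0 ≤ D1 * C4 := mul_nonneg hD10 hC40
  have e2 : 0 ≤ D2 * (4 * C8) := by positivity
  have e3 : 0 ≤ D3 * (1 + 4 * C4 + 4 * C8) := by positivity
  refine ⟨C, by rw [hCdef]; linarith, ?_⟩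
  intro η δ θ s M σ c ξ hη hδ hδM hθ hs hs1 hσ htw hap
  have hM : 0 < M := lt_of_lt_of_le hδ hδM
  obtain ⟨a1, a2, a3, a4, a5, a6⟩ := hA M σ c η ξ hM.le hσ hη hap
  obtain ⟨x, hx, hxM, hxd⟩ := exact_inv Γ hd hc (xp ξ) (C4 * M) (C4 * σ) a1 a2 a3 a4 a5
  have hFJ : FJ Γ (Jp η) := hj1 η hη
  have hJw : ∀ v w : Mt n, Bx v → Bx w → WB θ m (4 * δ) (Jp η v w) :=
    hj3 η θ δ m hθ hδ.le htw
  obtain ⟨Js, hJs, hJsg, hJsb⟩ := hT Γ (Jp η) θ (4 * δ) s hFJ hθ (by positivity) hs hs1 hJw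
  obtain ⟨y, hy, hyF⟩ := yv_fx ν hν κ z hK Γ x hx Js hJs c
  have hyf : ∀ v, y v = fun g => yv ν κ z x Js c v g := fun v => funext fun g => hy v g
  -- energy relation
  have hEn : EnR x (Jp η) c ((1 + 4 * C4) * σ) := by
    intro g w hw hwt
    have hb := CC12_bx w hw hwt
    have h0 := a6 g w hw hwt
    have d1 : |x ((2 : ℝ) • w) (g * ex w) - xp ξ ((2 : ℝ) • w) (g * ex w)| ≤ 2 * (C4 * σ) := by
      have := hxd w hb (g * ex w)
      have e : x ((2 : ℝ) • w) (g * ex w) - xp ξ ((2 : ℝ) • w) (g * ex w) =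
          2 * (x w (g * ex w) - xp ξ w (g * ex w)) := by
        rw [map_smul, map_smul]
        simp only [Pi.smul_apply, smul_eq_mul]
        ring
      rw [e, abs_mul, abs_two]
      linarith
    have d2 : |x ((2 : ℝ) • w) g - xp ξ ((2 : ℝ) • w) g| ≤ 2 * (C4 * σ) := by
      have := hxd w hb g
      have e : x ((2 : ℝ) • w) g - xp ξ ((2 : ℝ) • w) g =
          2 * (x w g - xp ξ w g) := by
        rw [map_smul, map_smul]
        simp only [Pi.smul_apply, smul_eq_mul]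
        ring
      rw [e, abs_mul, abs_two]
      linarith
    rw [abs_le] at h0 d1 d2 ⊢
    constructor <;> nlinarith [h0.1, h0.2, d1.1, d1.2, d2.1, d2.2]
  refine ⟨x, y, hx, hyF, ?_, ?_, ?_, ?_, ?_⟩
  · intro v j
    rw [hyf v]
    exact yv_sg ν hν κ z hK x hx.cont Js hJsg c v j
  · intro g w hw hwt
    refine (hEn g w hw hwt).trans ?_
    refine mul_le_mul_of_nonneg_right ?_ hσ
    rw [hCdef]; linarith
  · intro v hv hvb g
    have hρ : 0 ≤ C8 * (s * θ) ^ m * (4 * δ) := by positivity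
    have hclose : ∀ v w : Mt n, Bx v → Bx w → ∀ g, |Js v w g - Jp η v w g| ≤
        C8 * (s * θ) ^ m * (4 * δ) := by
      intro v w hv hw g
      rw [abs_sub_comm]
      exact (hJsb v w hv hw).1 g
    have := hcl Γ x Js (Jp η) c ((1 + 4 * C4) * σ) (C8 * (s * θ) ^ m * (4 * δ)) (by positivity) hρ
      hx hJs hFJ hEn hclose v hv hvb g
    rw [hy v g]
    refine this.trans ?_
    have hp : 0 ≤ δ * (s * θ) ^ m := by positivity
    have f1 : D3 * ((1 + 4 * C4) * σ + C8 * (s * θ) ^ m * (4 * δ)) =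
        D3 * (1 + 4 * C4) * σ + D3 * (4 * C8) * (δ * (s * θ) ^ m) := by ring
    rw [f1]
    have f2 : D3 * (1 + 4 * C4) ≤ C := by
      have : D3 * (1 + 4 * C4) ≤ D3 * (1 + 4 * C4 + 4 * C8) :=
        mul_le_mul_of_nonneg_left (by linarith) hD30
      rw [hCdef]; linarith
    have f3 : D3 * (4 * C8) ≤ C := by
      have : D3 * (4 * C8) ≤ D3 * (1 + 4 * C4 + 4 * C8) :=
        mul_le_mul_of_nonneg_left (by linarith) hD30
      rw [hCdef]; linarith
    calc D3 * (1 + 4 * C4) * σ + D3 * (4 * C8) * (δ * (s * θ) ^ m)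
        ≤ C * σ + C * (δ * (s * θ) ^ m) :=
          add_le_add (mul_le_mul_of_nonneg_right f2 hσ) (mul_le_mul_of_nonneg_right f3 hp)
      _ = C * (σ + δ * (s * θ) ^ m) := by ring
  · intro v hv
    have hcM : |c| ≤ 4 * C8 * M := by
      refine hap.bc.trans ?_
      nlinarith [mul_le_mul_of_nonneg_right hC8 hM.le]
    have hM' : (0 : ℝ) ≤ 4 * C8 * M / s := by positivity
    have hJs1 : ∀ v w : Mt n, Bx v → Bx w → WB θ m (4 * C8 * M) (Js v w) := by
      intro v w hv hw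
      refine hmono θ θ m (C8 * (4 * δ)) (4 * C8 * M) _ (by linarith) le_rfl ?_ (by positivity)
        (hJsb v w hv hw).2.1
      nlinarith [mul_le_mul_of_nonneg_left hδM hC80]
    have hJs2 : ∀ v w : Mt n, Bx v → Bx w → ∀ y : Mt n, T1 y → ∃ F' : Fn n, RD y (Js v w) F' ∧
        WB θ m (4 * C8 * M / s) F' := by
      intro v w hv hw y hy
      obtain ⟨F', hF1, hF2⟩ := (hJsb v w hv hw).2.2 y hy
      refine ⟨F', hF1, hmono θ θ m _ _ _ (by linarith) le_rfl ?_ (by positivity) hF2⟩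
      refine div_le_div_of_nonneg_right ?_ hs.le
      nlinarith [mul_le_mul_of_nonneg_left hδM hC80]
    have g1 := (hw1 x (C4 * M) θ hx.cont (by positivity) hθ hxM v hv).1
    have g2 := (hw2 Js c (4 * C8 * M) (4 * C8 * M / s) θ hcM hM' hθ hJs1 hJs2 v hv).1
    have g3 := hadd θ m _ _ _ _ g1 g2
    rw [hyf v]
    refine hmono θ θ m _ _ _ (by linarith) le_rfl ?_ (by positivity) g3
    have : D1 * (C4 * M) + D2 * (4 * C8 * M) = (D1 * C4 + D2 * (4 * C8)) * M := by ring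
    rw [this]
    refine mul_le_mul_of_nonneg_right ?_ hM.le
    rw [hCdef]; linarith
  · intro v hv e he
    have hcM : |c| ≤ 4 * C8 * M := by
      refine hap.bc.trans ?_
      nlinarith [mul_le_mul_of_nonneg_right hC8 hM.le]
    have hM' : (0 : ℝ) ≤ 4 * C8 * M / s := by positivity
    have hJs1 : ∀ v w : Mt n, Bx v → Bx w → WB θ m (4 * C8 * M) (Js v w) := by
      intro v w hv hw
      refine hmono θ θ m (C8 * (4 * δ)) (4 * C8 * M) _ (by linarith) le_rfl ?_ (by positivity)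
        (hJsb v w hv hw).2.1
      nlinarith [mul_le_mul_of_nonneg_left hδM hC80]
    have hJs2 : ∀ v w : Mt n, Bx v → Bx w → ∀ y : Mt n, T1 y → ∃ F' : Fn n, RD y (Js v w) F' ∧
        WB θ m (4 * C8 * M / s) F' := by
      intro v w hv hw y hy
      obtain ⟨F', hF1, hF2⟩ := (hJsb v w hv hw).2.2 y hy
      refine ⟨F', hF1, hmono θ θ m _ _ _ (by linarith) le_rfl ?_ (by positivity) hF2⟩
      refine div_le_div_of_nonneg_right ?_ hs.le
      nlinarith [mul_le_mul_of_nonneg_left hδM hC80]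
    obtain ⟨F1, hF1, hF1w⟩ := (hw1 x (C4 * M) θ hx.cont (by positivity) hθ hxM v hv).2 e he
    obtain ⟨F2, hF2, hF2w⟩ :=
      (hw2 Js c (4 * C8 * M) (4 * C8 * M / s) θ hcM hM' hθ hJs1 hJs2 v hv).2 e he
    refine ⟨fun g => F1 g + F2 g, ?_, ?_⟩
    · rw [hyf v]
      exact hrdadd e _ _ _ _ hF1 hF2
    · refine hmono θ θ m _ _ _ (by linarith) le_rfl ?_ (by positivity) (hadd θ m _ _ _ _ hF1w hF2w)
      have h1 : D1 * (C4 * M) ≤ D1 * C4 * M / s := by
        rw [le_div_iff₀ hs]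
        have : 0 ≤ D1 * C4 * M := by positivity
        nlinarith
      have h2 : D2 * (4 * C8 * M / s) = D2 * (4 * C8) * M / s := by ring
      have h3 : D1 * C4 * M / s + D2 * (4 * C8) * M / s = (D1 * C4 + D2 * (4 * C8)) * M / s := by
        ring
      have h4 : (D1 * C4 + D2 * (4 * C8)) * M / s ≤ C * M / s := by
        refine div_le_div_of_nonneg_right ?_ hs.le
        refine mul_le_mul_of_nonneg_right ?_ hM.le
        rw [hCdef]; linarith
      linarith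

end FL27
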