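import Pool.Agent.LibFL27.Defs

set_option autoImplicit false
set_option maxSynthPendingDepth 3

open Matrix MeasureTheory Topology Filter LibNC38
open LibNC27 hiding Mt
open scoped Matrix.Norms.Elementwise ContDiff

namespace FL27

noncomputable instance instMeasSL {n : ℕ} : MeasurableSpace (SL n) := borel (SL n)

instance instBorelSL {n : ℕ} : BorelSpace (SL n) := ⟨rfl⟩

/-- entries in `[-1, 1]` -/
def Bx {n : ℕ} (x : Mt n) : Prop := ∀ a b, |x a b| ≤ 1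

/-- trace zero, entries in `[-1, 1]` -/
def T1 {n : ℕ} (x : Mt n) : Prop := x.trace = 0 ∧ ∀ a b, |x a b| ≤ 1

/-- scaled `C^k` bound: the word derivatives satisfy `|R_w F| ≤ M θ^|w|`, `|w| ≤ k` -/
def WB {n : ℕ} (θ : ℝ) : ℕ → ℝ → Fn n → Prop
  | 0, M, F => Continuous F ∧ ∀ g, |F g| ≤ M
  | k + 1, M, F => (Continuous F ∧ ∀ g, |F g| ≤ M) ∧
      ∀ x : Mt n, T1 x → ∃ F' : Fn n, RD x F F' ∧ WB θ k (M * θ) F'

/-- all word derivatives of order `≤ k` exist and are continuous -/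
def SG {n : ℕ} : ℕ → Fn n → Prop
  | 0, F => Continuous F
  | k + 1, F => Continuous F ∧ ∀ x : Mt n, x.trace = 0 → ∃ F' : Fn n, RD x F F' ∧ SG k F'

open Classical in
/-- the exponential as an element of `SL_n(ℝ)` (for matrices of trace zero) -/
noncomputable def ex {n : ℕ} (x : Mt n) : SL n :=
  if h : (NormedSpace.exp x).det = 1 then ⟨NormedSpace.exp x, h⟩ else 1

/-- projection to the symmetric matrices of trace zero -/
noncomputable def pr0 {n : ℕ} : Mt n →ₗ[ℝ] Mt n where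
  toFun v := (1 / 2 : ℝ) • (v + vᵀ) - (v.trace / n) • (1 : Mt n)
  map_add' v w := by
    ext i j
    simp only [Matrix.transpose_add, Matrix.trace_add, Matrix.sub_apply, Matrix.smul_apply,
      Matrix.add_apply, smul_eq_mul]
    ring
  map_smul' r v := by
    ext i j
    simp only [Matrix.transpose_smul, Matrix.trace_smul, Matrix.sub_apply, Matrix.smul_apply,
      Matrix.add_apply, smul_eq_mul, RingHom.id_apply]
    ring

/-- the logarithmic derivative of the map `Φ` of the group: along `g x` it is `Φ(g) X x g` -/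
def LD {n : ℕ} (Φ : SL n → SL n) (X : Mt n → SL n → Mt n) : Prop :=
  ∀ x : Mt n, x.trace = 0 → ∀ c : ℝ → SL n,
    (∀ a b, HasDerivAt (fun s => (c s).1 a b) (((c 0).1 * x) a b) 0) →
    ∀ a b, HasDerivAt (fun s => (Φ (c s)).1 a b) (((Φ (c 0)).1 * X x (c 0)) a b) 0

/-- left Haar measure, right invariant under the orthogonal group -/
structure HK {n : ℕ} (ν : Measure (SL n)) : Prop where
  left : ∀ g : SL n, Measure.map (fun u => g * u) ν = ν
  ort : ∀ k : SL n, Ort k → Measure.map (fun u => u * k) ν = ν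
  fin : ∀ K : Set (SL n), IsCompact K → ν K < ⊤
  pos : ∀ U : Set (SL n), IsOpen U → U.Nonempty → 0 < ν U

/-- right convolution -/
noncomputable def cv {n : ℕ} (ν : Measure (SL n)) (κ : Mt n → ℝ) (F : Fn n) : Fn n :=
  fun g => ∫ u : SL n, κ u.1 * F (g * u) ∂ν

/-- derivative of the kernel -/
noncomputable def Lk {n : ℕ} (y : Mt n) (κ : Mt n → ℝ) : Mt n → ℝ :=
  fun A => - fderiv ℝ κ A (y * A)

/-- an invariant symmetric tensor in the frame -/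
structure FJ {n : ℕ} (Γ : Subgroup (SL n)) (J : Mt n →ₗ[ℝ] Mt n →ₗ[ℝ] Fn n) : Prop where
  cont : ∀ v w, Continuous (J v w)
  symm : ∀ v w, J v w = J w v
  inv : ∀ γ ∈ Γ, ∀ v w g, J v w (γ * g) = J v w g
  ort : ∀ k : SL n, Ort k → ∀ v w g, J v w (g * k) = J (k.1 * v * k.1ᵀ) (k.1 * w * k.1ᵀ) g
  pr : ∀ v w, J v w = J (pr0 v) (pr0 w)

/-- an invariant one form in the frame -/
structure FX {n : ℕ} (Γ : Subgroup (SL n)) (x : Mt n →ₗ[ℝ] Fn n) : Prop where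
  cont : ∀ v, Continuous (x v)
  inv : ∀ γ ∈ Γ, ∀ v g, x v (γ * g) = x v g
  ort : ∀ k : SL n, Ort k → ∀ v g, x v (g * k) = x (k.1 * v * k.1ᵀ) g
  pr : ∀ v, x v = x (pr0 v)

/-- the energy relation along the geodesics of time 1 -/
def EnR {n : ℕ} (x : Mt n →ₗ[ℝ] Fn n) (J : Mt n →ₗ[ℝ] Mt n →ₗ[ℝ] Fn n) (c σ : ℝ) : Prop :=
  ∀ (g : SL n) (z : Mt n), Sym0 z → (z * z).trace ≤ 1 →
    |x ((2 : ℝ) • z) (g * ex z) - x ((2 : ℝ) • z) g -
      ∫ s in (0 : ℝ)..1, (J ((2 : ℝ) • z) ((2 : ℝ) • z) (g * ex (s • z)) -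
        c * (((2 : ℝ) • z) * ((2 : ℝ) • z)).trace)| ≤ σ

/-- the tensor `κ` in the frame -/
noncomputable def Jp {n : ℕ} (κ : PD n → Fm n) : Mt n →ₗ[ℝ] Mt n →ₗ[ℝ] Fn n :=
  LinearMap.mk₂ ℝ (fun v w => Jf κ (pr0 v) (pr0 w))
    (by intro a b c; funext g; simp [Jf, Matrix.mul_add, Matrix.add_mul])
    (by intro r a c; funext g; simp [Jf])
    (by intro a b c; funext g; simp [Jf, Matrix.mul_add, Matrix.add_mul])
    (by intro r a c; funext g; simp [Jf])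

/-- the one form `ξ` in the frame -/
noncomputable def xp {n : ℕ} (ξ : PD n → Mt n →ₗ[ℝ] ℝ) : Mt n →ₗ[ℝ] Fn n where
  toFun v := fun g => ξ (act g (o n)) (g.1 * pr0 v * g.1ᵀ)
  map_add' a b := by funext g; simp [Matrix.mul_add, Matrix.add_mul]
  map_smul' r a := by funext g; simp

/-- kernel representing the one forms: `∫ κ_v(u) 2 z(u) du = v`, `u uᵀ = exp (- 2 z(u))` -/
structure Ker {n : ℕ} (ν : Measure (SL n)) (κ : Mt n →ₗ[ℝ] (Mt n → ℝ)) (z : Mt n → Mt n) : Prop where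
  zsm : ∀ a b, ContDiff ℝ ∞ (fun A => z A a b)
  ksm : ∀ v, ContDiff ℝ ∞ (κ v)
  kc : ∀ v, HasCompactSupport (κ v)
  zs : ∀ (v : Mt n) (u : SL n), κ v u.1 ≠ 0 → Sym0 (z u.1) ∧ (z u.1 * z u.1).trace ≤ 1 ∧
    u.1 * u.1ᵀ = NormedSpace.exp (-((2 : ℝ) • z u.1))
  kort : ∀ k k' : SL n, Ort k → Ort k' → ∀ (v : Mt n) (u : SL n),
    κ (k.1 * v * k.1ᵀ) (k * u * k').1 = κ v u.1
  zort : ∀ k k' : SL n, Ort k → Ort k' → ∀ (u : SL n),
    z (k * u * k').1 = k.1 * z u.1 * k.1ᵀ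
  pr : ∀ v, κ v = κ (pr0 v)
  rep : ∀ v : Mt n, Sym0 v → ∀ a b, ∫ u : SL n, κ v u.1 * (2 * z u.1 a b) ∂ν = v a b

/-- energy of `J - c g` along the geodesic from `g ex (-z)` to `g` -/
noncomputable def en {n : ℕ} (J : Mt n →ₗ[ℝ] Mt n →ₗ[ℝ] Fn n) (c : ℝ) (z : Mt n) (g : SL n) : ℝ :=
  ∫ s in (0 : ℝ)..1, (J ((2 : ℝ) • z) ((2 : ℝ) • z) (g * ex ((s - 1) • z)) -
    c * (((2 : ℝ) • z) * ((2 : ℝ) • z)).trace)

/-- the smooth one form -/
noncomputable def yv {n : ℕ} (ν : Measure (SL n)) (κ : Mt n →ₗ[ℝ] (Mt n → ℝ)) (z : Mt n → Mt n)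
    (x : Mt n →ₗ[ℝ] Fn n) (J : Mt n →ₗ[ℝ] Mt n →ₗ[ℝ] Fn n) (c : ℝ) (v : Mt n) (g : SL n) : ℝ :=
  (∫ u : SL n, κ v u.1 * x (u⁻¹.1 * ((2 : ℝ) • z u.1) * u.1) (g * u) ∂ν) +
    ∫ u : SL n, κ v u.1 * en J c (z u.1) g ∂ν

/-- scaled bound of a tensor in the frame -/
def TW {n : ℕ} (θ : ℝ) (k : ℕ) (M : ℝ) (κ : PD n → Fm n) : Prop :=
  ∀ v w : Mt n, Sym0 v → Sym0 w → Bx v → Bx w → WB θ k M (Jf κ v w)

/-- frame components of an invariant smooth vector field -/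
structure YOK {n : ℕ} (Γ : Subgroup (SL n)) (a : SL n → Mt n) : Prop where
  sym : ∀ g, Sym0 (a g)
  inv : ∀ γ ∈ Γ, ∀ g, a (γ * g) = a g
  ort : ∀ k : SL n, Ort k → ∀ g, a (g * k) = k.1ᵀ * a g * k.1
  smooth : ∀ j i l, SG j (fun g => a g i l)

/-- the gauge map on the group -/
noncomputable def Ph {n : ℕ} (a : SL n → Mt n) (g : SL n) : SL n := g * ex (-((1 / 2 : ℝ) • a g))

/-- its logarithmic derivative; `A x g` = derivative of `a` at `g` along `x` -/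
noncomputable def Xq {n : ℕ} (a : SL n → Mt n) (A : Mt n → SL n → Mt n) (x : Mt n) (g : SL n) : Mt n :=
  NormedSpace.exp ((1 / 2 : ℝ) • a g) * (x * NormedSpace.exp (-((1 / 2 : ℝ) • a g)) +
    fderiv ℝ (fun B : Mt n => NormedSpace.exp B) (-((1 / 2 : ℝ) • a g)) (-((1 / 2 : ℝ) • A x g)))

/-- the differential of the gauge map in the frames -/
noncomputable def Vq {n : ℕ} (a : SL n → Mt n) (A : Mt n → SL n → Mt n) (v : Mt n) (g : SL n) : Mt n :=
  Xq a A ((1 / 2 : ℝ) • v) g + (Xq a A ((1 / 2 : ℝ) • v) g)ᵀ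

/-- half the dual of a one form in the frame: `tr (dualf y g * v) = y v g / 2` -/
noncomputable def dualf {n : ℕ} (y : Mt n →ₗ[ℝ] Fn n) (g : SL n) : Mt n :=
  Matrix.of fun i l => y (Matrix.single l i 1) g / 2

/-- the state of the iteration -/
structure St {n : ℕ} (Γ : Subgroup (SL n)) (m : ℕ) (δ θ : ℝ) (h : PD n → Fm n) : Prop where
  ok : FmOK Γ h
  pos : ∀ p v, IsTan p v → v ≠ 0 → 0 < h p v v
  sm : CmF ∞ h
  nc : NoConj (dN (nrm h))
  tw : TW θ m δ (fun p => h p - gF p)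

end FL27
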