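import Pool.Agent.LibFL27.CDefs
import Pool.Agent.LibFL27.CA1

set_option autoImplicit false
set_option maxSynthPendingDepth 3

open Matrix MeasureTheory Topology Filter LibNC38
open LibNC27 hiding Mt
open scoped Matrix.Norms.Elementwise ContDiff

namespace FL27

private theorem CE1_rat {σ ρ Λ τ a b : ℝ} (hσ : 0 ≤ σ) (hρ : 0 ≤ ρ) (hΛ : 0 ≤ Λ) (hτ : 0 < τ)
    (hτ1 : τ ≤ 1) (h1 : |τ * b| ≤ σ / τ + 2 * ρ) (h2 : |b - a| ≤ τ * Λ) :
    |a| ≤ 2 * ((σ + ρ) / τ ^ 2 + Λ * τ) := by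
  have h3 : |b| ≤ (σ / τ + 2 * ρ) / τ := by
    rw [abs_mul, abs_of_pos hτ] at h1
    rw [le_div_iff₀ hτ]
    linarith
  have h4 : |a| ≤ |b| + |b - a| := by
    have h5 : a = b - (b - a) := by ring
    calc |a| = |b - (b - a)| := by rw [← h5]
      _ ≤ |b| + |b - a| := abs_sub _ _
  have h6 : (σ / τ + 2 * ρ) / τ = σ / τ ^ 2 + 2 * (ρ / τ) := by
    field_simp
  have h7 : ρ / τ ≤ ρ / τ ^ 2 := by
    apply div_le_div_of_nonneg_left hρ (by positivity)
    nlinarith
  have h8 : 0 ≤ σ / τ ^ 2 := by positivity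
  have h9 : (σ + ρ) / τ ^ 2 = σ / τ ^ 2 + ρ / τ ^ 2 := by rw [add_div]
  have h10 : 0 ≤ τ * Λ := by positivity
  rw [h9]
  linarith

/-- Row CE1. The residual is small. PLAN. Fix `v`, `g`, `τ ≤ 1/n` (`n ≥ 1`), `z = (τ/2) v`: `tr (z z) ≤ τ^2 n^2/4 ≤ 1`. `EnR` at `z`:
divide by `τ` (`2 z = τ v`, `J (τ v)(τ v) = τ^2 J v v`, substitution `t = τ s`):
`|x v (g ex(τ v/2)) - x v g - ∫_0^τ (J v v - c tr(vv))(g ex(t v/2)) dt| ≤ σ/τ`; replace `x` by `y` (`2 ρ`) and
`y v (g ex(τ v/2)) - y v g = ∫_0^τ (D v)(g ex(t v/2)) dt` (`rd_rules` 2 along `v/2`, `t ↦ g ex(t v/2)`). So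
`|∫_0^τ r(g ex(t v/2)) dt| ≤ σ/τ + 2ρ` for `r = J v v - c tr(vv) - D v`, and `|r(g ex(t v/2)) - r(g)| ≤ t Λ`. Hence
`τ |r g| ≤ σ/τ + 2 ρ + τ^2 Λ`. -/
theorem resid {n : ℕ} (hn : 1 ≤ n) (x y : Mt n →ₗ[ℝ] Fn n) (D : Mt n → Fn n)
    (J : Mt n →ₗ[ℝ] Mt n →ₗ[ℝ] Fn n) (c σ ρ Λ : ℝ) (hσ : 0 ≤ σ) (hρ : 0 ≤ ρ) (hΛ : 0 ≤ Λ)
    (hJc : ∀ v w, Continuous (J v w)) (hDc : ∀ v, Continuous (D v)) (hE : EnR x J c σ)
    (hxy : ∀ v, Sym0 v → Bx v → ∀ g, |y v g - x v g| ≤ ρ)
    (hD : ∀ v, Sym0 v → Bx v → RD ((1 / 2 : ℝ) • v) (y v) (D v))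
    (hr : ∀ v, Sym0 v → Bx v → ∃ r' : Fn n,
      RD ((1 / 2 : ℝ) • v) (fun g => J v v g - c * (v * v).trace - D v g) r' ∧ ∀ g, |r' g| ≤ Λ) :
    ∀ τ : ℝ, 0 < τ → τ * n ≤ 1 → ∀ v, Sym0 v → Bx v → ∀ g,
      |J v v g - c * (v * v).trace - D v g| ≤ 2 * ((σ + ρ) / τ ^ 2 + Λ * τ) := by
  intro τ hτ hτn v hv hvB g
  obtain ⟨_, hrd2, _, _, _, _, hrd7, _, _⟩ := rd_rules (n := n)
  obtain ⟨_, _, _, hex0, _, hexc⟩ := ex_facts (n := n)
  have hn1 : (1 : ℝ) ≤ n := by exact_mod_cast hn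
  have hτ1 : τ ≤ 1 := by nlinarith
  obtain ⟨z, hzdef⟩ : ∃ z : Mt n, z = τ • ((1 / 2 : ℝ) • v) := ⟨_, rfl⟩
  have hz : Sym0 z := by
    refine ⟨?_, ?_⟩
    · rw [hzdef, Matrix.transpose_smul, Matrix.transpose_smul, hv.1]
    · rw [hzdef, Matrix.trace_smul, Matrix.trace_smul, hv.2, smul_zero, smul_zero]
  have hvv : (v * v).trace ≤ (n : ℝ) ^ 2 := by
    have h1 : (v * v).trace = ∑ i, ∑ j, v i j * v j i := by
      simp [Matrix.trace, Matrix.mul_apply]
    rw [h1]
    calc ∑ i, ∑ j, v i j * v j i ≤ ∑ _i : Fin n, ∑ _j : Fin n, (1 : ℝ) := by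
          refine Finset.sum_le_sum fun i _ => Finset.sum_le_sum fun j _ => ?_
          have h2 := abs_mul (v i j) (v j i)
          have h3 := hvB i j
          have h4 := hvB j i
          have h5 := le_abs_self (v i j * v j i)
          have h6 := abs_nonneg (v i j)
          have h7 := abs_nonneg (v j i)
          nlinarith
      _ = (n : ℝ) ^ 2 := by simp [sq]
  have hztr : (z * z).trace ≤ 1 := by
    have h1 : (z * z).trace = τ ^ 2 / 4 * (v * v).trace := by
      rw [hzdef, Matrix.smul_mul, Matrix.smul_mul, Matrix.mul_smul, Matrix.mul_smul,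
        Matrix.trace_smul, Matrix.trace_smul, Matrix.trace_smul, Matrix.trace_smul]
      simp only [smul_eq_mul]
      ring
    rw [h1]
    have h2 : τ ^ 2 * (n : ℝ) ^ 2 ≤ 1 := by
      have : τ ^ 2 * (n : ℝ) ^ 2 = (τ * n) ^ 2 := by ring
      rw [this]
      have h0 : 0 ≤ τ * n := by positivity
      nlinarith
    have h3 : 0 ≤ τ ^ 2 := by positivity
    nlinarith
  have h2z : (2 : ℝ) • z = τ • v := by
    rw [hzdef, smul_smul, smul_smul]
    congr 1
    ring
  have hE1 := hE g z hz hztr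
  rw [h2z] at hE1
  have hx1 : ∀ h : SL n, x (τ • v) h = τ * x v h := by
    intro h
    rw [map_smul, Pi.smul_apply, smul_eq_mul]
  have hJ1 : ∀ h : SL n, J (τ • v) (τ • v) h = τ ^ 2 * J v v h := by
    intro h
    rw [map_smul, map_smul, LinearMap.smul_apply, Pi.smul_apply, Pi.smul_apply, smul_eq_mul,
      smul_eq_mul]
    ring
  have htr : ((τ • v) * (τ • v)).trace = τ ^ 2 * (v * v).trace := by
    rw [Matrix.smul_mul, Matrix.mul_smul, Matrix.trace_smul, Matrix.trace_smul, smul_eq_mul,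
      smul_eq_mul]
    ring
  have hcur : Continuous fun s : ℝ => g * ex (s • z) := continuous_const.mul (hexc z hz.2)
  have hJi : Continuous fun s : ℝ => J v v (g * ex (s • z)) - c * (v * v).trace :=
    ((hJc v v).comp hcur).sub continuous_const
  have hDi : Continuous fun s : ℝ => D v (g * ex (s • z)) := (hDc v).comp hcur
  have hint : (∫ s in (0 : ℝ)..1, (J (τ • v) (τ • v) (g * ex (s • z)) -
      c * ((τ • v) * (τ • v)).trace)) =
      τ ^ 2 * ∫ s in (0 : ℝ)..1, (J v v (g * ex (s • z)) - c * (v * v).trace) := by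
    rw [← intervalIntegral.integral_const_mul]
    congr 1
    funext s
    rw [hJ1, htr]
    ring
  rw [hint, hx1, hx1] at hE1
  -- the derivative of `y`
  have hRDy : RD z (y v) (fun h => τ * D v h) := by
    rw [hzdef]
    exact hrd7 _ _ _ τ hτ.ne' (hD v hv hvB)
  have hFTC : (∫ s in (0 : ℝ)..1, τ * D v (g * ex (s • z))) =
      y v (g * ex z) - y v g := by
    have h1 := intervalIntegral.integral_eq_sub_of_hasDerivAt
      (f := fun s : ℝ => y v (g * ex (s • z))) (f' := fun s : ℝ => τ * D v (g * ex (s • z)))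
      (a := 0) (b := 1) (fun t _ => hrd2 z (y v) _ hz.2 hRDy g t)
      ((continuous_const.mul hDi).intervalIntegrable _ _)
    rw [h1]
    simp only [one_smul, zero_smul, hex0, mul_one]
  -- the residual along the curve
  obtain ⟨r', hr1, hr2⟩ := hr v hv hvB
  have hRDr : RD z (fun h => J v v h - c * (v * v).trace - D v h) (fun h => τ * r' h) := by
    rw [hzdef]
    exact hrd7 _ _ _ τ hτ.ne' hr1
  have hlip : ∀ s ∈ Set.Icc (0 : ℝ) 1,
      |(J v v (g * ex (s • z)) - c * (v * v).trace - D v (g * ex (s • z))) -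
        (J v v g - c * (v * v).trace - D v g)| ≤ τ * Λ := by
    intro s hs
    have h1 := Convex.norm_image_sub_le_of_norm_hasDerivWithin_le
      (f := fun t : ℝ => J v v (g * ex (t • z)) - c * (v * v).trace - D v (g * ex (t • z)))
      (f' := fun t : ℝ => τ * r' (g * ex (t • z))) (C := τ * Λ) (s := Set.univ) (x := 0) (y := s)
      (fun t _ => (hrd2 z _ _ hz.2 hRDr g t).hasDerivWithinAt)
      (fun t _ => by
        rw [Real.norm_eq_abs, abs_mul, abs_of_pos hτ]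
        exact mul_le_mul_of_nonneg_left (hr2 _) hτ.le)
      convex_univ (Set.mem_univ _) (Set.mem_univ _)
    simp only [zero_smul, hex0, mul_one, sub_zero, Real.norm_eq_abs] at h1
    refine h1.trans ?_
    rw [abs_of_nonneg hs.1]
    have h2 : 0 ≤ τ * Λ := by positivity
    nlinarith [hs.2]
  have hsplit : (∫ s in (0 : ℝ)..1, (J v v (g * ex (s • z)) - c * (v * v).trace -
      D v (g * ex (s • z)))) =
      (∫ s in (0 : ℝ)..1, (J v v (g * ex (s • z)) - c * (v * v).trace)) -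
        ∫ s in (0 : ℝ)..1, D v (g * ex (s • z)) :=
    intervalIntegral.integral_sub (hJi.intervalIntegrable _ _) (hDi.intervalIntegrable _ _)
  have hmean : |(∫ s in (0 : ℝ)..1, (J v v (g * ex (s • z)) - c * (v * v).trace -
      D v (g * ex (s • z)))) - (J v v g - c * (v * v).trace - D v g)| ≤ τ * Λ := by
    have h1 : (∫ s in (0 : ℝ)..1, (J v v (g * ex (s • z)) - c * (v * v).trace -
        D v (g * ex (s • z)))) - (J v v g - c * (v * v).trace - D v g) =
        ∫ s in (0 : ℝ)..1, ((J v v (g * ex (s • z)) - c * (v * v).trace -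
          D v (g * ex (s • z))) - (J v v g - c * (v * v).trace - D v g)) := by
      have hRi : Continuous fun s : ℝ => J v v (g * ex (s • z)) - c * (v * v).trace -
          D v (g * ex (s • z)) := hJi.sub hDi
      have h3 : (∫ s in (0 : ℝ)..1, ((J v v (g * ex (s • z)) - c * (v * v).trace -
          D v (g * ex (s • z))) - (J v v g - c * (v * v).trace - D v g))) =
          (∫ s in (0 : ℝ)..1, (J v v (g * ex (s • z)) - c * (v * v).trace -
            D v (g * ex (s • z)))) -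
          ∫ _s in (0 : ℝ)..1, (J v v g - c * (v * v).trace - D v g) :=
        intervalIntegral.integral_sub (hRi.intervalIntegrable _ _)
          (continuous_const.intervalIntegrable _ _)
      rw [h3]
      simp
    rw [h1]
    have h2 := intervalIntegral.norm_integral_le_of_norm_le_const (a := (0 : ℝ)) (b := 1)
      (C := τ * Λ) (f := fun s : ℝ => (J v v (g * ex (s • z)) - c * (v * v).trace -
          D v (g * ex (s • z))) - (J v v g - c * (v * v).trace - D v g))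
      (fun s hs => by
        rw [Set.uIoc_of_le zero_le_one] at hs
        rw [Real.norm_eq_abs]
        exact hlip s ⟨hs.1.le, hs.2⟩)
    simpa using h2
  refine CE1_rat hσ hρ hΛ hτ hτ1 ?_ hmean
  rw [hsplit]
  rw [intervalIntegral.integral_const_mul] at hFTC
  obtain ⟨I, hI⟩ : ∃ I, I = ∫ s in (0 : ℝ)..1, (J v v (g * ex (s • z)) - c * (v * v).trace) :=
    ⟨_, rfl⟩
  obtain ⟨K, hK⟩ : ∃ K, K = ∫ s in (0 : ℝ)..1, D v (g * ex (s • z)) := ⟨_, rfl⟩
  rw [← hI] at hE1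
  rw [← hI, ← hK]
  rw [← hK] at hFTC
  have hA := hxy v hv hvB (g * ex z)
  have hB := hxy v hv hvB g
  have hdiv : |x v (g * ex z) - x v g - τ * I| ≤ σ / τ := by
    rw [le_div_iff₀ hτ]
    have h1 : |x v (g * ex z) - x v g - τ * I| * τ =
        |τ * x v (g * ex z) - τ * x v g - τ ^ 2 * I| := by
      rw [← abs_of_pos hτ, ← abs_mul, abs_of_pos hτ]
      congr 1
      ring
    rw [h1]
    exact hE1
  rw [abs_le] at hA hB hdiv ⊢
  constructor <;> nlinarith [hA.1, hA.2, hB.1, hB.2, hdiv.1, hdiv.2, hFTC]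

end FL27
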