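import Pool.Agent.LibFL27.CDefs
import Pool.Agent.LibFL27.CC3
import Pool.Agent.LibFL27.CA5b

set_option autoImplicit false
set_option maxSynthPendingDepth 3

open Matrix MeasureTheory Topology Filter LibNC38
open LibNC27 hiding Mt
open scoped Matrix.Norms.Elementwise ContDiff

namespace FL27

private theorem CF1_trace {n : ℕ} (y : Mt n →ₗ[ℝ] Fn n) (g : SL n) (v : Mt n) :
    (dualf y g * v).trace = y v g / 2 := by
  have h1 : y v g = ∑ l, ∑ i, v l i * y (Matrix.single l i (1 : ℝ)) g := by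
    have h2 : v = ∑ l, ∑ i, v l i • Matrix.single l i (1 : ℝ) := by
      conv_lhs => rw [Matrix.matrix_eq_sum_single v]
      refine Finset.sum_congr rfl fun i _ => Finset.sum_congr rfl fun j _ => ?_
      rw [Matrix.smul_single, smul_eq_mul, mul_one]
    conv_lhs => rw [h2]
    simp only [map_sum, map_smul, Finset.sum_apply, Pi.smul_apply, smul_eq_mul]
  rw [h1, Finset.sum_comm, Matrix.trace, Finset.sum_div]
  refine Finset.sum_congr rfl fun i _ => ?_
  rw [Matrix.diag_apply, Matrix.mul_apply, Finset.sum_div]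
  refine Finset.sum_congr rfl fun l _ => ?_
  show y (Matrix.single l i 1) g / 2 * v l i = v l i * y (Matrix.single l i 1) g / 2
  ring

private theorem CF1_tr {n : ℕ} (v : Mt n) : pr0 vᵀ = pr0 v := by
  show (1 / 2 : ℝ) • (vᵀ + vᵀᵀ) - (vᵀ.trace / n) • (1 : Mt n) =
    (1 / 2 : ℝ) • (v + vᵀ) - (v.trace / n) • (1 : Mt n)
  rw [Matrix.transpose_transpose, Matrix.trace_transpose, add_comm]

private theorem CF1_one {n : ℕ} : pr0 (1 : Mt n) = 0 := by
  rcases Nat.eq_zero_or_pos n with h0 | h0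
  · subst h0
    exact Subsingleton.elim _ _
  · have hn : (n : ℝ) ≠ 0 := by exact_mod_cast h0.ne'
    show (1 / 2 : ℝ) • ((1 : Mt n) + (1 : Mt n)ᵀ) - ((1 : Mt n).trace / n) • (1 : Mt n) = 0
    rw [Matrix.transpose_one, Matrix.trace_one, Fintype.card_fin, div_self hn, one_smul,
      ← two_smul ℝ (1 : Mt n), smul_smul]
    norm_num

/-- Row CF1. The vector field of a one form. `a g` is half the dual of `y`: `tr (a g * v) = y v g / 2`. PLAN.
`a g i l = y (single l i 1) g / 2`; `y = y ∘ pr0` makes `a` symmetric with trace zero; equivariance: `a (g k) = kᵀ a(g) k`. -/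
theorem dual_field {n : ℕ} (Γ : Subgroup (SL n)) (y : Mt n →ₗ[ℝ] Fn n) (hy : FX Γ y)
    (hs : ∀ v j, SG j (y v)) :
    YOK Γ (dualf y) ∧ ∀ (g : SL n) (v : Mt n), (dualf y g * v).trace = y v g / 2 := by
  refine ⟨⟨fun g => ⟨?_, ?_⟩, ?_, ?_, ?_⟩, CF1_trace y⟩
  · ext i l
    show y (Matrix.single i l 1) g / 2 = y (Matrix.single l i 1) g / 2
    have h1 : y (Matrix.single i l (1 : ℝ)) = y (Matrix.single l i (1 : ℝ)) := by
      rw [hy.pr (Matrix.single i l (1 : ℝ)), hy.pr (Matrix.single l i (1 : ℝ)),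
        ← CF1_tr (Matrix.single i l (1 : ℝ)), Matrix.transpose_single]
    rw [h1]
  · have h1 := CF1_trace y g 1
    rw [Matrix.mul_one] at h1
    rw [h1, hy.pr, CF1_one, map_zero]
    show (0 : ℝ) / 2 = 0
    norm_num
  · intro γ hγ g
    ext i l
    show y (Matrix.single l i 1) (γ * g) / 2 = y (Matrix.single l i 1) g / 2
    rw [hy.inv γ hγ]
  · intro k hk g
    rw [Matrix.ext_iff_trace_mul_right]
    intro v
    rw [CF1_trace, hy.ort k hk, ← CF1_trace]
    have e1 : dualf y g * (k.1 * v * k.1ᵀ) = (dualf y g * k.1 * v) * k.1ᵀ := by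
      simp only [Matrix.mul_assoc]
    have e2 : k.1ᵀ * dualf y g * k.1 * v = k.1ᵀ * (dualf y g * k.1 * v) := by
      simp only [Matrix.mul_assoc]
    rw [e1, e2, Matrix.trace_mul_comm]
  · intro j i l
    have h1 := (sg_alg (n := n)).2.2.2.1 j _ _ (hs (Matrix.single l i (1 : ℝ)) j)
      ((sg_alg (n := n)).2.1 j (1 / 2 : ℝ))
    have h2 : (fun g : SL n => dualf y g i l) =
        fun g => y (Matrix.single l i (1 : ℝ)) g * (1 / 2 : ℝ) := by
      funext g
      show y (Matrix.single l i 1) g / 2 = _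
      ring
    rw [h2]
    exact h1

end FL27
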