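import Pool.Agent.LibFL27.CDefs
import Pool.Agent.LibFL27.CA1

set_option autoImplicit false
set_option maxSynthPendingDepth 3

open Matrix MeasureTheory Topology Filter LibNC38
open LibNC27 hiding Mt
open scoped Matrix.Norms.Elementwise ContDiff

namespace FL27

private theorem CF2_tr {n : ℕ} (a : SL n → Mt n) (ha : ∀ g, Sym0 (a g)) (g : SL n) :
    (-((1 / 2 : ℝ) • a g)).trace = 0 := by
  rw [Matrix.trace_neg, Matrix.trace_smul, (ha g).2, smul_zero, neg_zero]

private theorem CF2_val {n : ℕ} (a : SL n → Mt n) (ha : ∀ g, Sym0 (a g)) (g : SL n) :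
    (Ph a g).1 = g.1 * NormedSpace.exp (-((1 / 2 : ℝ) • a g)) := by
  have h0 : (Ph a g).1 = g.1 * (ex (-((1 / 2 : ℝ) • a g))).1 := rfl
  rw [h0, ex_facts.1 _ (CF2_tr a ha g)]

private theorem CF2_inv {n : ℕ} (B : Mt n) :
    (NormedSpace.exp (-B) : Mt n) * NormedSpace.exp B = 1 := by
  rw [Matrix.exp_neg]
  exact Matrix.nonsing_inv_mul _ ((Matrix.isUnit_iff_isUnit_det _).1 (Matrix.isUnit_exp B))

private theorem CF2_ld {n : ℕ} (a : SL n → Mt n) (A : Mt n → SL n → Mt n) (ha : ∀ g, Sym0 (a g))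
    (hA : ∀ x : Mt n, x.trace = 0 → ∀ i l, RD x (fun g => a g i l) (fun g => A x g i l)) :
    LD (Ph a) (Xq a A) := by
  intro x hx c hcd i j
  have hfun : (fun s => (Ph a (c s)).1 i j) =
      fun s => ∑ k, (c s).1 i k * (NormedSpace.exp (-((1 / 2 : ℝ) • a (c s))) : Mt n) k j := by
    funext s
    rw [CF2_val a ha, Matrix.mul_apply]
  have hB : HasDerivAt (fun s => -((1 / 2 : ℝ) • a (c s))) (-((1 / 2 : ℝ) • A x (c 0))) 0 := by
    have h1 : HasDerivAt (fun s => a (c s)) (A x (c 0)) 0 := by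
      refine hasDerivAt_pi.2 fun p => hasDerivAt_pi.2 fun q => ?_
      exact hA x hx p q c hcd
    exact (h1.const_smul (1 / 2 : ℝ)).neg
  obtain ⟨D, hD⟩ : ∃ D : Mt n, D = fderiv ℝ (fun B : Mt n => NormedSpace.exp B)
      (-((1 / 2 : ℝ) • a (c 0))) (-((1 / 2 : ℝ) • A x (c 0))) := ⟨_, rfl⟩
  have hE : HasDerivAt (fun s => (NormedSpace.exp (-((1 / 2 : ℝ) • a (c s))) : Mt n)) D 0 := by
    have h2 : HasFDerivAt (fun B : Mt n => NormedSpace.exp B)
        (fderiv ℝ (fun B : Mt n => NormedSpace.exp B) (-((1 / 2 : ℝ) • a (c 0))))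
        (-((1 / 2 : ℝ) • a (c 0))) :=
      ((exp_smoothm (m := 1)).differentiable (by norm_num)).differentiableAt.hasFDerivAt
    rw [hD]
    exact h2.comp_hasDerivAt (0 : ℝ) hB
  have hEe : ∀ p q, HasDerivAt (fun s => (NormedSpace.exp (-((1 / 2 : ℝ) • a (c s))) : Mt n) p q)
      (D p q) 0 := fun p q => hasDerivAt_pi.1 (hasDerivAt_pi.1 hE p) q
  rw [hfun]
  have hsum : HasDerivAt (fun s => ∑ k, (c s).1 i k *
      (NormedSpace.exp (-((1 / 2 : ℝ) • a (c s))) : Mt n) k j)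
      (∑ k, ((((c 0).1 * x) i k) * (NormedSpace.exp (-((1 / 2 : ℝ) • a (c 0))) : Mt n) k j +
        (c 0).1 i k * D k j)) 0 :=
    HasDerivAt.fun_sum fun k _ => (hcd i k).mul (hEe k j)
  refine hsum.congr_deriv ?_
  have h3 : (Ph a (c 0)).1 * Xq a A x (c 0) =
      (c 0).1 * x * NormedSpace.exp (-((1 / 2 : ℝ) • a (c 0))) + (c 0).1 * D := by
    rw [CF2_val a ha]
    unfold Xq
    rw [← hD, Matrix.mul_assoc, ← Matrix.mul_assoc (NormedSpace.exp (-((1 / 2 : ℝ) • a (c 0)))),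
      CF2_inv, Matrix.one_mul, Matrix.mul_add, ← Matrix.mul_assoc]
  rw [h3, Matrix.add_apply, Matrix.mul_apply, Matrix.mul_apply, ← Finset.sum_add_distrib]

/-- Row CF2. The logarithmic derivative of the gauge map. PLAN. `Φ(g) = g exp(-a/2)`; along a curve `c`: product rule
(entries), chain rule for `exp` (`LibNC38.exp_smoothm`: differentiable) at the matrix `-a(c)/2` whose entries have
derivative `-(A x)/2`; `exp(a/2) = exp(-a/2)⁻¹` (`Matrix.exp_neg`). Trace zero: `det Φ = 1` along the curve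
(`d/ds det = tr(adj Φ · Φ')`, or: `X` is the velocity at `1` of the curve `Φ(c 0)⁻¹ Φ(c s)` in `SL n`). -/
theorem gauge_ld {n : ℕ} (a : SL n → Mt n) (A : Mt n → SL n → Mt n) (ha : ∀ g, Sym0 (a g))
    (hc : ∀ i l, Continuous fun g => a g i l)
    (hA : ∀ x : Mt n, x.trace = 0 → ∀ i l, RD x (fun g => a g i l) (fun g => A x g i l)) :
    Continuous (Ph a) ∧ LD (Ph a) (Xq a A) ∧ ∀ x : Mt n, x.trace = 0 → ∀ g, (Xq a A x g).trace = 0 := by
  refine ⟨?_, CF2_ld a A ha hA, ?_⟩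
  · have h1 : Continuous fun g : SL n => ex (-((1 / 2 : ℝ) • a g)) := by
      refine continuous_induced_rng.2 ?_
      have h2 : Continuous fun g => -((1 / 2 : ℝ) • a g) :=
        ((continuous_matrix hc).const_smul (1 / 2 : ℝ)).neg
      have h3 : Continuous fun g : SL n => (NormedSpace.exp (-((1 / 2 : ℝ) • a g)) : Mt n) :=
        (exp_smoothm (m := 0)).continuous.comp h2
      refine h3.congr fun g => ?_
      exact (ex_facts.1 _ (CF2_tr a ha g)).symm
    exact continuous_id.mul h1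
  · intro x hx g
    have hg0 : g * ex ((0 : ℝ) • x) = g := by
      rw [zero_smul, ex_facts.2.2.2.1, mul_one]
    have hcurve : ∀ i j, HasDerivAt (fun s : ℝ => (g * ex (s • x)).1 i j)
        (((g * ex ((0 : ℝ) • x)).1 * x) i j) 0 := fun i j => ex_facts.2.2.1 x hx g 0 i j
    have hLD := CF2_ld a A ha hA x hx (fun s => g * ex (s • x)) hcurve
    simp only [hg0] at hLD
    have hM : ∀ i j, HasDerivAt (fun s : ℝ => ((Ph a g)⁻¹.1 * (Ph a (g * ex (s • x))).1) i j)
        (Xq a A x g i j) 0 := by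
      intro i j
      have h4 : HasDerivAt (fun s : ℝ => ∑ k, (Ph a g)⁻¹.1 i k * (Ph a (g * ex (s • x))).1 k j)
          (∑ k, (Ph a g)⁻¹.1 i k * ((Ph a g).1 * Xq a A x g) k j) 0 :=
        HasDerivAt.fun_sum fun k _ => (hLD k j).const_mul _
      have h5 : (∑ k, (Ph a g)⁻¹.1 i k * ((Ph a g).1 * Xq a A x g) k j) = Xq a A x g i j := by
        have h6 : (Ph a g)⁻¹.1 * ((Ph a g).1 * Xq a A x g) = Xq a A x g := by
          rw [← Matrix.mul_assoc]
          have h7 : (Ph a g)⁻¹.1 * (Ph a g).1 = ((Ph a g)⁻¹ * Ph a g).1 := rfl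
          rw [h7, inv_mul_cancel]
          exact Matrix.one_mul _
        rw [← Matrix.mul_apply, h6]
      rw [h5] at h4
      exact h4
    have h1 : (fun s : ℝ => (Ph a g)⁻¹.1 * (Ph a (g * ex (s • x))).1) 0 = 1 := by
      show (Ph a g)⁻¹.1 * (Ph a (g * ex ((0 : ℝ) • x))).1 = 1
      rw [hg0]
      have h7 : (Ph a g)⁻¹.1 * (Ph a g).1 = ((Ph a g)⁻¹ * Ph a g).1 := rfl
      rw [h7, inv_mul_cancel]
      rfl
    have hd := mnr_deriv (fun s : ℝ => (Ph a g)⁻¹.1 * (Ph a (g * ex (s • x))).1) (Xq a A x g) 0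
      h1 hM n le_rfl
    have hconst : (fun s : ℝ => mnr ((Ph a g)⁻¹.1 * (Ph a (g * ex (s • x))).1) n) = fun _ => 1 := by
      funext s
      rw [mnr_self]
      exact ((Ph a g)⁻¹ * Ph a (g * ex (s • x))).2
    have hd' : HasDerivAt (fun _ : ℝ => (1 : ℝ))
        (∑ j : Fin n, if (j : ℕ) < n then Xq a A x g j j else 0) 0 := by
      rw [← hconst]
      exact hd
    have h8 := hd'.unique (hasDerivAt_const (0 : ℝ) (1 : ℝ))
    rw [Matrix.trace, ← h8]
    refine Finset.sum_congr rfl fun j _ => ?_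
    rw [if_pos j.2, Matrix.diag_apply]

end FL27
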