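import Pool.Agent.LibFL27.CDefs
import Pool.Agent.LibFL27.CA8

set_option autoImplicit false
set_option maxSynthPendingDepth 3

open Matrix MeasureTheory Topology Filter LibNC38
open LibNC27 hiding Mt
open scoped Matrix.Norms.Elementwise ContDiff

namespace FL27

private theorem CF3_unif {ι : Type} [Fintype ι] (P : ι → ℝ → Prop)
    (hm : ∀ i C C', C ≤ C' → 1 ≤ C → P i C → P i C') (h : ∀ i, ∃ C : ℝ, 1 ≤ C ∧ P i C) :
    ∃ C : ℝ, 1 ≤ C ∧ ∀ i, P i C := by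
  choose c hc hP using h
  refine ⟨1 + ∑ i, c i, ?_, fun i => hm i (c i) _ ?_ (hc i) (hP i)⟩
  · have h1 := Finset.sum_nonneg (s := Finset.univ) (f := c)
      fun i _ => le_trans zero_le_one (hc i)
    linarith
  · have h1 := Finset.single_le_sum (s := Finset.univ) (f := c)
      (fun i _ => le_trans zero_le_one (hc i)) (Finset.mem_univ i)
    linarith

private theorem CF3_fam {n : ℕ} {ι : Type} [Fintype ι] (E : ι → Mt n → ℝ)
    (hE : ∀ i, ContDiff ℝ ∞ (E i)) (k : ℕ) :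
    ∃ C : ℝ, 1 ≤ C ∧ ∀ i, ∀ (θ B : ℝ) (y : SL n → Mt n), 1 ≤ θ → 0 ≤ B → B ≤ 1 →
      (∀ a b, WB θ k B (fun g => y g a b)) → WB θ k (C * B) (fun g => E i (y g) - E i 0) := by
  refine CF3_unif (fun i C => ∀ (θ B : ℝ) (y : SL n → Mt n), 1 ≤ θ → 0 ≤ B → B ≤ 1 →
      (∀ a b, WB θ k B (fun g => y g a b)) → WB θ k (C * B) (fun g => E i (y g) - E i 0)) ?_ ?_
  · intro i C C' hCC hC hP θ B y hθ hB hB1 hy
    exact wb_alg.2.1 θ θ k _ _ _ (by linarith) le_rfl (mul_le_mul_of_nonneg_right hCC hB)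
      (by positivity) (hP θ B y hθ hB hB1 hy)
  · intro i
    obtain ⟨C, hC, h⟩ := wb_fun (E i) (hE i) k
    exact ⟨C, hC, fun θ B y hθ hB hB1 hy => (h θ B y hθ hB hB1 hy).1⟩

private def CF3_WM {n : ℕ} (θ : ℝ) (k : ℕ) (c : ℝ) (M : SL n → Mt n) : Prop :=
  ∀ i l, WB θ k c (fun g => M g i l)

private theorem CF3_mono {n k : ℕ} {θ c d : ℝ} (hθ : 0 ≤ θ) (hc : 0 ≤ c) (hcd : c ≤ d)
    {M : SL n → Mt n} (hM : CF3_WM θ k c M) : CF3_WM θ k d M := fun i l =>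
  wb_alg.2.1 θ θ k _ _ _ hθ le_rfl hcd hc (hM i l)

private theorem CF3_mul {n k : ℕ} {θ c d : ℝ} (hθ : 0 ≤ θ) (hc : 0 ≤ c) (hd : 0 ≤ d)
    {M N : SL n → Mt n} (hM : CF3_WM θ k c M) (hN : CF3_WM θ k d N) :
    CF3_WM θ k (n * (2 ^ k * (c * d))) (fun g => M g * N g) := by
  intro i l
  have h := wb_alg.2.2.2.2.2.2.1 θ k (2 ^ k * (c * d)) (Fin n) Finset.univ
    (fun p g => M g i p * N g p l) hθ
    (fun p _ => wb_alg.2.2.2.2.2.1 θ k c d _ _ hθ hc hd (hM i p) (hN p l))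
  simpa [Matrix.mul_apply] using h

private theorem CF3_add {n k : ℕ} {θ c d : ℝ}
    {M N : SL n → Mt n} (hM : CF3_WM θ k c M) (hN : CF3_WM θ k d N) :
    CF3_WM θ k (c + d) (fun g => M g + N g) := by
  intro i l
  simpa using wb_alg.2.2.2.1 θ k c d _ _ (hM i l) (hN i l)

private theorem CF3_const {n k : ℕ} {θ : ℝ} (hθ : 0 ≤ θ) {x : Mt n} (hx : ∀ a b, |x a b| ≤ 1) :
    CF3_WM θ k 1 (fun _ : SL n => x) := by
  intro i l
  exact wb_alg.2.1 θ θ k _ _ _ hθ le_rfl (hx i l) (abs_nonneg _) (wb_alg.2.2.1 θ k (x i l) hθ)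

private theorem CF3_T1one {n : ℕ} : ∀ a b, |(1 : Mt n) a b| ≤ 1 := by
  intro a b
  by_cases h : a = b
  · subst h; simp
  · simp [Matrix.one_apply_ne h]

private theorem CF3_lin {n : ℕ} (L : Mt n →L[ℝ] Mt n) (H : Mt n) (i l : Fin n) :
    L H i l = ∑ r, ∑ s, L (Matrix.single r s 1) i l * H r s := by
  have h1 : H = ∑ r, ∑ s, (H r s) • (Matrix.single r s 1 : Mt n) := by
    conv_lhs => rw [Matrix.matrix_eq_sum_single H]
    refine Finset.sum_congr rfl fun r _ => Finset.sum_congr rfl fun s _ => ?_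
    rw [Matrix.smul_single, smul_eq_mul, mul_one]
  conv_lhs => rw [h1]
  rw [map_sum, Matrix.sum_apply]
  refine Finset.sum_congr rfl fun r _ => ?_
  rw [map_sum, Matrix.sum_apply]
  refine Finset.sum_congr rfl fun s _ => ?_
  rw [map_smul, Matrix.smul_apply, smul_eq_mul, mul_comm]

private theorem CF3_ent {n : ℕ} {f : Mt n → Mt n} (hf : ContDiff ℝ ∞ f) (i l : Fin n) :
    ContDiff ℝ ∞ (fun y => f y i l) :=
  (LinearMap.toContinuousLinearMap (Matrix.entryLinearMap ℝ ℝ i l)).contDiff.comp hf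

private theorem CF3_main {n : ℕ} (k : ℕ) : ∃ C : ℝ, 1 ≤ C ∧ ∀ (a : SL n → Mt n)
    (A : Mt n → SL n → Mt n)
    (θ β β' : ℝ), 1 ≤ θ → 0 ≤ β → β ≤ 1 → 0 ≤ β' → β' ≤ 1 → (∀ i l, WB θ k β (fun g => a g i l)) →
    (∀ x : Mt n, T1 x → ∀ i l, WB θ k β' (fun g => A x g i l)) →
    ∀ x : Mt n, T1 x → CF3_WM θ k (C * (β + β')) (fun g => Xq a A x g - x) := by
  have hexp : ContDiff ℝ ∞ (fun B : Mt n => NormedSpace.exp B) := exp_smoothm
  have hsm : ∀ r : ℝ, ContDiff ℝ ∞ (fun y : Mt n => r • y) := fun r => contDiff_id.const_smul r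
  have h1 : ContDiff ℝ ∞ (fun y : Mt n => NormedSpace.exp ((1 / 2 : ℝ) • y)) := hexp.comp (hsm _)
  have h2 : ContDiff ℝ ∞ (fun y : Mt n => NormedSpace.exp (-((1 / 2 : ℝ) • y))) :=
    hexp.comp (hsm _).neg
  have h3 : ∀ H : Mt n, ContDiff ℝ ∞ (fun y : Mt n =>
      fderiv ℝ (fun B : Mt n => NormedSpace.exp B) (-((1 / 2 : ℝ) • y)) H) := by
    intro H
    exact ContDiff.fderiv_apply (n := ∞) (f := fun (_ : Mt n) (B : Mt n) => NormedSpace.exp B)
      (g := fun y : Mt n => -((1 / 2 : ℝ) • y)) (k := fun _ => H)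
      (hexp.comp contDiff_snd) (hsm _).neg contDiff_const (by simp)
  obtain ⟨C1, hC1, H1⟩ := CF3_fam (fun (p : Fin n × Fin n) (y : Mt n) =>
    NormedSpace.exp ((1 / 2 : ℝ) • y) p.1 p.2) (fun p => CF3_ent h1 p.1 p.2) k
  obtain ⟨C2, hC2, H2⟩ := CF3_fam (fun (p : Fin n × Fin n) (y : Mt n) =>
    NormedSpace.exp (-((1 / 2 : ℝ) • y)) p.1 p.2) (fun p => CF3_ent h2 p.1 p.2) k
  obtain ⟨C3, hC3, H3⟩ := CF3_fam (fun (p : (Fin n × Fin n) × (Fin n × Fin n)) (y : Mt n) =>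
    fderiv ℝ (fun B : Mt n => NormedSpace.exp B) (-((1 / 2 : ℝ) • y))
      (Matrix.single p.1.1 p.1.2 1) p.2.1 p.2.2) (fun p => CF3_ent (h3 _) p.2.1 p.2.2) k
  obtain ⟨c0, hc0, H0⟩ := CF3_unif (fun (p : (Fin n × Fin n) × (Fin n × Fin n)) (C : ℝ) =>
    |fderiv ℝ (fun B : Mt n => NormedSpace.exp B) (-((1 / 2 : ℝ) • (0 : Mt n)))
      (Matrix.single p.1.1 p.1.2 1) p.2.1 p.2.2| ≤ C) (fun _ _ _ h _ h' => h'.trans h)
    (fun p => ⟨max 1 _, le_max_left _ _, le_max_right _ _⟩)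
  have hn : (0 : ℝ) ≤ n := Nat.cast_nonneg n
  have hk : (0 : ℝ) < 2 ^ k := by positivity
  set CD : ℝ := n * (n * (2 ^ k * (C3 + c0))) with hCD
  set CX : ℝ := n * (2 ^ k * (C2 + 1)) with hCX
  have hCD0 : 0 ≤ CD := by positivity
  have hCX0 : 0 ≤ CX := by positivity
  refine ⟨1 + n * (2 ^ k * (C1 * (CX + CD))) + n * (2 ^ k * C2) + CD, ?_, ?_⟩
  · have : 0 ≤ (n : ℝ) * (2 ^ k * (C1 * (CX + CD))) := by positivity
    have : 0 ≤ (n : ℝ) * (2 ^ k * C2) := by positivity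
    linarith
  intro a A θ β β' hθ hβ hβ1 hβ' hβ'1 ha hA x hx
  have hθ0 : 0 ≤ θ := by linarith
  have e0 : NormedSpace.exp ((1 / 2 : ℝ) • (0 : Mt n)) = 1 := by
    rw [smul_zero]; exact NormedSpace.exp_zero
  have e1 : NormedSpace.exp (-((1 / 2 : ℝ) • (0 : Mt n))) = 1 := by
    rw [smul_zero, neg_zero]; exact NormedSpace.exp_zero
  have U1 : CF3_WM θ k (C1 * β) (fun g => NormedSpace.exp ((1 / 2 : ℝ) • a g) - 1) := by
    intro i l
    have h := H1 (i, l) θ β a hθ hβ hβ1 ha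
    simp only [e0] at h
    simpa using h
  have W1 : CF3_WM θ k (C2 * β) (fun g => NormedSpace.exp (-((1 / 2 : ℝ) • a g)) - 1) := by
    intro i l
    have h := H2 (i, l) θ β a hθ hβ hβ1 ha
    simp only [e1] at h
    simpa using h
  have W2 : CF3_WM θ k (C2 + 1) (fun g => NormedSpace.exp (-((1 / 2 : ℝ) • a g))) := by
    have h := CF3_add (CF3_mono hθ0 (by positivity) (by nlinarith : C2 * β ≤ C2) W1)
      (CF3_const (k := k) hθ0 (CF3_T1one (n := n)))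
    simpa using h
  have D1 : CF3_WM θ k (CD * β') (fun g => fderiv ℝ (fun B : Mt n => NormedSpace.exp B)
      (-((1 / 2 : ℝ) • a g)) (-((1 / 2 : ℝ) • A x g))) := by
    intro i l
    have hE : ∀ r s, WB θ k (C3 + c0) (fun g => fderiv ℝ (fun B : Mt n => NormedSpace.exp B)
        (-((1 / 2 : ℝ) • a g)) (Matrix.single r s 1) i l) := by
      intro r s
      have h := H3 ((r, s), (i, l)) θ β a hθ hβ hβ1 ha
      have h' := wb_alg.2.1 θ θ k (C3 * β) C3 _ hθ0 le_rfl (by nlinarith) (by positivity) h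
      have h2 := (wb_alg (n := n)).2.2.1 θ k (fderiv ℝ (fun B : Mt n => NormedSpace.exp B)
        (-((1 / 2 : ℝ) • (0 : Mt n))) (Matrix.single r s 1) i l) hθ0
      have h3 := wb_alg.2.1 θ θ k _ c0 _ hθ0 le_rfl (H0 ((r, s), (i, l))) (abs_nonneg _) h2
      have h4 := wb_alg.2.2.2.1 θ k _ _ _ _ h' h3
      simpa using h4
    have hA' : ∀ r s, WB θ k β' (fun g => -(1 / 2 : ℝ) * A x g r s) := by
      intro r s
      refine wb_alg.2.1 θ θ k _ β' _ hθ0 le_rfl ?_ (by positivity)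
        (wb_alg.2.2.2.2.1 θ k β' (-(1 / 2 : ℝ)) _ (hA x hx r s))
      rw [abs_neg, abs_of_pos (by norm_num : (0 : ℝ) < 1 / 2)]
      linarith
    have hP : ∀ r s, WB θ k (2 ^ k * ((C3 + c0) * β')) (fun g =>
        fderiv ℝ (fun B : Mt n => NormedSpace.exp B)
          (-((1 / 2 : ℝ) • a g)) (Matrix.single r s 1) i l * (-(1 / 2 : ℝ) * A x g r s)) :=
      fun r s => wb_alg.2.2.2.2.2.1 θ k _ _ _ _ hθ0 (by positivity) hβ' (hE r s) (hA' r s)
    have hS : ∀ r, WB θ k ((Finset.univ : Finset (Fin n)).card * (2 ^ k * ((C3 + c0) * β')))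
        (fun g => ∑ s, fderiv ℝ (fun B : Mt n => NormedSpace.exp B)
          (-((1 / 2 : ℝ) • a g)) (Matrix.single r s 1) i l * (-(1 / 2 : ℝ) * A x g r s)) :=
      fun r => wb_alg.2.2.2.2.2.2.1 θ k _ (Fin n) Finset.univ _ hθ0 (fun s _ => hP r s)
    have hT := wb_alg.2.2.2.2.2.2.1 θ k _ (Fin n) Finset.univ _ hθ0 (fun r _ => hS r)
    have hv : ((Finset.univ : Finset (Fin n)).card : ℝ) *
        ((Finset.univ : Finset (Fin n)).card * (2 ^ k * ((C3 + c0) * β'))) = CD * β' := by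
      rw [Finset.card_univ, Fintype.card_fin, hCD]; ring
    rw [hv] at hT
    have hf : (fun g => fderiv ℝ (fun B : Mt n => NormedSpace.exp B)
        (-((1 / 2 : ℝ) • a g)) (-((1 / 2 : ℝ) • A x g)) i l) = fun g => ∑ r, ∑ s,
        fderiv ℝ (fun B : Mt n => NormedSpace.exp B)
          (-((1 / 2 : ℝ) • a g)) (Matrix.single r s 1) i l * (-(1 / 2 : ℝ) * A x g r s) := by
      funext g
      rw [CF3_lin]
      refine Finset.sum_congr rfl fun r _ => Finset.sum_congr rfl fun s _ => ?_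
      rw [Matrix.neg_apply, Matrix.smul_apply, smul_eq_mul]; ring
    rw [hf]
    exact hT
  have D2 : CF3_WM θ k CD (fun g => fderiv ℝ (fun B : Mt n => NormedSpace.exp B)
      (-((1 / 2 : ℝ) • a g)) (-((1 / 2 : ℝ) • A x g))) :=
    CF3_mono hθ0 (by positivity) (by nlinarith) D1
  have xc : CF3_WM θ k 1 (fun _ : SL n => x) := CF3_const hθ0 hx.2
  have XW := CF3_mul hθ0 zero_le_one (by linarith : 0 ≤ C2 + 1) xc W2
  have XWD := CF3_add XW D2
  have T1' := CF3_mul hθ0 (by positivity) (by positivity) U1 XWD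
  have T2' := CF3_mul hθ0 zero_le_one (by positivity) xc W1
  have T3' := CF3_add (CF3_add T1' T2') D1
  have hfun : (fun g => Xq a A x g - x) = fun g =>
      (NormedSpace.exp ((1 / 2 : ℝ) • a g) - 1) * (x * NormedSpace.exp (-((1 / 2 : ℝ) • a g)) +
        fderiv ℝ (fun B : Mt n => NormedSpace.exp B)
      (-((1 / 2 : ℝ) • a g)) (-((1 / 2 : ℝ) • A x g))) +
      x * (NormedSpace.exp (-((1 / 2 : ℝ) • a g)) - 1) +
      fderiv ℝ (fun B : Mt n => NormedSpace.exp B)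
      (-((1 / 2 : ℝ) • a g)) (-((1 / 2 : ℝ) • A x g)) := by
    funext g
    simp only [Xq]
    noncomm_ring
  rw [hfun]
  refine CF3_mono hθ0 (by positivity) ?_ T3'
  have q1 : 0 ≤ (n : ℝ) * (2 ^ k * (C1 * (CX + CD))) := by positivity
  have q2 : 0 ≤ (n : ℝ) * (2 ^ k * C2) := by positivity
  have q3 : n * (2 ^ k * (1 * (C2 + 1))) = CX := by rw [hCX]; ring
  rw [q3]
  nlinarith [mul_nonneg q1 hβ', mul_nonneg q2 hβ', mul_nonneg hCD0 hβ]

/-- Row CF3. Bounds of the logarithmic derivative. PLAN. Entries of `Xq` are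
`∑ E1_ip(a) (x_pq E2_ql(a) + ∑_rs (∂_rs-derivative of the entries of exp at -a/2)(-(A x)_rs/2))` with smooth functions of `a` (entries
of `exp(a/2)`, `exp(-a/2)` and of the differential of `exp`; `LibNC38.exp_smoothm`), `wb_fun` and `wb_alg`. -/
theorem xq_wb {n : ℕ} (k : ℕ) : ∃ C : ℝ, 1 ≤ C ∧ ∀ (a : SL n → Mt n) (A : Mt n → SL n → Mt n)
    (θ β β' : ℝ), 1 ≤ θ → 0 ≤ β → β ≤ 1 → 0 ≤ β' → β' ≤ 1 → (∀ i l, WB θ k β (fun g => a g i l)) →
    (∀ x : Mt n, T1 x → ∀ i l, WB θ k β' (fun g => A x g i l)) →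
    (∀ x : Mt n, T1 x → ∀ i l, WB θ k C (fun g => Xq a A x g i l)) ∧
    ∀ v : Mt n, Sym0 v → Bx v → ∀ i l, WB θ k (C * (β + β')) (fun g => Vq a A v g i l - v i l) := by
  obtain ⟨C, hC, h⟩ := CF3_main (n := n) k
  refine ⟨2 * C + 1, by linarith, fun a A θ β β' hθ hβ hβ1 hβ' hβ'1 ha hA => ⟨?_, ?_⟩⟩
  · intro x hx i l
    have hθ0 : 0 ≤ θ := by linarith
    have h1 := h a A θ β β' hθ hβ hβ1 hβ' hβ'1 ha hA x hx
    have h2 := CF3_add h1 (CF3_const (k := k) hθ0 hx.2)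
    have h3 := CF3_mono hθ0 (by positivity)
      (by nlinarith : C * (β + β') + 1 ≤ 2 * C + 1) h2 i l
    simpa using h3
  · intro v hv hb i l
    have hθ0 : 0 ≤ θ := by linarith
    have hT : T1 ((1 / 2 : ℝ) • v) := by
      refine ⟨?_, fun a b => ?_⟩
      · rw [Matrix.trace_smul, hv.2, smul_zero]
      · rw [Matrix.smul_apply, smul_eq_mul, abs_mul, abs_of_pos (by norm_num : (0 : ℝ) < 1 / 2)]
        have := hb a b
        linarith
    have h1 := h a A θ β β' hθ hβ hβ1 hβ' hβ'1 ha hA _ hT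
    have h2 := wb_alg.2.2.2.1 θ k _ _ _ _ (h1 i l) (h1 l i)
    have h3 := wb_alg.2.1 θ θ k _ ((2 * C + 1) * (β + β')) _ hθ0 le_rfl (by nlinarith)
      (by positivity) h2
    have hvv : v l i = v i l := by
      have := congrFun (congrFun hv.1 i) l
      simpa [Matrix.transpose_apply] using this
    have hf : (fun g => Vq a A v g i l - v i l) = fun g =>
        (Xq a A ((1 / 2 : ℝ) • v) g - (1 / 2 : ℝ) • v) i l +
        (Xq a A ((1 / 2 : ℝ) • v) g - (1 / 2 : ℝ) • v) l i := by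
      funext g
      simp only [Vq, Matrix.add_apply, Matrix.sub_apply, Matrix.transpose_apply,
        Matrix.smul_apply, smul_eq_mul, hvv]
      ring
    rw [hf]
    exact h3

end FL27
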