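import Pool.Agent.LibFL27.CDefs
import Pool.Agent.LibFL27.CA0

set_option autoImplicit false
set_option maxSynthPendingDepth 3

open Topology in
private theorem FL27.CF4_gen {𝔸 : Type*} [NormedRing 𝔸] [NormedAlgebra ℝ 𝔸] [FiniteDimensional ℝ 𝔸]
    (r : ℝ) :
    ∃ M : ℝ, 0 ≤ M ∧ ∀ a : 𝔸, ‖a‖ ≤ r →
      ‖NormedSpace.exp a - 1 - a‖ ≤ M * ‖a‖ ^ 2 ∧
      ∀ b : 𝔸, ‖fderiv ℝ (fun B : 𝔸 => NormedSpace.exp B) a b - b‖ ≤ M * ‖a‖ * ‖b‖ := by
  have : CompleteSpace 𝔸 := FiniteDimensional.complete ℝ 𝔸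
  have : ProperSpace 𝔸 := FiniteDimensional.proper ℝ 𝔸
  have hs : ContDiff ℝ 2 (fun B : 𝔸 => NormedSpace.exp B) := by
    rw [contDiff_iff_contDiffAt]
    intro x
    exact (NormedSpace.exp_analytic (𝕂 := ℝ) x).contDiffAt
  have hf1 : ContDiff ℝ 1 (fderiv ℝ (fun B : 𝔸 => NormedSpace.exp B)) :=
    hs.fderiv_right (by norm_num)
  have h0 : fderiv ℝ (fun B : 𝔸 => NormedSpace.exp B) 0 = ContinuousLinearMap.id ℝ 𝔸 := by
    have := (hasFDerivAt_exp_zero (𝕂 := ℝ) (𝔸 := 𝔸)).fderiv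
    exact this
  have hc : IsCompact (Metric.closedBall (0 : 𝔸) r) := isCompact_closedBall _ _
  obtain ⟨M, hM⟩ := hc.exists_bound_of_continuousOn
    (f := fun x => fderiv ℝ (fderiv ℝ (fun B : 𝔸 => NormedSpace.exp B)) x)
    (hf1.continuous_fderiv (by norm_num)).continuousOn
  refine ⟨max M 0, le_max_right _ _, ?_⟩
  intro a ha
  have hseg : ∀ y ∈ Metric.closedBall (0 : 𝔸) ‖a‖, ‖fderiv ℝ (fun B : 𝔸 => NormedSpace.exp B) y -
      ContinuousLinearMap.id ℝ 𝔸‖ ≤ max M 0 * ‖y‖ := by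
    intro y hy
    have := (convex_closedBall (0 : 𝔸) r).norm_image_sub_le_of_norm_fderiv_le
      (f := fderiv ℝ (fun B : 𝔸 => NormedSpace.exp B)) (C := max M 0) (x := 0) (y := y)
      (fun x _ => (hf1.differentiable (by norm_num)) x)
      (fun x hx => (hM x hx).trans (le_max_left _ _))
      (by simp; exact (norm_nonneg _).trans ha)
      (by rw [mem_closedBall_zero_iff] at hy ⊢; exact hy.trans ha)
    rwa [h0, sub_zero] at this
  constructor
  · have := (convex_closedBall (0 : 𝔸) ‖a‖).norm_image_sub_le_of_norm_hasFDerivWithin_le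
      (f := fun y : 𝔸 => NormedSpace.exp y - y) (C := max M 0 * ‖a‖) (x := 0) (y := a)
      (f' := fun y => fderiv ℝ (fun B : 𝔸 => NormedSpace.exp B) y - ContinuousLinearMap.id ℝ 𝔸)
      (fun x _ => (((hs.differentiable (by norm_num)) x).hasFDerivAt.sub
        (hasFDerivAt_id x)).hasFDerivWithinAt)
      (fun x hx => (hseg x hx).trans
        (mul_le_mul_of_nonneg_left (mem_closedBall_zero_iff.1 hx) (le_max_right _ _)))
      (by simp) (by simp)
    have h2 : NormedSpace.exp a - a - (NormedSpace.exp (0 : 𝔸) - 0) = NormedSpace.exp a - 1 - a := by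
      rw [NormedSpace.exp_zero]; abel
    rw [h2, sub_zero] at this
    calc _ ≤ _ := this
      _ = _ := by ring
  · intro b
    have h1 := hseg a (by simp)
    have h2 := (fderiv ℝ (fun B : 𝔸 => NormedSpace.exp B) a - ContinuousLinearMap.id ℝ 𝔸).le_opNorm b
    simp only [sub_apply, ContinuousLinearMap.id_apply] at h2
    exact h2.trans (mul_le_mul_of_nonneg_right h1 (norm_nonneg _))

section
open Topology Matrix
open scoped Matrix.Norms.Operator

private theorem FL27.CF4_entry {n : ℕ} (A : Matrix (Fin n) (Fin n) ℝ) (i j : Fin n) :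
    |A i j| ≤ ‖A‖ := by
  have h1 : ‖A i j‖₊ ≤ ‖A‖₊ := by
    rw [Matrix.linfty_opNNNorm_def]
    exact (Finset.single_le_sum (f := fun k => ‖A i k‖₊) (fun _ _ => bot_le)
      (Finset.mem_univ j)).trans
      (Finset.le_sup (f := fun i => ∑ k, ‖A i k‖₊) (Finset.mem_univ i))
  have h2 : ‖A i j‖ ≤ ‖A‖ := by exact_mod_cast h1
  simpa using h2

private theorem FL27.CF4_norm {n : ℕ} (A : Matrix (Fin n) (Fin n) ℝ) (β : ℝ) (h0 : 0 ≤ β)
    (h : ∀ i j, |A i j| ≤ β) : ‖A‖ ≤ n * β := by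
  have h1 : ‖A‖₊ ≤ n * Real.toNNReal β := by
    rw [Matrix.linfty_opNNNorm_def]
    refine Finset.sup_le fun i _ => ?_
    calc ∑ k, ‖A i k‖₊ ≤ ∑ k : Fin n, Real.toNNReal β :=
          Finset.sum_le_sum fun k _ => by
            rw [← NNReal.coe_le_coe, Real.coe_toNNReal β h0]; simpa using h i k
      _ = _ := by simp
  have h2 : ‖A‖ ≤ n * (Real.toNNReal β : ℝ) := by exact_mod_cast h1
  rwa [Real.coe_toNNReal β h0] at h2

private theorem FL27.CF4_expE {n : ℕ} : ∃ M : ℝ, 1 ≤ M ∧ ∀ (a : Matrix (Fin n) (Fin n) ℝ) (β : ℝ),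
    0 ≤ β → β ≤ 1 →
    (∀ i j, |a i j| ≤ β) → (∀ i j, |(NormedSpace.exp a - 1 - a) i j| ≤ M * β ^ 2) ∧
    ∀ (b : Matrix (Fin n) (Fin n) ℝ) (γ : ℝ), 0 ≤ γ → (∀ i j, |b i j| ≤ γ) →
      ∀ i j, |(fderiv ℝ (fun B : Matrix (Fin n) (Fin n) ℝ => NormedSpace.exp B) a b - b) i j| ≤
        M * β * γ := by
  obtain ⟨M, hM0, hM⟩ := FL27.CF4_gen (𝔸 := Matrix (Fin n) (Fin n) ℝ) (n : ℝ)
  refine ⟨M * n ^ 2 + 1, by nlinarith [mul_nonneg hM0 (sq_nonneg (n : ℝ))], ?_⟩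
  intro a β h0 h1 ha
  have hn : (0 : ℝ) ≤ n := Nat.cast_nonneg n
  have hna : ‖a‖ ≤ n * β := FL27.CF4_norm a β h0 ha
  have hna1 : ‖a‖ ≤ n := hna.trans (by nlinarith)
  obtain ⟨h2, h3⟩ := hM a hna1
  constructor
  · intro i j
    refine (FL27.CF4_entry _ i j).trans (h2.trans ?_)
    have h4 : ‖a‖ ^ 2 ≤ (n * β) ^ 2 := pow_le_pow_left₀ (norm_nonneg _) hna 2
    nlinarith [mul_le_mul_of_nonneg_left h4 hM0, sq_nonneg β]
  · intro b γ hg hb i j
    have hnb : ‖b‖ ≤ n * γ := FL27.CF4_norm b γ hg hb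
    refine (FL27.CF4_entry _ i j).trans ((h3 b).trans ?_)
    have h5 : ‖a‖ * ‖b‖ ≤ (n * β) * (n * γ) := mul_le_mul hna hnb (norm_nonneg _) (by positivity)
    nlinarith [mul_le_mul_of_nonneg_left h5 hM0, mul_nonneg h0 hg]

end

open Matrix MeasureTheory Topology Filter LibNC38
open LibNC27 hiding Mt
open scoped Matrix.Norms.Elementwise ContDiff

namespace FL27

private theorem CF4_mul {n : ℕ} (P Q : Mt n) (p q : ℝ) (hp : ∀ i j, |P i j| ≤ p)
    (hq : ∀ i j, |Q i j| ≤ q) : ∀ i j, |(P * Q) i j| ≤ n * (p * q) := by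
  intro i j
  rw [Matrix.mul_apply]
  refine (Finset.abs_sum_le_sum_abs _ _).trans ?_
  calc ∑ k, |P i k * Q k j| ≤ ∑ k : Fin n, p * q := Finset.sum_le_sum fun k _ => by
        rw [abs_mul]
        exact mul_le_mul (hp i k) (hq k j) (abs_nonneg _) ((abs_nonneg _).trans (hp i k))
    _ = _ := by simp

/-- remainder of `X` -/
private theorem CF4_X {n : ℕ} : ∃ C : ℝ, 1 ≤ C ∧ ∀ (b h x : Mt n) (β : ℝ), 0 ≤ β → β ≤ 1 →
    (∀ i l, |b i l| ≤ β) → (∀ i l, |h i l| ≤ β) → (∀ i l, |x i l| ≤ 1) → ∀ i l,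
    |(NormedSpace.exp b * (x * NormedSpace.exp (-b) +
      fderiv ℝ (fun B : Mt n => NormedSpace.exp B) (-b) (-h)) -
      (x + (b * x - x * b) - h)) i l| ≤ C * β ^ 2 := by
  obtain ⟨M, hM1, hM⟩ := FL27.CF4_expE (n := n)
  have hn : (0 : ℝ) ≤ n := Nat.cast_nonneg n
  have hM0 : (0 : ℝ) ≤ M := zero_le_one.trans hM1
  refine ⟨n * M + M + n ^ 2 + n ^ 2 * M + n * (1 + M) + n * (M * (n * (2 + M) + (1 + M))), ?_, ?_⟩
  · have h1 : 0 ≤ n * M := mul_nonneg hn hM0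
    have h2 : 0 ≤ (n : ℝ) ^ 2 := sq_nonneg _
    have h3 : 0 ≤ (n : ℝ) ^ 2 * M := mul_nonneg h2 hM0
    have h4 : 0 ≤ n * (1 + M) := by positivity
    have h5 : 0 ≤ n * (M * (n * (2 + M) + (1 + M))) := by positivity
    linarith
  intro b h x β hβ0 hβ1 hb hh hx i l
  obtain ⟨hRp, -⟩ := hM b β hβ0 hβ1 hb
  have hnb : ∀ i j, |(-b) i j| ≤ β := fun i j => by simpa using hb i j
  have hnh : ∀ i j, |(-h) i j| ≤ β := fun i j => by simpa using hh i j
  obtain ⟨hRm, hD⟩ := hM (-b) β hβ0 hβ1 hnb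
  have hS := hD (-h) β hβ0 hnh
  have hβ2 : β ^ 2 ≤ β := by nlinarith
  set P : Mt n := NormedSpace.exp b with hP
  set Q : Mt n := NormedSpace.exp (-b) with hQ
  set D : Mt n := fderiv ℝ (fun B : Mt n => NormedSpace.exp B) (-b) (-h) with hDd
  clear_value P Q D
  set Rp : Mt n := P - 1 - b with hRpd
  set Rm : Mt n := Q - 1 - (-b) with hRmd
  set S : Mt n := D - (-h) with hSd
  have eP : P = 1 + b + Rp := by rw [hRpd]; abel
  have eQ : Q = 1 - b + Rm := by rw [hRmd]; abel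
  have eD : D = -h + S := by rw [hSd]; abel
  have key : P * (x * Q + D) - (x + (b * x - x * b) - h) =
      x * Rm + S - b * x * b + b * x * Rm + b * D + Rp * (x * Q + D) := by
    rw [eP, eQ, eD]; noncomm_ring
  have hbD : ∀ i j, |D i j| ≤ (1 + M) * β := by
    intro i j
    have e1 : D i j = (-h) i j + S i j := by rw [eD]; simp
    rw [e1]
    refine (abs_add_le _ _).trans ?_
    have := hS i j
    have := hnh i j
    nlinarith
  have hbQ : ∀ i j, |Q i j| ≤ 2 + M := by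
    intro i j
    have e1 : Q i j = (1 : Mt n) i j + (-b) i j + Rm i j := by rw [eQ]; simp; ring
    rw [e1]
    have h1 : |(1 : Mt n) i j| ≤ 1 := by
      rw [Matrix.one_apply]; split_ifs <;> simp
    have h2 := hRm i j
    have h3 := hnb i j
    refine (abs_add_three _ _ _).trans ?_
    nlinarith
  have t1 := CF4_mul x Rm 1 (M * β ^ 2) hx hRm i l
  have t2 := hS i l
  have bx := CF4_mul b x β 1 hb hx
  have t3 := CF4_mul (b * x) b _ β bx hb i l
  have t4 := CF4_mul (b * x) Rm _ (M * β ^ 2) bx hRm i l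
  have t5 := CF4_mul b D β _ hb hbD i l
  have xQ := CF4_mul x Q 1 _ hx hbQ
  have xQD : ∀ i j, |(x * Q + D) i j| ≤ n * (1 * (2 + M)) + (1 + M) := by
    intro i j
    rw [Matrix.add_apply]
    refine (abs_add_le _ _).trans ?_
    have h1 := xQ i j
    have h2 := hbD i j
    nlinarith
  have t6 := CF4_mul Rp (x * Q + D) (M * β ^ 2) _ hRp xQD i l
  rw [key]
  have e2 : (x * Rm + S - b * x * b + b * x * Rm + b * D + Rp * (x * Q + D)) i l =
      (x * Rm) i l + S i l - (b * x * b) i l + (b * x * Rm) i l + (b * D) i l +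
        (Rp * (x * Q + D)) i l := rfl
  rw [e2]
  have t4' : n * (n * (β * 1) * (M * β ^ 2)) ≤ n ^ 2 * M * β ^ 2 := by
    have h7 : 0 ≤ (n : ℝ) ^ 2 * M * β ^ 2 := by positivity
    nlinarith
  rw [abs_le] at *
  constructor <;> nlinarith [t1.1, t1.2]

/-- Row CF4. First order expansion of the differential of the gauge map. PLAN. All matrices with entries `≤ 1`;
`exp(±a/2) = 1 ± a/2 + O(β²)`, `D exp(-a/2) H = H + O(β |H|)` (Taylor on a compact set, `exp` smooth):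
`X_x = x + [a, x]/2 - (A x)/2 + O(β²)` for `x = v/2`; `X + Xᵀ`: the commutator term of symmetric matrices cancels, and
`A x` is symmetric (`hs`). -/
theorem vq_exp {n : ℕ} : ∃ C : ℝ, 1 ≤ C ∧ ∀ (a : SL n → Mt n) (A : Mt n → SL n → Mt n) (β : ℝ),
    0 ≤ β → β ≤ 1 → (∀ g, Sym0 (a g)) → (∀ (x : Mt n) (g : SL n), T1 x → Sym0 (A x g)) →
    (∀ g i l, |a g i l| ≤ β) → (∀ x : Mt n, T1 x → ∀ g i l, |A x g i l| ≤ β) →
    ∀ v : Mt n, Sym0 v → Bx v → ∀ g i l,
      |Vq a A v g i l - (v i l - A ((1 / 2 : ℝ) • v) g i l)| ≤ C * β ^ 2 := by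
  obtain ⟨C, hC1, hC⟩ := CF4_X (n := n)
  refine ⟨2 * C, by linarith, ?_⟩
  intro a A β hβ0 hβ1 ha hA hab hAb v hv hvb g i l
  have hx1 : T1 ((1 / 2 : ℝ) • v) := by
    refine ⟨?_, fun p q => ?_⟩
    · rw [Matrix.trace_smul, hv.2, smul_zero]
    · rw [Matrix.smul_apply, smul_eq_mul, abs_mul]
      have := hvb p q
      rw [abs_of_pos (by norm_num : (0 : ℝ) < 1 / 2)]
      linarith [abs_nonneg (v p q)]
  have hb : ∀ p q, |((1 / 2 : ℝ) • a g) p q| ≤ β := by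
    intro p q
    rw [Matrix.smul_apply, smul_eq_mul, abs_mul, abs_of_pos (by norm_num : (0 : ℝ) < 1 / 2)]
    have := hab g p q
    linarith [abs_nonneg (a g p q)]
  have hh : ∀ p q, |((1 / 2 : ℝ) • A ((1 / 2 : ℝ) • v) g) p q| ≤ β := by
    intro p q
    rw [Matrix.smul_apply, smul_eq_mul, abs_mul, abs_of_pos (by norm_num : (0 : ℝ) < 1 / 2)]
    have := hAb _ hx1 g p q
    linarith [abs_nonneg (A ((1 / 2 : ℝ) • v) g p q)]
  have hX := hC ((1 / 2 : ℝ) • a g) ((1 / 2 : ℝ) • A ((1 / 2 : ℝ) • v) g) ((1 / 2 : ℝ) • v) β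
    hβ0 hβ1 hb hh hx1.2
  have h1 := hX i l
  have h2 := hX l i
  have sv : v l i = v i l := by
    have := congrFun (congrFun hv.1 i) l
    simpa [Matrix.transpose_apply] using this
  have hAs : (A ((1 / 2 : ℝ) • v) g) l i = (A ((1 / 2 : ℝ) • v) g) i l := by
    have := congrFun (congrFun (hA _ g hx1).1 i) l
    simpa [Matrix.transpose_apply] using this
  have hcom : (((1 / 2 : ℝ) • a g) * ((1 / 2 : ℝ) • v) - ((1 / 2 : ℝ) • v) * ((1 / 2 : ℝ) • a g)) l i =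
      -(((1 / 2 : ℝ) • a g) * ((1 / 2 : ℝ) • v) - ((1 / 2 : ℝ) • v) * ((1 / 2 : ℝ) • a g)) i l := by
    have e1 : ((((1 / 2 : ℝ) • a g) * ((1 / 2 : ℝ) • v) -
        ((1 / 2 : ℝ) • v) * ((1 / 2 : ℝ) • a g)))ᵀ =
        -(((1 / 2 : ℝ) • a g) * ((1 / 2 : ℝ) • v) - ((1 / 2 : ℝ) • v) * ((1 / 2 : ℝ) • a g)) := by
      rw [Matrix.transpose_sub, Matrix.transpose_mul, Matrix.transpose_mul, Matrix.transpose_smul,
        Matrix.transpose_smul, hv.1, (ha g).1, neg_sub]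
    have := congrFun (congrFun e1 i) l
    simpa only [Matrix.transpose_apply, Matrix.neg_apply] using this
  have e3 : Vq a A v g i l = Xq a A ((1 / 2 : ℝ) • v) g i l + Xq a A ((1 / 2 : ℝ) • v) g l i := rfl
  rw [Matrix.sub_apply, Matrix.sub_apply, Matrix.add_apply] at h1 h2
  rw [hcom] at h2
  simp only [Matrix.smul_apply, smul_eq_mul] at h1 h2
  rw [sv, hAs] at h2
  rw [e3]
  have e4 : (NormedSpace.exp ((1 / 2 : ℝ) • a g) * (((1 / 2 : ℝ) • v) *
      NormedSpace.exp (-((1 / 2 : ℝ) • a g)) +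
      fderiv ℝ (fun B : Mt n => NormedSpace.exp B) (-((1 / 2 : ℝ) • a g))
        (-((1 / 2 : ℝ) • A ((1 / 2 : ℝ) • v) g)))) = Xq a A ((1 / 2 : ℝ) • v) g := rfl
  rw [e4] at h1 h2
  rw [abs_le] at h1 h2 ⊢
  constructor <;> linarith [h1.1, h1.2, h2.1, h2.2]

end FL27
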