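import Pool.Agent.LibFL27.CDefs
import Pool.Agent.LibFL27.CF2
import Pool.Agent.LibFL27.CF3
import Pool.Agent.LibFL27.CA7
import Pool.Agent.LibFL27.CC3

set_option autoImplicit false
set_option maxSynthPendingDepth 3

open Matrix MeasureTheory Topology Filter LibNC38
open LibNC27 hiding Mt
open scoped Matrix.Norms.Elementwise ContDiff

namespace FL27

private theorem CF5_tr {n : ℕ} (A B v w : Mt n) :
    (A * B).trace = (∑ i, ∑ l, ((A i l - v i l) * B l i + v i l * (B l i - w l i))) +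
      (v * w).trace := by
  have h1 : ∀ P Q : Mt n, (P * Q).trace = ∑ i, ∑ l, P i l * Q l i := by
    intro P Q
    simp only [Matrix.trace, Matrix.diag_apply, Matrix.mul_apply]
  rw [h1, h1, ← Finset.sum_add_distrib]
  refine Finset.sum_congr rfl fun i _ => ?_
  rw [← Finset.sum_add_distrib]
  refine Finset.sum_congr rfl fun l _ => ?_
  ring

private theorem CF5_lin {n : ℕ} {W : Type*} [AddCommGroup W] [Module ℝ W] (L : Mt n →ₗ[ℝ] W)
    (B : Mt n) : L B = ∑ p, ∑ q, B p q • L (Matrix.single p q (1 : ℝ)) := by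
  have hB : B = ∑ i, ∑ j, B i j • Matrix.single i j (1 : ℝ) := by
    conv_lhs => rw [Matrix.matrix_eq_sum_single B]
    refine Finset.sum_congr rfl fun i _ => Finset.sum_congr rfl fun j _ => ?_
    rw [Matrix.smul_single, smul_eq_mul, mul_one]
  have h1 := congrArg L hB
  rw [map_sum] at h1
  refine h1.trans (Finset.sum_congr rfl fun i _ => ?_)
  rw [map_sum]
  refine Finset.sum_congr rfl fun j _ => ?_
  rw [map_smul]

private theorem CF5_bil {n : ℕ} (J : Mt n →ₗ[ℝ] Mt n →ₗ[ℝ] Fn n) (A B : Mt n) (x : SL n) :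
    J A B x = ∑ i, ∑ j, ∑ p, ∑ q, (A i j * B p q) *
      J (Matrix.single i j 1) (Matrix.single p q 1) x := by
  rw [CF5_lin J A]
  simp only [LinearMap.sum_apply, LinearMap.smul_apply, Finset.sum_apply, Pi.smul_apply,
    smul_eq_mul]
  refine Finset.sum_congr rfl fun i _ => Finset.sum_congr rfl fun j _ => ?_
  rw [CF5_lin (J (Matrix.single i j 1)) B]
  simp only [Finset.sum_apply, Pi.smul_apply, smul_eq_mul, Finset.mul_sum]
  refine Finset.sum_congr rfl fun p _ => Finset.sum_congr rfl fun q _ => ?_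
  ring

private theorem CF5_single {n : ℕ} (i j : Fin n) : Bx (Matrix.single i j (1 : ℝ)) := by
  intro a b
  rw [Matrix.single_apply]
  split_ifs
  · simp
  · simp

/-- Row CF5. High norm of the new tensor. Here `h'` is any tensor given by the frame formula of the gauge map. PLAN.
`Jf h' v w g = tr (V_v V_w) + Jp η (V_v) (V_w) (Φ g)` with `h = g + η`; `tr (V_v V_w) - tr (v w)` by `xq_wb` 2 and products;
`Jp η` in matrix units, `wb_comp` (`m ≥ 1`: `k = m - 1`) for `J e_ab e_cd ∘ Φ`, `X = Xq` (`gauge_ld`, `xq_wb` 1), products with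
the entries of `V`. Then divide by `1 + c`. -/
theorem new_high {n : ℕ} (m : ℕ) (hm : 1 ≤ m) : ∃ C : ℝ, 1 ≤ C ∧ ∀ (a : SL n → Mt n)
    (A : Mt n → SL n → Mt n) (h h' : PD n → Fm n) (θ δ β β' c : ℝ), 1 ≤ θ → 0 ≤ δ → δ ≤ 1 → 0 ≤ β →
    β ≤ 1 → 0 ≤ β' → β' ≤ 1 → |c| ≤ 1 / 10 → (∀ g, Sym0 (a g)) →
    (∀ i l, WB θ m β (fun g => a g i l)) → (∀ x : Mt n, T1 x → ∀ i l, WB θ m β' (fun g => A x g i l)) →
    (∀ x : Mt n, x.trace = 0 → ∀ i l, RD x (fun g => a g i l) (fun g => A x g i l)) →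
    (∀ (p : PD n) (v w : Mt n), h p v w = h p w v) → TW θ m δ (fun p => h p - gF p) →
    (∀ v w : Mt n, Sym0 v → Sym0 w → ∀ g, Sym0 (Vq a A v g) ∧
      Jf h' v w g = (1 + c)⁻¹ * Jf h (Vq a A v g) (Vq a A w g) (Ph a g)) →
    TW θ m (C * (δ + β + β' + |c|)) (fun p => h' p - gF p) := by
  obtain ⟨k, rfl⟩ : ∃ k, m = k + 1 := ⟨m - 1, by omega⟩
  obtain ⟨C1, hC1, H1⟩ := xq_wb (n := n) (k + 1)
  obtain ⟨C2, hC2, H2⟩ := wb_comp (n := n) k C1 (by linarith)
  obtain ⟨e1, e2, e3, e4, e5, e6, e7, e8⟩ := wb_alg (n := n)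
  obtain ⟨j1, j2, j3, j4, j5, j6, j7⟩ := jp_facts (n := n) ⊥
  set D : ℝ := 2 * C1 + 1 with hD
  set N : ℝ := (n : ℝ) with hN
  set K1 : ℝ := N * (N * (2 ^ (k + 1) * (C1 * D) + 2 ^ (k + 1) * C1)) with hK1
  set K2 : ℝ := N * (N * (N * (N * (2 ^ (k + 1) * ((2 ^ (k + 1) * (D * D)) * (C2 * 4)))))) with hK2
  have hN0 : 0 ≤ N := Nat.cast_nonneg n
  have hp2 : (0 : ℝ) ≤ 2 ^ (k + 1) := by positivity
  have hC10 : 0 ≤ C1 := by linarith
  have hC20 : 0 ≤ C2 := by linarith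
  have hD0 : 0 ≤ D := by rw [hD]; linarith
  have hK10 : 0 ≤ K1 := by rw [hK1]; positivity
  have hK20 : 0 ≤ K2 := by rw [hK2]; positivity
  refine ⟨2 * K1 + 2 * K2 + 2 * (N * N) + 1, by nlinarith [mul_nonneg hN0 hN0], ?_⟩
  intro a A h h' θ δ β β' c hθ hδ hδ1 hβ hβ1 hβ' hβ'1 hc hsym ha hA hRD hhsym hTW hfr v w hv hw hvB hwB
  have hθ0 : 0 ≤ θ := by linarith
  obtain ⟨X1, X2⟩ := H1 a A θ β β' hθ hβ hβ1 hβ' hβ'1 ha hA
  have hac : ∀ i l, Continuous fun g => a g i l := fun i l => (ha i l).1.1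
  obtain ⟨G1, G2, G3⟩ := gauge_ld a A hsym hac hRD
  set η : PD n → Fm n := fun p => h p - gF p with hη
  set V : Mt n → SL n → Mt n := fun v g => Vq a A v g with hV
  -- bounds of the entries
  have hd : ∀ v : Mt n, Sym0 v → Bx v → ∀ i l,
      WB θ (k + 1) (C1 * (β + β')) (fun g => V v g i l - v i l) := fun v hv hvB i l => X2 v hv hvB i l
  have hcst : ∀ r : ℝ, |r| ≤ 1 → WB θ (k + 1) 1 (fun _ : SL n => r) := fun r hr =>
    e2 θ θ (k + 1) |r| 1 _ hθ0 le_rfl hr (abs_nonneg r) (e3 θ (k + 1) r hθ0)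
  have hbb : C1 * (β + β') + 1 ≤ D := by
    rw [hD]
    nlinarith
  have hbb0 : 0 ≤ C1 * (β + β') := by positivity
  have hVD : ∀ v : Mt n, Sym0 v → Bx v → ∀ i l, WB θ (k + 1) D (fun g => V v g i l) := by
    intro v hv hvB i l
    have h1 := e4 θ (k + 1) _ _ _ _ (hd v hv hvB i l) (hcst (v i l) (hvB i l))
    have h2 : (fun g => V v g i l - v i l + v i l) = fun g => V v g i l := by
      funext g
      ring
    rw [h2] at h1
    exact e2 θ θ (k + 1) _ D _ hθ0 le_rfl hbb (by linarith) h1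
  -- first sum
  have hT1 : WB θ (k + 1) (K1 * (β + β')) (fun g => ∑ i, ∑ l,
      ((V v g i l - v i l) * V w g l i + v i l * (V w g l i - w l i))) := by
    have h1 : ∀ i l, WB θ (k + 1) (2 ^ (k + 1) * ((C1 * (β + β')) * D) +
        2 ^ (k + 1) * (1 * (C1 * (β + β')))) (fun g => (V v g i l - v i l) * V w g l i +
          v i l * (V w g l i - w l i)) := by
      intro i l
      exact e4 θ (k + 1) _ _ _ _
        (e6 θ (k + 1) _ _ _ _ hθ0 hbb0 hD0 (hd v hv hvB i l) (hVD w hw hwB l i))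
        (e6 θ (k + 1) _ _ _ _ hθ0 zero_le_one hbb0 (hcst (v i l) (hvB i l)) (hd w hw hwB l i))
    have h2 := e7 θ (k + 1) _ (Fin n) Finset.univ (fun i g => ∑ l,
      ((V v g i l - v i l) * V w g l i + v i l * (V w g l i - w l i))) hθ0
      (fun i _ => e7 θ (k + 1) _ (Fin n) Finset.univ (fun l g =>
        ((V v g i l - v i l) * V w g l i + v i l * (V w g l i - w l i))) hθ0
        (fun l _ => h1 i l))
    rw [Finset.card_univ, Fintype.card_fin] at h2
    have h3 : (n : ℝ) * ((n : ℝ) * (2 ^ (k + 1) * ((C1 * (β + β')) * D) +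
        2 ^ (k + 1) * (1 * (C1 * (β + β'))))) = K1 * (β + β') := by
      rw [hK1, hN]
      ring
    rw [h3] at h2
    exact h2
  -- second sum
  have hJ : ∀ i j p q, WB θ (k + 1) (C2 * (4 * δ))
      (fun g => Jp η (Matrix.single i j 1) (Matrix.single p q 1) (Ph a g)) := by
    intro i j p q
    refine H2 θ (4 * δ) _ (Ph a) (Xq a A) hθ (by linarith) G1 G2 (fun x hx g => G3 x hx.1 g)
      (fun x hx s t => e1 θ (k + 1) k C1 _ (by omega) (X1 x hx s t)) ?_
    exact j3 η θ δ (k + 1) hθ hδ hTW _ _ (CF5_single i j) (CF5_single p q)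
  have hT2 : WB θ (k + 1) (K2 * δ) (fun g => ∑ i, ∑ j, ∑ p, ∑ q, (V v g i j * V w g p q) *
      Jp η (Matrix.single i j 1) (Matrix.single p q 1) (Ph a g)) := by
    have h1 : ∀ i j p q, WB θ (k + 1) (2 ^ (k + 1) * ((2 ^ (k + 1) * (D * D)) * (C2 * (4 * δ))))
        (fun g => (V v g i j * V w g p q) *
          Jp η (Matrix.single i j 1) (Matrix.single p q 1) (Ph a g)) := by
      intro i j p q
      exact e6 θ (k + 1) _ _ _ _ hθ0 (by positivity) (by positivity)
        (e6 θ (k + 1) _ _ _ _ hθ0 hD0 hD0 (hVD v hv hvB i j) (hVD w hw hwB p q)) (hJ i j p q)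
    have h2 := e7 θ (k + 1) _ (Fin n) Finset.univ (fun i g => ∑ j, ∑ p, ∑ q,
      (V v g i j * V w g p q) * Jp η (Matrix.single i j 1) (Matrix.single p q 1) (Ph a g)) hθ0
      (fun i _ => e7 θ (k + 1) _ (Fin n) Finset.univ (fun j g => ∑ p, ∑ q,
        (V v g i j * V w g p q) * Jp η (Matrix.single i j 1) (Matrix.single p q 1) (Ph a g)) hθ0
        (fun j _ => e7 θ (k + 1) _ (Fin n) Finset.univ (fun p g => ∑ q,
          (V v g i j * V w g p q) * Jp η (Matrix.single i j 1) (Matrix.single p q 1) (Ph a g)) hθ0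
          (fun p _ => e7 θ (k + 1) _ (Fin n) Finset.univ (fun q g =>
            (V v g i j * V w g p q) * Jp η (Matrix.single i j 1) (Matrix.single p q 1) (Ph a g)) hθ0
            (fun q _ => h1 i j p q))))
    rw [Finset.card_univ, Fintype.card_fin] at h2
    have h3 : (n : ℝ) * ((n : ℝ) * ((n : ℝ) * ((n : ℝ) * (2 ^ (k + 1) *
        ((2 ^ (k + 1) * (D * D)) * (C2 * (4 * δ))))))) = K2 * δ := by
      rw [hK2, hN]
      ring
    rw [h3] at h2
    exact h2
  -- the constant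
  have hc1 : 9 / 10 ≤ 1 + c := by
    have := (abs_le.1 hc).1
    linarith
  have hc0 : 0 < 1 + c := by linarith
  have hinv : |(1 + c)⁻¹| ≤ 2 := by
    rw [abs_of_pos (inv_pos.2 hc0), inv_le_comm₀ hc0 (by norm_num)]
    linarith
  have hinv2 : |(1 + c)⁻¹ - 1| ≤ 2 * |c| := by
    have h1 : (1 + c)⁻¹ - 1 = (1 + c)⁻¹ * (-c) := by
      field_simp
      ring
    rw [h1, abs_mul, abs_neg]
    exact mul_le_mul_of_nonneg_right hinv (abs_nonneg c)
  have htr : |(v * w).trace| ≤ N * N := by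
    have h1 : (v * w).trace = ∑ i, ∑ l, v i l * w l i := by
      simp only [Matrix.trace, Matrix.diag_apply, Matrix.mul_apply]
    rw [h1]
    calc |∑ i, ∑ l, v i l * w l i| ≤ ∑ i, |∑ l, v i l * w l i| := Finset.abs_sum_le_sum_abs _ _
      _ ≤ ∑ i : Fin n, N := by
          refine Finset.sum_le_sum fun i _ => ?_
          calc |∑ l, v i l * w l i| ≤ ∑ l, |v i l * w l i| := Finset.abs_sum_le_sum_abs _ _
            _ ≤ ∑ l : Fin n, (1 : ℝ) := by
                refine Finset.sum_le_sum fun l _ => ?_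
                rw [abs_mul]
                exact mul_le_one₀ (hvB i l) (abs_nonneg _) (hwB l i)
            _ = N := by
                rw [Finset.sum_const, Finset.card_univ, Fintype.card_fin, nsmul_eq_mul, mul_one]
      _ = N * N := by
          rw [Finset.sum_const, Finset.card_univ, Fintype.card_fin, nsmul_eq_mul]
  have hr : |((1 + c)⁻¹ - 1) * (v * w).trace| ≤ 2 * |c| * (N * N) := by
    rw [abs_mul]
    exact mul_le_mul hinv2 htr (abs_nonneg _) (by positivity)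
  have hr2 := e3 θ (k + 1) (((1 + c)⁻¹ - 1) * (v * w).trace) hθ0
  have hall := e4 θ (k + 1) _ _ _ _
    (e5 θ (k + 1) _ (1 + c)⁻¹ _ (e4 θ (k + 1) _ _ _ _ hT1 hT2)) hr2
  have hfun : (fun g => (1 + c)⁻¹ * ((∑ i, ∑ l,
      ((V v g i l - v i l) * V w g l i + v i l * (V w g l i - w l i))) +
      ∑ i, ∑ j, ∑ p, ∑ q, (V v g i j * V w g p q) *
        Jp η (Matrix.single i j 1) (Matrix.single p q 1) (Ph a g)) +
      ((1 + c)⁻¹ - 1) * (v * w).trace) = Jf (fun p => h' p - gF p) v w := by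
    funext g
    obtain ⟨s1, s2⟩ := hfr v w hv hw g
    have s3 : Sym0 (Vq a A w g) := (hfr w w hw hw g).1
    have q1 : Jf (fun p => h' p - gF p) v w g = Jf h' v w g - Jf gF v w g := rfl
    have q2 : Jf h (Vq a A v g) (Vq a A w g) (Ph a g) =
        Jf gF (Vq a A v g) (Vq a A w g) (Ph a g) + Jf η (Vq a A v g) (Vq a A w g) (Ph a g) := by
      have : Jf η (Vq a A v g) (Vq a A w g) (Ph a g) =
        Jf h (Vq a A v g) (Vq a A w g) (Ph a g) - Jf gF (Vq a A v g) (Vq a A w g) (Ph a g) := rfl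
      rw [this]
      ring
    rw [q1, s2, q2, j4 v w hv hw g, j4 _ _ s1 s3 (Ph a g), ← j2 η _ _ s1 s3,
      CF5_bil (Jp η) (Vq a A v g) (Vq a A w g) (Ph a g),
      CF5_tr (Vq a A v g) (Vq a A w g) v w]
    ring
  rw [hfun] at hall
  refine e2 θ θ (k + 1) _ _ _ hθ0 le_rfl ?_ ?_ hall
  · have hs : 0 ≤ K1 * (β + β') + K2 * δ := by positivity
    have h1 : |(1 + c)⁻¹| * (K1 * (β + β') + K2 * δ) ≤ 2 * (K1 * (β + β') + K2 * δ) :=
      mul_le_mul_of_nonneg_right hinv hs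
    have h2 : (2 * K1 + 2 * K2 + 2 * (N * N) + 1) * (δ + β + β' + |c|) =
        2 * (K1 * (β + β') + K2 * δ) + 2 * |c| * (N * N) + (2 * K1 * (δ + |c|) +
          2 * K2 * (β + β' + |c|) + 2 * (N * N) * (δ + β + β') + (δ + β + β' + |c|)) := by
      ring
    rw [h2]
    have h3 : 0 ≤ 2 * K1 * (δ + |c|) + 2 * K2 * (β + β' + |c|) + 2 * (N * N) * (δ + β + β') +
        (δ + β + β' + |c|) := by positivity
    linarith
  · positivity

end FL27
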