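import Pool.Agent.LibFL27.CDefs
import Pool.Agent.LibFL27.CF4
import Pool.Agent.LibFL27.CF2
import Pool.Agent.LibFL27.CA6
import Pool.Agent.LibFL27.CC3

set_option autoImplicit false
set_option maxSynthPendingDepth 3

open Matrix MeasureTheory Topology Filter LibNC38
open LibNC27 hiding Mt
open scoped Matrix.Norms.Elementwise ContDiff

namespace FL27

private theorem CF6_single {n : ℕ} (V : Mt n) : V = ∑ a, ∑ b, V a b • Matrix.single a b (1 : ℝ) := by
  conv_lhs => rw [Matrix.matrix_eq_sum_single V]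
  refine Finset.sum_congr rfl fun a _ => Finset.sum_congr rfl fun b _ => ?_
  rw [Matrix.smul_single, smul_eq_mul, mul_one]

private theorem CF6_exp1 {n : ℕ} (G : Mt n →ₗ[ℝ] Fn n) (V : Mt n) (q : SL n) :
    G V q = ∑ a, ∑ b, V a b * G (Matrix.single a b 1) q := by
  conv_lhs => rw [CF6_single V]
  simp only [map_sum, map_smul, Finset.sum_apply, Pi.smul_apply, smul_eq_mul]

private theorem CF6_expand {n : ℕ} (J : Mt n →ₗ[ℝ] Mt n →ₗ[ℝ] Fn n) (V W : Mt n) (q : SL n) :
    J V W q = ∑ a, ∑ b, ∑ c, ∑ d, V a b * (W c d * J (Matrix.single a b 1) (Matrix.single c d 1) q) := by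
  have h1 := CF6_exp1 (J.flip W) V q
  rw [LinearMap.flip_apply] at h1
  rw [h1]
  refine Finset.sum_congr rfl fun a _ => Finset.sum_congr rfl fun b _ => ?_
  rw [LinearMap.flip_apply, CF6_exp1 (J (Matrix.single a b 1)) W q, Finset.mul_sum]
  refine Finset.sum_congr rfl fun c _ => ?_
  rw [Finset.mul_sum]

private theorem CF6_bx {n : ℕ} (a b : Fin n) : Bx (Matrix.single a b (1 : ℝ)) := by
  intro i j
  rw [Matrix.single_apply]
  split_ifs
  · simp
  · simp

private theorem CF6_abs {n : ℕ} {F : Fin n → ℝ} {M : ℝ} (h : ∀ i, |F i| ≤ M) :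
    |∑ i, F i| ≤ n * M := by
  refine (Finset.abs_sum_le_sum_abs _ _).trans ((Finset.sum_le_sum fun i _ => h i).trans ?_)
  simp

private theorem CF6_exp {n : ℕ} : ∃ Ce : ℝ, 0 ≤ Ce ∧ ∀ (x : Mt n) (r : ℝ), x.trace = 0 → 0 ≤ r →
    r ≤ 1 → (∀ i j, |x i j| ≤ r) →
    ∀ i j, |NormedSpace.exp x i j - (1 : Mt n) i j| ≤ Ce * r := by
  have hce : Continuous (fun A : Mt n => NormedSpace.exp A) :=
    (exp_smoothm (n := n) (m := 1)).continuous
  have hcf : Continuous (fun A : Mt n => ∑ i, ∑ k, |NormedSpace.exp A i k|) :=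
    continuous_finsetSum _ fun i _ => continuous_finsetSum _ fun k _ =>
      (hce.matrix_elem i k).abs
  obtain ⟨L, hL⟩ := (isCompact_closedBall (0 : Mt n) 1).exists_bound_of_continuousOn
    hcf.continuousOn
  refine ⟨|L|, abs_nonneg L, fun x r htr hr0 hr1 hx i j => ?_⟩
  have hmem : ∀ t : ℝ, 0 ≤ t → t ≤ 1 → t • x ∈ Metric.closedBall (0 : Mt n) 1 := by
    intro t ht0 ht1
    rw [mem_closedBall_zero_iff, Matrix.norm_le_iff (by norm_num)]
    intro a b
    rw [Real.norm_eq_abs, Matrix.smul_apply, smul_eq_mul, abs_mul, abs_of_nonneg ht0]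
    have h1 := hx a b
    have h2 := abs_nonneg (x a b)
    nlinarith
  have hder : ∀ t : ℝ, HasDerivAt (fun s : ℝ => NormedSpace.exp (s • x) i j)
      ((NormedSpace.exp (t • x) * x) i j) t := by
    intro t
    have h1 := ex_facts.2.2.1 x htr 1 t i j
    have h2 : ∀ s : ℝ, ((1 : SL n) * ex (s • x)).1 = NormedSpace.exp (s • x) := by
      intro s
      rw [one_mul]
      exact ex_facts.1 _ (by rw [Matrix.trace_smul, htr, smul_zero])
    simp only [h2] at h1
    exact h1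
  have hb : ∀ t ∈ Set.Ico (0 : ℝ) 1, ‖(NormedSpace.exp (t • x) * x) i j‖ ≤ |L| * r := by
    intro t ht
    have h1 := hL _ (hmem t ht.1 ht.2.le)
    rw [Real.norm_eq_abs, abs_of_nonneg (Finset.sum_nonneg fun i _ => Finset.sum_nonneg fun k _ =>
      abs_nonneg _)] at h1
    have h2 : ∑ k, |NormedSpace.exp (t • x) i k| ≤ L := by
      refine le_trans ?_ h1
      exact Finset.single_le_sum (f := fun i => ∑ k, |NormedSpace.exp (t • x) i k|)
        (fun i _ => Finset.sum_nonneg fun k _ => abs_nonneg _) (Finset.mem_univ i)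
    rw [Real.norm_eq_abs, Matrix.mul_apply]
    refine (Finset.abs_sum_le_sum_abs _ _).trans ?_
    have h3 : ∑ k, |NormedSpace.exp (t • x) i k * x k j| ≤
        ∑ k, |NormedSpace.exp (t • x) i k| * r := by
      refine Finset.sum_le_sum fun k _ => ?_
      rw [abs_mul]
      exact mul_le_mul_of_nonneg_left (hx k j) (abs_nonneg _)
    refine h3.trans ?_
    rw [← Finset.sum_mul]
    exact mul_le_mul_of_nonneg_right (h2.trans (le_abs_self L)) hr0
  have h := norm_image_sub_le_of_norm_deriv_le_segment_01'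
    (fun t _ => (hder t).hasDerivWithinAt) hb
  rw [one_smul, zero_smul, NormedSpace.exp_zero, Real.norm_eq_abs] at h
  exact h

private theorem CF6_mul_le {x y p q : ℝ} (hx : |x| ≤ p) (hy : |y| ≤ q) : |x * y| ≤ p * q := by
  rw [abs_mul]
  exact mul_le_mul hx hy (abs_nonneg y) ((abs_nonneg x).trans hx)

private theorem CF6_term {v v' x x' e e' β C1 : ℝ} (hβ0 : 0 ≤ β) (hβ1 : β ≤ 1) (hC1 : 1 ≤ C1)
    (hvv : v = v') (hxx : x = x') (hv : |v| ≤ 1) (hx : |x| ≤ β) (he : |e| ≤ C1 * β ^ 2)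
    (he' : |e'| ≤ C1 * β ^ 2) :
    |(v - x + e) * (v' - x' + e') - v * v' + 2 * (v * x')| ≤
      (1 + 4 * C1 + C1 ^ 2) * β ^ 2 := by
  subst hvv
  subst hxx
  have h1 := abs_le.1 (CF6_mul_le hx hx)
  have h2 := abs_le.1 (CF6_mul_le hv he)
  have h3 := abs_le.1 (CF6_mul_le hv he')
  have h4 := abs_le.1 (CF6_mul_le hx he)
  have h5 := abs_le.1 (CF6_mul_le hx he')
  have h6 := abs_le.1 (CF6_mul_le he he')
  have h7 : β * (C1 * β ^ 2) ≤ 1 * (C1 * β ^ 2) := mul_le_mul_of_nonneg_right hβ1 (by positivity)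
  have h8 : C1 * β ^ 2 * (C1 * β ^ 2) ≤ C1 ^ 2 * β ^ 2 := by
    have h9 : β ^ 2 ≤ 1 := pow_le_one₀ hβ0 hβ1
    have h10 : C1 * β ^ 2 * (C1 * β ^ 2) = C1 ^ 2 * β ^ 2 * β ^ 2 := by ring
    rw [h10]
    exact mul_le_of_le_one_right (by positivity) h9
  rw [abs_le]
  constructor <;> nlinarith

/-- Row CF6. Low norm of the new tensor. PLAN. Diagonal `v = w` first: `Jf h' v v - tr(vv) = (1+c)⁻¹ [tr(V V) - (1+c) tr(v v) +
Jf η V V (Φ g)]`, `V = v - A(v/2) + O(β²)` (`vq_exp`), `tr(V V) = tr(v v) - 2 tr(v A(v/2)) + O(β²)`, `2 tr (v A(v/2)) = D v`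
(hypothesis `hD`), `|Jf η V V (Φ g) - Jf η v v g| ≤ C (δ0 β + δ1 β)` (bilinearity; `Φ g = g q`, `|q - 1| ≤ C β`,
`wb_lip` with `θ = 1`: `TW 1 1 δ1`). So the bracket is `r + O(β² + δ1 β)`, `r = Jf η v v - c tr(vv) - D v`. Polarise:
`2 K(v,w) = K(v+w,v+w) - K(v,v) - K(w,w)`, with `(v+w)/2` in the box. -/
theorem new_low {n : ℕ} : ∃ C : ℝ, 1 ≤ C ∧ ∀ (a : SL n → Mt n)
    (A : Mt n → SL n → Mt n) (D : Mt n → Fn n) (h h' : PD n → Fm n) (δ β c ρ : ℝ), 0 ≤ δ → δ ≤ 1 → 0 ≤ β →
    β ≤ 1 → |c| ≤ 1 / 10 → 0 ≤ ρ → (∀ g, Sym0 (a g)) →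
    (∀ (x : Mt n) (g : SL n), T1 x → Sym0 (A x g)) →
    (∀ g i l, |a g i l| ≤ β) → (∀ x : Mt n, T1 x → ∀ g i l, |A x g i l| ≤ β) →
    (∀ v : Mt n, Sym0 v → Bx v → ∀ g, 2 * (v * A ((1 / 2 : ℝ) • v) g).trace = D v g) →
    (∀ (p : PD n) (v w : Mt n), h p v w = h p w v) → (∀ (p : PD n) (v w : Mt n), h' p v w = h' p w v) →
    TW 1 1 δ (fun p => h p - gF p) →
    (∀ v : Mt n, Sym0 v → Bx v → ∀ g,
      |Jf (fun p => h p - gF p) v v g - c * (v * v).trace - D v g| ≤ ρ) →
    (∀ v w : Mt n, Sym0 v → Sym0 w → ∀ g, Sym0 (Vq a A v g) ∧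
      Jf h' v w g = (1 + c)⁻¹ * Jf h (Vq a A v g) (Vq a A w g) (Ph a g)) →
    ∀ v w : Mt n, Sym0 v → Sym0 w → Bx v → Bx w → ∀ g,
      |Jf (fun p => h' p - gF p) v w g| ≤ C * (ρ + β ^ 2 + δ * β) := by
  obtain ⟨C1, hC1, hve⟩ := vq_exp (n := n)
  obtain ⟨CL, hCL, hlip⟩ := wb_lip (n := n)
  obtain ⟨Ce, hCe, hexp⟩ := CF6_exp (n := n)
  set M1 : ℝ := n * (n * (1 + 4 * C1 + C1 ^ 2)) with hM1
  set M2 : ℝ := n * (n * (n * (n * ((1 + C1) * (3 + C1) * 4 + CL * 4 * Ce)))) with hM2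
  have hn0 : (0 : ℝ) ≤ n := Nat.cast_nonneg n
  have hM10 : 0 ≤ M1 := by positivity
  have hM20 : 0 ≤ M2 := by positivity
  refine ⟨6 * (1 + M1 + M2), by linarith, ?_⟩
  intro a A D h h' δ β c ρ hδ0 hδ1 hβ0 hβ1 hc hρ0 ha hA ha1 hA1 hD hsy hsy' htw hr hV
  obtain ⟨-, j2, j3, j4, -, -, -⟩ := jp_facts (⊤ : Subgroup (SL n))
  set η : PD n → Fm n := fun p => h p - gF p with hη
  have hcb : |(1 + c)⁻¹| ≤ 2 := by
    have h1 := abs_le.1 hc
    have h2 : (9 / 10 : ℝ) ≤ 1 + c := by linarith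
    rw [abs_inv, abs_of_pos (by linarith : 0 < 1 + c)]
    rw [inv_le_comm₀ (by linarith) (by norm_num)]
    linarith
  have diag : ∀ v : Mt n, Sym0 v → Bx v → ∀ g,
      |Jf (fun p => h' p - gF p) v v g| ≤ 2 * (M1 * β ^ 2 + M2 * (δ * β) + ρ) := by
    intro v hv hbv g
    obtain ⟨hs1, hf⟩ := hV v v hv hv g
    set V : Mt n := Vq a A v g with hVdef
    set X : Mt n := A ((1 / 2 : ℝ) • v) g with hX
    have hT1 : T1 ((1 / 2 : ℝ) • v) := by
      refine ⟨?_, fun i l => ?_⟩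
      · rw [Matrix.trace_smul, hv.2, smul_zero]
      · rw [Matrix.smul_apply, smul_eq_mul, abs_mul]
        have h1 := hbv i l
        have h2 : |(1 / 2 : ℝ)| = 1 / 2 := abs_of_pos (by norm_num)
        rw [h2]
        have := abs_nonneg (v i l)
        linarith
    have hXs : Sym0 X := hA _ g hT1
    have hXb : ∀ i l, |X i l| ≤ β := fun i l => hA1 _ hT1 g i l
    have hE : ∀ i l, |V i l - (v i l - X i l)| ≤ C1 * β ^ 2 := fun i l =>
      hve a A β hβ0 hβ1 ha hA ha1 hA1 v hv hbv g i l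
    -- part 1
    have p1 : |(V * V).trace - (v * v).trace + D v g| ≤ M1 * β ^ 2 := by
      have h1 : (V * V).trace - (v * v).trace + D v g =
          ∑ i, ∑ l, ((v i l - X i l + (V i l - (v i l - X i l))) *
            (v l i - X l i + (V l i - (v l i - X l i))) - v i l * v l i + 2 * (v i l * X l i)) := by
        rw [← hD v hv hbv g, Matrix.trace, Matrix.trace, Matrix.trace, Finset.mul_sum,
          ← Finset.sum_sub_distrib, ← Finset.sum_add_distrib]
        refine Finset.sum_congr rfl fun i _ => ?_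
        rw [Matrix.diag_apply, Matrix.diag_apply, Matrix.diag_apply, Matrix.mul_apply,
          Matrix.mul_apply, Matrix.mul_apply, Finset.mul_sum,
          ← Finset.sum_sub_distrib, ← Finset.sum_add_distrib]
        refine Finset.sum_congr rfl fun l _ => ?_
        ring
      rw [h1]
      have h2 : M1 * β ^ 2 = n * (n * ((1 + 4 * C1 + C1 ^ 2) * β ^ 2)) := by
        rw [hM1]
        ring
      rw [h2]
      refine CF6_abs fun i => CF6_abs fun l => ?_
      refine CF6_term hβ0 hβ1 hC1 ?_ ?_ (hbv i l) (hXb i l) (hE i l) (hE l i)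
      · exact congrFun (congrFun hv.1.symm i) l
      · exact congrFun (congrFun hXs.1.symm i) l
    -- part 2
    have hVv : ∀ i l, |V i l - v i l| ≤ (1 + C1) * β := by
      intro i l
      have h1 := abs_le.1 (hE i l)
      have h2 := abs_le.1 (hXb i l)
      have h3 : C1 * β ^ 2 ≤ C1 * β := by
        have h4 : β ^ 2 ≤ β := by nlinarith
        exact mul_le_mul_of_nonneg_left h4 (by linarith)
      rw [abs_le]
      constructor <;> nlinarith
    have hVb : ∀ i l, |V i l| ≤ 2 + C1 := by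
      intro i l
      have h1 := abs_le.1 (hVv i l)
      have h2 := abs_le.1 (hbv i l)
      have h3 : (1 + C1) * β ≤ 1 + C1 := mul_le_of_le_one_right (by linarith) hβ1
      rw [abs_le]
      constructor <;> linarith
    have hJ : ∀ i l p q : Fin n, WB 1 1 (4 * δ) (Jp η (Matrix.single i l 1) (Matrix.single p q 1)) :=
      fun i l p q => j3 η 1 δ 1 le_rfl hδ0 htw _ _ (CF6_bx i l) (CF6_bx p q)
    have p2 : |Jf η V V (Ph a g) - Jf η v v g| ≤ M2 * (δ * β) := by
      have h1 : Jf η V V (Ph a g) = Jp η V V (Ph a g) := by rw [j2 η _ _ hs1 hs1]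
      have h2 : Jf η v v g = Jp η v v g := by rw [j2 η _ _ hv hv]
      rw [h1, h2, CF6_expand, CF6_expand, ← Finset.sum_sub_distrib]
      have h3 : M2 * (δ * β) =
          n * (n * (n * (n * (((1 + C1) * (3 + C1) * 4 + CL * 4 * Ce) * (δ * β))))) := by
        rw [hM2]
        ring
      rw [h3]
      refine CF6_abs fun i => ?_
      rw [← Finset.sum_sub_distrib]
      refine CF6_abs fun l => ?_
      rw [← Finset.sum_sub_distrib]
      refine CF6_abs fun p => ?_
      rw [← Finset.sum_sub_distrib]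
      refine CF6_abs fun q => ?_
      set F := Jp η (Matrix.single i l 1) (Matrix.single p q 1) with hF
      have hF1 : |F (Ph a g)| ≤ 4 * δ := (hJ i l p q).1.2 (Ph a g)
      have hx : Sym0 (-((1 / 2 : ℝ) • a g)) := by
        refine ⟨?_, ?_⟩
        · rw [Matrix.transpose_neg, Matrix.transpose_smul, (ha g).1]
        · rw [Matrix.trace_neg, Matrix.trace_smul, (ha g).2, smul_zero, neg_zero]
      have hF2 : |F (Ph a g) - F g| ≤ CL * (4 * δ) * 1 * (Ce * β) := by
        refine hlip 1 (4 * δ) F le_rfl (by positivity) (hJ i l p q) g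
          (ex (-((1 / 2 : ℝ) • a g))) (Ce * β) (by positivity) fun i l => ?_
        rw [ex_facts.1 _ hx.2]
        refine hexp _ β hx.2 hβ0 hβ1 (fun i l => ?_) i l
        rw [Matrix.neg_apply, Matrix.smul_apply, smul_eq_mul, abs_neg, abs_mul,
          abs_of_pos (by norm_num : (0 : ℝ) < 1 / 2)]
        have h5 := ha1 g i l
        have h6 := abs_nonneg (a g i l)
        linarith
      have h4 : V i l * (V p q * F (Ph a g)) - v i l * (v p q * F g) =
          ((V i l - v i l) * V p q) * F (Ph a g) + (v i l * (V p q - v p q)) * F (Ph a g) +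
          (v i l * v p q) * (F (Ph a g) - F g) := by ring
      rw [h4]
      have g1 := CF6_mul_le (CF6_mul_le (hVv i l) (hVb p q)) hF1
      have g2 := CF6_mul_le (CF6_mul_le (hbv i l) (hVv p q)) hF1
      have g3 := CF6_mul_le (CF6_mul_le (hbv i l) (hbv p q)) hF2
      refine (abs_add_le _ _).trans ?_
      have g4 := abs_add_le (((V i l - v i l) * V p q) * F (Ph a g))
        ((v i l * (V p q - v p q)) * F (Ph a g))
      have g5 : ((1 + C1) * (3 + C1) * 4 + CL * 4 * Ce) * (δ * β) =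
          (1 + C1) * β * (2 + C1) * (4 * δ) + 1 * ((1 + C1) * β) * (4 * δ) +
            1 * 1 * (CL * (4 * δ) * 1 * (Ce * β)) := by ring
      rw [g5]
      linarith
    -- part 3
    have p3 := hr v hv hbv g
    have key : Jf (fun p => h' p - gF p) v v g = (1 + c)⁻¹ *
        (((V * V).trace - (v * v).trace + D v g) + (Jf η V V (Ph a g) - Jf η v v g) +
          (Jf η v v g - c * (v * v).trace - D v g)) := by
      have h1 : Jf (fun p => h' p - gF p) v v g = Jf h' v v g - Jf gF v v g := rfl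
      have h2 : Jf h V V (Ph a g) = Jf gF V V (Ph a g) + Jf η V V (Ph a g) := by
        have h3 : Jf η V V (Ph a g) = Jf h V V (Ph a g) - Jf gF V V (Ph a g) := rfl
        rw [h3]
        ring
      have hc1 : (1 + c) ≠ 0 := by
        have := abs_le.1 hc
        intro h0
        linarith
      rw [h1, hf, h2, j4 v v hv hv, j4 _ _ hs1 hs1]
      field_simp
      ring
    rw [key, abs_mul]
    refine mul_le_mul hcb ?_ (abs_nonneg _) (by norm_num)
    refine (abs_add_le _ _).trans ?_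
    have := abs_add_le ((V * V).trace - (v * v).trace + D v g) (Jf η V V (Ph a g) - Jf η v v g)
    linarith
  intro v w hv hw hbv hbw g
  have hu : Sym0 ((1 / 2 : ℝ) • (v + w)) := by
    refine ⟨?_, ?_⟩
    · rw [Matrix.transpose_smul, Matrix.transpose_add, hv.1, hw.1]
    · rw [Matrix.trace_smul, Matrix.trace_add, hv.2, hw.2, add_zero, smul_zero]
  have hbu : Bx ((1 / 2 : ℝ) • (v + w)) := by
    intro i l
    rw [Matrix.smul_apply, Matrix.add_apply, smul_eq_mul]
    have h1 := abs_le.1 (hbv i l)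
    have h2 := abs_le.1 (hbw i l)
    rw [abs_le]
    constructor <;> linarith
  have hpol : 4 * Jf (fun p => h' p - gF p) ((1 / 2 : ℝ) • (v + w)) ((1 / 2 : ℝ) • (v + w)) g =
      Jf (fun p => h' p - gF p) v v g + 2 * Jf (fun p => h' p - gF p) v w g +
        Jf (fun p => h' p - gF p) w w g := by
    set κ : PD n → Fm n := fun p => h' p - gF p with hκ
    have hs : ∀ (p : PD n) (x y : Mt n), κ p x y = κ p y x := by
      intro p x y
      show h' p x y - gF p x y = h' p y x - gF p y x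
      rw [hsy' p x y, gF_apply, gF_apply, Matrix.trace_mul_comm]
    unfold Jf
    have h1 : g.1 * ((1 / 2 : ℝ) • (v + w)) * g.1ᵀ =
        (1 / 2 : ℝ) • (g.1 * v * g.1ᵀ + g.1 * w * g.1ᵀ) := by
      rw [Matrix.mul_smul, Matrix.smul_mul, Matrix.mul_add, Matrix.add_mul]
    rw [h1]
    simp only [map_smul, map_add, LinearMap.smul_apply, LinearMap.add_apply, smul_eq_mul]
    rw [hs _ (g.1 * w * g.1ᵀ) (g.1 * v * g.1ᵀ)]
    ring
  have d1 := abs_le.1 (diag _ hu hbu g)
  have d2 := abs_le.1 (diag v hv hbv g)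
  have d3 := abs_le.1 (diag w hw hbw g)
  have e1 : 0 ≤ M1 * ρ := by positivity
  have e2 : 0 ≤ M1 * (δ * β) := by positivity
  have e3 : 0 ≤ M2 * ρ := by positivity
  have e4 : 0 ≤ M2 * β ^ 2 := by positivity
  have e5 : 0 ≤ β ^ 2 := by positivity
  have e6 : 0 ≤ δ * β := by positivity
  rw [abs_le]
  constructor <;> linarith

end FL27
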