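import Pool.Agent.LibFL27.CDefs
import Pool.Agent.LibFL27.CF5
import Pool.Agent.LibFL27.CF6
import Pool.Agent.LibFL27.CE1
import Pool.Agent.LibFL27.CF1
import Pool.Agent.LibFL27.CC12
import Pool.Agent.LibFL27.CA4b

set_option autoImplicit false
set_option maxSynthPendingDepth 3

open Matrix MeasureTheory Topology Filter LibNC38
open LibNC27 hiding Mt
open scoped Matrix.Norms.Elementwise ContDiff

namespace FL27

private theorem CF7_mem {n : ℕ} {θ : ℝ} {k : ℕ} {M : ℝ} {F : Fn n} (h : WB θ k M F) :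
    Continuous F ∧ ∀ g, |F g| ≤ M := by
  cases k with
  | zero => exact h
  | succ k => exact h.1

private theorem CF7_one {n : ℕ} {θ M : ℝ} {F : Fn n} (hθ : 1 ≤ θ) (hM : 0 ≤ M) (h : WB θ 1 M F) :
    WB 1 1 (M * θ) F := by
  refine ⟨⟨h.1.1, fun g => (h.1.2 g).trans (le_mul_of_one_le_right hM hθ)⟩, fun x hx => ?_⟩
  obtain ⟨F', h1, h2⟩ := h.2 x hx
  refine ⟨F', h1, h2.1, fun g => ?_⟩
  rw [mul_one]
  exact h2.2 g

private theorem CF7_bx {n : ℕ} (i l : Fin n) : Bx (Matrix.single i l (1 : ℝ)) := by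
  intro a b
  rw [Matrix.single_apply]
  split_ifs <;> simp

private theorem CF7_half {n : ℕ} {v : Mt n} (hv : Sym0 v) (hb : Bx v) : T1 ((1 / 2 : ℝ) • v) := by
  refine ⟨by rw [Matrix.trace_smul, hv.2, smul_zero], fun a b => ?_⟩
  rw [Matrix.smul_apply, smul_eq_mul, abs_mul, abs_of_pos (by norm_num : (0 : ℝ) < 1 / 2)]
  have := hb a b
  linarith

private theorem CF7_sub {n : ℕ} {x : Mt n} {F F' G G' : Fn n} (h : RD x F F') (h' : RD x G G') :
    RD x (fun g => F g - G g) (fun g => F' g - G' g) := fun c hc => (h c hc).sub (h' c hc)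

private theorem CF7_sum {n : ℕ} {x : Mt n} {ι : Type} (s : Finset ι) {F F' : ι → Fn n}
    (h : ∀ i ∈ s, RD x (F i) (F' i)) :
    RD x (fun g => ∑ i ∈ s, F i g) (fun g => ∑ i ∈ s, F' i g) := fun c hc =>
  HasDerivAt.fun_sum fun i hi => h i hi c hc

/-- Row CF7. Summary of the estimates (assembly of CC12, CE1, CF1-CF6). `M` bounds `ξ` and `c`, `σ` is the error of `Apx`.
PLAN. `smooth_form`; `a` from `dual_field`; `A x g i l` = derivative of `y (single l i 1) / 2` (`sg_lin`: linear in `x`); `β = C M θ`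
bounds `a`, `A` pointwise (`WB θ 1`), `β' = C M / s`; `D v` = derivative of `y v` along `v/2`, `= 2 tr(v A(v/2))`; `Λ = C M θ²`,
`ρ` from `resid` with `J = Jp η`; `new_low`, `new_high` for every `h'` with the frame formula. Smallness:
`C M θ ≤ 1`, `C M / s ≤ 1`, so all the `β ≤ 1` (choose the final `C` large). -/
theorem step_est {n : ℕ} (hn : 1 ≤ n) (Γ : Subgroup (SL n)) (hd : Disc Γ) (hc : Coc Γ) (m : ℕ)
    (hm : 2 ≤ m) : ∃ C : ℝ, 1 ≤ C ∧ ∀ (h : PD n → Fm n) (δ θ s M σ c τ : ℝ)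
    (ξ : PD n → Mt n →ₗ[ℝ] ℝ), FmOK Γ h → 0 < δ → δ ≤ M → 1 ≤ θ → 0 < s → s ≤ 1 → 0 ≤ σ → C * M * θ ≤ 1 →
    C * M ≤ s → 0 < τ → τ * n ≤ 1 → TW θ m δ (fun p => h p - gF p) →
    Apx Γ M σ (fun p => h p - gF p) c ξ →
    ∃ (a : SL n → Mt n) (A : Mt n → SL n → Mt n), YOK Γ a ∧
      (∀ x : Mt n, x.trace = 0 → ∀ i l, RD x (fun g => a g i l) (fun g => A x g i l)) ∧
      (∀ i l, WB 1 1 (C * M * θ) (fun g => a g i l)) ∧
      ∀ h' : PD n → Fm n, (∀ (p : PD n) (v w : Mt n), h' p v w = h' p w v) →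
        (∀ v w : Mt n, Sym0 v → Sym0 w → ∀ g, Sym0 (Vq a A v g) ∧
          Jf h' v w g = (1 + c)⁻¹ * Jf h (Vq a A v g) (Vq a A w g) (Ph a g)) →
        TW θ m (C * M / s) (fun p => h' p - gF p) ∧
        ∀ v w : Mt n, Sym0 v → Sym0 w → Bx v → Bx w → ∀ g,
          |Jf (fun p => h' p - gF p) v w g| ≤
            C * ((σ + δ * (s * θ) ^ m) / τ ^ 2 + M * θ ^ 2 * τ + (M * θ) ^ 2) := by
  obtain ⟨C0, hC0, hsf⟩ := smooth_form Γ hd hc m (by omega : 1 ≤ m)
  obtain ⟨C2, hC2, hlow⟩ := new_low (n := n)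
  obtain ⟨C3, hC3, hhigh⟩ := new_high (n := n) m (by omega : 1 ≤ m)
  obtain ⟨juq, -, jadd, jmul, jsmul, jconst, jscale, -, -⟩ := rd_rules (n := n)
  obtain ⟨wle, wmono, -, -, wsmul, -, -, -⟩ := wb_alg (n := n)
  obtain ⟨jp1, jp2, jp3, -⟩ := jp_facts (n := n) Γ
  obtain ⟨C, hCd⟩ : ∃ C : ℝ, C = 20 * (C2 + C3) * (C0 + 4) ^ 2 := ⟨_, rfl⟩
  have hC0p : 0 < C0 := by linarith
  have hC2p : 0 < C2 := by linarith
  have hC3p : 0 < C3 := by linarith
  have hCbig : 10 * (C0 + 4) ≤ C := by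
    rw [hCd]
    have h1 : 2 ≤ C2 + C3 := by linarith
    have h2 : C0 + 4 ≤ (C0 + 4) ^ 2 := by nlinarith
    have h3 : 0 ≤ (C0 + 4) ^ 2 := sq_nonneg _
    nlinarith
  have hC1 : 1 ≤ C := by linarith
  refine ⟨C, hC1, fun h δ θ s M σ c τ ξ hh hδ hδM hθ hs hs1 hσ hCM hCs hτ hτn htw hap => ?_⟩
  have hM : 0 < M := by linarith
  have hθ0 : 0 < θ := by linarith
  have hη : FmOK Γ (fun p => h p - gF p) := by
    have h1 := fmOK_add Γ h (fun p => (-1 : ℝ) • gF p) hh (fmOK_smul Γ _ (fmOK_gF Γ) (-1))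
    have e : (fun p => h p + (-1 : ℝ) • gF p) = fun p : PD n => h p - gF p := by
      funext p
      rw [neg_one_smul, sub_eq_add_neg]
    rw [e] at h1
    exact h1
  obtain ⟨x, y, hx, hy, hsg, hen, hxy, hyw, hyd⟩ :=
    hsf (fun p => h p - gF p) δ θ s M σ c ξ hη hδ hδM hθ hs hs1 hσ htw hap
  obtain ⟨hYOK, hdual⟩ := dual_field Γ y hy hsg
  -- the derivatives of the components
  have hG : ∀ i l : Fin n, ∃ G : Mt n →ₗ[ℝ] Fn n,
      (∀ x : Mt n, x.trace = 0 → RD x (y (Matrix.single i l (1 : ℝ))) (G x)) ∧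
      (∀ v : Mt n, SG 0 (G v)) ∧ G 1 = 0 := fun i l => sg_lin 0 _ (hsg _ 1)
  choose G hG1 hG2 hG3 using hG
  obtain ⟨a, ha⟩ : ∃ a : SL n → Mt n, a = dualf y := ⟨_, rfl⟩
  obtain ⟨A, hA⟩ : ∃ A : Mt n → SL n → Mt n, ∀ x g i l, A x g i l = (1 / 2) * G l i x g :=
    ⟨fun x g i l => (1 / 2) * G l i x g, fun _ _ _ _ => rfl⟩
  have hae : ∀ g i l, a g i l = (1 / 2) * y (Matrix.single l i (1 : ℝ)) g := by
    intro g i l
    rw [ha]
    have e : dualf y g i l = y (Matrix.single l i (1 : ℝ)) g / 2 := rfl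
    rw [e]
    ring
  have hRD : ∀ x : Mt n, x.trace = 0 → ∀ i l, RD x (fun g => a g i l) (fun g => A x g i l) := by
    intro x hx i l
    have h1 := jsmul x _ _ (1 / 2) (hG1 l i x hx)
    have e1 : (fun g => a g i l) = fun g => (1 / 2) * y (Matrix.single l i (1 : ℝ)) g :=
      funext fun g => hae g i l
    have e2 : (fun g => A x g i l) = fun g => (1 / 2) * G l i x g := funext fun g => hA x g i l
    rw [e1, e2]
    exact h1
  have hasym : ∀ g, Sym0 (a g) := by rw [ha]; exact hYOK.sym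
  -- bounds for `a`
  have haw : ∀ i l, WB θ m (C0 * M) (fun g => a g i l) := by
    intro i l
    have h1 := wsmul θ m (C0 * M) (1 / 2) _ (hyw _ (CF7_bx l i))
    have e1 : (fun g => a g i l) = fun g => (1 / 2) * y (Matrix.single l i (1 : ℝ)) g :=
      funext fun g => hae g i l
    rw [e1]
    refine wmono θ θ m _ _ _ hθ0.le le_rfl ?_ (by positivity) h1
    rw [abs_of_pos (by norm_num : (0 : ℝ) < 1 / 2)]
    have : 0 ≤ C0 * M := by positivity
    linarith
  -- bounds for `A`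
  have hGu : ∀ i l (e : Mt n) (F' : Fn n), T1 e → RD e (y (Matrix.single i l (1 : ℝ))) F' →
      F' = G i l e := fun i l e F' he h1 => juq e _ _ _ he.1 h1 (hG1 i l e he.1)
  have hAw : ∀ e : Mt n, T1 e → ∀ i l, WB θ m (C0 * M / s) (fun g => A e g i l) := by
    intro e he i l
    obtain ⟨F', h1, h2⟩ := hyd _ (CF7_bx l i) e he
    have h3 := hGu l i e F' he h1
    rw [h3] at h2
    have h4 := wsmul θ m (C0 * M / s) (1 / 2) _ h2
    have e2 : (fun g => A e g i l) = fun g => (1 / 2) * G l i e g := funext fun g => hA e g i l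
    rw [e2]
    refine wmono θ θ m _ _ _ hθ0.le le_rfl ?_ (by positivity) h4
    rw [abs_of_pos (by norm_num : (0 : ℝ) < 1 / 2)]
    have : 0 ≤ C0 * M / s := by positivity
    linarith
  obtain ⟨m1, rfl⟩ : ∃ m1, m = m1 + 1 := ⟨m - 1, by omega⟩
  have hAb : ∀ e : Mt n, T1 e → ∀ g i l, |A e g i l| ≤ C0 * M * θ := by
    intro e he g i l
    obtain ⟨F', h1, h2⟩ := (hyw _ (CF7_bx l i)).2 e he
    have h3 := hGu l i e F' he h1
    rw [h3] at h2
    have h4 := (CF7_mem h2).2 g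
    rw [hA, abs_mul, abs_of_pos (by norm_num : (0 : ℝ) < 1 / 2)]
    have : 0 ≤ C0 * M * θ := by positivity
    linarith
  have hab : ∀ g i l, |a g i l| ≤ C0 * M * θ := by
    intro g i l
    refine ((CF7_mem (haw i l)).2 g).trans ?_
    exact le_mul_of_one_le_right (by positivity) hθ
  -- `A` is symmetric of trace zero
  have hAsym : ∀ (e : Mt n) (g : SL n), T1 e → Sym0 (A e g) := by
    intro e g he
    refine ⟨?_, ?_⟩
    · ext i l
      rw [Matrix.transpose_apply]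
      have e1 : (fun g => a g l i) = fun g => a g i l := by
        funext g
        have := congrFun (congrFun (hasym g).1 i) l
        rw [Matrix.transpose_apply] at this
        exact this
      have h1 := hRD e he.1 l i
      rw [e1] at h1
      exact congrFun (juq e _ _ _ he.1 h1 (hRD e he.1 i l)) g
    · have h1 : RD e (fun g => ∑ i, a g i i) (fun g => ∑ i, A e g i i) :=
        CF7_sum Finset.univ fun i _ => hRD e he.1 i i
      have e1 : (fun g => ∑ i, a g i i) = fun _ : SL n => (0 : ℝ) := by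
        funext g
        exact (hasym g).2
      rw [e1] at h1
      exact congrFun (juq e _ _ _ he.1 h1 (jconst e 0)) g
  -- the derivative `D`
  obtain ⟨D, hD⟩ : ∃ D : Mt n → Fn n, ∀ v g, D v g = 2 * (v * A ((1 / 2 : ℝ) • v) g).trace :=
    ⟨fun v g => 2 * (v * A ((1 / 2 : ℝ) • v) g).trace, fun _ _ => rfl⟩
  have hDe : ∀ v g, D v g = ∑ i, ∑ l, v i l * G i l ((1 / 2 : ℝ) • v) g := by
    intro v g
    rw [hD]
    simp only [Matrix.trace, Matrix.diag, Matrix.mul_apply, hA, Finset.mul_sum]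
    refine Finset.sum_congr rfl fun i _ => Finset.sum_congr rfl fun l _ => ?_
    ring
  have hye : ∀ v g, y v g = ∑ i, ∑ l, v i l * y (Matrix.single i l (1 : ℝ)) g := by
    intro v g
    have h1 : v = ∑ i, ∑ l, v i l • Matrix.single i l (1 : ℝ) := by
      conv_lhs => rw [Matrix.matrix_eq_sum_single v]
      refine Finset.sum_congr rfl fun i _ => Finset.sum_congr rfl fun j _ => ?_
      rw [Matrix.smul_single, smul_eq_mul, mul_one]
    conv_lhs => rw [h1]
    simp only [map_sum, map_smul, Finset.sum_apply, Pi.smul_apply, smul_eq_mul]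
  have hRDv : ∀ v : Mt n, Sym0 v → RD ((1 / 2 : ℝ) • v) (y v) (D v) := by
    intro v hv
    have htr : ((1 / 2 : ℝ) • v).trace = 0 := by rw [Matrix.trace_smul, hv.2, smul_zero]
    have h1 : RD ((1 / 2 : ℝ) • v) (fun g => ∑ i, ∑ l, v i l * y (Matrix.single i l (1 : ℝ)) g)
        (fun g => ∑ i, ∑ l, v i l * G i l ((1 / 2 : ℝ) • v) g) :=
      CF7_sum Finset.univ fun i _ => CF7_sum Finset.univ fun l _ =>
        jsmul _ _ _ _ (hG1 i l _ htr)
    have e1 : y v = fun g => ∑ i, ∑ l, v i l * y (Matrix.single i l (1 : ℝ)) g :=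
      funext fun g => hye v g
    have e2 : D v = fun g => ∑ i, ∑ l, v i l * G i l ((1 / 2 : ℝ) • v) g := funext fun g => hDe v g
    rw [e1, e2]
    exact h1
  have hDc : ∀ v, Continuous (D v) := by
    intro v
    have e : D v = fun g => ∑ i, ∑ l, v i l * G i l ((1 / 2 : ℝ) • v) g := funext fun g => hDe v g
    rw [e]
    exact continuous_finsetSum _ fun i _ => continuous_finsetSum _ fun l _ =>
      continuous_const.mul (hG2 i l _)
  -- the residual
  have hJ := jp1 _ hη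
  obtain ⟨ρ, hρ⟩ : ∃ ρ : ℝ, ρ = C0 * (σ + δ * (s * θ) ^ (m1 + 1)) := ⟨_, rfl⟩
  have hρ0 : 0 ≤ ρ := by rw [hρ]; positivity
  obtain ⟨Λ, hΛ⟩ : ∃ Λ : ℝ, Λ = (4 + C0) * (M * θ ^ 2) := ⟨_, rfl⟩
  have hΛ0 : 0 ≤ Λ := by rw [hΛ]; positivity
  have hres := resid hn x y D (Jp (fun p => h p - gF p)) c (C0 * σ) ρ Λ (by positivity) hρ0 hΛ0
    hJ.cont hDc hen (fun v hv hb g => by rw [hρ]; exact hxy v hv hb g)
    (fun v hv _ => hRDv v hv) (by
      intro v hv hb
      have hT := CF7_half hv hb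
      obtain ⟨F1, h1, h2⟩ := (jp3 (fun p => h p - gF p) θ δ (m1 + 1) hθ hδ.le htw v v hb hb).2 _ hT
      obtain ⟨F2, h3, h4⟩ := (hyw v hb).2 _ hT
      have h5 : F2 = D v := juq _ _ _ _ hT.1 h3 (hRDv v hv)
      rw [h5] at h4
      obtain ⟨m2, rfl⟩ : ∃ m2, m1 = m2 + 1 := ⟨m1 - 1, by omega⟩
      obtain ⟨F3, h6, h7⟩ := h4.2 _ hT
      refine ⟨fun g => F1 g - 0 - F3 g, CF7_sub (CF7_sub h1 (jconst _ _)) h6, fun g => ?_⟩
      have b1 := (CF7_mem h2).2 g
      have b2 := (CF7_mem h7).2 g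
      have b3 : 4 * δ * θ ≤ 4 * (M * θ ^ 2) := by
        have : δ * θ ≤ M * θ ^ 2 := by
          calc δ * θ ≤ M * θ := mul_le_mul_of_nonneg_right hδM hθ0.le
            _ ≤ M * θ ^ 2 := mul_le_mul_of_nonneg_left (by nlinarith) hM.le
        linarith
      have b4 : C0 * M * θ * θ = C0 * (M * θ ^ 2) := by ring
      rw [b4] at b2
      show |F1 g - 0 - F3 g| ≤ Λ
      rw [hΛ, sub_zero]
      refine (abs_sub _ _).trans ?_
      linarith) τ hτ hτn
  -- smallness
  have hMθ : C0 * M * θ ≤ 1 := by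
    refine le_trans ?_ hCM
    refine mul_le_mul_of_nonneg_right (mul_le_mul_of_nonneg_right ?_ hM.le) hθ0.le
    linarith
  have h10 : 10 * M ≤ 1 := by
    have h1 : 10 * M ≤ C * M := mul_le_mul_of_nonneg_right (by linarith) hM.le
    have h2 : C * M ≤ C * M * θ := le_mul_of_one_le_right (by positivity) hθ
    linarith
  have hc10 : |c| ≤ 1 / 10 := by
    have := hap.bc
    linarith
  have h10θ : 10 * (M * θ) ≤ 1 := by
    have h1 : 10 * (M * θ) ≤ C * (M * θ) := mul_le_mul_of_nonneg_right (by linarith) (by positivity)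
    have h2 : C * (M * θ) = C * M * θ := by ring
    linarith
  have hδθ : δ * θ ≤ M * θ := mul_le_mul_of_nonneg_right hδM hθ0.le
  have hMs : C0 * M / s ≤ 1 := by
    rw [div_le_one hs]
    refine le_trans ?_ hCs
    exact mul_le_mul_of_nonneg_right (by linarith) hM.le
  have hMs2 : M ≤ M / s := by
    rw [le_div_iff₀ hs]
    exact mul_le_of_le_one_right hM.le hs1
  refine ⟨a, A, by rw [ha]; exact hYOK, hRD, fun i l => ?_, fun h' hsym hfr => ⟨?_, ?_⟩⟩
  · have h1 := wle θ (m1 + 1) 1 _ _ (by omega) (haw i l)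
    have h2 := CF7_one hθ (by positivity) h1
    refine wmono 1 1 1 _ _ _ zero_le_one le_rfl ?_ (by positivity) h2
    refine mul_le_mul_of_nonneg_right (mul_le_mul_of_nonneg_right ?_ hM.le) hθ0.le
    linarith
  · -- the high norm
    have h1 := hhigh a A h h' θ δ (C0 * M) (C0 * M / s) c hθ hδ.le (by linarith) (by positivity)
      (by nlinarith [mul_pos hC0p hM]) (by positivity) hMs hc10 hasym haw hAw hRD hh.symm htw hfr
    intro v w hv hw bv bw
    refine wmono θ θ (m1 + 1) _ _ _ hθ0.le le_rfl ?_ ?_ (h1 v w hv hw bv bw)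
    · have h2 := hap.bc
      have e1 : δ + C0 * M + C0 * M / s + |c| ≤ (2 * (C0 + 4)) * (M / s) := by
        have e2 : C0 * M ≤ C0 * (M / s) := mul_le_mul_of_nonneg_left hMs2 hC0p.le
        have e3 : C0 * M / s = C0 * (M / s) := by ring
        have e4 : 0 ≤ M / s := by positivity
        rw [e3]
        nlinarith
      calc C3 * (δ + C0 * M + C0 * M / s + |c|) ≤ C3 * ((2 * (C0 + 4)) * (M / s)) :=
            mul_le_mul_of_nonneg_left e1 hC3p.le
        _ = (2 * C3 * (C0 + 4)) * (M / s) := by ring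
        _ ≤ C * (M / s) := by
            refine mul_le_mul_of_nonneg_right ?_ (by positivity)
            rw [hCd]
            have e5 : C0 + 4 ≤ (C0 + 4) ^ 2 := by nlinarith
            have e6 : C3 * (C0 + 4) ≤ (C2 + C3) * (C0 + 4) ^ 2 :=
              mul_le_mul (by linarith) e5 (by positivity) (by positivity)
            have e7 : 0 ≤ (C2 + C3) * (C0 + 4) ^ 2 := by positivity
            nlinarith
        _ = C * M / s := by ring
    · have : 0 ≤ |c| := abs_nonneg c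
      positivity
  · -- the low norm
    intro v w hv hw bv bw g
    have htw1 : TW 1 1 (δ * θ) (fun p => h p - gF p) := fun v w hv hw bv bw =>
      CF7_one hθ hδ.le (wle θ (m1 + 1) 1 _ _ (by omega) (htw v w hv hw bv bw))
    obtain ⟨r0, hr0⟩ : ∃ r0 : ℝ, r0 = 2 * ((C0 * σ + ρ) / τ ^ 2 + Λ * τ) := ⟨_, rfl⟩
    have hr00 : 0 ≤ r0 := by rw [hr0]; positivity
    have h1 := hlow a A D h h' (δ * θ) (C0 * M * θ) c r0 (by positivity) (by linarith)
      (by positivity) hMθ hc10 hr00 hasym hAsym hab hAb (fun v _ _ g => (hD v g).symm) hh.symm hsym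
      htw1 (fun v hv bv g => by
        have h2 := hres v hv bv g
        rw [jp2 _ v v hv hv] at h2
        rw [hr0]
        exact h2) hfr v w hv hw bv bw g
    refine h1.trans ?_
    have e1 : r0 ≤ (4 * (C0 + 4)) * ((σ + δ * (s * θ) ^ (m1 + 1)) / τ ^ 2) +
        (2 * (C0 + 4)) * (M * θ ^ 2 * τ) := by
      have e2 : (C0 * σ + ρ) / τ ^ 2 ≤ (2 * (C0 + 4)) * ((σ + δ * (s * θ) ^ (m1 + 1)) / τ ^ 2) := by
        rw [← mul_div_assoc]
        refine div_le_div_of_nonneg_right ?_ (by positivity)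
        rw [hρ]
        have e3 : 0 ≤ δ * (s * θ) ^ (m1 + 1) := by positivity
        nlinarith
      have e3 : Λ * τ = (4 + C0) * (M * θ ^ 2 * τ) := by rw [hΛ]; ring
      rw [hr0, e3]
      linarith
    have e4 : (C0 * M * θ) ^ 2 + δ * θ * (C0 * M * θ) ≤ (C0 + 4) ^ 2 * (M * θ) ^ 2 := by
      have e5 : δ * θ * (C0 * M * θ) ≤ (M * θ) * (C0 * M * θ) :=
        mul_le_mul_of_nonneg_right hδθ (by positivity)
      have e6 : 0 ≤ (M * θ) ^ 2 := sq_nonneg _
      have e7 : (M * θ) * (C0 * M * θ) = C0 * (M * θ) ^ 2 := by ring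
      have e8 : (C0 * M * θ) ^ 2 = C0 ^ 2 * (M * θ) ^ 2 := by ring
      rw [e7] at e5
      rw [e8]
      nlinarith
    have hX0 : 0 ≤ (σ + δ * (s * θ) ^ (m1 + 1)) / τ ^ 2 := by positivity
    have hY0 : 0 ≤ M * θ ^ 2 * τ := by positivity
    have hZ0 : 0 ≤ (M * θ) ^ 2 := by positivity
    generalize (σ + δ * (s * θ) ^ (m1 + 1)) / τ ^ 2 = X at *
    generalize M * θ ^ 2 * τ = Y at *
    generalize (M * θ) ^ 2 = Z at *
    have e9 : r0 + (C0 * M * θ) ^ 2 + δ * θ * (C0 * M * θ) ≤ (4 * (C0 + 4) ^ 2) * (X + Y + Z) := by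
      have e10 : C0 + 4 ≤ (C0 + 4) ^ 2 := by nlinarith
      have e11 : (4 * (C0 + 4)) * X ≤ (4 * (C0 + 4) ^ 2) * X :=
        mul_le_mul_of_nonneg_right (by linarith) hX0
      have e12 : (2 * (C0 + 4)) * Y ≤ (4 * (C0 + 4) ^ 2) * Y :=
        mul_le_mul_of_nonneg_right (by nlinarith) hY0
      have e13 : (C0 + 4) ^ 2 * Z ≤ (4 * (C0 + 4) ^ 2) * Z :=
        mul_le_mul_of_nonneg_right (by nlinarith) hZ0
      linarith
    calc C2 * (r0 + (C0 * M * θ) ^ 2 + δ * θ * (C0 * M * θ)) ≤ C2 * ((4 * (C0 + 4) ^ 2) * (X + Y + Z)) :=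
          mul_le_mul_of_nonneg_left e9 hC2p.le
      _ = (4 * C2 * (C0 + 4) ^ 2) * (X + Y + Z) := by ring
      _ ≤ C * (X + Y + Z) := by
          refine mul_le_mul_of_nonneg_right ?_ (by linarith)
          rw [hCd]
          have e14 : 0 ≤ C3 * (C0 + 4) ^ 2 := by positivity
          have e15 : 0 ≤ C2 * (C0 + 4) ^ 2 := by positivity
          nlinarith

end FL27
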