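import Pool.Agent.LibFL27.CDefs

set_option autoImplicit false
set_option maxSynthPendingDepth 3

open Matrix MeasureTheory Topology Filter LibNC38
open LibNC27 hiding Mt
open scoped Matrix.Norms.Elementwise ContDiff

namespace FL27

/-- the gauge map of `PD n` -/
noncomputable def psi {n : ℕ} (a : SL n → Mt n) (p : PD n) : PD n := act (Ph a (tch p)) (o n)

private theorem CG1_inv {n : ℕ} {k : SL n} (hk : Ort k) : k.1⁻¹ = k.1ᵀ :=
  Matrix.inv_eq_right_inv hk

private theorem CG1_tr {n : ℕ} {k : SL n} (hk : Ort k) : k.1ᵀ * k.1 = 1 :=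
  mul_eq_one_comm.1 hk

private theorem CG1_unit {n : ℕ} (k : SL n) : IsUnit k.1 := by
  rw [Matrix.isUnit_iff_isUnit_det, k.2]
  exact isUnit_one

private theorem CG1_exp {n : ℕ} {k : SL n} (hk : Ort k) (x : Mt n) :
    NormedSpace.exp (k.1ᵀ * x * k.1) = k.1ᵀ * NormedSpace.exp x * k.1 := by
  have h := Matrix.exp_conj' k.1 x (CG1_unit k)
  rwa [CG1_inv hk] at h

private theorem CG1_ex {n : ℕ} {k : SL n} (hk : Ort k) (x : Mt n) :
    k * ex (k.1ᵀ * x * k.1) = ex x * k := by
  have hd : (NormedSpace.exp (k.1ᵀ * x * k.1)).det = (NormedSpace.exp x).det := by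
    rw [CG1_exp hk, Matrix.det_mul, Matrix.det_mul, Matrix.det_transpose, k.2, one_mul, mul_one]
  by_cases h : (NormedSpace.exp x).det = 1
  · have h' : (NormedSpace.exp (k.1ᵀ * x * k.1)).det = 1 := hd.trans h
    unfold ex
    rw [dif_pos h, dif_pos h']
    apply Subtype.ext
    show k.1 * NormedSpace.exp (k.1ᵀ * x * k.1) = NormedSpace.exp x * k.1
    have hk' : k.1 * k.1ᵀ = 1 := hk
    rw [CG1_exp hk, ← mul_assoc, ← mul_assoc, hk', one_mul]
  · have h' : ¬ (NormedSpace.exp (k.1ᵀ * x * k.1)).det = 1 := fun h1 => h (hd.symm.trans h1)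
    unfold ex
    rw [dif_neg h, dif_neg h', mul_one, one_mul]

private theorem CG1_orth {n : ℕ} (k : SL n) (hk : Ort k) : act k (o n) = o n := by
  apply Subtype.ext
  show k.1 * (1 : Mt n) * k.1ᵀ = 1
  rw [mul_one]
  exact hk

private theorem CG1_ort_of {n : ℕ} (k : SL n) (h : act k (o n) = o n) : Ort k := by
  have h1 := congrArg Subtype.val h
  have h2 : (act k (o n)).1 = k.1 * (1 : Mt n) * k.1ᵀ := rfl
  have h3 : (o n).1 = (1 : Mt n) := rfl
  rw [h2, h3, mul_one] at h1
  exact h1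

/-- Row CG1. PLAN. `g = tch p * k`, `k` orthogonal, `p = act g (o n)`; `a g = kᵀ (a (tch p)) k`, so
`ex (- a g / 2) = k⁻¹ ex (- a (tch p) / 2) k` (`NormedSpace.exp` of a conjugate; `ex x = exp x` for trace zero:
`det (exp x) = exp (tr x)`, `Matrix.det_exp`), `Ph a g = Ph a (tch p) * k`. -/
theorem psi_act {n : ℕ} (Γ : Subgroup (SL n)) (a : SL n → Mt n) (ha : YOK Γ a) :
    (∀ g, psi a (act g (o n)) = act (Ph a g) (o n)) ∧
    ∀ γ ∈ Γ, ∀ p, psi a (act γ p) = act γ (psi a p) := by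
  obtain ⟨hact1, hact2, -⟩ := @act_facts n
  have h1 : ∀ g, psi a (act g (o n)) = act (Ph a g) (o n) := by
    intro g
    set s : SL n := tch (act g (o n)) with hs
    have hsp : act s (o n) = act g (o n) := (tch_eq (act g (o n))).symm
    set k : SL n := s⁻¹ * g with hk
    have hko : act k (o n) = o n := by
      rw [hk, hact2, ← hsp, ← hact2, inv_mul_cancel, hact1]
    have hkO : Ort k := CG1_ort_of k hko
    have hg : g = s * k := by rw [hk, mul_inv_cancel_left]
    have e1 : Ph a g = Ph a s * k := by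
      unfold Ph
      have e2 : a g = k.1ᵀ * a s * k.1 := by
        conv_lhs => rw [hg]
        exact ha.ort k hkO s
      have e3 : -((1 / 2 : ℝ) • a g) = k.1ᵀ * (-((1 / 2 : ℝ) • a s)) * k.1 := by
        rw [e2, mul_neg, neg_mul, Matrix.mul_smul, Matrix.smul_mul]
      rw [e3]
      conv_lhs => rw [hg]
      rw [mul_assoc, CG1_ex hkO, ← mul_assoc]
    rw [e1, hact2, hko]
    rfl
  refine ⟨h1, fun γ hγ p => ?_⟩
  have hp : p = act (tch p) (o n) := tch_eq p
  have e4 : psi a (act γ p) = act (Ph a (γ * tch p)) (o n) := by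
    conv_lhs => rw [hp, ← hact2]
    exact h1 _
  have e5 : Ph a (γ * tch p) = γ * Ph a (tch p) := by
    unfold Ph
    rw [ha.inv γ hγ, mul_assoc]
  rw [e4, e5, hact2]
  rfl

end FL27
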