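import Pool.Agent.LibFL27.CDefs

set_option autoImplicit false
set_option maxSynthPendingDepth 3

open Matrix MeasureTheory Topology Filter LibNC38
open LibNC27 hiding Mt
open scoped Matrix.Norms.Elementwise ContDiff

namespace FL27

private theorem CS1_cd {n : ℕ} : ContDiff ℝ ω (fun B : Mt n => B * B) := by
  have h : ∀ i j, ContDiff ℝ ω (fun B : Mt n => (B * B) i j) := by
    intro i j
    simp only [Matrix.mul_apply]
    apply ContDiff.sum
    intro k _
    exact (contDiff_apply_apply ℝ ℝ i k).mul (contDiff_apply_apply ℝ ℝ k j)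
  exact contDiff_pi.2 fun i => contDiff_pi.2 fun j => h i j

private theorem CS1_der {n : ℕ} :
    HasFDerivAt (fun B : Mt n => B * B)
      ((ContinuousLinearEquiv.smulLeft (Units.mk0 (2 : ℝ) two_ne_zero) : Mt n ≃L[ℝ] Mt n) :
        Mt n →L[ℝ] Mt n) (1 : Mt n) := by
  have hd : HasFDerivAt (fun B : Mt n => B * B) (fderiv ℝ (fun B : Mt n => B * B) 1) (1 : Mt n) :=
    (CS1_cd.differentiable (by simp)).differentiableAt.hasFDerivAt
  have he : fderiv ℝ (fun B : Mt n => B * B) (1 : Mt n) =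
      ((ContinuousLinearEquiv.smulLeft (Units.mk0 (2 : ℝ) two_ne_zero) : Mt n ≃L[ℝ] Mt n) :
        Mt n →L[ℝ] Mt n) := by
    ext v i j
    have h1 : HasDerivAt (fun s : ℝ => (1 : Mt n) + s • v) v 0 := by
      have h := ((hasDerivAt_id (0 : ℝ)).smul_const v).const_add (1 : Mt n)
      rw [one_smul] at h
      exact h
    have h0 : (1 : Mt n) + (0 : ℝ) • v = 1 := by simp
    have h2 : HasDerivAt (fun s : ℝ => ((1 : Mt n) + s • v) * ((1 : Mt n) + s • v))
        (fderiv ℝ (fun B : Mt n => B * B) (1 : Mt n) v) 0 := by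
      have h3 : HasFDerivAt (fun B : Mt n => B * B) (fderiv ℝ (fun B : Mt n => B * B) 1)
          ((1 : Mt n) + (0 : ℝ) • v) := by rw [h0]; exact hd
      exact h3.comp_hasDerivAt (0 : ℝ) h1
    have h4 : HasDerivAt (fun s : ℝ => (((1 : Mt n) + s • v) * ((1 : Mt n) + s • v)) i j)
        (fderiv ℝ (fun B : Mt n => B * B) (1 : Mt n) v i j) 0 :=
      (hasDerivAt_pi.1 ((hasDerivAt_pi.1 h2) i)) j
    have h5 : HasDerivAt (fun s : ℝ => (((1 : Mt n) + s • v) * ((1 : Mt n) + s • v)) i j)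
        (2 * v i j) 0 := by
      have h6 : (fun s : ℝ => (((1 : Mt n) + s • v) * ((1 : Mt n) + s • v)) i j) =
          fun s : ℝ => (1 : Mt n) i j + s * (2 * v i j) + s ^ 2 * (v * v) i j := by
        funext s
        have : ((1 : Mt n) + s • v) * ((1 : Mt n) + s • v) =
            (1 : Mt n) + (s * 2) • v + (s ^ 2) • (v * v) := by
          rw [Matrix.add_mul, Matrix.mul_add, Matrix.mul_add, Matrix.one_mul, Matrix.mul_one,
            Matrix.one_mul, Matrix.smul_mul, Matrix.mul_smul, smul_smul, mul_two, add_smul,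
            pow_two]
          abel
        rw [this]
        simp only [Matrix.add_apply, Matrix.smul_apply, smul_eq_mul]
        ring
      rw [h6]
      have h7 : HasDerivAt (fun s : ℝ => (1 : Mt n) i j + s * (2 * v i j) + s ^ 2 * (v * v) i j)
          (1 * (2 * v i j) + ((2 : ℕ) : ℝ) * (0 : ℝ) ^ (2 - 1) * (v * v) i j) 0 :=
        (((hasDerivAt_id (0 : ℝ)).mul_const (2 * v i j)).const_add ((1 : Mt n) i j)).add
          ((hasDerivAt_pow 2 (0 : ℝ)).mul_const ((v * v) i j))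
      simpa using h7
    have h8 := h4.unique h5
    rw [h8]
    simp [ContinuousLinearEquiv.smulLeft]
  rw [← he]
  exact hd

private theorem CS1_root {n : ℕ} : ∃ (R : Mt n → Mt n) (G : Set (Mt n)), IsOpen G ∧ (1 : Mt n) ∈ G ∧
    R 1 = 1 ∧ ContDiffOn ℝ ω R G ∧ ∀ B ∈ G, R B * R B = B ∧ (Bᵀ = B → (R B)ᵀ = R B) ∧
      0 < (R B).det := by
  have hs : HasStrictFDerivAt (fun B : Mt n => B * B)
      ((ContinuousLinearEquiv.smulLeft (Units.mk0 (2 : ℝ) two_ne_zero) : Mt n ≃L[ℝ] Mt n) :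
        Mt n →L[ℝ] Mt n) (1 : Mt n) :=
    (CS1_cd (n := n)).contDiffAt.hasStrictFDerivAt' CS1_der (by simp)
  have hcd : ContDiffAt ℝ ω (fun B : Mt n => B * B) (1 : Mt n) := CS1_cd.contDiffAt
  have hn : (ω : WithTop ℕ∞) ≠ 0 := by simp
  let R : Mt n → Mt n := hcd.localInverse CS1_der hn
  have hR : ContDiffAt ℝ ω R ((1 : Mt n) * 1) := hcd.to_localInverse CS1_der hn
  rw [Matrix.one_mul] at hR
  have hl : ∀ᶠ x in 𝓝 (1 : Mt n), R (x * x) = x := hs.eventually_left_inverse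
  have hr : ∀ᶠ y in 𝓝 ((1 : Mt n) * 1), R y * R y = y := hs.eventually_right_inverse
  rw [Matrix.one_mul] at hr
  have h1 : R 1 = 1 := by
    have := hl.self_of_nhds
    rwa [Matrix.one_mul] at this
  have hc : ContinuousAt R 1 := hR.continuousAt
  have hlt : ∀ᶠ B in 𝓝 (1 : Mt n), R ((R B)ᵀ * (R B)ᵀ) = (R B)ᵀ := by
    have hc' : Tendsto (fun B => (R B)ᵀ) (𝓝 (1 : Mt n)) (𝓝 (1 : Mt n)) := by
      have h2 : ContinuousAt (fun B => (R B)ᵀ) (1 : Mt n) :=
        (continuous_id.matrix_transpose).continuousAt.comp hc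
      have h3 := h2.tendsto
      simp only [h1, Matrix.transpose_one] at h3
      exact h3
    exact hc'.eventually hl
  have hdet : ∀ᶠ B in 𝓝 (1 : Mt n), 0 < (R B).det := by
    have h2 : ContinuousAt (fun B => (R B).det) (1 : Mt n) :=
      (continuous_id.matrix_det).continuousAt.comp hc
    have h3 : 0 < (R 1).det := by rw [h1, Matrix.det_one]; exact one_pos
    exact h2.eventually (lt_mem_nhds h3)
  obtain ⟨u, hu, huR⟩ := hR.contDiffOn (m := ω) le_rfl (fun h => rfl)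
  have hall : ∀ᶠ B in 𝓝 (1 : Mt n), B ∈ u ∧ R B * R B = B ∧ (Bᵀ = B → (R B)ᵀ = R B) ∧
      0 < (R B).det := by
    filter_upwards [hu, hr, hlt, hdet] with B hB1 hB2 hB3 hB4
    refine ⟨hB1, hB2, ?_, hB4⟩
    intro hB
    rw [← Matrix.transpose_mul, hB2, hB] at hB3
    exact hB3.symm
  obtain ⟨G, hG, hGo, hG1⟩ := eventually_nhds_iff.1 hall
  exact ⟨R, G, hGo, hG1, h1, huR.mono fun B hB => (hG B hB).1, fun B hB => (hG B hB).2⟩

/-- Row CS1. Local smooth sections of `g ↦ g gᵀ`. PLAN. The map `B ↦ B * B` has derivative `2 id` at `1`;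
inverse function theorem (`HasStrictFDerivAt.toOpenPartialHomeomorph`, `ContDiffAt.to_localInverse`): `R` smooth near `1`,
`R B * R B = B`, `R 1 = 1`, unique near `1`, so `R Bᵀ = (R B)ᵀ` near `1`. For symmetric `B` of determinant
one near `1`: `R B * (R B)ᵀ = B`, `det (R B) = ± 1`, so `1` by continuity. `s A := g0 * R (g0⁻¹ (ret A) g0⁻ᵀ)`
(an element of `SL n` for `A` in a neighbourhood `U` of `A0`, `1` outside). -/
theorem sec_loc {n : ℕ} (A0 : Mt n) (hA : A0 ∈ PU n) (g0 : SL n) (h0 : act g0 (o n) = ret A0) :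
    ∃ (U : Set (Mt n)) (s : Mt n → SL n), IsOpen U ∧ A0 ∈ U ∧ U ⊆ PU n ∧ s A0 = g0 ∧
      ContDiffOn ℝ ∞ (fun A => (s A).1) U ∧ ∀ A ∈ U, act (s A) (o n) = ret A := by
  classical
  obtain ⟨R, G, hGo, hG1, hR1, hRs, hRp⟩ := CS1_root (n := n)
  have hgi : (g0⁻¹).1 * g0.1 = 1 := by
    have h := congrArg Subtype.val (inv_mul_cancel g0)
    exact h
  have hig : g0.1 * (g0⁻¹).1 = 1 := by
    have h := congrArg Subtype.val (mul_inv_cancel g0)
    exact h
  have hgt : g0.1ᵀ * (g0⁻¹).1ᵀ = 1 := by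
    rw [← Matrix.transpose_mul, hgi, Matrix.transpose_one]
  have htg : (g0⁻¹).1ᵀ * g0.1ᵀ = 1 := by
    rw [← Matrix.transpose_mul, hig, Matrix.transpose_one]
  let c : Mt n → Mt n := fun A => (g0⁻¹).1 * (ret A).1 * (g0⁻¹).1ᵀ
  have hcs : ContDiffOn ℝ ∞ c (PU n) := by
    let L : Mt n →ₗ[ℝ] Mt n :=
      { toFun := fun X => (g0⁻¹).1 * X * (g0⁻¹).1ᵀ
        map_add' := fun X Y => by rw [Matrix.mul_add, Matrix.add_mul]
        map_smul' := fun r X => by
          rw [Matrix.mul_smul, Matrix.smul_mul]; rfl }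
    exact (LinearMap.toContinuousLinearMap L).contDiff.comp_contDiffOn ret_smooth
  have hc0 : c A0 = 1 := by
    show (g0⁻¹).1 * (ret A0).1 * (g0⁻¹).1ᵀ = 1
    rw [← h0]
    show (g0⁻¹).1 * (g0.1 * 1 * g0.1ᵀ) * (g0⁻¹).1ᵀ = 1
    rw [Matrix.mul_one, ← Matrix.mul_assoc, hgi, Matrix.one_mul, hgt]
  have hcsym : ∀ A, (c A)ᵀ = c A := by
    intro A
    have h1 : (ret A).1ᵀ = (ret A).1 := by
      have h2 := (ret A).2.1.isHermitian
      rwa [Matrix.IsHermitian, Matrix.conjTranspose_eq_transpose_of_trivial] at h2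
    show ((g0⁻¹).1 * (ret A).1 * (g0⁻¹).1ᵀ)ᵀ = (g0⁻¹).1 * (ret A).1 * (g0⁻¹).1ᵀ
    rw [Matrix.transpose_mul, Matrix.transpose_mul, Matrix.transpose_transpose, h1,
      Matrix.mul_assoc]
  have hcdet : ∀ A, (c A).det = 1 := by
    intro A
    exact (act_mem (g0⁻¹) (ret A)).2
  let U : Set (Mt n) := PU n ∩ c ⁻¹' G
  have hUo : IsOpen U := hcs.continuousOn.isOpen_inter_preimage PU_open hGo
  have hRd : ∀ A ∈ U, (R (c A)).det = 1 := by
    intro A hAU
    obtain ⟨h1, -, h3⟩ := hRp (c A) hAU.2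
    have h4 : (R (c A)).det * (R (c A)).det = 1 := by
      rw [← Matrix.det_mul, h1, hcdet]
    nlinarith
  let s : Mt n → SL n := fun A => if h : (R (c A)).det = 1 then g0 * ⟨R (c A), h⟩ else 1
  have hsv : ∀ A ∈ U, (s A).1 = g0.1 * R (c A) := by
    intro A hAU
    have h := hRd A hAU
    show (if h : (R (c A)).det = 1 then g0 * ⟨R (c A), h⟩ else 1 : SL n).1 = g0.1 * R (c A)
    rw [dif_pos h]
    rfl
  have hA0 : A0 ∈ U := ⟨hA, by show c A0 ∈ G; rw [hc0]; exact hG1⟩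
  refine ⟨U, s, hUo, hA0, Set.inter_subset_left, ?_, ?_, ?_⟩
  · apply Subtype.ext
    rw [hsv A0 hA0, hc0, hR1, Matrix.mul_one]
  · have h1 : ContDiffOn ℝ ∞ (fun A => g0.1 * R (c A)) U := by
      let L : Mt n →ₗ[ℝ] Mt n :=
        { toFun := fun X => g0.1 * X
          map_add' := fun X Y => Matrix.mul_add _ _ _
          map_smul' := fun r X => by rw [Matrix.mul_smul]; rfl }
      have h2 : ContDiffOn ℝ ∞ (fun A => R (c A)) U :=
        (hRs.of_le (by exact_mod_cast le_top)).comp (hcs.mono Set.inter_subset_left)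
          (fun A hAU => hAU.2)
      exact (LinearMap.toContinuousLinearMap L).contDiff.comp_contDiffOn h2
    exact h1.congr hsv
  · intro A hAU
    apply Subtype.ext
    show (s A).1 * 1 * (s A).1ᵀ = (ret A).1
    obtain ⟨h1, h2, -⟩ := hRp (c A) hAU.2
    rw [hsv A hAU, Matrix.mul_one, Matrix.transpose_mul, h2 (hcsym A), ← Matrix.mul_assoc,
      Matrix.mul_assoc g0.1, h1]
    show g0.1 * ((g0⁻¹).1 * (ret A).1 * (g0⁻¹).1ᵀ) * g0.1ᵀ = (ret A).1
    rw [Matrix.mul_assoc, Matrix.mul_assoc ((g0⁻¹).1 * (ret A).1), htg, Matrix.mul_one,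
      ← Matrix.mul_assoc, hig, Matrix.one_mul]

end FL27
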