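import Pool.Agent.LibFL27.CS0

set_option autoImplicit false
set_option maxSynthPendingDepth 3

open Matrix MeasureTheory Topology Filter LibNC38
open LibNC27 hiding Mt
open scoped Matrix.Norms.Elementwise ContDiff

namespace FL27

private theorem CS2_cont {n : ℕ} : ∀ (k : ℕ) (F : Fn n), SG k F → Continuous F
  | 0, _, h => h
  | _ + 1, _, h => h.1

/-- the trace zero matrices spanning -/
private noncomputable def CS2_e {n : ℕ} (p : Fin n × Fin n) : Mt n :=
  Matrix.single p.1 p.2 (1 : ℝ) - (if p.1 = p.2 then (1 / n : ℝ) else 0) • (1 : Mt n)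

private theorem CS2_tr {n : ℕ} (p : Fin n × Fin n) : (CS2_e p).trace = 0 := by
  obtain ⟨i, j⟩ := p
  have hn : (n : ℝ) ≠ 0 := by
    have : 0 < n := i.pos
    positivity
  unfold CS2_e
  simp only [Matrix.trace_sub, Matrix.trace_smul, Matrix.trace_one, Fintype.card_fin, smul_eq_mul]
  by_cases h : i = j
  · subst h
    rw [if_pos rfl, Matrix.trace_single_eq_same]
    field_simp
    ring
  · rw [if_neg h, Matrix.trace_single_eq_of_ne _ _ _ h]
    ring

private theorem CS2_sum {n : ℕ} (x : Mt n) (hx : x.trace = 0) :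
    ∑ p : Fin n × Fin n, x p.1 p.2 • CS2_e p = x := by
  ext a b
  rw [Matrix.sum_apply]
  have h1 : ∀ p : Fin n × Fin n, (x p.1 p.2 • CS2_e p) a b =
      (if p.1 = a ∧ p.2 = b then x p.1 p.2 else 0) -
        (if p.1 = p.2 then x p.1 p.2 / n * (1 : Mt n) a b else 0) := by
    intro p
    obtain ⟨i, j⟩ := p
    unfold CS2_e
    simp only [Matrix.smul_apply, Matrix.sub_apply, smul_eq_mul, Matrix.single_apply]
    split_ifs <;> ring
  rw [Finset.sum_congr rfl fun p _ => h1 p, Finset.sum_sub_distrib]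
  have h2 : ∑ p : Fin n × Fin n, (if p.1 = a ∧ p.2 = b then x p.1 p.2 else 0) = x a b := by
    rw [Finset.sum_eq_single (a, b)]
    · simp
    · rintro ⟨i, j⟩ - hne
      rw [if_neg]
      rintro ⟨h3, h4⟩
      exact hne (by simp at h3 h4; rw [h3, h4])
    · intro h
      exact absurd (Finset.mem_univ _) h
  have h3 : ∑ p : Fin n × Fin n, (if p.1 = p.2 then x p.1 p.2 / n * (1 : Mt n) a b else 0) = 0 := by
    rw [Fintype.sum_prod_type]
    have h4 : ∀ i : Fin n, ∑ j : Fin n, (if i = j then x i j / n * (1 : Mt n) a b else 0) =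
        x i i / n * (1 : Mt n) a b := by
      intro i
      rw [Finset.sum_ite_eq]
      simp
    rw [Finset.sum_congr rfl fun i _ => h4 i, ← Finset.sum_mul, ← Finset.sum_div]
    have h5 : ∑ i : Fin n, x i i = 0 := hx
    rw [h5]
    simp
  rw [h2, h3, sub_zero]

private theorem CS2_lin {n : ℕ} (Fd : Mt n → Fn n)
    (hl : ∀ (x y : Mt n) (r : ℝ), x.trace = 0 → y.trace = 0 → ∀ g,
      Fd (x + r • y) g = Fd x g + r * Fd y g) (g : SL n) (c : Fin n × Fin n → ℝ)
    (I : Finset (Fin n × Fin n)) :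
    (∑ p ∈ I, c p • CS2_e p).trace = 0 ∧
      Fd (∑ p ∈ I, c p • CS2_e p) g = ∑ p ∈ I, c p * Fd (CS2_e p) g := by
  classical
  have h0 : Fd 0 g = 0 := by
    have h := hl 0 0 1 (Matrix.trace_zero _ _) (Matrix.trace_zero _ _) g
    simp at h
    exact h
  induction I using Finset.induction_on with
  | empty => simpa using h0
  | insert p I hp ih =>
    rw [Finset.sum_insert hp, Finset.sum_insert hp, add_comm]
    refine ⟨?_, ?_⟩
    · rw [Matrix.trace_add, ih.1, Matrix.trace_smul, CS2_tr]; simp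
    · rw [hl _ _ _ ih.1 (CS2_tr p), ih.2, add_comm]

private theorem CS2_inv {n : ℕ} {E : Type} [NormedAddCommGroup E]
    [NormedSpace ℝ E] (U : Set E) (s : E → SL n)
    (hs : ∀ i j, ContDiffOn ℝ ∞ (fun A => (s A).1 i j) U) (i j : Fin n) :
    ContDiffOn ℝ ∞ (fun A => (s A)⁻¹.1 i j) U := by
  have h1 : (fun A => (s A)⁻¹.1 i j) = fun A =>
      ∑ σ : Equiv.Perm (Fin n), ((Equiv.Perm.sign σ : ℤ) : ℝ) *
        ∏ k : Fin n, (if σ k = j then (Pi.single i (1 : ℝ) : Fin n → ℝ) k else (s A).1 (σ k) k) := by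
    funext A
    have h2 : (s A)⁻¹.1 = adjugate (s A).1 := Matrix.SpecialLinearGroup.coe_inv _
    rw [h2, Matrix.adjugate_apply, Matrix.det_apply']
    refine Finset.sum_congr rfl fun σ _ => ?_
    congr 1
    refine Finset.prod_congr rfl fun k _ => ?_
    rw [Matrix.updateRow_apply]
  rw [h1]
  refine ContDiffOn.sum fun σ _ => ?_
  refine contDiffOn_const.mul ?_
  refine contDiffOn_prod fun k _ => ?_
  by_cases h : σ k = j
  · simp only [h, if_true]
    exact contDiffOn_const
  · simp only [h, if_false]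
    exact hs _ _

private theorem CS2_main {n : ℕ} {E : Type} [NormedAddCommGroup E]
    [NormedSpace ℝ E] (U : Set E) (hU : IsOpen U) (s : E → SL n)
    (hs : ContDiffOn ℝ ∞ (fun A => (s A).1) U) (k : ℕ) :
    ∀ F : Fn n, SG k F → ContDiffOn ℝ k (fun A => F (s A)) U := by
  have hent : ∀ i j, ContDiffOn ℝ ∞ (fun A => (s A).1 i j) U := by
    intro i j
    have h := ((Matrix.entryLinearMap ℝ ℝ i j).toContinuousLinearMap : Mt n →L[ℝ] ℝ).contDiff (n := ∞)
    exact h.comp_contDiffOn hs
  have hsc : ContinuousOn s U := by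
    have hce : IsClosedEmbedding ((↑) : SL n → Matrix (Fin n) (Fin n) ℝ) :=
      Matrix.SpecialLinearGroup.isClosedEmbedding_val
    exact (IsInducing.continuousOn_iff hce.isInducing).2 hs.continuousOn
  induction k with
  | zero =>
    intro F hF
    have h : ContDiffOn ℝ 0 (fun A => F (s A)) U :=
      contDiffOn_zero.2 ((CS2_cont 0 F hF).comp_continuousOn hsc)
    exact_mod_cast h
  | succ k ih =>
    intro F hF
    classical
    have hch : ∀ x : Mt n, ∃ F' : Fn n, x.trace = 0 → (RD x F F' ∧ SG k F') := by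
      intro x
      by_cases hx : x.trace = 0
      · obtain ⟨F', h1, h2⟩ := hF.2 x hx
        exact ⟨F', fun _ => ⟨h1, h2⟩⟩
      · exact ⟨0, fun h => absurd h hx⟩
    choose Fd hFd using hch
    obtain ⟨hlin, hder⟩ := rd_frechet F Fd (fun x hx => (hFd x hx).1)
      (fun x hx => CS2_cont k _ (hFd x hx).2)
    have hform : ∀ A ∈ U, HasFDerivAt (fun B => F (s B))
        (∑ p : Fin n × Fin n, Fd (CS2_e p) (s A) •
          ∑ l : Fin n, (s A)⁻¹.1 p.1 l • fderiv ℝ (fun B => (s B).1 l p.2) A) A := by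
      intro A hA
      have hsA : HasFDerivAt (fun B => (s B).1) (fderiv ℝ (fun B => (s B).1) A) A :=
        ((hs.contDiffAt (hU.mem_nhds hA)).differentiableAt (by simp)).hasFDerivAt
      obtain ⟨htr, L', hL', hval⟩ := hder s A _ hsA
      have hent' : ∀ (i j : Fin n) (w : E), fderiv ℝ (fun B => (s B).1 i j) A w =
          (fderiv ℝ (fun B => (s B).1) A w) i j := by
        intro i j w
        have h1 : HasFDerivAt (fun B => (s B).1 i j)
            (((Matrix.entryLinearMap ℝ ℝ i j).toContinuousLinearMap : Mt n →L[ℝ] ℝ).comp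
              (fderiv ℝ (fun B => (s B).1) A)) A :=
          (((Matrix.entryLinearMap ℝ ℝ i j).toContinuousLinearMap :
            Mt n →L[ℝ] ℝ).hasFDerivAt).comp A hsA
        rw [h1.fderiv]
        rfl
      have heq : L' = ∑ p : Fin n × Fin n, Fd (CS2_e p) (s A) •
          ∑ l : Fin n, (s A)⁻¹.1 p.1 l • fderiv ℝ (fun B => (s B).1 l p.2) A := by
        ext w
        rw [hval w]
        set y : Mt n := (s A)⁻¹.1 * fderiv ℝ (fun B => (s B).1) A w with hy
        have h1 := CS2_sum y (htr w)
        have h2 := (CS2_lin Fd hlin (s A) (fun p => y p.1 p.2) Finset.univ).2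
        rw [h1] at h2
        rw [h2, _root_.sum_apply]
        refine Finset.sum_congr rfl fun p _ => ?_
        rw [_root_.smul_apply, _root_.sum_apply, smul_eq_mul, mul_comm]
        congr 1
        rw [hy, Matrix.mul_apply]
        refine Finset.sum_congr rfl fun l _ => ?_
        rw [_root_.smul_apply, smul_eq_mul, hent']
      rw [heq] at hL'
      exact hL'
    have hcast : ((k + 1 : ℕ) : WithTop ℕ∞) = (k : WithTop ℕ∞) + 1 := by push_cast; rfl
    rw [hcast, contDiffOn_succ_iff_fderiv_of_isOpen hU]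
    refine ⟨fun A hA => (hform A hA).differentiableAt.differentiableWithinAt, ?_, ?_⟩
    · intro h
      exact absurd h (by simp)
    · have hk : ContDiffOn ℝ k (fun A => ∑ p : Fin n × Fin n, Fd (CS2_e p) (s A) •
          ∑ l : Fin n, (s A)⁻¹.1 p.1 l • fderiv ℝ (fun B => (s B).1 l p.2) A) U := by
        refine ContDiffOn.sum fun p _ => ?_
        refine (ih _ (hFd _ (CS2_tr p)).2).smul ?_
        refine ContDiffOn.sum fun l _ => ?_
        refine ((CS2_inv U s hent p.1 l).of_le (by exact_mod_cast le_top)).smul ?_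
        exact (hent l p.2).fderiv_of_isOpen hU (by
          norm_cast
          exact_mod_cast le_top)
      exact hk.congr fun A hA => (hform A hA).fderiv

/-- Row CS2. Functions with all word derivatives are smooth along smooth maps into the group. PLAN.
Induction: for all `k` and all `F` with `∀ j, SG j F` the function `F ∘ s` is `C^k` on `U`. Derivative of `F ∘ s` at
`A` (`rd_frechet`; the derivatives `Fd x` of `F` along `x` are unique, so they satisfy `∀ j, SG j`): with a basis
`e_l` of the matrices of trace zero, `D(F ∘ s)(A) w = ∑ l, c_l(A, w) * Fd (e_l) (s A)`, `c_l` = coordinates of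
`(s A)⁻¹ D s(A) w`, smooth in `A`, linear in `w`; `contDiffOn_succ_iff_fderiv_of_isOpen`. -/
theorem sg_sec {n : ℕ} (F : Fn n) (hF : ∀ j, SG j F) {E : Type} [NormedAddCommGroup E]
    [NormedSpace ℝ E] (U : Set E) (hU : IsOpen U) (s : E → SL n)
    (hs : ContDiffOn ℝ ∞ (fun A => (s A).1) U) : ContDiffOn ℝ ∞ (fun A => F (s A)) U := by
  rw [contDiffOn_infty]
  intro k
  exact CS2_main U hU s hs k F (hF k)

end FL27
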