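import Pool.Agent.LibFL27.CG1
import Pool.Agent.LibFL27.CS1
import Pool.Agent.LibFL27.CS2

set_option autoImplicit false
set_option maxSynthPendingDepth 3

open Matrix MeasureTheory Topology Filter LibNC38
open LibNC27 hiding Mt
open scoped Matrix.Norms.Elementwise ContDiff

namespace FL27

private theorem CG2_ex {n : ℕ} {x : Mt n} (hx : Sym0 x) : (ex x).1 = NormedSpace.exp x := by
  have h1 : (NormedSpace.exp x).det = 1 := by
    rw [det_exp_symm x hx.1, hx.2, Real.exp_zero]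
  unfold ex
  rw [dif_pos h1]

private theorem CG2_sym {n : ℕ} {x : Mt n} (hx : Sym0 x) : Sym0 (-((1 / 2 : ℝ) • x)) := by
  refine ⟨?_, ?_⟩
  · rw [Matrix.transpose_neg, Matrix.transpose_smul, hx.1]
  · rw [Matrix.trace_neg, Matrix.trace_smul, hx.2, smul_zero, neg_zero]

/-- Row CG2. The gauge map is smooth. PLAN. Near `A0 ∈ PU n`: `s` from `sec_loc` (`g0 = tch (ret A0)`), and
`(psi a (ret A)).1 = s(A) * exp (- a (s A)) * s(A)ᵀ` for `A ∈ U` (`psi_act`, `ex x * (ex x)ᵀ = exp (2 x)` for symmetric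
`x`); `sg_sec` for the entries of `a`, `NormedSpace.exp` is smooth. -/
theorem psi_smooth {n : ℕ} (Γ : Subgroup (SL n)) (a : SL n → Mt n) (ha : YOK Γ a) : SmX (psi a) := by
  intro A0 hA0
  obtain ⟨U, s, hU, hAU, -, -, hs, hsU⟩ := sec_loc A0 hA0 (tch (ret A0)) (tch_eq (ret A0)).symm
  have ha1 : ContDiffOn ℝ ∞ (fun A => -((1 / 2 : ℝ) • a (s A))) U := by
    rw [cd_iff]
    intro i j
    have h1 : ContDiffOn ℝ ∞ (fun A => a (s A) i j) U :=
      sg_sec (fun g => a g i j) (fun k => ha.smooth k i j) U hU s hs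
    have h2 : (fun A => (-((1 / 2 : ℝ) • a (s A))) i j) = fun A => -((1 / 2 : ℝ) * a (s A) i j) := by
      funext A
      simp only [Matrix.neg_apply, Matrix.smul_apply, smul_eq_mul]
    rw [h2]
    exact (contDiffOn_const.mul h1).neg
  have hE : ContDiffOn ℝ ∞ (fun A => NormedSpace.exp (-((1 / 2 : ℝ) • a (s A)))) U :=
    exp_smoothm.comp_contDiffOn ha1
  have hP : ContDiffOn ℝ ∞ (fun A => (s A).1 * NormedSpace.exp (-((1 / 2 : ℝ) • a (s A)))) U :=
    cd_mul hs hE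
  have hF : ContDiffOn ℝ ∞ (fun A => (s A).1 * NormedSpace.exp (-((1 / 2 : ℝ) • a (s A))) *
      ((s A).1 * NormedSpace.exp (-((1 / 2 : ℝ) • a (s A))))ᵀ) U := cd_mul hP (cd_transpose hP)
  have hEq : ∀ A ∈ U, (psi a (ret A)).1 = (s A).1 * NormedSpace.exp (-((1 / 2 : ℝ) • a (s A))) *
      ((s A).1 * NormedSpace.exp (-((1 / 2 : ℝ) • a (s A))))ᵀ := by
    intro A hA
    rw [← hsU A hA, (psi_act Γ a ha).1 (s A)]
    have h1 : (Ph a (s A)).1 = (s A).1 * NormedSpace.exp (-((1 / 2 : ℝ) • a (s A))) := by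
      unfold Ph
      rw [← CG2_ex (CG2_sym (ha.sym (s A)))]
      exact Matrix.SpecialLinearGroup.coe_mul _ _
    show (Ph a (s A)).1 * (1 : Mt n) * (Ph a (s A)).1ᵀ = _
    rw [Matrix.mul_one, h1]
  have h3 : ContDiffAt ℝ ∞ (fun A => (s A).1 * NormedSpace.exp (-((1 / 2 : ℝ) • a (s A))) *
      ((s A).1 * NormedSpace.exp (-((1 / 2 : ℝ) • a (s A))))ᵀ) A0 :=
    hF.contDiffAt (hU.mem_nhds hAU)
  refine (h3.congr_of_eventuallyEq ?_).contDiffWithinAt
  filter_upwards [hU.mem_nhds hAU] with A hA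
  exact hEq A hA

end FL27
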