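import Pool.Agent.LibFL27.CDefs
import Pool.Agent.LibNC38.G1a

set_option autoImplicit false
set_option maxSynthPendingDepth 3

open Matrix MeasureTheory Topology Filter LibNC38
open LibNC27 hiding Mt

namespace FL27

open scoped Matrix.Norms.Operator in
private theorem CS0_expd {n : ℕ} (x : Matrix (Fin n) (Fin n) ℝ) (t : ℝ) (a b : Fin n) :
    HasDerivAt (fun u : ℝ => (NormedSpace.exp (u • x)) a b) ((NormedSpace.exp (t • x) * x) a b) t := by
  have : CompleteSpace (Matrix (Fin n) (Fin n) ℝ) := FiniteDimensional.complete ℝ _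
  have h := hasDerivAt_exp_smul_const (𝕂 := ℝ) x t
  let P : Matrix (Fin n) (Fin n) ℝ →ₗ[ℝ] ℝ := Matrix.entryLinearMap ℝ ℝ a b
  exact (LinearMap.toContinuousLinearMap P).hasFDerivAt.comp_hasDerivAt t h

end FL27

open scoped Matrix.Norms.Elementwise ContDiff

namespace FL27

private theorem CS0_entry {n : ℕ} (i j : Fin n) : ∃ P : Mt n →L[ℝ] ℝ, ∀ A, P A = A i j :=
  ⟨(ContinuousLinearMap.proj (R := ℝ) (φ := fun _ : Fin n => ℝ) j).comp
    (ContinuousLinearMap.proj (R := ℝ) (φ := fun _ : Fin n => Fin n → ℝ) i), fun _ => rfl⟩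

private theorem CS0_det {n : ℕ} : ∃ T : Mt n →L[ℝ] ℝ, (∀ X, T X = X.trace) ∧
    HasFDerivAt (fun A : Mt n => A.det) T 1 := by
  have hd : DifferentiableAt ℝ (fun A : Mt n => A.det) 1 := by
    have h1 : ContDiff ℝ 1 (fun A : Mt n => A.det) := by
      simp only [Matrix.det_apply]
      refine ContDiff.sum fun σ _ => ContDiff.const_smul _ (contDiff_prod fun i _ => ?_)
      obtain ⟨P, hP⟩ := CS0_entry (σ i) i
      have h2 : (fun A : Mt n => A (σ i) i) = fun A => P A := by
        funext A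
        exact (hP A).symm
      rw [h2]
      exact P.contDiff
    exact (h1.differentiable (by norm_num)).differentiableAt
  refine ⟨fderiv ℝ (fun A : Mt n => A.det) 1, fun X => ?_, hd.hasFDerivAt⟩
  have hc : HasDerivAt (fun s : ℝ => (1 : Mt n) + s • X) X 0 := by
    have h2 : HasDerivAt (fun s : ℝ => (1 : Mt n) + s • X) ((1 : ℝ) • X) 0 :=
      ((hasDerivAt_id (0 : ℝ)).smul_const X).const_add 1
    rwa [one_smul] at h2
  have h3 : HasDerivAt (fun s : ℝ => ((1 : Mt n) + s • X).det) (fderiv ℝ (fun A : Mt n => A.det) 1 X) 0 := by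
    have h4 : HasFDerivAt (fun A : Mt n => A.det) (fderiv ℝ (fun A : Mt n => A.det) 1) ((1 : Mt n) + (0 : ℝ) • X) := by
      rw [zero_smul, add_zero]
      exact hd.hasFDerivAt
    exact h4.comp_hasDerivAt (0 : ℝ) hc
  have h5 : HasDerivAt (fun s : ℝ => ((1 : Mt n) + s • X).det) X.trace 0 := by
    obtain ⟨P, hP⟩ : ∃ P : Polynomial ℝ, ∀ s : ℝ, ((1 : Mt n) + s • X).det =
        1 + X.trace * s + Polynomial.eval s P * s ^ 2 :=
      ⟨_, fun s => Matrix.det_one_add_smul s X⟩
    have e : (fun s : ℝ => ((1 : Mt n) + s • X).det) =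
        fun s => 1 + X.trace * s + Polynomial.eval s P * s ^ 2 := funext hP
    rw [e]
    have h6 : HasDerivAt (fun s : ℝ => Polynomial.eval s P * s ^ 2)
        (Polynomial.eval 0 (Polynomial.derivative P) * (0 : ℝ) ^ 2 +
          Polynomial.eval 0 P * (2 * (0 : ℝ))) 0 := by
      have h4 : HasDerivAt (fun s : ℝ => s ^ 2) (2 * (0 : ℝ)) 0 := by
        have h5 := hasDerivAt_pow 2 (0 : ℝ)
        simpa using h5
      exact (Polynomial.hasDerivAt P (0 : ℝ)).mul h4
    have h7 : HasDerivAt (fun s : ℝ => X.trace * s) (X.trace * 1) 0 := (hasDerivAt_id (0 : ℝ)).const_mul _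
    have h8 := (h7.const_add 1).add h6
    convert! h8 using 1
    ring
  exact h3.unique h5

private theorem CS0_mat {n : ℕ} {c : ℝ → Mt n} {y : Mt n} {t : ℝ} :
    HasDerivAt c y t ↔ ∀ a b, HasDerivAt (fun u => c u a b) (y a b) t := by
  constructor
  · intro h a b
    obtain ⟨P, hP⟩ := CS0_entry a b
    have h1 := P.hasFDerivAt.comp_hasDerivAt t h
    have e : (fun u => c u a b) = fun u => P (c u) := by
      funext u
      exact (hP _).symm
    rw [e, ← hP y]
    exact h1
  · intro h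
    have h1 : HasDerivAt (fun u => fun a b => c u a b) (fun a b => y a b) t := by
      rw [hasDerivAt_pi]
      intro a
      rw [hasDerivAt_pi]
      intro b
      exact h a b
    exact h1

private theorem CS0_expm {n : ℕ} (x : Mt n) (t : ℝ) :
    HasDerivAt (fun u : ℝ => (NormedSpace.exp (u • x) : Mt n)) (NormedSpace.exp (t • x) * x) t :=
  CS0_mat.2 (CS0_expd x t)

private theorem CS0_curve {n : ℕ} (x : Mt n) (hx : x.trace = 0) : ∃ e : ℝ → SL n, e 0 = 1 ∧
    ∀ t, HasDerivAt (fun u => (e u).1) ((e t).1 * x) t := by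
  have hdet : ∀ t : ℝ, (NormedSpace.exp (t • x) : Mt n).det = 1 := by
    obtain ⟨T, hT, hTd⟩ := CS0_det (n := n)
    have h0 : HasDerivAt (fun u : ℝ => (NormedSpace.exp (u • x) : Mt n).det) 0 0 := by
      have h1 := CS0_expm x 0
      have h2 : (NormedSpace.exp ((0 : ℝ) • x) : Mt n) = 1 := by
        rw [zero_smul, NormedSpace.exp_zero]
      rw [h2, one_mul] at h1
      have h3 : HasFDerivAt (fun A : Mt n => A.det) T (NormedSpace.exp ((0 : ℝ) • x) : Mt n) := by
        rw [h2]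
        exact hTd
      have h4 := h3.comp_hasDerivAt (0 : ℝ) h1
      have h5 : T x = 0 := (hT x).trans hx
      exact h5 ▸ h4
    have h1 : ∀ t : ℝ, HasDerivAt (fun u : ℝ => (NormedSpace.exp (u • x) : Mt n).det) 0 t := by
      intro t
      have e1 : (fun u : ℝ => (NormedSpace.exp (u • x) : Mt n).det) = fun u : ℝ =>
          (NormedSpace.exp (t • x) : Mt n).det * (NormedSpace.exp ((u - t) • x) : Mt n).det := by
        funext u
        rw [← Matrix.det_mul, ← Matrix.exp_add_of_commute _ _ (((Commute.refl x).smul_left _).smul_right _),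
          ← add_smul]
        congr 3
        ring
      rw [e1]
      have h3 : HasDerivAt (fun u : ℝ => (NormedSpace.exp ((u - t) • x) : Mt n).det) 0 t := by
        have h4 : HasDerivAt (fun u : ℝ => (NormedSpace.exp (u • x) : Mt n).det) 0 (t - t) := by
          rw [sub_self]
          exact h0
        exact HasDerivAt.comp_sub_const t t h4
      have h5 := h3.const_mul ((NormedSpace.exp (t • x) : Mt n).det)
      rwa [mul_zero] at h5
    intro t
    have h2 := is_const_of_deriv_eq_zero (fun u => (h1 u).differentiableAt) (fun u => (h1 u).deriv) t 0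
    rw [h2, zero_smul, NormedSpace.exp_zero, Matrix.det_one]
  refine ⟨fun t => ⟨NormedSpace.exp (t • x), hdet t⟩, ?_, fun t => CS0_expm x t⟩
  apply Subtype.ext
  show (NormedSpace.exp ((0 : ℝ) • x) : Mt n) = 1
  rw [zero_smul, NormedSpace.exp_zero]

private theorem CS0_mulL {n : ℕ} (A : Mt n) {c : ℝ → Mt n} {y : Mt n} {t : ℝ} (h : HasDerivAt c y t) :
    HasDerivAt (fun s => A * c s) (A * y) t :=
  (LinearMap.toContinuousLinearMap (LinearMap.mulLeft ℝ A)).hasFDerivAt.comp_hasDerivAt t h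

private theorem CS0_mul {n : ℕ} {c d : ℝ → Mt n} {y z : Mt n} {t : ℝ} (h : HasDerivAt c y t)
    (h' : HasDerivAt d z t) : HasDerivAt (fun s => c s * d s) (y * d t + c t * z) t := by
  rw [CS0_mat] at *
  intro a b
  have h1 : HasDerivAt (fun s => ∑ k, c s a k * d s k b) (∑ k, (y a k * d t k b + c t a k * z k b)) t :=
    HasDerivAt.fun_sum fun k _ => (h a k).mul (h' k b)
  convert! h1 using 1
  rw [Matrix.add_apply, Matrix.mul_apply, Matrix.mul_apply, Finset.sum_add_distrib]

private theorem CS0_rd {n : ℕ} {x : Mt n} {F F' : Fn n} (h : RD x F F') (c : ℝ → SL n) (g : SL n)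
    (h0 : c 0 = g) (hc : HasDerivAt (fun s => (c s).1) (g.1 * x) 0) :
    HasDerivAt (fun s => F (c s)) (F' g) 0 := by
  subst h0
  exact h c (CS0_mat.1 hc)

private theorem CS0_smul {n : ℕ} (F : Fn n) (Fd : Mt n → Fn n)
    (hd : ∀ x : Mt n, x.trace = 0 → RD x F (Fd x)) (x : Mt n) (hx : x.trace = 0) (r : ℝ) (g : SL n) :
    Fd (r • x) g = r * Fd x g := by
  obtain ⟨e, he0, he⟩ := CS0_curve x hx
  have h0 := he 0
  rw [he0] at h0
  have h1 : HasDerivAt (fun s => (g * e s).1) (g.1 * x) 0 := by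
    have := CS0_mulL g.1 h0
    simpa using this
  have h2 := CS0_rd (hd x hx) (fun s => g * e s) g (by simp [he0]) h1
  have hr : HasDerivAt (fun s : ℝ => r * s) r 0 := by
    have := (hasDerivAt_id (0 : ℝ)).const_mul r
    simpa using this
  have h5 : HasDerivAt (fun s => F (g * e (r * s))) (Fd x g * r) 0 := by
    have h6 : HasDerivAt (fun s => F (g * e s)) (Fd x g) (r * 0) := by
      rw [mul_zero]
      exact h2
    exact h6.comp (0 : ℝ) hr
  have h7 : HasDerivAt (fun s => (g * e (r * s)).1) (g.1 * (r • x)) 0 := by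
    have h8 : HasDerivAt (fun s => (g * e s).1) (g.1 * x) (r * 0) := by
      rw [mul_zero]
      exact h1
    have h9 := h8.scomp (0 : ℝ) hr
    rw [Matrix.mul_smul]
    exact h9
  have h10 := CS0_rd (hd (r • x) (by rw [Matrix.trace_smul, hx, smul_zero])) (fun s => g * e (r * s)) g
    (by simp [he0]) h7
  rw [h10.unique h5, mul_comm]

private theorem CS0_cont {n : ℕ} {e : ℝ → SL n} {y : ℝ → Mt n}
    (he : ∀ t, HasDerivAt (fun u => (e u).1) (y t) t) : Continuous e := by
  have h1 : Continuous fun u => (e u).1 := continuous_iff_continuousAt.2 fun t => (he t).continuousAt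
  exact continuous_induced_rng.2 h1

private theorem CS0_add {n : ℕ} (F : Fn n) (Fd : Mt n → Fn n)
    (hd : ∀ x : Mt n, x.trace = 0 → RD x F (Fd x))
    (hc : ∀ x : Mt n, x.trace = 0 → Continuous (Fd x)) (x y : Mt n) (hx : x.trace = 0)
    (hy : y.trace = 0) (g : SL n) : Fd (x + y) g = Fd x g + Fd y g := by
  obtain ⟨hT2, hLC, hSC, hTG, -⟩ := SL_top (n := n)
  obtain ⟨a, ha0, ha⟩ := CS0_curve x hx
  obtain ⟨b, hb0, hb⟩ := CS0_curve y hy
  have hac : Continuous a := CS0_cont ha
  have hbc : Continuous b := CS0_cont hb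
  have h1 : HasDerivAt (fun s => (g * a s).1) (g.1 * x) 0 := by
    have h0 := ha 0
    rw [ha0] at h0
    have := CS0_mulL g.1 h0
    simpa using this
  have h2 : HasDerivAt (fun s => (g * a s * b s).1) (g.1 * (x + y)) 0 := by
    have h0 := hb 0
    rw [hb0] at h0
    have h3 := CS0_mul h1 h0
    have e1 : g.1 * x * (b 0).1 + (g * a 0).1 * ((1 : SL n).1 * y) = g.1 * (x + y) := by
      rw [hb0, ha0, mul_one]
      show g.1 * x * (1 : Mt n) + g.1 * ((1 : Mt n) * y) = _
      rw [Matrix.mul_one, Matrix.one_mul, Matrix.mul_add]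
    rw [e1] at h3
    exact h3
  have d1 := CS0_rd (hd x hx) (fun s => g * a s) g (by simp [ha0]) h1
  have d2 := CS0_rd (hd (x + y) (by rw [Matrix.trace_add, hx, hy, add_zero])) (fun s => g * a s * b s) g
    (by simp [ha0, hb0]) h2
  have d3 : ∀ u v : ℝ, HasDerivAt (fun s => F (g * a u * b s)) (Fd y (g * a u * b v)) v := by
    intro u v
    have h3 : HasDerivAt (fun s => (g * a u * b (v + s)).1) ((g * a u * b v).1 * y) 0 := by
      have h4 : HasDerivAt (fun s => (b (v + s)).1) ((b v).1 * y) 0 := by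
        have h5 : HasDerivAt (fun s => (b s).1) ((b v).1 * y) (v + 0) := by
          rw [add_zero]
          exact hb v
        exact HasDerivAt.comp_const_add v 0 h5
      have h6 := CS0_mulL (g * a u).1 h4
      have e1 : (g * a u).1 * ((b v).1 * y) = (g * a u * b v).1 * y := by
        rw [← Matrix.mul_assoc]
        rfl
      rw [e1] at h6
      exact h6
    have h4 := CS0_rd (hd y hy) (fun s => g * a u * b (v + s)) (g * a u * b v) (by simp) h3
    have h5 : HasDerivAt (fun s => F (g * a u * b (v + (s - v)))) (Fd y (g * a u * b v)) v := by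
      have h6 : HasDerivAt (fun s => F (g * a u * b (v + s))) (Fd y (g * a u * b v)) (v - v) := by
        rw [sub_self]
        exact h4
      exact HasDerivAt.comp_sub_const v v h6
    simpa using h5
  have hφ := (d2.sub d1).tendsto_slope_zero_right
  have hcont : Continuous fun p : ℝ × ℝ => Fd y (g * a p.1 * b p.2) :=
    (hc y hy).comp ((continuous_const.mul (hac.comp continuous_fst)).mul (hbc.comp continuous_snd))
  have hlim : Tendsto (fun t : ℝ => t⁻¹ • (F (g * a (0 + t) * b (0 + t)) - F (g * a (0 + t)) -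
      (F (g * a 0 * b 0) - F (g * a 0)))) (𝓝[>] 0) (𝓝 (Fd y g)) := by
    rw [Metric.tendsto_nhdsWithin_nhds]
    intro ε hε
    have h3 := Metric.continuousAt_iff.1 (hcont.continuousAt (x := ((0 : ℝ), (0 : ℝ)))) ε hε
    obtain ⟨δ, hδ, h4⟩ := h3
    refine ⟨δ, hδ, fun {t} ht htδ => ?_⟩
    have ht0 : 0 < t := ht
    rw [Real.dist_eq, sub_zero, abs_of_pos ht0] at htδ
    obtain ⟨v, hv, hv1⟩ := exists_hasDerivAt_eq_slope (fun s => F (g * a t * b s))
      (fun s => Fd y (g * a t * b s)) ht0 (fun s _ => (d3 t s).continuousAt.continuousWithinAt)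
      (fun s _ => d3 t s)
    have h5 := h4 (x := (t, v)) (by
      rw [Prod.dist_eq]
      refine max_lt ?_ ?_
      · rw [Real.dist_eq, sub_zero, abs_of_pos ht0]
        exact htδ
      · rw [Real.dist_eq, sub_zero, abs_of_pos hv.1]
        exact hv.2.trans htδ)
    have e1 : Fd y (g * a ((0 : ℝ), (0 : ℝ)).1 * b ((0 : ℝ), (0 : ℝ)).2) = Fd y g := by
      show Fd y (g * a 0 * b 0) = Fd y g
      rw [ha0, hb0, mul_one, mul_one]
    rw [e1] at h5
    have e2 : t⁻¹ • (F (g * a (0 + t) * b (0 + t)) - F (g * a (0 + t)) -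
        (F (g * a 0 * b 0) - F (g * a 0))) = Fd y (g * a t * b v) := by
      rw [hv1, ha0, hb0, zero_add, smul_eq_mul, mul_one, mul_one, sub_self, sub_zero, sub_zero, mul_one]
      rw [div_eq_inv_mul]
    rw [e2]
    exact h5
  have h3 := tendsto_nhds_unique hlim hφ
  linarith


private theorem CS0_bd {n : ℕ} (A : Mt n) : ∃ C : ℝ, 0 ≤ C ∧ ∀ B : Mt n, ‖A * B‖ ≤ C * ‖B‖ := by
  refine ⟨n * ‖A‖, by positivity, fun B => ?_⟩
  rw [Matrix.norm_le_iff (by positivity)]
  intro i j
  rw [Matrix.mul_apply]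
  calc ‖∑ k, A i k * B k j‖ ≤ ∑ k : Fin n, ‖A i k * B k j‖ := norm_sum_le _ _
    _ ≤ ∑ k : Fin n, ‖A‖ * ‖B‖ := by
        refine Finset.sum_le_sum fun k _ => ?_
        rw [norm_mul]
        exact mul_le_mul (Matrix.norm_entry_le_entrywise_sup_norm A)
          (Matrix.norm_entry_le_entrywise_sup_norm B) (norm_nonneg _) (norm_nonneg _)
    _ = n * ‖A‖ * ‖B‖ := by
        rw [Finset.sum_const, Finset.card_univ, Fintype.card_fin, nsmul_eq_mul, mul_assoc]

private theorem CS0_loc {n : ℕ} (F : Fn n) (Fd : Mt n → Fn n)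
    (hd : ∀ x : Mt n, x.trace = 0 → RD x F (Fd x)) (g0 : SL n) (D : Mt n →L[ℝ] ℝ)
    (hD : ∀ x : Mt n, x.trace = 0 → D x = Fd x g0) (ε : ℝ) (hε : 0 < ε) :
    ∀ᶠ g : SL n in 𝓝 g0, |F g - F g0 - D (g0⁻¹.1 * (g.1 - g0.1))| ≤ ε * ‖g.1 - g0.1‖ := by
  classical
  obtain ⟨hT2, hLC, hSC, hTG, -⟩ := SL_top (n := n)
  by_contra hcon
  rw [not_eventually] at hcon
  obtain ⟨g1, hg1, hbad1⟩ := exists_seq_forall_of_frequently hcon
  have hP : ProperSpace (Mt n) := FiniteDimensional.proper ℝ (Mt n)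
  obtain ⟨Lm, hLm⟩ : ∃ Lm : Mt n →L[ℝ] Mt n, ∀ A, Lm A = g0⁻¹.1 * A :=
    ⟨LinearMap.toContinuousLinearMap (LinearMap.mulLeft ℝ g0⁻¹.1), fun _ => rfl⟩
  obtain ⟨CL, hCL0, hCL⟩ := CS0_bd g0⁻¹.1
  have hLmb : ∀ A, ‖Lm A‖ ≤ CL * ‖A‖ := fun A => by
    rw [hLm]
    exact hCL A
  have hinv : g0⁻¹.1 * g0.1 = 1 := by
    have : (g0⁻¹ * g0).1 = (1 : SL n).1 := by rw [inv_mul_cancel]
    exact this
  have hinv' : g0.1 * g0⁻¹.1 = 1 := by
    have : (g0 * g0⁻¹).1 = (1 : SL n).1 := by rw [mul_inv_cancel]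
    exact this
  have hpos1 : ∀ k, 0 < ‖(g1 k).1 - g0.1‖ := by
    intro k
    rw [norm_pos_iff]
    intro h0
    apply hbad1 k
    have h1 : g1 k = g0 := Subtype.ext (sub_eq_zero.1 h0)
    rw [h1, sub_self, sub_self, mul_zero, map_zero, sub_zero, abs_zero, norm_zero, mul_zero]
  -- directions
  obtain ⟨x, -, φ, hφ, hx⟩ := tendsto_subseq_of_bounded (Metric.isBounded_closedBall (x := (0 : Mt n)) (r := CL))
    (x := fun k => (‖(g1 k).1 - g0.1‖)⁻¹ • Lm ((g1 k).1 - g0.1)) (by
      intro k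
      rw [mem_closedBall_zero_iff, norm_smul, norm_inv, norm_norm, inv_mul_le_iff₀ (hpos1 k), mul_comm]
      exact hLmb _)
  obtain ⟨g, hg⟩ : ∃ g : ℕ → SL n, g = fun k => g1 (φ k) := ⟨_, rfl⟩
  obtain ⟨t, ht⟩ : ∃ t : ℕ → ℝ, t = fun k => ‖(g k).1 - g0.1‖ := ⟨_, rfl⟩
  obtain ⟨z, hz⟩ : ∃ z : ℕ → Mt n, z = fun k => (t k)⁻¹ • Lm ((g k).1 - g0.1) := ⟨_, rfl⟩
  have hglim : Tendsto g atTop (𝓝 g0) := by
    rw [hg]
    exact hg1.comp hφ.tendsto_atTop
  have htpos : ∀ k, 0 < t k := by
    intro k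
    rw [ht, hg]
    exact hpos1 _
  have hbad : ∀ k, ε * t k < |F (g k) - F g0 - D (g0⁻¹.1 * ((g k).1 - g0.1))| := by
    intro k
    have h1 := hbad1 (φ k)
    rw [not_le] at h1
    rw [ht, hg]
    exact h1
  have hzlim : Tendsto z atTop (𝓝 x) := by
    rw [hz, ht, hg]
    exact hx
  have hvlim : Tendsto (fun k => (g k).1) atTop (𝓝 g0.1) :=
    (continuous_subtype_val.tendsto g0).comp hglim
  have htlim : Tendsto t atTop (𝓝 0) := by
    rw [ht]
    have h1 : Tendsto (fun k => (g k).1 - g0.1) atTop (𝓝 (g0.1 - g0.1)) := hvlim.sub_const _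
    rw [sub_self] at h1
    have h2 := h1.norm
    rwa [norm_zero] at h2
  have hzt : ∀ k, Lm ((g k).1 - g0.1) = t k • z k := by
    intro k
    rw [hz]
    show Lm ((g k).1 - g0.1) = t k • ((t k)⁻¹ • Lm ((g k).1 - g0.1))
    rw [smul_smul, mul_inv_cancel₀ (htpos k).ne', one_smul]
  have hgz : ∀ k, (g k).1 - g0.1 = t k • (g0.1 * z k) := by
    intro k
    rw [← Matrix.mul_smul, ← hzt k, hLm, ← Matrix.mul_assoc, hinv', Matrix.one_mul]
  -- the limit direction has trace zero
  have hxtr : x.trace = 0 := by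
    obtain ⟨T, hT, hTd⟩ := CS0_det (n := n)
    have h1 : Tendsto (fun k => T (z k)) atTop (𝓝 (T x)) := (T.continuous.tendsto x).comp hzlim
    have h2 : Tendsto (fun k => T (z k)) atTop (𝓝 0) := by
      rw [Metric.tendsto_atTop]
      intro δ hδ
      have hδ' : 0 < δ / (CL + 1) := by positivity
      have h3 := (Asymptotics.isLittleO_iff.1 hTd.isLittleO) hδ'
      have h4 : Tendsto (fun k => 1 + Lm ((g k).1 - g0.1)) atTop (𝓝 (1 : Mt n)) := by
        have h5 : Tendsto (fun k => (g k).1 - g0.1) atTop (𝓝 (g0.1 - g0.1)) := hvlim.sub_const _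
        rw [sub_self] at h5
        have h6 := ((Lm.continuous.tendsto 0).comp h5).const_add (1 : Mt n)
        rw [map_zero, add_zero] at h6
        exact h6
      obtain ⟨N, hN⟩ := (h4.eventually h3).exists_forall_of_atTop
      refine ⟨N, fun k hk => ?_⟩
      have h7 := hN k hk
      have h8 : (1 + Lm ((g k).1 - g0.1)).det = 1 := by
        rw [hLm, Matrix.mul_sub, hinv, add_sub_cancel, Matrix.det_mul]
        rw [g0⁻¹.2, (g k).2, one_mul]
      rw [h8, Matrix.det_one, sub_self, add_sub_cancel_left, zero_sub, norm_neg, hzt k] at h7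
      have h7 : ‖T (t k • z k)‖ ≤ δ / (CL + 1) * ‖t k • z k‖ := h7
      have e7 : T (t k • z k) = t k * T (z k) := by
        rw [hT, hT, Matrix.trace_smul, smul_eq_mul]
      rw [e7, norm_mul, norm_smul, Real.norm_eq_abs, abs_of_pos (htpos k)] at h7
      have h9 : ‖z k‖ ≤ CL := by
        have h10 : ‖Lm ((g k).1 - g0.1)‖ ≤ CL * t k := by
          have := hLmb ((g k).1 - g0.1)
          rw [ht]
          exact this
        rw [hzt k, norm_smul, Real.norm_eq_abs, abs_of_pos (htpos k), mul_comm] at h10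
        exact le_of_mul_le_mul_right h10 (htpos k)
      rw [dist_zero_right]
      have h11 : t k * ‖T (z k)‖ ≤ t k * (δ / (CL + 1) * ‖z k‖) := by
        calc t k * ‖T (z k)‖ ≤ δ / (CL + 1) * (t k * ‖z k‖) := h7
          _ = t k * (δ / (CL + 1) * ‖z k‖) := by ring
      have h12 := le_of_mul_le_mul_left h11 (htpos k)
      calc ‖T (z k)‖ ≤ δ / (CL + 1) * ‖z k‖ := h12
        _ ≤ δ / (CL + 1) * CL := mul_le_mul_of_nonneg_left h9 hδ'.le
        _ < δ / (CL + 1) * (CL + 1) := mul_lt_mul_of_pos_left (by linarith) hδ'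
        _ = δ := by field_simp
    rw [← hT x]
    exact tendsto_nhds_unique h1 h2
  -- the curve
  obtain ⟨e, he0, he⟩ := CS0_curve x hxtr
  have he1 : HasDerivAt (fun s => (g0 * e s).1) (g0.1 * x) 0 := by
    have h0 := he 0
    rw [he0] at h0
    have := CS0_mulL g0.1 h0
    simpa using this
  obtain ⟨c, hc⟩ : ∃ c : ℝ → SL n, c = fun s => if h : ∃ k, t k = s then g (Classical.choose h) else g0 * e s :=
    ⟨_, rfl⟩
  have hcyes : ∀ k, ∃ j, t j = t k ∧ c (t k) = g j := by
    intro k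
    have h : ∃ j, t j = t k := ⟨k, rfl⟩
    refine ⟨Classical.choose h, Classical.choose_spec h, ?_⟩
    rw [hc]
    exact dif_pos h
  have hcno : ∀ s, (¬ ∃ k, t k = s) → c s = g0 * e s := by
    intro s h
    rw [hc]
    exact dif_neg h
  have hc0 : c 0 = g0 := by
    rw [hcno 0 (by rintro ⟨k, hk⟩; exact (htpos k).ne' hk), he0, mul_one]
  have hevK : ∀ K : ℕ, ∀ᶠ s in 𝓝 (0 : ℝ), ∀ j, t j = s → K ≤ j := by
    intro K
    have h1 : ((t '' {j | j < K})ᶜ) ∈ 𝓝 (0 : ℝ) := by
      refine IsOpen.mem_nhds (((Set.finite_lt_nat K).image t).isClosed.isOpen_compl) ?_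
      rintro ⟨j, -, hj⟩
      exact (htpos j).ne' hj
    filter_upwards [h1] with s hs j hj
    by_contra hlt
    exact hs ⟨j, not_le.1 hlt, hj⟩
  have hcd : HasDerivAt (fun s => (c s).1) (g0.1 * x) 0 := by
    rw [CS0_mat]
    intro a b
    rw [hasDerivAt_iff_isLittleO, Asymptotics.isLittleO_iff]
    intro δ hδ
    have h1 := (Asymptotics.isLittleO_iff.1 (hasDerivAt_iff_isLittleO.1 (CS0_mat.1 he1 a b))) hδ
    have hPc : Continuous fun A : Mt n => (g0.1 * A) a b := by
      have h2 : Continuous fun A : Mt n => g0.1 * A := continuous_const.matrix_mul continuous_id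
      exact h2.matrix_elem a b
    obtain ⟨K, hK⟩ := Metric.tendsto_atTop.1 ((hPc.tendsto x).comp hzlim) δ hδ
    filter_upwards [h1, hevK K] with s hs1 hs2
    by_cases h : ∃ k, t k = s
    · obtain ⟨k, hk⟩ := h
      obtain ⟨j, hj, hcj⟩ := hcyes k
      rw [hk] at hj hcj
      have hKj := hs2 j hj
      have h2 := hK j hKj
      have h3 : (g j).1 a b - g0.1 a b = s * (g0.1 * z j) a b := by
        have h4 := congrFun (congrFun (hgz j) a) b
        rw [hj] at h4
        exact h4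
      rw [Real.dist_eq] at h2
      rw [hcj, hc0, sub_zero, h3, smul_eq_mul, ← mul_sub, norm_mul, mul_comm, Real.norm_eq_abs]
      exact mul_le_mul_of_nonneg_right h2.le (norm_nonneg _)
    · rw [hcno s h, hc0]
      rw [he0, mul_one] at hs1
      exact hs1
  have hFc := CS0_rd (hd x hxtr) c g0 hc0 hcd
  have h1 := (Asymptotics.isLittleO_iff.1 (hasDerivAt_iff_isLittleO.1 hFc)) (show 0 < ε / 4 by positivity)
  have hDlim : Tendsto (fun k => D (z k)) atTop (𝓝 (D x)) := (D.continuous.tendsto x).comp hzlim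
  obtain ⟨K, hK⟩ := Metric.tendsto_atTop.1 hDlim (ε / 4) (by positivity)
  obtain ⟨k, hk1, hk2⟩ := ((htlim.eventually h1).and (htlim.eventually (hevK K))).exists
  obtain ⟨j, hj, hcj⟩ := hcyes k
  have hKj := hk2 j hj
  have h2 := hK j hKj
  have h3 := hbad j
  rw [hcj, hc0, sub_zero, ← hj, smul_eq_mul, Real.norm_eq_abs, Real.norm_eq_abs, abs_of_pos (htpos j),
    ← hD x hxtr] at hk1
  rw [Real.dist_eq] at h2
  rw [← hLm, hzt j, map_smul, smul_eq_mul] at h3
  have h4 : |F (g j) - F g0 - t j * D (z j)| ≤ |F (g j) - F g0 - t j * D x| + t j * |D (z j) - D x| := by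
    have e1 : F (g j) - F g0 - t j * D (z j) = (F (g j) - F g0 - t j * D x) + -(t j * (D (z j) - D x)) := by
      ring
    rw [e1]
    refine (abs_add_le _ _).trans ?_
    rw [abs_neg, abs_mul, abs_of_pos (htpos j)]
  have h5 : t j * |D (z j) - D x| ≤ t j * (ε / 4) := mul_le_mul_of_nonneg_left h2.le (htpos j).le
  have h6 := htpos j
  nlinarith


/-- Row CS0. Continuous derivatives along all right translations: the function is differentiable
along smooth maps into the group, and the derivative is linear in the direction. PLAN. At `g0` use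
`g(t) = g0 * ∏ tv i j (t_ij) * dgm (y)` (product over the pairs `i ≠ j` in a fixed order, then the diagonal),
telescoping: `F (g(t)) - F (g0)` is the sum of the integrals of the derivatives along the one
parameter groups (`tv i j s`, `dgm (s y)` are curves with `c' = c x`, `x` = elementary matrix, resp. diagonal),
so `F (g(t)) - F g0 = ∑ t_ij Fd (E_ij) g0 + Fd (diag y) g0 + o(|t|)` by continuity; the entries of
`g0⁻¹ g(t)` are `1 + ∑ t_ij E_ij + diag y + O(|t|²)`, and every matrix of determinant one near `1` is such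
a product with `|t| ≤ C ‖g - 1‖` (inverse function theorem, or Gauss elimination). The diagonal part:
`diag y = ∑ y_i - y_(i+1) ..`: use the coroots `Hv i (i+1)` one by one to have continuity for fixed directions. -/
theorem rd_frechet {n : ℕ} (F : Fn n) (Fd : Mt n → Fn n)
    (hd : ∀ x : Mt n, x.trace = 0 → RD x F (Fd x))
    (hc : ∀ x : Mt n, x.trace = 0 → Continuous (Fd x)) :
    (∀ (x y : Mt n) (r : ℝ), x.trace = 0 → y.trace = 0 → ∀ g, Fd (x + r • y) g = Fd x g + r * Fd y g) ∧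
    ∀ {E : Type} [NormedAddCommGroup E] [NormedSpace ℝ E] (s : E → SL n) (A : E) (L : E →L[ℝ] Mt n),
      HasFDerivAt (fun B => (s B).1) L A →
      (∀ w, ((s A)⁻¹.1 * L w).trace = 0) ∧
      ∃ L' : E →L[ℝ] ℝ, HasFDerivAt (fun B => F (s B)) L' A ∧
        ∀ w, L' w = Fd ((s A)⁻¹.1 * L w) (s A) := by
  have hlin : ∀ (x y : Mt n) (r : ℝ), x.trace = 0 → y.trace = 0 →
      ∀ g, Fd (x + r • y) g = Fd x g + r * Fd y g := by
    intro x y r hx hy g
    rw [CS0_add F Fd hd hc x (r • y) hx (by rw [Matrix.trace_smul, hy, smul_zero]) g,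
      CS0_smul F Fd hd y hy r g]
  refine ⟨hlin, ?_⟩
  intro E _ _ s A L hs
  obtain ⟨g0, hg0⟩ : ∃ g0, g0 = s A := ⟨_, rfl⟩
  rw [← hg0]
  obtain ⟨Lm, hLm⟩ : ∃ Lm : Mt n →L[ℝ] Mt n, ∀ A, Lm A = g0⁻¹.1 * A :=
    ⟨LinearMap.toContinuousLinearMap (LinearMap.mulLeft ℝ g0⁻¹.1), fun _ => rfl⟩
  have hinv : g0⁻¹.1 * g0.1 = 1 := by
    have : (g0⁻¹ * g0).1 = (1 : SL n).1 := by rw [inv_mul_cancel]
    exact this
  have h1 : HasFDerivAt (fun B => Lm (s B).1) (Lm.comp L) A := Lm.hasFDerivAt.comp A hs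
  have htr : ∀ w, (g0⁻¹.1 * L w).trace = 0 := by
    obtain ⟨T, hT, hTd⟩ := CS0_det (n := n)
    have h2 : HasFDerivAt (fun A : Mt n => A.det) T (Lm (s A).1) := by
      rw [hLm, ← hg0, hinv]
      exact hTd
    have h3 : HasFDerivAt (fun B => (Lm (s B).1).det) (T.comp (Lm.comp L)) A := h2.comp A h1
    have h4 : (fun B => (Lm (s B).1).det) = fun _ => (1 : ℝ) := by
      funext B
      rw [hLm, Matrix.det_mul, g0⁻¹.2, (s B).2, one_mul]
    rw [h4] at h3
    have h5 := h3.unique (hasFDerivAt_const (1 : ℝ) A)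
    intro w
    have h6 : T (Lm (L w)) = 0 := by
      have h7 := congrArg (fun f : E →L[ℝ] ℝ => f w) h5
      exact h7
    rwa [hT, hLm] at h6
  refine ⟨htr, ?_⟩
  obtain ⟨p, hp⟩ : ∃ p : Mt n →ₗ[ℝ] Mt n, ∀ x, p x = x - x.trace • ((1 / n : ℝ) • (1 : Mt n)) :=
    ⟨LinearMap.id - (Matrix.traceLinearMap (Fin n) ℝ ℝ).smulRight ((1 / n : ℝ) • (1 : Mt n)), fun x => rfl⟩
  have hptr : ∀ x, (p x).trace = 0 := by
    intro x
    rw [hp, Matrix.trace_sub, Matrix.trace_smul, Matrix.trace_smul, Matrix.trace_one, Fintype.card_fin]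
    rcases Nat.eq_zero_or_pos n with h0 | h0
    · subst h0
      simp [Matrix.trace]
    · have hn : (n : ℝ) ≠ 0 := by exact_mod_cast h0.ne'
      rw [smul_eq_mul, smul_eq_mul]
      field_simp
      ring
  have hp0 : ∀ x : Mt n, x.trace = 0 → p x = x := by
    intro x hx
    rw [hp, hx, zero_smul, sub_zero]
  obtain ⟨D, hD⟩ : ∃ D : Mt n →L[ℝ] ℝ, ∀ x, D x = Fd (p x) g0 := by
    let D' : Mt n →ₗ[ℝ] ℝ :=
      { toFun := fun x => Fd (p x) g0
        map_add' := fun x y => by
          have h2 := hlin (p x) (p y) 1 (hptr x) (hptr y) g0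
          rw [one_smul, one_mul] at h2
          show Fd (p (x + y)) g0 = Fd (p x) g0 + Fd (p y) g0
          rw [map_add, h2]
        map_smul' := fun r x => by
          show Fd (p (r • x)) g0 = r • Fd (p x) g0
          rw [map_smul, CS0_smul F Fd hd (p x) (hptr x) r g0, smul_eq_mul] }
    exact ⟨LinearMap.toContinuousLinearMap D', fun x => rfl⟩
  have hD' : ∀ x : Mt n, x.trace = 0 → D x = Fd x g0 := by
    intro x hx
    rw [hD, hp0 x hx]
  have hsA : ContinuousAt s A := by
    have h2 : ContinuousAt (fun B => (s B).1) A := hs.continuousAt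
    exact Topology.IsInducing.subtypeVal.continuousAt_iff.2 h2
  refine ⟨D.comp (Lm.comp L), ?_, ?_⟩
  · have h2 : HasFDerivAt (fun B => D (Lm (s B).1)) (D.comp (Lm.comp L)) A := D.hasFDerivAt.comp A h1
    have h3 : HasFDerivAt (fun B => F (s B) - D (Lm (s B).1)) (0 : E →L[ℝ] ℝ) A := by
      refine HasFDerivAt.of_isLittleO ?_
      rw [Asymptotics.isLittleO_iff]
      intro ε hε
      obtain ⟨C, hC, hCb⟩ := (show (fun B => (s B).1 - (s A).1) =O[𝓝 A] fun B => B - A from
        hs.isBigO_sub).exists_pos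
      have h4 := hCb.bound
      have h5 := CS0_loc F Fd hd g0 D hD' (ε / C) (by positivity)
      rw [hg0] at h5
      have h6 := hsA.eventually h5
      filter_upwards [h4, h6] with B hB1 hB2
      rw [← hg0] at hB1 hB2
      have e1 : F (s B) - D (Lm (s B).1) - (F (s A) - D (Lm (s A).1)) - (0 : E →L[ℝ] ℝ) (B - A) =
          F (s B) - F g0 - D (g0⁻¹.1 * ((s B).1 - g0.1)) := by
        have e0 : D (g0⁻¹.1 * ((s B).1 - g0.1)) = D (Lm (s B).1) - D (Lm g0.1) := by
          rw [← hLm, map_sub]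
          exact map_sub D _ _
        rw [e0, ← hg0]
        show F (s B) - D (Lm (s B).1) - (F g0 - D (Lm g0.1)) - 0 = _
        ring
      rw [e1, Real.norm_eq_abs]
      calc |F (s B) - F g0 - D (g0⁻¹.1 * ((s B).1 - g0.1))| ≤ ε / C * ‖(s B).1 - g0.1‖ := hB2
        _ ≤ ε / C * (C * ‖B - A‖) := mul_le_mul_of_nonneg_left hB1 (by positivity)
        _ = ε * ‖B - A‖ := by field_simp
    have h4 := h3.add h2
    have e1 : (fun B => F (s B) - D (Lm (s B).1) + D (Lm (s B).1)) = fun B => F (s B) := by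
      funext B
      ring
    have e2 : (0 : E →L[ℝ] ℝ) + D.comp (Lm.comp L) = D.comp (Lm.comp L) := zero_add _
    rw [e2] at h4
    rw [← e1]
    exact h4
  · intro w
    show D (Lm (L w)) = _
    rw [hLm, hD' _ (htr w)]

end FL27
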