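import Pool.Agent.LibFL27.CG2
import Pool.Agent.LibFL27.CS0
import Pool.Agent.LibFL27.CA1

set_option autoImplicit false
set_option maxSynthPendingDepth 3

open Matrix MeasureTheory Topology Filter LibNC38
open LibNC27 hiding Mt
open scoped Matrix.Norms.Elementwise ContDiff

namespace FL27

private theorem CG3_ex {n : ℕ} {x : Mt n} (hx : Sym0 x) : (ex x).1 = NormedSpace.exp x := by
  have h1 : (NormedSpace.exp x).det = 1 := by
    rw [det_exp_symm x hx.1, hx.2, Real.exp_zero]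
  unfold ex
  rw [dif_pos h1]

private theorem CG3_sym {n : ℕ} {x : Mt n} (hx : Sym0 x) : Sym0 (-((1 / 2 : ℝ) • x)) := by
  refine ⟨?_, ?_⟩
  · rw [Matrix.transpose_neg, Matrix.transpose_smul, hx.1]
  · rw [Matrix.trace_neg, Matrix.trace_smul, hx.2, smul_zero, neg_zero]

/-- bound of a linear family of functions on matrices of trace zero -/
private theorem CG3_lin {n : ℕ} (f : Mt n → ℝ) (η : ℝ) (hη : 0 ≤ η)
    (hl : ∀ (x y : Mt n) (r : ℝ), x.trace = 0 → y.trace = 0 → f (x + r • y) = f x + r * f y)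
    (hb : ∀ x, T1 x → |f x| ≤ η) (x : Mt n) (hx : x.trace = 0) : |f x| ≤ η * ‖x‖ := by
  have f0 : f 0 = 0 := by
    have h1 := hl 0 0 1 (by simp) (by simp)
    rw [smul_zero, add_zero, one_mul] at h1
    linarith
  by_cases hx0 : x = 0
  · subst hx0
    rw [f0, abs_zero]
    positivity
  · have hn : 0 < ‖x‖ := norm_pos_iff.2 hx0
    have h1 := hl 0 (‖x‖⁻¹ • x) ‖x‖ (by simp) (by rw [Matrix.trace_smul, hx, smul_zero])
    rw [zero_add, smul_smul, mul_inv_cancel₀ hn.ne', one_smul, f0, zero_add] at h1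
    have h2 : T1 (‖x‖⁻¹ • x) := by
      refine ⟨by rw [Matrix.trace_smul, hx, smul_zero], fun a b => ?_⟩
      rw [Matrix.smul_apply, smul_eq_mul, abs_mul, abs_of_pos (inv_pos.2 hn),
        inv_mul_le_iff₀ hn, mul_one]
      exact (Real.norm_eq_abs _).symm.le.trans (Matrix.norm_entry_le_entrywise_sup_norm x)
    have h3 := hb _ h2
    rw [h1, abs_mul, abs_of_pos hn, mul_comm]
    exact mul_le_mul_of_nonneg_right h3 hn.le

private theorem CG3_abs {E F : Type} [NormedAddCommGroup E] [NormedSpace ℝ E]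
    [NormedAddCommGroup F] [NormedSpace ℝ F] (U : Set E) (hU : IsOpen U) (A0 : E) (hA : A0 ∈ U)
    (Ψ : E × F → E) (hΨ : ContDiffOn ℝ ∞ Ψ (U ×ˢ (Set.univ : Set F)))
    (hΨ0 : ∀ A ∈ U, Ψ (A, 0) = A) (ε : ℝ) (hε : 0 < ε) :
    ∃ V ∈ 𝓝 A0, ∃ r M : ℝ, 0 < r ∧ 0 < M ∧ ∀ A ∈ V, ∀ y : F, ‖y‖ < r → ‖Ψ (A, y) - A‖ ≤ ε ∧
      ∀ w u, ‖fderiv ℝ Ψ (A, y) (w, u) - w‖ ≤ ε / 2 * ‖w‖ + M * ‖u‖ := by
  have hO : IsOpen (U ×ˢ (Set.univ : Set F)) := hU.prod isOpen_univ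
  have hD : ContinuousOn (fun x => fderiv ℝ Ψ x) (U ×ˢ (Set.univ : Set F)) :=
    hΨ.continuousOn_fderiv_of_isOpen hO (by simp)
  have hx0 : (A0, (0 : F)) ∈ U ×ˢ (Set.univ : Set F) := ⟨hA, trivial⟩
  have hDc : ContinuousAt (fun x => fderiv ℝ Ψ x) (A0, 0) := hD.continuousAt (hO.mem_nhds hx0)
  have hΨc : ContinuousAt Ψ (A0, 0) := hΨ.continuousOn.continuousAt (hO.mem_nhds hx0)
  have hinl : ∀ A ∈ U, ∀ w : E, fderiv ℝ Ψ (A, 0) (w, 0) = w := by
    intro A hA w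
    have h1 : HasFDerivAt Ψ (fderiv ℝ Ψ (A, 0)) (A, 0) :=
      ((hΨ.contDiffAt (hO.mem_nhds ⟨hA, trivial⟩)).differentiableAt (by simp)).hasFDerivAt
    have h2 : HasFDerivAt (fun B : E => (B, (0 : F))) (ContinuousLinearMap.inl ℝ E F) A :=
      (ContinuousLinearMap.inl ℝ E F).hasFDerivAt
    have h3 : HasFDerivAt (fun B : E => Ψ (B, 0))
        ((fderiv ℝ Ψ (A, 0)).comp (ContinuousLinearMap.inl ℝ E F)) A :=
      HasFDerivAt.comp (g := Ψ) (f := fun B : E => (B, (0 : F))) A h1 h2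
    have h4 : HasFDerivAt (fun B : E => Ψ (B, 0)) (ContinuousLinearMap.id ℝ E) A := by
      refine (hasFDerivAt_id A).congr_of_eventuallyEq ?_
      filter_upwards [hU.mem_nhds hA] with B hB
      exact hΨ0 B hB
    have h5 := h3.unique h4
    have h6 := DFunLike.congr_fun h5 w
    exact h6
  set M : ℝ := ‖fderiv ℝ Ψ (A0, 0)‖ + 1 with hM
  have hMp : 0 < M := by positivity
  have e1 : ∀ᶠ x in 𝓝 (A0, (0 : F)), ‖Ψ x - x.1‖ < ε := by
    have h1 : ContinuousAt (fun x => ‖Ψ x - x.1‖) (A0, (0 : F)) :=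
      (hΨc.sub continuousAt_fst).norm
    have h2 : ‖Ψ (A0, 0) - A0‖ < ε := by rw [hΨ0 A0 hA, sub_self, norm_zero]; exact hε
    exact h1.eventually (gt_mem_nhds h2)
  have e2 : ∀ᶠ x in 𝓝 (A0, (0 : F)), ‖fderiv ℝ Ψ x - fderiv ℝ Ψ (A0, 0)‖ < min (ε / 4) 1 := by
    have h1 : ContinuousAt (fun x => ‖fderiv ℝ Ψ x - fderiv ℝ Ψ (A0, 0)‖) (A0, (0 : F)) :=
      (hDc.sub continuousAt_const).norm
    have h2 : ‖fderiv ℝ Ψ (A0, 0) - fderiv ℝ Ψ (A0, 0)‖ < min (ε / 4) 1 := by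
      rw [sub_self, norm_zero]
      positivity
    exact h1.eventually (gt_mem_nhds h2)
  have e12 := e1.and e2
  rw [nhds_prod_eq] at e12
  obtain ⟨pa, hpa, pb, hpb, hab⟩ := Filter.eventually_prod_iff.1 e12
  obtain ⟨r, hr, hrb⟩ := Metric.eventually_nhds_iff.1 hpb
  refine ⟨_, hpa.and (hU.mem_nhds hA), r, M, hr, hMp, ?_⟩
  rintro A ⟨hpA, hAU⟩ y hy
  have hpbA : pb y := hrb (by rw [dist_zero_right]; exact hy)
  obtain ⟨q1, q2⟩ := hab hpA hpbA
  have hpb0 : pb 0 := hrb (by rw [dist_self]; exact hr)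
  obtain ⟨-, q3⟩ := hab hpA hpb0
  refine ⟨q1.le, fun w u => ?_⟩
  have h1 : fderiv ℝ Ψ (A, y) (w, u) - w =
      (fderiv ℝ Ψ (A, y) - fderiv ℝ Ψ (A, 0)) (w, 0) + fderiv ℝ Ψ (A, y) (0, u) := by
    have h3 : ((w, u) : E × F) = (w, 0) + (0, u) := by
      rw [Prod.mk_add_mk, add_zero, zero_add]
    rw [h3, map_add, ContinuousLinearMap.sub_apply, hinl A hAU w]
    abel
  rw [h1]
  have h2 : ‖fderiv ℝ Ψ (A, y) - fderiv ℝ Ψ (A, 0)‖ ≤ ε / 2 := by
    have h3 : fderiv ℝ Ψ (A, y) - fderiv ℝ Ψ (A, 0) =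
        (fderiv ℝ Ψ (A, y) - fderiv ℝ Ψ (A0, 0)) -
          (fderiv ℝ Ψ (A, 0) - fderiv ℝ Ψ (A0, 0)) := by abel
    rw [h3]
    refine (norm_sub_le _ _).trans ?_
    have h4 := q2.le.trans (min_le_left _ _)
    have h5 := q3.le.trans (min_le_left _ _)
    linarith
  have h3 : ‖fderiv ℝ Ψ (A, y)‖ ≤ M := by
    have h4 : fderiv ℝ Ψ (A, y) =
        (fderiv ℝ Ψ (A, y) - fderiv ℝ Ψ (A0, 0)) + fderiv ℝ Ψ (A0, 0) := by abel
    rw [h4]
    refine (norm_add_le _ _).trans ?_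
    have h5 := q2.le.trans (min_le_right _ _)
    rw [hM]
    linarith
  have h4 : ‖((w, 0) : E × F)‖ = ‖w‖ := by
    rw [Prod.norm_def]
    simp
  have h5 : ‖((0, u) : E × F)‖ = ‖u‖ := by
    rw [Prod.norm_def]
    simp
  refine (norm_add_le _ _).trans (add_le_add ?_ ?_)
  · refine (ContinuousLinearMap.le_opNorm _ _).trans ?_
    rw [h4]
    exact mul_le_mul_of_nonneg_right h2 (norm_nonneg _)
  · refine (ContinuousLinearMap.le_opNorm _ _).trans ?_
    rw [h5]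
    exact mul_le_mul_of_nonneg_right h3 (norm_nonneg _)

private theorem CG3_der {E F : Type} [NormedAddCommGroup E] [NormedSpace ℝ E]
    [NormedAddCommGroup F] [NormedSpace ℝ F] (U : Set E) (hU : IsOpen U) (A0 : E) (hA : A0 ∈ U)
    (f : E → F) (hf : ContDiffOn ℝ ∞ f U) :
    ∃ K : ℝ, ∀ᶠ A in 𝓝 A0, ∀ w, ‖fderiv ℝ f A w‖ ≤ K * ‖w‖ := by
  have h1 : ContinuousAt (fun A => fderiv ℝ f A) A0 :=
    (hf.continuousOn_fderiv_of_isOpen hU (by simp)).continuousAt (hU.mem_nhds hA)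
  refine ⟨‖fderiv ℝ f A0‖ + 1, (h1.norm.eventually (gt_mem_nhds (lt_add_one _))).mono
    fun A hA w => ?_⟩
  exact (ContinuousLinearMap.le_opNorm _ _).trans
    (mul_le_mul_of_nonneg_right (le_of_lt hA) (norm_nonneg _))

/-- chain rule for `B ↦ Ψ (B, α B)` -/
private theorem CG3_chain {E F : Type} [NormedAddCommGroup E] [NormedSpace ℝ E]
    [NormedAddCommGroup F] [NormedSpace ℝ F] (Ψ : E × F → E) (α : E → F) (G : E → E) (A : E)
    (h1 : DifferentiableAt ℝ Ψ (A, α A)) (h2 : DifferentiableAt ℝ α A)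
    (h3 : ∀ᶠ B in 𝓝 A, G B = Ψ (B, α B)) (w : E) :
    fderiv ℝ G A w = fderiv ℝ Ψ (A, α A) (w, fderiv ℝ α A w) := by
  have h4 : HasFDerivAt (fun B : E => (B, α B))
      ((ContinuousLinearMap.id ℝ E).prod (fderiv ℝ α A)) A :=
    (hasFDerivAt_id A).prodMk h2.hasFDerivAt
  have h5 : HasFDerivAt (fun B => Ψ (B, α B)) ((fderiv ℝ Ψ (A, α A)).comp
      ((ContinuousLinearMap.id ℝ E).prod (fderiv ℝ α A))) A :=
    HasFDerivAt.comp (g := Ψ) (f := fun B : E => (B, α B)) A h1.hasFDerivAt h4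
  have h6 := h5.congr_of_eventuallyEq h3
  rw [h6.fderiv]
  rfl

private theorem CG3_fst {n : ℕ} {U : Set (Mt n)} {F : Type} [NormedAddCommGroup F]
    [NormedSpace ℝ F] (f : Mt n → F) (hf : ContDiffOn ℝ ∞ f U) :
    ContDiffOn ℝ ∞ (fun x : Mt n × Mt n => f x.1) (U ×ˢ Set.univ) :=
  hf.comp contDiffOn_fst fun _ hx => hx.1

private theorem CG3_loc {n : ℕ} (hn : 1 ≤ n) (Γ : Subgroup (SL n)) (A0 : Mt n) (hA0 : A0 ∈ PU n)
    (ε : ℝ) (hε : 0 < ε) : ∃ V ∈ 𝓝 A0, ∃ η : ℝ, 0 < η ∧ ∀ (a : SL n → Mt n)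
      (A' : Mt n → SL n → Mt n), YOK Γ a →
      (∀ x : Mt n, x.trace = 0 → ∀ i j, RD x (fun g => a g i j) (fun g => A' x g i j)) →
      (∀ g i j, |a g i j| ≤ η) → (∀ x, T1 x → ∀ g i j, |A' x g i j| ≤ η) →
      ∀ A ∈ V, ‖lft 1 (psi a) A - A‖ ≤ ε ∧
        ∀ w, ‖fderiv ℝ (lft 1 (psi a)) A w - w‖ ≤ ε * ‖w‖ := by
  obtain ⟨U, s, hU, hAU, hUP, -, hs, hsU⟩ := sec_loc A0 hA0 (tch (ret A0)) (tch_eq (ret A0)).symm
  obtain ⟨dec1, -, -, -, dec5, dec6⟩ := dec_facts (n := n) hn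
  -- the function of two variables
  let Ψ : Mt n × Mt n → Mt n := fun x => Real.exp (ell x.1) •
    ((s x.1).1 * NormedSpace.exp (-((1 / 2 : ℝ) • x.2)) *
      ((s x.1).1 * NormedSpace.exp (-((1 / 2 : ℝ) • x.2)))ᵀ) + skp x.1
  have hΨ : ContDiffOn ℝ ∞ Ψ (U ×ˢ (Set.univ : Set (Mt n))) := by
    have h1 : ContDiffOn ℝ ∞ (fun x : Mt n × Mt n => (s x.1).1) (U ×ˢ Set.univ) :=
      CG3_fst (fun A => (s A).1) hs
    have h2 : ContDiffOn ℝ ∞ (fun x : Mt n × Mt n => NormedSpace.exp (-((1 / 2 : ℝ) • x.2)))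
        (U ×ˢ Set.univ) :=
      exp_smoothm.comp_contDiffOn (contDiffOn_snd.const_smul (1 / 2 : ℝ)).neg
    have h3 := cd_mul h1 h2
    have h4 : ContDiffOn ℝ ∞ (fun x : Mt n × Mt n => Real.exp (ell x.1)) (U ×ˢ Set.univ) :=
      (CG3_fst (fun A => ell A) (dec5.mono hUP)).exp
    have h5 : ContDiffOn ℝ ∞ (fun x : Mt n × Mt n => skp x.1) (U ×ˢ Set.univ) :=
      CG3_fst (fun A => skp A) dec6
    exact (h4.smul (cd_mul h3 (cd_transpose h3))).add h5
  have hO : IsOpen (U ×ˢ (Set.univ : Set (Mt n))) := hU.prod isOpen_univ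
  have hΨ0 : ∀ A ∈ U, Ψ (A, 0) = A := by
    intro A hA
    have h1 : (s A).1 * (s A).1ᵀ = (ret A).1 := by
      have h2 := congrArg Subtype.val (hsU A hA)
      have h3 : (act (s A) (o n)).1 = (s A).1 * (1 : Mt n) * (s A).1ᵀ := rfl
      rw [h3, Matrix.mul_one] at h2
      exact h2
    show Real.exp (ell A) • ((s A).1 * NormedSpace.exp (-((1 / 2 : ℝ) • (0 : Mt n))) *
      ((s A).1 * NormedSpace.exp (-((1 / 2 : ℝ) • (0 : Mt n))))ᵀ) + skp A = A
    rw [smul_zero, neg_zero, NormedSpace.exp_zero, Matrix.mul_one, h1]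
    exact (dec1 A (hUP hA)).symm
  have hΨa : ∀ a : SL n → Mt n, YOK Γ a → ∀ A ∈ U, lft 1 (psi a) A = Ψ (A, a (s A)) := by
    intro a ha A hA
    have h1 : (psi a (ret A)).1 = (s A).1 * NormedSpace.exp (-((1 / 2 : ℝ) • a (s A))) *
        ((s A).1 * NormedSpace.exp (-((1 / 2 : ℝ) • a (s A))))ᵀ := by
      rw [← hsU A hA, (psi_act Γ a ha).1 (s A)]
      have h1 : (Ph a (s A)).1 = (s A).1 * NormedSpace.exp (-((1 / 2 : ℝ) • a (s A))) := by
        unfold Ph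
        rw [← CG3_ex (CG3_sym (ha.sym (s A)))]
        exact Matrix.SpecialLinearGroup.coe_mul _ _
      show (Ph a (s A)).1 * (1 : Mt n) * (Ph a (s A)).1ᵀ = _
      rw [Matrix.mul_one, h1]
    show Real.exp (1 * ell A) • (psi a (ret A)).1 + (1 : ℝ) • skp A = _
    rw [one_mul, one_smul, h1]
  obtain ⟨V, hV, r, M, hr, hMp, hVP⟩ := CG3_abs U hU A0 hAU Ψ hΨ hΨ0 ε hε
  -- bounds of the section
  obtain ⟨K1, hK1⟩ := CG3_der U hU A0 hAU (fun B => (s B).1) hs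
  have hsc : ContinuousAt (fun A => (s A).1) A0 := hs.continuousOn.continuousAt (hU.mem_nhds hAU)
  have hsi : ContinuousAt (fun A => (s A)⁻¹.1) A0 := by
    have h1 : (fun A => (s A)⁻¹.1) = fun A => ((s A).1).adjugate := by
      funext A
      exact Matrix.SpecialLinearGroup.coe_inv _
    rw [h1]
    exact (Continuous.matrix_adjugate continuous_id).continuousAt.comp hsc
  obtain ⟨K2, hK2⟩ : ∃ K2 : ℝ, ∀ᶠ A in 𝓝 A0, ‖(s A)⁻¹.1‖ ≤ K2 :=
    ⟨‖(s A0)⁻¹.1‖ + 1,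
      (hsi.norm.eventually (gt_mem_nhds (lt_add_one _))).mono fun A hA => le_of_lt hA⟩
  set K : ℝ := n * |K2| * |K1| with hK
  have hKp : 0 ≤ K := by positivity
  have hev := (((Filter.Eventually.of_forall fun _ => trivial : ∀ᶠ _ in 𝓝 A0, True).and hK1).and
    hK2).and (inter_mem hV (hU.mem_nhds hAU))
  refine ⟨_, hev, min (r / 2) (ε / (4 * (M * (K + 1)))), lt_min (by positivity) (by positivity),
    ?_⟩
  intro a A' ha hA' hb1 hb2 A hA
  obtain ⟨⟨⟨-, hK1A⟩, hK2A⟩, hAV, hAU'⟩ := hA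
  set η : ℝ := min (r / 2) (ε / (4 * (M * (K + 1)))) with hη
  have hη0 : 0 < η := lt_min (by positivity) (by positivity)
  have hηr : η < r := lt_of_le_of_lt (min_le_left _ _) (by linarith)
  have hηε : M * (K * η) ≤ ε / 4 := by
    have h1 : η ≤ ε / (4 * (M * (K + 1))) := min_le_right _ _
    rw [le_div_iff₀ (by positivity)] at h1
    nlinarith [mul_nonneg hMp.le hη0.le]
  have hna : ‖a (s A)‖ ≤ η := by
    rw [Matrix.norm_le_iff hη0.le]
    intro i j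
    rw [Real.norm_eq_abs]
    exact hb1 (s A) i j
  obtain ⟨q1, q2⟩ := hVP A hAV (a (s A)) (lt_of_le_of_lt hna hηr)
  refine ⟨?_, ?_⟩
  · rw [hΨa a ha A hAU']
    exact q1
  · intro w
    -- derivative of `a ∘ s`
    have hαs : ContDiffOn ℝ ∞ (fun B => a (s B)) U := by
      rw [cd_iff]
      intro i j
      exact sg_sec (fun g => a g i j) (fun k => ha.smooth k i j) U hU s hs
    have hα : HasFDerivAt (fun B => a (s B)) (fderiv ℝ (fun B => a (s B)) A) A :=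
      ((hαs.contDiffAt (hU.mem_nhds hAU')).differentiableAt (by simp)).hasFDerivAt
    have hsA : HasFDerivAt (fun B => (s B).1) (fderiv ℝ (fun B => (s B).1) A) A :=
      ((hs.contDiffAt (hU.mem_nhds hAU')).differentiableAt (by simp)).hasFDerivAt
    have hbd : ‖fderiv ℝ (fun B => a (s B)) A w‖ ≤ η * (K * ‖w‖) := by
      rw [Matrix.norm_le_iff (by positivity)]
      intro i j
      have hc : ∀ x : Mt n, x.trace = 0 → Continuous (fun g => A' x g i j) := by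
        intro x hx
        obtain ⟨F', h1, h2⟩ := (ha.smooth 1 i j).2 x hx
        have h3 : F' = fun g => A' x g i j := rd_rules.1 x _ _ _ hx h1 (hA' x hx i j)
        rw [← h3]
        exact h2
      obtain ⟨hl, hfr⟩ := rd_frechet (fun g => a g i j) (fun x g => A' x g i j)
        (fun x hx => hA' x hx i j) hc
      obtain ⟨ht, L', hL', hL'e⟩ := hfr s A _ hsA
      have h1 : HasFDerivAt (fun B => a (s B) i j)
          ((Matrix.entryLinearMap ℝ ℝ i j).toContinuousLinearMap.comp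
            (fderiv ℝ (fun B => a (s B)) A)) A :=
        ((Matrix.entryLinearMap ℝ ℝ i j).toContinuousLinearMap.hasFDerivAt).comp A hα
      have h2 := h1.unique hL'
      have h3 : (fderiv ℝ (fun B => a (s B)) A w) i j = L' w := by
        rw [← h2]
        rfl
      rw [h3, hL'e w, Real.norm_eq_abs]
      have h4 := CG3_lin (fun x => A' x (s A) i j) η hη0.le (fun x y r hx hy => hl x y r hx hy (s A))
        (fun x hx => hb2 x hx (s A) i j) _ (ht w)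
      refine h4.trans (mul_le_mul_of_nonneg_left ?_ hη0.le)
      rw [Matrix.norm_le_iff (by positivity)]
      intro k l
      rw [Matrix.mul_apply]
      refine (norm_sum_le _ _).trans ?_
      have h5 : ∀ m ∈ Finset.univ, ‖(s A)⁻¹.1 k m * (fderiv ℝ (fun B => (s B).1) A w) m l‖ ≤
          |K2| * (|K1| * ‖w‖) := by
        intro m _
        rw [norm_mul]
        have h6 : ‖(s A)⁻¹.1 k m‖ ≤ |K2| :=
          (Matrix.norm_entry_le_entrywise_sup_norm _).trans (hK2A.trans (le_abs_self _))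
        have h7 : ‖(fderiv ℝ (fun B => (s B).1) A w) m l‖ ≤ |K1| * ‖w‖ :=
          (Matrix.norm_entry_le_entrywise_sup_norm _).trans
            ((hK1A w).trans
              (mul_le_mul_of_nonneg_right (le_abs_self _) (norm_nonneg _)))
        exact mul_le_mul h6 h7 (norm_nonneg _) (abs_nonneg _)
      refine (Finset.sum_le_sum h5).trans (le_of_eq ?_)
      rw [Finset.sum_const, Finset.card_univ, Fintype.card_fin, nsmul_eq_mul, hK]
      ring
    -- derivative of the gauge map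
    have hx : (A, a (s A)) ∈ U ×ˢ (Set.univ : Set (Mt n)) := ⟨hAU', trivial⟩
    have hΨd : DifferentiableAt ℝ Ψ (A, a (s A)) :=
      (hΨ.contDiffAt ((hU.prod isOpen_univ).mem_nhds hx)).differentiableAt (by simp)
    have hF := CG3_chain Ψ (fun B => a (s B)) (lft 1 (psi a)) A hΨd hα.differentiableAt
      (by
        filter_upwards [hU.mem_nhds hAU'] with B hB
        exact hΨa a ha B hB) w
    refine (le_of_eq (congrArg (fun x => ‖x - w‖) hF)).trans ?_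
    refine (q2 w _).trans ?_
    have h6 : M * ‖fderiv ℝ (fun B => a (s B)) A w‖ ≤ M * (η * (K * ‖w‖)) :=
      mul_le_mul_of_nonneg_left hbd hMp.le
    have h7 : M * (η * (K * ‖w‖)) = M * (K * η) * ‖w‖ := by ring
    have h8 : M * (K * η) * ‖w‖ ≤ ε / 4 * ‖w‖ := mul_le_mul_of_nonneg_right hηε (norm_nonneg _)
    have h9 := norm_nonneg w
    have h10 : ε / 2 * ‖w‖ + ε / 4 * ‖w‖ ≤ ε * ‖w‖ := by nlinarith
    exact (add_le_add (le_refl (ε / 2 * ‖w‖)) (h6.trans (h7.le.trans h8))).trans h10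

/-- Row CG3. The gauge map is close to the identity in `C¹` on compact sets if `a` and its derivatives are
small. PLAN. Near each `A0 ∈ Q` a section `s` on `U` (`sec_loc`), on a smaller compact neighbourhood
`‖s‖, ‖s⁻¹‖, ‖D s‖ ≤ K`; `lft 1 (psi a) A - A = exp (ell A) • s(A) (exp (- a (s A)) - 1) s(A)ᵀ` there. The derivative
of `a ∘ s` in direction `w` is `A' x (s A)`, `x = (s A)⁻¹ D s(A) w` (`rd_frechet`, entries of `x` at most
`C ‖w‖`), at most `C η ‖w‖`; product rule; `‖exp y - 1‖ ≤ C ‖y‖` and the derivative of `exp` is bounded for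
`‖y‖ ≤ 1`. Finitely many `U` cover `Q`. -/
theorem psi_close {n : ℕ} (hn : 1 ≤ n) (Γ : Subgroup (SL n)) (Q : Set (Mt n)) (hQ : IsCompact Q)
    (hQP : Q ⊆ PU n) (ε : ℝ) (hε : 0 < ε) : ∃ η : ℝ, 0 < η ∧ ∀ (a : SL n → Mt n)
      (A' : Mt n → SL n → Mt n), YOK Γ a →
      (∀ x : Mt n, x.trace = 0 → ∀ i j, RD x (fun g => a g i j) (fun g => A' x g i j)) →
      (∀ g i j, |a g i j| ≤ η) → (∀ x, T1 x → ∀ g i j, |A' x g i j| ≤ η) →
      ∀ A ∈ Q, ‖lft 1 (psi a) A - A‖ ≤ ε ∧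
        ∀ w, ‖fderiv ℝ (lft 1 (psi a)) A w - w‖ ≤ ε * ‖w‖ := by
  let P : Set (Mt n) → Prop := fun S => ∃ η : ℝ, 0 < η ∧ ∀ (a : SL n → Mt n)
      (A' : Mt n → SL n → Mt n), YOK Γ a →
      (∀ x : Mt n, x.trace = 0 → ∀ i j, RD x (fun g => a g i j) (fun g => A' x g i j)) →
      (∀ g i j, |a g i j| ≤ η) → (∀ x, T1 x → ∀ g i j, |A' x g i j| ≤ η) →
      ∀ A ∈ S, ‖lft 1 (psi a) A - A‖ ≤ ε ∧
        ∀ w, ‖fderiv ℝ (lft 1 (psi a)) A w - w‖ ≤ ε * ‖w‖
  have hP : P Q := by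
    refine hQ.induction_on (p := P) ?_ ?_ ?_ ?_
    · exact ⟨1, one_pos, fun _ _ _ _ _ _ A hA => absurd hA (Set.notMem_empty A)⟩
    · rintro S T hST ⟨η, hη, h⟩
      exact ⟨η, hη, fun a A' h1 h2 h3 h4 A hA => h a A' h1 h2 h3 h4 A (hST hA)⟩
    · rintro S T ⟨η, hη, h⟩ ⟨η', hη', h'⟩
      refine ⟨min η η', lt_min hη hη', fun a A' h1 h2 h3 h4 A hA => ?_⟩
      rcases hA with hA | hA
      · exact h a A' h1 h2 (fun g i j => (h3 g i j).trans (min_le_left _ _))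
          (fun x hx g i j => (h4 x hx g i j).trans (min_le_left _ _)) A hA
      · exact h' a A' h1 h2 (fun g i j => (h3 g i j).trans (min_le_right _ _))
          (fun x hx g i j => (h4 x hx g i j).trans (min_le_right _ _)) A hA
    · intro A0 hA0
      obtain ⟨V, hV, η, hη, h⟩ := CG3_loc hn Γ A0 (hQP hA0) ε hε
      exact ⟨V, mem_nhdsWithin_of_mem_nhds hV, η, hη, h⟩
  exact hP

end FL27
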