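import Pool.Agent.LibFL27.CDefs
import Pool.Agent.LibNS38.G4
import Pool.Agent.LibNS38.D8

set_option autoImplicit false
set_option maxSynthPendingDepth 3

open Matrix MeasureTheory Topology Filter LibNC38
open LibNC27 hiding Mt
open scoped Matrix.Norms.Elementwise ContDiff

namespace FL27

private noncomputable def CG4_q {n : ℕ} (A : Mt n) (x : Fin n → ℝ) : ℝ := x ⬝ᵥ (A *ᵥ x)

private theorem CG4_q_act {n : ℕ} (g A : Mt n) (x : Fin n → ℝ) :
    CG4_q (g * A * gᵀ) x = CG4_q A (gᵀ *ᵥ x) := by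
  unfold CG4_q
  rw [← Matrix.mulVec_mulVec, ← Matrix.mulVec_mulVec, Matrix.dotProduct_mulVec,
    Matrix.mulVec_transpose]

private theorem CG4_q_sub {n : ℕ} (A B : Mt n) (x : Fin n → ℝ) :
    CG4_q (A - B) x = CG4_q A x - CG4_q B x := by
  unfold CG4_q
  rw [Matrix.sub_mulVec, dotProduct_sub]

private theorem CG4_q_smul {n : ℕ} (A : Mt n) (c : ℝ) (x : Fin n → ℝ) :
    CG4_q A (c • x) = c ^ 2 * CG4_q A x := by
  unfold CG4_q
  rw [Matrix.mulVec_smul, smul_dotProduct, dotProduct_smul, smul_eq_mul, smul_eq_mul]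
  ring

private theorem CG4_q_sum {n : ℕ} (A : Mt n) (x : Fin n → ℝ) :
    CG4_q A x = ∑ i, ∑ j, x i * (A i j * x j) := by
  unfold CG4_q
  simp only [dotProduct, Matrix.mulVec, Finset.mul_sum]

private theorem CG4_q_bound {n : ℕ} (A : Mt n) (x : Fin n → ℝ) :
    |CG4_q A x| ≤ (n : ℝ) ^ 2 * ‖A‖ * ‖x‖ ^ 2 := by
  rw [CG4_q_sum]
  calc |∑ i, ∑ j, x i * (A i j * x j)| ≤ ∑ i, |∑ j, x i * (A i j * x j)| :=
        Finset.abs_sum_le_sum_abs _ _
    _ ≤ ∑ i : Fin n, ∑ j : Fin n, |x i * (A i j * x j)| :=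
        Finset.sum_le_sum fun i _ => Finset.abs_sum_le_sum_abs _ _
    _ ≤ ∑ i : Fin n, ∑ j : Fin n, ‖A‖ * ‖x‖ ^ 2 := by
        refine Finset.sum_le_sum fun i _ => Finset.sum_le_sum fun j _ => ?_
        rw [abs_mul, abs_mul]
        have h1 : |x i| ≤ ‖x‖ := by simpa using norm_le_pi_norm x i
        have h2 : |x j| ≤ ‖x‖ := by simpa using norm_le_pi_norm x j
        have h3 : |A i j| ≤ ‖A‖ := by simpa using Matrix.norm_entry_le_entrywise_sup_norm A (i := i) (j := j)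
        have h4 : 0 ≤ ‖A‖ := norm_nonneg _
        calc |x i| * (|A i j| * |x j|) ≤ ‖x‖ * (‖A‖ * ‖x‖) := by gcongr
          _ = ‖A‖ * ‖x‖ ^ 2 := by ring
    _ = (n : ℝ) ^ 2 * ‖A‖ * ‖x‖ ^ 2 := by
        simp only [Finset.sum_const, Finset.card_univ, Fintype.card_fin, nsmul_eq_mul]
        ring

private theorem CG4_q_cont {n : ℕ} :
    Continuous fun z : PD n × (Fin n → ℝ) => CG4_q z.1.1 z.2 := by
  unfold CG4_q
  have h1 : Continuous fun z : PD n × (Fin n → ℝ) => z.1.1 :=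
    continuous_subtype_val.comp continuous_fst
  exact Continuous.dotProduct continuous_snd (h1.matrix_mulVec continuous_snd)

private theorem CG4_pos {n : ℕ} (p : PD n) (x : Fin n → ℝ) (hx : x ≠ 0) : 0 < CG4_q p.1 x := by
  have h := p.2.1.dotProduct_mulVec_pos hx
  simpa [CG4_q] using h

private theorem CG4_low {n : ℕ} (Q : Set (PD n)) (hQ : IsCompact Q) :
    ∃ m > 0, ∀ p ∈ Q, ∀ x, m * ‖x‖ ^ 2 ≤ CG4_q p.1 x := by
  have hK : IsCompact (Q ×ˢ Metric.sphere (0 : Fin n → ℝ) 1) := hQ.prod (isCompact_sphere _ _)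
  rcases (Q ×ˢ Metric.sphere (0 : Fin n → ℝ) 1).eq_empty_or_nonempty with h | h
  · refine ⟨1, one_pos, fun p hp x => ?_⟩
    by_cases hx : x = 0
    · subst hx
      simp [CG4_q]
    · exfalso
      have h1 : (p, ‖x‖⁻¹ • x) ∈ (Q ×ˢ Metric.sphere (0 : Fin n → ℝ) 1) := by
        refine ⟨hp, ?_⟩
        rw [mem_sphere_zero_iff_norm, norm_smul, norm_inv, norm_norm]
        exact inv_mul_cancel₀ (norm_ne_zero_iff.2 hx)
      rw [h] at h1
      exact h1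
  · obtain ⟨z, hz, hmin⟩ := hK.exists_isMinOn h CG4_q_cont.continuousOn
    have hz2 : z.2 ≠ 0 := by
      intro h0
      have := hz.2
      rw [mem_sphere_zero_iff_norm, h0, norm_zero] at this
      exact zero_ne_one this
    refine ⟨CG4_q z.1.1 z.2, CG4_pos _ _ hz2, fun p hp x => ?_⟩
    by_cases hx : x = 0
    · subst hx
      simp [CG4_q]
    · have h1 : (p, ‖x‖⁻¹ • x) ∈ (Q ×ˢ Metric.sphere (0 : Fin n → ℝ) 1) := by
        refine ⟨hp, ?_⟩
        rw [mem_sphere_zero_iff_norm, norm_smul, norm_inv, norm_norm]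
        exact inv_mul_cancel₀ (norm_ne_zero_iff.2 hx)
      have h2 : CG4_q z.1.1 z.2 ≤ CG4_q p.1 (‖x‖⁻¹ • x) := hmin h1
      have h3 : 0 < ‖x‖ := norm_pos_iff.2 hx
      rw [CG4_q_smul] at h2
      calc CG4_q z.1.1 z.2 * ‖x‖ ^ 2 ≤ (‖x‖⁻¹ ^ 2 * CG4_q p.1 x) * ‖x‖ ^ 2 := by gcongr
        _ = CG4_q p.1 x := by field_simp

private theorem CG4_entry {n : ℕ} (D S : Mt n) (hD : Dᵀ = D) (hS : Sᵀ = S) (c : ℝ)
    (h : ∀ x, |CG4_q D x| ≤ c * CG4_q S x) (i j : Fin n) :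
    |D i j| ≤ c * (S i i + S j j) / 2 := by
  have hq : ∀ (A : Mt n), Aᵀ = A → ∀ s : ℝ, CG4_q A (Pi.single i 1 + s • Pi.single j 1) =
      A i i + 2 * s * A i j + s ^ 2 * A j j := by
    intro A hA s
    have h1 : A j i = A i j := by
      conv_lhs => rw [← hA]
      rfl
    unfold CG4_q
    rw [Matrix.mulVec_add, Matrix.mulVec_smul]
    simp only [Matrix.mulVec_single_one, add_dotProduct, dotProduct_add, smul_dotProduct,
      dotProduct_smul, single_one_dotProduct, smul_eq_mul, Matrix.col_apply]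
    rw [h1]
    ring
  have h1 := h (Pi.single i 1 + (1 : ℝ) • Pi.single j 1)
  have h2 := h (Pi.single i 1 + (-1 : ℝ) • Pi.single j 1)
  rw [hq D hD, hq S hS] at h1 h2
  rw [abs_le] at h1 h2 ⊢
  constructor
  · nlinarith [h1.1, h2.2]
  · nlinarith [h1.2, h2.1]

private theorem CG4_symm {n : ℕ} (p : PD n) : p.1ᵀ = p.1 := by
  have h2 := p.2.1.isHermitian
  rwa [Matrix.IsHermitian, Matrix.conjTranspose_eq_transpose_of_trivial] at h2

/-- Row CG4. Relative closeness (compare `close_rel`, `LibNS38/G4.lean`, whose proof adapts: `Q1` is the compact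
fundamental set of `coc_pd`, the tube lemma is replaced by the hypothesis on `Q1`). -/
theorem close_rel2 {n : ℕ} (Γ : Subgroup (SL n)) (hc : Coc Γ) :
    ∃ Q1 : Set (PD n), IsCompact Q1 ∧ ∀ (Q : Set (PD n)) (ρ : ℝ), IsCompact Q → 0 < ρ →
      ∃ ε : ℝ, 0 < ε ∧ ∀ φ : PD n → PD n, (∀ γ ∈ Γ, ∀ p, φ (act γ p) = act γ (φ p)) →
        (∀ p ∈ Q1, ‖(φ p).1 - p.1‖ ≤ ε) → ∀ p : PD n, φ p ∈ Q → ‖p.1 - (φ p).1‖ ≤ ρ := by
  obtain ⟨Q0, hQ0, hfund⟩ := coc_pd Γ hc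
  obtain ⟨m, hm, hlow⟩ := CG4_low Q0 hQ0
  refine ⟨Q0, hQ0, fun Q ρ hQ hρ => ?_⟩
  -- bound of the entries on `Q`
  obtain ⟨B, hB⟩ : ∃ B : ℝ, ∀ q ∈ Q, ‖q.1‖ ≤ B := by
    have h1 : IsCompact ((fun q : PD n => q.1) '' Q) := hQ.image continuous_subtype_val
    obtain ⟨B, hB⟩ := h1.isBounded.exists_norm_le
    exact ⟨B, fun q hq => hB _ ⟨q, hq, rfl⟩⟩
  set B' : ℝ := max B 0 + 1 with hB'
  have hB'pos : 0 < B' := by positivity
  set e : ℝ := min (1 / 2) (ρ / (2 * B')) with he'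
  have hepos : 0 < e := lt_min (by norm_num) (by positivity)
  have he1 : e ≤ 1 / 2 := min_le_left _ _
  have he2 : 2 * B' * e ≤ ρ := by
    have : e ≤ ρ / (2 * B') := min_le_right _ _
    rw [le_div_iff₀ (by positivity)] at this
    linarith
  set η : ℝ := e * m / ((n : ℝ) ^ 2 + 1) with hη
  have hηpos : 0 < η := by positivity
  refine ⟨η, hηpos, fun φ he hφ p hp => ?_⟩
  -- the relation on `Q0`
  have hrel0 : ∀ p ∈ Q0, ∀ x, |CG4_q (p.1 - (φ p).1) x| ≤ e * CG4_q p.1 x := by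
    intro p hp x
    have h1 := hφ p hp
    rw [norm_sub_rev] at h1
    have h2 := hlow p hp x
    have h3 := CG4_q_bound (p.1 - (φ p).1) x
    have h4 : (n : ℝ) ^ 2 * ‖p.1 - (φ p).1‖ ≤ e * m := by
      have h5 : (n : ℝ) ^ 2 * ‖p.1 - (φ p).1‖ ≤ ((n : ℝ) ^ 2 + 1) * η := by
        have : (0 : ℝ) ≤ (n : ℝ) ^ 2 := by positivity
        nlinarith [norm_nonneg (p.1 - (φ p).1)]
      have h6 : ((n : ℝ) ^ 2 + 1) * η = e * m := by
        rw [hη]
        field_simp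
      linarith
    calc |CG4_q (p.1 - (φ p).1) x| ≤ (n : ℝ) ^ 2 * ‖p.1 - (φ p).1‖ * ‖x‖ ^ 2 := h3
      _ ≤ e * m * ‖x‖ ^ 2 := by gcongr
      _ = e * (m * ‖x‖ ^ 2) := by ring
      _ ≤ e * CG4_q p.1 x := by gcongr
  -- the relation for all points
  have hrel : ∀ x, |CG4_q (p.1 - (φ p).1) x| ≤ e * CG4_q p.1 x := by
    intro x
    obtain ⟨γ, hγ, hγp⟩ := hfund p
    -- `x = γᵀ y`
    have hu : IsUnit (γ.1ᵀ).det := by
      rw [Matrix.det_transpose, γ.2]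
      exact isUnit_one
    set y : Fin n → ℝ := (γ.1ᵀ)⁻¹ *ᵥ x with hy
    have hxy : γ.1ᵀ *ᵥ y = x := by
      rw [hy, Matrix.mulVec_mulVec, Matrix.mul_nonsing_inv _ hu, Matrix.one_mulVec]
    have h1 := hrel0 (act γ p) hγp y
    have h2 : (act γ p).1 - (φ (act γ p)).1 = γ.1 * (p.1 - (φ p).1) * γ.1ᵀ := by
      rw [he γ hγ p]
      show γ.1 * p.1 * γ.1ᵀ - γ.1 * (φ p).1 * γ.1ᵀ = _
      rw [Matrix.mul_sub, Matrix.sub_mul]
    have h3 : CG4_q (act γ p).1 y = CG4_q p.1 x := by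
      show CG4_q (γ.1 * p.1 * γ.1ᵀ) y = _
      rw [CG4_q_act, hxy]
    rw [h2, CG4_q_act, hxy, h3] at h1
    exact h1
  have h2e : ∀ x, |CG4_q (p.1 - (φ p).1) x| ≤ (2 * e) * CG4_q (φ p).1 x := by
    intro x
    have h1 := hrel x
    have h2 := CG4_q_sub p.1 (φ p).1 x
    have h3 : 0 ≤ CG4_q p.1 x := by
      by_cases hx : x = 0
      · subst hx
        simp [CG4_q]
      · exact (CG4_pos p x hx).le
    have h4 := (abs_le.1 h1).2
    have h5 : CG4_q p.1 x ≤ 2 * CG4_q (φ p).1 x := by nlinarith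
    calc |CG4_q (p.1 - (φ p).1) x| ≤ e * CG4_q p.1 x := h1
      _ ≤ e * (2 * CG4_q (φ p).1 x) := by gcongr
      _ = (2 * e) * CG4_q (φ p).1 x := by ring
  rw [Matrix.norm_le_iff hρ.le]
  intro i j
  have h1 := CG4_entry (p.1 - (φ p).1) (φ p).1 (by
    rw [Matrix.transpose_sub, CG4_symm, CG4_symm]) (CG4_symm _) (2 * e) h2e i j
  have h2 : ∀ i, (φ p).1 i i ≤ B' := by
    intro i
    have h3 : ‖(φ p).1 i i‖ ≤ ‖(φ p).1‖ := Matrix.norm_entry_le_entrywise_sup_norm _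
    have h4 := hB _ hp
    have h5 : (φ p).1 i i ≤ ‖(φ p).1 i i‖ := Real.le_norm_self _
    have h6 : B ≤ max B 0 := le_max_left _ _
    linarith
  rw [Real.norm_eq_abs]
  have h3 := h2 i
  have h4 := h2 j
  have h5 : 2 * e * ((φ p).1 i i + (φ p).1 j j) / 2 ≤ 2 * B' * e := by nlinarith
  linarith

end FL27
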