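import Pool.Agent.LibFL27.CG4
import Pool.Agent.LibNS38.G1
import Pool.Agent.LibNS38.G1b
import Pool.Agent.LibNS38.G5

set_option autoImplicit false
set_option maxSynthPendingDepth 3

open Matrix MeasureTheory Topology Filter LibNC38
open LibNC27 hiding Mt
open scoped Matrix.Norms.Elementwise ContDiff

namespace FL27

private theorem CG5_inj {E : Type} [NormedAddCommGroup E] [NormedSpace ℝ E] (L : E →L[ℝ] E)
    (h : ∀ w, ‖L w - w‖ ≤ 1 / 2 * ‖w‖) : Function.Injective L := by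
  intro w w' hw
  have h1 : L (w - w') = 0 := by rw [map_sub, hw, sub_self]
  have h2 := h (w - w')
  rw [h1, zero_sub, norm_neg] at h2
  have h3 := norm_nonneg (w - w')
  have h4 : ‖w - w'‖ = 0 := by linarith
  exact sub_eq_zero.1 (norm_eq_zero.1 h4)

private theorem CG5_gen {E : Type} [NormedAddCommGroup E] [NormedSpace ℝ E]
    [FiniteDimensional ℝ E] {Ω : Set E} (hΩ : IsOpen Ω) (Q0 : Set E) (hQ0 : IsCompact Q0)
    (hs : Q0 ⊆ Ω) : ∃ (K : Set E) (ρ : ℝ), IsCompact K ∧ K ⊆ Ω ∧ 0 < ρ ∧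
      (∀ q ∈ Q0, Metric.closedBall q ρ ⊆ K) ∧
      ∀ F : E → E, ContDiffOn ℝ ∞ F Ω →
        (∀ A ∈ K, ∀ w, ‖fderiv ℝ F A w - w‖ ≤ 1 / 2 * ‖w‖) →
        ∀ q ∈ Q0, ∀ A ∈ Metric.closedBall q ρ, ∀ B ∈ Metric.closedBall q ρ,
          ‖(F A - A) - (F B - B)‖ ≤ 1 / 2 * ‖A - B‖ := by
  obtain ⟨ρ, hρ, hρΩ⟩ := hQ0.exists_cthickening_subset_open hΩ hs
  have hK : IsCompact (Metric.cthickening ρ Q0) := hQ0.cthickening
  have hball : ∀ q ∈ Q0, Metric.closedBall q ρ ⊆ Metric.cthickening ρ Q0 :=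
    fun q hq => Metric.closedBall_subset_cthickening hq ρ
  refine ⟨Metric.cthickening ρ Q0, ρ, hK, hρΩ, hρ, hball, ?_⟩
  intro F hF hd q hq A hA B hB
  have hder : ∀ y ∈ Metric.closedBall q ρ, HasFDerivWithinAt (fun y => F y - y)
      (fderiv ℝ F y - ContinuousLinearMap.id ℝ E) (Metric.closedBall q ρ) y := by
    intro y hy
    have h1 : DifferentiableAt ℝ F y :=
      (hF.differentiableOn (by simp)).differentiableAt (hΩ.mem_nhds (hρΩ (hball q hq hy)))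
    exact (h1.hasFDerivAt.sub (hasFDerivAt_id y)).hasFDerivWithinAt
  have hbd : ∀ y ∈ Metric.closedBall q ρ,
      ‖fderiv ℝ F y - ContinuousLinearMap.id ℝ E‖ ≤ 1 / 2 := by
    intro y hy
    refine ContinuousLinearMap.opNorm_le_bound _ (by norm_num) fun w => ?_
    exact hd y (hball q hq hy) w
  exact (convex_closedBall q ρ).norm_image_sub_le_of_norm_hasFDerivWithin_le hder hbd hB hA

/-- Row CG5. Smooth equivariant maps close to the identity in `C¹` on a compact set are bijections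
(compare `small_bij`, `LibNS38/G5.lean`, whose proof adapts). PLAN. `Q0` compact fundamental set (`coc_pd`); `ρ` with
`closedBall q ρ ⊆ PU n` for `q ∈ Q0` and `Q := ⋃ closedBall q ρ` (compact: `IsCompact.cthickening`) together with `Q1`
of `close_rel2`; `ε ≤ min (ρ/4) (1/2)` and that of `close_rel2`. The Lipschitz bound of `F A - A` on the balls by the
mean value inequality (convex). -/
theorem bij_of_close {n : ℕ} (hn : 1 ≤ n) (Γ : Subgroup (SL n)) (hc : Coc Γ) :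
    ∃ (Q : Set (Mt n)) (ε : ℝ), IsCompact Q ∧ Q ⊆ PU n ∧ 0 < ε ∧ ∀ φ : PD n → PD n, SmX φ →
      (∀ γ ∈ Γ, ∀ p, φ (act γ p) = act γ (φ p)) →
      (∀ A ∈ Q, ‖lft 1 φ A - A‖ ≤ ε ∧ ∀ w, ‖fderiv ℝ (lft 1 φ) A w - w‖ ≤ ε * ‖w‖) →
      Function.Bijective φ ∧
        ∀ p : PD n, ∃ γ ∈ Γ, Function.Injective (fderiv ℝ (lft 1 φ) (act γ p).1) := by
  obtain ⟨act1, actm, -⟩ := act_facts (n := n)
  obtain ⟨Q0, hQ0c, hQ0⟩ := coc_pd Γ hc
  obtain ⟨Q1, hQ1c, hcl2⟩ := close_rel2 Γ hc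
  have hQ'c : IsCompact ((fun p : PD n => p.1) '' Q0) := hQ0c.image continuous_subtype_val
  have hQ's : ((fun p : PD n => p.1) '' Q0) ⊆ PU n := by
    rintro _ ⟨p, -, rfl⟩
    exact mem_PU p
  have hQ1'c : IsCompact ((fun p : PD n => p.1) '' Q1) := hQ1c.image continuous_subtype_val
  have hQ1's : ((fun p : PD n => p.1) '' Q1) ⊆ PU n := by
    rintro _ ⟨p, -, rfl⟩
    exact mem_PU p
  obtain ⟨K, ρ, hKc, hKs, hρ, hKball, hKlip⟩ := CG5_gen PU_open _ hQ'c hQ's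
  obtain ⟨ε1, hε1, hcl⟩ := hcl2 Q0 ρ hQ0c hρ
  obtain ⟨lv, -, lp, -, lsm⟩ := lft_facts hn
  refine ⟨K ∪ ((fun p : PD n => p.1) '' Q1), min ε1 (min (ρ / 4) (1 / 2)), hKc.union hQ1'c,
    Set.union_subset hKs hQ1's, lt_min hε1 (lt_min (by linarith) (by norm_num)), ?_⟩
  intro φ hφ he hQ
  have hFsm : ContDiffOn ℝ ∞ (lft 1 φ) (PU n) := lsm 1 φ hφ
  have hb1 : ∀ A ∈ K, ‖lft 1 φ A - A‖ ≤ ρ / 4 := fun A hA =>
    ((hQ A (Or.inl hA)).1).trans ((min_le_right _ _).trans (min_le_left _ _))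
  have hb2 : ∀ A ∈ K, ∀ w, ‖fderiv ℝ (lft 1 φ) A w - w‖ ≤ 1 / 2 * ‖w‖ := fun A hA w =>
    ((hQ A (Or.inl hA)).2 w).trans
      (mul_le_mul_of_nonneg_right ((min_le_right _ _).trans (min_le_right _ _)) (norm_nonneg w))
  have hlip := hKlip (lft 1 φ) hFsm hb2
  have hclose : ∀ p : PD n, φ p ∈ Q0 → ‖p.1 - (φ p).1‖ ≤ ρ := by
    refine hcl φ he fun p hp => ?_
    have h1 := (hQ p.1 (Or.inr ⟨p, hp, rfl⟩)).1
    rw [lp] at h1
    exact h1.trans (min_le_left _ _)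
  have hcancel : ∀ (γ : SL n) (p : PD n), act γ⁻¹ (act γ p) = p := by
    intro γ p
    rw [← actm, inv_mul_cancel, act1]
  have hinball : ∀ p : PD n, φ p ∈ Q0 → p.1 ∈ Metric.closedBall (φ p).1 ρ := by
    intro p hp
    rw [mem_closedBall_iff_norm]
    exact hclose p hp
  have hsurj : ∀ q ∈ Q0, (∃ A ∈ Metric.closedBall q.1 (ρ / 2), lft 1 φ A = q.1) ∧
      ∀ A ∈ Metric.closedBall q.1 ρ, ∀ B ∈ Metric.closedBall q.1 ρ,
        lft 1 φ A = lft 1 φ B → A = B := by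
    intro q hq
    exact NS38.near_surj (lft 1 φ) q.1 ρ hρ
      (fun A hA => hb1 A (hKball q.1 ⟨q, hq, rfl⟩ hA)) (hlip q.1 ⟨q, hq, rfl⟩)
  refine ⟨⟨?_, ?_⟩, ?_⟩
  · intro p p' hpp
    obtain ⟨γ, hγ, hγQ⟩ := hQ0 (φ p)
    have e1 : φ (act γ p) = act γ (φ p) := he γ hγ p
    have e2 : φ (act γ p') = act γ (φ p) := by rw [he γ hγ p', hpp]
    have hs := hsurj (act γ (φ p)) hγQ
    have m1 : (act γ p).1 ∈ Metric.closedBall (act γ (φ p)).1 ρ := by
      have h5 := hinball (act γ p) (by rw [e1]; exact hγQ)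
      rw [e1] at h5
      exact h5
    have m2 : (act γ p').1 ∈ Metric.closedBall (act γ (φ p)).1 ρ := by
      have h5 := hinball (act γ p') (by rw [e2]; exact hγQ)
      rw [e2] at h5
      exact h5
    have h6 : lft 1 φ (act γ p).1 = lft 1 φ (act γ p').1 := by
      rw [lp, lp, e1, e2]
    have h7 := hs.2 _ m1 _ m2 h6
    have h8 : act γ p = act γ p' := Subtype.ext h7
    rw [← hcancel γ p, h8, hcancel]
  · intro q0
    obtain ⟨γ, hγ, hγQ⟩ := hQ0 q0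
    have hs := hsurj (act γ q0) hγQ
    obtain ⟨A, hA, hAq⟩ := hs.1
    have hA' : A ∈ Metric.closedBall (act γ q0).1 ρ :=
      Metric.closedBall_subset_closedBall (by linarith) hA
    have hAU : A ∈ PU n := hKs (hKball (act γ q0).1 ⟨_, hγQ, rfl⟩ hA')
    have h5 := (lv 1 φ A hAU).2.1
    rw [hAq, ret_self] at h5
    refine ⟨act γ⁻¹ (ret A), ?_⟩
    rw [he γ⁻¹ (Γ.inv_mem hγ), ← h5, hcancel]
  · intro p
    obtain ⟨γ, hγ, hγQ⟩ := hQ0 (φ p)
    have e1 : φ (act γ p) = act γ (φ p) := he γ hγ p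
    have m1 : (act γ p).1 ∈ Metric.closedBall (act γ (φ p)).1 ρ := by
      have h5 := hinball (act γ p) (by rw [e1]; exact hγQ)
      rw [e1] at h5
      exact h5
    exact ⟨γ, hγ, CG5_inj _ (hb2 _ (hKball (act γ (φ p)).1 ⟨_, hγQ, rfl⟩ m1))⟩

end FL27
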