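import Pool.Agent.LibFL27.CG5
import Pool.Agent.LibFL27.CG3
import Pool.Agent.LibNS38.G6

set_option autoImplicit false
set_option maxSynthPendingDepth 3

open Matrix MeasureTheory Topology Filter LibNC38
open LibNC27 hiding Mt
open scoped Matrix.Norms.Elementwise ContDiff

namespace FL27

private theorem CG6_inv {n : ℕ} (hn : 1 ≤ n) (χ : PD n → PD n)
    (h : ContDiffOn ℝ ∞ (lft 1 χ) (PU n)) : SmX χ := by
  obtain ⟨-, -, -, -, h5, h6⟩ := dec_facts (n := n) hn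
  have h7 : ContDiffOn ℝ ∞ (fun A : Mt n => Real.exp (-(ell A)) • (lft 1 χ A - skp A)) (PU n) :=
    (h5.neg.exp).smul (h.sub h6)
  refine ContDiffOn.congr h7 fun A _ => ?_
  have h8 : lft 1 χ A - skp A = Real.exp (ell A) • (χ (ret A)).1 := by
    simp only [lft, one_mul, one_smul]
    exact add_sub_cancel_right _ _
  rw [h8, smul_smul, ← Real.exp_add, neg_add_cancel, Real.exp_zero, one_smul]

/-- Row CG6. (Compare `small_dfm`, `LibNS38/G6.lean`, whose proof adapts.) -/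
theorem dfm_of_close {n : ℕ} (hn : 1 ≤ n) (Γ : Subgroup (SL n)) (hc : Coc Γ) :
    ∃ (Q : Set (Mt n)) (ε : ℝ), IsCompact Q ∧ Q ⊆ PU n ∧ 0 < ε ∧ ∀ φ : PD n → PD n, SmX φ →
      (∀ γ ∈ Γ, ∀ p, φ (act γ p) = act γ (φ p)) →
      (∀ A ∈ Q, ‖lft 1 φ A - A‖ ≤ ε ∧ ∀ w, ‖fderiv ℝ (lft 1 φ) A w - w‖ ≤ ε * ‖w‖) →
      Dfm Γ φ := by
  obtain ⟨Q, ε, hQ, hQP, hε, h⟩ := bij_of_close hn Γ hc
  refine ⟨Q, ε, hQ, hQP, hε, fun φ hsm he hcl => ?_⟩
  obtain ⟨hb, hi⟩ := h φ hsm he hcl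
  obtain ⟨h1, h2, -, -, h5⟩ := lft_facts (n := n) hn
  have hs : ∀ p, (Equiv.ofBijective φ hb).symm (φ p) = p :=
    fun p => (Equiv.ofBijective φ hb).symm_apply_apply p
  have hs' : ∀ p, φ ((Equiv.ofBijective φ hb).symm p) = p :=
    fun p => (Equiv.ofBijective φ hb).apply_symm_apply p
  generalize ((Equiv.ofBijective φ hb).symm : PD n → PD n) = χ at hs hs'
  have hXF : ∀ A ∈ PU n, lft 1 χ (lft 1 φ A) = A := fun A hA => by
    have := h2 1 φ χ one_pos hs A hA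
    rwa [inv_one] at this
  have hFX : ∀ A ∈ PU n, lft 1 φ (lft 1 χ A) = A := fun A hA => by
    have := h2 1 χ φ one_pos hs' A hA
    rwa [inv_one] at this
  have hj : ∀ A ∈ PU n, Function.Injective (fderiv ℝ (lft 1 φ) A) :=
    lft_inj hn φ hsm fun p => by
      obtain ⟨γ, hγ, hin⟩ := hi p
      exact ⟨γ, fun q => he γ hγ q, hin⟩
  have hX : ContDiffOn ℝ ∞ (lft 1 χ) (PU n) :=
    NS38.inv_smooth (PU n) PU_open (lft 1 φ) (lft 1 χ) (h5 1 φ hsm)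
      (fun A hA => (h1 1 φ A hA).1) (fun A hA => (h1 1 χ A hA).1) hXF hFX hj
  exact ⟨hsm, fun γ hγ p => he γ hγ p, χ, CG6_inv hn χ hX, hs, hs'⟩

/-- Row CG6 (assembly). -/
theorem psi_dfm {n : ℕ} (hn : 1 ≤ n) (Γ : Subgroup (SL n)) (hc : Coc Γ) :
    ∃ η : ℝ, 0 < η ∧ ∀ (a : SL n → Mt n) (A' : Mt n → SL n → Mt n), YOK Γ a →
      (∀ x : Mt n, x.trace = 0 → ∀ i j, RD x (fun g => a g i j) (fun g => A' x g i j)) →
      (∀ g i j, |a g i j| ≤ η) → (∀ x, T1 x → ∀ g i j, |A' x g i j| ≤ η) → Dfm Γ (psi a) := by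
  obtain ⟨Q, ε, hQ, hQP, hε, h⟩ := dfm_of_close hn Γ hc
  obtain ⟨η, hη, hcl⟩ := psi_close hn Γ Q hQ hQP ε hε
  refine ⟨η, hη, fun a A' ha hA' hb hb' => ?_⟩
  exact h (psi a) (psi_smooth Γ a ha) (psi_act Γ a ha).2 (hcl a A' ha hA' hb hb')

end FL27
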