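import Pool.Agent.LibFL27.CG1

set_option autoImplicit false
set_option maxSynthPendingDepth 3

open Matrix MeasureTheory Topology Filter LibNC38
open LibNC27 hiding Mt
open scoped Matrix.Norms.Elementwise ContDiff

namespace FL27

private theorem CG7_iff {n : ℕ} {f : ℝ → Mt n} {f' : Mt n} {s : ℝ} :
    HasDerivAt f f' s ↔ ∀ i j, HasDerivAt (fun x => f x i j) (f' i j) s := by
  have h1 : HasDerivAt f f' s ↔ ∀ i, HasDerivAt (fun x => f x i) (f' i) s := hasDerivAt_pi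
  rw [h1]
  exact forall_congr' fun i => hasDerivAt_pi

private theorem CG7_mul {n : ℕ} {f g : ℝ → Mt n} {f' g' : Mt n} {s : ℝ}
    (hf : HasDerivAt f f' s) (hg : HasDerivAt g g' s) :
    HasDerivAt (fun x => f x * g x) (f' * g s + f s * g') s := by
  rw [CG7_iff]
  intro i j
  have h1 : ∀ k ∈ (Finset.univ : Finset (Fin n)),
      HasDerivAt (fun x => f x i k * g x k j) (f' i k * g s k j + f s i k * g' k j) s :=
    fun k _ => (CG7_iff.1 hf i k).mul (CG7_iff.1 hg k j)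
  have h2 := HasDerivAt.fun_sum h1
  have h3 : (f' * g s + f s * g') i j = ∑ k, (f' i k * g s k j + f s i k * g' k j) := by
    rw [Matrix.add_apply, Matrix.mul_apply, Matrix.mul_apply, Finset.sum_add_distrib]
  rw [h3]
  simpa only [Matrix.mul_apply] using h2

private theorem CG7_tr {n : ℕ} {f : ℝ → Mt n} {f' : Mt n} {s : ℝ}
    (hf : HasDerivAt f f' s) : HasDerivAt (fun x => (f x)ᵀ) f'ᵀ s := by
  rw [CG7_iff]
  intro i j
  exact CG7_iff.1 hf j i

private theorem CG7_ex {n : ℕ} (x : Mt n) (hx : Sym0 x) : (ex x).1 = NormedSpace.exp x := by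
  have h : (NormedSpace.exp x).det = 1 := by
    rw [det_exp_symm x hx.1, hx.2, Real.exp_zero]
  unfold ex
  rw [dif_pos h]

/-- Row CG7. The differential of a map in the frames. PLAN. The curve `c t = g * ex ((t/2) • v)`:
`c cᵀ = g exp (t v) gᵀ` has derivative `g v gᵀ` at `0` and stays in `PD n`; `φ (c cᵀ) = Φ(c) Φ(c)ᵀ`, whose derivative at `0`
is `Φ X Φᵀ + Φ Xᵀ Φᵀ` with `X = X ((1/2) • v) g` (`LD`: `c' = c * (v/2)`); the chain rule for
`dff φ = fderiv (A ↦ (φ (ret A)).1)` (`ret_self`). -/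
theorem frame_deriv {n : ℕ} (φ : PD n → PD n) (hφ : SmX φ) (Φ : SL n → SL n)
    (hΦ : ∀ g, φ (act g (o n)) = act (Φ g) (o n)) (X : Mt n → SL n → Mt n) (hX : LD Φ X)
    (g : SL n) (v : Mt n) (hv : Sym0 v) :
    dff φ (act g (o n)) (g.1 * v * g.1ᵀ) =
      (Φ g).1 * (X ((1 / 2 : ℝ) • v) g + (X ((1 / 2 : ℝ) • v) g)ᵀ) * (Φ g).1ᵀ := by
  have hs : ∀ t : ℝ, Sym0 (t • ((1 / 2 : ℝ) • v)) := by
    intro t
    refine ⟨?_, ?_⟩
    · rw [Matrix.transpose_smul, Matrix.transpose_smul, hv.1]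
    · rw [Matrix.trace_smul, Matrix.trace_smul, hv.2, smul_zero, smul_zero]
  set c : ℝ → SL n := fun t => g * ex (t • ((1 / 2 : ℝ) • v)) with hc
  have hcv : ∀ t, (c t).1 = g.1 * NormedSpace.exp (t • ((1 / 2 : ℝ) • v)) := by
    intro t
    rw [← CG7_ex _ (hs t)]
    rfl
  have hc0 : c 0 = g := by
    apply Subtype.ext
    rw [hcv, zero_smul, NormedSpace.exp_zero, Matrix.mul_one]
  have hcd : HasDerivAt (fun t => (c t).1) ((c 0).1 * ((1 / 2 : ℝ) • v)) 0 := by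
    have h1 := exp_deriv ((1 / 2 : ℝ) • v) 0
    rw [zero_smul, NormedSpace.exp_zero, Matrix.mul_one] at h1
    have h2 := CG7_mul (hasDerivAt_const (0 : ℝ) g.1) h1
    have e1 : (fun t => (c t).1) = fun t : ℝ => g.1 * NormedSpace.exp (t • ((1 / 2 : ℝ) • v)) := by
      funext t
      exact hcv t
    rw [e1, hc0]
    refine h2.congr_deriv ?_
    rw [Matrix.zero_mul, zero_add]
  have hPd := CG7_mul hcd (CG7_tr hcd)
  have hXd : HasDerivAt (fun t => (Φ (c t)).1) ((Φ (c 0)).1 * X ((1 / 2 : ℝ) • v) (c 0)) 0 :=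
    CG7_iff.2 (hX ((1 / 2 : ℝ) • v) (by rw [Matrix.trace_smul, hv.2, smul_zero]) c
      (CG7_iff.1 hcd))
  have hQd := CG7_mul hXd (CG7_tr hXd)
  have hφ' : ContDiffOn ℝ ∞ (fun A : Mt n => (φ (ret A)).1) (PU n) := hφ
  have hF : HasFDerivAt (fun A : Mt n => (φ (ret A)).1) (dff φ (act g (o n)))
      ((fun t => (c t).1 * (c t).1ᵀ) 0) := by
    have e2 : (fun t => (c t).1 * (c t).1ᵀ) 0 = (act g (o n)).1 := by
      show (c 0).1 * (c 0).1ᵀ = g.1 * 1 * g.1ᵀ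
      rw [hc0, Matrix.mul_one]
    rw [e2]
    exact ((hφ'.contDiffAt (PU_open.mem_nhds (mem_PU _))).differentiableAt (by simp)).hasFDerivAt
  have h1 := hF.comp_hasDerivAt (0 : ℝ) hPd
  have h2 : ((fun A : Mt n => (φ (ret A)).1) ∘ fun t => (c t).1 * (c t).1ᵀ) =
      fun t => (Φ (c t)).1 * (Φ (c t)).1ᵀ := by
    funext t
    have e3 : (c t).1 * (c t).1ᵀ = (act (c t) (o n)).1 := by
      show (c t).1 * (c t).1ᵀ = (c t).1 * 1 * (c t).1ᵀ
      rw [Matrix.mul_one]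
    show (φ (ret ((c t).1 * (c t).1ᵀ))).1 = _
    rw [e3, ret_self, hΦ]
    show (Φ (c t)).1 * 1 * (Φ (c t)).1ᵀ = _
    rw [Matrix.mul_one]
  rw [h2] at h1
  have h3 := h1.unique hQd
  rw [hc0] at h3
  have e4 : g.1 * ((1 / 2 : ℝ) • v) * g.1ᵀ + g.1 * (g.1 * ((1 / 2 : ℝ) • v))ᵀ =
      g.1 * v * g.1ᵀ := by
    rw [Matrix.transpose_mul, Matrix.transpose_smul, hv.1, ← Matrix.mul_assoc g.1, ← Matrix.add_mul,
      ← Matrix.mul_add, ← add_smul]
    norm_num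
  rw [e4] at h3
  refine h3.trans ?_
  rw [Matrix.transpose_mul]
  simp only [Matrix.mul_add, Matrix.add_mul, Matrix.mul_assoc]

/-- Row CG7 (second part). The pull back in the frame. -/
theorem psi_frame {n : ℕ} (Γ : Subgroup (SL n)) (a : SL n → Mt n) (A' : Mt n → SL n → Mt n)
    (ha : YOK Γ a) (hs : SmX (psi a)) (hX : LD (Ph a) (Xq a A')) (h : PD n → Fm n) (v w : Mt n)
    (hv : Sym0 v) (hw : Sym0 w) (g : SL n) :
    Jf (pul (psi a) h) v w g = Jf h (Vq a A' v g) (Vq a A' w g) (Ph a g) := by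
  have h0 := (psi_act Γ a ha).1
  have h1 := frame_deriv (psi a) hs (Ph a) h0 (Xq a A') hX g v hv
  have h2 := frame_deriv (psi a) hs (Ph a) h0 (Xq a A') hX g w hw
  show h (psi a (act g (o n))) (dff (psi a) (act g (o n)) (g.1 * v * g.1ᵀ))
    (dff (psi a) (act g (o n)) (g.1 * w * g.1ᵀ)) = _
  rw [h1, h2, h0]
  rfl

end FL27
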