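import Pool.Agent.LibFL27.CDefs
import Pool.Agent.LibNS38.P6
import Pool.Agent.LibNS38.D7
import Pool.Agent.LibNS38.D6
import Pool.Agent.LibNS38.D5

set_option autoImplicit false
set_option maxSynthPendingDepth 3

open Matrix MeasureTheory Topology Filter LibNC38
open LibNC27 hiding Mt
open scoped Matrix.Norms.Elementwise ContDiff

namespace FL27

private theorem CG8_inv {n : ℕ} (φ χ : PD n → PD n) (hφ : SmX φ) (hχ : SmX χ)
    (h1 : ∀ p, χ (φ p) = p) (p : PD n) (v : Mt n) (hv : IsTan p v) :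
    dff χ (φ p) (dff φ p v) = v := by
  have e : (fun p : PD n => χ (φ p)) = fun p => p := funext h1
  have h3 := (dff_facts.2.1 χ φ hχ hφ).2 p v
  rw [e] at h3
  rw [← h3]
  exact dff_facts.2.2.1.2 p v hv

private theorem CG8_gen {E F X : Type*} [NormedAddCommGroup E] [NormedSpace ℝ E]
    [NormedAddCommGroup F] [NormedSpace ℝ F] [NormedAddCommGroup X] [NormedSpace ℝ X]
    {f : E → F} {s : Set E} (hs : IsOpen s) (hf : ContDiffOn ℝ ∞ f s) (v : E)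
    {g : X → E} {u : Set X} (hg : ContDiffOn ℝ ∞ g u) (hm : Set.MapsTo g u s) :
    ContDiffOn ℝ ∞ (fun x => fderiv ℝ f (g x) v) u := by
  have h1 : ContDiffOn ℝ ∞ (fderiv ℝ f) s := ContDiffOn.fderiv_of_isOpen hf hs (by simp)
  have h2 := h1.comp hg hm
  have h3 : ContDiffOn ℝ ∞ (fun _ : X => v) u := contDiffOn_const
  exact h2.clm_apply h3

private theorem CG8_cm {n : ℕ} (φ : PD n → PD n) (hφ : SmX φ) (h : PD n → Fm n)
    (h3 : CmF ∞ h) (v w : Mt n) :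
    ContDiffOn ℝ ∞ (fun A : Mt n => pul φ h (ret A) v w) (PU n) := by
  obtain ⟨U, K, hU, hK, hs⟩ := h3
  have hF : ContDiffOn ℝ ∞ (fun A : Mt n => (φ (ret A)).1) (PU n) := hφ
  have hd : ∀ v : Mt n, ContDiffOn ℝ ∞ (fun A : Mt n => dff φ (ret A) v) (PU n) := fun v =>
    CG8_gen (f := fun A : Mt n => (φ (ret A)).1) (g := fun A : Mt n => (ret A).1) PU_open hF v
      ret_smooth fun A _ => mem_PU _
  have hb : ∀ a b : Mt n, ContDiffOn ℝ ∞ (fun A : Mt n => h (φ (ret A)) a b) (PU n) := by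
    intro a b
    have h7 : ContDiffOn ℝ ∞ (fun A : Mt n => K (φ (ret A)).1 a b) (PU n) :=
      (hs a b).comp hF fun A _ => (hK _).1
    refine h7.congr fun A _ => ?_
    show h (φ (ret A)) a b = K (φ (ret A)).1 a b
    rw [(hK _).2]
  exact cd_bil (K := fun A : Mt n => h (φ (ret A))) hb (hd v) (hd w)

/-- Row CG8. The state passes to `m = c⁻¹ • pul φ h`. PLAN. `fmOK_pul`, `fmOK_smul`, `noConj_pul`, `noConj_smul`
(`LibNS38/D5, D6, D7`), `dff_facts` (tangent vectors to tangent vectors, injective), `CmF ∞`: extension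
`A ↦ m (ret A)` on `PU n` (`pul` of smooth forms by smooth maps: `smP_facts`, `smP_pul` of LibFR38 with constant
families, or `smF_pul` of LibNS38). -/
theorem state_pul {n : ℕ} (hn : 1 ≤ n) (Γ : Subgroup (SL n)) (φ : PD n → PD n) (hφ : Dfm Γ φ)
    (c : ℝ) (hc : 0 < c) (h : PD n → Fm n) (h1 : FmOK Γ h)
    (h2 : ∀ p v, IsTan p v → v ≠ 0 → 0 < h p v v) (h3 : CmF ∞ h) (h4 : NoConj (dN (nrm h))) :
    FmOK Γ (fun p => c⁻¹ • pul φ h p) ∧
    (∀ p v, IsTan p v → v ≠ 0 → 0 < (c⁻¹ • pul φ h p) v v) ∧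
    CmF ∞ (fun p => c⁻¹ • pul φ h p) ∧ NoConj (dN (nrm (fun p => c⁻¹ • pul φ h p))) := by
  obtain ⟨χ, hχ, e1, e2⟩ := hφ.inv
  have hci : 0 < c⁻¹ := inv_pos.2 hc
  refine ⟨fmOK_smul Γ _ (fmOK_pul Γ φ hφ h h1) _, fun p v hv hv0 => ?_, ?_,
    noConj_smul _ hci _ (noConj_pul Γ φ hφ h h4)⟩
  · show 0 < c⁻¹ * h (φ p) (dff φ p v) (dff φ p v)
    refine mul_pos hci (h2 _ _ (dff_facts.1 φ hφ.smooth p v) fun h0 => hv0 ?_)
    rw [← CG8_inv φ χ hφ.smooth hχ e1 p v hv, h0, map_zero]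
  · refine ⟨PU n, fun A => c⁻¹ • pul φ h (ret A), PU_open, fun p => ⟨mem_PU p, ?_⟩,
      fun v w => ?_⟩
    · show c⁻¹ • pul φ h (ret p.1) = c⁻¹ • pul φ h p
      rw [ret_self]
    · exact contDiffOn_const.mul (CG8_cm φ hφ.smooth h h3 v w)

/-- Row CG8 (second part). Composition of gauge maps. PLAN. `dff_facts` (chain rule), `Dfm` of a composition. -/
theorem orb_trans {n : ℕ} (Γ : Subgroup (SL n)) (φ χ : PD n → PD n) (hφ : Dfm Γ φ)
    (hχ : Dfm Γ χ) (c d : ℝ) (h m m' : PD n → Fm n)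
    (e1 : ∀ p v, IsTan p v → pul φ h p v v = c * m p v v)
    (e2 : ∀ p v, IsTan p v → pul χ m p v v = d * m' p v v) :
    Dfm Γ (fun p => φ (χ p)) ∧
    ∀ p v, IsTan p v → pul (fun p => φ (χ p)) h p v v = (c * d) * m' p v v := by
  have hc := dff_facts.2.1 φ χ hφ.smooth hχ.smooth
  refine ⟨⟨hc.1, fun γ hγ p => ?_, ?_⟩, fun p v hv => ?_⟩
  · show φ (χ (act γ p)) = act γ (φ (χ p))
    rw [hχ.equi γ hγ, hφ.equi γ hγ]
  · obtain ⟨φ', hφ', a1, a2⟩ := hφ.inv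
    obtain ⟨χ', hχ', b1, b2⟩ := hχ.inv
    refine ⟨fun p => χ' (φ' p), (dff_facts.2.1 χ' φ' hχ' hφ').1, fun p => ?_, fun p => ?_⟩
    · show χ' (φ' (φ (χ p))) = p
      rw [a1, b1]
    · show φ (χ (χ' (φ' p))) = p
      rw [b2, a2]
  · have h5 := e1 (χ p) (dff χ p v) (dff_facts.1 χ hχ.smooth p v)
    have h6 := e2 p v hv
    rw [pul_apply, hc.2 p v]
    rw [pul_apply] at h5
    rw [pul_apply] at h6
    rw [h5, h6, mul_assoc]

end FL27
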