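import Pool.Agent.LibFL27.CDefs

set_option autoImplicit false
set_option maxSynthPendingDepth 3

open Matrix MeasureTheory Topology Filter LibNC38
open LibNC27 hiding Mt
open scoped Matrix.Norms.Elementwise ContDiff

namespace FL27

/-- the main inequality -/
private theorem CH0_main (C N δ θ a P r : ℝ) (hC : 1 ≤ C) (hN : 1 ≤ N) (hδ : 0 < δ) (hθ : 1 ≤ θ)
    (ha : 0 < a) (hδa : δ ≤ a) (hP : P ≤ a ^ 3 * θ ^ 6) (hr : r = a ^ 3) :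
    C * ((C * (δ * θ ^ 6) * P + δ * r) / (a / N) ^ 2 +
      C * (δ * θ ^ 6) * θ ^ 2 * (a / N) + (C * (δ * θ ^ 6) * θ) ^ 2) ≤
      8 * C ^ 3 * N ^ 2 * (δ * a * θ ^ 14) := by
  have hC0 : 0 < C := by linarith
  have hN0 : 0 < N := by linarith
  have hθ0 : 0 < θ := by linarith
  have hθk : ∀ k l : ℕ, k ≤ l → θ ^ k ≤ θ ^ l := fun k l h => pow_le_pow_right₀ hθ h
  have h1 : (C * (δ * θ ^ 6) * P + δ * r) / (a / N) ^ 2 ≤ 2 * C * N ^ 2 * (δ * a * θ ^ 14) := by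
    rw [div_pow, div_div_eq_mul_div, div_le_iff₀ (by positivity), hr]
    have e1 : C * (δ * θ ^ 6) * P ≤ C * (δ * θ ^ 6) * (a ^ 3 * θ ^ 6) :=
      mul_le_mul_of_nonneg_left hP (by positivity)
    have e2 : θ ^ 12 ≤ θ ^ 14 := hθk 12 14 (by norm_num)
    have e3 : 1 ≤ θ ^ 14 := one_le_pow₀ hθ
    have e4 : C * (δ * θ ^ 6) * (a ^ 3 * θ ^ 6) ≤ C * δ * a ^ 3 * θ ^ 14 := by
      have : C * (δ * θ ^ 6) * (a ^ 3 * θ ^ 6) = C * δ * a ^ 3 * θ ^ 12 := by ring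
      rw [this]
      exact mul_le_mul_of_nonneg_left e2 (by positivity)
    have e5 : δ * a ^ 3 ≤ C * δ * a ^ 3 * θ ^ 14 := by
      have h : δ * a ^ 3 * 1 ≤ δ * a ^ 3 * (C * θ ^ 14) := by
        refine mul_le_mul_of_nonneg_left ?_ (by positivity)
        nlinarith
      calc δ * a ^ 3 = δ * a ^ 3 * 1 := by ring
        _ ≤ δ * a ^ 3 * (C * θ ^ 14) := h
        _ = C * δ * a ^ 3 * θ ^ 14 := by ring
    have e6 : C * (δ * θ ^ 6) * P + δ * a ^ 3 ≤ 2 * (C * δ * a ^ 3 * θ ^ 14) := by linarith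
    calc (C * (δ * θ ^ 6) * P + δ * a ^ 3) * N ^ 2
        ≤ 2 * (C * δ * a ^ 3 * θ ^ 14) * N ^ 2 := mul_le_mul_of_nonneg_right e6 (by positivity)
      _ = 2 * C * N ^ 2 * (δ * a * θ ^ 14) * a ^ 2 := by ring
  have h2 : C * (δ * θ ^ 6) * θ ^ 2 * (a / N) ≤ C * (δ * a * θ ^ 14) := by
    have e1 : a / N ≤ a := div_le_self ha.le hN
    have e2 : θ ^ 8 ≤ θ ^ 14 := hθk 8 14 (by norm_num)
    calc C * (δ * θ ^ 6) * θ ^ 2 * (a / N) ≤ C * (δ * θ ^ 6) * θ ^ 2 * a :=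
          mul_le_mul_of_nonneg_left e1 (by positivity)
      _ = C * δ * a * θ ^ 8 := by ring
      _ ≤ C * δ * a * θ ^ 14 := mul_le_mul_of_nonneg_left e2 (by positivity)
      _ = C * (δ * a * θ ^ 14) := by ring
  have h3 : (C * (δ * θ ^ 6) * θ) ^ 2 ≤ C ^ 2 * (δ * a * θ ^ 14) := by
    calc (C * (δ * θ ^ 6) * θ) ^ 2 = C ^ 2 * δ * θ ^ 14 * δ := by ring
      _ ≤ C ^ 2 * δ * θ ^ 14 * a := mul_le_mul_of_nonneg_left hδa (by positivity)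
      _ = C ^ 2 * (δ * a * θ ^ 14) := by ring
  have hZ : 0 < δ * a * θ ^ 14 := by positivity
  have hN2 : 1 ≤ N ^ 2 := one_le_pow₀ hN
  have h4 : 2 * C * N ^ 2 + C + C ^ 2 ≤ 8 * C ^ 2 * N ^ 2 := by
    have hC2 : C ≤ C ^ 2 := by nlinarith
    have e1 : C * N ^ 2 ≤ C ^ 2 * N ^ 2 := mul_le_mul_of_nonneg_right hC2 (by positivity)
    have e2 : C ^ 2 ≤ C ^ 2 * N ^ 2 := by nlinarith
    nlinarith
  calc C * ((C * (δ * θ ^ 6) * P + δ * r) / (a / N) ^ 2 +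
        C * (δ * θ ^ 6) * θ ^ 2 * (a / N) + (C * (δ * θ ^ 6) * θ) ^ 2)
      ≤ C * (2 * C * N ^ 2 * (δ * a * θ ^ 14) + C * (δ * a * θ ^ 14) +
          C ^ 2 * (δ * a * θ ^ 14)) := by
        refine mul_le_mul_of_nonneg_left ?_ hC0.le
        linarith
    _ = C * (δ * a * θ ^ 14) * (2 * C * N ^ 2 + C + C ^ 2) := by ring
    _ ≤ C * (δ * a * θ ^ 14) * (8 * C ^ 2 * N ^ 2) :=
        mul_le_mul_of_nonneg_left h4 (by positivity)
    _ = 8 * C ^ 3 * N ^ 2 * (δ * a * θ ^ 14) := by ring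

/-- Row CH0. The numerology of the iteration. PLAN. `A = ⌈84/b⌉ + 3`, `m = 6 A`, `s = δ^(b/m)/θ`, `τ = δ^(b/3)/n`,
`d = C' δ^(1+b/3) θ^14` with `C' = 8 C^3 n^2`, `θ' = θ (K/d)^(1/m)`, `K = C (C δ θ^6)/s = C^2 δ^(1-b/m) θ^7`. Use
`(δ θ^6)^(1+b) ≤ δ^(1+b) θ^12`, `K/d ≤ C^2 δ^(-b/m-b/3)`, and for every `q ≥ 0`, `p > 0` with `q/p ≤ A`:
`δ^p θ^q = (δ θ^(q/p))^p ≤ ε^p`. -/
theorem numer (b : ℝ) (hb : 0 < b) (hb1 : b ≤ 1) (n : ℕ) (hn : 1 ≤ n) : ∃ A m : ℕ, 7 ≤ A ∧ 6 ≤ m ∧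
    ∀ C : ℝ, 1 ≤ C → ∃ ε : ℝ, 0 < ε ∧ ε ≤ 1 ∧ ∀ δ θ : ℝ, 0 < δ → 1 ≤ θ → δ * θ ^ A ≤ ε →
    ∃ s τ d θ' : ℝ, 0 < s ∧ s ≤ 1 ∧ 0 < τ ∧ τ * n ≤ 1 ∧ C * (C * (δ * θ ^ 6)) * θ ≤ 1 ∧
      C * (C * (δ * θ ^ 6)) ≤ s ∧ 0 < d ∧ d ≤ C * (C * (δ * θ ^ 6)) / s ∧
      C * ((C * (δ * θ ^ 6) * (δ * θ ^ 6) ^ b + δ * (s * θ) ^ m) / τ ^ 2 +
        C * (δ * θ ^ 6) * θ ^ 2 * τ + (C * (δ * θ ^ 6) * θ) ^ 2) ≤ d ∧ 1 ≤ θ' ∧
      θ' ^ m * d = C * (C * (δ * θ ^ 6)) / s * θ ^ m ∧ C * d * θ' ^ A ≤ 1 / 2 * (δ * θ ^ A) := by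
  obtain ⟨A, hA⟩ := exists_nat_ge (84 / b)
  have h84 : (84 : ℝ) ≤ 84 / b := by
    rw [le_div_iff₀ hb]
    nlinarith
  have hA84 : 84 ≤ A := by exact_mod_cast h84.trans hA
  refine ⟨A, 6 * A, by omega, by omega, ?_⟩
  intro C hC
  have hC0 : 0 < C := by linarith
  have hN : (1 : ℝ) ≤ (n : ℝ) := by exact_mod_cast hn
  set N : ℝ := (n : ℝ) with hNdef
  have hN0 : 0 < N := by linarith
  set K0 : ℝ := 8 ^ 7 * C ^ 23 * N ^ 10 with hK0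
  have hC23 : ∀ k : ℕ, 1 ≤ C ^ k := fun k => one_le_pow₀ hC
  have hNk : ∀ k : ℕ, 1 ≤ N ^ k := fun k => one_le_pow₀ hN
  have hK01 : 1 ≤ K0 := by
    have e1 : 1 ≤ C ^ 23 * N ^ 10 := one_le_mul_of_one_le_of_one_le (hC23 23) (hNk 10)
    have e2 : K0 = 8 ^ 7 * (C ^ 23 * N ^ 10) := by rw [hK0]; ring
    rw [e2]
    linarith
  have hK0p : 0 < K0 := by linarith
  set η : ℝ := K0⁻¹ with hη
  have hη0 : 0 < η := inv_pos.2 hK0p
  have hη1 : η ≤ 1 := inv_le_one_of_one_le₀ hK01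
  have hηK : K0 * η = 1 := mul_inv_cancel₀ hK0p.ne'
  have h3b : 0 < 3 / b := by positivity
  refine ⟨η ^ (3 / b), Real.rpow_pos_of_pos hη0 _, Real.rpow_le_one hη0.le hη1 h3b.le, ?_⟩
  intro δ θ hδ hθ hX
  have hθ0 : 0 < θ := by linarith
  have hθk : ∀ k : ℕ, 1 ≤ θ ^ k := fun k => one_le_pow₀ hθ
  have hδε : δ ≤ η ^ (3 / b) := by
    have : δ * 1 ≤ δ * θ ^ A := mul_le_mul_of_nonneg_left (hθk A) hδ.le
    linarith
  have hδ1 : δ ≤ 1 := hδε.trans (Real.rpow_le_one hη0.le hη1 h3b.le)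
  -- the powers of `δ`
  set a : ℝ := δ ^ (b / 3) with ha
  have ha0 : 0 < a := Real.rpow_pos_of_pos hδ _
  have ha1 : a ≤ 1 := Real.rpow_le_one hδ.le hδ1 (by positivity)
  have hδa2 : δ ≤ a * a := by
    rw [ha, ← Real.rpow_add hδ]
    calc δ = δ ^ (1 : ℝ) := (Real.rpow_one δ).symm
      _ ≤ δ ^ (b / 3 + b / 3) := Real.rpow_le_rpow_of_exponent_ge hδ hδ1 (by linarith)
  have hδa : δ ≤ a := by nlinarith
  have ha3 : δ ^ b = a ^ 3 := by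
    rw [ha, ← Real.rpow_natCast, ← Real.rpow_mul hδ.le]
    congr 1
    push_cast
    ring
  have hA0 : (0 : ℝ) < A := by
    have : 0 < A := by omega
    exact_mod_cast this
  have hm0 : (0 : ℝ) < ((6 * A : ℕ) : ℝ) := by push_cast; positivity
  set r : ℝ := δ ^ (b / ((6 * A : ℕ) : ℝ)) with hr
  have hr0 : 0 < r := Real.rpow_pos_of_pos hδ _
  have hr1 : r ≤ 1 := Real.rpow_le_one hδ.le hδ1 (by positivity)
  have har : a ≤ r := by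
    refine Real.rpow_le_rpow_of_exponent_ge hδ hδ1 ?_
    rw [div_le_div_iff₀ hm0 (by norm_num)]
    have : (3 : ℝ) ≤ ((6 * A : ℕ) : ℝ) := by
      have h : 3 ≤ 6 * A := by omega
      exact_mod_cast h
    nlinarith
  have hrm : r ^ (6 * A) = a ^ 3 := by
    rw [← ha3, hr, ← Real.rpow_natCast, ← Real.rpow_mul hδ.le]
    congr 1
    field_simp
  have hq : a * θ ^ 28 ≤ η := by
    have e1 : θ ^ 28 = (θ ^ (84 / b)) ^ (b / 3) := by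
      rw [← Real.rpow_mul hθ0.le, ← Real.rpow_natCast]
      congr 1
      field_simp
      norm_num
    have e2 : θ ^ (84 / b) ≤ θ ^ A := by
      rw [← Real.rpow_natCast θ A]
      exact Real.rpow_le_rpow_of_exponent_le hθ hA
    have e3 : δ * θ ^ (84 / b) ≤ η ^ (3 / b) :=
      (mul_le_mul_of_nonneg_left e2 hδ.le).trans hX
    have e4 : (0 : ℝ) ≤ θ ^ (84 / b) := (Real.rpow_pos_of_pos hθ0 _).le
    calc a * θ ^ 28 = (δ * θ ^ (84 / b)) ^ (b / 3) := by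
          rw [e1, ha, Real.mul_rpow hδ.le e4]
      _ ≤ (η ^ (3 / b)) ^ (b / 3) :=
          Real.rpow_le_rpow (mul_nonneg hδ.le e4) e3 (by positivity)
      _ = η := by
          rw [← Real.rpow_mul hη0.le]
          have : 3 / b * (b / 3) = 1 := by field_simp
          rw [this, Real.rpow_one]
  have hq7 : a * θ ^ 7 ≤ η :=
    (mul_le_mul_of_nonneg_left (pow_le_pow_right₀ hθ (by norm_num)) ha0.le).trans hq
  -- small constants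
  have hsm : ∀ x : ℝ, 0 ≤ x → x ≤ K0 → x * η ≤ 1 := by
    intro x hx hxK
    calc x * η ≤ K0 * η := mul_le_mul_of_nonneg_right hxK hη0.le
      _ = 1 := hηK
  have hCN : 8 * C * N ^ 2 ≤ K0 := by
    have e1 : C ≤ C ^ 23 := by
      calc C = C ^ 1 := (pow_one C).symm
        _ ≤ C ^ 23 := pow_le_pow_right₀ hC (by norm_num)
    have e2 : N ^ 2 ≤ N ^ 10 := pow_le_pow_right₀ hN (by norm_num)
    have e3 : C * N ^ 2 ≤ C ^ 23 * N ^ 10 := mul_le_mul e1 e2 (by positivity) (by positivity)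
    have e4 : 0 < C ^ 23 * N ^ 10 := by positivity
    rw [hK0]
    nlinarith
  have hC2K : C ^ 2 ≤ K0 := by
    have e1 : C ^ 2 ≤ C ^ 23 := pow_le_pow_right₀ hC (by norm_num)
    have e2 : C ^ 23 * 1 ≤ C ^ 23 * N ^ 10 := mul_le_mul_of_nonneg_left (hNk 10) (by positivity)
    have e4 : 0 < C ^ 23 * N ^ 10 := by positivity
    rw [hK0]
    nlinarith
  have hC2 : C ^ 2 * η ≤ 1 := hsm _ (by positivity) hC2K
  have hCNη : 8 * C * N ^ 2 * η ≤ 1 := hsm _ (by positivity) hCN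
  -- `C ^ 2 δ θ ^ 7 ≤ a`
  have hmid : C ^ 2 * δ * θ ^ 7 ≤ a := by
    calc C ^ 2 * δ * θ ^ 7 = C ^ 2 * θ ^ 7 * δ := by ring
      _ ≤ C ^ 2 * θ ^ 7 * (a * a) := mul_le_mul_of_nonneg_left hδa2 (by positivity)
      _ = C ^ 2 * a * (a * θ ^ 7) := by ring
      _ ≤ C ^ 2 * a * η := mul_le_mul_of_nonneg_left hq7 (by positivity)
      _ = a * (C ^ 2 * η) := by ring
      _ ≤ a * 1 := mul_le_mul_of_nonneg_left hC2 ha0.le
      _ = a := mul_one a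
  set d : ℝ := 8 * C ^ 3 * N ^ 2 * (δ * a * θ ^ 14) with hd
  have hd0 : 0 < d := by positivity
  set Kk : ℝ := C * (C * (δ * θ ^ 6)) / (r / θ) with hKk
  have hKk' : Kk = C ^ 2 * δ * θ ^ 7 / r := by
    rw [hKk]
    field_simp
  have hKk0 : 0 < Kk := by rw [hKk']; positivity
  have hdK : d ≤ Kk := by
    rw [hKk', le_div_iff₀ hr0, hd]
    calc 8 * C ^ 3 * N ^ 2 * (δ * a * θ ^ 14) * r
        ≤ 8 * C ^ 3 * N ^ 2 * (δ * a * θ ^ 14) * 1 :=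
          mul_le_mul_of_nonneg_left hr1 (by positivity)
      _ = C ^ 2 * δ * θ ^ 7 * (8 * C * N ^ 2 * (a * θ ^ 7)) := by ring
      _ ≤ C ^ 2 * δ * θ ^ 7 * (8 * C * N ^ 2 * η) :=
          mul_le_mul_of_nonneg_left (mul_le_mul_of_nonneg_left hq7 (by positivity))
            (by positivity)
      _ ≤ C ^ 2 * δ * θ ^ 7 * 1 := mul_le_mul_of_nonneg_left hCNη (by positivity)
      _ = C ^ 2 * δ * θ ^ 7 := mul_one _
  set ρ : ℝ := (Kk / d) ^ (1 / ((6 * A : ℕ) : ℝ)) with hρ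
  have hKd1 : 1 ≤ Kk / d := by rw [le_div_iff₀ hd0]; linarith
  have hρ1 : 1 ≤ ρ := Real.one_le_rpow hKd1 (by positivity)
  have hρ0 : 0 < ρ := by linarith
  have hρm : ρ ^ (6 * A) = Kk / d := by
    rw [hρ, ← Real.rpow_natCast, ← Real.rpow_mul (by positivity)]
    have : 1 / ((6 * A : ℕ) : ℝ) * ((6 * A : ℕ) : ℝ) = 1 := by field_simp
    rw [this, Real.rpow_one]
  refine ⟨r / θ, a / N, d, θ * ρ, by positivity, ?_, by positivity, ?_, ?_, ?_, hd0, hdK, ?_, ?_,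
    ?_, ?_⟩
  · rw [div_le_one hθ0]
    linarith
  · rw [div_mul_cancel₀ _ hN0.ne']
    exact ha1
  · calc C * (C * (δ * θ ^ 6)) * θ = C ^ 2 * δ * θ ^ 7 := by ring
      _ ≤ a := hmid
      _ ≤ 1 := ha1
  · rw [le_div_iff₀ hθ0]
    calc C * (C * (δ * θ ^ 6)) * θ = C ^ 2 * δ * θ ^ 7 := by ring
      _ ≤ a := hmid
      _ ≤ r := har
  · have hP : (δ * θ ^ 6) ^ b ≤ a ^ 3 * θ ^ 6 := by
      rw [Real.mul_rpow hδ.le (by positivity), ha3]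
      refine mul_le_mul_of_nonneg_left ?_ (by positivity)
      calc (θ ^ 6) ^ b ≤ (θ ^ 6) ^ (1 : ℝ) := Real.rpow_le_rpow_of_exponent_le (hθk 6) hb1
        _ = θ ^ 6 := Real.rpow_one _
    have hsθ : (r / θ * θ) ^ (6 * A) = a ^ 3 := by
      rw [div_mul_cancel₀ _ hθ0.ne', hrm]
    exact CH0_main C N δ θ a _ _ hC hN hδ hθ ha0 hδa hP hsθ
  · exact one_le_mul_of_one_le_of_one_le hθ hρ1
  · show (θ * ρ) ^ (6 * A) * d = Kk * θ ^ (6 * A)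
    rw [mul_pow, hρm, mul_assoc, div_mul_cancel₀ _ hd0.ne', mul_comm]
  · have hz : (C * d * ρ ^ A) ^ 6 ≤ (δ / 2) ^ 6 := by
      have e1 : (C * d * ρ ^ A) ^ 6 = C ^ 6 * d ^ 5 * Kk := by
        have : (ρ ^ A) ^ 6 = Kk / d := by rw [← pow_mul, mul_comm A 6, hρm]
        rw [mul_pow, this, mul_pow]
        field_simp
      have e2 : C ^ 6 * d ^ 5 * Kk = 8 ^ 5 * C ^ 23 * N ^ 10 * δ ^ 6 * (a ^ 5 * θ ^ 77 / r) := by
        rw [hKk', hd]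
        ring
      have e3 : a ^ 5 * θ ^ 77 / r ≤ η := by
        rw [div_le_iff₀ hr0]
        have f1 : a ^ 5 * θ ^ 77 ≤ a ^ 5 * θ ^ 112 :=
          mul_le_mul_of_nonneg_left (pow_le_pow_right₀ hθ (by norm_num)) (by positivity)
        have f2 : a ^ 5 * θ ^ 112 = a * (a * θ ^ 28) ^ 4 := by ring
        have f3 : (a * θ ^ 28) ^ 4 ≤ η ^ 4 := pow_le_pow_left₀ (by positivity) hq 4
        have f4 : η ^ 4 ≤ η := by
          calc η ^ 4 ≤ η ^ 1 := pow_le_pow_of_le_one hη0.le hη1 (by norm_num)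
            _ = η := pow_one η
        calc a ^ 5 * θ ^ 77 ≤ a * (a * θ ^ 28) ^ 4 := f1.trans f2.le
          _ ≤ r * η := mul_le_mul har (f3.trans f4) (by positivity) hr0.le
          _ = η * r := mul_comm _ _
      rw [e1, e2]
      calc 8 ^ 5 * C ^ 23 * N ^ 10 * δ ^ 6 * (a ^ 5 * θ ^ 77 / r)
          ≤ 8 ^ 5 * C ^ 23 * N ^ 10 * δ ^ 6 * η :=
            mul_le_mul_of_nonneg_left e3 (by positivity)
        _ = (δ / 2) ^ 6 * (K0 * η) := by rw [hK0]; ring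
        _ = (δ / 2) ^ 6 := by rw [hηK, mul_one]
    have hz2 : C * d * ρ ^ A ≤ δ / 2 :=
      (pow_le_pow_iff_left₀ (by positivity) (by positivity) (by norm_num)).1 hz
    calc C * d * (θ * ρ) ^ A = C * d * ρ ^ A * θ ^ A := by rw [mul_pow]; ring
      _ ≤ δ / 2 * θ ^ A := mul_le_mul_of_nonneg_right hz2 (by positivity)
      _ = 1 / 2 * (δ * θ ^ A) := by ring

end FL27
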