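import Pool.Agent.LibFL27.CDefs
import Pool.Agent.LibFL27.CA0

set_option autoImplicit false
set_option maxSynthPendingDepth 3

open Matrix MeasureTheory Topology Filter LibNC38
open LibNC27 hiding Mt
open scoped Matrix.Norms.Elementwise ContDiff

namespace FL27

private theorem CH3_val {n : ℕ} (z : Mt n) (hz : Sym0 z) (s : ℝ) :
    (act (ex (s • z)) (o n)).1 = NormedSpace.exp (s • ((2 : ℝ) • z)) := by
  have h1 : (s • z).trace = 0 := by rw [Matrix.trace_smul, hz.2, smul_zero]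
  have h2 : (ex (s • z)).1 = NormedSpace.exp (s • z) := ex_facts.1 _ h1
  show (ex (s • z)).1 * (1 : Mt n) * (ex (s • z)).1ᵀ = _
  rw [h2, Matrix.mul_one, ← Matrix.exp_transpose, Matrix.transpose_smul, hz.1,
    ← Matrix.exp_add_of_commute _ _ (Commute.refl (s • z))]
  congr 1
  rw [two_smul, smul_add]

private theorem CH3_spd {n : ℕ} (p : PD n) (z : Mt n) :
    spd p ((2 : ℝ) • z * p.1) = 2 * √ ((z * z).trace) := by
  have hu : IsUnit p.1.det := by rw [p.2.2]; exact isUnit_one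
  have h1 : p.1⁻¹ * ((2 : ℝ) • z * p.1) * (p.1⁻¹ * ((2 : ℝ) • z * p.1)) =
      p.1⁻¹ * (((2 : ℝ) • z) * ((2 : ℝ) • z) * p.1) := by
    calc p.1⁻¹ * ((2 : ℝ) • z * p.1) * (p.1⁻¹ * ((2 : ℝ) • z * p.1))
        = p.1⁻¹ * (((2 : ℝ) • z) * (p.1 * p.1⁻¹) * ((2 : ℝ) • z) * p.1) := by
          simp only [Matrix.mul_assoc]
      _ = p.1⁻¹ * (((2 : ℝ) • z) * ((2 : ℝ) • z) * p.1) := by
          rw [Matrix.mul_nonsing_inv _ hu, Matrix.mul_one]
  unfold spd
  rw [h1, Matrix.trace_mul_comm, Matrix.mul_assoc, Matrix.mul_nonsing_inv _ hu, Matrix.mul_one,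
    Matrix.smul_mul, Matrix.mul_smul, Matrix.trace_smul, Matrix.trace_smul, smul_eq_mul,
    smul_eq_mul]
  rw [show (2 : ℝ) * (2 * (z * z).trace) = 2 ^ 2 * (z * z).trace by ring,
    Real.sqrt_mul (by norm_num), Real.sqrt_sq (by norm_num)]

/-- Row CH3. Distance moved by the exponential. PLAN. The curve `s ↦ act (g * ex (s • z)) (o n)`, `s ∈ [0,1]`, has velocity
`(g ex(s z)) (2 z) (g ex(s z))ᵀ` (`ex_facts` 3) and constant speed `spd = 2 √ tr (z z)`; `dg` is the infimum of lengths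
(`Conn.seg`, `len`, bounded below by `0`). Symmetry of `dg` or the curve `s ↦ 1 - s`. See the rows of LibNC38 (B1, B3, C1..) and
LibNC27/N1a on `dg`. -/
theorem dg_ex {n : ℕ} (g : SL n) (z : Mt n) (hz : Sym0 z) :
    dg (act (g * ex z) (o n)) (act g (o n)) ≤ 2 * √ ((z * z).trace) := by
  have h0 : act (g * ex z) (o n) = act g (act (ex z) (o n)) := by
    apply Subtype.ext
    show (g.1 * (ex z).1) * (1 : Mt n) * (g.1 * (ex z).1)ᵀ =
      g.1 * ((ex z).1 * (1 : Mt n) * (ex z).1ᵀ) * g.1ᵀ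
    rw [Matrix.transpose_mul]
    simp only [Matrix.mul_assoc]
  rw [h0, dg_act, dg_facts.2.2.1]
  have hc : IsC1 (fun s : ℝ => act (ex (s • z)) (o n))
      (fun s : ℝ => (2 : ℝ) • z * (act (ex (s • z)) (o n)).1) := by
    constructor
    · intro s i j
      have h1 := hasDerivAt_pi.1 (hasDerivAt_pi.1 (exp_deriv ((2 : ℝ) • z) s) i) j
      have h2 : (fun s : ℝ => (act (ex (s • z)) (o n)).1 i j) =
          fun s : ℝ => (NormedSpace.exp (s • ((2 : ℝ) • z)) : Mt n) i j := by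
        funext t
        rw [CH3_val z hz t]
      rw [h2]
      show HasDerivAt _ (((2 : ℝ) • z * (act (ex (s • z)) (o n)).1) i j) s
      rw [CH3_val z hz s]
      exact h1
    · intro i j
      have h2 : (fun s : ℝ => ((2 : ℝ) • z * (act (ex (s • z)) (o n)).1) i j) =
          fun s : ℝ => ((2 : ℝ) • z * (NormedSpace.exp (s • ((2 : ℝ) • z)) : Mt n)) i j := by
        funext t
        rw [CH3_val z hz t]
      rw [h2]
      have h3 : Continuous (fun s : ℝ => (NormedSpace.exp (s • ((2 : ℝ) • z)) : Mt n)) :=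
        exp_smooth.continuous.comp (continuous_id.smul continuous_const)
      have h4 : Continuous (fun s : ℝ => ((2 : ℝ) • z * (NormedSpace.exp (s • ((2 : ℝ) • z)) : Mt n))) :=
        continuous_const.matrix_mul h3
      exact h4.matrix_elem i j
  have h1 := Conn.seg (ρ := fun _ : PD n => (1 : ℝ)) _ _ hc
  have h2 := (dr_facts (fun _ : PD n => (1 : ℝ)) 1 1 gd_one).2.2.2.2.2.1 _ _ _ h1
  have e0 : act (ex ((0 : ℝ) • z)) (o n) = o n := by
    apply Subtype.ext
    rw [CH3_val z hz 0, zero_smul, NormedSpace.exp_zero]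
    rfl
  have e1 : act (ex ((1 : ℝ) • z)) (o n) = act (ex z) (o n) := by rw [one_smul]
  have e2 : len (fun _ : PD n => (1 : ℝ)) (fun s : ℝ => act (ex (s • z)) (o n))
      (fun s : ℝ => (2 : ℝ) • z * (act (ex (s • z)) (o n)).1) = 2 * √ ((z * z).trace) := by
    unfold len
    simp only [CH3_spd, one_mul, intervalIntegral.integral_const, sub_zero, one_smul]
  rw [e2] at h2
  simp only [e0, e1] at h2
  exact h2

end FL27
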