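import Pool.Agent.LibFL27.CDefs
import Pool.Agent.LibFL27.CA5
import Pool.Agent.LibFL27.CA10

set_option autoImplicit false
set_option maxSynthPendingDepth 3

open Matrix MeasureTheory Topology Filter LibNC38
open LibNC27 hiding Mt
open scoped Matrix.Norms.Elementwise ContDiff

namespace FL27

/-- Row CH4. Continuous symmetric forms on tangent spaces are determined by the frames: small helper facts. PLAN. `Apx` with
larger constants; `FmOK` of `h - gF` (`gF` is continuous, symmetric, invariant: see LibNE38/E4, LibNS38); `St` at the start. -/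
theorem c_misc {n : ℕ} (Γ : Subgroup (SL n)) :
    (∀ (M M' σ σ' c : ℝ) (κ : PD n → Fm n) (ξ : PD n → Mt n →ₗ[ℝ] ℝ), M ≤ M' → σ ≤ σ' →
      Apx Γ M σ κ c ξ → Apx Γ M' σ' κ c ξ) ∧
    (∀ h : PD n → Fm n, FmOK Γ h → FmOK Γ (fun p => h p - gF p)) ∧
    (∀ (θ : ℝ) (k : ℕ) (M M' : ℝ) (κ : PD n → Fm n), 0 ≤ θ → 0 ≤ M → M ≤ M' → TW θ k M κ → TW θ k M' κ) ∧
    (∀ (θ δ : ℝ) (m : ℕ) (h : PD n → Fm n), 1 ≤ θ → 0 ≤ δ → 6 ≤ m → St Γ m δ θ h →
      Near Γ 6 (δ * θ ^ 6) h) := by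
  refine ⟨?_, ?_, ?_, ?_⟩
  · intro M M' σ σ' c κ ξ hM hσ h
    refine ⟨h.bc.trans hM, fun p v hv => (h.bd p v hv).trans ?_, h.cont, fun γ hγ p v hv =>
      (h.inv γ hγ p v hv).trans ?_, fun g z hz => (h.int g z hz).trans hσ⟩
    · exact mul_le_mul_of_nonneg_right hM (Real.sqrt_nonneg _)
    · exact mul_le_mul_of_nonneg_right hσ (Real.sqrt_nonneg _)
  · intro h hh
    have hg : FmOK Γ (gF : PD n → Fm n) := fmOK_gF Γ
    refine ⟨fun v w => ?_, fun p v w => ?_, fun γ hγ p v hv => ?_⟩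
    · exact (hh.cont v w).sub (hg.cont v w)
    · show h p v w - gF p v w = h p w v - gF p w v
      rw [hh.symm, hg.symm]
    · show h _ _ _ - gF _ _ _ = h p v v - gF p v v
      rw [hh.inv γ hγ p v hv, hg.inv γ hγ p v hv]
  · intro θ k M M' κ hθ hM hMM h v w hv hw hbv hbw
    exact wb_alg.2.1 θ θ k M M' _ hθ le_rfl hMM hM (h v w hv hw hbv hbw)
  · intro θ δ m h hθ hδ hm hs
    exact ⟨hs.ok, hs.pos, (tw_tb _).2 θ m 6 δ hθ hδ hm hs.tw, hs.nc⟩

end FL27
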