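import Pool.Agent.LibFL27.CDefs
import Pool.Agent.LibFL27.CH3
import Pool.Agent.LibFL27.CH4
import Pool.Agent.LibFL27.CF7
import Pool.Agent.LibFL27.CF2
import Pool.Agent.LibFL27.CG6
import Pool.Agent.LibFL27.CG7
import Pool.Agent.LibFL27.CG8
import Pool.Agent.LibFL27.CH0
import Pool.Agent.LibFL27.CA1
import Pool.Agent.LibFL27.CA9
import Pool.Agent.LibFL27.CA10

set_option autoImplicit false
set_option maxSynthPendingDepth 3

open Matrix MeasureTheory Topology Filter LibNC38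
open LibNC27 hiding Mt
open scoped Matrix.Norms.Elementwise ContDiff

namespace FL27

private theorem CH1_vsym {n : ℕ} (a : SL n → Mt n) (A : Mt n → SL n → Mt n)
    (ht : ∀ x : Mt n, x.trace = 0 → ∀ g, (Xq a A x g).trace = 0) (v : Mt n) (hv : Sym0 v) (g : SL n) :
    Sym0 (Vq a A v g) := by
  have h1 : (((1 / 2 : ℝ) • v : Mt n)).trace = 0 := by
    rw [Matrix.trace_smul, hv.2, smul_zero]
  have h2 := ht _ h1 g
  constructor
  · unfold Vq
    rw [Matrix.transpose_add, Matrix.transpose_transpose, add_comm]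
  · unfold Vq
    rw [Matrix.trace_add, Matrix.trace_transpose, h2, add_zero]

private theorem CH1_tr {n : ℕ} (x : Mt n) (hx : Sym0 x) (B : ℝ) (hB : 0 ≤ B)
    (h : ∀ i j, |x i j| ≤ B) : √ ((x * x).trace) ≤ n * B := by
  have h1 : (x * x).trace = ∑ i, ∑ j, x i j * x i j := by
    simp only [Matrix.trace, Matrix.diag_apply, Matrix.mul_apply]
    refine Finset.sum_congr rfl fun i _ => Finset.sum_congr rfl fun j _ => ?_
    have : x j i = x i j := by
      have := congrFun (congrFun hx.1 i) j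
      simpa [Matrix.transpose_apply] using this
    rw [this]
  have h2 : (x * x).trace ≤ (n * B) ^ 2 := by
    rw [h1]
    calc ∑ i, ∑ j, x i j * x i j ≤ ∑ _i : Fin n, ∑ _j : Fin n, B ^ 2 := by
          refine Finset.sum_le_sum fun i _ => Finset.sum_le_sum fun j _ => ?_
          have := h i j
          have h3 := abs_le.1 this
          nlinarith
      _ = (n * B) ^ 2 := by
          simp only [Finset.sum_const, Finset.card_univ, Fintype.card_fin, nsmul_eq_mul]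
          ring
  calc √ ((x * x).trace) ≤ √ ((n * B) ^ 2) := Real.sqrt_le_sqrt h2
    _ = n * B := Real.sqrt_sq (by positivity)

private theorem CH1_mov {n : ℕ} (a : SL n → Mt n) (ha : ∀ g, Sym0 (a g)) (B : ℝ) (hB : 0 ≤ B)
    (h : ∀ g i j, |a g i j| ≤ B) (p : PD n) : dg (psi a p) p ≤ n * B := by
  have h0 : Sym0 (-((1 / 2 : ℝ) • a (tch p))) := by
    refine ⟨?_, ?_⟩
    · rw [Matrix.transpose_neg, Matrix.transpose_smul, (ha _).1]
    · rw [Matrix.trace_neg, Matrix.trace_smul, (ha _).2, smul_zero, neg_zero]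
  have h1 := dg_ex (tch p) (-((1 / 2 : ℝ) • a (tch p))) h0
  have h2 : act (tch p * ex (-((1 / 2 : ℝ) • a (tch p)))) (o n) = psi a p := rfl
  rw [h2, ← tch_eq p] at h1
  have h3 := CH1_tr _ h0 (B / 2) (by positivity) (fun i j => by
    have := h (tch p) i j
    rw [Matrix.neg_apply, Matrix.smul_apply, smul_eq_mul, abs_neg, abs_mul]
    rw [abs_of_pos (by norm_num : (0 : ℝ) < 1 / 2)]
    linarith)
  calc dg (psi a p) p ≤ _ := h1
    _ ≤ 2 * (n * (B / 2)) := by linarith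
    _ = n * B := by ring

/-- Row CH1. One step of the iteration (assembly). -/
theorem c_step (Q : QStat) {n : ℕ} (hn : 3 ≤ n) (Γ : Subgroup (SL n)) (hd : Disc Γ) (hc : Coc Γ) :
    ∃ (A m : ℕ) (K ε : ℝ), 6 ≤ A ∧ 6 ≤ m ∧ 0 < K ∧ 0 < ε ∧ ∀ (h : PD n → Fm n) (δ θ : ℝ), 0 < δ →
      1 ≤ θ → δ * θ ^ A ≤ ε → St Γ m δ θ h → ∃ (φ : PD n → PD n) (c δ' θ' : ℝ), Dfm Γ φ ∧
        |c - 1| ≤ K * (δ * θ ^ A) ∧ (∀ p, dg (φ p) p ≤ K * (δ * θ ^ A)) ∧
        0 < δ' ∧ 1 ≤ θ' ∧ δ' * θ' ^ A ≤ 1 / 2 * (δ * θ ^ A) ∧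
        St Γ m δ' θ' (fun p => c⁻¹ • pul φ h p) := by
  have hn1 : 1 ≤ n := by omega
  obtain ⟨CQ, b0, hCQ, hb0, HQ⟩ := Q n hn Γ hd hc
  obtain ⟨A, m, hA, hm, HN⟩ := numer (min b0 1) (lt_min hb0 one_pos) (min_le_right _ _) n hn1
  obtain ⟨CE, hCE, HE⟩ := step_est hn1 Γ hd hc m (by omega)
  obtain ⟨CI, hCI, HI⟩ := wb_interp (n := n) m (by omega)
  obtain ⟨η, hη, HD⟩ := psi_dfm hn1 Γ hc
  obtain ⟨C, hC10, hCQC, hCEC, hCIC, hCη⟩ : ∃ C : ℝ, 10 ≤ C ∧ CQ ≤ C ∧ CE ≤ C ∧ CI ≤ C ∧ CE / η ≤ C := by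
    refine ⟨max 10 (max CQ (max CE (max CI (CE / η)))), le_max_left _ _, ?_, ?_, ?_, ?_⟩
    · exact le_trans (le_max_left _ _) (le_max_right _ _)
    · exact le_trans (le_trans (le_max_left _ _) (le_max_right _ _)) (le_max_right _ _)
    · exact le_trans (le_trans (le_trans (le_max_left _ _) (le_max_right _ _)) (le_max_right _ _))
        (le_max_right _ _)
    · exact le_trans (le_trans (le_trans (le_max_right _ _) (le_max_right _ _)) (le_max_right _ _))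
        (le_max_right _ _)
  have hC1 : 1 ≤ C := by linarith
  have hC0 : 0 < C := by linarith
  obtain ⟨ε, hε, hε1, HN'⟩ := HN C hC1
  refine ⟨A, m, C + n * C ^ 2, ε, by omega, hm, by positivity, hε, ?_⟩
  intro h δ θ hδ hθ hsmall hst
  obtain ⟨s, τ, d, θ', hs0, hs1, hτ0, hτn, h1, h2, hd0, hdK, hlow, hθ', hθm, hfin⟩ :=
    HN' δ θ hδ hθ hsmall
  have hθ0 : 0 < θ := by linarith
  obtain ⟨D, hD⟩ : ∃ D : ℝ, D = δ * θ ^ 6 := ⟨_, rfl⟩
  rw [← hD] at h1 h2 hdK hlow hθm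
  have hD0 : 0 < D := by rw [hD]; positivity
  have hDδ : δ ≤ D := by
    rw [hD]
    have : 1 ≤ θ ^ 6 := one_le_pow₀ hθ
    nlinarith
  have hCD0 : 0 < C * D := by positivity
  have hCD : C * (C * D) ≤ 1 := h2.trans hs1
  have hCD' : C * D ≤ 1 / 10 := by nlinarith
  have hD1 : D ≤ 1 := by nlinarith
  have hCDD : D ≤ C * D := by nlinarith
  obtain ⟨ap1, fm1, tw1, nr1⟩ := c_misc Γ
  have hnear : Near Γ 6 D h := by
    rw [hD]; exact nr1 θ δ m h hθ hδ.le hm hst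
  obtain ⟨c, ξ, hapx⟩ := HQ h D hD0 (by nlinarith) hst.sm hnear
  have hDb : D ^ b0 ≤ D ^ (min b0 1) :=
    Real.rpow_le_rpow_of_exponent_ge hD0 hD1 (min_le_left _ _)
  have hapx' : Apx Γ (C * D) (C * D * D ^ (min b0 1)) (fun p => h p - gF p) c ξ := by
    refine ap1 _ _ _ _ _ _ _ (mul_le_mul_of_nonneg_right hCQC hD0.le) ?_ hapx
    have e1 : CQ * D ≤ C * D := mul_le_mul_of_nonneg_right hCQC hD0.le
    have e2 : 0 < D ^ b0 := Real.rpow_pos_of_pos hD0 _
    exact mul_le_mul e1 hDb e2.le hCD0.le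
  have hσ0 : 0 ≤ C * D * D ^ (min b0 1) := by
    have : 0 < D ^ (min b0 1) := Real.rpow_pos_of_pos hD0 _
    positivity
  obtain ⟨a, A', hY, hRD, hWB, HH⟩ := HE h δ θ s (C * D) (C * D * D ^ (min b0 1)) c τ ξ hst.ok hδ
    (hDδ.trans hCDD) hθ hs0 hs1 hσ0
    (by
      have : CE * (C * D) * θ ≤ C * (C * D) * θ := by
        apply mul_le_mul_of_nonneg_right _ hθ0.le
        exact mul_le_mul_of_nonneg_right hCEC hCD0.le
      linarith)
    (by
      have : CE * (C * D) ≤ C * (C * D) := mul_le_mul_of_nonneg_right hCEC hCD0.le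
      linarith)
    hτ0 hτn hst.tw hapx'
  have hB0 : 0 ≤ CE * (C * D) * θ := by positivity
  have hBη : CE * (C * D) * θ ≤ η := by
    have e1 : CE ≤ C * η := (div_le_iff₀ hη).1 hCη
    have e2 : CE * (C * D) * θ ≤ C * η * (C * D) * θ := by
      apply mul_le_mul_of_nonneg_right _ hθ0.le
      exact mul_le_mul_of_nonneg_right e1 hCD0.le
    have e3 : C * η * (C * D) * θ = η * (C * (C * D) * θ) := by ring
    have e4 : η * (C * (C * D) * θ) ≤ η * 1 := mul_le_mul_of_nonneg_left h1 hη.le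
    linarith
  have ha1 : ∀ g i j, |a g i j| ≤ CE * (C * D) * θ := fun g i j => (hWB i j).1.2 g
  have hA1 : ∀ x, T1 x → ∀ g i j, |A' x g i j| ≤ CE * (C * D) * θ := by
    intro x hx g i j
    obtain ⟨F', e1, e2⟩ := (hWB i j).2 x hx
    have e3 : F' = fun g => A' x g i j := rd_rules.1 x _ _ _ hx.1 e1 (hRD x hx.1 i j)
    have e4 := e2.2 g
    rw [e3, mul_one] at e4
    exact e4
  have hDfm : Dfm Γ (psi a) := HD a A' hY hRD (fun g i j => (ha1 g i j).trans hBη)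
    (fun x hx g i j => (hA1 x hx g i j).trans hBη)
  have hc1 : |c| ≤ C * D := hapx'.bc
  have hcp : 0 < 1 + c := by
    have := (abs_le.1 hc1).1
    linarith
  obtain ⟨s1, s2, s3, s4⟩ := state_pul hn1 Γ (psi a) hDfm (1 + c) hcp h hst.ok hst.pos hst.sm hst.nc
  have hcont : ∀ i l, Continuous fun g => a g i l := fun i l => (hWB i l).1.1
  obtain ⟨l1, l2, l3⟩ := gauge_ld a A' hY.sym hcont hRD
  have hframe : ∀ v w : Mt n, Sym0 v → Sym0 w → ∀ g, Sym0 (Vq a A' v g) ∧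
      Jf (fun p => (1 + c)⁻¹ • pul (psi a) h p) v w g =
        (1 + c)⁻¹ * Jf h (Vq a A' v g) (Vq a A' w g) (Ph a g) := by
    intro v w hv hw g
    refine ⟨CH1_vsym a A' l3 v hv g, ?_⟩
    rw [← psi_frame Γ a A' hY hDfm.smooth l2 h v w hv hw g]
    simp only [Jf, LinearMap.smul_apply, smul_eq_mul]
  obtain ⟨t1, t2⟩ := HH (fun p => (1 + c)⁻¹ • pul (psi a) h p) s1.symm hframe
  obtain ⟨K, hK⟩ : ∃ K : ℝ, K = C * (C * D) / s := ⟨_, rfl⟩
  rw [← hK] at hdK hθm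
  have hKE : CE * (C * D) / s ≤ K := by
    rw [hK]
    exact div_le_div_of_nonneg_right (mul_le_mul_of_nonneg_right hCEC hCD0.le) hs0.le
  have hKE0 : 0 ≤ CE * (C * D) / s := by positivity
  have t3 : TW θ m K (fun p => (1 + c)⁻¹ • pul (psi a) h p - gF p) :=
    tw1 θ m _ _ _ hθ0.le hKE0 hKE t1
  have hlow' : ∀ v w : Mt n, Sym0 v → Sym0 w → Bx v → Bx w → ∀ g,
      |Jf (fun p => (1 + c)⁻¹ • pul (psi a) h p - gF p) v w g| ≤ d := by
    intro v w hv hw bv bw g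
    refine (t2 v w hv hw bv bw g).trans (le_trans ?_ hlow)
    apply mul_le_mul_of_nonneg_right hCEC
    have : 0 ≤ (C * D * D ^ (min b0 1) + δ * (s * θ) ^ m) / τ ^ 2 := by positivity
    positivity
  have t4 : TW θ' m (C * d) (fun p => (1 + c)⁻¹ • pul (psi a) h p - gF p) := by
    have t5 : TW θ' m (CI * d) (fun p => (1 + c)⁻¹ • pul (psi a) h p - gF p) := by
      intro v w hv hw bv bw
      exact HI θ θ' d K _ hθ hd0 hdK (by linarith) hθm (t3 v w hv hw bv bw)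
        (fun g => hlow' v w hv hw bv bw g)
    exact tw1 θ' m _ _ _ (by linarith) (by positivity)
      (mul_le_mul_of_nonneg_right hCIC hd0.le) t5
  have hθA6 : D ≤ δ * θ ^ A := by
    rw [hD]
    exact mul_le_mul_of_nonneg_left (pow_le_pow_right₀ hθ (by omega)) hδ.le
  have hθA7 : D * θ ≤ δ * θ ^ A := by
    have e1 : D * θ = δ * θ ^ 7 := by rw [hD]; ring
    rw [e1]
    exact mul_le_mul_of_nonneg_left (pow_le_pow_right₀ hθ hA) hδ.le
  have hX0 : 0 < δ * θ ^ A := by positivity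
  refine ⟨psi a, 1 + c, C * d, θ', hDfm, ?_, ?_, by positivity, hθ', hfin, ⟨s1, s2, s3, s4, t4⟩⟩
  · have e1 : 1 + c - 1 = c := by ring
    rw [e1]
    have e2 : C * D ≤ C * (δ * θ ^ A) := mul_le_mul_of_nonneg_left hθA6 hC0.le
    have e3 : 0 ≤ (n : ℝ) * C ^ 2 * (δ * θ ^ A) := by positivity
    calc |c| ≤ C * D := hc1
      _ ≤ C * (δ * θ ^ A) := e2
      _ ≤ (C + n * C ^ 2) * (δ * θ ^ A) := by linarith
  · intro p
    have e1 := CH1_mov a hY.sym _ hB0 ha1 p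
    have e2 : CE * (C * D) * θ ≤ C ^ 2 * (δ * θ ^ A) := by
      calc CE * (C * D) * θ = CE * C * (D * θ) := by ring
        _ ≤ C * C * (δ * θ ^ A) := by
            apply mul_le_mul _ hθA7 (by positivity) (by positivity)
            exact mul_le_mul_of_nonneg_right hCEC hC0.le
        _ = C ^ 2 * (δ * θ ^ A) := by ring
    have e3 : (n : ℝ) * (CE * (C * D) * θ) ≤ n * (C ^ 2 * (δ * θ ^ A)) :=
      mul_le_mul_of_nonneg_left e2 (by positivity)
    have e4 : 0 ≤ C * (δ * θ ^ A) := by positivity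
    calc dg (psi a p) p ≤ n * (CE * (C * D) * θ) := e1
      _ ≤ n * (C ^ 2 * (δ * θ ^ A)) := e3
      _ ≤ (C + n * C ^ 2) * (δ * θ ^ A) := by linarith

end FL27
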