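import Pool.Agent.LibFL27.CR8

set_option autoImplicit false
set_option maxSynthPendingDepth 3

open Matrix MeasureTheory Topology Filter LibNC38
open LibNC27 hiding Mt
open scoped Matrix.Norms.Elementwise ContDiff

namespace FL27

private theorem CR9_nonneg {n : ℕ} (hn : 1 ≤ n) (h : PD n → Fm n) (hh : MetX h) (x : Mt n)
    (hx : x ∈ PU n) (z : Mt n) : 0 ≤ prodm h x z z := by
  have hm := met_prodm hn h hh
  by_cases hz : z = 0
  · have h1 := hm.bil.smul x hx 0 z z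
    rw [zero_smul, zero_mul] at h1
    have h2 : prodm h x z z = prodm h x 0 z := by rw [hz]
    rw [h2, h1]
  · exact (hm.pos x hx z hz).le

private theorem CR9_mono {n : ℕ} (hn : 1 ≤ n) (h : PD n → Fm n) (hh : MetX h) (a b : ℝ)
    (hab : a ≤ b) (hd : DR a h) : DR b h := by
  intro C hC hK x hx z u v w
  refine (hd C hC hK x hx z u v w).trans ?_
  have h1 := CR9_nonneg hn h hh x hx z
  have h2 := CR9_nonneg hn h hh x hx u
  have h3 := CR9_nonneg hn h hh x hx v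
  have h4 := CR9_nonneg hn h hh x hx w
  exact mul_le_mul_of_nonneg_right hab (mul_nonneg (mul_nonneg (mul_nonneg h1 h2) h3) h4)

/-- Row CR9. A form of class `C^∞` is a smooth metric in the sense of `MetX` (extension composed with `ret`,
as `cmf_ret` in `Results/MP_6157b4_gt/FamilyRigidity.lean`). -/
theorem metX_of {n : ℕ} (Γ : Subgroup (SL n)) (h : PD n → Fm n) (h1 : FmOK Γ h) (h2 : CmF ∞ h)
    (h3 : ∀ p v, IsTan p v → v ≠ 0 → 0 < h p v v) : MetX h := by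
  obtain ⟨U, κ', -, hU, hκ⟩ := h2
  refine ⟨?_, h1.symm, h3⟩
  intro v w
  have hmaps : Set.MapsTo (fun A : Mt n => (ret A).1) (PU n) U := fun A _ => (hU (ret A)).1
  have hc := (hκ v w).comp (ret_smooth (n := n) (m := ∞)) hmaps
  refine hc.congr ?_
  intro A _
  show h (ret A) v w = κ' (ret A).1 v w
  rw [(hU (ret A)).2]

/-- Row CR9 (assembly). PLAN. `metX_of` for `h` and for `m = c⁻¹ • pul φ h` (given); `tb_dr` for `m`, `dr_nat`,
`dr_zero`: `C η² / c³ ≤ 8 C η² → 0`. -/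
theorem locsym_of_seq {n : ℕ} (hn : 3 ≤ n) (Γ : Subgroup (SL n)) (h : PD n → Fm n)
    (h1 : FmOK Γ h) (h2 : CmF ∞ h) (h3 : ∀ p v, IsTan p v → v ≠ 0 → 0 < h p v v)
    (H : ∀ η > 0, ∃ (φ : PD n → PD n) (c : ℝ) (m : PD n → Fm n), Dfm Γ φ ∧ 1 / 2 ≤ c ∧
      FmOK Γ m ∧ CmF ∞ m ∧ (∀ p v, IsTan p v → v ≠ 0 → 0 < m p v v) ∧
      (∀ p v, IsTan p v → pul φ h p v v = c * m p v v) ∧ TB 3 η (fun p => m p - gF p)) :
    LocSym h := by
  have hn1 : 1 ≤ n := by omega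
  obtain ⟨C, ε0, hC, hε0, htb⟩ := tb_dr hn
  have hh : MetX h := metX_of Γ h h1 h2 h3
  refine dr_zero hn1 h hh ?_
  intro ρ hρ
  obtain ⟨η, hη0, hη1, hη2⟩ : ∃ η : ℝ, 0 < η ∧ η ≤ ε0 ∧ 8 * (C * η ^ 2) ≤ ρ := by
    have hden : 0 < 8 * C + 1 := by linarith
    refine ⟨min ε0 (min 1 (ρ / (8 * C + 1))), ?_, min_le_left _ _, ?_⟩
    · exact lt_min hε0 (lt_min one_pos (div_pos hρ hden))
    · have a0 : 0 < min ε0 (min 1 (ρ / (8 * C + 1))) :=
        lt_min hε0 (lt_min one_pos (div_pos hρ hden))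
      have a1 : min ε0 (min 1 (ρ / (8 * C + 1))) ≤ 1 := (min_le_right _ _).trans (min_le_left _ _)
      have a2 : min ε0 (min 1 (ρ / (8 * C + 1))) ≤ ρ / (8 * C + 1) :=
        (min_le_right _ _).trans (min_le_right _ _)
      generalize min ε0 (min 1 (ρ / (8 * C + 1))) = x at a0 a1 a2
      have a3 : x * (8 * C + 1) ≤ ρ := (le_div_iff₀ hden).mp a2
      have a4 : x ^ 2 ≤ x := by
        rw [sq]
        exact mul_le_of_le_one_left a0.le a1
      have a5 : C * x ^ 2 ≤ C * x := mul_le_mul_of_nonneg_left a4 hC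
      linarith
  obtain ⟨φ, c, m, hφ, hc, hm1, hm2, hm3, hp, hT⟩ := H η hη0
  have hc0 : 0 < c := lt_of_lt_of_le (by norm_num) hc
  have hm : MetX m := metX_of Γ m hm1 hm2 hm3
  have hd : DR (C * η ^ 2) m := htb m η hm hm2 hη0.le hη1 hT
  have hCη : 0 ≤ C * η ^ 2 := mul_nonneg hC (sq_nonneg η)
  have hd2 := dr_nat hn1 Γ h m hh hm φ hφ c hc0 hp (C * η ^ 2) hCη hd
  refine CR9_mono hn1 h hh _ _ ?_ hd2
  rw [div_le_iff₀ (pow_pos hc0 3)]
  have h5 : (1 / 2 : ℝ) ^ 3 ≤ c ^ 3 := pow_le_pow_left₀ (by norm_num) hc 3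
  have h6 : ρ * (1 / 2 : ℝ) ^ 3 ≤ ρ * c ^ 3 := mul_le_mul_of_nonneg_left h5 hρ.le
  refine le_trans ?_ h6
  norm_num
  linarith

end FL27
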