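import Pool.Agent.LibFL27.Defs

set_option autoImplicit false
set_option maxSynthPendingDepth 3

open Matrix MeasureTheory Topology Filter LibNC38
open LibNC27 hiding Mt
open scoped Matrix.Norms.Elementwise ContDiff

namespace FL27

/-- output of the iteration of board C: `h = hs 0`, `(φ j)^* (hs j) = cs j * hs (j+1)`, everything
tends to `g`, resp. the identity, at a geometric rate -/
structure GSeq {n : ℕ} (Γ : Subgroup (SL n)) (ρ : ℝ) (h : PD n → Fm n) (φ : ℕ → PD n → PD n)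
    (hs : ℕ → PD n → Fm n) (cs : ℕ → ℝ) : Prop where
  h0 : hs 0 = h
  ok : ∀ j, FmOK Γ (hs j)
  sm : ∀ j, CmF ∞ (hs j)
  pos : ∀ j p v, IsTan p v → v ≠ 0 → 0 < hs j p v v
  dfm : ∀ j, Dfm Γ (φ j)
  pull : ∀ j p v, IsTan p v → pul (φ j) (hs j) p v v = cs j * hs (j + 1) p v v
  cb : ∀ j, |cs j - 1| ≤ ρ * (1 / 2) ^ j
  tb : ∀ j, TB 3 (ρ * (1 / 2) ^ j) (fun p => hs j p - gF p)
  mov : ∀ j p, dg (φ j p) p ≤ ρ * (1 / 2) ^ j

/-- Board C, output. -/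
def GStat : Prop := ∀ (n : ℕ), 3 ≤ n → ∀ Γ : Subgroup (SL n), Disc Γ → Coc Γ → ∀ ρ : ℝ, 0 < ρ →
  ∃ (m : ℕ) (ε : ℝ), 0 < ε ∧ ∀ h : PD n → Fm n, CmF ∞ h → Near Γ m ε h →
    ∃ (φ : ℕ → PD n → PD n) (hs : ℕ → PD n → Fm n) (cs : ℕ → ℝ), GSeq Γ ρ h φ hs cs

/-- `h` is a homothetic rescaling of the symmetric metric by an equivariant diffeomorphism -/
def Hom {n : ℕ} (Γ : Subgroup (SL n)) (h : PD n → Fm n) : Prop :=
  ∃ (φ : PD n → PD n) (c : ℝ), Dfm Γ φ ∧ 0 < c ∧ ∀ p v, IsTan p v → pul φ h p v v = c * gF p v v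

/-- Boards C and H: full local rigidity in the form of the question. -/
def HStat : Prop := ∀ (n : ℕ), 3 ≤ n → ∀ Γ : Subgroup (SL n), Disc Γ → Coc Γ →
  ∃ (m : ℕ) (ε : ℝ), 0 < ε ∧ ∀ h : PD n → Fm n, CmF ∞ h → Near Γ m ε h → Hom Γ h

end FL27
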