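import Pool.Agent.LibFL27.CH1
import Pool.Agent.LibFL27.CA10
import Pool.Agent.LibFL27.CG8
import Pool.Agent.LibFL27.CR9
import Pool.Agent.LibFL27.HDefs

set_option autoImplicit false
set_option maxSynthPendingDepth 3

open Matrix MeasureTheory Topology Filter LibNC38
open LibNC27 hiding Mt
open scoped Matrix.Norms.Elementwise ContDiff

namespace FL27

private theorem CH2_bd {n : ℕ} : ∀ (k : ℕ) (M M' : ℝ) (F : Fn n), M ≤ M' → BD k M F → BD k M' F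
  | 0, _, _, _, hM, h => ⟨h.1, fun g => (h.2 g).trans hM⟩
  | k + 1, M, M', _, hM, h => ⟨⟨h.1.1, fun g => (h.1.2 g).trans hM⟩, fun x hx hx' => by
      obtain ⟨F', h1, h2⟩ := h.2 x hx hx'
      exact ⟨F', h1, CH2_bd k M M' F' hM h2⟩⟩

private theorem CH2_tb {n : ℕ} (k : ℕ) (M M' : ℝ) (κ : PD n → Fm n) (hM : M ≤ M')
    (h : TB k M κ) : TB k M' κ :=
  fun v w h1 h2 h3 h4 => CH2_bd k M M' _ hM (h v w h1 h2 h3 h4)

/-- Row CH2 (second part). The output of the iteration. -/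
theorem g_main (Q : QStat) : GStat := by
  intro n hn Γ hd hc ρ hρ
  obtain ⟨A, m, K, ε1, hA, hm, hK, hε1, hstep⟩ := c_step Q hn Γ hd hc
  set ε : ℝ := min (min ε1 ρ) (min (ρ / K) (1 / (2 * K))) with hε
  have hε0 : 0 < ε := lt_min (lt_min hε1 hρ) (lt_min (by positivity) (by positivity))
  have e1 : ε ≤ ε1 := (min_le_left _ _).trans (min_le_left _ _)
  have e2 : ε ≤ ρ := (min_le_left _ _).trans (min_le_right _ _)
  have e3 : K * ε ≤ ρ := by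
    have h : ε ≤ ρ / K := (min_le_right _ _).trans (min_le_left _ _)
    rw [le_div_iff₀ hK] at h
    linarith
  have e4 : K * ε ≤ 1 / 2 := by
    have h : ε ≤ 1 / (2 * K) := (min_le_right _ _).trans (min_le_right _ _)
    rw [le_div_iff₀ (by positivity)] at h
    linarith
  refine ⟨m, ε, hε0, ?_⟩
  intro h hsm hnear
  -- the states
  let S : Type := {x : (PD n → Fm n) × ℝ × ℝ // 0 < x.2.1 ∧ 1 ≤ x.2.2 ∧
    x.2.1 * x.2.2 ^ A ≤ ε1 ∧ St Γ m x.2.1 x.2.2 x.1}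
  have hst : ∀ x : S, ∃ (φ : PD n → PD n) (c : ℝ) (y : S), Dfm Γ φ ∧
      |c - 1| ≤ K * (x.1.2.1 * x.1.2.2 ^ A) ∧
      (∀ p, dg (φ p) p ≤ K * (x.1.2.1 * x.1.2.2 ^ A)) ∧
      y.1.2.1 * y.1.2.2 ^ A ≤ 1 / 2 * (x.1.2.1 * x.1.2.2 ^ A) ∧
      y.1.1 = fun p => c⁻¹ • pul φ x.1.1 p := by
    rintro ⟨⟨h', δ, θ⟩, hx1, hx2, hx3, hx4⟩
    obtain ⟨φ, c, δ', θ', a1, a2, a3, a4, a5, a6, a7⟩ := hstep h' δ θ hx1 hx2 hx3 hx4
    have a8 : δ' * θ' ^ A ≤ ε1 := by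
      have h0 : 0 < δ * θ ^ A := mul_pos hx1 (pow_pos (by linarith) _)
      have h1 : δ * θ ^ A ≤ ε1 := hx3
      linarith
    exact ⟨φ, c, ⟨⟨fun p => c⁻¹ • pul φ h' p, δ', θ'⟩, a4, a5, a8, a7⟩, a1, a2, a3, a6, rfl⟩
  choose φ c y g1 g2 g3 g4 g5 using hst
  -- the start
  have hs0 : St Γ m ε 1 h := by
    refine ⟨hnear.ok, hnear.pos, hsm, hnear.nc, ?_⟩
    exact ((tw_tb (fun p => h p - gF p)).1 m ε).1 hnear.tb
  let x0 : S := ⟨⟨h, ε, 1⟩, hε0, le_refl _, by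
    show ε * 1 ^ A ≤ ε1
    rw [one_pow, mul_one]
    exact e1, hs0⟩
  let X : ℕ → S := fun j => y^[j] x0
  have hX0 : X 0 = x0 := rfl
  have hXs : ∀ j, X (j + 1) = y (X j) := fun j => Function.iterate_succ_apply' y j x0
  have hX : ∀ j, (X j).1.2.1 * (X j).1.2.2 ^ A ≤ ε * (1 / 2) ^ j := by
    intro j
    induction j with
    | zero =>
      rw [hX0]
      show ε * 1 ^ A ≤ ε * (1 / 2) ^ 0
      rw [one_pow, pow_zero]
    | succ j ih =>
      rw [hXs]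
      refine (g4 (X j)).trans ?_
      rw [pow_succ]
      linarith
  have hhalf : ∀ j : ℕ, (0 : ℝ) < (1 / 2) ^ j := fun j => by positivity
  have hhalf1 : ∀ j : ℕ, ((1 : ℝ) / 2) ^ j ≤ 1 := fun j =>
    pow_le_one₀ (by norm_num) (by norm_num)
  have hKX : ∀ j, K * ((X j).1.2.1 * (X j).1.2.2 ^ A) ≤ ρ * (1 / 2) ^ j := by
    intro j
    calc K * ((X j).1.2.1 * (X j).1.2.2 ^ A) ≤ K * (ε * (1 / 2) ^ j) :=
          mul_le_mul_of_nonneg_left (hX j) hK.le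
      _ = K * ε * (1 / 2) ^ j := by ring
      _ ≤ ρ * (1 / 2) ^ j := mul_le_mul_of_nonneg_right e3 (hhalf j).le
  have hc1 : ∀ j, |c (X j) - 1| ≤ 1 / 2 := by
    intro j
    refine (g2 (X j)).trans ?_
    calc K * ((X j).1.2.1 * (X j).1.2.2 ^ A) ≤ K * (ε * (1 / 2) ^ j) :=
          mul_le_mul_of_nonneg_left (hX j) hK.le
      _ = K * ε * (1 / 2) ^ j := by ring
      _ ≤ 1 / 2 * 1 := mul_le_mul e4 (hhalf1 j) (hhalf j).le (by norm_num)
      _ = 1 / 2 := by ring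
  have hcp : ∀ j, 0 < c (X j) := by
    intro j
    have h1 := (abs_le.1 (hc1 j)).1
    linarith
  refine ⟨fun j => φ (X j), fun j => (X j).1.1, fun j => c (X j), ?_⟩
  refine ⟨rfl, fun j => (X j).2.2.2.2.ok, fun j => (X j).2.2.2.2.sm,
    fun j => (X j).2.2.2.2.pos, fun j => g1 (X j), ?_, fun j => (g2 (X j)).trans (hKX j), ?_,
    fun j p => (g3 (X j) p).trans (hKX j)⟩
  · intro j p v hv
    have h1 : (X (j + 1)).1.1 = fun p => (c (X j))⁻¹ • pul (φ (X j)) (X j).1.1 p := by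
      rw [hXs]
      exact g5 (X j)
    show pul (φ (X j)) (X j).1.1 p v v = c (X j) * (X (j + 1)).1.1 p v v
    rw [h1]
    show pul (φ (X j)) (X j).1.1 p v v =
      c (X j) * ((c (X j))⁻¹ * pul (φ (X j)) (X j).1.1 p v v)
    rw [← mul_assoc, mul_inv_cancel₀ (hcp j).ne', one_mul]
  · intro j
    obtain ⟨h1, h2, h3, h4⟩ := (X j).2
    have h5 := (tw_tb (fun p => (X j).1.1 p - gF p)).2 _ m 3 _ h2 h1.le (by omega) h4.tw
    refine CH2_tb 3 _ _ _ ?_ h5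
    have h6 : (X j).1.2.2 ^ 3 ≤ (X j).1.2.2 ^ A := pow_le_pow_right₀ h2 (by omega)
    calc (X j).1.2.1 * (X j).1.2.2 ^ 3 ≤ (X j).1.2.1 * (X j).1.2.2 ^ A :=
          mul_le_mul_of_nonneg_left h6 h1.le
      _ ≤ ε * (1 / 2) ^ j := hX j
      _ ≤ ρ * (1 / 2) ^ j := mul_le_mul_of_nonneg_right e2 (hhalf j).le

/-- composition of the maps of the sequence -/
private theorem CH2_comp {n : ℕ} (Γ : Subgroup (SL n)) (h : PD n → Fm n)
    (φ : ℕ → PD n → PD n) (hs : ℕ → PD n → Fm n) (cs : ℕ → ℝ) (H : GSeq Γ (1 / 8) h φ hs cs) :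
    ∀ j : ℕ, ∃ (ψ : PD n → PD n) (c : ℝ), Dfm Γ ψ ∧ 1 / 2 + (1 / 2) ^ (j + 2) ≤ c ∧
      ∀ p v, IsTan p v → pul ψ h p v v = c * hs (j + 1) p v v := by
  intro j
  induction j with
  | zero =>
    refine ⟨φ 0, cs 0, H.dfm 0, ?_, ?_⟩
    · have h1 := (abs_le.1 (H.cb 0)).1
      norm_num at h1 ⊢
      linarith
    · intro p v hv
      have h1 := H.pull 0 p v hv
      rw [H.h0] at h1
      exact h1
  | succ j ih =>
    obtain ⟨ψ, c, h1, h2, h3⟩ := ih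
    obtain ⟨h4, h5⟩ := orb_trans Γ ψ (φ (j + 1)) h1 (H.dfm (j + 1)) c (cs (j + 1)) h
      (hs (j + 1)) (hs (j + 2)) h3 (fun p v hv => H.pull (j + 1) p v hv)
    refine ⟨fun p => ψ (φ (j + 1) p), c * cs (j + 1), h4, ?_, h5⟩
    have h6 := (abs_le.1 (H.cb (j + 1))).1
    set t : ℝ := (1 / 2) ^ (j + 2) with ht
    have ht0 : 0 < t := by positivity
    have ht1 : t ≤ 1 := pow_le_one₀ (by norm_num) (by norm_num)
    have h7 : ((1 : ℝ) / 2) ^ (j + 1) = 2 * t := by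
      rw [ht, pow_succ]
      ring
    have h8 : ((1 : ℝ) / 2) ^ (j + 1 + 2) = t / 2 := by
      rw [ht, pow_succ _ (j + 2)]
      ring
    rw [h7] at h6
    rw [h8]
    have h9 : 1 - t / 4 ≤ cs (j + 1) := by linarith
    have h10 : (1 / 2 + t) * (1 - t / 4) ≤ c * cs (j + 1) :=
      mul_le_mul h2 h9 (by linarith) (by linarith)
    nlinarith

/-- Row CH2. Board C. -/
theorem c_main : CStat := by
  intro Q n hn Γ hd hc
  obtain ⟨m, ε, hε, hmain⟩ := g_main Q n hn Γ hd hc (1 / 8) (by norm_num)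
  refine ⟨m, ε, hε, ?_⟩
  intro h hsm hnear
  obtain ⟨φ, hs, cs, H⟩ := hmain h hsm hnear
  refine locsym_of_seq hn Γ h hnear.ok hsm hnear.pos ?_
  intro η hη
  obtain ⟨j, hj⟩ := exists_pow_lt_of_lt_one hη (show (1 / 2 : ℝ) < 1 by norm_num)
  obtain ⟨ψ, c, h1, h2, h3⟩ := CH2_comp Γ h φ hs cs H j
  refine ⟨ψ, c, hs (j + 1), h1, ?_, H.ok _, H.sm _, H.pos _, h3, ?_⟩
  · have h4 : (0 : ℝ) < (1 / 2) ^ (j + 2) := by positivity
    linarith
  · refine CH2_tb 3 _ _ _ ?_ (H.tb (j + 1))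
    have h4 : (0 : ℝ) < (1 / 2) ^ j := by positivity
    rw [pow_succ]
    linarith

end FL27
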