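import Mathlib

set_option autoImplicit false
set_option maxSynthPendingDepth 3

open Topology Filter Set
open scoped ContDiff

namespace NS38

/-- all iterated derivatives of order `≤ k` of `f` at `x` in the basis directions are at most `M` -/
def JB {E J : Type} [NormedAddCommGroup E] [NormedSpace ℝ E] [Fintype J]
    (b : Module.Basis J ℝ E) : ℕ → ℝ → (E → ℝ) → E → Prop
  | 0, M, f, x => |f x| ≤ M
  | k + 1, M, f, x => |f x| ≤ M ∧ ∀ i, JB b k M (fun y => fderiv ℝ f y (b i)) x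

private theorem CR0_mono {E J : Type} [NormedAddCommGroup E] [NormedSpace ℝ E] [Fintype J]
    (b : Module.Basis J ℝ E) (x : E) (k : ℕ) : ∀ (M M' : ℝ) (f : E → ℝ), M ≤ M' → JB b k M f x →
      JB b k M' f x := by
  induction k with
  | zero =>
    intro M M' f h hf
    have hf' : |f x| ≤ M := hf
    exact hf'.trans h
  | succ k ih =>
    intro M M' f h hf
    obtain ⟨h1, h2⟩ := hf
    exact ⟨h1.trans h, fun i => ih M M' _ h (h2 i)⟩

private theorem CR0_down {E J : Type} [NormedAddCommGroup E] [NormedSpace ℝ E] [Fintype J]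
    (b : Module.Basis J ℝ E) (x : E) (k : ℕ) : ∀ (M : ℝ) (f : E → ℝ), JB b (k + 1) M f x →
      JB b k M f x := by
  induction k with
  | zero =>
    intro M f hf
    exact hf.1
  | succ k ih =>
    intro M f hf
    obtain ⟨h1, h2⟩ := hf
    exact ⟨h1, fun i => ih M _ (h2 i)⟩

private theorem CR0_congr {E J : Type} [NormedAddCommGroup E] [NormedSpace ℝ E] [Fintype J]
    (b : Module.Basis J ℝ E) {Ω : Set E} (hΩ : IsOpen Ω) (x : E) (hx : x ∈ Ω) (k : ℕ) :
    ∀ (M : ℝ) (f g : E → ℝ), (∀ y ∈ Ω, f y = g y) → JB b k M f x → JB b k M g x := by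
  induction k with
  | zero =>
    intro M f g h hf
    have hf' : |f x| ≤ M := hf
    show |g x| ≤ M
    rw [← h x hx]
    exact hf'
  | succ k ih =>
    intro M f g h hf
    obtain ⟨h1, h2⟩ := hf
    refine ⟨?_, fun i => ih M _ _ ?_ (h2 i)⟩
    · rw [← h x hx]
      exact h1
    · intro y hy
      have he : f =ᶠ[𝓝 y] g := by
        filter_upwards [hΩ.mem_nhds hy] with z hz using h z hz
      rw [he.fderiv_eq]

private theorem CR0_diff {E : Type} [NormedAddCommGroup E] [NormedSpace ℝ E]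
    {Ω : Set E} (hΩ : IsOpen Ω) {f : E → ℝ} (hf : ContDiffOn ℝ ∞ f Ω) {y : E} (hy : y ∈ Ω) :
    DifferentiableAt ℝ f y :=
  (hf.contDiffAt (hΩ.mem_nhds hy)).differentiableAt (by simp)

private theorem CR0_smooth {E : Type} [NormedAddCommGroup E] [NormedSpace ℝ E]
    {Ω : Set E} (hΩ : IsOpen Ω) {f : E → ℝ} (hf : ContDiffOn ℝ ∞ f Ω) (v : E) :
    ContDiffOn ℝ ∞ (fun y => fderiv ℝ f y v) Ω :=
  (hf.fderiv_of_isOpen hΩ (by simp)).clm_apply contDiffOn_const

private theorem CR0_add {E J : Type} [NormedAddCommGroup E] [NormedSpace ℝ E] [Fintype J]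
    (b : Module.Basis J ℝ E) {Ω : Set E} (hΩ : IsOpen Ω) (x : E) (hx : x ∈ Ω) (k : ℕ) :
    ∀ (M M' : ℝ) (f g : E → ℝ), ContDiffOn ℝ ∞ f Ω → ContDiffOn ℝ ∞ g Ω →
      JB b k M f x → JB b k M' g x → JB b k (M + M') (fun y => f y + g y) x := by
  induction k with
  | zero =>
    intro M M' f g _ _ h1 h2
    have h1' : |f x| ≤ M := h1
    have h2' : |g x| ≤ M' := h2
    exact (abs_add_le _ _).trans (add_le_add h1' h2')
  | succ k ih =>
    intro M M' f g hf hg h1 h2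
    refine ⟨(abs_add_le _ _).trans (add_le_add h1.1 h2.1), fun i => ?_⟩
    refine CR0_congr b hΩ x hx k (M + M') (fun y => fderiv ℝ f y (b i) + fderiv ℝ g y (b i)) _ ?_
      (ih M M' _ _ (CR0_smooth hΩ hf (b i)) (CR0_smooth hΩ hg (b i)) (h1.2 i) (h2.2 i))
    intro y hy
    rw [fderiv_fun_add (CR0_diff hΩ hf hy) (CR0_diff hΩ hg hy)]
    rfl

private theorem CR0_smul {E J : Type} [NormedAddCommGroup E] [NormedSpace ℝ E] [Fintype J]
    (b : Module.Basis J ℝ E) {Ω : Set E} (hΩ : IsOpen Ω) (x : E) (hx : x ∈ Ω) (k : ℕ) :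
    ∀ (M r : ℝ) (f : E → ℝ), ContDiffOn ℝ ∞ f Ω → JB b k M f x →
      JB b k (|r| * M) (fun y => r * f y) x := by
  induction k with
  | zero =>
    intro M r f _ h1
    have h1' : |f x| ≤ M := h1
    show |r * f x| ≤ |r| * M
    rw [abs_mul]
    exact mul_le_mul_of_nonneg_left h1' (abs_nonneg r)
  | succ k ih =>
    intro M r f hf h1
    refine ⟨?_, fun i => ?_⟩
    · show |r * f x| ≤ |r| * M
      rw [abs_mul]
      exact mul_le_mul_of_nonneg_left h1.1 (abs_nonneg r)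
    · refine CR0_congr b hΩ x hx k (|r| * M) (fun y => r * fderiv ℝ f y (b i)) _ ?_
        (ih M r _ (CR0_smooth hΩ hf (b i)) (h1.2 i))
      intro y hy
      rw [fderiv_const_mul (CR0_diff hΩ hf hy) r]
      rfl

private theorem CR0_mul {E J : Type} [NormedAddCommGroup E] [NormedSpace ℝ E] [Fintype J]
    (b : Module.Basis J ℝ E) {Ω : Set E} (hΩ : IsOpen Ω) (x : E) (hx : x ∈ Ω) (k : ℕ) :
    ∀ (M M' : ℝ) (f g : E → ℝ), 0 ≤ M → 0 ≤ M' → ContDiffOn ℝ ∞ f Ω →
      ContDiffOn ℝ ∞ g Ω → JB b k M f x → JB b k M' g x →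
      JB b k (2 ^ k * (M * M')) (fun y => f y * g y) x := by
  induction k with
  | zero =>
    intro M M' f g hM hM' _ _ h1 h2
    have h1' : |f x| ≤ M := h1
    have h2' : |g x| ≤ M' := h2
    show |f x * g x| ≤ 2 ^ 0 * (M * M')
    rw [abs_mul, pow_zero, one_mul]
    exact mul_le_mul h1' h2' (abs_nonneg _) hM
  | succ k ih =>
    intro M M' f g hM hM' hf hg h1 h2
    have h0 : 0 ≤ M * M' := mul_nonneg hM hM'
    refine ⟨?_, fun i => ?_⟩
    · show |f x * g x| ≤ 2 ^ (k + 1) * (M * M')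
      rw [abs_mul]
      refine (mul_le_mul h1.1 h2.1 (abs_nonneg _) hM).trans ?_
      have h3 : (1 : ℝ) ≤ 2 ^ (k + 1) := one_le_pow₀ (by norm_num)
      exact le_mul_of_one_le_left h0 h3
    · have e : (2 : ℝ) ^ (k + 1) * (M * M') = 2 ^ k * (M * M') + 2 ^ k * (M * M') := by ring
      rw [e]
      refine CR0_congr b hΩ x hx k _
        (fun y => fderiv ℝ f y (b i) * g y + f y * fderiv ℝ g y (b i)) _ ?_
        (CR0_add b hΩ x hx k _ _ (fun y => fderiv ℝ f y (b i) * g y)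
          (fun y => f y * fderiv ℝ g y (b i)) ((CR0_smooth hΩ hf (b i)).mul hg)
          (hf.mul (CR0_smooth hΩ hg (b i)))
          (ih M M' _ _ hM hM' (CR0_smooth hΩ hf (b i)) hg (h1.2 i) (CR0_down b x k M' g h2))
          (ih M M' _ _ hM hM' hf (CR0_smooth hΩ hg (b i)) (CR0_down b x k M f h1) (h2.2 i)))
      intro y hy
      rw [fderiv_fun_mul (CR0_diff hΩ hf hy) (CR0_diff hΩ hg hy)]
      simp only [ContinuousLinearMap.add_apply, ContinuousLinearMap.smul_apply, smul_eq_mul]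
      ring

private theorem CR0_ex {E J : Type} [NormedAddCommGroup E] [NormedSpace ℝ E] [Fintype J]
    (b : Module.Basis J ℝ E) {Ω : Set E} (hΩ : IsOpen Ω) (x : E) (k : ℕ) :
    ∀ (f : E → ℝ), ContDiffOn ℝ ∞ f Ω → ∃ M, 0 ≤ M ∧ JB b k M f x := by
  classical
  induction k with
  | zero =>
    intro f _
    exact ⟨|f x|, abs_nonneg _, le_refl _⟩
  | succ k ih =>
    intro f hf
    choose m hm0 hm using fun i : J => ih (fun y => fderiv ℝ f y (b i)) (CR0_smooth hΩ hf (b i))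
    have hs : ∀ i, m i ≤ |f x| + ∑ j, m j := fun i => by
      have h1 := Finset.single_le_sum (f := m) (fun j _ => hm0 j) (Finset.mem_univ i)
      have h2 := abs_nonneg (f x)
      linarith
    have hs0 : 0 ≤ ∑ j, m j := Finset.sum_nonneg fun j _ => hm0 j
    refine ⟨|f x| + ∑ j, m j, add_nonneg (abs_nonneg _) hs0, ?_, fun i => ?_⟩
    · linarith
    · exact CR0_mono b x k _ _ _ (hs i) (hm i)

/-- Row CR0 (only Mathlib). Algebra of `JB`. PLAN. Induction on `k` for all functions; derivatives of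
sums and products of functions smooth on the open set `Ω` hold on `Ω`; use (6) to pass to them. -/
theorem jb_facts {E J : Type} [NormedAddCommGroup E] [NormedSpace ℝ E] [Fintype J]
    (b : Module.Basis J ℝ E) {Ω : Set E} (hΩ : IsOpen Ω) (x : E) (hx : x ∈ Ω) :
    (∀ (k : ℕ) (M M' : ℝ) (f : E → ℝ), M ≤ M' → JB b k M f x → JB b k M' f x) ∧
    (∀ (k : ℕ) (M : ℝ) (f : E → ℝ), JB b (k + 1) M f x → JB b k M f x) ∧
    (∀ (k : ℕ) (M M' : ℝ) (f g : E → ℝ), ContDiffOn ℝ ∞ f Ω → ContDiffOn ℝ ∞ g Ω →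
      JB b k M f x → JB b k M' g x → JB b k (M + M') (fun y => f y + g y) x) ∧
    (∀ (k : ℕ) (M M' : ℝ) (f g : E → ℝ), 0 ≤ M → 0 ≤ M' → ContDiffOn ℝ ∞ f Ω →
      ContDiffOn ℝ ∞ g Ω → JB b k M f x → JB b k M' g x →
      JB b k (2 ^ k * (M * M')) (fun y => f y * g y) x) ∧
    (∀ (k : ℕ) (M r : ℝ) (f : E → ℝ), ContDiffOn ℝ ∞ f Ω → JB b k M f x →
      JB b k (|r| * M) (fun y => r * f y) x) ∧
    (∀ (k : ℕ) (M : ℝ) (f g : E → ℝ), (∀ y ∈ Ω, f y = g y) → JB b k M f x → JB b k M g x) ∧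
    (∀ (k : ℕ) (f : E → ℝ), ContDiffOn ℝ ∞ f Ω → ∃ M, 0 ≤ M ∧ JB b k M f x) :=
  ⟨fun k => CR0_mono b x k, fun k => CR0_down b x k, fun k => CR0_add b hΩ x hx k,
    fun k => CR0_mul b hΩ x hx k, fun k => CR0_smul b hΩ x hx k, fun k => CR0_congr b hΩ x hx k,
    fun k => CR0_ex b hΩ x k⟩

end NS38
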