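import Pool.Agent.LibFL27.CR0

set_option autoImplicit false
set_option maxSynthPendingDepth 3

open Topology Filter Set
open scoped ContDiff

namespace NS38

private theorem CR1_fderiv_smooth {E : Type} [NormedAddCommGroup E] [NormedSpace ℝ E]
    {Ω : Set E} (hΩ : IsOpen Ω) {f : E → ℝ} (hf : ContDiffOn ℝ ∞ f Ω) (v : E) :
    ContDiffOn ℝ ∞ (fun y => fderiv ℝ f y v) Ω :=
  (hf.fderiv_of_isOpen hΩ (by simp)).clm_apply contDiffOn_const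

private theorem CR1_diffAt {E : Type} [NormedAddCommGroup E] [NormedSpace ℝ E]
    {Ω : Set E} (hΩ : IsOpen Ω) {f : E → ℝ} (hf : ContDiffOn ℝ ∞ f Ω) {y : E} (hy : y ∈ Ω) :
    DifferentiableAt ℝ f y :=
  (hf.contDiffAt (hΩ.mem_nhds hy)).differentiableAt (by simp)

private theorem CR1_fderiv_inv {E : Type} [NormedAddCommGroup E] [NormedSpace ℝ E]
    {Ω : Set E} (hΩ : IsOpen Ω) {f : E → ℝ} (hf : ContDiffOn ℝ ∞ f Ω) {y : E} (hy : y ∈ Ω)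
    (hne : f y ≠ 0) (v : E) :
    fderiv ℝ (fun z => (f z)⁻¹) y v = (-1) * (fderiv ℝ f y v * (f y)⁻¹ * (f y)⁻¹) := by
  have h1 : HasFDerivAt f (fderiv ℝ f y) y := (CR1_diffAt hΩ hf hy).hasFDerivAt
  have h2 : HasFDerivAt (fun z => (f z)⁻¹) ((-(f y ^ 2)⁻¹) • fderiv ℝ f y) y :=
    (hasDerivAt_inv hne).comp_hasFDerivAt y h1
  rw [h2.fderiv]
  simp only [ContinuousLinearMap.smul_apply, smul_eq_mul]
  field_simp

/-- Row CR1 (only Mathlib and CR0). The inverse. PLAN. Induction on `k` for all `f`: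
`D_i (1/f) = - D_i f * (1/f) * (1/f)` on `Ω`, `jb_facts` (4), (5), (6); `M ≥ 1`, `c ≤ 1` without loss
(`jb_facts` (1)). -/
theorem jb_inv {E J : Type} [NormedAddCommGroup E] [NormedSpace ℝ E] [Fintype J]
    (b : Module.Basis J ℝ E) (k : ℕ) (M c : ℝ) (hM : 0 ≤ M) (hc : 0 < c) :
    ∃ B : ℝ, 0 ≤ B ∧ ∀ (Ω : Set E), IsOpen Ω → ∀ x ∈ Ω, ∀ f : E → ℝ, ContDiffOn ℝ ∞ f Ω →
      (∀ y ∈ Ω, f y ≠ 0) → c ≤ |f x| → JB b k M f x → JB b k B (fun y => (f y)⁻¹) x := by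
  induction k with
  | zero =>
    refine ⟨c⁻¹, inv_nonneg.mpr hc.le, ?_⟩
    intro Ω hΩ x hx f hf hne hcx hJ
    change |(f x)⁻¹| ≤ c⁻¹
    rw [abs_inv]
    exact inv_anti₀ hc hcx
  | succ k ih =>
    obtain ⟨B, hB, ih⟩ := ih
    refine ⟨max c⁻¹ (|(-1 : ℝ)| * (2 ^ k * ((2 ^ k * (M * B)) * B))),
      le_max_of_le_left (inv_nonneg.mpr hc.le), ?_⟩
    intro Ω hΩ x hx f hf hne hcx hJ
    obtain ⟨F1, F2, F3, F4, F5, F6, F7⟩ := jb_facts b hΩ x hx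
    have hfi : ContDiffOn ℝ ∞ (fun y => (f y)⁻¹) Ω := hf.inv hne
    have hI : JB b k B (fun y => (f y)⁻¹) x := ih Ω hΩ x hx f hf hne hcx (F2 k M f hJ)
    refine ⟨?_, fun i => ?_⟩
    · refine le_trans ?_ (le_max_left _ _)
      rw [abs_inv]
      exact inv_anti₀ hc hcx
    · have hD : ContDiffOn ℝ ∞ (fun y => fderiv ℝ f y (b i)) Ω := CR1_fderiv_smooth hΩ hf (b i)
      have hJD : JB b k M (fun y => fderiv ℝ f y (b i)) x := hJ.2 i
      have h1 := F4 k M B (fun y => fderiv ℝ f y (b i)) (fun y => (f y)⁻¹) hM hB hD hfi hJD hI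
      have h2 := F4 k (2 ^ k * (M * B)) B (fun y => fderiv ℝ f y (b i) * (f y)⁻¹)
        (fun y => (f y)⁻¹) (by positivity) hB (hD.mul hfi) hfi h1 hI
      have h3 := F5 k (2 ^ k * ((2 ^ k * (M * B)) * B)) (-1)
        (fun y => fderiv ℝ f y (b i) * (f y)⁻¹ * (f y)⁻¹) ((hD.mul hfi).mul hfi) h2
      refine F1 k _ _ _ (le_max_right _ _) ?_
      refine F6 k _ _ _ ?_ h3
      intro y hy
      exact (CR1_fderiv_inv hΩ hf hy (hne y hy) (b i)).symm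

/-- Uniform closeness of a family `f t` of functions to `f0` at `x`, to order `k`, with the
parameters `e t`: `f t` is bounded and `f t - f0` is `O(e t)`. -/
def JU {E J T : Type} [NormedAddCommGroup E] [NormedSpace ℝ E] [Fintype J]
    (b : Module.Basis J ℝ E) (k : ℕ) (Ω : Set E) (x : E) (e : T → ℝ) (f : T → E → ℝ)
    (f0 : E → ℝ) : Prop :=
  (∀ t, ContDiffOn ℝ ∞ (f t) Ω) ∧ ContDiffOn ℝ ∞ f0 Ω ∧ ∃ B : ℝ, 0 ≤ B ∧ JB b k B f0 x ∧
    ∀ t, JB b k B (f t) x ∧ JB b k (B * e t) (fun y => f t y - f0 y) x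

/-- Row CR1 (second part). Algebra of `JU` (compare `ratS_facts`, `LibFR38/A2.lean`, in the role). PLAN.
`jb_facts`; product: `f g - f0 g0 = f (g - g0) + (f - f0) g0`; inverse: `1/f - 1/f0 = - (f - f0)/(f f0)`,
`jb_inv`; derivative: `jb` of order `k + 1` contains that of order `k` of `D_i`, and
`D_i (f - f0) = D_i f - D_i f0` on `Ω`. -/
theorem ju_facts {E J T : Type} [NormedAddCommGroup E] [NormedSpace ℝ E] [Fintype J]
    (b : Module.Basis J ℝ E) {Ω : Set E} (hΩ : IsOpen Ω) (x : E) (hx : x ∈ Ω) (e : T → ℝ)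
    (he : ∀ t, 0 ≤ e t) :
    (∀ (k : ℕ) (f g : T → E → ℝ) (f0 g0 : E → ℝ), JU b k Ω x e f f0 → JU b k Ω x e g g0 →
      JU b k Ω x e (fun t y => f t y + g t y) (fun y => f0 y + g0 y)) ∧
    (∀ (k : ℕ) (f g : T → E → ℝ) (f0 g0 : E → ℝ), JU b k Ω x e f f0 → JU b k Ω x e g g0 →
      JU b k Ω x e (fun t y => f t y * g t y) (fun y => f0 y * g0 y)) ∧
    (∀ (k : ℕ) (f0 : E → ℝ), ContDiffOn ℝ ∞ f0 Ω → JU b k Ω x e (fun _ => f0) f0) ∧
    (∀ (k : ℕ) (f : T → E → ℝ) (f0 : E → ℝ) (i : J), JU b (k + 1) Ω x e f f0 →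
      JU b k Ω x e (fun t y => fderiv ℝ (f t) y (b i)) (fun y => fderiv ℝ f0 y (b i))) ∧
    (∀ (k : ℕ) (f : T → E → ℝ) (f0 : E → ℝ), JU b (k + 1) Ω x e f f0 → JU b k Ω x e f f0) ∧
    (∀ (k : ℕ) (f : T → E → ℝ) (f0 : E → ℝ), JU b k Ω x e f f0 → (∀ t, ∀ y ∈ Ω, f t y ≠ 0) →
      (∀ y ∈ Ω, f0 y ≠ 0) → (∃ c > 0, ∀ t, c ≤ |f t x|) →
      JU b k Ω x e (fun t y => (f t y)⁻¹) (fun y => (f0 y)⁻¹)) ∧
    (∀ (k : ℕ) (ι : Type) (I : Finset ι) (f : ι → T → E → ℝ) (f0 : ι → E → ℝ),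
      (∀ i ∈ I, JU b k Ω x e (f i) (f0 i)) →
      JU b k Ω x e (fun t y => ∑ i ∈ I, f i t y) (fun y => ∑ i ∈ I, f0 i y)) ∧
    (∀ (k : ℕ) (ι : Type) (I : Finset ι) (f : ι → T → E → ℝ) (f0 : ι → E → ℝ),
      (∀ i ∈ I, JU b k Ω x e (f i) (f0 i)) →
      JU b k Ω x e (fun t y => ∏ i ∈ I, f i t y) (fun y => ∏ i ∈ I, f0 i y)) ∧
    (∀ (k : ℕ) (f g : T → E → ℝ) (f0 g0 : E → ℝ), (∀ t, ∀ y ∈ Ω, f t y = g t y) →
      (∀ y ∈ Ω, f0 y = g0 y) → JU b k Ω x e f f0 → JU b k Ω x e g g0) := by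
  have H1 : ∀ (k : ℕ) (f g : T → E → ℝ) (f0 g0 : E → ℝ), JU b k Ω x e f f0 →
      JU b k Ω x e g g0 →
      JU b k Ω x e (fun t y => f t y + g t y) (fun y => f0 y + g0 y) := by
    intro k f g f0 g0 hf hg
    obtain ⟨F1, F2, F3, F4, F5, F6, F7⟩ := jb_facts b hΩ x hx
    obtain ⟨f1, f2, B, hB, f3, f4⟩ := hf
    obtain ⟨g1, g2, B', hB', g3, g4⟩ := hg
    refine ⟨fun t => (f1 t).add (g1 t), f2.add g2, B + B', by positivity,
      F3 k B B' f0 g0 f2 g2 f3 g3, fun t => ⟨F3 k B B' (f t) (g t) (f1 t) (g1 t) (f4 t).1 (g4 t).1, ?_⟩⟩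
    have h := F3 k (B * e t) (B' * e t) (fun y => f t y - f0 y) (fun y => g t y - g0 y)
      ((f1 t).sub f2) ((g1 t).sub g2) (f4 t).2 (g4 t).2
    rw [add_mul]
    refine F6 k _ _ _ ?_ h
    intro y _
    ring
  have H2 : ∀ (k : ℕ) (f g : T → E → ℝ) (f0 g0 : E → ℝ), JU b k Ω x e f f0 →
      JU b k Ω x e g g0 →
      JU b k Ω x e (fun t y => f t y * g t y) (fun y => f0 y * g0 y) := by
    intro k f g f0 g0 hf hg
    obtain ⟨F1, F2, F3, F4, F5, F6, F7⟩ := jb_facts b hΩ x hx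
    obtain ⟨f1, f2, B, hB, f3, f4⟩ := hf
    obtain ⟨g1, g2, B', hB', g3, g4⟩ := hg
    have hle : 2 ^ k * (B * B') ≤ 2 ^ k * (B * B') + 2 ^ k * (B * B') := by
      have : 0 ≤ 2 ^ k * (B * B') := by positivity
      linarith
    refine ⟨fun t => (f1 t).mul (g1 t), f2.mul g2, 2 ^ k * (B * B') + 2 ^ k * (B * B'),
      by positivity, F1 k _ _ _ hle (F4 k B B' f0 g0 hB hB' f2 g2 f3 g3), fun t =>
      ⟨F1 k _ _ _ hle (F4 k B B' (f t) (g t) hB hB' (f1 t) (g1 t) (f4 t).1 (g4 t).1), ?_⟩⟩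
    have het := he t
    have h1 := F4 k B (B' * e t) (f t) (fun y => g t y - g0 y) hB (by positivity) (f1 t)
      ((g1 t).sub g2) (f4 t).1 (g4 t).2
    have h2 := F4 k (B * e t) B' (fun y => f t y - f0 y) g0 (by positivity) hB'
      ((f1 t).sub f2) g2 (f4 t).2 g3
    have h3 := F3 k _ _ _ _ ((f1 t).mul ((g1 t).sub g2)) (((f1 t).sub f2).mul g2) h1 h2
    have he2 : (2 ^ k * (B * B') + 2 ^ k * (B * B')) * e t =
        2 ^ k * (B * (B' * e t)) + 2 ^ k * (B * e t * B') := by ring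
    rw [he2]
    refine F6 k _ _ _ ?_ h3
    intro y _
    ring
  have H3 : ∀ (k : ℕ) (f0 : E → ℝ), ContDiffOn ℝ ∞ f0 Ω → JU b k Ω x e (fun _ => f0) f0 := by
    intro k f0 hf0
    obtain ⟨F1, F2, F3, F4, F5, F6, F7⟩ := jb_facts b hΩ x hx
    obtain ⟨M, hM, hJ⟩ := F7 k f0 hf0
    refine ⟨fun _ => hf0, hf0, M, hM, hJ, fun t => ⟨hJ, ?_⟩⟩
    have h := F5 k M 0 f0 hf0 hJ
    refine F1 k (|(0 : ℝ)| * M) _ _ ?_ (F6 k _ _ _ ?_ h)
    · rw [abs_zero, zero_mul]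
      exact mul_nonneg hM (he t)
    · intro y _
      ring
  have H9 : ∀ (k : ℕ) (f g : T → E → ℝ) (f0 g0 : E → ℝ), (∀ t, ∀ y ∈ Ω, f t y = g t y) →
      (∀ y ∈ Ω, f0 y = g0 y) → JU b k Ω x e f f0 → JU b k Ω x e g g0 := by
    intro k f g f0 g0 hfg hfg0 hf
    obtain ⟨F1, F2, F3, F4, F5, F6, F7⟩ := jb_facts b hΩ x hx
    obtain ⟨f1, f2, B, hB, f3, f4⟩ := hf
    refine ⟨fun t => (f1 t).congr fun y hy => (hfg t y hy).symm,
      f2.congr fun y hy => (hfg0 y hy).symm, B, hB, F6 k _ _ _ hfg0 f3, fun t =>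
      ⟨F6 k _ _ _ (hfg t) (f4 t).1, F6 k _ _ _ ?_ (f4 t).2⟩⟩
    intro y hy
    change f t y - f0 y = g t y - g0 y
    rw [hfg t y hy, hfg0 y hy]
  refine ⟨H1, H2, H3, ?_, ?_, ?_, ?_, ?_, H9⟩
  · intro k f f0 i hf
    obtain ⟨F1, F2, F3, F4, F5, F6, F7⟩ := jb_facts b hΩ x hx
    obtain ⟨f1, f2, B, hB, f3, f4⟩ := hf
    refine ⟨fun t => CR1_fderiv_smooth hΩ (f1 t) (b i), CR1_fderiv_smooth hΩ f2 (b i), B, hB,
      f3.2 i, fun t => ⟨(f4 t).1.2 i, F6 k _ _ _ ?_ ((f4 t).2.2 i)⟩⟩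
    intro y hy
    change fderiv ℝ (fun y => f t y - f0 y) y (b i) = _
    rw [fderiv_fun_sub (CR1_diffAt hΩ (f1 t) hy) (CR1_diffAt hΩ f2 hy)]
    rfl
  · intro k f f0 hf
    obtain ⟨F1, F2, F3, F4, F5, F6, F7⟩ := jb_facts b hΩ x hx
    obtain ⟨f1, f2, B, hB, f3, f4⟩ := hf
    exact ⟨f1, f2, B, hB, F2 k _ _ f3, fun t => ⟨F2 k _ _ (f4 t).1, F2 k _ _ (f4 t).2⟩⟩
  · intro k f f0 hf hne hne0 hc
    obtain ⟨F1, F2, F3, F4, F5, F6, F7⟩ := jb_facts b hΩ x hx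
    obtain ⟨f1, f2, B, hB, f3, f4⟩ := hf
    obtain ⟨c, hc, hcx⟩ := hc
    obtain ⟨B1, hB1, K1⟩ := jb_inv b k B c hB hc
    obtain ⟨B2, hB2, K2⟩ := jb_inv b k B |f0 x| hB (abs_pos.mpr (hne0 x hx))
    have i1 : ∀ t, JB b k B1 (fun y => (f t y)⁻¹) x := fun t =>
      K1 Ω hΩ x hx (f t) (f1 t) (hne t) (hcx t) (f4 t).1
    have i2 : JB b k B2 (fun y => (f0 y)⁻¹) x := K2 Ω hΩ x hx f0 f2 hne0 le_rfl f3
    have s1 : ∀ t, ContDiffOn ℝ ∞ (fun y => (f t y)⁻¹) Ω := fun t => (f1 t).inv (hne t)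
    have s2 : ContDiffOn ℝ ∞ (fun y => (f0 y)⁻¹) Ω := f2.inv hne0
    have hP : 0 ≤ |(-1 : ℝ)| * (2 ^ k * ((2 ^ k * (B * B1)) * B2)) := by positivity
    refine ⟨s1, s2, B1 + B2 + |(-1 : ℝ)| * (2 ^ k * ((2 ^ k * (B * B1)) * B2)), by positivity,
      F1 k _ _ _ (by linarith) i2, fun t => ⟨F1 k _ _ _ (by linarith) (i1 t), ?_⟩⟩
    have het := he t
    have h1 := F4 k (B * e t) B1 (fun y => f t y - f0 y) (fun y => (f t y)⁻¹) (by positivity) hB1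
      ((f1 t).sub f2) (s1 t) (f4 t).2 (i1 t)
    have h2 := F4 k (2 ^ k * (B * e t * B1)) B2 (fun y => (f t y - f0 y) * (f t y)⁻¹)
      (fun y => (f0 y)⁻¹) (by positivity) hB2 (((f1 t).sub f2).mul (s1 t)) s2 h1 i2
    have h3 := F5 k _ (-1) _ ((((f1 t).sub f2).mul (s1 t)).mul s2) h2
    have hle : |(-1 : ℝ)| * (2 ^ k * ((2 ^ k * (B * e t * B1)) * B2)) ≤
        (B1 + B2 + |(-1 : ℝ)| * (2 ^ k * ((2 ^ k * (B * B1)) * B2))) * e t := by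
      have e1 : |(-1 : ℝ)| * (2 ^ k * ((2 ^ k * (B * e t * B1)) * B2)) =
        (|(-1 : ℝ)| * (2 ^ k * ((2 ^ k * (B * B1)) * B2))) * e t := by ring
      rw [e1]
      exact mul_le_mul_of_nonneg_right (by linarith) het
    refine F1 k _ _ _ hle (F6 k _ _ _ ?_ h3)
    intro y hy
    have n1 := hne t y hy
    have n2 := hne0 y hy
    field_simp
    ring
  · intro k ι I f f0 hf
    classical
    induction I using Finset.induction_on with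
    | empty =>
      have h := H3 k (fun _ => (0 : ℝ)) contDiffOn_const
      simpa using h
    | insert a s ha ih =>
      have h1 := ih fun i hi => hf i (Finset.mem_insert_of_mem hi)
      have h2 := H1 k _ _ _ _ (hf a (Finset.mem_insert_self a s)) h1
      simp only [Finset.sum_insert ha]
      exact h2
  · intro k ι I f f0 hf
    classical
    induction I using Finset.induction_on with
    | empty =>
      have h := H3 k (fun _ => (1 : ℝ)) contDiffOn_const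
      simpa using h
    | insert a s ha ih =>
      have h1 := ih fun i hi => hf i (Finset.mem_insert_of_mem hi)
      have h2 := H2 k _ _ _ _ (hf a (Finset.mem_insert_self a s)) h1
      simp only [Finset.prod_insert ha]
      exact h2

end NS38
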