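import Pool.Agent.LibFL27.CR1
import Pool.Agent.LibFR38.A3

set_option autoImplicit false
set_option maxSynthPendingDepth 3

open Topology Filter Set
open scoped ContDiff

namespace NS38

private theorem CR2_sum {E J : Type} [NormedAddCommGroup E] [NormedSpace ℝ E] {Ω : Set E}
    (G : E → E → E → ℝ) (hb : Bil G Ω) (x : E) (hx : x ∈ Ω) (I : Finset J) (a : J → ℝ)
    (v : J → E) (w : E) :
    G x (∑ l ∈ I, a l • v l) w = ∑ l ∈ I, a l * G x (v l) w := by
  classical
  induction I using Finset.induction_on with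
  | empty =>
    have h := hb.smul x hx 0 0 w
    simpa using h
  | insert i I hi ih =>
    rw [Finset.sum_insert hi, Finset.sum_insert hi, hb.add x hx, hb.smul x hx, ih]

private theorem CR2_det {E J T : Type} [NormedAddCommGroup E] [NormedSpace ℝ E] [Fintype J]
    [DecidableEq J] (b : Module.Basis J ℝ E) {Ω : Set E} (hΩ : IsOpen Ω) (x : E) (hx : x ∈ Ω)
    (e : T → ℝ) (he : ∀ t, 0 ≤ e t) (k : ℕ) (N : T → E → Matrix J J ℝ) (N0 : E → Matrix J J ℝ)
    (hN : ∀ i j, JU b k Ω x e (fun t y => N t y i j) (fun y => N0 y i j)) :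
    JU b k Ω x e (fun t y => (N t y).det) (fun y => (N0 y).det) := by
  obtain ⟨-, jMul, jConst, -, -, -, jSum, jProd, jCongr⟩ := ju_facts b hΩ x hx e he
  have h1 : JU b k Ω x e
      (fun t y => ∑ σ ∈ (Finset.univ : Finset (Equiv.Perm J)),
        (((Equiv.Perm.sign σ : ℤ) : ℝ) * ∏ i ∈ (Finset.univ : Finset J), N t y (σ i) i))
      (fun y => ∑ σ ∈ (Finset.univ : Finset (Equiv.Perm J)),
        (((Equiv.Perm.sign σ : ℤ) : ℝ) * ∏ i ∈ (Finset.univ : Finset J), N0 y (σ i) i)) := by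
    refine jSum k _ _ (fun σ t y => (((Equiv.Perm.sign σ : ℤ) : ℝ) *
      ∏ i ∈ (Finset.univ : Finset J), N t y (σ i) i)) (fun σ y => (((Equiv.Perm.sign σ : ℤ) : ℝ) *
      ∏ i ∈ (Finset.univ : Finset J), N0 y (σ i) i)) fun σ _ => ?_
    refine jMul k (fun _ _ => ((Equiv.Perm.sign σ : ℤ) : ℝ)) _
      (fun _ => ((Equiv.Perm.sign σ : ℤ) : ℝ)) _ (jConst k _ contDiffOn_const) ?_
    exact jProd k _ _ (fun i t y => N t y (σ i) i) (fun i y => N0 y (σ i) i) fun i _ => hN _ _
  refine jCongr k _ _ _ _ (fun t y _ => ?_) (fun y _ => ?_) h1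
  · exact (Matrix.det_apply' _).symm
  · exact (Matrix.det_apply' _).symm

private theorem CR2_adj {E J T : Type} [NormedAddCommGroup E] [NormedSpace ℝ E] [Fintype J]
    [DecidableEq J] (b : Module.Basis J ℝ E) {Ω : Set E} (hΩ : IsOpen Ω) (x : E) (hx : x ∈ Ω)
    (e : T → ℝ) (he : ∀ t, 0 ≤ e t) (k : ℕ) (N : T → E → Matrix J J ℝ) (N0 : E → Matrix J J ℝ)
    (hN : ∀ i j, JU b k Ω x e (fun t y => N t y i j) (fun y => N0 y i j)) (r l : J) :
    JU b k Ω x e (fun t y => (N t y).adjugate r l) (fun y => (N0 y).adjugate r l) := by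
  obtain ⟨-, -, jConst, -, -, -, -, -, jCongr⟩ := ju_facts b hΩ x hx e he
  have h1 : JU b k Ω x e (fun t y => ((N t y).updateRow l (Pi.single r 1)).det)
      (fun y => ((N0 y).updateRow l (Pi.single r 1)).det) := by
    refine CR2_det b hΩ x hx e he k _ _ fun i j => ?_
    by_cases h : i = l
    · subst h
      refine jCongr k _ _ _ _ (fun t y _ => ?_) (fun y _ => ?_)
        (jConst k (fun _ => (Pi.single r (1 : ℝ) : J → ℝ) j) contDiffOn_const)
      · rw [Matrix.updateRow_self]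
      · rw [Matrix.updateRow_self]
    · refine jCongr k _ _ _ _ (fun t y _ => ?_) (fun y _ => ?_) (hN i j)
      · rw [Matrix.updateRow_ne h]
      · rw [Matrix.updateRow_ne h]
  refine jCongr k _ _ _ _ (fun t y _ => ?_) (fun y _ => ?_) h1
  · rw [Matrix.adjugate_apply]
  · rw [Matrix.adjugate_apply]

private theorem CR2_ne {E J : Type} [NormedAddCommGroup E] [NormedSpace ℝ E] [Fintype J]
    [DecidableEq J] (b : Module.Basis J ℝ E) {Ω : Set E} (G : E → E → E → ℝ) (hG : Met G Ω)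
    (x : E) (hx : x ∈ Ω) :
    (Matrix.of fun i j => G x (b i) (b j) : Matrix J J ℝ).det ≠ 0 := by
  intro h0
  obtain ⟨v, hv0, hv⟩ := Matrix.exists_mulVec_eq_zero_iff.mpr h0
  have hne : (∑ l, v l • b l) ≠ 0 := by
    intro h
    apply hv0
    funext i
    have h2 := Fintype.linearIndependent_iff.mp b.linearIndependent v h i
    exact h2
  have hpos := hG.pos x hx _ hne
  have hbil := hG.bil
  rw [CR2_sum _ hbil x hx] at hpos
  have hz : ∀ i, G x (b i) (∑ l, v l • b l) = 0 := by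
    intro i
    rw [hbil.symm x hx, CR2_sum _ hbil x hx]
    have h3 := congrFun hv i
    simp only [Matrix.mulVec, dotProduct, Matrix.of_apply, Pi.zero_apply] at h3
    rw [← h3]
    refine Finset.sum_congr rfl fun l _ => ?_
    rw [hbil.symm x hx (b l) (b i)]
    ring
  simp only [hz, mul_zero, Finset.sum_const_zero, lt_irrefl] at hpos

private theorem CR2_formula {E J : Type} [NormedAddCommGroup E] [NormedSpace ℝ E]
    [FiniteDimensional ℝ E] [Fintype J] [DecidableEq J] (b : Module.Basis J ℝ E) {Ω : Set E}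
    (G : E → E → E → ℝ) (hG : Met G Ω) (C : E → E →L[ℝ] E →L[ℝ] E) (hC : Kos G C Ω) (x : E)
    (hx : x ∈ Ω) (i j l : J) :
    ((Matrix.of fun i j => G x (b i) (b j) : Matrix J J ℝ).det)⁻¹ *
      (∑ r ∈ (Finset.univ : Finset J),
        (((1 / 2 : ℝ) * ((fderiv ℝ (fun y => G y (b j) (b r)) x (b i) +
          fderiv ℝ (fun y => G y (b i) (b r)) x (b j)) +
          (-1 : ℝ) * fderiv ℝ (fun y => G y (b i) (b j)) x (b r))) *
          (Matrix.of fun i j => G x (b i) (b j) : Matrix J J ℝ).adjugate r l)) =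
      b.repr (C x (b i) (b j)) l := by
  have hbil := hG.bil
  have hk : ∀ r, (∑ q, b.repr (C x (b i) (b j)) q * G x (b q) (b r)) =
      (1 / 2 : ℝ) * ((fderiv ℝ (fun y => G y (b j) (b r)) x (b i) +
        fderiv ℝ (fun y => G y (b i) (b r)) x (b j)) +
        (-1 : ℝ) * fderiv ℝ (fun y => G y (b i) (b j)) x (b r)) := by
    intro r
    have h1 := hC x hx (b r) (b i) (b j)
    have h2 : G x (C x (b i) (b j)) (b r) =
        ∑ q, b.repr (C x (b i) (b j)) q * G x (b q) (b r) := by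
      conv_lhs => rw [← b.sum_repr (C x (b i) (b j))]
      exact CR2_sum _ hbil x hx _ _ _ _
    rw [← h2]
    linarith
  have hv : Matrix.vecMul (fun q => b.repr (C x (b i) (b j)) q)
      ((Matrix.of fun i j => G x (b i) (b j) : Matrix J J ℝ) *
        (Matrix.of fun i j => G x (b i) (b j) : Matrix J J ℝ).adjugate) l =
      b.repr (C x (b i) (b j)) l *
        (Matrix.of fun i j => G x (b i) (b j) : Matrix J J ℝ).det := by
    rw [Matrix.mul_adjugate, Matrix.vecMul_smul, Matrix.vecMul_one, Pi.smul_apply,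
      smul_eq_mul, mul_comm]
  rw [← Matrix.vecMul_vecMul] at hv
  have hsum : (∑ r ∈ (Finset.univ : Finset J),
        (((1 / 2 : ℝ) * ((fderiv ℝ (fun y => G y (b j) (b r)) x (b i) +
          fderiv ℝ (fun y => G y (b i) (b r)) x (b j)) +
          (-1 : ℝ) * fderiv ℝ (fun y => G y (b i) (b j)) x (b r))) *
          (Matrix.of fun i j => G x (b i) (b j) : Matrix J J ℝ).adjugate r l)) =
      b.repr (C x (b i) (b j)) l *
        (Matrix.of fun i j => G x (b i) (b j) : Matrix J J ℝ).det := by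
    rw [← hv]
    simp only [Matrix.vecMul, dotProduct]
    refine Finset.sum_congr rfl fun r _ => ?_
    congr 1
    exact (hk r).symm
  rw [hsum, mul_comm, mul_assoc, mul_inv_cancel₀ (CR2_ne b G hG x hx), mul_one]

/-- Row CR2. The Christoffel symbols of metrics close to `G0` (compare `chr_rat`, `LibFR38/A3.lean`, whose
proof adapts). PLAN. Gram matrices `M t y i j = G t y (b i) (b j)`, determinants `D t`, `D0`: `JU` by `ju_facts`
(products and sums; `Matrix.det_apply'`). `|D t x - D0 x| ≤ B * e t`, so for `e t ≤ ε0` with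
`B ε0 ≤ |D0 x| / 2` one has `|D t x| ≥ |D0 x| / 2` (`B` depends only on `G0`: take it for the
family of ALL pairs `(G, ε)` with `0 ≤ ε ≤ 1`, so `ε0 ≤ 1`); `c l = (2 D)⁻¹ ∑ r, T r * adjugate r l`. -/
theorem chr_ju {E J : Type} [NormedAddCommGroup E] [NormedSpace ℝ E] [FiniteDimensional ℝ E]
    [Fintype J] [DecidableEq J] (b : Module.Basis J ℝ E) {Ω : Set E} (hΩ : IsOpen Ω) (x : E)
    (hx : x ∈ Ω) (G0 : E → E → E → ℝ) (h0 : Met G0 Ω) (C0 : E → E →L[ℝ] E →L[ℝ] E)
    (hK0 : Kos G0 C0 Ω) (k : ℕ) :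
    ∃ ε0 : ℝ, 0 < ε0 ∧ ∀ (T : Type) (e : T → ℝ) (G : T → E → E → E → ℝ)
      (C : T → E → E →L[ℝ] E →L[ℝ] E), (∀ t, 0 ≤ e t ∧ e t ≤ ε0) → (∀ t, Met (G t) Ω) →
      (∀ t i j, JB b (k + 1) (e t) (fun y => G t y (b i) (b j) - G0 y (b i) (b j)) x) →
      (∀ t, Kos (G t) (C t) Ω) → ∀ i j l,
        JU b k Ω x e (fun t y => b.repr (C t y (b i) (b j)) l) (fun y => b.repr (C0 y (b i) (b j)) l) := by
  -- the determinant stays away from zero
  have hD0 := CR2_ne b G0 h0 x hx
  obtain ⟨ε1, hε1, hcont⟩ : ∃ ε1 > 0, ∀ N : J → J → ℝ,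
      (∀ i j, |N i j - G0 x (b i) (b j)| < ε1) →
      |(Matrix.of N : Matrix J J ℝ).det -
        (Matrix.of fun i j => G0 x (b i) (b j) : Matrix J J ℝ).det| <
        |(Matrix.of fun i j => G0 x (b i) (b j) : Matrix J J ℝ).det| / 2 := by
    have hc : Continuous fun N : J → J → ℝ => (Matrix.of N : Matrix J J ℝ).det := by
      refine Continuous.matrix_det ?_
      exact continuous_id
    obtain ⟨δ, hδ, h⟩ := Metric.continuous_iff.1 hc (fun i j => G0 x (b i) (b j))
      (|(Matrix.of fun i j => G0 x (b i) (b j) : Matrix J J ℝ).det| / 2)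
      (half_pos (abs_pos.2 hD0))
    refine ⟨δ, hδ, fun N hN => ?_⟩
    have h2 : dist N (fun i j => G0 x (b i) (b j)) < δ := by
      rw [dist_pi_lt_iff hδ]
      intro i
      rw [dist_pi_lt_iff hδ]
      intro j
      rw [Real.dist_eq]
      exact hN i j
    have h3 := h N h2
    rwa [Real.dist_eq] at h3
  refine ⟨ε1 / 2, half_pos hε1, ?_⟩
  intro T e G C he hG hJ hK i j l
  have he0 : ∀ t, 0 ≤ e t := fun t => (he t).1
  obtain ⟨bMono, -, bAdd, -, -, bCongr, bEx⟩ := jb_facts b hΩ x hx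
  obtain ⟨jAdd, jMul, jConst, jDer, jSucc, jInv, jSum, jProd, jCongr⟩ :=
    ju_facts b hΩ x hx e he0
  -- the Gram matrices
  have hM1 : ∀ i j, JU b (k + 1) Ω x e (fun t y => G t y (b i) (b j))
      (fun y => G0 y (b i) (b j)) := by
    intro i j
    obtain ⟨M0, hM0, hb0⟩ := bEx (k + 1) (fun y => G0 y (b i) (b j)) (h0.smooth _ _)
    refine ⟨fun t => (hG t).smooth _ _, h0.smooth _ _, M0 + ε1 + 1, by positivity, ?_, ?_⟩
    · exact bMono _ _ _ _ (by linarith) hb0
    · intro t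
      refine ⟨?_, ?_⟩
      · have h1 := bAdd (k + 1) M0 (e t) _ _ (h0.smooth (b i) (b j))
          (((hG t).smooth (b i) (b j)).sub (h0.smooth (b i) (b j))) hb0 (hJ t i j)
        refine bMono _ _ _ _ ?_ (bCongr _ _ _ _ (fun y _ => ?_) h1)
        · have := (he t).2
          linarith
        · ring
      · refine bMono _ _ _ _ ?_ (hJ t i j)
        have h2 := (he t).1
        nlinarith
  have hM : ∀ i j, JU b k Ω x e
      (fun t y => (Matrix.of fun i j => G t y (b i) (b j) : Matrix J J ℝ) i j)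
      (fun y => (Matrix.of fun i j => G0 y (b i) (b j) : Matrix J J ℝ) i j) :=
    fun i j => jSucc k _ _ (hM1 i j)
  have hDet := CR2_det b hΩ x hx e he0 k
    (fun t y => (Matrix.of fun i j => G t y (b i) (b j) : Matrix J J ℝ))
    (fun y => (Matrix.of fun i j => G0 y (b i) (b j) : Matrix J J ℝ)) hM
  have hInv := jInv k _ _ hDet (fun t y hy => CR2_ne b (G t) (hG t) y hy)
    (fun y hy => CR2_ne b G0 h0 y hy)
    ⟨|(Matrix.of fun i j => G0 x (b i) (b j) : Matrix J J ℝ).det| / 2,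
      half_pos (abs_pos.2 hD0), fun t => by
        have h1 := hcont (fun i j => G t x (b i) (b j)) fun i j => by
          have h2 : |G t x (b i) (b j) - G0 x (b i) (b j)| ≤ e t := (hJ t i j).1
          have h3 := (he t).2
          linarith
        have h4 := abs_sub_abs_le_abs_sub
          (Matrix.of fun i j => G0 x (b i) (b j) : Matrix J J ℝ).det
          (Matrix.of fun i j => G t x (b i) (b j) : Matrix J J ℝ).det
        rw [abs_sub_comm] at h1
        linarith⟩
  have hSum : JU b k Ω x e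
      (fun t y => ∑ r ∈ (Finset.univ : Finset J),
        (((1 / 2 : ℝ) * ((fderiv ℝ (fun y => G t y (b j) (b r)) y (b i) +
          fderiv ℝ (fun y => G t y (b i) (b r)) y (b j)) +
          (-1 : ℝ) * fderiv ℝ (fun y => G t y (b i) (b j)) y (b r))) *
          (Matrix.of fun i j => G t y (b i) (b j) : Matrix J J ℝ).adjugate r l))
      (fun y => ∑ r ∈ (Finset.univ : Finset J),
        (((1 / 2 : ℝ) * ((fderiv ℝ (fun y => G0 y (b j) (b r)) y (b i) +
          fderiv ℝ (fun y => G0 y (b i) (b r)) y (b j)) +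
          (-1 : ℝ) * fderiv ℝ (fun y => G0 y (b i) (b j)) y (b r))) *
          (Matrix.of fun i j => G0 y (b i) (b j) : Matrix J J ℝ).adjugate r l)) := by
    refine jSum k _ _ (fun r t y =>
        (((1 / 2 : ℝ) * ((fderiv ℝ (fun y => G t y (b j) (b r)) y (b i) +
          fderiv ℝ (fun y => G t y (b i) (b r)) y (b j)) +
          (-1 : ℝ) * fderiv ℝ (fun y => G t y (b i) (b j)) y (b r))) *
          (Matrix.of fun i j => G t y (b i) (b j) : Matrix J J ℝ).adjugate r l))
      (fun r y =>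
        (((1 / 2 : ℝ) * ((fderiv ℝ (fun y => G0 y (b j) (b r)) y (b i) +
          fderiv ℝ (fun y => G0 y (b i) (b r)) y (b j)) +
          (-1 : ℝ) * fderiv ℝ (fun y => G0 y (b i) (b j)) y (b r))) *
          (Matrix.of fun i j => G0 y (b i) (b j) : Matrix J J ℝ).adjugate r l)) fun r _ => ?_
    refine jMul k _ _ _ _ ?_ (CR2_adj b hΩ x hx e he0 k _ _ hM r l)
    refine jMul k (fun _ _ => (1 / 2 : ℝ)) _ (fun _ => (1 / 2 : ℝ)) _
      (jConst k _ contDiffOn_const) ?_
    refine jAdd k _ _ _ _ (jAdd k _ _ _ _ ?_ ?_) (jMul k (fun _ _ => (-1 : ℝ)) _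
      (fun _ => (-1 : ℝ)) _ (jConst k _ contDiffOn_const) ?_)
    · exact jDer k _ _ i (hM1 j r)
    · exact jDer k _ _ j (hM1 i r)
    · exact jDer k _ _ r (hM1 i j)
  refine jCongr k _ _ _ _ (fun t y hy => ?_) (fun y hy => ?_) (jMul k _ _ _ _ hInv hSum)
  · exact CR2_formula b (G t) (hG t) (C t) (hK t) y hy i j l
  · exact CR2_formula b G0 h0 C0 hK0 y hy i j l

end NS38
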