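import Pool.Agent.LibFL27.CR1
import Pool.Agent.LibFR38.A4

set_option autoImplicit false
set_option maxSynthPendingDepth 3

open Topology Filter Set
open scoped ContDiff

namespace NS38

private theorem CR3_clm {E : Type} [NormedAddCommGroup E] [NormedSpace ℝ E] {Ω : Set E}
    (hΩ : IsOpen Ω) (C : E → E →L[ℝ] E →L[ℝ] E) (hC : ContDiffOn ℝ ∞ C Ω) :
    ∃ R : E → E →L[ℝ] E →L[ℝ] E →L[ℝ] E, ContDiffOn ℝ ∞ R Ω ∧
      ∀ x ∈ Ω, ∀ u v w, curv C x u v w = R x u v w := by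
  obtain ⟨⟨R, hR, h⟩, -⟩ := curv_clm (P := ℝ) (fun _ => C) (Set.univ ×ˢ Ω)
    (isOpen_univ.prod hΩ) (hC.comp contDiffOn_snd (fun x hx => hx.2))
  exact ⟨fun x => R (0, x), hR.comp (contDiffOn_const.prodMk contDiffOn_id)
    (fun x hx => ⟨trivial, hx⟩), fun x hx u v w => h (0, x) ⟨trivial, hx⟩ u v w⟩

private theorem CR3_exp {E J : Type} [NormedAddCommGroup E] [NormedSpace ℝ E] [Fintype J]
    (b : Module.Basis J ℝ E) (L : E →L[ℝ] E) (y : E) (l : J) :
    b.repr (L y) l = ∑ r, b.repr y r * b.repr (L (b r)) l := by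
  conv_lhs => rw [← b.sum_repr y]
  simp only [map_sum, map_smul, Finsupp.coe_finsetSum, Finset.sum_apply, Finsupp.smul_apply,
    smul_eq_mul]

private theorem CR3_der {E J : Type} [NormedAddCommGroup E] [NormedSpace ℝ E]
    [FiniteDimensional ℝ E] [Fintype J] (b : Module.Basis J ℝ E) (f : E → E) (x u : E)
    (hf : DifferentiableAt ℝ f x) (l : J) :
    b.repr (fderiv ℝ f x u) l = fderiv ℝ (fun y => b.repr (f y) l) x u := by
  have h := ((LinearMap.toContinuousLinearMap (b.coord l)).hasFDerivAt.comp x hf.hasFDerivAt)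
  have h2 : HasFDerivAt (fun y => b.repr (f y) l)
      ((LinearMap.toContinuousLinearMap (b.coord l)).comp (fderiv ℝ f x)) x := h
  rw [h2.fderiv]
  rfl

private theorem CR3_curv {E J : Type} [NormedAddCommGroup E] [NormedSpace ℝ E]
    [FiniteDimensional ℝ E] [Fintype J] (b : Module.Basis J ℝ E) {Ω : Set E} (hΩ : IsOpen Ω)
    (C : E → E →L[ℝ] E →L[ℝ] E) (hC : ContDiffOn ℝ ∞ C Ω) (x : E) (hx : x ∈ Ω) (u v w l : J) :
    b.repr (curv C x (b u) (b v) (b w)) l =
      fderiv ℝ (fun y => b.repr (C y (b v) (b w)) l) x (b u) -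
      fderiv ℝ (fun y => b.repr (C y (b u) (b w)) l) x (b v) +
      (∑ r, b.repr (C x (b v) (b w)) r * b.repr (C x (b u) (b r)) l) -
      ∑ r, b.repr (C x (b u) (b w)) r * b.repr (C x (b v) (b r)) l := by
  have hd : ∀ v w : E, DifferentiableAt ℝ (fun y => C y v w) x := by
    intro v w
    have h1 : DifferentiableAt ℝ C x :=
      (hC.contDiffAt (hΩ.mem_nhds hx)).differentiableAt (by simp)
    exact (h1.clm_apply (differentiableAt_const v)).clm_apply (differentiableAt_const w)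
  unfold curv
  rw [map_sub, map_add, map_sub]
  simp only [Finsupp.coe_sub, Finsupp.coe_add, Pi.sub_apply, Pi.add_apply]
  rw [CR3_der b _ x _ (hd _ _), CR3_der b _ x _ (hd _ _), CR3_exp b (C x (b u)),
    CR3_exp b (C x (b v))]

private theorem CR3_dcurv {E J : Type} [NormedAddCommGroup E] [NormedSpace ℝ E]
    [FiniteDimensional ℝ E] [Fintype J] (b : Module.Basis J ℝ E) {Ω : Set E} (hΩ : IsOpen Ω)
    (C : E → E →L[ℝ] E →L[ℝ] E) (hC : ContDiffOn ℝ ∞ C Ω) (x : E) (hx : x ∈ Ω)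
    (z u v w l : J) :
    b.repr (dcurv C x (b z) (b u) (b v) (b w)) l =
      fderiv ℝ (fun y => b.repr (curv C y (b u) (b v) (b w)) l) x (b z) +
      (∑ r, b.repr (curv C x (b u) (b v) (b w)) r * b.repr (C x (b z) (b r)) l) -
      (∑ r, b.repr (C x (b z) (b u)) r * b.repr (curv C x (b r) (b v) (b w)) l) -
      (∑ r, b.repr (C x (b z) (b v)) r * b.repr (curv C x (b u) (b r) (b w)) l) -
      ∑ r, b.repr (C x (b z) (b w)) r * b.repr (curv C x (b u) (b v) (b r)) l := by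
  obtain ⟨R, hR, h⟩ := CR3_clm hΩ C hC
  have hd : DifferentiableAt ℝ (fun y => curv C y (b u) (b v) (b w)) x := by
    have h1 : DifferentiableAt ℝ R x :=
      (hR.contDiffAt (hΩ.mem_nhds hx)).differentiableAt (by simp)
    have h2 : DifferentiableAt ℝ (fun y => R y (b u) (b v) (b w)) x :=
      ((h1.clm_apply (differentiableAt_const _)).clm_apply
        (differentiableAt_const _)).clm_apply (differentiableAt_const _)
    refine h2.congr_of_eventuallyEq ?_
    filter_upwards [hΩ.mem_nhds hx] with y hy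
    exact h y hy _ _ _
  unfold dcurv
  rw [map_sub, map_sub, map_sub, map_add]
  simp only [Finsupp.coe_sub, Finsupp.coe_add, Pi.sub_apply, Pi.add_apply]
  rw [CR3_der b _ x _ hd, CR3_exp b (C x (b z))]
  have e1 : b.repr (curv C x (C x (b z) (b u)) (b v) (b w)) l =
      ∑ r, b.repr (C x (b z) (b u)) r * b.repr (curv C x (b r) (b v) (b w)) l := by
    have k := CR3_exp b (((R x).flip (b v)).flip (b w)) (C x (b z) (b u)) l
    simp only [ContinuousLinearMap.flip_apply] at k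
    rw [h x hx, k]
    exact Finset.sum_congr rfl fun r _ => by rw [h x hx]
  have e2 : b.repr (curv C x (b u) (C x (b z) (b v)) (b w)) l =
      ∑ r, b.repr (C x (b z) (b v)) r * b.repr (curv C x (b u) (b r) (b w)) l := by
    have k := CR3_exp b ((R x (b u)).flip (b w)) (C x (b z) (b v)) l
    simp only [ContinuousLinearMap.flip_apply] at k
    rw [h x hx, k]
    exact Finset.sum_congr rfl fun r _ => by rw [h x hx]
  have e3 : b.repr (curv C x (b u) (b v) (C x (b z) (b w))) l =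
      ∑ r, b.repr (C x (b z) (b w)) r * b.repr (curv C x (b u) (b v) (b r)) l := by
    have k := CR3_exp b (R x (b u) (b v)) (C x (b z) (b w)) l
    rw [h x hx, k]
    exact Finset.sum_congr rfl fun r _ => by rw [h x hx]
  rw [e1, e2, e3]

/-- Row CR3. The components of `dcurv` of connections close to `C0` (compare `dcurv_rat`,
`LibFR38/A4.lean`, whose proof adapts with `ju_facts` instead of `ratS_facts`; `D_(b i)` costs one order). -/
theorem dcurv_ju {E J : Type} [NormedAddCommGroup E] [NormedSpace ℝ E] [FiniteDimensional ℝ E]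
    [Fintype J] [DecidableEq J] (b : Module.Basis J ℝ E) {Ω : Set E} (hΩ : IsOpen Ω) (x : E)
    (hx : x ∈ Ω) (T : Type) (e : T → ℝ) (he : ∀ t, 0 ≤ e t) (C : T → E → E →L[ℝ] E →L[ℝ] E)
    (C0 : E → E →L[ℝ] E →L[ℝ] E) (hC : ∀ t, ContDiffOn ℝ ∞ (C t) Ω) (hC0 : ContDiffOn ℝ ∞ C0 Ω)
    (h : ∀ i j l, JU b 2 Ω x e (fun t y => b.repr (C t y (b i) (b j)) l)
      (fun y => b.repr (C0 y (b i) (b j)) l)) :
    ∀ z u v w l, JU b 0 Ω x e (fun t y => b.repr (dcurv (C t) y (b z) (b u) (b v) (b w)) l)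
      (fun y => b.repr (dcurv C0 y (b z) (b u) (b v) (b w)) l) := by
  obtain ⟨hadd, hmul, hcst, hder, hlow, -, hsum, -, hcon⟩ := ju_facts b hΩ x hx e he
  have hm1 : ∀ k, JU b k Ω x e (fun _ _ => (-1 : ℝ)) (fun _ => (-1 : ℝ)) := fun k =>
    hcst k (fun _ => (-1 : ℝ)) contDiffOn_const
  have hsub : ∀ (k : ℕ) (f g : T → E → ℝ) (f0 g0 : E → ℝ), JU b k Ω x e f f0 →
      JU b k Ω x e g g0 → JU b k Ω x e (fun t y => f t y - g t y) (fun y => f0 y - g0 y) := by
    intro k f g f0 g0 hf hg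
    refine hcon k _ _ _ _ (fun t y _ => ?_) (fun y _ => ?_)
      (hadd k _ _ _ _ hf (hmul k _ _ _ _ (hm1 k) hg))
    · ring
    · ring
  have h1 : ∀ i j l, JU b 1 Ω x e (fun t y => b.repr (C t y (b i) (b j)) l)
      (fun y => b.repr (C0 y (b i) (b j)) l) := fun i j l => hlow 1 _ _ (h i j l)
  have h0 : ∀ i j l, JU b 0 Ω x e (fun t y => b.repr (C t y (b i) (b j)) l)
      (fun y => b.repr (C0 y (b i) (b j)) l) := fun i j l => hlow 0 _ _ (h1 i j l)
  have hρ1 : ∀ u v w l, JU b 1 Ω x e (fun t y => b.repr (curv (C t) y (b u) (b v) (b w)) l)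
      (fun y => b.repr (curv C0 y (b u) (b v) (b w)) l) := by
    intro u v w l
    refine hcon 1 _ _ _ _ (fun t y hy => (CR3_curv b hΩ (C t) (hC t) y hy u v w l).symm)
      (fun y hy => (CR3_curv b hΩ C0 hC0 y hy u v w l).symm) ?_
    refine hsub 1 _ _ _ _ (hadd 1 _ _ _ _ (hsub 1 _ _ _ _ (hder 1 _ _ _ (h v w l))
      (hder 1 _ _ _ (h u w l))) ?_) ?_
    · exact hsum 1 J Finset.univ _ _ fun r _ => hmul 1 _ _ _ _ (h1 v w r) (h1 u r l)
    · exact hsum 1 J Finset.univ _ _ fun r _ => hmul 1 _ _ _ _ (h1 u w r) (h1 v r l)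
  have hρ : ∀ u v w l, JU b 0 Ω x e (fun t y => b.repr (curv (C t) y (b u) (b v) (b w)) l)
      (fun y => b.repr (curv C0 y (b u) (b v) (b w)) l) := fun u v w l =>
    hlow 0 _ _ (hρ1 u v w l)
  intro z u v w l
  refine hcon 0 _ _ _ _ (fun t y hy => (CR3_dcurv b hΩ (C t) (hC t) y hy z u v w l).symm)
    (fun y hy => (CR3_dcurv b hΩ C0 hC0 y hy z u v w l).symm) ?_
  refine hsub 0 _ _ _ _ (hsub 0 _ _ _ _ (hsub 0 _ _ _ _ (hadd 0 _ _ _ _
    (hder 0 _ _ _ (hρ1 u v w l)) ?_) ?_) ?_) ?_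
  · exact hsum 0 J Finset.univ _ _ fun r _ => hmul 0 _ _ _ _ (hρ u v w r) (h0 z r l)
  · exact hsum 0 J Finset.univ _ _ fun r _ => hmul 0 _ _ _ _ (h0 z u r) (hρ r v w l)
  · exact hsum 0 J Finset.univ _ _ fun r _ => hmul 0 _ _ _ _ (h0 z v r) (hρ u r w l)
  · exact hsum 0 J Finset.univ _ _ fun r _ => hmul 0 _ _ _ _ (h0 z w r) (hρ u v r l)

end NS38
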