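import Pool.Agent.LibFL27.CR2
import Pool.Agent.LibFL27.CR3
import Pool.Agent.LibNS38.B7

set_option autoImplicit false
set_option maxSynthPendingDepth 3

open Topology Filter Set
open scoped ContDiff

namespace NS38

/-- the covariant derivative of the curvature of the metric `G` is at most `ρ` on `Ω` (squares, in the norm
of `G`) -/
def DRn {E : Type} [NormedAddCommGroup E] [NormedSpace ℝ E] (G : E → E → E → ℝ) (Ω : Set E)
    (ρ : ℝ) : Prop :=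
  ∀ C : E → E →L[ℝ] E →L[ℝ] E, ContDiffOn ℝ ∞ C Ω → Kos G C Ω → ∀ x ∈ Ω, ∀ z u v w : E,
    G x (dcurv C x z u v w) (dcurv C x z u v w) ≤ ρ * (G x z z * G x u u * G x v v * G x w w)

/-- one connection: `dcurv` is multilinear at the points of `Ω` -/
private theorem CR4_lin {E : Type} [NormedAddCommGroup E] [NormedSpace ℝ E] {Ω : Set E}
    (hΩ : IsOpen Ω) (C : E → E →L[ℝ] E →L[ℝ] E) (hC : ContDiffOn ℝ ∞ C Ω) :
    ∃ R : E → E →L[ℝ] E →L[ℝ] E →L[ℝ] E →L[ℝ] E,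
      ∀ x ∈ Ω, ∀ z u v w, dcurv C x z u v w = R x z u v w := by
  have h1 : ContDiffOn ℝ ∞ (fun x : ℝ × E => (fun _ : ℝ => C) x.1 x.2) (univ ×ˢ Ω) :=
    hC.comp contDiffOn_snd fun x hx => hx.2
  obtain ⟨R', -, h2⟩ := (curv_clm (fun _ : ℝ => C) (univ ×ˢ Ω) (isOpen_univ.prod hΩ) h1).2
  exact ⟨fun x => R' (0, x), fun x hx z u v w => h2 (0, x) ⟨mem_univ _, hx⟩ z u v w⟩

private theorem CR4_op {E J F : Type} [NormedAddCommGroup E] [NormedSpace ℝ E] [Fintype J]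
    [NormedAddCommGroup F] [NormedSpace ℝ F] (b : Module.Basis J ℝ E) {c : ℝ} (hc0 : 0 ≤ c)
    (hc : ∀ z, ∑ i, |b.repr z i| ≤ c * ‖z‖) (f : E →L[ℝ] F) {β : ℝ} (hβ : 0 ≤ β)
    (h : ∀ i, ‖f (b i)‖ ≤ β) : ‖f‖ ≤ c * β := by
  refine f.opNorm_le_bound (by positivity) fun z => ?_
  have h1 : f z = ∑ i, b.repr z i • f (b i) := by
    have h2 := congrArg f (b.sum_repr z)
    rw [map_sum] at h2
    rw [← h2]
    exact Finset.sum_congr rfl fun i _ => map_smul f _ _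
  rw [h1]
  calc ‖∑ i, b.repr z i • f (b i)‖ ≤ ∑ i, ‖b.repr z i • f (b i)‖ := norm_sum_le _ _
    _ ≤ ∑ i, |b.repr z i| * β := Finset.sum_le_sum fun i _ => by
        rw [norm_smul, Real.norm_eq_abs]
        exact mul_le_mul_of_nonneg_left (h i) (abs_nonneg _)
    _ = (∑ i, |b.repr z i|) * β := by rw [Finset.sum_mul]
    _ ≤ c * ‖z‖ * β := mul_le_mul_of_nonneg_right (hc z) hβ
    _ = c * β * ‖z‖ := by ring

private theorem CR4_bd {E J : Type} [NormedAddCommGroup E] [NormedSpace ℝ E]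
    [FiniteDimensional ℝ E] [Fintype J] (b : Module.Basis J ℝ E) :
    ∃ K : ℝ, 0 ≤ K ∧ ∀ (R : E →L[ℝ] E →L[ℝ] E →L[ℝ] E →L[ℝ] E) (β : ℝ), 0 ≤ β →
      (∀ z u v w l, |b.repr (R (b z) (b u) (b v) (b w)) l| ≤ β) →
      ∀ z u v w, ‖R z u v w‖ ≤ K * β * (‖z‖ * ‖u‖ * ‖v‖ * ‖w‖) := by
  obtain ⟨c, hc0, hc⟩ : ∃ c : ℝ, 0 ≤ c ∧ ∀ z, ∑ i, |b.repr z i| ≤ c * ‖z‖ := by
    refine ⟨∑ i, ‖LinearMap.toContinuousLinearMap (b.coord i)‖,
      Finset.sum_nonneg fun i _ => norm_nonneg _, fun z => ?_⟩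
    rw [Finset.sum_mul]
    refine Finset.sum_le_sum fun i _ => ?_
    have h1 := (LinearMap.toContinuousLinearMap (b.coord i)).le_opNorm z
    rw [Real.norm_eq_abs] at h1
    exact h1
  have hd0 : 0 ≤ ∑ l, ‖b l‖ := Finset.sum_nonneg fun l _ => norm_nonneg _
  refine ⟨c * (c * (c * (c * ∑ l, ‖b l‖))), by positivity, ?_⟩
  intro R β hβ h z u v w
  have h0 : ∀ z u v w, ‖R (b z) (b u) (b v) (b w)‖ ≤ β * ∑ l, ‖b l‖ := by
    intro z u v w
    have e1 := b.sum_repr (R (b z) (b u) (b v) (b w))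
    rw [← e1]
    calc ‖∑ l, b.repr (R (b z) (b u) (b v) (b w)) l • b l‖
        ≤ ∑ l, ‖b.repr (R (b z) (b u) (b v) (b w)) l • b l‖ := norm_sum_le _ _
      _ ≤ ∑ l, β * ‖b l‖ := Finset.sum_le_sum fun l _ => by
          rw [norm_smul, Real.norm_eq_abs]
          exact mul_le_mul_of_nonneg_right (h z u v w l) (norm_nonneg _)
      _ = β * ∑ l, ‖b l‖ := by rw [Finset.mul_sum]
  have h1 : ∀ z u v, ‖R (b z) (b u) (b v)‖ ≤ c * (β * ∑ l, ‖b l‖) := fun z u v =>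
    CR4_op b hc0 hc _ (by positivity) (h0 z u v)
  have h2 : ∀ z u, ‖R (b z) (b u)‖ ≤ c * (c * (β * ∑ l, ‖b l‖)) := fun z u =>
    CR4_op b hc0 hc _ (by positivity) (h1 z u)
  have h3 : ∀ z, ‖R (b z)‖ ≤ c * (c * (c * (β * ∑ l, ‖b l‖))) := fun z =>
    CR4_op b hc0 hc _ (by positivity) (h2 z)
  have h4 : ‖R‖ ≤ c * (c * (c * (c * (β * ∑ l, ‖b l‖)))) :=
    CR4_op b hc0 hc _ (by positivity) h3
  calc ‖R z u v w‖ ≤ ‖R z u v‖ * ‖w‖ := (R z u v).le_opNorm w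
    _ ≤ ‖R z u‖ * ‖v‖ * ‖w‖ := mul_le_mul_of_nonneg_right ((R z u).le_opNorm v) (norm_nonneg _)
    _ ≤ ‖R z‖ * ‖u‖ * ‖v‖ * ‖w‖ := mul_le_mul_of_nonneg_right (mul_le_mul_of_nonneg_right
        ((R z).le_opNorm u) (norm_nonneg _)) (norm_nonneg _)
    _ ≤ ‖R‖ * ‖z‖ * ‖u‖ * ‖v‖ * ‖w‖ := mul_le_mul_of_nonneg_right (mul_le_mul_of_nonneg_right
        (mul_le_mul_of_nonneg_right (R.le_opNorm z) (norm_nonneg _)) (norm_nonneg _))
          (norm_nonneg _)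
    _ = ‖R‖ * (‖z‖ * ‖u‖ * ‖v‖ * ‖w‖) := by ring
    _ ≤ c * (c * (c * (c * (β * ∑ l, ‖b l‖)))) * (‖z‖ * ‖u‖ * ‖v‖ * ‖w‖) :=
        mul_le_mul_of_nonneg_right h4 (by positivity)
    _ = c * (c * (c * (c * ∑ l, ‖b l‖))) * β * (‖z‖ * ‖u‖ * ‖v‖ * ‖w‖) := by ring

/-- Row CR4 (assembly). Metrics which are close to the locally symmetric metric `G0` at the point `x` to
order `3` have small `dcurv` at `x`. PLAN. `C0` from `hL` (`dcurv C0 = 0`), `ε0` from `chr_ju` with `k = 2`; `T` = the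
type of all `(G, ε, C)` with the hypotheses; `dcurv_ju`; expand `z, u, v, w` in the basis (`dcurv` is multilinear
at points of `Ω`: `curv_clm`, `LibNS38/B7.lean`, as in `LibFR38/A5.lean`), `|b.repr z i| ≤ c ‖z‖`,
`‖y‖ ≤ ∑ |b.repr y l| ‖b l‖`. -/
theorem jet_small {E J : Type} [NormedAddCommGroup E] [NormedSpace ℝ E] [FiniteDimensional ℝ E]
    [Fintype J] [DecidableEq J] (b : Module.Basis J ℝ E) {Ω : Set E} (hΩ : IsOpen Ω) (x : E)
    (hx : x ∈ Ω) (G0 : E → E → E → ℝ) (h0 : Met G0 Ω) (hL : LSym G0 Ω) :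
    ∃ M ε0 : ℝ, 0 ≤ M ∧ 0 < ε0 ∧ ∀ (G : E → E → E → ℝ) (ε : ℝ), Met G Ω → 0 ≤ ε → ε ≤ ε0 →
      (∀ i j, JB b 3 ε (fun y => G y (b i) (b j) - G0 y (b i) (b j)) x) →
      ∀ C : E → E →L[ℝ] E →L[ℝ] E, ContDiffOn ℝ ∞ C Ω → Kos G C Ω → ∀ z u v w,
        ‖dcurv C x z u v w‖ ≤ M * ε * (‖z‖ * ‖u‖ * ‖v‖ * ‖w‖) := by
  classical
  obtain ⟨C0, hC0, hK0, hz0⟩ := hL
  obtain ⟨ε0, hε0, hchr⟩ := chr_ju b hΩ x hx G0 h0 C0 hK0 2
  let T : Type := {p : (E → E → E → ℝ) × ℝ × (E → E →L[ℝ] E →L[ℝ] E) // Met p.1 Ω ∧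
    (0 ≤ p.2.1 ∧ p.2.1 ≤ ε0) ∧
    (∀ i j, JB b 3 p.2.1 (fun y => p.1 y (b i) (b j) - G0 y (b i) (b j)) x) ∧
    ContDiffOn ℝ ∞ p.2.2 Ω ∧ Kos p.1 p.2.2 Ω}
  have h1 := hchr T (fun t => t.1.2.1) (fun t => t.1.1) (fun t => t.1.2.2)
    (fun t => t.2.2.1) (fun t => t.2.1) (fun t => t.2.2.2.1) (fun t => t.2.2.2.2.2)
  have h2 := dcurv_ju b hΩ x hx T (fun t => t.1.2.1) (fun t => t.2.2.1.1) (fun t => t.1.2.2) C0
    (fun t => t.2.2.2.2.1) hC0 h1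
  have h3 : ∀ z u v w l, ∃ B : ℝ, 0 ≤ B ∧ ∀ t : T,
      |b.repr (dcurv t.1.2.2 x (b z) (b u) (b v) (b w)) l| ≤ B * t.1.2.1 := by
    intro z u v w l
    obtain ⟨-, -, B, hB, -, hB1⟩ := h2 z u v w l
    refine ⟨B, hB, fun t => ?_⟩
    have h4 : |b.repr (dcurv t.1.2.2 x (b z) (b u) (b v) (b w)) l -
        b.repr (dcurv C0 x (b z) (b u) (b v) (b w)) l| ≤ B * t.1.2.1 := (hB1 t).2
    rw [hz0 x hx, map_zero, Finsupp.zero_apply, sub_zero] at h4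
    exact h4
  choose B hB0 hB using h3
  obtain ⟨K, hK, hKb⟩ := CR4_bd b
  refine ⟨K * ∑ z, ∑ u, ∑ v, ∑ w, ∑ l, B z u v w l, ε0, ?_, hε0, ?_⟩
  · refine mul_nonneg hK ?_
    refine Finset.sum_nonneg fun z _ => Finset.sum_nonneg fun u _ => Finset.sum_nonneg fun v _ =>
      Finset.sum_nonneg fun w _ => Finset.sum_nonneg fun l _ => hB0 z u v w l
  · intro G ε hG hε hε1 hJ C hC hKos z u v w
    obtain ⟨R, hR⟩ := CR4_lin hΩ C hC
    have hsum : 0 ≤ ∑ z, ∑ u, ∑ v, ∑ w, ∑ l, B z u v w l :=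
      Finset.sum_nonneg fun z _ => Finset.sum_nonneg fun u _ => Finset.sum_nonneg fun v _ =>
        Finset.sum_nonneg fun w _ => Finset.sum_nonneg fun l _ => hB0 z u v w l
    have h5 := hKb (R x) ((∑ z, ∑ u, ∑ v, ∑ w, ∑ l, B z u v w l) * ε) (mul_nonneg hsum hε) ?_ z u v w
    · rw [hR x hx]
      refine h5.trans (le_of_eq ?_)
      ring
    · intro z u v w l
      rw [← hR x hx]
      have h6 := hB z u v w l ⟨(G, ε, C), hG, ⟨hε, hε1⟩, hJ, hC, hKos⟩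
      refine h6.trans (mul_le_mul_of_nonneg_right ?_ hε)
      calc B z u v w l ≤ ∑ l, B z u v w l :=
            Finset.single_le_sum (f := fun l => B z u v w l) (fun l _ => hB0 z u v w l)
              (Finset.mem_univ l)
        _ ≤ ∑ w, ∑ l, B z u v w l :=
            Finset.single_le_sum (f := fun w => ∑ l, B z u v w l)
              (fun w _ => Finset.sum_nonneg fun l _ => hB0 z u v w l) (Finset.mem_univ w)
        _ ≤ ∑ v, ∑ w, ∑ l, B z u v w l :=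
            Finset.single_le_sum (f := fun v => ∑ w, ∑ l, B z u v w l)
              (fun v _ => Finset.sum_nonneg fun w _ => Finset.sum_nonneg fun l _ =>
                hB0 z u v w l) (Finset.mem_univ v)
        _ ≤ ∑ u, ∑ v, ∑ w, ∑ l, B z u v w l :=
            Finset.single_le_sum (f := fun u => ∑ v, ∑ w, ∑ l, B z u v w l)
              (fun u _ => Finset.sum_nonneg fun v _ => Finset.sum_nonneg fun w _ =>
                Finset.sum_nonneg fun l _ => hB0 z u v w l) (Finset.mem_univ u)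
        _ ≤ ∑ z, ∑ u, ∑ v, ∑ w, ∑ l, B z u v w l :=
            Finset.single_le_sum (f := fun z => ∑ u, ∑ v, ∑ w, ∑ l, B z u v w l)
              (fun z _ => Finset.sum_nonneg fun u _ => Finset.sum_nonneg fun v _ =>
                Finset.sum_nonneg fun w _ => Finset.sum_nonneg fun l _ => hB0 z u v w l)
              (Finset.mem_univ z)

end NS38
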