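import Pool.Agent.LibFL27.CDefs

set_option autoImplicit false
set_option maxSynthPendingDepth 3

open Matrix MeasureTheory Topology Filter LibNC38
open LibNC27 hiding Mt
open scoped Matrix.Norms.Elementwise ContDiff

namespace FL27

/-- Row CS3. Restrictions of smooth functions of the entries have all word derivatives. PLAN. For `x`
fixed the derivative of `g ↦ f g.1` along `x` is `fx g.1`, `fx A = fderiv ℝ f A (A * x)`, smooth on `V`. -/
theorem sg_smooth {n : ℕ} (V : Set (Mt n)) (hV : IsOpen V) (hg : ∀ g : SL n, g.1 ∈ V)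
    (f : Mt n → ℝ) (hf : ContDiffOn ℝ ∞ f V) : ∀ j, SG j (fun g : SL n => f g.1) := by
  intro j
  have hcont : ∀ f : Mt n → ℝ, ContDiffOn ℝ ∞ f V → Continuous (fun g : SL n => f g.1) := by
    intro f hf
    exact hf.continuousOn.comp_continuous continuous_subtype_val hg
  induction j generalizing f with
  | zero => exact hcont f hf
  | succ j ih =>
    refine ⟨hcont f hf, fun x _ => ?_⟩
    let R : Mt n →L[ℝ] Mt n := LinearMap.toContinuousLinearMap (LinearMap.mulRight ℝ x)
    have hR : ∀ A, R A = A * x := fun A => rfl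
    refine ⟨fun g => fderiv ℝ f g.1 (g.1 * x), ?_, ?_⟩
    · intro c hc
      have h1 : HasDerivAt (fun s => (c s).1) ((c 0).1 * x) 0 := by
        apply hasDerivAt_pi.2
        intro a
        apply hasDerivAt_pi.2
        intro b
        exact hc a b
      have h2 : DifferentiableAt ℝ f (c 0).1 :=
        (hf.differentiableOn (by simp)).differentiableAt (hV.mem_nhds (hg _))
      exact h2.hasFDerivAt.comp_hasDerivAt (0 : ℝ) h1
    · have h3 : ContDiffOn ℝ ∞ (fun A : Mt n => fderiv ℝ f A (R A)) V :=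
        (hf.fderiv_of_isOpen hV (m := ∞) (by norm_num)).clm_apply R.contDiff.contDiffOn
      exact ih (fun A : Mt n => fderiv ℝ f A (R A)) h3

/-- Row CS3 (second part). The frame components of a smooth form. PLAN.
`Jf h v w g = κ' (g gᵀ) (g v gᵀ) (g w gᵀ)` with the smooth extension `κ'` of `h` to the open set `W ∋ g gᵀ`;
`V = {A | A * Aᵀ ∈ W}`; expand the bilinear form in the matrix units (as in `LibNC27/N1a.lean`). -/
theorem sg_jf {n : ℕ} (h : PD n → Fm n) (hh : CmF ∞ h) (v w : Mt n) : ∀ j, SG j (Jf h v w) := by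
  obtain ⟨U, κ, hU, hUp, hκ⟩ := hh
  have hid : ∀ s : Set (Mt n), ContDiffOn ℝ ∞ (fun A : Mt n => A) s := fun s => contDiffOn_id
  have hgr : ∀ s : Set (Mt n), ContDiffOn ℝ ∞ (fun A : Mt n => A * Aᵀ) s := fun s =>
    cd_mul (hid s) (cd_transpose (hid s))
  have hcg : Continuous fun A : Mt n => A * Aᵀ := by
    have := (hgr Set.univ).continuousOn
    rwa [← continuousOn_univ]
  have hsub : ∀ z : Mt n, ∀ s : Set (Mt n), ContDiffOn ℝ ∞ (fun A : Mt n => A * z * Aᵀ) s :=
    fun z s => cd_mul (cd_mul (hid s) contDiffOn_const) (cd_transpose (hid s))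
  have hmem : ∀ g : SL n, (act g (o n)).1 = g.1 * g.1ᵀ := by
    intro g
    change g.1 * 1 * g.1ᵀ = _
    rw [Matrix.mul_one]
  have hV : IsOpen {A : Mt n | A * Aᵀ ∈ U} := hU.preimage hcg
  have hgV : ∀ g : SL n, g.1 ∈ {A : Mt n | A * Aᵀ ∈ U} := by
    intro g
    have := (hUp (act g (o n))).1
    rw [hmem] at this
    exact this
  have hF : ContDiffOn ℝ ∞ (fun A : Mt n => κ (A * Aᵀ) (A * v * Aᵀ) (A * w * Aᵀ))
      {A : Mt n | A * Aᵀ ∈ U} := by
    refine cd_bil (K := fun A : Mt n => κ (A * Aᵀ)) (fun a b => ?_) (hsub v _) (hsub w _)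
    exact (hκ a b).comp (hgr _) (fun A hA => hA)
  have h1 := sg_smooth {A : Mt n | A * Aᵀ ∈ U} hV hgV _ hF
  have h2 : (fun g : SL n => κ (g.1 * g.1ᵀ) (g.1 * v * g.1ᵀ) (g.1 * w * g.1ᵀ)) = Jf h v w := by
    funext g
    rw [Jf, ← (hUp (act g (o n))).2, hmem]
  rw [h2] at h1
  exact h1

end FL27
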