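import Pool.Agent.LibFL27.CS0
import Pool.Agent.LibFL27.CR0

set_option autoImplicit false
set_option maxSynthPendingDepth 3

open Matrix MeasureTheory Topology Filter LibNC38
open LibNC27 hiding Mt
open scoped Matrix.Norms.Elementwise ContDiff

namespace FL27

private theorem CS4_det {n : ℕ} (x : Mt n) (hx : x.trace = 0) :
    HasDerivAt (fun s : ℝ => (1 + s • x : Mt n).det) 0 0 := by
  have h1 : (fun s : ℝ => (1 + s • x : Mt n).det) = fun s : ℝ => 1 + x.trace * s +
      (Matrix.det (1 + (Polynomial.X : Polynomial ℝ) • x.map Polynomial.C)).divX.divX.eval s * s ^ 2 := by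
    funext s
    exact Matrix.det_one_add_smul s x
  rw [h1, hx]
  set q := (Matrix.det (1 + (Polynomial.X : Polynomial ℝ) • x.map Polynomial.C)).divX.divX
  have h2 : HasDerivAt (fun s : ℝ => 1 + 0 * s + q.eval s * s ^ 2)
      (0 * 1 + (q.derivative.eval 0 * 0 ^ 2 + q.eval 0 * (((2 : ℕ) : ℝ) * 0 ^ (2 - 1)))) 0 :=
    (((hasDerivAt_id (0 : ℝ)).const_mul (0 : ℝ)).const_add 1).add
      ((q.hasDerivAt 0).mul (hasDerivAt_pow 2 (0 : ℝ)))
  simpa using h2

private theorem CS4_curve {n : ℕ} (g : SL n) (x : Mt n) (hx : x.trace = 0) :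
    ∃ c : ℝ → SL n, c 0 = g ∧ ∀ a b, HasDerivAt (fun s => (c s).1 a b) ((g.1 * x) a b) 0 := by
  classical
  rcases isEmpty_or_nonempty (Fin n) with hn | ⟨⟨i0⟩⟩
  · exact ⟨fun _ => g, rfl, fun a => (hn.false a).elim⟩
  set d : ℝ → ℝ := fun s => (1 + s • x : Mt n).det with hd
  have hd0 : d 0 = 1 := by simp [hd]
  have hdd : HasDerivAt d 0 0 := CS4_det x hx
  let m : ℝ → Mt n := fun s => (1 + s • x : Mt n).updateRow i0 ((d s)⁻¹ • (1 + s • x : Mt n) i0)
  have hm : ∀ s, d s ≠ 0 → (m s).det = 1 := by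
    intro s hs
    show ((1 + s • x : Mt n).updateRow i0 ((d s)⁻¹ • (1 + s • x : Mt n) i0)).det = 1
    rw [Matrix.det_updateRow_smul, Matrix.updateRow_eq_self]
    exact inv_mul_cancel₀ hs
  have hm0 : m 0 = 1 := by
    show (1 + (0 : ℝ) • x : Mt n).updateRow i0 ((d 0)⁻¹ • (1 + (0 : ℝ) • x : Mt n) i0) = 1
    rw [hd0, inv_one, one_smul, Matrix.updateRow_eq_self, zero_smul, add_zero]
  let c : ℝ → SL n := fun s => if h : d s ≠ 0 then g * ⟨m s, hm s h⟩ else g
  have hc0 : c 0 = g := by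
    show (if h : d 0 ≠ 0 then g * ⟨m 0, hm 0 h⟩ else g) = g
    rw [dif_pos (by rw [hd0]; exact one_ne_zero)]
    apply Subtype.ext
    show g.1 * m 0 = g.1
    rw [hm0, mul_one]
  refine ⟨c, hc0, ?_⟩
  intro a b
  have hev : ∀ᶠ s in 𝓝 (0 : ℝ), d s ≠ 0 :=
    hdd.continuousAt.eventually_ne (by rw [hd0]; exact one_ne_zero)
  have hmd : ∀ k, HasDerivAt (fun s => m s k b) (x k b) 0 := by
    intro k
    have h1 : ∀ k' : Fin n, HasDerivAt (fun s : ℝ => (1 + s • x : Mt n) k' b) (x k' b) 0 := by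
      intro k'
      have h2 : HasDerivAt (fun s : ℝ => (1 : Mt n) k' b + s * x k' b) (1 * x k' b) 0 :=
        ((hasDerivAt_id (0 : ℝ)).mul_const (x k' b)).const_add _
      rw [one_mul] at h2
      exact h2
    by_cases hk : k = i0
    · subst hk
      have h3 : HasDerivAt (fun s : ℝ => (d s)⁻¹ * (1 + s • x : Mt n) k b)
          ((-0 / (d 0) ^ 2) * (1 + (0 : ℝ) • x : Mt n) k b + (d 0)⁻¹ * x k b) 0 :=
        (hdd.inv (by rw [hd0]; exact one_ne_zero)).mul (h1 k)
      have h4 : ((-0 / (d 0) ^ 2) * (1 + (0 : ℝ) • x : Mt n) k b + (d 0)⁻¹ * x k b) = x k b := by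
        rw [hd0]; simp
      rw [h4] at h3
      have h5 : (fun s => m s k b) = fun s : ℝ => (d s)⁻¹ * (1 + s • x : Mt n) k b := by
        funext s
        show ((1 + s • x : Mt n).updateRow k ((d s)⁻¹ • (1 + s • x : Mt n) k)) k b = _
        rw [Matrix.updateRow_self]
        rfl
      rw [h5]
      exact h3
    · have h5 : (fun s => m s k b) = fun s : ℝ => (1 + s • x : Mt n) k b := by
        funext s
        show ((1 + s • x : Mt n).updateRow i0 ((d s)⁻¹ • (1 + s • x : Mt n) i0)) k b = _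
        rw [Matrix.updateRow_ne hk]
      rw [h5]
      exact h1 k
  have h6 : HasDerivAt (fun s => ∑ k, g.1 a k * m s k b) (∑ k, g.1 a k * x k b) 0 :=
    HasDerivAt.fun_sum (fun k _ => (hmd k).const_mul (g.1 a k))
  have h7 : (g.1 * x) a b = ∑ k, g.1 a k * x k b := Matrix.mul_apply
  rw [h7]
  refine h6.congr_of_eventuallyEq ?_
  filter_upwards [hev] with s hs
  show (if h : d s ≠ 0 then g * ⟨m s, hm s h⟩ else g).1 a b = _
  rw [dif_pos hs]
  show (g.1 * m s) a b = _
  exact Matrix.mul_apply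

private theorem CS4_uniq {n : ℕ} {x : Mt n} (hx : x.trace = 0) {F F1 F2 : Fn n}
    (h1 : RD x F F1) (h2 : RD x F F2) : F1 = F2 := by
  funext g
  obtain ⟨c, hc0, hc⟩ := CS4_curve g x hx
  have hc' : ∀ a b, HasDerivAt (fun s => (c s).1 a b) (((c 0).1 * x) a b) 0 := by
    rw [hc0]; exact hc
  have h3 := h1 c hc'
  have h4 := h2 c hc'
  have h5 := h3.unique h4
  rw [hc0] at h5
  exact h5

/-- the frame of the matrices of trace zero -/
private noncomputable def CS4_e (n : ℕ) (p : Fin n × Fin n) : Mt n :=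
  Matrix.single p.1 p.2 (1 : ℝ) - (if p.1 = p.2 then (1 / (n : ℝ)) else 0) • (1 : Mt n)

private theorem CS4_etr {n : ℕ} (p : Fin n × Fin n) : (CS4_e n p).trace = 0 := by
  have hn : (n : ℝ) ≠ 0 := by
    have := p.1.pos
    positivity
  unfold CS4_e
  rw [Matrix.trace_sub, Matrix.trace_smul, Matrix.trace_one, Fintype.card_fin, smul_eq_mul]
  by_cases h : p.1 = p.2
  · rw [if_pos h, h, Matrix.trace_single_eq_same]
    field_simp
    ring
  · rw [if_neg h, Matrix.trace_single_eq_of_ne _ _ _ h]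
    ring

private theorem CS4_ebd {n : ℕ} (p : Fin n × Fin n) : ∀ a b, |CS4_e n p a b| ≤ 1 := by
  intro a b
  have hn : (1 : ℝ) ≤ n := by
    have := p.1.pos
    exact_mod_cast this
  have h1 : (0 : ℝ) ≤ 1 / n := by positivity
  have h2 : (1 : ℝ) / n ≤ 1 := by rw [div_le_one (by positivity)]; exact hn
  have hs : CS4_e n p a b = (if p.1 = a ∧ p.2 = b then (1 : ℝ) else 0) -
      (if p.1 = p.2 then (1 / (n : ℝ)) else 0) * (if a = b then 1 else 0) := by
    unfold CS4_e
    rw [Matrix.sub_apply, Matrix.smul_apply, Matrix.one_apply, Matrix.single_apply]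
    rfl
  rw [hs, abs_le]
  by_cases h3 : p.1 = p.2
  · by_cases h4 : a = b
    · by_cases h5 : p.1 = a ∧ p.2 = b
      · rw [if_pos h3, if_pos h4, if_pos h5]; constructor <;> linarith
      · rw [if_pos h3, if_pos h4, if_neg h5]; constructor <;> linarith
    · rw [if_pos h3, if_neg h4]
      rw [if_neg (by rintro ⟨h6, h7⟩; exact h4 (h6.symm.trans (h3.trans h7)))]
      constructor <;> linarith
  · rw [if_neg h3]
    split_ifs <;> constructor <;> linarith

private theorem CS4_exp {n : ℕ} (x : Mt n) (hx : x.trace = 0) :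
    x = ∑ p : Fin n × Fin n, x p.1 p.2 • CS4_e n p := by
  have h1 : ∑ p : Fin n × Fin n, x p.1 p.2 • CS4_e n p =
      ∑ p : Fin n × Fin n, x p.1 p.2 • Matrix.single p.1 p.2 (1 : ℝ) -
      (∑ p : Fin n × Fin n, x p.1 p.2 * (if p.1 = p.2 then (1 / (n : ℝ)) else 0)) • (1 : Mt n) := by
    unfold CS4_e
    rw [Finset.sum_smul, ← Finset.sum_sub_distrib]
    refine Finset.sum_congr rfl (fun p _ => ?_)
    rw [smul_sub, smul_smul]
  have h2 : ∑ p : Fin n × Fin n, x p.1 p.2 * (if p.1 = p.2 then (1 / (n : ℝ)) else 0) = 0 := by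
    rw [Fintype.sum_prod_type]
    have h3 : ∀ i : Fin n, ∑ j : Fin n, x i j * (if i = j then (1 / (n : ℝ)) else 0) =
        x i i * (1 / (n : ℝ)) := by
      intro i
      simp [mul_ite]
    simp only [h3]
    rw [← Finset.sum_mul]
    have h4 : ∑ i, x i i = 0 := hx
    rw [h4, zero_mul]
  rw [h1, h2, zero_smul, sub_zero, Fintype.sum_prod_type]
  conv_lhs => rw [Matrix.matrix_eq_sum_single x]
  refine Finset.sum_congr rfl (fun i _ => Finset.sum_congr rfl (fun j _ => ?_))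
  rw [Matrix.smul_single, smul_eq_mul, mul_one]

private theorem CS4_lin {n : ℕ} (Fd : Mt n → Fn n)
    (hl : ∀ (x y : Mt n) (r : ℝ), x.trace = 0 → y.trace = 0 → ∀ g, Fd (x + r • y) g = Fd x g + r * Fd y g)
    (g : SL n) {ι : Type} (I : Finset ι) (e : ι → Mt n) (he : ∀ i, (e i).trace = 0) (r : ι → ℝ) :
    (∑ i ∈ I, r i • e i).trace = 0 ∧ Fd (∑ i ∈ I, r i • e i) g = ∑ i ∈ I, r i * Fd (e i) g := by
  classical
  have h0 : Fd 0 g = 0 := by
    have h1 := hl 0 0 1 (Matrix.trace_zero _ _) (Matrix.trace_zero _ _) g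
    rw [smul_zero, add_zero, one_mul] at h1
    linarith
  induction I using Finset.induction_on with
  | empty => exact ⟨by simp, by simp [h0]⟩
  | insert i I hi ih =>
    rw [Finset.sum_insert hi, Finset.sum_insert hi]
    refine ⟨?_, ?_⟩
    · rw [Matrix.trace_add, ih.1, Matrix.trace_smul, he i]; simp
    · rw [add_comm (r i • e i), hl _ _ _ ih.1 (he i), ih.2]
      ring

private theorem CS4_sum {E J : Type} [NormedAddCommGroup E] [NormedSpace ℝ E] [Fintype J]
    (b : Module.Basis J ℝ E) {Ω : Set E} (hΩ : IsOpen Ω) (x : E) (hx : x ∈ Ω) (k : ℕ)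
    {ι : Type} (I : Finset ι) (f : ι → E → ℝ) (M : ι → ℝ) (hf : ∀ i, ContDiffOn ℝ ∞ (f i) Ω)
    (hM : ∀ i, NS38.JB b k (M i) (f i) x) :
    NS38.JB b k (∑ i ∈ I, M i) (fun y => ∑ i ∈ I, f i y) x := by
  classical
  obtain ⟨-, -, h3, -, h5, h6, h7⟩ := NS38.jb_facts b hΩ x hx
  induction I using Finset.induction_on with
  | empty =>
    obtain ⟨B, hB, hB'⟩ := h7 k (fun _ => (0 : ℝ)) contDiffOn_const
    have h8 := h5 k B 0 (fun _ => (0 : ℝ)) contDiffOn_const hB'
    rw [abs_zero, zero_mul] at h8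
    rw [Finset.sum_empty]
    refine h6 k 0 _ _ (fun y _ => ?_) h8
    simp
  | insert i I hi ih =>
    rw [Finset.sum_insert hi]
    refine h6 k _ _ _ (fun y _ => ?_)
      (h3 k (M i) (∑ i ∈ I, M i) (f i) (fun y => ∑ i ∈ I, f i y) (hf i) ?_ (hM i) ih)
    · show f i y + ∑ j ∈ I, f j y = ∑ j ∈ insert i I, f j y
      rw [Finset.sum_insert hi]
    · exact ContDiffOn.sum (fun i _ => hf i)

private theorem CS4_fd {n : ℕ} (F : Fn n) (hF : ∀ j, SG j F) :
    ∃ Fd : Mt n → Fn n, (∀ x : Mt n, x.trace = 0 → RD x F (Fd x)) ∧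
      (∀ x : Mt n, x.trace = 0 → ∀ j, SG j (Fd x)) := by
  classical
  have h1 : ∀ x : Mt n, x.trace = 0 → ∃ F' : Fn n, RD x F F' ∧ ∀ j, SG j F' := by
    intro x hx
    obtain ⟨F0, hF0, -⟩ := (hF 1).2 x hx
    refine ⟨F0, hF0, fun j => ?_⟩
    obtain ⟨Fj, hFj, hFj'⟩ := (hF (j + 1)).2 x hx
    rw [CS4_uniq hx hF0 hFj]
    exact hFj'
  refine ⟨fun x => if h : x.trace = 0 then (h1 x h).choose else 0, fun x hx => ?_, fun x hx => ?_⟩
  · show RD x F (if h : x.trace = 0 then (h1 x h).choose else 0)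
    rw [dif_pos hx]
    exact (h1 x hx).choose_spec.1
  · show ∀ j, SG j (if h : x.trace = 0 then (h1 x h).choose else 0)
    rw [dif_pos hx]
    exact (h1 x hx).choose_spec.2

private noncomputable def CS4_ent {n : ℕ} (a b : Fin n) : Mt n →L[ℝ] ℝ :=
  LinearMap.toContinuousLinearMap
    { toFun := fun A => A a b
      map_add' := fun _ _ => rfl
      map_smul' := fun _ _ => rfl }

private theorem CS4_ent_apply {n : ℕ} (a b : Fin n) (A : Mt n) : CS4_ent a b A = A a b := rfl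

private theorem CS4_coef {n : ℕ} {E : Type} [NormedAddCommGroup E] [NormedSpace ℝ E]
    (U : Set E) (hU : IsOpen U) (s : E → SL n)
    (hs : ContDiffOn ℝ ∞ (fun A => (s A).1) U) (w : E) (p q : Fin n) :
    ContDiffOn ℝ ∞ (fun A => ∑ r, (s A)⁻¹.1 p r * fderiv ℝ (fun B => (s B).1 r q) A w) U := by
  have he : ∀ a b, ContDiffOn ℝ ∞ (fun A => (s A).1 a b) U := by
    intro a b
    exact (CS4_ent a b).contDiff.comp_contDiffOn hs
  have h2 : ∀ r, ContDiffOn ℝ ∞ (fun A => fderiv ℝ (fun B => (s B).1 r q) A w) U := by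
    intro r
    have h1 : ContDiffOn ℝ ∞ (fun A => fderiv ℝ (fun B => (s B).1 r q) A) U :=
      (he r q).fderiv_of_isOpen hU (by simp)
    exact h1.clm_apply contDiffOn_const
  have h3 : ∀ a b, ContDiffOn ℝ ∞ (fun A => (s A)⁻¹.1 a b) U := by
    intro a b
    have h4 : (fun A => (s A)⁻¹.1 a b) = fun A => ((s A).1.updateRow b (Pi.single a 1)).det := by
      funext A
      rw [Matrix.SpecialLinearGroup.coe_inv, Matrix.adjugate_apply]
    rw [h4]
    have h5 : (fun A => ((s A).1.updateRow b (Pi.single a 1)).det) = fun A =>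
        ∑ σ : Equiv.Perm (Fin n), ((Equiv.Perm.sign σ : ℤ) : ℝ) *
          ∏ i, (s A).1.updateRow b (Pi.single a 1) (σ i) i := by
      funext A
      exact Matrix.det_apply' _
    rw [h5]
    refine ContDiffOn.sum (fun σ _ => contDiffOn_const.mul (contDiffOn_prod (fun i _ => ?_)))
    by_cases h6 : σ i = b
    · have h7 : (fun A => (s A).1.updateRow b (Pi.single a 1) (σ i) i) =
          fun _ => (Pi.single a (1 : ℝ) : Fin n → ℝ) i := by
        funext A
        rw [h6, Matrix.updateRow_self]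
      rw [h7]
      exact contDiffOn_const
    · have h7 : (fun A => (s A).1.updateRow b (Pi.single a 1) (σ i) i) =
          fun A => (s A).1 (σ i) i := by
        funext A
        rw [Matrix.updateRow_ne h6]
      rw [h7]
      exact he _ _
  exact ContDiffOn.sum (fun r _ => (h3 p r).mul (h2 r))

private theorem CS4_main {n : ℕ} {E J : Type} [NormedAddCommGroup E] [NormedSpace ℝ E] [Fintype J]
    (b : Module.Basis J ℝ E) (U : Set E)
    (hU : IsOpen U) (A0 : E) (hA : A0 ∈ U) (s : E → SL n)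
    (hs : ContDiffOn ℝ ∞ (fun A => (s A).1) U)
    (hF : ∀ F : Fn n, (∀ j, SG j F) → ContDiffOn ℝ ∞ (fun A => F (s A)) U) (k : ℕ) :
    ∃ C : ℝ, 0 ≤ C ∧ ∀ (F : Fn n) (M : ℝ), 0 ≤ M → (∀ j, SG j F) → BD k M F →
      NS38.JB b k (C * M) (fun A => F (s A)) A0 := by
  obtain ⟨h1, -, -, h4, -, h6, h7⟩ := NS38.jb_facts b hU A0 hA
  set cf : J → Fin n × Fin n → E → ℝ := fun i p A =>
    ∑ r, (s A)⁻¹.1 p.1 r * fderiv ℝ (fun B => (s B).1 r p.2) A (b i) with hcf
  have hcs : ∀ i p, ContDiffOn ℝ ∞ (cf i p) U := fun i p => CS4_coef U hU s hs (b i) p.1 p.2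
  induction k with
  | zero =>
    refine ⟨1, zero_le_one, fun F M _ _ hB => ?_⟩
    show |F (s A0)| ≤ 1 * M
    rw [one_mul]
    exact hB.2 _
  | succ k ih =>
    obtain ⟨C, hC, ihC⟩ := ih
    choose B hB hB' using fun i p => h7 k (cf i p) (hcs i p)
    have hN : ∀ i p, 0 ≤ 2 ^ k * (B i p * C) := fun i p =>
      mul_nonneg (by positivity) (mul_nonneg (hB i p) hC)
    have hNs : ∀ i, 0 ≤ ∑ p, 2 ^ k * (B i p * C) := fun i => Finset.sum_nonneg (fun p _ => hN i p)
    have hNt : 0 ≤ ∑ i, ∑ p, 2 ^ k * (B i p * C) := Finset.sum_nonneg (fun i _ => hNs i)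
    refine ⟨1 + ∑ i, ∑ p, 2 ^ k * (B i p * C), by linarith, fun F M hM hSG hBD => ?_⟩
    obtain ⟨Fd, hFd, hFd'⟩ := CS4_fd F hSG
    obtain ⟨hlin, hfr⟩ := rd_frechet F Fd hFd (fun x hx => hFd' x hx 0)
    have hsm : ∀ p, ContDiffOn ℝ ∞ (fun A => Fd (CS4_e n p) (s A)) U := fun p =>
      hF _ (hFd' _ (CS4_etr p))
    have hbd : ∀ p, BD k M (Fd (CS4_e n p)) := by
      intro p
      obtain ⟨F', hF1, hF2⟩ := hBD.2 (CS4_e n p) (CS4_etr p) (CS4_ebd p)
      rw [CS4_uniq (CS4_etr p) (hFd _ (CS4_etr p)) hF1]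
      exact hF2
    refine ⟨?_, fun i => ?_⟩
    · refine (hBD.1.2 _).trans ?_
      nlinarith [mul_nonneg hNt hM]
    · have hder : ∀ A ∈ U, ∑ p, cf i p A * Fd (CS4_e n p) (s A) =
          fderiv ℝ (fun A => F (s A)) A (b i) := by
        intro A hAU
        obtain ⟨L, hL⟩ : ∃ L : E →L[ℝ] Mt n, HasFDerivAt (fun B => (s B).1) L A :=
          (hs.contDiffAt (hU.mem_nhds hAU)).differentiableAt (by simp)
        obtain ⟨htr, L', hL', hL''⟩ := hfr s A L hL
        have hd1 : fderiv ℝ (fun A => F (s A)) A = L' := hL'.fderiv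
        have hd2 : ∀ r q : Fin n, fderiv ℝ (fun B => (s B).1 r q) A (b i) = L (b i) r q := by
          intro r q
          have h12 : HasFDerivAt (fun B => (s B).1 r q) ((CS4_ent r q).comp L) A :=
            (CS4_ent r q).hasFDerivAt.comp A hL
          rw [h12.fderiv]
          rfl
        have hd3 : ∀ p, cf i p A = ((s A)⁻¹.1 * L (b i)) p.1 p.2 := by
          intro p
          rw [Matrix.mul_apply]
          exact Finset.sum_congr rfl (fun r _ => by rw [hd2])
        rw [hd1, hL'' (b i), CS4_exp _ (htr (b i)),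
          (CS4_lin Fd hlin (s A) Finset.univ (CS4_e n) CS4_etr _).2]
        exact Finset.sum_congr rfl (fun p _ => by rw [hd3])
      have h8 : NS38.JB b k (∑ p, 2 ^ k * (B i p * (C * M)))
          (fun A => ∑ p, cf i p A * Fd (CS4_e n p) (s A)) A0 := by
        refine CS4_sum b hU A0 hA k Finset.univ (fun p A => cf i p A * Fd (CS4_e n p) (s A))
          (fun p => 2 ^ k * (B i p * (C * M))) (fun p => (hcs i p).mul (hsm p)) (fun p => ?_)
        exact h4 k (B i p) (C * M) (cf i p) (fun A => Fd (CS4_e n p) (s A)) (hB i p)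
          (mul_nonneg hC hM) (hcs i p) (hsm p) (hB' i p)
          (ihC (Fd (CS4_e n p)) M hM (hFd' _ (CS4_etr p)) (hbd p))
      have h9 := h6 k _ _ _ hder h8
      refine h1 k _ _ _ ?_ h9
      have h10 : ∑ p, 2 ^ k * (B i p * (C * M)) = (∑ p, 2 ^ k * (B i p * C)) * M := by
        rw [Finset.sum_mul]
        exact Finset.sum_congr rfl (fun p _ => by ring)
      rw [h10]
      refine mul_le_mul_of_nonneg_right ?_ hM
      have h11 : ∑ p, 2 ^ k * (B i p * C) ≤ ∑ i, ∑ p, 2 ^ k * (B i p * C) :=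
        Finset.single_le_sum (f := fun i => ∑ p, 2 ^ k * (B i p * C)) (fun i _ => hNs i)
          (Finset.mem_univ i)
      linarith

/-- Row CS4. Jets of `F ∘ s` by the word derivatives of `F`. PLAN. Induction on `k` for all `F`: near `A0`
`D(F ∘ s)(A) (b i) = ∑ l, c_il(A) * F_l (s A)`, `F_l` the derivative of `F` along `e_l` (a basis of the matrices of
trace zero with entries in `[-1, 1]`), `c_il` smooth near `A0` (coordinates of `(s A)⁻¹ D s(A) (b i)`,
`rd_frechet`); `NS38.jb_facts` (3), (4), (6), (7), `BD (k+1) M F` gives `BD k M F_l` (uniqueness of the derivative);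
`F_l ∘ s` is smooth (`sg_sec`-like; here assumed in the form `hF`, use `rd_frechet` and the uniqueness). -/
theorem bd_jb {n : ℕ} {J : Type} [Fintype J] (b : Module.Basis J ℝ (Mt n)) (U : Set (Mt n))
    (hU : IsOpen U) (A0 : Mt n) (hA : A0 ∈ U) (s : Mt n → SL n)
    (hs : ContDiffOn ℝ ∞ (fun A => (s A).1) U)
    (hF : ∀ F : Fn n, (∀ j, SG j F) → ContDiffOn ℝ ∞ (fun A => F (s A)) U) (k : ℕ) :
    ∃ C : ℝ, 0 ≤ C ∧ ∀ (F : Fn n) (M : ℝ), 0 ≤ M → (∀ j, SG j F) → BD k M F →
      NS38.JB b k (C * M) (fun A => F (s A)) A0 :=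
  CS4_main b U hU A0 hA s hs hF k

end FL27
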