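import Pool.Agent.LibFL27.CS1
import Pool.Agent.LibFL27.CS2
import Pool.Agent.LibFL27.CS3
import Pool.Agent.LibFL27.CS4
import Pool.Agent.LibNS38.P1

set_option autoImplicit false
set_option maxSynthPendingDepth 3

open Matrix MeasureTheory Topology Filter LibNC38
open LibNC27 hiding Mt
open scoped Matrix.Norms.Elementwise ContDiff

namespace FL27

private theorem CR5_mk {n : ℕ} (κ : Mt n → Fm n) (U : Set (Mt n)) (hU : IsOpen U)
    (hm : ∀ p : PD n, p.1 ∈ U) (hs : ∀ v w, ContDiffOn ℝ ∞ (fun p => κ p v w) U) :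
    CmF ∞ (fun p : PD n => κ p.1) :=
  ⟨U, κ, hU, fun p => ⟨hm p, rfl⟩, hs⟩

private noncomputable def CR5_G {n : ℕ} (A : Mt n) : Fm n :=
  LinearMap.mk₂ ℝ (fun v w => (A⁻¹ * v * (A⁻¹ * w)).trace)
    (by intro a b c; rw [Matrix.mul_add, Matrix.add_mul, Matrix.trace_add])
    (by intro r a c; rw [Matrix.mul_smul, Matrix.smul_mul, Matrix.trace_smul])
    (by intro a b c; rw [Matrix.mul_add, Matrix.mul_add, Matrix.trace_add])
    (by intro r a c; rw [Matrix.mul_smul, Matrix.mul_smul, Matrix.trace_smul])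

private theorem CR5_diff {n : ℕ} (h : PD n → Fm n) (hh : CmF ∞ h) :
    CmF ∞ (fun p => h p - gF p) := by
  obtain ⟨U, κ, hU, hκ, hs⟩ := hh
  have hdet : IsOpen {A : Mt n | A.det ≠ 0} :=
    isOpen_ne_fun (Continuous.matrix_det continuous_id) continuous_const
  refine ⟨U ∩ {A : Mt n | A.det ≠ 0}, fun A => κ A - CR5_G A, hU.inter hdet, ?_, ?_⟩
  · intro p
    refine ⟨⟨(hκ p).1, ?_⟩, ?_⟩
    · show p.1.det ≠ 0
      rw [p.2.2]
      exact one_ne_zero
    · show κ p.1 - CR5_G p.1 = h p - gF p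
      rw [(hκ p).2]
      rfl
  · intro v w
    have h1 : ContDiffOn ℝ ∞ (fun A : Mt n => κ A v w) (U ∩ {A : Mt n | A.det ≠ 0}) :=
      (hs v w).mono Set.inter_subset_left
    have h2 : ContDiffOn ℝ ∞ (fun A : Mt n => A⁻¹) (U ∩ {A : Mt n | A.det ≠ 0}) :=
      cd_inv contDiffOn_id (fun A hA => hA.2)
    have h3 : ContDiffOn ℝ ∞ (fun A : Mt n => (A⁻¹ * v * (A⁻¹ * w)).trace)
        (U ∩ {A : Mt n | A.det ≠ 0}) :=
      cd_trace (cd_mul (cd_mul h2 contDiffOn_const) (cd_mul h2 contDiffOn_const))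
    exact h1.sub h3

private theorem CR5_pr {n : ℕ} (v : Mt n) (hv : Sym0 v) : pr0 v = v := by
  show (1 / 2 : ℝ) • (v + vᵀ) - (v.trace / n) • (1 : Mt n) = v
  rw [hv.1, hv.2, zero_div, zero_smul, sub_zero]
  ext i j
  simp only [Matrix.smul_apply, Matrix.add_apply, smul_eq_mul]
  ring

/-- the spanning family -/
private noncomputable def CR5_P {n : ℕ} (i j : Fin n) : Mt n := pr0 (Matrix.single i j (1 : ℝ))

private theorem CR5_exp {n : ℕ} (v : Mt n) (hv : Sym0 v) :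
    v = ∑ i, ∑ j, v i j • CR5_P i j := by
  have h1 : v = ∑ i, ∑ j, v i j • Matrix.single i j (1 : ℝ) := by
    conv_lhs => rw [Matrix.matrix_eq_sum_single v]
    refine Finset.sum_congr rfl fun i _ => Finset.sum_congr rfl fun j _ => ?_
    rw [Matrix.smul_single, smul_eq_mul, mul_one]
  have h2 : pr0 v = ∑ i, ∑ j, v i j • CR5_P i j := by
    conv_lhs => rw [h1]
    simp only [map_sum, map_smul]
    rfl
  rw [← h2]
  exact (CR5_pr v hv).symm

private theorem CR5_sym {n : ℕ} (hn : 1 ≤ n) (v : Mt n) : Sym0 (pr0 v) := by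
  have hn0 : (n : ℝ) ≠ 0 := by
    have : 0 < n := hn
    exact_mod_cast this.ne'
  constructor
  · show ((1 / 2 : ℝ) • (v + vᵀ) - (v.trace / n) • (1 : Mt n))ᵀ =
      (1 / 2 : ℝ) • (v + vᵀ) - (v.trace / n) • (1 : Mt n)
    rw [Matrix.transpose_sub, Matrix.transpose_smul, Matrix.transpose_smul, Matrix.transpose_one,
      Matrix.transpose_add, Matrix.transpose_transpose, add_comm]
  · show ((1 / 2 : ℝ) • (v + vᵀ) - (v.trace / n) • (1 : Mt n)).trace = 0
    rw [Matrix.trace_sub, Matrix.trace_smul, Matrix.trace_smul, Matrix.trace_one, Matrix.trace_add,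
      Matrix.trace_transpose, Fintype.card_fin, smul_eq_mul, smul_eq_mul]
    field_simp
    ring

private theorem CR5_box {n : ℕ} (hn : 1 ≤ n) (i j : Fin n) : Bx (CR5_P i j) := by
  have hn1 : (1 : ℝ) ≤ n := by exact_mod_cast hn
  have hn0 : (0 : ℝ) < n := by linarith
  have hi0 : 0 ≤ 1 / (n : ℝ) := by positivity
  have hi1 : 1 / (n : ℝ) ≤ 1 := by
    rw [div_le_one hn0]
    exact hn1
  intro a b
  show |((1 / 2 : ℝ) • (Matrix.single i j (1 : ℝ) + (Matrix.single i j (1 : ℝ))ᵀ) -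
    ((Matrix.single i j (1 : ℝ)).trace / n) • (1 : Mt n)) a b| ≤ 1
  rw [Matrix.transpose_single]
  simp only [Matrix.sub_apply, Matrix.smul_apply, Matrix.add_apply, smul_eq_mul]
  by_cases hij : i = j
  · subst hij
    rw [Matrix.trace_single_eq_same]
    by_cases hab : a = b
    · subst hab
      rw [Matrix.one_apply_eq]
      by_cases hia : i = a
      · subst hia
        rw [Matrix.single_apply_same, abs_le]
        constructor <;> linarith
      · rw [Matrix.single_apply_of_row_ne hia, abs_le]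
        constructor <;> linarith
    · rw [Matrix.one_apply_ne hab]
      by_cases hia : i = a
      · subst hia
        rw [Matrix.single_apply_of_col_ne _ _ hab, abs_le]
        constructor <;> linarith
      · rw [Matrix.single_apply_of_row_ne hia, abs_le]
        constructor <;> linarith
  · rw [Matrix.trace_single_eq_of_ne _ _ _ hij, zero_div, zero_mul, sub_zero]
    have e1 : 0 ≤ Matrix.single i j (1 : ℝ) a b ∧ Matrix.single i j (1 : ℝ) a b ≤ 1 := by
      rw [Matrix.single_apply]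
      split_ifs
      · exact ⟨zero_le_one, le_rfl⟩
      · exact ⟨le_rfl, zero_le_one⟩
    have e2 : 0 ≤ Matrix.single j i (1 : ℝ) a b ∧ Matrix.single j i (1 : ℝ) a b ≤ 1 := by
      rw [Matrix.single_apply]
      split_ifs
      · exact ⟨zero_le_one, le_rfl⟩
      · exact ⟨le_rfl, zero_le_one⟩
    rw [abs_le]
    constructor <;> linarith [e1.1, e1.2, e2.1, e2.2]

private theorem CR5_zero {E J : Type} [NormedAddCommGroup E] [NormedSpace ℝ E] [Fintype J]
    (b : Module.Basis J ℝ E) (k : ℕ) (x : E) : NS38.JB b k 0 (fun _ => (0 : ℝ)) x := by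
  induction k with
  | zero =>
    show |(0 : ℝ)| ≤ 0
    rw [abs_zero]
  | succ k ih =>
    refine ⟨by rw [abs_zero], fun i => ?_⟩
    have h1 : (fun y : E => fderiv ℝ (fun _ : E => (0 : ℝ)) y (b i)) = fun _ => (0 : ℝ) := by
      funext y
      rw [fderiv_fun_const]
      rfl
    rw [h1]
    exact ih

private theorem CR5_sum {E J : Type} [NormedAddCommGroup E] [NormedSpace ℝ E] [Fintype J]
    (b : Module.Basis J ℝ E) {Ω : Set E} (hΩ : IsOpen Ω) (x : E) (hx : x ∈ Ω) (k : ℕ)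
    {I : Type} (s : Finset I) (M : I → ℝ) (f : I → E → ℝ)
    (hf : ∀ i ∈ s, ContDiffOn ℝ ∞ (f i) Ω) (hM : ∀ i ∈ s, NS38.JB b k (M i) (f i) x) :
    NS38.JB b k (∑ i ∈ s, M i) (fun y => ∑ i ∈ s, f i y) x := by
  classical
  induction s using Finset.induction_on with
  | empty =>
    simp only [Finset.sum_empty]
    exact CR5_zero b k x
  | insert a s ha ih =>
    have h1 := ih (fun i hi => hf i (Finset.mem_insert_of_mem hi))
      (fun i hi => hM i (Finset.mem_insert_of_mem hi))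
    have h2 := hM a (Finset.mem_insert_self a s)
    have h3 : ContDiffOn ℝ ∞ (fun y => ∑ i ∈ s, f i y) Ω :=
      ContDiffOn.sum fun i hi => hf i (Finset.mem_insert_of_mem hi)
    have h4 := (NS38.jb_facts b hΩ x hx).2.2.1 k (M a) (∑ i ∈ s, M i) (f a)
      (fun y => ∑ i ∈ s, f i y) (hf a (Finset.mem_insert_self a s)) h3 h2 h1
    rw [Finset.sum_insert ha]
    simp only [Finset.sum_insert ha]
    exact h4

private theorem CR5_tan {n : ℕ} (g : SL n) (w : Mt n) (hw : IsTan (act g (o n)) w) :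
    Sym0 ((g⁻¹).1 * w * (g⁻¹).1ᵀ) ∧ g.1 * ((g⁻¹).1 * w * (g⁻¹).1ᵀ) * g.1ᵀ = w := by
  have hinv' : g.1 * (g⁻¹ : SL n).1 = 1 := by
    rw [← Matrix.SpecialLinearGroup.coe_mul, mul_inv_cancel, Matrix.SpecialLinearGroup.coe_one]
  have hinvt' : (g⁻¹ : SL n).1ᵀ * g.1ᵀ = 1 := by
    rw [← Matrix.transpose_mul, hinv', Matrix.transpose_one]
  have h1 := (tan_facts (n := n)).2.1 g⁻¹ _ w hw
  have h2 : act g⁻¹ (act g (o n)) = o n := by
    rw [← (act_facts (n := n)).2.1, inv_mul_cancel, (act_facts (n := n)).1]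
  rw [h2] at h1
  refine ⟨⟨h1.1, ?_⟩, ?_⟩
  · have h3 := h1.2
    change ((1 : Mt n)⁻¹ * _).trace = 0 at h3
    rw [inv_one, Matrix.one_mul] at h3
    exact h3
  · calc g.1 * ((g⁻¹ : SL n).1 * w * (g⁻¹ : SL n).1ᵀ) * g.1ᵀ
        = (g.1 * (g⁻¹ : SL n).1) * w * ((g⁻¹ : SL n).1ᵀ * g.1ᵀ) := by
          simp only [Matrix.mul_assoc]
      _ = w := by rw [hinv', hinvt', Matrix.one_mul, Matrix.mul_one]

private theorem CR5_bil {n : ℕ} (κ : PD n → Fm n) (v w : Mt n) (hv : Sym0 v) (hw : Sym0 w)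
    (g : SL n) : Jf κ v w g =
      ∑ x : (Fin n × Fin n) × (Fin n × Fin n),
        (v x.1.1 x.1.2 * w x.2.1 x.2.2) * Jf κ (CR5_P x.1.1 x.1.2) (CR5_P x.2.1 x.2.2) g := by
  have hbil : Jf κ v w g = ∑ i, ∑ j, v i j * ∑ k, ∑ l, w k l * Jf κ (CR5_P i j) (CR5_P k l) g := by
    have e1 : ∀ v' : Mt n, Jf κ v' w g = ∑ k, ∑ l, w k l * Jf κ v' (CR5_P k l) g := by
      intro v'
      unfold Jf
      conv_lhs => rw [CR5_exp w hw]
      simp only [Matrix.mul_sum, Matrix.sum_mul, Matrix.mul_smul, Matrix.smul_mul, map_sum,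
        map_smul, smul_eq_mul]
    have e2 : Jf κ v w g = ∑ i, ∑ j, v i j * Jf κ (CR5_P i j) w g := by
      unfold Jf
      conv_lhs => rw [CR5_exp v hv]
      simp only [Matrix.mul_sum, Matrix.sum_mul, Matrix.mul_smul, Matrix.smul_mul, map_sum,
        map_smul, smul_eq_mul, LinearMap.sum_apply, LinearMap.smul_apply]
    rw [e2]
    refine Finset.sum_congr rfl fun i _ => Finset.sum_congr rfl fun j _ => ?_
    rw [e1]
  rw [hbil, Fintype.sum_prod_type, Fintype.sum_prod_type]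
  refine Finset.sum_congr rfl fun i _ => Finset.sum_congr rfl fun j _ => ?_
  rw [Fintype.sum_prod_type, Finset.mul_sum]
  refine Finset.sum_congr rfl fun k _ => ?_
  rw [Finset.mul_sum]
  refine Finset.sum_congr rfl fun l _ => ?_
  show v i j * (w k l * _) = v i j * w k l * _
  ring

private theorem CR5_one {n : ℕ} (hn : 1 ≤ n) {J : Type} [Fintype J] (b : Module.Basis J ℝ (Mt n))
    (v w : Mt n) :
    ∃ C : ℝ, 0 ≤ C ∧ ∀ (h : PD n → Fm n) (ε : ℝ), 0 ≤ ε → CmF ∞ h →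
      TB 3 ε (fun p => h p - gF p) →
        NS38.JB b 3 (C * ε) (fun A => prodm h A v w - prodm gF A v w) 1 := by
  have hret : ret (1 : Mt n) = o n := ret_self (o n)
  obtain ⟨U, s, hU, h1U, hUP, hs1, hsm, hact⟩ := sec_loc (1 : Mt n) (mem_PU (o n)) (1 : SL n)
    (by rw [hret]; exact (act_facts (n := n)).1 (o n))
  have hF : ∀ F : Fn n, (∀ j, SG j F) → ContDiffOn ℝ ∞ (fun A => F (s A)) U :=
    fun F hF => sg_sec F hF U hU s hsm
  obtain ⟨C0, hC0, hjet⟩ := bd_jb b U hU 1 h1U s hsm hF 3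
  -- the coefficient functions
  have hinv : ContDiffOn ℝ ∞ (fun A => ((s A)⁻¹ : SL n).1) U := by
    have h1 : ContDiffOn ℝ ∞ (fun A => ((s A).1)⁻¹) U := by
      refine cd_inv hsm fun A _ => ?_
      rw [(s A).2]
      exact one_ne_zero
    refine h1.congr fun A _ => ?_
    have h2 : ((s A)⁻¹ : SL n).1 * (s A).1 = 1 := by
      rw [← Matrix.SpecialLinearGroup.coe_mul, inv_mul_cancel, Matrix.SpecialLinearGroup.coe_one]
    exact (Matrix.inv_eq_left_inv h2).symm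
  have hfd : ∀ u : Mt n, ContDiffOn ℝ ∞ (fun A : Mt n => fderiv ℝ (fun B : Mt n => (ret B).1) A u) U := by
    intro u
    have h1 : ContDiffOn ℝ ∞ (fun B : Mt n => ((ret B).1 : Mt n)) (PU n) := ret_smooth
    have h2 := h1.fderiv_of_isOpen (m := ∞) PU_open (by simp)
    exact (h2.clm_apply contDiffOn_const).mono hUP
  let c : Mt n → Mt n → Mt n := fun u A =>
    ((s A)⁻¹ : SL n).1 * fderiv ℝ (fun B : Mt n => (ret B).1) A u * ((s A)⁻¹ : SL n).1ᵀ
  have hc : ∀ u, ContDiffOn ℝ ∞ (c u) U := fun u =>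
    cd_mul (cd_mul hinv (hfd u)) (cd_transpose hinv)
  let q : (Fin n × Fin n) × (Fin n × Fin n) → Mt n → ℝ := fun x A =>
    c v A x.1.1 x.1.2 * c w A x.2.1 x.2.2
  have hq : ∀ x, ContDiffOn ℝ ∞ (q x) U := fun x =>
    (cd_entry (hc v) x.1.1 x.1.2).mul (cd_entry (hc w) x.2.1 x.2.2)
  have hqM : ∀ x, ∃ M, 0 ≤ M ∧ NS38.JB b 3 M (q x) 1 := fun x =>
    (NS38.jb_facts b hU 1 h1U).2.2.2.2.2.2 3 (q x) (hq x)
  choose M hM0 hM using hqM
  refine ⟨∑ x, 2 ^ 3 * (M x * C0), Finset.sum_nonneg fun x _ => ?_, ?_⟩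
  · have := hM0 x
    positivity
  intro h ε hε hh hT
  set κ : PD n → Fm n := fun p => h p - gF p with hκ
  have hκs : CmF ∞ κ := CR5_diff h hh
  have hterm : ∀ x : (Fin n × Fin n) × (Fin n × Fin n),
      ContDiffOn ℝ ∞ (fun A => Jf κ (CR5_P x.1.1 x.1.2) (CR5_P x.2.1 x.2.2) (s A)) U ∧
      NS38.JB b 3 (C0 * ε) (fun A => Jf κ (CR5_P x.1.1 x.1.2) (CR5_P x.2.1 x.2.2) (s A)) 1 := by
    intro x
    have hsg := sg_jf κ hκs (CR5_P x.1.1 x.1.2) (CR5_P x.2.1 x.2.2)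
    refine ⟨hF _ hsg, hjet _ ε hε hsg ?_⟩
    exact hT _ _ (CR5_sym hn _) (CR5_sym hn _) (CR5_box hn _ _) (CR5_box hn _ _)
  have hsum := CR5_sum b hU 1 h1U 3 Finset.univ (fun x => 2 ^ 3 * (M x * (C0 * ε)))
    (fun x A => q x A * Jf κ (CR5_P x.1.1 x.1.2) (CR5_P x.2.1 x.2.2) (s A))
    (fun x _ => (hq x).mul (hterm x).1)
    (fun x _ => (NS38.jb_facts b hU 1 h1U).2.2.2.1 3 (M x) (C0 * ε) (q x) _ (hM0 x)
      (mul_nonneg hC0 hε) (hq x) (hterm x).1 (hM x) (hterm x).2)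
  have hcon : (∑ x, 2 ^ 3 * (M x * C0)) * ε =
      ∑ x : (Fin n × Fin n) × (Fin n × Fin n), 2 ^ 3 * (M x * (C0 * ε)) := by
    rw [Finset.sum_mul]
    refine Finset.sum_congr rfl fun x _ => ?_
    ring
  rw [hcon]
  refine (NS38.jb_facts b hU 1 h1U).2.2.2.2.2.1 3 _ _ _ ?_ hsum
  intro A hA
  have hAP : A ∈ PU n := hUP hA
  have hd : DifferentiableAt ℝ (fun B : Mt n => (ret B).1) A :=
    ((ret_smooth (m := 1)).contDiffAt (PU_open.mem_nhds hAP)).differentiableAt one_ne_zero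
  have htan : ∀ u, IsTan (act (s A) (o n)) (fderiv ℝ (fun B : Mt n => (ret B).1) A u) := by
    intro u
    rw [hact A hA]
    exact tan_fderiv _ A hd u
  have hv1 := CR5_tan (s A) _ (htan v)
  have hw1 := CR5_tan (s A) _ (htan w)
  have e1 := CR5_bil κ (c v A) (c w A) hv1.1 hw1.1 (s A)
  have e2 : Jf κ (c v A) (c w A) (s A) = prodm h A v w - prodm gF A v w := by
    unfold Jf
    show κ (act (s A) (o n)) ((s A).1 * (((s A)⁻¹).1 * _ * ((s A)⁻¹).1ᵀ) * (s A).1ᵀ)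
      ((s A).1 * (((s A)⁻¹).1 * _ * ((s A)⁻¹).1ᵀ) * (s A).1ᵀ) = _
    rw [hv1.2, hw1.2, hact A hA]
    unfold prodm
    rw [hκ]
    simp only [LinearMap.sub_apply]
    ring
  show ∑ x, q x A * Jf κ (CR5_P x.1.1 x.1.2) (CR5_P x.2.1 x.2.2) (s A) = _
  rw [← e2, e1]

/-- Row CR5. Jets at `1` of the product metric of a form close to `g`. PLAN. `s` from `sec_loc` at `A0 = 1`,
`g0 = 1` (`ret 1 = o n`). For `A ∈ U`: `prodm h A v w - prodm gF A v w = (h - gF)(ret A)(D ret v, D ret w)`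
`= Jf (h - gF) (v' A) (w' A) (s A)`, `v' A = (s A)⁻¹ * D ret(A) v * (s A)⁻ᵀ` symmetric of trace zero (`tan_fderiv`,
`IsTan`), smooth in `A`; expand in a basis of the symmetric matrices of trace zero with entries in
`[-1, 1]`; `bd_jb`, `sg_jf`, `sg_sec`, `NS38.jb_facts`. -/
theorem prodm_jb {n : ℕ} (hn : 1 ≤ n) {J : Type} [Fintype J] (b : Module.Basis J ℝ (Mt n)) :
    ∃ C : ℝ, 0 ≤ C ∧ ∀ (h : PD n → Fm n) (ε : ℝ), 0 ≤ ε → CmF ∞ h →
      TB 3 ε (fun p => h p - gF p) → ∀ i j,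
        NS38.JB b 3 (C * ε) (fun A => prodm h A (b i) (b j) - prodm gF A (b i) (b j)) 1 := by
  have h1 : ∀ i j : J, ∃ C : ℝ, 0 ≤ C ∧ ∀ (h : PD n → Fm n) (ε : ℝ), 0 ≤ ε → CmF ∞ h →
      TB 3 ε (fun p => h p - gF p) →
        NS38.JB b 3 (C * ε) (fun A => prodm h A (b i) (b j) - prodm gF A (b i) (b j)) 1 :=
    fun i j => CR5_one hn b (b i) (b j)
  choose C hC0 hC using h1
  refine ⟨∑ i, ∑ j, C i j, Finset.sum_nonneg fun i _ => Finset.sum_nonneg fun j _ => hC0 i j, ?_⟩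
  intro h ε hε hh hT i j
  refine (NS38.jb_facts b PU_open (1 : Mt n) (mem_PU (o n))).1 3 (C i j * ε) _ _ ?_
    (hC i j h ε hε hh hT)
  refine mul_le_mul_of_nonneg_right ?_ hε
  calc C i j ≤ ∑ j', C i j' :=
        Finset.single_le_sum (f := fun j' => C i j') (fun j' _ => hC0 i j') (Finset.mem_univ j)
    _ ≤ ∑ i', ∑ j', C i' j' :=
        Finset.single_le_sum (f := fun i' => ∑ j', C i' j')
          (fun i' _ => Finset.sum_nonneg fun j' _ => hC0 i' j') (Finset.mem_univ i)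

end FL27
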