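import Pool.Agent.LibFL27.CDefs
import Pool.Agent.LibNS38.P4

set_option autoImplicit false
set_option maxSynthPendingDepth 3

open Matrix MeasureTheory Topology Filter LibNC38
open LibNC27 hiding Mt
open scoped Matrix.Norms.Elementwise ContDiff

namespace FL27

/-- translate of a form by `q` -/
noncomputable def trq {n : ℕ} (q : SL n) (h : PD n → Fm n) (p : PD n) : Fm n :=
  LinearMap.mk₂ ℝ (fun v w => h (act q p) (q.1 * v * q.1ᵀ) (q.1 * w * q.1ᵀ))
    (by intro a b c; simp [Matrix.mul_add, Matrix.add_mul])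
    (by intro r a c; simp)
    (by intro a b c; simp [Matrix.mul_add, Matrix.add_mul])
    (by intro r a c; simp)

/-- translation of `PU n = PD n × ℝ × skew matrices` -/
noncomputable def mv {n : ℕ} (q : SL n) (r : ℝ) (k A : Mt n) : Mt n :=
  Real.exp (ell A + r) • (act q (ret A)).1 + (skp A + k)

private theorem CR6_dA {n : ℕ} {f : Mt n → Mt n} (hf : ContDiffOn ℝ ∞ f (PU n)) {A : Mt n}
    (hA : A ∈ PU n) : DifferentiableAt ℝ f A :=
  (hf.differentiableOn (by simp)).differentiableAt (PU_open.mem_nhds hA)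

private theorem CR6_dR {n : ℕ} {f : Mt n → ℝ} (hf : ContDiffOn ℝ ∞ f (PU n)) {A : Mt n}
    (hA : A ∈ PU n) : DifferentiableAt ℝ f A :=
  (hf.differentiableOn (by simp)).differentiableAt (PU_open.mem_nhds hA)

private theorem CR6_chainA {n : ℕ} {F L : Mt n → Mt n} {A : Mt n}
    (hL : DifferentiableAt ℝ L A) (hF : DifferentiableAt ℝ F (L A)) (v : Mt n) :
    fderiv ℝ F (L A) (fderiv ℝ L A v) = fderiv ℝ (fun C => F (L C)) A v := by
  have h := hF.hasFDerivAt.comp A hL.hasFDerivAt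
  have h1 : fderiv ℝ (fun C => F (L C)) A = (fderiv ℝ F (L A)).comp (fderiv ℝ L A) := h.fderiv
  rw [h1]
  rfl

private theorem CR6_chainR {n : ℕ} {F : Mt n → ℝ} {L : Mt n → Mt n} {A : Mt n}
    (hL : DifferentiableAt ℝ L A) (hF : DifferentiableAt ℝ F (L A)) (v : Mt n) :
    fderiv ℝ F (L A) (fderiv ℝ L A v) = fderiv ℝ (fun C => F (L C)) A v := by
  have h := hF.hasFDerivAt.comp A hL.hasFDerivAt
  have h1 : fderiv ℝ (fun C => F (L C)) A = (fderiv ℝ F (L A)).comp (fderiv ℝ L A) := h.fderiv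
  rw [h1]
  rfl

/-- the skew part as a linear map -/
private noncomputable def CR6_S (n : ℕ) : Mt n →ₗ[ℝ] Mt n where
  toFun := fun A => skp A
  map_add' := by
    intro A B
    ext i j
    simp only [skp, Matrix.smul_apply, Matrix.sub_apply, Matrix.add_apply, Matrix.transpose_apply,
      smul_eq_mul]
    ring
  map_smul' := by
    intro r A
    ext i j
    simp only [skp, Matrix.smul_apply, Matrix.sub_apply, Matrix.transpose_apply,
      smul_eq_mul, RingHom.id_apply]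
    ring

private theorem CR6_skp {n : ℕ} (B : Mt n) :
    HasFDerivAt (fun C : Mt n => skp C) (LinearMap.toContinuousLinearMap (CR6_S n)) B :=
  (LinearMap.toContinuousLinearMap (CR6_S n)).hasFDerivAt

/-- the conjugation as a linear map -/
private noncomputable def CR6_C {n : ℕ} (q : Mt n) : Mt n →ₗ[ℝ] Mt n where
  toFun := fun A => q * A * qᵀ
  map_add' := by
    intro A B
    rw [Matrix.mul_add, Matrix.add_mul]
  map_smul' := by
    intro r A
    rw [Matrix.mul_smul, Matrix.smul_mul, RingHom.id_apply]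

private theorem CR6_mem {n : ℕ} (hn : 1 ≤ n) (q : SL n) (r : ℝ) (k : Mt n) (hk : kᵀ = -k)
    (A : Mt n) : mv q r k A ∈ PU n ∧ ret (mv q r k A) = act q (ret A) ∧
      ell (mv q r k A) = ell A + r ∧ skp (mv q r k A) = skp A + k := by
  have hk' : (skp A + k)ᵀ = -(skp A + k) := by
    rw [Matrix.transpose_add, (dec_facts hn).2.2.1, hk, neg_add]
  exact (dec_facts hn).2.1 (act q (ret A)) (ell A + r) (skp A + k) hk'

private theorem CR6_smooth {n : ℕ} (hn : 1 ≤ n) (q : SL n) (r : ℝ) (k : Mt n) :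
    ContDiffOn ℝ ∞ (mv q r k) (PU n) := by
  have h1 : ContDiffOn ℝ ∞ (fun A : Mt n => Real.exp (ell A + r)) (PU n) :=
    ((dec_facts hn).2.2.2.2.1.add contDiffOn_const).exp
  have h2 : ContDiffOn ℝ ∞ (fun A : Mt n => q.1 * (ret A).1 * q.1ᵀ) (PU n) :=
    cd_mul (cd_mul contDiffOn_const ret_smooth) contDiffOn_const
  have h3 : ContDiffOn ℝ ∞ (fun A : Mt n => skp A + k) (PU n) :=
    (dec_facts hn).2.2.2.2.2.add contDiffOn_const
  exact (h1.smul h2).add h3

private theorem CR6_inv {n : ℕ} (hn : 1 ≤ n) (q : SL n) (r : ℝ) (k : Mt n) (hk : kᵀ = -k)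
    (A : Mt n) (hA : A ∈ PU n) : mv q⁻¹ (-r) (-k) (mv q r k A) = A := by
  obtain ⟨-, hr, he, hs⟩ := CR6_mem hn q r k hk A
  show Real.exp (ell (mv q r k A) + -r) • (act q⁻¹ (ret (mv q r k A))).1 +
    (skp (mv q r k A) + -k) = A
  rw [hr, he, hs, ← act_facts.2.1, inv_mul_cancel, act_facts.1, add_neg_cancel_right,
    add_neg_cancel_right]
  exact ((dec_facts hn).1 A hA).symm

private theorem CR6_surj {n : ℕ} (hn : 1 ≤ n) (q : SL n) (r : ℝ) (k : Mt n) (hk : kᵀ = -k) :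
    ∀ A ∈ PU n, Function.Surjective (fderiv ℝ (mv q r k) A) := by
  intro A hA w
  have hk' : (-k)ᵀ = -(-k) := by rw [Matrix.transpose_neg, hk]
  have hB : mv q r k A ∈ PU n := (CR6_mem hn q r k hk A).1
  have hMA : mv q⁻¹ (-r) (-k) (mv q r k A) = A := CR6_inv hn q r k hk A hA
  have hLM : ∀ D ∈ PU n, mv q r k (mv q⁻¹ (-r) (-k) D) = D := by
    intro D hD
    have h3 := CR6_inv hn q⁻¹ (-r) (-k) hk' D hD
    rwa [inv_inv, neg_neg, neg_neg] at h3
  have hL : DifferentiableAt ℝ (mv q r k) (mv q⁻¹ (-r) (-k) (mv q r k A)) := by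
    rw [hMA]
    exact CR6_dA (CR6_smooth hn q r k) hA
  have hM : DifferentiableAt ℝ (mv q⁻¹ (-r) (-k)) (mv q r k A) :=
    CR6_dA (CR6_smooth hn q⁻¹ (-r) (-k)) hB
  have e1 := CR6_chainA (F := mv q r k) (L := mv q⁻¹ (-r) (-k)) (A := mv q r k A) hM hL w
  have e2 : (fun C : Mt n => mv q r k (mv q⁻¹ (-r) (-k) C)) =ᶠ[𝓝 (mv q r k A)]
      fun C : Mt n => C := by
    filter_upwards [PU_open.mem_nhds hB] with C hC
    exact hLM C hC
  rw [e2.fderiv_eq, hMA] at e1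
  refine ⟨fderiv ℝ (mv q⁻¹ (-r) (-k)) (mv q r k A) w, ?_⟩
  rw [e1]
  have e3 : fderiv ℝ (fun C : Mt n => C) (mv q r k A) = ContinuousLinearMap.id ℝ (Mt n) :=
    fderiv_fun_id
  rw [e3]
  rfl

private theorem CR6_pull {n : ℕ} (hn : 1 ≤ n) (q : SL n) (r : ℝ) (k : Mt n) (hk : kᵀ = -k)
    (h : PD n → Fm n) (A : Mt n) (hA : A ∈ PU n) (v w : Mt n) :
    prodm h (mv q r k A) (fderiv ℝ (mv q r k) A v) (fderiv ℝ (mv q r k) A w) =
      prodm (trq q h) A v w := by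
  have hnhds : PU n ∈ 𝓝 A := PU_open.mem_nhds hA
  have hL : DifferentiableAt ℝ (mv q r k) A := CR6_dA (CR6_smooth hn q r k) hA
  obtain ⟨hB, hrB, -, -⟩ := CR6_mem hn q r k hk A
  have hret : ∀ {C : Mt n}, C ∈ PU n → DifferentiableAt ℝ (fun C : Mt n => (ret C).1) C :=
    fun hC => CR6_dA ret_smooth hC
  have hell : ∀ {C : Mt n}, C ∈ PU n → DifferentiableAt ℝ (fun C : Mt n => ell C) C :=
    fun hC => CR6_dR (dec_facts hn).2.2.2.2.1 hC
  have k1 : ∀ u : Mt n, fderiv ℝ (fun C : Mt n => (ret C).1) (mv q r k A)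
      (fderiv ℝ (mv q r k) A u) =
      q.1 * (fderiv ℝ (fun C : Mt n => (ret C).1) A u) * q.1ᵀ := by
    intro u
    have e1 := CR6_chainA (F := fun C : Mt n => (ret C).1) hL (hret hB) u
    rw [e1]
    have e2 : (fun C : Mt n => (ret (mv q r k C)).1) =ᶠ[𝓝 A]
        fun C : Mt n => q.1 * (ret C).1 * q.1ᵀ := by
      filter_upwards [hnhds] with C hC
      rw [(CR6_mem hn q r k hk C).2.1]
      rfl
    rw [e2.fderiv_eq]
    have e3 : HasFDerivAt (fun C : Mt n => q.1 * (ret C).1 * q.1ᵀ)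
        ((LinearMap.toContinuousLinearMap (CR6_C q.1)).comp
          (fderiv ℝ (fun C : Mt n => (ret C).1) A)) A :=
      (LinearMap.toContinuousLinearMap (CR6_C q.1)).hasFDerivAt.comp A (hret hA).hasFDerivAt
    rw [e3.fderiv]
    rfl
  have k2 : ∀ u : Mt n, ((syp (mv q r k A))⁻¹ * syp (fderiv ℝ (mv q r k) A u)).trace =
      ((syp A)⁻¹ * syp u).trace := by
    intro u
    have e1 := CR6_chainR (F := fun C : Mt n => ell C) hL (hell hB) u
    have e2 : (fun C : Mt n => ell (mv q r k C)) =ᶠ[𝓝 A] fun C : Mt n => ell C + r := by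
      filter_upwards [hnhds] with C hC
      rw [(CR6_mem hn q r k hk C).2.2.1]
    rw [e2.fderiv_eq] at e1
    have e4 : HasFDerivAt (fun C : Mt n => ell C + r) (fderiv ℝ (fun C : Mt n => ell C) A) A :=
      (hell hA).hasFDerivAt.add_const r
    rw [e4.fderiv, (proj_deriv A hA u).1, (proj_deriv _ hB _).1] at e1
    have hn' : (n : ℝ) ≠ 0 := by
      have : 0 < n := hn
      exact_mod_cast this.ne'
    exact mul_left_cancel₀ (one_div_ne_zero hn') e1
  have k3 : ∀ u : Mt n, skp (fderiv ℝ (mv q r k) A u) = skp u := by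
    intro u
    have e1 := CR6_chainA (F := fun C : Mt n => skp C) hL (CR6_skp (mv q r k A)).differentiableAt u
    rw [(CR6_skp (mv q r k A)).fderiv] at e1
    have e2 : (fun C : Mt n => skp (mv q r k C)) =ᶠ[𝓝 A] fun C : Mt n => skp C + k := by
      filter_upwards [hnhds] with C hC
      rw [(CR6_mem hn q r k hk C).2.2.2]
    have e4 : HasFDerivAt (fun C : Mt n => skp C + k)
        (LinearMap.toContinuousLinearMap (CR6_S n)) A := (CR6_skp A).add_const k
    rw [e2.fderiv_eq, e4.fderiv] at e1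
    exact e1
  unfold prodm
  rw [k1 v, k1 w, k2 v, k2 w, k3 v, k3 w, hrB]
  rfl

/-- Row CR6. Translations. PLAN. (1)-(3) `dec_facts` (`mv q r k A = exp (ell A + r) • p + k'` with
`p = act q (ret A)`, `k' = skp A + k` skew). (4) `prodm_pull`-like (`LibNS38/P4.lean`, whose proof adapts; or:
`mv q r k = T ∘ lft 1 (act q)`, `T B = exp r • syp B + skp B + k`, with `prodm_pull` for the second and the
formulas `proj_deriv` for `T`): `ret (mv A) = act q (ret A)`, `ell (mv A) = ell A + r`, `skp (mv A) = skp A + k`; chain rule for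
the three projections. Surjective: `mv q⁻¹ (-r) (-k)` is the inverse. (5) `sqrt`: `q` with `act q (o n) = ret y`. -/
theorem mv_facts {n : ℕ} (hn : 1 ≤ n) (q : SL n) (r : ℝ) (k : Mt n) (hk : kᵀ = -k) :
    (∀ A ∈ PU n, mv q r k A ∈ PU n) ∧ ContDiffOn ℝ ∞ (mv q r k) (PU n) ∧
    (∀ A ∈ PU n, Function.Surjective (fderiv ℝ (mv q r k) A)) ∧
    (∀ h : PD n → Fm n, ∀ A ∈ PU n, ∀ v w,
      prodm h (mv q r k A) (fderiv ℝ (mv q r k) A v) (fderiv ℝ (mv q r k) A w) =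
        prodm (trq q h) A v w) := by
  exact ⟨fun A _ => (CR6_mem hn q r k hk A).1, CR6_smooth hn q r k, CR6_surj hn q r k hk,
    fun h A hA v w => CR6_pull hn q r k hk h A hA v w⟩

/-- Row CR6 (second part). Every point of `PU n` is a translate of `1`. -/
theorem mv_point {n : ℕ} (hn : 1 ≤ n) (y : Mt n) (hy : y ∈ PU n) :
    ∃ (q : SL n) (r : ℝ) (k : Mt n), kᵀ = -k ∧ mv q r k 1 = y := by
  obtain ⟨q, -, -, hq⟩ := chol (ret y)
  refine ⟨q, ell y, skp y, (dec_facts hn).2.2.1 y, ?_⟩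
  have h1 : (1 : Mt n) = (o n).1 := rfl
  have h2 := (dec_facts hn).2.2.2.1 (o n)
  show Real.exp (ell 1 + ell y) • (act q (ret 1)).1 + (skp 1 + skp y) = y
  rw [h1, h2.1, h2.2, ret_self, ← hq, zero_add, zero_add]
  exact ((dec_facts hn).1 y hy).symm

private theorem CR6_RD {n : ℕ} (q : SL n) (x : Mt n) (F F' : Fn n) (h : RD x F F') :
    RD x (fun g => F (q * g)) (fun g => F' (q * g)) := by
  intro c hc
  refine h (fun s => q * c s) ?_
  intro a b
  have e1 : (fun s => (q * c s).1 a b) = fun s => ∑ j, q.1 a j * (c s).1 j b := by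
    funext s
    exact Matrix.mul_apply
  have e2 : ((q * c 0).1 * x) a b = ∑ j, q.1 a j * ((c 0).1 * x) j b := by
    have e3 : (q * c 0).1 * x = q.1 * ((c 0).1 * x) := by
      show q.1 * (c 0).1 * x = _
      rw [Matrix.mul_assoc]
    rw [e3]
    exact Matrix.mul_apply
  show HasDerivAt (fun s => (q * c s).1 a b) (((q * c 0).1 * x) a b) 0
  rw [e1, e2]
  exact HasDerivAt.fun_sum fun j _ => (hc j b).const_mul (q.1 a j)

private theorem CR6_BD {n : ℕ} (q : SL n) (k : ℕ) (M : ℝ) (F : Fn n) (h : BD k M F) :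
    BD k M (fun g => F (q * g)) := by
  induction k generalizing F with
  | zero => exact ⟨h.1.comp (continuous_const.mul continuous_id), fun g => h.2 _⟩
  | succ k ih =>
    obtain ⟨⟨h1, h2⟩, h3⟩ := h
    refine ⟨⟨h1.comp (continuous_const.mul continuous_id), fun g => h2 _⟩, ?_⟩
    intro x hx hx1
    obtain ⟨F', hF', hB⟩ := h3 x hx hx1
    exact ⟨fun g => F' (q * g), CR6_RD q x F F' hF', ih F' hB⟩

private theorem CR6_u {n : ℕ} (q : SL n) : IsUnit q.1.det := by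
  rw [q.2]
  exact isUnit_one

private theorem CR6_ut {n : ℕ} (q : SL n) : IsUnit (q.1ᵀ).det := by
  rw [Matrix.det_transpose]
  exact CR6_u q

private theorem CR6_gF {n : ℕ} (q : SL n) (p : PD n) (v w : Mt n) :
    gF (act q p) (q.1 * v * q.1ᵀ) (q.1 * w * q.1ᵀ) = gF p v w := by
  rw [gF_apply, gF_apply]
  have hi : (act q p).1⁻¹ = (q.1ᵀ)⁻¹ * (p.1⁻¹ * q.1⁻¹) := by
    show (q.1 * p.1 * q.1ᵀ)⁻¹ = _
    rw [Matrix.mul_inv_rev, Matrix.mul_inv_rev]
  have hc : ∀ u : Mt n, (act q p).1⁻¹ * (q.1 * u * q.1ᵀ) = (q.1ᵀ)⁻¹ * (p.1⁻¹ * u * q.1ᵀ) := by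
    intro u
    rw [hi]
    have e1 : (q.1ᵀ)⁻¹ * (p.1⁻¹ * q.1⁻¹) * (q.1 * u * q.1ᵀ) =
        (q.1ᵀ)⁻¹ * (p.1⁻¹ * ((q.1⁻¹ * q.1) * u) * q.1ᵀ) := by
      simp only [Matrix.mul_assoc]
    rw [e1, Matrix.nonsing_inv_mul _ (CR6_u q), Matrix.one_mul]
  rw [hc v, hc w]
  have e2 : (q.1ᵀ)⁻¹ * (p.1⁻¹ * v * q.1ᵀ) * ((q.1ᵀ)⁻¹ * (p.1⁻¹ * w * q.1ᵀ)) =
      (q.1ᵀ)⁻¹ * (p.1⁻¹ * v * ((q.1ᵀ * (q.1ᵀ)⁻¹) * (p.1⁻¹ * w * q.1ᵀ))) := by
    simp only [Matrix.mul_assoc]
  rw [e2, Matrix.mul_nonsing_inv _ (CR6_ut q), Matrix.one_mul, Matrix.trace_mul_comm]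
  have e3 : p.1⁻¹ * v * (p.1⁻¹ * w * q.1ᵀ) * (q.1ᵀ)⁻¹ =
      p.1⁻¹ * v * (p.1⁻¹ * w * (q.1ᵀ * (q.1ᵀ)⁻¹)) := by
    simp only [Matrix.mul_assoc]
  rw [e3, Matrix.mul_nonsing_inv _ (CR6_ut q), Matrix.mul_one]

private theorem CR6_ne {n : ℕ} (q : SL n) (v : Mt n) (hv : v ≠ 0) : q.1 * v * q.1ᵀ ≠ 0 := by
  intro h
  apply hv
  have e1 : q.1⁻¹ * (q.1 * v * q.1ᵀ) * (q.1ᵀ)⁻¹ = v := by
    have e2 : q.1⁻¹ * (q.1 * v * q.1ᵀ) * (q.1ᵀ)⁻¹ = (q.1⁻¹ * q.1) * v * (q.1ᵀ * (q.1ᵀ)⁻¹) := by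
      simp only [Matrix.mul_assoc]
    rw [e2, Matrix.nonsing_inv_mul _ (CR6_u q), Matrix.mul_nonsing_inv _ (CR6_ut q),
      Matrix.one_mul, Matrix.mul_one]
  rw [← e1, h, Matrix.mul_zero, Matrix.zero_mul]

private theorem CR6_cc {n : ℕ} (q : SL n) {S : Set (Mt n)} :
    ContDiffOn ℝ ∞ (fun A : Mt n => q.1 * A * q.1ᵀ) S :=
  cd_mul (cd_mul contDiffOn_const contDiffOn_id) contDiffOn_const

/-- Row CR6 (third part). Translates of forms. PLAN. `Jf (trq q h) v w g = Jf h v w (q * g)`; `RD`, `BD` are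
invariant under left translations of the functions (`c ↦ q * c`), `trq q gF = gF` on symmetric matrices. -/
theorem trq_facts {n : ℕ} (q : SL n) (h : PD n → Fm n) :
    (MetX h → MetX (trq q h)) ∧ (CmF ∞ h → CmF ∞ (trq q h)) ∧
    (∀ (k : ℕ) (ε : ℝ), TB k ε (fun p => h p - gF p) → TB k ε (fun p => trq q h p - gF p)) := by
  refine ⟨?_, ?_, ?_⟩
  · intro hh
    refine ⟨?_, ?_, ?_⟩
    · intro v w
      have h2 : ContDiffOn ℝ ∞ (fun A : Mt n => q.1 * (ret A).1 * q.1ᵀ) (PU n) :=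
        cd_mul (cd_mul contDiffOn_const ret_smooth) contDiffOn_const
      have h3 : Set.MapsTo (fun A : Mt n => q.1 * (ret A).1 * q.1ᵀ) (PU n) (PU n) :=
        fun A _ => mem_PU (act q (ret A))
      have h4 := (hh.smooth (q.1 * v * q.1ᵀ) (q.1 * w * q.1ᵀ)).comp h2 h3
      refine h4.congr ?_
      intro A _
      show h (act q (ret A)) _ _ = h (ret (act q (ret A)).1) _ _
      rw [ret_self]
    · intro p v w
      exact hh.symm (act q p) _ _
    · intro p v hv hv0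
      exact hh.pos (act q p) _ (tan_facts.2.1 q p v hv) (CR6_ne q v hv0)
  · rintro ⟨U, κ', hU, hκ, hs⟩
    have hcc : Continuous fun A : Mt n => q.1 * A * q.1ᵀ := by
      rw [← continuousOn_univ]
      exact (CR6_cc q (S := Set.univ)).continuousOn
    refine ⟨(fun A : Mt n => q.1 * A * q.1ᵀ) ⁻¹' U, fun A => LinearMap.mk₂ ℝ
      (fun v w => κ' (q.1 * A * q.1ᵀ) (q.1 * v * q.1ᵀ) (q.1 * w * q.1ᵀ))
      (by intro a b c; simp [Matrix.mul_add, Matrix.add_mul])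
      (by intro r a c; simp)
      (by intro a b c; simp [Matrix.mul_add, Matrix.add_mul])
      (by intro r a c; simp), hU.preimage hcc, ?_, ?_⟩
    · intro p
      refine ⟨(hκ (act q p)).1, ?_⟩
      refine LinearMap.ext₂ fun v w => ?_
      show κ' (act q p).1 _ _ = h (act q p) _ _
      rw [(hκ (act q p)).2]
    · intro v w
      exact (hs (q.1 * v * q.1ᵀ) (q.1 * w * q.1ᵀ)).comp (CR6_cc q) fun A hA => hA
  · intro k ε hT v w hv hw hv1 hw1
    have h1 := CR6_BD q k ε _ (hT v w hv hw hv1 hw1)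
    have e : Jf (fun p => trq q h p - gF p) v w =
        fun g => Jf (fun p => h p - gF p) v w (q * g) := by
      funext g
      have e0 : act (q * g) (o n) = act q (act g (o n)) := act_facts.2.1 q g (o n)
      have e1 : ∀ u : Mt n, (q * g).1 * u * (q * g).1ᵀ = q.1 * (g.1 * u * g.1ᵀ) * q.1ᵀ := by
        intro u
        have e2 : (q * g).1 = q.1 * g.1 := rfl
        rw [e2, Matrix.transpose_mul]
        simp only [Matrix.mul_assoc]
      show h (act q (act g (o n))) (q.1 * (g.1 * v * g.1ᵀ) * q.1ᵀ)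
          (q.1 * (g.1 * w * g.1ᵀ) * q.1ᵀ) -
          gF (act g (o n)) (g.1 * v * g.1ᵀ) (g.1 * w * g.1ᵀ) =
        h (act (q * g) (o n)) ((q * g).1 * v * (q * g).1ᵀ) ((q * g).1 * w * (q * g).1ᵀ) -
          gF (act (q * g) (o n)) ((q * g).1 * v * (q * g).1ᵀ) ((q * g).1 * w * (q * g).1ᵀ)
      rw [e0, e1, e1, CR6_gF q (act g (o n)) (g.1 * v * g.1ᵀ) (g.1 * w * g.1ᵀ)]
    rw [e]
    exact h1

end FL27
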