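import Pool.Agent.LibFL27.CR4
import Pool.Agent.LibFL27.CR5
import Pool.Agent.LibFL27.CR6
import Pool.Agent.LibNS38.P1
import Pool.Agent.LibNS38.P2
import Pool.Agent.LibNS38.P3

set_option autoImplicit false
set_option maxSynthPendingDepth 3

open Matrix MeasureTheory Topology Filter LibNC38
open LibNC27 hiding Mt
open scoped Matrix.Norms.Elementwise ContDiff

namespace FL27

/-- the derivative of the curvature of the product metric of `h` is at most `ρ` (squares, in the norm of the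
metric itself) -/
def DR {n : ℕ} (ρ : ℝ) (h : PD n → Fm n) : Prop := NS38.DRn (prodm h) (PU n) ρ

private theorem CR7_one {n : ℕ} : (1 : Mt n) ∈ PU n := by
  have h1 : (1 / 2 : ℝ) • ((1 : Mt n) + (1 : Mt n)ᵀ) = (1 : Mt n) := by
    rw [Matrix.transpose_one, ← two_smul ℝ (1 : Mt n), smul_smul]
    norm_num
  show ((1 / 2 : ℝ) • ((1 : Mt n) + (1 : Mt n)ᵀ)).PosDef
  rw [h1]
  exact Matrix.PosDef.one

private theorem CR7_exp {E J : Type} [AddCommGroup E] [Module ℝ E] [Fintype J]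
    (b : Module.Basis J ℝ E) (B : E → E → ℝ) (hadd : ∀ u v w, B (u + v) w = B u w + B v w)
    (hsm : ∀ (r : ℝ) (v w : E), B (r • v) w = r * B v w) (hsy : ∀ v w, B v w = B w v) (v w : E) :
    B v w = ∑ i, ∑ j, b.repr v i * b.repr w j * B (b i) (b j) := by
  let L : E →ₗ[ℝ] E →ₗ[ℝ] ℝ := LinearMap.mk₂ ℝ B hadd (fun r v w => hsm r v w)
    (fun u v w => by rw [hsy, hadd, hsy v u, hsy w u])
    (fun r v w => by rw [hsy, hsm, hsy w v]; rfl)
  have hL : ∀ v w, L v w = B v w := fun v w => rfl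
  have e1 : ∀ v w, L v w = ∑ j, b.repr w j * L v (b j) := by
    intro v w
    conv_lhs => rw [← b.sum_repr w]
    rw [map_sum]
    refine Finset.sum_congr rfl fun j _ => ?_
    rw [map_smul, smul_eq_mul]
  rw [hsy, ← hL, e1]
  refine Finset.sum_congr rfl fun i _ => ?_
  rw [hL, hsy, ← hL, e1, Finset.mul_sum]
  refine Finset.sum_congr rfl fun j _ => ?_
  rw [hL]
  ring

private theorem CR7_comp {E J : Type} [NormedAddCommGroup E] [NormedSpace ℝ E]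
    [FiniteDimensional ℝ E] [Fintype J] (b : Module.Basis J ℝ E) (B0 : E → E → ℝ)
    (hadd : ∀ u v w, B0 (u + v) w = B0 u w + B0 v w)
    (hsm : ∀ (r : ℝ) (v w : E), B0 (r • v) w = r * B0 v w) (hsy : ∀ v w, B0 v w = B0 w v)
    (hpos : ∀ v, v ≠ 0 → 0 < B0 v v) :
    ∃ c δ K : ℝ, 0 < c ∧ 0 < δ ∧ 0 ≤ K ∧ ∀ B : E → E → ℝ,
      (∀ u v w, B (u + v) w = B u w + B v w) → (∀ (r : ℝ) (v w : E), B (r • v) w = r * B v w) →
      (∀ v w, B v w = B w v) → (∀ i j, |B (b i) (b j) - B0 (b i) (b j)| ≤ δ) →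
      ∀ v, c * ‖v‖ ^ 2 ≤ B v v ∧ B v v ≤ K * ‖v‖ ^ 2 := by
  classical
  -- coordinates
  obtain ⟨a, ha, hab⟩ : ∃ a : ℝ, 0 ≤ a ∧ ∀ v i, |b.repr v i| ≤ a * ‖v‖ := by
    refine ⟨∑ i, ‖LinearMap.toContinuousLinearMap (b.coord i)‖,
      Finset.sum_nonneg fun i _ => norm_nonneg _, fun v i => ?_⟩
    have h1 := (LinearMap.toContinuousLinearMap (b.coord i)).le_opNorm v
    have h2 : ‖LinearMap.toContinuousLinearMap (b.coord i)‖ ≤
        ∑ i, ‖LinearMap.toContinuousLinearMap (b.coord i)‖ :=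
      Finset.single_le_sum (f := fun i => ‖LinearMap.toContinuousLinearMap (b.coord i)‖)
        (fun i _ => norm_nonneg _) (Finset.mem_univ i)
    have h3 : LinearMap.toContinuousLinearMap (b.coord i) v = b.repr v i := rfl
    rw [h3, Real.norm_eq_abs] at h1
    exact h1.trans (mul_le_mul_of_nonneg_right h2 (norm_nonneg _))
  -- lower bound of B0
  have hcont : Continuous fun v => B0 v v := by
    have h1 : (fun v => B0 v v) = fun v => ∑ i, ∑ j, b.repr v i * b.repr v j * B0 (b i) (b j) :=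
      funext fun v => CR7_exp b B0 hadd hsm hsy v v
    rw [h1]
    have h2 : ∀ i, Continuous fun v => b.repr v i := fun i =>
      (LinearMap.toContinuousLinearMap (b.coord i)).continuous
    exact continuous_finsetSum _ fun i _ => continuous_finsetSum _ fun j _ =>
      ((h2 i).mul (h2 j)).mul continuous_const
  have hscale : ∀ (r : ℝ) v, B0 (r • v) (r • v) = r ^ 2 * B0 v v := by
    intro r v
    rw [hsm, hsy, hsm]
    ring
  obtain ⟨c0, hc0, hlow⟩ : ∃ c0 : ℝ, 0 < c0 ∧ ∀ v, c0 * ‖v‖ ^ 2 ≤ B0 v v := by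
    have h0 : B0 0 0 = 0 := by
      have := hscale 0 0
      simpa using this
    rcases (Metric.sphere (0 : E) 1).eq_empty_or_nonempty with he | hne
    · refine ⟨1, one_pos, fun v => ?_⟩
      have hv : v = 0 := by
        by_contra hv
        have h1 : (‖v‖⁻¹ : ℝ) • v ∈ Metric.sphere (0 : E) 1 := by
          rw [mem_sphere_zero_iff_norm, norm_smul, norm_inv, norm_norm,
            inv_mul_cancel₀ (norm_ne_zero_iff.2 hv)]
        rw [he] at h1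
        exact h1
      rw [hv, h0]
      simp
    · obtain ⟨v0, hv0, hmin⟩ := (isCompact_sphere (0 : E) 1).exists_isMinOn hne hcont.continuousOn
      have hv0' : v0 ≠ 0 := by
        rintro rfl
        rw [mem_sphere_zero_iff_norm, norm_zero] at hv0
        exact zero_ne_one hv0
      refine ⟨B0 v0 v0, hpos v0 hv0', fun v => ?_⟩
      rcases eq_or_ne v 0 with rfl | hv
      · rw [h0]
        simp
      · have hnv : 0 < ‖v‖ := norm_pos_iff.2 hv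
        have h1 : (‖v‖⁻¹ : ℝ) • v ∈ Metric.sphere (0 : E) 1 := by
          rw [mem_sphere_zero_iff_norm, norm_smul, norm_inv, norm_norm,
            inv_mul_cancel₀ hnv.ne']
        have h2 : B0 v0 v0 ≤ B0 ((‖v‖⁻¹ : ℝ) • v) ((‖v‖⁻¹ : ℝ) • v) := hmin h1
        rw [hscale] at h2
        have h3 := mul_le_mul_of_nonneg_right h2 (sq_nonneg ‖v‖)
        have h4 : (‖v‖⁻¹ : ℝ) ^ 2 * B0 v v * ‖v‖ ^ 2 = B0 v v := by
          field_simp
        rw [h4] at h3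
        exact h3
  set m : ℝ := (Fintype.card J : ℝ) with hm
  have hm0 : 0 ≤ m := Nat.cast_nonneg _
  set P : ℝ := m ^ 2 * a ^ 2 with hP
  have hP0 : 0 ≤ P := by positivity
  -- expansion bound
  have hbd : ∀ (A : E → E → ℝ) (κ : ℝ), 0 ≤ κ →
      (∀ v, A v v = ∑ i, ∑ j, b.repr v i * b.repr v j * A (b i) (b j)) →
      (∀ i j, |A (b i) (b j)| ≤ κ) → ∀ v, |A v v| ≤ P * κ * ‖v‖ ^ 2 := by
    intro A κ hκ hA hAκ v
    rw [hA v]
    have h1 : ∀ i j, |b.repr v i * b.repr v j * A (b i) (b j)| ≤ a ^ 2 * κ * ‖v‖ ^ 2 := by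
      intro i j
      rw [abs_mul, abs_mul]
      have h2 : |b.repr v i| * |b.repr v j| ≤ (a * ‖v‖) * (a * ‖v‖) :=
        mul_le_mul (hab v i) (hab v j) (abs_nonneg _) (by positivity)
      calc |b.repr v i| * |b.repr v j| * |A (b i) (b j)| ≤ ((a * ‖v‖) * (a * ‖v‖)) * κ :=
            mul_le_mul h2 (hAκ i j) (abs_nonneg _) (by positivity)
        _ = a ^ 2 * κ * ‖v‖ ^ 2 := by ring
    calc |∑ i, ∑ j, b.repr v i * b.repr v j * A (b i) (b j)|
        ≤ ∑ i : J, ∑ j : J, (a ^ 2 * κ * ‖v‖ ^ 2) := by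
          refine (Finset.abs_sum_le_sum_abs _ _).trans (Finset.sum_le_sum fun i _ => ?_)
          exact (Finset.abs_sum_le_sum_abs _ _).trans (Finset.sum_le_sum fun j _ => h1 i j)
      _ = P * κ * ‖v‖ ^ 2 := by
          simp only [Finset.sum_const, Finset.card_univ, nsmul_eq_mul]
          rw [hP, hm]
          ring
  -- upper bound of B0
  obtain ⟨κ0, hκ0, hκb⟩ : ∃ κ0 : ℝ, 0 ≤ κ0 ∧ ∀ i j, |B0 (b i) (b j)| ≤ κ0 := by
    refine ⟨∑ i, ∑ j, |B0 (b i) (b j)|, Finset.sum_nonneg fun i _ => Finset.sum_nonneg fun j _ =>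
      abs_nonneg _, fun i j => ?_⟩
    have h1 : |B0 (b i) (b j)| ≤ ∑ j, |B0 (b i) (b j)| :=
      Finset.single_le_sum (f := fun j => |B0 (b i) (b j)|) (fun j _ => abs_nonneg _)
        (Finset.mem_univ j)
    exact h1.trans (Finset.single_le_sum (f := fun i => ∑ j, |B0 (b i) (b j)|)
      (fun i _ => Finset.sum_nonneg fun j _ => abs_nonneg _) (Finset.mem_univ i))
  have hup0 := hbd B0 κ0 hκ0 (fun v => CR7_exp b B0 hadd hsm hsy v v) hκb
  have hδ : 0 < c0 / (2 * (P + 1)) := by positivity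
  refine ⟨c0 / 2, c0 / (2 * (P + 1)), P * κ0 + c0 / 2, by positivity, hδ, by positivity, ?_⟩
  intro B badd bsm bsy hB v
  have hdiff := hbd (fun v w => B v w - B0 v w) (c0 / (2 * (P + 1))) hδ.le (fun v => by
    show B v v - B0 v v = ∑ i, ∑ j, b.repr v i * b.repr v j * (B (b i) (b j) - B0 (b i) (b j))
    rw [CR7_exp b B badd bsm bsy v v, CR7_exp b B0 hadd hsm hsy v v, ← Finset.sum_sub_distrib]
    refine Finset.sum_congr rfl fun i _ => ?_
    rw [← Finset.sum_sub_distrib]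
    refine Finset.sum_congr rfl fun j _ => ?_
    ring) hB v
  have hPd : P * (c0 / (2 * (P + 1))) ≤ c0 / 2 := by
    rw [mul_div_assoc', div_le_div_iff₀ (by positivity) (by positivity)]
    nlinarith
  have h1 : |B v v - B0 v v| ≤ c0 / 2 * ‖v‖ ^ 2 :=
    hdiff.trans (mul_le_mul_of_nonneg_right hPd (sq_nonneg _))
  have h2 := abs_le.1 h1
  have h3 := hlow v
  have h4 := (abs_le.1 (hup0 v)).2
  constructor
  · linarith [h2.1]
  · linarith [h2.2]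

private theorem CR7_gen {E : Type} [NormedAddCommGroup E] [NormedSpace ℝ E]
    [FiniteDimensional ℝ E] {G G' : E → E → E → ℝ} {Ω : Set E} (hΩ : IsOpen Ω)
    (hG : NS38.Met G Ω) (hG' : NS38.Met G' Ω) (φ : E → E) (hφ : ContDiffOn ℝ ∞ φ Ω)
    (hm : ∀ x ∈ Ω, φ x ∈ Ω) (hsur : ∀ x ∈ Ω, Function.Surjective (fderiv ℝ φ x))
    (hp : ∀ x ∈ Ω, ∀ v w, G (φ x) (fderiv ℝ φ x v) (fderiv ℝ φ x w) = G' x v w)
    (a : E) (ha : a ∈ Ω) (c K N : ℝ) (hc : 0 < c) (hK : 0 ≤ K)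
    (hd : ∀ C' : E → E →L[ℝ] E →L[ℝ] E, ContDiffOn ℝ ∞ C' Ω → NS38.Kos G' C' Ω → ∀ z u v w,
      ‖NS38.dcurv C' a z u v w‖ ≤ N * (‖z‖ * ‖u‖ * ‖v‖ * ‖w‖))
    (hcm : ∀ v, c * ‖v‖ ^ 2 ≤ G' a v v ∧ G' a v v ≤ K * ‖v‖ ^ 2)
    (Cc : E → E →L[ℝ] E →L[ℝ] E) (hCc : ContDiffOn ℝ ∞ Cc Ω) (hKc : NS38.Kos G Cc Ω)
    (y : E) (hy : φ a = y) (z u v w : E) :
    G y (NS38.dcurv Cc y z u v w) (NS38.dcurv Cc y z u v w) ≤
      K * N ^ 2 / c ^ 4 * (G y z z * G y u u * G y v v * G y w w) := by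
  obtain ⟨C', hC'1, hC'2⟩ := (NS38.kos_facts hΩ).2.2.2.1 G' hG'
  have hnat := NS38.nat_dcurv hΩ hΩ hG hG' φ hφ hm hsur 1 one_pos
    (fun x hx v w => by rw [hp x hx v w, one_mul]) Cc C' hCc hC'1 hKc hC'2 a ha
  obtain ⟨z', rfl⟩ := hsur a ha z
  obtain ⟨u', rfl⟩ := hsur a ha u
  obtain ⟨v', rfl⟩ := hsur a ha v
  obtain ⟨w', rfl⟩ := hsur a ha w
  subst hy
  rw [← hnat z' u' v' w']
  have hpl := hp a ha
  rw [hpl, hpl, hpl, hpl, hpl]
  have hd' := hd C' hC'1 hC'2 z' u' v' w'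
  set d := NS38.dcurv C' a z' u' v' w' with hdd
  have hzn := (hcm z').1
  have hun := (hcm u').1
  have hvn := (hcm v').1
  have hwn := (hcm w').1
  have h1 : ‖d‖ ^ 2 ≤ (N * (‖z'‖ * ‖u'‖ * ‖v'‖ * ‖w'‖)) ^ 2 :=
    pow_le_pow_left₀ (norm_nonneg _) hd' 2
  have h2 : G' a d d ≤ K * (N * (‖z'‖ * ‖u'‖ * ‖v'‖ * ‖w'‖)) ^ 2 :=
    (hcm d).2.trans (mul_le_mul_of_nonneg_left h1 hK)
  have h3 : (c * ‖z'‖ ^ 2) * (c * ‖u'‖ ^ 2) * (c * ‖v'‖ ^ 2) * (c * ‖w'‖ ^ 2) ≤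
      G' a z' z' * G' a u' u' * G' a v' v' * G' a w' w' := by
    have hz0 : 0 ≤ c * ‖z'‖ ^ 2 := by positivity
    have hu0 : 0 ≤ c * ‖u'‖ ^ 2 := by positivity
    have hv0 : 0 ≤ c * ‖v'‖ ^ 2 := by positivity
    have hw0 : 0 ≤ c * ‖w'‖ ^ 2 := by positivity
    have a1 := mul_le_mul hzn hun hu0 (hz0.trans hzn)
    have a2 := mul_le_mul a1 hvn hv0 (mul_nonneg (hz0.trans hzn) (hu0.trans hun))
    exact mul_le_mul a2 hwn hw0 (mul_nonneg (mul_nonneg (hz0.trans hzn) (hu0.trans hun))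
      (hv0.trans hvn))
  have h4 : K * (N * (‖z'‖ * ‖u'‖ * ‖v'‖ * ‖w'‖)) ^ 2 = K * N ^ 2 / c ^ 4 *
        ((c * ‖z'‖ ^ 2) * (c * ‖u'‖ ^ 2) * (c * ‖v'‖ ^ 2) * (c * ‖w'‖ ^ 2)) := by
    field_simp
  rw [h4] at h2
  exact h2.trans (mul_le_mul_of_nonneg_left h3 (by positivity))

/-- Row CR7 (assembly). Metrics close to `g` to order `3` have small `DR`. PLAN. `b` a basis of `Mt n`,
`NS38.jet_small` for `G0 = prodm gF`, `x = 1` (`met_prodm`, `lsym_gF`), `prodm_jb`. Given `y ∈ PU n`: `mv_point`,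
`h' = trq q h` (`trq_facts`), `NS38.nat_dcurv` with `φ = mv q r k`, `G = prodm h`, `G' = prodm h'`, `c = 1`, at the point `1`
(`C'` from `NS38.kos_facts` (4)); `‖dcurv C' 1 z' ..‖ ≤ M ε ..`, and `prodm h' 1` is comparable with `‖.‖²`
(`prodm gF 1` positive definite, `prodm_jb` of order `0`, `ε` small). -/
theorem tb_dr {n : ℕ} (hn : 3 ≤ n) : ∃ C ε0 : ℝ, 0 ≤ C ∧ 0 < ε0 ∧ ∀ (h : PD n → Fm n) (ε : ℝ),
    MetX h → CmF ∞ h → 0 ≤ ε → ε ≤ ε0 → TB 3 ε (fun p => h p - gF p) → DR (C * ε ^ 2) h := by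
  have hn1 : 1 ≤ n := by omega
  have hG0 : NS38.Met (prodm (gF : PD n → Fm n)) (PU n) := met_prodm hn1 gF (prodm_gF hn1).1
  let b := Module.finBasis ℝ (Mt n)
  obtain ⟨M, e1, hM, he1, hJ⟩ := NS38.jet_small b PU_open 1 CR7_one (prodm gF) hG0 (lsym_gF hn1)
  obtain ⟨C1, hC1, hP⟩ := prodm_jb hn1 b
  obtain ⟨c, δ, K, hc, hδ, hK, hcmp⟩ := CR7_comp b (prodm gF 1)
    (fun u v w => hG0.bil.add 1 CR7_one u v w) (fun r v w => hG0.bil.smul 1 CR7_one r v w)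
    (fun v w => hG0.bil.symm 1 CR7_one v w) (fun v hv => hG0.pos 1 CR7_one v hv)
  have hD : 0 < C1 + 1 := by positivity
  refine ⟨K * M ^ 2 * C1 ^ 2 / c ^ 4, min (e1 / (C1 + 1)) (δ / (C1 + 1)), by positivity,
    lt_min (by positivity) (by positivity), ?_⟩
  intro h ε hX hS hε0 hε hTB
  have hε1 : C1 * ε ≤ e1 := by
    have h1 := (le_div_iff₀ hD).1 (hε.trans (min_le_left _ _))
    nlinarith
  have hε2 : C1 * ε ≤ δ := by
    have h1 := (le_div_iff₀ hD).1 (hε.trans (min_le_right _ _))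
    nlinarith
  intro Cc hCc hKc y hy z u v w
  obtain ⟨q, r, k, hk, hq⟩ := mv_point hn1 y hy
  obtain ⟨hmap, hsm, hsur, hpull⟩ := mv_facts hn1 q r k hk
  obtain ⟨t1, t2, t3⟩ := trq_facts q h
  have hG : NS38.Met (prodm h) (PU n) := met_prodm hn1 h hX
  have hG' : NS38.Met (prodm (trq q h)) (PU n) := met_prodm hn1 _ (t1 hX)
  have hjb := hP (trq q h) ε hε0 (t2 hS) (t3 3 ε hTB)
  have hj0 : ∀ i j, |prodm (trq q h) 1 (b i) (b j) - prodm gF 1 (b i) (b j)| ≤ δ := by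
    intro i j
    exact ((hjb i j).1).trans hε2
  have hcm := hcmp (prodm (trq q h) 1) (fun u v w => hG'.bil.add 1 CR7_one u v w)
    (fun r v w => hG'.bil.smul 1 CR7_one r v w) (fun v w => hG'.bil.symm 1 CR7_one v w) hj0
  have hd := hJ (prodm (trq q h)) (C1 * ε) hG' (by positivity) hε1 hjb
  have hfin := CR7_gen PU_open hG hG' (mv q r k) hsm hmap hsur (hpull h) 1 CR7_one c K
    (M * (C1 * ε)) hc hK hd hcm Cc hCc hKc y hq z u v w
  have he : K * M ^ 2 * C1 ^ 2 / c ^ 4 * ε ^ 2 = K * (M * (C1 * ε)) ^ 2 / c ^ 4 := by ring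
  rw [he]
  exact hfin

end FL27
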