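import Pool.Agent.LibFL27.CR7
import Pool.Agent.LibNS38.P4
import Pool.Agent.LibNS38.P6
import Pool.Agent.LibNS38.B8

set_option autoImplicit false
set_option maxSynthPendingDepth 3

open Matrix MeasureTheory Topology Filter LibNC38
open LibNC27 hiding Mt
open scoped Matrix.Norms.Elementwise ContDiff

namespace FL27

/-- Row CR8. Naturality of `DR`. PLAN. `φ' = lft a φ`, `a = √c`, `G = prodm h`, `G' = prodm m`:
`prodm_pull` (`a ^ 2 = c`), `NS38.nat_dcurv`, `lft_surj` (as in `LibNS38/P5.lean`, `P6.lean`); every `x ∈ PU n` is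
`lft a φ y` (`lft_facts` (2), the inverse of `φ`). `G(φ' y)(Dφ' X, Dφ' X) = c G'(y)(X, X)`, so
`G(dcurv) = c G'(dcurv') ≤ c ρ ∏ G'(z', z') = c ρ c⁻⁴ ∏ G(z, z)`. -/
theorem dr_nat {n : ℕ} (hn : 1 ≤ n) (Γ : Subgroup (SL n)) (h m : PD n → Fm n) (hh : MetX h)
    (hm : MetX m) (φ : PD n → PD n) (hφ : Dfm Γ φ) (c : ℝ) (hc : 0 < c)
    (hp : ∀ p v, IsTan p v → pul φ h p v v = c * m p v v) (ρ : ℝ) (hρ : 0 ≤ ρ) (hd : DR ρ m) :
    DR (ρ / c ^ 3) h := by
  have ha : 0 < √c := Real.sqrt_pos.2 hc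
  have ha2 : √c ^ 2 = c := Real.sq_sqrt hc.le
  have hMh := met_prodm hn h hh
  have hMm := met_prodm hn m hm
  obtain ⟨C', hC', hK'⟩ := (NS38.kos_facts (PU_open (n := n))).2.2.2.1 _ hMm
  intro C hC hK x hx z u v w
  obtain ⟨χ, hχ, h1, h2⟩ := hφ.inv
  have hy : lft (√c)⁻¹ χ x ∈ PU n := ((lft_facts hn).1 (√c)⁻¹ χ x hx).1
  have hyx : lft (√c) φ (lft (√c)⁻¹ χ x) = x := by
    have h3 := (lft_facts hn).2.1 (√c)⁻¹ χ φ (inv_pos.2 ha) h2 x hx
    rwa [inv_inv] at h3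
  obtain ⟨y, hyP, hyE⟩ : ∃ y ∈ PU n, lft (√c) φ y = x := ⟨_, hy, hyx⟩
  have hsur := lft_surj hn Γ φ hφ (√c) ha
  obtain ⟨z', hz'⟩ := hsur y hyP z
  obtain ⟨u', hu'⟩ := hsur y hyP u
  obtain ⟨v', hv'⟩ := hsur y hyP v
  obtain ⟨w', hw'⟩ := hsur y hyP w
  have hpull : ∀ A ∈ PU n, ∀ v w, prodm h (lft (√c) φ A) (fderiv ℝ (lft (√c) φ) A v)
      (fderiv ℝ (lft (√c) φ) A w) = c * prodm m A v w := by
    have h4 := prodm_pull hn h m hh.symm hm.symm φ hφ.smooth (√c) ha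
      (fun p v hv => by rw [ha2]; exact hp p v hv)
    rw [ha2] at h4
    exact h4
  have hnat : fderiv ℝ (lft (√c) φ) y (NS38.dcurv C' y z' u' v' w') =
      NS38.dcurv C (lft (√c) φ y) (fderiv ℝ (lft (√c) φ) y z') (fderiv ℝ (lft (√c) φ) y u')
        (fderiv ℝ (lft (√c) φ) y v') (fderiv ℝ (lft (√c) φ) y w') := NS38.nat_dcurv (PU_open (n := n)) (PU_open (n := n)) hMh hMm (lft (√c) φ)
    ((lft_facts hn).2.2.2.2 (√c) φ hφ.smooth) (fun A hA => ((lft_facts hn).1 (√c) φ A hA).1)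
    hsur c hc hpull C C' hC hC' hK hK' y hyP z' u' v' w'
  rw [hz', hu', hv', hw', hyE] at hnat
  have hsq : ∀ X X' : Mt n, fderiv ℝ (lft (√c) φ) y X' = X →
      prodm h x X X = c * prodm m y X' X' := by
    intro X X' hX
    have h5 := hpull y hyP X' X'
    rw [hX, hyE] at h5
    exact h5
  have e0 := hsq _ _ hnat
  have e1 := hsq _ _ hz'
  have e2 := hsq _ _ hu'
  have e3 := hsq _ _ hv'
  have e4 := hsq _ _ hw'
  have h6 := hd C' hC' hK' y hyP z' u' v' w'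
  rw [e0, e1, e2, e3, e4]
  have h7 := mul_le_mul_of_nonneg_left h6 hc.le
  refine h7.trans (le_of_eq ?_)
  field_simp

/-- Row CR8 (second part). PLAN. `C` from `NS38.kos_facts` (4); `prodm h x (dcurv) (dcurv) ≤ ρ * K` for all `ρ > 0`, so
`≤ 0`, and `prodm h x` is positive definite (`met_prodm`). -/
theorem dr_zero {n : ℕ} (hn : 1 ≤ n) (h : PD n → Fm n) (hh : MetX h) (hd : ∀ ρ > 0, DR ρ h) :
    LocSym h := by
  have hMh := met_prodm hn h hh
  obtain ⟨C, hC, hK⟩ := (NS38.kos_facts (PU_open (n := n))).2.2.2.1 _ hMh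
  refine ⟨C, hC, hK, ?_⟩
  intro x hx z u v w
  by_contra hne
  have h1 := hMh.pos x hx _ hne
  obtain ⟨K, hKd⟩ : ∃ K : ℝ, K = prodm h x z z * prodm h x u u * prodm h x v v * prodm h x w w :=
    ⟨_, rfl⟩
  have h2 : ∀ ρ > 0, prodm h x (NS38.dcurv C x z u v w) (NS38.dcurv C x z u v w) ≤ ρ * K := by
    intro ρ hρ
    have h3 := hd ρ hρ C hC hK x hx z u v w
    rw [← hKd] at h3
    exact h3
  have h4 := h2 (prodm h x (NS38.dcurv C x z u v w) (NS38.dcurv C x z u v w) / (2 * (|K| + 1)))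
    (by positivity)
  have h5 : prodm h x (NS38.dcurv C x z u v w) (NS38.dcurv C x z u v w) / (2 * (|K| + 1)) * K ≤
      prodm h x (NS38.dcurv C x z u v w) (NS38.dcurv C x z u v w) / (2 * (|K| + 1)) * (|K| + 1) := by
    apply mul_le_mul_of_nonneg_left _ (by positivity)
    have := le_abs_self K
    linarith
  have h6 : prodm h x (NS38.dcurv C x z u v w) (NS38.dcurv C x z u v w) / (2 * (|K| + 1)) *
      (|K| + 1) = prodm h x (NS38.dcurv C x z u v w) (NS38.dcurv C x z u v w) / 2 := by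
    have : |K| + 1 ≠ 0 := by positivity
    field_simp
  linarith

end FL27
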