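import Pool.Agent.LibFL27.DefsD

set_option autoImplicit false
set_option maxSynthPendingDepth 3

open Matrix MeasureTheory Topology Filter LibNC38
open LibNC27 hiding Mt
open scoped Matrix.Norms.Elementwise

namespace FL27

private theorem D0d_add {n : ℕ} (s t : ℝ) (v : V0 n) :
    dgm ((s + t) • v) = dgm (s • v) * dgm (t • v) := (@dgm_facts n).2.2.2.2.1 s t v

private theorem D0d_cont {n : ℕ} (w : V0 n) {F' : Fn n} (hF : Continuous F') (g : SL n) :
    Continuous fun s : ℝ => F' (g * dgm (s • w)) := by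
  refine hF.comp (continuous_const.mul ?_)
  exact (@dgm_facts n).2.2.2.2.2.comp (continuous_id.smul continuous_const)

private theorem D0d_zero {n : ℕ} (v : V0 n) : dgm ((0 : ℝ) • v) = 1 := (@dgm_facts n).2.2.1 v

private theorem D0d_shift {n : ℕ} (w : V0 n) (F' : Fn n) (g : SL n) (a t : ℝ) :
    (∫ s in a..(a + t), F' (g * dgm (s • w))) =
      ∫ s in (0 : ℝ)..t, F' (g * dgm (a • w) * dgm (s • w)) := by
  have h1 : ∀ s : ℝ, g * dgm (a • w) * dgm (s • w) = g * dgm ((a + s) • w) := by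
    intro s
    rw [D0d_add, mul_assoc]
  simp only [h1]
  rw [intervalIntegral.integral_comp_add_left (fun s => F' (g * dgm (s • w))) a, add_zero]

private theorem D0d_iter {n : ℕ} (σ : ℝ) (w : V0 n) {F F' : Fn n} (hF : Continuous F')
    (h : ∀ (g : SL n) (t : ℝ), |t| ≤ 1 → |F (g * dgm (t • w)) - F g -
        ∫ s in (0 : ℝ)..t, F' (g * dgm (s • w))| ≤ σ) (g : SL n) (t : ℝ) (ht : |t| ≤ 1) (k : ℕ) :
    |F (g * dgm (((k : ℝ) * t) • w)) - F g -
        ∫ s in (0 : ℝ)..((k : ℝ) * t), F' (g * dgm (s • w))| ≤ k * σ := by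
  induction k with
  | zero =>
    rw [Nat.cast_zero, zero_mul, D0d_zero, mul_one, intervalIntegral.integral_same]
    simp
  | succ k ih =>
    have h1 : ((k + 1 : ℕ) : ℝ) * t = (k : ℝ) * t + t := by push_cast; ring
    have h2 := h (g * dgm (((k : ℝ) * t) • w)) t ht
    have hc := D0d_cont w hF g
    rw [h1, ← intervalIntegral.integral_add_adjacent_intervals
      (hc.intervalIntegrable 0 ((k : ℝ) * t)) (hc.intervalIntegrable ((k : ℝ) * t) _),
      D0d_shift, D0d_add, ← mul_assoc]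
    have h3 : F (g * dgm (((k : ℝ) * t) • w) * dgm (t • w)) - F g -
        ((∫ s in (0 : ℝ)..((k : ℝ) * t), F' (g * dgm (s • w))) +
          ∫ s in (0 : ℝ)..t, F' (g * dgm (((k : ℝ) * t) • w) * dgm (s • w))) =
        (F (g * dgm (((k : ℝ) * t) • w)) - F g -
          ∫ s in (0 : ℝ)..((k : ℝ) * t), F' (g * dgm (s • w))) +
        (F (g * dgm (((k : ℝ) * t) • w) * dgm (t • w)) - F (g * dgm (((k : ℝ) * t) • w)) -
          ∫ s in (0 : ℝ)..t, F' (g * dgm (((k : ℝ) * t) • w) * dgm (s • w))) := by ring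
    rw [h3]
    refine (abs_add_le _ _).trans ?_
    push_cast
    linarith

/-- Row D0d. Algebra of RQ: monotone in σ, linear combinations, exact derivatives; from |t| ≤ 1 to
all t. -/
theorem RQ_facts {n : ℕ} (Γ : Subgroup (SL n)) :
    (∀ σ σ' (w : V0 n) F F', σ ≤ σ' → RQ σ w F F' → RQ σ' w F F') ∧
    (∀ σ (w : V0 n) F F' a, RQ σ w F F' → RQ (|a| * σ) w (fun g => a * F g) (fun g => a * F' g)) ∧
    (∀ σ σ' (w : V0 n) F F' G G', Continuous F' → Continuous G' → RQ σ w F F' → RQ σ' w G G' →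
      RQ (σ + σ') w (fun g => F g + G g) (fun g => F' g + G' g)) ∧
    (∀ (w : V0 n) F F', Rd w F F' → Continuous F' → RQ 0 w F F') ∧
    (∀ σ (w : V0 n) F F', 0 ≤ σ → Continuous F' →
      (∀ (g : SL n) (t : ℝ), |t| ≤ 1 → |F (g * dgm (t • w)) - F g -
        ∫ s in (0 : ℝ)..t, F' (g * dgm (s • w))| ≤ σ) → RQ σ w F F') ∧
    (∀ σ σ' (w : V0 n) F F' G', Continuous F' → Continuous G' → (∀ g, |F' g - G' g| ≤ σ') →
      RQ σ w F F' → RQ (σ + σ') w F G') := by
  refine ⟨?_, ?_, ?_, ?_, ?_, ?_⟩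
  · intro σ σ' w F F' hs h g t
    refine (h g t).trans ?_
    have h1 : 0 ≤ 1 + |t| := by positivity
    exact mul_le_mul_of_nonneg_right hs h1
  · intro σ w F F' a h g t
    have h1 : a * F (g * dgm (t • w)) - a * F g - ∫ s in (0 : ℝ)..t, a * F' (g * dgm (s • w)) =
        a * (F (g * dgm (t • w)) - F g - ∫ s in (0 : ℝ)..t, F' (g * dgm (s • w))) := by
      rw [intervalIntegral.integral_const_mul]
      ring
    show |a * F (g * dgm (t • w)) - a * F g - ∫ s in (0 : ℝ)..t, a * F' (g * dgm (s • w))| ≤ _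
    rw [h1, abs_mul, mul_assoc]
    exact mul_le_mul_of_nonneg_left (h g t) (abs_nonneg a)
  · intro σ σ' w F F' G G' hF hG h h' g t
    have h1 : (F (g * dgm (t • w)) + G (g * dgm (t • w))) - (F g + G g) -
        (∫ s in (0 : ℝ)..t, (F' (g * dgm (s • w)) + G' (g * dgm (s • w)))) =
        (F (g * dgm (t • w)) - F g - ∫ s in (0 : ℝ)..t, F' (g * dgm (s • w))) +
        (G (g * dgm (t • w)) - G g - ∫ s in (0 : ℝ)..t, G' (g * dgm (s • w))) := by
      rw [intervalIntegral.integral_add ((D0d_cont w hF g).intervalIntegrable _ _)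
        ((D0d_cont w hG g).intervalIntegrable _ _)]
      ring
    show |(F (g * dgm (t • w)) + G (g * dgm (t • w))) - (F g + G g) -
        (∫ s in (0 : ℝ)..t, (F' (g * dgm (s • w)) + G' (g * dgm (s • w))))| ≤ _
    rw [h1, add_mul]
    exact (abs_add_le _ _).trans (add_le_add (h g t) (h' g t))
  · intro w F F' h hF g t
    have hd : ∀ s : ℝ, HasDerivAt (fun t : ℝ => F (g * dgm (t • w))) (F' (g * dgm (s • w))) s := by
      intro s
      have h1 := h (g * dgm (s • w))
      have h2 : HasDerivAt (fun t : ℝ => t - s) 1 s := (hasDerivAt_id s).sub_const s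
      have h3 : HasDerivAt (fun t : ℝ => F (g * dgm (s • w) * dgm (t • w))) (F' (g * dgm (s • w)))
          ((fun t : ℝ => t - s) s) := by
        show HasDerivAt _ _ (s - s)
        rw [sub_self]
        exact h1
      have h4 := HasDerivAt.comp (h₂ := fun t : ℝ => F (g * dgm (s • w) * dgm (t • w)))
        (h := fun t : ℝ => t - s) s h3 h2
      rw [mul_one] at h4
      refine h4.congr_of_eventuallyEq (Filter.Eventually.of_forall fun t => ?_)
      show F (g * dgm (t • w)) = F (g * dgm (s • w) * dgm ((t - s) • w))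
      rw [mul_assoc, ← D0d_add, add_sub_cancel]
    have h5 := intervalIntegral.integral_eq_sub_of_hasDerivAt (fun s _ => hd s)
      ((D0d_cont w hF g).intervalIntegrable 0 t)
    rw [h5, D0d_zero, mul_one, sub_self, abs_zero, zero_mul]
  · intro σ w F F' hσ hF h g t
    rcases eq_or_ne t 0 with h0 | h0
    · rw [h0, D0d_zero, mul_one, intervalIntegral.integral_same, sub_self, sub_zero, abs_zero]
      positivity
    · have hN : 0 < ⌈|t|⌉₊ := Nat.ceil_pos.2 (abs_pos.2 h0)
      have hN' : (0 : ℝ) < ⌈|t|⌉₊ := by exact_mod_cast hN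
      have h1 : |t / ⌈|t|⌉₊| ≤ 1 := by
        rw [abs_div, abs_of_pos hN', div_le_one hN']
        exact Nat.le_ceil _
      have h2 := D0d_iter σ w hF h g (t / ⌈|t|⌉₊) h1 ⌈|t|⌉₊
      rw [mul_div_cancel₀ _ hN'.ne'] at h2
      refine h2.trans ?_
      have h3 : (⌈|t|⌉₊ : ℝ) ≤ |t| + 1 := (Nat.ceil_lt_add_one (abs_nonneg t)).le
      nlinarith
  · intro σ σ' w F F' G' hF hG hs h g t
    have hσ' : 0 ≤ σ' := (abs_nonneg _).trans (hs 1)
    have h1 : F (g * dgm (t • w)) - F g - (∫ s in (0 : ℝ)..t, G' (g * dgm (s • w))) =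
        (F (g * dgm (t • w)) - F g - ∫ s in (0 : ℝ)..t, F' (g * dgm (s • w))) +
        ∫ s in (0 : ℝ)..t, (F' (g * dgm (s • w)) - G' (g * dgm (s • w))) := by
      rw [intervalIntegral.integral_sub ((D0d_cont w hF g).intervalIntegrable _ _)
        ((D0d_cont w hG g).intervalIntegrable _ _)]
      ring
    have h2 : |∫ s in (0 : ℝ)..t, (F' (g * dgm (s • w)) - G' (g * dgm (s • w)))| ≤
        σ' * |t| := by
      have h3 := intervalIntegral.norm_integral_le_of_norm_le_const (a := 0) (b := t)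
        (f := fun s => F' (g * dgm (s • w)) - G' (g * dgm (s • w))) (C := σ')
        (fun s _ => hs (g * dgm (s • w)))
      rwa [sub_zero] at h3
    rw [h1]
    refine (abs_add_le _ _).trans ?_
    have h4 := h g t
    have h5 : 0 ≤ |t| := abs_nonneg t
    nlinarith

end FL27
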