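import Pool.Agent.LibFL27.D0b
import Pool.Agent.LibFL27.D0c

set_option autoImplicit false
set_option maxSynthPendingDepth 3

open Matrix MeasureTheory Topology Filter LibNC38
open LibNC27 hiding Mt
open scoped Matrix.Norms.Elementwise

namespace FL27

private theorem D1a_log (σ : ℝ) (h0 : 0 < σ) (h1 : σ ≤ 1) : σ * Real.log (1 / σ) ≤ 2 * √ σ := by
  have hs : 0 < √ σ := Real.sqrt_pos.mpr h0
  have hss : √ σ * √ σ = σ := Real.mul_self_sqrt h0.le
  have hl : Real.log (1 / σ) = 2 * Real.log (1 / √ σ) := by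
    rw [one_div, one_div, Real.log_inv, Real.log_inv, Real.log_sqrt h0.le]
    ring
  have h2 : Real.log (1 / √ σ) ≤ 1 / √ σ - 1 := Real.log_le_sub_one_of_pos (by positivity)
  have h3 : √ σ * Real.log (1 / √ σ) ≤ 1 := by
    have h4 := mul_le_mul_of_nonneg_left h2 hs.le
    have h5 : √ σ * (1 / √ σ - 1) = 1 - √ σ := by
      field_simp
    linarith
  calc σ * Real.log (1 / σ) = 2 * √ σ * (√ σ * Real.log (1 / √ σ)) := by
        rw [hl]
        nth_rewrite 1 [← hss]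
        ring
    _ ≤ 2 * √ σ * 1 := mul_le_mul_of_nonneg_left h3 (by positivity)
    _ = 2 * √ σ := mul_one _

private theorem D1a_near {n : ℕ} (hn : 3 ≤ n) (Γ : Subgroup (SL n)) (σ M : ℝ) (F : Fn n)
    (w : V0 n) (hσ : 0 < σ) (hσ1 : σ ≤ 1) (hM : 0 ≤ M) (hF : HB Γ M F)
    (hflow : ∀ (g : SL n) (r : ℝ), |F (g * dgm (r • w)) - F g| ≤ σ * (1 + |r|))
    (i j : Fin n) (h : i ≠ j) (hij : 1 / (8 * (n : ℝ)) ≤ |w.1 i - w.1 j|)
    (g : SL n) (x : ℝ) (hx : |x| ≤ 1) :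
    |F (g * tv i j h x) - F g| ≤ (2 + 32 * (n : ℝ)) * (1 + M) * √ σ := by
  obtain ⟨C0, -, -, -, hdE, -, -, -, -⟩ := dE_facts n
  have hn0 : (0 : ℝ) < n := by
    have : 0 < n := by omega
    exact_mod_cast this
  have ha : (0 : ℝ) < 1 / (8 * (n : ℝ)) := by positivity
  have hd : 0 < |w.1 i - w.1 j| := lt_of_lt_of_le ha hij
  have hd0 : w.1 i - w.1 j ≠ 0 := abs_pos.mp hd
  set d : ℝ := w.1 i - w.1 j with hdd
  set R : ℝ := Real.log (1 / σ) / d with hR
  have hlog : 0 ≤ Real.log (1 / σ) := Real.log_nonneg (by rw [le_div_iff₀ hσ]; linarith)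
  have hRd : R * d = Real.log (1 / σ) := by
    rw [hR]
    field_simp
  have hRabs : |R| ≤ 8 * n * Real.log (1 / σ) := by
    rw [hR, abs_div, abs_of_nonneg hlog, div_le_iff₀ hd]
    have h1 : 1 ≤ 8 * (n : ℝ) * |d| := by
      have := mul_le_mul_of_nonneg_left hij (by positivity : (0 : ℝ) ≤ 8 * n)
      rw [mul_one_div_cancel (by positivity)] at this
      exact this
    nlinarith [mul_le_mul_of_nonneg_left h1 hlog]
  have hσR : σ * (1 + |R|) ≤ (1 + 16 * n) * √ σ := by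
    have h1 : σ ≤ √ σ := by
      have hs : √ σ ≤ 1 := Real.sqrt_le_one.mpr hσ1
      nlinarith [Real.sqrt_nonneg σ, Real.mul_self_sqrt hσ.le]
    have h2 := D1a_log σ hσ hσ1
    have h3 : σ * |R| ≤ σ * (8 * n * Real.log (1 / σ)) := mul_le_mul_of_nonneg_left hRabs hσ.le
    have h4 : 8 * (n : ℝ) * (σ * Real.log (1 / σ)) ≤ 8 * (n : ℝ) * (2 * √ σ) :=
      mul_le_mul_of_nonneg_left h2 (by positivity)
    nlinarith
  have hconj : tv i j h x * dgm (R • w) = dgm (R • w) * tv i j h (σ * x) := by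
    rw [(tv_facts i j h).1 x (R • w)]
    have e1 : (R • w).1 i - (R • w).1 j = R * d := by
      have e2 : (R • w).1 i = R * w.1 i := rfl
      have e3 : (R • w).1 j = R * w.1 j := rfl
      rw [e2, e3, hdd]
      ring
    rw [e1, hRd, ← Real.log_inv, one_div, inv_inv, Real.exp_log hσ]
  have A1 : |F (g * tv i j h x * dgm (R • w)) - F (g * tv i j h x)| ≤ σ * (1 + |R|) :=
    hflow (g * tv i j h x) R
  have A2 : |F (g * dgm (R • w) * tv i j h (σ * x)) - F (g * dgm (R • w))| ≤ M * √ σ := by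
    refine (hF.hol (g * dgm (R • w)) (tv i j h (σ * x))).trans ?_
    apply mul_le_mul_of_nonneg_left _ hM
    apply Real.sqrt_le_sqrt
    refine (hdE i j h (σ * x)).trans ?_
    rw [abs_mul, abs_of_pos hσ]
    nlinarith
  have A3 : |F (g * dgm (R • w)) - F g| ≤ σ * (1 + |R|) := hflow g R
  have A4 : g * tv i j h x * dgm (R • w) = g * dgm (R • w) * tv i j h (σ * x) := by
    rw [mul_assoc, hconj, ← mul_assoc]
  rw [A4] at A1
  have A5 : |F (g * tv i j h x) - F g| ≤ σ * (1 + |R|) + M * √ σ + σ * (1 + |R|) := by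
    have B1 := abs_le.mp A1
    have B2 := abs_le.mp A2
    have B3 := abs_le.mp A3
    apply abs_le.mpr
    constructor <;> linarith [B1.1, B1.2, B2.1, B2.2, B3.1, B3.2]
  have hs0 : 0 ≤ √ σ := Real.sqrt_nonneg σ
  have hfin : 2 * ((1 + 16 * (n : ℝ)) * √ σ) + M * √ σ ≤ (2 + 32 * (n : ℝ)) * (1 + M) * √ σ := by
    have h1 : 2 * (1 + 16 * (n : ℝ)) + M ≤ (2 + 32 * (n : ℝ)) * (1 + M) := by
      nlinarith [mul_nonneg hn0.le hM]
    have := mul_le_mul_of_nonneg_right h1 hs0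
    nlinarith
  linarith

private theorem D1a_k {n : ℕ} (hn : 3 ≤ n) (w : V0 n) (hw : ‖w‖ = 1) (i j : Fin n)
    (hij : ¬ 1 / (8 * (n : ℝ)) ≤ |w.1 i - w.1 j|) :
    ∃ k : Fin n, 1 / (8 * (n : ℝ)) ≤ |w.1 i - w.1 k| ∧ 1 / (8 * (n : ℝ)) ≤ |w.1 k - w.1 j| := by
  have hn0 : (0 : ℝ) < n := by
    have : 0 < n := by omega
    exact_mod_cast this
  have hn3 : (3 : ℝ) ≤ n := by exact_mod_cast hn
  by_contra hcon
  push Not at hcon hij
  set a : ℝ := 1 / (8 * (n : ℝ)) with ha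
  have hna : (n : ℝ) * a = 1 / 8 := by
    rw [ha]
    field_simp
  have ha0 : 0 < a := by rw [ha]; positivity
  have hk : ∀ k, |w.1 k - w.1 i| ≤ 2 * a := by
    intro k
    by_cases h1 : a ≤ |w.1 i - w.1 k|
    · have h2 := hcon k h1
      have h3 := abs_lt.mp h2
      have h4 := abs_lt.mp hij
      apply abs_le.mpr
      constructor <;> linarith [h3.1, h3.2, h4.1, h4.2]
    · push Not at h1
      rw [abs_sub_comm]
      linarith
  have hs := sum_V0 w
  have hsum : ∑ k, (w.1 k - w.1 i) = - ((n : ℝ) * w.1 i) := by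
    rw [Finset.sum_sub_distrib, hs]
    simp
  have hle : |∑ k, (w.1 k - w.1 i)| ≤ (n : ℝ) * (2 * a) := by
    refine (Finset.abs_sum_le_sum_abs _ _).trans ?_
    refine (Finset.sum_le_sum fun k _ => hk k).trans ?_
    simp
  rw [hsum, abs_neg, abs_mul, abs_of_pos hn0] at hle
  have hwi : |w.1 i| ≤ 2 * a := le_of_mul_le_mul_left hle hn0
  have hall : ∀ k, |w.1 k| ≤ 4 * a := by
    intro k
    have h1 := abs_le.mp (hk k)
    have h2 := abs_le.mp hwi
    apply abs_le.mpr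
    constructor <;> linarith [h1.1, h1.2, h2.1, h2.2]
  have hnorm : ‖w‖ ^ 2 = ∑ k, (w.1 k) ^ 2 := by
    have h1 : ‖w‖ = ‖w.1‖ := rfl
    rw [h1, EuclideanSpace.norm_eq, Real.sq_sqrt (Finset.sum_nonneg fun k _ => sq_nonneg _)]
    refine Finset.sum_congr rfl fun k _ => ?_
    rw [Real.norm_eq_abs, sq_abs]
  have hle2 : ‖w‖ ^ 2 ≤ (n : ℝ) * (4 * a) ^ 2 := by
    rw [hnorm]
    have : ∀ k ∈ Finset.univ, (w.1 k) ^ 2 ≤ (4 * a) ^ 2 := by
      intro k _
      rw [← sq_abs]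
      exact pow_le_pow_left₀ (abs_nonneg _) (hall k) 2
    refine (Finset.sum_le_sum this).trans ?_
    simp
  rw [hw] at hle2
  have h5 : (n : ℝ) * (4 * a) ^ 2 = 16 * a * ((n : ℝ) * a) := by ring
  rw [h5, hna] at hle2
  have h6 : a ≤ 1 / 24 := by
    rw [ha]
    apply one_div_le_one_div_of_le <;> linarith
  linarith

/-- Row D1a. Quantitative Mautner, root groups. If |w_i - w_j| >= 1/(8n): F(gU) - F(g) through
U D(Rw) = D(Rw) U(e^{-R(w_i-w_j)} x), R = log(1/σ)/(w_i-w_j): error 2σ(1+|R|) + M √(e^{-R(w_i-w_j)}).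
Otherwise there is k with |w_i - w_k|, |w_k - w_j| >= 1/(8n): commutator (tv_comm). -/
theorem mau_root {n : ℕ} (hn : 3 ≤ n) : ∃ C : ℝ, 0 < C ∧ ∀ (Γ : Subgroup (SL n)) (σ M : ℝ) (F : Fn n)
    (w : V0 n), 0 < σ → σ ≤ 1 → 0 ≤ M → HB Γ M F → ‖w‖ = 1 →
    (∀ (g : SL n) (r : ℝ), |F (g * dgm (r • w)) - F g| ≤ σ * (1 + |r|)) →
    ∀ (i j : Fin n) (h : i ≠ j) (g : SL n) (x : ℝ), |x| ≤ 1 →
      |F (g * tv i j h x) - F g| ≤ C * (1 + M) * √ σ := by
  have hn0 : (0 : ℝ) < n := by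
    have : 0 < n := by omega
    exact_mod_cast this
  refine ⟨4 * (2 + 32 * (n : ℝ)), by positivity, ?_⟩
  intro Γ σ M F w hσ hσ1 hM hF hw hflow i j h g x hx
  have hE0 : 0 ≤ (2 + 32 * (n : ℝ)) * (1 + M) * √ σ := by positivity
  have hE4 : 4 * (2 + 32 * (n : ℝ)) * (1 + M) * √ σ = 4 * ((2 + 32 * (n : ℝ)) * (1 + M) * √ σ) := by
    ring
  rw [hE4]
  by_cases hij : 1 / (8 * (n : ℝ)) ≤ |w.1 i - w.1 j|
  · have := D1a_near hn Γ σ M F w hσ hσ1 hM hF hflow i j h hij g x hx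
    linarith
  · obtain ⟨k, hik, hkj⟩ := D1a_k hn w hw i j hij
    have ha : (0 : ℝ) < 1 / (8 * (n : ℝ)) := by positivity
    have hik0 : i ≠ k := by
      rintro rfl
      rw [sub_self, abs_zero] at hik
      linarith
    have hkj0 : k ≠ j := by
      rintro rfl
      rw [sub_self, abs_zero] at hkj
      linarith
    have hcomm := tv_comm i j k h hik0 hkj0 x
    have h1 : |(1 : ℝ)| ≤ 1 := by rw [abs_one]
    have N1 := D1a_near hn Γ σ M F w hσ hσ1 hM hF hflow i k hik0 hik g x hx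
    have N2 := D1a_near hn Γ σ M F w hσ hσ1 hM hF hflow k j hkj0 hkj (g * tv i k hik0 x) 1 h1
    have N3 := D1a_near hn Γ σ M F w hσ hσ1 hM hF hflow k j hkj0 hkj (g * tv i j h x) 1 h1
    have N4 := D1a_near hn Γ σ M F w hσ hσ1 hM hF hflow i k hik0 hik
      (g * tv i j h x * tv k j hkj0 1) x hx
    have e : g * tv i k hik0 x * tv k j hkj0 1 = g * tv i j h x * tv k j hkj0 1 * tv i k hik0 x := by
      rw [mul_assoc g, hcomm]
      simp only [mul_assoc]
    rw [e] at N2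
    have B1 := abs_le.mp N1
    have B2 := abs_le.mp N2
    have B3 := abs_le.mp N3
    have B4 := abs_le.mp N4
    apply abs_le.mpr
    constructor <;> linarith [B1.1, B1.2, B2.1, B2.2, B3.1, B3.2, B4.1, B4.2]

end FL27
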