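import Pool.Agent.LibFL27.DefsD
import Pool.Agent.LibNC38.G1a
import Pool.Agent.LibNC38.J3

set_option autoImplicit false
set_option maxSynthPendingDepth 3

open Matrix MeasureTheory Topology Filter LibNC38
open LibNC27 hiding Mt
open scoped Matrix.Norms.Elementwise

namespace FL27

open scoped Pointwise

/-- transvections with parameter in `[-1, 1]`, and `1` -/
private def D1bU (n : ℕ) : Set (SL n) :=
  {1} ∪ ⋃ i : Fin n, ⋃ j : Fin n, ⋃ h : i ≠ j, (fun x : ℝ => tv i j h x) '' Set.Icc (-1) 1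

private theorem D1b_one {n : ℕ} : (1 : SL n) ∈ D1bU n := Or.inl rfl

private theorem D1b_mem {n : ℕ} {g : SL n} : g ∈ D1bU n ↔
    g = 1 ∨ ∃ (i j : Fin n) (h : i ≠ j) (x : ℝ), |x| ≤ 1 ∧ g = tv i j h x := by
  unfold D1bU
  simp only [Set.mem_union, Set.mem_singleton_iff, Set.mem_iUnion, Set.mem_image, Set.mem_Icc]
  constructor
  · rintro (h | ⟨i, j, h, x, ⟨h1, h2⟩, rfl⟩)
    · exact Or.inl h
    · exact Or.inr ⟨i, j, h, x, abs_le.2 ⟨h1, h2⟩, rfl⟩
  · rintro (h | ⟨i, j, h, x, hx, rfl⟩)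
    · exact Or.inl h
    · exact Or.inr ⟨i, j, h, x, abs_le.1 hx, rfl⟩

private theorem D1b_compact {n : ℕ} : IsCompact (D1bU n) := by
  unfold D1bU
  refine isCompact_singleton.union ?_
  refine isCompact_iUnion fun i => isCompact_iUnion fun j => isCompact_iUnion fun h => ?_
  exact isCompact_Icc.image (tv_cont i j h)

private theorem D1b_add {n : ℕ} (i j : Fin n) (h : i ≠ j) (a b : ℝ) :
    tv i j h a * tv i j h b = tv i j h (a + b) := by
  apply Subtype.ext
  show Matrix.transvection i j a * Matrix.transvection i j b = Matrix.transvection i j (a + b)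
  exact Matrix.transvection_mul_transvection_same i j h a b

private theorem D1b_pow {n : ℕ} (i j : Fin n) (h : i ≠ j) (a : ℝ) (m : ℕ) :
    tv i j h a ^ m = tv i j h (m * a) := by
  induction m with
  | zero => rw [pow_zero, Nat.cast_zero, zero_mul, tv_zero]
  | succ m ih =>
    rw [pow_succ, ih, D1b_add]
    congr 1
    push_cast
    ring

private theorem D1b_inv {n : ℕ} : (D1bU n)⁻¹ = D1bU n := by
  have key : ∀ g : SL n, g ∈ D1bU n → g⁻¹ ∈ D1bU n := by
    intro g hg
    rcases D1b_mem.1 hg with rfl | ⟨i, j, h, x, hx, rfl⟩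
    · rw [inv_one]; exact D1b_one
    · refine D1b_mem.2 (Or.inr ⟨i, j, h, -x, by rwa [abs_neg], ?_⟩)
      rw [inv_eq_iff_mul_eq_one, D1b_add, add_neg_cancel, tv_zero]
  ext g
  rw [Set.mem_inv]
  constructor
  · intro hg
    have := key _ hg
    rwa [inv_inv] at this
  · exact key g

private theorem D1b_all {n : ℕ} (g : SL n) : ∃ N : ℕ, g ∈ D1bU n ^ N := by
  have hg : g ∈ Subgroup.closure {g : SL n | ∃ (i j : Fin n) (h : i ≠ j) (c : ℝ), g = tv i j h c} := by
    rw [gen_tv]; exact Subgroup.mem_top g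
  induction hg using Subgroup.closure_induction with
  | mem x hx =>
    obtain ⟨i, j, h, c, rfl⟩ := hx
    obtain ⟨m, hm⟩ := exists_nat_ge |c|
    have hm1 : (0 : ℝ) < (m + 1 : ℕ) := by positivity
    refine ⟨m + 1, ?_⟩
    have h1 : tv i j h c = tv i j h (c / (m + 1 : ℕ)) ^ (m + 1) := by
      rw [D1b_pow]
      congr 1
      field_simp
    rw [h1]
    refine Set.pow_mem_pow (D1b_mem.2 (Or.inr ⟨i, j, h, _, ?_, rfl⟩))
    rw [abs_div, abs_of_pos hm1, div_le_one hm1]
    refine hm.trans ?_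
    push_cast
    linarith
  | one => exact ⟨0, by rw [pow_zero]; exact Set.mem_one.2 rfl⟩
  | mul x y _ _ hx hy =>
    obtain ⟨N, hN⟩ := hx
    obtain ⟨M, hM⟩ := hy
    exact ⟨N + M, by rw [pow_add]; exact Set.mul_mem_mul hN hM⟩
  | inv x _ hx =>
    obtain ⟨N, hN⟩ := hx
    refine ⟨N, ?_⟩
    rw [← D1b_inv, inv_pow]
    exact Set.inv_mem_inv.2 hN

private theorem D1b_powcompact {n : ℕ} (N : ℕ) : IsCompact (D1bU n ^ N) := by
  induction N with
  | zero => rw [pow_zero]; exact isCompact_singleton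
  | succ N ih => rw [pow_succ]; exact ih.mul D1b_compact

private theorem D1b_mono {n : ℕ} {N M : ℕ} (h : N ≤ M) : D1bU n ^ N ⊆ D1bU n ^ M :=
  Set.pow_subset_pow_right D1b_one h

private theorem D1b_cover {n : ℕ} (Q : Set (SL n)) (hQ : IsCompact Q) : ∃ N : ℕ, Q ⊆ D1bU n ^ N := by
  haveI ht2 : T2Space (SL n) := SL_top.1
  haveI hlc : LocallyCompactSpace (SL n) := SL_top.2.1
  obtain ⟨N0, p, hp⟩ := nonempty_interior_of_iUnion_of_closed (f := fun N : ℕ => D1bU n ^ N)
    (fun N => (D1b_powcompact N).isClosed) (by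
      rw [Set.eq_univ_iff_forall]
      intro g
      obtain ⟨N, hN⟩ := D1b_all g
      exact Set.mem_iUnion.2 ⟨N, hN⟩)
  refine hQ.induction_on (p := fun S => ∃ N : ℕ, S ⊆ D1bU n ^ N) ⟨0, Set.empty_subset _⟩
    (fun s t hst ⟨N, hN⟩ => ⟨N, hst.trans hN⟩)
    (fun s t ⟨N, hN⟩ ⟨M, hM⟩ => ⟨max N M, Set.union_subset (hN.trans (D1b_mono (le_max_left _ _)))
      (hM.trans (D1b_mono (le_max_right _ _)))⟩) ?_
  intro q _
  obtain ⟨M, hM⟩ := D1b_all (q * p⁻¹)
  have hcont : Continuous fun x : SL n => p * q⁻¹ * x := continuous_const.mul continuous_id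
  have hmem : {x : SL n | p * q⁻¹ * x ∈ interior (D1bU n ^ N0)} ∈ 𝓝 q := by
    refine hcont.continuousAt.preimage_mem_nhds (isOpen_interior.mem_nhds ?_)
    rwa [inv_mul_cancel_right]
  refine ⟨_, mem_nhdsWithin_of_mem_nhds hmem, M + N0, fun x hx => ?_⟩
  have h1 : x = q * p⁻¹ * (p * q⁻¹ * x) := by group
  rw [h1, pow_add]
  exact Set.mul_mem_mul hM (interior_subset hx)

/-- Row D1b. Compact sets are boundedly generated by the transvections with |x| <= 1. -/
theorem compact_gen {n : ℕ} (hn : 2 ≤ n) (Q : Set (SL n)) (hQ : IsCompact Q) : ∃ N : ℕ,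
    ∀ (F : Fn n) (ε : ℝ), 0 ≤ ε →
      (∀ (i j : Fin n) (h : i ≠ j) (g : SL n) (x : ℝ), |x| ≤ 1 → |F (g * tv i j h x) - F g| ≤ ε) →
      ∀ q ∈ Q, ∀ g, |F (g * q) - F g| ≤ N * ε := by
  obtain ⟨N, hN⟩ := D1b_cover Q hQ
  refine ⟨N, fun F ε hε hF q hq => ?_⟩
  have key : ∀ (m : ℕ) (q : SL n), q ∈ D1bU n ^ m → ∀ g, |F (g * q) - F g| ≤ m * ε := by
    intro m
    induction m with
    | zero =>
      intro q hq g
      rw [pow_zero] at hq
      have hq1 : q = 1 := hq
      rw [hq1, mul_one, sub_self, abs_zero, Nat.cast_zero, zero_mul]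
    | succ m ih =>
      intro q hq g
      rw [pow_succ] at hq
      obtain ⟨a, ha, b, hb, rfl⟩ := Set.mem_mul.1 hq
      have h1 := ih a ha g
      have h2 : |F (g * a * b) - F (g * a)| ≤ ε := by
        rcases D1b_mem.1 hb with rfl | ⟨i, j, h, x, hx, rfl⟩
        · rw [mul_one, sub_self, abs_zero]; exact hε
        · exact hF i j h _ x hx
      have h3 : F (g * (a * b)) - F g = (F (g * a * b) - F (g * a)) + (F (g * a) - F g) := by
        rw [mul_assoc]; ring
      rw [h3]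
      refine (abs_add_le _ _).trans ?_
      push_cast
      linarith
  exact key N q (hN hq)

end FL27
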