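import Pool.Agent.LibFL27.D1a
import Pool.Agent.LibFL27.D1b

set_option autoImplicit false
set_option maxSynthPendingDepth 3

open Matrix MeasureTheory Topology Filter LibNC38
open LibNC27 hiding Mt
open scoped Matrix.Norms.Elementwise

namespace FL27

private theorem D1c_cpt {n : ℕ} (Q : Set (SL n)) (hQ : IsCompact Q) :
    IsCompact ((fun p : SL n × SL n => p.1⁻¹ * p.2) '' (Q ×ˢ Q)) := by
  refine (hQ.prod hQ).image ?_
  exact (continuous_inv.comp continuous_fst).mul continuous_snd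

/-- Row D1c. Quantitative Mautner. -/
theorem mauq {n : ℕ} (hn : 3 ≤ n) (Γ : Subgroup (SL n)) (hc : Coc Γ) : ∃ C : ℝ, 0 < C ∧
    ∀ (σ M : ℝ) (F : Fn n) (w : V0 n), 0 < σ → σ ≤ 1 → 0 ≤ M → HB Γ M F → ‖w‖ = 1 →
      (∀ (g : SL n) (r : ℝ), |F (g * dgm (r • w)) - F g| ≤ σ * (1 + |r|)) →
      ∀ g g', |F g - F g'| ≤ C * (1 + M) * √ σ := by
  obtain ⟨C, hC, hroot⟩ := mau_root hn
  obtain ⟨Q, hQ, hcov⟩ := hc
  obtain ⟨N, hN⟩ := compact_gen (by omega : 2 ≤ n) _ (D1c_cpt Q hQ)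
  refine ⟨(N + 1) * C, by positivity, ?_⟩
  intro σ M F w hσ hσ1 hM hF hw hflow g g'
  have hε : 0 ≤ C * (1 + M) * √ σ := by positivity
  have hr := hroot Γ σ M F w hσ hσ1 hM hF hw hflow
  obtain ⟨γ, hγ, hk⟩ := hcov g
  obtain ⟨γ', hγ', hk'⟩ := hcov g'
  have h1 : F (γ * g) = F g := hF.inv γ hγ g
  have h2 : F (γ' * g') = F g' := hF.inv γ' hγ' g'
  have h3 := hN F _ hε hr ((γ * g)⁻¹ * (γ' * g'))
    ⟨(γ * g, γ' * g'), ⟨hk, hk'⟩, rfl⟩ (γ * g)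
  rw [mul_inv_cancel_left, h1, h2] at h3
  rw [abs_sub_comm]
  refine h3.trans ?_
  have h4 : (N : ℝ) * (C * (1 + M) * √ σ) ≤ (N + 1) * (C * (1 + M) * √ σ) := by
    have : (N : ℝ) ≤ N + 1 := by linarith
    exact mul_le_mul_of_nonneg_right this hε
  calc (N : ℝ) * (C * (1 + M) * √ σ) ≤ (N + 1) * (C * (1 + M) * √ σ) := h4
    _ = (N + 1) * C * (1 + M) * √ σ := by ring

end FL27
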