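import Pool.Agent.LibFL27.D0b
import Pool.Agent.LibNC27.A1a

set_option autoImplicit false
set_option maxSynthPendingDepth 3

open Matrix MeasureTheory Topology Filter LibNC38
open LibNC27 hiding Mt
open scoped Matrix.Norms.Elementwise

namespace FL27

private noncomputable def D2aP {n : ℕ} (e : Fn n) (l : V0 n) (g : SL n) (s : ℝ) : ℝ :=
  ∫ r in (0 : ℝ)..s, e (g * dgm (r • l))

private theorem D2a_path {n : ℕ} (F : Fn n) (hF : Continuous F) (g : SL n) (w : V0 n) :
    Continuous fun s : ℝ => F (g * dgm (s • w)) := by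
  have h1 : Continuous fun s : ℝ => dgm (s • w) :=
    (dgm_facts (n := n)).2.2.2.2.2.comp (continuous_id.smul continuous_const)
  exact hF.comp (continuous_const.mul h1)

private theorem D2aP_add {n : ℕ} (e : Fn n) (he : Continuous e) (l : V0 n) (g : SL n) (s s' : ℝ) :
    D2aP e l g (s + s') = D2aP e l g s + D2aP e l (g * dgm (s • l)) s' := by
  unfold D2aP
  have h1 : (∫ r in (0 : ℝ)..s', e (g * dgm (s • l) * dgm (r • l))) =
      ∫ r in s..(s + s'), e (g * dgm (r • l)) := by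
    have h2 := intervalIntegral.integral_comp_add_left (a := (0 : ℝ)) (b := s')
      (fun r : ℝ => e (g * dgm (r • l))) s
    rw [add_zero] at h2
    rw [← h2]
    apply intervalIntegral.integral_congr
    intro r _
    show e (g * dgm (s • l) * dgm (r • l)) = e (g * dgm ((s + r) • l))
    rw [(dgm_facts (n := n)).2.2.2.2.1 s r l, mul_assoc]
  rw [h1]
  exact (intervalIntegral.integral_add_adjacent_intervals
    ((D2a_path e he g l).intervalIntegrable _ _) ((D2a_path e he g l).intervalIntegrable _ _)).symm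

private noncomputable def D2aR {n : ℕ} (e e' : Fn n) (l m : V0 n) (g : SL n) (s t : ℝ) : ℝ :=
  (D2aP e l (g * dgm (t • m)) s - D2aP e l g s) - (D2aP e' m (g * dgm (s • l)) t - D2aP e' m g t)

private theorem D2aR_eq {n : ℕ} (e e' : Fn n) (he : Continuous e) (he' : Continuous e')
    (l m : V0 n) (g : SL n) (s t : ℝ) :
    (∫ r in (0 : ℝ)..s, (e (g * dgm (t • m) * dgm (r • l)) - e (g * dgm (r • l)))) -
      ∫ r in (0 : ℝ)..t, (e' (g * dgm (s • l) * dgm (r • m)) - e' (g * dgm (r • m))) =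
    D2aR e e' l m g s t := by
  unfold D2aR D2aP
  rw [intervalIntegral.integral_sub ((D2a_path e he _ l).intervalIntegrable _ _)
      ((D2a_path e he _ l).intervalIntegrable _ _),
    intervalIntegral.integral_sub ((D2a_path e' he' _ m).intervalIntegrable _ _)
      ((D2a_path e' he' _ m).intervalIntegrable _ _)]

private theorem D2aR_add {n : ℕ} (e e' : Fn n) (he : Continuous e)
    (l m : V0 n) (g : SL n) (s s' t : ℝ) :
    D2aR e e' l m g (s + s') t =
      D2aR e e' l m g s t + D2aR e e' l m (g * dgm (s • l)) s' t := by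
  unfold D2aR
  have h1 : g * dgm (t • m) * dgm (s • l) = g * dgm (s • l) * dgm (t • m) := by
    rw [mul_assoc, mul_assoc, (dgm_facts (n := n)).2.1 (t • m) (s • l)]
  have h2 : g * dgm ((s + s') • l) = g * dgm (s • l) * dgm (s' • l) := by
    rw [(dgm_facts (n := n)).2.2.2.2.1 s s' l, mul_assoc]
  rw [D2aP_add e he l (g * dgm (t • m)) s s', D2aP_add e he l g s s', h1, h2]
  ring

private theorem D2aR_zero {n : ℕ} (e e' : Fn n) (l m : V0 n) (g : SL n) (t : ℝ) :
    D2aR e e' l m g 0 t = 0 := by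
  unfold D2aR
  have h0 : dgm ((0 : ℝ) • l) = 1 := (dgm_facts (n := n)).2.2.1 l
  rw [h0, mul_one]
  unfold D2aP
  simp

private theorem D2aR_nat {n : ℕ} (e e' : Fn n) (he : Continuous e)
    (l m : V0 n) (s t B : ℝ) (h : ∀ g, |D2aR e e' l m g s t| ≤ B) (N : ℕ) :
    ∀ g, |D2aR e e' l m g (N * s) t| ≤ N * B := by
  induction N with
  | zero =>
    intro g
    rw [Nat.cast_zero, zero_mul, zero_mul, D2aR_zero, abs_zero]
  | succ N ih =>
    intro g
    have h1 : ((N + 1 : ℕ) : ℝ) * s = N * s + s := by push_cast; ring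
    rw [h1, D2aR_add e e' he]
    have h2 := ih g
    have h3 := h (g * dgm ((N * s) • l))
    have h4 := abs_add_le (D2aR e e' l m g (N * s) t) (D2aR e e' l m (g * dgm ((N * s) • l)) s t)
    push_cast
    linarith

private theorem D2aR_swap {n : ℕ} (e e' : Fn n) (l m : V0 n) (g : SL n) (s t : ℝ) :
    D2aR e e' l m g s t = - D2aR e' e m l g t s := by
  unfold D2aR
  ring

/-- Row D2a. Large rectangles. -/
theorem clo_big {n : ℕ} (Γ : Subgroup (SL n)) (M σ : ℝ) (hσ : 0 ≤ σ) (i j : Fin n)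
    (e : V0 n →ₗ[ℝ] Fn n) (H : CloQ Γ M σ i j e) (l m : V0 n) (hl : ‖l‖ ≤ 2) (hm : ‖m‖ ≤ 2)
    (g : SL n) (s t : ℝ) :
    |(∫ r in (0 : ℝ)..s, (e l (g * dgm (t • m) * dgm (r • l)) - e l (g * dgm (r • l)))) -
      ∫ r in (0 : ℝ)..t, (e m (g * dgm (s • l) * dgm (r • m)) - e m (g * dgm (r • m)))| ≤
      σ * (1 + |s|) * (1 + |t|) := by
  have he : Continuous (e l) := ((HB_facts Γ).1 M (e l) (H.hb l hl)).cont
  have he' : Continuous (e m) := ((HB_facts Γ).1 M (e m) (H.hb m hm)).cont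
  rw [D2aR_eq (e l) (e m) he he' l m g s t]
  have hN : ∀ x : ℝ, ∃ N : ℕ, 0 < (N : ℝ) ∧ (N : ℝ) ≤ 1 + |x| ∧ |x / N| ≤ 1 := by
    intro x
    have h0 : (0 : ℝ) < ((⌊|x|⌋₊ + 1 : ℕ) : ℝ) := by positivity
    refine ⟨⌊|x|⌋₊ + 1, h0, ?_, ?_⟩
    · have := Nat.floor_le (abs_nonneg x)
      push_cast
      linarith
    · rw [abs_div, abs_of_pos h0, div_le_one h0]
      have := (Nat.lt_floor_add_one |x|).le
      push_cast
      linarith
  obtain ⟨N, hN0, hN1, hN2⟩ := hN s
  obtain ⟨K, hK0, hK1, hK2⟩ := hN t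
  have h1 : ∀ g, |D2aR (e l) (e m) l m g (s / N) (t / K)| ≤ σ := by
    intro g
    have := H.clo l m hl hm g (s / N) (t / K) hN2 hK2
    rwa [D2aR_eq (e l) (e m) he he' l m g (s / N) (t / K)] at this
  have h2 : ∀ g, |D2aR (e l) (e m) l m g s (t / K)| ≤ N * σ := by
    intro g
    have := D2aR_nat (e l) (e m) he l m (s / N) (t / K) σ h1 N g
    rwa [mul_div_cancel₀ s hN0.ne'] at this
  have h3 : ∀ g, |D2aR (e m) (e l) m l g (t / K) s| ≤ N * σ := by
    intro g
    rw [D2aR_swap, abs_neg]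
    exact h2 g
  have h4 : |D2aR (e l) (e m) l m g s t| ≤ K * (N * σ) := by
    have := D2aR_nat (e m) (e l) he' m l (t / K) s (N * σ) h3 K g
    rw [mul_div_cancel₀ t hK0.ne'] at this
    rw [D2aR_swap, abs_neg]
    exact this
  have h5 : (K : ℝ) * (N * σ) = σ * N * K := by ring
  rw [h5] at h4
  refine h4.trans ?_
  apply mul_le_mul (mul_le_mul_of_nonneg_left hN1 hσ) hK1 hK0.le
  positivity

end FL27
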