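import Pool.Agent.LibFL27.D0b
import Pool.Agent.LibFL27.D0c
import Pool.Agent.LibNC27.P1

set_option autoImplicit false
set_option maxSynthPendingDepth 3

open Matrix MeasureTheory Topology Filter LibNC38
open LibNC27 hiding Mt
open scoped Matrix.Norms.Elementwise

namespace FL27

private theorem D2b_exp1 (S : ℝ) : ∫ s in (0 : ℝ)..S, Real.exp (2 * s) =
    (Real.exp (2 * S) - 1) / 2 := by
  have h : ∀ s : ℝ, HasDerivAt (fun s : ℝ => Real.exp (2 * s) / 2) (Real.exp (2 * s)) s := by
    intro s
    have h1 : HasDerivAt (fun s : ℝ => 2 * s) 2 s := by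
      have h2 := (hasDerivAt_id s).const_mul (2 : ℝ)
      rw [mul_one] at h2
      exact h2
    have h3 := (h1.exp).div_const 2
    have h4 : Real.exp (2 * s) * 2 / 2 = Real.exp (2 * s) := by ring
    rw [h4] at h3
    exact h3
  rw [intervalIntegral.integral_eq_sub_of_hasDerivAt (fun s _ => h s)
    ((Real.continuous_exp.comp (continuous_const.mul continuous_id)).intervalIntegrable _ _)]
  rw [mul_zero, Real.exp_zero]
  ring

private theorem D2b_exp2 (S : ℝ) : ∫ s in Set.Ioi S, Real.exp (-(2 * s)) =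
    Real.exp (-(2 * S)) / 2 := by
  have h5 := integral_exp_mul_Ioi (a := -2) (by norm_num) S
  simp only [neg_mul] at h5
  rw [h5]
  ring

/-- the elementary estimate: `|F| ≤ K e^(2 s)` and `|F| ≤ L e^(-2 s)` -/
private theorem D2b_est (F : ℝ → ℝ) (hF : IntegrableOn F (Set.Ioi 0)) (K L S : ℝ) (hS : 0 ≤ S)
    (hK : 0 ≤ K)
    (h1 : ∀ s, 0 ≤ s → |F s| ≤ K * Real.exp (2 * s))
    (h2 : ∀ s, 0 ≤ s → |F s| ≤ L * Real.exp (-(2 * s))) :
    |∫ s in Set.Ioi (0 : ℝ), F s| ≤ K * Real.exp (2 * S) / 2 + L * Real.exp (-(2 * S)) / 2 := by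
  have hsplit : ∫ s in Set.Ioi (0 : ℝ), F s = (∫ s in Set.Ioc 0 S, F s) + ∫ s in Set.Ioi S, F s := by
    rw [← setIntegral_union (Set.Ioc_disjoint_Ioi le_rfl) measurableSet_Ioi
      (hF.mono_set Set.Ioc_subset_Ioi_self) (hF.mono_set (Set.Ioi_subset_Ioi hS)),
      Set.Ioc_union_Ioi_eq_Ioi hS]
  have hb1 : |∫ s in Set.Ioc 0 S, F s| ≤ ∫ s in Set.Ioc 0 S, K * Real.exp (2 * s) := by
    have hc : Continuous fun s : ℝ => K * Real.exp (2 * s) :=
      continuous_const.mul (Real.continuous_exp.comp (continuous_const.mul continuous_id))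
    have hi : IntegrableOn (fun s : ℝ => K * Real.exp (2 * s)) (Set.Ioc 0 S) :=
      (hc.integrableOn_Icc (a := 0) (b := S)).mono_set Set.Ioc_subset_Icc_self
    have ha : ∀ᵐ s ∂(volume.restrict (Set.Ioc (0 : ℝ) S)), ‖F s‖ ≤ K * Real.exp (2 * s) :=
      (ae_restrict_iff' measurableSet_Ioc).2
        (Filter.Eventually.of_forall fun s hs => h1 s hs.1.le)
    exact norm_integral_le_of_norm_le (μ := volume.restrict (Set.Ioc (0 : ℝ) S)) (f := F) hi ha
  have hb2 : |∫ s in Set.Ioi S, F s| ≤ ∫ s in Set.Ioi S, L * Real.exp (-(2 * s)) := by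
    have h3 := exp_neg_integrableOn_Ioi S (b := 2) (by norm_num)
    have h4 : IntegrableOn (fun s : ℝ => Real.exp (-(2 * s))) (Set.Ioi S) := by
      refine h3.congr_fun (fun s _ => ?_) measurableSet_Ioi
      simp only [neg_mul]
    have hi : IntegrableOn (fun s : ℝ => L * Real.exp (-(2 * s))) (Set.Ioi S) := h4.const_mul L
    have ha : ∀ᵐ s ∂(volume.restrict (Set.Ioi S)), ‖F s‖ ≤ L * Real.exp (-(2 * s)) :=
      (ae_restrict_iff' measurableSet_Ioi).2
        (Filter.Eventually.of_forall fun s hs => h2 s (hS.trans (le_of_lt hs)))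
    exact norm_integral_le_of_norm_le (μ := volume.restrict (Set.Ioi S)) (f := F) hi ha
  have he1 : ∫ s in Set.Ioc 0 S, Real.exp (2 * s) = (Real.exp (2 * S) - 1) / 2 := by
    rw [← intervalIntegral.integral_of_le hS, D2b_exp1]
  rw [integral_const_mul, he1] at hb1
  rw [integral_const_mul, D2b_exp2] at hb2
  rw [hsplit]
  have h5 : K * ((Real.exp (2 * S) - 1) / 2) ≤ K * Real.exp (2 * S) / 2 := by nlinarith
  have h6 := abs_add_le (∫ s in Set.Ioc 0 S, F s) (∫ s in Set.Ioi S, F s)
  have h7 : L * (Real.exp (-(2 * S)) / 2) = L * Real.exp (-(2 * S)) / 2 := by ring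
  rw [h7] at hb2
  linarith

/-- Row D2b. Bounds of `Pf`: the integrand is at most `min (2 M |r| e^{-2s}, C M e^{2s} dE q)`. -/
theorem Pf_hb (n : ℕ) : ∃ C : ℝ, 0 < C ∧ ∀ (Γ : Subgroup (SL n)) (M : ℝ) (f : Fn n) (i j : Fin n)
    (h : i ≠ j), 0 ≤ M → LB Γ M f → ∀ r : ℝ, |r| ≤ 1 →
      HB Γ (C * M) (fun g => Pf i j h f g r) ∧ ∀ g, |Pf i j h f g r| ≤ M * |r| := by
  obtain ⟨C0, hC0, _, hH, htv, htvc, _, _, _⟩ := dE_facts n
  refine ⟨C0 + 3, by linarith, ?_⟩
  intro Γ M f i j h hM hf r hr
  have hInv : Inv Γ f := (HB_facts Γ).2.1 M f hf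
  have hC : ∀ (g : SL n) (r : ℝ), |f (g * tv i j h r) - f g| ≤ M * |r| := fun g r =>
    (hf.lip g _).trans (mul_le_mul_of_nonneg_left (htv i j h r) hM)
  obtain ⟨p1, p2, p3, p4, _⟩ := Pf_facts Γ i j h f hInv M hC
  obtain ⟨_, _, htadd, ht0, _, _⟩ := tv_facts i j h
  obtain ⟨hdadd, _, _, hd0, _, _⟩ := dgm_facts (n := n)
  have hMr : M * |r| ≤ M := by
    have := mul_le_mul_of_nonneg_left hr hM
    linarith
  have hMr0 : 0 ≤ M * |r| := mul_nonneg hM (abs_nonneg r)
  have hbd : ∀ g, |Pf i j h f g r| ≤ M * |r| := fun g => by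
    have := p4 g r
    linarith
  refine ⟨⟨(p3 r).inv, fun g => ?_, fun g q => ?_⟩, hbd⟩
  · show |Pf i j h f g r| ≤ (C0 + 3) * M
    have := hbd g
    nlinarith
  · show |Pf i j h f (g * q) r - Pf i j h f g r| ≤ (C0 + 3) * M * √ (dE q)
    have hD0 : 0 ≤ dE q := norm_nonneg _
    rcases le_or_gt 1 (dE q) with hD | hD
    · have h2 : 1 ≤ √ (dE q) := by
        rw [Real.one_le_sqrt]
        exact hD
      have h3 : |Pf i j h f (g * q) r - Pf i j h f g r| ≤ M * |r| / 2 + M * |r| / 2 :=
        (abs_sub _ _).trans (add_le_add (p4 _ r) (p4 _ r))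
      have h4 : M ≤ (C0 + 3) * M := by nlinarith
      have h5 : (C0 + 3) * M * 1 ≤ (C0 + 3) * M * √ (dE q) :=
        mul_le_mul_of_nonneg_left h2 (by nlinarith)
      linarith
    rcases hD0.eq_or_lt with hDz | hDp
    · have hq : q = 1 := by
        apply Subtype.ext
        have h1 : ‖q.1 - 1‖ = 0 := hDz.symm
        rw [norm_eq_zero, sub_eq_zero] at h1
        exact h1
      rw [hq, mul_one, sub_self, abs_zero]
      exact mul_nonneg (by nlinarith) (Real.sqrt_nonneg _)
    · have hdd : ∀ s : ℝ, dgm (s • Hv (n := n) i j) * dgm (-(s • Hv i j)) = 1 := by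
        intro s
        rw [← hdadd, add_neg_cancel, hd0]
      have htt : tv i j h r * tv i j h (-r) = 1 := by
        rw [← htadd, add_neg_cancel, ht0]
      set F : ℝ → ℝ := fun s => (f (g * q * tv i j h r * dgm (s • Hv i j)) -
        f (g * q * dgm (s • Hv i j))) - (f (g * tv i j h r * dgm (s • Hv i j)) -
        f (g * dgm (s • Hv i j))) with hFdef
      have hFint : IntegrableOn F (Set.Ioi 0) := (p2 (g * q) r).sub (p2 g r)
      have hdiff : Pf i j h f (g * q) r - Pf i j h f g r = -∫ s in Set.Ioi (0 : ℝ), F s := by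
        unfold Pf
        rw [hFdef, integral_sub (p2 (g * q) r) (p2 g r)]
        ring
      have hF2 : ∀ s, 0 ≤ s → |F s| ≤ (2 * M) * Real.exp (-(2 * s)) := by
        intro s _
        have h1 := p1 (g * q) r s
        have h2 := p1 g r s
        have h3 := abs_sub (f (g * q * tv i j h r * dgm (s • Hv i j)) -
          f (g * q * dgm (s • Hv i j))) (f (g * tv i j h r * dgm (s • Hv i j)) -
          f (g * dgm (s • Hv i j)))
        have h4 : M * |r| * Real.exp (-(2 * s)) ≤ M * Real.exp (-(2 * s)) :=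
          mul_le_mul_of_nonneg_right hMr (Real.exp_pos _).le
        refine h3.trans ?_
        linarith
      have hF1 : ∀ s, 0 ≤ s → |F s| ≤ ((C0 + 1) * M * dE q) * Real.exp (2 * s) := by
        intro s hs
        have e1 : g * q * tv i j h r * dgm (s • Hv i j) = (g * tv i j h r * dgm (s • Hv i j)) *
            (dgm (-(s • Hv i j)) * (tv i j h (-r) * q * tv i j h r) * dgm (s • Hv i j)) := by
          calc g * q * tv i j h r * dgm (s • Hv i j)
              = g * 1 * q * tv i j h r * dgm (s • Hv i j) := by rw [mul_one]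
            _ = g * (tv i j h r * 1 * tv i j h (-r)) * q * tv i j h r * dgm (s • Hv i j) := by
                rw [mul_one (tv i j h r), htt]
            _ = g * (tv i j h r * (dgm (s • Hv i j) * dgm (-(s • Hv i j))) * tv i j h (-r)) * q *
                tv i j h r * dgm (s • Hv i j) := by rw [hdd]
            _ = _ := by simp only [mul_assoc]
        have e2 : g * q * dgm (s • Hv i j) = (g * dgm (s • Hv i j)) *
            (dgm (-(s • Hv i j)) * q * dgm (s • Hv i j)) := by
          calc g * q * dgm (s • Hv i j)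
              = g * 1 * q * dgm (s • Hv i j) := by rw [mul_one]
            _ = g * (dgm (s • Hv i j) * dgm (-(s • Hv i j))) * q * dgm (s • Hv i j) := by
                rw [hdd]
            _ = _ := by simp only [mul_assoc]
        have b1 : |f (g * q * tv i j h r * dgm (s • Hv i j)) -
            f (g * tv i j h r * dgm (s • Hv i j))| ≤ M * (Real.exp (2 * s) * (C0 * dE q)) := by
          rw [e1]
          refine (hf.lip _ _).trans (mul_le_mul_of_nonneg_left ?_ hM)
          refine (hH i j h s _ hs).trans (mul_le_mul_of_nonneg_left ?_ (Real.exp_pos _).le)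
          exact htvc i j h r q hr
        have b2 : |f (g * q * dgm (s • Hv i j)) - f (g * dgm (s • Hv i j))| ≤
            M * (Real.exp (2 * s) * dE q) := by
          rw [e2]
          refine (hf.lip _ _).trans (mul_le_mul_of_nonneg_left ?_ hM)
          exact hH i j h s _ hs
        have e3 : F s = (f (g * q * tv i j h r * dgm (s • Hv i j)) -
            f (g * tv i j h r * dgm (s • Hv i j))) -
            (f (g * q * dgm (s • Hv i j)) - f (g * dgm (s • Hv i j))) := by
          show (f (g * q * tv i j h r * dgm (s • Hv i j)) -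
            f (g * q * dgm (s • Hv i j))) - (f (g * tv i j h r * dgm (s • Hv i j)) -
            f (g * dgm (s • Hv i j))) = _
          ring
        rw [e3]
        refine (abs_sub _ _).trans ?_
        have e4 : ((C0 + 1) * M * dE q) * Real.exp (2 * s) =
          M * (Real.exp (2 * s) * (C0 * dE q)) + M * (Real.exp (2 * s) * dE q) := by ring
        rw [e4]
        exact add_le_add b1 b2
      set S : ℝ := -(Real.log (dE q)) / 4 with hSdef
      have hlog : Real.log (dE q) ≤ 0 := Real.log_nonpos hD0 hD.le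
      have hS : 0 ≤ S := by
        rw [hSdef]
        linarith
      have hsq : Real.exp (Real.log (dE q) / 2) = √ (dE q) := by
        rw [Real.sqrt_eq_rpow, Real.rpow_def_of_pos hDp]
        congr 1
        ring
      have hE1 : Real.exp (-(2 * S)) = √ (dE q) := by
        rw [← hsq]
        congr 1
        rw [hSdef]
        ring
      have hE2 : dE q * Real.exp (2 * S) = √ (dE q) := by
        rw [← hsq]
        nth_rewrite 1 [← Real.exp_log hDp]
        rw [← Real.exp_add]
        congr 1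
        rw [hSdef]
        ring
      have hest := D2b_est F hFint ((C0 + 1) * M * dE q) (2 * M) S hS
        (mul_nonneg (mul_nonneg (by linarith) hM) hD0) hF1 hF2
      rw [hdiff, abs_neg]
      refine hest.trans ?_
      have e5 : (C0 + 1) * M * dE q * Real.exp (2 * S) / 2 + 2 * M * Real.exp (-(2 * S)) / 2 =
          (C0 + 1) * M * (dE q * Real.exp (2 * S)) / 2 + M * Real.exp (-(2 * S)) := by ring
      rw [e5, hE1, hE2]
      have hsn := Real.sqrt_nonneg (dE q)
      have hMs : 0 ≤ M * √ (dE q) := mul_nonneg hM hsn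
      nlinarith

end FL27
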