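import Pool.Agent.LibFL27.D2a
import Pool.Agent.LibFL27.D2b
import Pool.Agent.LibFL27.D0c

set_option autoImplicit false
set_option maxSynthPendingDepth 3

open Matrix MeasureTheory Topology Filter LibNC38
open LibNC27 hiding Mt
open scoped Matrix.Norms.Elementwise

namespace FL27

private theorem D2c_nHv {n : ℕ} (i j : Fin n) : ‖(Hv i j : V0 n)‖ ≤ 2 := by
  have e : (Hv i j : V0 n).1 = EuclideanSpace.single i (1 : ℝ) - EuclideanSpace.single j (1 : ℝ) := by
    ext a
    show ((if a = i then (1 : ℝ) else 0) - (if a = j then 1 else 0)) = _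
    simp
  show ‖(Hv i j : V0 n).1‖ ≤ 2
  rw [e]
  refine (norm_sub_le _ _).trans ?_
  rw [PiLp.norm_single, PiLp.norm_single]
  norm_num

/-- Row D2c. (quantitative `Pf_ker`, LibNC27/P3) T = log(1/σ)/2. -/
theorem Pf_kerQ {n : ℕ} : ∃ C : ℝ, 0 < C ∧ ∀ (Γ : Subgroup (SL n)) (M σ : ℝ) (i j : Fin n)
    (h : i ≠ j) (e : V0 n →ₗ[ℝ] Fn n), 0 ≤ M → 0 < σ → σ ≤ 1 → CloQ Γ M σ i j e →
    ∀ l : V0 n, ‖l‖ ≤ 1 → l.1 i = l.1 j → ∀ (g : SL n) (r t : ℝ), |r| ≤ 1 → |t| ≤ 1 →
      |Pf i j h (e (Hv i j)) (g * dgm (t • l)) r - Pf i j h (e (Hv i j)) g r -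
        ∫ s in (0 : ℝ)..t, (e l (g * tv i j h r * dgm (s • l)) - e l (g * dgm (s • l)))| ≤
        C * (1 + M) * √ σ := by
  refine ⟨4, by norm_num, ?_⟩
  intro Γ M σ i j h e hM hσ hσ1 H l hl1 hl g r t hr ht
  obtain ⟨-, htl, -, -, htv, -⟩ := tv_facts i j h
  obtain ⟨-, -, -, -, -, hdc⟩ := dgm_facts (n := n)
  obtain ⟨hHB, hLB, -⟩ := HB_facts Γ
  obtain ⟨C0, -, -, -, hdE, -⟩ := dE_facts n
  have hHv : ‖(Hv i j : V0 n)‖ ≤ 2 := D2c_nHv i j
  have hl2 : ‖l‖ ≤ 2 := by linarith
  set f : Fn n := e (Hv i j) with hfdef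
  set f' : Fn n := e l with hf'def
  have hf : Inv Γ f := hLB M f H.lip
  have hf' : Inv Γ f' := hHB M f' (H.hb l hl2)
  have hC : ∀ (g : SL n) (r : ℝ), |f (g * tv i j h r) - f g| ≤ M * |r| := by
    intro g r
    exact (H.lip.lip g _).trans (mul_le_mul_of_nonneg_left (hdE i j h r) hM)
  obtain ⟨hpt, -, -, -, hlim⟩ := Pf_facts Γ i j h f hf M hC
  have hl' : (t • l).1 i = (t • l).1 j := by
    show t * l.1 i = t * l.1 j
    rw [hl]
  have hl'' : ∀ q : ℝ, (q • l).1 i = (q • l).1 j := by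
    intro q
    show q * l.1 i = q * l.1 j
    rw [hl]
  have hcs : ∀ w : V0 n, Continuous fun s : ℝ => dgm (s • w) :=
    fun w => hdc.comp (continuous_id.smul continuous_const)
  have hint : ∀ (F : Fn n) (x : SL n) (w : V0 n) (a b : ℝ), Continuous F →
      IntervalIntegrable (fun s : ℝ => F (x * dgm (s • w))) volume a b := by
    intro F x w a b hF
    exact (hF.comp (continuous_const.mul (hcs w))).intervalIntegrable a b
  have hsub : ∀ (F : Fn n) (x y : SL n) (w : V0 n) (b : ℝ), Continuous F →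
      ∫ s in (0 : ℝ)..b, (F (x * dgm (s • w)) - F (y * dgm (s • w))) =
      (∫ s in (0 : ℝ)..b, F (x * dgm (s • w))) - ∫ s in (0 : ℝ)..b, F (y * dgm (s • w)) := by
    intro F x y w b hF
    exact intervalIntegral.integral_sub (hint F x w 0 b hF) (hint F y w 0 b hF)
  have hrw : g * dgm (t • l) * tv i j h r = g * tv i j h r * dgm (t • l) := by
    rw [mul_assoc, ← htl r _ hl', ← mul_assoc]
  -- tails
  have tail : ∀ (x : SL n) (T : ℝ), 0 ≤ T → |Pf i j h f x r -
      (- ∫ s in (0 : ℝ)..T, (f (x * tv i j h r * dgm (s • Hv i j)) - f (x * dgm (s • Hv i j))))| ≤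
      M / 2 * Real.exp (-T) := by
    intro x T hT
    have hcont : Continuous fun s : ℝ =>
        f (x * tv i j h r * dgm (s • Hv i j)) - f (x * dgm (s • Hv i j)) :=
      (hf.cont.comp (continuous_const.mul (hcs _))).sub (hf.cont.comp (continuous_const.mul (hcs _)))
    have hL := ((hlim x r).sub_const (- ∫ s in (0 : ℝ)..T,
      (f (x * tv i j h r * dgm (s • Hv i j)) - f (x * dgm (s • Hv i j))))).abs
    refine le_of_tendsto hL ?_
    filter_upwards [eventually_ge_atTop T] with T' hT'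
    have e1 : (- ∫ s in (0 : ℝ)..T', (f (x * tv i j h r * dgm (s • Hv i j)) -
        f (x * dgm (s • Hv i j)))) - (- ∫ s in (0 : ℝ)..T,
        (f (x * tv i j h r * dgm (s • Hv i j)) - f (x * dgm (s • Hv i j)))) =
        - ∫ s in T..T', (f (x * tv i j h r * dgm (s • Hv i j)) - f (x * dgm (s • Hv i j))) := by
      rw [← intervalIntegral.integral_add_adjacent_intervals (hcont.intervalIntegrable 0 T)
        (hcont.intervalIntegrable T T')]
      ring
    rw [e1, abs_neg]
    have hder : ∀ s : ℝ, HasDerivAt (fun s : ℝ => - (M / 2) * Real.exp (-(2 * s)))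
        (M * Real.exp (-(2 * s))) s := by
      intro s
      have h1 : HasDerivAt (fun s : ℝ => -(2 * s)) (-(2 * 1)) s :=
        ((hasDerivAt_id s).const_mul 2).neg
      have h2 := (h1.exp).const_mul (-(M / 2))
      exact h2.congr_deriv (by ring)
    have hbc : Continuous fun s : ℝ => M * Real.exp (-(2 * s)) := by fun_prop
    have h3 : ‖∫ s in T..T', (f (x * tv i j h r * dgm (s • Hv i j)) - f (x * dgm (s • Hv i j)))‖ ≤
        ∫ s in T..T', M * Real.exp (-(2 * s)) := by
      refine intervalIntegral.norm_integral_le_of_norm_le hT' ?_ (hbc.intervalIntegrable _ _)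
      refine Filter.Eventually.of_forall fun s _ => ?_
      rw [Real.norm_eq_abs]
      refine (hpt x r s).trans ?_
      refine mul_le_mul_of_nonneg_right ?_ (Real.exp_nonneg _)
      calc M * |r| ≤ M * 1 := mul_le_mul_of_nonneg_left hr hM
        _ = M := mul_one M
    rw [intervalIntegral.integral_eq_sub_of_hasDerivAt (fun s _ => hder s)
      (hbc.intervalIntegrable _ _)] at h3
    rw [Real.norm_eq_abs] at h3
    refine h3.trans ?_
    have h4 : 0 ≤ M / 2 * Real.exp (-(2 * T')) := by positivity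
    have h5 : Real.exp (-(2 * T)) ≤ Real.exp (-T) := Real.exp_le_exp.2 (by linarith)
    have h6 : M / 2 * Real.exp (-(2 * T)) ≤ M / 2 * Real.exp (-T) :=
      mul_le_mul_of_nonneg_left h5 (by linarith)
    linarith
  -- the error integral at `T`
  have err : ∀ T : ℝ, 0 ≤ T → |∫ q in (0 : ℝ)..t,
      (f' (g * tv i j h r * dgm (T • Hv i j) * dgm (q • l)) -
        f' (g * dgm (T • Hv i j) * dgm (q • l)))| ≤ M * Real.exp (-T) := by
    intro T hT
    have hq : ∀ q : ℝ, g * tv i j h r * dgm (T • Hv i j) * dgm (q • l) =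
        g * dgm (T • Hv i j) * dgm (q • l) * tv i j h (Real.exp (-(2 * T)) * r) := by
      intro q
      rw [mul_assoc g, htv, ← mul_assoc g, mul_assoc (g * dgm (T • Hv i j)), htl _ _ (hl'' q),
        ← mul_assoc]
    have h2 : ‖∫ q in (0 : ℝ)..t, (f' (g * tv i j h r * dgm (T • Hv i j) * dgm (q • l)) -
        f' (g * dgm (T • Hv i j) * dgm (q • l)))‖ ≤ M * Real.exp (-T) * |t - 0| := by
      apply intervalIntegral.norm_integral_le_of_norm_le_const
      intro q _
      rw [hq q, Real.norm_eq_abs]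
      refine ((H.hb l hl2).hol _ _).trans (mul_le_mul_of_nonneg_left ?_ hM)
      have h3 : dE (tv i j h (Real.exp (-(2 * T)) * r)) ≤ (Real.exp (-T)) ^ 2 := by
        refine (hdE i j h _).trans ?_
        rw [abs_mul, abs_of_pos (Real.exp_pos _)]
        have h4 : (Real.exp (-T)) ^ 2 = Real.exp (-(2 * T)) := by
          rw [← Real.exp_nat_mul]
          congr 1
          push_cast
          ring
        rw [h4]
        calc Real.exp (-(2 * T)) * |r| ≤ Real.exp (-(2 * T)) * 1 :=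
              mul_le_mul_of_nonneg_left hr (Real.exp_nonneg _)
          _ = _ := mul_one _
      refine (Real.sqrt_le_sqrt h3).trans ?_
      rw [Real.sqrt_sq (Real.exp_nonneg _)]
    rw [Real.norm_eq_abs, sub_zero] at h2
    refine h2.trans ?_
    calc M * Real.exp (-T) * |t| ≤ M * Real.exp (-T) * 1 :=
          mul_le_mul_of_nonneg_left ht (by positivity)
      _ = _ := mul_one _
  -- choice of T
  have hT0 : 0 ≤ -(Real.log σ) / 2 := by
    have := Real.log_nonpos hσ.le hσ1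
    linarith
  obtain ⟨T, hTdef⟩ : ∃ T : ℝ, T = -(Real.log σ) / 2 := ⟨_, rfl⟩
  rw [← hTdef] at hT0
  have hexpT : Real.exp (-T) = √ σ := by
    rw [Real.sqrt_eq_rpow, Real.rpow_def_of_pos hσ, hTdef]
    congr 1
    ring
  have hσT : σ * (1 + T) ≤ √ σ := by
    have h1 : T + 1 ≤ Real.exp T := Real.add_one_le_exp T
    have h2 : σ = √ σ * √ σ := (Real.mul_self_sqrt hσ.le).symm
    have h3 : √ σ * Real.exp T = 1 := by
      rw [← hexpT, ← Real.exp_add]
      simp
    have h4 : 0 < √ σ := Real.sqrt_pos.2 hσ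
    calc σ * (1 + T) = √ σ * (√ σ * (T + 1)) := by
          nth_rw 1 [h2]
          ring
      _ ≤ √ σ * (√ σ * Real.exp T) := by gcongr
      _ = √ σ := by rw [h3, mul_one]
  have R1 := clo_big Γ M σ hσ.le i j e H (Hv i j) l hHv hl2 (g * tv i j h r) T t
  have R2 := clo_big Γ M σ hσ.le i j e H (Hv i j) l hHv hl2 g T t
  have T1 := tail (g * dgm (t • l)) T hT0
  have T2 := tail g T hT0
  have E1 := err T hT0
  rw [← hfdef, ← hf'def] at R1 R2
  rw [hrw] at T1
  rw [hsub f _ _ _ _ hf.cont] at R1 R2 T1 T2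
  rw [hsub f' _ _ _ _ hf'.cont] at R1 R2 E1
  rw [hsub f' _ _ _ _ hf'.cont]
  rw [hexpT] at T1 T2 E1
  have hb : σ * (1 + |T|) * (1 + |t|) ≤ 2 * √ σ := by
    rw [abs_of_nonneg hT0]
    have h0 : 0 ≤ σ * (1 + T) := by positivity
    calc σ * (1 + T) * (1 + |t|) ≤ σ * (1 + T) * 2 :=
          mul_le_mul_of_nonneg_left (by linarith) h0
      _ ≤ √ σ * 2 := by gcongr
      _ = _ := by ring
  have R1' := abs_le.1 (R1.trans hb)
  have R2' := abs_le.1 (R2.trans hb)
  have T1' := abs_le.1 T1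
  have T2' := abs_le.1 T2
  have E1' := abs_le.1 E1
  have hs0 : 0 ≤ √ σ := Real.sqrt_nonneg σ
  have hms : 0 ≤ M * √ σ := mul_nonneg hM hs0
  rw [abs_le]
  constructor <;> nlinarith [R1'.1, R1'.2, R2'.1, R2'.2, T1'.1, T1'.2, T2'.1, T2'.2, E1'.1, E1'.2]

end FL27
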