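import Pool.Agent.LibFL27.D2c
import Pool.Agent.LibFL27.D0d

set_option autoImplicit false
set_option maxSynthPendingDepth 3

open Matrix MeasureTheory Topology Filter LibNC38
open LibNC27 hiding Mt
open scoped Matrix.Norms.Elementwise

namespace FL27

private theorem D2d_trans {n : ℕ} {Γ : Subgroup (SL n)} {M C : ℝ} {F : Fn n} (hM : 0 ≤ M)
    (hC : 1 ≤ C) (k k' : SL n) (hk : k * k' = 1) (hq : ∀ q : SL n, dE (k' * q * k) ≤ C * dE q)
    (hF : HB Γ M F) : HB Γ (C * M) (fun g => F (g * k)) := by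
  have hM' : M ≤ C * M := by nlinarith
  refine ⟨fun γ hγ g => ?_, fun g => (hF.bd _).trans hM', fun g q => ?_⟩
  · show F (γ * g * k) = F (g * k)
    rw [mul_assoc]
    exact hF.inv γ hγ _
  · show |F (g * q * k) - F (g * k)| ≤ C * M * √ (dE q)
    have e1 : g * q * k = g * k * (k' * q * k) := by
      rw [mul_assoc k' q k, mul_assoc g k, ← mul_assoc k k', hk, one_mul, mul_assoc]
    rw [e1]
    have h1 := hF.hol (g * k) (k' * q * k)
    have hC0 : 0 ≤ C := by linarith
    have h2 : √ (dE (k' * q * k)) ≤ C * √ (dE q) := by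
      calc √ (dE (k' * q * k)) ≤ √ (C * dE q) := Real.sqrt_le_sqrt (hq q)
        _ = √ C * √ (dE q) := Real.sqrt_mul hC0 _
        _ ≤ C * √ (dE q) := by
          refine mul_le_mul_of_nonneg_right ?_ (Real.sqrt_nonneg _)
          rw [Real.sqrt_le_left hC0]
          nlinarith
    calc |F (g * k * (k' * q * k)) - F (g * k)| ≤ M * √ (dE (k' * q * k)) := h1
      _ ≤ M * (C * √ (dE q)) := mul_le_mul_of_nonneg_left h2 hM
      _ = C * M * √ (dE q) := by ring

/-- Row D2d. (quantitative `tau_ker`) -/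
theorem tau_kerQ {n : ℕ} : ∃ C : ℝ, 0 < C ∧ ∀ (Γ : Subgroup (SL n)) (M σ : ℝ) (i j : Fin n)
    (h : i ≠ j) (e : V0 n →ₗ[ℝ] Fn n), 0 ≤ M → 0 < σ → σ ≤ 1 → CloQ Γ M σ i j e → AntiQ σ i j h e →
    HB Γ (C * M) (tau i j h (e (Hv i j))) ∧
    ∀ l : V0 n, ‖l‖ ≤ 1 → l.1 i = l.1 j →
      RQ (C * (1 + M) * √ σ) l (tau i j h (e (Hv i j))) (e l) := by
  obtain ⟨C1, hC1, hP⟩ := Pf_hb n
  obtain ⟨C2, hC2, -, -, -, hdt, -⟩ := dE_facts n
  obtain ⟨C3, hC3, hK⟩ := Pf_kerQ (n := n)
  have hC20 : 0 < C2 := by linarith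
  refine ⟨C1 + C2 * C1 + C2 * (C2 * C1) + 3 * C3 + 1, by positivity, ?_⟩
  intro Γ M σ i j h e hM hσ hσ1 H hA
  set C := C1 + C2 * C1 + C2 * (C2 * C1) + 3 * C3 + 1 with hCdef
  have hneg : (fun x => - e (Hv i j) x) = e (Hv j i) := by
    rw [(Hv_facts i j h).2.2.1, map_neg]
    rfl
  have hlip : LB Γ M (e (Hv j i)) := by
    have h1 := (HB_facts Γ).2.2.2.2.2.2.2.1 M (e (Hv i j)) (-1) H.lip
    rw [← hneg]
    simpa using h1
  have H' : CloQ Γ M σ j i e := ⟨H.hb, H.clo, hlip⟩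
  have htau : ∀ g, tau i j h (e (Hv i j)) g = -(1 / 2) * (Pf i j h (e (Hv i j)) g 1 +
      Pf j i h.symm (e (Hv j i)) (g * tv i j h 1) (-1) +
      Pf i j h (e (Hv i j)) (g * tv i j h 1 * tv j i h.symm (-1)) 1) := by
    intro g
    unfold tau
    rw [hneg]
  have a1 : |(1 : ℝ)| ≤ 1 := by norm_num
  have a2 : |(-1 : ℝ)| ≤ 1 := by norm_num
  have htvinv : ∀ (a b : Fin n) (hab : a ≠ b) (r : ℝ), tv a b hab r * tv a b hab (-r) = 1 := by
    intro a b hab r
    rw [← (tv_facts a b hab).2.2.1 r (-r), add_neg_cancel, (tv_facts a b hab).2.2.2.1]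
  refine ⟨?_, fun l hl1 hl => ?_⟩
  · have b1 := (hP Γ M (e (Hv i j)) i j h hM H.lip 1 a1).1
    have b2 := (hP Γ M (e (Hv j i)) j i h.symm hM hlip (-1) a2).1
    have hCM : 0 ≤ C1 * M := by positivity
    have b2' := D2d_trans hCM hC2 (tv i j h 1) (tv i j h (-1)) (htvinv i j h 1)
      (fun q => hdt i j h 1 q a1) b2
    have b3 := D2d_trans hCM hC2 (tv j i h.symm (-1)) (tv j i h.symm (-(-1)))
      (htvinv j i h.symm (-1)) (fun q => hdt j i h.symm (-1) q a2) b1
    have b3' := D2d_trans (by positivity) hC2 (tv i j h 1) (tv i j h (-1)) (htvinv i j h 1)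
      (fun q => hdt i j h 1 q a1) b3
    have s1 := (HB_facts Γ).2.2.2.2.2.2.1 _ _ _ _ b1 b2'
    have s2 := (HB_facts Γ).2.2.2.2.2.2.1 _ _ _ _ s1 b3'
    have s3 := (HB_facts Γ).2.2.2.2.2.1 _ _ (-(1 / 2)) s2
    rw [show tau i j h (e (Hv i j)) = _ from funext htau]
    refine (HB_facts Γ).2.2.2.1 _ _ _ ?_ s3
    have e1 : |(-(1 / 2) : ℝ)| = 1 / 2 := by norm_num
    rw [e1]
    have e2 : 0 ≤ C1 * M + C2 * (C1 * M) + C2 * (C2 * (C1 * M)) := by positivity
    have e3 : C * M = (C1 * M + C2 * (C1 * M) + C2 * (C2 * (C1 * M))) + 3 * C3 * M + M := by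
      rw [hCdef]; ring
    rw [e3]
    have e4 : 0 ≤ 3 * C3 * M := by positivity
    linarith
  · have hl2 : ‖l‖ ≤ 2 := hl1.trans (by norm_num)
    have hce : Continuous (e l) := ((HB_facts Γ).1 M (e l) (H.hb l hl2)).cont
    have hq : ∀ g : SL n, Continuous fun s : ℝ => e l (g * dgm (s • l)) := by
      intro g
      refine hce.comp (continuous_const.mul ?_)
      exact (dgm_facts (n := n)).2.2.2.2.2.comp (continuous_id.smul continuous_const)
    have hcomm : ∀ (s r : ℝ), dgm (s • l) * tv i j h r = tv i j h r * dgm (s • l) := by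
      intro s r
      exact ((tv_facts i j h).2.1 r (s • l) (by
        show s * l.1 i = s * l.1 j
        rw [hl])).symm
    have hcomm' : ∀ (s r : ℝ), dgm (s • l) * tv j i h.symm r = tv j i h.symm r * dgm (s • l) := by
      intro s r
      exact ((tv_facts j i h.symm).2.1 r (s • l) (by
        show s * l.1 j = s * l.1 i
        rw [hl])).symm
    refine (RQ_facts Γ).2.2.2.2.1 _ l _ _ (by positivity) hce fun g t ht => ?_
    have m1 := hK Γ M σ i j h e hM hσ hσ1 H l hl1 hl g 1 t a1 ht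
    have m2 := hK Γ M σ j i h.symm e hM hσ hσ1 H' l hl1 hl.symm (g * tv i j h 1) (-1) t a2 ht
    have m3 := hK Γ M σ i j h e hM hσ hσ1 H l hl1 hl (g * tv i j h 1 * tv j i h.symm (-1)) 1 t a1 ht
    rw [intervalIntegral.integral_sub ((hq _).intervalIntegrable _ _)
      ((hq _).intervalIntegrable _ _)] at m1 m2 m3
    have hk : ∀ s : ℝ, e l (g * tv i j h 1 * tv j i h.symm (-1) * tv i j h 1 * dgm (s • l)) =
        e l (g * dgm (s • l) * kk i j h) := by
      intro s
      unfold kk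
      have e1 : dgm (s • l) * (tv i j h 1 * tv j i h.symm (-1) * tv i j h 1) =
          tv i j h 1 * tv j i h.symm (-1) * tv i j h 1 * dgm (s • l) := by
        rw [mul_assoc (tv i j h 1) (tv j i h.symm (-1)), ← mul_assoc (dgm (s • l)) (tv i j h 1),
          hcomm, mul_assoc (tv i j h 1) (dgm (s • l)), ← mul_assoc (dgm (s • l)) (tv j i h.symm (-1)),
          hcomm', mul_assoc (tv j i h.symm (-1)) (dgm (s • l)), hcomm]
        simp only [mul_assoc]
      rw [mul_assoc g (dgm (s • l)), e1]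
      simp only [mul_assoc]
    have hint : |(∫ s in (0 : ℝ)..t, e l (g * tv i j h 1 * tv j i h.symm (-1) * tv i j h 1 *
        dgm (s • l))) + ∫ s in (0 : ℝ)..t, e l (g * dgm (s • l))| ≤ σ := by
      rw [← intervalIntegral.integral_add ((hq _).intervalIntegrable _ _)
        ((hq _).intervalIntegrable _ _)]
      have h1 : ‖∫ s in (0 : ℝ)..t, (e l (g * tv i j h 1 * tv j i h.symm (-1) * tv i j h 1 *
          dgm (s • l)) + e l (g * dgm (s • l)))‖ ≤ σ * |t - 0| := by
        refine intervalIntegral.norm_integral_le_of_norm_le_const fun s _ => ?_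
        rw [hk s, Real.norm_eq_abs]
        exact hA l hl2 hl (g * dgm (s • l))
      rw [Real.norm_eq_abs, sub_zero] at h1
      exact h1.trans (by nlinarith)
    have hsig : σ ≤ √ σ := by
      have h1 : √ σ ≤ 1 := by
        rw [show (1 : ℝ) = √ 1 by simp]
        exact Real.sqrt_le_sqrt hσ1
      have h2 := Real.mul_self_sqrt hσ.le
      have h3 := Real.sqrt_nonneg σ
      nlinarith
    rw [htau, htau]
    have c2 : g * dgm (t • l) * tv i j h 1 = g * tv i j h 1 * dgm (t • l) := by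
      rw [mul_assoc, hcomm, mul_assoc]
    have c3 : g * tv i j h 1 * dgm (t • l) * tv j i h.symm (-1) =
        g * tv i j h 1 * tv j i h.symm (-1) * dgm (t • l) := by
      rw [mul_assoc, hcomm', ← mul_assoc]
    rw [c2, c3]
    have hM1 : C * (1 + M) * √ σ = (3 * C3 * (1 + M) * √ σ) + (1 + M) * √ σ +
        (C1 + C2 * C1 + C2 * (C2 * C1)) * (1 + M) * √ σ := by
      rw [hCdef]; ring
    have hp1 : 0 ≤ (C1 + C2 * C1 + C2 * (C2 * C1)) * (1 + M) * √ σ := by positivity
    have hp2 : 0 ≤ C3 * (1 + M) * √ σ := by positivity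
    have hp3 : σ ≤ (1 + M) * √ σ := by
      have := Real.sqrt_nonneg σ
      nlinarith
    rw [hM1]
    rw [abs_le] at m1 m2 m3 hint ⊢
    constructor <;> linarith [m1.1, m1.2, m2.1, m2.2, m3.1, m3.2, hint.1, hint.2]

end FL27
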