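import Pool.Agent.LibFL27.DefsD

set_option autoImplicit false
set_option maxSynthPendingDepth 3

open Matrix MeasureTheory Topology Filter LibNC38
open LibNC27 hiding Mt
open scoped Matrix.Norms.Elementwise

namespace FL27

private lemma addQ_aux {d : ℝ → ℝ} {σ K s : ℝ} (hs0 : 0 < s) (hs1 : s ≤ 1) (hs4 : s ^ 4 = σ)
    (hK : 0 ≤ K)
    (hadd : ∀ x t : ℝ, |x| ≤ 1 → |t| ≤ 1 → |x + t| ≤ 1 → |d (x + t) - d x - d t| ≤ σ)
    (hd : ∀ x : ℝ, |x| ≤ 1 → |d x| ≤ K * √ |x|) {t : ℝ} (ht0 : 0 ≤ t) (ht1 : t ≤ 1) :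
    |d t - t * d 1| ≤ 5 * (1 + K) * s := by
  have hσ0 : 0 < σ := by rw [← hs4]; positivity
  have hd0 : d 0 = 0 := by
    have h := hd 0 (by norm_num)
    rw [abs_zero, Real.sqrt_zero, mul_zero] at h
    exact abs_nonpos_iff.1 h
  have hd1 : |d 1| ≤ K := by
    have h := hd 1 (by norm_num)
    rwa [abs_one, Real.sqrt_one, mul_one] at h
  have hs2 : 0 < s ^ 2 := by positivity
  obtain ⟨N, hN⟩ : ∃ N : ℕ, N = ⌈1 / s ^ 2⌉₊ := ⟨_, rfl⟩
  have hNl : 1 / s ^ 2 ≤ (N : ℝ) := by rw [hN]; exact Nat.le_ceil _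
  have hNu : (N : ℝ) ≤ 1 / s ^ 2 + 1 := by
    rw [hN]; exact (Nat.ceil_lt_add_one (by positivity)).le
  have hNpos : (0 : ℝ) < N := lt_of_lt_of_le (by positivity) hNl
  have hNinv : 1 / (N : ℝ) ≤ s ^ 2 := by
    rw [div_le_iff₀ hNpos]
    rw [div_le_iff₀ hs2] at hNl
    linarith
  have hNσ : (N : ℝ) * σ ≤ 2 * s ^ 2 := by
    have h1 : (N : ℝ) * s ^ 2 ≤ 1 + s ^ 2 := by
      have h2 : (1 / s ^ 2 + 1) * s ^ 2 = 1 + s ^ 2 := by field_simp
      rw [← h2]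
      exact mul_le_mul_of_nonneg_right hNu hs2.le
    have h3 : s ^ 2 ≤ 1 := pow_le_one₀ hs0.le hs1
    calc (N : ℝ) * σ = ((N : ℝ) * s ^ 2) * s ^ 2 := by rw [← hs4]; ring
      _ ≤ (1 + s ^ 2) * s ^ 2 := mul_le_mul_of_nonneg_right h1 hs2.le
      _ ≤ 2 * s ^ 2 := mul_le_mul_of_nonneg_right (by linarith) hs2.le
  -- multiples of `1/N`
  have hmul : ∀ k : ℕ, k ≤ N → |d ((k : ℝ) / N) - k * d (1 / N)| ≤ k * σ := by
    intro k
    induction k with
    | zero => intro _; simp [hd0]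
    | succ k ih =>
      intro hk
      have hk' : (k : ℝ) + 1 ≤ N := by exact_mod_cast hk
      have e1 := ih (by omega)
      have hkN : |(k : ℝ) / N| ≤ 1 := by
        rw [abs_of_nonneg (by positivity), div_le_one hNpos]
        linarith
      have h1N : |1 / (N : ℝ)| ≤ 1 := by
        rw [abs_of_nonneg (by positivity), div_le_one hNpos]
        have : (0 : ℝ) ≤ k := Nat.cast_nonneg k
        linarith
      have hsum : (k : ℝ) / N + 1 / N = ((k + 1 : ℕ) : ℝ) / N := by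
        push_cast
        ring
      have hsN : |(k : ℝ) / N + 1 / N| ≤ 1 := by
        rw [hsum, abs_of_nonneg (by positivity), div_le_one hNpos]
        push_cast
        exact hk'
      have e2 := hadd _ _ hkN h1N hsN
      rw [hsum] at e2
      have e3 : d (((k + 1 : ℕ) : ℝ) / N) - ((k + 1 : ℕ) : ℝ) * d (1 / N) =
          (d (((k + 1 : ℕ) : ℝ) / N) - d ((k : ℝ) / N) - d (1 / N)) +
            (d ((k : ℝ) / N) - k * d (1 / N)) := by
        push_cast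
        ring
      rw [e3]
      refine (abs_add_le _ _).trans ?_
      push_cast
      push_cast at e2
      linarith
  have hone : |d 1 - N * d (1 / N)| ≤ N * σ := by
    have h := hmul N le_rfl
    rwa [div_self hNpos.ne'] at h
  -- the general point
  obtain ⟨k, hk⟩ : ∃ k : ℕ, k = ⌊(N : ℝ) * t⌋₊ := ⟨_, rfl⟩
  have hk1 : (k : ℝ) ≤ N * t := by rw [hk]; exact Nat.floor_le (by positivity)
  have hk2 : (N : ℝ) * t < k + 1 := by rw [hk]; exact Nat.lt_floor_add_one _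
  have hkN : (k : ℝ) ≤ N := hk1.trans (by nlinarith)
  have hkN' : k ≤ N := by exact_mod_cast hkN
  have hk0 : (0 : ℝ) ≤ k := Nat.cast_nonneg k
  obtain ⟨r, hr⟩ : ∃ r : ℝ, r = t - k / N := ⟨_, rfl⟩
  have hr0 : 0 ≤ r := by
    rw [hr, sub_nonneg, div_le_iff₀ hNpos]
    linarith
  have hr1 : r ≤ 1 / N := by
    rw [hr, sub_le_iff_le_add, ← add_div, le_div_iff₀ hNpos]
    linarith
  have hrs : r ≤ s ^ 2 := hr1.trans hNinv
  have hr11 : |r| ≤ 1 := by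
    rw [abs_of_nonneg hr0]
    exact hrs.trans (pow_le_one₀ hs0.le hs1)
  have hkN1 : |(k : ℝ) / N| ≤ 1 := by
    rw [abs_of_nonneg (by positivity), div_le_one hNpos]
    exact hkN
  have htk : (k : ℝ) / N + r = t := by rw [hr]; ring
  have e1 : |d t - d (k / N) - d r| ≤ σ := by
    have h := hadd (k / N) r hkN1 hr11 (by rw [htk, abs_of_nonneg ht0]; exact ht1)
    rwa [htk] at h
  have e2 : |d r| ≤ K * s := by
    refine (hd r hr11).trans (mul_le_mul_of_nonneg_left ?_ hK)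
    rw [abs_of_nonneg hr0]
    exact (Real.sqrt_le_sqrt hrs).trans_eq (Real.sqrt_sq hs0.le)
  have e3 := hmul k hkN'
  have e4 : |(k : ℝ) * d (1 / N) - (k / N) * d 1| ≤ N * σ := by
    have h1 : (k : ℝ) * d (1 / N) - (k / N) * d 1 = -((k / N) * (d 1 - N * d (1 / N))) := by
      field_simp
      ring
    rw [h1, abs_neg, abs_mul]
    calc |(k : ℝ) / N| * |d 1 - N * d (1 / N)| ≤ 1 * (N * σ) :=
          mul_le_mul hkN1 hone (abs_nonneg _) zero_le_one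
      _ = N * σ := one_mul _
  have e5 : |(k / N) * d 1 - t * d 1| ≤ s ^ 2 * K := by
    have h1 : (k / N) * d 1 - t * d 1 = -(r * d 1) := by rw [hr]; ring
    rw [h1, abs_neg, abs_mul, abs_of_nonneg hr0]
    exact mul_le_mul hrs hd1 (abs_nonneg _) hs2.le
  have e3' : |d (k / N) - k * d (1 / N)| ≤ N * σ :=
    e3.trans (mul_le_mul_of_nonneg_right hkN hσ0.le)
  have hs21 : s ^ 2 ≤ s := by nlinarith
  have hσs : σ ≤ s := by
    rw [← hs4]
    calc s ^ 4 = s ^ 3 * s := by ring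
      _ ≤ 1 * s := mul_le_mul_of_nonneg_right (pow_le_one₀ hs0.le hs1) hs0.le
      _ = s := one_mul s
  have hKs : s ^ 2 * K ≤ s * K := mul_le_mul_of_nonneg_right hs21 hK
  rw [abs_le] at *
  constructor <;> nlinarith

/-- Row D2e. Almost additive functions on [-1, 1]. (N = ⌈σ^(-1/2)⌉; d (k/N) ≈ k d(1/N), k ≤ N.) -/
theorem addQ : ∃ C : ℝ, 0 < C ∧ ∀ (d : ℝ → ℝ) (σ K : ℝ), 0 < σ → σ ≤ 1 → 0 ≤ K →
    (∀ s t : ℝ, |s| ≤ 1 → |t| ≤ 1 → |s + t| ≤ 1 → |d (s + t) - d s - d t| ≤ σ) →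
    (∀ s : ℝ, |s| ≤ 1 → |d s| ≤ K * √ |s|) →
    ∀ t : ℝ, |t| ≤ 1 → |d t - t * d 1| ≤ C * (1 + K) * σ ^ (1 / 4 : ℝ) := by
  refine ⟨6, by norm_num, fun d σ K hσ hσ1 hK hadd hd t ht => ?_⟩
  have hs0 : 0 < σ ^ (1 / 4 : ℝ) := Real.rpow_pos_of_pos hσ _
  have hs1 : σ ^ (1 / 4 : ℝ) ≤ 1 := Real.rpow_le_one hσ.le hσ1 (by norm_num)
  have hs4 : (σ ^ (1 / 4 : ℝ)) ^ 4 = σ := by
    rw [← Real.rpow_natCast, ← Real.rpow_mul hσ.le]
    norm_num
  have hd0 : d 0 = 0 := by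
    have h := hd 0 (by norm_num)
    rw [abs_zero, Real.sqrt_zero, mul_zero] at h
    exact abs_nonpos_iff.1 h
  have hσs : σ ≤ σ ^ (1 / 4 : ℝ) := by
    calc σ = (σ ^ (1 / 4 : ℝ)) ^ 3 * σ ^ (1 / 4 : ℝ) := by rw [← pow_succ, hs4]
      _ ≤ 1 * σ ^ (1 / 4 : ℝ) := mul_le_mul_of_nonneg_right (pow_le_one₀ hs0.le hs1) hs0.le
      _ = _ := one_mul _
  have hKs : 0 ≤ K * σ ^ (1 / 4 : ℝ) := mul_nonneg hK hs0.le
  rcases le_total 0 t with h0 | h0
  · have h := addQ_aux hs0 hs1 hs4 hK hadd hd h0 ((le_abs_self t).trans ht)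
    nlinarith
  · have h1 : -t ≤ 1 := by
      have := neg_abs_le t
      have h2 := (abs_le.1 ht).1
      linarith
    have h := addQ_aux hs0 hs1 hs4 hK hadd hd (t := -t) (by linarith) h1
    have h2 := hadd t (-t) ht (by rwa [abs_neg]) (by rw [add_neg_cancel]; norm_num)
    rw [add_neg_cancel, hd0] at h2
    rw [abs_le] at h h2 ⊢
    constructor <;> nlinarith

end FL27
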