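import Pool.Agent.LibFL27.D1c
import Pool.Agent.LibFL27.D2e
import Pool.Agent.LibFL27.D0b
import Pool.Agent.LibFL27.D0c
import Pool.Agent.LibFL27.D0d

set_option autoImplicit false
set_option maxSynthPendingDepth 3

open Matrix MeasureTheory Topology Filter LibNC38
open LibNC27 hiding Mt
open scoped Matrix.Norms.Elementwise

namespace FL27

private noncomputable def D2f_D {n : ℕ} (τ f : Fn n) (x : V0 n) (t : ℝ) (g : SL n) : ℝ :=
  τ (g * dgm (t • x)) - τ g - ∫ s in (0 : ℝ)..t, f (g * dgm (s • x))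

private theorem D2f_cont_line {n : ℕ} (f : Fn n) (hf : Continuous f) (x : V0 n) (g : SL n) :
    Continuous fun s : ℝ => f (g * dgm (s • x)) := by
  have hd : Continuous fun v : V0 n => dgm v := (dgm_facts (n := n)).2.2.2.2.2
  exact hf.comp (continuous_const.mul (hd.comp (continuous_id.smul continuous_const)))

private theorem D2f_add {n : ℕ} (τ f : Fn n) (hf : Continuous f) (x : V0 n) (t s : ℝ) (g : SL n) :
    D2f_D τ f x (t + s) g = D2f_D τ f x t g + D2f_D τ f x s (g * dgm (t • x)) := by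
  have hadd : ∀ (s t : ℝ) (v : V0 n), dgm ((s + t) • v) = dgm (s • v) * dgm (t • v) :=
    (dgm_facts (n := n)).2.2.2.2.1
  have e1 : ∫ r in (0 : ℝ)..(t + s), f (g * dgm (r • x)) =
      (∫ r in (0 : ℝ)..t, f (g * dgm (r • x))) + ∫ r in t..(t + s), f (g * dgm (r • x)) :=
    (intervalIntegral.integral_add_adjacent_intervals
      ((D2f_cont_line f hf x _).intervalIntegrable _ _)
      ((D2f_cont_line f hf x _).intervalIntegrable _ _)).symm
  have e2 : ∫ r in t..(t + s), f (g * dgm (r • x)) =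
      ∫ r in (0 : ℝ)..s, f (g * dgm (t • x) * dgm (r • x)) := by
    have := intervalIntegral.integral_comp_add_left (a := (0 : ℝ)) (b := s)
      (fun r => f (g * dgm (r • x))) t
    rw [add_zero] at this
    rw [← this]
    refine intervalIntegral.integral_congr fun r _ => ?_
    show f (g * dgm ((t + r) • x)) = f (g * dgm (t • x) * dgm (r • x))
    rw [hadd, mul_assoc]
  unfold D2f_D
  rw [e1, e2, hadd, ← mul_assoc]
  ring

private theorem D2f_near {n : ℕ} (τ f f' : Fn n) (hf : Continuous f) (hf' : Continuous f')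
    (l x : V0 n) (σ : ℝ) (h3 : RQ σ l τ f') (t : ℝ) (ht : |t| ≤ 1)
    (h : ∀ (g : SL n) (s t : ℝ), |t| ≤ 1 →
        |(∫ r in (0 : ℝ)..s, (f' (g * dgm (t • x) * dgm (r • l)) - f' (g * dgm (r • l)))) -
          ∫ r in (0 : ℝ)..t, (f (g * dgm (s • l) * dgm (r • x)) - f (g * dgm (r • x)))| ≤
          σ * (1 + |s|))
    (s : ℝ) (g : SL n) :
    |D2f_D τ f x t (g * dgm (s • l)) - D2f_D τ f x t g| ≤ 3 * (σ * (1 + |s|)) := by
  have hcomm : ∀ v w : V0 n, dgm v * dgm w = dgm w * dgm v := (dgm_facts (n := n)).2.1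
  have e1 := abs_le.1 (h3 (g * dgm (t • x)) s)
  have e2 := abs_le.1 (h3 g s)
  have e3 := abs_le.1 (h g s t ht)
  rw [intervalIntegral.integral_sub ((D2f_cont_line f' hf' l _).intervalIntegrable _ _)
    ((D2f_cont_line f' hf' l _).intervalIntegrable _ _),
    intervalIntegral.integral_sub ((D2f_cont_line f hf x _).intervalIntegrable _ _)
    ((D2f_cont_line f hf x _).intervalIntegrable _ _)] at e3
  have e4 : g * dgm (s • l) * dgm (t • x) = g * dgm (t • x) * dgm (s • l) := by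
    rw [mul_assoc, mul_assoc, hcomm]
  unfold D2f_D
  rw [e4]
  exact abs_le.2 ⟨by linarith [e1.1, e1.2, e2.1, e2.2, e3.1, e3.2],
    by linarith [e1.1, e1.2, e2.1, e2.2, e3.1, e3.2]⟩

private theorem D2f_conj {n : ℕ} (g q : SL n) (y : V0 n) :
    g * q * dgm y = g * dgm y * (dgm (-y) * q * dgm y) := by
  have h1 : dgm y * dgm (-y) = (1 : SL n) := by
    rw [← (dgm_facts (n := n)).1 y (-y), add_neg_cancel]
    exact (dgm_facts (n := n)).2.2.2.1
  calc g * q * dgm y = g * 1 * q * dgm y := by rw [mul_one]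
    _ = g * (dgm y * dgm (-y)) * q * dgm y := by rw [h1]
    _ = g * dgm y * (dgm (-y) * q * dgm y) := by simp only [mul_assoc]

private theorem D2f_hol {n : ℕ} {Γ : Subgroup (SL n)} {M : ℝ} {F : Fn n} (hM : 0 ≤ M)
    (hF : HB Γ M F) (y : V0 n) (hy : ‖y‖ ≤ 2) (g q : SL n) :
    |F (g * q * dgm y) - F (g * dgm y)| ≤ M * (Real.exp 2 * √ (dE q)) := by
  obtain ⟨C, hC, hE, -⟩ := dE_facts n
  rw [D2f_conj]
  refine (hF.hol _ _).trans (mul_le_mul_of_nonneg_left ?_ hM)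
  have hd : 0 ≤ dE q := norm_nonneg _
  have h1 : dE (dgm (-y) * q * dgm y) ≤ Real.exp 2 ^ 2 * dE q := by
    refine (hE y q).trans (mul_le_mul_of_nonneg_right ?_ hd)
    rw [← Real.exp_nat_mul]
    apply Real.exp_le_exp.2
    push_cast
    linarith
  calc √ (dE (dgm (-y) * q * dgm y)) ≤ √ (Real.exp 2 ^ 2 * dE q) := Real.sqrt_le_sqrt h1
    _ = Real.exp 2 * √ (dE q) := by
      rw [Real.sqrt_mul (sq_nonneg _), Real.sqrt_sq (Real.exp_pos 2).le]

private theorem D2f_int (t A : ℝ) (ht : |t| ≤ 1) (u : ℝ → ℝ)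
    (hu : ∀ s, |s| ≤ 1 → |u s| ≤ A) : |∫ s in (0 : ℝ)..t, u s| ≤ A * |t| := by
  have h := intervalIntegral.norm_integral_le_of_norm_le_const (a := (0 : ℝ)) (b := t) (f := u)
    (C := A) (by
      intro s hs
      rw [Real.norm_eq_abs]
      refine hu s ?_
      have h1 := abs_le.1 ht
      rcases le_total 0 t with h0 | h0
      · rw [Set.uIoc_of_le h0] at hs
        exact abs_le.2 ⟨by linarith [hs.1, hs.2], by linarith [hs.1, hs.2, h1.2]⟩
      · rw [Set.uIoc_of_ge h0] at hs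
        exact abs_le.2 ⟨by linarith [hs.1, hs.2, h1.1], by linarith [hs.1, hs.2]⟩)
  rwa [Real.norm_eq_abs, sub_zero] at h

private theorem D2f_HB {n : ℕ} {Γ : Subgroup (SL n)} {M : ℝ} {τ f : Fn n} (hM : 0 ≤ M)
    (hτ : HB Γ M τ) (hf : HB Γ M f) (hfc : Continuous f) (x : V0 n) (hx : ‖x‖ ≤ 2) (t : ℝ)
    (ht : |t| ≤ 1) :
    HB Γ ((2 * Real.exp 2 + 1) * M) (fun g => D2f_D τ f x t g) := by
  have hexp : 1 ≤ Real.exp 2 := Real.one_le_exp (by norm_num)
  have hy : ∀ s : ℝ, |s| ≤ 1 → ‖s • x‖ ≤ 2 := by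
    intro s hs
    rw [norm_smul, Real.norm_eq_abs]
    nlinarith [norm_nonneg x, abs_nonneg s]
  refine ⟨?_, ?_, ?_⟩
  · intro γ hγ g
    show D2f_D τ f x t (γ * g) = D2f_D τ f x t g
    unfold D2f_D
    simp only [mul_assoc]
    rw [hτ.inv γ hγ, hτ.inv γ hγ]
    congr 1
    exact intervalIntegral.integral_congr fun r _ => hf.inv γ hγ _
  · intro g
    show |D2f_D τ f x t g| ≤ _
    have h1 := abs_le.1 (hτ.bd (g * dgm (t • x)))
    have h2 := abs_le.1 (hτ.bd g)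
    have h3 := abs_le.1 (D2f_int t M ht (fun s => f (g * dgm (s • x)))
      fun s _ => hf.bd _)
    have h4 : M * |t| ≤ M := by nlinarith
    have h5 : 3 * M ≤ (2 * Real.exp 2 + 1) * M := by nlinarith
    unfold D2f_D
    exact abs_le.2 ⟨by linarith [h1.1, h2.2, h3.2], by linarith [h1.2, h2.1, h3.1]⟩
  · intro g q
    show |D2f_D τ f x t (g * q) - D2f_D τ f x t g| ≤ _
    have hq : 0 ≤ √ (dE q) := Real.sqrt_nonneg _
    have h1 := abs_le.1 (D2f_hol hM hτ (t • x) (hy t ht) g q)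
    have h2 := abs_le.1 (hτ.hol g q)
    have hA : 0 ≤ M * (Real.exp 2 * √ (dE q)) := by positivity
    have h3 := abs_le.1 (D2f_int t (M * (Real.exp 2 * √ (dE q))) ht
      (fun s => f (g * q * dgm (s • x)) - f (g * dgm (s • x)))
      fun s hs => D2f_hol hM hf (s • x) (hy s hs) g q)
    rw [intervalIntegral.integral_sub ((D2f_cont_line f hfc x _).intervalIntegrable _ _)
      ((D2f_cont_line f hfc x _).intervalIntegrable _ _)] at h3
    have h4 : M * (Real.exp 2 * √ (dE q)) * |t| ≤ M * (Real.exp 2 * √ (dE q)) := by nlinarith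
    have h5 : (2 * Real.exp 2 + 1) * M * √ (dE q) =
      2 * (M * (Real.exp 2 * √ (dE q))) + M * √ (dE q) := by ring
    unfold D2f_D
    rw [h5]
    exact abs_le.2 ⟨by linarith [h1.1, h2.2, h3.2], by linarith [h1.2, h2.1, h3.1]⟩

/-- Row D2f. (quantitative `der_H`) D_t(g) = τ(gD(tx)) - τ(g) - ∫_0^t f(gD(sx)) is almost
l-invariant, so almost constant (mauq); additive in t (addQ). -/
theorem der_HQ {n : ℕ} (hn : 3 ≤ n) (Γ : Subgroup (SL n)) (hc : Coc Γ) (M : ℝ) (hM : 0 ≤ M) :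
    ∃ C b : ℝ, 0 < C ∧ 0 < b ∧ b ≤ 1 ∧ ∀ (σ : ℝ) (τ f f' : Fn n) (l x : V0 n), 0 < σ → σ ≤ 1 →
      HB Γ M τ → HB Γ M f → HB Γ M f' → ‖l‖ = 1 → ‖x‖ ≤ 2 → RQ σ l τ f' →
      (∀ (g : SL n) (s t : ℝ), |t| ≤ 1 →
        |(∫ r in (0 : ℝ)..s, (f' (g * dgm (t • x) * dgm (r • l)) - f' (g * dgm (r • l)))) -
          ∫ r in (0 : ℝ)..t, (f (g * dgm (s • l) * dgm (r • x)) - f (g * dgm (r • x)))| ≤
          σ * (1 + |s|)) →
      ∃ m : ℝ, |m| ≤ C ∧ RQ (C * σ ^ b) x τ (fun g => f g - m) := by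
  obtain ⟨Cm, hCm, hmau⟩ := mauq (n := n) hn Γ hc
  obtain ⟨Ca, hCa, hadq⟩ := addQ
  obtain ⟨Ce, hCe, -, -, -, -, -, -, hdE⟩ := dE_facts n
  obtain ⟨fa1, -, -, -, -, fa6, -, -, -⟩ := HB_facts (n := n) Γ
  obtain ⟨-, -, -, -, rq5, -⟩ := RQ_facts (n := n) Γ
  set M1 : ℝ := |(1 / 3 : ℝ)| * ((2 * Real.exp 2 + 1) * M) with hM1
  have hM1n : 0 ≤ M1 := by positivity
  set C1 : ℝ := 3 * (Cm * (1 + M1)) with hC1
  have hC1n : 0 ≤ C1 := by positivity
  set K : ℝ := M * (√ (2 * Ce) + 1) with hK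
  have hKn : 0 ≤ K := by positivity
  set C2 : ℝ := (C1 + 1) * (Ca * (1 + K)) with hC2
  have hC2n : 0 ≤ C2 := by positivity
  refine ⟨K + C1 + C2 + 1, 1 / 8, by positivity, by norm_num, by norm_num, ?_⟩
  intro σ τ f f' l x hσ hσ1 hτ hf hf' hl hx hR hcl
  have cf : Continuous f := (fa1 M f hf).cont
  have cf' : Continuous f' := (fa1 M f' hf').cont
  have hs0 : 0 < √ σ := Real.sqrt_pos.2 hσ
  have hs1 : √ σ ≤ 1 := (Real.sqrt_le_sqrt hσ1).trans_eq Real.sqrt_one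
  -- almost constant in `g`
  have hcst : ∀ t : ℝ, |t| ≤ 1 → ∀ g g' : SL n,
      |D2f_D τ f x t g - D2f_D τ f x t g'| ≤ C1 * √ σ := by
    intro t ht g g'
    have h1 := fa6 _ _ (1 / 3 : ℝ) (D2f_HB hM hτ hf cf x hx t ht)
    have h2 := hmau σ M1 _ l hσ hσ1 hM1n h1 hl (by
      intro g r
      show |1 / 3 * D2f_D τ f x t (g * dgm (r • l)) - 1 / 3 * D2f_D τ f x t g| ≤ σ * (1 + |r|)
      rw [← mul_sub, abs_mul, abs_of_pos (by norm_num : (0 : ℝ) < 1 / 3)]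
      have := D2f_near τ f f' cf cf' l x σ hR t ht hcl r g
      linarith) g g'
    have h3 : |1 / 3 * D2f_D τ f x t g - 1 / 3 * D2f_D τ f x t g'| ≤ Cm * (1 + M1) * √ σ := h2
    rw [← mul_sub, abs_mul, abs_of_pos (by norm_num : (0 : ℝ) < 1 / 3)] at h3
    rw [hC1]
    linarith
  -- growth of `d`
  have hgr : ∀ s : ℝ, |s| ≤ 1 → |D2f_D τ f x s 1| ≤ K * √ |s| := by
    intro s hs
    have hn0 := abs_nonneg s
    have hsx : ‖s • x‖ ≤ 2 * |s| := by
      rw [norm_smul, Real.norm_eq_abs]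
      nlinarith [norm_nonneg x]
    have h1 : dE (dgm (s • x)) ≤ 2 * Ce * |s| := by
      have h2 := hdE (s • x) (by linarith)
      nlinarith
    have h2 : √ (dE (dgm (s • x))) ≤ √ (2 * Ce) * √ |s| := by
      rw [← Real.sqrt_mul (by positivity)]
      exact Real.sqrt_le_sqrt h1
    have h3 := (hτ.hol 1 (dgm (s • x))).trans (mul_le_mul_of_nonneg_left h2 hM)
    have h4 := D2f_int s M hs (fun r => f (1 * dgm (r • x))) fun r _ => hf.bd _
    have h5 : |s| ≤ √ |s| := by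
      have h6 : √ |s| ≤ 1 := (Real.sqrt_le_sqrt hs).trans_eq Real.sqrt_one
      have h7 := Real.mul_self_sqrt hn0
      nlinarith [Real.sqrt_nonneg |s|]
    have h6 : M * |s| ≤ M * √ |s| := mul_le_mul_of_nonneg_left h5 hM
    have h7 : K * √ |s| = M * (√ (2 * Ce) * √ |s|) + M * √ |s| := by rw [hK]; ring
    rw [h7]
    have a3 := abs_le.1 h3
    have a4 := abs_le.1 h4
    unfold D2f_D
    exact abs_le.2 ⟨by linarith [a3.1, a4.2], by linarith [a3.2, a4.1]⟩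
  -- almost linear
  have hC1p : 0 < C1 + 1 := by linarith
  have hlin : ∀ t : ℝ, |t| ≤ 1 →
      |D2f_D τ f x t 1 - t * D2f_D τ f x 1 1| ≤ C2 * σ ^ (1 / 8 : ℝ) := by
    intro t ht
    have h1 := hadq (fun t => (C1 + 1)⁻¹ * D2f_D τ f x t 1) (√ σ) K hs0 hs1 hKn (by
      intro s t _ ht' _
      show |(C1 + 1)⁻¹ * D2f_D τ f x (s + t) 1 - (C1 + 1)⁻¹ * D2f_D τ f x s 1 -
        (C1 + 1)⁻¹ * D2f_D τ f x t 1| ≤ √ σ
      rw [← mul_sub, ← mul_sub, D2f_add τ f cf x s t 1, abs_mul, abs_of_pos (inv_pos.2 hC1p)]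
      have h2 := hcst t ht' (1 * dgm (s • x)) 1
      have h3 : D2f_D τ f x s 1 + D2f_D τ f x t (1 * dgm (s • x)) - D2f_D τ f x s 1 -
          D2f_D τ f x t 1 = D2f_D τ f x t (1 * dgm (s • x)) - D2f_D τ f x t 1 := by ring
      rw [h3]
      rw [inv_mul_le_iff₀ hC1p]
      nlinarith) (by
      intro s hs
      show |(C1 + 1)⁻¹ * D2f_D τ f x s 1| ≤ K * √ |s|
      rw [abs_mul, abs_of_pos (inv_pos.2 hC1p), inv_mul_le_iff₀ hC1p]
      have h2 := hgr s hs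
      have h3 : 0 ≤ K * √ |s| := mul_nonneg hKn (Real.sqrt_nonneg _)
      nlinarith) t ht
    have h2 : |(C1 + 1)⁻¹ * D2f_D τ f x t 1 - t * ((C1 + 1)⁻¹ * D2f_D τ f x 1 1)| ≤
      Ca * (1 + K) * √ σ ^ (1 / 4 : ℝ) := h1
    have h3 : (C1 + 1)⁻¹ * D2f_D τ f x t 1 - t * ((C1 + 1)⁻¹ * D2f_D τ f x 1 1) =
      (C1 + 1)⁻¹ * (D2f_D τ f x t 1 - t * D2f_D τ f x 1 1) := by ring
    rw [h3, abs_mul, abs_of_pos (inv_pos.2 hC1p), inv_mul_le_iff₀ hC1p] at h2
    have h4 : √ σ ^ (1 / 4 : ℝ) = σ ^ (1 / 8 : ℝ) := by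
      rw [Real.sqrt_eq_rpow, ← Real.rpow_mul hσ.le]
      norm_num
    rw [h4] at h2
    rw [hC2]
    linarith
  have hsb : √ σ ≤ σ ^ (1 / 8 : ℝ) := by
    rw [Real.sqrt_eq_rpow]
    exact Real.rpow_le_rpow_of_exponent_ge hσ hσ1 (by norm_num)
  have hbn : 0 ≤ σ ^ (1 / 8 : ℝ) := Real.rpow_nonneg hσ.le _
  refine ⟨-D2f_D τ f x 1 1, ?_, ?_⟩
  · rw [abs_neg]
    have h1 := hgr 1 (by rw [abs_one])
    rw [abs_one, Real.sqrt_one, mul_one] at h1
    linarith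
  · refine rq5 _ x τ _ (by positivity) (cf.sub continuous_const) ?_
    intro g t ht
    have e1 : ∫ s in (0 : ℝ)..t, (f (g * dgm (s • x)) - -D2f_D τ f x 1 1) =
        (∫ s in (0 : ℝ)..t, f (g * dgm (s • x))) - t * -D2f_D τ f x 1 1 := by
      rw [intervalIntegral.integral_sub ((D2f_cont_line f cf x _).intervalIntegrable _ _)
        intervalIntegrable_const, intervalIntegral.integral_const, sub_zero, smul_eq_mul]
    rw [e1]
    have h1 := abs_le.1 (hcst t ht g 1)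
    have h2 := abs_le.1 (hlin t ht)
    have h3 : τ (g * dgm (t • x)) - τ g - ((∫ s in (0 : ℝ)..t, f (g * dgm (s • x))) -
        t * -D2f_D τ f x 1 1) = (D2f_D τ f x t g - D2f_D τ f x t 1) +
        (D2f_D τ f x t 1 - t * D2f_D τ f x 1 1) := by
      unfold D2f_D
      ring
    rw [h3]
    have h4 : C1 * √ σ ≤ C1 * σ ^ (1 / 8 : ℝ) := mul_le_mul_of_nonneg_left hsb hC1n
    have h5 : (K + C1 + C2 + 1) * σ ^ (1 / 8 : ℝ) = C1 * σ ^ (1 / 8 : ℝ) +
      C2 * σ ^ (1 / 8 : ℝ) + (K + 1) * σ ^ (1 / 8 : ℝ) := by ring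
    have h6 : 0 ≤ (K + 1) * σ ^ (1 / 8 : ℝ) := by positivity
    rw [h5]
    exact abs_le.2 ⟨by linarith [h1.1, h2.1], by linarith [h1.2, h2.2]⟩

end FL27
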