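import Pool.Agent.LibFL27.D2b
import Pool.Agent.LibFL27.D0c

set_option autoImplicit false
set_option maxSynthPendingDepth 3

open Matrix MeasureTheory Topology Filter LibNC38
open LibNC27 hiding Mt
open scoped Matrix.Norms.Elementwise

namespace FL27

/-- Row D2g. (quantitative `tau_root`) -/
theorem tau_rootQ {n : ℕ} (M : ℝ) (hM : 0 ≤ M) :
    ∃ C b : ℝ, 0 < C ∧ 0 < b ∧ b ≤ 1 ∧ ∀ (Γ : Subgroup (SL n)) (σ m : ℝ) (τ f : Fn n) (i j : Fin n)
      (h : i ≠ j), 0 < σ → σ ≤ 1 → HB Γ M τ → LB Γ M f → RQ σ (Hv i j) τ (fun g => f g - m) →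
      ∀ (g : SL n) (r : ℝ), |r| ≤ 1 → |τ (g * tv i j h r) - τ g - Pf i j h f g r| ≤ C * σ ^ b := by
  obtain ⟨Cd, -, -, -, hdt, -⟩ := dE_facts n
  refine ⟨4 + 2 * M, 1 / 2, by linarith, by norm_num, by norm_num, ?_⟩
  intro Γ σ m τ f i j h hσ hσ1 hτ hf hRQ g r hr
  have hfInv : Inv Γ f := (HB_facts Γ).2.1 M f hf
  have hfc : Continuous f := hfInv.cont
  obtain ⟨-, -, -, -, tc, -⟩ := tv_facts i j h
  obtain ⟨-, -, -, -, -, dcont⟩ := @dgm_facts n
  have hC : ∀ (g : SL n) (r : ℝ), |f (g * tv i j h r) - f g| ≤ M * |r| := by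
    intro g r
    exact (hf.lip g _).trans (mul_le_mul_of_nonneg_left (hdt i j h r) hM)
  obtain ⟨hpt, hIoi, -, -, -⟩ := Pf_facts Γ i j h f hfInv M hC
  have hpath : Continuous fun s : ℝ => dgm (s • Hv i j) :=
    dcont.comp (continuous_id.smul continuous_const)
  have hint : ∀ (g' : SL n) (T : ℝ), IntervalIntegrable (fun s : ℝ => f (g' * dgm (s • Hv i j)) - m)
      volume 0 T := by
    intro g' T
    apply Continuous.intervalIntegrable
    exact (hfc.comp (continuous_const.mul hpath)).sub continuous_const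
  set T : ℝ := -Real.log σ with hT
  have hT0 : 0 ≤ T := by
    have := Real.log_nonpos hσ.le hσ1
    linarith
  have heT : Real.exp (-T) = σ := by
    rw [hT, neg_neg, Real.exp_log hσ]
  have hTabs : |T| = T := abs_of_nonneg hT0
  have e1 : |τ (g * tv i j h r * dgm (T • Hv i j)) - τ (g * tv i j h r) -
      ∫ s in (0 : ℝ)..T, (f (g * tv i j h r * dgm (s • Hv i j)) - m)| ≤ σ * (1 + |T|) :=
    hRQ (g * tv i j h r) T
  have e2 : |τ (g * dgm (T • Hv i j)) - τ g -
      ∫ s in (0 : ℝ)..T, (f (g * dgm (s • Hv i j)) - m)| ≤ σ * (1 + |T|) :=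
    hRQ g T
  have e3 : ∫ s in (0 : ℝ)..T, (f (g * tv i j h r * dgm (s • Hv i j)) - f (g * dgm (s • Hv i j))) =
      (∫ s in (0 : ℝ)..T, (f (g * tv i j h r * dgm (s • Hv i j)) - m)) -
        ∫ s in (0 : ℝ)..T, (f (g * dgm (s • Hv i j)) - m) := by
    rw [← intervalIntegral.integral_sub (hint _ T) (hint _ T)]
    congr 1
    ext s
    ring
  -- the bracket
  have e4 : |τ (g * tv i j h r * dgm (T • Hv i j)) - τ (g * dgm (T • Hv i j))| ≤ M * σ := by
    have e : g * tv i j h r * dgm (T • Hv i j) =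
        g * dgm (T • Hv i j) * tv i j h (Real.exp (-(2 * T)) * r) := by
      rw [mul_assoc, tc, ← mul_assoc]
    rw [e]
    refine (hτ.hol _ _).trans (mul_le_mul_of_nonneg_left ?_ hM)
    have h1 : dE (tv i j h (Real.exp (-(2 * T)) * r)) ≤ σ ^ 2 := by
      refine (hdt i j h _).trans ?_
      rw [abs_mul, abs_of_pos (Real.exp_pos _)]
      have h2 : Real.exp (-(2 * T)) = σ ^ 2 := by
        rw [← heT, ← Real.exp_nat_mul]
        congr 1
        push_cast
        ring
      rw [h2]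
      calc σ ^ 2 * |r| ≤ σ ^ 2 * 1 := mul_le_mul_of_nonneg_left hr (by positivity)
        _ = σ ^ 2 := mul_one _
    calc √(dE (tv i j h (Real.exp (-(2 * T)) * r))) ≤ √(σ ^ 2) := Real.sqrt_le_sqrt h1
      _ = σ := Real.sqrt_sq hσ.le
  -- the tail
  have hIoiT : IntegrableOn (fun s : ℝ => f (g * tv i j h r * dgm (s • Hv i j)) -
      f (g * dgm (s • Hv i j))) (Set.Ioi T) :=
    (hIoi g r).mono_set (Set.Ioi_subset_Ioi hT0)
  have e5 : (∫ s in (0 : ℝ)..T, (f (g * tv i j h r * dgm (s • Hv i j)) - f (g * dgm (s • Hv i j)))) +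
      ∫ s in Set.Ioi T, (f (g * tv i j h r * dgm (s • Hv i j)) - f (g * dgm (s • Hv i j))) =
      ∫ s in Set.Ioi (0 : ℝ), (f (g * tv i j h r * dgm (s • Hv i j)) -
        f (g * dgm (s • Hv i j))) :=
    intervalIntegral.integral_interval_add_Ioi (hIoi g r) hIoiT
  have e6 : |∫ s in Set.Ioi T, (f (g * tv i j h r * dgm (s • Hv i j)) -
      f (g * dgm (s • Hv i j)))| ≤ M * σ := by
    have hb : IntegrableOn (fun s : ℝ => M * Real.exp (-s)) (Set.Ioi T) :=
      (integrableOn_exp_neg_Ioi T).const_mul M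
    have h1 : ‖∫ s in Set.Ioi T, (f (g * tv i j h r * dgm (s • Hv i j)) -
        f (g * dgm (s • Hv i j)))‖ ≤ ∫ s in Set.Ioi T, M * Real.exp (-s) := by
      refine norm_integral_le_of_norm_le hb ?_
      refine (ae_restrict_iff' measurableSet_Ioi).mpr (Filter.Eventually.of_forall fun s hs => ?_)
      rw [Real.norm_eq_abs]
      refine (hpt g r s).trans ?_
      have hs0 : 0 ≤ s := hT0.trans (le_of_lt hs)
      have h2 : Real.exp (-(2 * s)) ≤ Real.exp (-s) := Real.exp_le_exp.mpr (by linarith)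
      calc M * |r| * Real.exp (-(2 * s)) ≤ M * 1 * Real.exp (-s) := by
            apply mul_le_mul (mul_le_mul_of_nonneg_left hr hM) h2 (Real.exp_pos _).le
            linarith
        _ = M * Real.exp (-s) := by ring
    rw [Real.norm_eq_abs] at h1
    refine h1.trans (le_of_eq ?_)
    rw [integral_const_mul, integral_exp_neg_Ioi, heT]
  -- the size of the error
  have hsq : σ ≤ √σ := by
    calc σ = √σ * √σ := (Real.mul_self_sqrt hσ.le).symm
      _ ≤ √σ * 1 := by
        apply mul_le_mul_of_nonneg_left _ (Real.sqrt_nonneg σ)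
        exact (Real.sqrt_le_sqrt hσ1).trans (le_of_eq Real.sqrt_one)
      _ = √σ := mul_one _
  have hlog : σ * (1 + T) ≤ 2 * √σ := by
    have hs0 : 0 < √σ := Real.sqrt_pos.mpr hσ
    have h1 : Real.log (1 / √σ) ≤ 1 / √σ - 1 := Real.log_le_sub_one_of_pos (by positivity)
    have h2 : Real.log (1 / √σ) = T / 2 := by
      rw [Real.log_div one_ne_zero hs0.ne', Real.log_one, Real.log_sqrt hσ.le, hT]
      ring
    have h3 : 1 + T ≤ 2 * (1 / √σ) := by linarith
    calc σ * (1 + T) ≤ σ * (2 * (1 / √σ)) := mul_le_mul_of_nonneg_left h3 hσ.le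
      _ = 2 * √σ := by
        have : σ = √σ * √σ := (Real.mul_self_sqrt hσ.le).symm
        calc σ * (2 * (1 / √σ)) = (√σ * √σ) * (2 * (1 / √σ)) := by rw [← this]
          _ = 2 * √σ := by field_simp
  have hpow : σ ^ ((1 : ℝ) / 2) = √σ := (Real.sqrt_eq_rpow σ).symm
  have hmain : τ (g * tv i j h r) - τ g - Pf i j h f g r =
      -(τ (g * tv i j h r * dgm (T • Hv i j)) - τ (g * tv i j h r) -
        ∫ s in (0 : ℝ)..T, (f (g * tv i j h r * dgm (s • Hv i j)) - m)) +
      (τ (g * dgm (T • Hv i j)) - τ g -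
        ∫ s in (0 : ℝ)..T, (f (g * dgm (s • Hv i j)) - m)) +
      (τ (g * tv i j h r * dgm (T • Hv i j)) - τ (g * dgm (T • Hv i j))) +
      ∫ s in Set.Ioi T, (f (g * tv i j h r * dgm (s • Hv i j)) - f (g * dgm (s • Hv i j))) := by
    unfold Pf
    rw [← e5, e3]
    ring
  rw [hmain, hpow]
  have hMs : M * σ ≤ M * √σ := mul_le_mul_of_nonneg_left hsq hM
  rw [hTabs] at e1 e2
  refine (abs_add_le _ _).trans ?_
  refine (add_le_add_left (abs_add_le _ _) _).trans ?_
  refine (add_le_add_left (add_le_add_left (abs_add_le _ _) _) _).trans ?_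
  rw [abs_neg]
  linarith

end FL27
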