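import Pool.Agent.LibFL27.D2g

set_option autoImplicit false
set_option maxSynthPendingDepth 3

open Matrix MeasureTheory Topology Filter LibNC38
open LibNC27 hiding Mt
open scoped Matrix.Norms.Elementwise

namespace FL27

private theorem D2h_RQ_neg {n : ℕ} (σ : ℝ) (w : V0 n) (F F' : Fn n) (h : RQ σ w F F') :
    RQ σ (-w) F (fun g => - F' g) := by
  intro g t
  have h1 := h g (-t)
  have e1 : t • (-w) = (-t) • w := by rw [smul_neg, neg_smul]
  have e2 : (∫ s in (0 : ℝ)..t, - F' (g * dgm (s • (-w)))) =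
      ∫ s in (0 : ℝ)..(-t), F' (g * dgm (s • w)) := by
    have e3 : (fun s : ℝ => - F' (g * dgm (s • (-w)))) =
        fun s : ℝ => (fun r : ℝ => - F' (g * dgm (r • w))) (-s) := by
      funext s
      show - F' (g * dgm (s • (-w))) = - F' (g * dgm ((-s) • w))
      rw [smul_neg, neg_smul]
    rw [e3, intervalIntegral.integral_comp_neg (fun r : ℝ => - F' (g * dgm (r • w))), neg_zero,
      intervalIntegral.integral_symm, intervalIntegral.integral_neg, neg_neg]
  show |F (g * dgm (t • (-w))) - F g - ∫ s in (0 : ℝ)..t, - F' (g * dgm (s • (-w)))| ≤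
    σ * (1 + |t|)
  rw [e2, e1]
  rw [abs_neg] at h1
  exact h1

private theorem D2h_LB_neg {n : ℕ} (Γ : Subgroup (SL n)) (M : ℝ) (f : Fn n) (h : LB Γ M f) :
    LB Γ M (fun x => - f x) := by
  refine ⟨?_, ?_, ?_⟩
  · intro γ hγ g
    show - f (γ * g) = - f g
    rw [h.inv γ hγ g]
  · intro g
    show |- f g| ≤ M
    rw [abs_neg]
    exact h.bd g
  · intro g q
    have h1 := h.lip g q
    have h2 : (fun x => - f x) (g * q) - (fun x => - f x) g = -(f (g * q) - f g) := by
      show - f (g * q) - (- f g) = _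
      ring
    rw [h2, abs_neg]
    exact h1

/-- Row D2h. (antisymmetry, as in `potential`) three times D2g, also for the root (j, i). -/
theorem tau_antiQ {n : ℕ} (M : ℝ) (hM : 0 ≤ M) :
    ∃ C b : ℝ, 0 < C ∧ 0 < b ∧ b ≤ 1 ∧ ∀ (Γ : Subgroup (SL n)) (σ m : ℝ) (f : Fn n) (i j : Fin n)
      (h : i ≠ j), 0 < σ → σ ≤ 1 → HB Γ M (tau i j h f) → LB Γ M f →
      RQ σ (Hv i j) (tau i j h f) (fun g => f g - m) →
      ∀ g : SL n, |tau i j h f (g * kk i j h) + tau i j h f g| ≤ C * σ ^ b := by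
  obtain ⟨C, b, hC, hb, hb1, H⟩ := tau_rootQ (n := n) M hM
  refine ⟨3 * C, b, by positivity, hb, hb1, ?_⟩
  intro Γ σ m f i j h hσ hσ1 hτ hf hR g
  have hneg : Hv j i = - Hv i j := by
    obtain ⟨-, -, hneg, -⟩ := Hv_facts i j h
    exact hneg
  have hR' : RQ σ (Hv j i) (tau i j h f) (fun g => (fun x => - f x) g - (-m)) := by
    have h1 := D2h_RQ_neg σ (Hv i j) _ _ hR
    rw [hneg]
    have h2 : (fun g : SL n => -(f g - m)) = (fun g => (fun x => - f x) g - (-m)) := by
      funext g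
      show -(f g - m) = - f g - (-m)
      ring
    rw [← h2]
    exact h1
  have e1 := H Γ σ m (tau i j h f) f i j h hσ hσ1 hτ hf hR g 1 (by norm_num)
  have e2 := H Γ σ (-m) (tau i j h f) (fun x => - f x) j i h.symm hσ hσ1 hτ (D2h_LB_neg Γ M f hf)
    hR' (g * tv i j h 1) (-1) (by norm_num)
  have e3 := H Γ σ m (tau i j h f) f i j h hσ hσ1 hτ hf hR
    (g * tv i j h 1 * tv j i h.symm (-1)) 1 (by norm_num)
  have e4 : tau i j h f g = -(1 / 2) * (Pf i j h f g 1 +
      Pf j i h.symm (fun x => - f x) (g * tv i j h 1) (-1) +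
      Pf i j h f (g * tv i j h 1 * tv j i h.symm (-1)) 1) := rfl
  have e5 : g * kk i j h = g * tv i j h 1 * tv j i h.symm (-1) * tv i j h 1 := by
    unfold kk
    simp only [mul_assoc]
  rw [e5]
  rw [abs_le] at e1 e2 e3 ⊢
  constructor
  · linarith [e1.1, e2.1, e3.1]
  · linarith [e1.2, e2.2, e3.2]

end FL27
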