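import Pool.Agent.LibFL27.D0b
import Pool.Agent.LibFL27.D0c

set_option autoImplicit false
set_option maxSynthPendingDepth 3

open Matrix MeasureTheory Topology Filter LibNC38
open LibNC27 hiding Mt
open scoped Matrix.Norms.Elementwise

namespace FL27

private theorem D2i_cont {n : ℕ} {Γ : Subgroup (SL n)} {M : ℝ} {F : Fn n} (hF : HB Γ M F)
    (g : SL n) (w : V0 n) : Continuous fun s : ℝ => F (g * dgm (s • w)) := by
  have h1 : Continuous F := ((HB_facts Γ).1 M F hF).cont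
  have h2 : Continuous fun v : V0 n => dgm v := dgm_facts.2.2.2.2.2
  have h3 : Continuous fun s : ℝ => s • w := continuous_id.smul continuous_const
  exact h1.comp (continuous_const.mul (h2.comp h3))

private theorem D2i_hol {n : ℕ} {Γ : Subgroup (SL n)} {M K : ℝ} {F : Fn n} (hM : 0 ≤ M)
    (hK : 1 ≤ K) (hd : ∀ y : V0 n, ‖y‖ ≤ 4 → dE (dgm y) ≤ K * ‖y‖) (hF : HB Γ M F)
    (g : SL n) (y : V0 n) (r : ℝ) (hr : |r| ≤ 1) (hy : ‖y‖ ≤ 4 * |r|) :
    |F (g * dgm y) - F g| ≤ M * √(4 * K) * √|r| := by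
  have h1 : dE (dgm y) ≤ 4 * K * |r| := by
    refine (hd y (hy.trans (by linarith))).trans ?_
    nlinarith
  calc |F (g * dgm y) - F g| ≤ M * √(dE (dgm y)) := hF.hol g _
    _ ≤ M * √(4 * K * |r|) := mul_le_mul_of_nonneg_left (Real.sqrt_le_sqrt h1) hM
    _ = M * √(4 * K) * √|r| := by rw [Real.sqrt_mul (by linarith), mul_assoc]

private theorem D2i_two {n : ℕ} {Γ : Subgroup (SL n)} {M K : ℝ} {F : Fn n} (hM : 0 ≤ M)
    (hK : 1 ≤ K) (hd : ∀ y : V0 n, ‖y‖ ≤ 4 → dE (dgm y) ≤ K * ‖y‖) (hF : HB Γ M F)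
    (g : SL n) (y z : V0 n) (r : ℝ) (hr : |r| ≤ 1) (hy : ‖y‖ ≤ 4 * |r|) (hz : ‖z‖ ≤ 4 * |r|) :
    |F (g * dgm y * dgm z) - F g| ≤ 2 * (M * √(4 * K) * √|r|) := by
  have h1 := D2i_hol hM hK hd hF g y r hr hy
  have h2 := D2i_hol hM hK hd hF (g * dgm y) z r hr hz
  have h3 : F (g * dgm y * dgm z) - F g =
      (F (g * dgm y * dgm z) - F (g * dgm y)) + (F (g * dgm y) - F g) := by ring
  rw [h3]
  refine (abs_add_le _ _).trans ?_
  linarith

private theorem D2i_int (φ : ℝ → ℝ) (hφ : Continuous φ) (c D T : ℝ)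
    (h : ∀ s, |s| ≤ |T| → |φ s - c| ≤ D) : |(∫ s in (0 : ℝ)..T, φ s) - T * c| ≤ D * |T| := by
  have h1 : (∫ s in (0 : ℝ)..T, φ s) - T * c = ∫ s in (0 : ℝ)..T, (φ s - c) := by
    rw [intervalIntegral.integral_sub (hφ.intervalIntegrable _ _)
      (continuous_const.intervalIntegrable _ _), intervalIntegral.integral_const, sub_zero,
      smul_eq_mul]
  rw [h1]
  have h2 := intervalIntegral.norm_integral_le_of_norm_le_const (a := 0) (b := T) (C := D)
    (f := fun s => φ s - c) (fun s hs => by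
      rw [Real.norm_eq_abs]
      refine h s ?_
      rcases le_total 0 T with hT | hT
      · rw [Set.uIoc_of_le hT] at hs
        rw [abs_of_pos hs.1, abs_of_nonneg hT]
        exact hs.2
      · rw [Set.uIoc_of_ge hT] at hs
        rw [abs_of_nonpos hs.2, abs_of_nonpos hT]
        linarith [hs.1])
  rw [Real.norm_eq_abs, sub_zero] at h2
  exact h2

private theorem D2i_nrm {n : ℕ} {v : V0 n} {s a r : ℝ} (hv : ‖v‖ ≤ 2) (ha : |a| ≤ 2)
    (hs : |s| ≤ |r|) : ‖(s * a) • v‖ ≤ 4 * |r| := by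
  rw [norm_smul, Real.norm_eq_abs, abs_mul]
  calc |s| * |a| * ‖v‖ ≤ |r| * 2 * 2 :=
        mul_le_mul (mul_le_mul hs ha (abs_nonneg _) (abs_nonneg _)) hv (norm_nonneg _)
          (by positivity)
    _ = 4 * |r| := by ring

private theorem D2i_spl {n : ℕ} (g : SL n) (l x : V0 n) (a a' s : ℝ) :
    g * dgm (s • (a • l + a' • x)) = g * dgm ((s * a) • l) * dgm ((s * a') • x) := by
  rw [smul_add, smul_smul, smul_smul, dgm_facts.1, mul_assoc]

private theorem D2i_step {n : ℕ} {Γ : Subgroup (SL n)} {M K σ : ℝ} {τ f f' : Fn n} (hM : 0 ≤ M)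
    (hK : 1 ≤ K) (hd : ∀ y : V0 n, ‖y‖ ≤ 4 → dE (dgm y) ≤ K * ‖y‖) (hσ : 0 < σ)
    {l x : V0 n} {a a' : ℝ} (ha : |a| ≤ 2) (ha' : |a'| ≤ 2) (hl : ‖l‖ ≤ 2) (hx : ‖x‖ ≤ 2)
    (hf : HB Γ M f) (hf' : HB Γ M f') (h1 : RQ σ l τ f) (h2 : RQ σ x τ f') (h : ℝ)
    (hh : |h| ≤ 1) (g : SL n) :
    |τ (g * dgm (h • (a • l + a' • x))) - τ g -
      ∫ s in (0 : ℝ)..h, (a * f (g * dgm (s • (a • l + a' • x))) +
        a' * f' (g * dgm (s • (a • l + a' • x))))| ≤
      6 * σ + 14 * (M * √(4 * K)) * (|h| * √|h|) := by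
  set B : ℝ := M * √(4 * K) with hB
  have hB0 : 0 ≤ B := mul_nonneg hM (Real.sqrt_nonneg _)
  have hr0 : 0 ≤ √|h| := Real.sqrt_nonneg _
  have hh0 : 0 ≤ |h| := abs_nonneg _
  have hP : 0 ≤ B * (|h| * √|h|) := by positivity
  have hha : |h * a| ≤ 2 * |h| := by
    rw [abs_mul]; nlinarith
  have hha' : |h * a'| ≤ 2 * |h| := by
    rw [abs_mul]; nlinarith
  -- the two curves
  have e1 := h1 g (h * a)
  have e2 := h2 (g * dgm ((h * a) • l)) (h * a')
  -- the integrals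
  have i1 := D2i_int (fun s => f (g * dgm (s • l))) (D2i_cont hf g l) (f g) (B * √|h|) (h * a)
    (fun s hs => D2i_hol hM hK hd hf g (s • l) h hh (by
      rw [norm_smul, Real.norm_eq_abs]
      nlinarith [norm_nonneg l, abs_nonneg s]))
  have i2 := D2i_int (fun s => f' (g * dgm ((h * a) • l) * dgm (s • x)))
    (D2i_cont hf' (g * dgm ((h * a) • l)) x) (f' g) (2 * (B * √|h|)) (h * a')
    (fun s hs => D2i_two hM hK hd hf' g ((h * a) • l) (s • x) h hh (D2i_nrm hl ha le_rfl) (by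
      rw [norm_smul, Real.norm_eq_abs]
      nlinarith [norm_nonneg x, abs_nonneg s]))
  have hc : Continuous fun s : ℝ => a * f (g * dgm (s • (a • l + a' • x))) +
      a' * f' (g * dgm (s • (a • l + a' • x))) :=
    (continuous_const.mul (D2i_cont hf g _)).add (continuous_const.mul (D2i_cont hf' g _))
  have i3 := D2i_int _ hc (a * f g + a' * f' g) (8 * (B * √|h|)) h (fun s hs => by
    rw [D2i_spl]
    have k1 := D2i_two hM hK hd hf g ((s * a) • l) ((s * a') • x) h hh (D2i_nrm hl ha hs)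
      (D2i_nrm hx ha' hs)
    have k2 := D2i_two hM hK hd hf' g ((s * a) • l) ((s * a') • x) h hh (D2i_nrm hl ha hs)
      (D2i_nrm hx ha' hs)
    rw [← hB] at k1 k2
    set p := f (g * dgm ((s * a) • l) * dgm ((s * a') • x)) - f g with hp
    set p' := f' (g * dgm ((s * a) • l) * dgm ((s * a') • x)) - f' g with hp'
    have e : a * f (g * dgm ((s * a) • l) * dgm ((s * a') • x)) +
        a' * f' (g * dgm ((s * a) • l) * dgm ((s * a') • x)) - (a * f g + a' * f' g) =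
        a * p + a' * p' := by rw [hp, hp']; ring
    rw [e]
    refine (abs_add_le _ _).trans ?_
    rw [abs_mul, abs_mul]
    have m1 : |a| * |p| ≤ 2 * (2 * (B * √|h|)) :=
      mul_le_mul ha k1 (abs_nonneg _) (by norm_num)
    have m2 : |a'| * |p'| ≤ 2 * (2 * (B * √|h|)) :=
      mul_le_mul ha' k2 (abs_nonneg _) (by norm_num)
    linarith)
  have j1 : B * √|h| * |h * a| ≤ 2 * (B * (|h| * √|h|)) := by
    have : B * √|h| * |h * a| ≤ B * √|h| * (2 * |h|) :=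
      mul_le_mul_of_nonneg_left hha (mul_nonneg hB0 hr0)
    linarith
  have j2 : 2 * (B * √|h|) * |h * a'| ≤ 4 * (B * (|h| * √|h|)) := by
    have : 2 * (B * √|h|) * |h * a'| ≤ 2 * (B * √|h|) * (2 * |h|) :=
      mul_le_mul_of_nonneg_left hha' (by positivity)
    linarith
  have s1 : σ * (1 + |h * a|) ≤ 3 * σ := by nlinarith
  have s2 : σ * (1 + |h * a'|) ≤ 3 * σ := by nlinarith
  rw [D2i_spl]
  rw [abs_le] at *
  constructor
  · nlinarith [e1.1, e1.2, e2.1, e2.2, i1.1, i1.2, i2.1, i2.2, i3.1, i3.2]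
  · nlinarith [e1.1, e1.2, e2.1, e2.2, i1.1, i1.2, i2.1, i2.2, i3.1, i3.2]

private theorem D2i_iter {n : ℕ} {τ G : Fn n} {w : V0 n} {h e : ℝ}
    (hG : ∀ g : SL n, Continuous fun s : ℝ => G (g * dgm (s • w)))
    (hs : ∀ g : SL n, |τ (g * dgm (h • w)) - τ g -
      ∫ s in (0 : ℝ)..h, G (g * dgm (s • w))| ≤ e) :
    ∀ (N : ℕ) (g : SL n), |τ (g * dgm (((N : ℝ) * h) • w)) - τ g -
      ∫ s in (0 : ℝ)..((N : ℝ) * h), G (g * dgm (s • w))| ≤ N * e := by
  intro N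
  induction N with
  | zero =>
    intro g
    rw [Nat.cast_zero, zero_mul, dgm_facts.2.2.1, mul_one, sub_self,
      intervalIntegral.integral_same, sub_zero, abs_zero, zero_mul]
  | succ N ih =>
    intro g
    have e1 : ((N + 1 : ℕ) : ℝ) * h = (N : ℝ) * h + h := by push_cast; ring
    have i1 := ih g
    have i2 := hs (g * dgm (((N : ℝ) * h) • w))
    have e2 : (∫ s in (0 : ℝ)..((N : ℝ) * h + h), G (g * dgm (s • w))) =
        (∫ s in (0 : ℝ)..((N : ℝ) * h), G (g * dgm (s • w))) +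
          ∫ s in (0 : ℝ)..h, G (g * dgm (((N : ℝ) * h) • w) * dgm (s • w)) := by
      rw [← intervalIntegral.integral_add_adjacent_intervals
        ((hG g).intervalIntegrable 0 ((N : ℝ) * h))
        ((hG g).intervalIntegrable ((N : ℝ) * h) ((N : ℝ) * h + h))]
      congr 1
      have e3 := intervalIntegral.integral_comp_add_left (a := 0) (b := h)
        (fun s => G (g * dgm (s • w))) ((N : ℝ) * h)
      rw [add_zero] at e3
      rw [← e3]
      refine intervalIntegral.integral_congr fun s _ => ?_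
      show G (g * dgm (((N : ℝ) * h + s) • w)) = _
      rw [dgm_facts.2.2.2.2.1, mul_assoc]
    rw [e1, e2, dgm_facts.2.2.2.2.1, ← mul_assoc]
    have e4 : ((N + 1 : ℕ) : ℝ) * e = N * e + e := by push_cast; ring
    rw [e4]
    rw [abs_le] at *
    constructor <;> linarith [i1.1, i1.2, i2.1, i2.2]

/-- Row D2i. Sums of directions (N = ⌈σ^(-1/2)⌉ small steps). -/
theorem RQ_dir {n : ℕ} (M : ℝ) (hM : 0 ≤ M) :
    ∃ C b : ℝ, 0 < C ∧ 0 < b ∧ b ≤ 1 ∧ ∀ (Γ : Subgroup (SL n)) (σ : ℝ) (τ f f' : Fn n) (l x : V0 n)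
      (a a' : ℝ), 0 < σ → σ ≤ 1 → |a| ≤ 2 → |a'| ≤ 2 → ‖l‖ ≤ 2 → ‖x‖ ≤ 2 → HB Γ M τ → HB Γ M f →
      HB Γ M f' → RQ σ l τ f → RQ σ x τ f' →
      RQ (C * σ ^ b) (a • l + a' • x) τ (fun g => a * f g + a' * f' g) := by
  obtain ⟨K, hK, -, -, -, -, -, -, hd⟩ := dE_facts n
  have hB0 : 0 ≤ M * √(4 * K) := mul_nonneg hM (Real.sqrt_nonneg _)
  refine ⟨12 + 28 * (M * √(4 * K)), 1 / 4, by positivity, by norm_num, by norm_num, ?_⟩
  intro Γ σ τ f f' l x a a' hσ hσ1 ha ha' hl hx hτ hf hf' h1 h2 g t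
  set y : ℝ := σ ^ (1 / 4 : ℝ) with hy
  have hy0 : 0 < y := Real.rpow_pos_of_pos hσ _
  have hy1 : y ≤ 1 := Real.rpow_le_one hσ.le hσ1 (by norm_num)
  have hy4 : y ^ 4 = σ := by
    rw [hy, ← Real.rpow_natCast, ← Real.rpow_mul hσ.le]
    norm_num
  have ht0 : 0 ≤ |t| := abs_nonneg t
  have hq1 : 1 ≤ (1 + |t|) / y ^ 2 := by
    rw [le_div_iff₀ (by positivity)]
    nlinarith
  set N : ℕ := ⌈(1 + |t|) / y ^ 2⌉₊ with hN
  have hN1 : (1 + |t|) / y ^ 2 ≤ N := Nat.le_ceil _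
  have hN2 : (N : ℝ) ≤ 2 * ((1 + |t|) / y ^ 2) := by
    have := Nat.ceil_lt_add_one (a := (1 + |t|) / y ^ 2) (by positivity)
    rw [← hN] at this
    linarith
  have hN0 : 0 < (N : ℝ) := by linarith
  have hh : |t / N| ≤ y ^ 2 := by
    rw [abs_div, abs_of_pos hN0, div_le_iff₀ hN0]
    have h3 : 1 + |t| ≤ N * y ^ 2 := by
      rwa [div_le_iff₀ (by positivity)] at hN1
    linarith
  have hh1 : |t / N| ≤ 1 := hh.trans (by nlinarith)
  have hsq : √|t / N| ≤ y := by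
    have := Real.sqrt_le_sqrt hh
    rwa [Real.sqrt_sq hy0.le] at this
  have hpr : |t / N| * √|t / N| ≤ y ^ 3 := by
    calc |t / N| * √|t / N| ≤ y ^ 2 * y := mul_le_mul hh hsq (Real.sqrt_nonneg _) (by positivity)
      _ = y ^ 3 := by ring
  have hc : ∀ g : SL n, Continuous fun s : ℝ => (fun g => a * f g + a' * f' g)
      (g * dgm (s • (a • l + a' • x))) := fun g =>
    (continuous_const.mul (D2i_cont hf g _)).add (continuous_const.mul (D2i_cont hf' g _))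
  have key := D2i_iter (τ := τ) (G := fun g => a * f g + a' * f' g) (w := a • l + a' • x)
    (h := t / N) hc (fun g => D2i_step hM hK hd hσ ha ha' hl hx hf hf' h1 h2 (t / N) hh1 g) N g
  have eN : (N : ℝ) * (t / N) = t := by field_simp
  rw [eN] at key
  refine key.trans ?_
  have b1 : 6 * σ + 14 * (M * √(4 * K)) * (|t / N| * √|t / N|) ≤
      6 * y ^ 4 + 14 * (M * √(4 * K)) * y ^ 3 := by
    rw [hy4]
    have := mul_le_mul_of_nonneg_left hpr (by positivity : 0 ≤ 14 * (M * √(4 * K)))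
    linarith
  calc (N : ℝ) * (6 * σ + 14 * (M * √(4 * K)) * (|t / N| * √|t / N|))
      ≤ 2 * ((1 + |t|) / y ^ 2) * (6 * y ^ 4 + 14 * (M * √(4 * K)) * y ^ 3) :=
        mul_le_mul hN2 b1 (by positivity) (by positivity)
    _ = (1 + |t|) * (12 * y ^ 2 + 28 * (M * √(4 * K)) * y) := by
        field_simp
        ring
    _ ≤ (1 + |t|) * (12 * y + 28 * (M * √(4 * K)) * y) := by
        refine mul_le_mul_of_nonneg_left ?_ (by positivity)
        nlinarith
    _ = (12 + 28 * (M * √(4 * K))) * y * (1 + |t|) := by ring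

end FL27
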