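import Pool.Agent.LibFL27.D2d
import Pool.Agent.LibFL27.D2f
import Pool.Agent.LibFL27.D2h
import Pool.Agent.LibFL27.D2i

set_option autoImplicit false
set_option maxSynthPendingDepth 3

open Matrix MeasureTheory Topology Filter LibNC38
open LibNC27 hiding Mt
open scoped Matrix.Norms.Elementwise

namespace FL27

private theorem D2j_HBmono {n : ℕ} {Γ : Subgroup (SL n)} {M M' : ℝ} {F : Fn n} (h : HB Γ M F)
    (hM : M ≤ M') : HB Γ M' F :=
  ⟨h.inv, fun g => (h.bd g).trans hM, fun g q => (h.hol g q).trans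
    (mul_le_mul_of_nonneg_right hM (Real.sqrt_nonneg _))⟩

private theorem D2j_LBmono {n : ℕ} {Γ : Subgroup (SL n)} {M M' : ℝ} {F : Fn n} (h : LB Γ M F)
    (hM : M ≤ M') : LB Γ M' F :=
  ⟨h.inv, fun g => (h.bd g).trans hM, fun g q => (h.lip g q).trans
    (mul_le_mul_of_nonneg_right hM (by unfold dE; positivity))⟩

private theorem D2j_RQmono {n : ℕ} {σ σ' : ℝ} {w : V0 n} {F F' : Fn n} (h : RQ σ w F F')
    (hσ : σ ≤ σ') : RQ σ' w F F' := fun g t => (h g t).trans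
  (mul_le_mul_of_nonneg_right hσ (by positivity))

private theorem D2j_HBsub {n : ℕ} {Γ : Subgroup (SL n)} {M m K : ℝ} {F : Fn n} (h : HB Γ M F)
    (hm : |m| ≤ K) (hK : 0 ≤ K) : HB Γ (M + K) (fun g => F g - m) := by
  refine ⟨fun γ hγ g => by simp only [h.inv γ hγ g], fun g => ?_, fun g q => ?_⟩
  · exact (abs_sub _ _).trans (add_le_add (h.bd g) hm)
  · have h1 : F (g * q) - m - (F g - m) = F (g * q) - F g := by ring
    simp only [h1]
    exact (h.hol g q).trans (mul_le_mul_of_nonneg_right (by linarith) (Real.sqrt_nonneg _))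

private theorem D2j_norm_proj {n : ℕ} (i j : Fin n) (h : i ≠ j) (l l' : V0 n)
    (hl' : l'.1 i = l'.1 j) (hd : l = l' + ((l.1 i - l.1 j) / 2) • Hv i j) :
    ‖l'‖ ≤ ‖l‖ ∧ |(l.1 i - l.1 j) / 2| ≤ ‖l‖ := by
  obtain ⟨-, hin, -, -, -, -⟩ := Hv_facts i j h
  have h1 : inner ℝ l' (Hv i j) = (0 : ℝ) := by rw [hin l', hl', sub_self]
  have h2 : ‖l‖ * ‖l‖ = ‖l'‖ * ‖l'‖ + ‖((l.1 i - l.1 j) / 2) • Hv i j‖ *
      ‖((l.1 i - l.1 j) / 2) • Hv i j‖ := by
    conv_lhs => rw [hd]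
    apply norm_add_sq_eq_norm_sq_add_norm_sq_real
    rw [inner_smul_right, h1, mul_zero]
  refine ⟨?_, ?_⟩
  · apply abs_le_of_sq_le_sq' _ (norm_nonneg l) |>.2
    nlinarith [mul_self_nonneg ‖((l.1 i - l.1 j) / 2) • Hv i j‖]
  · have h3 : |l.1 i| ≤ ‖l‖ := by
      have := PiLp.norm_apply_le l.1 i
      simpa using this
    have h4 : |l.1 j| ≤ ‖l‖ := by
      have := PiLp.norm_apply_le l.1 j
      simpa using this
    rw [abs_div, abs_of_pos (by norm_num : (0 : ℝ) < 2)]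
    have := abs_sub (l.1 i) (l.1 j)
    linarith

private theorem D2j_normH {n : ℕ} (i j : Fin n) (h : i ≠ j) : ‖Hv i j‖ ≤ 2 := by
  obtain ⟨ha, hin, -, -, -, -⟩ := Hv_facts i j h
  have h1 : ‖Hv i j‖ ^ 2 = 2 := by
    rw [← real_inner_self_eq_norm_sq, hin, ha, ha]
    simp [h, h.symm]
    norm_num
  nlinarith [norm_nonneg (Hv i j)]

private theorem D2j_pow1 {x b : ℝ} (h0 : 0 < x) (h1 : x ≤ 1) (hb : b ≤ 1) : x ≤ x ^ b := by
  have := Real.rpow_le_rpow_of_exponent_ge h0 h1 hb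
  rwa [Real.rpow_one] at this

/-- Row D2j. (quantitative `potential_all`) -/
theorem potentialQ {n : ℕ} (hn : 3 ≤ n) (Γ : Subgroup (SL n)) (hc : Coc Γ) (M : ℝ) (hM : 0 ≤ M) :
    ∃ C b : ℝ, 0 < C ∧ 0 < b ∧ b ≤ 1 ∧ ∀ (σ : ℝ) (i j : Fin n) (h : i ≠ j) (e : V0 n →ₗ[ℝ] Fn n),
      0 < σ → σ ≤ 1 → CloQ Γ M σ i j e → AntiQ σ i j h e →
      HB Γ C (tau i j h (e (Hv i j))) ∧
      (∀ g, |tau i j h (e (Hv i j)) (g * kk i j h) + tau i j h (e (Hv i j)) g| ≤ C * σ ^ b) ∧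
      ∃ m : ℝ, |m| ≤ C ∧ ∀ l : V0 n, ‖l‖ ≤ 2 → RQ (C * σ ^ b) l (tau i j h (e (Hv i j)))
        (fun g => e l g - m * (l.1 i - l.1 j)) := by
  obtain ⟨C1, hC1, hker⟩ := tau_kerQ (n := n)
  -- common bound of the Hölder norms
  set M1 : ℝ := C1 * M + M with hM1
  have hM1n : 0 ≤ M1 := by positivity
  obtain ⟨C3, b3, hC3, hb3, hb31, hder⟩ := der_HQ hn Γ hc M1 hM1n
  set M2 : ℝ := M1 + C3 with hM2
  have hM2n : 0 ≤ M2 := by positivity
  obtain ⟨C4, b4, hC4, hb4, hb41, hanti⟩ := tau_antiQ (n := n) M2 hM2n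
  set M5 : ℝ := 2 * M2 with hM5
  have hM5n : 0 ≤ M5 := by positivity
  obtain ⟨C5, b5, hC5, hb5, hb51, hdir⟩ := RQ_dir (n := n) M5 hM5n
  set K1 : ℝ := C1 * (1 + M) + 2 with hK1
  have hK1p : 1 ≤ K1 := by
    have : 0 ≤ C1 * (1 + M) := by positivity
    linarith
  set K2 : ℝ := (C3 + 1) * K1 with hK2
  have hK2p : 1 ≤ K2 := by
    have : 0 ≤ C3 * K1 := by positivity
    rw [hK2]; nlinarith
  set b : ℝ := b3 / 2 * (b4 * b5) with hb
  have hb45 : b4 * b5 ≤ 1 := mul_le_one₀ hb41 hb5.le hb51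
  have hb45p : 0 < b4 * b5 := mul_pos hb4 hb5
  have hbp : 0 < b := by positivity
  have hb1 : b ≤ 1 := by rw [hb]; nlinarith
  set C : ℝ := M1 + C3 + C4 * K2 + C5 * K2 + K2 * (2 * M1) + 1 with hC
  have hCp : 0 < C := by positivity
  refine ⟨C, b, hCp, hbp, hb1, ?_⟩
  intro σ i j h e hσ0 hσ1 hclo hant
  obtain ⟨hHB, hkerl⟩ := hker Γ M σ i j h e hM hσ0 hσ1 hclo hant
  set τ : Fn n := tau i j h (e (Hv i j)) with hτ
  have hHB1 : HB Γ M1 τ := D2j_HBmono hHB (by rw [hM1]; linarith)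
  have hHBC : HB Γ C τ := D2j_HBmono hHB1 (by
    have h1 : 0 ≤ C4 * K2 := by positivity
    have h2 : 0 ≤ C5 * K2 := by positivity
    have h3 : 0 ≤ K2 * (2 * M1) := by positivity
    rw [hC]; linarith)
  have hH2 : ‖Hv i j‖ ≤ 2 := D2j_normH i j h
  refine ⟨hHBC, ?_⟩
  have hσb : 0 < σ ^ b := Real.rpow_pos_of_pos hσ0 b
  have hs : 0 < σ ^ (b3 / 2) := Real.rpow_pos_of_pos hσ0 _
  have hs1 : σ ^ (b3 / 2) ≤ 1 := Real.rpow_le_one hσ0.le hσ1 (by positivity)
  by_cases hbig : 1 < K2 * σ ^ (b3 / 2)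
  · -- large σ: everything is trivial
    have hlow : 1 ≤ K2 * σ ^ b := by
      have e1 : σ ^ b = (σ ^ (b3 / 2)) ^ (b4 * b5) := by
        rw [← Real.rpow_mul hσ0.le]
      have e2 : σ ^ (b3 / 2) ≤ σ ^ b := by
        rw [e1]; exact D2j_pow1 hs hs1 hb45
      have := mul_le_mul_of_nonneg_left e2 (by linarith : (0 : ℝ) ≤ K2)
      linarith
    have hC2 : 2 * M1 ≤ C * σ ^ b := by
      have h1 : 2 * M1 ≤ (K2 * (2 * M1)) * σ ^ b := by
        have := mul_le_mul_of_nonneg_left hlow (by positivity : (0 : ℝ) ≤ 2 * M1)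
        nlinarith
      refine h1.trans (mul_le_mul_of_nonneg_right ?_ hσb.le)
      have h4 : 0 ≤ C4 * K2 := by positivity
      have h2 : 0 ≤ C5 * K2 := by positivity
      rw [hC]; linarith
    refine ⟨fun g => ?_, 0, by simpa using hCp.le, fun l hl g t => ?_⟩
    · have h1 := hHB1.bd (g * kk i j h)
      have h2 := hHB1.bd g
      have := abs_add_le (τ (g * kk i j h)) (τ g)
      linarith
    · have h1 := hHB1.bd (g * dgm (t • l))
      have h2 := hHB1.bd g
      have h3 : |∫ s in (0 : ℝ)..t, (fun g => e l g - 0 * (l.1 i - l.1 j)) (g * dgm (s • l))| ≤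
          M1 * |t| := by
        have h4 := intervalIntegral.norm_integral_le_of_norm_le_const (a := (0 : ℝ)) (b := t)
          (C := M1) (f := fun s => (fun g => e l g - 0 * (l.1 i - l.1 j)) (g * dgm (s • l)))
          (by
            intro s _
            have h5 := (hclo.hb l hl).bd (g * dgm (s • l))
            have h6 : 0 ≤ C1 * M := by positivity
            simp only [zero_mul, sub_zero, Real.norm_eq_abs]
            rw [hM1]; linarith)
        simpa [Real.norm_eq_abs] using h4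
      have h7 := abs_sub (τ (g * dgm (t • l)) - τ g)
        (∫ s in (0 : ℝ)..t, (fun g => e l g - 0 * (l.1 i - l.1 j)) (g * dgm (s • l)))
      have h8 := abs_sub (τ (g * dgm (t • l))) (τ g)
      have h10 : 0 ≤ M1 * |t| := mul_nonneg hM1n (abs_nonneg t)
      have h11 : 2 * M1 * (1 + |t|) = (M1 + M1) + (M1 * |t| + M1 * |t|) := by ring
      have h9 : |τ (g * dgm (t • l)) - τ g -
        (∫ s in (0 : ℝ)..t, (fun g => e l g - 0 * (l.1 i - l.1 j)) (g * dgm (s • l)))| ≤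
          2 * M1 * (1 + |t|) := by
        rw [h11]
        exact h7.trans (add_le_add (h8.trans (add_le_add h1 h2))
          (h3.trans (le_add_of_nonneg_right h10)))
      exact h9.trans (mul_le_mul_of_nonneg_right hC2 (by positivity))
  · push Not at hbig
    -- small σ
    set σ1 : ℝ := K1 * √ σ with hσ1d
    have hsq : 0 < √ σ := Real.sqrt_pos.mpr hσ0
    have hσ1p : 0 < σ1 := by positivity
    have hsqle : σ ≤ √ σ := by
      have h1 : √ σ ≤ 1 := Real.sqrt_le_iff.mpr ⟨by norm_num, by simpa using hσ1⟩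
      nlinarith [Real.mul_self_sqrt hσ0.le]
    have hσ1pow : σ1 ^ b3 ≤ K1 * σ ^ (b3 / 2) := by
      rw [hσ1d, Real.mul_rpow (by positivity) hsq.le]
      have e1 : √ σ ^ b3 = σ ^ (b3 / 2) := by
        rw [Real.sqrt_eq_rpow, ← Real.rpow_mul hσ0.le]; congr 1; ring
      rw [e1]
      refine mul_le_mul_of_nonneg_right ?_ hs.le
      have := Real.rpow_le_rpow_of_exponent_le hK1p hb31
      rwa [Real.rpow_one] at this
    have hσ3 : (C3 + 1) * σ1 ^ b3 ≤ K2 * σ ^ (b3 / 2) := by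
      have := mul_le_mul_of_nonneg_left hσ1pow (by positivity : (0 : ℝ) ≤ C3 + 1)
      rw [hK2]; linarith
    have hσ11 : σ1 ≤ 1 := by
      by_contra hcon
      push Not at hcon
      have h1 : 1 < σ1 ^ b3 := Real.one_lt_rpow hcon hb3
      nlinarith
    set σ3 : ℝ := K2 * σ ^ (b3 / 2) with hσ3d
    have hσ3p : 0 < σ3 := by positivity
    have hσ1b : σ1 ≤ σ1 ^ b3 := D2j_pow1 hσ1p hσ11 hb31
    have hσ1bp : 0 < σ1 ^ b3 := Real.rpow_pos_of_pos hσ1p _
    have hσ13 : σ1 ≤ σ3 := by nlinarith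
    have hσC3 : C3 * σ1 ^ b3 ≤ σ3 := by nlinarith
    -- the direction l0
    obtain ⟨-, -, hneg, -, hdec, hex⟩ := Hv_facts i j h
    obtain ⟨l0, hl00, hl0⟩ := hex hn
    have hl0n : ‖l0‖ ≠ 0 := norm_ne_zero_iff.mpr hl00
    set l1 : V0 n := (‖l0‖⁻¹) • l0 with hl1
    have hl1n : ‖l1‖ = 1 := by
      rw [hl1, norm_smul, norm_inv, norm_norm, inv_mul_cancel₀ hl0n]
    have hl1e : l1.1 i = l1.1 j := by
      have e1 : l1.1 i = ‖l0‖⁻¹ * l0.1 i := rfl
      have e2 : l1.1 j = ‖l0‖⁻¹ * l0.1 j := rfl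
      rw [e1, e2, hl0]
    have hR1 : RQ σ1 l1 τ (e l1) := D2j_RQmono (hkerl l1 hl1n.le hl1e) (by
      rw [hσ1d, hK1]
      nlinarith)
    have hHBe : ∀ v : V0 n, ‖v‖ ≤ 2 → HB Γ M1 (e v) := fun v hv =>
      D2j_HBmono (hclo.hb v hv) (by
        have : 0 ≤ C1 * M := by positivity
        rw [hM1]; linarith)
    obtain ⟨m, hm, hRm⟩ := hder σ1 τ (e (Hv i j)) (e l1) l1 (Hv i j) hσ1p hσ11 hHB1
      (hHBe _ hH2) (hHBe _ (by rw [hl1n]; norm_num)) hl1n hH2 hR1 (by
        intro g s t ht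
        have h1 := clo_big Γ M σ hσ0.le i j e hclo l1 (Hv i j) (by rw [hl1n]; norm_num) hH2 g s t
        refine h1.trans ?_
        have h2 : σ * (1 + |s|) * (1 + |t|) ≤ σ * (1 + |s|) * 2 :=
          mul_le_mul_of_nonneg_left (by linarith) (by positivity)
        have h3 : 2 * σ ≤ σ1 := by
          have : 0 ≤ C1 * (1 + M) := by positivity
          rw [hσ1d, hK1]; nlinarith
        have h4 : 2 * σ * (1 + |s|) ≤ σ1 * (1 + |s|) :=
          mul_le_mul_of_nonneg_right h3 (by positivity)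
        linarith)
    have hRm3 : RQ σ3 (Hv i j) τ (fun g => e (Hv i j) g - m) := D2j_RQmono hRm hσC3
    have hM12 : M1 ≤ M2 := by rw [hM2]; linarith
    have hpow : ∀ c : ℝ, 0 < c → c ≤ 1 → b4 * b5 ≤ c → σ3 ^ c ≤ K2 * σ ^ b := by
      intro c hc0 hc1 hcb
      rw [hσ3d, Real.mul_rpow (by positivity) hs.le]
      have e1 : K2 ^ c ≤ K2 := by
        have := Real.rpow_le_rpow_of_exponent_le hK2p hc1
        rwa [Real.rpow_one] at this
      have e2 : (σ ^ (b3 / 2)) ^ c ≤ σ ^ b := by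
        have e3 : σ ^ b = (σ ^ (b3 / 2)) ^ (b4 * b5) := by
          rw [← Real.rpow_mul hσ0.le]
        rw [e3]
        exact Real.rpow_le_rpow_of_exponent_ge hs hs1 hcb
      exact mul_le_mul e1 e2 (by positivity) (by positivity)
    refine ⟨?_, m / 2, ?_, ?_⟩
    · intro g
      have h1 := hanti Γ σ3 m (e (Hv i j)) i j h hσ3p hbig (D2j_HBmono hHB1 hM12)
        (D2j_LBmono hclo.lip (by
          have : 0 ≤ C1 * M := by positivity
          rw [hM2, hM1]; linarith)) hRm3 g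
      refine h1.trans ?_
      have h2 := hpow b4 hb4 hb41 (by nlinarith)
      have h3 : C4 * σ3 ^ b4 ≤ C4 * K2 * σ ^ b := by
        have := mul_le_mul_of_nonneg_left h2 hC4.le
        linarith
      refine h3.trans (mul_le_mul_of_nonneg_right ?_ hσb.le)
      have h5 : 0 ≤ C5 * K2 := by positivity
      have h6 : 0 ≤ K2 * (2 * M1) := by positivity
      rw [hC]; linarith
    · have h4 : 0 ≤ C4 * K2 := by positivity
      have h5 : 0 ≤ C5 * K2 := by positivity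
      have h6 : 0 ≤ K2 * (2 * M1) := by positivity
      rw [abs_div, abs_of_pos (by norm_num : (0 : ℝ) < 2)]
      have := abs_nonneg m
      rw [hC]; linarith
    · intro l hl
      obtain ⟨l', hl', hdl⟩ := hdec l
      obtain ⟨hn1, hn2⟩ := D2j_norm_proj i j h l l' hl' hdl
      have hhalf : ‖(1 / 2 : ℝ) • l'‖ ≤ 1 := by
        rw [norm_smul, Real.norm_eq_abs, abs_of_pos (by norm_num : (0 : ℝ) < 1 / 2)]
        linarith
      have hhe : ((1 / 2 : ℝ) • l').1 i = ((1 / 2 : ℝ) • l').1 j := by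
        have e1 : ((1 / 2 : ℝ) • l').1 i = 1 / 2 * l'.1 i := rfl
        have e2 : ((1 / 2 : ℝ) • l').1 j = 1 / 2 * l'.1 j := rfl
        rw [e1, e2, hl']
      have hRh : RQ σ3 ((1 / 2 : ℝ) • l') τ (e ((1 / 2 : ℝ) • l')) :=
        D2j_RQmono (D2j_RQmono (hkerl _ hhalf hhe) (by
          rw [hσ1d, hK1]
          nlinarith : C1 * (1 + M) * √ σ ≤ σ1)) hσ13
      have h5 := hdir Γ σ3 τ (e ((1 / 2 : ℝ) • l')) (fun g => e (Hv i j) g - m)
        ((1 / 2 : ℝ) • l') (Hv i j) 2 ((l.1 i - l.1 j) / 2) hσ3p hbig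
        (by norm_num) (hn2.trans hl) (by linarith) hH2
        (D2j_HBmono hHB1 (by rw [hM5]; linarith))
        (D2j_HBmono (hHBe _ (by linarith)) (by rw [hM5]; linarith))
        (D2j_HBmono (D2j_HBsub (hHBe _ hH2) hm hC3.le) (by rw [hM5, hM2]; linarith))
        hRh hRm3
      have h6 : (2 : ℝ) • ((1 / 2 : ℝ) • l') + ((l.1 i - l.1 j) / 2) • Hv i j = l := by
        rw [smul_smul]
        norm_num
        exact hdl.symm
      rw [h6] at h5
      have h7 : (fun g => 2 * e ((1 / 2 : ℝ) • l') g + (l.1 i - l.1 j) / 2 * (e (Hv i j) g - m)) =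
          fun g => e l g - m / 2 * (l.1 i - l.1 j) := by
        funext g
        have h8 : e l = e l' + ((l.1 i - l.1 j) / 2) • e (Hv i j) := by
          have h9 := congrArg e hdl
          rw [map_add, map_smul] at h9
          exact h9
        have h10 : e l g = e l' g + ((l.1 i - l.1 j) / 2) * e (Hv i j) g := by
          have := congrFun h8 g
          simpa [Pi.add_apply, Pi.smul_apply, smul_eq_mul] using this
        have h11 : e ((1 / 2 : ℝ) • l') g = 1 / 2 * e l' g := by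
          rw [map_smul]; rfl
        rw [h10, h11]
        ring
      rw [h7] at h5
      refine D2j_RQmono h5 ?_
      have h2 := hpow b5 hb5 hb51 (by nlinarith)
      have h3 : C5 * σ3 ^ b5 ≤ C5 * K2 * σ ^ b := by
        have := mul_le_mul_of_nonneg_left h2 hC5.le
        linarith
      refine h3.trans (mul_le_mul_of_nonneg_right ?_ hσb.le)
      have h4 : 0 ≤ C4 * K2 := by positivity
      have h12 : 0 ≤ K2 * (2 * M1) := by positivity
      rw [hC]; linarith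

end FL27
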