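import Pool.Agent.LibFL27.DefsD

set_option autoImplicit false
set_option maxSynthPendingDepth 3

open Matrix MeasureTheory Topology Filter LibNC38
open LibNC27 hiding Mt
open scoped Matrix.Norms.Elementwise

namespace FL27

private theorem D3a_alg {V : Type*} [NormedAddCommGroup V] [NormedSpace ℝ V]
    (f : V → V → V → V → ℝ)
    (a1 : ∀ x x' y v w, f (x + x') y v w = f x y v w + f x' y v w)
    (a2 : ∀ x y y' v w, f x (y + y') v w = f x y v w + f x y' v w)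
    (a3 : ∀ x y v v' w, f x y (v + v') w = f x y v w + f x y v' w)
    (a4 : ∀ x y v w w', f x y v (w + w') = f x y v w + f x y v w')
    (m1 : ∀ (r : ℝ) x y v w, f (r • x) y v w = r * f x y v w)
    (m2 : ∀ (r : ℝ) x y v w, f x (r • y) v w = r * f x y v w)
    (m3 : ∀ (r : ℝ) x y v w, f x y (r • v) w = r * f x y v w)
    (m4 : ∀ (r : ℝ) x y v w, f x y v (r • w) = r * f x y v w)
    (s : ∀ x y v w, f x y v w = f x y w v) (c : ∀ x y v w, f x y v w = f y x v w) (σ : ℝ)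
    (hS : ∀ v w, ‖v‖ ≤ 1 → ‖w‖ ≤ 1 → |f w w v v - 2 * f w v v w + f v v w w| ≤ σ)
    (l m v w : V) (hl : ‖l‖ ≤ 2) (hm : ‖m‖ ≤ 2) (hv : ‖v‖ ≤ 2) (hw : ‖w‖ ≤ 2) :
    |(f m v l w - f m w l v) - (f l v m w - f l w m v)| ≤ 1152 * σ := by
  obtain ⟨Q, hQ⟩ : ∃ Q : V → V → V → V → ℝ, ∀ a b x d,
      Q a b x d = f b d a x - f b x a d - f a d b x + f a x b d := ⟨_, fun _ _ _ _ => rfl⟩
  have q0 : ∀ a b, ‖a‖ ≤ 4 → ‖b‖ ≤ 4 → |Q a b a b| ≤ 256 * σ := by
    intro a b ha hb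
    obtain ⟨a', ea, na⟩ : ∃ a' : V, a = (4 : ℝ) • a' ∧ ‖a'‖ ≤ 1 := by
      refine ⟨(1 / 4 : ℝ) • a, ?_, ?_⟩
      · rw [smul_smul]
        norm_num
      · rw [norm_smul, Real.norm_of_nonneg (by norm_num)]
        linarith
    obtain ⟨b', eb, nb⟩ : ∃ b' : V, b = (4 : ℝ) • b' ∧ ‖b'‖ ≤ 1 := by
      refine ⟨(1 / 4 : ℝ) • b, ?_, ?_⟩
      · rw [smul_smul]
        norm_num
      · rw [norm_smul, Real.norm_of_nonneg (by norm_num)]
        linarith
    have h := hS a' b' na nb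
    have e : Q a b a b = 256 * (f b' b' a' a' - 2 * f b' a' a' b' + f a' a' b' b') := by
      rw [hQ, ea, eb]
      simp only [m1, m2, m3, m4]
      linarith [c a' b' b' a', s b' a' b' a']
    rw [e, abs_mul, abs_of_nonneg (by norm_num : (0 : ℝ) ≤ 256)]
    linarith
  have q1 : ∀ a a' b x d, Q (a + a') b x d = Q a b x d + Q a' b x d := by
    intro a a' b x d
    rw [hQ, hQ, hQ, a3, a3, a1, a1]
    ring
  have q2 : ∀ a b b' x d, Q a (b + b') x d = Q a b x d + Q a b' x d := by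
    intro a b b' x d
    rw [hQ, hQ, hQ, a3, a3, a1, a1]
    ring
  have q3 : ∀ a b x x' d, Q a b (x + x') d = Q a b x d + Q a b x' d := by
    intro a b x x' d
    rw [hQ, hQ, hQ, a2, a2, a4, a4]
    ring
  have q4 : ∀ a b x d d', Q a b x (d + d') = Q a b x d + Q a b x d' := by
    intro a b x d d'
    rw [hQ, hQ, hQ, a2, a2, a4, a4]
    ring
  have t12 : ∀ a b x d, Q a b x d = - Q b a x d := by
    intro a b x d
    rw [hQ, hQ]
    ring
  have t34 : ∀ a b x d, Q a b x d = - Q a b d x := by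
    intro a b x d
    rw [hQ, hQ]
    ring
  have pr : ∀ a b x d, Q a b x d = Q x d a b := by
    intro a b x d
    rw [hQ, hQ, c d b, s b d x a, c d a, s a d x b, c x b, s b x d a, c x a, s a x d b]
    ring
  have bi : ∀ a b x d, Q a b x d + Q b x a d + Q x a b d = 0 := by
    intro a b x d
    rw [hQ, hQ, hQ, s b d x a, c x b a d, s a d x b, c x a b d, s x d b a, c b a x d]
    ring
  have h1 : ∀ a b x, ‖a‖ ≤ 2 → ‖b‖ ≤ 4 → ‖x‖ ≤ 2 → |Q a b x b| ≤ 384 * σ := by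
    intro a b x ha hb hx
    have h := q0 (a + x) b (by have := norm_add_le a x; linarith) hb
    have h' := q0 a b (by linarith) hb
    have h'' := q0 x b (by linarith) hb
    rw [q1, q3, q3, pr x b a b] at h
    rw [abs_le] at h h' h'' ⊢
    constructor <;> linarith [h.1, h.2, h'.1, h'.2, h''.1, h''.2]
  have t24 : ∀ a b x d, ‖a‖ ≤ 2 → ‖b‖ ≤ 2 → ‖x‖ ≤ 2 → ‖d‖ ≤ 2 →
      |Q a b x d + Q a d x b| ≤ 1152 * σ := by
    intro a b x d ha hb hx hd
    have h := h1 a (b + d) x ha (by have := norm_add_le b d; linarith) hx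
    have h' := h1 a b x ha (by linarith) hx
    have h'' := h1 a d x ha (by linarith) hx
    rw [q2, q4, q4] at h
    rw [abs_le] at h h' h'' ⊢
    constructor <;> linarith [h.1, h.2, h'.1, h'.2, h''.1, h''.2]
  have e1 := t24 m w v l hm hw hv hl
  have e2 := t24 l w m v hl hw hm hv
  have e3 := t24 l v w m hl hv hw hm
  have e := bi l m w v
  have f1 := t34 m w l v
  have f2 := t12 m l v w
  have f3 := t34 l m v w
  have f4 := t12 w l m v
  have f5 := t34 l v m w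
  have e0 : (f m v l w - f m w l v) - (f l v m w - f l w m v) = Q l m w v := by
    rw [hQ]
    ring
  rw [e0]
  rw [abs_le] at e1 e2 e3 ⊢
  constructor <;> linarith [e1.1, e1.2, e2.1, e2.2, e3.1, e3.2]

/-- Row D3a. (quantitative `om_symm`: polarization of a curvature type form) -/
theorem om_symmQ {n : ℕ} : ∃ C : ℝ, 0 < C ∧ ∀ (Γ : Subgroup (SL n)) (σ : ℝ)
    (A : V0 n →ₗ[ℝ] V0 n →ₗ[ℝ] Fn n) (A1 : V0 n →ₗ[ℝ] V0 n →ₗ[ℝ] V0 n →ₗ[ℝ] Fn n)
    (A2 : V0 n →ₗ[ℝ] V0 n →ₗ[ℝ] V0 n →ₗ[ℝ] V0 n →ₗ[ℝ] Fn n), 0 ≤ σ → Ab Γ A A1 A2 → FlatV σ A2 →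
    ∀ l m v w : V0 n, ‖l‖ ≤ 2 → ‖m‖ ≤ 2 → ‖v‖ ≤ 2 → ‖w‖ ≤ 2 → ∀ g : SL n,
      |(A2 m v l w g - A2 m w l v g) - (A2 l v m w g - A2 l w m v g)| ≤ C * σ := by
  refine ⟨1152, by norm_num, ?_⟩
  intro Γ σ A A1 A2 _ hA hF l m v w hl hm hv hw g
  refine D3a_alg (fun x y v w => A2 x y v w g) ?_ ?_ ?_ ?_ ?_ ?_ ?_ ?_ ?_ ?_ σ ?_ l m v w hl hm
    hv hw
  · intro x x' y v w
    show A2 (x + x') y v w g = A2 x y v w g + A2 x' y v w g
    rw [map_add]
    rfl
  · intro x y y' v w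
    show A2 x (y + y') v w g = A2 x y v w g + A2 x y' v w g
    rw [map_add]
    rfl
  · intro x y v v' w
    show A2 x y (v + v') w g = A2 x y v w g + A2 x y v' w g
    rw [map_add]
    rfl
  · intro x y v w w'
    show A2 x y v (w + w') g = A2 x y v w g + A2 x y v w' g
    rw [map_add]
    rfl
  · intro r x y v w
    show A2 (r • x) y v w g = r * A2 x y v w g
    rw [map_smul]
    rfl
  · intro r x y v w
    show A2 x (r • y) v w g = r * A2 x y v w g
    rw [map_smul]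
    rfl
  · intro r x y v w
    show A2 x y (r • v) w g = r * A2 x y v w g
    rw [map_smul]
    rfl
  · intro r x y v w
    show A2 x y v (r • w) g = r * A2 x y v w g
    rw [map_smul]
    rfl
  · intro x y v w
    show A2 x y v w g = A2 x y w v g
    rw [hA.sym2]
  · intro x y v w
    show A2 x y v w g = A2 y x v w g
    rw [hA.com2]
  · intro v w hv hw
    exact hF v w hv hw g

end FL27
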