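import Pool.Agent.LibFL27.D3a
import Pool.Agent.LibFL27.D0b
import Pool.Agent.LibFL27.D0d

set_option autoImplicit false
set_option maxSynthPendingDepth 3

open Matrix MeasureTheory Topology Filter LibNC38
open LibNC27 hiding Mt
open scoped Matrix.Norms.Elementwise

namespace FL27

private theorem D3b_norm {n : ℕ} (i j : Fin n) (h : i ≠ j) : ‖Hv i j‖ ≤ 2 := by
  have h1 : ‖Hv i j‖ ^ 2 = ∑ a, ‖(Hv i j).1 a‖ ^ 2 := by
    rw [Submodule.coe_norm, EuclideanSpace.norm_sq_eq]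
  have h2 : ∀ a, ‖(Hv i j).1 a‖ ^ 2 = (if a = i then (1 : ℝ) else 0) + (if a = j then 1 else 0) := by
    intro a
    have e : (Hv i j).1 a = (if a = i then (1 : ℝ) else 0) - (if a = j then 1 else 0) := rfl
    rw [e, Real.norm_eq_abs, sq_abs]
    by_cases ha : a = i
    · have hb : a ≠ j := fun hb => h (ha.symm.trans hb)
      rw [if_pos ha, if_neg hb]
      norm_num
    · by_cases hb : a = j
      · rw [if_neg ha, if_pos hb]
        norm_num
      · rw [if_neg ha, if_neg hb]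
        norm_num
  have h3 : ‖Hv i j‖ ^ 2 = 2 := by
    rw [h1, Finset.sum_congr rfl fun a _ => h2 a, Finset.sum_add_distrib]
    simp
    norm_num
  nlinarith [norm_nonneg (Hv i j)]

private theorem D3b_rect {n : ℕ} (l m : V0 n) (e e' E E' : Fn n) (c : ℝ) (hE : Continuous E)
    (hE' : Continuous E') (h1 : Rd m e E) (h2 : Rd l e' E') (hc : ∀ g, |E g - E' g| ≤ c)
    (g : SL n) (s t : ℝ) :
    |(∫ r in (0 : ℝ)..s, (e (g * dgm (t • m) * dgm (r • l)) - e (g * dgm (r • l)))) -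
      ∫ r in (0 : ℝ)..t, (e' (g * dgm (s • l) * dgm (r • m)) - e' (g * dgm (r • m)))| ≤
      c * |t| * |s| := by
  obtain ⟨-, hcomm, -, -, -, hcont⟩ := dgm_facts (n := n)
  have hL : ∀ r : ℝ, e (g * dgm (t • m) * dgm (r • l)) - e (g * dgm (r • l)) =
      ∫ q in (0 : ℝ)..t, E (g * dgm (r • l) * dgm (q • m)) := by
    intro r
    rw [Rd_ftc m e E h1 hE (g * dgm (r • l)) t, mul_assoc g, mul_assoc g, hcomm (t • m) (r • l)]
  have hR : ∀ q : ℝ, e' (g * dgm (s • l) * dgm (q • m)) - e' (g * dgm (q • m)) =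
      ∫ r in (0 : ℝ)..s, E' (g * dgm (r • l) * dgm (q • m)) := by
    intro q
    have h3 : ∀ r : ℝ, E' (g * dgm (r • l) * dgm (q • m)) = E' (g * dgm (q • m) * dgm (r • l)) := by
      intro r
      rw [mul_assoc g, mul_assoc g, hcomm (r • l) (q • m)]
    simp only [h3]
    rw [Rd_ftc l e' E' h2 hE' (g * dgm (q • m)) s, mul_assoc g, mul_assoc g,
      hcomm (s • l) (q • m)]
  have h4 : Continuous fun z : ℝ × ℝ => dgm (z.1 • l) :=
    hcont.comp (continuous_fst.smul continuous_const)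
  have h5 : Continuous fun z : ℝ × ℝ => dgm (z.2 • m) :=
    hcont.comp (continuous_snd.smul continuous_const)
  have hco : ∀ F : Fn n, Continuous F →
      Continuous fun z : ℝ × ℝ => F (g * dgm (z.1 • l) * dgm (z.2 • m)) := fun F hF =>
    hF.comp ((continuous_const.mul h4).mul h5)
  have hsw : (∫ q in (0 : ℝ)..t, ∫ r in (0 : ℝ)..s, E' (g * dgm (r • l) * dgm (q • m))) =
      ∫ r in (0 : ℝ)..s, ∫ q in (0 : ℝ)..t, E' (g * dgm (r • l) * dgm (q • m)) := by
    symm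
    apply MeasureTheory.intervalIntegral_intervalIntegral_swap
    have hc2 : Continuous (Function.uncurry fun r q : ℝ => E' (g * dgm (r • l) * dgm (q • m))) :=
      hco E' hE'
    have h6 : IsCompact (Set.uIcc (0 : ℝ) s ×ˢ Set.uIcc (0 : ℝ) t) :=
      isCompact_uIcc.prod isCompact_uIcc
    exact (hc2.continuousOn.integrableOn_compact h6).mono_set
      (Set.prod_mono Set.uIoc_subset_uIcc Set.uIoc_subset_uIcc)
  simp only [hL, hR]
  rw [hsw]
  have hou : ∀ F : Fn n, Continuous F → IntervalIntegrable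
      (fun r : ℝ => ∫ q in (0 : ℝ)..t, F (g * dgm (r • l) * dgm (q • m))) volume 0 s :=
    fun F hF => (intervalIntegral.continuous_parametric_intervalIntegral_of_continuous'
      (f := fun r q => F (g * dgm (r • l) * dgm (q • m))) (hco F hF) 0 t).intervalIntegrable 0 s
  have hin : ∀ F : Fn n, Continuous F → ∀ r : ℝ, IntervalIntegrable
      (fun q : ℝ => F (g * dgm (r • l) * dgm (q • m))) volume 0 t :=
    fun F hF r => ((hco F hF).comp (continuous_const.prodMk continuous_id)).intervalIntegrable 0 t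
  rw [← intervalIntegral.integral_sub (hou E hE) (hou E' hE')]
  have hb : ∀ r : ℝ, ‖(∫ q in (0 : ℝ)..t, E (g * dgm (r • l) * dgm (q • m))) -
      ∫ q in (0 : ℝ)..t, E' (g * dgm (r • l) * dgm (q • m))‖ ≤ c * |t| := by
    intro r
    rw [← intervalIntegral.integral_sub (hin E hE r) (hin E' hE' r)]
    have := intervalIntegral.norm_integral_le_of_norm_le_const (a := 0) (b := t) (C := c)
      (f := fun q : ℝ => E (g * dgm (r • l) * dgm (q • m)) - E' (g * dgm (r • l) * dgm (q • m)))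
      (fun q _ => by rw [Real.norm_eq_abs]; exact hc _)
    rwa [sub_zero] at this
  have hfin := intervalIntegral.norm_integral_le_of_norm_le_const (a := 0) (b := s)
    (C := c * |t|) (f := fun r : ℝ => (∫ q in (0 : ℝ)..t, E (g * dgm (r • l) * dgm (q • m))) -
      ∫ q in (0 : ℝ)..t, E' (g * dgm (r • l) * dgm (q • m))) (fun r _ => hb r)
  rwa [sub_zero, Real.norm_eq_abs] at hfin

/-- Row D3b. (quantitative `clo_om`) -/
theorem clo_omQ {n : ℕ} : ∃ C : ℝ, 0 < C ∧ ∀ (Γ : Subgroup (SL n)) (M σ : ℝ)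
    (A : V0 n →ₗ[ℝ] V0 n →ₗ[ℝ] Fn n) (A1 : V0 n →ₗ[ℝ] V0 n →ₗ[ℝ] V0 n →ₗ[ℝ] Fn n)
    (A2 : V0 n →ₗ[ℝ] V0 n →ₗ[ℝ] V0 n →ₗ[ℝ] V0 n →ₗ[ℝ] Fn n), 0 ≤ M → 0 ≤ σ → AbQ Γ M A A1 A2 →
    FlatV σ A2 → ∀ (i j : Fin n) (h : i ≠ j) (v : V0 n), ‖v‖ ≤ 2 → v.1 i = v.1 j →
      CloQ Γ (C * M) (C * σ) i j (om A1 v (Hv i j)) ∧ AntiQ 0 i j h (om A1 v (Hv i j)) := by
  obtain ⟨C0, hC0, hsy⟩ := om_symmQ (n := n)
  refine ⟨C0 + 4, by positivity, ?_⟩
  intro Γ M σ A A1 A2 hM hσ hA hF i j h v hv hvij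
  obtain ⟨-, f2, f3, f4, f5, -, -, f8, f9⟩ := HB_facts (n := n) Γ
  have hH : ‖Hv i j‖ ≤ 2 := D3b_norm i j h
  have hlb : ∀ w : V0 n, ‖w‖ ≤ 2 → LB Γ (M + |(-1 : ℝ)| * M) (om A1 v (Hv i j) w) := by
    intro w hw
    have h1 := hA.b1 v w (Hv i j) hv hw hH
    have h2 := f8 M _ (-1) (hA.b1 (Hv i j) w v hH hw hv)
    have h3 := f9 _ _ _ _ h1 h2
    have e : (om A1 v (Hv i j) w) =
        fun g => A1 v w (Hv i j) g + -1 * A1 (Hv i j) w v g := by
      funext g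
      rw [om_apply]
      ring
    rw [e]
    exact h3
  have e1 : M + |(-1 : ℝ)| * M = 2 * M := by
    rw [abs_neg, abs_one]; ring
  rw [e1] at hlb
  refine ⟨⟨?_, ?_, ?_⟩, ?_⟩
  · intro w hw
    refine f4 _ _ _ ?_ (f3 _ _ (hlb w hw))
    nlinarith
  · intro l m hl hm g s t hs ht
    have h1 := D3b_rect l m (om A1 v (Hv i j) l) (om A1 v (Hv i j) m)
      (fun g => A2 m v l (Hv i j) g - A2 m (Hv i j) l v g)
      (fun g => A2 l v m (Hv i j) g - A2 l (Hv i j) m v g) (C0 * σ)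
      ((hA.ab.inv2 m v l (Hv i j)).cont.sub (hA.ab.inv2 m (Hv i j) l v).cont)
      ((hA.ab.inv2 l v m (Hv i j)).cont.sub (hA.ab.inv2 l (Hv i j) m v).cont)
      (fun g => (hA.ab.d2 m v l (Hv i j) g).sub (hA.ab.d2 m (Hv i j) l v g))
      (fun g => (hA.ab.d2 l v m (Hv i j) g).sub (hA.ab.d2 l (Hv i j) m v g))
      (fun g => hsy Γ σ A A1 A2 hσ hA.ab hF l m v (Hv i j) hl hm hv hH g) g s t
    refine h1.trans ?_
    have h2 : 0 ≤ C0 * σ := by positivity
    calc C0 * σ * |t| * |s| ≤ C0 * σ * 1 * 1 := by gcongr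
      _ ≤ (C0 + 4) * σ := by nlinarith
  · refine f5 _ _ _ ?_ (hlb (Hv i j) hH)
    nlinarith
  · intro l _ hl g
    obtain ⟨-, -, s3, s4, -, -⟩ := sw_facts i j h
    rw [om_apply, om_apply, hA.ab.k1, hA.ab.k1, s3 v hvij, s3 l hl, s4]
    have e1 : A1 v l (-Hv i j) g = -A1 v l (Hv i j) g := by
      rw [map_neg]
      rfl
    have e2 : A1 (-Hv i j) l v g = -A1 (Hv i j) l v g := by
      rw [map_neg]
      rfl
    rw [e1, e2]
    have e3 : -A1 v l (Hv i j) g - -A1 (Hv i j) l v g +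
        (A1 v l (Hv i j) g - A1 (Hv i j) l v g) = 0 := by ring
    rw [e3, abs_zero]

end FL27
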