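import Pool.Agent.LibFL27.D0b

set_option autoImplicit false
set_option maxSynthPendingDepth 3

open Matrix MeasureTheory Topology Filter LibNC38
open LibNC27 hiding Mt
open scoped Matrix.Norms.Elementwise

namespace FL27

private theorem D3c_add {n : ℕ} (y z : V0 n) : dgm (y + z) = dgm y * dgm z :=
  flat_facts.2.1 y z

private theorem D3c_cont {n : ℕ} : Continuous (dgm : V0 n → SL n) := by
  obtain ⟨-, -, -, -, -, -, -, -, -, h, -⟩ := flat_facts (n := n)
  exact h

private theorem D3c_comm {n : ℕ} (y z : V0 n) : dgm y * dgm z = dgm z * dgm y := by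
  rw [← D3c_add, ← D3c_add, add_comm]

private theorem D3c_zero {n : ℕ} (l : V0 n) : dgm ((0 : ℝ) • l) = 1 := by
  obtain ⟨-, -, -, -, -, -, -, -, -, -, -, h⟩ := flat_facts (n := n)
  rw [zero_smul]
  exact h

private theorem D3c_cs {n : ℕ} (l : V0 n) : Continuous fun t : ℝ => dgm (t • l) :=
  D3c_cont.comp (continuous_id.smul continuous_const)

private theorem D3c_deriv {n : ℕ} (φ φ' : Fn n) (l : V0 n) (h1 : Rd l φ φ') (g : SL n) (s : ℝ) :
    HasDerivAt (fun t : ℝ => φ (g * dgm (t • l))) (φ' (g * dgm (s • l))) s := by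
  have h' : HasDerivAt (fun t : ℝ => φ (g * dgm (s • l) * dgm (t • l)))
      (φ' (g * dgm (s • l))) (s - s) := by
    rw [sub_self]
    exact h1 (g * dgm (s • l))
  have h2 := h'.comp_sub_const s s
  have e : (fun t : ℝ => φ (g * dgm (t • l))) =
      fun t : ℝ => φ (g * dgm (s • l) * dgm ((t - s) • l)) := by
    funext t
    rw [mul_assoc, ← D3c_add, ← add_smul]
    congr 4
    ring
  rw [e]
  exact h2

private theorem D3c_int {n : ℕ} (φ φ' : Fn n) (hφ' : Continuous φ') (l : V0 n)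
    (h1 : Rd l φ φ') (g : SL n) (L : ℝ) :
    ∫ s in (0 : ℝ)..L, φ' (g * dgm (s • l)) = φ (g * dgm (L • l)) - φ g := by
  have hc : Continuous fun s : ℝ => φ' (g * dgm (s • l)) :=
    hφ'.comp (continuous_const.mul (D3c_cs l))
  have h := intervalIntegral.integral_eq_sub_of_hasDerivAt
    (fun s _ => D3c_deriv φ φ' l h1 g s) (hc.intervalIntegrable 0 L)
  rw [h, D3c_zero, mul_one]

private theorem D3c_bd {n : ℕ} (φ φ' : Fn n) (hφ' : Continuous φ') (l m : V0 n)
    (h1 : Rd l φ φ') (B : ℝ) (hB : ∀ g, |φ g| ≤ B) (L : ℝ) (hL : 0 < L) :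
    |∫ t in (0 : ℝ)..L, ∫ s in (0 : ℝ)..L, φ' (dgm (t • m) * dgm (s • l))| ≤ 2 * B * L := by
  have e : (fun t : ℝ => ∫ s in (0 : ℝ)..L, φ' (dgm (t • m) * dgm (s • l))) =
      fun t : ℝ => φ (dgm (t • m) * dgm (L • l)) - φ (dgm (t • m)) := by
    funext t
    exact D3c_int φ φ' hφ' l h1 _ L
  rw [e]
  have h := intervalIntegral.norm_integral_le_of_norm_le_const (a := 0) (b := L) (C := 2 * B)
    (f := fun t : ℝ => φ (dgm (t • m) * dgm (L • l)) - φ (dgm (t • m))) (fun t _ => by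
      rw [Real.norm_eq_abs]
      have a1 := hB (dgm (t • m) * dgm (L • l))
      have a2 := hB (dgm (t • m))
      calc |φ (dgm (t • m) * dgm (L • l)) - φ (dgm (t • m))|
          ≤ |φ (dgm (t • m) * dgm (L • l))| + |φ (dgm (t • m))| := abs_sub _ _
        _ ≤ 2 * B := by linarith)
  rw [Real.norm_eq_abs, sub_zero, abs_of_pos hL] at h
  exact h

/-- Row D3c. The multiplier of level 1 is small: if `τ` is bounded and `A v w` the tensor with first
derivatives `A1`, `RQ σ H τ (om A1 v H H - m)`, `om A1 v H H = R_v A(H,H) - R_H A(H,v)`, then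
`|m| ≤ C σ`: average over the box `{D(s H + r v)}`, `0 ≤ s, r ≤ L`, `L → ∞`. -/
theorem box_m {n : ℕ} (Γ : Subgroup (SL n)) (M σ m : ℝ) (hσ : 0 ≤ σ)
    (A : V0 n →ₗ[ℝ] V0 n →ₗ[ℝ] Fn n) (A1 : V0 n →ₗ[ℝ] V0 n →ₗ[ℝ] V0 n →ₗ[ℝ] Fn n)
    (A2 : V0 n →ₗ[ℝ] V0 n →ₗ[ℝ] V0 n →ₗ[ℝ] V0 n →ₗ[ℝ] Fn n) (hA : AbQ Γ M A A1 A2) (τ : Fn n)
    (hτ : HB Γ M τ) (v H : V0 n) (hv : ‖v‖ ≤ 2) (hH : ‖H‖ ≤ 2)
    (h1 : RQ σ H τ (fun g => om A1 v H H g - m)) : |m| ≤ 2 * σ := by
  have hF : Continuous (A1 v H H) := (hA.ab.inv1 v H H).cont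
  have hF2 : Continuous (A1 H H v) := (hA.ab.inv1 H H v).cont
  have hB1 : ∀ g, |A H H g| ≤ M := (hA.b0 H H hH hH).bd
  have hB2 : ∀ g, |A H v g| ≤ M := (hA.b0 H v hH hv).bd
  have hM : 0 ≤ M := (abs_nonneg _).trans (hB1 1)
  have key : ∀ L : ℝ, 0 < L → |m| * L ^ 2 ≤ σ * L ^ 2 + (6 * M + σ) * L := by
    intro L hL
    have hco : Continuous fun x : ℝ × ℝ => dgm (x.1 • H) * dgm (x.2 • v) :=
      ((D3c_cs H).comp continuous_fst).mul ((D3c_cs v).comp continuous_snd)
    have hcF : Continuous fun x : ℝ × ℝ => A1 v H H (dgm (x.1 • H) * dgm (x.2 • v)) := hF.comp hco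
    have hco' : Continuous fun x : ℝ × ℝ => dgm (x.1 • v) * dgm (x.2 • H) :=
      ((D3c_cs v).comp continuous_fst).mul ((D3c_cs H).comp continuous_snd)
    have hcF' : Continuous fun x : ℝ × ℝ => A1 v H H (dgm (x.1 • v) * dgm (x.2 • H)) := hF.comp hco'
    have b1 := D3c_bd (A H H) (A1 v H H) hF v H (hA.ab.d1 v H H) M hB1 L hL
    have hsw : (∫ t in (0 : ℝ)..L, ∫ s in (0 : ℝ)..L, A1 v H H (dgm (t • H) * dgm (s • v))) =
        ∫ s in (0 : ℝ)..L, ∫ t in (0 : ℝ)..L, A1 v H H (dgm (s • v) * dgm (t • H)) := by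
      rw [intervalIntegral_intervalIntegral_swap
        (F := fun t s : ℝ => A1 v H H (dgm (t • H) * dgm (s • v)))]
      · simp only [D3c_comm]
      · have hc2 : Continuous (Function.uncurry
            fun t s : ℝ => A1 v H H (dgm (t • H) * dgm (s • v))) := hcF
        refine (hc2.continuousOn.integrableOn_compact
          ((isCompact_uIcc (a := (0 : ℝ)) (b := L)).prod
            (isCompact_uIcc (a := (0 : ℝ)) (b := L)))).mono_set ?_
        exact Set.prod_mono Set.uIoc_subset_uIcc Set.uIoc_subset_uIcc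
    rw [hsw] at b1
    have hG : Continuous fun s : ℝ => ∫ t in (0 : ℝ)..L, A1 v H H (dgm (s • v) * dgm (t • H)) :=
      intervalIntegral.continuous_parametric_intervalIntegral_of_continuous'
        (f := fun s t => A1 v H H (dgm (s • v) * dgm (t • H))) hcF' 0 L
    have hpt : ∀ s : ℝ, |(∫ t in (0 : ℝ)..L, A1 v H H (dgm (s • v) * dgm (t • H))) - m * L| ≤
        σ * (1 + L) + 4 * M := by
      intro s
      have e1 := h1 (dgm (s • v)) L
      have c1 : Continuous fun t : ℝ => A1 v H H (dgm (s • v) * dgm (t • H)) :=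
        hF.comp (continuous_const.mul (D3c_cs H))
      have c2 : Continuous fun t : ℝ => A1 H H v (dgm (s • v) * dgm (t • H)) :=
        hF2.comp (continuous_const.mul (D3c_cs H))
      have e2 : (∫ t in (0 : ℝ)..L, (om A1 v H H (dgm (s • v) * dgm (t • H)) - m)) =
          (∫ t in (0 : ℝ)..L, A1 v H H (dgm (s • v) * dgm (t • H))) -
            (A H v (dgm (s • v) * dgm (L • H)) - A H v (dgm (s • v))) - m * L := by
        rw [← D3c_int (A H v) (A1 H H v) hF2 H (hA.ab.d1 H H v) (dgm (s • v)) L]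
        have e3 : (fun t : ℝ => om A1 v H H (dgm (s • v) * dgm (t • H)) - m) =
            fun t : ℝ => A1 v H H (dgm (s • v) * dgm (t • H)) -
              A1 H H v (dgm (s • v) * dgm (t • H)) - m := by
          funext t
          rw [om_apply]
        have c3 : IntervalIntegrable (fun t : ℝ => A1 v H H (dgm (s • v) * dgm (t • H)) -
            A1 H H v (dgm (s • v) * dgm (t • H))) volume 0 L := (c1.sub c2).intervalIntegrable 0 L
        rw [e3, intervalIntegral.integral_sub c3 (continuous_const.intervalIntegrable 0 L),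
          intervalIntegral.integral_sub (c1.intervalIntegrable 0 L) (c2.intervalIntegrable 0 L),
          intervalIntegral.integral_const, smul_eq_mul, sub_zero, mul_comm L m]
      have e4 : (∫ s_1 in (0 : ℝ)..L, (fun g => om A1 v H H g - m) (dgm (s • v) * dgm (s_1 • H))) =
          ∫ t in (0 : ℝ)..L, (om A1 v H H (dgm (s • v) * dgm (t • H)) - m) := rfl
      rw [e4, e2, abs_of_pos hL] at e1
      have t1 := abs_le.1 (hτ.bd (dgm (s • v) * dgm (L • H)))
      have t2 := abs_le.1 (hτ.bd (dgm (s • v)))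
      have t3 := abs_le.1 (hB2 (dgm (s • v) * dgm (L • H)))
      have t4 := abs_le.1 (hB2 (dgm (s • v)))
      have t5 := abs_le.1 e1
      rw [abs_le]
      constructor
      · linarith [t1.1, t1.2, t2.1, t2.2, t3.1, t3.2, t4.1, t4.2, t5.1, t5.2]
      · linarith [t1.1, t1.2, t2.1, t2.2, t3.1, t3.2, t4.1, t4.2, t5.1, t5.2]
    have h := intervalIntegral.norm_integral_le_of_norm_le_const (a := 0) (b := L)
      (C := σ * (1 + L) + 4 * M)
      (f := fun s : ℝ => (∫ t in (0 : ℝ)..L, A1 v H H (dgm (s • v) * dgm (t • H))) - m * L)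
      (fun s _ => by rw [Real.norm_eq_abs]; exact hpt s)
    rw [intervalIntegral.integral_sub (hG.intervalIntegrable 0 L)
      (continuous_const.intervalIntegrable 0 L), intervalIntegral.integral_const, smul_eq_mul,
      sub_zero, Real.norm_eq_abs, abs_of_pos hL] at h
    have h2 := abs_le.1 h
    have h3 := abs_le.1 b1
    have h4 : |m * L ^ 2| ≤ σ * L ^ 2 + (6 * M + σ) * L := by
      rw [abs_le]
      constructor
      · linarith [h2.1, h2.2, h3.1, h3.2]
      · linarith [h2.1, h2.2, h3.1, h3.2]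
    rwa [abs_mul, abs_of_nonneg (sq_nonneg L)] at h4
  by_contra hne
  have hlt : 2 * σ < |m| := not_le.1 hne
  have hd : 0 < |m| - σ := by linarith
  have hLp : 0 < (6 * M + σ) / (|m| - σ) + 1 := by positivity
  have hk := key _ hLp
  set L : ℝ := (6 * M + σ) / (|m| - σ) + 1 with hLdef
  have h5 : (|m| - σ) * L = 6 * M + σ + (|m| - σ) := by
    rw [hLdef, mul_add, mul_one, mul_div_cancel₀ _ hd.ne']
  have h6 : (|m| - σ) * L * L ≤ (6 * M + σ) * L := by
    have : (|m| - σ) * L * L = |m| * L ^ 2 - σ * L ^ 2 := by ring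
    linarith
  have h7 := le_of_mul_le_mul_right h6 hLp
  linarith

end FL27
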