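import Pool.Agent.LibFL27.D2j
import Pool.Agent.LibFL27.D3b
import Pool.Agent.LibFL27.D3c

set_option autoImplicit false
set_option maxSynthPendingDepth 3

open Matrix MeasureTheory Topology Filter LibNC38
open LibNC27 hiding Mt
open scoped Matrix.Norms.Elementwise

namespace FL27

private theorem D3d_om_add {n : ℕ} (J1 : V0 n →ₗ[ℝ] V0 n →ₗ[ℝ] V0 n →ₗ[ℝ] Fn n)
    (v w H l : V0 n) : om J1 (v + w) H l = om J1 v H l + om J1 w H l := by
  funext g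
  rw [Pi.add_apply, om_apply, om_apply, om_apply]
  simp only [map_add, LinearMap.add_apply, Pi.add_apply]
  ring

private theorem D3d_om_smul {n : ℕ} (J1 : V0 n →ₗ[ℝ] V0 n →ₗ[ℝ] V0 n →ₗ[ℝ] Fn n)
    (c : ℝ) (v H l : V0 n) : om J1 (c • v) H l = c • om J1 v H l := by
  funext g
  rw [Pi.smul_apply, om_apply, om_apply]
  simp only [map_smul, LinearMap.smul_apply, Pi.smul_apply, smul_eq_mul]
  ring

private theorem D3d_om_self {n : ℕ} (J1 : V0 n →ₗ[ℝ] V0 n →ₗ[ℝ] V0 n →ₗ[ℝ] Fn n)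
    (H l : V0 n) : om J1 H H l = 0 := by
  funext g
  rw [om_apply, sub_self]
  rfl

/-- invariant and Lipschitz along the root groups -/
private def D3d_G {n : ℕ} (Γ : Subgroup (SL n)) (f : Fn n) : Prop :=
  Inv Γ f ∧ ∀ (i j : Fin n) (h : i ≠ j), ∃ C : ℝ, ∀ (g : SL n) (r : ℝ),
    |f (g * tv i j h r) - f g| ≤ C * |r|

private theorem D3d_G_neg {n : ℕ} {Γ : Subgroup (SL n)} {f : Fn n} (h : D3d_G Γ f) :
    D3d_G Γ (fun x => - f x) := by
  refine ⟨⟨h.1.cont.neg, fun γ hγ g => ?_⟩, fun i j hij => ?_⟩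
  · show - f (γ * g) = - f g
    rw [h.1.inv γ hγ]
  · obtain ⟨C, hC⟩ := h.2 i j hij
    refine ⟨C, fun g r => ?_⟩
    show |- f (g * tv i j hij r) - - f g| ≤ C * |r|
    rw [← neg_sub', abs_neg]
    exact hC g r

private theorem D3d_G_om {n : ℕ} {Γ : Subgroup (SL n)} {A : V0 n →ₗ[ℝ] V0 n →ₗ[ℝ] Fn n}
    {A1 : V0 n →ₗ[ℝ] V0 n →ₗ[ℝ] V0 n →ₗ[ℝ] Fn n}
    {A2 : V0 n →ₗ[ℝ] V0 n →ₗ[ℝ] V0 n →ₗ[ℝ] V0 n →ₗ[ℝ] Fn n} (hA : Ab Γ A A1 A2) (v H l : V0 n) :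
    D3d_G Γ (om A1 v H l) := by
  refine ⟨⟨?_, fun γ hγ g => ?_⟩, fun i j hij => ?_⟩
  · exact (hA.inv1 v l H).cont.sub (hA.inv1 H l v).cont
  · rw [om_apply, om_apply, (hA.inv1 v l H).inv γ hγ, (hA.inv1 H l v).inv γ hγ]
  · obtain ⟨C, hC⟩ := hA.lip1 v l H i j hij
    obtain ⟨C', hC'⟩ := hA.lip1 H l v i j hij
    refine ⟨C + C', fun g r => ?_⟩
    rw [om_apply, om_apply]
    have h1 := abs_le.1 (hC g r)
    have h2 := abs_le.1 (hC' g r)
    rw [abs_le]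
    constructor <;> linarith [h1.1, h1.2, h2.1, h2.2]

private theorem D3d_Pf_add {n : ℕ} {Γ : Subgroup (SL n)} {f f' : Fn n} (hf : D3d_G Γ f)
    (hf' : D3d_G Γ f') (i j : Fin n) (h : i ≠ j) (g : SL n) (r : ℝ) :
    Pf i j h (fun x => f x + f' x) g r = Pf i j h f g r + Pf i j h f' g r := by
  obtain ⟨C, hC⟩ := hf.2 i j h
  obtain ⟨C', hC'⟩ := hf'.2 i j h
  have h1 := (Pf_facts Γ i j h f hf.1 C hC).2.1 g r
  have h2 := (Pf_facts Γ i j h f' hf'.1 C' hC').2.1 g r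
  unfold Pf
  rw [← neg_add, ← integral_add h1 h2]
  congr 1
  refine integral_congr_ae (Filter.Eventually.of_forall fun s => ?_)
  show (f _ + f' _) - (f _ + f' _) = (f _ - f _) + (f' _ - f' _)
  ring

private theorem D3d_Pf_smul {n : ℕ} (c : ℝ) (f : Fn n) (i j : Fin n) (h : i ≠ j) (g : SL n)
    (r : ℝ) : Pf i j h (fun x => c * f x) g r = c * Pf i j h f g r := by
  unfold Pf
  rw [mul_neg, ← integral_const_mul]
  congr 1
  refine integral_congr_ae (Filter.Eventually.of_forall fun s => ?_)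
  show c * f _ - c * f _ = c * (f _ - f _)
  ring

private theorem D3d_tau_add {n : ℕ} {Γ : Subgroup (SL n)} {f f' : Fn n} (hf : D3d_G Γ f)
    (hf' : D3d_G Γ f') (i j : Fin n) (h : i ≠ j) (g : SL n) :
    tau i j h (fun x => f x + f' x) g = tau i j h f g + tau i j h f' g := by
  unfold tau
  rw [D3d_Pf_add hf hf', D3d_Pf_add hf hf']
  have h1 : (fun x => -(f x + f' x)) = fun x => (fun y => - f y) x + (fun y => - f' y) x := by
    funext x; ring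
  rw [h1, D3d_Pf_add (D3d_G_neg hf) (D3d_G_neg hf')]
  ring

private theorem D3d_tau_smul {n : ℕ} (c : ℝ) (f : Fn n) (i j : Fin n) (h : i ≠ j) (g : SL n) :
    tau i j h (fun x => c * f x) g = c * tau i j h f g := by
  unfold tau
  have h1 : (fun x => -(c * f x)) = fun x => c * (fun y => - f y) x := by
    funext x; ring
  rw [h1, D3d_Pf_smul, D3d_Pf_smul, D3d_Pf_smul]
  ring

private noncomputable def D3d_th {n : ℕ} {Γ : Subgroup (SL n)} {A : V0 n →ₗ[ℝ] V0 n →ₗ[ℝ] Fn n}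
    {A1 : V0 n →ₗ[ℝ] V0 n →ₗ[ℝ] V0 n →ₗ[ℝ] Fn n}
    {A2 : V0 n →ₗ[ℝ] V0 n →ₗ[ℝ] V0 n →ₗ[ℝ] V0 n →ₗ[ℝ] Fn n} (hA : Ab Γ A A1 A2)
    (i j : Fin n) (h : i ≠ j) : V0 n →ₗ[ℝ] Fn n where
  toFun v := tau i j h (om A1 v (Hv i j) (Hv i j))
  map_add' v w := by
    funext g
    rw [Pi.add_apply, ← D3d_tau_add (D3d_G_om hA v _ _) (D3d_G_om hA w _ _), D3d_om_add]
    rfl
  map_smul' c v := by
    funext g
    rw [RingHom.id_apply, Pi.smul_apply, smul_eq_mul, ← D3d_tau_smul, D3d_om_smul]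
    rfl

private theorem D3d_H_norm {n : ℕ} (i j : Fin n) (h : i ≠ j) : ‖(Hv i j : V0 n)‖ ≤ 2 := by
  have h1 := (Hv_facts i j h).2.1 (Hv i j)
  have h2 := (Hv_facts i j h).1
  rw [real_inner_self_eq_norm_sq, h2, h2, if_pos rfl, if_neg h, if_neg h.symm, if_pos rfl] at h1
  nlinarith [norm_nonneg (Hv i j : V0 n)]

private theorem D3d_Hij {n : ℕ} (i j : Fin n) (h : i ≠ j) :
    (Hv i j : V0 n).1 i - (Hv i j : V0 n).1 j = 2 := by
  have h1 := (Hv_facts i j h).1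
  rw [h1, h1, if_pos rfl, if_neg h, if_neg h.symm, if_pos rfl]
  norm_num

private theorem D3d_proj {n : ℕ} (i j : Fin n) (h : i ≠ j) (v : V0 n) (hv : ‖v‖ ≤ 2) :
    ∃ v' : V0 n, v'.1 i = v'.1 j ∧ ‖v'‖ ≤ 2 ∧ v = v' + ((v.1 i - v.1 j) / 2) • Hv i j := by
  obtain ⟨v', hv', hvv⟩ := (Hv_facts i j h).2.2.2.2.1 v
  refine ⟨v', hv', ?_, hvv⟩
  set c : ℝ := (v.1 i - v.1 j) / 2
  have h1 : inner ℝ v' (c • Hv i j) = (0 : ℝ) := by
    rw [real_inner_smul_right, (Hv_facts i j h).2.1 v', hv', sub_self, mul_zero]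
  have h2 : ‖v‖ ^ 2 = ‖v'‖ ^ 2 + 2 * inner ℝ v' (c • Hv i j) + ‖c • (Hv i j : V0 n)‖ ^ 2 := by
    rw [← norm_add_sq_real, ← hvv]
  rw [h1] at h2
  nlinarith [norm_nonneg v', norm_nonneg v, sq_nonneg ‖c • (Hv i j : V0 n)‖]

private theorem D3d_diff {n : ℕ} (i j : Fin n) (h : i ≠ j) (l : V0 n) (hl : ‖l‖ ≤ 2) :
    |l.1 i - l.1 j| ≤ 4 := by
  rw [← (Hv_facts i j h).2.1 l]
  have h1 := abs_real_inner_le_norm l (Hv i j)
  have h2 := D3d_H_norm (n := n) i j h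
  nlinarith [norm_nonneg l, norm_nonneg (Hv i j : V0 n)]

private theorem D3d_clo_smul {n : ℕ} {Γ : Subgroup (SL n)} {M σ : ℝ} {i j : Fin n}
    {e : V0 n →ₗ[ℝ] Fn n} (H : CloQ Γ M σ i j e) (c : ℝ) (hc0 : 0 ≤ c) (hc1 : c ≤ 1) :
    CloQ Γ M (c * σ) i j (c • e) := by
  obtain ⟨_, _, _, hmH, hmL, hsH, _, hsL, _⟩ := HB_facts (n := n) Γ
  have hM : 0 ≤ M := (abs_nonneg _).trans (H.lip.bd 1)
  have hcM : |c| * M ≤ M := by
    rw [abs_of_nonneg hc0]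
    nlinarith
  refine ⟨fun v hv => ?_, fun l m hl hm g s t hs ht => ?_, ?_⟩
  · exact hmH _ _ _ hcM (hsH _ _ c (H.hb v hv))
  · have h1 := H.clo l m hl hm g s t hs ht
    have e1 : (∫ r in (0 : ℝ)..s, ((c • e) l (g * dgm (t • m) * dgm (r • l)) -
        (c • e) l (g * dgm (r • l)))) =
        c * ∫ r in (0 : ℝ)..s, (e l (g * dgm (t • m) * dgm (r • l)) - e l (g * dgm (r • l))) := by
      rw [← intervalIntegral.integral_const_mul]
      refine intervalIntegral.integral_congr fun r _ => ?_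
      show c * e l _ - c * e l _ = c * (e l _ - e l _)
      ring
    have e2 : (∫ r in (0 : ℝ)..t, ((c • e) m (g * dgm (s • l) * dgm (r • m)) -
        (c • e) m (g * dgm (r • m)))) =
        c * ∫ r in (0 : ℝ)..t, (e m (g * dgm (s • l) * dgm (r • m)) - e m (g * dgm (r • m))) := by
      rw [← intervalIntegral.integral_const_mul]
      refine intervalIntegral.integral_congr fun r _ => ?_
      show c * e m _ - c * e m _ = c * (e m _ - e m _)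
      ring
    rw [e1, e2, ← mul_sub, abs_mul, abs_of_nonneg hc0]
    exact mul_le_mul_of_nonneg_left h1 hc0
  · exact hmL _ _ _ hcM (hsL _ _ c H.lip)

private theorem D3d_anti_smul {n : ℕ} {i j : Fin n} {h : i ≠ j} {e : V0 n →ₗ[ℝ] Fn n}
    (H : AntiQ 0 i j h e) (c σ : ℝ) (hσ : 0 ≤ σ) : AntiQ σ i j h (c • e) := by
  intro v hv hij g
  have h1 := H v hv hij g
  show |c * e v (g * kk i j h) + c * e v g| ≤ σ
  rw [← mul_add, abs_mul]
  have h2 : |e v (g * kk i j h) + e v g| = 0 := le_antisymm h1 (abs_nonneg _)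
  rw [h2, mul_zero]
  exact hσ

/-- Row D3d. (quantitative `theta_exists`) -/
theorem theta_existsQ {n : ℕ} (hn : 3 ≤ n) (Γ : Subgroup (SL n)) (hc : Coc Γ) (M : ℝ) (hM : 0 ≤ M) :
    ∃ C b : ℝ, 0 < C ∧ 0 < b ∧ b ≤ 1 ∧ ∀ (σ : ℝ)
      (A : V0 n →ₗ[ℝ] V0 n →ₗ[ℝ] Fn n) (A1 : V0 n →ₗ[ℝ] V0 n →ₗ[ℝ] V0 n →ₗ[ℝ] Fn n)
      (A2 : V0 n →ₗ[ℝ] V0 n →ₗ[ℝ] V0 n →ₗ[ℝ] V0 n →ₗ[ℝ] Fn n), 0 < σ → σ ≤ 1 → AbQ Γ M A A1 A2 →
      FlatV σ A2 → ∀ (i j : Fin n) (h : i ≠ j), ∃ θ : V0 n →ₗ[ℝ] Fn n,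
        (∀ v : V0 n, ‖v‖ ≤ 2 → HB Γ C (θ v)) ∧
        (∀ v l : V0 n, ‖v‖ ≤ 2 → ‖l‖ ≤ 2 → RQ (C * σ ^ b) l (θ v) (om A1 v (Hv i j) l)) ∧
        (∀ v : V0 n, ‖v‖ ≤ 2 → ∀ g, |θ v (g * kk i j h) + θ v g| ≤ C * σ ^ b) ∧ θ (Hv i j) = 0 := by
  obtain ⟨C0, hC0, hclo⟩ := clo_omQ (n := n)
  obtain ⟨C1, b, hC1, hb, hb1, hpot⟩ := potentialQ hn Γ hc (C0 * M) (by positivity)
  set K : ℝ := max 1 C0 with hKdef
  have hK1 : 1 ≤ K := le_max_left _ _
  have hK0 : 0 < K := by linarith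
  have hKC : C0 ≤ K := le_max_right _ _
  refine ⟨5 * (K * C1), b, by positivity, hb, hb1, ?_⟩
  intro σ A A1 A2 hσ hσ1 hA hF i j h
  obtain ⟨hLI, hLL, _, hmH, hmL, hsH, _, _, _⟩ := HB_facts (n := n) Γ
  obtain ⟨_, hRs, _, _, _, hRc⟩ := RQ_facts (n := n) Γ
  have hσb : 0 < σ ^ b := Real.rpow_pos_of_pos hσ b
  have hKC1 : 0 < K * C1 := by positivity
  set S : ℝ := K * C1 * σ ^ b with hS
  have hS0 : 0 < S := by positivity
  -- the statement for `v` in the kernel of the root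
  have key : ∀ v' : V0 n, ‖v'‖ ≤ 2 → v'.1 i = v'.1 j →
      HB Γ (K * C1) (tau i j h (om A1 v' (Hv i j) (Hv i j))) ∧
      (∀ l : V0 n, ‖l‖ ≤ 2 → RQ (5 * S) l (tau i j h (om A1 v' (Hv i j) (Hv i j)))
        (om A1 v' (Hv i j) l)) ∧
      ∀ g, |tau i j h (om A1 v' (Hv i j) (Hv i j)) (g * kk i j h) +
        tau i j h (om A1 v' (Hv i j) (Hv i j)) g| ≤ S := by
    intro v' hv' hvij
    obtain ⟨hq, ha⟩ := hclo Γ M σ A A1 A2 hM hσ.le hA hF i j h v' hv' hvij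
    set e : V0 n →ₗ[ℝ] Fn n := om A1 v' (Hv i j) with he
    have hKi : 0 ≤ K⁻¹ := by positivity
    have hKi1 : K⁻¹ ≤ 1 := inv_le_one_of_one_le₀ hK1
    have hq' : CloQ Γ (C0 * M) σ i j (K⁻¹ • e) := by
      have h1 := D3d_clo_smul hq K⁻¹ hKi hKi1
      have h2 : K⁻¹ * (C0 * σ) ≤ σ := by
        rw [← mul_assoc]
        have : K⁻¹ * C0 ≤ 1 := by
          rw [inv_mul_le_iff₀ hK0, mul_one]
          exact hKC
        nlinarith
      exact ⟨h1.hb, fun l m hl hm g s t hs ht => (h1.clo l m hl hm g s t hs ht).trans h2, h1.lip⟩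
    have ha' : AntiQ σ i j h (K⁻¹ • e) := D3d_anti_smul ha _ _ hσ.le
    obtain ⟨p1, p2, m, hm, p3⟩ := hpot σ i j h (K⁻¹ • e) hσ hσ1 hq' ha'
    have hte : tau i j h (e (Hv i j)) = fun g => K * tau i j h ((K⁻¹ • e) (Hv i j)) g := by
      funext g
      rw [← D3d_tau_smul]
      congr 1
      funext x
      show e (Hv i j) x = K * (K⁻¹ * e (Hv i j) x)
      field_simp
    have hKabs : |K| = K := abs_of_pos hK0
    have q1 : HB Γ (K * C1) (tau i j h (e (Hv i j))) := by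
      rw [hte]
      have := hsH _ _ K p1
      rwa [hKabs] at this
    have q2 : ∀ g, |tau i j h (e (Hv i j)) (g * kk i j h) + tau i j h (e (Hv i j)) g| ≤ S := by
      intro g
      rw [hte]
      show |K * tau i j h ((K⁻¹ • e) (Hv i j)) (g * kk i j h) +
        K * tau i j h ((K⁻¹ • e) (Hv i j)) g| ≤ S
      rw [← mul_add, abs_mul, hKabs, hS, mul_assoc]
      exact mul_le_mul_of_nonneg_left (p2 g) hK0.le
    have q3 : ∀ l : V0 n, ‖l‖ ≤ 2 → RQ S l (tau i j h (e (Hv i j)))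
        (fun g => e l g - (K * m) * (l.1 i - l.1 j)) := by
      intro l hl
      have h1 := hRs _ _ _ _ K (p3 l hl)
      rw [hKabs, ← mul_assoc, ← hS, ← hte] at h1
      convert h1 using 1
      funext g
      show e l g - (K * m) * (l.1 i - l.1 j) = K * (K⁻¹ * e l g - m * (l.1 i - l.1 j))
      field_simp
    have hm2 : |K * m| ≤ S := by
      have hA' : AbQ Γ (max M (K * C1)) A A1 A2 :=
        ⟨hA.ab, fun v w hv hw => hmL _ _ _ (le_max_left _ _) (hA.b0 v w hv hw),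
          fun x v w hx hv hw => hmL _ _ _ (le_max_left _ _) (hA.b1 x v w hx hv hw),
          fun x y v w hx hy hv hw g => (hA.b2 x y v w hx hy hv hw g).trans (le_max_left _ _)⟩
      have h1 := q3 (Hv i j) (D3d_H_norm i j h)
      rw [D3d_Hij i j h] at h1
      have h2 := box_m Γ (max M (K * C1)) S (K * m * 2) hS0.le A A1 A2 hA'
        (tau i j h (e (Hv i j))) (hmH _ _ _ (le_max_right _ _) q1) v' (Hv i j) hv'
        (D3d_H_norm i j h) h1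
      rw [abs_mul (K * m) 2, abs_of_pos (by norm_num : (0 : ℝ) < 2)] at h2
      linarith
    refine ⟨q1, fun l hl => ?_, q2⟩
    have hec : Continuous (e l) := (D3d_G_om hA.ab v' (Hv i j) l).1.cont
    have h1 := hRc S (4 * S) l (tau i j h (e (Hv i j)))
      (fun g => e l g - (K * m) * (l.1 i - l.1 j)) (e l) (hec.sub continuous_const) hec
      (fun g => by
        show |e l g - (K * m) * (l.1 i - l.1 j) - e l g| ≤ 4 * S
        have h3 : e l g - (K * m) * (l.1 i - l.1 j) - e l g = -((K * m) * (l.1 i - l.1 j)) := by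
          ring
        rw [h3, abs_neg, abs_mul]
        have h4 := D3d_diff i j h l hl
        nlinarith [abs_nonneg (K * m), abs_nonneg (l.1 i - l.1 j)]) (q3 l hl)
    have h5 : S + 4 * S = 5 * S := by ring
    rwa [h5] at h1
  have hred : ∀ v : V0 n, ‖v‖ ≤ 2 → ∃ v' : V0 n, ‖v'‖ ≤ 2 ∧ v'.1 i = v'.1 j ∧
      ∀ l, om A1 v (Hv i j) l = om A1 v' (Hv i j) l := by
    intro v hv
    obtain ⟨v', h1, h2, h3⟩ := D3d_proj i j h v hv
    refine ⟨v', h2, h1, fun l => ?_⟩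
    conv_lhs => rw [h3]
    rw [D3d_om_add, D3d_om_smul, D3d_om_self, smul_zero, add_zero]
  have h5S : 5 * (K * C1) * σ ^ b = 5 * S := by rw [hS]; ring
  refine ⟨D3d_th hA.ab i j h, fun v hv => ?_, fun v l hv hl => ?_, fun v hv g => ?_, ?_⟩
  · obtain ⟨v', h1, h2, h3⟩ := hred v hv
    show HB Γ _ (tau i j h (om A1 v (Hv i j) (Hv i j)))
    rw [h3]
    exact hmH _ _ _ (by linarith) (key v' h1 h2).1
  · obtain ⟨v', h1, h2, h3⟩ := hred v hv
    show RQ _ l (tau i j h (om A1 v (Hv i j) (Hv i j))) _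
    rw [h3, h3, h5S]
    exact (key v' h1 h2).2.1 l hl
  · obtain ⟨v', h1, h2, h3⟩ := hred v hv
    show |tau i j h (om A1 v (Hv i j) (Hv i j)) (g * kk i j h) +
      tau i j h (om A1 v (Hv i j) (Hv i j)) g| ≤ _
    rw [h3, h5S]
    have := (key v' h1 h2).2.2 g
    linarith
  · funext g
    show tau i j h (om A1 (Hv i j) (Hv i j) (Hv i j)) g = 0
    rw [D3d_om_self]
    have h1 : (0 : Fn n) = fun x => (0 : ℝ) * (0 : Fn n) x := by
      funext x; simp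
    rw [h1, D3d_tau_smul, zero_mul]

end FL27
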