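import Pool.Agent.LibFL27.D0b
import Pool.Agent.LibFL27.D0d

set_option autoImplicit false
set_option maxSynthPendingDepth 3

open Matrix MeasureTheory Topology Filter LibNC38
open LibNC27 hiding Mt
open scoped Matrix.Norms.Elementwise

namespace FL27

private theorem D4a_norm_Hv {n : ℕ} (i j : Fin n) : ‖(Hv i j : V0 n)‖ ≤ 2 := by
  have h1 : ((Hv i j : V0 n) : EuclideanSpace ℝ (Fin n)) =
      EuclideanSpace.single i (1 : ℝ) - EuclideanSpace.single j (1 : ℝ) := by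
    ext a
    simp [Hv]
  have h2 : ‖(Hv i j : V0 n)‖ = ‖((Hv i j : V0 n) : EuclideanSpace ℝ (Fin n))‖ := rfl
  rw [h2, h1]
  refine (norm_sub_le _ _).trans ?_
  rw [PiLp.norm_single, PiLp.norm_single]
  norm_num

/-- the rectangle identity for real functions -/
private theorem D4a_real (F : ℝ → ℝ → ℝ) (hF : Continuous (Function.uncurry F)) (a b : ℝ → ℝ)
    (ha : Continuous a) (hb : Continuous b) (σ s t : ℝ) (hσ : 0 ≤ σ) (hs : |s| ≤ 1) (ht : |t| ≤ 1)
    (h1 : ∀ r, |a r - ∫ q in (0 : ℝ)..t, F r q| ≤ σ)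
    (h2 : ∀ q, |b q - ∫ r in (0 : ℝ)..s, F r q| ≤ σ) :
    |(∫ r in (0 : ℝ)..s, a r) - ∫ q in (0 : ℝ)..t, b q| ≤ 2 * σ := by
  have hF' : Continuous (Function.uncurry fun q r : ℝ => F r q) := hF.comp continuous_swap
  have hsw : (∫ r in (0 : ℝ)..s, ∫ q in (0 : ℝ)..t, F r q) =
      ∫ q in (0 : ℝ)..t, ∫ r in (0 : ℝ)..s, F r q := by
    apply MeasureTheory.intervalIntegral_intervalIntegral_swap
    have h6 : IsCompact (Set.uIcc (0 : ℝ) s ×ˢ Set.uIcc (0 : ℝ) t) :=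
      isCompact_uIcc.prod isCompact_uIcc
    exact (hF.continuousOn.integrableOn_compact h6).mono_set
      (Set.prod_mono Set.uIoc_subset_uIcc Set.uIoc_subset_uIcc)
  have hi1 : Continuous fun r : ℝ => ∫ q in (0 : ℝ)..t, F r q :=
    intervalIntegral.continuous_parametric_intervalIntegral_of_continuous' hF 0 t
  have hi2 : Continuous fun q : ℝ => ∫ r in (0 : ℝ)..s, F r q :=
    intervalIntegral.continuous_parametric_intervalIntegral_of_continuous' hF' 0 s
  have hb1 : |(∫ r in (0 : ℝ)..s, a r) - ∫ r in (0 : ℝ)..s, ∫ q in (0 : ℝ)..t, F r q| ≤ σ := by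
    rw [← intervalIntegral.integral_sub (ha.intervalIntegrable _ _) (hi1.intervalIntegrable _ _)]
    have h3 := intervalIntegral.norm_integral_le_of_norm_le_const (a := (0 : ℝ)) (b := s) (C := σ)
      (f := fun r : ℝ => a r - ∫ q in (0 : ℝ)..t, F r q) (fun r _ => h1 r)
    rw [Real.norm_eq_abs, sub_zero] at h3
    exact h3.trans (by nlinarith [abs_nonneg s])
  have hb2 : |(∫ q in (0 : ℝ)..t, b q) - ∫ q in (0 : ℝ)..t, ∫ r in (0 : ℝ)..s, F r q| ≤ σ := by
    rw [← intervalIntegral.integral_sub (hb.intervalIntegrable _ _) (hi2.intervalIntegrable _ _)]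
    have h3 := intervalIntegral.norm_integral_le_of_norm_le_const (a := (0 : ℝ)) (b := t) (C := σ)
      (f := fun q : ℝ => b q - ∫ r in (0 : ℝ)..s, F r q) (fun q _ => h2 q)
    rw [Real.norm_eq_abs, sub_zero] at h3
    exact h3.trans (by nlinarith [abs_nonneg t])
  rw [hsw] at hb1
  rw [abs_le] at hb1 hb2 ⊢
  constructor <;> linarith [hb1.1, hb1.2, hb2.1, hb2.2]

private theorem D4a_cont {n : ℕ} (l m : V0 n) (E : Fn n) (hE : Continuous E) (g : SL n) :
    Continuous (Function.uncurry fun r q : ℝ => E (g * dgm (r • l) * dgm (q • m))) := by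
  obtain ⟨-, -, -, -, -, hcont⟩ := dgm_facts (n := n)
  have h4 : Continuous fun z : ℝ × ℝ => dgm (z.1 • l) :=
    hcont.comp (continuous_fst.smul continuous_const)
  have h5 : Continuous fun z : ℝ × ℝ => dgm (z.2 • m) :=
    hcont.comp (continuous_snd.smul continuous_const)
  exact hE.comp ((continuous_const.mul h4).mul h5)

private theorem D4a_inc_cont {n : ℕ} (l : V0 n) (e : Fn n) (he : Continuous e) (g y : SL n) :
    Continuous fun r : ℝ => e (g * y * dgm (r • l)) - e (g * dgm (r • l)) := by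
  obtain ⟨-, -, -, -, -, hcont⟩ := dgm_facts (n := n)
  have hd : Continuous fun r : ℝ => dgm (r • l) := hcont.comp (continuous_id.smul continuous_const)
  exact (he.comp (continuous_const.mul hd)).sub (he.comp (continuous_const.mul hd))

/-- the increments of `e` along `m` and of `e'` along `l` are the integrals of the same function -/
private theorem D4a_rect {n : ℕ} (l m : V0 n) (e e' E : Fn n) (he : Continuous e)
    (he' : Continuous e') (hE : Continuous E) (σ : ℝ)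
    (h1 : ∀ (x : SL n) (t : ℝ), |t| ≤ 1 →
      |e (x * dgm (t • m)) - e x - ∫ q in (0 : ℝ)..t, E (x * dgm (q • m))| ≤ σ)
    (h2 : ∀ (x : SL n) (t : ℝ), |t| ≤ 1 →
      |e' (x * dgm (t • l)) - e' x - ∫ q in (0 : ℝ)..t, E (x * dgm (q • l))| ≤ σ)
    (g : SL n) (s t : ℝ) (hs : |s| ≤ 1) (ht : |t| ≤ 1) :
    |(∫ r in (0 : ℝ)..s, (e (g * dgm (t • m) * dgm (r • l)) - e (g * dgm (r • l)))) -
      ∫ r in (0 : ℝ)..t, (e' (g * dgm (s • l) * dgm (r • m)) - e' (g * dgm (r • m)))| ≤ 2 * σ := by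
  obtain ⟨-, hcomm, -, -, -, -⟩ := dgm_facts (n := n)
  have hσ : 0 ≤ σ := (abs_nonneg _).trans (h1 g 0 (by simp))
  have hc3 : ∀ (a b : V0 n), g * dgm a * dgm b = g * dgm b * dgm a := by
    intro a b
    rw [mul_assoc, hcomm a b, ← mul_assoc]
  refine D4a_real (fun r q => E (g * dgm (r • l) * dgm (q • m))) (D4a_cont l m E hE g) _ _
    (D4a_inc_cont l e he g (dgm (t • m))) (D4a_inc_cont m e' he' g (dgm (s • l))) σ s t hσ hs ht
    ?_ ?_
  · intro r
    have h4 := h1 (g * dgm (r • l)) t ht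
    rw [hc3 (t • m) (r • l)]
    exact h4
  · intro q
    have h4 := h2 (g * dgm (q • m)) s hs
    rw [hc3 (s • l) (q • m)]
    simp only [hc3 _ (q • m)]
    exact h4

/-- Row D4a. (quantitative `clo_u`) the rectangle of `e l = A l H + θ l` by integrating
`R_m A(l,H) + om A1 l H m = R_m A(l,H) + R_l A(m,H) - R_H A(m,l)`, symmetric in `l, m`. -/
theorem clo_uQ {n : ℕ} : ∃ C : ℝ, 0 < C ∧ ∀ (Γ : Subgroup (SL n)) (M σ : ℝ)
    (A : V0 n →ₗ[ℝ] V0 n →ₗ[ℝ] Fn n) (A1 : V0 n →ₗ[ℝ] V0 n →ₗ[ℝ] V0 n →ₗ[ℝ] Fn n)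
    (A2 : V0 n →ₗ[ℝ] V0 n →ₗ[ℝ] V0 n →ₗ[ℝ] V0 n →ₗ[ℝ] Fn n), 0 ≤ M → 0 ≤ σ → AbQ Γ M A A1 A2 →
    ∀ (i j : Fin n) (h : i ≠ j) (θ : V0 n →ₗ[ℝ] Fn n), (∀ v : V0 n, ‖v‖ ≤ 2 → HB Γ M (θ v)) →
      (∀ v l : V0 n, ‖v‖ ≤ 2 → ‖l‖ ≤ 2 → RQ σ l (θ v) (om A1 v (Hv i j) l)) →
      (∀ v : V0 n, ‖v‖ ≤ 2 → ∀ g, |θ v (g * kk i j h) + θ v g| ≤ σ) → θ (Hv i j) = 0 →
      CloQ Γ (C * M) (C * σ) i j (A.flip (Hv i j) + θ) ∧ AntiQ (C * σ) i j h (A.flip (Hv i j) + θ) := by
  refine ⟨4, by norm_num, fun Γ M σ A A1 A2 hM hσ hA i j h θ hb hd hk h0 => ?_⟩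
  have he : ∀ v g, (A.flip (Hv i j) + θ) v g = A v (Hv i j) g + θ v g := fun v g => rfl
  have hH : ‖(Hv i j : V0 n)‖ ≤ 2 := D4a_norm_Hv i j
  obtain ⟨f1, f2, f3, f4, f5, f6, f7, f8, f9⟩ := HB_facts (n := n) Γ
  have hfun : ∀ v, (A.flip (Hv i j) + θ) v = fun g => A v (Hv i j) g + θ v g := fun v => rfl
  refine ⟨⟨?_, ?_, ?_⟩, ?_⟩
  · intro v hv
    rw [hfun]
    refine f4 (2 * M + M) (4 * M) _ (by linarith) ?_
    exact f7 _ _ _ _ (f3 _ _ (hA.b0 v (Hv i j) hv hH)) (hb v hv)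
  · intro l m hl hm g s t hs ht
    -- the common derivative
    have hsym : ∀ x : SL n, A1 m l (Hv i j) x + om A1 l (Hv i j) m x =
        A1 l m (Hv i j) x + om A1 m (Hv i j) l x := by
      intro x
      have h1 : A1 (Hv i j) m l x = A1 (Hv i j) l m x := congrFun (hA.ab.sym1 (Hv i j) m l) x
      rw [om_apply, om_apply, h1]
      ring
    have hcE : ∀ a b : V0 n, Continuous fun x : SL n => A1 a b (Hv i j) x + om A1 b (Hv i j) a x := by
      intro a b
      exact (hA.ab.inv1 a b (Hv i j)).cont.add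
        ((hA.ab.inv1 b a (Hv i j)).cont.sub (hA.ab.inv1 (Hv i j) a b).cont)
    have hom : ∀ a b : V0 n, Continuous (om A1 b (Hv i j) a) := by
      intro a b
      exact (hA.ab.inv1 b a (Hv i j)).cont.sub (hA.ab.inv1 (Hv i j) a b).cont
    obtain ⟨-, hcomm, -, -, -, hcont⟩ := dgm_facts (n := n)
    have hinc : ∀ a b : V0 n, ‖a‖ ≤ 2 → ‖b‖ ≤ 2 → ∀ (x : SL n) (t : ℝ), |t| ≤ 1 →
        |(A.flip (Hv i j) + θ) b (x * dgm (t • a)) - (A.flip (Hv i j) + θ) b x -
          ∫ q in (0 : ℝ)..t, (A1 a b (Hv i j) (x * dgm (q • a)) +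
            om A1 b (Hv i j) a (x * dgm (q • a)))| ≤ 2 * σ := by
      intro a b ha hb' x t ht
      have h1 := Rd_ftc a (A b (Hv i j)) (A1 a b (Hv i j)) (hA.ab.d1 a b (Hv i j))
        (hA.ab.inv1 a b (Hv i j)).cont x t
      have h2 := hd b a hb' ha x t
      have hcq : Continuous fun q : ℝ => x * dgm (q • a) :=
        continuous_const.mul (hcont.comp (continuous_id.smul continuous_const))
      have hadd : (∫ q in (0 : ℝ)..t, (A1 a b (Hv i j) (x * dgm (q • a)) +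
          om A1 b (Hv i j) a (x * dgm (q • a)))) =
          (∫ q in (0 : ℝ)..t, A1 a b (Hv i j) (x * dgm (q • a))) +
          ∫ q in (0 : ℝ)..t, om A1 b (Hv i j) a (x * dgm (q • a)) :=
        intervalIntegral.integral_add
          (((hA.ab.inv1 a b (Hv i j)).cont.comp hcq).intervalIntegrable _ _)
          (((hom a b).comp hcq).intervalIntegrable _ _)
      rw [hadd, he, he]
      have h3 : σ * (1 + |t|) ≤ 2 * σ := by nlinarith
      have h4 : A b (Hv i j) (x * dgm (t • a)) + θ b (x * dgm (t • a)) -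
          (A b (Hv i j) x + θ b x) - ((∫ q in (0 : ℝ)..t, A1 a b (Hv i j) (x * dgm (q • a))) +
          ∫ q in (0 : ℝ)..t, om A1 b (Hv i j) a (x * dgm (q • a))) =
          θ b (x * dgm (t • a)) - θ b x -
          ∫ q in (0 : ℝ)..t, om A1 b (Hv i j) a (x * dgm (q • a)) := by
        rw [h1]
        ring
      rw [h4]
      exact h2.trans h3
    have hce : ∀ v : V0 n, ‖v‖ ≤ 2 → Continuous ((A.flip (Hv i j) + θ) v) := by
      intro v hv
      exact (hA.ab.inv0 v (Hv i j)).cont.add (f1 _ _ (hb v hv)).cont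
    have key := D4a_rect l m ((A.flip (Hv i j) + θ) l) ((A.flip (Hv i j) + θ) m)
      (fun x : SL n => A1 m l (Hv i j) x + om A1 l (Hv i j) m x) (hce l hl) (hce m hm) (hcE m l)
      (2 * σ) (hinc m l hm hl) (by
        intro x t ht
        have := hinc l m hl hm x t ht
        simp only [← hsym] at this
        exact this) g s t hs ht
    calc _ ≤ 2 * (2 * σ) := key
      _ = 4 * σ := by ring
  · have h1 : (A.flip (Hv i j) + θ) (Hv i j) = A (Hv i j) (Hv i j) := by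
      rw [hfun, h0]
      funext g
      simp
    rw [h1]
    exact f5 M (4 * M) _ (by linarith) (hA.b0 _ _ hH hH)
  · intro v hv hvij g
    obtain ⟨-, -, hs, hH', -, -⟩ := sw_facts i j h
    rw [he, he, hA.ab.k0 i j h v (Hv i j) g, hs v hvij, hH', map_neg]
    have h1 := hk v hv g
    have h2 : (-(A v (Hv i j))) g + θ v (g * kk i j h) + (A v (Hv i j) g + θ v g) =
        θ v (g * kk i j h) + θ v g := by
      simp only [Pi.neg_apply]
      ring
    rw [h2]
    linarith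

end FL27
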