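import Pool.Agent.LibFL27.D1c
import Pool.Agent.LibNC27.R0

set_option autoImplicit false
set_option maxSynthPendingDepth 3

open Matrix MeasureTheory Topology Filter LibNC38
open LibNC27 hiding Mt
open scoped Matrix.Norms.Elementwise

namespace FL27

private def D5a_W (n : ℕ) : Set (SL n) := {g | ∀ a b, g.1 a b ∈ ({-1, 0, 1} : Set ℝ)}

private theorem D5a_fin (n : ℕ) : (D5a_W n).Finite := by
  have hS : (Set.pi Set.univ (fun _ : Fin n => Set.pi Set.univ
      (fun _ : Fin n => ({-1, 0, 1} : Set ℝ)))).Finite :=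
    Set.Finite.pi fun _ => Set.Finite.pi fun _ => Set.toFinite _
  have hinj : Function.Injective (fun g : SL n => (fun a b => g.1 a b : Fin n → Fin n → ℝ)) := by
    intro g g' hg
    apply Subtype.ext
    ext a b
    exact congrFun (congrFun hg a) b
  refine (hS.preimage hinj.injOn).subset ?_
  intro g hg
  simp only [Set.mem_preimage, Set.mem_pi, Set.mem_univ, forall_true_left]
  exact fun a b => hg a b

private theorem D5a_one (n : ℕ) : (1 : SL n) ∈ D5a_W n := by
  intro a b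
  show (1 : Matrix (Fin n) (Fin n) ℝ) a b ∈ ({-1, 0, 1} : Set ℝ)
  rw [Matrix.one_apply]
  split_ifs <;> simp

private theorem D5a_neg {x : ℝ} (hx : x ∈ ({-1, 0, 1} : Set ℝ)) : -x ∈ ({-1, 0, 1} : Set ℝ) := by
  rcases hx with h3 | h3 | h3
  · rw [h3]; simp
  · rw [h3]; simp
  · rw [Set.mem_singleton_iff] at h3
    rw [h3]; simp

private theorem D5a_mul {n : ℕ} (i j : Fin n) (h : i ≠ j) (w : SL n) (hw : w ∈ D5a_W n) :
    w * kk i j h ∈ D5a_W n := by
  have e : (w * kk i j h).1 = w.1 * Matrix.transvection i j 1 * Matrix.transvection j i (-1) *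
      Matrix.transvection i j 1 := by
    have : w * kk i j h = w * tv i j h 1 * tv j i h.symm (-1) * tv i j h 1 := by
      simp only [kk, mul_assoc]
    rw [this]
    rfl
  intro a b
  rw [e]
  set M0 := w.1 with hM0
  set M1 := M0 * Matrix.transvection i j 1 with hM1
  set M2 := M1 * Matrix.transvection j i (-1) with hM2
  have h1j : M1 a j = M0 a j + 1 * M0 a i := by
    rw [hM1, Matrix.mul_transvection_apply_same]
  have h1i : M1 a i = M0 a i := by
    rw [hM1, Matrix.mul_transvection_apply_of_ne _ _ _ _ h]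
  have h2i : M2 a i = M1 a i + (-1) * M1 a j := by
    rw [hM2, Matrix.mul_transvection_apply_same]
  have h2j : M2 a j = M1 a j := by
    rw [hM2, Matrix.mul_transvection_apply_of_ne _ _ _ _ h.symm]
  by_cases hb : b = j
  · subst hb
    rw [Matrix.mul_transvection_apply_same, h2j, h2i, h1j, h1i]
    have : M0 a b + 1 * M0 a i + 1 * (M0 a i + -1 * (M0 a b + 1 * M0 a i)) = M0 a i := by ring
    rw [this]
    exact hw a i
  · rw [Matrix.mul_transvection_apply_of_ne _ _ _ _ hb]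
    by_cases hb' : b = i
    · subst hb'
      rw [h2i, h1j, h1i]
      have : M0 a b + -1 * (M0 a j + 1 * M0 a b) = -M0 a j := by ring
      rw [this]
      exact D5a_neg (hw a j)
    · rw [hM2, Matrix.mul_transvection_apply_of_ne _ _ _ _ hb', hM1,
        Matrix.mul_transvection_apply_of_ne _ _ _ _ hb]
      exact hw a b

/-- the average of an almost antisymmetric function over the finite group is small -/
private theorem D5a_avg {n : ℕ} (W : Finset (SL n)) (hmem : ∀ g, g ∈ W ↔ g ∈ D5a_W n)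
    (F : Fn n) (i j : Fin n) (h : i ≠ j) (σ : ℝ)
    (hF : ∀ g, |F (g * kk i j h) + F g| ≤ σ) : |∑ w ∈ W, F w| ≤ (W.card : ℝ) * σ / 2 := by
  classical
  have hinj : Function.Injective (fun w : SL n => w * kk i j h) := mul_left_injective _
  have himg : W.image (fun w => w * kk i j h) = W := by
    apply Finset.eq_of_subset_of_card_le
    · intro x hx
      obtain ⟨w, hw, rfl⟩ := Finset.mem_image.mp hx
      rw [hmem] at hw ⊢
      exact D5a_mul _ _ _ w hw
    · rw [Finset.card_image_of_injective _ hinj]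
  have h2 : ∑ w ∈ W, F w = ∑ w ∈ W, F (w * kk i j h) := by
    conv_lhs => rw [← himg]
    rw [Finset.sum_image (fun x _ y _ hxy => hinj hxy)]
  have h3 : |∑ w ∈ W, (F (w * kk i j h) + F w)| ≤ (W.card : ℝ) * σ := by
    refine (Finset.abs_sum_le_sum_abs _ _).trans ?_
    refine (Finset.sum_le_sum fun w _ => hF w).trans ?_
    rw [Finset.sum_const, nsmul_eq_mul]
  rw [Finset.sum_add_distrib, ← h2] at h3
  have h4 : ∑ w ∈ W, F w + ∑ w ∈ W, F w = 2 * ∑ w ∈ W, F w := by ring
  rw [h4, abs_mul, abs_two] at h3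
  linarith

/-- the combination is in the class `HB` -/
private theorem D5a_HB {n : ℕ} {Γ : Subgroup (SL n)} {M : ℝ} (c : Fin 3 → ℝ)
    (F : Fin 3 → Fn n) (hc : ∀ a, |c a| ≤ 1) (hF : ∀ a, HB Γ M (F a)) :
    HB Γ (3 * M) (fun g => ∑ a, c a * F a g) := by
  have key : ∀ (x : Fin 3 → ℝ) (B : ℝ), (∀ a, |x a| ≤ B) → |∑ a, c a * x a| ≤ 3 * B := by
    intro x B hx
    refine (Finset.abs_sum_le_sum_abs _ _).trans ?_
    have h1 : ∀ a ∈ (Finset.univ : Finset (Fin 3)), |c a * x a| ≤ B := by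
      intro a _
      rw [abs_mul]
      calc |c a| * |x a| ≤ 1 * |x a| := mul_le_mul_of_nonneg_right (hc a) (abs_nonneg _)
        _ = |x a| := one_mul _
        _ ≤ B := hx a
    refine (Finset.sum_le_sum h1).trans ?_
    rw [Finset.sum_const, Finset.card_univ, Fintype.card_fin, nsmul_eq_mul]
    norm_num
  refine ⟨?_, ?_, ?_⟩
  · intro γ hγ g
    refine Finset.sum_congr rfl fun a _ => ?_
    rw [(hF a).inv γ hγ g]
  · intro g
    exact key (fun a => F a g) M fun a => (hF a).bd g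
  · intro g q
    have h1 : (∑ a, c a * F a (g * q)) - ∑ a, c a * F a g =
        ∑ a, c a * (F a (g * q) - F a g) := by
      rw [← Finset.sum_sub_distrib]
      exact Finset.sum_congr rfl fun a _ => by ring
    show |(∑ a, c a * F a (g * q)) - ∑ a, c a * F a g| ≤ 3 * M * √ (dE q)
    rw [h1, mul_assoc]
    exact key (fun a => F a (g * q) - F a g) (M * √ (dE q)) fun a => (hF a).hol g q

/-- Row D5a. Almost antisymmetric functions whose sum is almost invariant under the flats: the sum is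
small (mauq, then the average over the finite group generated by the kk, as `avg_zero`). -/
theorem antisumQ {n : ℕ} (hn : 3 ≤ n) (Γ : Subgroup (SL n)) (hc : Coc Γ) (M : ℝ) (hM : 0 ≤ M) :
    ∃ C b : ℝ, 0 < C ∧ 0 < b ∧ b ≤ 1 ∧ ∀ (σ : ℝ) (i j : Fin 3 → Fin n) (h : ∀ a, i a ≠ j a)
      (c : Fin 3 → ℝ) (F : Fin 3 → Fn n), 0 < σ → σ ≤ 1 → (∀ a, |c a| ≤ 1) → (∀ a, HB Γ M (F a)) →
      (∀ a g, |F a (g * kk (i a) (j a) (h a)) + F a g| ≤ σ) →
      (∀ l : V0 n, ‖l‖ = 1 → ∀ (g : SL n) (t : ℝ),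
        |∑ a, c a * F a (g * dgm (t • l)) - ∑ a, c a * F a g| ≤ σ * (1 + |t|)) →
      ∀ g, |∑ a, c a * F a g| ≤ C * σ ^ b := by
  classical
  obtain ⟨C0, hC0, hm⟩ := mauq hn Γ hc
  refine ⟨2 + C0 * (1 + 3 * M), 1 / 2, by positivity, by norm_num, by norm_num, ?_⟩
  intro σ i j h c F hσ hσ1 hc1 hHB hA hflow g
  let W : Finset (SL n) := (D5a_fin n).toFinset
  have hmem : ∀ g, g ∈ W ↔ g ∈ D5a_W n := fun g => (D5a_fin n).mem_toFinset
  have hcard : (0 : ℝ) < W.card := by
    exact_mod_cast Finset.card_pos.mpr ⟨1, (hmem 1).mpr (D5a_one n)⟩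
  -- a unit vector
  obtain ⟨l, hl⟩ : ∃ l : V0 n, ‖l‖ = 1 := by
    have h0 : (Hv (i 0) (j 0) : V0 n) ≠ 0 := (Hv_facts _ _ (h 0)).2.2.2.1
    refine ⟨‖(Hv (i 0) (j 0) : V0 n)‖⁻¹ • Hv (i 0) (j 0), ?_⟩
    rw [norm_smul, norm_inv, norm_norm, inv_mul_cancel₀ (norm_ne_zero_iff.2 h0)]
  have h3M : 0 ≤ 3 * M := by positivity
  have hG := D5a_HB c F hc1 hHB
  have hmau := hm σ (3 * M) (fun g => ∑ a, c a * F a g) l hσ hσ1 h3M hG hl (hflow l hl)
  have hsq : σ ≤ √ σ := by
    have h1 : √ σ ≤ 1 := by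
      have h4 := Real.sqrt_le_sqrt hσ1
      rwa [Real.sqrt_one] at h4
    have h2 : √ σ * √ σ = σ := Real.mul_self_sqrt hσ.le
    have h3 : 0 ≤ √ σ := Real.sqrt_nonneg _
    nlinarith
  -- the average over the finite group
  have havg : |∑ w ∈ W, ∑ a, c a * F a w| ≤ (W.card : ℝ) * (3 / 2 * σ) := by
    rw [Finset.sum_comm]
    refine (Finset.abs_sum_le_sum_abs _ _).trans ?_
    have h1 : ∀ a ∈ (Finset.univ : Finset (Fin 3)),
        |∑ w ∈ W, c a * F a w| ≤ (W.card : ℝ) * σ / 2 := by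
      intro a _
      rw [← Finset.mul_sum, abs_mul]
      have h2 := D5a_avg W hmem (F a) (i a) (j a) (h a) σ (hA a)
      calc |c a| * |∑ w ∈ W, F a w| ≤ 1 * |∑ w ∈ W, F a w| :=
            mul_le_mul_of_nonneg_right (hc1 a) (abs_nonneg _)
        _ = |∑ w ∈ W, F a w| := one_mul _
        _ ≤ _ := h2
    refine (Finset.sum_le_sum h1).trans ?_
    rw [Finset.sum_const, Finset.card_univ, Fintype.card_fin, nsmul_eq_mul]
    apply le_of_eq
    push_cast
    ring
  have hdif : |∑ w ∈ W, ((∑ a, c a * F a g) - ∑ a, c a * F a w)| ≤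
      (W.card : ℝ) * (C0 * (1 + 3 * M) * √ σ) := by
    refine (Finset.abs_sum_le_sum_abs _ _).trans ?_
    refine (Finset.sum_le_sum fun w _ => hmau g w).trans ?_
    rw [Finset.sum_const, nsmul_eq_mul]
  rw [Finset.sum_sub_distrib, Finset.sum_const, nsmul_eq_mul] at hdif
  have htot : |(W.card : ℝ) * ∑ a, c a * F a g| ≤
      (W.card : ℝ) * (3 / 2 * σ + C0 * (1 + 3 * M) * √ σ) := by
    have h1 : (W.card : ℝ) * ∑ a, c a * F a g =
        ((W.card : ℝ) * (∑ a, c a * F a g) - ∑ w ∈ W, ∑ a, c a * F a w) +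
          ∑ w ∈ W, ∑ a, c a * F a w := by ring
    rw [h1]
    refine (abs_add_le _ _).trans ?_
    rw [mul_add]
    linarith
  rw [abs_mul, abs_of_pos hcard] at htot
  have hfin := le_of_mul_le_mul_left htot hcard
  rw [← Real.sqrt_eq_rpow]
  calc |∑ a, c a * F a g| ≤ 3 / 2 * σ + C0 * (1 + 3 * M) * √ σ := hfin
    _ ≤ 2 * √ σ + C0 * (1 + 3 * M) * √ σ := by linarith
    _ = (2 + C0 * (1 + 3 * M)) * √ σ := by ring

end FL27
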