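import Pool.Agent.LibFL27.D5a
import Pool.Agent.LibFL27.D0d

set_option autoImplicit false
set_option maxSynthPendingDepth 3

open Matrix MeasureTheory Topology Filter LibNC38
open LibNC27 hiding Mt
open scoped Matrix.Norms.Elementwise

namespace FL27

private theorem D5b_flow {n : ℕ} (F : Fn n) (hF : Continuous F) (g : SL n) (l : V0 n) :
    Continuous fun s : ℝ => F (g * dgm (s • l)) := by
  have h1 : Continuous fun v : V0 n => dgm v := (dgm_facts (n := n)).2.2.2.2.2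
  have h2 : Continuous fun s : ℝ => (s • l : V0 n) := continuous_id.smul continuous_const
  exact hF.comp (continuous_const.mul (h1.comp h2))

/-- linear combination of approximate derivatives -/
private theorem D5b_sum {n : ℕ} (σ : ℝ) (hσ : 0 ≤ σ) (l : V0 n) (c : Fin 3 → ℝ)
    (hc : ∀ a, |c a| ≤ 1) (F F' : Fin 3 → Fn n) (hF' : ∀ a, Continuous (F' a))
    (h : ∀ a, RQ σ l (F a) (F' a)) (g : SL n) (t : ℝ) :
    |(∑ a, c a * F a (g * dgm (t • l)) - ∑ a, c a * F a g) -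
      ∫ s in (0 : ℝ)..t, ∑ a, c a * F' a (g * dgm (s • l))| ≤ 3 * σ * (1 + |t|) := by
  have h1 : ∫ s in (0 : ℝ)..t, ∑ a, c a * F' a (g * dgm (s • l)) =
      ∑ a, c a * ∫ s in (0 : ℝ)..t, F' a (g * dgm (s • l)) := by
    rw [intervalIntegral.integral_finsetSum]
    · exact Finset.sum_congr rfl fun a _ => intervalIntegral.integral_const_mul _ _
    · intro a _
      exact (continuous_const.mul (D5b_flow (F' a) (hF' a) g l)).intervalIntegrable _ _
  have h2 : (∑ a, c a * F a (g * dgm (t • l)) - ∑ a, c a * F a g) -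
      ∑ a, c a * ∫ s in (0 : ℝ)..t, F' a (g * dgm (s • l)) =
      ∑ a, c a * (F a (g * dgm (t • l)) - F a g - ∫ s in (0 : ℝ)..t, F' a (g * dgm (s • l))) := by
    rw [← Finset.sum_sub_distrib, ← Finset.sum_sub_distrib]
    exact Finset.sum_congr rfl fun a _ => by ring
  rw [h1, h2]
  refine (Finset.abs_sum_le_sum_abs _ _).trans ?_
  have h3 : ∀ a : Fin 3, |c a * (F a (g * dgm (t • l)) - F a g -
      ∫ s in (0 : ℝ)..t, F' a (g * dgm (s • l)))| ≤ σ * (1 + |t|) := by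
    intro a
    rw [abs_mul]
    have h4 := h a g t
    have h5 : 0 ≤ σ * (1 + |t|) := by positivity
    calc |c a| * |F a (g * dgm (t • l)) - F a g - ∫ s in (0 : ℝ)..t, F' a (g * dgm (s • l))|
        ≤ 1 * (σ * (1 + |t|)) := mul_le_mul (hc a) h4 (abs_nonneg _) zero_le_one
      _ = σ * (1 + |t|) := one_mul _
  calc ∑ a : Fin 3, |c a * (F a (g * dgm (t • l)) - F a g -
        ∫ s in (0 : ℝ)..t, F' a (g * dgm (s • l)))|
      ≤ ∑ _a : Fin 3, σ * (1 + |t|) := Finset.sum_le_sum fun a _ => h3 a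
    _ = 3 * σ * (1 + |t|) := by
        rw [Finset.sum_const, Finset.card_univ, Fintype.card_fin]
        simp only [nsmul_eq_mul, Nat.cast_ofNat]
        ring

/-- trivial bound -/
private theorem D5b_triv {n : ℕ} (M : ℝ) (c : Fin 3 → ℝ) (hc : ∀ a, |c a| ≤ 1)
    (F : Fin 3 → Fn n) (hF : ∀ a g, |F a g| ≤ M) (g : SL n) : |∑ a, c a * F a g| ≤ 3 * M := by
  refine (Finset.abs_sum_le_sum_abs _ _).trans ?_
  calc ∑ a : Fin 3, |c a * F a g| ≤ ∑ _a : Fin 3, M := Finset.sum_le_sum fun a _ => by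
        rw [abs_mul]
        calc |c a| * |F a g| ≤ 1 * M := mul_le_mul (hc a) (hF a g) (abs_nonneg _) zero_le_one
          _ = M := one_mul _
    _ = 3 * M := by
        rw [Finset.sum_const, Finset.card_univ, Fintype.card_fin]
        simp only [nsmul_eq_mul, Nat.cast_ofNat]

/-- Row D5b. (quantitative `relations`, at most three roots; put `c a = 0` for two-term relations) -/
theorem relationsQ {n : ℕ} (hn : 3 ≤ n) (Γ : Subgroup (SL n)) (hc : Coc Γ) (M : ℝ) (hM : 0 ≤ M) :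
    ∃ C b : ℝ, 0 < C ∧ 0 < b ∧ b ≤ 1 ∧ ∀ (σ : ℝ)
      (A : V0 n →ₗ[ℝ] V0 n →ₗ[ℝ] Fn n) (A1 : V0 n →ₗ[ℝ] V0 n →ₗ[ℝ] V0 n →ₗ[ℝ] Fn n)
      (A2 : V0 n →ₗ[ℝ] V0 n →ₗ[ℝ] V0 n →ₗ[ℝ] V0 n →ₗ[ℝ] Fn n), 0 < σ → σ ≤ 1 → AbQ Γ M A A1 A2 →
      ∀ (i j : Fin 3 → Fin n) (h : ∀ a, i a ≠ j a) (c : Fin 3 → ℝ), (∀ a, |c a| ≤ 1) →
      ∑ a, c a • (Hv (i a) (j a) : V0 n) = 0 →
      ∀ (θ : Fin 3 → V0 n →ₗ[ℝ] Fn n) (u : Fin 3 → Fn n) (m : Fin 3 → ℝ), (∀ a, |m a| ≤ M) →
      (∀ a, ∀ v : V0 n, ‖v‖ ≤ 2 → HB Γ M (θ a v)) → (∀ a, HB Γ M (u a)) →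
      (∀ a, ∀ v l : V0 n, ‖v‖ ≤ 2 → ‖l‖ ≤ 2 → RQ σ l (θ a v) (om A1 v (Hv (i a) (j a)) l)) →
      (∀ a, ∀ v : V0 n, ‖v‖ ≤ 2 → ∀ g, |θ a v (g * kk (i a) (j a) (h a)) + θ a v g| ≤ σ) →
      (∀ a, ∀ l : V0 n, ‖l‖ ≤ 2 → RQ σ l (u a) (fun g => A l (Hv (i a) (j a)) g + θ a l g -
        m a * (l.1 (i a) - l.1 (j a)))) →
      (∀ a g, |u a (g * kk (i a) (j a) (h a)) + u a g| ≤ σ) →
      (∀ v : V0 n, ‖v‖ ≤ 2 → ∀ g, |∑ a, c a * θ a v g| ≤ C * σ ^ b) ∧
      (∀ l : V0 n, ‖l‖ ≤ 2 → |∑ a, c a * (m a * (l.1 (i a) - l.1 (j a)))| ≤ C * σ ^ b) ∧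
      ∀ g, |∑ a, c a * u a g| ≤ C * σ ^ b := by
  obtain ⟨C0, b0, hC0, hb0, hb1, H0⟩ := antisumQ hn Γ hc M hM
  set D : ℝ := C0 + 3 * M with hD
  have hD0 : 0 < D := by rw [hD]; linarith
  -- general form of antisumQ
  have H1 : ∀ (ρ : ℝ) (i j : Fin 3 → Fin n) (h : ∀ a, i a ≠ j a) (c : Fin 3 → ℝ)
      (F : Fin 3 → Fn n), 0 < ρ → (∀ a, |c a| ≤ 1) → (∀ a, HB Γ M (F a)) →
      (∀ a g, |F a (g * kk (i a) (j a) (h a)) + F a g| ≤ ρ) →
      (∀ l : V0 n, ‖l‖ = 1 → ∀ (g : SL n) (t : ℝ),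
        |∑ a, c a * F a (g * dgm (t • l)) - ∑ a, c a * F a g| ≤ ρ * (1 + |t|)) →
      ∀ g, |∑ a, c a * F a g| ≤ D * ρ ^ b0 := by
    intro ρ i j h c F hρ hcc hF ha hi g
    by_cases h1 : ρ ≤ 1
    · refine (H0 ρ i j h c F hρ h1 hcc hF ha hi g).trans ?_
      have h2 : 0 ≤ ρ ^ b0 := Real.rpow_nonneg hρ.le _
      exact mul_le_mul_of_nonneg_right (by rw [hD]; linarith) h2
    · refine (D5b_triv M c hcc F (fun a g => (hF a).bd g) g).trans ?_
      have h2 : 1 ≤ ρ ^ b0 := Real.one_le_rpow (not_le.mp h1).le hb0.le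
      calc 3 * M ≤ D := by rw [hD]; linarith
        _ = D * 1 := (mul_one _).symm
        _ ≤ D * ρ ^ b0 := mul_le_mul_of_nonneg_left h2 hD0.le
  set C1 : ℝ := D * 3 with hC1
  have hC1p : 0 < C1 := by rw [hC1]; linarith
  set C2 : ℝ := 2 * C1 + 6 with hC2
  have hC2p : 1 ≤ C2 := by rw [hC2]; linarith
  refine ⟨C1 + (C1 + 3) + D * C2, b0 * b0, ?_, mul_pos hb0 hb0, ?_, ?_⟩
  · have : 0 < D * C2 := mul_pos hD0 (by linarith)
    linarith
  · calc b0 * b0 ≤ 1 * 1 := mul_le_mul hb1 hb1 hb0.le zero_le_one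
      _ = 1 := one_mul _
  intro σ A A1 A2 hσ hσ1 hA i j h c hcc hrel θ u m hm hθ hu hdθ haθ hdu hau
  have hb2 : σ ^ b0 ≤ σ ^ (b0 * b0) := by
    apply Real.rpow_le_rpow_of_exponent_ge hσ hσ1
    calc b0 * b0 ≤ b0 * 1 := mul_le_mul_of_nonneg_left hb1 hb0.le
      _ = b0 := mul_one _
  have hσb : σ ≤ σ ^ b0 := by
    calc σ = σ ^ (1 : ℝ) := (Real.rpow_one _).symm
      _ ≤ σ ^ b0 := Real.rpow_le_rpow_of_exponent_ge hσ hσ1 hb1
  have hs0 : 0 < σ ^ b0 := Real.rpow_pos_of_pos hσ _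
  have hs1 : 0 < σ ^ (b0 * b0) := Real.rpow_pos_of_pos hσ _
  have hDC2 : 0 < D * C2 := mul_pos hD0 (by linarith)
  -- part 1
  have P1 : ∀ v : V0 n, ‖v‖ ≤ 2 → ∀ g, |∑ a, c a * θ a v g| ≤ C1 * σ ^ b0 := by
    intro v hv g
    have h1 := H1 (3 * σ) i j h c (fun a => θ a v) (by linarith) hcc (fun a => hθ a v hv)
      (fun a g => (haθ a v hv g).trans (by linarith)) ?_ g
    · refine h1.trans ?_
      have h2 : (3 * σ) ^ b0 ≤ 3 * σ ^ b0 := by
        rw [Real.mul_rpow (by norm_num) hσ.le]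
        refine mul_le_mul_of_nonneg_right ?_ hs0.le
        calc (3 : ℝ) ^ b0 ≤ (3 : ℝ) ^ (1 : ℝ) :=
              Real.rpow_le_rpow_of_exponent_le (by norm_num) hb1
          _ = 3 := Real.rpow_one _
      calc D * (3 * σ) ^ b0 ≤ D * (3 * σ ^ b0) := mul_le_mul_of_nonneg_left h2 hD0.le
        _ = C1 * σ ^ b0 := by rw [hC1]; ring
    · intro l hl g t
      have hcont : ∀ a, Continuous (om A1 v (Hv (i a) (j a)) l) := by
        intro a
        have e : (om A1 v (Hv (i a) (j a)) l : Fn n) =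
            fun g => A1 v l (Hv (i a) (j a)) g - A1 (Hv (i a) (j a)) l v g :=
          funext fun g => om_apply A1 v (Hv (i a) (j a)) l g
        rw [e]
        exact (hA.ab.inv1 _ _ _).cont.sub (hA.ab.inv1 _ _ _).cont
      have h2 := D5b_sum σ hσ.le l c hcc (fun a => θ a v) (fun a => om A1 v (Hv (i a) (j a)) l)
        hcont (fun a => hdθ a v l hv (by rw [hl]; norm_num)) g t
      have h3 : ∀ x : SL n, ∑ a, c a * om A1 v (Hv (i a) (j a)) l x = 0 := by
        intro x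
        have h4 : ∑ a, c a * om A1 v (Hv (i a) (j a)) l x =
            A1 v l (∑ a, c a • Hv (i a) (j a)) x - A1 (∑ a, c a • Hv (i a) (j a)) l v x := by
          simp only [map_sum, map_smul, LinearMap.sum_apply, LinearMap.smul_apply,
            Finset.sum_apply, Pi.smul_apply, smul_eq_mul]
          rw [← Finset.sum_sub_distrib]
          refine Finset.sum_congr rfl fun a _ => ?_
          rw [om_apply]
          ring
        rw [h4, hrel]
        simp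
      have h5 : ∫ s in (0 : ℝ)..t, ∑ a, c a * om A1 v (Hv (i a) (j a)) l (g * dgm (s • l)) = 0 := by
        simp only [h3]
        simp
      rw [h5, sub_zero] at h2
      exact h2
  -- derivative of the sum of the u
  set K : V0 n → ℝ := fun l => ∑ a, c a * (m a * (l.1 (i a) - l.1 (j a))) with hK
  have P2 : ∀ l : V0 n, ‖l‖ ≤ 2 → ∀ (g : SL n) (t : ℝ),
      |(∑ a, c a * u a (g * dgm (t • l)) - ∑ a, c a * u a g) + t * K l| ≤
        C1 * σ ^ b0 * |t| + 3 * σ * (1 + |t|) := by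
    intro l hl g t
    have hcθ : ∀ a, Continuous (θ a l) := fun a => ((HB_facts Γ).1 M (θ a l) (hθ a l hl)).cont
    have hcont : ∀ a, Continuous (fun g : SL n => A l (Hv (i a) (j a)) g + θ a l g -
        m a * (l.1 (i a) - l.1 (j a))) := fun a =>
      ((hA.ab.inv0 _ _).cont.add (hcθ a)).sub continuous_const
    have h2 := D5b_sum σ hσ.le l c hcc u (fun a => fun g => A l (Hv (i a) (j a)) g + θ a l g -
      m a * (l.1 (i a) - l.1 (j a))) hcont (fun a => hdu a l hl) g t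
    have h3 : ∀ x : SL n, ∑ a, c a * (A l (Hv (i a) (j a)) x + θ a l x -
        m a * (l.1 (i a) - l.1 (j a))) = ∑ a, c a * θ a l x - K l := by
      intro x
      have hJ : ∑ a, c a * A l (Hv (i a) (j a)) x = 0 := by
        have h4 : A l (∑ a, c a • Hv (i a) (j a)) x = ∑ a, c a * A l (Hv (i a) (j a)) x := by
          simp only [map_sum, map_smul, Finset.sum_apply, Pi.smul_apply, smul_eq_mul]
        rw [← h4, hrel]
        simp
      have h4 : ∀ a, c a * (A l (Hv (i a) (j a)) x + θ a l x - m a * (l.1 (i a) - l.1 (j a))) =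
          c a * A l (Hv (i a) (j a)) x + c a * θ a l x - c a * (m a * (l.1 (i a) - l.1 (j a))) := by
        intro a
        ring
      simp only [h4]
      rw [Finset.sum_sub_distrib, Finset.sum_add_distrib, hJ, zero_add]
    have hcs : Continuous fun s : ℝ => ∑ a, c a * θ a l (g * dgm (s • l)) :=
      continuous_finsetSum _ fun a _ => continuous_const.mul (D5b_flow (θ a l) (hcθ a) g l)
    have h5 : ∫ s in (0 : ℝ)..t, ∑ a, c a * (A l (Hv (i a) (j a)) (g * dgm (s • l)) +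
        θ a l (g * dgm (s • l)) - m a * (l.1 (i a) - l.1 (j a))) =
        (∫ s in (0 : ℝ)..t, ∑ a, c a * θ a l (g * dgm (s • l))) - t * K l := by
      simp only [h3]
      rw [intervalIntegral.integral_sub (hcs.intervalIntegrable _ _)
        (continuous_const.intervalIntegrable _ _), intervalIntegral.integral_const, sub_zero,
        smul_eq_mul]
    rw [h5] at h2
    have h6 : |∫ s in (0 : ℝ)..t, ∑ a, c a * θ a l (g * dgm (s • l))| ≤ C1 * σ ^ b0 * |t| := by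
      have h7 := intervalIntegral.norm_integral_le_of_norm_le_const (a := (0 : ℝ)) (b := t)
        (C := C1 * σ ^ b0) (f := fun s : ℝ => ∑ a, c a * θ a l (g * dgm (s • l)))
        (fun s _ => by rw [Real.norm_eq_abs]; exact P1 l hl _)
      rw [Real.norm_eq_abs, sub_zero] at h7
      exact h7
    rw [abs_le] at h2 h6 ⊢
    constructor
    · linarith [h2.1, h6.1]
    · linarith [h2.2, h6.2]
  have P3 : ∀ l : V0 n, ‖l‖ ≤ 2 → |K l| ≤ C1 * σ ^ b0 + 3 * σ := by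
    intro l hl
    by_contra hcon
    rw [not_le] at hcon
    set d : ℝ := |K l| - (C1 * σ ^ b0 + 3 * σ) with hd
    have hdp : 0 < d := by rw [hd]; linarith
    set t : ℝ := (6 * M + 3 * σ + 1) / d with ht
    have htp : 0 < t := div_pos (by linarith) hdp
    have h1 := P2 l hl 1 t
    have h2 := D5b_triv M c hcc u (fun a g => (hu a).bd g) (1 * dgm (t • l))
    have h3 := D5b_triv M c hcc u (fun a g => (hu a).bd g) 1
    have h4 : |t * K l| ≤ 6 * M + (C1 * σ ^ b0 * |t| + 3 * σ * (1 + |t|)) := by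
      rw [abs_le] at h1 h2 h3 ⊢
      constructor
      · linarith [h1.1, h2.1, h2.2, h3.1, h3.2]
      · linarith [h1.2, h2.1, h2.2, h3.1, h3.2]
    rw [abs_mul, abs_of_pos htp] at h4
    have h5 : t * d = 6 * M + 3 * σ + 1 := by
      rw [ht]
      exact div_mul_cancel₀ _ hdp.ne'
    have h6 : t * |K l| = t * d + t * (C1 * σ ^ b0 + 3 * σ) := by
      rw [hd]
      ring
    rw [h6, h5] at h4
    linarith
  have P4 : ∀ g, |∑ a, c a * u a g| ≤ D * C2 * σ ^ (b0 * b0) := by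
    intro g
    have hρ : 0 < C2 * σ ^ b0 := mul_pos (by linarith) hs0
    have h1 := H1 (C2 * σ ^ b0) i j h c u hρ hcc hu ?_ ?_ g
    · refine h1.trans ?_
      have h2 : (C2 * σ ^ b0) ^ b0 ≤ C2 * σ ^ (b0 * b0) := by
        rw [Real.mul_rpow (by linarith) hs0.le, ← Real.rpow_mul hσ.le]
        refine mul_le_mul_of_nonneg_right ?_ hs1.le
        calc C2 ^ b0 ≤ C2 ^ (1 : ℝ) := Real.rpow_le_rpow_of_exponent_le hC2p hb1
          _ = C2 := Real.rpow_one _
      calc D * (C2 * σ ^ b0) ^ b0 ≤ D * (C2 * σ ^ (b0 * b0)) :=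
            mul_le_mul_of_nonneg_left h2 hD0.le
        _ = D * C2 * σ ^ (b0 * b0) := (mul_assoc _ _ _).symm
    · intro a g
      refine (hau a g).trans (hσb.trans ?_)
      calc σ ^ b0 = 1 * σ ^ b0 := (one_mul _).symm
        _ ≤ C2 * σ ^ b0 := mul_le_mul_of_nonneg_right hC2p hs0.le
    · intro l hl g t
      have hl2 : ‖l‖ ≤ 2 := by rw [hl]; norm_num
      have h2 := P2 l hl2 g t
      have h3 := P3 l hl2
      have h4 : |t * K l| ≤ |t| * (C1 * σ ^ b0 + 3 * σ) := by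
        rw [abs_mul]
        exact mul_le_mul_of_nonneg_left h3 (abs_nonneg _)
      have h5 : |∑ a, c a * u a (g * dgm (t • l)) - ∑ a, c a * u a g| ≤
          (C1 * σ ^ b0 * |t| + 3 * σ * (1 + |t|)) + |t| * (C1 * σ ^ b0 + 3 * σ) := by
        rw [abs_le] at h2 h4 ⊢
        constructor
        · linarith [h2.1, h4.1, h4.2]
        · linarith [h2.2, h4.1, h4.2]
      refine h5.trans ?_
      have ht0 : 0 ≤ |t| := abs_nonneg t
      have h6 : (C1 * σ ^ b0 * |t| + 3 * σ * (1 + |t|)) + |t| * (C1 * σ ^ b0 + 3 * σ) =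
          (2 * C1 * σ ^ b0) * |t| + 3 * σ + 6 * σ * |t| := by ring
      have h7 : C2 * σ ^ b0 * (1 + |t|) = (2 * C1 * σ ^ b0) * |t| + 2 * C1 * σ ^ b0 +
          6 * σ ^ b0 + 6 * σ ^ b0 * |t| := by
        rw [hC2]
        ring
      rw [h6, h7]
      have h8 : 6 * σ * |t| ≤ 6 * σ ^ b0 * |t| :=
        mul_le_mul_of_nonneg_right (by linarith) ht0
      have h9 : 0 < 2 * C1 * σ ^ b0 := by positivity
      linarith
  refine ⟨?_, ?_, ?_⟩
  · intro v hv g
    refine (P1 v hv g).trans ?_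
    calc C1 * σ ^ b0 ≤ C1 * σ ^ (b0 * b0) := mul_le_mul_of_nonneg_left hb2 hC1p.le
      _ ≤ (C1 + (C1 + 3) + D * C2) * σ ^ (b0 * b0) :=
          mul_le_mul_of_nonneg_right (by linarith) hs1.le
  · intro l hl
    refine (P3 l hl).trans ?_
    calc C1 * σ ^ b0 + 3 * σ ≤ C1 * σ ^ b0 + 3 * σ ^ b0 := by linarith
      _ = (C1 + 3) * σ ^ b0 := by ring
      _ ≤ (C1 + 3) * σ ^ (b0 * b0) := mul_le_mul_of_nonneg_left hb2 (by linarith)
      _ ≤ (C1 + (C1 + 3) + D * C2) * σ ^ (b0 * b0) :=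
          mul_le_mul_of_nonneg_right (by linarith) hs1.le
  · intro g
    refine (P4 g).trans ?_
    exact mul_le_mul_of_nonneg_right (by linarith) hs1.le

end FL27
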