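import Pool.Agent.LibFL27.D3d
import Pool.Agent.LibFL27.D4a
import Pool.Agent.LibFL27.D5b
import Pool.Agent.LibFL27.D2j

set_option autoImplicit false
set_option maxSynthPendingDepth 3

open Matrix MeasureTheory Topology Filter LibNC38
open LibNC27 hiding Mt
open scoped Matrix.Norms.Elementwise

namespace FL27

private theorem D6_val {n : ℕ} (i j a : Fin n) :
    (Hv i j : V0 n).1 a = (if a = i then (1 : ℝ) else 0) - (if a = j then 1 else 0) := rfl

private theorem D6_ext {n : ℕ} {v w : V0 n} (h : ∀ a, v.1 a = w.1 a) : v = w := by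
  apply Subtype.ext
  ext a
  exact h a

private theorem D6_self {n : ℕ} (i : Fin n) : (Hv i i : V0 n) = 0 := by
  apply D6_ext
  intro a
  rw [D6_val]
  show (if a = i then (1 : ℝ) else 0) - (if a = i then 1 else 0) = 0
  ring

private theorem D6_sub {n : ℕ} (i j k : Fin n) : (Hv i j : V0 n) = Hv i k - Hv j k := by
  apply D6_ext
  intro a
  show ((if a = i then (1 : ℝ) else 0) - (if a = j then 1 else 0)) =
    ((if a = i then (1 : ℝ) else 0) - (if a = k then 1 else 0)) -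
    ((if a = j then (1 : ℝ) else 0) - (if a = k then 1 else 0))
  ring

private theorem D6_exp {n : ℕ} (k : Fin n) (v : V0 n) : v = ∑ i, v.1 i • (Hv i k : V0 n) := by
  apply Subtype.ext
  have h1 : ((∑ i, v.1 i • (Hv i k : V0 n) : V0 n) : EuclideanSpace ℝ (Fin n)) =
      ∑ i, v.1 i • ((Hv i k : V0 n) : EuclideanSpace ℝ (Fin n)) := by
    simp
  rw [h1]
  ext a
  have h2 : (∑ i, v.1 i • ((Hv i k : V0 n) : EuclideanSpace ℝ (Fin n))) a =
      ∑ i, v.1 i * ((if a = i then (1 : ℝ) else 0) - (if a = k then 1 else 0)) := by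
    rw [WithLp.ofLp_sum, Finset.sum_apply]
    apply Finset.sum_congr rfl
    intro i _
    rfl
  rw [h2]
  simp only [mul_sub, Finset.sum_sub_distrib, mul_ite, mul_one, mul_zero, Finset.sum_ite_eq,
    Finset.mem_univ, if_true]
  by_cases hak : a = k
  · simp only [hak, if_true]
    have := sum_V0 v
    rw [this]
    simp
  · simp [hak]

private theorem D6_abs {n : ℕ} (v : V0 n) (a : Fin n) : |v.1 a| ≤ ‖v‖ := by
  have h := PiLp.norm_apply_le v.1 a
  rwa [Real.norm_eq_abs] at h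

private theorem D6_nHv {n : ℕ} (i j : Fin n) : ‖(Hv i j : V0 n)‖ ≤ 2 := by
  by_cases h : i = j
  · subst h
    rw [D6_self, norm_zero]
    norm_num
  · have h1 := (Hv_facts i j h).2.1 (Hv i j)
    rw [D6_val, D6_val, if_pos rfl, if_neg h, if_neg (Ne.symm h), if_pos rfl,
      real_inner_self_eq_norm_sq] at h1
    have h2 : (0 : ℝ) ≤ ‖(Hv i j : V0 n)‖ := norm_nonneg _
    nlinarith

private theorem D6_inner {n : ℕ} (k : Fin n) (x v : V0 n) :
    inner ℝ x v = ∑ a, v.1 a * (x.1 a - x.1 k) := by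
  conv_lhs => rw [D6_exp k v]
  rw [inner_sum]
  refine Finset.sum_congr rfl fun a _ => ?_
  rw [real_inner_smul_right]
  by_cases h : a = k
  · subst h
    rw [D6_self, inner_zero_right, sub_self]
  · rw [(Hv_facts a k h).2.1]

private theorem D6_HBsum {n : ℕ} {Γ : Subgroup (SL n)} {M : ℝ} (c : Fin n → ℝ)
    (F : Fin n → Fn n) (hF : ∀ a, HB Γ M (F a)) :
    HB Γ ((∑ a, |c a|) * M) (fun g => ∑ a, c a * F a g) := by
  refine ⟨fun γ hγ g => ?_, fun g => ?_, fun g q => ?_⟩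
  · exact Finset.sum_congr rfl fun a _ => by rw [(hF a).inv γ hγ g]
  · rw [Finset.sum_mul]
    refine (Finset.abs_sum_le_sum_abs _ _).trans (Finset.sum_le_sum fun a _ => ?_)
    rw [abs_mul]
    exact mul_le_mul_of_nonneg_left ((hF a).bd g) (abs_nonneg _)
  · rw [← Finset.sum_sub_distrib, Finset.sum_mul, Finset.sum_mul]
    refine (Finset.abs_sum_le_sum_abs _ _).trans (Finset.sum_le_sum fun a _ => ?_)
    rw [← mul_sub, abs_mul, mul_assoc]
    exact mul_le_mul_of_nonneg_left ((hF a).hol g q) (abs_nonneg _)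

private theorem D6_HB0 {n : ℕ} {Γ : Subgroup (SL n)} {M : ℝ} (hM : 0 ≤ M) :
    HB Γ M (0 : Fn n) := by
  refine ⟨fun γ hγ g => rfl, fun g => ?_, fun g q => ?_⟩
  · rw [Pi.zero_apply, abs_zero]; exact hM
  · rw [Pi.zero_apply, Pi.zero_apply, sub_zero, abs_zero]
    exact mul_nonneg hM (Real.sqrt_nonneg _)

private theorem D6_RQsum {n : ℕ} {σ : ℝ} {w : V0 n} (c : Fin n → ℝ)
    (F F' : Fin n → Fn n) (hc : ∀ a, Continuous (F' a)) (hF : ∀ a, RQ σ w (F a) (F' a)) :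
    RQ ((∑ a, |c a|) * σ) w (fun g => ∑ a, c a * F a g) (fun g => ∑ a, c a * F' a g) := by
  classical
  have key : ∀ s : Finset (Fin n), RQ ((∑ a ∈ s, |c a|) * σ) w (fun g => ∑ a ∈ s, c a * F a g)
      (fun g => ∑ a ∈ s, c a * F' a g) := by
    intro s
    induction s using Finset.induction_on with
    | empty =>
      intro g t
      simp
    | insert b s hb ih =>
      have h1 := (RQ_facts (⊥ : Subgroup (SL n))).2.1 σ w (F b) (F' b) (c b) (hF b)
      have h2 := (RQ_facts (⊥ : Subgroup (SL n))).2.2.1 _ _ w _ _ _ _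
        (continuous_const.mul (hc b))
        (continuous_finsetSum s fun a _ => continuous_const.mul (hc a)) h1 ih
      have e1 : (∑ a ∈ insert b s, |c a|) * σ = |c b| * σ + (∑ a ∈ s, |c a|) * σ := by
        rw [Finset.sum_insert hb, add_mul]
      have e2 : ∀ G : Fin n → Fn n, (fun g => ∑ a ∈ insert b s, c a * G a g) =
          fun g => c b * G b g + ∑ a ∈ s, c a * G a g := by
        intro G
        funext g
        rw [Finset.sum_insert hb]
      rw [e1, e2 F, e2 F']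
      exact h2
  exact key Finset.univ

private theorem D6_sumle {n : ℕ} (v : V0 n) (hv : ‖v‖ ≤ 2) : ∑ a, |v.1 a| ≤ 2 * n := by
  have h : ∑ a : Fin n, |v.1 a| ≤ ∑ _a : Fin n, (2 : ℝ) :=
    Finset.sum_le_sum fun a _ => (D6_abs v a).trans hv
  rw [Finset.sum_const, Finset.card_univ, Fintype.card_fin, nsmul_eq_mul] at h
  linarith

private theorem D6_AbQmono {n : ℕ} {Γ : Subgroup (SL n)} {M M' : ℝ}
    {A : V0 n →ₗ[ℝ] V0 n →ₗ[ℝ] Fn n} {A1 : V0 n →ₗ[ℝ] V0 n →ₗ[ℝ] V0 n →ₗ[ℝ] Fn n}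
    {A2 : V0 n →ₗ[ℝ] V0 n →ₗ[ℝ] V0 n →ₗ[ℝ] V0 n →ₗ[ℝ] Fn n} (h : AbQ Γ M A A1 A2)
    (hM : M ≤ M') : AbQ Γ M' A A1 A2 :=
  ⟨h.ab, fun v w hv hw => (HB_facts Γ).2.2.2.2.1 _ _ _ hM (h.b0 v w hv hw),
    fun x v w hx hv hw => (HB_facts Γ).2.2.2.2.1 _ _ _ hM (h.b1 x v w hx hv hw),
    fun x y v w hx hy hv hw g => (h.b2 x y v w hx hy hv hw g).trans hM⟩

private theorem D6_PotQmono {n : ℕ} {Γ : Subgroup (SL n)} {M M' σ σ' : ℝ}
    {A : V0 n →ₗ[ℝ] V0 n →ₗ[ℝ] Fn n} {A1 : V0 n →ₗ[ℝ] V0 n →ₗ[ℝ] V0 n →ₗ[ℝ] Fn n}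
    {u : V0 n →ₗ[ℝ] Fn n} {T : V0 n →ₗ[ℝ] V0 n →ₗ[ℝ] Fn n} {c : ℝ}
    (h : PotQ Γ M σ A A1 u T c) (hM : M ≤ M') (hσ : σ ≤ σ') : PotQ Γ M' σ' A A1 u T c where
  bc := h.bc.trans hM
  hbu v hv := (HB_facts Γ).2.2.2.1 _ _ _ hM (h.hbu v hv)
  hbT v w hv hw := (HB_facts Γ).2.2.2.1 _ _ _ hM (h.hbT v w hv hw)
  du x v hx hv := (RQ_facts Γ).1 _ _ _ _ _ hσ (h.du x v hx hv)
  dT x v w hx hv hw := (RQ_facts Γ).1 _ _ _ _ _ hσ (h.dT x v w hx hv hw)
  antiu i j hij g := (h.antiu i j hij g).trans hσ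
  antiT i j hij v hv g := (h.antiT i j hij v hv g).trans hσ
  diag v hv g := (h.diag v hv g).trans hσ

private theorem D6_int {n : ℕ} (B : ℝ) (w : V0 n) (F : Fn n) (hF : ∀ g, |F g| ≤ B) :
    RQ B w (0 : Fn n) F := by
  intro g t
  have h := intervalIntegral.norm_integral_le_of_norm_le_const (a := (0 : ℝ)) (b := t)
    (f := fun s => F (g * dgm (s • w))) (C := B) fun s _ => by
      rw [Real.norm_eq_abs]; exact hF _
  rw [Real.norm_eq_abs, sub_zero] at h
  rw [Pi.zero_apply, Pi.zero_apply, sub_zero, zero_sub, abs_neg]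
  have hB : 0 ≤ B := (abs_nonneg _).trans (hF 1)
  have := abs_nonneg t
  nlinarith

private theorem D6_triv {n : ℕ} {Γ : Subgroup (SL n)} {M : ℝ} (hM : 0 ≤ M)
    {A : V0 n →ₗ[ℝ] V0 n →ₗ[ℝ] Fn n} {A1 : V0 n →ₗ[ℝ] V0 n →ₗ[ℝ] V0 n →ₗ[ℝ] Fn n}
    {A2 : V0 n →ₗ[ℝ] V0 n →ₗ[ℝ] V0 n →ₗ[ℝ] V0 n →ₗ[ℝ] Fn n} (h : AbQ Γ M A A1 A2) :
    PotQ Γ 0 (2 * M) A A1 0 0 0 where
  bc := by rw [abs_zero]
  hbu v hv := D6_HB0 le_rfl
  hbT v w hv hw := D6_HB0 le_rfl
  du x v hx hv := by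
    refine D6_int _ _ _ fun g => ?_
    have h1 := (h.b0 x v hx hv).bd g
    have e : A x v g + (0 : V0 n →ₗ[ℝ] V0 n →ₗ[ℝ] Fn n) x v g - 0 * inner ℝ x v = A x v g := by
      show A x v g + 0 - 0 * inner ℝ x v = A x v g
      ring
    rw [e]
    linarith
  dT x v w hx hv hw := by
    refine D6_int _ _ _ fun g => ?_
    rw [om_apply]
    have h1 := (h.b1 v x w hv hx hw).bd g
    have h2 := (h.b1 w x v hw hx hv).bd g
    have h3 := abs_sub (A1 v x w g) (A1 w x v g)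
    linarith
  antiu i j hij g := by
    show |(0 : ℝ) + 0| ≤ 2 * M
    rw [add_zero, abs_zero]; linarith
  antiT i j hij v hv g := by
    show |(0 : ℝ) + 0| ≤ 2 * M
    rw [add_zero, abs_zero]; linarith
  diag v hv g := by
    show |(0 : ℝ)| ≤ 2 * M
    rw [abs_zero]; linarith

/-- multipliers that almost respect the relations are almost equal -/
private theorem D6_mult {n : ℕ} (hn : 3 ≤ n) {s : ℝ} (hs : 0 ≤ s) (m : (i j : Fin n) → i ≠ j → ℝ)
    (hm : ∀ (i j : Fin 3 → Fin n) (h : ∀ a, i a ≠ j a) (c : Fin 3 → ℝ), (∀ a, |c a| ≤ 1) →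
      ∑ a, c a • (Hv (i a) (j a) : V0 n) = 0 → ∀ l : V0 n, ‖l‖ ≤ 2 →
        |∑ a, c a * (m (i a) (j a) (h a) * (l.1 (i a) - l.1 (j a)))| ≤ s) :
    ∀ (i j i' j' : Fin n) (h : i ≠ j) (h' : i' ≠ j'), |m i j h - m i' j' h'| ≤ 8 * s := by
  -- triangle
  have htri : ∀ (i j k : Fin n) (hij : i ≠ j) (hjk : j ≠ k) (hki : k ≠ i),
      |m i j hij - m j k hjk| ≤ s := by
    intro i j k hij hjk hki
    have hc1 : ∀ a : Fin 3, |(![1, 1, 1] : Fin 3 → ℝ) a| ≤ 1 := by
      intro a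
      fin_cases a <;> simp
    have hne : ∀ a : Fin 3, (![i, j, k] : Fin 3 → Fin n) a ≠ (![j, k, i] : Fin 3 → Fin n) a := by
      intro a
      fin_cases a
      · exact hij
      · exact hjk
      · exact hki
    have hz : ∑ a, (![1, 1, 1] : Fin 3 → ℝ) a • (Hv ((![i, j, k] : Fin 3 → Fin n) a)
        ((![j, k, i] : Fin 3 → Fin n) a) : V0 n) = 0 := by
      rw [Fin.sum_univ_three]
      apply D6_ext
      intro a
      simp [D6_val]
    have h1 := hm ![i, j, k] ![j, k, i] hne ![1, 1, 1] hc1 hz (Hv j i) (D6_nHv _ _)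
    have h2 := hm ![i, j, k] ![j, k, i] hne ![1, 1, 1] hc1 hz (Hv j k) (D6_nHv _ _)
    rw [Fin.sum_univ_three] at h1 h2
    simp [D6_val, hij, hjk, hki, hij.symm, hjk.symm, hki.symm] at h1 h2
    rw [abs_le] at h1 h2 ⊢
    constructor <;> linarith
  -- opposite
  have hopp : ∀ (i j : Fin n) (hij : i ≠ j), |m i j hij - m j i hij.symm| ≤ s := by
    intro i j hij
    have hc1 : ∀ a : Fin 3, |(![1, 1, 0] : Fin 3 → ℝ) a| ≤ 1 := by
      intro a
      fin_cases a <;> simp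
    have hne : ∀ a : Fin 3, (![i, j, i] : Fin 3 → Fin n) a ≠ (![j, i, j] : Fin 3 → Fin n) a := by
      intro a
      fin_cases a
      · exact hij
      · exact hij.symm
      · exact hij
    have hz : ∑ a, (![1, 1, 0] : Fin 3 → ℝ) a • (Hv ((![i, j, i] : Fin 3 → Fin n) a)
        ((![j, i, j] : Fin 3 → Fin n) a) : V0 n) = 0 := by
      rw [Fin.sum_univ_three]
      apply D6_ext
      intro a
      simp [D6_val]
    have h1 := hm ![i, j, i] ![j, i, j] hne ![1, 1, 0] hc1 hz (Hv i j) (D6_nHv _ _)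
    rw [Fin.sum_univ_three] at h1
    simp [D6_val, hij, hij.symm] at h1
    rw [abs_le] at h1 ⊢
    constructor <;> linarith
  -- same first index
  have hfirst : ∀ (i j k : Fin n) (hij : i ≠ j) (hik : i ≠ k),
      |m i j hij - m i k hik| ≤ 2 * s := by
    intro i j k hij hik
    by_cases hjk : j = k
    · subst hjk
      rw [sub_self, abs_zero]
      linarith
    · have h1 := hopp i j hij
      have h2 := htri j i k hij.symm hik (fun h => hjk h.symm)
      rw [abs_le] at h1 h2 ⊢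
      constructor <;> linarith
  intro i j i' j' h h'
  by_cases hi : i = i'
  · subst hi
    exact (hfirst _ _ _ _ _).trans (by linarith)
  · have h1 := hfirst i j i' h hi
    have h2 := hopp i i' hi
    have h3 := hfirst i' i j' (Ne.symm hi) h'
    rw [abs_le] at h1 h2 h3 ⊢
    constructor <;> linarith

/-- the assembly -/
private theorem D6_asm {n : ℕ} (hn : 3 ≤ n) {Γ : Subgroup (SL n)} {M s : ℝ} (hM : 0 ≤ M)
    (hs : 0 ≤ s) {A : V0 n →ₗ[ℝ] V0 n →ₗ[ℝ] Fn n}
    {A1 : V0 n →ₗ[ℝ] V0 n →ₗ[ℝ] V0 n →ₗ[ℝ] Fn n}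
    {A2 : V0 n →ₗ[ℝ] V0 n →ₗ[ℝ] V0 n →ₗ[ℝ] V0 n →ₗ[ℝ] Fn n} (hA : AbQ Γ M A A1 A2)
    (θ : (i j : Fin n) → i ≠ j → V0 n →ₗ[ℝ] Fn n) (u : (i j : Fin n) → i ≠ j → Fn n)
    (m : (i j : Fin n) → i ≠ j → ℝ) (hm : ∀ i j h, |m i j h| ≤ M)
    (hθ : ∀ i j h (v : V0 n), ‖v‖ ≤ 2 → HB Γ M (θ i j h v)) (hu : ∀ i j h, HB Γ M (u i j h))
    (dθ : ∀ i j h (v l : V0 n), ‖v‖ ≤ 2 → ‖l‖ ≤ 2 → RQ s l (θ i j h v) (om A1 v (Hv i j) l))
    (aθ : ∀ i j h (v : V0 n), ‖v‖ ≤ 2 → ∀ g, |θ i j h v (g * kk i j h) + θ i j h v g| ≤ s)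
    (θ0 : ∀ i j h, θ i j h (Hv i j) = 0)
    (du : ∀ i j h (l : V0 n), ‖l‖ ≤ 2 → RQ s l (u i j h)
      (fun g => A l (Hv i j) g + θ i j h l g - m i j h * (l.1 i - l.1 j)))
    (au : ∀ i j h g, |u i j h (g * kk i j h) + u i j h g| ≤ s)
    (rel : ∀ (i j : Fin 3 → Fin n) (h : ∀ a, i a ≠ j a) (c : Fin 3 → ℝ), (∀ a, |c a| ≤ 1) →
      ∑ a, c a • (Hv (i a) (j a) : V0 n) = 0 →
      (∀ v : V0 n, ‖v‖ ≤ 2 → ∀ g, |∑ a, c a * θ (i a) (j a) (h a) v g| ≤ s) ∧
      (∀ l : V0 n, ‖l‖ ≤ 2 →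
        |∑ a, c a * (m (i a) (j a) (h a) * (l.1 (i a) - l.1 (j a)))| ≤ s) ∧
      ∀ g, |∑ a, c a * u (i a) (j a) (h a) g| ≤ s) :
    ∃ (U : V0 n →ₗ[ℝ] Fn n) (T : V0 n →ₗ[ℝ] V0 n →ₗ[ℝ] Fn n) (c : ℝ),
      PotQ Γ (2 * n * M) (100 * n ^ 2 * s) A A1 U T c := by
  classical
  have hn0 : 0 < n := by omega
  have hnR : (3 : ℝ) ≤ n := by exact_mod_cast hn
  obtain ⟨k, -⟩ : ∃ k : Fin n, k = ⟨0, hn0⟩ := ⟨_, rfl⟩
  -- the functions with base index `k`
  obtain ⟨F, hF⟩ : ∃ F : Fin n → Fn n, F = fun i => if h : i ≠ k then u i k h else 0 := ⟨_, rfl⟩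
  have hF1 : ∀ i (h : i ≠ k), F i = u i k h := fun i h => by rw [hF]; exact dif_pos h
  have hF0 : F k = 0 := by rw [hF]; exact dif_neg (by simp)
  obtain ⟨Θ, hΘ⟩ : ∃ Θ : Fin n → V0 n →ₗ[ℝ] Fn n,
    Θ = fun i => if h : i ≠ k then θ i k h else 0 := ⟨_, rfl⟩
  have hΘ1 : ∀ i (h : i ≠ k), Θ i = θ i k h := fun i h => by rw [hΘ]; exact dif_pos h
  have hΘ0 : Θ k = 0 := by rw [hΘ]; exact dif_neg (by simp)
  obtain ⟨μ, hμ⟩ : ∃ μ : Fin n → ℝ, μ = fun i => if h : i ≠ k then m i k h else 0 := ⟨_, rfl⟩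
  have hμ1 : ∀ i (h : i ≠ k), μ i = m i k h := fun i h => by rw [hμ]; exact dif_pos h
  have hμ0 : μ k = 0 := by rw [hμ]; exact dif_neg (by simp)
  -- another index
  obtain ⟨k1, hk1⟩ : ∃ k1 : Fin n, k1 ≠ k := by
    by_contra hcon
    push Not at hcon
    have e1 := hcon ⟨0, by omega⟩
    have e2 := hcon ⟨1, by omega⟩
    rw [← e2, Fin.mk.injEq] at e1
    omega
  -- relations
  have hneg : ∀ a : Fin 3, |(![1, -1, -1] : Fin 3 → ℝ) a| ≤ 1 := by
    intro a
    fin_cases a <;> simp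
  have htwo : ∀ a : Fin 3, |(![1, 1, 0] : Fin 3 → ℝ) a| ≤ 1 := by
    intro a
    fin_cases a <;> simp
  have hru : ∀ (i j : Fin n) (h : i ≠ j) (g : SL n), |u i j h g - (F i g - F j g)| ≤ s := by
    intro i j h g
    by_cases hj : j = k
    · subst hj
      rw [hF1 i h, hF0]
      show |u i j h g - (u i j h g - 0)| ≤ s
      rw [sub_zero, sub_self, abs_zero]
      exact hs
    · by_cases hi : i = k
      · subst hi
        have h' : ∀ a : Fin 3, (![i, j, i] : Fin 3 → Fin n) a ≠ (![j, i, j] : Fin 3 → Fin n) a := by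
          intro a
          fin_cases a
          · exact h
          · exact h.symm
          · exact h
        have e := (rel ![i, j, i] ![j, i, j] h' ![1, 1, 0] htwo (by
          rw [Fin.sum_univ_three]
          apply D6_ext
          intro a
          simp [D6_val])).2.2 g
        rw [Fin.sum_univ_three] at e
        have e' : |(1 : ℝ) * u i j h g + (1 : ℝ) * u j i h.symm g + (0 : ℝ) * u i j h g| ≤ s := e
        rw [hF0, hF1 j hj]
        show |u i j h g - (0 - u j i _ g)| ≤ s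
        have e2 : u i j h g - (0 - u j i hj g) =
            (1 : ℝ) * u i j h g + (1 : ℝ) * u j i h.symm g + (0 : ℝ) * u i j h g := by ring
        rw [e2]
        exact e'
      · have h' : ∀ a : Fin 3, (![i, i, j] : Fin 3 → Fin n) a ≠ (![j, k, k] : Fin 3 → Fin n) a := by
          intro a
          fin_cases a
          · exact h
          · exact hi
          · exact hj
        have e := (rel ![i, i, j] ![j, k, k] h' ![1, -1, 1] (by
          intro a
          fin_cases a <;> simp) (by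
          rw [Fin.sum_univ_three]
          apply D6_ext
          intro a
          simp [D6_val])).2.2 g
        rw [Fin.sum_univ_three] at e
        have e' : |(1 : ℝ) * u i j h g + (-1 : ℝ) * u i k hi g + (1 : ℝ) * u j k hj g| ≤ s := e
        rw [hF1 i hi, hF1 j hj]
        have e2 : u i j h g - (u i k hi g - u j k hj g) =
            (1 : ℝ) * u i j h g + (-1 : ℝ) * u i k hi g + (1 : ℝ) * u j k hj g := by ring
        rw [e2]
        exact e'
  have hrθ : ∀ (i j : Fin n) (h : i ≠ j) (v : V0 n), ‖v‖ ≤ 2 → ∀ g : SL n,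
      |θ i j h v g - (Θ i v g - Θ j v g)| ≤ s := by
    intro i j h v hv g
    by_cases hj : j = k
    · subst hj
      rw [hΘ1 i h, hΘ0]
      show |θ i j h v g - (θ i j h v g - 0)| ≤ s
      rw [sub_zero, sub_self, abs_zero]
      exact hs
    · by_cases hi : i = k
      · subst hi
        have h' : ∀ a : Fin 3, (![i, j, i] : Fin 3 → Fin n) a ≠ (![j, i, j] : Fin 3 → Fin n) a := by
          intro a
          fin_cases a
          · exact h
          · exact h.symm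
          · exact h
        have e := (rel ![i, j, i] ![j, i, j] h' ![1, 1, 0] htwo (by
          rw [Fin.sum_univ_three]
          apply D6_ext
          intro a
          simp [D6_val])).1 v hv g
        rw [Fin.sum_univ_three] at e
        have e' : |(1 : ℝ) * θ i j h v g + (1 : ℝ) * θ j i h.symm v g + (0 : ℝ) * θ i j h v g| ≤ s :=
          e
        rw [hΘ0, hΘ1 j hj]
        show |θ i j h v g - (0 - θ j i _ v g)| ≤ s
        have e2 : θ i j h v g - (0 - θ j i hj v g) =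
            (1 : ℝ) * θ i j h v g + (1 : ℝ) * θ j i h.symm v g + (0 : ℝ) * θ i j h v g := by ring
        rw [e2]
        exact e'
      · have h' : ∀ a : Fin 3, (![i, i, j] : Fin 3 → Fin n) a ≠ (![j, k, k] : Fin 3 → Fin n) a := by
          intro a
          fin_cases a
          · exact h
          · exact hi
          · exact hj
        have e := (rel ![i, i, j] ![j, k, k] h' ![1, -1, 1] (by
          intro a
          fin_cases a <;> simp) (by
          rw [Fin.sum_univ_three]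
          apply D6_ext
          intro a
          simp [D6_val])).1 v hv g
        rw [Fin.sum_univ_three] at e
        have e' : |(1 : ℝ) * θ i j h v g + (-1 : ℝ) * θ i k hi v g + (1 : ℝ) * θ j k hj v g| ≤ s := e
        rw [hΘ1 i hi, hΘ1 j hj]
        have e2 : θ i j h v g - (θ i k hi v g - θ j k hj v g) =
            (1 : ℝ) * θ i j h v g + (-1 : ℝ) * θ i k hi v g + (1 : ℝ) * θ j k hj v g := by ring
        rw [e2]
        exact e'
  have hmm := D6_mult hn hs m (fun i j h c hc hz => (rel i j h c hc hz).2.1)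
  -- the linear maps
  let U : V0 n →ₗ[ℝ] Fn n :=
    { toFun := fun v => fun g => ∑ a, v.1 a * F a g
      map_add' := fun v w => by
        funext g
        show ∑ a, (v.1 a + w.1 a) * F a g = ∑ a, v.1 a * F a g + ∑ a, w.1 a * F a g
        rw [← Finset.sum_add_distrib]
        exact Finset.sum_congr rfl fun a _ => by ring
      map_smul' := fun c v => by
        funext g
        show ∑ a, (c * v.1 a) * F a g = c * ∑ a, v.1 a * F a g
        rw [Finset.mul_sum]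
        exact Finset.sum_congr rfl fun a _ => by ring }
  let T : V0 n →ₗ[ℝ] V0 n →ₗ[ℝ] Fn n :=
    LinearMap.mk₂ ℝ (fun v w => fun g => ∑ a, w.1 a * Θ a v g)
      (fun v v' w => by
        funext g
        show ∑ a, w.1 a * Θ a (v + v') g = ∑ a, w.1 a * Θ a v g + ∑ a, w.1 a * Θ a v' g
        rw [← Finset.sum_add_distrib]
        refine Finset.sum_congr rfl fun a _ => ?_
        rw [map_add, Pi.add_apply]
        ring)
      (fun c v w => by
        funext g
        show ∑ a, w.1 a * Θ a (c • v) g = c * ∑ a, w.1 a * Θ a v g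
        rw [Finset.mul_sum]
        refine Finset.sum_congr rfl fun a _ => ?_
        rw [map_smul, Pi.smul_apply, smul_eq_mul]
        ring)
      (fun v w w' => by
        funext g
        show ∑ a, (w.1 a + w'.1 a) * Θ a v g = ∑ a, w.1 a * Θ a v g + ∑ a, w'.1 a * Θ a v g
        rw [← Finset.sum_add_distrib]
        exact Finset.sum_congr rfl fun a _ => by ring)
      (fun c v w => by
        funext g
        show ∑ a, (c * w.1 a) * Θ a v g = c * ∑ a, w.1 a * Θ a v g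
        rw [Finset.mul_sum]
        exact Finset.sum_congr rfl fun a _ => by ring)
  have hU : ∀ v g, U v g = ∑ a, v.1 a * F a g := fun v g => rfl
  have hT : ∀ v w g, T v w g = ∑ a, w.1 a * Θ a v g := fun v w g => rfl
  have hUH : ∀ (i j : Fin n) (g : SL n), U (Hv i j) g = F i g - F j g := by
    intro i j g
    rw [hU]
    simp only [D6_val, sub_mul, ite_mul, one_mul, zero_mul, Finset.sum_sub_distrib,
      Finset.sum_ite_eq', Finset.mem_univ, if_true]
  have hTH : ∀ (v : V0 n) (i j : Fin n) (g : SL n), T v (Hv i j) g = Θ i v g - Θ j v g := by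
    intro v i j g
    rw [hT]
    simp only [D6_val, sub_mul, ite_mul, one_mul, zero_mul, Finset.sum_sub_distrib,
      Finset.sum_ite_eq', Finset.mem_univ, if_true]
  have hFB : ∀ a, HB Γ M (F a) := by
    intro a
    by_cases h : a = k
    · subst h
      rw [hF0]; exact D6_HB0 hM
    · rw [hF1 a h]; exact hu a k h
  have hΘB : ∀ a (v : V0 n), ‖v‖ ≤ 2 → HB Γ M (Θ a v) := by
    intro a v hv
    by_cases h : a = k
    · subst h
      rw [hΘ0]; exact D6_HB0 hM
    · rw [hΘ1 a h]; exact hθ a k h v hv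
  have hUB : ∀ v : V0 n, ‖v‖ ≤ 2 → HB Γ (2 * n * M) (U v) := fun v hv =>
    (HB_facts Γ).2.2.2.1 _ _ _ (mul_le_mul_of_nonneg_right (D6_sumle v hv) hM)
      (D6_HBsum (fun a => v.1 a) F hFB)
  have hTB : ∀ v w : V0 n, ‖v‖ ≤ 2 → ‖w‖ ≤ 2 → HB Γ (2 * n * M) (T v w) := fun v w hv hw =>
    (HB_facts Γ).2.2.2.1 _ _ _ (mul_le_mul_of_nonneg_right (D6_sumle w hw) hM)
      (D6_HBsum (fun a => w.1 a) (fun a => Θ a v) fun a => hΘB a v hv)
  have hn2 : (n : ℝ) * 3 ≤ n ^ 2 := by nlinarith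
  have hsn : 0 ≤ (n : ℝ) ^ 2 * s := mul_nonneg (by positivity) hs
  have hsn1 : (n : ℝ) * s * 3 ≤ n ^ 2 * s := by nlinarith
  have hsn2 : 9 * s ≤ (n : ℝ) ^ 2 * s := by nlinarith
  refine ⟨U, T, m k1 k hk1, ?_⟩
  refine
    { bc := ?_
      hbu := hUB
      hbT := hTB
      du := ?_
      dT := ?_
      antiu := ?_
      antiT := ?_
      diag := ?_ }
  · refine (hm k1 k hk1).trans ?_
    nlinarith
  · intro x v hx hv
    have hstep : ∀ a, RQ s x (F a) (fun g => A x (Hv a k) g + Θ a x g - μ a * (x.1 a - x.1 k)) := by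
      intro a
      by_cases h : a = k
      · subst h
        rw [hF0, hΘ0, hμ0, D6_self]
        have e : (fun g => A x (0 : V0 n) g + (0 : V0 n →ₗ[ℝ] Fn n) x g - 0 * (x.1 a - x.1 a)) =
            (0 : Fn n) := by
          funext g
          rw [map_zero]
          show (0 : ℝ) + 0 - 0 * (x.1 a - x.1 a) = 0
          ring
        rw [e]
        exact (RQ_facts Γ).1 _ _ _ _ _ hs (D6_int 0 x 0 fun g => by
          rw [Pi.zero_apply, abs_zero])
      · rw [hF1 a h, hΘ1 a h, hμ1 a h]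
        exact du a k h x hx
    have hcont : ∀ a, Continuous fun g => A x (Hv a k) g + Θ a x g - μ a * (x.1 a - x.1 k) :=
      fun a => ((hA.ab.inv0 x (Hv a k)).cont.add
        ((HB_facts Γ).1 _ _ (hΘB a x hx)).cont).sub continuous_const
    have h1 := D6_RQsum (fun a => v.1 a) F _ hcont hstep
    have h2 := (RQ_facts Γ).2.2.2.2.2 _ (80 * n * s) x _ _
      (fun g => A x v g + T x v g - m k1 k hk1 * inner ℝ x v)
      (continuous_finsetSum _ fun a _ => continuous_const.mul (hcont a))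
      (((hA.ab.inv0 x v).cont.add ((HB_facts Γ).1 _ _ (hTB x v hx hv)).cont).sub
        continuous_const) (fun g => ?_) h1
    · refine (RQ_facts Γ).1 _ _ _ _ _ ?_ h2
      have h3 : (∑ a, |v.1 a|) * s ≤ 2 * n * s := mul_le_mul_of_nonneg_right (D6_sumle v hv) hs
      linarith
    · have e1 : A x v g = ∑ a, v.1 a * A x (Hv a k) g := by
        conv_lhs => rw [D6_exp k v]
        rw [map_sum, Finset.sum_apply]
        exact Finset.sum_congr rfl fun a _ => by rw [map_smul, Pi.smul_apply, smul_eq_mul]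
      have e2 : (∑ a, v.1 a * (A x (Hv a k) g + Θ a x g - μ a * (x.1 a - x.1 k))) -
          (A x v g + T x v g - m k1 k hk1 * inner ℝ x v) =
          ∑ a, v.1 a * ((m k1 k hk1 - μ a) * (x.1 a - x.1 k)) := by
        rw [e1, hT, D6_inner k x v, Finset.mul_sum, ← Finset.sum_add_distrib,
          ← Finset.sum_sub_distrib, ← Finset.sum_sub_distrib]
        exact Finset.sum_congr rfl fun a _ => by ring
      show |(∑ a, v.1 a * (A x (Hv a k) g + Θ a x g - μ a * (x.1 a - x.1 k))) -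
        (A x v g + T x v g - m k1 k hk1 * inner ℝ x v)| ≤ 80 * n * s
      rw [e2]
      refine (Finset.abs_sum_le_sum_abs _ _).trans ?_
      have h3 : ∀ a, |v.1 a * ((m k1 k hk1 - μ a) * (x.1 a - x.1 k))| ≤ 2 * (8 * s * 4) := by
        intro a
        rw [abs_mul, abs_mul]
        have h4 : |v.1 a| ≤ 2 := (D6_abs v a).trans hv
        have h5 : |x.1 a - x.1 k| ≤ 4 := by
          have := abs_sub (x.1 a) (x.1 k)
          have h6 := (D6_abs x a).trans hx
          have h7 := (D6_abs x k).trans hx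
          linarith
        by_cases h : a = k
        · subst h
          rw [sub_self, abs_zero, mul_zero, mul_zero]
          positivity
        · have h8 : |m k1 k hk1 - μ a| ≤ 8 * s := by rw [hμ1 a h]; exact hmm _ _ _ _ _ _
          exact mul_le_mul h4 (mul_le_mul h8 h5 (abs_nonneg _) (by positivity))
            (by positivity) (by norm_num)
      have h4 : ∑ a : Fin n, |v.1 a * ((m k1 k hk1 - μ a) * (x.1 a - x.1 k))| ≤
          ∑ _a : Fin n, 2 * (8 * s * 4) := Finset.sum_le_sum fun a _ => h3 a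
      rw [Finset.sum_const, Finset.card_univ, Fintype.card_fin, nsmul_eq_mul] at h4
      refine h4.trans ?_
      have : 0 ≤ (n : ℝ) * s := by positivity
      linarith
  · intro x v w hx hv hw
    have hstep : ∀ a, RQ s x (Θ a v) (om A1 v (Hv a k) x) := by
      intro a
      by_cases h : a = k
      · subst h
        rw [hΘ0, D6_self]
        have e : om A1 v (0 : V0 n) x = (0 : Fn n) := by
          funext g
          rw [om_apply, map_zero, map_zero]
          show (0 : ℝ) - 0 = 0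
          ring
        rw [e]
        exact (RQ_facts Γ).1 _ _ _ _ _ hs (D6_int 0 x 0 fun g => by
          rw [Pi.zero_apply, abs_zero])
      · rw [hΘ1 a h]
        exact dθ a k h v x hv hx
    have hcont : ∀ a, Continuous (om A1 v (Hv a k) x) := fun a => by
      have e : om A1 v (Hv a k) x = fun g => A1 v x (Hv a k) g - A1 (Hv a k) x v g := rfl
      rw [e]
      exact (hA.ab.inv1 v x (Hv a k)).cont.sub (hA.ab.inv1 (Hv a k) x v).cont
    have h1 := D6_RQsum (fun a => w.1 a) (fun a => Θ a v) _ hcont hstep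
    have e : (fun g => ∑ a, w.1 a * om A1 v (Hv a k) x g) = om A1 v w x := by
      funext g
      rw [om_apply]
      conv_rhs => rw [D6_exp k w]
      simp only [map_sum, map_smul, LinearMap.sum_apply, LinearMap.smul_apply, Finset.sum_apply,
        Pi.smul_apply, smul_eq_mul]
      rw [← Finset.sum_sub_distrib]
      refine Finset.sum_congr rfl fun a _ => ?_
      rw [om_apply]
      ring
    rw [← e]
    refine (RQ_facts Γ).1 _ _ _ _ _ ?_ h1
    have h3 : (∑ a, |w.1 a|) * s ≤ 2 * n * s := mul_le_mul_of_nonneg_right (D6_sumle w hw) hs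
    linarith
  · intro i j h g
    rw [hUH, hUH]
    have h1 := hru i j h (g * kk i j h)
    have h2 := hru i j h g
    have h3 := au i j h g
    rw [abs_le] at h1 h2 h3 ⊢
    constructor <;> linarith
  · intro i j h v hv g
    rw [hTH, hTH]
    have h1 := hrθ i j h v hv (g * kk i j h)
    have h2 := hrθ i j h v hv g
    have h3 := aθ i j h v hv g
    rw [abs_le] at h1 h2 h3 ⊢
    constructor <;> linarith
  · intro v hv g
    have hz : ∀ a, Θ a (Hv a k) = 0 := by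
      intro a
      by_cases h : a = k
      · subst h
        rw [hΘ0]; rfl
      · rw [hΘ1 a h]; exact θ0 a k h
    have hsym : ∀ a b, |Θ a (Hv b k) g + Θ b (Hv a k) g| ≤ s := by
      intro a b
      by_cases h : a = b
      · subst h
        rw [hz a]
        show |(0 : ℝ) + 0| ≤ s
        rw [add_zero, abs_zero]
        exact hs
      · have h1 := hrθ a b h (Hv a b) (D6_nHv a b) g
        rw [θ0 a b h, D6_sub a b k, map_sub, map_sub, hz a, hz b] at h1
        have e : (0 : Fn n) g - ((0 - Θ a (Hv b k)) g - (Θ b (Hv a k) - 0) g) =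
            Θ a (Hv b k) g + Θ b (Hv a k) g := by
          show (0 : ℝ) - ((0 - Θ a (Hv b k) g) - (Θ b (Hv a k) g - 0)) = _
          ring
        rw [e] at h1
        exact h1
    have e1 : T v v g = ∑ a, ∑ b, v.1 a * v.1 b * Θ a (Hv b k) g := by
      rw [hT]
      refine Finset.sum_congr rfl fun a _ => ?_
      have e2 : Θ a v g = ∑ b, v.1 b * Θ a (Hv b k) g := by
        conv_lhs => rw [D6_exp k v]
        rw [map_sum, Finset.sum_apply]
        exact Finset.sum_congr rfl fun b _ => by rw [map_smul, Pi.smul_apply, smul_eq_mul]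
      rw [e2, Finset.mul_sum]
      exact Finset.sum_congr rfl fun b _ => by ring
    have e3 : T v v g = ∑ a, ∑ b, v.1 a * v.1 b * Θ b (Hv a k) g := by
      rw [e1, Finset.sum_comm]
      exact Finset.sum_congr rfl fun a _ => Finset.sum_congr rfl fun b _ => by ring
    have e4 : 2 * T v v g = ∑ a, ∑ b, v.1 a * v.1 b * (Θ a (Hv b k) g + Θ b (Hv a k) g) := by
      have : 2 * T v v g = T v v g + T v v g := by ring
      rw [this]
      conv_lhs =>
        congr
        · rw [e1]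
        · rw [e3]
      rw [← Finset.sum_add_distrib]
      refine Finset.sum_congr rfl fun a _ => ?_
      rw [← Finset.sum_add_distrib]
      exact Finset.sum_congr rfl fun b _ => by ring
    have h5 : |2 * T v v g| ≤ ∑ _a : Fin n, ∑ _b : Fin n, 2 * 2 * s := by
      rw [e4]
      refine (Finset.abs_sum_le_sum_abs _ _).trans (Finset.sum_le_sum fun a _ => ?_)
      refine (Finset.abs_sum_le_sum_abs _ _).trans (Finset.sum_le_sum fun b _ => ?_)
      rw [abs_mul, abs_mul]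
      exact mul_le_mul (mul_le_mul ((D6_abs v a).trans hv) ((D6_abs v b).trans hv)
        (abs_nonneg _) (by norm_num)) (hsym a b) (abs_nonneg _) (by norm_num)
    simp only [Finset.sum_const, Finset.card_univ, Fintype.card_fin, nsmul_eq_mul] at h5
    rw [abs_mul, abs_of_pos (by norm_num : (0 : ℝ) < 2)] at h5
    have h6 : (n : ℝ) * (n * (2 * 2 * s)) = 4 * (n ^ 2 * s) := by ring
    rw [h6] at h5
    linarith

private theorem D6_pow {x b c : ℝ} (hx : 0 < x) (hx1 : x ≤ 1) (h : b ≤ c) : x ^ c ≤ x ^ b :=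
  Real.rpow_le_rpow_of_exponent_ge hx hx1 h

/-- Row D6. (quantitative `pot_exists`) base index k0: `u v = ∑ v_i u_{i k0}`,
`T v w = ∑ w_i θ_{i k0}(v)`, `c = m_{01}`; all other relations up to `C σ^b` from D5b. -/
theorem pot_existsQ {n : ℕ} (hn : 3 ≤ n) (Γ : Subgroup (SL n)) (hc : Coc Γ) (M : ℝ) (hM : 0 ≤ M) :
    ∃ C b : ℝ, 0 < C ∧ 0 < b ∧ b ≤ 1 ∧ ∀ (σ : ℝ)
      (A : V0 n →ₗ[ℝ] V0 n →ₗ[ℝ] Fn n) (A1 : V0 n →ₗ[ℝ] V0 n →ₗ[ℝ] V0 n →ₗ[ℝ] Fn n)
      (A2 : V0 n →ₗ[ℝ] V0 n →ₗ[ℝ] V0 n →ₗ[ℝ] V0 n →ₗ[ℝ] Fn n), 0 < σ → σ ≤ 1 → AbQ Γ M A A1 A2 →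
      FlatV σ A2 → ∃ (u : V0 n →ₗ[ℝ] Fn n) (T : V0 n →ₗ[ℝ] V0 n →ₗ[ℝ] Fn n) (c : ℝ),
        PotQ Γ C (C * σ ^ b) A A1 u T c := by
  obtain ⟨C1, b1, hC1, hb1, hb1', H1⟩ := theta_existsQ hn Γ hc M hM
  obtain ⟨C4, hC4, H4⟩ := clo_uQ (n := n)
  have hM1 : 0 ≤ max M C1 := hM.trans (le_max_left _ _)
  obtain ⟨C2, b2, hC2, hb2, hb2', H2⟩ := potentialQ hn Γ hc (C4 * max M C1) (by positivity)
  have hM2 : 0 ≤ max (max M C1) C2 := hM1.trans (le_max_left _ _)
  obtain ⟨C3, b3, hC3, hb3, hb3', H3⟩ := relationsQ hn Γ hc (max (max M C1) C2) hM2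
  -- constants
  obtain ⟨C5, hC5d⟩ : ∃ C5 : ℝ, C5 = C1 + C2 * (C4 * C1) ^ b2 := ⟨_, rfl⟩
  have hq : 0 < (C4 * C1) ^ b2 := Real.rpow_pos_of_pos (by positivity) _
  have hC5 : 0 < C5 := by rw [hC5d]; positivity
  obtain ⟨K, hK⟩ : ∃ K : ℝ, K = 100 * (n : ℝ) ^ 2 * ((1 + C3) * C5 ^ b3) := ⟨_, rfl⟩
  have hnR : (3 : ℝ) ≤ n := by exact_mod_cast hn
  have hq5 : 0 < C5 ^ b3 := Real.rpow_pos_of_pos hC5 _
  have hKpos : 0 < K := by rw [hK]; positivity
  obtain ⟨C, hCd⟩ : ∃ C : ℝ, C = 2 * n * max (max M C1) C2 + K + 2 * M * (C4 * C1 + C5) := ⟨_, rfl⟩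
  have hterm : 0 ≤ 2 * M * (C4 * C1 + C5) := by positivity
  have hterm' : 0 ≤ 2 * (n : ℝ) * max (max M C1) C2 := by positivity
  have hC : 0 < C := by rw [hCd]; linarith
  have hb : 0 < b1 * b2 * b3 := by positivity
  have hb12 : b1 * b2 ≤ 1 := by nlinarith
  have hb' : b1 * b2 * b3 ≤ 1 := by nlinarith [mul_pos hb1 hb2]
  refine ⟨C, b1 * b2 * b3, hC, hb, hb', fun σ A A1 A2 hσ hσ1 hA hF => ?_⟩
  have hσb : 0 < σ ^ (b1 * b2 * b3) := Real.rpow_pos_of_pos hσ _
  have hσ12 : 0 < σ ^ (b1 * b2) := Real.rpow_pos_of_pos hσ _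
  have hσp1 : 0 < σ ^ b1 := Real.rpow_pos_of_pos hσ _
  -- the trivial case
  have htriv : 1 < C4 * C1 * σ ^ b1 ∨ 1 < C5 * σ ^ (b1 * b2) →
      ∃ (u : V0 n →ₗ[ℝ] Fn n) (T : V0 n →ₗ[ℝ] V0 n →ₗ[ℝ] Fn n) (c : ℝ),
        PotQ Γ C (C * σ ^ (b1 * b2 * b3)) A A1 u T c := by
    intro h
    refine ⟨0, 0, 0, D6_PotQmono (D6_triv hM hA) hC.le ?_⟩
    have h1 : 1 ≤ (C4 * C1 + C5) * σ ^ (b1 * b2 * b3) := by
      rcases h with h | h
      · have e1 : σ ^ b1 ≤ σ ^ (b1 * b2 * b3) := by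
          refine D6_pow hσ hσ1 ?_
          have : b1 * b2 * b3 = b1 * (b2 * b3) := by ring
          rw [this]
          have e2 : b2 * b3 ≤ 1 := by nlinarith
          nlinarith
        have e3 : C4 * C1 * σ ^ b1 ≤ C4 * C1 * σ ^ (b1 * b2 * b3) :=
          mul_le_mul_of_nonneg_left e1 (by positivity)
        have e4 : 0 ≤ C5 * σ ^ (b1 * b2 * b3) := by positivity
        linarith
      · have e1 : σ ^ (b1 * b2) ≤ σ ^ (b1 * b2 * b3) := by
          refine D6_pow hσ hσ1 ?_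
          nlinarith [mul_pos hb1 hb2]
        have e3 : C5 * σ ^ (b1 * b2) ≤ C5 * σ ^ (b1 * b2 * b3) :=
          mul_le_mul_of_nonneg_left e1 (by positivity)
        have e4 : 0 ≤ C4 * C1 * σ ^ (b1 * b2 * b3) := by positivity
        linarith
    have h2 : 2 * M * 1 ≤ 2 * M * ((C4 * C1 + C5) * σ ^ (b1 * b2 * b3)) :=
      mul_le_mul_of_nonneg_left h1 (by positivity)
    have h3 : 0 ≤ (2 * n * max (max M C1) C2 + K) * σ ^ (b1 * b2 * b3) :=
      mul_nonneg (by linarith) hσb.le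
    rw [hCd]
    linarith
  by_cases ht1 : C4 * C1 * σ ^ b1 ≤ 1
  swap
  · exact htriv (Or.inl (not_le.1 ht1))
  by_cases ht2 : C5 * σ ^ (b1 * b2) ≤ 1
  swap
  · exact htriv (Or.inr (not_le.1 ht2))
  -- the main case
  have hs1 : 0 < C1 * σ ^ b1 := by positivity
  have ht : C4 * (C1 * σ ^ b1) ≤ 1 := by rw [← mul_assoc]; exact ht1
  have htpos : 0 < C4 * (C1 * σ ^ b1) := by positivity
  obtain ⟨s2, hs2d⟩ : ∃ s2 : ℝ, s2 = C5 * σ ^ (b1 * b2) := ⟨_, rfl⟩
  have hs2 : 0 < s2 := by rw [hs2d]; positivity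
  have hs21 : s2 ≤ 1 := by rw [hs2d]; exact ht2
  have ha1 : C1 * σ ^ b1 ≤ s2 := by
    have e1 : σ ^ b1 ≤ σ ^ (b1 * b2) := D6_pow hσ hσ1 (by nlinarith)
    have e2 : C1 * σ ^ b1 ≤ C1 * σ ^ (b1 * b2) := mul_le_mul_of_nonneg_left e1 hC1.le
    have e3 : 0 ≤ C2 * (C4 * C1) ^ b2 * σ ^ (b1 * b2) := by positivity
    rw [hs2d, hC5d, add_mul]
    linarith
  have ha2 : C2 * (C4 * (C1 * σ ^ b1)) ^ b2 ≤ s2 := by
    have e1 : (C4 * (C1 * σ ^ b1)) ^ b2 = (C4 * C1) ^ b2 * σ ^ (b1 * b2) := by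
      rw [← mul_assoc, Real.mul_rpow (by positivity) hσp1.le, ← Real.rpow_mul hσ.le]
    rw [e1, hs2d, hC5d, add_mul]
    have e3 : 0 ≤ C1 * σ ^ (b1 * b2) := by positivity
    linarith
  have hA1 : AbQ Γ (max M C1) A A1 A2 := D6_AbQmono hA (le_max_left _ _)
  have hA2 : AbQ Γ (max (max M C1) C2) A A1 A2 := D6_AbQmono hA1 (le_max_left _ _)
  choose θ hθB hθd hθk hθ0 using fun (i j : Fin n) (h : i ≠ j) => H1 σ A A1 A2 hσ hσ1 hA hF i j h
  have hclo : ∀ (i j : Fin n) (h : i ≠ j),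
      CloQ Γ (C4 * max M C1) (C4 * (C1 * σ ^ b1)) i j (A.flip (Hv i j) + θ i j h) ∧
        AntiQ (C4 * (C1 * σ ^ b1)) i j h (A.flip (Hv i j) + θ i j h) := fun i j h =>
    H4 Γ (max M C1) (C1 * σ ^ b1) A A1 A2 hM1 hs1.le hA1 i j h (θ i j h)
      (fun v hv => (HB_facts Γ).2.2.2.1 _ _ _ (le_max_right _ _) (hθB i j h v hv))
      (hθd i j h) (hθk i j h) (hθ0 i j h)
  have hpot := fun (i j : Fin n) (h : i ≠ j) => H2 (C4 * (C1 * σ ^ b1)) i j h
    (A.flip (Hv i j) + θ i j h) htpos ht (hclo i j h).1 (hclo i j h).2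
  choose huB huk m hm hud using hpot
  obtain ⟨u, hu⟩ : ∃ u : (i j : Fin n) → i ≠ j → Fn n,
    u = fun i j h => tau i j h ((A.flip (Hv i j) + θ i j h) (Hv i j)) := ⟨_, rfl⟩
  have hu' : ∀ i j h, tau i j h ((A.flip (Hv i j) + θ i j h) (Hv i j)) = u i j h := fun i j h => by
    rw [hu]
  simp only [hu'] at huB huk hud
  have huB2 : ∀ i j h, HB Γ (max (max M C1) C2) (u i j h) := fun i j h =>
    (HB_facts Γ).2.2.2.1 _ _ _ (le_max_right _ _) (huB i j h)
  have hθB2 : ∀ i j h (v : V0 n), ‖v‖ ≤ 2 → HB Γ (max (max M C1) C2) (θ i j h v) :=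
    fun i j h v hv => (HB_facts Γ).2.2.2.1 _ _ _
      ((le_max_right _ _).trans (le_max_left _ _)) (hθB i j h v hv)
  have hm2 : ∀ i j h, |m i j h| ≤ max (max M C1) C2 := fun i j h =>
    (hm i j h).trans (le_max_right _ _)
  have hθd2 : ∀ i j h (v l : V0 n), ‖v‖ ≤ 2 → ‖l‖ ≤ 2 →
      RQ s2 l (θ i j h v) (om A1 v (Hv i j) l) := fun i j h v l hv hl =>
    (RQ_facts Γ).1 _ _ _ _ _ ha1 (hθd i j h v l hv hl)
  have hθk2 : ∀ i j h (v : V0 n), ‖v‖ ≤ 2 → ∀ g, |θ i j h v (g * kk i j h) + θ i j h v g| ≤ s2 :=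
    fun i j h v hv g => (hθk i j h v hv g).trans ha1
  have hud2 : ∀ i j h (l : V0 n), ‖l‖ ≤ 2 → RQ s2 l (u i j h)
      (fun g => A l (Hv i j) g + θ i j h l g - m i j h * (l.1 i - l.1 j)) := fun i j h l hl =>
    (RQ_facts Γ).1 _ _ _ _ _ ha2 (hud i j h l hl)
  have huk2 : ∀ i j h g, |u i j h (g * kk i j h) + u i j h g| ≤ s2 := fun i j h g =>
    (huk i j h g).trans ha2
  -- the common error
  have hp : s2 ≤ s2 ^ b3 := by
    have := D6_pow hs2 hs21 hb3'
    rwa [Real.rpow_one] at this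
  have hp0 : 0 < s2 ^ b3 := Real.rpow_pos_of_pos hs2 _
  have hle1 : s2 ≤ (1 + C3) * s2 ^ b3 := by nlinarith
  have hle2 : C3 * s2 ^ b3 ≤ (1 + C3) * s2 ^ b3 := by nlinarith
  obtain ⟨U, T, c, hP⟩ := D6_asm (s := (1 + C3) * s2 ^ b3) hn hM2 (by positivity) hA2 θ u m hm2
    hθB2 huB2 (fun i j h v l hv hl => (RQ_facts Γ).1 _ _ _ _ _ hle1 (hθd2 i j h v l hv hl))
    (fun i j h v hv g => (hθk2 i j h v hv g).trans hle1) hθ0
    (fun i j h l hl => (RQ_facts Γ).1 _ _ _ _ _ hle1 (hud2 i j h l hl))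
    (fun i j h g => (huk2 i j h g).trans hle1)
    (fun i j h c hc1 hz => by
      have h1 := H3 s2 A A1 A2 hs2 hs21 hA2 i j h c hc1 hz (fun a => θ (i a) (j a) (h a))
        (fun a => u (i a) (j a) (h a)) (fun a => m (i a) (j a) (h a)) (fun a => hm2 _ _ _)
        (fun a v hv => hθB2 _ _ _ v hv) (fun a => huB2 _ _ _)
        (fun a v l hv hl => hθd2 _ _ _ v l hv hl) (fun a v hv g => hθk2 _ _ _ v hv g)
        (fun a l hl => hud2 _ _ _ l hl) (fun a g => huk2 _ _ _ g)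
      exact ⟨fun v hv g => (h1.1 v hv g).trans hle2, fun l hl => (h1.2.1 l hl).trans hle2,
        fun g => (h1.2.2 g).trans hle2⟩)
  refine ⟨U, T, c, D6_PotQmono hP ?_ ?_⟩
  · rw [hCd]; linarith
  · have e1 : s2 ^ b3 = C5 ^ b3 * σ ^ (b1 * b2 * b3) := by
      rw [hs2d, Real.mul_rpow hC5.le hσ12.le, ← Real.rpow_mul hσ.le]
    have e2 : 100 * (n : ℝ) ^ 2 * ((1 + C3) * s2 ^ b3) = K * σ ^ (b1 * b2 * b3) := by
      rw [e1, hK]; ring
    rw [e2, hCd]
    have e3 : 0 ≤ (2 * n * max (max M C1) C2 + 2 * M * (C4 * C1 + C5)) * σ ^ (b1 * b2 * b3) :=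
      mul_nonneg (by linarith) hσb.le
    linarith

end FL27
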