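import Pool.Agent.LibFL27.DefsB

set_option autoImplicit false
set_option maxSynthPendingDepth 3

open Matrix MeasureTheory Topology Filter LibNC38
open LibNC27 hiding Mt
open scoped Matrix.Norms.Elementwise

namespace FL27

/-- the matrix of an (approximately) quadratic function on the sphere -/
noncomputable def Sq {n : ℕ} (q : (Fin n → ℝ) → ℝ) : Mt n := fun a b =>
  if a = b then q (Pi.single a 1)
  else (q ((√ 2)⁻¹ • (Pi.single a 1 + Pi.single b 1)) -
    q ((√ 2)⁻¹ • (Pi.single a 1 - Pi.single b 1))) / 2

end FL27
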