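import Pool.Agent.LibFL27.D1c
import Pool.Agent.LibFL27.D0b
import Pool.Agent.LibFL27.D0c
import Pool.Agent.LibFL27.D0d
import Pool.Agent.LibFL27.DefsV

set_option autoImplicit false
set_option maxSynthPendingDepth 3

open Matrix MeasureTheory Topology Filter LibNC38
open LibNC27 hiding Mt
open scoped Matrix.Norms.Elementwise

namespace FL27

private theorem D7a_cont {n : ℕ} : Continuous (dgm : V0 n → SL n) :=
  flat_facts.2.2.2.2.2.2.2.2.2.1

private theorem D7a_contF {n : ℕ} {F : Fn n} (hF : Continuous F) (g : SL n) (w : V0 n) :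
    Continuous fun s : ℝ => F (g * dgm (s • w)) := by
  have h1 : Continuous fun s : ℝ => dgm (s • w) :=
    D7a_cont.comp (continuous_id.smul continuous_const)
  exact hF.comp (continuous_const.mul h1)

/-- bounded function with almost constant increments -/
private theorem D7a_step {G : Type*} [Group G] (F : G → ℝ) (k : G) (a B ε : ℝ)
    (hB : ∀ g, |F g| ≤ B) (h : ∀ g, |F (g * k) - F g - a| ≤ ε) : |a| ≤ ε := by
  have h1 : ∀ m : ℕ, |F (1 * k ^ m) - F 1 - m * a| ≤ m * ε := by
    intro m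
    induction m with
    | zero => simp
    | succ m ih =>
      have e : F (1 * k ^ (m + 1)) - F 1 - ((m + 1 : ℕ) : ℝ) * a =
          (F (1 * k ^ m * k) - F (1 * k ^ m) - a) + (F (1 * k ^ m) - F 1 - m * a) := by
        rw [pow_succ, ← mul_assoc]
        push_cast
        ring
      rw [e]
      have h2 := abs_add_le (F (1 * k ^ m * k) - F (1 * k ^ m) - a) (F (1 * k ^ m) - F 1 - m * a)
      have h3 := h (1 * k ^ m)
      push_cast
      linarith
  by_contra hlt
  have hpos : 0 < |a| - ε := by linarith [not_le.1 hlt]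
  obtain ⟨m, hm⟩ := exists_nat_gt (2 * B / (|a| - ε))
  rw [div_lt_iff₀ hpos] at hm
  have h2 : (m : ℝ) * |a| ≤ m * ε + 2 * B := by
    have h4 : |(m : ℝ) * a| ≤ |F (1 * k ^ m) - F 1 - m * a| + (|F (1 * k ^ m)| + |F 1|) := by
      have e : (m : ℝ) * a = -(F (1 * k ^ m) - F 1 - m * a) + (F (1 * k ^ m) - F 1) := by ring
      calc |(m : ℝ) * a| = |-(F (1 * k ^ m) - F 1 - m * a) + (F (1 * k ^ m) - F 1)| := by rw [← e]
        _ ≤ |-(F (1 * k ^ m) - F 1 - m * a)| + |F (1 * k ^ m) - F 1| := abs_add_le _ _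
        _ ≤ _ := by
          rw [abs_neg]
          have := abs_sub (F (1 * k ^ m)) (F 1)
          linarith
    rw [abs_mul, Nat.abs_cast] at h4
    have h5 := h1 m
    have h6 := hB (1 * k ^ m)
    have h7 := hB 1
    linarith
  nlinarith

/-- Row D7a. Quantitative LibNC27/V2 (`u_ker`). `Δ g = u v (g k_t) - u v g` for `‖v‖ = 1`: derivative along
`v` at most `2 σ` (`diag`, `ort0`), Hölder by `dE_facts`; `mauq`; then `F (g k^m) ≈ F g + m a`, bounded, so
`a` is small (V2_step with error). General `v`: scale. If `C σ > 1` the bound is trivial. -/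
theorem u_kerQ {n : ℕ} (hn : 3 ≤ n) (Γ : Subgroup (SL n)) (hc : Coc Γ) (M : ℝ) (hM : 0 ≤ M) :
    ∃ C : ℝ, 0 < C ∧ ∀ (J : Mt n →ₗ[ℝ] Mt n →ₗ[ℝ] Fn n)
      (J1 : Mt n →ₗ[ℝ] Mt n →ₗ[ℝ] Mt n →ₗ[ℝ] Fn n)
      (J2 : Mt n →ₗ[ℝ] Mt n →ₗ[ℝ] Mt n →ₗ[ℝ] Mt n →ₗ[ℝ] Fn n), Jm Γ J J1 J2 →
    ∀ (A : V0 n →ₗ[ℝ] V0 n →ₗ[ℝ] Fn n) (A1 : V0 n →ₗ[ℝ] V0 n →ₗ[ℝ] V0 n →ₗ[ℝ] Fn n),
    (∀ v w, A v w = J (dM v) (dM w)) → (∀ x v w, A1 x v w = J1 (dM x) (dM v) (dM w)) →
    ∀ (u : V0 n →ₗ[ℝ] Fn n) (T : V0 n →ₗ[ℝ] V0 n →ₗ[ℝ] Fn n) (c σ : ℝ), 0 < σ → σ ≤ 1 →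
    PotQ Γ M σ A A1 u T c → ∀ (i j : Fin n), i ≠ j → ∀ v : V0 n, ‖v‖ ≤ 2 → v.1 i = v.1 j →
      ∀ (g : SL n) (t : ℝ), |u v (g * rot i j t) - u v g| ≤ C * √ σ := by
  obtain ⟨C₁, hC₁, hmau⟩ := mauq hn Γ hc
  obtain ⟨C₂, hC₂, -, -, -, -, hE, -, -⟩ := dE_facts n
  obtain ⟨hInvHB, -⟩ := @HB_facts n Γ
  have hMC : 0 ≤ M * (1 + C₂) := by positivity
  -- unit vectors
  set K : ℝ := 4 * C₁ * (1 + M * (1 + C₂)) + 4 * M with hK
  have hK0 : 0 < K := by positivity
  refine ⟨2 * K, by positivity, fun J J1 J2 HJ A A1 hA hA1 u T c σ hσ hσ1 P i j h v hv hvi g t => ?_⟩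
  obtain ⟨-, hort, -, -, -, -, hcom, hdM, -⟩ := rot_facts i j h
  have hsσ : 0 < √σ := Real.sqrt_pos.2 hσ
  have key : ∀ v : V0 n, ‖v‖ = 1 → v.1 i = v.1 j → ∀ g,
      |u v (g * rot i j t) - u v g| ≤ K * √σ := by
    intro v hv1 hvi g
    have hv2 : ‖v‖ ≤ 2 := by rw [hv1]; norm_num
    have hu := P.hbu v hv2
    have hTv := P.hbT v v hv2 hv2
    have triv : |u v (g * rot i j t) - u v g| ≤ 2 * M := by
      have h1 := abs_sub (u v (g * rot i j t)) (u v g)
      have h2 := hu.bd (g * rot i j t)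
      have h3 := hu.bd g
      linarith
    by_cases h4 : 4 * σ ≤ 1
    swap
    · have h5 : (1 / 2 : ℝ) ≤ √σ := by
        apply Real.le_sqrt_of_sq_le
        linarith [not_le.1 h4]
      have h6 : 2 * M ≤ 4 * M * √σ := by nlinarith
      have h7 : 4 * M * √σ ≤ K * √σ := by
        apply mul_le_mul_of_nonneg_right _ hsσ.le
        rw [hK]
        have : 0 ≤ 4 * C₁ * (1 + M * (1 + C₂)) := by positivity
        linarith
      linarith
    -- the increment
    have hΔ : HB Γ (M * (1 + C₂)) (fun x => u v (x * rot i j t) - u v x) := by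
      refine ⟨fun γ hγ x => ?_, fun x => ?_, fun x q => ?_⟩
      · show u v (γ * x * rot i j t) - u v (γ * x) = u v (x * rot i j t) - u v x
        rw [mul_assoc, hu.inv γ hγ, hu.inv γ hγ]
      · have h1 := abs_sub (u v (x * rot i j t)) (u v x)
        have h2 := hu.bd (x * rot i j t)
        have h3 := hu.bd x
        show |u v (x * rot i j t) - u v x| ≤ M * (1 + C₂)
        nlinarith
      · show |(u v (x * q * rot i j t) - u v (x * q)) - (u v (x * rot i j t) - u v x)| ≤
          M * (1 + C₂) * √(dE q)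
        have e1 : x * q * rot i j t = x * rot i j t * ((rot i j t)⁻¹ * q * rot i j t) := by group
        have h1 := hu.hol (x * rot i j t) ((rot i j t)⁻¹ * q * rot i j t)
        rw [← e1] at h1
        have h2 := hu.hol x q
        have h3 : √(dE ((rot i j t)⁻¹ * q * rot i j t)) ≤ C₂ * √(dE q) := by
          have h5 := hE i j h t q
          have h6 : √(C₂ * dE q) ≤ C₂ * √(dE q) := by
            rw [Real.sqrt_mul (by linarith)]
            apply mul_le_mul_of_nonneg_right _ (Real.sqrt_nonneg _)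
            rw [Real.sqrt_le_left (by linarith)]
            nlinarith
          exact (Real.sqrt_le_sqrt h5).trans h6
        have h7 : M * √(dE ((rot i j t)⁻¹ * q * rot i j t)) ≤ M * (C₂ * √(dE q)) :=
          mul_le_mul_of_nonneg_left h3 hM
        have e2 : (u v (x * q * rot i j t) - u v (x * q)) - (u v (x * rot i j t) - u v x) =
            (u v (x * q * rot i j t) - u v (x * rot i j t)) - (u v (x * q) - u v x) := by ring
        rw [e2]
        have h8 := abs_sub (u v (x * q * rot i j t) - u v (x * rot i j t)) (u v (x * q) - u v x)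
        nlinarith
    have hcT : Continuous (T v v) := (hInvHB _ _ hTv).cont
    have hcA : Continuous (A v v) := by
      rw [hA]
      exact HJ.cont0 _ _
    have hcF : Continuous (fun g => A v v g + T v v g - c * inner ℝ v v) :=
      (hcA.add hcT).sub continuous_const
    have hdr : ∀ (x : SL n) (r : ℝ),
        |(u v (x * dgm (r • v) * rot i j t) - u v (x * dgm (r • v))) -
          (u v (x * rot i j t) - u v x)| ≤ 4 * σ * (1 + |r|) := by
      intro x r
      have e0 : ∀ s : ℝ, x * dgm (s • v) * rot i j t = x * rot i j t * dgm (s • v) := by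
        intro s
        have h5 : (s • v : V0 n).1 i = (s • v : V0 n).1 j := by
          show s * v.1 i = s * v.1 j
          rw [hvi]
        rw [mul_assoc, mul_assoc, hcom t (s • v) h5]
      have h1 := P.du v v hv2 hv2 (x * rot i j t) r
      have h2 := P.du v v hv2 hv2 x r
      have h3 : |(∫ s in (0 : ℝ)..r, (A v v (x * rot i j t * dgm (s • v)) +
          T v v (x * rot i j t * dgm (s • v)) - c * inner ℝ v v)) -
          ∫ s in (0 : ℝ)..r, (A v v (x * dgm (s • v)) + T v v (x * dgm (s • v)) -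
            c * inner ℝ v v)| ≤ 2 * σ * |r| := by
        rw [← intervalIntegral.integral_sub
          ((D7a_contF hcF (x * rot i j t) v).intervalIntegrable _ _)
          ((D7a_contF hcF x v).intervalIntegrable _ _)]
        have h4 := intervalIntegral.norm_integral_le_of_norm_le_const (a := 0) (b := r)
          (C := 2 * σ) (f := fun s => (A v v (x * rot i j t * dgm (s • v)) +
            T v v (x * rot i j t * dgm (s • v)) - c * inner ℝ v v) -
            (A v v (x * dgm (s • v)) + T v v (x * dgm (s • v)) - c * inner ℝ v v)) (by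
          intro s _
          rw [Real.norm_eq_abs, ← e0]
          have h5 : A v v (x * dgm (s • v) * rot i j t) = A v v (x * dgm (s • v)) := by
            rw [hA, HJ.ort0 _ (hort t), hdM t v hvi]
          have h6 := P.diag v hv2 (x * dgm (s • v) * rot i j t)
          have h7 := P.diag v hv2 (x * dgm (s • v))
          rw [h5]
          have e3 : (A v v (x * dgm (s • v)) + T v v (x * dgm (s • v) * rot i j t) -
              c * inner ℝ v v) - (A v v (x * dgm (s • v)) + T v v (x * dgm (s • v)) -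
              c * inner ℝ v v) = T v v (x * dgm (s • v) * rot i j t) -
                T v v (x * dgm (s • v)) := by ring
          rw [e3]
          have h8 := abs_sub (T v v (x * dgm (s • v) * rot i j t)) (T v v (x * dgm (s • v)))
          linarith)
        rw [Real.norm_eq_abs, sub_zero] at h4
        exact h4
      rw [e0 r]
      rw [abs_le] at h1 h2 h3 ⊢
      have h9 := abs_nonneg r
      have h10 : 0 ≤ σ * |r| := by positivity
      constructor <;> nlinarith [h1.1, h1.2, h2.1, h2.2, h3.1, h3.2]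
    have hm := hmau (4 * σ) (M * (1 + C₂)) _ v (by positivity) h4 hMC hΔ hv1 hdr
    have hs4 : √(4 * σ) = 2 * √σ := by
      rw [Real.sqrt_mul (by norm_num), show (4 : ℝ) = 2 ^ 2 by norm_num,
        Real.sqrt_sq (by norm_num)]
    rw [hs4] at hm
    set ε : ℝ := C₁ * (1 + M * (1 + C₂)) * (2 * √σ) with hε
    have ha := D7a_step (u v) (rot i j t) (u v (1 * rot i j t) - u v 1) M ε hu.bd
      (fun x => hm x 1)
    have h11 := hm g 1
    have h12 := abs_add_le ((u v (g * rot i j t) - u v g) - (u v (1 * rot i j t) - u v 1))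
      (u v (1 * rot i j t) - u v 1)
    rw [sub_add_cancel] at h12
    have h13 : 2 * ε ≤ K * √σ := by
      rw [hε, hK]
      have : 0 ≤ 4 * M * √σ := by positivity
      nlinarith
    linarith
  by_cases hv0 : v = 0
  · rw [hv0, map_zero]
    simp only [Pi.zero_apply, sub_zero, abs_zero]
    positivity
  have hn0 : 0 < ‖v‖ := norm_pos_iff.2 hv0
  have hk := key (‖v‖⁻¹ • v) (by rw [norm_smul, norm_inv, norm_norm, inv_mul_cancel₀ hn0.ne'])
    (by
      show ‖v‖⁻¹ * v.1 i = ‖v‖⁻¹ * v.1 j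
      rw [hvi]) g
  have e1 : u (‖v‖⁻¹ • v) = ‖v‖⁻¹ • u v := map_smul _ _ _
  rw [e1] at hk
  have e2 : (‖v‖⁻¹ • u v) (g * rot i j t) - (‖v‖⁻¹ • u v) g =
      ‖v‖⁻¹ * (u v (g * rot i j t) - u v g) := by
    show ‖v‖⁻¹ * u v (g * rot i j t) - ‖v‖⁻¹ * u v g = _
    ring
  rw [e2, abs_mul, abs_of_pos (inv_pos.2 hn0), inv_mul_le_iff₀ hn0] at hk
  have h14 : 0 ≤ K * √σ := by positivity
  nlinarith

end FL27
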