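import Pool.Agent.LibFL27.D1c
import Pool.Agent.LibFL27.D0b
import Pool.Agent.LibFL27.D0c
import Pool.Agent.LibFL27.D0d
import Pool.Agent.LibFL27.DefsV

set_option autoImplicit false
set_option maxSynthPendingDepth 3

open Matrix MeasureTheory Topology Filter LibNC38
open LibNC27 hiding Mt
open scoped Matrix.Norms.Elementwise

namespace FL27

private theorem D7b_nHv {n : ℕ} (i j : Fin n) : ‖(Hv i j : V0 n)‖ ≤ 2 := by
  have e : (Hv i j : V0 n).1 = EuclideanSpace.single i (1 : ℝ) - EuclideanSpace.single j (1 : ℝ) := by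
    ext a
    show ((if a = i then (1 : ℝ) else 0) - (if a = j then 1 else 0)) = _
    simp
  show ‖(Hv i j : V0 n).1‖ ≤ 2
  rw [e]
  refine (norm_sub_le _ _).trans ?_
  rw [PiLp.norm_single, PiLp.norm_single]
  norm_num

/-- the derivative of `T v H` along `v` under a rotation -/
private theorem D7b_rot {n : ℕ} (Γ : Subgroup (SL n)) (J : Mt n →ₗ[ℝ] Mt n →ₗ[ℝ] Fn n)
    (J1 : Mt n →ₗ[ℝ] Mt n →ₗ[ℝ] Mt n →ₗ[ℝ] Fn n)
    (J2 : Mt n →ₗ[ℝ] Mt n →ₗ[ℝ] Mt n →ₗ[ℝ] Mt n →ₗ[ℝ] Fn n) (HJ : Jm Γ J J1 J2)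
    (A1 : V0 n →ₗ[ℝ] V0 n →ₗ[ℝ] V0 n →ₗ[ℝ] Fn n)
    (hA1 : ∀ x v w, A1 x v w = J1 (dM x) (dM v) (dM w))
    (i j : Fin n) (h : i ≠ j) (v : V0 n) (hv : v.1 i = v.1 j) (g : SL n) (t : ℝ) :
    om A1 v (Hv i j) v (g * rot i j t) = Real.cos (2 * t) * om A1 v (Hv i j) v g -
      Real.sin (2 * t) * (J1 (dM v) (dM v) (Matrix.single i j (1 : ℝ) + Matrix.single j i (1 : ℝ)) g -
        J1 (Matrix.single i j (1 : ℝ) + Matrix.single j i (1 : ℝ)) (dM v) (dM v) g) := by
  have h1 := (rot_facts i j h).2.1 t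
  have h2 := (rot_facts i j h).2.2.2.2.2.2.2.1 t v hv
  have h3 := (rot_facts i j h).2.2.2.2.2.2.2.2 t
  rw [om_apply, om_apply, hA1, hA1, HJ.ort1 _ h1, HJ.ort1 _ h1, h2, h3]
  simp only [map_sub, map_smul, LinearMap.sub_apply, LinearMap.smul_apply, Pi.sub_apply, Pi.smul_apply,
    smul_eq_mul]
  ring

private theorem D7b_sq {c x : ℝ} (hc : 1 ≤ c) (hx : 0 ≤ x) : √ (c * x) ≤ c * √ x := by
  have h0 : 0 ≤ c := by linarith
  rw [Real.sqrt_le_left (by positivity)]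
  have h1 : (c * √ x) ^ 2 = c ^ 2 * x := by
    rw [mul_pow, Real.sq_sqrt hx]
  rw [h1]
  refine mul_le_mul_of_nonneg_right ?_ hx
  nlinarith

private theorem D7b_unit {n : ℕ} (hn : 3 ≤ n) (Γ : Subgroup (SL n)) (hc : Coc Γ) (M : ℝ) (hM : 0 ≤ M) :
    ∃ C : ℝ, 0 < C ∧ ∀ (J : Mt n →ₗ[ℝ] Mt n →ₗ[ℝ] Fn n)
      (J1 : Mt n →ₗ[ℝ] Mt n →ₗ[ℝ] Mt n →ₗ[ℝ] Fn n)
      (J2 : Mt n →ₗ[ℝ] Mt n →ₗ[ℝ] Mt n →ₗ[ℝ] Mt n →ₗ[ℝ] Fn n), Jm Γ J J1 J2 →
    ∀ (A : V0 n →ₗ[ℝ] V0 n →ₗ[ℝ] Fn n) (A1 : V0 n →ₗ[ℝ] V0 n →ₗ[ℝ] V0 n →ₗ[ℝ] Fn n),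
    (∀ x v w, A1 x v w = J1 (dM x) (dM v) (dM w)) →
    ∀ (u : V0 n →ₗ[ℝ] Fn n) (T : V0 n →ₗ[ℝ] V0 n →ₗ[ℝ] Fn n) (c σ : ℝ), 0 < σ → σ ≤ 1 →
    PotQ Γ M σ A A1 u T c → ∀ (i j : Fin n), i ≠ j → ∀ v : V0 n, ‖v‖ = 1 → v.1 i = v.1 j →
      ∀ (g : SL n) (t : ℝ), |T v (Hv i j) (g * rot i j t) + T v (Hv i j) (g * rot i j (-t)) -
        2 * Real.cos (2 * t) * T v (Hv i j) g| ≤ C * √ σ := by
  obtain ⟨Cm, hCm, hmau⟩ := mauq hn Γ hc
  obtain ⟨CE, hCE, -, -, -, -, hrotE, -, -⟩ := dE_facts n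
  have hCE0 : 0 ≤ CE := by linarith
  refine ⟨2 + Cm * (1 + (2 * CE + 2) * M) + 8 * M, by positivity, ?_⟩
  intro J J1 J2 HJ A A1 hA1 u T c σ hσ hσ1 P i j h v hv1 hv g t
  obtain ⟨-, -, hadd, -, hpi, -, hcom, -, -⟩ := rot_facts i j h
  obtain ⟨hHI, -, -, hmono, -, hsm, hsum, -, -⟩ := HB_facts Γ
  have hv2 : ‖v‖ ≤ 2 := by rw [hv1]; norm_num
  have hH2 : ‖(Hv i j : V0 n)‖ ≤ 2 := D7b_nHv i j
  have hT := P.hbT v (Hv i j) hv2 hH2
  obtain ⟨f, hf⟩ : ∃ f : Fn n, f = T v (Hv i j) := ⟨_, rfl⟩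
  rw [← hf] at hT ⊢
  have hσs : 0 < √ σ := Real.sqrt_pos.2 hσ
  have hσs1 : √ σ ≤ 1 := by
    rw [Real.sqrt_le_one]
    exact hσ1
  have hσss : σ ≤ √ σ := by
    have h1 : √ σ * √ σ = σ := Real.mul_self_sqrt hσ.le
    nlinarith
  obtain ⟨a, ha⟩ : ∃ a : ℝ, a = -(2 * Real.cos (2 * t)) := ⟨_, rfl⟩
  have ha2 : |a| ≤ 2 := by
    rw [ha, abs_neg, abs_mul, abs_of_pos (by norm_num : (0 : ℝ) < 2)]
    have := Real.abs_cos_le_one (2 * t)
    linarith
  have hHBk : ∀ r : ℝ, HB Γ (CE * M) (fun g => f (g * rot i j r)) := by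
    intro r
    refine ⟨fun γ hγ g => ?_, fun g => ?_, fun g q => ?_⟩
    · show f (γ * g * rot i j r) = f (g * rot i j r)
      rw [mul_assoc]
      exact hT.inv γ hγ _
    · exact (hT.bd _).trans (le_mul_of_one_le_left hM hCE)
    · have e1 : g * q * rot i j r = g * rot i j r * ((rot i j r)⁻¹ * q * rot i j r) := by
        simp only [mul_assoc, mul_inv_cancel_left]
      show |f (g * q * rot i j r) - f (g * rot i j r)| ≤ CE * M * √ (dE q)
      rw [e1]
      refine (hT.hol _ _).trans ?_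
      have hd0 : 0 ≤ dE q := norm_nonneg _
      have e2 : √ (dE ((rot i j r)⁻¹ * q * rot i j r)) ≤ CE * √ (dE q) :=
        (Real.sqrt_le_sqrt (hrotE i j h r q)).trans (D7b_sq hCE hd0)
      have e3 := mul_le_mul_of_nonneg_left e2 hM
      linarith
  obtain ⟨F, hF⟩ : ∃ F : Fn n, F = fun g => f (g * rot i j t) + f (g * rot i j (-t)) + a * f g :=
    ⟨_, rfl⟩
  have hFB : HB Γ ((2 * CE + 2) * M) F := by
    have h1 := hsum _ _ _ _ (hsum _ _ _ _ (hHBk t) (hHBk (-t))) (hsm _ _ a hT)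
    rw [hF]
    refine hmono _ _ _ ?_ h1
    have h2 := mul_le_mul_of_nonneg_right ha2 hM
    linarith
  have hFt : |F g| ≤ (2 + Cm * (1 + (2 * CE + 2) * M) + 8 * M) * √ σ := by
    rcases le_or_gt (4 * σ) 1 with h4 | h4
    · -- derivative along `v`
      have hom : ∀ g : SL n, om A1 v (Hv i j) v (g * rot i j t) +
          om A1 v (Hv i j) v (g * rot i j (-t)) + a * om A1 v (Hv i j) v g = 0 := by
        intro g
        rw [ha, D7b_rot Γ J J1 J2 HJ A1 hA1 i j h v hv, D7b_rot Γ J J1 J2 HJ A1 hA1 i j h v hv,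
          show 2 * -t = -(2 * t) by ring, Real.cos_neg, Real.sin_neg]
        ring
      have homc : Continuous (om A1 v (Hv i j) v) := by
        have e1 : om A1 v (Hv i j) v = fun g => J1 (dM v) (dM v) (dM (Hv i j)) g -
            J1 (dM (Hv i j)) (dM v) (dM v) g := by
          funext g
          rw [om_apply, hA1, hA1]
        rw [e1]
        exact (HJ.cont1 _ _ _).sub (HJ.cont1 _ _ _)
      have hcv : Continuous fun s : ℝ => dgm (s • v) :=
        (@dgm_facts n).2.2.2.2.2.comp (continuous_id.smul continuous_const)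
      have hint : ∀ (x : SL n) (r : ℝ), IntervalIntegrable
          (fun s : ℝ => om A1 v (Hv i j) v (x * dgm (s • v))) volume 0 r := fun x r =>
        (homc.comp (continuous_const.mul hcv)).intervalIntegrable 0 r
      have c1 : ∀ (x : SL n) (r s : ℝ), x * rot i j r * dgm (s • v) = x * dgm (s • v) * rot i j r := by
        intro x r s
        rw [mul_assoc, mul_assoc, hcom r (s • v) (by
          show s * v.1 i = s * v.1 j
          rw [hv])]
      have hd : ∀ (x : SL n) (r : ℝ), |F (x * dgm (r • v)) - F x| ≤ 4 * σ * (1 + |r|) := by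
        intro x r
        have d1 := P.dT v v (Hv i j) hv2 hv2 hH2 (x * rot i j t) r
        have d2 := P.dT v v (Hv i j) hv2 hv2 hH2 (x * rot i j (-t)) r
        have d3 := P.dT v v (Hv i j) hv2 hv2 hH2 x r
        rw [← hf] at d1 d2 d3
        have hI : (∫ s in (0 : ℝ)..r, om A1 v (Hv i j) v (x * rot i j t * dgm (s • v))) +
            (∫ s in (0 : ℝ)..r, om A1 v (Hv i j) v (x * rot i j (-t) * dgm (s • v))) +
            a * ∫ s in (0 : ℝ)..r, om A1 v (Hv i j) v (x * dgm (s • v)) = 0 := by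
          rw [← intervalIntegral.integral_const_mul, ← intervalIntegral.integral_add (hint _ r)
            (hint _ r), ← intervalIntegral.integral_add ((hint _ r).add (hint _ r))
            ((hint _ r).const_mul a)]
          have e1 : ∀ s : ℝ, om A1 v (Hv i j) v (x * rot i j t * dgm (s • v)) +
              om A1 v (Hv i j) v (x * rot i j (-t) * dgm (s • v)) +
              a * om A1 v (Hv i j) v (x * dgm (s • v)) = 0 := by
            intro s
            rw [c1, c1]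
            exact hom _
          simp only [e1]
          exact intervalIntegral.integral_zero
        rw [c1] at d1 d2
        rw [hF]
        show |f (x * dgm (r • v) * rot i j t) + f (x * dgm (r • v) * rot i j (-t)) +
          a * f (x * dgm (r • v)) - (f (x * rot i j t) + f (x * rot i j (-t)) + a * f x)| ≤ _
        obtain ⟨I1, hI1⟩ : ∃ I1, I1 = ∫ s in (0 : ℝ)..r,
          om A1 v (Hv i j) v (x * rot i j t * dgm (s • v)) := ⟨_, rfl⟩
        obtain ⟨I2, hI2⟩ : ∃ I2, I2 = ∫ s in (0 : ℝ)..r,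
          om A1 v (Hv i j) v (x * rot i j (-t) * dgm (s • v)) := ⟨_, rfl⟩
        obtain ⟨I3, hI3⟩ : ∃ I3, I3 = ∫ s in (0 : ℝ)..r,
          om A1 v (Hv i j) v (x * dgm (s • v)) := ⟨_, rfl⟩
        rw [← hI1] at d1 hI
        rw [← hI2] at d2 hI
        rw [← hI3] at d3 hI
        have e2 : f (x * dgm (r • v) * rot i j t) + f (x * dgm (r • v) * rot i j (-t)) +
            a * f (x * dgm (r • v)) - (f (x * rot i j t) + f (x * rot i j (-t)) + a * f x) =
            (f (x * dgm (r • v) * rot i j t) - f (x * rot i j t) - I1) +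
            (f (x * dgm (r • v) * rot i j (-t)) - f (x * rot i j (-t)) - I2) +
            a * (f (x * dgm (r • v)) - f x - I3) := by
          linear_combination hI
        rw [e2]
        refine (abs_add_le _ _).trans ?_
        have e3 := abs_add_le (f (x * dgm (r • v) * rot i j t) - f (x * rot i j t) - I1)
          (f (x * dgm (r • v) * rot i j (-t)) - f (x * rot i j (-t)) - I2)
        have e4 : |a * (f (x * dgm (r • v)) - f x - I3)| ≤ 2 * (σ * (1 + |r|)) := by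
          rw [abs_mul]
          exact mul_le_mul ha2 d3 (abs_nonneg _) (by norm_num)
        linarith
      have hm := hmau (4 * σ) ((2 * CE + 2) * M) F v (by positivity) h4 (by positivity) hFB hv1 hd
        g (g * kk i j h)
      have hs4 : √ (4 * σ) = 2 * √ σ := by
        rw [show (4 : ℝ) * σ = 2 ^ 2 * σ by norm_num, Real.sqrt_mul (by norm_num),
          Real.sqrt_sq (by norm_num)]
      rw [hs4] at hm
      -- antisymmetry
      have hk : |F (g * kk i j h) + F g| ≤ 4 * σ := by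
        have c2 : ∀ r : ℝ, kk i j h * rot i j r = rot i j r * kk i j h := by
          intro r
          rw [← hpi, ← hadd, ← hadd, add_comm]
        have c3 : ∀ r : ℝ, g * kk i j h * rot i j r = g * rot i j r * kk i j h := by
          intro r
          rw [mul_assoc, c2, ← mul_assoc]
        have a1 := P.antiT i j h v hv2 (g * rot i j t)
        have a2 := P.antiT i j h v hv2 (g * rot i j (-t))
        have a3 := P.antiT i j h v hv2 g
        rw [← hf] at a1 a2 a3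
        rw [hF]
        show |f (g * kk i j h * rot i j t) + f (g * kk i j h * rot i j (-t)) +
          a * f (g * kk i j h) + (f (g * rot i j t) + f (g * rot i j (-t)) + a * f g)| ≤ 4 * σ
        rw [c3, c3]
        have e2 : f (g * rot i j t * kk i j h) + f (g * rot i j (-t) * kk i j h) +
            a * f (g * kk i j h) + (f (g * rot i j t) + f (g * rot i j (-t)) + a * f g) =
            (f (g * rot i j t * kk i j h) + f (g * rot i j t)) +
            (f (g * rot i j (-t) * kk i j h) + f (g * rot i j (-t))) +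
            a * (f (g * kk i j h) + f g) := by ring
        rw [e2]
        refine (abs_add_le _ _).trans ?_
        have e3 := abs_add_le (f (g * rot i j t * kk i j h) + f (g * rot i j t))
          (f (g * rot i j (-t) * kk i j h) + f (g * rot i j (-t)))
        have e4 : |a * (f (g * kk i j h) + f g)| ≤ 2 * σ := by
          rw [abs_mul]
          exact mul_le_mul ha2 a3 (abs_nonneg _) (by norm_num)
        linarith
      have hfin : |2 * F g| ≤ Cm * (1 + (2 * CE + 2) * M) * (2 * √ σ) + 4 * σ := by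
        have e1 : 2 * F g = (F g - F (g * kk i j h)) + (F (g * kk i j h) + F g) := by ring
        rw [e1]
        exact (abs_add_le _ _).trans (add_le_add hm hk)
      rw [abs_mul, abs_of_pos (by norm_num : (0 : ℝ) < 2)] at hfin
      have hMσ : 0 ≤ 8 * M * √ σ := by positivity
      have e5 : (2 + Cm * (1 + (2 * CE + 2) * M) + 8 * M) * √ σ =
          2 * √ σ + Cm * (1 + (2 * CE + 2) * M) * √ σ + 8 * M * √ σ := by ring
      rw [e5]
      linarith
    · have h5 : 1 / 2 ≤ √ σ := by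
        apply Real.le_sqrt_of_sq_le
        norm_num
        linarith
      have h6 : |F g| ≤ 4 * M := by
        rw [hF]
        show |f (g * rot i j t) + f (g * rot i j (-t)) + a * f g| ≤ 4 * M
        have e1 := abs_add_le (f (g * rot i j t) + f (g * rot i j (-t))) (a * f g)
        have e2 := abs_add_le (f (g * rot i j t)) (f (g * rot i j (-t)))
        have e3 : |a * f g| ≤ 2 * M := by
          rw [abs_mul]
          exact mul_le_mul ha2 (hT.bd g) (abs_nonneg _) (by norm_num)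
        have e4 := hT.bd (g * rot i j t)
        have e5 := hT.bd (g * rot i j (-t))
        linarith
      have h7 : 0 ≤ (2 + Cm * (1 + (2 * CE + 2) * M)) * √ σ := by positivity
      have h8 : 8 * M * (1 / 2) ≤ 8 * M * √ σ := mul_le_mul_of_nonneg_left h5 (by positivity)
      have e5 : (2 + Cm * (1 + (2 * CE + 2) * M) + 8 * M) * √ σ =
          (2 + Cm * (1 + (2 * CE + 2) * M)) * √ σ + 8 * M * √ σ := by ring
      rw [e5]
      linarith
  rw [hF, ha] at hFt
  have e6 : f (g * rot i j t) + f (g * rot i j (-t)) - 2 * Real.cos (2 * t) * f g =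
      f (g * rot i j t) + f (g * rot i j (-t)) + -(2 * Real.cos (2 * t)) * f g := by ring
  rw [e6]
  exact hFt

/-- Row D7b. Quantitative LibNC27/V3 (`T_weight`): `F g = T v H (g k_t) + T v H (g k_(-t)) - 2 cos 2t T v H g`
has derivative 0 along `v` up to `4 σ` (the `om` part cancels exactly, V3_rot), `F (g kk) ≈ - F g` up to
`4 σ`; `mauq`. -/
theorem T_weightQ {n : ℕ} (hn : 3 ≤ n) (Γ : Subgroup (SL n)) (hc : Coc Γ) (M : ℝ) (hM : 0 ≤ M) :
    ∃ C : ℝ, 0 < C ∧ ∀ (J : Mt n →ₗ[ℝ] Mt n →ₗ[ℝ] Fn n)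
      (J1 : Mt n →ₗ[ℝ] Mt n →ₗ[ℝ] Mt n →ₗ[ℝ] Fn n)
      (J2 : Mt n →ₗ[ℝ] Mt n →ₗ[ℝ] Mt n →ₗ[ℝ] Mt n →ₗ[ℝ] Fn n), Jm Γ J J1 J2 →
    ∀ (A : V0 n →ₗ[ℝ] V0 n →ₗ[ℝ] Fn n) (A1 : V0 n →ₗ[ℝ] V0 n →ₗ[ℝ] V0 n →ₗ[ℝ] Fn n),
    (∀ v w, A v w = J (dM v) (dM w)) → (∀ x v w, A1 x v w = J1 (dM x) (dM v) (dM w)) →
    ∀ (u : V0 n →ₗ[ℝ] Fn n) (T : V0 n →ₗ[ℝ] V0 n →ₗ[ℝ] Fn n) (c σ : ℝ), 0 < σ → σ ≤ 1 →
    PotQ Γ M σ A A1 u T c → ∀ (i j : Fin n), i ≠ j → ∀ v : V0 n, ‖v‖ ≤ 2 → v.1 i = v.1 j →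
      ∀ (g : SL n) (t : ℝ), |T v (Hv i j) (g * rot i j t) + T v (Hv i j) (g * rot i j (-t)) -
        2 * Real.cos (2 * t) * T v (Hv i j) g| ≤ C * √ σ := by
  obtain ⟨C, hC, H⟩ := D7b_unit hn Γ hc M hM
  refine ⟨2 * C, by positivity, ?_⟩
  intro J J1 J2 HJ A A1 _ hA1 u T c σ hσ hσ1 P i j h v hv2 hv g t
  rcases eq_or_ne v 0 with rfl | hv0
  · rw [map_zero, LinearMap.zero_apply]
    simp only [Pi.zero_apply, mul_zero, add_zero, sub_zero, abs_zero]
    positivity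
  · have hvn : 0 < ‖v‖ := norm_pos_iff.2 hv0
    obtain ⟨w, hw⟩ : ∃ w : V0 n, w = ‖v‖⁻¹ • v := ⟨_, rfl⟩
    have hwn : ‖w‖ = 1 := by
      rw [hw, norm_smul, norm_inv, norm_norm, inv_mul_cancel₀ hvn.ne']
    have hvw : v = ‖v‖ • w := by
      rw [hw, smul_smul, mul_inv_cancel₀ hvn.ne', one_smul]
    have hwij : w.1 i = w.1 j := by
      rw [hw]
      show ‖v‖⁻¹ * v.1 i = ‖v‖⁻¹ * v.1 j
      rw [hv]
    have h1 := H J J1 J2 HJ A A1 hA1 u T c σ hσ hσ1 P i j h w hwn hwij g t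
    have h2 : ∀ x : SL n, T v (Hv i j) x = ‖v‖ * T w (Hv i j) x := by
      intro x
      conv_lhs => rw [hvw]
      rw [map_smul, LinearMap.smul_apply, Pi.smul_apply, smul_eq_mul]
    rw [h2, h2, h2]
    have h3 : ‖v‖ * T w (Hv i j) (g * rot i j t) + ‖v‖ * T w (Hv i j) (g * rot i j (-t)) -
        2 * Real.cos (2 * t) * (‖v‖ * T w (Hv i j) g) =
        ‖v‖ * (T w (Hv i j) (g * rot i j t) + T w (Hv i j) (g * rot i j (-t)) -
        2 * Real.cos (2 * t) * T w (Hv i j) g) := by ring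
    rw [h3, abs_mul, abs_of_pos hvn]
    have h4 := mul_le_mul hv2 h1 (abs_nonneg _) (by norm_num : (0 : ℝ) ≤ 2)
    linarith

end FL27
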