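import Pool.Agent.LibFL27.D7b

set_option autoImplicit false
set_option maxSynthPendingDepth 3

open Matrix MeasureTheory Topology Filter LibNC38
open LibNC27 hiding Mt
open scoped Matrix.Norms.Elementwise

namespace FL27

private theorem D7c_norm {n : ℕ} {i j : Fin n} (h : i ≠ j) : ‖Hv i j‖ ≤ 2 := by
  obtain ⟨f1, f2, -⟩ := Hv_facts i j h
  have h1 : ‖Hv i j‖ ^ 2 = 2 := by
    rw [← real_inner_self_eq_norm_sq, f2, f1, f1, if_pos rfl, if_neg h, if_neg h.symm, if_pos rfl]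
    norm_num
  nlinarith [norm_nonneg (Hv i j)]

private theorem D7c_quart {σ : ℝ} (hσ : 0 < σ) : √(√ σ) = σ ^ (1 / 4 : ℝ) := by
  rw [Real.sqrt_eq_rpow, Real.sqrt_eq_rpow, ← Real.rpow_mul hσ.le]
  norm_num

/-- Row D7c. Quantitative LibNC27/V4 (`u_weight`): derivative along a unit `v`, `v i = v j` (A1a): `A v H + T v H`,
the `A` part cancels exactly, the `T` part is D7b; `antiu`; `mauq`. -/
theorem u_weightQ {n : ℕ} (hn : 3 ≤ n) (Γ : Subgroup (SL n)) (hc : Coc Γ) (M : ℝ) (hM : 0 ≤ M) :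
    ∃ C : ℝ, 0 < C ∧ ∀ (J : Mt n →ₗ[ℝ] Mt n →ₗ[ℝ] Fn n)
      (J1 : Mt n →ₗ[ℝ] Mt n →ₗ[ℝ] Mt n →ₗ[ℝ] Fn n)
      (J2 : Mt n →ₗ[ℝ] Mt n →ₗ[ℝ] Mt n →ₗ[ℝ] Mt n →ₗ[ℝ] Fn n), Jm Γ J J1 J2 →
    ∀ (A : V0 n →ₗ[ℝ] V0 n →ₗ[ℝ] Fn n) (A1 : V0 n →ₗ[ℝ] V0 n →ₗ[ℝ] V0 n →ₗ[ℝ] Fn n),
    (∀ v w, A v w = J (dM v) (dM w)) → (∀ x v w, A1 x v w = J1 (dM x) (dM v) (dM w)) →
    ∀ (u : V0 n →ₗ[ℝ] Fn n) (T : V0 n →ₗ[ℝ] V0 n →ₗ[ℝ] Fn n) (c σ : ℝ), 0 < σ → σ ≤ 1 →
    PotQ Γ M σ A A1 u T c → ∀ (i j : Fin n), i ≠ j →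
      ∀ (g : SL n) (t : ℝ), |u (Hv i j) (g * rot i j t) + u (Hv i j) (g * rot i j (-t)) -
        2 * Real.cos (2 * t) * u (Hv i j) g| ≤ C * σ ^ (1 / 4 : ℝ) := by
  obtain ⟨CT, hCT, hT⟩ := T_weightQ hn Γ hc M hM
  obtain ⟨Cm, hCm, hm⟩ := mauq hn Γ hc
  obtain ⟨CE, hCE, -, -, -, -, hrot, -, -⟩ := dE_facts n
  refine ⟨(Cm + 2) * (1 + 4 * (M * √ CE)) * √ (4 + CT) + 4, by positivity, ?_⟩
  intro J J1 J2 HJ A A1 hA hA1 u T c σ hσ hσ1 P i j h g t
  obtain ⟨-, r2, r3, -, r5, -, r7, r8, r9⟩ := rot_facts i j h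
  obtain ⟨-, f2, -, -, -, f6⟩ := Hv_facts i j h
  obtain ⟨q1, -, -, q4, -, q6, q7, -, -⟩ := HB_facts Γ
  obtain ⟨-, p2, p3, -, -, p6⟩ := RQ_facts Γ
  have hH2 : ‖Hv i j‖ ≤ 2 := D7c_norm h
  obtain ⟨v0, hv0, hv0'⟩ := f6 hn
  -- the unit vector
  obtain ⟨v, hv1, hv⟩ : ∃ v : V0 n, ‖v‖ = 1 ∧ v.1 i = v.1 j := by
    refine ⟨‖v0‖⁻¹ • v0, ?_, ?_⟩
    · rw [norm_smul, norm_inv, norm_norm, inv_mul_cancel₀ (norm_ne_zero_iff.2 hv0)]
    · show ‖v0‖⁻¹ * v0.1 i = ‖v0‖⁻¹ * v0.1 j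
      rw [hv0']
  have hv2 : ‖v‖ ≤ 2 := by rw [hv1]; norm_num
  have hvH : inner ℝ v (Hv i j) = (0 : ℝ) := by rw [f2, hv, sub_self]
  have hsE : 1 ≤ √ CE := Real.one_le_sqrt.2 hCE
  have hMs : M ≤ M * √ CE := le_mul_of_one_le_right hM hsE
  have hR : ∀ s, HB Γ (M * √ CE) (fun x => u (Hv i j) (x * rot i j s)) := by
    intro s
    have hH := P.hbu (Hv i j) hH2
    refine ⟨fun γ hγ x => ?_, fun x => (hH.bd _).trans hMs, fun x q => ?_⟩
    · show u (Hv i j) (γ * x * rot i j s) = u (Hv i j) (x * rot i j s)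
      rw [mul_assoc, hH.inv γ hγ]
    · show |u (Hv i j) (x * q * rot i j s) - u (Hv i j) (x * rot i j s)| ≤ _
      have e1 : x * q * rot i j s = x * rot i j s * ((rot i j s)⁻¹ * q * rot i j s) := by group
      rw [e1]
      refine (hH.hol _ _).trans ?_
      rw [mul_assoc M, ← Real.sqrt_mul (by linarith)]
      exact mul_le_mul_of_nonneg_left (Real.sqrt_le_sqrt (hrot i j h s q)) hM
  set a : ℝ := -(2 * Real.cos (2 * t)) with ha
  have ha2 : |a| ≤ 2 := by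
    rw [ha, abs_neg, abs_mul, abs_two]
    have := Real.abs_cos_le_one (2 * t)
    linarith
  set F : Fn n := fun x => (u (Hv i j) (x * rot i j t) + u (Hv i j) (x * rot i j (-t))) +
    a * u (Hv i j) x with hF
  have hFB : HB Γ (4 * (M * √ CE)) F := by
    refine q4 _ _ _ ?_ (q7 _ _ _ _ (q7 _ _ _ _ (hR t) (hR (-t))) (q6 _ _ a (P.hbu (Hv i j) hH2)))
    have h1 : |a| * M ≤ 2 * (M * √ CE) := by
      have h2 : |a| * M ≤ 2 * M := mul_le_mul_of_nonneg_right ha2 hM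
      linarith
    linarith
  set Q : Fn n := fun x => A v (Hv i j) x + T v (Hv i j) x - c * inner ℝ v (Hv i j) with hQ
  have hQc : Continuous Q := by
    refine (Continuous.add ?_ ?_).sub continuous_const
    · rw [hA]
      exact HJ.cont0 _ _
    · exact (q1 _ _ (P.hbT v (Hv i j) hv2 hH2)).cont
  have hQs : ∀ s, Continuous fun x => Q (x * rot i j s) := fun s =>
    hQc.comp (continuous_mul_const _)
  have hdu := P.du v (Hv i j) hv2 hH2
  have hRQ : ∀ s, RQ σ v (fun x => u (Hv i j) (x * rot i j s)) (fun x => Q (x * rot i j s)) := by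
    intro s x τ
    have e : ∀ τ : ℝ, x * dgm (τ • v) * rot i j s = x * rot i j s * dgm (τ • v) := by
      intro τ
      have hs : (τ • v).1 i = (τ • v).1 j := by
        show τ * v.1 i = τ * v.1 j
        rw [hv]
      rw [mul_assoc, ← r7 s (τ • v) hs, ← mul_assoc]
    simp only [e]
    exact hdu (x * rot i j s) τ
  have hRF := p3 _ _ v _ _ _ _ ((hQs t).add (hQs (-t))) (continuous_const.mul hQc)
    (p3 _ _ v _ _ _ _ (hQs t) (hQs (-t)) (hRQ t) (hRQ (-t))) (p2 _ v _ _ a hdu)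
  have hA0 : ∀ (s : ℝ) (x : SL n), A v (Hv i j) (x * rot i j s) =
      Real.cos (2 * s) * A v (Hv i j) x -
        Real.sin (2 * s) * J (dM v) (Matrix.single i j (1 : ℝ) + Matrix.single j i (1 : ℝ)) x := by
    intro s x
    rw [hA, HJ.ort0 _ (r2 s), r8 s v hv, r9 s, map_sub, map_smul, map_smul]
    rfl
  have hder : ∀ x, |((Q (x * rot i j t) + Q (x * rot i j (-t))) + a * Q x) - (fun _ => (0 : ℝ)) x| ≤
      CT * √ σ := by
    intro x
    have w1 := hT J J1 J2 HJ A A1 hA hA1 u T c σ hσ hσ1 P i j h v hv2 hv x t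
    have e3 : ((Q (x * rot i j t) + Q (x * rot i j (-t))) + a * Q x) - (fun _ => (0 : ℝ)) x =
        T v (Hv i j) (x * rot i j t) + T v (Hv i j) (x * rot i j (-t)) -
        2 * Real.cos (2 * t) * T v (Hv i j) x := by
      show ((A v (Hv i j) (x * rot i j t) + T v (Hv i j) (x * rot i j t) -
        c * inner ℝ v (Hv i j)) + (A v (Hv i j) (x * rot i j (-t)) + T v (Hv i j) (x * rot i j (-t)) -
        c * inner ℝ v (Hv i j))) + a * (A v (Hv i j) x + T v (Hv i j) x - c * inner ℝ v (Hv i j)) -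
        0 = _
      rw [hvH, hA0, hA0, mul_neg, Real.cos_neg, Real.sin_neg, ha]
      ring
    rw [e3]
    exact w1
  have hRF0 := p6 _ _ v _ _ (fun _ => (0 : ℝ)) (((hQs t).add (hQs (-t))).add
    (continuous_const.mul hQc)) continuous_const hder hRF
  have hsσ : σ ≤ √ σ := by
    have h1 : √ σ * √ σ = σ := Real.mul_self_sqrt hσ.le
    have h2 : √ σ ≤ 1 := Real.sqrt_le_one.2 hσ1
    nlinarith [Real.sqrt_nonneg σ]
  have hs0 : 0 < √ σ := Real.sqrt_pos.2 hσ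
  have hflow : ∀ (x : SL n) (r : ℝ), |F (x * dgm (r • v)) - F x| ≤
      ((4 + CT) * √ σ) * (1 + |r|) := by
    intro x r
    have h1 := hRF0 x r
    rw [intervalIntegral.integral_zero, sub_zero] at h1
    refine h1.trans ?_
    have h2 : σ + σ + |a| * σ + CT * √ σ ≤ (4 + CT) * √ σ := by
      have h3 : |a| * σ ≤ 2 * σ := mul_le_mul_of_nonneg_right ha2 hσ.le
      nlinarith
    exact mul_le_mul_of_nonneg_right h2 (by positivity)
  -- the oscillation
  have hosc : ∀ x y, |F x - F y| ≤ (Cm + 2) * (1 + 4 * (M * √ CE)) * √ ((4 + CT) * √ σ) := by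
    intro x y
    by_cases hσ' : (4 + CT) * √ σ ≤ 1
    · refine (hm ((4 + CT) * √ σ) (4 * (M * √ CE)) F v (by positivity) hσ' (by positivity) hFB hv1
        hflow x y).trans ?_
      have h1 : 0 ≤ (1 + 4 * (M * √ CE)) * √ ((4 + CT) * √ σ) := by positivity
      nlinarith
    · have h1 : 1 ≤ √ ((4 + CT) * √ σ) := Real.one_le_sqrt.2 (not_le.1 hσ').le
      have h2 : |F x - F y| ≤ 2 * (4 * (M * √ CE)) := by
        have h3 := hFB.bd x
        have h4 := hFB.bd y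
        have h5 := abs_sub (F x) (F y)
        linarith
      have h6 : 0 ≤ M * √ CE := by positivity
      have h7 : 2 * (4 * (M * √ CE)) ≤ (Cm + 2) * (1 + 4 * (M * √ CE)) := by nlinarith
      have h8 : (Cm + 2) * (1 + 4 * (M * √ CE)) ≤
          (Cm + 2) * (1 + 4 * (M * √ CE)) * √ ((4 + CT) * √ σ) :=
        le_mul_of_one_le_right (by positivity) h1
      linarith
  have hanti : |F (g * kk i j h) + F g| ≤ 4 * σ := by
    have com : ∀ s, kk i j h * rot i j s = rot i j s * kk i j h := by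
      intro s
      rw [← r5, ← r3, ← r3, add_comm]
    have com' : ∀ s, g * kk i j h * rot i j s = g * rot i j s * kk i j h := by
      intro s
      rw [mul_assoc, com, ← mul_assoc]
    have b1 := P.antiu i j h (g * rot i j t)
    have b2 := P.antiu i j h (g * rot i j (-t))
    have b3 := P.antiu i j h g
    have e : F (g * kk i j h) + F g =
        (u (Hv i j) (g * rot i j t * kk i j h) + u (Hv i j) (g * rot i j t)) +
        (u (Hv i j) (g * rot i j (-t) * kk i j h) + u (Hv i j) (g * rot i j (-t))) +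
        a * (u (Hv i j) (g * kk i j h) + u (Hv i j) g) := by
      show (u (Hv i j) (g * kk i j h * rot i j t) + u (Hv i j) (g * kk i j h * rot i j (-t))) +
        a * u (Hv i j) (g * kk i j h) +
        ((u (Hv i j) (g * rot i j t) + u (Hv i j) (g * rot i j (-t))) + a * u (Hv i j) g) = _
      rw [com', com']
      ring
    rw [e]
    have b4 : |a * (u (Hv i j) (g * kk i j h) + u (Hv i j) g)| ≤ 2 * σ := by
      rw [abs_mul]
      exact mul_le_mul ha2 b3 (abs_nonneg _) (by norm_num)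
    refine (abs_add_le _ _).trans ?_
    have b5 := abs_add_le (u (Hv i j) (g * rot i j t * kk i j h) + u (Hv i j) (g * rot i j t))
      (u (Hv i j) (g * rot i j (-t) * kk i j h) + u (Hv i j) (g * rot i j (-t)))
    linarith
  have hgoal : u (Hv i j) (g * rot i j t) + u (Hv i j) (g * rot i j (-t)) -
        2 * Real.cos (2 * t) * u (Hv i j) g = F g := by
    show _ = (u (Hv i j) (g * rot i j t) + u (Hv i j) (g * rot i j (-t))) + a * u (Hv i j) g
    rw [ha]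
    ring
  rw [hgoal]
  have h1 := hosc g (g * kk i j h)
  rw [Real.sqrt_mul (by linarith), D7c_quart hσ] at h1
  have h2 : |F g| ≤ |F g - F (g * kk i j h)| + |F (g * kk i j h) + F g| := by
    have e : 2 * F g = (F g - F (g * kk i j h)) + (F (g * kk i j h) + F g) := by ring
    have h3 := abs_add_le (F g - F (g * kk i j h)) (F (g * kk i j h) + F g)
    rw [← e, abs_mul, abs_two] at h3
    linarith [abs_nonneg (F g)]
  have h3 : σ ≤ σ ^ (1 / 4 : ℝ) := by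
    have h4 := Real.rpow_le_rpow_of_exponent_ge hσ hσ1 (by norm_num : (1 / 4 : ℝ) ≤ 1)
    rwa [Real.rpow_one] at h4
  have h5 : 0 ≤ σ ^ (1 / 4 : ℝ) := Real.rpow_nonneg hσ.le _
  nlinarith

end FL27
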