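import Pool.Agent.LibFL27.DefsV

set_option autoImplicit false
set_option maxSynthPendingDepth 3

open Matrix MeasureTheory Topology Filter LibNC38
open LibNC27 hiding Mt
open scoped Matrix.Norms.Elementwise

namespace FL27

/-- Row D7d. Stability of d'Alembert (LibNC27/V5, the same linear combination). -/
theorem dalembertQ (φ : ℝ → ℝ) (σ : ℝ)
    (h : ∀ s t : ℝ, |φ (s + t) + φ (s - t) - 2 * Real.cos (2 * t) * φ s| ≤ σ) (t : ℝ) :
    |φ t - (Real.cos (2 * t) * φ 0 + Real.sin (2 * t) * φ (Real.pi / 4))| ≤ 2 * σ := by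
  have h1 := h (t - Real.pi / 4) (Real.pi / 4)
  have h2 := h (Real.pi / 4) (t - Real.pi / 4)
  have h3 := h 0 (t - Real.pi / 2)
  have c1 : Real.cos (2 * (Real.pi / 4)) = 0 := by
    rw [show 2 * (Real.pi / 4) = Real.pi / 2 by ring, Real.cos_pi_div_two]
  have c2 : Real.cos (2 * (t - Real.pi / 4)) = Real.sin (2 * t) := by
    rw [show 2 * (t - Real.pi / 4) = 2 * t - Real.pi / 2 by ring, Real.cos_sub_pi_div_two]
  have c3 : Real.cos (2 * (t - Real.pi / 2)) = -Real.cos (2 * t) := by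
    rw [show 2 * (t - Real.pi / 2) = 2 * t - Real.pi by ring, Real.cos_sub_pi]
  rw [c1, show t - Real.pi / 4 + Real.pi / 4 = t by ring,
    show t - Real.pi / 4 - Real.pi / 4 = t - Real.pi / 2 by ring] at h1
  rw [c2, show Real.pi / 4 + (t - Real.pi / 4) = t by ring,
    show Real.pi / 4 - (t - Real.pi / 4) = 0 - (t - Real.pi / 2) by ring] at h2
  rw [c3, zero_add] at h3
  have h0 : 0 ≤ σ := (abs_nonneg _).trans h1
  rw [abs_le] at h1 h2 h3 ⊢
  obtain ⟨a1, b1⟩ := h1
  obtain ⟨a2, b2⟩ := h2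
  obtain ⟨a3, b3⟩ := h3
  constructor <;> linarith

end FL27
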