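import Pool.Agent.LibFL27.DefsV

set_option autoImplicit false
set_option maxSynthPendingDepth 3

open Matrix MeasureTheory Topology Filter LibNC38
open LibNC27 hiding Mt
open scoped Matrix.Norms.Elementwise

namespace FL27

private theorem D7e_rot_mul {n : ℕ} (i j : Fin n) (h : i ≠ j) (t : ℝ) (m : Mt n) (x y : Fin n) :
    (rotM i j t * m) x y = if x = i then Real.cos t * m i y + Real.sin t * m j y
      else if x = j then - Real.sin t * m i y + Real.cos t * m j y else m x y := by
  rw [Matrix.mul_apply]
  unfold rotM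
  by_cases hi : x = i
  · simp only [hi, if_true]
    have e : ∀ z : Fin n, (if z = i then Real.cos t else if z = j then Real.sin t else 0) * m z y =
        (if z = i then Real.cos t * m z y else 0) + (if z = j then Real.sin t * m z y else 0) := by
      intro z
      by_cases h1 : z = i
      · subst h1
        simp [h]
      · by_cases h2 : z = j
        · subst h2
          simp [h1]
        · simp [h1, h2]
    rw [Finset.sum_congr rfl fun z _ => e z, Finset.sum_add_distrib, Finset.sum_ite_eq',
      Finset.sum_ite_eq']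
    simp
  · by_cases hj : x = j
    · subst hj
      simp only [hi, if_true, if_false]
      have e : ∀ z : Fin n, (if z = x then Real.cos t else if z = i then - Real.sin t else 0) *
          m z y = (if z = x then Real.cos t * m z y else 0) +
            (if z = i then - Real.sin t * m z y else 0) := by
        intro z
        by_cases h1 : z = x
        · subst h1
          simp [hi]
        · by_cases h2 : z = i
          · subst h2
            simp [h1]
          · simp [h1, h2]
      rw [Finset.sum_congr rfl fun z _ => e z, Finset.sum_add_distrib, Finset.sum_ite_eq',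
        Finset.sum_ite_eq']
      simp only [Finset.mem_univ, if_true]
      ring
    · simp only [hi, hj, if_false]
      have e : ∀ z : Fin n, (if x = z then (1 : ℝ) else 0) * m z y =
          if x = z then m z y else 0 := by
        intro z
        split_ifs <;> simp
      rw [Finset.sum_congr rfl fun z _ => e z, Finset.sum_ite_eq]
      simp

private theorem D7e_ort_mul {n : ℕ} {a b : SL n} (ha : Ort a) (hb : Ort b) : Ort (a * b) := by
  unfold Ort at *
  have e : (a * b).1 = a.1 * b.1 := rfl
  rw [e, Matrix.transpose_mul, Matrix.mul_assoc, ← Matrix.mul_assoc b.1, hb, Matrix.one_mul, ha]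

private theorem D7e_ort_inv {n : ℕ} {a : SL n} (ha : Ort a) : (a⁻¹).1 = a.1ᵀ := by
  have h1 : (a⁻¹ * a).1 = (1 : SL n).1 := by rw [inv_mul_cancel]
  have h2 : (a⁻¹).1 * a.1 = 1 := h1
  calc (a⁻¹).1 = (a⁻¹).1 * (a.1 * a.1ᵀ) := by rw [ha, Matrix.mul_one]
    _ = a.1ᵀ := by rw [← Matrix.mul_assoc, h2, Matrix.one_mul]

private theorem D7e_ort_inv' {n : ℕ} {a : SL n} (ha : Ort a) : Ort a⁻¹ := by
  unfold Ort
  rw [D7e_ort_inv ha, Matrix.transpose_transpose]
  exact mul_eq_one_comm.1 ha

private theorem D7e_clear {n : ℕ} (G : ℕ → SL n → Prop)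
    (hmul : ∀ p r a b, G p a → G r b → G (p + r) (a * b))
    (hone : G 0 1) (S : Finset (Fin n))
    (hrot : ∀ i j, i ∉ S → j ∉ S → i ≠ j → ∀ t, G 1 (rot i j t)) (m : SL n)
    (hS : ∀ c ∈ S, ∀ x, m.1 x c = if x = c then 1 else 0) (a : Fin n) (ha : a ∉ S)
    (B : Finset (Fin n)) : (∀ b ∈ B, b ∉ S ∧ b ≠ a) →
    ∃ g, G B.card g ∧ Ort g ∧ (∀ c ∈ S, ∀ x, (g * m).1 x c = if x = c then 1 else 0) ∧
      (∀ b ∈ B, (g * m).1 b a = 0) ∧ (B.Nonempty → 0 ≤ (g * m).1 a a) := by
  induction B using Finset.induction_on with
  | empty =>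
    intro _
    refine ⟨1, hone, ?_, ?_, by simp, fun h => absurd h (by simp)⟩
    · unfold Ort
      have e : (1 : SL n).1 = (1 : Mt n) := rfl
      rw [e]
      simp
    · rw [one_mul]
      exact hS
  | insert b B hbB ih =>
    intro hB
    obtain ⟨g, hg, hgo, h1, h2, _⟩ := ih fun x hx => hB x (Finset.mem_insert_of_mem hx)
    obtain ⟨hbS, hba⟩ := hB b (Finset.mem_insert_self _ _)
    set M := g * m with hM
    let z : ℂ := ⟨M.1 a a, M.1 b a⟩
    let t := Complex.arg z
    have hc : ‖z‖ * Real.cos t = M.1 a a := Complex.norm_mul_cos_arg z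
    have hs : ‖z‖ * Real.sin t = M.1 b a := Complex.norm_mul_sin_arg z
    have hab : a ≠ b := hba.symm
    obtain ⟨hr1, hr2, _⟩ := rot_facts a b hab
    have hent : ∀ x y, (rot a b t * g * m).1 x y =
        if x = a then Real.cos t * M.1 a y + Real.sin t * M.1 b y
        else if x = b then - Real.sin t * M.1 a y + Real.cos t * M.1 b y else M.1 x y := by
      intro x y
      have e : (rot a b t * g * m).1 = (rot a b t).1 * M.1 := by
        rw [mul_assoc]
        rfl
      rw [e, hr1, D7e_rot_mul a b hab]
    have hcd : (insert b B).card = 1 + B.card := by rw [Finset.card_insert_of_notMem hbB, add_comm]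
    refine ⟨rot a b t * g, hcd ▸ hmul _ _ _ _ (hrot a b ha hbS hab t) hg, D7e_ort_mul (hr2 t) hgo, ?_, ?_, ?_⟩
    · intro c hc x
      have hca : a ≠ c := fun h => ha (h ▸ hc)
      have hcb : b ≠ c := fun h => hbS (h ▸ hc)
      rw [hent, h1 c hc a, h1 c hc b, h1 c hc x, if_neg hca, if_neg hcb]
      by_cases hxa : x = a
      · rw [if_pos hxa, hxa, if_neg hca]
        ring
      · rw [if_neg hxa]
        by_cases hxb : x = b
        · rw [if_pos hxb, hxb, if_neg hcb]
          ring
        · rw [if_neg hxb]
    · intro x hx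
      have hxa : x ≠ a := (hB x hx).2
      rw [hent, if_neg hxa]
      by_cases hxb : x = b
      · rw [if_pos hxb, ← hc, ← hs]
        ring
      · rw [if_neg hxb]
        exact h2 x ((Finset.mem_insert.1 hx).resolve_left hxb)
    · intro _
      rw [hent, if_pos rfl, ← hc, ← hs]
      have e : Real.cos t * (‖z‖ * Real.cos t) + Real.sin t * (‖z‖ * Real.sin t) =
          ‖z‖ * (Real.cos t ^ 2 + Real.sin t ^ 2) := by ring
      rw [e, Real.cos_sq_add_sin_sq, mul_one]
      exact norm_nonneg z

private theorem D7e_gen {n : ℕ} (G : ℕ → SL n → Prop)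
    (hmono : ∀ p r a, p ≤ r → G p a → G r a)
    (hmul : ∀ p r a b, G p a → G r b → G (p + r) (a * b))
    (hone : G 0 1) (hinv : ∀ p a, G p a → G p a⁻¹) (l : Fin n)
    (hrot : ∀ i j, i ≠ l → j ≠ l → i ≠ j → ∀ t, G 1 (rot i j t)) (N : ℕ) :
    ∀ S : Finset (Fin n), l ∈ S → (Finset.univ \ S).card = N → ∀ m : SL n, Ort m →
      (∀ c ∈ S, ∀ x, m.1 x c = if x = c then 1 else 0) → G (N * n) m := by
  induction N with
  | zero =>
    intro S _ hcard m _ hS
    have h1 : Finset.univ \ S = ∅ := Finset.card_eq_zero.1 hcard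
    have hm : m = 1 := by
      apply Subtype.ext
      ext x c
      have hc : c ∈ S := by
        by_contra hc
        have : c ∈ Finset.univ \ S := by simp [hc]
        rw [h1] at this
        simp at this
      rw [hS c hc x]
      have e : (1 : SL n).1 = (1 : Mt n) := rfl
      rw [e, Matrix.one_apply]
    rw [hm, Nat.zero_mul]
    exact hone
  | succ N ih =>
    intro S hl hcard m hm hS
    have hne : (Finset.univ \ S).Nonempty := by
      rw [← Finset.card_pos, hcard]
      exact Nat.succ_pos N
    obtain ⟨a, ha⟩ := hne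
    have haS : a ∉ S := by simpa using ha
    have hrot' : ∀ i j, i ∉ S → j ∉ S → i ≠ j → ∀ t, G 1 (rot i j t) := by
      intro i j hi hj hij t
      exact hrot i j (fun h => hi (h ▸ hl)) (fun h => hj (h ▸ hl)) hij t
    obtain ⟨g, hg, hgo, h1, h2, h3⟩ := D7e_clear G hmul hone S hrot' m hS a haS
      (Finset.univ \ insert a S) (fun b hb => by
        simp only [Finset.mem_sdiff, Finset.mem_univ, true_and, Finset.mem_insert, not_or] at hb
        exact ⟨hb.2, hb.1⟩)
    set M := g * m with hM
    have hMo : Ort M := D7e_ort_mul hgo hm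
    have hMt : M.1ᵀ * M.1 = 1 := mul_eq_one_comm.1 hMo
    have hcol : ∀ x, x ≠ a → M.1 x a = 0 := by
      intro x hx
      by_cases hxS : x ∈ S
      · have h4 := congrFun (congrFun hMt x) a
        rw [Matrix.one_apply_ne hx, Matrix.mul_apply] at h4
        simp only [Matrix.transpose_apply] at h4
        rw [Finset.sum_congr rfl fun y _ => by rw [h1 x hxS y]] at h4
        simpa using h4
      · exact h2 x (by simp [hx, hxS])
    have hsq : M.1 a a * M.1 a a = 1 := by
      have h4 := congrFun (congrFun hMt a) a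
      rw [Matrix.one_apply_eq, Matrix.mul_apply] at h4
      simp only [Matrix.transpose_apply] at h4
      rw [Finset.sum_eq_single a (fun x _ hx => by rw [hcol x hx, mul_zero])
        (fun h => absurd (Finset.mem_univ _) h)] at h4
      exact h4
    have haa : M.1 a a = 1 := by
      by_cases hB : (Finset.univ \ insert a S).Nonempty
      · have h5 := h3 hB
        nlinarith
      · rw [Finset.not_nonempty_iff_eq_empty] at hB
        have hall : ∀ c, c ≠ a → c ∈ S := by
          intro c hc
          by_contra hcS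
          have : c ∈ Finset.univ \ insert a S := by simp [hc, hcS]
          rw [hB] at this
          simp at this
        have hdiag : M.1 = Matrix.diagonal fun x => if x = a then M.1 a a else 1 := by
          ext x c
          rw [Matrix.diagonal_apply]
          by_cases hca : c = a
          · subst hca
            by_cases hx : x = c
            · subst hx
              simp
            · rw [hcol x hx, if_neg hx]
          · rw [h1 c (hall c hca) x]
            by_cases hx : x = c
            · rw [if_pos hx, if_pos hx, if_neg (hx ▸ hca)]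
            · rw [if_neg hx, if_neg hx]
        have hdet := M.2
        rw [hdiag, Matrix.det_diagonal, Finset.prod_ite_eq'] at hdet
        simpa using hdet
    have hcard' : (Finset.univ \ insert a S).card = N := by
      have e : Finset.univ \ insert a S = (Finset.univ \ S).erase a := by
        ext x
        simp only [Finset.mem_sdiff, Finset.mem_univ, true_and, Finset.mem_insert, not_or,
          Finset.mem_erase]
      rw [e, Finset.card_erase_of_mem ha, hcard]
      rfl
    have hGM : G (N * n) M := by
      refine ih (insert a S) (Finset.mem_insert_of_mem hl) hcard' M hMo ?_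
      intro c hc x
      rcases Finset.mem_insert.1 hc with h | h
      · subst h
        by_cases hx : x = c
        · rw [if_pos hx, hx, haa]
        · rw [if_neg hx, hcol x hx]
      · exact h1 c h x
    have hfin := hmul _ _ _ _ (hinv _ g hg) hGM
    rw [hM, inv_mul_cancel_left] at hfin
    refine hmono _ _ _ ?_ hfin
    have hcn : (Finset.univ \ insert a S).card ≤ n := by
      have := Finset.card_le_univ (Finset.univ \ insert a S)
      rwa [Fintype.card_fin] at this
    calc (Finset.univ \ insert a S).card + N * n ≤ n + N * n := Nat.add_le_add_right hcn _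
      _ = (N + 1) * n := by ring

/-- Row D7e. Stability of LibNC27/V6 (`stab`): every matrix of the stabilizer is a product of at most
`N = N(n)` rotations (write V6_clear, V6_gen with the number of factors). -/
theorem stabQ (n : ℕ) : ∃ C : ℝ, 0 < C ∧ ∀ (l : Fin n) (f : Fn n) (σ : ℝ), 0 ≤ σ →
    (∀ i j : Fin n, i ≠ l → j ≠ l → i ≠ j → ∀ k, Ort k → ∀ t, |f (k * rot i j t) - f k| ≤ σ) →
    ∀ k k' : SL n, Ort k → Ort k' → (∀ a, k.1 a l = k'.1 a l) → |f k - f k'| ≤ C * σ := by
  refine ⟨(n : ℝ) * n + 1, by positivity, ?_⟩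
  intro l f σ hσ hf k k' hk hk' h
  have hG := D7e_gen (fun p (m : SL n) => Ort m ∧ ∀ q : SL n, Ort q → |f (q * m) - f q| ≤ p * σ)
    ?_ ?_ ?_ ?_ l ?_ _
    {l} (Finset.mem_singleton_self l) rfl (k⁻¹ * k') (D7e_ort_mul (D7e_ort_inv' hk) hk') ?_
  · have h1 := hG.2 k hk
    rw [mul_inv_cancel_left, abs_sub_comm] at h1
    refine h1.trans (mul_le_mul_of_nonneg_right ?_ hσ)
    have h2 : (Finset.univ \ {l} : Finset (Fin n)).card ≤ n := by
      have := Finset.card_le_univ (Finset.univ \ {l} : Finset (Fin n))
      rwa [Fintype.card_fin] at this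
    have h3 : (Finset.univ \ {l} : Finset (Fin n)).card * n ≤ n * n := Nat.mul_le_mul_right n h2
    have h4 : (((Finset.univ \ {l} : Finset (Fin n)).card * n : ℕ) : ℝ) ≤ ((n * n : ℕ) : ℝ) :=
      Nat.cast_le.2 h3
    rw [Nat.cast_mul n n] at h4
    linarith
  · rintro p r a hpr ⟨ha, ha'⟩
    refine ⟨ha, fun q hq => (ha' q hq).trans ?_⟩
    exact mul_le_mul_of_nonneg_right (Nat.cast_le.2 hpr) hσ
  · rintro p r a b ⟨ha, ha'⟩ ⟨hb, hb'⟩
    refine ⟨D7e_ort_mul ha hb, fun q hq => ?_⟩
    have h1 := hb' _ (D7e_ort_mul hq ha)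
    have h2 := ha' q hq
    rw [mul_assoc] at h1
    have h3 : f (q * (a * b)) - f q = (f (q * (a * b)) - f (q * a)) + (f (q * a) - f q) := by ring
    rw [h3, Nat.cast_add]
    refine (abs_add_le _ _).trans ?_
    linarith
  · refine ⟨?_, fun q _ => by rw [mul_one, sub_self, abs_zero]; simp⟩
    unfold Ort
    have e : (1 : SL n).1 = (1 : Mt n) := rfl
    rw [e]
    simp
  · rintro p a ⟨ha, ha'⟩
    refine ⟨D7e_ort_inv' ha, fun q hq => ?_⟩
    have h1 := ha' (q * a⁻¹) (D7e_ort_mul hq (D7e_ort_inv' ha))
    rw [inv_mul_cancel_right, abs_sub_comm] at h1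
    exact h1
  · intro i j hi hj hij t
    obtain ⟨_, hr2, _⟩ := rot_facts i j hij
    refine ⟨hr2 t, fun q hq => ?_⟩
    have h1 := hf i j hi hj hij q hq t
    rw [Nat.cast_one, one_mul]
    exact h1
  · intro c hc x
    rw [Finset.mem_singleton] at hc
    subst hc
    have e : (k⁻¹ * k').1 = k.1ᵀ * k'.1 := by
      have e1 : (k⁻¹ * k').1 = (k⁻¹).1 * k'.1 := rfl
      rw [e1, D7e_ort_inv hk]
    rw [e, Matrix.mul_apply]
    have h2 : (k.1ᵀ * k.1) x c = if x = c then 1 else 0 := by
      rw [mul_eq_one_comm.1 hk, Matrix.one_apply]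
    rw [← h2, Matrix.mul_apply]
    exact Finset.sum_congr rfl fun y _ => by rw [h y]

end FL27
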