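import Pool.Agent.LibFL27.DefsV

set_option autoImplicit false
set_option maxSynthPendingDepth 3

open Matrix MeasureTheory Topology Filter LibNC38
open LibNC27 hiding Mt
open scoped Matrix.Norms.Elementwise

namespace FL27

private theorem D7f_pos {n : ℕ} {w : Fin n → ℝ} (hw : w ≠ 0) : 0 < w ⬝ᵥ w := by
  have h0 : 0 ≤ w ⬝ᵥ w := by
    unfold dotProduct
    exact Finset.sum_nonneg fun i _ => mul_self_nonneg _
  rcases h0.lt_or_eq with h | h
  · exact h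
  · exact absurd (dotProduct_self_eq_zero.1 h.symm) hw

private theorem D7f_norm {n : ℕ} {w : Fin n → ℝ} (hw : w ≠ 0) :
    ((√(w ⬝ᵥ w))⁻¹ • w) ⬝ᵥ ((√(w ⬝ᵥ w))⁻¹ • w) = 1 := by
  have hp := D7f_pos hw
  have hs : √(w ⬝ᵥ w) * √(w ⬝ᵥ w) = w ⬝ᵥ w := Real.mul_self_sqrt hp.le
  have hs0 : √(w ⬝ᵥ w) ≠ 0 := (Real.sqrt_pos.2 hp).ne'
  rw [smul_dotProduct, dotProduct_smul, smul_eq_mul, smul_eq_mul]
  field_simp
  rw [pow_two, hs]

private theorem D7f_unit {n : ℕ} (hn : 2 ≤ n) (w : Fin n → ℝ) :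
    ∃ (x : Fin n → ℝ) (r : ℝ), x ⬝ᵥ x = 1 ∧ w = r • x := by
  by_cases hw : w = 0
  · refine ⟨Pi.single ⟨0, by omega⟩ 1, 0, ?_, ?_⟩
    · simp
    · rw [hw, zero_smul]
  · refine ⟨(√(w ⬝ᵥ w))⁻¹ • w, √(w ⬝ᵥ w), D7f_norm hw, ?_⟩
    rw [smul_smul, mul_inv_cancel₀ (Real.sqrt_pos.2 (D7f_pos hw)).ne', one_smul]

private theorem D7f_perp {n : ℕ} (hn : 2 ≤ n) (x : Fin n → ℝ) :
    ∃ y : Fin n → ℝ, y ⬝ᵥ y = 1 ∧ x ⬝ᵥ y = 0 := by
  have h01 : (⟨0, by omega⟩ : Fin n) ≠ ⟨1, by omega⟩ := by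
    intro h; simp at h
  set i : Fin n := ⟨0, by omega⟩
  set j : Fin n := ⟨1, by omega⟩
  by_cases h : x i = 0
  · exact ⟨Pi.single i 1, by simp, by simp [h]⟩
  · set v : Fin n → ℝ := x i • Pi.single j 1 - x j • Pi.single i 1 with hv
    have hv0 : v ≠ 0 := by
      intro h0
      have := congrFun h0 j
      simp [hv, h01.symm] at this
      exact h this
    have hxv : x ⬝ᵥ v = 0 := by
      rw [hv, dotProduct_sub, dotProduct_smul, dotProduct_smul]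
      simp [mul_comm]
    refine ⟨(√(v ⬝ᵥ v))⁻¹ • v, D7f_norm hv0, ?_⟩
    rw [dotProduct_smul, hxv, smul_zero]

private theorem D7f_plane {n : ℕ} (hn : 2 ≤ n) (z w : Fin n → ℝ) :
    ∃ (x y : Fin n → ℝ) (s t s' t' : ℝ), x ⬝ᵥ x = 1 ∧ y ⬝ᵥ y = 1 ∧ x ⬝ᵥ y = 0 ∧
      z = s • x + t • y ∧ w = s' • x + t' • y := by
  obtain ⟨x, r, hx, hz⟩ := D7f_unit hn z
  set w' : Fin n → ℝ := w - (x ⬝ᵥ w) • x with hw'
  have hxw : x ⬝ᵥ w' = 0 := by
    rw [hw', dotProduct_sub, dotProduct_smul, hx, smul_eq_mul, mul_one, sub_self]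
  by_cases h : w' = 0
  · obtain ⟨y, hy, hxy⟩ := D7f_perp hn x
    refine ⟨x, y, r, 0, x ⬝ᵥ w, 0, hx, hy, hxy, ?_, ?_⟩
    · rw [zero_smul, add_zero]; exact hz
    · rw [zero_smul, add_zero]
      rw [hw', sub_eq_zero] at h
      exact h
  · refine ⟨x, (√(w' ⬝ᵥ w'))⁻¹ • w', r, 0, x ⬝ᵥ w, √(w' ⬝ᵥ w'), hx, D7f_norm h, ?_, ?_, ?_⟩
    · rw [dotProduct_smul, hxw, smul_zero]
    · rw [zero_smul, add_zero]; exact hz
    · rw [smul_smul, mul_inv_cancel₀ (Real.sqrt_pos.2 (D7f_pos h)).ne', one_smul, hw']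
      abel

/-- the homogeneous extension -/
private noncomputable def D7f_Q {n : ℕ} (q : (Fin n → ℝ) → ℝ) (z : Fin n → ℝ) : ℝ :=
  (z ⬝ᵥ z) * q ((√(z ⬝ᵥ z))⁻¹ • z)

private theorem D7f_quad {n : ℕ} (q : (Fin n → ℝ) → ℝ) (σ : ℝ)
    (hq : ∀ x y : Fin n → ℝ, x ⬝ᵥ x = 1 → y ⬝ᵥ y = 1 → x ⬝ᵥ y = 0 →
      ∃ a b c : ℝ, ∀ t : ℝ, |q (Real.cos t • x + Real.sin t • y) -
        (a + b * Real.cos (2 * t) + c * Real.sin (2 * t))| ≤ σ)
    (x y : Fin n → ℝ) (hx : x ⬝ᵥ x = 1) (hy : y ⬝ᵥ y = 1) (hxy : x ⬝ᵥ y = 0) :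
    ∃ A B C : ℝ, ∀ s t : ℝ, |D7f_Q q (s • x + t • y) - (A * s ^ 2 + B * (s * t) + C * t ^ 2)| ≤
      σ * (s ^ 2 + t ^ 2) := by
  obtain ⟨a, b, c, h⟩ := hq x y hx hy hxy
  refine ⟨a + b, 2 * c, a - b, fun s t => ?_⟩
  have hyx : y ⬝ᵥ x = 0 := by rw [dotProduct_comm]; exact hxy
  have hdot : (s • x + t • y) ⬝ᵥ (s • x + t • y) = s ^ 2 + t ^ 2 := by
    simp only [add_dotProduct, dotProduct_add, smul_dotProduct, dotProduct_smul, smul_eq_mul,
      hx, hy, hxy, hyx]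
    ring
  unfold D7f_Q
  rw [hdot]
  by_cases h0 : s ^ 2 + t ^ 2 = 0
  · have hs : s = 0 := by nlinarith [sq_nonneg s, sq_nonneg t]
    have ht : t = 0 := by nlinarith [sq_nonneg s, sq_nonneg t]
    rw [h0, hs, ht]
    simp
  · have hpos : 0 < s ^ 2 + t ^ 2 := lt_of_le_of_ne (by positivity) (Ne.symm h0)
    set r : ℝ := √(s ^ 2 + t ^ 2) with hr
    have hr0 : 0 < r := Real.sqrt_pos.2 hpos
    have hr2 : r ^ 2 = s ^ 2 + t ^ 2 := Real.sq_sqrt hpos.le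
    set z : ℂ := ⟨s, t⟩ with hz
    have hz0 : z ≠ 0 := by
      intro h1
      have e1 : s = 0 := by have := congrArg Complex.re h1; simpa [hz] using this
      have e2 : t = 0 := by have := congrArg Complex.im h1; simpa [hz] using this
      apply h0; rw [e1, e2]; ring
    have hnz : ‖z‖ = r := by
      have h1 : ‖z‖ ^ 2 = r ^ 2 := by
        rw [← Complex.normSq_eq_norm_sq, Complex.normSq_apply, hr2]; simp only [hz]; ring
      exact (pow_left_inj₀ (norm_nonneg _) hr0.le two_ne_zero).1 h1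
    set θ : ℝ := Complex.arg z with hθ
    have hc : Real.cos θ = s / r := by
      rw [hθ, Complex.cos_arg hz0, hnz]
    have hsn : Real.sin θ = t / r := by
      rw [hθ, Complex.sin_arg, hnz]
    have hvec : r⁻¹ • (s • x + t • y) = Real.cos θ • x + Real.sin θ • y := by
      rw [smul_add, smul_smul, smul_smul, hc, hsn]
      congr 2 <;> ring
    have hθ' := h θ
    rw [← hvec, Real.cos_two_mul', Real.sin_two_mul, hc, hsn] at hθ'
    have hrne : r ≠ 0 := hr0.ne'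
    have hinv : (s ^ 2 + t ^ 2) / r ^ 2 = 1 := by rw [hr2]; exact div_self hpos.ne'
    have key : (s ^ 2 + t ^ 2) * (a + b * ((s / r) ^ 2 - (t / r) ^ 2) + c * (2 * (t / r) * (s / r)))
        = a * (s ^ 2 + t ^ 2) + ((s ^ 2 + t ^ 2) / r ^ 2) * (b * (s ^ 2 - t ^ 2) + c * (2 * t * s)) := by
      field_simp
      ring
    rw [hinv] at key
    have e : (s ^ 2 + t ^ 2) * q (r⁻¹ • (s • x + t • y)) -
        ((a + b) * s ^ 2 + 2 * c * (s * t) + (a - b) * t ^ 2) =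
        (s ^ 2 + t ^ 2) * (q (r⁻¹ • (s • x + t • y)) -
          (a + b * ((s / r) ^ 2 - (t / r) ^ 2) + c * (2 * (t / r) * (s / r)))) := by
      rw [mul_sub, key]
      ring
    rw [e, abs_mul, abs_of_pos hpos, mul_comm σ]
    exact mul_le_mul_of_nonneg_left hθ' hpos.le

private theorem D7f_key {n : ℕ} (hn : 2 ≤ n) (q : (Fin n → ℝ) → ℝ) (σ : ℝ)
    (hq : ∀ x y : Fin n → ℝ, x ⬝ᵥ x = 1 → y ⬝ᵥ y = 1 → x ⬝ᵥ y = 0 →
      ∃ a b c : ℝ, ∀ t : ℝ, |q (Real.cos t • x + Real.sin t • y) -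
        (a + b * Real.cos (2 * t) + c * Real.sin (2 * t))| ≤ σ) (z w : Fin n → ℝ) :
    ∃ α β γ : ℝ, ∀ r r' : ℝ, |D7f_Q q (r • z + r' • w) -
      (α * r ^ 2 + β * (r * r') + γ * r' ^ 2)| ≤
      σ * (r ^ 2 * (z ⬝ᵥ z) + 2 * (r * r') * (z ⬝ᵥ w) + r' ^ 2 * (w ⬝ᵥ w)) := by
  obtain ⟨x, y, s, t, s', t', hx, hy, hxy, hz, hw⟩ := D7f_plane hn z w
  obtain ⟨A, B, C, h⟩ := D7f_quad q σ hq x y hx hy hxy
  have hyx : y ⬝ᵥ x = 0 := by rw [dotProduct_comm]; exact hxy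
  refine ⟨A * s ^ 2 + B * (s * t) + C * t ^ 2,
    2 * A * s * s' + B * (s * t' + s' * t) + 2 * C * t * t',
    A * s' ^ 2 + B * (s' * t') + C * t' ^ 2, fun r r' => ?_⟩
  have e : r • z + r' • w = (r * s + r' * s') • x + (r * t + r' * t') • y := by
    rw [hz, hw, add_smul, add_smul, smul_add, smul_add, smul_smul, smul_smul, smul_smul,
      smul_smul]
    abel
  have e1 : z ⬝ᵥ z = s ^ 2 + t ^ 2 := by
    rw [hz]
    simp only [add_dotProduct, dotProduct_add, smul_dotProduct, dotProduct_smul, smul_eq_mul,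
      hx, hy, hxy, hyx]
    ring
  have e2 : z ⬝ᵥ w = s * s' + t * t' := by
    rw [hz, hw]
    simp only [add_dotProduct, dotProduct_add, smul_dotProduct, dotProduct_smul, smul_eq_mul,
      hx, hy, hxy, hyx]
    ring
  have e3 : w ⬝ᵥ w = s' ^ 2 + t' ^ 2 := by
    rw [hw]
    simp only [add_dotProduct, dotProduct_add, smul_dotProduct, dotProduct_smul, smul_eq_mul,
      hx, hy, hxy, hyx]
    ring
  have h1 := h (r * s + r' * s') (r * t + r' * t')
  have e4 : (A * s ^ 2 + B * (s * t) + C * t ^ 2) * r ^ 2 +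
      (2 * A * s * s' + B * (s * t' + s' * t) + 2 * C * t * t') * (r * r') +
      (A * s' ^ 2 + B * (s' * t') + C * t' ^ 2) * r' ^ 2 =
      A * (r * s + r' * s') ^ 2 + B * ((r * s + r' * s') * (r * t + r' * t')) +
        C * (r * t + r' * t') ^ 2 := by ring
  have e5 : σ * (r ^ 2 * (s ^ 2 + t ^ 2) + 2 * (r * r') * (s * s' + t * t') +
      r' ^ 2 * (s' ^ 2 + t' ^ 2)) =
      σ * ((r * s + r' * s') ^ 2 + (r * t + r' * t') ^ 2) := by ring
  rw [e, e1, e2, e3, e4, e5]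
  exact h1

private theorem D7f_main {n : ℕ} (Q : (Fin n → ℝ) → ℝ) (σ : ℝ) (hσ : 0 ≤ σ)
    (key : ∀ z w : Fin n → ℝ, ∃ α β γ : ℝ, ∀ r r' : ℝ, |Q (r • z + r' • w) -
      (α * r ^ 2 + β * (r * r') + γ * r' ^ 2)| ≤
      σ * (r ^ 2 * (z ⬝ᵥ z) + 2 * (r * r') * (z ⬝ᵥ w) + r' ^ 2 * (w ⬝ᵥ w)))
    (x : Fin n → ℝ) (hx : x ⬝ᵥ x = 1) :
    |(Q (x + x) - Q (x - x)) / 4 - ∑ a, x a * ∑ b, x b *
      ((Q (Pi.single b 1 + Pi.single a 1) - Q (Pi.single b 1 - Pi.single a 1)) / 4)| ≤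
      ((11 * n + 2) + n * (2 + (11 * n + 2))) * σ := by
  classical
  obtain ⟨B, hB⟩ : ∃ B : (Fin n → ℝ) → (Fin n → ℝ) → ℝ,
      ∀ z w, B z w = (Q (z + w) - Q (z - w)) / 4 := ⟨_, fun _ _ => rfl⟩
  have dp : ∀ z w : Fin n → ℝ, (z + w) ⬝ᵥ (z + w) = z ⬝ᵥ z + 2 * (z ⬝ᵥ w) + w ⬝ᵥ w := by
    intro z w
    rw [add_dotProduct, dotProduct_add, dotProduct_add, dotProduct_comm w z]
    ring
  have dm : ∀ z w : Fin n → ℝ, (z - w) ⬝ᵥ (z - w) = z ⬝ᵥ z - 2 * (z ⬝ᵥ w) + w ⬝ᵥ w := by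
    intro z w
    rw [sub_dotProduct, dotProduct_sub, dotProduct_sub, dotProduct_comm w z]
    ring
  have dn : ∀ z : Fin n → ℝ, 0 ≤ z ⬝ᵥ z := by
    intro z
    unfold dotProduct
    exact Finset.sum_nonneg fun i _ => mul_self_nonneg _
  -- parallelogram
  have par : ∀ z w : Fin n → ℝ, |Q (z + w) + Q (z - w) - 2 * Q z - 2 * Q w| ≤
      4 * σ * (z ⬝ᵥ z + w ⬝ᵥ w) := by
    intro z w
    obtain ⟨α, β, γ, h⟩ := key z w
    have h1 := h 1 1
    have h2 := h 1 (-1)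
    have h3 := h 1 0
    have h4 := h 0 1
    rw [one_smul, one_smul] at h1
    rw [one_smul, neg_one_smul, ← sub_eq_add_neg] at h2
    rw [one_smul, zero_smul, add_zero] at h3
    rw [one_smul, zero_smul, zero_add] at h4
    rw [abs_le] at h1 h2 h3 h4 ⊢
    constructor <;> linarith [h1.1, h1.2, h2.1, h2.2, h3.1, h3.2, h4.1, h4.2]
  -- homogeneity in the first argument
  have hom : ∀ (r : ℝ) (z w : Fin n → ℝ), |r| ≤ 1 → z ⬝ᵥ z ≤ 1 → w ⬝ᵥ w ≤ 1 →
      |B (r • z) w - r * B z w| ≤ 2 * σ := by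
    intro r z w hr hz hw
    obtain ⟨α, β, γ, h⟩ := key z w
    have h1 := h r 1
    have h2 := h r (-1)
    have h3 := h 1 1
    have h4 := h 1 (-1)
    rw [one_smul] at h1
    rw [neg_one_smul, ← sub_eq_add_neg] at h2
    rw [one_smul, one_smul] at h3
    rw [one_smul, neg_one_smul, ← sub_eq_add_neg] at h4
    have h5 : |r * ((Q (z + w) - (α * 1 ^ 2 + β * (1 * 1) + γ * 1 ^ 2)) -
        (Q (z - w) - (α * 1 ^ 2 + β * (1 * -1) + γ * (-1) ^ 2)))| ≤
        σ * (2 * (z ⬝ᵥ z) + 2 * (w ⬝ᵥ w)) := by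
      rw [abs_mul]
      have h6 : |(Q (z + w) - (α * 1 ^ 2 + β * (1 * 1) + γ * 1 ^ 2)) -
        (Q (z - w) - (α * 1 ^ 2 + β * (1 * -1) + γ * (-1) ^ 2))| ≤
          σ * (2 * (z ⬝ᵥ z) + 2 * (w ⬝ᵥ w)) := by
        rw [abs_le] at h3 h4 ⊢
        constructor <;> linarith [h3.1, h3.2, h4.1, h4.2]
      exact (mul_le_of_le_one_left (abs_nonneg _) hr).trans h6
    have hr2 : r ^ 2 ≤ 1 := by
      rw [← sq_abs]
      exact pow_le_one₀ (abs_nonneg _) hr
    have n1 : σ * (z ⬝ᵥ z) ≤ σ := mul_le_of_le_one_right hσ hz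
    have n2 : σ * (w ⬝ᵥ w) ≤ σ := mul_le_of_le_one_right hσ hw
    have n3 : σ * (r ^ 2 * (z ⬝ᵥ z)) ≤ σ :=
      mul_le_of_le_one_right hσ (mul_le_one₀ hr2 (dn z) hz)
    rw [hB, hB]
    rw [abs_le] at h1 h2 h5 ⊢
    constructor <;> linarith [h1.1, h1.2, h2.1, h2.2, h5.1, h5.2]
  -- additivity in the first argument
  have add : ∀ z z' w : Fin n → ℝ, z ⬝ᵥ z ≤ 1 → z' ⬝ᵥ z' ≤ 1 → w ⬝ᵥ w ≤ 1 →
      |B (z + z') w - B z w - B z' w| ≤ 9 * σ := by
    intro z z' w hz hz' hw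
    have p1 := par (z + w) (z' + w)
    have p2 := par (z - w) (z' - w)
    have e1 : z + w + (z' + w) = (z + z') + (2 : ℝ) • w := by rw [two_smul]; abel
    have e2 : z + w - (z' + w) = z - z' := by abel
    have e3 : z - w + (z' - w) = (z + z') - (2 : ℝ) • w := by rw [two_smul]; abel
    have e4 : z - w - (z' - w) = z - z' := by abel
    rw [e1, e2, dp, dp] at p1
    rw [e3, e4, dm, dm] at p2
    obtain ⟨α, β, γ, h⟩ := key (z + z') w
    have h1 := h 1 2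
    have h2 := h 1 (-2)
    have h3 := h 1 1
    have h4 := h 1 (-1)
    rw [one_smul] at h1
    rw [one_smul, neg_smul, ← sub_eq_add_neg] at h2
    rw [one_smul, one_smul] at h3
    rw [one_smul, neg_one_smul, ← sub_eq_add_neg] at h4
    have n0 : (z + z') ⬝ᵥ (z + z') ≤ 4 := by
      have a1 := dp z z'
      have a2 := dm z z'
      have a3 := dn (z - z')
      linarith
    have n1 : σ * (z ⬝ᵥ z) ≤ σ := mul_le_of_le_one_right hσ hz
    have n2 : σ * (z' ⬝ᵥ z') ≤ σ := mul_le_of_le_one_right hσ hz'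
    have n3 : σ * (w ⬝ᵥ w) ≤ σ := mul_le_of_le_one_right hσ hw
    have n4 : σ * ((z + z') ⬝ᵥ (z + z')) ≤ σ * 4 := mul_le_mul_of_nonneg_left n0 hσ
    rw [hB, hB, hB]
    rw [abs_le] at p1 p2 h1 h2 h3 h4 ⊢
    constructor <;> linarith [p1.1, p1.2, p2.1, p2.2, h1.1, h1.2, h2.1, h2.2, h3.1, h3.2,
      h4.1, h4.2]
  -- symmetry
  have sym : ∀ z w : Fin n → ℝ, z ⬝ᵥ z ≤ 1 → w ⬝ᵥ w ≤ 1 → |B z w - B w z| ≤ 2 * σ := by
    intro z w hz hw
    obtain ⟨α, β, γ, h⟩ := key z w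
    have h1 := h 1 (-1)
    have h2 := h (-1) 1
    have e1 : (1 : ℝ) • z + (-1 : ℝ) • w = z - w := by
      rw [one_smul, neg_one_smul, ← sub_eq_add_neg]
    have e2 : (-1 : ℝ) • z + (1 : ℝ) • w = w - z := by
      rw [one_smul, neg_one_smul, neg_add_eq_sub]
    rw [e1] at h1
    rw [e2] at h2
    have n0 : z ⬝ᵥ z - 2 * (z ⬝ᵥ w) + w ⬝ᵥ w ≤ 4 := by
      have a1 := dp z w
      have a3 := dn (z + w)
      linarith
    have n4 := mul_le_mul_of_nonneg_left n0 hσ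
    rw [hB, hB, add_comm w z]
    rw [abs_le] at h1 h2 ⊢
    constructor <;> linarith [h1.1, h1.2, h2.1, h2.2]
  have hxa : ∀ a, |x a| ≤ 1 := by
    intro a
    have h1 : x a * x a ≤ x ⬝ᵥ x := by
      unfold dotProduct
      exact Finset.single_le_sum (f := fun i => x i * x i) (fun i _ => mul_self_nonneg _)
        (Finset.mem_univ a)
    rw [hx] at h1
    rw [abs_le]
    constructor <;> nlinarith
  have he : ∀ a : Fin n, (Pi.single a 1 : Fin n → ℝ) ⬝ᵥ Pi.single a 1 ≤ 1 := by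
    intro a
    simp
  have hv : ∀ F : Finset (Fin n), (fun i => if i ∈ F then x i else 0) ⬝ᵥ
      (fun i => if i ∈ F then x i else 0) ≤ 1 := by
    intro F
    rw [← hx]
    unfold dotProduct
    refine Finset.sum_le_sum fun i _ => ?_
    by_cases hi : i ∈ F
    · simp only [hi, if_true, le_refl]
    · simp only [hi, if_false, mul_zero]
      exact mul_self_nonneg _
  -- expansion of the first argument
  have exp : ∀ (w : Fin n → ℝ), w ⬝ᵥ w ≤ 1 → ∀ F : Finset (Fin n),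
      |B (fun i => if i ∈ F then x i else 0) w - ∑ a ∈ F, x a * B (Pi.single a 1) w| ≤
        (11 * F.card + 2) * σ := by
    intro w hw F
    induction F using Finset.induction_on with
    | empty =>
      have h := hom 0 w w (by simp) hw hw
      have e : (fun i : Fin n => if i ∈ (∅ : Finset (Fin n)) then x i else 0) = (0 : ℝ) • w := by
        rw [zero_smul]
        funext i
        simp
      rw [e, Finset.sum_empty, Finset.card_empty]
      rw [zero_mul] at h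
      calc _ ≤ _ := h
        _ = _ := by push_cast; ring
    | insert a F ha ih =>
      have e : (fun i : Fin n => if i ∈ insert a F then x i else 0) =
          x a • (Pi.single a 1 : Fin n → ℝ) + fun i => if i ∈ F then x i else 0 := by
        funext i
        rw [Pi.add_apply, Pi.smul_apply, smul_eq_mul]
        by_cases hi : i = a
        · subst hi
          simp [ha]
        · simp [hi, Finset.mem_insert]
      have h1 : (x a • (Pi.single a 1 : Fin n → ℝ)) ⬝ᵥ (x a • (Pi.single a 1 : Fin n → ℝ)) ≤ 1 := by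
        rw [smul_dotProduct, dotProduct_smul, smul_eq_mul, smul_eq_mul]
        simp only [dotProduct_single, Pi.single_eq_same, mul_one]
        have := hxa a
        rw [abs_le] at this
        nlinarith [this.1, this.2]
      have h2 := add _ _ w h1 (hv F) hw
      have h3 := hom (x a) (Pi.single a 1) w (hxa a) (he a) hw
      rw [e, Finset.sum_insert ha, Finset.card_insert_of_notMem ha]
      push_cast
      rw [abs_le] at h2 h3 ih ⊢
      constructor <;> linarith [h2.1, h2.2, h3.1, h3.2, ih.1, ih.2]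
  have hexp : ∀ w : Fin n → ℝ, w ⬝ᵥ w ≤ 1 → |B x w - ∑ a, x a * B (Pi.single a 1) w| ≤
      (11 * n + 2) * σ := by
    intro w hw
    have h := exp w hw Finset.univ
    have e : (fun i : Fin n => if i ∈ (Finset.univ : Finset (Fin n)) then x i else 0) = x := by
      funext i
      simp
    rw [e, Finset.card_univ, Fintype.card_fin] at h
    exact h
  have h1 := hexp x hx.le
  have h2 : |∑ a, x a * B (Pi.single a 1) x - ∑ a, x a * ∑ b, x b *
      B (Pi.single b 1) (Pi.single a 1)| ≤ n * (2 + (11 * n + 2)) * σ := by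
    rw [← Finset.sum_sub_distrib]
    refine (Finset.abs_sum_le_sum_abs _ _).trans ?_
    have h3 : ∀ a ∈ (Finset.univ : Finset (Fin n)), |x a * B (Pi.single a 1) x - x a * ∑ b, x b *
        B (Pi.single b 1) (Pi.single a 1)| ≤ (2 + (11 * n + 2)) * σ := by
      intro a _
      rw [← mul_sub, abs_mul]
      have h4 := sym (Pi.single a 1) x (he a) hx.le
      have h5 := hexp (Pi.single a 1) (he a)
      have h6 : |B (Pi.single a 1) x - ∑ b, x b * B (Pi.single b 1) (Pi.single a 1)| ≤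
          (2 + (11 * n + 2)) * σ := by
        rw [abs_le] at h4 h5 ⊢
        constructor <;> linarith [h4.1, h4.2, h5.1, h5.2]
      exact (mul_le_of_le_one_left (abs_nonneg _) (hxa a)).trans h6
    refine (Finset.sum_le_sum h3).trans ?_
    rw [Finset.sum_const, Finset.card_univ, Fintype.card_fin, nsmul_eq_mul]
    linarith
  simp only [← hB]
  rw [abs_le] at h1 h2 ⊢
  constructor <;> linarith [h1.1, h1.2, h2.1, h2.2]

private theorem D7f_two {n : ℕ} (q : (Fin n → ℝ) → ℝ) (x : Fin n → ℝ) (hx : x ⬝ᵥ x = 1) :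
    (D7f_Q q (x + x) - D7f_Q q (x - x)) / 4 = q x := by
  have h4 : √(4 : ℝ) = 2 := by
    rw [show (4 : ℝ) = 2 ^ 2 by norm_num]
    exact Real.sqrt_sq (by norm_num)
  have e1 : (x + x) ⬝ᵥ (x + x) = 4 := by
    rw [add_dotProduct, dotProduct_add, hx]
    norm_num
  have e2 : (2 : ℝ)⁻¹ • (x + x) = x := by
    rw [← two_smul ℝ x, smul_smul]
    norm_num
  unfold D7f_Q
  rw [e1, h4, e2, sub_self, zero_dotProduct, zero_mul]
  ring

private theorem D7f_Sq {n : ℕ} (q : (Fin n → ℝ) → ℝ) (a b : Fin n) :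
    Sq q a b = (D7f_Q q (Pi.single a 1 + Pi.single b 1) -
      D7f_Q q (Pi.single a 1 - Pi.single b 1)) / 4 := by
  unfold Sq
  by_cases h : a = b
  · subst h
    rw [if_pos rfl, D7f_two q _ (by simp)]
  · rw [if_neg h]
    have h' : b ≠ a := fun e => h e.symm
    have s1 : (Pi.single b 1 : Fin n → ℝ) a = 0 := Pi.single_eq_of_ne h 1
    have s2 : (Pi.single a 1 : Fin n → ℝ) b = 0 := Pi.single_eq_of_ne h' 1
    have e1 : ((Pi.single a 1 : Fin n → ℝ) + Pi.single b 1) ⬝ᵥ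
        ((Pi.single a 1 : Fin n → ℝ) + Pi.single b 1) = 2 := by
      simp only [dotProduct_add, dotProduct_single, Pi.add_apply, Pi.single_eq_same, s1, s2,
        mul_one]
      norm_num
    have e2 : ((Pi.single a 1 : Fin n → ℝ) - Pi.single b 1) ⬝ᵥ
        ((Pi.single a 1 : Fin n → ℝ) - Pi.single b 1) = 2 := by
      simp only [dotProduct_sub, dotProduct_single, Pi.sub_apply, Pi.single_eq_same, s1, s2,
        mul_one]
      norm_num
    unfold D7f_Q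
    rw [e1, e2]
    ring

/-- Row D7f. Stability of Jordan - von Neumann (LibNC27/V8): `Q z = |z|² q (z/|z|)` is quadratic on every plane
up to `σ (s² + t²)`; so `B z w = (Q (z + w) - Q (z - w)) / 4` is bilinear up to `C σ` for `z, w` bounded and
scalars in `[-1, 1]`, and `Q x ≈ ∑ x_a x_b B e_a e_b`, `B e_a e_b = Sq q a b` (a ≠ b, exactly),
`B e_a e_a = Q (2 e_a)/4 = q e_a`. -/
theorem sphere_quadQ {n : ℕ} (hn : 2 ≤ n) : ∃ C : ℝ, 0 < C ∧ ∀ (q : (Fin n → ℝ) → ℝ) (σ : ℝ), 0 ≤ σ →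
    (∀ x y : Fin n → ℝ, x ⬝ᵥ x = 1 → y ⬝ᵥ y = 1 → x ⬝ᵥ y = 0 →
      ∃ a b c : ℝ, ∀ t : ℝ, |q (Real.cos t • x + Real.sin t • y) -
        (a + b * Real.cos (2 * t) + c * Real.sin (2 * t))| ≤ σ) →
    ∀ x : Fin n → ℝ, x ⬝ᵥ x = 1 → |q x - x ⬝ᵥ (Sq q *ᵥ x)| ≤ C * σ := by
  refine ⟨(11 * n + 2) + n * (2 + (11 * n + 2)), by positivity, ?_⟩
  intro q σ hσ hq x hx
  have h := D7f_main (D7f_Q q) σ hσ (D7f_key hn q σ hq) x hx
  rw [D7f_two q x hx] at h
  have e : x ⬝ᵥ (Sq q *ᵥ x) = ∑ a, x a * ∑ b, x b *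
      ((D7f_Q q (Pi.single b 1 + Pi.single a 1) - D7f_Q q (Pi.single b 1 - Pi.single a 1)) / 4) := by
    simp only [← D7f_Sq]
    simp only [dotProduct, mulVec, Finset.mul_sum]
    rw [Finset.sum_comm]
    refine Finset.sum_congr rfl fun a _ => Finset.sum_congr rfl fun b _ => ?_
    ring
  rw [e]
  exact h

end FL27
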