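import Pool.Agent.LibFL27.D7e
import Pool.Agent.LibFL27.D7f

set_option autoImplicit false
set_option maxSynthPendingDepth 3

open Matrix MeasureTheory Topology Filter LibNC38
open LibNC27 hiding Mt
open scoped Matrix.Norms.Elementwise

namespace FL27

private theorem D7g_col {n : ℕ} (k : SL n) (hk : Ort k) (l : Fin n) :
    (fun a => k.1 a l) ⬝ᵥ (fun a => k.1 a l) = 1 := by
  have h1 : k.1ᵀ * k.1 = 1 := mul_eq_one_comm.mp hk
  have h2 : (k.1ᵀ * k.1) l l = 1 := by rw [h1, Matrix.one_apply_eq]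
  rw [Matrix.mul_apply] at h2
  exact h2

private theorem D7g_ort {n : ℕ} (k r : SL n) (hk : Ort k) (hr : Ort r) : Ort (k * r) := by
  have h0 : (k * r).1 = k.1 * r.1 := rfl
  unfold Ort at *
  rw [h0, Matrix.transpose_mul, Matrix.mul_assoc, ← Matrix.mul_assoc r.1, hr, Matrix.one_mul, hk]

private theorem D7g_rotcol {n : ℕ} (k : SL n) (l j : Fin n) (hlj : l ≠ j) (t : ℝ) (a : Fin n) :
    (k * rot l j t).1 a l = Real.cos t * k.1 a l - Real.sin t * k.1 a j := by
  have h0 : (k * rot l j t).1 = k.1 * (rot l j t).1 := rfl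
  rw [h0, (rot_facts l j hlj).1 t, Matrix.mul_apply]
  have h1 : ∀ b, k.1 a b * rotM l j t b l =
      (if b = l then k.1 a b * Real.cos t else 0) + (if b = j then k.1 a b * (-Real.sin t) else 0) := by
    intro b
    unfold rotM
    by_cases hb : b = l
    · subst hb
      rw [if_pos rfl, if_pos rfl, if_pos rfl, if_neg hlj, add_zero]
    · rw [if_neg hb, if_neg hb, if_neg hb, zero_add]
      by_cases hb2 : b = j
      · subst hb2
        rw [if_pos rfl, if_pos rfl, if_neg hlj, if_pos rfl]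
      · rw [if_neg hb2, if_neg hb2, mul_zero]
  rw [Finset.sum_congr rfl fun b _ => h1 b, Finset.sum_add_distrib, Finset.sum_ite_eq',
    Finset.sum_ite_eq', if_pos (Finset.mem_univ _), if_pos (Finset.mem_univ _)]
  ring

private noncomputable def D7g_vec {n : ℕ} (m : Fin n × Fin n × Bool) : Fin n → ℝ :=
  if m.1 = m.2.1 then Pi.single m.1 1
  else if m.2.2 = true then (√ 2)⁻¹ • (Pi.single m.1 1 + Pi.single m.2.1 1)
  else (√ 2)⁻¹ • (Pi.single m.1 1 - Pi.single m.2.1 1)

private theorem D7g_unit {n : ℕ} (m : Fin n × Fin n × Bool) :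
    D7g_vec m ⬝ᵥ D7g_vec m = 1 := by
  obtain ⟨a, b, s⟩ := m
  have hs : (√ (2 : ℝ))⁻¹ * ((√ 2)⁻¹ * 2) = 1 := by
    rw [← mul_assoc, ← mul_inv, Real.mul_self_sqrt (by norm_num)]
    norm_num
  unfold D7g_vec
  by_cases h : a = b
  · simp [h]
  · have h' : b ≠ a := fun e => h e.symm
    simp only [h, if_false]
    have e1 : (Pi.single a (1 : ℝ) : Fin n → ℝ) ⬝ᵥ Pi.single a 1 = 1 := by simp
    have e2 : (Pi.single b (1 : ℝ) : Fin n → ℝ) ⬝ᵥ Pi.single b 1 = 1 := by simp
    have e3 : (Pi.single a (1 : ℝ) : Fin n → ℝ) ⬝ᵥ Pi.single b 1 = 0 := by simp [h]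
    have e4 : (Pi.single b (1 : ℝ) : Fin n → ℝ) ⬝ᵥ Pi.single a 1 = 0 := by simp [h']
    cases s
    · simp only [Bool.false_eq_true, if_false]
      rw [smul_dotProduct, dotProduct_smul, sub_dotProduct, dotProduct_sub, dotProduct_sub, e1, e2,
        e3, e4, smul_eq_mul, smul_eq_mul]
      linarith [hs]
    · simp only [if_true]
      rw [smul_dotProduct, dotProduct_smul, add_dotProduct, dotProduct_add, dotProduct_add, e1, e2,
        e3, e4, smul_eq_mul, smul_eq_mul]
      linarith [hs]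

private noncomputable def D7g_wt {n : ℕ} (m : Fin n × Fin n × Bool) : ℝ :=
  if m.1 = m.2.1 then (if m.2.2 = true then 1 else 0) else (if m.2.2 = true then 1 / 2 else -(1 / 2))

/-- Row D7g. Stability of LibNC27/V9 (`frame_quad`), with a formula: `q x = f (k_x)`, `k_x` a fixed choice of
frame with column `l` equal to `x`; `ι = Fin n × Fin n × Bool` (or any finite type), `κ m = k_x` for the
vectors `x` in `Sq`, `W m` the coefficients. -/
theorem frame_quadQ {n : ℕ} (hn : 3 ≤ n) (l : Fin n) :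
    ∃ (C : ℝ) (N : ℕ) (κ : Fin N → SL n) (W : Fin N → Mt n), 0 < C ∧ (∀ m, Ort (κ m)) ∧
      ∀ (f : Fn n) (σ : ℝ), 0 ≤ σ →
      (∀ i j : Fin n, i ≠ l → j ≠ l → i ≠ j → ∀ k, Ort k → ∀ t, |f (k * rot i j t) - f k| ≤ σ) →
      (∀ j : Fin n, j ≠ l → ∀ k, Ort k → ∃ a b c : ℝ, ∀ t : ℝ, |f (k * rot l j t) -
        (a + b * Real.cos (2 * t) + c * Real.sin (2 * t))| ≤ σ) →
      ∀ k, Ort k → |f k - (fun a => k.1 a l) ⬝ᵥ
        ((∑ m, f (κ m) • W m) *ᵥ fun a => k.1 a l)| ≤ C * σ := by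
  classical
  obtain ⟨C1, hC1, hstab⟩ := stabQ n
  obtain ⟨C2, hC2, hsph⟩ := sphere_quadQ (by omega : 2 ≤ n)
  obtain ⟨ch, hch⟩ : ∃ ch : ∀ x : Fin n → ℝ, x ⬝ᵥ x = 1 → SL n,
      ∀ x hx, Ort (ch x hx) ∧ ∀ a, (ch x hx).1 a l = x a :=
    ⟨fun x hx => Classical.choose (frame_one hn l x hx),
      fun x hx => Classical.choose_spec (frame_one hn l x hx)⟩
  obtain ⟨e⟩ : Nonempty (Fin (Fintype.card (Fin n × Fin n × Bool)) ≃ (Fin n × Fin n × Bool)) :=
    ⟨(Fintype.equivFin _).symm⟩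
  refine ⟨C1 + C2 * (C1 + 1), Fintype.card (Fin n × Fin n × Bool),
    fun m => ch (D7g_vec (e m)) (D7g_unit (e m)),
    fun m => Matrix.single (e m).1 (e m).2.1 (D7g_wt (e m)), by positivity,
    fun m => (hch _ _).1, ?_⟩
  intro f σ hσ hf hf2 k hk
  obtain ⟨q, hq1⟩ : ∃ q : (Fin n → ℝ) → ℝ, ∀ x (hx : x ⬝ᵥ x = 1), q x = f (ch x hx) :=
    ⟨fun x => if hx : x ⬝ᵥ x = 1 then f (ch x hx) else 0, fun x hx => dif_pos hx⟩
  have hqf : ∀ k, Ort k → |q (fun a => k.1 a l) - f k| ≤ C1 * σ := by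
    intro k hk
    have hx := D7g_col k hk l
    rw [hq1 _ hx]
    exact hstab l f σ hσ hf _ k (hch _ hx).1 hk (hch _ hx).2
  obtain ⟨j, hj⟩ : ∃ j : Fin n, j ≠ l := by
    have : Nontrivial (Fin n) := Fin.nontrivial_iff_two_le.mpr (by omega)
    exact exists_ne l
  have hS : (∑ m, f (ch (D7g_vec (e m)) (D7g_unit (e m))) •
      (Matrix.single (e m).1 (e m).2.1 (D7g_wt (e m)) : Mt n)) = Sq q := by
    rw [Equiv.sum_comp e (fun m : Fin n × Fin n × Bool => f (ch (D7g_vec m) (D7g_unit m)) •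
      (Matrix.single m.1 m.2.1 (D7g_wt m) : Mt n))]
    ext c d
    rw [Matrix.sum_apply, Fintype.sum_prod_type, Finset.sum_eq_single c, Fintype.sum_prod_type,
      Finset.sum_eq_single d, Fintype.sum_bool]
    · rw [← hq1 _ (D7g_unit (c, d, true)), ← hq1 _ (D7g_unit (c, d, false))]
      simp only [Matrix.smul_apply, Matrix.single_apply_same, smul_eq_mul]
      unfold Sq D7g_wt D7g_vec
      by_cases h : c = d
      · subst h
        simp
      · simp only [h, if_false, if_true, Bool.false_eq_true]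
        ring
    · intro b _ hb
      refine Finset.sum_eq_zero fun s _ => ?_
      rw [Matrix.smul_apply, Matrix.single_apply, if_neg (by rintro ⟨-, h2⟩; exact hb h2), smul_zero]
    · intro h; exact absurd (Finset.mem_univ _) h
    · intro b _ hb
      refine Finset.sum_eq_zero fun s _ => ?_
      rw [Matrix.smul_apply, Matrix.single_apply, if_neg (by rintro ⟨h1, -⟩; exact hb h1), smul_zero]
    · intro h; exact absurd (Finset.mem_univ _) h
  have hmain := hsph q ((C1 + 1) * σ) (by positivity) (by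
    intro x y hx hy hxy
    obtain ⟨k, hk, hkx, hky⟩ := frame hn l j (Ne.symm hj) x (-y) hx
      (by rw [neg_dotProduct_neg]; exact hy) (by rw [dotProduct_neg, hxy, neg_zero])
    obtain ⟨a, b, c, habc⟩ := hf2 j hj k hk
    refine ⟨a, b, c, fun t => ?_⟩
    have h1 := hqf _ (D7g_ort k _ hk ((rot_facts l j (Ne.symm hj)).2.1 t))
    have h2 : (fun d => (k * rot l j t).1 d l) = Real.cos t • x + Real.sin t • y := by
      ext d
      rw [D7g_rotcol k l j (Ne.symm hj) t d, hkx, hky]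
      simp only [Pi.add_apply, Pi.smul_apply, smul_eq_mul, Pi.neg_apply]
      ring
    rw [h2] at h1
    have h3 := habc t
    have h4 := abs_sub_le (q (Real.cos t • x + Real.sin t • y)) (f (k * rot l j t))
      (a + b * Real.cos (2 * t) + c * Real.sin (2 * t))
    linarith) (fun a => k.1 a l) (D7g_col k hk l)
  rw [hS]
  have h1 := hqf k hk
  have h4 := abs_sub_le (f k) (q fun a => k.1 a l)
    ((fun a => k.1 a l) ⬝ᵥ (Sq q *ᵥ fun a => k.1 a l))
  rw [abs_sub_comm (f k) (q fun a => k.1 a l)] at h4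
  calc _ ≤ _ := h4
    _ ≤ C1 * σ + C2 * ((C1 + 1) * σ) := add_le_add h1 hmain
    _ = _ := by ring

end FL27
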