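import Pool.Agent.LibFL27.D7g

set_option autoImplicit false
set_option maxSynthPendingDepth 3

open Matrix MeasureTheory Topology Filter LibNC38
open LibNC27 hiding Mt
open scoped Matrix.Norms.Elementwise

namespace FL27

/-- the vectors `e_l - 1/n` -/
private noncomputable def D7h_el {n : ℕ} (hn : 3 ≤ n) (l : Fin n) : V0 n :=
  ⟨WithLp.toLp 2 fun a => (if a = l then (1 : ℝ) else 0) - 1 / n, by
    show ∑ a : Fin n, ((if a = l then (1 : ℝ) else 0) - 1 / n) = 0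
    have h0 : (n : ℝ) ≠ 0 := by
      have : n ≠ 0 := by omega
      exact_mod_cast this
    rw [Finset.sum_sub_distrib, Finset.sum_ite_eq', if_pos (Finset.mem_univ _), Finset.sum_const,
      Finset.card_univ, Fintype.card_fin, nsmul_eq_mul, mul_one_div_cancel h0, sub_self]⟩

private theorem D7h_el_apply {n : ℕ} (hn : 3 ≤ n) (l a : Fin n) :
    (D7h_el hn l).1 a = (if a = l then (1 : ℝ) else 0) - 1 / n := rfl

private theorem D7h_dec {n : ℕ} (hn : 3 ≤ n) (l j : Fin n) (h : l ≠ j) :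
    (D7h_el hn l - (1 / 2 : ℝ) • Hv l j).1 l = (D7h_el hn l - (1 / 2 : ℝ) • Hv l j).1 j ∧
      D7h_el hn l = (D7h_el hn l - (1 / 2 : ℝ) • Hv l j) + (1 / 2 : ℝ) • Hv l j ∧
      D7h_el hn j = (D7h_el hn l - (1 / 2 : ℝ) • Hv l j) - (1 / 2 : ℝ) • Hv l j := by
  have hH := (Hv_facts l j h).1
  have h' := h.symm
  have hj : D7h_el hn j = D7h_el hn l - Hv l j := by
    apply Subtype.ext
    ext a
    show (D7h_el hn j).1 a = (D7h_el hn l).1 a - (Hv l j).1 a
    rw [D7h_el_apply, D7h_el_apply, hH]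
    ring
  refine ⟨?_, (sub_add_cancel _ _).symm, ?_⟩
  · show (D7h_el hn l).1 l - (1 / 2 : ℝ) * (Hv l j).1 l =
      (D7h_el hn l).1 j - (1 / 2 : ℝ) * (Hv l j).1 j
    rw [D7h_el_apply, D7h_el_apply, hH, hH, if_pos rfl, if_neg h, if_neg h', if_pos rfl]
    ring
  · rw [hj, sub_sub, ← add_smul]
    norm_num

private theorem D7h_trace {n : ℕ} (S K : Mt n) (v : V0 n) :
    (S * (K * dM v * Kᵀ)).trace = ∑ l, v.1 l * ((fun a => K a l) ⬝ᵥ (S *ᵥ fun a => K a l)) := by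
  have e : S * (K * dM v * Kᵀ) = (S * K * dM v) * Kᵀ := by simp only [Matrix.mul_assoc]
  have e' : Kᵀ * (S * K * dM v) = (Kᵀ * (S * K)) * dM v := by simp only [Matrix.mul_assoc]
  rw [e, Matrix.trace_mul_comm, e', Matrix.trace]
  refine Finset.sum_congr rfl fun l _ => ?_
  rw [Matrix.diag_apply, dM, Matrix.mul_diagonal, mul_comm]
  rfl

private theorem D7h_norm {n : ℕ} (w : V0 n) : ‖w‖ ^ 2 = ∑ k, (w.1 k) ^ 2 := by
  have h1 : ‖w‖ = ‖w.1‖ := rfl
  rw [h1, EuclideanSpace.norm_eq, Real.sq_sqrt (Finset.sum_nonneg fun k _ => sq_nonneg _)]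
  refine Finset.sum_congr rfl fun k _ => ?_
  rw [Real.norm_eq_abs, sq_abs]

private theorem D7h_coord {n : ℕ} (w : V0 n) (l : Fin n) : |w.1 l| ≤ ‖w‖ := by
  have h1 := D7h_norm w
  have h2 : (w.1 l) ^ 2 ≤ ∑ k, (w.1 k) ^ 2 :=
    Finset.single_le_sum (f := fun k => (w.1 k) ^ 2) (fun k _ => sq_nonneg _) (Finset.mem_univ l)
  rw [← h1] at h2
  exact abs_le_of_sq_le_sq h2 (norm_nonneg w)

private theorem D7h_el_norm {n : ℕ} (hn : 3 ≤ n) (l : Fin n) : ‖D7h_el hn l‖ ≤ 1 := by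
  have h0 : (0 : ℝ) < n := by
    have : 0 < n := by omega
    exact_mod_cast this
  have h1 := D7h_norm (D7h_el hn l)
  have h2 : ∑ k, ((D7h_el hn l).1 k) ^ 2 = 1 - 1 / n := by
    have e : ∀ k, ((D7h_el hn l).1 k) ^ 2 =
        (if k = l then (1 - 2 / (n : ℝ)) else 0) + 1 / (n : ℝ) ^ 2 := by
      intro k
      rw [D7h_el_apply]
      by_cases hk : k = l
      · rw [if_pos hk, if_pos hk]
        field_simp
        ring
      · rw [if_neg hk, if_neg hk]
        field_simp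
        ring
    rw [Finset.sum_congr rfl fun k _ => e k, Finset.sum_add_distrib, Finset.sum_ite_eq',
      if_pos (Finset.mem_univ _), Finset.sum_const, Finset.card_univ, Fintype.card_fin,
      nsmul_eq_mul]
    field_simp
    ring
  have h3 : ‖D7h_el hn l‖ ^ 2 ≤ 1 := by
    rw [h1, h2]
    have : 0 < 1 / (n : ℝ) := by positivity
    linarith
  have h4 := norm_nonneg (D7h_el hn l)
  nlinarith

private theorem D7h_Hv_norm {n : ℕ} (i j : Fin n) (h : i ≠ j) : ‖Hv i j‖ ≤ 2 := by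
  have F := Hv_facts i j h
  have h1 : ‖Hv i j‖ ^ 2 = 2 := by
    rw [← real_inner_self_eq_norm_sq, F.2.1, F.1, F.1, if_pos rfl, if_neg h, if_neg h.symm,
      if_pos rfl]
    norm_num
  have h4 := norm_nonneg (Hv i j)
  nlinarith

private theorem D7h_nu_norm {n : ℕ} (hn : 3 ≤ n) (l j : Fin n) (h : l ≠ j) :
    ‖D7h_el hn l - (1 / 2 : ℝ) • Hv l j‖ ≤ 2 := by
  refine (norm_sub_le _ _).trans ?_
  rw [norm_smul, Real.norm_eq_abs, abs_of_pos (by norm_num : (0 : ℝ) < 1 / 2)]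
  have h1 := D7h_el_norm hn l
  have h2 := D7h_Hv_norm l j h
  linarith

/-- symmetric part of trace zero -/
private noncomputable def D7h_pr {n : ℕ} (X : Mt n) : Mt n :=
  (1 / 2 : ℝ) • (X + Xᵀ) - (X.trace / n) • (1 : Mt n)

private theorem D7h_pr_symm {n : ℕ} (X : Mt n) : (D7h_pr X)ᵀ = D7h_pr X := by
  unfold D7h_pr
  rw [Matrix.transpose_sub, Matrix.transpose_smul, Matrix.transpose_smul, Matrix.transpose_add,
    Matrix.transpose_transpose, Matrix.transpose_one, add_comm]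

private theorem D7h_pr_trace {n : ℕ} (hn : 3 ≤ n) (X : Mt n) : (D7h_pr X).trace = 0 := by
  have h0 : (n : ℝ) ≠ 0 := by
    have : n ≠ 0 := by omega
    exact_mod_cast this
  unfold D7h_pr
  rw [Matrix.trace_sub, Matrix.trace_smul, Matrix.trace_smul, Matrix.trace_add,
    Matrix.trace_transpose, Matrix.trace_one, Fintype.card_fin, smul_eq_mul, smul_eq_mul]
  field_simp
  ring

private theorem D7h_pr_mul {n : ℕ} (X A : Mt n) (hA : Aᵀ = A) (hA0 : A.trace = 0) :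
    (D7h_pr X * A).trace = (X * A).trace := by
  have h1 : (Xᵀ * A).trace = (X * A).trace := by
    rw [← Matrix.trace_transpose (Xᵀ * A), Matrix.transpose_mul, Matrix.transpose_transpose, hA,
      Matrix.trace_mul_comm]
  unfold D7h_pr
  rw [Matrix.sub_mul, Matrix.smul_mul, Matrix.smul_mul, Matrix.add_mul, Matrix.one_mul,
    Matrix.trace_sub, Matrix.trace_smul, Matrix.trace_smul, Matrix.trace_add, h1, hA0,
    smul_eq_mul, smul_eq_mul]
  ring

private theorem D7h_sym {n : ℕ} (K : Mt n) (v : V0 n) :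
    (K * dM v * Kᵀ)ᵀ = K * dM v * Kᵀ := by
  rw [Matrix.transpose_mul, Matrix.transpose_mul, Matrix.transpose_transpose, dM,
    Matrix.diagonal_transpose, Matrix.mul_assoc]

private theorem D7h_tr0 {n : ℕ} (K : Mt n) (hK : K * Kᵀ = 1) (v : V0 n) :
    (K * dM v * Kᵀ).trace = 0 := by
  have hK' : Kᵀ * K = 1 := mul_eq_one_comm.1 hK
  rw [Matrix.trace_mul_comm, ← Matrix.mul_assoc, hK', Matrix.one_mul, dM, Matrix.trace_diagonal]
  exact sum_V0 v

/-- Row D7h. Stability of LibNC27/V10 (`S_of_U`), with a formula (take `S_l` for ONE fixed `l`; the others are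
equal to it up to `C σ`; symmetrize `W m` and subtract the trace: this does not change
`tr (S k dM v kᵀ)`). `vv m = el l`. -/
theorem S_of_UQ {n : ℕ} (hn : 3 ≤ n) :
    ∃ (C : ℝ) (N : ℕ) (vv : Fin N → V0 n) (κ : Fin N → SL n) (W : Fin N → Mt n), 0 < C ∧
      (∀ m, ‖vv m‖ ≤ 2) ∧ (∀ m, Ort (κ m)) ∧ (∀ m, (W m)ᵀ = W m ∧ (W m).trace = 0) ∧
      ∀ (U : V0 n →ₗ[ℝ] Fn n) (σ : ℝ), 0 ≤ σ →
      (∀ i j : Fin n, i ≠ j → ∀ v : V0 n, ‖v‖ ≤ 2 → v.1 i = v.1 j → ∀ k, Ort k → ∀ t,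
        |U v (k * rot i j t) - U v k| ≤ σ) →
      (∀ i j : Fin n, i ≠ j → ∀ k, Ort k → ∃ a b : ℝ, ∀ t : ℝ, |U (Hv i j) (k * rot i j t) -
        (a * Real.cos (2 * t) + b * Real.sin (2 * t))| ≤ σ) →
      ∀ k, Ort k → ∀ v : V0 n, ‖v‖ ≤ 1 →
        |U v k - ((∑ m, U (vv m) (κ m) • W m) * (k.1 * dM v * k.1ᵀ)).trace| ≤ C * σ := by
  have hl0 : 0 < n := by omega
  have hn0 : (0 : ℝ) < n := by exact_mod_cast hl0
  obtain ⟨l0, -⟩ : ∃ l0 : Fin n, l0 = ⟨0, hl0⟩ := ⟨_, rfl⟩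
  obtain ⟨C0, N, κ, W0, hC0, hκ, hfq⟩ := frame_quadQ hn l0
  refine ⟨n * (2 * C0 + 2), N, fun _ => D7h_el hn l0, κ, fun m => D7h_pr (W0 m), by positivity,
    fun _ => (D7h_el_norm hn l0).trans (by norm_num), hκ,
    fun m => ⟨D7h_pr_symm _, D7h_pr_trace hn _⟩, ?_⟩
  intro U σ hσ h1 h2 k hk v hv
  have hkk : ∀ (l j : Fin n) (hlj : l ≠ j) (k : SL n), Ort k → Ort (k * kk l j hlj) := by
    intro l j hlj k hk
    have h3 := (kk_facts l j hlj).2.1
    show (k.1 * (kk l j hlj).1) * (k.1 * (kk l j hlj).1)ᵀ = 1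
    rw [Matrix.transpose_mul, Matrix.mul_assoc, ← Matrix.mul_assoc (kk l j hlj).1, h3,
      Matrix.one_mul]
    exact hk
  obtain ⟨S, hS⟩ : ∃ S : Mt n, S = ∑ m, U (D7h_el hn l0) (κ m) • W0 m := ⟨_, rfl⟩
  have hq0 : ∀ k, Ort k → |U (D7h_el hn l0) k - (fun a => k.1 a l0) ⬝ᵥ
      (S *ᵥ fun a => k.1 a l0)| ≤ C0 * (2 * σ) := by
    rw [hS]
    refine hfq (U (D7h_el hn l0)) (2 * σ) (by positivity) ?_ ?_
    · intro i j hi hj hij k hk t
      have := h1 i j hij (D7h_el hn l0) ((D7h_el_norm hn l0).trans (by norm_num)) (by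
        rw [D7h_el_apply, D7h_el_apply, if_neg hi, if_neg hj]) k hk t
      linarith
    · intro j hj k hk
      obtain ⟨hν1, hν2, -⟩ := D7h_dec hn l0 j (Ne.symm hj)
      obtain ⟨a, b, hab⟩ := h2 l0 j (Ne.symm hj) k hk
      refine ⟨U (D7h_el hn l0 - (1 / 2 : ℝ) • Hv l0 j) k, a / 2, b / 2, fun t => ?_⟩
      have e1 := h1 l0 j (Ne.symm hj) _ (D7h_nu_norm hn l0 j (Ne.symm hj)) hν1 k hk t
      have e2 := hab t
      have e3 : U (D7h_el hn l0) (k * rot l0 j t) =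
          U (D7h_el hn l0 - (1 / 2 : ℝ) • Hv l0 j) (k * rot l0 j t) +
            (1 / 2 : ℝ) * U (Hv l0 j) (k * rot l0 j t) := by
        conv_lhs => rw [hν2]
        rw [map_add, map_smul, Pi.add_apply, Pi.smul_apply, smul_eq_mul]
      rw [e3]
      rw [abs_le] at e1 e2 ⊢
      constructor <;> linarith [e1.1, e1.2, e2.1, e2.2]
  have hq : ∀ l, |U (D7h_el hn l) k - (fun a => k.1 a l) ⬝ᵥ
      (S *ᵥ fun a => k.1 a l)| ≤ (2 * C0 + 2) * σ := by
    intro l
    by_cases hl : l0 = l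
    · subst hl
      have := hq0 k hk
      linarith
    · obtain ⟨hν1, hν2, hν3⟩ := D7h_dec hn l0 l hl
      have R := rot_facts l0 l hl
      obtain ⟨a, b, hab⟩ := h2 l0 l hl k hk
      have e0 := hab 0
      rw [R.2.2.2.1, mul_one, mul_zero, Real.cos_zero, Real.sin_zero, mul_one, mul_zero,
        add_zero] at e0
      have e1 := hab (Real.pi / 2)
      rw [R.2.2.2.2.1, mul_div_cancel₀ _ (two_ne_zero' ℝ), Real.cos_pi, Real.sin_pi] at e1
      have e2 := h1 l0 l hl _ (D7h_nu_norm hn l0 l hl) hν1 k hk (Real.pi / 2)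
      rw [R.2.2.2.2.1] at e2
      have e3 : U (D7h_el hn l0) (k * kk l0 l hl) =
          U (D7h_el hn l0 - (1 / 2 : ℝ) • Hv l0 l) (k * kk l0 l hl) +
            (1 / 2 : ℝ) * U (Hv l0 l) (k * kk l0 l hl) := by
        conv_lhs => rw [hν2]
        rw [map_add, map_smul, Pi.add_apply, Pi.smul_apply, smul_eq_mul]
      have e3' : U (D7h_el hn l) k =
          U (D7h_el hn l0 - (1 / 2 : ℝ) • Hv l0 l) k - (1 / 2 : ℝ) * U (Hv l0 l) k := by
        conv_lhs => rw [hν3]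
        rw [map_sub, map_smul, Pi.sub_apply, Pi.smul_apply, smul_eq_mul]
      have e4 := hq0 _ (hkk l0 l hl k hk)
      have ecol : (fun a => (k * kk l0 l hl).1 a l0) = -(fun a => k.1 a l) := by
        funext a
        have K := (kk_facts l0 l hl).1
        show (k.1 * (kk l0 l hl).1) a l0 = -(k.1 a l)
        rw [Matrix.mul_apply, Finset.sum_eq_single l]
        · rw [K, if_neg (Ne.symm hl), if_pos rfl, if_pos rfl, mul_neg_one]
        · intro c _ hc
          rw [K]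
          by_cases hcl : c = l0
          · rw [if_pos hcl, if_neg hl, mul_zero]
          · rw [if_neg hcl, if_neg hc, if_neg hcl, mul_zero]
        · intro hc; exact absurd (Finset.mem_univ _) hc
      rw [ecol, Matrix.mulVec_neg, neg_dotProduct_neg] at e4
      rw [e3'] 
      rw [e3] at e4
      rw [abs_le] at e0 e1 e2 e4 ⊢
      constructor <;> linarith [e0.1, e0.2, e1.1, e1.2, e2.1, e2.2, e4.1, e4.2]
  have hvd : v = ∑ l, v.1 l • D7h_el hn l := by
    apply Subtype.ext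
    ext a
    have e : (∑ l, v.1 l • D7h_el hn l : V0 n).1 a = ∑ l, v.1 l * (D7h_el hn l).1 a := by
      rw [AddSubmonoidClass.coe_finsetSum]
      simp
    rw [e]
    simp only [D7h_el_apply, mul_sub, mul_ite, mul_one, mul_zero, Finset.sum_sub_distrib,
      Finset.sum_ite_eq, Finset.mem_univ, if_true]
    rw [← Finset.sum_mul, sum_V0, zero_mul, sub_zero]
  have hUv : U v k = ∑ l, v.1 l * U (D7h_el hn l) k := by
    conv_lhs => rw [hvd]
    rw [map_sum, Finset.sum_apply]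
    refine Finset.sum_congr rfl fun l _ => ?_
    rw [map_smul, Pi.smul_apply, smul_eq_mul]
  have htr : ((∑ m, U (D7h_el hn l0) (κ m) • D7h_pr (W0 m)) * (k.1 * dM v * k.1ᵀ)).trace =
      ∑ l, v.1 l * ((fun a => k.1 a l) ⬝ᵥ (S *ᵥ fun a => k.1 a l)) := by
    rw [← D7h_trace, hS, Finset.sum_mul, Finset.sum_mul, Matrix.trace_sum, Matrix.trace_sum]
    refine Finset.sum_congr rfl fun m _ => ?_
    rw [Matrix.smul_mul, Matrix.smul_mul, Matrix.trace_smul, Matrix.trace_smul,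
      D7h_pr_mul _ _ (D7h_sym _ _) (D7h_tr0 _ hk v)]
  rw [htr, hUv, ← Finset.sum_sub_distrib]
  refine (Finset.abs_sum_le_sum_abs _ _).trans ?_
  have hterm : ∀ l ∈ Finset.univ, |v.1 l * U (D7h_el hn l) k -
      v.1 l * ((fun a => k.1 a l) ⬝ᵥ (S *ᵥ fun a => k.1 a l))| ≤ (2 * C0 + 2) * σ := by
    intro l _
    rw [← mul_sub, abs_mul]
    have e1 : |v.1 l| ≤ 1 := (D7h_coord v l).trans hv
    calc |v.1 l| * _ ≤ 1 * ((2 * C0 + 2) * σ) :=
          mul_le_mul e1 (hq l) (abs_nonneg _) zero_le_one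
      _ = _ := one_mul _
  refine (Finset.sum_le_sum hterm).trans ?_
  rw [Finset.sum_const, Finset.card_univ, Fintype.card_fin, nsmul_eq_mul, mul_assoc]

end FL27
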