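import Pool.Agent.LibFL27.D7a
import Pool.Agent.LibFL27.D7c
import Pool.Agent.LibFL27.D7d
import Pool.Agent.LibFL27.D7h
import Pool.Agent.LibFL27.D0b

set_option autoImplicit false
set_option maxSynthPendingDepth 3

open Matrix MeasureTheory Topology Filter LibNC38
open LibNC27 hiding Mt
open scoped Matrix.Norms.Elementwise

namespace FL27

/-- Row D7i. (compare LibNC27/V11, V12) `S g = ∑ m, u (vv m) (g * κ m) • W m` from D7h applied to
`U v k = u v (g * k)`; D7a, D7c, D7d. -/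
theorem S_existsQ {n : ℕ} (hn : 3 ≤ n) (Γ : Subgroup (SL n)) (hc : Coc Γ) (M : ℝ) (hM : 0 ≤ M) :
    ∃ C : ℝ, 0 < C ∧ ∀ (J : Mt n →ₗ[ℝ] Mt n →ₗ[ℝ] Fn n)
      (J1 : Mt n →ₗ[ℝ] Mt n →ₗ[ℝ] Mt n →ₗ[ℝ] Fn n)
      (J2 : Mt n →ₗ[ℝ] Mt n →ₗ[ℝ] Mt n →ₗ[ℝ] Mt n →ₗ[ℝ] Fn n), Jm Γ J J1 J2 →
    ∀ (A : V0 n →ₗ[ℝ] V0 n →ₗ[ℝ] Fn n) (A1 : V0 n →ₗ[ℝ] V0 n →ₗ[ℝ] V0 n →ₗ[ℝ] Fn n),
    (∀ v w, A v w = J (dM v) (dM w)) → (∀ x v w, A1 x v w = J1 (dM x) (dM v) (dM w)) →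
    ∀ (u : V0 n →ₗ[ℝ] Fn n) (T : V0 n →ₗ[ℝ] V0 n →ₗ[ℝ] Fn n) (c σ : ℝ), 0 < σ → σ ≤ 1 →
    PotQ Γ M σ A A1 u T c → ∃ S : SL n → Mt n, (∀ g, (S g)ᵀ = S g ∧ (S g).trace = 0) ∧
      (∀ a b, Continuous fun g => S g a b) ∧ (∀ γ ∈ Γ, ∀ g, S (γ * g) = S g) ∧
      (∀ g a b, |S g a b| ≤ C) ∧ ∀ g k : SL n, Ort k → ∀ v : V0 n, ‖v‖ ≤ 1 →
        |u v (g * k) - (S g * (k.1 * dM v * k.1ᵀ)).trace| ≤ C * σ ^ (1 / 4 : ℝ) := by
  obtain ⟨Ca, hCa, ha⟩ := u_kerQ hn Γ hc M hM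
  obtain ⟨Cc, hCc, hcw⟩ := u_weightQ hn Γ hc M hM
  obtain ⟨C1, N, vv, κ, W, hC1, hvv, hκ, hW, hU⟩ := S_of_UQ hn
  obtain ⟨B, hB⟩ : ∃ B : ℝ, B = ∑ m, ∑ a, ∑ b, M * |W m a b| := ⟨_, rfl⟩
  have hB0 : 0 ≤ B := by
    rw [hB]
    exact Finset.sum_nonneg fun m _ => Finset.sum_nonneg fun a _ => Finset.sum_nonneg fun b _ =>
      mul_nonneg hM (abs_nonneg _)
  have hCp : 0 < C1 * (Ca + 2 * Cc) := by positivity
  refine ⟨C1 * (Ca + 2 * Cc) + B, by linarith, ?_⟩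
  intro J J1 J2 HJ A A1 hA hA1 u T c σ hσ hσ1 P
  have hinv : ∀ m, Inv Γ (u (vv m)) := fun m => (HB_facts Γ).1 M _ (P.hbu (vv m) (hvv m))
  have hent : ∀ (g : SL n) (a b : Fin n), (∑ m, u (vv m) (g * κ m) • W m) a b =
      ∑ m, u (vv m) (g * κ m) * W m a b := by
    intro g a b
    rw [Matrix.sum_apply]
    exact Finset.sum_congr rfl fun m _ => by rw [Matrix.smul_apply, smul_eq_mul]
  have hσ4 : 0 ≤ σ ^ (1 / 4 : ℝ) := Real.rpow_nonneg hσ.le _
  have hsq : √ σ ≤ σ ^ (1 / 4 : ℝ) := by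
    rw [Real.sqrt_eq_rpow]
    exact Real.rpow_le_rpow_of_exponent_ge hσ hσ1 (by norm_num)
  refine ⟨fun g => ∑ m, u (vv m) (g * κ m) • W m, fun g => ⟨?_, ?_⟩, fun a b => ?_, fun γ hγ g => ?_,
    fun g a b => ?_, fun g k hk v hv => ?_⟩
  · rw [Matrix.transpose_sum]
    exact Finset.sum_congr rfl fun m _ => by rw [Matrix.transpose_smul, (hW m).1]
  · rw [Matrix.trace_sum]
    exact Finset.sum_eq_zero fun m _ => by rw [Matrix.trace_smul, (hW m).2, smul_zero]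
  · have e : (fun g : SL n => (∑ m, u (vv m) (g * κ m) • W m) a b) =
        fun g => ∑ m, u (vv m) (g * κ m) * W m a b := funext fun g => hent g a b
    change Continuous fun g : SL n => (∑ m, u (vv m) (g * κ m) • W m) a b
    rw [e]
    refine continuous_finset_sum _ fun m _ => ?_
    exact ((hinv m).cont.comp (continuous_id.mul continuous_const)).mul continuous_const
  · refine Finset.sum_congr rfl fun m _ => ?_
    rw [mul_assoc, (hinv m).inv γ hγ]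
  · change |(∑ m, u (vv m) (g * κ m) • W m) a b| ≤ _
    rw [hent]
    have h1 : |∑ m, u (vv m) (g * κ m) * W m a b| ≤ ∑ m, M * |W m a b| := by
      refine (Finset.abs_sum_le_sum_abs _ _).trans (Finset.sum_le_sum fun m _ => ?_)
      rw [abs_mul]
      exact mul_le_mul_of_nonneg_right ((P.hbu (vv m) (hvv m)).bd _) (abs_nonneg _)
    have h2 : ∑ m, M * |W m a b| ≤ B := by
      rw [hB]
      refine Finset.sum_le_sum fun m _ => ?_
      have h3 : M * |W m a b| ≤ ∑ b', M * |W m a b'| :=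
        Finset.single_le_sum (f := fun b' => M * |W m a b'|)
          (fun b' _ => mul_nonneg hM (abs_nonneg _)) (Finset.mem_univ b)
      have h4 : ∑ b', M * |W m a b'| ≤ ∑ a', ∑ b', M * |W m a' b'| :=
        Finset.single_le_sum (f := fun a' => ∑ b', M * |W m a' b'|)
          (fun a' _ => Finset.sum_nonneg fun b' _ => mul_nonneg hM (abs_nonneg _))
          (Finset.mem_univ a)
      exact h3.trans h4
    linarith
  · have hσ' : 0 ≤ (Ca + 2 * Cc) * σ ^ (1 / 4 : ℝ) := by positivity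
    have hmain := hU ((LinearMap.funLeft ℝ ℝ (fun k : SL n => g * k)).comp u)
      ((Ca + 2 * Cc) * σ ^ (1 / 4 : ℝ)) hσ' ?_ ?_ k hk v hv
    · change |u v (g * k) - ((∑ m, u (vv m) (g * κ m) • W m) * (k.1 * dM v * k.1ᵀ)).trace| ≤ _
      change |u v (g * k) - ((∑ m, u (vv m) (g * κ m) • W m) * (k.1 * dM v * k.1ᵀ)).trace| ≤ _
        at hmain
      have h5 : 0 ≤ B * σ ^ (1 / 4 : ℝ) := mul_nonneg hB0 hσ4
      calc |u v (g * k) - ((∑ m, u (vv m) (g * κ m) • W m) * (k.1 * dM v * k.1ᵀ)).trace|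
          ≤ C1 * ((Ca + 2 * Cc) * σ ^ (1 / 4 : ℝ)) := hmain
        _ ≤ (C1 * (Ca + 2 * Cc) + B) * σ ^ (1 / 4 : ℝ) := by linarith
    · intro i j hij v hv hvij k _ t
      change |u v (g * (k * rot i j t)) - u v (g * k)| ≤ _
      rw [← mul_assoc]
      refine (ha J J1 J2 HJ A A1 hA hA1 u T c σ hσ hσ1 P i j hij v hv hvij (g * k) t).trans ?_
      have h6 : Ca * √ σ ≤ Ca * σ ^ (1 / 4 : ℝ) := mul_le_mul_of_nonneg_left hsq hCa.le
      have h7 : 0 ≤ Cc * σ ^ (1 / 4 : ℝ) := mul_nonneg hCc.le hσ4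
      linarith
    · intro i j hij k _
      refine ⟨u (Hv i j) (g * (k * rot i j 0)), u (Hv i j) (g * (k * rot i j (Real.pi / 4))),
        fun t => ?_⟩
      change |u (Hv i j) (g * (k * rot i j t)) - _| ≤ _
      have hd := dalembertQ (fun t => u (Hv i j) (g * (k * rot i j t)))
        (Cc * σ ^ (1 / 4 : ℝ)) (by
        intro s t
        have hw := hcw J J1 J2 HJ A A1 hA hA1 u T c σ hσ hσ1 P i j hij
          (g * (k * rot i j s)) t
        have hadd := (rot_facts i j hij).2.2.1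
        have e1 : g * (k * rot i j (s + t)) = g * (k * rot i j s) * rot i j t := by
          rw [hadd]
          simp only [mul_assoc]
        have e2 : g * (k * rot i j (s - t)) = g * (k * rot i j s) * rot i j (-t) := by
          rw [sub_eq_add_neg, hadd]
          simp only [mul_assoc]
        change |u (Hv i j) (g * (k * rot i j (s + t))) + u (Hv i j) (g * (k * rot i j (s - t))) -
          2 * Real.cos (2 * t) * u (Hv i j) (g * (k * rot i j s))| ≤ _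
        rw [e1, e2]
        exact hw) t
      have h7 : 0 ≤ Ca * σ ^ (1 / 4 : ℝ) := mul_nonneg hCa.le hσ4
      have e3 : u (Hv i j) (g * (k * rot i j 0)) * Real.cos (2 * t) +
          u (Hv i j) (g * (k * rot i j (Real.pi / 4))) * Real.sin (2 * t) =
          Real.cos (2 * t) * u (Hv i j) (g * (k * rot i j 0)) +
          Real.sin (2 * t) * u (Hv i j) (g * (k * rot i j (Real.pi / 4))) := by ring
      rw [e3]
      refine hd.trans ?_
      linarith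

end FL27
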