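import Pool.Agent.LibFL27.DefsV
import Pool.Agent.LibFL27.D0b

set_option autoImplicit false
set_option maxSynthPendingDepth 3

open Matrix MeasureTheory Topology Filter LibNC38
open LibNC27 hiding Mt
open scoped Matrix.Norms.Elementwise

namespace FL27

private theorem D7j_sign {n : ℕ} (U : Mt n) :
    (∏ i : Fin n, (if i.val = 0 then U.det else 1)) = U.det := by
  cases n with
  | zero => simp [Matrix.det_fin_zero]
  | succ m =>
    rw [Fin.prod_univ_succ]
    simp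

/-- spectral theorem with a matrix in `SO(n)` -/
private theorem D7j_spec {n : ℕ} (w : Mt n) (hw : wᵀ = w) (ht : w.trace = 0) :
    ∃ (k : SL n) (v : V0 n), Ort k ∧ w = k.1 * dM v * k.1ᵀ := by
  classical
  have hq : w.IsHermitian := by
    rw [Matrix.IsHermitian, Matrix.conjTranspose_eq_transpose_of_trivial, hw]
  set lam : Fin n → ℝ := hq.eigenvalues with hlam
  set U : Mt n := (hq.eigenvectorUnitary : Matrix (Fin n) (Fin n) ℝ) with hU
  have hst : star U = Uᵀ := by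
    rw [Matrix.star_eq_conjTranspose, Matrix.conjTranspose_eq_transpose_of_trivial]
  have hUU : U * Uᵀ = 1 := by
    rw [← hst]; exact Unitary.coe_mul_star_self hq.eigenvectorUnitary
  have hUU' : Uᵀ * U = 1 := by
    rw [← hst]; exact Unitary.coe_star_mul_self hq.eigenvectorUnitary
  have hspec : w = U * Matrix.diagonal lam * Uᵀ := by
    have h := hq.spectral_theorem
    rw [Unitary.conjStarAlgAut_apply] at h
    rw [← hst]
    exact h
  have hdU : U.det * U.det = 1 := by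
    have := congrArg Matrix.det hUU
    rwa [Matrix.det_mul, Matrix.det_transpose, Matrix.det_one] at this
  set e : Fin n → ℝ := fun i => if i.val = 0 then U.det else 1 with he
  have hee : ∀ i, e i * e i = 1 := by
    intro i
    simp only [he]
    split_ifs
    · exact hdU
    · norm_num
  have hde : (U * Matrix.diagonal e).det = 1 := by
    rw [Matrix.det_mul, Matrix.det_diagonal, D7j_sign U, hdU]
  have hsum : ∑ i, lam i = 0 := by
    have h1 : w.trace = (Matrix.diagonal lam).trace := by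
      rw [hspec, Matrix.trace_mul_comm, ← Matrix.mul_assoc, hUU', Matrix.one_mul]
    rw [ht, Matrix.trace_diagonal] at h1
    exact h1.symm
  refine ⟨⟨U * Matrix.diagonal e, hde⟩, ⟨WithLp.toLp 2 lam, hsum⟩, ?_, ?_⟩
  · change U * Matrix.diagonal e * (U * Matrix.diagonal e)ᵀ = 1
    rw [Matrix.transpose_mul, Matrix.diagonal_transpose, Matrix.mul_assoc,
      ← Matrix.mul_assoc (Matrix.diagonal e), Matrix.diagonal_mul_diagonal]
    have : (fun i => e i * e i) = fun _ => (1 : ℝ) := funext hee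
    rw [this, Matrix.diagonal_one, Matrix.one_mul, hUU]
  · change w = U * Matrix.diagonal e * Matrix.diagonal lam * (U * Matrix.diagonal e)ᵀ
    rw [Matrix.transpose_mul, Matrix.diagonal_transpose]
    have h2 : U * Matrix.diagonal e * Matrix.diagonal lam * (Matrix.diagonal e * Uᵀ)
        = U * (Matrix.diagonal e * Matrix.diagonal lam * Matrix.diagonal e) * Uᵀ := by
      simp only [Matrix.mul_assoc]
    rw [h2, Matrix.diagonal_mul_diagonal, Matrix.diagonal_mul_diagonal]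
    have h3 : (fun i => e i * lam i * e i) = lam := by
      funext i
      rw [mul_right_comm, hee, one_mul]
    rw [h3, ← hspec]

private theorem D7j_inv {n : ℕ} (h : SL n) : h⁻¹.1 * h.1 = 1 := by
  have := congrArg Subtype.val (inv_mul_cancel h)
  exact this

private theorem D7j_inv' {n : ℕ} (h : SL n) : h.1 * h⁻¹.1 = 1 := by
  have := congrArg Subtype.val (mul_inv_cancel h)
  exact this

private theorem D7j_inv_ort {n : ℕ} (k : SL n) (hk : Ort k) : (k⁻¹).1 = k.1ᵀ := by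
  have hk1 : k.1 * k.1ᵀ = 1 := hk
  calc (k⁻¹).1 = (k⁻¹).1 * (k.1 * k.1ᵀ) := by rw [hk1, Matrix.mul_one]
    _ = ((k⁻¹).1 * k.1) * k.1ᵀ := by rw [Matrix.mul_assoc]
    _ = k.1ᵀ := by rw [D7j_inv, Matrix.one_mul]

private theorem D7j_act_ort {n : ℕ} (k : SL n) (hk : Ort k) : act k (o n) = o n := by
  apply Subtype.ext
  change k.1 * 1 * k.1ᵀ = 1
  rw [Matrix.mul_one]
  exact hk

private theorem D7j_ort_inv {n : ℕ} (k : SL n) (hk : Ort k) : Ort k⁻¹ := by
  have hk1 : k.1 * k.1ᵀ = 1 := hk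
  change (k⁻¹).1 * (k⁻¹).1ᵀ = 1
  rw [D7j_inv_ort k hk, Matrix.transpose_transpose]
  exact mul_eq_one_comm.mp hk1

private theorem D7j_ort_mul {n : ℕ} (k l : SL n) (hk : Ort k) (hl : Ort l) : Ort (k * l) := by
  have hk1 : k.1 * k.1ᵀ = 1 := hk
  have hl1 : l.1 * l.1ᵀ = 1 := hl
  change (k.1 * l.1) * (k.1 * l.1)ᵀ = 1
  rw [Matrix.transpose_mul]
  calc k.1 * l.1 * (l.1ᵀ * k.1ᵀ) = k.1 * (l.1 * l.1ᵀ) * k.1ᵀ := by simp only [Matrix.mul_assoc]
    _ = 1 := by rw [hl1, Matrix.mul_one, hk1]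

private theorem D7j_dM_sq {n : ℕ} (v : V0 n) : spd (o n) (dM v) = ‖v‖ := by
  have hs : (dM v)ᵀ = dM v := by rw [dM, Matrix.diagonal_transpose]
  rw [spd_facts.2.1 _ hs]
  have h5 : ‖v‖ = ‖v.1‖ := rfl
  rw [h5, EuclideanSpace.norm_eq]
  congr 1
  refine Finset.sum_congr rfl fun i _ => ?_
  rw [Finset.sum_eq_single i]
  · rw [dM, Matrix.diagonal_apply_eq, Real.norm_eq_abs, sq_abs]
  · intro j _ hj
    rw [dM, Matrix.diagonal_apply_ne _ hj.symm]; norm_num
  · intro h; exact absurd (Finset.mem_univ i) h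

private theorem D7j_norm {n : ℕ} (k : SL n) (hk : Ort k) (v : V0 n) :
    spd (o n) (k.1 * dM v * k.1ᵀ) = ‖v‖ := by
  have h := spd_facts.1 k (o n) (dM v)
  rw [D7j_act_ort k hk] at h
  rw [h, D7j_dM_sq]

private theorem D7j_trace {n : ℕ} (S W : Mt n) (M : ℝ) (hM : 0 ≤ M) (hS : ∀ a b, |S a b| ≤ M)
    (hW : Wᵀ = W) : |(S * W).trace| ≤ (n : ℝ) * (n * (M * spd (o n) W)) := by
  have hent : ∀ a b, |W a b| ≤ spd (o n) W := by
    intro a b
    rw [spd_facts.2.1 W hW]
    refine Real.abs_le_sqrt ?_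
    calc W a b ^ 2 ≤ ∑ j, W a j ^ 2 :=
          Finset.single_le_sum (f := fun j => W a j ^ 2) (fun j _ => sq_nonneg _) (Finset.mem_univ b)
      _ ≤ ∑ i, ∑ j, W i j ^ 2 :=
          Finset.single_le_sum (f := fun i => ∑ j, W i j ^ 2)
            (fun i _ => Finset.sum_nonneg fun j _ => sq_nonneg _) (Finset.mem_univ a)
  rw [Matrix.trace]
  calc |∑ i, Matrix.diag (S * W) i| ≤ ∑ i, |Matrix.diag (S * W) i| := Finset.abs_sum_le_sum_abs _ _
    _ ≤ ∑ _i : Fin n, (n : ℝ) * (M * spd (o n) W) := by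
        refine Finset.sum_le_sum fun i _ => ?_
        rw [Matrix.diag_apply, Matrix.mul_apply]
        calc |∑ j, S i j * W j i| ≤ ∑ j, |S i j * W j i| := Finset.abs_sum_le_sum_abs _ _
          _ ≤ ∑ _j : Fin n, M * spd (o n) W := by
              refine Finset.sum_le_sum fun j _ => ?_
              rw [abs_mul]
              exact mul_le_mul (hS i j) (hent j i) (abs_nonneg _) hM
          _ = _ := by simp
    _ = _ := by simp

private theorem D7j_dgm_cont {n : ℕ} (g : SL n) (z : V0 n) :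
    Continuous fun s : ℝ => g * dgm (s • z) := by
  refine continuous_const.mul ?_
  refine Continuous.subtype_mk ?_ _
  refine continuous_matrix fun i j => ?_
  by_cases h : i = j
  · subst h
    simp only [Matrix.diagonal_apply_eq]
    have h1 : (fun s : ℝ => Real.exp ((s • z).1 i)) = fun s : ℝ => Real.exp (s * z.1 i) := rfl
    rw [h1]
    fun_prop
  · simp only [Matrix.diagonal_apply_ne _ h]
    exact continuous_const

private theorem D7j_vel {n : ℕ} (y z : V0 n) :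
    vel y z = (dgm y).1 * ((2 : ℝ) • dM z) * (dgm y).1ᵀ := by
  unfold vel dM
  show _ = Matrix.diagonal _ * _ * (Matrix.diagonal _)ᵀ
  rw [Matrix.diagonal_transpose]
  ext i j
  rw [Matrix.mul_diagonal, Matrix.diagonal_mul, Matrix.smul_apply, smul_eq_mul]
  by_cases hij : i = j
  · subst hij
    rw [Matrix.diagonal_apply_eq, Matrix.diagonal_apply_eq]
    have : Real.exp (2 * y.1 i) = Real.exp (y.1 i) * Real.exp (y.1 i) := by
      rw [← Real.exp_add]; ring_nf
    rw [this]; ring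
  · rw [Matrix.diagonal_apply_ne _ hij, Matrix.diagonal_apply_ne _ hij]; ring

private theorem D7j_gvel {n : ℕ} (g : SL n) (z : V0 n) (s : ℝ) :
    gvel g z s = (g * dgm (s • z)).1 * ((2 : ℝ) • dM z) * (g * dgm (s • z)).1ᵀ := by
  have h : (g * dgm (s • z)).1 = g.1 * (dgm (s • z)).1 := rfl
  rw [gvel, D7j_vel, h, Matrix.transpose_mul]
  simp only [Matrix.mul_assoc]

private theorem D7j_pt {n : ℕ} (g : SL n) (y : V0 n) :
    act g (sg y) = act (g * dgm y) (o n) := by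
  rw [act_facts.2.1]; rfl

/-- two group elements with the same image differ by an orthogonal matrix -/
private theorem D7j_orth {n : ℕ} (h t : SL n) (e : act h (o n) = act t (o n)) : Ort (h⁻¹ * t) := by
  have e1 : h.1 * 1 * h.1ᵀ = t.1 * 1 * t.1ᵀ := congrArg Subtype.val e
  rw [Matrix.mul_one, Matrix.mul_one] at e1
  have h2 : (h⁻¹ * t).1 = h⁻¹.1 * t.1 := rfl
  change (h⁻¹ * t).1 * (h⁻¹ * t).1ᵀ = 1
  rw [h2, Matrix.transpose_mul]
  calc h⁻¹.1 * t.1 * (t.1ᵀ * h⁻¹.1ᵀ) = h⁻¹.1 * (t.1 * t.1ᵀ) * h⁻¹.1ᵀ := by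
        simp only [Matrix.mul_assoc]
    _ = (h⁻¹.1 * h.1) * (h⁻¹.1 * h.1)ᵀ := by
        rw [← e1, Matrix.transpose_mul]; simp only [Matrix.mul_assoc]
    _ = 1 := by rw [D7j_inv, Matrix.transpose_one, Matrix.mul_one]

private theorem D7j_hom {n : ℕ} (τ : ℝ) (S : SL n → Mt n) (u : V0 n →ₗ[ℝ] Fn n)
    (hu : ∀ g k : SL n, Ort k → ∀ v : V0 n, ‖v‖ ≤ 1 →
        |u v (g * k) - (S g * (k.1 * dM v * k.1ᵀ)).trace| ≤ τ)
    (g k : SL n) (hk : Ort k) (v : V0 n) :
    |u v (g * k) - (S g * (k.1 * dM v * k.1ᵀ)).trace| ≤ τ * ‖v‖ := by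
  have hdM : ∀ (r : ℝ) (v : V0 n), dM (r • v) = r • dM v := by
    intro r v
    unfold dM
    rw [← Matrix.diagonal_smul]
    rfl
  have hlin : ∀ (r : ℝ) (v : V0 n), u (r • v) (g * k) - (S g * (k.1 * dM (r • v) * k.1ᵀ)).trace =
      r * (u v (g * k) - (S g * (k.1 * dM v * k.1ᵀ)).trace) := by
    intro r v
    rw [map_smul, Pi.smul_apply, hdM, Matrix.mul_smul, Matrix.smul_mul, Matrix.mul_smul,
      Matrix.trace_smul, smul_eq_mul, smul_eq_mul]
    ring
  by_cases hv : v = 0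
  · subst hv
    have h := hlin 0 (0 : V0 n)
    rw [zero_smul, zero_mul] at h
    rw [h]
    simp
  · have hn : ‖v‖ ≠ 0 := norm_ne_zero_iff.mpr hv
    have h1 : v = ‖v‖ • (‖v‖⁻¹ • v) := by rw [smul_smul, mul_inv_cancel₀ hn, one_smul]
    have h2 : ‖(‖v‖⁻¹ • v : V0 n)‖ ≤ 1 := by
      rw [norm_smul, norm_inv, norm_norm, inv_mul_cancel₀ hn]
    have h3 := hlin ‖v‖ (‖v‖⁻¹ • v)
    rw [← h1] at h3
    rw [h3, abs_mul, abs_of_nonneg (norm_nonneg v), mul_comm]
    exact mul_le_mul_of_nonneg_right (hu g k hk _ h2) (norm_nonneg v)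

private theorem D7j_val {n : ℕ} (τ : ℝ) (S : SL n → Mt n) (u : V0 n →ₗ[ℝ] Fn n)
    (hu : ∀ g k : SL n, Ort k → ∀ v : V0 n, ‖v‖ ≤ 1 →
        |u v (g * k) - (S g * (k.1 * dM v * k.1ᵀ)).trace| ≤ τ)
    (h t : SL n) (e : act h (o n) = act t (o n)) (w : Mt n) (hw : wᵀ = w) (hwt : w.trace = 0) :
    |(S t * (t⁻¹.1 * (h.1 * w * h.1ᵀ) * t⁻¹.1ᵀ)).trace - (S h * w).trace| ≤
      2 * τ * spd (o n) w := by
  obtain ⟨k', v, hk', hwv⟩ := D7j_spec w hw hwt
  have ho := D7j_orth h t e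
  set k := h⁻¹ * t with hkdef
  have htk : h * k = t := by rw [hkdef, mul_inv_cancel_left]
  have hkt : t⁻¹.1 * h.1 = k⁻¹.1 := by
    have : t⁻¹ * h = k⁻¹ := by rw [hkdef, _root_.mul_inv_rev, inv_inv]
    rw [← this]; rfl
  have e1 : t⁻¹.1 * (h.1 * w * h.1ᵀ) * t⁻¹.1ᵀ = (k⁻¹ * k').1 * dM v * (k⁻¹ * k').1ᵀ := by
    have h2 : (k⁻¹ * k').1 = k⁻¹.1 * k'.1 := rfl
    calc t⁻¹.1 * (h.1 * w * h.1ᵀ) * t⁻¹.1ᵀ = (t⁻¹.1 * h.1) * w * (t⁻¹.1 * h.1)ᵀ := by
          rw [Matrix.transpose_mul]; simp only [Matrix.mul_assoc]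
      _ = (k⁻¹ * k').1 * dM v * (k⁻¹ * k').1ᵀ := by
          rw [hkt, hwv, h2, Matrix.transpose_mul]; simp only [Matrix.mul_assoc]
  have h1 := D7j_hom τ S u hu t (k⁻¹ * k') (D7j_ort_mul _ _ (D7j_ort_inv k ho) hk') v
  have h2 := D7j_hom τ S u hu h k' hk' v
  have e2 : t * (k⁻¹ * k') = h * k' := by
    rw [← htk, mul_assoc, mul_inv_cancel_left]
  rw [e2, ← e1] at h1
  rw [← hwv] at h2
  have e3 : spd (o n) w = ‖v‖ := by rw [hwv]; exact D7j_norm k' hk' v
  rw [e3]
  have h3 := abs_le.1 h1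
  have h4 := abs_le.1 h2
  rw [abs_le]
  constructor <;> linarith [h3.1, h3.2, h4.1, h4.2]

/-- Row D7j. The approximate potential from `S` (compare LibNE38/E1 `triv_of_S`):
`ξ p w = 2 tr (S (tch p) (tch p)⁻¹ w (tch p)⁻ᵀ)`. `S (g k) ≈ kᵀ S g k` tested on symmetric traceless
matrices (`V12_spec`: they are `k' dM v k'ᵀ`); `ξ (gvel) = 4 tr (S t k dM z kᵀ) ≈ 4 u z (g dgm (s z))`,
`κ (gvel, gvel) = 4 A z z`, `spd² = 4 ‖z‖²` (as in E1). -/
theorem apx_of_S {n : ℕ} (Γ : Subgroup (SL n)) (M : ℝ) (hM : 0 ≤ M) : ∃ C : ℝ, 0 < C ∧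
    ∀ (κ : PD n → Fm n) (τ c : ℝ) (S : SL n → Mt n) (u : V0 n →ₗ[ℝ] Fn n)
      (A T : V0 n →ₗ[ℝ] V0 n →ₗ[ℝ] Fn n), 0 ≤ τ → |c| ≤ M →
      (∀ g, (S g)ᵀ = S g ∧ (S g).trace = 0) → (∀ a b, Continuous fun g => S g a b) →
      (∀ γ ∈ Γ, ∀ g, S (γ * g) = S g) → (∀ g a b, |S g a b| ≤ M) →
      (∀ g k : SL n, Ort k → ∀ v : V0 n, ‖v‖ ≤ 1 →
        |u v (g * k) - (S g * (k.1 * dM v * k.1ᵀ)).trace| ≤ τ) →
      (∀ v w g, A v w g = Jf κ (dM v) (dM w) g) → (∀ v, Continuous (A v v)) →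
      (∀ v, Continuous (T v v)) → (∀ v : V0 n, ‖v‖ ≤ 2 → ∀ g, |T v v g| ≤ τ) →
      (∀ v : V0 n, ‖v‖ ≤ 2 → RQ τ v (u v) (fun g => A v v g + T v v g - c * inner ℝ v v)) →
      ∃ ξ : PD n → Mt n →ₗ[ℝ] ℝ, Apx Γ C (C * τ) κ c ξ := by
  refine ⟨M + 2 * (n * (n * M)) + 36, by positivity, ?_⟩
  intro κ τ c S u A T hτ hc hS hSc hSΓ hSM hu hA hAc hTc hT hR
  set C : ℝ := M + 2 * (n * (n * M)) + 36 with hC
  have hnM : 0 ≤ 2 * ((n : ℝ) * (n * M)) := by positivity
  let ξ : PD n → Mt n →ₗ[ℝ] ℝ := fun p =>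
    { toFun := fun w => 2 * (S (tch p) * ((tch p)⁻¹.1 * w * (tch p)⁻¹.1ᵀ)).trace
      map_add' := by
        intro a b
        rw [Matrix.mul_add, Matrix.add_mul, Matrix.mul_add, Matrix.trace_add]; ring
      map_smul' := by
        intro r a
        rw [Matrix.mul_smul, Matrix.smul_mul, Matrix.mul_smul, Matrix.trace_smul, smul_eq_mul,
          RingHom.id_apply, smul_eq_mul]; ring }
  have hξ : ∀ p w, ξ p w = 2 * (S (tch p) * ((tch p)⁻¹.1 * w * (tch p)⁻¹.1ᵀ)).trace :=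
    fun p w => rfl
  have hval : ∀ (h : SL n) (w : Mt n), wᵀ = w → w.trace = 0 →
      |ξ (act h (o n)) (h.1 * w * h.1ᵀ) - 2 * (S h * w).trace| ≤ 4 * τ * spd (o n) w := by
    intro h w hw hwt
    rw [hξ, ← mul_sub, abs_mul, abs_two]
    have := D7j_val τ S u hu h (tch (act h (o n))) (tch_eq _) w hw hwt
    linarith
  have hSC : Continuous fun g => S g := continuous_matrix hSc
  -- the frame of a point
  have hframe : ∀ (p : PD n) (v : Mt n), IsTan p v →
      ((tch p)⁻¹.1 * v * (tch p)⁻¹.1ᵀ)ᵀ = (tch p)⁻¹.1 * v * (tch p)⁻¹.1ᵀ ∧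
      ((tch p)⁻¹.1 * v * (tch p)⁻¹.1ᵀ).trace = 0 ∧
      v = (tch p).1 * ((tch p)⁻¹.1 * v * (tch p)⁻¹.1ᵀ) * (tch p).1ᵀ ∧
      spd p v = spd (o n) ((tch p)⁻¹.1 * v * (tch p)⁻¹.1ᵀ) := by
    intro p v hv
    have h0 : p = act (tch p) (o n) := tch_eq p
    set t := tch p with ht
    have e2 : t.1 * t⁻¹.1 = 1 := D7j_inv' t
    have e3 : t⁻¹.1ᵀ * t.1ᵀ = 1 := by
      rw [← Matrix.transpose_mul, e2, Matrix.transpose_one]
    have e4 : v = t.1 * (t⁻¹.1 * v * t⁻¹.1ᵀ) * t.1ᵀ := by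
      calc v = 1 * v * 1 := by rw [Matrix.one_mul, Matrix.mul_one]
        _ = (t.1 * t⁻¹.1) * v * (t⁻¹.1ᵀ * t.1ᵀ) := by rw [e2, e3]
        _ = _ := by simp only [Matrix.mul_assoc]
    refine ⟨?_, ?_, e4, ?_⟩
    · rw [Matrix.transpose_mul, Matrix.transpose_mul, Matrix.transpose_transpose, hv.1,
        Matrix.mul_assoc]
    · have h1 : p.1⁻¹ = t⁻¹.1ᵀ * t⁻¹.1 := by
        have h2 : p.1 = t.1 * t.1ᵀ := by
          have := congrArg Subtype.val h0
          rw [this]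
          change t.1 * 1 * t.1ᵀ = _
          rw [Matrix.mul_one]
        refine Matrix.inv_eq_left_inv ?_
        rw [h2]
        calc t⁻¹.1ᵀ * t⁻¹.1 * (t.1 * t.1ᵀ) = t⁻¹.1ᵀ * (t⁻¹.1 * t.1) * t.1ᵀ := by
              simp only [Matrix.mul_assoc]
          _ = 1 := by rw [D7j_inv, Matrix.mul_one, e3]
      have h3 := hv.2
      rw [h1, Matrix.mul_assoc, Matrix.trace_mul_comm] at h3
      exact h3
    · have h5 := spd_facts.1 t (o n) (t⁻¹.1 * v * t⁻¹.1ᵀ)
      rw [← e4, ← h0] at h5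
      exact h5
  have hCM : M ≤ C := by rw [hC]; linarith
  have hC36 : 36 ≤ C := by rw [hC]; linarith
  refine ⟨ξ, hc.trans hCM, ?_, ?_, ?_, ?_⟩
  · intro p v hv
    obtain ⟨f1, f2, f3, f4⟩ := hframe p v hv
    rw [hξ, abs_mul, abs_two, f4]
    have h1 := D7j_trace (S (tch p)) _ M hM (fun a b => hSM _ a b) f1
    have h0 : 0 ≤ spd (o n) ((tch p)⁻¹.1 * v * (tch p)⁻¹.1ᵀ) := spd_facts.2.2.2 _ _
    calc 2 * |(S (tch p) * ((tch p)⁻¹.1 * v * (tch p)⁻¹.1ᵀ)).trace|
        ≤ 2 * ((n : ℝ) * (n * (M * spd (o n) ((tch p)⁻¹.1 * v * (tch p)⁻¹.1ᵀ)))) := by linarith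
      _ = (2 * ((n : ℝ) * (n * M))) * spd (o n) ((tch p)⁻¹.1 * v * (tch p)⁻¹.1ᵀ) := by ring
      _ ≤ C * spd (o n) ((tch p)⁻¹.1 * v * (tch p)⁻¹.1ᵀ) := by
          refine mul_le_mul_of_nonneg_right ?_ h0
          rw [hC]; linarith
  · intro v _
    have hact : Continuous fun g : SL n => act g (sg 0) :=
      act_facts.2.2.comp (continuous_id.prodMk continuous_const)
    have ht : Continuous fun g : SL n => tch (act g (sg 0)) := tch_cont.comp hact
    have h1 : Continuous fun g : SL n => S (tch (act g (sg 0))) := hSC.comp ht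
    have h2 : Continuous fun g : SL n => (tch (act g (sg 0)))⁻¹.1 :=
      continuous_subtype_val.comp ht.inv
    have h3 : Continuous fun g : SL n => g.1 := continuous_subtype_val
    have h4 : Continuous fun g : SL n => g.1 * v * g.1ᵀ :=
      (h3.matrix_mul continuous_const).matrix_mul h3.matrix_transpose
    exact continuous_const.mul
      ((h1.matrix_mul ((h2.matrix_mul h4).matrix_mul h2.matrix_transpose)).matrix_trace)
  · intro γ hγ p v hv
    obtain ⟨f1, f2, f3, f4⟩ := hframe p v hv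
    have h0 : p = act (tch p) (o n) := tch_eq p
    have h1 : act γ p = act (γ * tch p) (o n) := by rw [act_facts.2.1, ← h0]
    set W := (tch p)⁻¹.1 * v * (tch p)⁻¹.1ᵀ with hW
    have h2 : γ.1 * v * γ.1ᵀ = (γ * tch p).1 * W * (γ * tch p).1ᵀ := by
      have e : (γ * tch p).1 = γ.1 * (tch p).1 := rfl
      rw [e, Matrix.transpose_mul]
      conv_lhs => rw [f3]
      simp only [Matrix.mul_assoc]
    have h3 := hval (γ * tch p) W f1 f2
    rw [← h1, ← h2, hSΓ γ hγ] at h3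
    have h4 : ξ p v = 2 * (S (tch p) * W).trace := hξ p v
    rw [← h4] at h3
    refine h3.trans ?_
    rw [f4]
    have h5 : 0 ≤ spd (o n) W := spd_facts.2.2.2 _ _
    refine mul_le_mul_of_nonneg_right ?_ h5
    nlinarith
  · intro g z hz
    have hz2 : ‖z‖ ≤ 2 := hz.trans (by norm_num)
    have hsym : (dM z)ᵀ = dM z := by rw [dM, Matrix.diagonal_transpose]
    have htr : (dM z).trace = 0 := by
      rw [dM, Matrix.trace_diagonal]
      exact sum_V0 z
    have hone : Ort (1 : SL n) := by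
      change (1 : Mt n) * (1 : Mt n)ᵀ = 1
      rw [Matrix.transpose_one, Matrix.one_mul]
    -- value of the form on the geodesic
    have hv1 : ∀ s : ℝ, |ξ (act g (sg (s • z))) (gvel g z s) - 4 * u z (g * dgm (s • z))| ≤
        12 * τ := by
      intro s
      have h1 := hval (g * dgm (s • z)) (dM z) hsym htr
      rw [D7j_dM_sq] at h1
      have h2 : ξ (act g (sg (s • z))) (gvel g z s) =
          2 * ξ (act (g * dgm (s • z)) (o n))
            ((g * dgm (s • z)).1 * dM z * (g * dgm (s • z)).1ᵀ) := by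
        rw [D7j_pt, D7j_gvel, Matrix.mul_smul, Matrix.smul_mul, map_smul, smul_eq_mul]
      have h3 := hu (g * dgm (s • z)) 1 hone z hz
      have h4 : ((1 : SL n).1 * dM z * (1 : SL n).1ᵀ : Mt n) = dM z := by
        change (1 : Mt n) * dM z * (1 : Mt n)ᵀ = dM z
        rw [Matrix.transpose_one, Matrix.one_mul, Matrix.mul_one]
      rw [h4, mul_one] at h3
      rw [h2]
      have h5 : 4 * τ * ‖z‖ ≤ 4 * τ := by nlinarith [norm_nonneg z]
      have h6 := abs_le.1 (h1.trans h5)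
      have h7 := abs_le.1 h3
      rw [abs_le]
      constructor <;> linarith [h6.1, h6.2, h7.1, h7.2]
    have h2 : ∀ s : ℝ, κ (act g (sg (s • z))) (gvel g z s) (gvel g z s) =
        4 * A z z (g * dgm (s • z)) := by
      intro s
      rw [D7j_pt, D7j_gvel, hA, Jf]
      rw [Matrix.mul_smul, Matrix.smul_mul]
      rw [map_smul, map_smul, LinearMap.smul_apply, smul_eq_mul, smul_eq_mul]
      ring
    have h3 : ∀ s : ℝ, spd (act g (sg (s • z))) (gvel g z s) ^ 2 = 4 * inner ℝ z z := by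
      intro s
      rw [D7j_pt, D7j_gvel, spd_facts.1, spd_facts.2.2.1, D7j_dM_sq, real_inner_self_eq_norm_sq,
        abs_two]
      ring
    have hAi : Continuous fun s : ℝ => A z z (g * dgm (s • z)) := (hAc z).comp (D7j_dgm_cont g z)
    have hTi : Continuous fun s : ℝ => T z z (g * dgm (s • z)) := (hTc z).comp (D7j_dgm_cont g z)
    have e1 : (∫ s in (0 : ℝ)..1, (κ (act g (sg (s • z))) (gvel g z s) (gvel g z s) -
          c * spd (act g (sg (s • z))) (gvel g z s) ^ 2)) =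
        4 * ∫ s in (0 : ℝ)..1, (A z z (g * dgm (s • z)) - c * inner ℝ z z) := by
      rw [← intervalIntegral.integral_const_mul]
      refine intervalIntegral.integral_congr fun s _ => ?_
      simp only [h2, h3]
      ring
    have e2 : (∫ s in (0 : ℝ)..1, (A z z (g * dgm (s • z)) + T z z (g * dgm (s • z)) -
          c * inner ℝ z z)) =
        (∫ s in (0 : ℝ)..1, (A z z (g * dgm (s • z)) - c * inner ℝ z z)) +
          ∫ s in (0 : ℝ)..1, T z z (g * dgm (s • z)) := by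
      rw [← intervalIntegral.integral_add]
      · refine intervalIntegral.integral_congr fun s _ => ?_
        ring
      · exact (hAi.sub continuous_const).intervalIntegrable _ _
      · exact hTi.intervalIntegrable _ _
    have hTb : |∫ s in (0 : ℝ)..1, T z z (g * dgm (s • z))| ≤ τ := by
      have h := intervalIntegral.norm_integral_le_of_norm_le_const (a := (0 : ℝ)) (b := 1)
        (f := fun s => T z z (g * dgm (s • z))) (C := τ) (fun s _ => by
          rw [Real.norm_eq_abs]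
          exact hT z hz2 _)
      rw [Real.norm_eq_abs] at h
      simpa using h
    have hRz := hR z hz2 g 1
    have hRz' : |u z (g * dgm ((1 : ℝ) • z)) - u z g -
        ((∫ s in (0 : ℝ)..1, (A z z (g * dgm (s • z)) - c * inner ℝ z z)) +
          ∫ s in (0 : ℝ)..1, T z z (g * dgm (s • z)))| ≤ τ * (1 + |(1 : ℝ)|) := by
      rw [← e2]
      exact hRz
    rw [abs_one] at hRz'
    have hv0 := hv1 0
    have hv11 := hv1 1
    have e0 : g * dgm ((0 : ℝ) • z) = g := by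
      have : dgm ((0 : ℝ) • z) = 1 := by
        apply Subtype.ext
        change Matrix.diagonal (fun i => Real.exp (((0 : ℝ) • z).1 i)) = 1
        have h : (fun i : Fin n => Real.exp (((0 : ℝ) • z).1 i)) = fun _ => (1 : ℝ) := by
          funext i
          have : ((0 : ℝ) • z).1 i = 0 := by rw [zero_smul]; rfl
          rw [this, Real.exp_zero]
        rw [h, Matrix.diagonal_one]
      rw [this, mul_one]
    rw [e0] at hv0
    have e5 : act g (sg ((0 : ℝ) • z)) = act g (sg 0) := by rw [zero_smul]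
    have e6 : act g (sg ((1 : ℝ) • z)) = act g (sg z) := by rw [one_smul]
    rw [e5] at hv0
    rw [e6] at hv11
    rw [e1]
    have a1 := abs_le.1 hv0
    have a2 := abs_le.1 hv11
    have a3 := abs_le.1 hRz'
    have a4 := abs_le.1 hTb
    have hCτ : 36 * τ ≤ C * τ := mul_le_mul_of_nonneg_right hC36 hτ
    rw [abs_le]
    constructor <;> linarith [a1.1, a1.2, a2.1, a2.2, a3.1, a3.2, a4.1, a4.2]

end FL27
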