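import Pool.Agent.LibFL27.B0
import Pool.Agent.LibFL27.DefsV

set_option autoImplicit false
set_option maxSynthPendingDepth 3

open Matrix MeasureTheory Topology Filter LibNC38
open LibNC27 hiding Mt
open scoped Matrix.Norms.Elementwise

namespace FL27

/-- Row D8a. The bounds `AbQ` from TB 4 (row B0 `jm_bounds` with `δ = 1`). -/
theorem abQ_of_jm (n : ℕ) : ∃ C : ℝ, 1 ≤ C ∧ ∀ (Γ : Subgroup (SL n)) (κ : PD n → Fm n),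
    FmOK Γ κ → TB 4 1 κ → ∀ (J : Mt n →ₗ[ℝ] Mt n →ₗ[ℝ] Fn n)
      (J1 : Mt n →ₗ[ℝ] Mt n →ₗ[ℝ] Mt n →ₗ[ℝ] Fn n)
      (J2 : Mt n →ₗ[ℝ] Mt n →ₗ[ℝ] Mt n →ₗ[ℝ] Mt n →ₗ[ℝ] Fn n), Jm Γ J J1 J2 →
      (∀ v w g, J v w g = Jf κ v w g) →
    ∀ (A : V0 n →ₗ[ℝ] V0 n →ₗ[ℝ] Fn n) (A1 : V0 n →ₗ[ℝ] V0 n →ₗ[ℝ] V0 n →ₗ[ℝ] Fn n)
      (A2 : V0 n →ₗ[ℝ] V0 n →ₗ[ℝ] V0 n →ₗ[ℝ] V0 n →ₗ[ℝ] Fn n),
      (∀ v w, A v w = J (dM v) (dM w)) → (∀ x v w, A1 x v w = J1 (dM x) (dM v) (dM w)) →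
      (∀ x y v w, A2 x y v w = J2 (dM x) (dM y) (dM v) (dM w)) → Ab Γ A A1 A2 →
      AbQ Γ C A A1 A2 ∧ ∀ σ : ℝ, FlatQ σ J2 → FlatV σ A2 := by
  obtain ⟨C, hC, h⟩ := jm_bounds n
  refine ⟨C, hC, fun Γ κ hκ hT J J1 J2 hJ hJκ A A1 A2 hA hA1 hA2 hAb => ?_⟩
  have h0 : ‖(0 : V0 n)‖ ≤ 2 := by rw [norm_zero]; norm_num
  have key := h Γ κ 1 zero_le_one hκ hT J J1 J2 hJ hJκ
  rw [mul_one] at key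
  refine ⟨⟨hAb, fun v w hv hw => ?_, fun x v w hx hv hw => ?_, fun x y v w hx hy hv hw g => ?_⟩,
    fun σ hF v w hv hw g => ?_⟩
  · rw [hA]
    exact (key 0 0 v w h0 h0 hv hw).1
  · rw [hA1]
    exact (key x 0 v w hx h0 hv hw).2.1
  · rw [hA2]
    exact (key x y v w hx hy hv hw).2.2.1.bd g
  · rw [hA2, hA2, hA2]
    exact hF v w hv hw g

end FL27
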