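import Pool.Agent.LibFL27.D6
import Pool.Agent.LibFL27.D7i
import Pool.Agent.LibFL27.D7j
import Pool.Agent.LibFL27.D8a

set_option autoImplicit false
set_option maxSynthPendingDepth 3

open Matrix MeasureTheory Topology Filter LibNC38
open LibNC27 hiding Mt
open scoped Matrix.Norms.Elementwise

namespace FL27

private theorem D8_vel {n : ℕ} (y z : V0 n) :
    vel y z = (dgm y).1 * ((2 : ℝ) • dm z) * (dgm y).1ᵀ := by
  unfold vel dm
  show _ = Matrix.diagonal _ * _ * (Matrix.diagonal _)ᵀ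
  rw [Matrix.diagonal_transpose]
  ext i j
  rw [Matrix.mul_diagonal, Matrix.diagonal_mul, Matrix.smul_apply, smul_eq_mul]
  by_cases hij : i = j
  · subst hij
    rw [Matrix.diagonal_apply_eq, Matrix.diagonal_apply_eq]
    have : Real.exp (2 * y.1 i) = Real.exp (y.1 i) * Real.exp (y.1 i) := by
      rw [← Real.exp_add]; ring_nf
    rw [this]; ring
  · rw [Matrix.diagonal_apply_ne _ hij, Matrix.diagonal_apply_ne _ hij]; ring

private theorem D8_gvel {n : ℕ} (g : SL n) (z : V0 n) (s : ℝ) :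
    gvel g z s = (g * dgm (s • z)).1 * ((2 : ℝ) • dm z) * (g * dgm (s • z)).1ᵀ := by
  have h : (g * dgm (s • z)).1 = g.1 * (dgm (s • z)).1 := rfl
  rw [gvel, D8_vel, h, Matrix.transpose_mul]
  simp only [Matrix.mul_assoc]

private theorem D8_pt {n : ℕ} (g : SL n) (y : V0 n) :
    act g (sg y) = act (g * dgm y) (o n) := by
  rw [act_facts.2.1]; rfl

private theorem D8_jf {n : ℕ} (κ : PD n → Fm n) (g : SL n) (z : V0 n) (s : ℝ) :
    κ (act g (sg (s • z))) (gvel g z s) (gvel g z s) =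
      4 * Jf κ (dm z) (dm z) (g * dgm (s • z)) := by
  have e : gvel g z s = (2 : ℝ) • ((g * dgm (s • z)).1 * dm z * (g * dgm (s • z)).1ᵀ) := by
    rw [D8_gvel, Matrix.mul_smul, Matrix.smul_mul]
  rw [D8_pt, e, Jf]
  simp only [map_smul, LinearMap.smul_apply, smul_eq_mul]
  ring

private theorem D8_bd {n : ℕ} (κ : PD n → Fm n) (ht : TB 4 1 κ) (z : V0 n) (hz : ‖z‖ ≤ 1) (g : SL n) :
    |Jf κ (dm z) (dm z) g| ≤ 1 := by
  have hs : Sym0 (dm z) := by
    refine ⟨?_, ?_⟩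
    · unfold dm
      rw [Matrix.diagonal_transpose]
    · unfold dm
      rw [Matrix.trace_diagonal]
      exact sum_V0 z
  have he : ∀ a b, |dm z a b| ≤ 1 := by
    intro a b
    unfold dm
    rw [Matrix.diagonal_apply]
    split_ifs with hab
    · have h1 : ‖z.1 a‖ ≤ ‖z.1‖ := PiLp.norm_apply_le z.1 a
      rw [Real.norm_eq_abs] at h1
      exact h1.trans hz
    · rw [abs_zero]
      exact zero_le_one
  have hB : BD 4 1 (Jf κ (dm z) (dm z)) := ht _ _ hs hs he he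
  exact hB.1.2 g

private theorem D8_mono {n : ℕ} {Γ : Subgroup (SL n)} {M σ M' σ' : ℝ} {κ : PD n → Fm n} {c : ℝ}
    {ξ : PD n → Mt n →ₗ[ℝ] ℝ} (hM : M ≤ M') (hσ : σ ≤ σ') (H : Apx Γ M σ κ c ξ) :
    Apx Γ M' σ' κ c ξ where
  bc := H.bc.trans hM
  bd := fun p v h => (H.bd p v h).trans (mul_le_mul_of_nonneg_right hM (Real.sqrt_nonneg _))
  cont := H.cont
  inv := fun γ hγ p v h =>
    (H.inv γ hγ p v h).trans (mul_le_mul_of_nonneg_right hσ (Real.sqrt_nonneg _))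
  int := fun g z h => (H.int g z h).trans hσ

/-- Row D8. Board D: `ab_of_jm` (LibNC27/N2), D8a, D6 (`pot_existsQ`), D7i, D7j. If `C σ^b > 1` (σ not small)
take `ξ = 0, c = 0` (all quantities are bounded, B0). -/
theorem D_main : DStat := by
  intro n hn Γ hd hc
  obtain ⟨C0, hC0, H0⟩ := abQ_of_jm n
  obtain ⟨C1, b1, hC1, hb1, hb1', H1⟩ := pot_existsQ hn Γ hc C0 (by linarith)
  obtain ⟨C2, hC2, H2⟩ := S_existsQ hn Γ hc C1 hC1.le
  obtain ⟨C3, hC3, H3⟩ := apx_of_S Γ (max C1 C2) (hC1.le.trans (le_max_left _ _))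
  obtain ⟨D, hD⟩ : ∃ D : ℝ, D = C1 ^ (1 / 4 : ℝ) := ⟨_, rfl⟩
  have hDpos : 0 < D := by rw [hD]; exact Real.rpow_pos_of_pos hC1 _
  refine ⟨C3 + C3 * ((C2 + 1) * D) + 4 * D, b1 / 4, by positivity, by positivity, by linarith, ?_⟩
  intro κ σ hκ hσ hσ1 ht J J1 J2 HJ hJ hF
  obtain ⟨σ1, hσ1def⟩ : ∃ σ1 : ℝ, σ1 = C1 * σ ^ b1 := ⟨_, rfl⟩
  have hσ1pos : 0 < σ1 := by
    rw [hσ1def]; exact mul_pos hC1 (Real.rpow_pos_of_pos hσ _)
  have hpow : σ1 ^ (1 / 4 : ℝ) = D * σ ^ (b1 / 4) := by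
    rw [hσ1def, Real.mul_rpow hC1.le (Real.rpow_nonneg hσ.le _), ← Real.rpow_mul hσ.le, hD]
    congr 2
    ring
  have hσb : 0 < σ ^ (b1 / 4) := Real.rpow_pos_of_pos hσ _
  by_cases hs : σ1 ≤ 1
  · obtain ⟨A, A1, A2, hA, hA1, hA2, hAb⟩ := ab_of_jm Γ hc J J1 J2 HJ
    obtain ⟨hQ, hFl⟩ := H0 Γ κ hκ ht J J1 J2 HJ hJ A A1 A2 hA hA1 hA2 hAb
    obtain ⟨u, T, c, hP⟩ := H1 σ A A1 A2 hσ hσ1 hQ (hFl σ hF)
    rw [← hσ1def] at hP
    obtain ⟨S, hS1, hS2, hS3, hS4, hS5⟩ := H2 J J1 J2 HJ A A1 hA hA1 u T c σ1 hσ1pos hs hP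
    have hτ : σ1 ≤ (C2 + 1) * σ1 ^ (1 / 4 : ℝ) := by
      have h1 : σ1 ≤ σ1 ^ (1 / 4 : ℝ) := by
        have h2 := Real.rpow_le_rpow_of_exponent_ge hσ1pos hs (by norm_num : (1 / 4 : ℝ) ≤ 1)
        rwa [Real.rpow_one] at h2
      have h3 : 0 ≤ C2 * σ1 ^ (1 / 4 : ℝ) := by positivity
      linarith
    have hτ2 : C2 * σ1 ^ (1 / 4 : ℝ) ≤ (C2 + 1) * σ1 ^ (1 / 4 : ℝ) := by
      have h3 : 0 ≤ σ1 ^ (1 / 4 : ℝ) := by positivity
      linarith
    obtain ⟨hHB, -⟩ := HB_facts Γ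
    have hTc : ∀ v, Continuous (T v v) := by
      intro v
      by_cases hv : v = 0
      · subst hv
        have e : T 0 0 = 0 := by simp
        rw [e]
        exact continuous_const
      · have hn : 0 < ‖v‖ := norm_pos_iff.2 hv
        have h1 : ‖‖v‖⁻¹ • v‖ ≤ 2 := by
          rw [norm_smul, norm_inv, norm_norm, inv_mul_cancel₀ hn.ne']
          norm_num
        have e0 : ∀ (r : ℝ) (w : V0 n), T (r • w) (r • w) = fun g => r * (r * T w w g) := by
          intro r w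
          funext g
          rw [map_smul, map_smul, LinearMap.smul_apply]
          rfl
        have e : T v v = fun g => ‖v‖ * (‖v‖ * T (‖v‖⁻¹ • v) (‖v‖⁻¹ • v) g) := by
          rw [← e0, smul_smul, mul_inv_cancel₀ hn.ne', one_smul]
        rw [e]
        exact continuous_const.mul (continuous_const.mul (hHB _ _ (hP.hbT _ _ h1 h1)).cont)
    obtain ⟨ξ, hξ⟩ := H3 κ ((C2 + 1) * σ1 ^ (1 / 4 : ℝ)) c S u A T (by positivity)
      (hP.bc.trans (le_max_left _ _)) hS1 hS2 hS3 (fun g a b => (hS4 g a b).trans (le_max_right _ _))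
      (fun g k hk v hv => (hS5 g k hk v hv).trans hτ2)
      (fun v w g => by rw [hA, hJ]) (fun v => (hAb.inv0 v v).cont) hTc
      (fun v hv g => (hP.diag v hv g).trans hτ)
      (fun v hv g t => (hP.du v v hv hv g t).trans
        (mul_le_mul_of_nonneg_right hτ (by positivity)))
    refine ⟨c, ξ, D8_mono ?_ ?_ hξ⟩
    · have : 0 ≤ C3 * ((C2 + 1) * D) := by positivity
      linarith
    · rw [hpow]
      have h1 : C3 * ((C2 + 1) * (D * σ ^ (b1 / 4))) = C3 * ((C2 + 1) * D) * σ ^ (b1 / 4) := by ring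
      rw [h1]
      refine mul_le_mul_of_nonneg_right ?_ hσb.le
      linarith
  · have hs' : 1 < σ1 := not_le.1 hs
    have h4 : 1 ≤ D * σ ^ (b1 / 4) := by
      rw [← hpow]
      exact Real.one_le_rpow hs'.le (by norm_num)
    have hpos : 0 < C3 + C3 * ((C2 + 1) * D) + 4 * D := by positivity
    refine ⟨0, fun _ => 0, ?_, ?_, ?_, ?_, ?_⟩
    · rw [abs_zero]; exact hpos.le
    · intro p v _
      rw [LinearMap.zero_apply, abs_zero]
      exact mul_nonneg hpos.le (Real.sqrt_nonneg _)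
    · intro v _
      simp only [LinearMap.zero_apply]
      exact continuous_const
    · intro γ _ p v _
      simp only [LinearMap.zero_apply, sub_zero, abs_zero]
      exact mul_nonneg (mul_nonneg hpos.le hσb.le) (Real.sqrt_nonneg _)
    · intro g z hz
      simp only [LinearMap.zero_apply, sub_zero, zero_sub, zero_mul, abs_neg]
      have h5 : ‖∫ s in (0 : ℝ)..1, κ (act g (sg (s • z))) (gvel g z s) (gvel g z s)‖ ≤
          4 * |(1 : ℝ) - 0| := by
        apply intervalIntegral.norm_integral_le_of_norm_le_const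
        intro s _
        rw [D8_jf, Real.norm_eq_abs, abs_mul]
        have := D8_bd κ ht z hz (g * dgm (s • z))
        rw [abs_of_pos (by norm_num : (0 : ℝ) < 4)]
        linarith
      rw [Real.norm_eq_abs, sub_zero, abs_one, mul_one] at h5
      refine h5.trans ?_
      have h6 : 0 ≤ (C3 + C3 * ((C2 + 1) * D)) * σ ^ (b1 / 4) := by positivity
      have h7 : (C3 + C3 * ((C2 + 1) * D) + 4 * D) * σ ^ (b1 / 4) =
        (C3 + C3 * ((C2 + 1) * D)) * σ ^ (b1 / 4) + 4 * (D * σ ^ (b1 / 4)) := by ring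
      rw [h7]
      linarith

end FL27
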