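import Pool.Agent.LibNS38.P6
import Pool.Agent.LibNC27.V12

set_option autoImplicit false
set_option maxSynthPendingDepth 3

open Matrix MeasureTheory Topology Filter LibNC38
open LibNC27 hiding Mt
open scoped Matrix.Norms.Elementwise ContDiff

namespace FL27

/-- `F'` is the derivative of `F` along the right translations by `x` (trace zero): for every curve
`c` in the group with `c' = c x` at `0` the derivative of `F ∘ c` at `0` is `F' (c 0)` -/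
def RD {n : ℕ} (x : Mt n) (F F' : Fn n) : Prop :=
  ∀ c : ℝ → SL n, (∀ a b, HasDerivAt (fun s => (c s).1 a b) (((c 0).1 * x) a b) 0) →
    HasDerivAt (fun s => F (c s)) (F' (c 0)) 0

/-- `F` is continuous and bounded by `M` together with all its right derivatives of order `≤ k`
along matrices of trace zero with entries in `[-1, 1]` -/
def BD {n : ℕ} : ℕ → ℝ → Fn n → Prop
  | 0, M, F => Continuous F ∧ ∀ g, |F g| ≤ M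
  | k + 1, M, F => (Continuous F ∧ ∀ g, |F g| ≤ M) ∧
      ∀ x : Mt n, x.trace = 0 → (∀ a b, |x a b| ≤ 1) → ∃ F' : Fn n, RD x F F' ∧ BD k M F'

/-- `C^k` bound of a tensor in the invariant frame: for all symmetric matrices `v, w` of trace zero
with entries in `[-1, 1]` the function `Jf κ v w g = κ_{g gᵀ} (g v gᵀ, g w gᵀ)` satisfies `BD k M` -/
def TB {n : ℕ} (k : ℕ) (M : ℝ) (κ : PD n → Fm n) : Prop :=
  ∀ v w : Mt n, Sym0 v → Sym0 w → (∀ a b, |v a b| ≤ 1) → (∀ a b, |w a b| ≤ 1) → BD k M (Jf κ v w)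

/-- right invariant probability on `Γ \ G` (a measure on the group, tested on left `Γ`-invariant
continuous functions), with exponential mixing of the diagonal group -/
structure Mix {n : ℕ} (Γ : Subgroup (SL n)) (ν : @Measure (SL n) (borel (SL n))) (C c : ℝ) : Prop where
  prob : ν Set.univ = 1
  cpt : ∃ K : Set (SL n), IsCompact K ∧ ν Kᶜ = 0
  inv : ∀ F, Inv Γ F → ∀ q : SL n, @integral (SL n) ℝ _ _ (borel (SL n)) ν (fun g => F (g * q)) =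
    @integral (SL n) ℝ _ _ (borel (SL n)) ν F
  low : ∃ (c0 : ℝ) (D : ℕ), 0 < c0 ∧ ∀ F, Inv Γ F → (∀ g, 0 ≤ F g) → ∀ (g : SL n) (r a : ℝ), 0 < r →
    r ≤ 1 → 0 ≤ a → (∀ q : SL n, (∀ i j, |q.1 i j - (1 : Mt n) i j| ≤ r) → a ≤ F (g * q)) →
    c0 * r ^ D * a ≤ @integral (SL n) ℝ _ _ (borel (SL n)) ν F
  pos : 0 < c
  mix : ∀ (F₁ F₂ : Fn n) (M₁ M₂ : ℝ), Inv Γ F₁ → Inv Γ F₂ → BD 1 M₁ F₁ → BD 1 M₂ F₂ → ∀ y : V0 n,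
    |@integral (SL n) ℝ _ _ (borel (SL n)) ν (fun g => F₁ (g * dgm y) * F₂ g) -
      @integral (SL n) ℝ _ _ (borel (SL n)) ν F₁ * @integral (SL n) ℝ _ _ (borel (SL n)) ν F₂| ≤
      C * M₁ * M₂ * Real.exp (-(c * ‖y‖))

/-- Board M. -/
def MStat : Prop := ∀ (n : ℕ), 3 ≤ n → ∀ Γ : Subgroup (SL n), Disc Γ → Coc Γ →
  ∃ (ν : @Measure (SL n) (borel (SL n))) (C c : ℝ), Mix Γ ν C c

/-- a metric close to `g` without conjugate points: `TB k δ (h - g)` -/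
structure Near {n : ℕ} (Γ : Subgroup (SL n)) (k : ℕ) (δ : ℝ) (h : PD n → Fm n) : Prop where
  ok : FmOK Γ h
  pos : ∀ p v, IsTan p v → v ≠ 0 → 0 < h p v v
  tb : TB k δ (fun p => h p - gF p)
  nc : NoConj (dN (nrm h))

/-- Board A (quantitative constancy of the tensor X-ray over parallel translates). -/
def AStat : Prop := ∀ (n : ℕ), 3 ≤ n → ∀ Γ : Subgroup (SL n), Disc Γ → Coc Γ →
  ∃ C : ℝ, 0 < C ∧ ∀ (h : PD n → Fm n) (δ : ℝ), 0 < δ → C * δ ≤ 1 → Near Γ 1 δ h →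
    ∀ (x : SL n) (v : V0 n) (η L : ℝ), 0 < η → η ≤ 1 → (∀ i j : Fin n, i < j → v.1 j + η * ‖v‖ ≤ v.1 i) →
      1 ≤ η * ‖v‖ → ‖v‖ ≤ L → C * δ * L ≤ η → x * dgm v * x⁻¹ ∈ Γ → ∀ y y' : V0 n,
      |(∫ s in (0 : ℝ)..1, Jf (fun p => h p - gF p) (dM v) (dM v) (x * dgm (y + s • v))) -
        ∫ s in (0 : ℝ)..1, Jf (fun p => h p - gF p) (dM v) (dM v) (x * dgm (y' + s • v))| ≤
        C * ‖v‖ ^ 2 * (δ * √ δ) * (L / η)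

/-- the linearised curvature of the flats is at most `σ` -/
def FlatQ {n : ℕ} (σ : ℝ)
    (J2 : Mt n →ₗ[ℝ] Mt n →ₗ[ℝ] Mt n →ₗ[ℝ] Mt n →ₗ[ℝ] Fn n) : Prop :=
  ∀ (v w : V0 n), ‖v‖ ≤ 1 → ‖w‖ ≤ 1 → ∀ g : SL n,
    |J2 (dM w) (dM w) (dM v) (dM v) g - 2 * J2 (dM w) (dM v) (dM v) (dM w) g +
      J2 (dM v) (dM v) (dM w) (dM w) g| ≤ σ

/-- Board B (from M and A). -/
def BStat : Prop := ∀ (n : ℕ), 3 ≤ n → ∀ Γ : Subgroup (SL n), Disc Γ → Coc Γ →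
  ∃ C b : ℝ, 0 < C ∧ 0 < b ∧ ∀ (h : PD n → Fm n) (δ : ℝ), 0 < δ → C * δ ≤ 1 → Near Γ 6 δ h →
    ∀ (J : Mt n →ₗ[ℝ] Mt n →ₗ[ℝ] Fn n) (J1 : Mt n →ₗ[ℝ] Mt n →ₗ[ℝ] Mt n →ₗ[ℝ] Fn n)
      (J2 : Mt n →ₗ[ℝ] Mt n →ₗ[ℝ] Mt n →ₗ[ℝ] Mt n →ₗ[ℝ] Fn n), Jm Γ J J1 J2 →
      (∀ v w g, J v w g = Jf (fun p => h p - gF p) v w g) → FlatQ (C * δ * δ ^ b) J2

/-- approximate potential: `κ = c g + (1/2) L_Y g` up to `σ`, in integrated form -/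
structure Apx {n : ℕ} (Γ : Subgroup (SL n)) (M σ : ℝ) (κ : PD n → Fm n) (c : ℝ)
    (ξ : PD n → Mt n →ₗ[ℝ] ℝ) : Prop where
  bc : |c| ≤ M
  bd : ∀ p v, IsTan p v → |ξ p v| ≤ M * spd p v
  cont : ∀ v : Mt n, Sym0 v → Continuous fun g : SL n => ξ (act g (sg 0)) (g.1 * v * g.1ᵀ)
  inv : ∀ γ ∈ Γ, ∀ p v, IsTan p v → |ξ (act γ p) (γ.1 * v * γ.1ᵀ) - ξ p v| ≤ σ * spd p v
  int : ∀ (g : SL n) (z : V0 n), ‖z‖ ≤ 1 →
    |ξ (act g (sg z)) (gvel g z 1) - ξ (act g (sg 0)) (gvel g z 0) -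
      ∫ s in (0 : ℝ)..1, (κ (act g (sg (s • z))) (gvel g z s) (gvel g z s) -
        c * spd (act g (sg (s • z))) (gvel g z s) ^ 2)| ≤ σ

/-- Board D (stability of the potential, no conjugate points needed). -/
def DStat : Prop := ∀ (n : ℕ), 3 ≤ n → ∀ Γ : Subgroup (SL n), Disc Γ → Coc Γ →
  ∃ C b : ℝ, 0 < C ∧ 0 < b ∧ b ≤ 1 ∧ ∀ (κ : PD n → Fm n) (σ : ℝ), FmOK Γ κ → 0 < σ → σ ≤ 1 →
    TB 4 1 κ → ∀ (J : Mt n →ₗ[ℝ] Mt n →ₗ[ℝ] Fn n) (J1 : Mt n →ₗ[ℝ] Mt n →ₗ[ℝ] Mt n →ₗ[ℝ] Fn n)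
      (J2 : Mt n →ₗ[ℝ] Mt n →ₗ[ℝ] Mt n →ₗ[ℝ] Mt n →ₗ[ℝ] Fn n), Jm Γ J J1 J2 →
      (∀ v w g, J v w g = Jf κ v w g) → FlatQ σ J2 →
      ∃ (c : ℝ) (ξ : PD n → Mt n →ₗ[ℝ] ℝ), Apx Γ C (C * σ ^ b) κ c ξ

/-- B and D together: quantitative first order rigidity, the input of board C. -/
def QStat : Prop := ∀ (n : ℕ), 3 ≤ n → ∀ Γ : Subgroup (SL n), Disc Γ → Coc Γ →
  ∃ C b : ℝ, 0 < C ∧ 0 < b ∧ ∀ (h : PD n → Fm n) (δ : ℝ), 0 < δ → C * δ ≤ 1 → CmF ∞ h → Near Γ 6 δ h →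
    ∃ (c : ℝ) (ξ : PD n → Mt n →ₗ[ℝ] ℝ), Apx Γ (C * δ) (C * δ * δ ^ b) (fun p => h p - gF p) c ξ

/-- Board C: full local rigidity. -/
def CStat : Prop := QStat → ∀ (n : ℕ), 3 ≤ n → ∀ Γ : Subgroup (SL n), Disc Γ → Coc Γ →
  ∃ (m : ℕ) (ε : ℝ), 0 < ε ∧ ∀ h : PD n → Fm n, CmF ∞ h → Near Γ m ε h → LocSym h

end FL27
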