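import Pool.Agent.LibFL27.Defs

set_option autoImplicit false
set_option maxSynthPendingDepth 3

open Matrix MeasureTheory Topology Filter LibNC38
open LibNC27 hiding Mt
open scoped Matrix.Norms.Elementwise

namespace FL27

/-- distance to the identity: maximum of the entries of `q - 1` -/
noncomputable def dE {n : ℕ} (q : SL n) : ℝ := ‖q.1 - 1‖

/-- left `Γ`-invariant, bounded by `M` and Hölder `1/2` with constant `M` -/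
structure HB {n : ℕ} (Γ : Subgroup (SL n)) (M : ℝ) (F : Fn n) : Prop where
  inv : ∀ γ ∈ Γ, ∀ g, F (γ * g) = F g
  bd : ∀ g, |F g| ≤ M
  hol : ∀ g q : SL n, |F (g * q) - F g| ≤ M * √ (dE q)

/-- left `Γ`-invariant, bounded by `M` and Lipschitz with constant `M` -/
structure LB {n : ℕ} (Γ : Subgroup (SL n)) (M : ℝ) (F : Fn n) : Prop where
  inv : ∀ γ ∈ Γ, ∀ g, F (γ * g) = F g
  bd : ∀ g, |F g| ≤ M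
  lip : ∀ g q : SL n, |F (g * q) - F g| ≤ M * dE q

/-- `F'` is the derivative of `F` along the flow of `w` in integrated form, up to an error `σ` per
unit of time -/
def RQ {n : ℕ} (σ : ℝ) (w : V0 n) (F F' : Fn n) : Prop :=
  ∀ (g : SL n) (t : ℝ), |F (g * dgm (t • w)) - F g - ∫ s in (0 : ℝ)..t, F' (g * dgm (s • w))| ≤
    σ * (1 + |t|)

/-- hypotheses of the potential lemma for the root `(i, j)`, up to `σ` -/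
structure CloQ {n : ℕ} (Γ : Subgroup (SL n)) (M σ : ℝ) (i j : Fin n)
    (e : V0 n →ₗ[ℝ] Fn n) : Prop where
  hb : ∀ v : V0 n, ‖v‖ ≤ 2 → HB Γ M (e v)
  clo : ∀ l m : V0 n, ‖l‖ ≤ 2 → ‖m‖ ≤ 2 → ∀ (g : SL n) (s t : ℝ), |s| ≤ 1 → |t| ≤ 1 →
    |(∫ r in (0 : ℝ)..s, (e l (g * dgm (t • m) * dgm (r • l)) - e l (g * dgm (r • l)))) -
      ∫ r in (0 : ℝ)..t, (e m (g * dgm (s • l) * dgm (r • m)) - e m (g * dgm (r • m)))| ≤ σ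
  lip : LB Γ M (e (Hv i j))

/-- antisymmetry under the Weyl element on the kernel of the root, up to `σ` -/
def AntiQ {n : ℕ} (σ : ℝ) (i j : Fin n) (h : i ≠ j) (e : V0 n →ₗ[ℝ] Fn n) : Prop :=
  ∀ v : V0 n, ‖v‖ ≤ 2 → v.1 i = v.1 j → ∀ g, |e v (g * kk i j h) + e v g| ≤ σ

/-- the 2-jet along the flats with bounds -/
structure AbQ {n : ℕ} (Γ : Subgroup (SL n)) (M : ℝ) (A : V0 n →ₗ[ℝ] V0 n →ₗ[ℝ] Fn n)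
    (A1 : V0 n →ₗ[ℝ] V0 n →ₗ[ℝ] V0 n →ₗ[ℝ] Fn n)
    (A2 : V0 n →ₗ[ℝ] V0 n →ₗ[ℝ] V0 n →ₗ[ℝ] V0 n →ₗ[ℝ] Fn n) : Prop where
  ab : Ab Γ A A1 A2
  b0 : ∀ v w : V0 n, ‖v‖ ≤ 2 → ‖w‖ ≤ 2 → LB Γ M (A v w)
  b1 : ∀ x v w : V0 n, ‖x‖ ≤ 2 → ‖v‖ ≤ 2 → ‖w‖ ≤ 2 → LB Γ M (A1 x v w)
  b2 : ∀ x y v w : V0 n, ‖x‖ ≤ 2 → ‖y‖ ≤ 2 → ‖v‖ ≤ 2 → ‖w‖ ≤ 2 → ∀ g, |A2 x y v w g| ≤ M

/-- the linearised curvature of the flats is at most `σ` -/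
def FlatV {n : ℕ} (σ : ℝ) (A2 : V0 n →ₗ[ℝ] V0 n →ₗ[ℝ] V0 n →ₗ[ℝ] V0 n →ₗ[ℝ] Fn n) : Prop :=
  ∀ v w : V0 n, ‖v‖ ≤ 1 → ‖w‖ ≤ 1 → ∀ g : SL n,
    |A2 w w v v g - 2 * A2 w v v w g + A2 v v w w g| ≤ σ

/-- potentials up to `σ` -/
structure PotQ {n : ℕ} (Γ : Subgroup (SL n)) (M σ : ℝ) (A : V0 n →ₗ[ℝ] V0 n →ₗ[ℝ] Fn n)
    (A1 : V0 n →ₗ[ℝ] V0 n →ₗ[ℝ] V0 n →ₗ[ℝ] Fn n) (u : V0 n →ₗ[ℝ] Fn n)
    (T : V0 n →ₗ[ℝ] V0 n →ₗ[ℝ] Fn n) (c : ℝ) : Prop where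
  bc : |c| ≤ M
  hbu : ∀ v : V0 n, ‖v‖ ≤ 2 → HB Γ M (u v)
  hbT : ∀ v w : V0 n, ‖v‖ ≤ 2 → ‖w‖ ≤ 2 → HB Γ M (T v w)
  du : ∀ x v : V0 n, ‖x‖ ≤ 2 → ‖v‖ ≤ 2 → RQ σ x (u v) (fun g => A x v g + T x v g - c * inner ℝ x v)
  dT : ∀ x v w : V0 n, ‖x‖ ≤ 2 → ‖v‖ ≤ 2 → ‖w‖ ≤ 2 → RQ σ x (T v w) (om A1 v w x)
  antiu : ∀ (i j : Fin n) (h : i ≠ j) (g : SL n), |u (Hv i j) (g * kk i j h) + u (Hv i j) g| ≤ σ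
  antiT : ∀ (i j : Fin n) (h : i ≠ j) (v : V0 n), ‖v‖ ≤ 2 → ∀ g : SL n,
    |T v (Hv i j) (g * kk i j h) + T v (Hv i j) g| ≤ σ
  diag : ∀ v : V0 n, ‖v‖ ≤ 2 → ∀ g, |T v v g| ≤ σ

end FL27
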