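import Pool.Agent.LibNG38.Defs
import Pool.Agent.LibNC38.G5
import Pool.Agent.LibNC38.D4
import Pool.Agent.LibNC38.C3a
import Pool.Agent.LibNC27.V1

set_option autoImplicit false
set_option maxSynthPendingDepth 3

open Matrix MeasureTheory Topology Filter LibNC38
open LibNC27 hiding Mt

namespace FL27

private theorem E1_zero {n : ℕ} (x y : PD n) (h : dg x y = 0) : x = y := by
  by_contra hne
  obtain ⟨U, V, hU, hV, hx, hy, hd⟩ := t2_separation hne
  obtain ⟨ε, hε, h1⟩ := (dg_nhds x).1 U (hU.mem_nhds hx)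
  have h2 : y ∈ U := h1 y (by rw [h]; exact hε)
  exact (Set.disjoint_left.1 hd) h2 hy

private theorem E1_cont {n : ℕ} (ψ : PD n → PD n) (hψ : ∀ p q, dg (ψ p) (ψ q) = dg p q) :
    Continuous ψ := by
  rw [continuous_iff_continuousAt]
  intro p U hU
  obtain ⟨ε, hε, h1⟩ := (dg_nhds (ψ p)).1 U hU
  refine Filter.mem_map.2 ?_
  filter_upwards [(dg_nhds p).2 ε hε] with q hq
  exact h1 (ψ q) (by rw [hψ]; exact hq)

/-- An isometry of the symmetric space that commutes with `Γ` preserves all flats. -/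
theorem flat_pres {n : ℕ} (Γ : Subgroup (SL n)) (hd : Disc Γ) (hc : Coc Γ) (ψ : PD n → PD n)
    (hψ : ∀ p q, dg (ψ p) (ψ q) = dg p q) (hΓ : ∀ γ ∈ Γ, ∀ p, ψ (act γ p) = act γ (ψ p))
    (g : SL n) : ∃ y : V0 n, ψ (act g (o n)) = act g (sg y) := by
  obtain ⟨a1, a2, a3⟩ := act_facts (n := n)
  obtain ⟨-, -, -, f4, f5, -, -, -, f9, -, f11, -⟩ := flat_facts (n := n)
  obtain ⟨-, -, p3, -, -⟩ := Pr_facts (n := n)
  have hcψ := E1_cont ψ hψ
  have hq : Continuous fun h : SL n => act h⁻¹ (ψ (act h (o n))) := by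
    have h1 : Continuous fun h : SL n => act h (o n) :=
      a3.comp (continuous_id.prodMk continuous_const)
    exact a3.comp (continuous_inv.prodMk (hcψ.comp h1))
  have hcl : IsClosed {h : SL n | act h⁻¹ (ψ (act h (o n))) =
      sg (Pr (act h⁻¹ (ψ (act h (o n)))))} :=
    isClosed_eq hq (f9.comp (p3.comp hq))
  have hinv : ∀ (h : SL n) (x : PD n), act h (act h⁻¹ x) = x := fun h x => by
    rw [← a2, mul_inv_cancel, a1]
  have hden : Dense {h : SL n | act h⁻¹ (ψ (act h (o n))) =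
      sg (Pr (act h⁻¹ (ψ (act h (o n)))))} := by
    intro g0
    rw [mem_closure_iff_nhds]
    intro U hU
    obtain ⟨h, hhU, α, hα, hr, hΓα⟩ := dens Γ hd hc g0 U hU
    refine ⟨h, hhU, ?_⟩
    obtain ⟨z, hz⟩ := f5 α hα
    set q : PD n := act h⁻¹ (ψ (act h (o n))) with hqd
    have e1 : act (h * α * h⁻¹) (ψ (act h (o n))) = ψ (act h (act α (o n))) := by
      rw [← hΓ _ hΓα, ← a2, ← a2]
      congr 2
      rw [inv_mul_cancel_right]
    have e2 : act h (act α q) = ψ (act h (act α (o n))) := by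
      rw [← e1, hqd, ← a2, ← a2]
    have e3 : dg q (act α q) = 2 * ‖z‖ := by
      rw [← dg_act h, e2, hqd, hinv, hψ, dg_act, ← f11, f4 α z 0 hz, ← a1 (sg (0 : V0 n)),
        ← a1 (sg ((0 : V0 n) + z)), dg_flat, zero_add, zero_sub, norm_neg]
    have e4 : dg q (sg (Pr q)) = 0 := by
      refine le_antisymm (le_of_forall_pos_le_add fun ε hε => ?_) (dg_facts.1 _ _)
      obtain ⟨η, hη, h1⟩ := near_flat α z hz hr ε hε
      have h2 := h1 q (by rw [e3]; linarith)
      linarith
    exact E1_zero _ _ e4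
  have h1 : g ∈ {h : SL n | act h⁻¹ (ψ (act h (o n))) =
      sg (Pr (act h⁻¹ (ψ (act h (o n)))))} := by
    rw [← hcl.closure_eq]
    exact hden g
  refine ⟨Pr (act g⁻¹ (ψ (act g (o n)))), ?_⟩
  rw [← h1, hinv]

/-- An isometry of the symmetric space that commutes with `Γ` is the identity. -/
theorem cliff_id {n : ℕ} (hn : 2 ≤ n) (Γ : Subgroup (SL n)) (hd : Disc Γ) (hc : Coc Γ)
    (ψ : PD n → PD n) (hψ : ∀ p q, dg (ψ p) (ψ q) = dg p q)
    (hΓ : ∀ γ ∈ Γ, ∀ p, ψ (act γ p) = act γ (ψ p)) (p : PD n) : ψ p = p := by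
  obtain ⟨a1, a2, a3⟩ := act_facts (n := n)
  obtain ⟨f1, -, -, -, -, -, -, -, -, -, f11, -⟩ := flat_facts (n := n)
  have hfl := flat_pres Γ hd hc ψ hψ hΓ
  obtain ⟨y, hy⟩ := hfl (tch p)
  have hyc : ∀ i j : Fin n, i ≠ j → y.1 i = y.1 j := by
    intro i j hij
    obtain ⟨r1, r2, -⟩ := rot_facts i j hij
    set k : SL n := rot i j (Real.pi / 4) with hk
    have hko : act k (o n) = o n := by
      apply Subtype.ext
      show k.1 * (1 : Mt n) * k.1ᵀ = 1
      rw [mul_one]
      exact r2 _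
    obtain ⟨y', hy'⟩ := hfl (tch p * k)
    rw [a2, hko, hy, a2] at hy'
    have h1 : sg y = act k (sg y') := by
      have h2 := congrArg (act (tch p)⁻¹) hy'
      rw [← a2, ← a2, inv_mul_cancel, a1, a1] at h2
      exact h2
    have h2 : (sg y).1 * k.1 = k.1 * (sg y').1 := by
      have h3 : (sg y).1 = k.1 * (sg y').1 * k.1ᵀ := congrArg Subtype.val h1
      have h4 : k.1ᵀ * k.1 = 1 := mul_eq_one_comm.1 (r2 _)
      rw [h3, Matrix.mul_assoc, h4, Matrix.mul_one]
    rw [f1, f1] at h2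
    have h3 : ∀ a b, Real.exp (2 * y.1 a) * k.1 a b = k.1 a b * Real.exp (2 * y'.1 b) := by
      intro a b
      have h4 := congrFun (congrFun h2 a) b
      rwa [Matrix.diagonal_mul, Matrix.mul_diagonal] at h4
    have hs : Real.sin (Real.pi / 4) ≠ 0 := by
      rw [Real.sin_pi_div_four]
      positivity
    have hcs : Real.cos (Real.pi / 4) ≠ 0 := by
      rw [Real.cos_pi_div_four]
      positivity
    have k1 : k.1 i j = Real.sin (Real.pi / 4) := by
      rw [hk, r1]
      unfold rotM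
      rw [if_pos rfl, if_neg hij.symm, if_pos rfl]
    have k2 : k.1 j j = Real.cos (Real.pi / 4) := by
      rw [hk, r1]
      unfold rotM
      rw [if_neg hij.symm, if_pos rfl, if_pos rfl]
    have e1 := h3 i j
    have e2 := h3 j j
    rw [k1, mul_comm] at e1
    rw [k2, mul_comm] at e2
    have e3 := mul_left_cancel₀ hs e1
    have e4 := mul_left_cancel₀ hcs e2
    have e5 := Real.exp_injective (e3.trans e4.symm)
    linarith
  have hy0 : y = 0 := by
    apply Subtype.ext
    ext i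
    have hs : ∑ j, y.1 j = 0 := y.2
    have h1 : ∀ j, y.1 j = y.1 i := fun j => by
      by_cases h : j = i
      · rw [h]
      · exact hyc j i h
    rw [Finset.sum_congr rfl fun j _ => h1 j, Finset.sum_const, Finset.card_univ, Fintype.card_fin,
      nsmul_eq_mul] at hs
    have hn0 : (n : ℝ) ≠ 0 := by
      have : 0 < n := by omega
      positivity
    exact (mul_eq_zero.1 hs).resolve_left hn0
  rw [← tch_eq p] at hy
  rw [hy, hy0, f11, ← tch_eq p]

end FL27
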