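import Pool.Agent.LibFL27.HBase
import Pool.Agent.LibFL27.A10
import Pool.Agent.LibNG38.GC1
import Pool.Agent.LibNG38.GK0
import Pool.Agent.LibNS38.D5

set_option autoImplicit false
set_option maxSynthPendingDepth 3

open Matrix MeasureTheory Topology Filter LibNC38
open LibNC27 hiding Mt
open scoped Matrix.Norms.Elementwise ContDiff

namespace FL27

private theorem H2_conn {n : ℕ} (N : PD n → Mt n → ℝ) (r : ℝ) {p q : PD n} {l : ℝ}
    (h : ConnN N p q l) : ConnN (fun x v => r * N x v) p q (r * l) := by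
  induction h with
  | seg c v hc =>
    have h1 : r * lenN N c v = lenN (fun x v => r * N x v) c v := by
      unfold lenN
      rw [intervalIntegral.integral_const_mul]
    rw [h1]
    exact ConnN.seg c v hc
  | trans _ _ ih1 ih2 =>
    rw [mul_add]
    exact ConnN.trans ih1 ih2

open scoped Pointwise in
private theorem H2_dN {n : ℕ} (N : PD n → Mt n → ℝ) (r : ℝ) (hr : 0 < r) (p q : PD n) :
    dN (fun x v => r * N x v) p q = r * dN N p q := by
  have hset : {l | ConnN (fun x v => r * N x v) p q l} = r • {l | ConnN N p q l} := by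
    ext l
    rw [Set.mem_smul_set_iff_inv_smul_mem₀ hr.ne', smul_eq_mul]
    constructor
    · intro hl
      have h1 := H2_conn (fun x v => r * N x v) r⁻¹ hl
      have e : (fun (x : PD n) (v : Mt n) => r⁻¹ * (r * N x v)) = N := by
        funext x v
        rw [← mul_assoc, inv_mul_cancel₀ hr.ne', one_mul]
      rw [e] at h1
      exact h1
    · intro hl
      have h1 := H2_conn N r (show ConnN N p q (r⁻¹ * l) from hl)
      rw [← mul_assoc, mul_inv_cancel₀ hr.ne', one_mul] at h1
      exact h1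
  unfold dN
  rw [hset, Real.sInf_smul_of_nonneg hr.le, smul_eq_mul]

/-- only the norms of tangent vectors matter -/
private theorem H2_eq {n : ℕ} (N N' : PD n → Mt n → ℝ) (h : ∀ p v, IsTan p v → N p v = N' p v)
    {p q : PD n} {l : ℝ} (H : ConnN N p q l) : ConnN N' p q l := by
  induction H with
  | seg c v hc =>
    have h1 : lenN N c v = lenN N' c v := by
      unfold lenN
      exact intervalIntegral.integral_congr fun s _ => h (c s) (v s) (tan_facts.1 c v hc s)
    rw [h1]
    exact ConnN.seg c v hc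
  | trans _ _ ih1 ih2 => exact ConnN.trans ih1 ih2

private theorem H2_dN_eq {n : ℕ} (N N' : PD n → Mt n → ℝ)
    (h : ∀ p v, IsTan p v → N p v = N' p v) (p q : PD n) : dN N p q = dN N' p q := by
  unfold dN
  congr 1
  ext l
  exact ⟨H2_eq N N' h, H2_eq N' N fun p v hv => (h p v hv).symm⟩

private theorem H2_gn {n : ℕ} (Γ : Subgroup (SL n)) (m : PD n → Fm n) (r : ℝ) (hr : 0 ≤ r)
    (hr1 : r ≤ 1 / 2) (hm : FmOK Γ m) (htb : TB 3 r (fun p => m p - gF p)) :
    GN (nrm m) (1 - r) (1 + r) := by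
  have hspd : ∀ (p : PD n) (v : Mt n), 0 ≤ spd p v := fun p v => Real.sqrt_nonneg _
  have hb : ∀ p v, IsTan p v → (1 - r) * spd p v ^ 2 ≤ m p v v ∧ m p v v ≤ (1 + r) * spd p v ^ 2 := by
    intro p v hv
    have h1 := abs_le.1 (near_form m r 3 htb p v hv)
    constructor
    · linarith [h1.1]
    · linarith [h1.2]
  refine ⟨?_, ?_, by linarith, ?_, ?_⟩
  · exact (Real.continuous_sqrt.comp (fm_cont Γ m hm)).continuousOn
  · intro p v _ s
    unfold nrm
    have e : m p (s • v) (s • v) = s ^ 2 * m p v v := by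
      rw [LinearMap.map_smul₂, map_smul, smul_eq_mul, smul_eq_mul]
      ring
    rw [e, Real.sqrt_mul (sq_nonneg s), Real.sqrt_sq_eq_abs]
  · intro p v hv
    unfold nrm
    have h1 := (hb p v hv).1
    refine Real.le_sqrt_of_sq_le (le_trans ?_ h1)
    rw [mul_pow]
    refine mul_le_mul_of_nonneg_right ?_ (sq_nonneg _)
    nlinarith
  · intro p v hv
    unfold nrm
    have h1 := (hb p v hv).2
    refine Real.sqrt_le_iff.2 ⟨mul_nonneg (by linarith) (hspd p v), h1.trans ?_⟩
    rw [mul_pow]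
    refine mul_le_mul_of_nonneg_right ?_ (sq_nonneg _)
    nlinarith

/-- Row H2. Distances: metrics close to `g` have `dN` close to `dg`, and homotheties scale distances. PLAN.
`TB 3 r` gives `|m_p(v,v) - |v|²| ≤ C r |v|²` (A10 `near_form` of LibFL27, or: `v = g V gᵀ`, expand `V` in the
matrices with entries in `[-1,1]`), so `GN (nrm m) (1 - C r) (1 + C r)`, `dN_comp` (LibNG38/GC1). Second part:
`dN_pul` (D5), scaling as in `D6_dN`, equality of the norms on tangent vectors only (induction on `ConnN`, or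
`connN_facts`; velocities are tangent, `tan_facts`). -/
theorem gs_metric (n : ℕ) : ∃ K : ℝ, 1 ≤ K ∧
    (∀ (Γ : Subgroup (SL n)) (m : PD n → Fm n) (r : ℝ), 0 ≤ r → K * r ≤ 1 / 2 → FmOK Γ m →
      (∀ p v, IsTan p v → v ≠ 0 → 0 < m p v v) → TB 3 r (fun p => m p - gF p) → ∀ p q,
      (1 - K * r) * dg p q ≤ dN (nrm m) p q ∧ dN (nrm m) p q ≤ (1 + K * r) * dg p q) ∧
    (∀ (Γ : Subgroup (SL n)) (φ : PD n → PD n) (h m : PD n → Fm n) (c : ℝ), Dfm Γ φ → 0 < c →
      (∀ p v, IsTan p v → pul φ h p v v = c * m p v v) → ∀ p q,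
      dN (nrm h) (φ p) (φ q) = √ c * dN (nrm m) p q) := by
  refine ⟨1, le_refl 1, ?_, ?_⟩
  · intro Γ m r hr hr1 hm _ htb p q
    rw [one_mul] at hr1 ⊢
    have h1 := dN_comp (nrm m) (1 - r) (1 + r) (H2_gn Γ m r hr hr1 hm htb)
    exact ⟨h1.1 p q, h1.2 p q⟩
  · intro Γ φ h m c hφ hc hpul p q
    rw [← dN_pul Γ φ hφ h p q, ← H2_dN (nrm m) (√ c) (Real.sqrt_pos.2 hc) p q]
    refine H2_dN_eq _ _ (fun x v hv => ?_) p q
    show √ (pul φ h x v v) = √ c * √ (m x v v)
    rw [hpul x v hv, Real.sqrt_mul hc.le]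

end FL27
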