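import Pool.Agent.LibFL27.PDefs
import Pool.Agent.LibFL27.B3
import Pool.Agent.LibFL27.B2
import Pool.Agent.LibNC38.G5
import Pool.Agent.LibNC38.C2

set_option autoImplicit false
set_option maxSynthPendingDepth 3

open Matrix MeasureTheory Topology Filter LibNC38
open LibNC27 hiding Mt
open scoped Matrix.Norms.Elementwise ContDiff

namespace FL27

private theorem P9_act_mul {n : ℕ} (g h : SL n) (p : PD n) : act (g * h) p = act g (act h p) := by
  apply Subtype.ext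
  show (g.1 * h.1) * p.1 * (g.1 * h.1)ᵀ = g.1 * (h.1 * p.1 * h.1ᵀ) * g.1ᵀ
  rw [Matrix.transpose_mul]
  simp only [Matrix.mul_assoc]

private theorem P9_ne {n : ℕ} (g : SL n) (h : IsDiag g) (i : Fin n) : g.1 i i ≠ 0 := by
  intro h0
  have h1 : g.1.det = 0 := by
    refine Matrix.det_eq_zero_of_row_eq_zero i fun j => ?_
    by_cases hij : i = j
    · rw [← hij]; exact h0
    · exact h i j hij
  rw [g.2] at h1
  exact one_ne_zero h1

private theorem P9_pow {n : ℕ} (α : SL n) (z : V0 n) (hz : IsLog α z) (N : ℕ) :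
    IsLog (α ^ N) ((N : ℝ) • z) := by
  obtain ⟨-, -, h3, -, -, hmul, -, -, -, -, -, h1⟩ := flat_facts (n := n)
  induction N with
  | zero =>
    rw [pow_zero, Nat.cast_zero, zero_smul, ← h1]
    exact h3 0
  | succ N ih =>
    have e : ((N + 1 : ℕ) : ℝ) • z = (N : ℝ) • z + z := by
      rw [Nat.cast_add, Nat.cast_one, add_smul, one_smul]
    rw [pow_succ, e]
    exact hmul _ _ _ _ ih hz

/-- Row P9. An element of `Γ` with linear growth. PLAN. There are `x`, `v ≠ 0` with `x * dgm v * x⁻¹ ∈ Γ`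
(closing lemma: `trans` / `closing2` of board B, or `LibNC38` G5, G6); `dg (o) (act (dgm (N v)) o) = 2 N ‖v‖`
(flats), conjugation changes `dg (p, γ p)` by at most `2 dg (o, act x o)`. -/
theorem growth {n : ℕ} (hn : 3 ≤ n) (Γ : Subgroup (SL n)) (hd : Disc Γ) (hc : Coc Γ) :
    ∃ γ ∈ Γ, ∃ a : ℝ, 0 < a ∧ ∃ K : ℝ, ∀ N : ℕ, a * N ≤ dg (o n) (act (γ ^ N) (o n)) + K := by
  obtain ⟨h, -, α, hα, hr, hΓ⟩ := dens Γ hd hc 1 Set.univ Filter.univ_mem
  obtain ⟨-, -, -, hsg, hdiag, -, -, -, -, -, h0, -⟩ := flat_facts (n := n)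
  obtain ⟨-, -, dsymm, dtri⟩ := dg_facts (n := n)
  obtain ⟨z, hz⟩ := hdiag α hα
  have hz0 : z ≠ 0 := by
    intro hz1
    have h2 : ∀ i, |α.1 i i| = 1 := by
      intro i
      have h3 := hz.2 i
      rw [hz1] at h3
      have h4 : Real.log |α.1 i i| = 0 := h3.symm
      have h5 : 0 < |α.1 i i| := abs_pos.2 (P9_ne α hα i)
      have h6 := Real.exp_log h5
      rw [h4, Real.exp_zero] at h6
      exact h6.symm
    have h7 : (⟨0, by omega⟩ : Fin n) ≠ ⟨1, by omega⟩ := by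
      intro h8
      have := congrArg Fin.val h8
      simp at this
    exact hr _ _ h7 ((h2 _).trans (h2 _).symm)
  refine ⟨h * α * h⁻¹, hΓ, 2 * ‖z‖, mul_pos two_pos (norm_pos_iff.2 hz0),
    dg (act h (o n)) (o n) + dg (o n) (act h⁻¹ (o n)), fun N => ?_⟩
  have e1 : (h * α * h⁻¹) ^ N = h * α ^ N * h⁻¹ := conj_pow
  have e2 : act (α ^ N) (o n) = sg ((N : ℝ) • z) := by
    rw [← h0, hsg _ _ _ (P9_pow α z hz N), zero_add]
  have e3 : dg (act h (o n)) (act h (act (α ^ N) (o n))) = 2 * ‖z‖ * N := by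
    rw [e2, ← h0, dg_flat, zero_sub, norm_neg, norm_smul, Real.norm_eq_abs,
      abs_of_nonneg (Nat.cast_nonneg N)]
    ring
  have e4 : dg (act (h * α ^ N) (o n)) (act (h * α ^ N * h⁻¹) (o n)) = dg (o n) (act h⁻¹ (o n)) := by
    rw [P9_act_mul (h * α ^ N) h⁻¹, dg_act]
  have e5 : act h (act (α ^ N) (o n)) = act (h * α ^ N) (o n) := (P9_act_mul _ _ _).symm
  rw [e5] at e3
  rw [e1]
  have t1 := dtri (act h (o n)) (o n) (act (h * α ^ N) (o n))
  have t2 := dtri (o n) (act (h * α ^ N * h⁻¹) (o n)) (act (h * α ^ N) (o n))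
  rw [dsymm (act (h * α ^ N * h⁻¹) (o n)) (act (h * α ^ N) (o n)), e4] at t2
  linarith

end FL27
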