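import Pool.Agent.LibFL27.PDefs
import Pool.Agent.LibFL27.P9
import Pool.Agent.LibFL27.H2

set_option autoImplicit false
set_option maxSynthPendingDepth 3

open Matrix MeasureTheory Topology Filter LibNC38
open LibNC27 hiding Mt
open scoped Matrix.Norms.Elementwise ContDiff

namespace FL27

private theorem P10_gn {n : ℕ} (Γ : Subgroup (SL n)) (m : PD n → Fm n) (a b : ℝ) (ha : 0 < a) (hb0 : 0 ≤ b)
    (hm : FmOK Γ m) (hb : ∀ p v, IsTan p v → a ^ 2 * spd p v ^ 2 ≤ m p v v ∧ m p v v ≤ b ^ 2 * spd p v ^ 2) :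
    GN (nrm m) a b := by
  have hspd : ∀ (p : PD n) (v : Mt n), 0 ≤ spd p v := fun p v => Real.sqrt_nonneg _
  refine ⟨?_, ?_, ha, ?_, ?_⟩
  · exact (Real.continuous_sqrt.comp (fm_cont Γ m hm)).continuousOn
  · intro p v _ s
    unfold nrm
    have e : m p (s • v) (s • v) = s ^ 2 * m p v v := by
      rw [LinearMap.map_smul₂, map_smul, smul_eq_mul, smul_eq_mul]
      ring
    rw [e, Real.sqrt_mul (sq_nonneg s), Real.sqrt_sq_eq_abs]
  · intro p v hv
    unfold nrm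
    refine Real.le_sqrt_of_sq_le ?_
    rw [mul_pow]
    exact (hb p v hv).1
  · intro p v hv
    unfold nrm
    refine Real.sqrt_le_iff.2 ⟨mul_nonneg hb0 (hspd p v), ?_⟩
    rw [mul_pow]
    exact (hb p v hv).2

private theorem P10_lim (d : ℕ → ℝ) (a K s t C : ℝ) (ha : 0 < a) (hd : ∀ N : ℕ, a * N ≤ d N + K)
    (h : ∀ N : ℕ, s * d N ≤ t * d N + C) : s ≤ t := by
  by_contra hcon
  push Not at hcon
  have h0 : 0 < s - t := sub_pos.2 hcon
  obtain ⟨N, hN⟩ := exists_nat_gt ((C / (s - t) + K) / a)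
  rw [div_lt_iff₀ ha] at hN
  have h1 := hd N
  have h2 : C / (s - t) < d N := by
    have e : a * (N : ℝ) = N * a := mul_comm _ _
    linarith
  rw [div_lt_iff₀ h0] at h2
  have h3 := h N
  nlinarith

/-- Row P10. The constant of a homothety. PLAN. `dN (nrm h) (φ p) (γ^N φ p) = √c dg p (γ^N p)` (`gs_metric`, H2,
second part, with `m = gF`; `φ` equivariant), `B^(-1/2) dg ≤ dN (nrm h) ≤ B^(1/2) dg` (`dN_comp`), and
`dg q (γ^N q)` differs from `dg o (γ^N o)` by at most `2 dg o q`; divide by `N → ∞` (growth). -/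
theorem hom_const {n : ℕ} (hn : 3 ≤ n) (Γ : Subgroup (SL n)) (hd : Disc Γ) (hc : Coc Γ) (B : ℝ)
    (hB : 1 ≤ B) (h : PD n → Fm n) (hh : SMet Γ h)
    (hb : ∀ p v, IsTan p v → B⁻¹ * spd p v ^ 2 ≤ h p v v ∧ h p v v ≤ B * spd p v ^ 2)
    (φ : PD n → PD n) (c : ℝ) (hφ : Dfm Γ φ) (hc0 : 0 < c)
    (hp : ∀ p v, IsTan p v → pul φ h p v v = c * gF p v v) : B⁻¹ ≤ c ∧ c ≤ B := by
  obtain ⟨d0, d1, d2, d3⟩ := @dg_facts n
  obtain ⟨γ, hγ, a, ha, K, hgr⟩ := growth hn Γ hd hc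
  obtain ⟨K', -, -, hgs⟩ := gs_metric n
  have hB0 : 0 < B := by linarith
  have hgn1 : GN (nrm h) (√ B⁻¹) (√ B) := by
    refine P10_gn Γ h _ _ (Real.sqrt_pos.2 (inv_pos.2 hB0)) (Real.sqrt_nonneg _) hh.ok fun p v hv => ?_
    rw [Real.sq_sqrt (inv_pos.2 hB0).le, Real.sq_sqrt hB0.le]
    exact hb p v hv
  have hgn2 : GN (nrm (gF : PD n → Fm n)) 1 1 := by
    refine P10_gn Γ gF 1 1 one_pos zero_le_one (fmOK_gF Γ) fun p v hv => ?_
    rw [gF_self p v hv]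
    simp
  have hc1 := dN_comp _ _ _ hgn1
  have hc2 := dN_comp _ _ _ hgn2
  have hdg : ∀ p q : PD n, dN (nrm (gF : PD n → Fm n)) p q = dg p q := fun p q =>
    le_antisymm (by have := hc2.2 p q; rwa [one_mul] at this) (by have := hc2.1 p q; rwa [one_mul] at this)
  obtain ⟨x, hx⟩ : ∃ x, x = φ (o n) := ⟨_, rfl⟩
  have key : ∀ N : ℕ, dN (nrm h) x (act (γ ^ N) x) = √ c * dg (o n) (act (γ ^ N) (o n)) := by
    intro N
    have h1 := hgs Γ φ h gF c hφ hc0 hp (o n) (act (γ ^ N) (o n))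
    rw [hφ.equi _ (Γ.pow_mem hγ N), ← hx, hdg] at h1
    exact h1
  have hup : ∀ N : ℕ, dg x (act (γ ^ N) x) ≤ dg (o n) (act (γ ^ N) (o n)) + 2 * dg (o n) x := by
    intro N
    have h1 := d3 x (o n) (act (γ ^ N) x)
    have h2 := d3 (o n) (act (γ ^ N) (o n)) (act (γ ^ N) x)
    rw [dg_act] at h2
    rw [d2 x (o n)] at h1
    linarith
  have hlo : ∀ N : ℕ, dg (o n) (act (γ ^ N) (o n)) ≤ dg x (act (γ ^ N) x) + 2 * dg (o n) x := by
    intro N
    have h1 := d3 (o n) x (act (γ ^ N) (o n))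
    have h2 := d3 x (act (γ ^ N) x) (act (γ ^ N) (o n))
    rw [dg_act, d2 x (o n)] at h2
    linarith
  have hsB : 0 ≤ √ B := Real.sqrt_nonneg _
  have hsB' : 0 ≤ √ B⁻¹ := Real.sqrt_nonneg _
  constructor
  · have h1 : √ B⁻¹ ≤ √ c := by
      refine P10_lim (fun N => dg (o n) (act (γ ^ N) (o n))) a K _ _ (√ B⁻¹ * (2 * dg (o n) x)) ha hgr
        fun N => ?_
      have h2 := hc1.1 x (act (γ ^ N) x)
      rw [key N] at h2
      have h3 := mul_le_mul_of_nonneg_left (hlo N) hsB'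
      show √ B⁻¹ * dg (o n) (act (γ ^ N) (o n)) ≤
        √ c * dg (o n) (act (γ ^ N) (o n)) + √ B⁻¹ * (2 * dg (o n) x)
      linarith
    exact (Real.sqrt_le_sqrt_iff hc0.le).1 h1
  · have h1 : √ c ≤ √ B := by
      refine P10_lim (fun N => dg (o n) (act (γ ^ N) (o n))) a K _ _ (√ B * (2 * dg (o n) x)) ha hgr
        fun N => ?_
      have h2 := hc1.2 x (act (γ ^ N) x)
      rw [key N] at h2
      have h3 := mul_le_mul_of_nonneg_left (hup N) hsB
      show √ c * dg (o n) (act (γ ^ N) (o n)) ≤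
        √ B * dg (o n) (act (γ ^ N) (o n)) + √ B * (2 * dg (o n) x)
      linarith
    exact (Real.sqrt_le_sqrt_iff hB0.le).1 h1

end FL27
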