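import Pool.Agent.LibFL27.E1
import Pool.Agent.LibFL27.P10

set_option autoImplicit false
set_option maxSynthPendingDepth 3

open Matrix MeasureTheory Topology Filter LibNC38
open LibNC27 hiding Mt
open scoped Matrix.Norms.Elementwise ContDiff

namespace FL27

private theorem E2_gn {n : ℕ} (Γ : Subgroup (SL n)) (m : PD n → Fm n) (a b : ℝ) (ha : 0 < a) (hb0 : 0 ≤ b)
    (hm : FmOK Γ m) (hb : ∀ p v, IsTan p v → a ^ 2 * spd p v ^ 2 ≤ m p v v ∧ m p v v ≤ b ^ 2 * spd p v ^ 2) :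
    GN (nrm m) a b := by
  have hspd : ∀ (p : PD n) (v : Mt n), 0 ≤ spd p v := fun p v => Real.sqrt_nonneg _
  refine ⟨?_, ?_, ha, ?_, ?_⟩
  · exact (Real.continuous_sqrt.comp (fm_cont Γ m hm)).continuousOn
  · intro p v _ s
    unfold nrm
    have e : m p (s • v) (s • v) = s ^ 2 * m p v v := by
      rw [LinearMap.map_smul₂, map_smul, smul_eq_mul, smul_eq_mul]
      ring
    rw [e, Real.sqrt_mul (sq_nonneg s), Real.sqrt_sq_eq_abs]
  · intro p v hv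
    unfold nrm
    refine Real.le_sqrt_of_sq_le ?_
    rw [mul_pow]
    exact (hb p v hv).1
  · intro p v hv
    unfold nrm
    refine Real.sqrt_le_iff.2 ⟨mul_nonneg hb0 (hspd p v), ?_⟩
    rw [mul_pow]
    exact (hb p v hv).2

/-- The equivariance of the diffeomorphism: `φ` commutes with all common isometries `τ` of `g` and `h`
that normalise `Γ`. -/
theorem equi_iso {n : ℕ} (hn : 3 ≤ n) (Γ : Subgroup (SL n)) (hd : Disc Γ) (hc : Coc Γ)
    (h : PD n → Fm n) (φ : PD n → PD n) (c : ℝ) (hφ : Dfm Γ φ) (hc0 : 0 < c)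
    (hp : ∀ p v, IsTan p v → pul φ h p v v = c * gF p v v)
    (τ : PD n → PD n) (hτ : SmX τ) (hinv : ∃ σ : PD n → PD n, SmX σ ∧ (∀ p, σ (τ p) = p) ∧
      ∀ p, τ (σ p) = p)
    (hg : ∀ p v, IsTan p v → pul τ gF p v v = gF p v v)
    (hh : ∀ p v, IsTan p v → pul τ h p v v = h p v v)
    (hN : ∀ γ ∈ Γ, ∃ γ' ∈ Γ, ∀ p, τ (act γ' p) = act γ (τ p)) (p : PD n) :
    φ (τ p) = τ (φ p) := by
  obtain ⟨a1, a2, a3⟩ := act_facts (n := n)
  obtain ⟨σ, hσ, e1, e2⟩ := hinv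
  obtain ⟨χ, hχ, f1, f2⟩ := hφ.inv
  obtain ⟨-, -, -, hgs⟩ := gs_metric n
  have hT : Dfm (⊥ : Subgroup (SL n)) τ := by
    refine ⟨hτ, fun γ hγ p => ?_, σ, hσ, e1, e2⟩
    rw [Subgroup.mem_bot.1 hγ, a1, a1]
  have hgn2 : GN (nrm (gF : PD n → Fm n)) 1 1 := by
    refine E2_gn Γ gF 1 1 one_pos zero_le_one (fmOK_gF Γ) fun p v hv => ?_
    rw [gF_self p v hv]
    simp
  have hc2 := dN_comp _ _ _ hgn2
  have hdg : ∀ p q : PD n, dN (nrm (gF : PD n → Fm n)) p q = dg p q := fun p q =>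
    le_antisymm (by have := hc2.2 p q; rwa [one_mul] at this) (by have := hc2.1 p q; rwa [one_mul] at this)
  have d1 : ∀ p q, dN (nrm h) (φ p) (φ q) = √ c * dg p q := fun p q => by
    rw [hgs Γ φ h gF c hφ hc0 hp p q, hdg]
  have d2 : ∀ p q, dN (nrm h) (τ p) (τ q) = dN (nrm h) p q := fun p q => by
    rw [hgs ⊥ τ h h 1 hT one_pos (fun p v hv => by rw [hh p v hv, one_mul]) p q, Real.sqrt_one,
      one_mul]
  have d3 : ∀ p q, dg (τ p) (τ q) = dg p q := fun p q => by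
    rw [← hdg, ← hdg, hgs ⊥ τ gF gF 1 hT one_pos (fun p v hv => by rw [hg p v hv, one_mul]) p q,
      Real.sqrt_one, one_mul]
  have hχe : ∀ γ ∈ Γ, ∀ x, χ (act γ x) = act γ (χ x) := fun γ hγ x => by
    rw [← f1 (act γ (χ x)), hφ.equi γ hγ, f2]
  have hψ : ∀ x y, dg (χ (τ (φ (σ x)))) (χ (τ (φ (σ y)))) = dg x y := by
    intro x y
    have h1 := d1 (χ (τ (φ (σ x)))) (χ (τ (φ (σ y))))
    rw [f2, f2, d2, d1] at h1
    have h2 := mul_left_cancel₀ (Real.sqrt_pos.2 hc0).ne' h1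
    rw [← h2, ← d3, e2, e2]
  have hcm : ∀ γ ∈ Γ, ∀ x, χ (τ (φ (σ (act γ x)))) = act γ (χ (τ (φ (σ x)))) := by
    intro γ hγ x
    obtain ⟨γ', hγ', h1⟩ := hN γ hγ
    have h2 : σ (act γ x) = act γ' (σ x) := by
      rw [← e1 (act γ' (σ x)), h1, e2]
    rw [h2, hφ.equi γ' hγ', h1, hχe γ hγ]
  have h1 := cliff_id (by omega) Γ hd hc (fun x => χ (τ (φ (σ x)))) hψ hcm (τ p)
  have h2 : φ (χ (τ (φ (σ (τ p))))) = φ (τ p) := congrArg φ h1
  rw [f2, e1] at h2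
  exact h2.symm

end FL27
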