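import Pool.Agent.LibFL27.HBase
import Pool.Agent.LibFL27.CG8

set_option autoImplicit false
set_option maxSynthPendingDepth 3

open Matrix MeasureTheory Topology Filter LibNC38
open LibNC27 hiding Mt
open scoped Matrix.Norms.Elementwise ContDiff

namespace FL27

private noncomputable def H1_Phi {n : ℕ} (φ : ℕ → PD n → PD n) : ℕ → PD n → PD n
  | 0 => fun p => p
  | j + 1 => fun p => H1_Phi φ j (φ j p)

private theorem H1_const (ρ : ℝ) (hρ : 0 < ρ) (hρ1 : ρ ≤ 1 / 8) (cs : ℕ → ℝ)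
    (hc : ∀ j, |cs j - 1| ≤ ρ * (1 / 2) ^ j) (j : ℕ) :
    |∏ i ∈ Finset.range j, cs i - 1| ≤ 4 * ρ * (1 - (1 / 2) ^ j) := by
  induction j with
  | zero => simp
  | succ j ih =>
    have h2 : (0 : ℝ) < (1 / 2) ^ j := by positivity
    have h1 : ∏ i ∈ Finset.range j, cs i ≤ 2 := by
      have h3 := (abs_le.1 ih).2
      nlinarith
    have h0 : 0 ≤ ∏ i ∈ Finset.range j, cs i := by
      have h3 := (abs_le.1 ih).1
      nlinarith
    rw [Finset.prod_range_succ]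
    set P := ∏ i ∈ Finset.range j, cs i with hP
    have h4 : P * cs j - 1 = (P - 1) + P * (cs j - 1) := by ring
    have h5 : |P * (cs j - 1)| ≤ 2 * (ρ * (1 / 2) ^ j) := by
      rw [abs_mul, abs_of_nonneg h0]
      exact mul_le_mul h1 (hc j) (abs_nonneg _) (by norm_num)
    rw [h4]
    calc |P - 1 + P * (cs j - 1)| ≤ |P - 1| + |P * (cs j - 1)| := abs_add_le _ _
      _ ≤ 4 * ρ * (1 - (1 / 2) ^ j) + 2 * (ρ * (1 / 2) ^ j) := add_le_add ih h5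
      _ = 4 * ρ * (1 - (1 / 2) ^ (j + 1)) := by rw [pow_succ]; ring

private theorem H1_bd (ρ : ℝ) (hρ : 0 < ρ) (hρ1 : ρ ≤ 1 / 8) (cs : ℕ → ℝ)
    (hc : ∀ j, |cs j - 1| ≤ ρ * (1 / 2) ^ j) (j : ℕ) :
    1 / 2 ≤ ∏ i ∈ Finset.range j, cs i ∧ ∏ i ∈ Finset.range j, cs i ≤ 2 := by
  have h := H1_const ρ hρ hρ1 cs hc j
  have h2 : (0 : ℝ) < (1 / 2) ^ j := by positivity
  obtain ⟨h3, h4⟩ := abs_le.1 h
  constructor <;> nlinarith

/-- Row H1. The compositions `Φ (j+1) = Φ j ∘ φ j` and the products of the constants. PLAN. Recursion;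
`orb_trans` (CG8, cite it) for `Dfm` and the pull back; `∏ (1 ± ρ 2^-j) ∈ [1/2, 2]` for `ρ ≤ 1/8`. -/
theorem gs_comp {n : ℕ} (Γ : Subgroup (SL n)) (ρ : ℝ) (hρ : 0 < ρ) (hρ1 : ρ ≤ 1 / 8)
    (h : PD n → Fm n) (φ : ℕ → PD n → PD n) (hs : ℕ → PD n → Fm n) (cs : ℕ → ℝ)
    (H : GSeq Γ ρ h φ hs cs) :
    ∃ (Φ : ℕ → PD n → PD n) (C : ℕ → ℝ), (∀ p, Φ 0 p = p) ∧ (∀ j p, Φ (j + 1) p = Φ j (φ j p)) ∧
      (∀ j, Dfm Γ (Φ j)) ∧ (∀ j, 1 / 2 ≤ C j ∧ C j ≤ 2) ∧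
      (∀ j, |C (j + 1) - C j| ≤ 2 * ρ * (1 / 2) ^ j) ∧
      ∀ j p v, IsTan p v → pul (Φ j) h p v v = C j * hs j p v v := by
  have hid : SmX (fun p : PD n => p) := dff_facts.2.2.1.1
  have key : ∀ j, Dfm Γ (H1_Phi φ j) ∧ ∀ p v, IsTan p v →
      pul (H1_Phi φ j) h p v v = (∏ i ∈ Finset.range j, cs i) * hs j p v v := by
    intro j
    induction j with
    | zero =>
      refine ⟨⟨hid, fun γ _ p => rfl, fun p => p, hid, fun p => rfl, fun p => rfl⟩, fun p v hv => ?_⟩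
      rw [Finset.prod_range_zero, one_mul, H.h0, pul_apply]
      show h p (dff (fun p : PD n => p) p v) (dff (fun p : PD n => p) p v) = h p v v
      rw [dff_facts.2.2.1.2 p v hv]
    | succ j ih =>
      obtain ⟨h1, h2⟩ := orb_trans Γ (H1_Phi φ j) (φ j) ih.1 (H.dfm j)
        (∏ i ∈ Finset.range j, cs i) (cs j) h (hs j) (hs (j + 1)) ih.2 (H.pull j)
      refine ⟨h1, fun p v hv => ?_⟩
      rw [Finset.prod_range_succ]
      exact h2 p v hv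
  refine ⟨H1_Phi φ, fun j => ∏ i ∈ Finset.range j, cs i, fun p => rfl, fun j p => rfl,
    fun j => (key j).1, fun j => H1_bd ρ hρ hρ1 cs H.cb j, fun j => ?_, fun j => (key j).2⟩
  have hb := H1_bd ρ hρ hρ1 cs H.cb j
  have h4 : ∏ i ∈ Finset.range (j + 1), cs i - ∏ i ∈ Finset.range j, cs i =
      (∏ i ∈ Finset.range j, cs i) * (cs j - 1) := by
    rw [Finset.prod_range_succ]; ring
  show |∏ i ∈ Finset.range (j + 1), cs i - ∏ i ∈ Finset.range j, cs i| ≤ 2 * ρ * (1 / 2) ^ j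
  rw [h4, abs_mul, abs_of_nonneg (by linarith [hb.1]), mul_assoc]
  exact mul_le_mul hb.2 (H.cb j) (abs_nonneg _) (by norm_num)

end FL27
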