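import Pool.Agent.LibFL27.H5

set_option autoImplicit false
set_option maxSynthPendingDepth 3

open Matrix MeasureTheory Topology Filter LibNC38
open LibNC27 hiding Mt
open scoped Matrix.Norms.Elementwise ContDiff

namespace FL27

private theorem H6_low {E : Type} [NormedAddCommGroup E] [NormedSpace ℝ E]
    [FiniteDimensional ℝ E] {Ω : Set E} (G0 : E → E → E → ℝ) (h0 : NS38.Met G0 Ω) (Q : Set E)
    (hQ : IsCompact Q) (hQΩ : Q ⊆ Ω) :
    ∃ κ : ℝ, 0 < κ ∧ ∀ A ∈ Q, ∀ u, κ * ‖u‖ ^ 2 ≤ G0 A u u := by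
  obtain ⟨L, hL, hLG⟩ := NS38.clm_ext G0 Ω h0.bil h0.smooth
  have hprop : ProperSpace E := FiniteDimensional.proper_real E
  have hK : IsCompact (Q ×ˢ Metric.sphere (0 : E) 1) := hQ.prod (isCompact_sphere 0 1)
  have hcont : ContinuousOn (fun x : E × E => L x.1 x.2 x.2) (Q ×ˢ Metric.sphere (0 : E) 1) := by
    have h1 : ContinuousOn (fun x : E × E => L x.1) (Q ×ˢ Metric.sphere (0 : E) 1) :=
      (hL.continuousOn.mono hQΩ).comp continuousOn_fst (fun x hx => hx.1)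
    exact (h1.clm_apply continuousOn_snd).clm_apply continuousOn_snd
  have key : ∃ κ : ℝ, 0 < κ ∧ ∀ x ∈ Q ×ˢ Metric.sphere (0 : E) 1, κ ≤ L x.1 x.2 x.2 := by
    by_cases hne : (Q ×ˢ Metric.sphere (0 : E) 1).Nonempty
    · obtain ⟨x, hx, hmin⟩ := hK.exists_isMinOn hne hcont
      refine ⟨L x.1 x.2 x.2, ?_, fun y hy => hmin hy⟩
      rw [hLG x.1 (hQΩ hx.1)]
      refine h0.pos x.1 (hQΩ hx.1) x.2 ?_
      intro h
      have h2 := mem_sphere_zero_iff_norm.1 hx.2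
      rw [h, norm_zero] at h2
      exact zero_ne_one h2
    · exact ⟨1, one_pos, fun y hy => absurd ⟨y, hy⟩ hne⟩
  obtain ⟨κ, hκ, hk⟩ := key
  refine ⟨κ, hκ, fun A hA u => ?_⟩
  by_cases hu : u = 0
  · have h1 : G0 A (0 : E) (0 : E) = 0 := by
      have := h0.bil.smul A (hQΩ hA) 0 (0 : E) (0 : E)
      rw [zero_smul, zero_mul] at this
      exact this
    rw [hu, h1, norm_zero]
    simp
  · have hn : 0 < ‖u‖ := norm_pos_iff.2 hu
    have hmem : ‖‖u‖⁻¹ • u‖ = 1 := by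
      rw [norm_smul, norm_inv, norm_norm, inv_mul_cancel₀ hn.ne']
    have h1 := hk (A, ‖u‖⁻¹ • u) ⟨hA, mem_sphere_zero_iff_norm.2 hmem⟩
    have h2 : L A (‖u‖⁻¹ • u) (‖u‖⁻¹ • u) = ‖u‖⁻¹ * (‖u‖⁻¹ * L A u u) := by
      have e1 : L A (‖u‖⁻¹ • u) (‖u‖⁻¹ • u) = ‖u‖⁻¹ * L A (‖u‖⁻¹ • u) u := by
        rw [map_smul, smul_eq_mul]
      have e2 : L A (‖u‖⁻¹ • u) = ‖u‖⁻¹ • L A u := by
        rw [map_smul]
      rw [e1, e2]
      rfl
    have h3 : κ ≤ ‖u‖⁻¹ * (‖u‖⁻¹ * L A u u) := by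
      rw [← h2]
      exact h1
    rw [← hLG A (hQΩ hA)]
    have h4 : κ * ‖u‖ ^ 2 ≤ ‖u‖⁻¹ * (‖u‖⁻¹ * L A u u) * ‖u‖ ^ 2 :=
      mul_le_mul_of_nonneg_right h3 (by positivity)
    have h5 : ‖u‖⁻¹ * (‖u‖⁻¹ * L A u u) * ‖u‖ ^ 2 = L A u u := by
      field_simp
    rwa [h5] at h4

private theorem H6_up {E : Type} [NormedAddCommGroup E] [NormedSpace ℝ E]
    [FiniteDimensional ℝ E] {Ω : Set E} (hΩ : IsOpen Ω) (G0 : E → E → E → ℝ)
    (h0 : NS38.Met G0 Ω) (Q : Set E) (hQ : IsCompact Q) (hQΩ : Q ⊆ Ω) :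
    ∃ M : ℝ, 0 ≤ M ∧ ∀ C0 : E → E →L[ℝ] E →L[ℝ] E, NS38.Kos G0 C0 Ω → ∀ A ∈ Q, ∀ v w,
      ‖C0 A v w‖ ≤ M * (‖v‖ * ‖w‖) := by
  obtain ⟨C, hC, hKC⟩ := (NS38.kos_facts hΩ).2.2.2.1 G0 h0
  obtain ⟨M, hM⟩ := hQ.exists_bound_of_continuousOn (hC.continuousOn.mono hQΩ)
  refine ⟨max M 0, le_max_right _ _, fun C0 hK0 A hA v w => ?_⟩
  have h1 : C0 A = C A := (NS38.kos_facts hΩ).1 G0 C0 C h0 hK0 hKC A (hQΩ hA)
  rw [h1]
  calc ‖C A v w‖ ≤ ‖C A v‖ * ‖w‖ := (C A v).le_opNorm w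
    _ ≤ ‖C A‖ * ‖v‖ * ‖w‖ := mul_le_mul_of_nonneg_right ((C A).le_opNorm v) (norm_nonneg _)
    _ ≤ max M 0 * ‖v‖ * ‖w‖ := by
        refine mul_le_mul_of_nonneg_right (mul_le_mul_of_nonneg_right ?_ (norm_nonneg _))
          (norm_nonneg _)
        exact (hM A hA).trans (le_max_left _ _)
    _ = max M 0 * (‖v‖ * ‖w‖) := by ring

/-- Row H6. The Christoffel symbols are close on compact sets. PLAN. Koszul formula for both metrics,
subtract: `2 G0((C' - C0) v w, u) = (T' - T0)(v, w, u) - 2 (G' - G0)(C' v w, u)`, `u = (C' - C0) v w`,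
`G0(u, u) ≥ κ ‖u‖²` on `Q` (compactness), absorb for `ε` small. -/
theorem chr_close {n : ℕ} (hn : 1 ≤ n) (Q : Set (Mt n)) (hQ : IsCompact Q) (hQP : Q ⊆ PU n) :
    ∃ K ε0 : ℝ, 0 < K ∧ 0 < ε0 ∧ ∀ (m : PD n → Fm n) (ε : ℝ), 0 ≤ ε → ε ≤ ε0 → CmF ∞ m → MetX m →
      TB 3 ε (fun p => m p - gF p) → ∀ C' C0 : Mt n → Mt n →L[ℝ] Mt n →L[ℝ] Mt n,
      NS38.Kos (prodm m) C' (PU n) → NS38.Kos (prodm gF) C0 (PU n) → ∀ A ∈ Q, ∀ v w : Mt n,
        ‖C' A v w - C0 A v w‖ ≤ K * ε * (‖v‖ * ‖w‖) := by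
  have hg : NS38.Met (prodm (gF : PD n → Fm n)) (PU n) := met_prodm hn _ (prodm_gF hn).1
  obtain ⟨K1, hK1, hc1⟩ := prodm_c1 hn Q hQ hQP
  obtain ⟨κ, hκ, hlow⟩ := H6_low _ hg Q hQ hQP
  obtain ⟨M, hM, hup⟩ := H6_up PU_open _ hg Q hQ hQP
  refine ⟨(2 * M + 3) * K1 / κ, κ / (2 * K1), by positivity, by positivity, ?_⟩
  intro m ε hε hε0 hcm hmx htb C' C0 hC' hC0 A hA v w
  have hAP : A ∈ PU n := hQP hA
  have hm : NS38.Met (prodm m) (PU n) := met_prodm hn _ hmx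
  have hc := hc1 m ε hε hcm hmx.symm htb A hA
  have hdm : ∀ a b : Mt n, DifferentiableAt ℝ (fun B => prodm m B a b) A := fun a b =>
    ((hm.smooth a b).contDiffAt (PU_open.mem_nhds hAP)).differentiableAt (by simp)
  have hdg : ∀ a b : Mt n, DifferentiableAt ℝ (fun B => prodm gF B a b) A := fun a b =>
    ((hg.smooth a b).contDiffAt (PU_open.mem_nhds hAP)).differentiableAt (by simp)
  have hT : ∀ a b z : Mt n, |fderiv ℝ (fun B => prodm m B a b) A z -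
      fderiv ℝ (fun B => prodm gF B a b) A z| ≤ K1 * ε * (‖z‖ * ‖a‖ * ‖b‖) := by
    intro a b z
    have h1 := (hc a b z).2
    have h2 : fderiv ℝ (fun B => prodm m B a b - prodm gF B a b) A =
        fderiv ℝ (fun B => prodm m B a b) A - fderiv ℝ (fun B => prodm gF B a b) A :=
      fderiv_fun_sub (hdm a b) (hdg a b)
    rw [h2] at h1
    exact h1
  set d : Mt n := C' A v w - C0 A v w with hd
  have hk1 : 2 * prodm m A (C' A v w) d = fderiv ℝ (fun B => prodm m B w d) A v +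
      fderiv ℝ (fun B => prodm m B v d) A w - fderiv ℝ (fun B => prodm m B v w) A d :=
    hC' A hAP d v w
  have hk0 : 2 * prodm gF A (C0 A v w) d = fderiv ℝ (fun B => prodm gF B w d) A v +
      fderiv ℝ (fun B => prodm gF B v d) A w - fderiv ℝ (fun B => prodm gF B v w) A d :=
    hC0 A hAP d v w
  have hG := (hc (C' A v w) d d).1
  have hsub : prodm gF A d d = prodm gF A (C' A v w) d - prodm gF A (C0 A v w) d := by
    have e1 : C' A v w = d + C0 A v w := by rw [hd, sub_add_cancel]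
    have e2 := hg.bil.add A hAP d (C0 A v w) d
    rw [← e1] at e2
    linarith
  have hlo : κ * ‖d‖ ^ 2 ≤ prodm gF A d d := hlow A hA d
  have hC0n : ‖C0 A v w‖ ≤ M * (‖v‖ * ‖w‖) := hup C0 hC0 A hA v w
  have hC'n : ‖C' A v w‖ ≤ ‖d‖ + M * (‖v‖ * ‖w‖) := by
    have e1 : C' A v w = d + C0 A v w := by rw [hd, sub_add_cancel]
    calc ‖C' A v w‖ = ‖d + C0 A v w‖ := by rw [← e1]
      _ ≤ ‖d‖ + ‖C0 A v w‖ := norm_add_le _ _
      _ ≤ _ := by linarith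
  have t1 := hT w d v
  have t2 := hT v d w
  have t3 := hT v w d
  have nd := norm_nonneg d
  have nv := norm_nonneg v
  have nw := norm_nonneg w
  have hKe : 0 ≤ K1 * ε := by positivity
  have hKe2 : 2 * (K1 * ε) ≤ κ := by
    have := (le_div_iff₀ (by positivity : 0 < 2 * K1)).1 hε0
    linarith
  have hG2 : |prodm m A (C' A v w) d - prodm gF A (C' A v w) d| ≤
      K1 * ε * ((‖d‖ + M * (‖v‖ * ‖w‖)) * ‖d‖) := by
    refine hG.trans ?_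
    exact mul_le_mul_of_nonneg_left (mul_le_mul_of_nonneg_right hC'n nd) hKe
  have hmain : 2 * (κ * ‖d‖ ^ 2) ≤ 2 * (K1 * ε * ((‖d‖ + M * (‖v‖ * ‖w‖)) * ‖d‖)) +
      3 * (K1 * ε * (‖v‖ * ‖w‖ * ‖d‖)) := by
    have e1 := (abs_le.1 hG2).1
    have e2 := (abs_le.1 t1).2
    have e3 := (abs_le.1 t2).2
    have e4 := (abs_le.1 t3).1
    have r1 : K1 * ε * (‖v‖ * ‖w‖ * ‖d‖) = K1 * ε * (‖w‖ * ‖v‖ * ‖d‖) := by ring
    have r2 : K1 * ε * (‖v‖ * ‖w‖ * ‖d‖) = K1 * ε * (‖d‖ * ‖v‖ * ‖w‖) := by ring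
    generalize prodm m A (C' A v w) d = x1 at *
    generalize prodm gF A (C' A v w) d = x2 at *
    generalize prodm gF A (C0 A v w) d = x3 at *
    generalize fderiv ℝ (fun B => prodm m B w d) A v = y1 at *
    generalize fderiv ℝ (fun B => prodm m B v d) A w = y2 at *
    generalize fderiv ℝ (fun B => prodm m B v w) A d = y3 at *
    generalize fderiv ℝ (fun B => prodm gF B w d) A v = z1 at *
    generalize fderiv ℝ (fun B => prodm gF B v d) A w = z2 at *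
    generalize fderiv ℝ (fun B => prodm gF B v w) A d = z3 at *
    linarith
  by_cases hdz : ‖d‖ = 0
  · rw [hdz]
    positivity
  · have hdpos : 0 < ‖d‖ := lt_of_le_of_ne nd (Ne.symm hdz)
    have h5 : 2 * (κ * ‖d‖) ≤ 2 * (K1 * ε * (‖d‖ + M * (‖v‖ * ‖w‖))) +
        3 * (K1 * ε * (‖v‖ * ‖w‖)) := by
      refine le_of_mul_le_mul_right ?_ hdpos
      linarith [hmain]
    have h6 : κ * ‖d‖ ≤ (2 * M + 3) * K1 * ε * (‖v‖ * ‖w‖) := by
      have h7 : 2 * (K1 * ε) * ‖d‖ ≤ κ * ‖d‖ := mul_le_mul_of_nonneg_right hKe2 nd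
      linarith
    have h8 : ‖d‖ ≤ (2 * M + 3) * K1 * ε * (‖v‖ * ‖w‖) / κ := by
      rw [le_div_iff₀ hκ]
      linarith
    calc ‖d‖ ≤ (2 * M + 3) * K1 * ε * (‖v‖ * ‖w‖) / κ := h8
      _ = (2 * M + 3) * K1 / κ * ε * (‖v‖ * ‖w‖) := by ring

end FL27
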