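import Mathlib

set_option autoImplicit false
set_option maxSynthPendingDepth 3


open Topology Filter
open scoped ContDiff

namespace FL27

/-- Row H8. Bootstrap: a `C²` solution of `D²f = Df C' - C(f)(Df, Df)` is smooth (Mathlib only). PLAN.
Induction on `k`: `f` of class `C^(k+1)` gives `D²f` of class `C^k`, so `Df` is `C^(k+1)`
(`contDiffOn_succ_iff_fderiv_of_isOpen`). -/
theorem bootstrap {E : Type} [NormedAddCommGroup E] [NormedSpace ℝ E] [FiniteDimensional ℝ E]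
    {Ω Ω' : Set E} (hΩ : IsOpen Ω) (hΩ' : IsOpen Ω') (f : E → E) (hm : ∀ x ∈ Ω', f x ∈ Ω)
    (hf : ContDiffOn ℝ 2 f Ω') (C C' : E → E →L[ℝ] E →L[ℝ] E) (hC : ContDiffOn ℝ ∞ C Ω)
    (hC' : ContDiffOn ℝ ∞ C' Ω')
    (he : ∀ x ∈ Ω', ∀ v w, fderiv ℝ (fderiv ℝ f) x v w =
      fderiv ℝ f x (C' x v w) - C (f x) (fderiv ℝ f x v) (fderiv ℝ f x w)) :
    ContDiffOn ℝ ∞ f Ω' := by
  have key : ∀ k : ℕ, ContDiffOn ℝ (k + 1 + 1 : ℕ) f Ω' := by
    intro k
    induction k with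
    | zero => exact hf
    | succ k ih =>
      have hk1 : ((k + 1 + 1 : ℕ) : WithTop ℕ∞) = ((k + 1 : ℕ) : WithTop ℕ∞) + 1 := by push_cast; rfl
      have hk2 : ((k + 1 + 1 + 1 : ℕ) : WithTop ℕ∞) = ((k + 1 + 1 : ℕ) : WithTop ℕ∞) + 1 := by
        push_cast; rfl
      have hle : ((k + 1 : ℕ) : WithTop ℕ∞) ≤ ∞ := by exact_mod_cast le_top
      have h1 := ih
      rw [hk1, contDiffOn_succ_iff_fderiv_of_isOpen hΩ'] at h1
      obtain ⟨hd, -, hA⟩ := h1
      have hfk : ContDiffOn ℝ ((k + 1 : ℕ) : WithTop ℕ∞) f Ω' :=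
        ih.of_le (by exact_mod_cast Nat.le_succ (k + 1))
      have hCf : ContDiffOn ℝ ((k + 1 : ℕ) : WithTop ℕ∞) (fun x => C (f x)) Ω' :=
        (hC.of_le hle).comp hfk hm
      have hG1 : ContDiffOn ℝ ((k + 1 : ℕ) : WithTop ℕ∞)
          (fun x => ((ContinuousLinearMap.compL ℝ E E E) (fderiv ℝ f x)).comp (C' x)) Ω' :=
        (((ContinuousLinearMap.compL ℝ E E E).contDiff).comp_contDiffOn hA).clm_comp
          (hC'.of_le hle)
      have hG2 : ContDiffOn ℝ ((k + 1 : ℕ) : WithTop ℕ∞)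
          (fun x => ((ContinuousLinearMap.compL ℝ E E E).flip (fderiv ℝ f x)).comp
            ((C (f x)).comp (fderiv ℝ f x))) Ω' :=
        (((ContinuousLinearMap.compL ℝ E E E).flip.contDiff).comp_contDiffOn hA).clm_comp
          (hCf.clm_comp hA)
      have hG : ContDiffOn ℝ ((k + 1 : ℕ) : WithTop ℕ∞) (fderiv ℝ (fderiv ℝ f)) Ω' := by
        refine (hG1.sub hG2).congr fun x hx => ?_
        ext v w
        rw [he x hx v w]
        rfl
      have hD : ContDiffOn ℝ ((k + 1 + 1 : ℕ) : WithTop ℕ∞) (fderiv ℝ f) Ω' := by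
        rw [hk1, contDiffOn_succ_iff_fderiv_of_isOpen hΩ']
        refine ⟨hA.differentiableOn (by simp), ?_, hG⟩
        intro h
        exact absurd h (by simp)
      rw [hk2, contDiffOn_succ_iff_fderiv_of_isOpen hΩ']
      refine ⟨hd, ?_, hD⟩
      intro h
      exact absurd h (by simp)
  rw [contDiffOn_infty]
  intro n
  exact (key n).of_le (by exact_mod_cast (Nat.le_succ n).trans (Nat.le_succ (n + 1)))

end FL27
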