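import Pool.Agent.LibFL27.H7
import Pool.Agent.LibFL27.H8

set_option autoImplicit false
set_option maxSynthPendingDepth 3

open Matrix MeasureTheory Topology Filter
open scoped Matrix.Norms.Elementwise ContDiff

namespace FL27

private theorem H9_joint {X Y : Type} [TopologicalSpace X] [PseudoMetricSpace Y] (u : ℕ → X → Y)
    (l : X → Y) (x : X) (c q : ℝ) (hq0 : 0 ≤ q) (hq : q < 1) (hc : ∀ j, ContinuousAt (u j) x)
    (hu : ∀ᶠ y in 𝓝 x, ∀ j, dist (u j y) (u (j + 1) y) ≤ c * q ^ j)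
    (hl : ∀ᶠ y in 𝓝 x, Tendsto (fun j => u j y) atTop (𝓝 (l y))) :
    Tendsto (fun p : ℕ × X => u p.1 p.2) (atTop ×ˢ 𝓝 x) (𝓝 (l x)) := by
  rw [Metric.tendsto_nhds]
  intro ε hε
  have h0 : Tendsto (fun j : ℕ => c * q ^ j / (1 - q)) atTop (𝓝 0) := by
    have h1 := ((tendsto_pow_atTop_nhds_zero_of_lt_one hq0 hq).const_mul c).div_const (1 - q)
    simpa using h1
  have h1 : ∀ᶠ j in atTop, c * q ^ j / (1 - q) < ε / 4 := by
    refine (tendsto_order.1 h0).2 _ ?_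
    linarith
  obtain ⟨j0, hj0⟩ := eventually_atTop.1 h1
  have hgen : ∀ᶠ y in 𝓝 x, ∀ j, dist (u j y) (l y) ≤ c * q ^ j / (1 - q) := by
    filter_upwards [hu, hl] with y hy1 hy2 j
    exact dist_le_of_le_geometric_of_tendsto q c hq hy1 hy2 j
  have hcont : ∀ᶠ y in 𝓝 x, dist (u j0 y) (u j0 x) < ε / 4 := by
    have h2 := (hc j0)
    exact (Metric.tendsto_nhds.1 h2) (ε / 4) (by linarith)
  have hx : ∀ j, dist (u j x) (l x) ≤ c * q ^ j / (1 - q) := hgen.self_of_nhds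
  have h3 : ∀ᶠ p : ℕ × X in atTop ×ˢ 𝓝 x, j0 ≤ p.1 ∧
      ((∀ j, dist (u j p.2) (l p.2) ≤ c * q ^ j / (1 - q)) ∧ dist (u j0 p.2) (u j0 x) < ε / 4) :=
    (eventually_ge_atTop j0).prod_mk (hgen.and hcont)
  filter_upwards [h3] with p hp
  obtain ⟨hp1, hp2, hp3⟩ := hp
  have e1 := hp2 p.1
  have e2 := hp2 j0
  have e3 := hx j0
  have e4 := hj0 p.1 hp1
  have e5 := hj0 j0 le_rfl
  have t1 := dist_triangle (u p.1 p.2) (l p.2) (l x)
  have t2 := dist_triangle (l p.2) (u j0 p.2) (l x)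
  have t3 := dist_triangle (u j0 p.2) (u j0 x) (l x)
  rw [dist_comm (l p.2) (u j0 p.2)] at t2
  linarith

private theorem H9_contAt {X Y : Type} [TopologicalSpace X] [PseudoMetricSpace Y] (u : ℕ → X → Y)
    (l : X → Y) (x : X) (hj : Tendsto (fun p : ℕ × X => u p.1 p.2) (atTop ×ˢ 𝓝 x) (𝓝 (l x)))
    (hl : ∀ᶠ y in 𝓝 x, Tendsto (fun j => u j y) atTop (𝓝 (l y))) : ContinuousAt l x := by
  rw [ContinuousAt, Metric.tendsto_nhds]
  intro ε hε
  have h1 := (Metric.tendsto_nhds.1 hj) (ε / 2) (by linarith)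
  obtain ⟨pa, hpa, pb, hpb, h2⟩ := eventually_prod_iff.1 h1
  filter_upwards [hpb, hl] with y hy1 hy2
  have h3 : dist (l y) (l x) ≤ ε / 2 := by
    refine le_of_tendsto (hy2.dist tendsto_const_nhds) ?_
    filter_upwards [hpa] with j hj1
    exact (h2 hj1 hy1).le
  linarith

private theorem H9_unif {X Y : Type} [TopologicalSpace X] [PseudoMetricSpace Y] (u : ℕ → X → Y)
    (l : X → Y) (x : X) (hj : Tendsto (fun p : ℕ × X => u p.1 p.2) (atTop ×ˢ 𝓝 x) (𝓝 (l x)))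
    (hl : ContinuousAt l x) : TendstoUniformlyOnFilter u l atTop (𝓝 x) := by
  rw [tendstoUniformlyOnFilter_iff_tendsto]
  have h1 : Tendsto (fun p : ℕ × X => l p.2) (atTop ×ˢ 𝓝 x) (𝓝 (l x)) := hl.tendsto.comp tendsto_snd
  have h2 := h1.prodMk_nhds hj
  exact h2.mono_right (nhds_le_uniformity _)

private theorem H9_quad {E : Type} [NormedAddCommGroup E] [NormedSpace ℝ E]
    (T : E →L[ℝ] E →L[ℝ] E) (A : E →L[ℝ] E) (Dd Cc : E →L[ℝ] E →L[ℝ] E)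
    (h : ∀ v w, T v w = A (Dd v w) - Cc (A v) (A w)) :
    T = (ContinuousLinearMap.compL ℝ E E E A).comp Dd -
      ((ContinuousLinearMap.compL ℝ E E E).flip A).comp (Cc.comp A) := by
  ext v w
  rw [h v w]
  rfl

private theorem H9_quad_apply {E : Type} [NormedAddCommGroup E] [NormedSpace ℝ E]
    (A : E →L[ℝ] E) (Dd Cc : E →L[ℝ] E →L[ℝ] E) (v w : E) :
    ((ContinuousLinearMap.compL ℝ E E E A).comp Dd -
      ((ContinuousLinearMap.compL ℝ E E E).flip A).comp (Cc.comp A)) v w =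
      A (Dd v w) - Cc (A v) (A w) := rfl

private theorem H9_comp {E F G I : Type} [NormedAddCommGroup E] [NormedSpace ℝ E]
    [NormedAddCommGroup F] [NormedSpace ℝ F] [NormedAddCommGroup G] [NormedSpace ℝ G]
    {φ : Filter I} (A : I → F →L[ℝ] G) (B : I → E →L[ℝ] F)
    (a : F →L[ℝ] G) (b : E →L[ℝ] F) (hA : Tendsto A φ (𝓝 a)) (hB : Tendsto B φ (𝓝 b)) :
    Tendsto (fun i => (A i).comp (B i)) φ (𝓝 (a.comp b)) := by
  have h1 := (isBoundedBilinearMap_comp (𝕜 := ℝ) (E := E) (F := F) (G := G)).continuous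
  exact (h1.tendsto (a, b)).comp (hA.prodMk_nhds hB)

private theorem H9_quad_tendsto {E I : Type} [NormedAddCommGroup E] [NormedSpace ℝ E]
    {φ : Filter I} (A : I → E →L[ℝ] E) (Dd Cc : I → E →L[ℝ] E →L[ℝ] E)
    (a : E →L[ℝ] E) (d c : E →L[ℝ] E →L[ℝ] E) (hA : Tendsto A φ (𝓝 a)) (hD : Tendsto Dd φ (𝓝 d))
    (hC : Tendsto Cc φ (𝓝 c)) :
    Tendsto (fun i => (ContinuousLinearMap.compL ℝ E E E (A i)).comp (Dd i) -
      ((ContinuousLinearMap.compL ℝ E E E).flip (A i)).comp ((Cc i).comp (A i))) φ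
      (𝓝 ((ContinuousLinearMap.compL ℝ E E E a).comp d -
      ((ContinuousLinearMap.compL ℝ E E E).flip a).comp (c.comp a))) := by
  have c1 : Tendsto (fun i => ContinuousLinearMap.compL ℝ E E E (A i)) φ
      (𝓝 (ContinuousLinearMap.compL ℝ E E E a)) :=
    ((ContinuousLinearMap.compL ℝ E E E).continuous.tendsto a).comp hA
  have c2 : Tendsto (fun i => (ContinuousLinearMap.compL ℝ E E E).flip (A i)) φ
      (𝓝 ((ContinuousLinearMap.compL ℝ E E E).flip a)) :=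
    ((ContinuousLinearMap.compL ℝ E E E).flip.continuous.tendsto a).comp hA
  have c3 : Tendsto (fun i => (Cc i).comp (A i)) φ (𝓝 (c.comp a)) := H9_comp _ _ _ _ hC hA
  exact (H9_comp _ _ _ _ c1 hD).sub (H9_comp _ _ _ _ c2 c3)

private theorem H9_bound {E : Type} [NormedAddCommGroup E] [NormedSpace ℝ E]
    (T : E →L[ℝ] E →L[ℝ] E) (A : E →L[ℝ] E) (Dd D0 Cc : E →L[ℝ] E →L[ℝ] E) (K M N e : ℝ)
    (hK : 0 < K) (hM : 0 ≤ M) (hN : 0 ≤ N) (he : e ≤ 1)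
    (hA : ∀ v, ‖A v‖ ≤ K * ‖v‖) (hD : ∀ v w, ‖Dd v w - D0 v w‖ ≤ K * e * (‖v‖ * ‖w‖))
    (hD0 : ‖D0‖ ≤ M) (hCc : ‖Cc‖ ≤ N) (h : ∀ v w, T v w = A (Dd v w) - Cc (A v) (A w)) :
    ‖T‖ ≤ K * (K + M) + N * K * K := by
  have hp : 0 ≤ K * (K + M) + N * K * K := by positivity
  refine T.opNorm_le_bound₂ hp ?_
  intro v w
  rw [h v w]
  have hv := norm_nonneg v
  have hw := norm_nonneg w
  have e1 : ‖Dd v w‖ ≤ (K + M) * (‖v‖ * ‖w‖) := by
    have a1 : ‖D0 v w‖ ≤ M * (‖v‖ * ‖w‖) := by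
      have b1 := D0.le_opNorm₂ v w
      have b2 : ‖D0‖ * ‖v‖ * ‖w‖ ≤ M * ‖v‖ * ‖w‖ := by gcongr
      linarith
    have a2 : Dd v w = (Dd v w - D0 v w) + D0 v w := by abel
    have a3 : K * e * (‖v‖ * ‖w‖) ≤ K * 1 * (‖v‖ * ‖w‖) := by gcongr
    rw [a2]
    have a4 := norm_add_le (Dd v w - D0 v w) (D0 v w)
    have a5 := hD v w
    nlinarith
  have e2 : ‖A (Dd v w)‖ ≤ K * ((K + M) * (‖v‖ * ‖w‖)) := by
    refine (hA _).trans ?_
    gcongr
  have e3 : ‖Cc (A v) (A w)‖ ≤ N * (K * ‖v‖) * (K * ‖w‖) := by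
    refine (Cc.le_opNorm₂ _ _).trans ?_
    have b1 := hA v
    have b2 := hA w
    gcongr
  have e4 := norm_sub_le (A (Dd v w)) (Cc (A v) (A w))
  have e5 : (K * (K + M) + N * K * K) * ‖v‖ * ‖w‖ =
      K * ((K + M) * (‖v‖ * ‖w‖)) + N * (K * ‖v‖) * (K * ‖w‖) := by ring
  rw [e5]
  linarith

private theorem H9_est {E : Type} [NormedAddCommGroup E] [NormedSpace ℝ E] [FiniteDimensional ℝ E]
    {Ω : Set E} (hΩ : IsOpen Ω) (F : ℕ → E → E) (C : E → E →L[ℝ] E →L[ℝ] E)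
    (D : ℕ → E → E →L[ℝ] E →L[ℝ] E) (D' : E → E →L[ℝ] E →L[ℝ] E) (hF : ∀ j, ContDiffOn ℝ ∞ (F j) Ω)
    (hC : ContDiffOn ℝ ∞ C Ω) (hD' : ContDiffOn ℝ ∞ D' Ω)
    (he : ∀ j, ∀ x ∈ Ω, ∀ v w, fderiv ℝ (fderiv ℝ (F j)) x v w =
      fderiv ℝ (F j) x (D j x v w) - C (F j x) (fderiv ℝ (F j) x v) (fderiv ℝ (F j) x w))
    (hb : ∀ Q : Set E, IsCompact Q → Q ⊆ Ω → ∃ (K : ℝ) (Q' : Set E), 0 < K ∧ IsCompact Q' ∧ Q' ⊆ Ω ∧
      ∀ j, ∀ x ∈ Q, F j x ∈ Q' ∧ (∀ v, ‖fderiv ℝ (F j) x v‖ ≤ K * ‖v‖) ∧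
        (∀ v w, ‖D j x v w - D' x v w‖ ≤ K * (1 / 2) ^ j * (‖v‖ * ‖w‖)) ∧
        ‖F (j + 1) x - F j x‖ ≤ K * (1 / 2) ^ j) (x : E) (hx : x ∈ Ω) :
    ∃ c q : ℝ, 0 ≤ c ∧ 0 ≤ q ∧ q < 1 ∧ (1 / 2 : ℝ) ≤ q ∧ ∀ᶠ y in 𝓝 x, y ∈ Ω ∧ ∀ j,
      dist (F j y) (F (j + 1) y) ≤ c * q ^ j ∧
      dist (fderiv ℝ (F j) y) (fderiv ℝ (F (j + 1)) y) ≤ c * q ^ j ∧
      dist (D j y) (D' y) ≤ c * q ^ j := by
  have : ProperSpace E := FiniteDimensional.proper ℝ E
  obtain ⟨ρ, hρ, hball⟩ := Metric.isOpen_iff.1 hΩ x hx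
  set r : ℝ := ρ / 3 with hr
  have hr0 : 0 < r := by positivity
  have hQΩ : Metric.closedBall x (2 * r) ⊆ Ω := by
    refine (Metric.closedBall_subset_ball ?_).trans hball
    rw [hr]; linarith
  have hQc : IsCompact (Metric.closedBall x (2 * r)) := isCompact_closedBall _ _
  obtain ⟨K, Q', hK, hQ'c, hQ'Ω, hKb⟩ := hb _ hQc hQΩ
  obtain ⟨N, hN⟩ := hQ'c.exists_bound_of_continuousOn (hC.continuousOn.mono hQ'Ω)
  obtain ⟨M, hM⟩ := hQc.exists_bound_of_continuousOn (hD'.continuousOn.mono hQΩ)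
  have hxQ : x ∈ Metric.closedBall x (2 * r) := Metric.mem_closedBall_self (by linarith)
  have hM0 : 0 ≤ M := (norm_nonneg _).trans (hM x hxQ)
  have hN0 : 0 ≤ N := (norm_nonneg _).trans (hN _ (hKb 0 x hxQ).1)
  set B : ℝ := K * (K + M) + N * K * K with hB
  have hB0 : 0 ≤ B := by positivity
  have hpow : ∀ j : ℕ, (1 / 2 : ℝ) ^ j ≤ 1 := fun j => pow_le_one₀ (by norm_num) (by norm_num)
  have hD2 : ∀ j, ∀ z ∈ Metric.closedBall x (2 * r), ‖fderiv ℝ (fderiv ℝ (F j)) z‖ ≤ B := by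
    intro j z hz
    obtain ⟨k1, k2, k3, k4⟩ := hKb j z hz
    exact H9_bound _ (fderiv ℝ (F j) z) (D j z) (D' z) (C (F j z)) K M N ((1 / 2) ^ j) hK hM0 hN0
      (hpow j) k2 k3 (hM z hz) (hN _ k1) (he j z (hQΩ hz))
  set q : ℝ := Real.sqrt (1 / 2) with hq
  have hq0 : 0 < q := Real.sqrt_pos.2 (by norm_num)
  have hqq : q * q = 1 / 2 := Real.mul_self_sqrt (by norm_num)
  have hq1 : q < 1 := by nlinarith
  have hq2 : (1 / 2 : ℝ) ≤ q := by nlinarith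
  have hdiff : ∀ j, ∀ z ∈ Ω, DifferentiableAt ℝ (F j) z := fun j z hz =>
    ((hF j).contDiffAt (hΩ.mem_nhds hz)).differentiableAt (by simp)
  have hfd : ∀ j, ContDiffOn ℝ ∞ (fderiv ℝ (F j)) Ω := fun j =>
    (hF j).fderiv_of_isOpen (m := ∞) hΩ (by simp)
  have hdiff2 : ∀ j, ∀ z ∈ Ω, DifferentiableAt ℝ (fderiv ℝ (F j)) z := fun j z hz =>
    ((hfd j).contDiffAt (hΩ.mem_nhds hz)).differentiableAt (by simp)
  have hG1 : ∀ j, ∀ z ∈ Ω, fderiv ℝ (fun y => F (j + 1) y - F j y) z =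
      fderiv ℝ (F (j + 1)) z - fderiv ℝ (F j) z := fun j z hz =>
    fderiv_fun_sub (hdiff (j + 1) z hz) (hdiff j z hz)
  have hG2 : ∀ j, ∀ z ∈ Ω, fderiv ℝ (fderiv ℝ (fun y => F (j + 1) y - F j y)) z =
      fderiv ℝ (fderiv ℝ (F (j + 1))) z - fderiv ℝ (fderiv ℝ (F j)) z := by
    intro j z hz
    have e1 : fderiv ℝ (fun y => F (j + 1) y - F j y) =ᶠ[𝓝 z]
        (fun y => fderiv ℝ (F (j + 1)) y - fderiv ℝ (F j) y) := by
      filter_upwards [hΩ.mem_nhds hz] with y hy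
      exact hG1 j y hy
    rw [e1.fderiv_eq]
    exact fderiv_fun_sub (hdiff2 (j + 1) z hz) (hdiff2 j z hz)
  have hmain : ∀ y ∈ Metric.ball x r, ∀ j,
      dist (fderiv ℝ (F j) y) (fderiv ℝ (F (j + 1)) y) ≤ (4 * K / r + B * r) * q ^ j := by
    intro y hy j
    have hyb : Metric.ball y r ⊆ Metric.closedBall x (2 * r) := by
      intro z hz
      rw [Metric.mem_ball] at hz hy
      rw [Metric.mem_closedBall]
      have := dist_triangle z y x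
      linarith
    have hyΩ : y ∈ Ω := hQΩ (hyb (Metric.mem_ball_self hr0))
    have hcd : ContDiffOn ℝ 2 (fun y => F (j + 1) y - F j y) (Metric.ball y r) :=
      (((hF (j + 1)).sub (hF j)).of_le ENat.LEInfty.out).mono (hyb.trans hQΩ)
    have hA : ∀ z ∈ Metric.ball y r, ‖(fun y => F (j + 1) y - F j y) z‖ ≤ K * (1 / 2) ^ j :=
      fun z hz => (hKb j z (hyb hz)).2.2.2
    have hBB : ∀ z ∈ Metric.ball y r,
        ‖fderiv ℝ (fderiv ℝ (fun y => F (j + 1) y - F j y)) z‖ ≤ 2 * B := by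
      intro z hz
      rw [hG2 j z (hQΩ (hyb hz))]
      have a1 := hD2 (j + 1) z (hyb hz)
      have a2 := hD2 j z (hyb hz)
      refine (norm_sub_le _ _).trans ?_
      linarith
    have hqj : 0 < q ^ j := pow_pos hq0 j
    have hqj1 : q ^ j ≤ 1 := pow_le_one₀ hq0.le hq1.le
    have hs0 : 0 < r / 2 * q ^ j := by positivity
    have hsr : r / 2 * q ^ j < r := by nlinarith
    have hL := landau (fun y => F (j + 1) y - F j y) y r (K * (1 / 2) ^ j) (2 * B) hr0 hcd hA hBB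
      (r / 2 * q ^ j) hs0 hsr
    rw [hG1 j y hyΩ] at hL
    rw [dist_comm, dist_eq_norm]
    refine hL.trans (le_of_eq ?_)
    have hpq : (1 / 2 : ℝ) ^ j = q ^ j * q ^ j := by rw [← mul_pow, hqq]
    rw [hpq]
    field_simp
    ring
  refine ⟨max K (4 * K / r + B * r), q, le_max_of_le_left hK.le, hq0.le, hq1, hq2, ?_⟩
  filter_upwards [Metric.ball_mem_nhds x hr0] with y hy
  have hyQ : y ∈ Metric.closedBall x (2 * r) := by
    rw [Metric.mem_ball] at hy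
    rw [Metric.mem_closedBall]
    linarith
  refine ⟨hQΩ hyQ, fun j => ?_⟩
  have hqj : 0 < q ^ j := pow_pos hq0 j
  have hpj : (1 / 2 : ℝ) ^ j ≤ q ^ j := pow_le_pow_left₀ (by norm_num) hq2 j
  have hKm : K ≤ max K (4 * K / r + B * r) := le_max_left _ _
  have hmm : K * (1 / 2) ^ j ≤ max K (4 * K / r + B * r) * q ^ j := by gcongr
  refine ⟨?_, ?_, ?_⟩
  · rw [dist_comm, dist_eq_norm]
    exact (hKb j y hyQ).2.2.2.trans hmm
  · refine (hmain y hy j).trans ?_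
    have := le_max_right K (4 * K / r + B * r)
    gcongr
  · rw [dist_eq_norm]
    refine ((D j y - D' y).opNorm_le_bound₂ (by positivity) ?_).trans hmm
    intro v w
    have := (hKb j y hyQ).2.2.1 v w
    rw [mul_assoc (K * (1 / 2) ^ j)]
    exact this

/-- Row H9. Limits of almost isometries are smooth (Mathlib, H7, H8). PLAN. `D²(F j)` is bounded on compact sets
by the equation, so by Landau `D(F j)` is Cauchy, uniformly on compact sets (`√(2^-j)`); the limit `f` is `C¹`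
(`hasFDerivAt_of_tendstoLocallyUniformlyOn` or the like), and the equation shows that `D²(F j)` converges
uniformly on compact sets to `Df C' - C(f)(Df, Df)`: `f` is `C²`; `bootstrap`. -/
theorem lim_smooth {E : Type} [NormedAddCommGroup E] [NormedSpace ℝ E] [FiniteDimensional ℝ E]
    {Ω : Set E} (hΩ : IsOpen Ω) (F : ℕ → E → E) (C : E → E →L[ℝ] E →L[ℝ] E)
    (D : ℕ → E → E →L[ℝ] E →L[ℝ] E) (D' : E → E →L[ℝ] E →L[ℝ] E) (hF : ∀ j, ContDiffOn ℝ ∞ (F j) Ω)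
    (hm : ∀ j, ∀ x ∈ Ω, F j x ∈ Ω) (hC : ContDiffOn ℝ ∞ C Ω) (hD' : ContDiffOn ℝ ∞ D' Ω)
    (he : ∀ j, ∀ x ∈ Ω, ∀ v w, fderiv ℝ (fderiv ℝ (F j)) x v w =
      fderiv ℝ (F j) x (D j x v w) - C (F j x) (fderiv ℝ (F j) x v) (fderiv ℝ (F j) x w))
    (hb : ∀ Q : Set E, IsCompact Q → Q ⊆ Ω → ∃ (K : ℝ) (Q' : Set E), 0 < K ∧ IsCompact Q' ∧ Q' ⊆ Ω ∧
      ∀ j, ∀ x ∈ Q, F j x ∈ Q' ∧ (∀ v, ‖fderiv ℝ (F j) x v‖ ≤ K * ‖v‖) ∧
        (∀ v w, ‖D j x v w - D' x v w‖ ≤ K * (1 / 2) ^ j * (‖v‖ * ‖w‖)) ∧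
        ‖F (j + 1) x - F j x‖ ≤ K * (1 / 2) ^ j) :
    ∃ f : E → E, ContDiffOn ℝ ∞ f Ω ∧ (∀ x ∈ Ω, f x ∈ Ω) ∧ ∀ x ∈ Ω,
      Tendsto (fun j => F j x) atTop (𝓝 (f x)) ∧
      ∀ v, Tendsto (fun j => fderiv ℝ (F j) x v) atTop (𝓝 (fderiv ℝ f x v)) := by
  have hcomp : CompleteSpace E := FiniteDimensional.complete ℝ E
  have hest := H9_est hΩ F C D D' hF hC hD' he hb
  -- pointwise limits
  have hex1 : ∀ x : E, ∃ y : E, x ∈ Ω → Tendsto (fun j => F j x) atTop (𝓝 y) := by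
    intro x
    by_cases hx : x ∈ Ω
    · obtain ⟨c, q, hc0, hq0, hq1, -, hev⟩ := hest x hx
      have h1 := hev.self_of_nhds.2
      obtain ⟨y, hy⟩ := cauchySeq_tendsto_of_complete
        (cauchySeq_of_le_geometric q c hq1 (fun j => (h1 j).1))
      exact ⟨y, fun _ => hy⟩
    · exact ⟨0, fun h => absurd h hx⟩
  have hex2 : ∀ x : E, ∃ A : E →L[ℝ] E, x ∈ Ω →
      Tendsto (fun j => fderiv ℝ (F j) x) atTop (𝓝 A) := by
    intro x
    by_cases hx : x ∈ Ω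
    · obtain ⟨c, q, hc0, hq0, hq1, -, hev⟩ := hest x hx
      have h1 := hev.self_of_nhds.2
      obtain ⟨y, hy⟩ := cauchySeq_tendsto_of_complete
        (cauchySeq_of_le_geometric q c hq1 (fun j => (h1 j).2.1))
      exact ⟨y, fun _ => hy⟩
    · exact ⟨0, fun h => absurd h hx⟩
  choose f hf using hex1
  choose g hg using hex2
  have hfev : ∀ x ∈ Ω, ∀ᶠ y in 𝓝 x, Tendsto (fun j => F j y) atTop (𝓝 (f y)) := by
    intro x hx
    filter_upwards [hΩ.mem_nhds hx] with y hy using hf y hy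
  have hgev : ∀ x ∈ Ω, ∀ᶠ y in 𝓝 x, Tendsto (fun j => fderiv ℝ (F j) y) atTop (𝓝 (g y)) := by
    intro x hx
    filter_upwards [hΩ.mem_nhds hx] with y hy using hg y hy
  have hfd : ∀ j, ContDiffOn ℝ ∞ (fderiv ℝ (F j)) Ω := fun j =>
    (hF j).fderiv_of_isOpen (m := ∞) hΩ (by simp)
  -- joint limits
  have hJf : ∀ x ∈ Ω, Tendsto (fun p : ℕ × E => F p.1 p.2) (atTop ×ˢ 𝓝 x) (𝓝 (f x)) := by
    intro x hx
    obtain ⟨c, q, hc0, hq0, hq1, -, hev⟩ := hest x hx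
    refine H9_joint F f x c q hq0 hq1 (fun j => (hF j).continuousOn.continuousAt (hΩ.mem_nhds hx))
      ?_ (hfev x hx)
    filter_upwards [hev] with y hy j using (hy.2 j).1
  have hJg : ∀ x ∈ Ω, Tendsto (fun p : ℕ × E => fderiv ℝ (F p.1) p.2) (atTop ×ˢ 𝓝 x) (𝓝 (g x)) := by
    intro x hx
    obtain ⟨c, q, hc0, hq0, hq1, -, hev⟩ := hest x hx
    refine H9_joint (fun j => fderiv ℝ (F j)) g x c q hq0 hq1
      (fun j => (hfd j).continuousOn.continuousAt (hΩ.mem_nhds hx)) ?_ (hgev x hx)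
    filter_upwards [hev] with y hy j using (hy.2 j).2.1
  have hJD : ∀ x ∈ Ω, Tendsto (fun p : ℕ × E => D p.1 p.2) (atTop ×ˢ 𝓝 x) (𝓝 (D' x)) := by
    intro x hx
    obtain ⟨c, q, hc0, hq0, hq1, -, hev⟩ := hest x hx
    rw [tendsto_iff_dist_tendsto_zero]
    have h1 : Tendsto (fun p : ℕ × E => c * q ^ p.1) (atTop ×ˢ 𝓝 x) (𝓝 0) := by
      have h2 := (tendsto_pow_atTop_nhds_zero_of_lt_one hq0 hq1).const_mul c
      rw [mul_zero] at h2
      exact h2.comp tendsto_fst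
    have h3 : Tendsto (fun p : ℕ × E => dist (D' p.2) (D' x)) (atTop ×ˢ 𝓝 x) (𝓝 0) := by
      have h4 : Tendsto D' (𝓝 x) (𝓝 (D' x)) :=
        (hD'.continuousOn.continuousAt (hΩ.mem_nhds hx)).tendsto
      exact (tendsto_iff_dist_tendsto_zero.1 h4).comp tendsto_snd
    have h5 := h1.add h3
    rw [add_zero] at h5
    refine squeeze_zero' (Eventually.of_forall fun p => dist_nonneg) ?_ h5
    have h6 : ∀ᶠ p : ℕ × E in atTop ×ˢ 𝓝 x, p.2 ∈ Ω ∧ ∀ j,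
      dist (F j p.2) (F (j + 1) p.2) ≤ c * q ^ j ∧
      dist (fderiv ℝ (F j) p.2) (fderiv ℝ (F (j + 1)) p.2) ≤ c * q ^ j ∧
      dist (D j p.2) (D' p.2) ≤ c * q ^ j := tendsto_snd.eventually hev
    filter_upwards [h6] with p hp
    have h7 := (hp.2 p.1).2.2
    have h8 := dist_triangle (D p.1 p.2) (D' p.2) (D' x)
    linarith
  have hfΩ : ∀ x ∈ Ω, f x ∈ Ω := by
    intro x hx
    obtain ⟨K, Q', hK, hQ'c, hQ'Ω, hKb⟩ := hb {x} isCompact_singleton (by simpa using hx)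
    exact hQ'Ω (hQ'c.isClosed.mem_of_tendsto (hf x hx)
      (Eventually.of_forall fun j => (hKb j x rfl).1))
  have hJC : ∀ x ∈ Ω, Tendsto (fun p : ℕ × E => C (F p.1 p.2)) (atTop ×ˢ 𝓝 x) (𝓝 (C (f x))) := by
    intro x hx
    exact (hC.continuousOn.continuousAt (hΩ.mem_nhds (hfΩ x hx))).tendsto.comp (hJf x hx)
  have hcf : ∀ x ∈ Ω, ContinuousAt f x := fun x hx => H9_contAt F f x (hJf x hx) (hfev x hx)
  have hcg : ∀ x ∈ Ω, ContinuousAt g x := fun x hx =>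
    H9_contAt (fun j => fderiv ℝ (F j)) g x (hJg x hx) (hgev x hx)
  have hnear : ∀ x ∈ Ω, ∀ᶠ p : ℕ × E in atTop ×ˢ 𝓝 x, p.2 ∈ Ω := fun x hx =>
    tendsto_snd.eventually (hΩ.mem_nhds hx)
  -- the limit of second derivatives
  obtain ⟨H, hH⟩ : ∃ H : E → E →L[ℝ] E →L[ℝ] E, H = fun x =>
      (ContinuousLinearMap.compL ℝ E E E (g x)).comp (D' x) -
      ((ContinuousLinearMap.compL ℝ E E E).flip (g x)).comp ((C (f x)).comp (g x)) := ⟨_, rfl⟩
  have hHx : ∀ x, H x = (ContinuousLinearMap.compL ℝ E E E (g x)).comp (D' x) -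
      ((ContinuousLinearMap.compL ℝ E E E).flip (g x)).comp ((C (f x)).comp (g x)) := by
    intro x
    rw [hH]
  have hcH : ∀ x ∈ Ω, ContinuousAt H x := by
    intro x hx
    rw [ContinuousAt, hHx x, hH]
    exact H9_quad_tendsto g D' (fun y => C (f y)) (g x) (D' x) (C (f x)) (hcg x hx).tendsto
      (hD'.continuousOn.continuousAt (hΩ.mem_nhds hx)).tendsto
      ((hC.continuousOn.continuousAt (hΩ.mem_nhds (hfΩ x hx))).tendsto.comp (hcf x hx).tendsto)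
  have hJH : ∀ x ∈ Ω, Tendsto (fun p : ℕ × E => fderiv ℝ (fderiv ℝ (F p.1)) p.2)
      (atTop ×ˢ 𝓝 x) (𝓝 (H x)) := by
    intro x hx
    rw [hHx x]
    have h1 := H9_quad_tendsto (fun p : ℕ × E => fderiv ℝ (F p.1) p.2)
      (fun p : ℕ × E => D p.1 p.2) (fun p : ℕ × E => C (F p.1 p.2)) (g x) (D' x) (C (f x))
      (hJg x hx) (hJD x hx) (hJC x hx)
    refine h1.congr' ?_
    filter_upwards [hnear x hx] with p hp
    exact (H9_quad _ _ _ _ (he p.1 p.2 hp)).symm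
  -- derivatives of the limits
  have hdf : ∀ x ∈ Ω, HasFDerivAt f (g x) x := by
    intro x hx
    refine hasFDerivAt_of_tendstoUniformlyOnFilter
      (H9_unif (fun j => fderiv ℝ (F j)) g x (hJg x hx) (hcg x hx)) ?_ (hfev x hx)
    filter_upwards [hnear x hx] with p hp
    exact (((hF p.1).contDiffAt (hΩ.mem_nhds hp)).differentiableAt (by simp)).hasFDerivAt
  have hdg : ∀ x ∈ Ω, HasFDerivAt g (H x) x := by
    intro x hx
    refine hasFDerivAt_of_tendstoUniformlyOnFilter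
      (H9_unif (fun j => fderiv ℝ (fderiv ℝ (F j))) H x (hJH x hx) (hcH x hx)) ?_ (hgev x hx)
    filter_upwards [hnear x hx] with p hp
    exact (((hfd p.1).contDiffAt (hΩ.mem_nhds hp)).differentiableAt (by simp)).hasFDerivAt
  have hgf : ∀ x ∈ Ω, fderiv ℝ f x = g x := fun x hx => (hdf x hx).fderiv
  have hgf' : ∀ x ∈ Ω, fderiv ℝ f =ᶠ[𝓝 x] g := by
    intro x hx
    filter_upwards [hΩ.mem_nhds hx] with y hy using hgf y hy
  have hHf : ∀ x ∈ Ω, fderiv ℝ (fderiv ℝ f) x = H x := by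
    intro x hx
    rw [(hgf' x hx).fderiv_eq]
    exact (hdg x hx).fderiv
  have hC2 : ContDiffOn ℝ 2 f Ω := by
    have h1 : ContDiffOn ℝ (0 + 1) (fderiv ℝ f) Ω := by
      rw [contDiffOn_succ_iff_fderiv_of_isOpen hΩ]
      refine ⟨fun x hx => ?_, by simp, ?_⟩
      · exact ((hgf' x hx).differentiableAt_iff.2 (hdg x hx).differentiableAt).differentiableWithinAt
      · rw [contDiffOn_zero]
        intro x hx
        refine ContinuousAt.continuousWithinAt ?_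
        refine (hcH x hx).congr ?_
        filter_upwards [hΩ.mem_nhds hx] with y hy using (hHf y hy).symm
    have h2 : ContDiffOn ℝ (1 + 1) f Ω := by
      rw [contDiffOn_succ_iff_fderiv_of_isOpen hΩ]
      refine ⟨fun x hx => (hdf x hx).differentiableAt.differentiableWithinAt, by simp, ?_⟩
      rw [zero_add] at h1
      exact h1
    rw [one_add_one_eq_two] at h2
    exact h2
  have hcinf : ContDiffOn ℝ ∞ f Ω := by
    refine bootstrap hΩ hΩ f hfΩ hC2 C D' hC hD' ?_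
    intro x hx v w
    rw [hHf x hx, hHx x, hgf x hx]
    rfl
  refine ⟨f, hcinf, hfΩ, fun x hx => ⟨hf x hx, fun v => ?_⟩⟩
  rw [hgf x hx]
  have h1 := hg x hx
  exact ((ContinuousLinearMap.apply ℝ E v).continuous.tendsto (g x)).comp h1

end FL27
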