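import Pool.Agent.LibFL27.HDefs
import Pool.Agent.LibNS38.B4
import Pool.Agent.LibNS38.P4
import Pool.Agent.LibNS38.P1
import Pool.Agent.LibNS38.D5
import Pool.Agent.LibNS38.D6
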