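import Pool.Agent.LibFL27.H3
import Pool.Agent.LibFL27.H6
import Pool.Agent.LibFL27.H9
import Pool.Agent.LibFL27.CR9
import Pool.Agent.LibFL27.CG8
import Pool.Agent.LibFL27.HBase

set_option autoImplicit false
set_option maxSynthPendingDepth 3

open Matrix MeasureTheory Topology Filter LibNC38
open LibNC27 hiding Mt
open scoped Matrix.Norms.Elementwise ContDiff

namespace FL27

private theorem H10_sqrt {c : ℝ} (h : 1 / 2 ≤ c ∧ c ≤ 2) :
    1 / 2 ≤ √ c ∧ √ c ≤ 2 ∧ √ c ^ 2 = c ∧ 0 < √ c := by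
  have h0 : 0 ≤ c := by linarith [h.1]
  have h1 : 1 / 2 ≤ √ c := by
    apply Real.le_sqrt_of_sq_le
    linarith [h.1]
  refine ⟨h1, ?_, Real.sq_sqrt h0, by linarith⟩
  rw [Real.sqrt_le_iff]
  constructor
  · norm_num
  · linarith [h.2]

private theorem H10_sqd {c d : ℝ} (hc : 1 / 2 ≤ c ∧ c ≤ 2) (hd : 1 / 2 ≤ d ∧ d ≤ 2) :
    |√ d - √ c| ≤ |d - c| := by
  obtain ⟨a1, -, a3, -⟩ := H10_sqrt hc
  obtain ⟨b1, -, b3, -⟩ := H10_sqrt hd
  have h1 : d - c = (√ d - √ c) * (√ d + √ c) := by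
    rw [← a3, ← b3]
    rw [a3, b3]
    nlinarith
  have h2 : 1 ≤ |√ d + √ c| := by
    refine le_trans ?_ (le_abs_self _)
    linarith
  rw [h1, abs_mul]
  exact le_mul_of_one_le_right (abs_nonneg _) h2

private theorem H10_exp {x y m : ℝ} (hx : x ≤ m) (hy : y ≤ m) :
    |Real.exp x - Real.exp y| ≤ Real.exp m * |x - y| := by
  have key : ∀ {x y : ℝ}, x ≤ m → Real.exp x - Real.exp y ≤ Real.exp m * |x - y| := by
    intro x y hx
    have h1 : (y - x) + 1 ≤ Real.exp (y - x) := Real.add_one_le_exp _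
    have h2 : Real.exp y = Real.exp x * Real.exp (y - x) := by
      rw [← Real.exp_add]
      congr 1
      ring
    have h3 := mul_le_mul_of_nonneg_left h1 (Real.exp_pos x).le
    rw [← h2] at h3
    have h4 : Real.exp x - Real.exp y ≤ Real.exp x * (x - y) := by linarith
    have h5 : Real.exp x * (x - y) ≤ Real.exp x * |x - y| :=
      mul_le_mul_of_nonneg_left (le_abs_self _) (Real.exp_pos x).le
    have h6 : Real.exp x * |x - y| ≤ Real.exp m * |x - y| :=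
      mul_le_mul_of_nonneg_right (Real.exp_le_exp.2 hx) (abs_nonneg _)
    linarith
  rw [abs_le]
  constructor
  · have h := key (x := y) (y := x) hy
    rw [abs_sub_comm] at h
    linarith
  · exact key hx

/-- positive lower bound of a metric on compact sets -/
private theorem H10_low {E : Type} [NormedAddCommGroup E] [NormedSpace ℝ E]
    [FiniteDimensional ℝ E] {G : E → E → E → ℝ} {Ω Q : Set E} (hG : NS38.Met G Ω)
    (hQ : IsCompact Q) (hQΩ : Q ⊆ Ω) :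
    ∃ κ : ℝ, 0 < κ ∧ ∀ x ∈ Q, ∀ v, κ * ‖v‖ ^ 2 ≤ G x v v := by
  obtain ⟨L, hL, hLG⟩ := NS38.clm_ext G Ω hG.bil hG.smooth
  have hp : ProperSpace E := FiniteDimensional.proper ℝ E
  have hc : ContinuousOn (fun z : E × E => L z.1 z.2 z.2) (Q ×ˢ Metric.sphere (0 : E) 1) := by
    have h1 : ContinuousOn (fun z : E × E => L z.1) (Q ×ˢ Metric.sphere (0 : E) 1) :=
      hL.continuousOn.comp continuousOn_fst fun z hz => hQΩ hz.1
    exact (h1.clm_apply continuousOn_snd).clm_apply continuousOn_snd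
  obtain ⟨κ, hκ, hb⟩ := (hQ.prod (isCompact_sphere (0 : E) 1)).exists_forall_le' hc (a := 0)
    (fun z hz => by
      have h2 : ‖z.2‖ = 1 := mem_sphere_zero_iff_norm.1 hz.2
      rw [hLG _ (hQΩ hz.1)]
      refine hG.pos _ (hQΩ hz.1) _ ?_
      intro h0
      rw [h0, norm_zero] at h2
      exact zero_ne_one h2)
  refine ⟨κ, hκ, fun x hx v => ?_⟩
  by_cases hv : v = 0
  · rw [hv, norm_zero, ← hLG x (hQΩ hx)]
    simp
  · have h1 : 0 < ‖v‖ := norm_pos_iff.2 hv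
    have h2 := hb (x, ‖v‖⁻¹ • v) ⟨hx, by
      rw [mem_sphere_zero_iff_norm, norm_smul, norm_inv, norm_norm]
      exact inv_mul_cancel₀ h1.ne'⟩
    have h3 : κ ≤ ‖v‖⁻¹ * (‖v‖⁻¹ * L x v v) := by
      have h4 : L x (‖v‖⁻¹ • v) (‖v‖⁻¹ • v) = ‖v‖⁻¹ * (‖v‖⁻¹ * L x v v) := by
        simp only [map_smul, _root_.smul_apply, smul_eq_mul]
      rw [← h4]
      exact h2
    rw [← hLG x (hQΩ hx)]
    have h5 : κ * ‖v‖ ^ 2 ≤ ‖v‖⁻¹ * (‖v‖⁻¹ * L x v v) * ‖v‖ ^ 2 :=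
      mul_le_mul_of_nonneg_right h3 (sq_nonneg _)
    refine h5.trans (le_of_eq ?_)
    field_simp

/-- upper bound of a metric on compact sets -/
private theorem H10_up {E : Type} [NormedAddCommGroup E] [NormedSpace ℝ E]
    [FiniteDimensional ℝ E] {G : E → E → E → ℝ} {Ω Q : Set E} (hG : NS38.Met G Ω)
    (hQ : IsCompact Q) (hQΩ : Q ⊆ Ω) :
    ∃ M : ℝ, 0 ≤ M ∧ ∀ x ∈ Q, ∀ v, G x v v ≤ M * ‖v‖ ^ 2 := by
  obtain ⟨L, hL, hLG⟩ := NS38.clm_ext G Ω hG.bil hG.smooth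
  obtain ⟨M, hM⟩ := hQ.exists_bound_of_continuousOn (hL.continuousOn.mono hQΩ)
  refine ⟨|M|, abs_nonneg _, fun x hx v => ?_⟩
  rw [← hLG x (hQΩ hx)]
  refine (le_abs_self _).trans ?_
  have h1 := (L x).le_opNorm₂ v v
  rw [Real.norm_eq_abs] at h1
  refine h1.trans ?_
  have h2 : ‖L x‖ ≤ |M| := (hM x hx).trans (le_abs_self M)
  calc ‖L x‖ * ‖v‖ * ‖v‖ = ‖L x‖ * ‖v‖ ^ 2 := by ring
    _ ≤ |M| * ‖v‖ ^ 2 := mul_le_mul_of_nonneg_right h2 (sq_nonneg _)

private theorem H10_ret {n : ℕ} (Q : Set (Mt n)) (hQ : IsCompact Q) (hQP : Q ⊆ PU n) :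
    IsCompact ((fun A : Mt n => ret A) '' Q) := by
  refine hQ.image_of_continuousOn ?_
  refine (Topology.IsEmbedding.subtypeVal
    (p := fun p : Mt n => p.PosDef ∧ p.det = 1)).isInducing.continuousOn_iff.2 ?_
  exact ((ret_smooth (n := n) (m := 0)).continuousOn).mono hQP

/-- the maps stay in a compact set -/
private theorem H10_cpt {n : ℕ} (hn : 1 ≤ n) (Q : Set (Mt n)) (hQ : IsCompact Q) (hQP : Q ⊆ PU n)
    (P : Set (PD n)) (hP : IsCompact P) :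
    ∃ Q' : Set (Mt n), IsCompact Q' ∧ Q' ⊆ PU n ∧ ∀ a : ℝ, 0 ≤ a → a ≤ 2 →
      ∀ φ : PD n → PD n, ∀ x ∈ Q, φ (ret x) ∈ P → lft a φ x ∈ Q' := by
  obtain ⟨-, d2, d3, -, d5, d6⟩ := dec_facts (n := n) hn
  have he : ContinuousOn (fun A : Mt n => ell A) (PU n) := (d5 (m := 0)).continuousOn
  have hs : Continuous (fun A : Mt n => skp A) :=
    continuousOn_univ.1 (d6 (m := 0) (S := Set.univ)).continuousOn
  have hf : ContinuousOn (fun z : ℝ × PD n × Mt n =>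
      Real.exp (z.1 * ell z.2.2) • z.2.1.1 + z.1 • skp z.2.2)
      (Set.Icc (0 : ℝ) 2 ×ˢ (P ×ˢ Q)) := by
    have h0 : Continuous (fun z : ℝ × PD n × Mt n => z.2.2) := continuous_snd.comp continuous_snd
    have h1 : ContinuousOn (fun z : ℝ × PD n × Mt n => ell z.2.2)
        (Set.Icc (0 : ℝ) 2 ×ˢ (P ×ˢ Q)) :=
      he.comp h0.continuousOn fun z hz => hQP hz.2.2
    have h2 : ContinuousOn (fun z : ℝ × PD n × Mt n => Real.exp (z.1 * ell z.2.2))
        (Set.Icc (0 : ℝ) 2 ×ˢ (P ×ˢ Q)) :=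
      Real.continuous_exp.comp_continuousOn (continuousOn_fst.mul h1)
    have h3 : Continuous (fun z : ℝ × PD n × Mt n => z.2.1.1) :=
      continuous_subtype_val.comp (continuous_fst.comp continuous_snd)
    have h4 : Continuous (fun z : ℝ × PD n × Mt n => skp z.2.2) := hs.comp h0
    exact (h2.smul h3.continuousOn).add (continuousOn_fst.smul h4.continuousOn)
  refine ⟨_, (isCompact_Icc.prod (hP.prod hQ)).image_of_continuousOn hf, ?_, ?_⟩
  · rintro A ⟨z, hz, rfl⟩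
    refine (d2 _ _ _ ?_).1
    rw [Matrix.transpose_smul, d3, smul_neg]
  · intro a ha0 ha2 φ x hx hφ
    exact ⟨(a, φ (ret x), x), ⟨⟨ha0, ha2⟩, hφ, hx⟩, rfl⟩

/-- the difference of two maps -/
private theorem H10_diff {n : ℕ} (hn : 1 ≤ n) (Q : Set (Mt n)) (hQ : IsCompact Q) (hQP : Q ⊆ PU n)
    (P : Set (PD n)) (hP : IsCompact P) :
    ∃ M : ℝ, 0 ≤ M ∧ ∀ a b : ℝ, 0 ≤ a → a ≤ 2 → 0 ≤ b → b ≤ 2 →
      ∀ φ χ : PD n → PD n, ∀ x ∈ Q, χ (ret x) ∈ P →
      ‖lft b χ x - lft a φ x‖ ≤ M * (|b - a| + ‖(χ (ret x)).1 - (φ (ret x)).1‖) := by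
  obtain ⟨-, -, -, -, d5, d6⟩ := dec_facts (n := n) hn
  obtain ⟨l, hl⟩ := hQ.exists_bound_of_continuousOn ((d5 (m := 0)).continuousOn.mono hQP)
  obtain ⟨s, hs⟩ := hQ.exists_bound_of_continuousOn (d6 (m := 0) (S := Q)).continuousOn
  obtain ⟨r, hr⟩ := hP.exists_bound_of_continuousOn
    (continuous_subtype_val (p := fun p : Mt n => p.PosDef ∧ p.det = 1)).continuousOn
  refine ⟨Real.exp (2 * |l|) * (|l| * |r| + 1) + |s|, by positivity, ?_⟩
  intro a b ha0 ha2 hb0 hb2 φ χ x hx hχ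
  have hl1 : |ell x| ≤ |l| := (hl x hx).trans (le_abs_self l)
  have hs1 : ‖skp x‖ ≤ |s| := (hs x hx).trans (le_abs_self s)
  have hr1 : ‖(χ (ret x)).1‖ ≤ |r| := (hr _ hχ).trans (le_abs_self r)
  have hm : ∀ c : ℝ, 0 ≤ c → c ≤ 2 → c * ell x ≤ 2 * |l| := by
    intro c h0 h2
    calc c * ell x ≤ c * |ell x| := mul_le_mul_of_nonneg_left (le_abs_self _) h0
      _ ≤ 2 * |l| := mul_le_mul h2 hl1 (abs_nonneg _) (by norm_num)
  have he := H10_exp (hm b hb0 hb2) (hm a ha0 ha2)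
  have he2 : |b * ell x - a * ell x| ≤ |b - a| * |l| := by
    rw [← sub_mul, abs_mul]
    exact mul_le_mul_of_nonneg_left hl1 (abs_nonneg _)
  have he3 : |Real.exp (b * ell x) - Real.exp (a * ell x)| ≤
      Real.exp (2 * |l|) * (|b - a| * |l|) :=
    he.trans (mul_le_mul_of_nonneg_left he2 (Real.exp_pos _).le)
  have hdec : lft b χ x - lft a φ x =
      (Real.exp (b * ell x) - Real.exp (a * ell x)) • (χ (ret x)).1 +
        Real.exp (a * ell x) • ((χ (ret x)).1 - (φ (ret x)).1) + (b - a) • skp x := by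
    show (Real.exp (b * ell x) • (χ (ret x)).1 + b • skp x) -
      (Real.exp (a * ell x) • (φ (ret x)).1 + a • skp x) = _
    module
  rw [hdec]
  refine (norm_add₃_le).trans ?_
  rw [norm_smul, norm_smul, norm_smul, Real.norm_eq_abs, Real.norm_eq_abs, Real.norm_eq_abs,
    Real.abs_exp]
  have t1 : |Real.exp (b * ell x) - Real.exp (a * ell x)| * ‖(χ (ret x)).1‖ ≤
      Real.exp (2 * |l|) * (|b - a| * |l|) * |r| :=
    mul_le_mul he3 hr1 (norm_nonneg _) (by positivity)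
  have t2 : Real.exp (a * ell x) * ‖(χ (ret x)).1 - (φ (ret x)).1‖ ≤
      Real.exp (2 * |l|) * ‖(χ (ret x)).1 - (φ (ret x)).1‖ :=
    mul_le_mul_of_nonneg_right (Real.exp_le_exp.2 (hm a ha0 ha2)) (norm_nonneg _)
  have t3 : |b - a| * ‖skp x‖ ≤ |b - a| * |s| :=
    mul_le_mul_of_nonneg_left hs1 (abs_nonneg _)
  have p1 : 0 ≤ Real.exp (2 * |l|) * (|l| * |r|) * ‖(χ (ret x)).1 - (φ (ret x)).1‖ := by
    positivity
  have p2 : 0 ≤ |s| * ‖(χ (ret x)).1 - (φ (ret x)).1‖ := by positivity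
  have p3 : 0 ≤ Real.exp (2 * |l|) * |b - a| := by positivity
  have e1 : (Real.exp (2 * |l|) * (|l| * |r| + 1) + |s|) *
      (|b - a| + ‖(χ (ret x)).1 - (φ (ret x)).1‖) =
      Real.exp (2 * |l|) * (|b - a| * |l|) * |r| +
      Real.exp (2 * |l|) * ‖(χ (ret x)).1 - (φ (ret x)).1‖ + |b - a| * |s| +
      (Real.exp (2 * |l|) * (|l| * |r|) * ‖(χ (ret x)).1 - (φ (ret x)).1‖ +
        |s| * ‖(χ (ret x)).1 - (φ (ret x)).1‖ + Real.exp (2 * |l|) * |b - a|) := by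
    ring
  rw [e1]
  linarith

/-- Row H10. Application to `F j = lft (√(C j)) (Φ j)` on `PU n`: `G = prodm h`, `C` its Christoffel symbol, `D j`
that of `prodm (hs j)`, `D'` that of `prodm gF` (`NS38.kos_facts` (4)); equation: `NS38.chr_trans`, `prodm_pull`,
`lft_surj`; bounds: `dg (Φ j p) p ≤ 4 K ρ` keeps `F j (Q)` in a compact subset of `PU n` (H3, `dec_facts`);
`‖D (F j)‖` from `prodm h (F x) (DF v, DF v) = C j * prodm (hs j) x v v` and `prodm h ≥ κ ‖.‖²` on `Q'`, `prodm (hs j) ≤ K`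
on `Q` (H5); `‖D j - D'‖`: H6 (with `K ρ` small: `ρ ≤ ρ0`; for finitely many `j` if needed enlarge the constant by
continuity); `‖F (j+1) - F j‖`: H3 (last part), `|√(C (j+1)) - √(C j)| ≤ 2^-j`. -/
theorem gs_smooth {n : ℕ} (hn : 3 ≤ n) (Γ : Subgroup (SL n)) (ρ : ℝ) (h : PD n → Fm n)
    (φ : ℕ → PD n → PD n) (hs : ℕ → PD n → Fm n) (cs : ℕ → ℝ) (hρ : 0 < ρ)
    (hG : GSeq Γ ρ h φ hs cs) (Φ : ℕ → PD n → PD n) (C : ℕ → ℝ) (hΦ : ∀ j, Dfm Γ (Φ j))
    (hC : ∀ j, 1 / 2 ≤ C j ∧ C j ≤ 2) (hC1 : ∀ j, |C (j + 1) - C j| ≤ 2 * ρ * (1 / 2) ^ j)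
    (hp : ∀ j p v, IsTan p v → pul (Φ j) h p v v = C j * hs j p v v) (K : ℝ)
    (hd : ∀ j p, dg (Φ (j + 1) p) (Φ j p) ≤ K * (1 / 2) ^ j) (hd0 : ∀ j p, dg (Φ j p) p ≤ K) :
    ∃ f : Mt n → Mt n, ContDiffOn ℝ ∞ f (PU n) ∧ (∀ A ∈ PU n, f A ∈ PU n) ∧ ∀ A ∈ PU n,
      Tendsto (fun j => lft (√ (C j)) (Φ j) A) atTop (𝓝 (f A)) ∧
      ∀ v, Tendsto (fun j => fderiv ℝ (lft (√ (C j)) (Φ j)) A v) atTop (𝓝 (fderiv ℝ f A v)) := by
  have hn1 : 1 ≤ n := by omega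
  have hn2 : 2 ≤ n := by omega
  obtain ⟨g1, g2, g3, g4⟩ := dg_facts (n := n)
  obtain ⟨-, -, c3, c4⟩ := dg_complete hn2
  have hMj : ∀ j, MetX (hs j) := fun j => metX_of Γ (hs j) (hG.ok j) (hG.sm j) (hG.pos j)
  have hMh : MetX h := by
    have h1 := hMj 0
    rwa [hG.h0] at h1
  have hMg : MetX (gF : PD n → Fm n) := (prodm_gF hn1).1
  have mh := met_prodm hn1 h hMh
  have mj : ∀ j, NS38.Met (prodm (hs j)) (PU n) := fun j => met_prodm hn1 (hs j) (hMj j)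
  have mg := met_prodm hn1 gF hMg
  have hex := (NS38.kos_facts (E := Mt n) (Ω := PU n) PU_open).2.2.2.1
  obtain ⟨Ch, hCh, hKh⟩ := hex _ mh
  obtain ⟨Cg, hCg, hKg⟩ := hex _ mg
  choose D hD hKD using fun j => hex _ (mj j)
  have hsq : ∀ j, 1 / 2 ≤ √ (C j) ∧ √ (C j) ≤ 2 ∧ √ (C j) ^ 2 = C j ∧ 0 < √ (C j) :=
    fun j => H10_sqrt (hC j)
  have hFs : ∀ j, ContDiffOn ℝ ∞ (lft (√ (C j)) (Φ j)) (PU n) := fun j =>
    (lft_facts hn1).2.2.2.2 _ _ (hΦ j).smooth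
  have hFm : ∀ j, ∀ x ∈ PU n, lft (√ (C j)) (Φ j) x ∈ PU n := fun j x hx =>
    ((lft_facts hn1).1 _ _ x hx).1
  have hpull : ∀ j, ∀ x ∈ PU n, ∀ v w, prodm h (lft (√ (C j)) (Φ j) x)
      (fderiv ℝ (lft (√ (C j)) (Φ j)) x v) (fderiv ℝ (lft (√ (C j)) (Φ j)) x w) =
      C j * prodm (hs j) x v w := by
    intro j x hx v w
    have h1 := prodm_pull hn1 h (hs j) hMh.symm (hMj j).symm (Φ j) (hΦ j).smooth (√ (C j))
      (hsq j).2.2.2 (fun p v hv => by rw [(hsq j).2.2.1]; exact hp j p v hv) x hx v w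
    rw [(hsq j).2.2.1] at h1
    exact h1
  refine lim_smooth PU_open (fun j => lft (√ (C j)) (Φ j)) Ch D Cg hFs hFm hCh hCg ?_ ?_
  · intro j x hx v w
    have h1 := NS38.chr_trans PU_open PU_open mh (mj j) (lft (√ (C j)) (Φ j)) (hFs j) (hFm j)
      (lft_surj hn1 Γ (Φ j) (hΦ j) _ (hsq j).2.2.2) (C j) (by linarith [(hC j).1]) (hpull j)
      Ch (D j) hCh (hD j) hKh (hKD j) x hx v w
    rw [h1]
    abel
  · intro Q hQ hQP
    have hK0 : K ≤ |K| := le_abs_self K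
    -- compact sets
    have hP0 := H10_ret Q hQ hQP
    obtain ⟨P, hP, hP1⟩ := c3 _ hP0 |K|
    have hin : ∀ j, ∀ x ∈ Q, Φ j (ret x) ∈ P := by
      intro j x hx
      refine hP1 (ret x) _ ⟨x, hx, rfl⟩ ?_
      rw [g3]
      exact (hd0 j _).trans hK0
    obtain ⟨Q', hQ', hQ'P, hQ1⟩ := H10_cpt hn1 Q hQ hQP P hP
    -- first derivatives
    obtain ⟨κ, hκ, hlow⟩ := H10_low mh hQ' hQ'P
    obtain ⟨M, hM, hup⟩ := H10_up mg hQ hQP
    obtain ⟨K5, hK5, h5⟩ := prodm_c1 hn1 Q hQ hQP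
    -- Christoffel symbols
    obtain ⟨K6, ε0, hK6, hε0, h6⟩ := chr_close hn1 Q hQ hQP
    choose B hB using fun j => hQ.exists_bound_of_continuousOn
      ((((hD j).continuousOn).sub hCg.continuousOn).mono hQP)
    obtain ⟨N, hN⟩ := exists_pow_lt_of_lt_one (div_pos hε0 hρ) (by norm_num : (1 / 2 : ℝ) < 1)
    -- differences
    obtain ⟨M2, hM2, hdif⟩ := H10_diff hn1 Q hQ hQP P hP
    obtain ⟨K3, hK3, h3⟩ := c4 P hP
    obtain ⟨r, hr⟩ := hP.exists_bound_of_continuousOn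
      (continuous_subtype_val (p := fun p : Mt n => p.PosDef ∧ p.det = 1)).continuousOn
    have half0 : ∀ j : ℕ, (0 : ℝ) < (1 / 2) ^ j := fun j => by positivity
    have half1 : ∀ j : ℕ, ((1 : ℝ) / 2) ^ j ≤ 1 := fun j => pow_le_one₀ (by norm_num) (by norm_num)
    obtain ⟨k1, hk1⟩ : ∃ k1 : ℝ, k1 = √ (2 * (M + K5 * ρ) / κ) := ⟨_, rfl⟩
    obtain ⟨k2, hk2⟩ : ∃ k2 : ℝ, k2 = K6 * ρ + ∑ i ∈ Finset.range N, |B i| * 2 ^ i := ⟨_, rfl⟩
    obtain ⟨k3, hk3⟩ : ∃ k3 : ℝ, k3 = M2 * (2 * ρ + (K3 + 2 * |r|) * |K|) := ⟨_, rfl⟩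
    have hk10 : 0 ≤ k1 := by rw [hk1]; positivity
    have hk20 : 0 ≤ k2 := by rw [hk2]; positivity
    have hk30 : 0 ≤ k3 := by rw [hk3]; positivity
    refine ⟨k1 + k2 + k3 + 1, Q', by linarith, hQ', hQ'P, fun j x hx => ⟨?_, ?_, ?_, ?_⟩⟩
    · exact hQ1 _ (hsq j).2.2.2.le (hsq j).2.1 (Φ j) x hx (hin j x hx)
    · intro v
      have e1 := hlow _ (hQ1 _ (hsq j).2.2.2.le (hsq j).2.1 (Φ j) x hx (hin j x hx))
        (fderiv ℝ (lft (√ (C j)) (Φ j)) x v)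
      rw [hpull j x (hQP hx)] at e1
      have e2 := hup x hx v
      have e3 := (h5 (hs j) (ρ * (1 / 2) ^ j) (by positivity) (hG.sm j) (hMj j).symm (hG.tb j) x hx
        v v v).1
      have e4 : prodm (hs j) x v v ≤ (M + K5 * ρ) * ‖v‖ ^ 2 := by
        have e5 := (le_abs_self _).trans e3
        have e6 : K5 * (ρ * (1 / 2) ^ j) * (‖v‖ * ‖v‖) ≤ K5 * ρ * ‖v‖ ^ 2 := by
          have e7 : K5 * (ρ * (1 / 2) ^ j) * (‖v‖ * ‖v‖) = K5 * ρ * ‖v‖ ^ 2 * (1 / 2) ^ j := by ring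
          rw [e7]
          exact mul_le_of_le_one_right (by positivity) (half1 j)
        linarith
      have e8 : C j * prodm (hs j) x v v ≤ 2 * ((M + K5 * ρ) * ‖v‖ ^ 2) := by
        have e9 : 0 ≤ C j := by linarith [(hC j).1]
        calc C j * prodm (hs j) x v v ≤ C j * ((M + K5 * ρ) * ‖v‖ ^ 2) :=
              mul_le_mul_of_nonneg_left e4 e9
          _ ≤ 2 * ((M + K5 * ρ) * ‖v‖ ^ 2) :=
              mul_le_mul_of_nonneg_right (hC j).2 (by positivity)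
      have e10 : ‖fderiv ℝ (lft (√ (C j)) (Φ j)) x v‖ ^ 2 ≤ (k1 * ‖v‖) ^ 2 := by
        rw [mul_pow, hk1, Real.sq_sqrt (by positivity), div_mul_eq_mul_div, le_div_iff₀ hκ]
        calc ‖fderiv ℝ (lft (√ (C j)) (Φ j)) x v‖ ^ 2 * κ
            = κ * ‖fderiv ℝ (lft (√ (C j)) (Φ j)) x v‖ ^ 2 := by ring
          _ ≤ 2 * ((M + K5 * ρ) * ‖v‖ ^ 2) := e1.trans e8
          _ = 2 * (M + K5 * ρ) * ‖v‖ ^ 2 := by ring
      have e11 := abs_le_of_sq_le_sq e10 (by positivity)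
      have e12 : ‖fderiv ℝ (lft (√ (C j)) (Φ j)) x v‖ ≤ k1 * ‖v‖ := (le_abs_self _).trans e11
      refine e12.trans (mul_le_mul_of_nonneg_right ?_ (norm_nonneg _))
      linarith
    · intro v w
      have hvw : 0 ≤ ‖v‖ * ‖w‖ := by positivity
      have key : ‖D j x v w - Cg x v w‖ ≤ k2 * (1 / 2) ^ j * (‖v‖ * ‖w‖) := by
        by_cases hj : j < N
        · have e1 : ‖D j x v w - Cg x v w‖ ≤ |B j| * (‖v‖ * ‖w‖) := by
            have e2 := (D j x - Cg x).le_opNorm₂ v w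
            have e3 : ‖D j x - Cg x‖ ≤ |B j| := (hB j x hx).trans (le_abs_self _)
            have e4 : (D j x - Cg x) v w = D j x v w - Cg x v w := rfl
            rw [e4] at e2
            refine e2.trans ?_
            rw [mul_assoc]
            exact mul_le_mul_of_nonneg_right e3 hvw
          have e5 : |B j| ≤ k2 * (1 / 2) ^ j := by
            have e6 : |B j| * 2 ^ j ≤ ∑ i ∈ Finset.range N, |B i| * 2 ^ i :=
              Finset.single_le_sum (f := fun i => |B i| * 2 ^ i) (fun i _ => by positivity)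
                (Finset.mem_range.2 hj)
            have e7 : |B j| * 2 ^ j ≤ k2 := by
              rw [hk2]
              have : 0 ≤ K6 * ρ := by positivity
              linarith
            calc |B j| = |B j| * 2 ^ j * (1 / 2) ^ j := by
                  rw [mul_assoc, ← mul_pow]
                  norm_num
              _ ≤ k2 * (1 / 2) ^ j := mul_le_mul_of_nonneg_right e7 (half0 j).le
          exact e1.trans (mul_le_mul_of_nonneg_right e5 hvw)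
        · have e0 : (1 / 2 : ℝ) ^ j ≤ (1 / 2) ^ N :=
            pow_le_pow_of_le_one (by norm_num) (by norm_num) (not_lt.1 hj)
          have e1 : ρ * (1 / 2) ^ j ≤ ε0 := by
            have e2 : (1 / 2 : ℝ) ^ j < ε0 / ρ := lt_of_le_of_lt e0 hN
            rw [lt_div_iff₀ hρ] at e2
            linarith
          have e3 := h6 (hs j) (ρ * (1 / 2) ^ j) (by positivity) e1 (hG.sm j) (hMj j) (hG.tb j)
            (D j) Cg (hKD j) hKg x hx v w
          refine e3.trans (mul_le_mul_of_nonneg_right ?_ hvw)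
          rw [← mul_assoc]
          refine mul_le_mul_of_nonneg_right ?_ (half0 j).le
          rw [hk2]
          have : 0 ≤ ∑ i ∈ Finset.range N, |B i| * 2 ^ i := by positivity
          linarith
      refine key.trans (mul_le_mul_of_nonneg_right ?_ hvw)
      refine mul_le_mul_of_nonneg_right ?_ (half0 j).le
      linarith
    · have e1 := hdif (√ (C j)) (√ (C (j + 1))) (hsq j).2.2.2.le (hsq j).2.1
        (hsq (j + 1)).2.2.2.le (hsq (j + 1)).2.1 (Φ j) (Φ (j + 1)) x hx (hin (j + 1) x hx)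
      have e2 : |√ (C (j + 1)) - √ (C j)| ≤ 2 * ρ * (1 / 2) ^ j :=
        (H10_sqd (hC j) (hC (j + 1))).trans (hC1 j)
      have e3 : ‖(Φ (j + 1) (ret x)).1 - (Φ j (ret x)).1‖ ≤
          (K3 + 2 * |r|) * (|K| * (1 / 2) ^ j) := by
        have e4 : dg (Φ j (ret x)) (Φ (j + 1) (ret x)) ≤ |K| * (1 / 2) ^ j := by
          rw [g3]
          exact (hd j _).trans (mul_le_mul_of_nonneg_right hK0 (half0 j).le)
        have e0 : 0 ≤ |K| * (1 / 2) ^ j := by positivity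
        by_cases hj : |K| * (1 / 2) ^ j ≤ 1
        · have e5 := h3 (Φ j (ret x)) (Φ (j + 1) (ret x)) (hin j x hx) (e4.trans hj)
          rw [norm_sub_rev]
          have e6 : K3 * dg (Φ j (ret x)) (Φ (j + 1) (ret x)) ≤ K3 * (|K| * (1 / 2) ^ j) :=
            mul_le_mul_of_nonneg_left e4 hK3.le
          have e7 : 0 ≤ 2 * |r| * (|K| * (1 / 2) ^ j) := by positivity
          linarith
        · have e5 : ‖(Φ (j + 1) (ret x)).1‖ ≤ |r| :=
            (hr _ (hin (j + 1) x hx)).trans (le_abs_self r)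
          have e6 : ‖(Φ j (ret x)).1‖ ≤ |r| := (hr _ (hin j x hx)).trans (le_abs_self r)
          have e7 := norm_sub_le (Φ (j + 1) (ret x)).1 (Φ j (ret x)).1
          have e8 : 2 * |r| ≤ 2 * |r| * (|K| * (1 / 2) ^ j) :=
            le_mul_of_one_le_right (by positivity) (not_le.1 hj).le
          have e9 : 0 ≤ K3 * (|K| * (1 / 2) ^ j) := by positivity
          linarith
      have e10 : ‖lft (√ (C (j + 1))) (Φ (j + 1)) x - lft (√ (C j)) (Φ j) x‖ ≤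
          k3 * (1 / 2) ^ j := by
        refine e1.trans ?_
        calc M2 * (|√ (C (j + 1)) - √ (C j)| + ‖(Φ (j + 1) (ret x)).1 - (Φ j (ret x)).1‖)
            ≤ M2 * (2 * ρ * (1 / 2) ^ j + (K3 + 2 * |r|) * (|K| * (1 / 2) ^ j)) :=
              mul_le_mul_of_nonneg_left (add_le_add e2 e3) hM2
          _ = k3 * (1 / 2) ^ j := by rw [hk3]; ring
      refine e10.trans (mul_le_mul_of_nonneg_right ?_ (half0 j).le)
      linarith

end FL27
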