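import Pool.Agent.LibFL27.H5
import Pool.Agent.LibFL27.CR9
import Pool.Agent.LibFL27.CG8
import Pool.Agent.LibFL27.HBase

set_option autoImplicit false
set_option maxSynthPendingDepth 3

open Matrix MeasureTheory Topology Filter LibNC38
open LibNC27 hiding Mt
open scoped Matrix.Norms.Elementwise ContDiff

namespace FL27

private theorem H11_ap {E F : Type} [NormedAddCommGroup E] [NormedSpace ℝ E]
    [NormedAddCommGroup F] [NormedSpace ℝ F] (L : ℕ → E →L[ℝ] F) (L0 : E →L[ℝ] F) (x : ℕ → E)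
    (x0 : E) (h1 : Tendsto L atTop (𝓝 L0)) (h2 : Tendsto x atTop (𝓝 x0)) :
    Tendsto (fun j => L j (x j)) atTop (𝓝 (L0 x0)) :=
  ((isBoundedBilinearMap_apply (𝕜 := ℝ) (E := E) (F := F)).continuous.tendsto (L0, x0)).comp
    (h1.prodMk_nhds h2)

private theorem H11_bi {E : Type} [NormedAddCommGroup E] [NormedSpace ℝ E]
    (L : ℕ → E →L[ℝ] E →L[ℝ] ℝ) (L0 : E →L[ℝ] E →L[ℝ] ℝ) (x : ℕ → E) (x0 : E)
    (h1 : Tendsto L atTop (𝓝 L0)) (h2 : Tendsto x atTop (𝓝 x0)) :
    Tendsto (fun j => L j (x j) (x j)) atTop (𝓝 (L0 x0 x0)) :=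
  H11_ap _ _ _ _ (H11_ap _ _ _ _ h1 h2) h2

private theorem H11_dA {n : ℕ} {f : Mt n → Mt n} (hf : ContDiffOn ℝ ∞ f (PU n)) {A : Mt n}
    (hA : A ∈ PU n) : DifferentiableAt ℝ f A :=
  (hf.differentiableOn (by simp)).differentiableAt (PU_open.mem_nhds hA)

private theorem H11_dR {n : ℕ} {f : Mt n → ℝ} (hf : ContDiffOn ℝ ∞ f (PU n)) {A : Mt n}
    (hA : A ∈ PU n) : DifferentiableAt ℝ f A :=
  (hf.differentiableOn (by simp)).differentiableAt (PU_open.mem_nhds hA)

private theorem H11_chainA {n : ℕ} {F L : Mt n → Mt n} {A : Mt n}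
    (hL : DifferentiableAt ℝ L A) (hF : DifferentiableAt ℝ F (L A)) (v : Mt n) :
    fderiv ℝ F (L A) (fderiv ℝ L A v) = fderiv ℝ (fun C => F (L C)) A v := by
  have h := hF.hasFDerivAt.comp A hL.hasFDerivAt
  have h1 : fderiv ℝ (fun C => F (L C)) A = (fderiv ℝ F (L A)).comp (fderiv ℝ L A) := h.fderiv
  rw [h1]
  rfl

private theorem H11_chainR {n : ℕ} {F : Mt n → ℝ} {L : Mt n → Mt n} {A : Mt n}
    (hL : DifferentiableAt ℝ L A) (hF : DifferentiableAt ℝ F (L A)) (v : Mt n) :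
    fderiv ℝ F (L A) (fderiv ℝ L A v) = fderiv ℝ (fun C => F (L C)) A v := by
  have h := hF.hasFDerivAt.comp A hL.hasFDerivAt
  have h1 : fderiv ℝ (fun C => F (L C)) A = (fderiv ℝ F (L A)).comp (fderiv ℝ L A) := h.fderiv
  rw [h1]
  rfl

private noncomputable def H11_S (n : ℕ) : Mt n →ₗ[ℝ] Mt n where
  toFun := fun A => skp A
  map_add' := by
    intro A B
    ext i j
    simp only [skp, Matrix.smul_apply, Matrix.sub_apply, Matrix.add_apply, Matrix.transpose_apply,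
      smul_eq_mul]
    ring
  map_smul' := by
    intro r A
    ext i j
    simp only [skp, Matrix.smul_apply, Matrix.sub_apply, Matrix.transpose_apply,
      smul_eq_mul, RingHom.id_apply]
    ring

private theorem H11_skp {n : ℕ} (B : Mt n) :
    HasFDerivAt (fun C : Mt n => skp C) (LinearMap.toContinuousLinearMap (H11_S n)) B :=
  (LinearMap.toContinuousLinearMap (H11_S n)).hasFDerivAt

private theorem H11_proj {n : ℕ} (hn : 1 ≤ n) (φ : PD n → PD n) (hφ : SmX φ) (a : ℝ)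
    (A : Mt n) (hA : A ∈ PU n) :
    (∀ u : Mt n, fderiv ℝ (fun C : Mt n => (ret C).1) (lft a φ A) (fderiv ℝ (lft a φ) A u) =
      dff φ (ret A) (fderiv ℝ (fun C : Mt n => (ret C).1) A u)) ∧
    (∀ u : Mt n, ((syp (lft a φ A))⁻¹ * syp (fderiv ℝ (lft a φ) A u)).trace =
      a * ((syp A)⁻¹ * syp u).trace) ∧
    (∀ u : Mt n, skp (fderiv ℝ (lft a φ) A u) = a • skp u) := by
  have hnhds : PU n ∈ 𝓝 A := PU_open.mem_nhds hA
  have hLs : ContDiffOn ℝ ∞ (lft a φ) (PU n) := (lft_facts hn).2.2.2.2 a φ hφ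
  have hL : DifferentiableAt ℝ (lft a φ) A := H11_dA hLs hA
  obtain ⟨hB, hrB, heB, hkB⟩ := (lft_facts hn).1 a φ A hA
  have hret : ∀ {C : Mt n}, C ∈ PU n → DifferentiableAt ℝ (fun C : Mt n => (ret C).1) C :=
    fun hC => H11_dA ret_smooth hC
  have hell : ∀ {C : Mt n}, C ∈ PU n → DifferentiableAt ℝ (fun C : Mt n => ell C) C :=
    fun hC => H11_dR (dec_facts hn).2.2.2.2.1 hC
  refine ⟨?_, ?_, ?_⟩
  · intro u
    have e1 := H11_chainA (F := fun C : Mt n => (ret C).1) hL (hret hB) u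
    rw [e1]
    have e2 : (fun C : Mt n => (ret (lft a φ C)).1) =ᶠ[𝓝 A] fun C : Mt n => (φ (ret C)).1 := by
      filter_upwards [hnhds] with C hC
      rw [((lft_facts hn).1 a φ C hC).2.1]
    rw [e2.fderiv_eq]
    have e3 : (fun C : Mt n => (φ (ret C)).1) = fun C : Mt n =>
        (fun D : Mt n => (φ (ret D)).1) ((fun D : Mt n => (ret D).1) C) := by
      funext C
      show (φ (ret C)).1 = (φ (ret (ret C).1)).1
      rw [ret_self]
    rw [e3]
    have e4 := H11_chainA (F := fun D : Mt n => (φ (ret D)).1) (L := fun D : Mt n => (ret D).1)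
      (A := A) (hret hA) (H11_dA hφ (mem_PU (ret A))) u
    rw [← e4]
    rfl
  · intro u
    have e1 := H11_chainR (F := fun C : Mt n => ell C) hL (hell hB) u
    have e2 : (fun C : Mt n => ell (lft a φ C)) =ᶠ[𝓝 A] fun C : Mt n => a * ell C := by
      filter_upwards [hnhds] with C hC
      rw [((lft_facts hn).1 a φ C hC).2.2.1]
    rw [e2.fderiv_eq] at e1
    have e3 : fderiv ℝ (fun C : Mt n => a * ell C) A u = a * fderiv ℝ (fun C : Mt n => ell C) A u := by
      have e4 : HasFDerivAt (fun C : Mt n => a * ell C) (a • fderiv ℝ (fun C : Mt n => ell C) A) A :=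
        (hell hA).hasFDerivAt.const_mul a
      rw [e4.fderiv]
      rfl
    rw [e3, (proj_deriv A hA u).1, (proj_deriv _ hB _).1] at e1
    have hn' : (n : ℝ) ≠ 0 := by
      have : 0 < n := hn
      exact_mod_cast this.ne'
    field_simp at e1
    linarith
  · intro u
    have e1 := H11_chainA (F := fun C : Mt n => skp C) hL (H11_skp (lft a φ A)).differentiableAt u
    rw [(H11_skp (lft a φ A)).fderiv] at e1
    have e2 : (fun C : Mt n => skp (lft a φ C)) =ᶠ[𝓝 A] fun C : Mt n => a • skp C := by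
      filter_upwards [hnhds] with C hC
      rw [((lft_facts hn).1 a φ C hC).2.2.2]
    have e4 : HasFDerivAt (fun C : Mt n => a • skp C)
        (a • LinearMap.toContinuousLinearMap (H11_S n)) A := (H11_skp A).const_smul a
    rw [e2.fderiv_eq, e4.fderiv] at e1
    exact e1

/-- the value of the product metric on tangent vectors of the symmetric space -/
private theorem H11_tan {n : ℕ} (m : PD n → Fm n) (p : PD n) (v : Mt n) (hv : IsTan p v) :
    prodm m p.1 v v = m p v v := by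
  have h1 : skp v = 0 := by
    unfold skp
    rw [hv.1, sub_self, smul_zero]
  have h2 : syp v = v := by
    unfold syp
    rw [hv.1, ← two_smul ℝ v, smul_smul]
    norm_num
  have hpt : p.1ᵀ = p.1 := by
    have h2 := p.2.1.isHermitian
    rwa [Matrix.IsHermitian, Matrix.conjTranspose_eq_transpose_of_trivial] at h2
  have h3 : syp p.1 = p.1 := by
    unfold syp
    rw [hpt, ← two_smul ℝ p.1, smul_smul]
    norm_num
  unfold prodm
  rw [h1, h2, h3, ret_self, ret_facts.2.2 p v hv, hv.2]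
  simp

/-- Row H11. The limit is a diffeomorphism and a homothety. PLAN. `f = lft (√c) Φl` on `PU n`
(`Φ j p → Φl p`, continuity), so `Φl` is `SmX` (`Φl (ret A) = ret (f (ret A))`, ..); `prodm h (f A)(Df v, Df w) =
c prodm gF A v w` (limit of `prodm_pull`), so `Df` is injective, `Φl` bijective, and the inverse is smooth by the
inverse function theorem (as in `dfm_of_close`, CG6, or LibNS38/G6); on tangent vectors `Df` at `p.1` is `dff Φl p`
(see the proof of `prodm_pull`). -/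
theorem gs_hom {n : ℕ} (hn : 3 ≤ n) (Γ : Subgroup (SL n)) (h : PD n → Fm n)
    (hs : ℕ → PD n → Fm n) (h1 : FmOK Γ h) (h2 : CmF ∞ h)
    (h3 : ∀ p v, IsTan p v → v ≠ 0 → 0 < h p v v) (hsok : ∀ j, FmOK Γ (hs j) ∧ CmF ∞ (hs j))
    (hst : ∀ j, TB 3 ((1 / 2) ^ j) (fun p => hs j p - gF p)) (Φ : ℕ → PD n → PD n) (C : ℕ → ℝ)
    (hΦ : ∀ j, Dfm Γ (Φ j)) (hp : ∀ j p v, IsTan p v → pul (Φ j) h p v v = C j * hs j p v v)
    (Φl : PD n → PD n) (c : ℝ) (hc : 0 < c) (hcl : Tendsto C atTop (𝓝 c)) (hC0 : ∀ j, 0 < C j)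
    (hl : ∀ p, Tendsto (fun j => Φ j p) atTop (𝓝 (Φl p))) (hb : Function.Bijective Φl)
    (hΓ : ∀ γ ∈ Γ, ∀ p, Φl (act γ p) = act γ (Φl p)) (f : Mt n → Mt n)
    (hf : ContDiffOn ℝ ∞ f (PU n)) (hfm : ∀ A ∈ PU n, f A ∈ PU n)
    (hfl : ∀ A ∈ PU n, Tendsto (fun j => lft (√ (C j)) (Φ j) A) atTop (𝓝 (f A)) ∧
      ∀ v, Tendsto (fun j => fderiv ℝ (lft (√ (C j)) (Φ j)) A v) atTop (𝓝 (fderiv ℝ f A v))) :
    Dfm Γ Φl ∧ ∀ p v, IsTan p v → pul Φl h p v v = c * gF p v v := by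
  have hn1 : 1 ≤ n := by omega
  obtain ⟨l1, l2, -, -, l5⟩ := lft_facts (n := n) hn1
  have ha : 0 < √ c := Real.sqrt_pos.2 hc
  have haj : Tendsto (fun j => √ (C j)) atTop (𝓝 (√ c)) :=
    (Real.continuous_sqrt.tendsto c).comp hcl
  -- `f = lft (√c) Φl` on `PU n`
  have hfe : ∀ A ∈ PU n, f A = lft (√ c) Φl A := by
    intro A hA
    refine tendsto_nhds_unique (hfl A hA).1 ?_
    unfold lft
    have t1 : Tendsto (fun j => Real.exp (√ (C j) * ell A)) atTop (𝓝 (Real.exp (√ c * ell A))) :=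
      (Real.continuous_exp.tendsto _).comp (haj.mul_const _)
    have t2 : Tendsto (fun j => (Φ j (ret A)).1) atTop (𝓝 (Φl (ret A)).1) :=
      (continuous_subtype_val.tendsto _).comp (hl (ret A))
    exact (t1.smul t2).add (haj.smul_const _)
  have hfc : ContDiffOn ℝ ∞ (lft (√ c) Φl) (PU n) := hf.congr fun A hA => (hfe A hA).symm
  have hfd : ∀ A ∈ PU n, fderiv ℝ f A = fderiv ℝ (lft (√ c) Φl) A := by
    intro A hA
    refine Filter.EventuallyEq.fderiv_eq ?_
    filter_upwards [PU_open.mem_nhds hA] with B hB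
    exact hfe B hB
  -- `Φl` is smooth
  have hsm : SmX Φl := by
    have h1' : ContDiffOn ℝ ∞ (fun A : Mt n => (ret (f A)).1) (PU n) := 
      (ret_smooth (n := n) (m := ∞)).comp hf hfm
    refine h1'.congr fun A hA => ?_
    rw [hfe A hA, (l1 (√ c) Φl A hA).2.1]
  -- limit of the metrics
  have hMh : MetX h := metX_of Γ h h1 h2 h3
  have hMp := met_prodm hn1 h hMh
  have hMg := met_prodm hn1 (gF : PD n → Fm n) (prodm_gF hn1).1
  obtain ⟨L, hL, hLG⟩ := NS38.clm_ext (prodm h) (PU n) hMp.bil hMp.smooth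
  have key : ∀ A ∈ PU n, ∀ v : Mt n, prodm h (lft (√ c) Φl A) (fderiv ℝ (lft (√ c) Φl) A v)
      (fderiv ℝ (lft (√ c) Φl) A v) = c * prodm gF A v v := by
    intro A hA v
    have hfA : f A ∈ PU n := hfm A hA
    have hLc : ContinuousAt L (f A) := hL.continuousOn.continuousAt (PU_open.mem_nhds hfA)
    have t1 : Tendsto (fun j => L (lft (√ (C j)) (Φ j) A)) atTop (𝓝 (L (f A))) :=
      hLc.tendsto.comp (hfl A hA).1
    have t2 := (hfl A hA).2 v
    have t3 : Tendsto (fun j => L (lft (√ (C j)) (Φ j) A) (fderiv ℝ (lft (√ (C j)) (Φ j)) A v)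
        (fderiv ℝ (lft (√ (C j)) (Φ j)) A v)) atTop
        (𝓝 (L (f A) (fderiv ℝ f A v) (fderiv ℝ f A v))) := by
      exact H11_bi _ _ _ _ t1 t2
    rw [hLG _ hfA, hfe A hA, hfd A hA] at t3
    refine tendsto_nhds_unique t3 ?_
    have e1 : ∀ j, L (lft (√ (C j)) (Φ j) A) (fderiv ℝ (lft (√ (C j)) (Φ j)) A v)
        (fderiv ℝ (lft (√ (C j)) (Φ j)) A v) = C j * prodm (hs j) A v v := by
      intro j
      rw [hLG _ (l1 _ _ A hA).1]
      have hsq : (√ (C j)) ^ 2 = C j := Real.sq_sqrt (hC0 j).le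
      have := prodm_pull hn1 h (hs j) h1.symm (hsok j).1.symm (Φ j) (hΦ j).smooth (√ (C j))
        (Real.sqrt_pos.2 (hC0 j)) (fun p v hv => by rw [hsq]; exact hp j p v hv) A hA v v
      rw [this, hsq]
    simp only [e1]
    refine hcl.mul ?_
    obtain ⟨K, hK, hKb⟩ := prodm_c1 hn1 {A} isCompact_singleton (Set.singleton_subset_iff.2 hA)
    rw [tendsto_iff_norm_sub_tendsto_zero]
    have t4 : Tendsto (fun j : ℕ => K * (1 / 2 : ℝ) ^ j * (‖v‖ * ‖v‖)) atTop (𝓝 0) := by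
      have := ((tendsto_pow_atTop_nhds_zero_of_lt_one (by norm_num : (0 : ℝ) ≤ 1 / 2)
        (by norm_num)).const_mul K).mul_const (‖v‖ * ‖v‖)
      simpa using this
    refine squeeze_zero (fun _ => norm_nonneg _) (fun j => ?_) t4
    rw [Real.norm_eq_abs]
    exact (hKb (hs j) ((1 / 2) ^ j) (by positivity) (hsok j).2 (hsok j).1.symm (hst j) A rfl
      v v v).1
  have hinj : ∀ A ∈ PU n, Function.Injective (fderiv ℝ (lft (√ c) Φl) A) := by
    intro A hA
    rw [injective_iff_map_eq_zero]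
    intro v hv
    by_contra hv0
    have h4 := key A hA v
    rw [hv] at h4
    have h5 : prodm h (lft (√ c) Φl A) 0 0 = 0 := by
      have h6 := hMp.bil.smul (lft (√ c) Φl A) (l1 _ _ A hA).1 0 0 0
      rw [zero_smul, zero_mul] at h6
      exact h6
    rw [h5] at h4
    have h7 := hMg.pos A hA v hv0
    have h8 := mul_pos hc h7
    linarith
  -- the inverse
  have hs1 : ∀ p, (Equiv.ofBijective Φl hb).symm (Φl p) = p :=
    fun p => (Equiv.ofBijective Φl hb).symm_apply_apply p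
  have hs2 : ∀ p, Φl ((Equiv.ofBijective Φl hb).symm p) = p :=
    fun p => (Equiv.ofBijective Φl hb).apply_symm_apply p
  generalize ((Equiv.ofBijective Φl hb).symm : PD n → PD n) = χ at hs1 hs2
  have hXF : ∀ A ∈ PU n, lft (√ c)⁻¹ χ (lft (√ c) Φl A) = A := fun A hA =>
    l2 (√ c) Φl χ ha hs1 A hA
  have hFX : ∀ A ∈ PU n, lft (√ c) Φl (lft (√ c)⁻¹ χ A) = A := fun A hA => by
    have := l2 (√ c)⁻¹ χ Φl (inv_pos.2 ha) hs2 A hA
    rwa [inv_inv] at this
  have hX : ContDiffOn ℝ ∞ (lft (√ c)⁻¹ χ) (PU n) :=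
    NS38.inv_smooth (PU n) PU_open (lft (√ c) Φl) (lft (√ c)⁻¹ χ) hfc
      (fun A hA => (l1 _ Φl A hA).1) (fun A hA => (l1 _ χ A hA).1) hXF hFX hinj
  have hχ : SmX χ := by
    have h1' : ContDiffOn ℝ ∞ (fun A : Mt n => (ret (lft (√ c)⁻¹ χ A)).1) (PU n) :=
      (ret_smooth (n := n) (m := ∞)).comp hX fun A hA => (l1 _ χ A hA).1
    refine h1'.congr fun A hA => ?_
    rw [(l1 (√ c)⁻¹ χ A hA).2.1]
  refine ⟨⟨hsm, hΓ, χ, hχ, hs1, hs2⟩, ?_⟩
  intro p v hv
  obtain ⟨k1, k2, k3⟩ := H11_proj hn1 Φl hsm (√ c) p.1 (mem_PU p)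
  have hk := key p.1 (mem_PU p) v
  rw [H11_tan gF p v hv] at hk
  rw [← hk]
  unfold prodm
  have h1' : skp v = 0 := by
    unfold skp
    rw [hv.1, sub_self, smul_zero]
  have h2' : syp v = v := by
    unfold syp
    rw [hv.1, ← two_smul ℝ v, smul_smul]
    norm_num
  have hpt : p.1ᵀ = p.1 := by
    have h2 := p.2.1.isHermitian
    rwa [Matrix.IsHermitian, Matrix.conjTranspose_eq_transpose_of_trivial] at h2
  have h3' : syp p.1 = p.1 := by
    unfold syp
    rw [hpt, ← two_smul ℝ p.1, smul_smul]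
    norm_num
  rw [k1 v, k2 v, k3 v, h1', h2', h3', (l1 (√ c) Φl p.1 (mem_PU p)).2.1, ret_self,
    ret_facts.2.2 p v hv, hv.2, pul_apply]
  simp

end FL27
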