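import Pool.Agent.LibFL27.HBase

set_option autoImplicit false
set_option maxSynthPendingDepth 3

open Matrix MeasureTheory Topology Filter LibNC38
open LibNC27 hiding Mt
open scoped Matrix.Norms.Elementwise ContDiff

namespace FL27

private theorem H3_orth {n : ℕ} (k : SL n) (hk : k.1 * k.1ᵀ = 1) : act k (o n) = o n := by
  apply Subtype.ext
  show k.1 * (1 : Matrix (Fin n) (Fin n) ℝ) * k.1ᵀ = 1
  rw [Matrix.mul_one, hk]

private theorem H3_norm {n : ℕ} (z : V0 n) (i : Fin n) : |z.1 i| ≤ ‖z‖ := by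
  have h := PiLp.norm_apply_le z.1 i
  rw [Real.norm_eq_abs] at h
  exact h

private theorem H3_q {n : ℕ} (q : PD n) (ρ : ℝ) (h : dg (o n) q ≤ ρ) (hρ : ρ ≤ 1) (i j : Fin n) :
    |q.1 i j - (1 : Matrix (Fin n) (Fin n) ℝ) i j| ≤ 2 * ρ := by
  obtain ⟨k, z, hk, hq⟩ := polar q
  have h1 := dg_flat k (0 : V0 n) z
  rw [(@flat_facts n).2.2.2.2.2.2.2.2.2.2.1, H3_orth k hk, zero_sub, norm_neg, ← hq] at h1
  have hz : 2 * ‖z‖ ≤ ρ := by rw [← h1]; exact h
  have hrow : ∀ a : Fin n, ∑ l, k.1 a l ^ 2 = 1 := by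
    intro a
    have h2 := congrFun (congrFun hk a) a
    rw [Matrix.mul_apply, Matrix.one_apply_eq] at h2
    refine Eq.trans (Finset.sum_congr rfl fun l _ => ?_) h2
    rw [Matrix.transpose_apply]; ring
  have hsg : (sg z).1 = Matrix.diagonal fun l => Real.exp (2 * z.1 l) := by
    show (dgm z).1 * (1 : Matrix (Fin n) (Fin n) ℝ) * (dgm z).1ᵀ = _
    rw [Matrix.mul_one]
    show Matrix.diagonal _ * (Matrix.diagonal _)ᵀ = _
    rw [Matrix.diagonal_transpose, Matrix.diagonal_mul_diagonal]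
    congr 1
    funext l
    rw [← Real.exp_add]; congr 1; ring
  have hq1 : q.1 - 1 = k.1 * (Matrix.diagonal fun l => Real.exp (2 * z.1 l) - 1) * k.1ᵀ := by
    have e1 : q.1 = k.1 * (Matrix.diagonal fun l => Real.exp (2 * z.1 l)) * k.1ᵀ := by
      rw [← hsg, hq]; rfl
    have e2 : (Matrix.diagonal fun l => Real.exp (2 * z.1 l) - 1) =
        (Matrix.diagonal fun l => Real.exp (2 * z.1 l)) - 1 := by
      rw [← Matrix.diagonal_one, Matrix.diagonal_sub]
    rw [e1, e2, Matrix.mul_sub, Matrix.sub_mul, Matrix.mul_one, hk]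
  have hent : q.1 i j - (1 : Matrix (Fin n) (Fin n) ℝ) i j =
      ∑ l, k.1 i l * (Real.exp (2 * z.1 l) - 1) * k.1 j l := by
    have h2 := congrFun (congrFun hq1 i) j
    rw [Matrix.sub_apply] at h2
    rw [h2, Matrix.mul_apply]
    refine Finset.sum_congr rfl fun l _ => ?_
    rw [Matrix.mul_diagonal, Matrix.transpose_apply]
  rw [hent]
  calc |∑ l, k.1 i l * (Real.exp (2 * z.1 l) - 1) * k.1 j l|
      ≤ ∑ l, |k.1 i l * (Real.exp (2 * z.1 l) - 1) * k.1 j l| := Finset.abs_sum_le_sum_abs _ _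
    _ ≤ ∑ l, 2 * ρ * ((k.1 i l ^ 2 + k.1 j l ^ 2) / 2) := by
        refine Finset.sum_le_sum fun l _ => ?_
        have h3 : |2 * z.1 l| ≤ ρ := by
          rw [abs_mul, abs_of_pos (by norm_num : (0 : ℝ) < 2)]
          have := H3_norm z l
          linarith
        have h4 : |Real.exp (2 * z.1 l) - 1| ≤ 2 * ρ := by
          have := Real.abs_exp_sub_one_le (h3.trans hρ)
          linarith
        have h5 : |k.1 i l| * |k.1 j l| ≤ (k.1 i l ^ 2 + k.1 j l ^ 2) / 2 := by
          have h6 := sq_nonneg (|k.1 i l| - |k.1 j l|)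
          have h7 := sq_abs (k.1 i l)
          have h8 := sq_abs (k.1 j l)
          nlinarith
        have h9 : 0 ≤ |k.1 i l| * |k.1 j l| := by positivity
        rw [abs_mul, abs_mul]
        calc |k.1 i l| * |Real.exp (2 * z.1 l) - 1| * |k.1 j l|
            = |Real.exp (2 * z.1 l) - 1| * (|k.1 i l| * |k.1 j l|) := by ring
          _ ≤ 2 * ρ * (|k.1 i l| * |k.1 j l|) := mul_le_mul_of_nonneg_right h4 h9
          _ ≤ 2 * ρ * ((k.1 i l ^ 2 + k.1 j l ^ 2) / 2) :=
              mul_le_mul_of_nonneg_left h5 ((abs_nonneg _).trans h4)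
    _ = 2 * ρ := by
        rw [← Finset.mul_sum, ← Finset.sum_div, Finset.sum_add_distrib, hrow, hrow]
        norm_num

private theorem H3_act {n : ℕ} (t : SL n) (q : PD n) : act t (act t⁻¹ q) = q := by
  obtain ⟨a1, a2, -⟩ := act_facts (n := n)
  rw [← a2, mul_inv_cancel, a1]

/-- the entries of `q - p` -/
private theorem H3_ent {n : ℕ} (p q : PD n) (h : dg p q ≤ 1) (i j : Fin n) :
    |p.1 i j - q.1 i j| ≤ 2 * (n * ∑ a, p.1 a a) * dg p q := by
  obtain ⟨t, -, -, hp⟩ := chol p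
  set q' : PD n := act t⁻¹ q with hq'
  have hq : q = act t q' := (H3_act t q).symm
  have hd : dg (o n) q' = dg p q := by
    rw [hp, hq, dg_act]
  have hd0 : 0 ≤ dg p q := (@dg_facts n).1 p q
  have hent : ∀ a b, |q'.1 a b - (1 : Matrix (Fin n) (Fin n) ℝ) a b| ≤ 2 * dg p q :=
    fun a b => H3_q q' (dg p q) hd.le h a b
  have hpd : ∀ a, p.1 a a = ∑ l, t.1 a l ^ 2 := by
    intro a
    have e : p.1 = t.1 * t.1ᵀ := by
      rw [hp]
      show t.1 * (1 : Matrix (Fin n) (Fin n) ℝ) * t.1ᵀ = _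
      rw [Matrix.mul_one]
    rw [e, Matrix.mul_apply]
    refine Finset.sum_congr rfl fun l _ => ?_
    rw [Matrix.transpose_apply]
    ring
  have hpp : ∀ a, 0 ≤ p.1 a a := fun a => by
    rw [hpd a]
    exact Finset.sum_nonneg fun l _ => sq_nonneg _
  have hsum : ∀ a, p.1 a a ≤ ∑ a, p.1 a a := fun a =>
    Finset.single_le_sum (f := fun a => p.1 a a) (fun b _ => hpp b) (Finset.mem_univ a)
  have e1 : p.1 - q.1 = t.1 * (1 - q'.1) * t.1ᵀ := by
    have e2 : p.1 = t.1 * (1 : Matrix (Fin n) (Fin n) ℝ) * t.1ᵀ := by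
      rw [hp]
      rfl
    have e3 : q.1 = t.1 * q'.1 * t.1ᵀ := by
      rw [hq]
      rfl
    rw [e2, e3, Matrix.mul_sub, Matrix.sub_mul]
  have e4 : p.1 i j - q.1 i j = ∑ b, (∑ a, t.1 i a * (1 - q'.1) a b) * t.1 j b := by
    have h2 := congrFun (congrFun e1 i) j
    rw [Matrix.sub_apply] at h2
    rw [h2, Matrix.mul_apply]
    refine Finset.sum_congr rfl fun b _ => ?_
    rw [Matrix.mul_apply, Matrix.transpose_apply]
  rw [e4]
  calc |∑ b, (∑ a, t.1 i a * (1 - q'.1) a b) * t.1 j b|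
      ≤ ∑ b, |(∑ a, t.1 i a * (1 - q'.1) a b) * t.1 j b| := Finset.abs_sum_le_sum_abs _ _
    _ ≤ ∑ b, ∑ a, |t.1 i a| * |(1 - q'.1) a b| * |t.1 j b| := by
        refine Finset.sum_le_sum fun b _ => ?_
        rw [abs_mul, ← Finset.sum_mul]
        refine mul_le_mul_of_nonneg_right ?_ (abs_nonneg _)
        refine (Finset.abs_sum_le_sum_abs _ _).trans (le_of_eq ?_)
        refine Finset.sum_congr rfl fun a _ => ?_
        rw [abs_mul]
    _ ≤ ∑ b : Fin n, ∑ a : Fin n, dg p q * (t.1 i a ^ 2 + t.1 j b ^ 2) := by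
        refine Finset.sum_le_sum fun b _ => Finset.sum_le_sum fun a _ => ?_
        have h1 : |(1 - q'.1) a b| ≤ 2 * dg p q := by
          rw [Matrix.sub_apply, abs_sub_comm]
          exact hent a b
        have h2 := sq_nonneg (|t.1 i a| - |t.1 j b|)
        have h3 := sq_abs (t.1 i a)
        have h4 := sq_abs (t.1 j b)
        have h5 : 0 ≤ |t.1 i a| * |t.1 j b| := by positivity
        calc |t.1 i a| * |(1 - q'.1) a b| * |t.1 j b|
            = |(1 - q'.1) a b| * (|t.1 i a| * |t.1 j b|) := by ring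
          _ ≤ 2 * dg p q * (|t.1 i a| * |t.1 j b|) := mul_le_mul_of_nonneg_right h1 h5
          _ = dg p q * (2 * (|t.1 i a| * |t.1 j b|)) := by ring
          _ ≤ dg p q * (t.1 i a ^ 2 + t.1 j b ^ 2) :=
              mul_le_mul_of_nonneg_left (by nlinarith) hd0
    _ = n * (dg p q * (p.1 i i + p.1 j j)) := by
        rw [hpd i, hpd j]
        simp only [mul_add, Finset.sum_add_distrib, Finset.sum_const, Finset.card_univ,
          Fintype.card_fin, nsmul_eq_mul, ← Finset.mul_sum]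
    _ ≤ 2 * (n * ∑ a, p.1 a a) * dg p q := by
        have h1 := hsum i
        have h2 := hsum j
        have h3 : p.1 i i + p.1 j j ≤ 2 * ∑ a, p.1 a a := by linarith
        calc (n : ℝ) * (dg p q * (p.1 i i + p.1 j j))
            ≤ n * (dg p q * (2 * ∑ a, p.1 a a)) := by gcongr
          _ = 2 * (n * ∑ a, p.1 a a) * dg p q := by ring

private theorem H3_tend {n : ℕ} (u : ℕ → PD n) (p : PD n) :
    Tendsto (fun i => dg (u i) p) atTop (𝓝 0) ↔ Tendsto u atTop (𝓝 p) := by
  obtain ⟨h0, -, hs, -⟩ := @dg_facts n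
  obtain ⟨h1, h2⟩ := dg_nhds p
  constructor
  · intro h
    rw [tendsto_def]
    intro U hU
    obtain ⟨ε, hε, h3⟩ := h1 U hU
    have h4 : ∀ᶠ i in atTop, dg (u i) p < ε := h.eventually_lt_const hε
    filter_upwards [h4] with i hi
    exact h3 _ (by rw [hs]; exact hi)
  · intro h
    rw [Metric.tendsto_nhds]
    intro ε hε
    filter_upwards [h.eventually (h2 ε hε)] with i hi
    rw [Real.dist_eq, sub_zero, abs_of_nonneg (h0 _ _), hs]
    exact hi

/-- Row H3. The distance `dg` is complete and compatible with the topology. PLAN. Compare `dg` with the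
entries: `LibNC38` (`Coc`, closed balls of `dg` are compact; `dg` continuous) and use `act (tch p)⁻¹`; or: a Cauchy
sequence stays in a ball, which is compact. -/
theorem dg_complete {n : ℕ} (hn : 2 ≤ n) :
    (∀ u : ℕ → PD n, (∀ ε > 0, ∃ N, ∀ i j, N ≤ i → N ≤ j → dg (u i) (u j) < ε) →
      ∃ p, Tendsto (fun i => dg (u i) p) atTop (𝓝 0)) ∧
    (∀ (u : ℕ → PD n) (p : PD n), Tendsto (fun i => dg (u i) p) atTop (𝓝 0) ↔
      Tendsto u atTop (𝓝 p)) ∧
    (∀ Q : Set (PD n), IsCompact Q → ∀ R : ℝ, ∃ Q' : Set (PD n), IsCompact Q' ∧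
      ∀ p q, p ∈ Q → dg p q ≤ R → q ∈ Q') ∧
    ∀ Q : Set (PD n), IsCompact Q → ∃ K : ℝ, 0 < K ∧ ∀ p q, p ∈ Q → dg p q ≤ 1 →
      ‖p.1 - q.1‖ ≤ K * dg p q := by
  obtain ⟨h0, hz, hs, htr⟩ := @dg_facts n
  refine ⟨?_, H3_tend, ?_, ?_⟩
  · intro u hu
    obtain ⟨N, hN⟩ := hu 1 one_pos
    have hm : FirstCountableTopology (Matrix (Fin n) (Fin n) ℝ) :=
      inferInstanceAs (FirstCountableTopology (Fin n → Fin n → ℝ))
    have hm2 : FirstCountableTopology (PD n) :=
      Topology.IsInducing.subtypeVal.firstCountableTopology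
    have hK : IsCompact {q : PD n | dg (u N) q ≤ 1} := dg_ball (u N) 1
    obtain ⟨p, -, φ, hφ, hlim⟩ := hK.tendsto_subseq (x := fun i => u (N + i))
      (fun i => (hN N (N + i) le_rfl (Nat.le_add_right _ _)).le)
    refine ⟨p, ?_⟩
    have h1 := (H3_tend _ p).2 hlim
    rw [Metric.tendsto_atTop] at h1 ⊢
    intro ε hε
    obtain ⟨M, hM⟩ := hu (ε / 2) (half_pos hε)
    obtain ⟨k0, hk0⟩ := h1 (ε / 2) (half_pos hε)
    refine ⟨M, fun i hi => ?_⟩
    set k := max k0 M with hk
    have h2 := hk0 k (le_max_left _ _)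
    simp only [Function.comp_apply, Real.dist_eq, sub_zero] at h2
    rw [abs_of_nonneg (h0 _ _)] at h2
    have h3 : M ≤ N + φ k := by
      have := hφ.id_le k
      have h4 : M ≤ k := le_max_right _ _
      simp only [id] at this
      omega
    have h5 := hM i (N + φ k) hi h3
    have h6 := htr (u i) (u (N + φ k)) p
    rw [Real.dist_eq, sub_zero, abs_of_nonneg (h0 _ _)]
    linarith
  · intro Q hQ R
    rcases Q.eq_empty_or_nonempty with rfl | ⟨p0, hp0⟩
    · exact ⟨∅, isCompact_empty, fun p q hp => absurd hp (Set.notMem_empty _)⟩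
    · have hc : Continuous fun x : PD n => dg p0 x :=
        dg_cont.comp (Continuous.prodMk continuous_const continuous_id)
      obtain ⟨B, hB⟩ := hQ.exists_bound_of_continuousOn hc.continuousOn
      refine ⟨{q : PD n | dg p0 q ≤ B + R}, dg_ball p0 (B + R), fun p q hp hpq => ?_⟩
      have h1 := hB p hp
      rw [Real.norm_eq_abs, abs_of_nonneg (h0 _ _)] at h1
      have h2 := htr p0 p q
      show dg p0 q ≤ B + R
      linarith
  · intro Q hQ
    have hc : Continuous fun x : PD n => ∑ a, x.1 a a := by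
      refine continuous_finsetSum _ fun a _ => ?_
      exact (continuous_apply_apply a a).comp continuous_subtype_val
    obtain ⟨B, hB⟩ := hQ.exists_bound_of_continuousOn hc.continuousOn
    refine ⟨2 * (n * |B|) + 1, by positivity, fun p q hp hpq => ?_⟩
    have hd0 := h0 p q
    have h1 := hB p hp
    rw [Real.norm_eq_abs] at h1
    have h2 : ∑ a, p.1 a a ≤ |B| := (le_abs_self _).trans (h1.trans (le_abs_self _))
    have hr : 0 ≤ (2 * (n * |B|) + 1) * dg p q := by positivity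
    rw [Matrix.norm_le_iff hr]
    intro i j
    rw [Matrix.sub_apply, Real.norm_eq_abs]
    refine (H3_ent p q hpq i j).trans ?_
    refine mul_le_mul_of_nonneg_right ?_ hd0
    have h3 : (n : ℝ) * ∑ a, p.1 a a ≤ n * |B| :=
      mul_le_mul_of_nonneg_left h2 (Nat.cast_nonneg n)
    linarith

end FL27
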