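import Pool.Agent.LibFL27.H2
import Pool.Agent.LibFL27.H3

set_option autoImplicit false
set_option maxSynthPendingDepth 3

open Matrix MeasureTheory Topology Filter LibNC38
open LibNC27 hiding Mt
open scoped Matrix.Norms.Elementwise ContDiff

namespace FL27

private theorem H4_ex {n : ℕ} (N : PD n → Mt n → ℝ) (p q : PD n) : ∃ l, ConnN N p q l := by
  obtain ⟨g, z, hp, hq⟩ := two_pts p q
  obtain ⟨v, hv, -⟩ := straight g 0 z
  have h1 := ConnN.seg (N := N) _ v hv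
  have h0 : sg (0 : V0 n) = o n := flat_facts.2.2.2.2.2.2.2.2.2.2.1
  have e0 : act g (sg ((0 : V0 n) + (0 : ℝ) • z)) = p := by
    rw [zero_smul, add_zero, h0, hp]
  have e1 : act g (sg ((0 : V0 n) + (1 : ℝ) • z)) = q := by
    rw [one_smul, zero_add, hq]
  have h2 : ConnN N (act g (sg ((0 : V0 n) + (0 : ℝ) • z))) (act g (sg ((0 : V0 n) + (1 : ℝ) • z)))
      (lenN N (fun s : ℝ => act g (sg ((0 : V0 n) + s • z))) v) := h1
  rw [e0, e1] at h2
  exact ⟨_, h2⟩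

private theorem H4_nonneg {n : ℕ} (h : PD n → Fm n) {p q : PD n} {l : ℝ}
    (hc : ConnN (nrm h) p q l) : 0 ≤ l := by
  induction hc with
  | seg c v hv =>
    unfold lenN
    exact intervalIntegral.integral_nonneg zero_le_one fun s _ => Real.sqrt_nonneg _
  | trans _ _ h1 h2 => exact add_nonneg h1 h2

private theorem H4_tri {n : ℕ} (h : PD n → Fm n) (p q r : PD n) :
    dN (nrm h) p r ≤ dN (nrm h) p q + dN (nrm h) q r := by
  have near : ∀ (x y : PD n) (ε : ℝ), 0 < ε → ∃ l, l < dN (nrm h) x y + ε ∧ ConnN (nrm h) x y l := by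
    intro x y ε hε
    obtain ⟨l, hl, hlt⟩ := exists_lt_of_csInf_lt (H4_ex (nrm h) x y)
      (show sInf {l | ConnN (nrm h) x y l} < dN (nrm h) x y + ε by
        have : sInf {l | ConnN (nrm h) x y l} = dN (nrm h) x y := rfl
        rw [this]; linarith)
    exact ⟨l, hlt, hl⟩
  refine le_of_forall_pos_lt_add fun ε hε => ?_
  obtain ⟨a, ha, hca⟩ := near p q (ε / 2) (by linarith)
  obtain ⟨b, hb, hcb⟩ := near q r (ε / 2) (by linarith)
  have h1 : dN (nrm h) p r ≤ a + b :=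
    csInf_le ⟨0, fun l hl => H4_nonneg h hl⟩ (ConnN.trans hca hcb)
  linarith

private theorem H4_pow : Tendsto (fun j : ℕ => (1 / 2 : ℝ) ^ j) atTop (𝓝 0) :=
  tendsto_pow_atTop_nhds_zero_of_lt_one (by norm_num) (by norm_num)

private theorem H4_cauchy {n : ℕ} (hn : 2 ≤ n) (u : ℕ → PD n) (A : ℝ) (hA : 0 ≤ A)
    (hu : ∀ j, dg (u (j + 1)) (u j) ≤ A * (1 / 2) ^ j) :
    ∃ p, (∀ j, dg (u j) p ≤ 2 * A * (1 / 2) ^ j) ∧ Tendsto (fun j => dg (u j) p) atTop (𝓝 0) := by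
  obtain ⟨-, dgz, dgs, dgt⟩ := dg_facts (n := n)
  obtain ⟨hcompl, -, -, -⟩ := dg_complete (n := n) hn
  have step : ∀ j k, dg (u j) (u (j + k)) ≤ 2 * A * ((1 / 2) ^ j - (1 / 2) ^ (j + k)) := by
    intro j k
    induction k with
    | zero => simp [dgz]
    | succ k ih =>
      have h1 := dgt (u j) (u (j + k)) (u (j + (k + 1)))
      have h2 := hu (j + k)
      rw [dgs] at h2
      have h3 : (1 / 2 : ℝ) ^ (j + (k + 1)) = (1 / 2) ^ (j + k) * (1 / 2) := by
        rw [← pow_succ]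
        rfl
      have h4 : u (j + (k + 1)) = u (j + k + 1) := rfl
      rw [h3]
      rw [h4] at h1 ⊢
      linarith
  have hp : ∀ j : ℕ, 0 < (1 / 2 : ℝ) ^ j := fun j => by positivity
  have step2 : ∀ j i, j ≤ i → dg (u j) (u i) ≤ 2 * A * (1 / 2) ^ j := by
    intro j i hji
    obtain ⟨k, rfl⟩ := Nat.exists_eq_add_of_le hji
    refine (step j k).trans ?_
    have h1 := mul_nonneg (mul_nonneg (by norm_num : (0 : ℝ) ≤ 2) hA) (hp (j + k)).le
    rw [mul_sub]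
    linarith
  obtain ⟨p, hpl⟩ := hcompl u (by
    intro ε hε
    have h1 : Tendsto (fun j : ℕ => 2 * A * (1 / 2 : ℝ) ^ j) atTop (𝓝 (2 * A * 0)) :=
      H4_pow.const_mul _
    rw [mul_zero] at h1
    obtain ⟨N, hN⟩ := (h1.eventually (gt_mem_nhds hε)).exists
    have hmono : ∀ i, N ≤ i → 2 * A * (1 / 2 : ℝ) ^ i < ε := by
      intro i hi
      refine lt_of_le_of_lt ?_ hN
      exact mul_le_mul_of_nonneg_left (pow_le_pow_of_le_one (by norm_num) (by norm_num) hi)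
        (by positivity)
    refine ⟨N, fun i j hi hj => ?_⟩
    rcases le_total i j with hij | hij
    · exact (step2 i j hij).trans_lt (hmono i hi)
    · rw [dgs]
      exact (step2 j i hij).trans_lt (hmono j hj))
  refine ⟨p, fun j => ?_, hpl⟩
  have h1 : Tendsto (fun i => 2 * A * (1 / 2 : ℝ) ^ j + dg (u i) p) atTop
      (𝓝 (2 * A * (1 / 2 : ℝ) ^ j + 0)) := tendsto_const_nhds.add hpl
  rw [add_zero] at h1
  refine ge_of_tendsto h1 ?_
  filter_upwards [eventually_ge_atTop j] with i hi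
  have h2 := dgt (u j) (u i) p
  have h3 := step2 j i hi
  linarith

/-- Row H4. The metric limit of the compositions. PLAN. `dg (Φ (j+1) p) (Φ j p) ≤ 8 ρ 2^-j`-type bound
(H2: `dN (nrm h) (Φ j x) (Φ j y) = √(C j) dN (nrm (hs j)) x y`, `hs j` close to `g`; `h = hs 0` too); so the limit
`Φ p` exists (H3), `dN (nrm h) (Φ p) (Φ q) = √c dg p q`, equivariant; injective; surjective: `x j = (Φ j)⁻¹ y`
satisfies `φ j (x (j+1)) = x j`, so it is Cauchy, and `Φ (lim x j) = y`. -/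
theorem gs_limit {n : ℕ} (hn : 3 ≤ n) : ∃ ρ0 K : ℝ, 0 < ρ0 ∧ ρ0 ≤ 1 / 8 ∧ 0 < K ∧
    ∀ (Γ : Subgroup (SL n)) (ρ : ℝ) (h : PD n → Fm n) (φ : ℕ → PD n → PD n)
      (hs : ℕ → PD n → Fm n) (cs : ℕ → ℝ), 0 < ρ → ρ ≤ ρ0 → GSeq Γ ρ h φ hs cs →
    ∀ (Φ : ℕ → PD n → PD n) (C : ℕ → ℝ), (∀ p, Φ 0 p = p) → (∀ j p, Φ (j + 1) p = Φ j (φ j p)) →
      (∀ j, Dfm Γ (Φ j)) → (∀ j, 1 / 2 ≤ C j ∧ C j ≤ 2) →
      (∀ j, |C (j + 1) - C j| ≤ 2 * ρ * (1 / 2) ^ j) →
      (∀ j p v, IsTan p v → pul (Φ j) h p v v = C j * hs j p v v) →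
      (∀ j p, dg (Φ (j + 1) p) (Φ j p) ≤ K * ρ * (1 / 2) ^ j) ∧
      ∃ (Φl : PD n → PD n) (c : ℝ), 1 / 2 ≤ c ∧ c ≤ 2 ∧ Tendsto C atTop (𝓝 c) ∧
        (∀ j p, dg (Φ j p) (Φl p) ≤ 2 * K * ρ * (1 / 2) ^ j) ∧ Function.Bijective Φl ∧
        (∀ γ ∈ Γ, ∀ p, Φl (act γ p) = act γ (Φl p)) ∧
        ∀ p q, dN (nrm h) (Φl p) (Φl q) = √ c * dg p q := by
  obtain ⟨K₂, hK₂, hcomp, hscale⟩ := gs_metric n
  obtain ⟨-, htop, -, -⟩ := dg_complete (n := n) (by omega)
  obtain ⟨dg0, dgz, dgs, dgt⟩ := dg_facts (n := n)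
  have hK4 : 0 < 4 * K₂ := by linarith
  refine ⟨min (1 / 8) (1 / (4 * K₂)), 4, lt_min (by norm_num) (by positivity), min_le_left _ _,
    by norm_num, ?_⟩
  intro Γ ρ h φ hs cs hρ hρ0 H Φ C hΦ0 hΦs hΦd hC hCC hpul
  have hKρ : K₂ * ρ ≤ 1 / 4 := by
    have h1 : ρ ≤ 1 / (4 * K₂) := hρ0.trans (min_le_right _ _)
    rw [le_div_iff₀ hK4] at h1
    linarith
  have hp : ∀ j : ℕ, 0 < (1 / 2 : ℝ) ^ j := fun j => by positivity
  have hp1 : ∀ j : ℕ, (1 / 2 : ℝ) ^ j ≤ 1 := fun j => pow_le_one₀ (by norm_num) (by norm_num)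
  have hKj : ∀ j : ℕ, K₂ * (ρ * (1 / 2) ^ j) ≤ 1 / 4 := by
    intro j
    have h1 : ρ * (1 / 2 : ℝ) ^ j ≤ ρ := mul_le_of_le_one_right hρ.le (hp1 j)
    exact (mul_le_mul_of_nonneg_left h1 (by linarith)).trans hKρ
  have hKj0 : ∀ j : ℕ, 0 ≤ K₂ * (ρ * (1 / 2) ^ j) := fun j =>
    mul_nonneg (by linarith) (mul_nonneg hρ.le (hp j).le)
  have hcj : ∀ (j : ℕ) (p q : PD n),
      (1 - K₂ * (ρ * (1 / 2) ^ j)) * dg p q ≤ dN (nrm (hs j)) p q ∧
        dN (nrm (hs j)) p q ≤ (1 + K₂ * (ρ * (1 / 2) ^ j)) * dg p q := fun j p q =>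
    hcomp Γ (hs j) (ρ * (1 / 2) ^ j) (mul_nonneg hρ.le (hp j).le) ((hKj j).trans (by norm_num))
      (H.ok j) (H.pos j) (H.tb j) p q
  have hsc : ∀ (j : ℕ) (p q : PD n), dN (nrm h) (Φ j p) (Φ j q) = √ (C j) * dN (nrm (hs j)) p q :=
    fun j p q => hscale Γ (Φ j) h (hs j) (C j) (hΦd j) (by linarith [(hC j).1]) (hpul j) p q
  have hlo : ∀ p q : PD n, 3 / 4 * dg p q ≤ dN (nrm h) p q := by
    intro p q
    have h1 := (hcj 0 p q).1
    rw [H.h0] at h1
    have h2 := mul_le_mul_of_nonneg_right (hKj 0) (dg0 p q)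
    linarith
  have hhi : ∀ (j : ℕ) (p q : PD n), dN (nrm (hs j)) p q ≤ 5 / 4 * dg p q := by
    intro j p q
    have h1 := (hcj j p q).2
    have h2 := mul_le_mul_of_nonneg_right (hKj j) (dg0 p q)
    linarith
  have hhi0 : ∀ p q : PD n, dN (nrm h) p q ≤ 5 / 4 * dg p q := by
    intro p q
    have h1 := hhi 0 p q
    rw [H.h0] at h1
    exact h1
  have hB : ∀ (j : ℕ) (p q : PD n), dg (Φ j p) (Φ j q) ≤ 5 / 2 * dg p q := by
    intro j p q
    have h1 := hlo (Φ j p) (Φ j q)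
    rw [hsc j p q] at h1
    have h2 : √ (C j) ≤ 3 / 2 := by
      rw [Real.sqrt_le_left (by norm_num)]
      have := (hC j).2
      norm_num
      linarith
    have h3 := hhi j p q
    have h4 : √ (C j) * dN (nrm (hs j)) p q ≤ √ (C j) * (5 / 4 * dg p q) :=
      mul_le_mul_of_nonneg_left h3 (Real.sqrt_nonneg _)
    have h5 : √ (C j) * (5 / 4 * dg p q) ≤ 3 / 2 * (5 / 4 * dg p q) :=
      mul_le_mul_of_nonneg_right h2 (mul_nonneg (by norm_num) (dg0 p q))
    linarith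
  have hmov : ∀ (j : ℕ) (p : PD n), dg (Φ (j + 1) p) (Φ j p) ≤ 4 * ρ * (1 / 2) ^ j := by
    intro j p
    rw [hΦs]
    have h1 := hB j (φ j p) p
    have h2 := H.mov j p
    have h3 : 0 ≤ ρ * (1 / 2) ^ j := mul_nonneg hρ.le (hp j).le
    linarith
  refine ⟨hmov, ?_⟩
  -- the constant
  obtain ⟨c, hc⟩ := cauchySeq_tendsto_of_complete (cauchySeq_of_le_geometric (1 / 2) (2 * ρ)
    (by norm_num) (f := C) fun j => by
      rw [Real.dist_eq, abs_sub_comm]
      exact hCC j)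
  have hc1 : 1 / 2 ≤ c := ge_of_tendsto' hc fun j => (hC j).1
  have hc2 : c ≤ 2 := le_of_tendsto' hc fun j => (hC j).2
  -- the limit
  have hex : ∀ p : PD n, ∃ y, (∀ j, dg (Φ j p) y ≤ 2 * (4 * ρ) * (1 / 2) ^ j) ∧
      Tendsto (fun j => dg (Φ j p) y) atTop (𝓝 0) := fun p =>
    H4_cauchy (by omega) (fun j => Φ j p) (4 * ρ) (by positivity) fun j => hmov j p
  choose Φl hl1 hl2 using hex
  have hzero : ∀ x y : PD n, dg x y = 0 → x = y := by
    intro x y hxy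
    have h1 : Tendsto (fun _ : ℕ => dg x y) atTop (𝓝 0) := by
      rw [hxy]
      exact tendsto_const_nhds
    have h2 := (htop (fun _ => x) y).1 h1
    exact tendsto_nhds_unique tendsto_const_nhds h2
  have hzero' : ∀ (x y : PD n) (f : ℕ → ℝ), (∀ j, dg x y ≤ f j) → Tendsto f atTop (𝓝 0) →
      x = y := by
    intro x y f hf hlim
    exact hzero x y (le_antisymm (ge_of_tendsto' hlim hf) (dg0 x y))
  -- distances
  have hdist : ∀ p q, dN (nrm h) (Φl p) (Φl q) = √ c * dg p q := by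
    intro p q
    have hD1 : Tendsto (fun j => dN (nrm h) (Φ j p) (Φ j q)) atTop (𝓝 (√ c * dg p q)) := by
      have e1 : (fun j => dN (nrm h) (Φ j p) (Φ j q)) =
          fun j => √ (C j) * dN (nrm (hs j)) p q := funext fun j => hsc j p q
      rw [e1]
      refine Tendsto.mul ((Real.continuous_sqrt.tendsto c).comp hc) ?_
      have hr : Tendsto (fun j : ℕ => K₂ * (ρ * (1 / 2 : ℝ) ^ j)) atTop (𝓝 0) := by
        have := (H4_pow.const_mul ρ).const_mul K₂
        simpa using this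
      have l1 : Tendsto (fun j : ℕ => (1 - K₂ * (ρ * (1 / 2 : ℝ) ^ j)) * dg p q) atTop
          (𝓝 (dg p q)) := by
        have := (hr.const_sub 1).mul_const (dg p q)
        simpa using this
      have l2 : Tendsto (fun j : ℕ => (1 + K₂ * (ρ * (1 / 2 : ℝ) ^ j)) * dg p q) atTop
          (𝓝 (dg p q)) := by
        have := (hr.const_add 1).mul_const (dg p q)
        simpa using this
      exact tendsto_of_tendsto_of_tendsto_of_le_of_le l1 l2 (fun j => (hcj j p q).1)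
        fun j => (hcj j p q).2
    have hD2 : Tendsto (fun j => dN (nrm h) (Φ j p) (Φ j q)) atTop
        (𝓝 (dN (nrm h) (Φl p) (Φl q))) := by
      have hab : Tendsto (fun j => 5 / 4 * (dg (Φ j p) (Φl p) + dg (Φ j q) (Φl q))) atTop (𝓝 0) := by
        have := ((hl2 p).add (hl2 q)).const_mul (5 / 4)
        simpa using this
      have l1 : Tendsto (fun j => dN (nrm h) (Φl p) (Φl q) -
          5 / 4 * (dg (Φ j p) (Φl p) + dg (Φ j q) (Φl q))) atTop
          (𝓝 (dN (nrm h) (Φl p) (Φl q))) := by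
        have := hab.const_sub (dN (nrm h) (Φl p) (Φl q))
        simpa using this
      have l2 : Tendsto (fun j => dN (nrm h) (Φl p) (Φl q) +
          5 / 4 * (dg (Φ j p) (Φl p) + dg (Φ j q) (Φl q))) atTop
          (𝓝 (dN (nrm h) (Φl p) (Φl q))) := by
        have := hab.const_add (dN (nrm h) (Φl p) (Φl q))
        simpa using this
      refine tendsto_of_tendsto_of_tendsto_of_le_of_le l1 l2 (fun j => ?_) fun j => ?_
      · show dN (nrm h) (Φl p) (Φl q) - 5 / 4 * (dg (Φ j p) (Φl p) + dg (Φ j q) (Φl q)) ≤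
          dN (nrm h) (Φ j p) (Φ j q)
        have t1 := H4_tri h (Φl p) (Φ j p) (Φl q)
        have t2 := H4_tri h (Φ j p) (Φ j q) (Φl q)
        have t3 := hhi0 (Φl p) (Φ j p)
        have t4 := hhi0 (Φ j q) (Φl q)
        rw [dgs (Φl p) (Φ j p)] at t3
        linarith
      · show dN (nrm h) (Φ j p) (Φ j q) ≤
          dN (nrm h) (Φl p) (Φl q) + 5 / 4 * (dg (Φ j p) (Φl p) + dg (Φ j q) (Φl q))
        have t1 := H4_tri h (Φ j p) (Φl p) (Φ j q)
        have t2 := H4_tri h (Φl p) (Φl q) (Φ j q)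
        have t3 := hhi0 (Φ j p) (Φl p)
        have t4 := hhi0 (Φl q) (Φ j q)
        rw [dgs (Φl q) (Φ j q)] at t4
        linarith
    exact tendsto_nhds_unique hD2 hD1
  refine ⟨Φl, c, hc1, hc2, hc, fun j p => ?_, ⟨fun p q hpq => ?_, fun y => ?_⟩, fun γ hγ p => ?_, hdist⟩
  · have h1 := hl1 p j
    linarith
  · -- injective
    have h1 := hdist p q
    rw [hpq] at h1
    have h2 : dN (nrm h) (Φl q) (Φl q) ≤ 0 := by
      have := hhi0 (Φl q) (Φl q)
      rw [dgz, mul_zero] at this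
      exact this
    have h3 : 0 < √ c := Real.sqrt_pos.2 (by linarith)
    rw [h1] at h2
    have h4 : dg p q ≤ 0 := by
      by_contra hcon
      have := mul_pos h3 (not_le.1 hcon)
      linarith
    exact hzero p q (le_antisymm h4 (dg0 p q))
  · -- surjective
    have hχ : ∀ j, ∃ x, Φ j x = y := by
      intro j
      obtain ⟨χ, -, -, hχ2⟩ := (hΦd j).inv
      exact ⟨χ y, hχ2 y⟩
    choose x hx using hχ
    have hinj : ∀ (j : ℕ) (a b : PD n), Φ j a = Φ j b → a = b := by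
      intro j a b hab
      obtain ⟨χ, -, hχ1, -⟩ := (hΦd j).inv
      rw [← hχ1 a, ← hχ1 b, hab]
    have hstep : ∀ j, φ j (x (j + 1)) = x j := by
      intro j
      apply hinj j
      rw [← hΦs, hx, hx]
    obtain ⟨z, hz1, hz2⟩ := H4_cauchy (by omega : 2 ≤ n) x ρ hρ.le (by
      intro j
      have h1 := H.mov j (x (j + 1))
      rw [hstep, dgs] at h1
      exact h1)
    refine ⟨z, ?_⟩
    have hlim : Tendsto (fun j => dg (Φ j z) (Φl z) + 5 / 2 * dg (x j) z) atTop (𝓝 0) := by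
      have := (hl2 z).add (hz2.const_mul (5 / 2))
      simpa using this
    refine hzero' _ _ _ (fun j => ?_) hlim
    have t1 := dgt (Φl z) (Φ j z) y
    have t2 := hB j z (x j)
    rw [hx] at t2
    rw [dgs (Φl z) (Φ j z)] at t1
    rw [dgs z (x j)] at t2
    linarith
  · -- equivariant
    have hlim : Tendsto (fun j => dg (Φ j (act γ p)) (Φl (act γ p)) + dg (Φ j p) (Φl p)) atTop
        (𝓝 0) := by
      have := (hl2 (act γ p)).add (hl2 p)
      simpa using this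
    refine hzero' _ _ _ (fun j => ?_) hlim
    have t1 := dgt (Φl (act γ p)) (Φ j (act γ p)) (act γ (Φl p))
    have t2 : dg (Φ j (act γ p)) (act γ (Φl p)) = dg (Φ j p) (Φl p) := by
      rw [(hΦd j).equi γ hγ p, dg_act]
    rw [dgs (Φl (act γ p)) (Φ j (act γ p)), t2] at t1
    exact t1

end FL27
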