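import Pool.Agent.LibFL27.H1
import Pool.Agent.LibFL27.H2
import Pool.Agent.LibFL27.H4
import Pool.Agent.LibFL27.H10
import Pool.Agent.LibFL27.H11

set_option autoImplicit false
set_option maxSynthPendingDepth 3

open Matrix MeasureTheory Topology Filter LibNC38
open LibNC27 hiding Mt
open scoped Matrix.Norms.Elementwise ContDiff

namespace FL27

private theorem H12_bd {n : ℕ} (k : ℕ) {M M' : ℝ} (hM : M ≤ M') :
    ∀ F : Fn n, BD k M F → BD k M' F := by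
  induction k with
  | zero =>
    intro F h
    exact ⟨h.1, fun g => (h.2 g).trans hM⟩
  | succ k ih =>
    intro F h
    refine ⟨⟨h.1.1, fun g => (h.1.2 g).trans hM⟩, fun x hx hx' => ?_⟩
    obtain ⟨F', h1, h2⟩ := h.2 x hx hx'
    exact ⟨F', h1, ih F' h2⟩

private theorem H12_tb {n : ℕ} (k : ℕ) {M M' : ℝ} (hM : M ≤ M') (κ : PD n → Fm n)
    (h : TB k M κ) : TB k M' κ :=
  fun v w hv hw hv1 hw1 => H12_bd k hM _ (h v w hv hw hv1 hw1)

private theorem H12_pow : Tendsto (fun j : ℕ => ((1 : ℝ) / 2) ^ j) atTop (𝓝 0) :=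
  tendsto_pow_atTop_nhds_zero_of_lt_one (by norm_num) (by norm_num)

/-- Row H12. Board H: H1, H2, H4, H10, H11. -/
theorem H_main (hG : GStat) : HStat := by
  intro n hn Γ hd hc
  obtain ⟨ρ0, K, hρ0, hρ8, hK, hlim⟩ := gs_limit (n := n) hn
  obtain ⟨m, ε, hε, hm⟩ := hG n hn Γ hd hc ρ0 hρ0
  refine ⟨m, ε, hε, fun h hh hN => ?_⟩
  obtain ⟨φ, hs, cs, H⟩ := hm h hh hN
  obtain ⟨Φ, C, hΦ0, hΦs, hΦd, hCb, hCd, hp⟩ := gs_comp Γ ρ0 hρ0 hρ8 h φ hs cs H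
  obtain ⟨hdd, Φl, c, hc1, -, hcl, hdl, hbij, hequ, -⟩ :=
    hlim Γ ρ0 h φ hs cs hρ0 le_rfl H Φ C hΦ0 hΦs hΦd hCb hCd hp
  obtain ⟨-, -, hsym, htri⟩ := @dg_facts n
  have hKρ : 0 < K * ρ0 := mul_pos hK hρ0
  have hpow : ∀ j : ℕ, 0 ≤ ((1 : ℝ) / 2) ^ j := fun j => by positivity
  have hpow1 : ∀ j : ℕ, ((1 : ℝ) / 2) ^ j ≤ 1 := fun j =>
    pow_le_one₀ (by norm_num) (by norm_num)
  have hd1 : ∀ j p, dg (Φ (j + 1) p) (Φ j p) ≤ (4 * K * ρ0) * (1 / 2) ^ j := by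
    intro j p
    refine (hdd j p).trans (mul_le_mul_of_nonneg_right ?_ (hpow j))
    linarith
  have hd0 : ∀ j p, dg (Φ j p) p ≤ 4 * K * ρ0 := by
    intro j p
    have h1 := htri (Φ j p) (Φl p) p
    have h2 := hdl j p
    have h3 := hdl 0 p
    rw [hΦ0 p, hsym p (Φl p), pow_zero] at h3
    have h4 : 2 * K * ρ0 * (1 / 2) ^ j ≤ 2 * K * ρ0 * 1 :=
      mul_le_mul_of_nonneg_left (hpow1 j) (by linarith)
    linarith
  obtain ⟨f, hf1, hf2, hf3⟩ := gs_smooth hn Γ ρ0 h φ hs cs hρ0 H Φ C hΦd hCb hCd hp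
    (4 * K * ρ0) hd1 hd0
  have hl : ∀ p, Tendsto (fun j => Φ j p) atTop (𝓝 (Φl p)) := by
    intro p
    refine ((dg_complete (n := n) (by omega)).2.1 (fun j => Φ j p) (Φl p)).1 ?_
    have h0 : Tendsto (fun j : ℕ => 2 * K * ρ0 * (1 / 2 : ℝ) ^ j) atTop (𝓝 0) := by
      have h1 := H12_pow.const_mul (2 * K * ρ0)
      rw [mul_zero] at h1
      exact h1
    exact squeeze_zero (fun j => (@dg_facts n).1 _ _) (fun j => hdl j p) h0
  have hst : ∀ j, TB 3 ((1 / 2) ^ j) (fun p => hs j p - gF p) := by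
    intro j
    refine H12_tb 3 ?_ _ (H.tb j)
    have h1 : ρ0 * (1 / 2) ^ j ≤ 1 * (1 / 2) ^ j :=
      mul_le_mul_of_nonneg_right (by linarith) (hpow j)
    rw [one_mul] at h1
    exact h1
  have hok : FmOK Γ h := by
    have h1 := H.ok 0
    rw [H.h0] at h1
    exact h1
  have hpos : ∀ p v, IsTan p v → v ≠ 0 → 0 < h p v v := by
    have h1 := H.pos 0
    rw [H.h0] at h1
    exact h1
  have hc0 : 0 < c := by linarith
  obtain ⟨r1, r2⟩ := gs_hom hn Γ h hs hok hh hpos (fun j => ⟨H.ok j, H.sm j⟩) hst Φ C hΦd hp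
    Φl c hc0 hcl (fun j => by linarith [(hCb j).1]) hl hbij hequ f hf1 hf2 hf3
  exact ⟨Φl, c, r1, hc0, r2⟩

end FL27
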