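import Pool.Agent.LibFL27.HBase
import Pool.Agent.LibFL27.CS0
import Pool.Agent.LibFL27.CS1
import Pool.Agent.LibFL27.CR5

set_option autoImplicit false
set_option maxSynthPendingDepth 3

open Matrix MeasureTheory Topology Filter LibNC38
open LibNC27 hiding Mt
open scoped Matrix.Norms.Elementwise ContDiff

namespace FL27

private theorem H5_Sdet {n : ℕ} (x : Mt n) (hx : x.trace = 0) :
    HasDerivAt (fun s : ℝ => (1 + s • x : Mt n).det) 0 0 := by
  have h1 : (fun s : ℝ => (1 + s • x : Mt n).det) = fun s : ℝ => 1 + x.trace * s +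
      (Matrix.det (1 + (Polynomial.X : Polynomial ℝ) • x.map Polynomial.C)).divX.divX.eval s * s ^ 2 := by
    funext s
    exact Matrix.det_one_add_smul s x
  rw [h1, hx]
  set q := (Matrix.det (1 + (Polynomial.X : Polynomial ℝ) • x.map Polynomial.C)).divX.divX
  have h2 : HasDerivAt (fun s : ℝ => 1 + 0 * s + q.eval s * s ^ 2)
      (0 * 1 + (q.derivative.eval 0 * 0 ^ 2 + q.eval 0 * (((2 : ℕ) : ℝ) * 0 ^ (2 - 1)))) 0 :=
    (((hasDerivAt_id (0 : ℝ)).const_mul (0 : ℝ)).const_add 1).add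
      ((q.hasDerivAt 0).mul (hasDerivAt_pow 2 (0 : ℝ)))
  simpa using h2

private theorem H5_Scurve {n : ℕ} (g : SL n) (x : Mt n) (hx : x.trace = 0) :
    ∃ c : ℝ → SL n, c 0 = g ∧ ∀ a b, HasDerivAt (fun s => (c s).1 a b) ((g.1 * x) a b) 0 := by
  classical
  rcases isEmpty_or_nonempty (Fin n) with hn | ⟨⟨i0⟩⟩
  · exact ⟨fun _ => g, rfl, fun a => (hn.false a).elim⟩
  set d : ℝ → ℝ := fun s => (1 + s • x : Mt n).det with hd
  have hd0 : d 0 = 1 := by simp [hd]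
  have hdd : HasDerivAt d 0 0 := H5_Sdet x hx
  let m : ℝ → Mt n := fun s => (1 + s • x : Mt n).updateRow i0 ((d s)⁻¹ • (1 + s • x : Mt n) i0)
  have hm : ∀ s, d s ≠ 0 → (m s).det = 1 := by
    intro s hs
    show ((1 + s • x : Mt n).updateRow i0 ((d s)⁻¹ • (1 + s • x : Mt n) i0)).det = 1
    rw [Matrix.det_updateRow_smul, Matrix.updateRow_eq_self]
    exact inv_mul_cancel₀ hs
  have hm0 : m 0 = 1 := by
    show (1 + (0 : ℝ) • x : Mt n).updateRow i0 ((d 0)⁻¹ • (1 + (0 : ℝ) • x : Mt n) i0) = 1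
    rw [hd0, inv_one, one_smul, Matrix.updateRow_eq_self, zero_smul, add_zero]
  let c : ℝ → SL n := fun s => if h : d s ≠ 0 then g * ⟨m s, hm s h⟩ else g
  have hc0 : c 0 = g := by
    show (if h : d 0 ≠ 0 then g * ⟨m 0, hm 0 h⟩ else g) = g
    rw [dif_pos (by rw [hd0]; exact one_ne_zero)]
    apply Subtype.ext
    show g.1 * m 0 = g.1
    rw [hm0, mul_one]
  refine ⟨c, hc0, ?_⟩
  intro a b
  have hev : ∀ᶠ s in 𝓝 (0 : ℝ), d s ≠ 0 :=
    hdd.continuousAt.eventually_ne (by rw [hd0]; exact one_ne_zero)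
  have hmd : ∀ k, HasDerivAt (fun s => m s k b) (x k b) 0 := by
    intro k
    have h1 : ∀ k' : Fin n, HasDerivAt (fun s : ℝ => (1 + s • x : Mt n) k' b) (x k' b) 0 := by
      intro k'
      have h2 : HasDerivAt (fun s : ℝ => (1 : Mt n) k' b + s * x k' b) (1 * x k' b) 0 :=
        ((hasDerivAt_id (0 : ℝ)).mul_const (x k' b)).const_add _
      rw [one_mul] at h2
      exact h2
    by_cases hk : k = i0
    · subst hk
      have h3 : HasDerivAt (fun s : ℝ => (d s)⁻¹ * (1 + s • x : Mt n) k b)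
          ((-0 / (d 0) ^ 2) * (1 + (0 : ℝ) • x : Mt n) k b + (d 0)⁻¹ * x k b) 0 :=
        (hdd.inv (by rw [hd0]; exact one_ne_zero)).mul (h1 k)
      have h4 : ((-0 / (d 0) ^ 2) * (1 + (0 : ℝ) • x : Mt n) k b + (d 0)⁻¹ * x k b) = x k b := by
        rw [hd0]; simp
      rw [h4] at h3
      have h5 : (fun s => m s k b) = fun s : ℝ => (d s)⁻¹ * (1 + s • x : Mt n) k b := by
        funext s
        show ((1 + s • x : Mt n).updateRow k ((d s)⁻¹ • (1 + s • x : Mt n) k)) k b = _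
        rw [Matrix.updateRow_self]
        rfl
      rw [h5]
      exact h3
    · have h5 : (fun s => m s k b) = fun s : ℝ => (1 + s • x : Mt n) k b := by
        funext s
        show ((1 + s • x : Mt n).updateRow i0 ((d s)⁻¹ • (1 + s • x : Mt n) i0)) k b = _
        rw [Matrix.updateRow_ne hk]
      rw [h5]
      exact h1 k
  have h6 : HasDerivAt (fun s => ∑ k, g.1 a k * m s k b) (∑ k, g.1 a k * x k b) 0 :=
    HasDerivAt.fun_sum (fun k _ => (hmd k).const_mul (g.1 a k))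
  have h7 : (g.1 * x) a b = ∑ k, g.1 a k * x k b := Matrix.mul_apply
  rw [h7]
  refine h6.congr_of_eventuallyEq ?_
  filter_upwards [hev] with s hs
  show (if h : d s ≠ 0 then g * ⟨m s, hm s h⟩ else g).1 a b = _
  rw [dif_pos hs]
  show (g.1 * m s) a b = _
  exact Matrix.mul_apply

private theorem H5_Suniq {n : ℕ} {x : Mt n} (hx : x.trace = 0) {F F1 F2 : Fn n}
    (h1 : RD x F F1) (h2 : RD x F F2) : F1 = F2 := by
  funext g
  obtain ⟨c, hc0, hc⟩ := H5_Scurve g x hx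
  have hc' : ∀ a b, HasDerivAt (fun s => (c s).1 a b) (((c 0).1 * x) a b) 0 := by
    rw [hc0]; exact hc
  have h3 := h1 c hc'
  have h4 := h2 c hc'
  have h5 := h3.unique h4
  rw [hc0] at h5
  exact h5

/-- the frame of the matrices of trace zero -/
private noncomputable def H5_Se (n : ℕ) (p : Fin n × Fin n) : Mt n :=
  Matrix.single p.1 p.2 (1 : ℝ) - (if p.1 = p.2 then (1 / (n : ℝ)) else 0) • (1 : Mt n)

private theorem H5_Setr {n : ℕ} (p : Fin n × Fin n) : (H5_Se n p).trace = 0 := by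
  have hn : (n : ℝ) ≠ 0 := by
    have := p.1.pos
    positivity
  unfold H5_Se
  rw [Matrix.trace_sub, Matrix.trace_smul, Matrix.trace_one, Fintype.card_fin, smul_eq_mul]
  by_cases h : p.1 = p.2
  · rw [if_pos h, h, Matrix.trace_single_eq_same]
    field_simp
    ring
  · rw [if_neg h, Matrix.trace_single_eq_of_ne _ _ _ h]
    ring

private theorem H5_Sebd {n : ℕ} (p : Fin n × Fin n) : ∀ a b, |H5_Se n p a b| ≤ 1 := by
  intro a b
  have hn : (1 : ℝ) ≤ n := by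
    have := p.1.pos
    exact_mod_cast this
  have h1 : (0 : ℝ) ≤ 1 / n := by positivity
  have h2 : (1 : ℝ) / n ≤ 1 := by rw [div_le_one (by positivity)]; exact hn
  have hs : H5_Se n p a b = (if p.1 = a ∧ p.2 = b then (1 : ℝ) else 0) -
      (if p.1 = p.2 then (1 / (n : ℝ)) else 0) * (if a = b then 1 else 0) := by
    unfold H5_Se
    rw [Matrix.sub_apply, Matrix.smul_apply, Matrix.one_apply, Matrix.single_apply]
    rfl
  rw [hs, abs_le]
  by_cases h3 : p.1 = p.2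
  · by_cases h4 : a = b
    · by_cases h5 : p.1 = a ∧ p.2 = b
      · rw [if_pos h3, if_pos h4, if_pos h5]; constructor <;> linarith
      · rw [if_pos h3, if_pos h4, if_neg h5]; constructor <;> linarith
    · rw [if_pos h3, if_neg h4]
      rw [if_neg (by rintro ⟨h6, h7⟩; exact h4 (h6.symm.trans (h3.trans h7)))]
      constructor <;> linarith
  · rw [if_neg h3]
    split_ifs <;> constructor <;> linarith

private theorem H5_Sexp {n : ℕ} (x : Mt n) (hx : x.trace = 0) :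
    x = ∑ p : Fin n × Fin n, x p.1 p.2 • H5_Se n p := by
  have h1 : ∑ p : Fin n × Fin n, x p.1 p.2 • H5_Se n p =
      ∑ p : Fin n × Fin n, x p.1 p.2 • Matrix.single p.1 p.2 (1 : ℝ) -
      (∑ p : Fin n × Fin n, x p.1 p.2 * (if p.1 = p.2 then (1 / (n : ℝ)) else 0)) • (1 : Mt n) := by
    unfold H5_Se
    rw [Finset.sum_smul, ← Finset.sum_sub_distrib]
    refine Finset.sum_congr rfl (fun p _ => ?_)
    rw [smul_sub, smul_smul]
  have h2 : ∑ p : Fin n × Fin n, x p.1 p.2 * (if p.1 = p.2 then (1 / (n : ℝ)) else 0) = 0 := by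
    rw [Fintype.sum_prod_type]
    have h3 : ∀ i : Fin n, ∑ j : Fin n, x i j * (if i = j then (1 / (n : ℝ)) else 0) =
        x i i * (1 / (n : ℝ)) := by
      intro i
      simp [mul_ite]
    simp only [h3]
    rw [← Finset.sum_mul]
    have h4 : ∑ i, x i i = 0 := hx
    rw [h4, zero_mul]
  rw [h1, h2, zero_smul, sub_zero, Fintype.sum_prod_type]
  conv_lhs => rw [Matrix.matrix_eq_sum_single x]
  refine Finset.sum_congr rfl (fun i _ => Finset.sum_congr rfl (fun j _ => ?_))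
  rw [Matrix.smul_single, smul_eq_mul, mul_one]

private theorem H5_Slin {n : ℕ} (Fd : Mt n → Fn n)
    (hl : ∀ (x y : Mt n) (r : ℝ), x.trace = 0 → y.trace = 0 → ∀ g, Fd (x + r • y) g = Fd x g + r * Fd y g)
    (g : SL n) {ι : Type} (I : Finset ι) (e : ι → Mt n) (he : ∀ i, (e i).trace = 0) (r : ι → ℝ) :
    (∑ i ∈ I, r i • e i).trace = 0 ∧ Fd (∑ i ∈ I, r i • e i) g = ∑ i ∈ I, r i * Fd (e i) g := by
  classical
  have h0 : Fd 0 g = 0 := by
    have h1 := hl 0 0 1 (Matrix.trace_zero _ _) (Matrix.trace_zero _ _) g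
    rw [smul_zero, add_zero, one_mul] at h1
    linarith
  induction I using Finset.induction_on with
  | empty => exact ⟨by simp, by simp [h0]⟩
  | insert i I hi ih =>
    rw [Finset.sum_insert hi, Finset.sum_insert hi]
    refine ⟨?_, ?_⟩
    · rw [Matrix.trace_add, ih.1, Matrix.trace_smul, he i]; simp
    · rw [add_comm (r i • e i), hl _ _ _ ih.1 (he i), ih.2]
      ring

private noncomputable def H5_RG {n : ℕ} (A : Mt n) : Fm n :=
  LinearMap.mk₂ ℝ (fun v w => (A⁻¹ * v * (A⁻¹ * w)).trace)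
    (by intro a b c; rw [Matrix.mul_add, Matrix.add_mul, Matrix.trace_add])
    (by intro r a c; rw [Matrix.mul_smul, Matrix.smul_mul, Matrix.trace_smul])
    (by intro a b c; rw [Matrix.mul_add, Matrix.mul_add, Matrix.trace_add])
    (by intro r a c; rw [Matrix.mul_smul, Matrix.mul_smul, Matrix.trace_smul])

private theorem H5_Rdiff {n : ℕ} (h : PD n → Fm n) (hh : CmF ∞ h) :
    CmF ∞ (fun p => h p - gF p) := by
  obtain ⟨U, κ, hU, hκ, hs⟩ := hh
  have hdet : IsOpen {A : Mt n | A.det ≠ 0} :=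
    isOpen_ne_fun (Continuous.matrix_det continuous_id) continuous_const
  refine ⟨U ∩ {A : Mt n | A.det ≠ 0}, fun A => κ A - H5_RG A, hU.inter hdet, ?_, ?_⟩
  · intro p
    refine ⟨⟨(hκ p).1, ?_⟩, ?_⟩
    · show p.1.det ≠ 0
      rw [p.2.2]
      exact one_ne_zero
    · show κ p.1 - H5_RG p.1 = h p - gF p
      rw [(hκ p).2]
      rfl
  · intro v w
    have h1 : ContDiffOn ℝ ∞ (fun A : Mt n => κ A v w) (U ∩ {A : Mt n | A.det ≠ 0}) :=
      (hs v w).mono Set.inter_subset_left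
    have h2 : ContDiffOn ℝ ∞ (fun A : Mt n => A⁻¹) (U ∩ {A : Mt n | A.det ≠ 0}) :=
      cd_inv contDiffOn_id (fun A hA => hA.2)
    have h3 : ContDiffOn ℝ ∞ (fun A : Mt n => (A⁻¹ * v * (A⁻¹ * w)).trace)
        (U ∩ {A : Mt n | A.det ≠ 0}) :=
      cd_trace (cd_mul (cd_mul h2 contDiffOn_const) (cd_mul h2 contDiffOn_const))
    exact h1.sub h3

private theorem H5_Rpr {n : ℕ} (v : Mt n) (hv : Sym0 v) : pr0 v = v := by
  show (1 / 2 : ℝ) • (v + vᵀ) - (v.trace / n) • (1 : Mt n) = v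
  rw [hv.1, hv.2, zero_div, zero_smul, sub_zero]
  ext i j
  simp only [Matrix.smul_apply, Matrix.add_apply, smul_eq_mul]
  ring

/-- the spanning family -/
private noncomputable def H5_RP {n : ℕ} (i j : Fin n) : Mt n := pr0 (Matrix.single i j (1 : ℝ))

private theorem H5_Rexp {n : ℕ} (v : Mt n) (hv : Sym0 v) :
    v = ∑ i, ∑ j, v i j • H5_RP i j := by
  have h1 : v = ∑ i, ∑ j, v i j • Matrix.single i j (1 : ℝ) := by
    conv_lhs => rw [Matrix.matrix_eq_sum_single v]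
    refine Finset.sum_congr rfl fun i _ => Finset.sum_congr rfl fun j _ => ?_
    rw [Matrix.smul_single, smul_eq_mul, mul_one]
  have h2 : pr0 v = ∑ i, ∑ j, v i j • H5_RP i j := by
    conv_lhs => rw [h1]
    simp only [map_sum, map_smul]
    rfl
  rw [← h2]
  exact (H5_Rpr v hv).symm

private theorem H5_Rsym {n : ℕ} (hn : 1 ≤ n) (v : Mt n) : Sym0 (pr0 v) := by
  have hn0 : (n : ℝ) ≠ 0 := by
    have : 0 < n := hn
    exact_mod_cast this.ne'
  constructor
  · show ((1 / 2 : ℝ) • (v + vᵀ) - (v.trace / n) • (1 : Mt n))ᵀ =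
      (1 / 2 : ℝ) • (v + vᵀ) - (v.trace / n) • (1 : Mt n)
    rw [Matrix.transpose_sub, Matrix.transpose_smul, Matrix.transpose_smul, Matrix.transpose_one,
      Matrix.transpose_add, Matrix.transpose_transpose, add_comm]
  · show ((1 / 2 : ℝ) • (v + vᵀ) - (v.trace / n) • (1 : Mt n)).trace = 0
    rw [Matrix.trace_sub, Matrix.trace_smul, Matrix.trace_smul, Matrix.trace_one, Matrix.trace_add,
      Matrix.trace_transpose, Fintype.card_fin, smul_eq_mul, smul_eq_mul]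
    field_simp
    ring

private theorem H5_Rbox {n : ℕ} (hn : 1 ≤ n) (i j : Fin n) : Bx (H5_RP i j) := by
  have hn1 : (1 : ℝ) ≤ n := by exact_mod_cast hn
  have hn0 : (0 : ℝ) < n := by linarith
  have hi0 : 0 ≤ 1 / (n : ℝ) := by positivity
  have hi1 : 1 / (n : ℝ) ≤ 1 := by
    rw [div_le_one hn0]
    exact hn1
  intro a b
  show |((1 / 2 : ℝ) • (Matrix.single i j (1 : ℝ) + (Matrix.single i j (1 : ℝ))ᵀ) -
    ((Matrix.single i j (1 : ℝ)).trace / n) • (1 : Mt n)) a b| ≤ 1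
  rw [Matrix.transpose_single]
  simp only [Matrix.sub_apply, Matrix.smul_apply, Matrix.add_apply, smul_eq_mul]
  by_cases hij : i = j
  · subst hij
    rw [Matrix.trace_single_eq_same]
    by_cases hab : a = b
    · subst hab
      rw [Matrix.one_apply_eq]
      by_cases hia : i = a
      · subst hia
        rw [Matrix.single_apply_same, abs_le]
        constructor <;> linarith
      · rw [Matrix.single_apply_of_row_ne hia, abs_le]
        constructor <;> linarith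
    · rw [Matrix.one_apply_ne hab]
      by_cases hia : i = a
      · subst hia
        rw [Matrix.single_apply_of_col_ne _ _ hab, abs_le]
        constructor <;> linarith
      · rw [Matrix.single_apply_of_row_ne hia, abs_le]
        constructor <;> linarith
  · rw [Matrix.trace_single_eq_of_ne _ _ _ hij, zero_div, zero_mul, sub_zero]
    have e1 : 0 ≤ Matrix.single i j (1 : ℝ) a b ∧ Matrix.single i j (1 : ℝ) a b ≤ 1 := by
      rw [Matrix.single_apply]
      split_ifs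
      · exact ⟨zero_le_one, le_rfl⟩
      · exact ⟨le_rfl, zero_le_one⟩
    have e2 : 0 ≤ Matrix.single j i (1 : ℝ) a b ∧ Matrix.single j i (1 : ℝ) a b ≤ 1 := by
      rw [Matrix.single_apply]
      split_ifs
      · exact ⟨zero_le_one, le_rfl⟩
      · exact ⟨le_rfl, zero_le_one⟩
    rw [abs_le]
    constructor <;> linarith [e1.1, e1.2, e2.1, e2.2]

private theorem H5_Rtan {n : ℕ} (g : SL n) (w : Mt n) (hw : IsTan (act g (o n)) w) :
    Sym0 ((g⁻¹).1 * w * (g⁻¹).1ᵀ) ∧ g.1 * ((g⁻¹).1 * w * (g⁻¹).1ᵀ) * g.1ᵀ = w := by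
  have hinv' : g.1 * (g⁻¹ : SL n).1 = 1 := by
    rw [← Matrix.SpecialLinearGroup.coe_mul, mul_inv_cancel, Matrix.SpecialLinearGroup.coe_one]
  have hinvt' : (g⁻¹ : SL n).1ᵀ * g.1ᵀ = 1 := by
    rw [← Matrix.transpose_mul, hinv', Matrix.transpose_one]
  have h1 := (tan_facts (n := n)).2.1 g⁻¹ _ w hw
  have h2 : act g⁻¹ (act g (o n)) = o n := by
    rw [← (act_facts (n := n)).2.1, inv_mul_cancel, (act_facts (n := n)).1]
  rw [h2] at h1
  refine ⟨⟨h1.1, ?_⟩, ?_⟩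
  · have h3 := h1.2
    change ((1 : Mt n)⁻¹ * _).trace = 0 at h3
    rw [inv_one, Matrix.one_mul] at h3
    exact h3
  · calc g.1 * ((g⁻¹ : SL n).1 * w * (g⁻¹ : SL n).1ᵀ) * g.1ᵀ
        = (g.1 * (g⁻¹ : SL n).1) * w * ((g⁻¹ : SL n).1ᵀ * g.1ᵀ) := by
          simp only [Matrix.mul_assoc]
      _ = w := by rw [hinv', hinvt', Matrix.one_mul, Matrix.mul_one]

private theorem H5_Rbil {n : ℕ} (κ : PD n → Fm n) (v w : Mt n) (hv : Sym0 v) (hw : Sym0 w)
    (g : SL n) : Jf κ v w g =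
      ∑ x : (Fin n × Fin n) × (Fin n × Fin n),
        (v x.1.1 x.1.2 * w x.2.1 x.2.2) * Jf κ (H5_RP x.1.1 x.1.2) (H5_RP x.2.1 x.2.2) g := by
  have hbil : Jf κ v w g = ∑ i, ∑ j, v i j * ∑ k, ∑ l, w k l * Jf κ (H5_RP i j) (H5_RP k l) g := by
    have e1 : ∀ v' : Mt n, Jf κ v' w g = ∑ k, ∑ l, w k l * Jf κ v' (H5_RP k l) g := by
      intro v'
      unfold Jf
      conv_lhs => rw [H5_Rexp w hw]
      simp only [Matrix.mul_sum, Matrix.sum_mul, Matrix.mul_smul, Matrix.smul_mul, map_sum,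
        map_smul, smul_eq_mul]
    have e2 : Jf κ v w g = ∑ i, ∑ j, v i j * Jf κ (H5_RP i j) w g := by
      unfold Jf
      conv_lhs => rw [H5_Rexp v hv]
      simp only [Matrix.mul_sum, Matrix.sum_mul, Matrix.mul_smul, Matrix.smul_mul, map_sum,
        map_smul, smul_eq_mul, LinearMap.sum_apply, LinearMap.smul_apply]
    rw [e2]
    refine Finset.sum_congr rfl fun i _ => Finset.sum_congr rfl fun j _ => ?_
    rw [e1]
  rw [hbil, Fintype.sum_prod_type, Fintype.sum_prod_type]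
  refine Finset.sum_congr rfl fun i _ => Finset.sum_congr rfl fun j _ => ?_
  rw [Fintype.sum_prod_type, Finset.mul_sum]
  refine Finset.sum_congr rfl fun k _ => ?_
  rw [Finset.mul_sum]
  refine Finset.sum_congr rfl fun l _ => ?_
  show v i j * (w k l * _) = v i j * w k l * _
  ring

private theorem H5_bd {n : ℕ} (F : Fn n) (Fd : Mt n → Fn n)
    (hFd : ∀ x : Mt n, x.trace = 0 → RD x F (Fd x))
    (hlin : ∀ (x y : Mt n) (r : ℝ), x.trace = 0 → y.trace = 0 → ∀ g,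
      Fd (x + r • y) g = Fd x g + r * Fd y g) (ε : ℝ) (hB : BD 3 ε F) (z : Mt n)
    (hz : z.trace = 0) (g : SL n) :
    |Fd z g| ≤ (∑ p : Fin n × Fin n, |z p.1 p.2|) * ε := by
  have e : Fd z g = ∑ p : Fin n × Fin n, z p.1 p.2 * Fd (H5_Se n p) g := by
    conv_lhs => rw [H5_Sexp z hz]
    exact (H5_Slin Fd hlin g Finset.univ (H5_Se n) H5_Setr _).2
  rw [e, Finset.sum_mul]
  refine (Finset.abs_sum_le_sum_abs _ _).trans (Finset.sum_le_sum fun p _ => ?_)
  rw [abs_mul]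
  refine mul_le_mul_of_nonneg_left ?_ (abs_nonneg _)
  obtain ⟨F', hF1, hF2⟩ := hB.2 (H5_Se n p) (H5_Setr p) (H5_Sebd p)
  rw [H5_Suniq (H5_Setr p) (hFd _ (H5_Setr p)) hF1]
  exact hF2.1.2 _

private theorem H5_jet {n : ℕ} (F : Fn n) (hF : ∀ j, SG j F) (ε : ℝ) (hB : BD 3 ε F)
    (s : Mt n → SL n) (A : Mt n) (L : Mt n →L[ℝ] Mt n)
    (hL : HasFDerivAt (fun B => (s B).1) L A) :
    |F (s A)| ≤ ε ∧ ∃ L' : Mt n →L[ℝ] ℝ, HasFDerivAt (fun B => F (s B)) L' A ∧
      ∀ w, |L' w| ≤ (∑ p : Fin n × Fin n, |((s A)⁻¹.1 * L w) p.1 p.2|) * ε := by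
  classical
  refine ⟨hB.1.2 _, ?_⟩
  have h1 : ∀ x : Mt n, x.trace = 0 → ∃ F' : Fn n, RD x F F' ∧ SG 0 F' := (hF 1).2
  choose! Fd hFd using h1
  obtain ⟨hlin, hfr⟩ := rd_frechet F Fd (fun x hx => (hFd x hx).1) (fun x hx => (hFd x hx).2)
  obtain ⟨htr, L', hL', hL''⟩ := hfr s A L hL
  refine ⟨L', hL', fun w => ?_⟩
  exact (le_of_eq (congrArg abs (hL'' w))).trans
    (H5_bd F Fd (fun x hx => (hFd x hx).1) hlin ε hB _ (htr w) (s A))

private theorem H5_loc {n : ℕ} (hn : 1 ≤ n) (v w u A0 : Mt n) (hA0 : A0 ∈ PU n) :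
    ∃ K : ℝ, 0 ≤ K ∧ ∃ N ∈ 𝓝 A0, ∀ A ∈ N, ∀ (m : PD n → Fm n) (ε : ℝ), 0 ≤ ε → CmF ∞ m →
      TB 3 ε (fun p => m p - gF p) →
        DifferentiableAt ℝ (fun B => prodm m B v w - prodm gF B v w) A ∧
        |prodm m A v w - prodm gF A v w| ≤ K * ε ∧
        |fderiv ℝ (fun B => prodm m B v w - prodm gF B v w) A u| ≤ K * ε := by
  obtain ⟨g0, -, -, hg0⟩ := chol (ret A0)
  obtain ⟨U, s, hU, h1U, hUP, hs1, hsm, hact⟩ := sec_loc A0 hA0 g0 hg0.symm
  have hinv : ContDiffOn ℝ ∞ (fun A => ((s A)⁻¹ : SL n).1) U := by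
    have h1 : ContDiffOn ℝ ∞ (fun A => ((s A).1)⁻¹) U := by
      refine cd_inv hsm fun A _ => ?_
      rw [(s A).2]
      exact one_ne_zero
    refine h1.congr fun A _ => ?_
    have h2 : ((s A)⁻¹ : SL n).1 * (s A).1 = 1 := by
      rw [← Matrix.SpecialLinearGroup.coe_mul, inv_mul_cancel, Matrix.SpecialLinearGroup.coe_one]
    exact (Matrix.inv_eq_left_inv h2).symm
  have hfd : ∀ u : Mt n, ContDiffOn ℝ ∞
      (fun A : Mt n => fderiv ℝ (fun B : Mt n => (ret B).1) A u) U := by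
    intro u
    have h1 : ContDiffOn ℝ ∞ (fun B : Mt n => ((ret B).1 : Mt n)) (PU n) := ret_smooth
    have h2 := h1.fderiv_of_isOpen (m := ∞) PU_open (by simp)
    exact (h2.clm_apply contDiffOn_const).mono hUP
  obtain ⟨c, hcdef⟩ : ∃ c : Mt n → Mt n → Mt n, ∀ u A, c u A =
      ((s A)⁻¹ : SL n).1 * fderiv ℝ (fun B : Mt n => (ret B).1) A u * ((s A)⁻¹ : SL n).1ᵀ :=
    ⟨_, fun _ _ => rfl⟩
  have hc : ∀ u, ContDiffOn ℝ ∞ (c u) U := fun u =>
    (cd_mul (cd_mul hinv (hfd u)) (cd_transpose hinv)).congr fun A _ => hcdef u A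
  obtain ⟨q, hqdef⟩ : ∃ q : (Fin n × Fin n) × (Fin n × Fin n) → Mt n → ℝ, ∀ x A, q x A =
      c v A x.1.1 x.1.2 * c w A x.2.1 x.2.2 := ⟨_, fun _ _ => rfl⟩
  have hq : ∀ x, ContDiffOn ℝ ∞ (q x) U := fun x =>
    ((cd_entry (hc v) x.1.1 x.1.2).mul (cd_entry (hc w) x.2.1 x.2.2)).congr
      fun A _ => hqdef x A
  obtain ⟨dd, hdd⟩ : ∃ dd : Fin n × Fin n → Mt n → ℝ, ∀ p A, dd p A =
      ((s A)⁻¹.1 * fderiv ℝ (fun B => (s B).1) A u) p.1 p.2 := ⟨_, fun _ _ => rfl⟩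
  have hddc : ∀ p, ContinuousAt (dd p) A0 := by
    intro p
    have h2 := hsm.fderiv_of_isOpen (m := ∞) hU (by simp)
    have h3 : ContDiffOn ℝ ∞ (fun A => fderiv ℝ (fun B => (s B).1) A u) U :=
      h2.clm_apply contDiffOn_const
    have h4 : ContDiffOn ℝ ∞ (dd p) U :=
      (cd_entry (cd_mul hinv h3) p.1 p.2).congr fun A _ => hdd p A
    exact h4.continuousOn.continuousAt (hU.mem_nhds h1U)
  have hqc : ∀ x, ContinuousAt (q x) A0 := fun x =>
    (hq x).continuousOn.continuousAt (hU.mem_nhds h1U)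
  have hqd : ∀ x, ContinuousAt (fun A => fderiv ℝ (q x) A u) A0 := by
    intro x
    have h2 := (hq x).fderiv_of_isOpen (m := ∞) hU (by simp)
    have h3 : ContDiffOn ℝ ∞ (fun A => fderiv ℝ (q x) A u) U := h2.clm_apply contDiffOn_const
    exact h3.continuousOn.continuousAt (hU.mem_nhds h1U)
  have hbd : ∀ f : Mt n → ℝ, ContinuousAt f A0 → ∀ᶠ A in 𝓝 A0, |f A| ≤ |f A0| + 1 := by
    intro f hf
    exact (hf.abs.eventually (gt_mem_nhds (lt_add_one |f A0|))).mono fun A hA => hA.le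
  have ev : ∀ᶠ A in 𝓝 A0, A ∈ U ∧ (∀ x, |q x A| ≤ |q x A0| + 1) ∧
      (∀ x, |fderiv ℝ (q x) A u| ≤ |fderiv ℝ (q x) A0 u| + 1) ∧
      ∀ p, |dd p A| ≤ |dd p A0| + 1 := by
    have e0 : ∀ᶠ A in 𝓝 A0, A ∈ U := hU.mem_nhds h1U
    refine e0.and (Filter.Eventually.and ?_ (Filter.Eventually.and ?_ ?_))
    · exact Filter.eventually_all.2 fun x => hbd _ (hqc x)
    · exact Filter.eventually_all.2 fun x => hbd _ (hqd x)
    · exact Filter.eventually_all.2 fun p => hbd _ (hddc p)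
  obtain ⟨Nn, hNn⟩ : ∃ Nn : ℝ, Nn = ∑ p, (|dd p A0| + 1) := ⟨_, rfl⟩
  have hNn0 : 0 ≤ Nn := by
    rw [hNn]
    exact Finset.sum_nonneg fun p _ => by positivity
  refine ⟨∑ x, ((|q x A0| + 1) + (|fderiv ℝ (q x) A0 u| + 1) + (|q x A0| + 1) * Nn),
    Finset.sum_nonneg fun x _ => by positivity, _, ev, ?_⟩
  rintro A ⟨hAU, hA1, hA2, hA3⟩ m ε hε hm hT
  obtain ⟨κ, hκ⟩ : ∃ κ : PD n → Fm n, κ = fun p => m p - gF p := ⟨_, rfl⟩
  have hκs : CmF ∞ κ := by
    rw [hκ]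
    exact H5_Rdiff m hm
  rw [← hκ] at hT
  have hL : HasFDerivAt (fun B => (s B).1) (fderiv ℝ (fun B => (s B).1) A) A :=
    ((hsm.contDiffAt (hU.mem_nhds hAU)).differentiableAt (by simp)).hasFDerivAt
  have hjet := fun x : (Fin n × Fin n) × (Fin n × Fin n) =>
    H5_jet (Jf κ (H5_RP x.1.1 x.1.2) (H5_RP x.2.1 x.2.2)) (sg_jf κ hκs _ _) ε
      (hT _ _ (H5_Rsym hn _) (H5_Rsym hn _) (H5_Rbox hn _ _) (H5_Rbox hn _ _)) s A _ hL
  choose hj0 Lx hLx hLb using hjet
  have hrep : ∀ B ∈ U, prodm m B v w - prodm gF B v w =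
      ∑ x, q x B * Jf κ (H5_RP x.1.1 x.1.2) (H5_RP x.2.1 x.2.2) (s B) := by
    intro B hB
    have hAP : B ∈ PU n := hUP hB
    have hd : DifferentiableAt ℝ (fun B : Mt n => (ret B).1) B :=
      ((ret_smooth (m := 1)).contDiffAt (PU_open.mem_nhds hAP)).differentiableAt one_ne_zero
    have htan : ∀ u, IsTan (act (s B) (o n)) (fderiv ℝ (fun B : Mt n => (ret B).1) B u) := by
      intro u
      rw [hact B hB]
      exact tan_fderiv _ B hd u
    have hv1 := H5_Rtan (s B) _ (htan v)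
    have hw1 := H5_Rtan (s B) _ (htan w)
    have e1 := H5_Rbil κ (c v B) (c w B) (by rw [hcdef]; exact hv1.1) (by rw [hcdef]; exact hw1.1)
      (s B)
    have e2 : Jf κ (c v B) (c w B) (s B) = prodm m B v w - prodm gF B v w := by
      unfold Jf
      rw [hcdef, hcdef, hv1.2, hw1.2, hact B hB]
      unfold prodm
      rw [hκ]
      simp only [LinearMap.sub_apply]
      ring
    rw [← e2, e1]
    refine Finset.sum_congr rfl fun x _ => ?_
    rw [hqdef]
  have hqF : ∀ x, HasFDerivAt (q x) (fderiv ℝ (q x) A) A := fun x =>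
    (((hq x).contDiffAt (hU.mem_nhds hAU)).differentiableAt (by simp)).hasFDerivAt
  have hder : HasFDerivAt (fun B => prodm m B v w - prodm gF B v w)
      (∑ x, (q x A • Lx x + Jf κ (H5_RP x.1.1 x.1.2) (H5_RP x.2.1 x.2.2) (s A) •
        fderiv ℝ (q x) A)) A := by
    have h1 : HasFDerivAt (fun B => ∑ x, q x B *
        Jf κ (H5_RP x.1.1 x.1.2) (H5_RP x.2.1 x.2.2) (s B))
        (∑ x, (q x A • Lx x + Jf κ (H5_RP x.1.1 x.1.2) (H5_RP x.2.1 x.2.2) (s A) •
          fderiv ℝ (q x) A)) A :=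
      HasFDerivAt.fun_sum fun x _ => (hqF x).mul (hLx x)
    refine h1.congr_of_eventuallyEq ?_
    filter_upwards [hU.mem_nhds hAU] with B hB
    exact hrep B hB
  have hLu : ∀ x, |Lx x u| ≤ Nn * ε := by
    intro x
    refine (hLb x u).trans (mul_le_mul_of_nonneg_right ?_ hε)
    rw [hNn]
    refine Finset.sum_le_sum fun p _ => ?_
    have h1 := hA3 p
    rw [hdd p A] at h1
    exact h1
  refine ⟨hder.differentiableAt, ?_, ?_⟩
  · rw [hrep A hAU, Finset.sum_mul]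
    refine (Finset.abs_sum_le_sum_abs _ _).trans (Finset.sum_le_sum fun x _ => ?_)
    rw [abs_mul]
    have h1 : |q x A| * |Jf κ (H5_RP x.1.1 x.1.2) (H5_RP x.2.1 x.2.2) (s A)| ≤
        (|q x A0| + 1) * ε := mul_le_mul (hA1 x) (hj0 x) (abs_nonneg _) (by positivity)
    have h2 : 0 ≤ (|fderiv ℝ (q x) A0 u| + 1) * ε := by positivity
    have h3 : 0 ≤ (|q x A0| + 1) * Nn * ε := by positivity
    linarith
  · rw [hder.fderiv, _root_.sum_apply, Finset.sum_mul]
    refine (Finset.abs_sum_le_sum_abs _ _).trans (Finset.sum_le_sum fun x _ => ?_)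
    rw [_root_.add_apply, _root_.smul_apply,
      _root_.smul_apply, smul_eq_mul, smul_eq_mul]
    refine (abs_add_le _ _).trans ?_
    rw [abs_mul, abs_mul]
    have h1 : |q x A| * |Lx x u| ≤ (|q x A0| + 1) * (Nn * ε) :=
      mul_le_mul (hA1 x) (hLu x) (abs_nonneg _) (by positivity)
    have h2 : |Jf κ (H5_RP x.1.1 x.1.2) (H5_RP x.2.1 x.2.2) (s A)| * |fderiv ℝ (q x) A u| ≤
        ε * (|fderiv ℝ (q x) A0 u| + 1) := mul_le_mul (hj0 x) (hA2 x) (abs_nonneg _) hε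
    have h3 : 0 ≤ (|q x A0| + 1) * ε := by positivity
    linarith

private theorem H5_cpt {n : ℕ} (hn : 1 ≤ n) (Q : Set (Mt n)) (hQ : IsCompact Q)
    (hQP : Q ⊆ PU n) (v w u : Mt n) :
    ∃ K : ℝ, 0 ≤ K ∧ ∀ A ∈ Q, ∀ (m : PD n → Fm n) (ε : ℝ), 0 ≤ ε → CmF ∞ m →
      TB 3 ε (fun p => m p - gF p) →
        DifferentiableAt ℝ (fun B => prodm m B v w - prodm gF B v w) A ∧
        |prodm m A v w - prodm gF A v w| ≤ K * ε ∧
        |fderiv ℝ (fun B => prodm m B v w - prodm gF B v w) A u| ≤ K * ε := by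
  refine hQ.induction_on (p := fun S => ∃ K : ℝ, 0 ≤ K ∧ ∀ A ∈ S, ∀ (m : PD n → Fm n) (ε : ℝ),
      0 ≤ ε → CmF ∞ m → TB 3 ε (fun p => m p - gF p) →
        DifferentiableAt ℝ (fun B => prodm m B v w - prodm gF B v w) A ∧
        |prodm m A v w - prodm gF A v w| ≤ K * ε ∧
        |fderiv ℝ (fun B => prodm m B v w - prodm gF B v w) A u| ≤ K * ε) ?_ ?_ ?_ ?_
  · exact ⟨0, le_rfl, fun A hA => absurd hA (Set.notMem_empty A)⟩
  · rintro S T hST ⟨K, hK, h⟩
    exact ⟨K, hK, fun A hA => h A (hST hA)⟩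
  · rintro S T ⟨K, hK, h⟩ ⟨K', hK', h'⟩
    refine ⟨K + K', add_nonneg hK hK', ?_⟩
    rintro A (hA | hA) m ε hε hm hT
    · obtain ⟨h1, h2, h3⟩ := h A hA m ε hε hm hT
      have h4 : 0 ≤ K' * ε := mul_nonneg hK' hε
      exact ⟨h1, by linarith, by linarith⟩
    · obtain ⟨h1, h2, h3⟩ := h' A hA m ε hε hm hT
      have h4 : 0 ≤ K * ε := mul_nonneg hK hε
      exact ⟨h1, by linarith, by linarith⟩
  · intro A0 hA0
    obtain ⟨K, hK, N, hN, h⟩ := H5_loc hn v w u A0 (hQP hA0)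
    exact ⟨N, mem_nhdsWithin_of_mem_nhds hN, K, hK, h⟩

private theorem H5_expand {n : ℕ} (v : Mt n) :
    v = ∑ p : Fin n × Fin n, v p.1 p.2 • (Matrix.single p.1 p.2 (1 : ℝ) : Mt n) := by
  rw [Fintype.sum_prod_type]
  conv_lhs => rw [Matrix.matrix_eq_sum_single v]
  refine Finset.sum_congr rfl fun a _ => Finset.sum_congr rfl fun b _ => ?_
  rw [Matrix.smul_single, smul_eq_mul, mul_one]

private theorem H5_bil {n : ℕ} (m : PD n → Fm n) (B v w : Mt n) :
    prodm m B v w - prodm gF B v w = ∑ a : Fin n × Fin n, ∑ b : Fin n × Fin n,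
      (v a.1 a.2 * w b.1 b.2) * (prodm m B (Matrix.single a.1 a.2 (1 : ℝ))
        (Matrix.single b.1 b.2 (1 : ℝ)) - prodm gF B (Matrix.single a.1 a.2 (1 : ℝ))
        (Matrix.single b.1 b.2 (1 : ℝ))) := by
  have h : ∀ v w : Mt n, prodm m B v w - prodm gF B v w = (m (ret B) - gF (ret B))
      (fderiv ℝ (fun B : Mt n => (ret B).1) B v) (fderiv ℝ (fun B : Mt n => (ret B).1) B w) := by
    intro v w
    unfold prodm
    simp only [LinearMap.sub_apply]
    ring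
  simp only [h]
  conv_lhs => rw [H5_expand v, H5_expand w]
  simp only [map_sum, map_smul, LinearMap.sum_apply, LinearMap.smul_apply, smul_eq_mul]
  rw [Finset.sum_comm (s := (Finset.univ : Finset (Fin n × Fin n)))]
  refine Finset.sum_congr rfl fun a _ => ?_
  rw [Finset.mul_sum]
  refine Finset.sum_congr rfl fun b _ => ?_
  ring

/-- Row H5. The product metric of a form close to `g` is close to that of `g` in `C¹` on compact sets. PLAN.
Compare `prodm_jb` (CR5): near `A0` with a smooth section `s` (`sec_loc`, CS1; or `s = tch ∘ ret`)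
`prodm m A v w - prodm gF A v w = Jf (m - gF) (V A) (W A) (s A)`, `V A = (s A)⁻¹ (D ret(A) v) (s A)⁻ᵀ`; `BD 1` bounds the
function and its derivative along `s` (`rd_frechet`, CS0); cover `Q` by finitely many. -/
theorem prodm_c1 {n : ℕ} (hn : 1 ≤ n) (Q : Set (Mt n)) (hQ : IsCompact Q) (hQP : Q ⊆ PU n) :
    ∃ K : ℝ, 0 < K ∧ ∀ (m : PD n → Fm n) (ε : ℝ), 0 ≤ ε → CmF ∞ m → (∀ p v w, m p v w = m p w v) →
      TB 3 ε (fun p => m p - gF p) → ∀ A ∈ Q, ∀ v w u : Mt n,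
        |prodm m A v w - prodm gF A v w| ≤ K * ε * (‖v‖ * ‖w‖) ∧
        |fderiv ℝ (fun B => prodm m B v w - prodm gF B v w) A u| ≤ K * ε * (‖u‖ * ‖v‖ * ‖w‖) := by
  classical
  have hch := fun a b c : Fin n × Fin n => H5_cpt hn Q hQ hQP (Matrix.single a.1 a.2 (1 : ℝ))
    (Matrix.single b.1 b.2 (1 : ℝ)) (Matrix.single c.1 c.2 (1 : ℝ))
  choose K hK0 hK using hch
  have hS0 : 0 ≤ ∑ a, ∑ b, ∑ c, K a b c :=
    Finset.sum_nonneg fun a _ => Finset.sum_nonneg fun b _ => Finset.sum_nonneg fun c _ => hK0 a b c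
  refine ⟨(∑ a, ∑ b, ∑ c, K a b c) + 1, by linarith, ?_⟩
  intro m ε hε hm _ hT A hA v w u
  have hent : ∀ (v : Mt n) (p : Fin n × Fin n), |v p.1 p.2| ≤ ‖v‖ := fun v p =>
    Matrix.norm_entry_le_entrywise_sup_norm v
  have c0 : Fin n × Fin n := (⟨0, hn⟩, ⟨0, hn⟩)
  constructor
  · rw [H5_bil]
    refine (Finset.abs_sum_le_sum_abs _ _).trans ?_
    have h1 : ∀ a ∈ (Finset.univ : Finset (Fin n × Fin n)), |∑ b : Fin n × Fin n,
        (v a.1 a.2 * w b.1 b.2) * (prodm m A (Matrix.single a.1 a.2 (1 : ℝ))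
        (Matrix.single b.1 b.2 (1 : ℝ)) - prodm gF A (Matrix.single a.1 a.2 (1 : ℝ))
        (Matrix.single b.1 b.2 (1 : ℝ)))| ≤ (∑ b, ∑ c, K a b c) * (ε * (‖v‖ * ‖w‖)) := by
      intro a _
      refine (Finset.abs_sum_le_sum_abs _ _).trans ?_
      rw [Finset.sum_mul]
      refine Finset.sum_le_sum fun b _ => ?_
      rw [abs_mul, abs_mul]
      have h2 := (hK a b c0 A hA m ε hε hm hT).2.1
      have h3 : K a b c0 ≤ ∑ c, K a b c :=
        Finset.single_le_sum (f := fun c => K a b c) (fun c _ => hK0 a b c) (Finset.mem_univ c0)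
      have h4 : |v a.1 a.2| * |w b.1 b.2| ≤ ‖v‖ * ‖w‖ :=
        mul_le_mul (hent v a) (hent w b) (abs_nonneg _) (norm_nonneg _)
      calc _ ≤ (‖v‖ * ‖w‖) * (K a b c0 * ε) :=
            mul_le_mul h4 h2 (abs_nonneg _) (by positivity)
        _ ≤ (‖v‖ * ‖w‖) * ((∑ c, K a b c) * ε) := by
            refine mul_le_mul_of_nonneg_left (mul_le_mul_of_nonneg_right h3 hε) (by positivity)
        _ = _ := by ring
    refine (Finset.sum_le_sum h1).trans ?_
    rw [← Finset.sum_mul]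
    have h5 : 0 ≤ ε * (‖v‖ * ‖w‖) := by positivity
    linarith
  · have hfun : (fun B => prodm m B v w - prodm gF B v w) = fun B => ∑ a : Fin n × Fin n,
        ∑ b : Fin n × Fin n, (v a.1 a.2 * w b.1 b.2) *
          (prodm m B (Matrix.single a.1 a.2 (1 : ℝ)) (Matrix.single b.1 b.2 (1 : ℝ)) -
            prodm gF B (Matrix.single a.1 a.2 (1 : ℝ)) (Matrix.single b.1 b.2 (1 : ℝ))) := by
      funext B
      exact H5_bil m B v w
    have hd : ∀ a b : Fin n × Fin n, DifferentiableAt ℝ (fun B =>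
        prodm m B (Matrix.single a.1 a.2 (1 : ℝ)) (Matrix.single b.1 b.2 (1 : ℝ)) -
          prodm gF B (Matrix.single a.1 a.2 (1 : ℝ)) (Matrix.single b.1 b.2 (1 : ℝ))) A :=
      fun a b => (hK a b c0 A hA m ε hε hm hT).1
    have hder : HasFDerivAt (fun B => ∑ a : Fin n × Fin n,
        ∑ b : Fin n × Fin n, (v a.1 a.2 * w b.1 b.2) *
          (prodm m B (Matrix.single a.1 a.2 (1 : ℝ)) (Matrix.single b.1 b.2 (1 : ℝ)) -
            prodm gF B (Matrix.single a.1 a.2 (1 : ℝ)) (Matrix.single b.1 b.2 (1 : ℝ))))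
        (∑ a : Fin n × Fin n, ∑ b : Fin n × Fin n, (v a.1 a.2 * w b.1 b.2) •
          fderiv ℝ (fun B => prodm m B (Matrix.single a.1 a.2 (1 : ℝ))
            (Matrix.single b.1 b.2 (1 : ℝ)) - prodm gF B (Matrix.single a.1 a.2 (1 : ℝ))
            (Matrix.single b.1 b.2 (1 : ℝ))) A) A :=
      HasFDerivAt.fun_sum fun a _ => HasFDerivAt.fun_sum fun b _ =>
        (hd a b).hasFDerivAt.const_mul _
    rw [hfun, hder.fderiv, _root_.sum_apply]
    refine (Finset.abs_sum_le_sum_abs _ _).trans ?_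
    have h1 : ∀ a ∈ (Finset.univ : Finset (Fin n × Fin n)), |(∑ b : Fin n × Fin n,
        (v a.1 a.2 * w b.1 b.2) • fderiv ℝ (fun B => prodm m B (Matrix.single a.1 a.2 (1 : ℝ))
            (Matrix.single b.1 b.2 (1 : ℝ)) - prodm gF B (Matrix.single a.1 a.2 (1 : ℝ))
            (Matrix.single b.1 b.2 (1 : ℝ))) A) u| ≤
          (∑ b, ∑ c, K a b c) * (ε * (‖u‖ * ‖v‖ * ‖w‖)) := by
      intro a _
      rw [_root_.sum_apply, Finset.sum_mul]
      refine (Finset.abs_sum_le_sum_abs _ _).trans (Finset.sum_le_sum fun b _ => ?_)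
      rw [_root_.smul_apply, smul_eq_mul, abs_mul, abs_mul]
      have h4 : |v a.1 a.2| * |w b.1 b.2| ≤ ‖v‖ * ‖w‖ :=
        mul_le_mul (hent v a) (hent w b) (abs_nonneg _) (norm_nonneg _)
      have h5 : |fderiv ℝ (fun B => prodm m B (Matrix.single a.1 a.2 (1 : ℝ))
            (Matrix.single b.1 b.2 (1 : ℝ)) - prodm gF B (Matrix.single a.1 a.2 (1 : ℝ))
            (Matrix.single b.1 b.2 (1 : ℝ))) A u| ≤ (∑ c, K a b c) * ε * ‖u‖ := by
        conv_lhs => rw [H5_expand u]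
        rw [map_sum]
        refine (Finset.abs_sum_le_sum_abs _ _).trans ?_
        rw [Finset.sum_mul, Finset.sum_mul]
        refine Finset.sum_le_sum fun c _ => ?_
        rw [map_smul, smul_eq_mul, abs_mul, mul_comm]
        exact mul_le_mul (hK a b c A hA m ε hε hm hT).2.2 (hent u c) (abs_nonneg _)
          (mul_nonneg (hK0 a b c) hε)
      calc _ ≤ (‖v‖ * ‖w‖) * ((∑ c, K a b c) * ε * ‖u‖) :=
            mul_le_mul h4 h5 (abs_nonneg _) (by positivity)
        _ = _ := by ring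
    refine (Finset.sum_le_sum h1).trans ?_
    rw [← Finset.sum_mul]
    have h5 : 0 ≤ ε * (‖u‖ * ‖v‖ * ‖w‖) := by positivity
    linarith

end FL27
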