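import Mathlib

set_option autoImplicit false
set_option maxSynthPendingDepth 3


open Topology Filter
open scoped ContDiff

namespace FL27

/-- Row H7. Landau inequality (Mathlib only). PLAN. Taylor along the segment `x + s v`, `‖v‖ = 1`. -/
theorem landau {E F : Type} [NormedAddCommGroup E] [NormedSpace ℝ E] [NormedAddCommGroup F]
    [NormedSpace ℝ F] (f : E → F) (x : E) (r A B : ℝ) (hr : 0 < r)
    (hf : ContDiffOn ℝ 2 f (Metric.ball x r)) (hA : ∀ y ∈ Metric.ball x r, ‖f y‖ ≤ A)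
    (hB : ∀ y ∈ Metric.ball x r, ‖fderiv ℝ (fderiv ℝ f) y‖ ≤ B) (s : ℝ) (hs : 0 < s) (hsr : s < r) :
    ‖fderiv ℝ f x‖ ≤ 2 * A / s + B * s := by
  have hx : x ∈ Metric.ball x r := Metric.mem_ball_self hr
  have hA0 : 0 ≤ A := le_trans (norm_nonneg _) (hA x hx)
  have hB0 : 0 ≤ B := le_trans (norm_nonneg _) (hB x hx)
  have hcd : ∀ y ∈ Metric.ball x r, ContDiffAt ℝ 2 f y := fun y hy =>
    hf.contDiffAt (Metric.isOpen_ball.mem_nhds hy)
  have hd1 : ∀ y ∈ Metric.ball x r, DifferentiableAt ℝ f y := fun y hy =>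
    (hcd y hy).differentiableAt (by norm_num)
  have hd2 : ∀ y ∈ Metric.ball x r, DifferentiableAt ℝ (fderiv ℝ f) y := fun y hy =>
    ((hcd y hy).fderiv_right (m := 1) (by norm_num)).differentiableAt (by norm_num)
  have hsub : Metric.closedBall x s ⊆ Metric.ball x r := Metric.closedBall_subset_ball hsr
  have h1 : ∀ y ∈ Metric.closedBall x s, ‖fderiv ℝ f y - fderiv ℝ f x‖ ≤ B * s := by
    intro y hy
    have h2 := (convex_ball x r).norm_image_sub_le_of_norm_hasFDerivWithin_le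
      (f := fderiv ℝ f) (f' := fderiv ℝ (fderiv ℝ f)) (C := B)
      (fun z hz => (hd2 z hz).hasFDerivAt.hasFDerivWithinAt) hB hx (hsub hy)
    have h3 : ‖y - x‖ ≤ s := by
      rw [← dist_eq_norm]
      exact hy
    exact le_trans h2 (mul_le_mul_of_nonneg_left h3 hB0)
  refine ContinuousLinearMap.opNorm_le_of_unit_norm (by positivity) ?_
  intro v hv
  have hsv : ‖s • v‖ = s := by rw [norm_smul, hv, Real.norm_of_nonneg hs.le, mul_one]
  have hy : x + s • v ∈ Metric.closedBall x s := by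
    rw [Metric.mem_closedBall, dist_eq_norm, add_sub_cancel_left, hsv]
  have hxc : x ∈ Metric.closedBall x s := Metric.mem_closedBall_self hs.le
  have h4 := (convex_closedBall x s).norm_image_sub_le_of_norm_hasFDerivWithin_le'
    (f := f) (f' := fderiv ℝ f) (φ := fderiv ℝ f x) (C := B * s)
    (fun z hz => (hd1 z (hsub hz)).hasFDerivAt.hasFDerivWithinAt) h1 hxc hy
  rw [add_sub_cancel_left, hsv] at h4
  have h5 : s * ‖fderiv ℝ f x v‖ ≤ 2 * A + B * s * s := by
    have e1 : ‖fderiv ℝ f x (s • v)‖ = s * ‖fderiv ℝ f x v‖ := by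
      rw [map_smul, norm_smul, Real.norm_of_nonneg hs.le]
    rw [← e1]
    have e2 : fderiv ℝ f x (s • v) =
        (f (x + s • v) - f x) - (f (x + s • v) - f x - fderiv ℝ f x (s • v)) := by abel
    rw [e2]
    have e3 : ‖f (x + s • v) - f x‖ ≤ A + A :=
      le_trans (norm_sub_le _ _) (add_le_add (hA _ (hsub hy)) (hA _ hx))
    calc ‖(f (x + s • v) - f x) - (f (x + s • v) - f x - fderiv ℝ f x (s • v))‖
        ≤ ‖f (x + s • v) - f x‖ + ‖f (x + s • v) - f x - fderiv ℝ f x (s • v)‖ :=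
          norm_sub_le _ _
      _ ≤ 2 * A + B * s * s := by linarith
  have h6 : 2 * A / s + B * s = (2 * A + B * s * s) / s := by field_simp
  rw [h6, le_div_iff₀ hs]
  linarith

end FL27
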