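import Pool.Agent.LibFL27.MD

set_option autoImplicit false

open MeasureTheory ProbabilityTheory Topology Filter
open scoped NNReal

namespace FLM

/-- Row MA1. Gaussian measures on `ℝ²` (Mathlib: `gaussianReal_conv_gaussianReal`,
`gaussianReal_map_neg`, `gaussianReal_map_const_mul`, `gaussianReal_zero_var`, products
`Measure.map_prod_map`; `Measure.conv` is the push forward of the product under addition; one can also
compare characteristic functions). `E`-valued bounded continuous functions. -/
theorem gg_facts : (∀ s t, IsProbabilityMeasure (gg s t)) ∧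
    (∀ s t, (gg s t).map (fun p => -p) = gg s t) ∧
    (∀ (s t : ℝ≥0) (c d : ℝ), (gg s t).map (fun p => (c * p.1, d * p.2)) =
      gg (⟨c ^ 2, sq_nonneg c⟩ * s) (⟨d ^ 2, sq_nonneg d⟩ * t)) ∧
    (gg 0 0 = Measure.dirac 0) ∧
    (∀ s t s' t', ((gg s t).prod (gg s' t')).map (fun q => q.1 + q.2) = gg (s + s') (t + t')) := by
  have hprob : ∀ s t, IsProbabilityMeasure (gg s t) := by
    intro s t
    unfold gg
    infer_instance
  refine ⟨hprob, ?_, ?_, ?_, ?_⟩
  · intro s t
    have h := Measure.map_prod_map (f := fun x : ℝ => -x) (g := fun x : ℝ => -x)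
      (gaussianReal 0 s) (gaussianReal 0 t) measurable_neg measurable_neg
    rw [gaussianReal_map_neg, gaussianReal_map_neg, neg_zero] at h
    unfold gg
    exact h.symm
  · intro s t c d
    have h := Measure.map_prod_map (f := fun x : ℝ => c * x) (g := fun x : ℝ => d * x)
      (gaussianReal 0 s) (gaussianReal 0 t) (measurable_const_mul c) (measurable_const_mul d)
    rw [gaussianReal_map_const_mul, gaussianReal_map_const_mul, mul_zero, mul_zero] at h
    unfold gg
    exact h.symm
  · unfold gg
    rw [gaussianReal_zero_var, Measure.dirac_prod_dirac]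
    rfl
  · intro s t s' t'
    have := hprob s t
    have := hprob s' t'
    have := hprob (s + s') (t + t')
    change (gg s t) ∗ (gg s' t') = gg (s + s') (t + t')
    refine Measure.ext_of_charFunDual ?_
    ext L
    rw [charFunDual_conv]
    unfold gg
    rw [charFunDual_prod, charFunDual_prod, charFunDual_prod,
      ← zero_add (0 : ℝ), ← gaussianReal_conv_gaussianReal, ← gaussianReal_conv_gaussianReal,
      charFunDual_conv, charFunDual_conv, zero_add]
    ring

end FLM
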