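import Pool.Agent.LibFL27.MA9

set_option autoImplicit false

open MeasureTheory ProbabilityTheory Topology Filter
open scoped NNReal

namespace FLM

private theorem ma10_cont {H : Type*} [NormedAddCommGroup H] [InnerProductSpace ℝ H]
    [CompleteSpace H] (ρ : ℝ × ℝ → H →L[ℝ] H) (hρ : Rep2 ρ) (s t : ℝ≥0) :
    Continuous fun f : H => Gf ρ s t f := by
  obtain ⟨hadd, hsmul, -, hcon, -⟩ := Gf_facts ρ hρ
  have h : LipschitzWith 1 (fun f : H => Gf ρ s t f) := LipschitzWith.of_dist_le_mul fun x y => by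
    rw [dist_eq_norm, dist_eq_norm, NNReal.coe_one, one_mul]
    have h1 : Gf ρ s t x - Gf ρ s t y = Gf ρ s t (x - y) := by
      have h2 := hadd s t x ((-1 : ℝ) • y)
      rw [hsmul, neg_one_smul, neg_one_smul, ← sub_eq_add_neg, ← sub_eq_add_neg] at h2
      exact h2.symm
    rw [h1]
    exact hcon s t _
  exact h.continuous

/-- Row MA10 (cone estimate). With `θ₀ = a^(1/6) ≤ 1`: by MA8 `B(f,f) ≤ 2 B(K θ f, K θ f) + 2 L² θ²`;
integrate over `[0, θ₀] ⊆ [-π, π]` (the integrand of MA9 is nonnegative and continuous in `θ`):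
`θ₀ B(f,f) ≤ 80 √a ‖f‖² + θ₀³ L²`. -/
theorem cone_bd {H : Type*} [NormedAddCommGroup H] [InnerProductSpace ℝ H] [CompleteSpace H]
    (ρ : ℝ × ℝ → H →L[ℝ] H) (hρ : Rep2 ρ) (K : ℝ → H →L[ℝ] H) (hK : ∀ θ f, ‖K θ f‖ = ‖f‖)
    (hKc : ∀ f, Continuous fun θ => K θ f)
    (hKρ : ∀ θ p f, ρ (Rt θ p) (K θ f) = K θ (ρ p f)) (a r : ℝ≥0) (ha : 0 < a) (ha1 : a ≤ 1)
    (hr : 0 < r) (N : ℕ) (f : H) (L : ℝ) (hL : ∀ θ, ‖K θ f - f‖ ≤ L * |θ|) :
    Bf ρ a r N f f ≤ 80 * (a : ℝ) ^ ((1 : ℝ) / 3) * (‖f‖ ^ 2 + L ^ 2) := by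
  obtain ⟨hB0, -, -, hB2⟩ := Bf_facts ρ hρ a r N
  have havg := Bf_avg ρ hρ K hK hKc hKρ a r ha ha1 hr N f
  have hgc : Continuous fun θ => Bf ρ a r N (K θ f) (K θ f) := by
    unfold Bf
    refine continuous_finsetSum _ fun j _ => Continuous.sub ?_ ?_
    · exact ((ma10_cont ρ hρ _ _).comp (hKc f)).inner (hKc f)
    · exact ((ma10_cont ρ hρ _ _).comp (hKc f)).inner (hKc f)
  generalize hg : (fun θ => Bf ρ a r N (K θ f) (K θ f)) = g at hgc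
  have hgθ : ∀ θ, Bf ρ a r N (K θ f) (K θ f) = g θ := fun θ => by rw [← hg]
  simp only [hgθ] at havg
  have hg0 : ∀ θ, 0 ≤ g θ := fun θ => by rw [← hgθ]; exact hB0 _
  have ha0 : (0 : ℝ) < (a : ℝ) := by exact_mod_cast ha
  have ha1' : (a : ℝ) ≤ 1 := by exact_mod_cast ha1
  obtain ⟨t, ht0, ht1, ht3, ht2⟩ : ∃ t : ℝ, 0 < t ∧ t ≤ 1 ∧ √ (a : ℝ) = t ^ 3 ∧
      (a : ℝ) ^ ((1 : ℝ) / 3) = t ^ 2 := by
    refine ⟨(a : ℝ) ^ ((1 : ℝ) / 6), Real.rpow_pos_of_pos ha0 _,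
      Real.rpow_le_one ha0.le ha1' (by norm_num), ?_, ?_⟩
    · rw [Real.sqrt_eq_rpow, ← Real.rpow_natCast, ← Real.rpow_mul ha0.le]
      norm_num
    · rw [← Real.rpow_natCast, ← Real.rpow_mul ha0.le]
      norm_num
  rw [ht3] at havg
  rw [ht2]
  have hpi : (1 : ℝ) ≤ Real.pi := by have := Real.pi_gt_three; linarith
  have h1 : ∀ θ : ℝ, Bf ρ a r N f f ≤ 2 * g θ + 2 * L ^ 2 * θ ^ 2 := by
    intro θ
    have e1 := hB2 f (K θ f)
    rw [hgθ, ← norm_neg, neg_sub] at e1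
    have e2 : ‖K θ f - f‖ ^ 2 ≤ (L * |θ|) ^ 2 := pow_le_pow_left₀ (norm_nonneg _) (hL θ) 2
    rw [mul_pow, sq_abs] at e2
    linarith
  have h2 : ∫ _ in (0 : ℝ)..t, Bf ρ a r N f f ≤ ∫ θ in (0 : ℝ)..t, (2 * g θ + 2 * L ^ 2 * θ ^ 2) := by
    refine intervalIntegral.integral_mono_on ht0.le intervalIntegrable_const ?_ fun θ _ => h1 θ
    exact Continuous.intervalIntegrable (by fun_prop) _ _
  rw [intervalIntegral.integral_const, smul_eq_mul, sub_zero,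
    intervalIntegral.integral_add (Continuous.intervalIntegrable (by fun_prop) _ _)
      (Continuous.intervalIntegrable (by fun_prop) _ _),
    intervalIntegral.integral_const_mul, intervalIntegral.integral_const_mul, integral_pow] at h2
  have h3 : ∫ θ in (0 : ℝ)..t, g θ ≤ ∫ θ in (-Real.pi)..Real.pi, g θ := by
    refine intervalIntegral.integral_mono_interval (by linarith) ht0.le (by linarith) ?_
      (hgc.intervalIntegrable _ _)
    exact Filter.Eventually.of_forall hg0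
  have h4 : t * Bf ρ a r N f f ≤ t * (80 * t ^ 2 * (‖f‖ ^ 2 + L ^ 2)) := by
    have h5 : (t ^ (2 + 1) - 0 ^ (2 + 1)) / ((2 : ℕ) + 1 : ℝ) = t ^ 3 / 3 := by norm_num
    rw [h5] at h2
    have h6 : 0 ≤ L ^ 2 * t ^ 3 := by positivity
    have h7 : 2 * ∫ θ in (0 : ℝ)..t, g θ ≤ 2 * (40 * t ^ 3 * ‖f‖ ^ 2) := by
      have := h3.trans havg
      linarith
    calc t * Bf ρ a r N f f ≤ 2 * (40 * t ^ 3 * ‖f‖ ^ 2) + 2 * L ^ 2 * (t ^ 3 / 3) := by linarith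
      _ ≤ 80 * t ^ 3 * ‖f‖ ^ 2 + 80 * (L ^ 2 * t ^ 3) := by linarith
      _ = t * (80 * t ^ 2 * (‖f‖ ^ 2 + L ^ 2)) := by ring
  exact le_of_mul_le_mul_left h4 ht0

end FLM
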