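import Pool.Agent.LibFL27.MA10

set_option autoImplicit false

open MeasureTheory ProbabilityTheory Topology Filter
open scoped NNReal

namespace FLM

private theorem MA11_adj {H : Type*} [NormedAddCommGroup H] [InnerProductSpace ℝ H]
    (D D' : H →L[ℝ] H) (hD : ∀ f, ‖D f‖ = ‖f‖) (hDD : ∀ f, D (D' f) = f) :
    (∀ x y, inner ℝ (D x) y = inner ℝ x (D' y)) ∧ ∀ y, ‖D' y‖ = ‖y‖ := by
  constructor
  · intro x y
    have h1 : inner ℝ (D x) (D (D' y)) = inner ℝ x (D' y) :=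
      LinearIsometry.inner_map_map (⟨D.toLinearMap, hD⟩ : H →ₗᵢ[ℝ] H) x (D' y)
    rwa [hDD] at h1
  · intro y
    rw [← hD, hDD]

private theorem MA11_swap {H : Type*} [NormedAddCommGroup H] [InnerProductSpace ℝ H]
    (ρ : ℝ × ℝ → H →L[ℝ] H) (s t : ℝ≥0) (f : H) :
    Gf (fun p => ρ p.swap) s t f = Gf ρ t s f := by
  unfold Gf gg
  exact integral_prod_swap (μ := gaussianReal 0 t) (ν := gaussianReal 0 s)
    (fun p : ℝ × ℝ => ρ p f)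

private theorem MA11_rep {H : Type*} [NormedAddCommGroup H] [InnerProductSpace ℝ H]
    (ρ : ℝ × ℝ → H →L[ℝ] H) (hρ : Rep2 ρ) : Rep2 (fun p => ρ p.swap) where
  zero := fun f => hρ.zero f
  add := fun p q f => hρ.add p.swap q.swap f
  iso := fun p f => hρ.iso p.swap f
  cont := fun f => (hρ.cont f).comp continuous_swap

private theorem MA11_symm {H : Type*} [NormedAddCommGroup H] [InnerProductSpace ℝ H]
    [CompleteSpace H] (ρ : ℝ × ℝ → H →L[ℝ] H) (hρ : Rep2 ρ) (a r : ℝ≥0) (N : ℕ) (f h : H) :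
    Bf ρ a r N f h = Bf ρ a r N h f := by
  obtain ⟨-, -, -, -, h5, -, -⟩ := Gf_facts ρ hρ
  unfold Bf
  refine Finset.sum_congr rfl fun j _ => ?_
  rw [h5, h5, real_inner_comm, real_inner_comm (Gf ρ (2 * a * (r * 2 ^ j)) (r * 2 ^ j) h)]

/-- from `B ≤ 80 a^(1/3) (x² + L²)`, `a ≤ e^(-w)`, to the square root -/
private theorem MA11_sqrt (B a x L w : ℝ) (ha : 0 ≤ a) (haw : a ≤ Real.exp (-w)) (hx : 0 ≤ x)
    (hL : 0 ≤ L) (hB : B ≤ 80 * a ^ ((1 : ℝ) / 3) * (x ^ 2 + L ^ 2)) :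
    √ B ≤ 9 * Real.exp (-w / 6) * (x + L) := by
  have h1 : a ^ ((1 : ℝ) / 3) ≤ Real.exp (-w / 6) ^ 2 := by
    calc a ^ ((1 : ℝ) / 3) ≤ Real.exp (-w) ^ ((1 : ℝ) / 3) :=
          Real.rpow_le_rpow ha haw (by norm_num)
      _ = Real.exp (-w / 6) ^ 2 := by
          rw [← Real.exp_mul, ← Real.exp_nat_mul]
          congr 1
          push_cast
          ring
  have h2 : (0 : ℝ) ≤ 9 * Real.exp (-w / 6) * (x + L) := by positivity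
  rw [Real.sqrt_le_left h2]
  refine hB.trans ?_
  have h3 : x ^ 2 + L ^ 2 ≤ (x + L) ^ 2 := by nlinarith [mul_nonneg hx hL]
  calc 80 * a ^ ((1 : ℝ) / 3) * (x ^ 2 + L ^ 2)
      ≤ 80 * Real.exp (-w / 6) ^ 2 * (x + L) ^ 2 := by
        apply mul_le_mul (by linarith) h3 (by positivity) (by positivity)
    _ ≤ (9 * Real.exp (-w / 6) * (x + L)) ^ 2 := by
        have h4 : (0 : ℝ) ≤ Real.exp (-w / 6) ^ 2 * (x + L) ^ 2 := by positivity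
        nlinarith

/-- Row MA11 (two cones). `D` is a linear isometry with inverse `D'` that scales the coordinates
by `e^(-α), e^(-β)`, `w = α - β ≥ 0`. Path `(σ_j, t_j) = (e^w 2^j, 2^j)`, `-J ≤ j ≤ J`; as
`G(σ_(-J), t_(-J)) D f1 → D f1` (MA4) and `G(σ_J, t_J) D f1 → 0` (hypothesis),
`⟨D f1, f2⟩ = lim_J (X_J + Y_J)`, `X_J = ∑_{-J ≤ j < J} ⟨(G(σ_j,t_j) - G(σ_(j+1),t_j)) D f1, f2⟩`,
`Y_J = ∑ ⟨(G(σ_(j+1),t_j) - G(σ_(j+1),t_(j+1))) D f1, f2⟩`. By MA4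
`X_J = B(ρ, a, r, 2J)(f1, D' f2)` with `r = e^(-2β) 2^(-J)`, `a = e^w e^(-2w) = e^(-w)`;
`Y_J = B(ρ', a', r', 2J)(D f1, f2)` for `ρ' p = ρ p.swap` (rotations `K' θ = K (-θ)`),
`r' = 2 e^w 2^(-J)`, `a' = e^(-w)/2`; symmetric, so `|X_J| ≤ √B(f1,f1) ‖f2‖`,
`|Y_J| ≤ √B'(f2,f2) ‖f1‖` (MA8), and MA10 twice. -/
theorem two_cones {H : Type*} [NormedAddCommGroup H] [InnerProductSpace ℝ H] [CompleteSpace H]
    (ρ : ℝ × ℝ → H →L[ℝ] H) (hρ : Rep2 ρ) (K : ℝ → H →L[ℝ] H) (hK : ∀ θ f, ‖K θ f‖ = ‖f‖)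
    (hKc : ∀ f, Continuous fun θ => K θ f)
    (hKρ : ∀ θ p f, ρ (Rt θ p) (K θ f) = K θ (ρ p f))
    (D D' : H →L[ℝ] H) (hD : ∀ f, ‖D f‖ = ‖f‖) (hDD : ∀ f, D (D' f) = f) (α β : ℝ) (hαβ : β ≤ α)
    (hDρ : ∀ p f, ρ p (D f) = D (ρ (Real.exp (-α) * p.1, Real.exp (-β) * p.2) f))
    (f₁ f₂ : H) (L₁ L₂ : ℝ) (hL₁ : ∀ θ, ‖K θ f₁ - f₁‖ ≤ L₁ * |θ|)
    (hL₂ : ∀ θ, ‖K θ f₂ - f₂‖ ≤ L₂ * |θ|)
    (hlim : ∀ s t : ℝ≥0, 0 < s → 0 < t →
      Tendsto (fun N : ℕ => Gf ρ (s * 2 ^ N) (t * 2 ^ N) (D f₁)) atTop (𝓝 0)) :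
    |inner ℝ (D f₁) f₂| ≤ 40 * Real.exp (-(α - β) / 6) * (‖f₁‖ + L₁) * (‖f₂‖ + L₂) := by
  obtain ⟨-, -, -, -, g5, -, g7⟩ := Gf_facts ρ hρ
  obtain ⟨c1, c2⟩ := Gf_cont ρ hρ
  obtain ⟨hadj, hD'⟩ := MA11_adj D D' hD hDD
  have hL1 : 0 ≤ L₁ := by
    have h := (norm_nonneg _).trans (hL₁ 1)
    rwa [abs_one, mul_one] at h
  have hL2 : 0 ≤ L₂ := by
    have h := (norm_nonneg _).trans (hL₂ 1)
    rwa [abs_one, mul_one] at h
  obtain ⟨w, hw⟩ : ∃ w : ℝ, w = α - β := ⟨_, rfl⟩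
  have hw0 : 0 ≤ w := by linarith
  obtain ⟨E, hE⟩ : ∃ E : ℝ≥0, (E : ℝ) = Real.exp w := ⟨⟨Real.exp w, (Real.exp_pos w).le⟩, rfl⟩
  obtain ⟨a, ha⟩ : ∃ a : ℝ≥0, (a : ℝ) = Real.exp (-w) :=
    ⟨⟨Real.exp (-w), (Real.exp_pos _).le⟩, rfl⟩
  have haE : a * E = 1 := by
    apply NNReal.coe_injective
    rw [NNReal.coe_mul, ha, hE, ← Real.exp_add, neg_add_cancel, Real.exp_zero, NNReal.coe_one]
  have hEpos : 0 < E := by
    rw [← NNReal.coe_pos, hE]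
    exact Real.exp_pos _
  have hapos : 0 < a := by
    rw [← NNReal.coe_pos, ha]
    exact Real.exp_pos _
  have ha1 : a ≤ 1 := by
    rw [← NNReal.coe_le_coe, ha, NNReal.coe_one, Real.exp_le_one_iff]
    linarith
  -- the numbers `c^2`, `d^2`
  obtain ⟨cc, hcc⟩ : ∃ cc : ℝ≥0, cc = ⟨Real.exp (-α) ^ 2, sq_nonneg _⟩ := ⟨_, rfl⟩
  obtain ⟨dd, hdd⟩ : ∃ dd : ℝ≥0, dd = ⟨Real.exp (-β) ^ 2, sq_nonneg _⟩ := ⟨_, rfl⟩
  have hddpos : 0 < dd := by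
    rw [← NNReal.coe_pos, hdd]
    exact pow_pos (Real.exp_pos _) 2
  have hcE : cc * E = a * dd := by
    apply NNReal.coe_injective
    rw [NNReal.coe_mul, NNReal.coe_mul, hE, ha, hcc, hdd]
    show Real.exp (-α) ^ 2 * Real.exp w = Real.exp (-w) * Real.exp (-β) ^ 2
    rw [← Real.exp_nat_mul, ← Real.exp_nat_mul, ← Real.exp_add, ← Real.exp_add, hw]
    congr 1
    push_cast
    ring
  have hG : ∀ s t : ℝ≥0, inner ℝ (Gf ρ s t (D f₁)) f₂ = inner ℝ (Gf ρ (cc * s) (dd * t) f₁) (D' f₂) := by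
    intro s t
    rw [c2 D (Real.exp (-α)) (Real.exp (-β)) hDρ s t f₁, hadj, hcc, hdd]
  obtain ⟨g, hg⟩ : ∃ g : ℝ≥0 → ℝ≥0 → ℝ, ∀ s t, g s t = inner ℝ (Gf ρ s t (D f₁)) f₂ :=
    ⟨_, fun _ _ => rfl⟩
  have hρ' : Rep2 (fun p => ρ p.swap) := MA11_rep ρ hρ
  obtain ⟨C, hC⟩ : ∃ C : ℝ, C = 9 * Real.exp (-w / 6) * (‖f₁‖ + L₁) * ‖f₂‖ +
    9 * Real.exp (-w / 6) * (‖f₂‖ + L₂) * ‖f₁‖ := ⟨_, rfl⟩
  -- the bound for every `J`
  have key : ∀ (τ : ℝ≥0) (N : ℕ), 0 < τ →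
      |g (E * (τ * 2 ^ 0)) (τ * 2 ^ 0) - g (E * (τ * 2 ^ N)) (τ * 2 ^ N)| ≤ C := by
    intro τ N hτ
    have e1 : g (E * (τ * 2 ^ 0)) (τ * 2 ^ 0) - g (E * (τ * 2 ^ N)) (τ * 2 ^ N) =
        Bf ρ a (dd * τ) N f₁ (D' f₂) +
          Bf (fun p => ρ p.swap) (a / 2) (2 * E * τ) N (D f₁) f₂ := by
      rw [← Finset.sum_range_sub' (fun i => g (E * (τ * 2 ^ i)) (τ * 2 ^ i)) N]
      unfold Bf
      rw [← Finset.sum_add_distrib]
      refine Finset.sum_congr rfl fun i _ => ?_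
      have k1 : inner ℝ (Gf ρ (a * (dd * τ * 2 ^ i)) (dd * τ * 2 ^ i) f₁) (D' f₂) =
          g (E * (τ * 2 ^ i)) (τ * 2 ^ i) := by
        rw [hg, hG]
        have k2 : cc * (E * (τ * 2 ^ i)) = a * (dd * τ * 2 ^ i) := by
          rw [← mul_assoc, hcE]; ring
        have k3 : dd * (τ * 2 ^ i) = dd * τ * 2 ^ i := by ring
        rw [k2, k3]
      have k4 : inner ℝ (Gf ρ (2 * a * (dd * τ * 2 ^ i)) (dd * τ * 2 ^ i) f₁) (D' f₂) =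
          g (2 * (E * (τ * 2 ^ i))) (τ * 2 ^ i) := by
        rw [hg, hG]
        have k2 : cc * (2 * (E * (τ * 2 ^ i))) = 2 * a * (dd * τ * 2 ^ i) := by
          have k5 : cc * (2 * (E * (τ * 2 ^ i))) = 2 * (cc * E) * (τ * 2 ^ i) := by ring
          rw [k5, hcE]; ring
        have k3 : dd * (τ * 2 ^ i) = dd * τ * 2 ^ i := by ring
        rw [k2, k3]
      have k6 : inner ℝ (Gf (fun p => ρ p.swap) (a / 2 * (2 * E * τ * 2 ^ i))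
          (2 * E * τ * 2 ^ i) (D f₁)) f₂ = g (2 * (E * (τ * 2 ^ i))) (τ * 2 ^ i) := by
        rw [MA11_swap, hg]
        have k2 : a / 2 * (2 * E * τ * 2 ^ i) = τ * 2 ^ i := by
          have k5 : a / 2 * (2 * E * τ * 2 ^ i) = (a * E) * (2 / 2 * (τ * 2 ^ i)) := by ring
          rw [k5, haE, one_mul, div_self two_ne_zero, one_mul]
        have k3 : 2 * E * τ * 2 ^ i = 2 * (E * (τ * 2 ^ i)) := by ring
        rw [k2, k3]
      have k7 : inner ℝ (Gf (fun p => ρ p.swap) (2 * (a / 2) * (2 * E * τ * 2 ^ i))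
          (2 * E * τ * 2 ^ i) (D f₁)) f₂ = g (E * (τ * 2 ^ (i + 1))) (τ * 2 ^ (i + 1)) := by
        rw [MA11_swap, hg]
        have k2 : 2 * (a / 2) * (2 * E * τ * 2 ^ i) = τ * 2 ^ (i + 1) := by
          have k5 : 2 * (a / 2) * (2 * E * τ * 2 ^ i) = (a * E) * (2 / 2 * (τ * (2 ^ i * 2))) := by
            ring
          rw [k5, haE, one_mul, div_self two_ne_zero, one_mul, pow_succ]
        have k3 : 2 * E * τ * 2 ^ i = E * (τ * 2 ^ (i + 1)) := by rw [pow_succ]; ring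
        rw [k2, k3]
      rw [k1, k4, k6, k7]
      ring
    rw [e1]
    refine (abs_add_le _ _).trans ?_
    rw [hC]
    refine add_le_add ?_ ?_
    · obtain ⟨-, -, b3, -⟩ := Bf_facts ρ hρ a (dd * τ) N
      refine (b3 f₁ (D' f₂)).trans ?_
      rw [hD']
      refine mul_le_mul_of_nonneg_right ?_ (norm_nonneg _)
      exact MA11_sqrt _ (a : ℝ) ‖f₁‖ L₁ w a.2 ha.le (norm_nonneg _) hL1
        (cone_bd ρ hρ K hK hKc hKρ a (dd * τ) hapos ha1 (mul_pos hddpos hτ) N f₁ L₁ hL₁)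
    · rw [MA11_symm _ hρ']
      obtain ⟨-, -, b3, -⟩ := Bf_facts (fun p => ρ p.swap) hρ' (a / 2) (2 * E * τ) N
      refine (b3 f₂ (D f₁)).trans ?_
      rw [hD]
      refine mul_le_mul_of_nonneg_right ?_ (norm_nonneg _)
      have ha2 : a / 2 ≤ a := div_le_self zero_le (by norm_num)
      refine MA11_sqrt _ ((a / 2 : ℝ≥0) : ℝ) ‖f₂‖ L₂ w (a / 2).2 ?_ (norm_nonneg _) hL2
        (cone_bd (fun p => ρ p.swap) hρ' (fun θ => K (-θ)) (fun θ f => hK (-θ) f)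
          (fun f => (hKc f).comp continuous_neg) ?_ (a / 2) (2 * E * τ) (by positivity)
          (ha2.trans ha1) (by positivity) N f₂ L₂ ?_)
      · rw [← ha]
        exact_mod_cast ha2
      · intro θ p f
        show ρ (Rt θ p).swap (K (-θ) f) = K (-θ) (ρ p.swap f)
        rw [← hKρ (-θ) p.swap f]
        congr 2
        unfold Rt
        apply Prod.ext
        · simp only [Prod.swap, Real.cos_neg, Real.sin_neg]
          ring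
        · simp only [Prod.swap, Real.cos_neg, Real.sin_neg]
          ring
      · intro θ
        have h := hL₂ (-θ)
        rwa [abs_neg] at h
  -- the limit
  have lim1 : Tendsto (fun J : ℕ => ((2 : ℝ≥0) ^ J)⁻¹) atTop (𝓝 0) := by
    have h : Tendsto (fun J : ℕ => ((2 : ℝ≥0)⁻¹) ^ J) atTop (𝓝 0) :=
      NNReal.tendsto_pow_atTop_nhds_zero_of_lt_one (by
        rw [← NNReal.coe_lt_coe]; push_cast; norm_num)
    refine h.congr fun J => ?_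
    rw [inv_pow]
  have lim2 : Tendsto (fun J : ℕ => g (E * (((2 : ℝ≥0) ^ J)⁻¹ * 2 ^ 0)) (((2 : ℝ≥0) ^ J)⁻¹ * 2 ^ 0))
      atTop (𝓝 (inner ℝ (D f₁) f₂)) := by
    have h1 : Tendsto (fun q : ℝ≥0 => (E * (q * 2 ^ 0), q * 2 ^ 0)) (𝓝 0)
        (𝓝 ((E * ((0 : ℝ≥0) * 2 ^ 0), (0 : ℝ≥0) * 2 ^ 0))) := by
      apply Continuous.tendsto
      fun_prop
    have h2 := (((c1 (D f₁)).tendsto _).comp (h1.comp lim1)).inner (tendsto_const_nhds (x := f₂)) (𝕜 := ℝ)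
    have h3 : Gf ρ (E * ((0 : ℝ≥0) * 2 ^ 0)) ((0 : ℝ≥0) * 2 ^ 0) (D f₁) = D f₁ := by
      rw [zero_mul, mul_zero, g7]
    have h4 : inner ℝ (Gf ρ (E * ((0 : ℝ≥0) * 2 ^ 0)) ((0 : ℝ≥0) * 2 ^ 0) (D f₁)) f₂ =
        inner ℝ (D f₁) f₂ := by rw [h3]
    rw [← h4]
    refine Tendsto.congr (fun J => ?_) h2
    rw [hg]
    rfl
  have lim3 : Tendsto (fun J : ℕ => g (E * (((2 : ℝ≥0) ^ J)⁻¹ * 2 ^ (2 * J)))
      (((2 : ℝ≥0) ^ J)⁻¹ * 2 ^ (2 * J))) atTop (𝓝 0) := by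
    have h1 := (hlim E 1 hEpos one_pos).inner (tendsto_const_nhds (x := f₂)) (𝕜 := ℝ)
    rw [inner_zero_left] at h1
    refine Tendsto.congr (fun J => ?_) h1
    have h2 : ((2 : ℝ≥0) ^ J)⁻¹ * 2 ^ (2 * J) = 2 ^ J := by
      have h3 : (2 : ℝ≥0) ^ J ≠ 0 := pow_ne_zero _ two_ne_zero
      rw [two_mul, pow_add, ← mul_assoc, inv_mul_cancel₀ h3, one_mul]
    rw [h2, hg, one_mul]
  have lim4 := (lim2.sub lim3).abs
  rw [sub_zero] at lim4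
  have hle : |inner ℝ (D f₁) f₂| ≤ C :=
    le_of_tendsto lim4 (Eventually.of_forall fun J =>
      key (((2 : ℝ≥0) ^ J)⁻¹) (2 * J) (by positivity))
  refine hle.trans ?_
  rw [hC, ← hw]
  have p0 : 0 < Real.exp (-w / 6) := Real.exp_pos _
  have p1 : 0 ≤ ‖f₁‖ := norm_nonneg _
  have p2 : 0 ≤ ‖f₂‖ := norm_nonneg _
  have p3 : (‖f₁‖ + L₁) * ‖f₂‖ ≤ (‖f₁‖ + L₁) * (‖f₂‖ + L₂) :=
    mul_le_mul_of_nonneg_left (by linarith) (by linarith)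
  have p4 : (‖f₂‖ + L₂) * ‖f₁‖ ≤ (‖f₁‖ + L₁) * (‖f₂‖ + L₂) := by
    rw [mul_comm]
    exact mul_le_mul_of_nonneg_right (by linarith) (by linarith)
  have p5 : 0 ≤ (‖f₁‖ + L₁) * (‖f₂‖ + L₂) := mul_nonneg (by linarith) (by linarith)
  have p6 := mul_le_mul_of_nonneg_left p3 p0.le
  have p7 := mul_le_mul_of_nonneg_left p4 p0.le
  have p8 := mul_nonneg p0.le p5
  nlinarith

end FLM
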