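import Mathlib

set_option autoImplicit false

open Topology Filter

namespace FLM

private lemma MA12_adj {H : Type*} [NormedAddCommGroup H] [InnerProductSpace ℝ H]
    (S : H → H) (hs : ∀ f g, inner ℝ (S f) g = inner ℝ f (S g)) (n : ℕ) :
    ∀ f g, inner ℝ (S^[n] f) g = inner ℝ f (S^[n] g) := by
  induction n with
  | zero => intro f g; rfl
  | succ n ih =>
    intro f g
    rw [Function.iterate_succ_apply' S n f, hs, ih, ← Function.iterate_succ_apply]

/-- Row MA12. Powers of the square of a self-adjoint contraction. `c_k = ⟨S^(2k) f, f⟩ = ‖S^k f‖²` is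
decreasing and nonnegative, so it converges, and `‖S^(2n) f - S^(2m) f‖² = c_(2n) - 2 c_(n+m) + c_(2m)`
tends to `0`: the sequence `S^(2n) f` is Cauchy; the limit `g` satisfies `S (S g) = g` and
`‖g‖² = lim ⟨S^(2n) f, g⟩ = lim ⟨f, S^(2n) g⟩ = ⟨f, g⟩ = 0`. -/
theorem pow_zero_lim {H : Type*} [NormedAddCommGroup H] [InnerProductSpace ℝ H] [CompleteSpace H]
    (S : H → H) (hadd : ∀ f g, S (f + g) = S f + S g) (hsmul : ∀ (c : ℝ) f, S (c • f) = c • S f)
    (hn : ∀ f, ‖S f‖ ≤ ‖f‖) (hs : ∀ f g, inner ℝ (S f) g = inner ℝ f (S g)) (f : H)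
    (hf : ∀ g, S (S g) = g → inner ℝ f g = 0) :
    Tendsto (fun n : ℕ => S^[2 * n] f) atTop (𝓝 0) := by
  have hadj := MA12_adj S hs
  have hsub : ∀ x y, S (x - y) = S x - S y := by
    intro x y
    have h := hadd x ((-1 : ℝ) • y)
    rw [hsmul] at h
    simpa [sub_eq_add_neg] using h
  have hlip : LipschitzWith 1 S := by
    refine LipschitzWith.of_dist_le_mul (fun x y => ?_)
    rw [dist_eq_norm, dist_eq_norm, ← hsub]
    simpa using hn (x - y)
  -- the numbers
  have hinn : ∀ m n : ℕ, inner ℝ (S^[m] f) (S^[n] f) = inner ℝ (S^[m + n] f) f := by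
    intro m n
    rw [hadj, ← Function.iterate_add_apply, ← hadj]
  have hc : ∀ k : ℕ, inner ℝ (S^[2 * k] f) f = ‖S^[k] f‖ ^ 2 := by
    intro k
    rw [← real_inner_self_eq_norm_sq, hinn, two_mul]
  have hanti : Antitone (fun k : ℕ => ‖S^[k] f‖ ^ 2) := by
    refine antitone_nat_of_succ_le (fun k => ?_)
    rw [Function.iterate_succ_apply']
    exact pow_le_pow_left₀ (norm_nonneg _) (hn _) 2
  have hbdd : BddBelow (Set.range (fun k : ℕ => ‖S^[k] f‖ ^ 2)) :=
    ⟨0, by rintro _ ⟨k, rfl⟩; positivity⟩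
  have hlim := tendsto_atTop_ciInf hanti hbdd
  set ℓ : ℝ := ⨅ k : ℕ, ‖S^[k] f‖ ^ 2 with hℓ
  have hdist : ∀ n m : ℕ, ‖S^[2 * n] f - S^[2 * m] f‖ ^ 2 =
      ‖S^[2 * n] f‖ ^ 2 - 2 * ‖S^[n + m] f‖ ^ 2 + ‖S^[2 * m] f‖ ^ 2 := by
    intro n m
    rw [norm_sub_sq_real, hinn, ← mul_add, hc]
  have hcauchy : CauchySeq (fun n : ℕ => S^[2 * n] f) := by
    rw [Metric.cauchySeq_iff]
    intro ε hε
    have hδ : 0 < ε ^ 2 / 8 := by positivity
    obtain ⟨N, hN⟩ := (Metric.tendsto_atTop.1 hlim) (ε ^ 2 / 8) hδ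
    refine ⟨N, fun m hm n hn' => ?_⟩
    rw [dist_eq_norm]
    have h1 := hN (2 * m) (by omega)
    have h2 := hN (2 * n) (by omega)
    have h3 := hN (m + n) (by omega)
    rw [Real.dist_eq, abs_lt] at h1 h2 h3
    have h4 := hdist m n
    have h5 : ‖S^[2 * m] f - S^[2 * n] f‖ ^ 2 < ε ^ 2 := by
      rw [h4]
      nlinarith [h1.1, h1.2, h2.1, h2.2, h3.1, h3.2, hδ]
    exact lt_of_pow_lt_pow_left₀ 2 hε.le h5
  obtain ⟨g, hg⟩ := cauchySeq_tendsto_of_complete hcauchy
  have hgg : S (S g) = g := by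
    have h1 : Tendsto (fun n : ℕ => S (S (S^[2 * n] f))) atTop (𝓝 (S (S g))) :=
      ((hlip.continuous.tendsto _).comp ((hlip.continuous.tendsto _).comp hg))
    have h2 : Tendsto (fun n : ℕ => S^[2 * (n + 1)] f) atTop (𝓝 g) :=
      hg.comp (tendsto_add_atTop_nat 1)
    have h3 : (fun n : ℕ => S^[2 * (n + 1)] f) = fun n : ℕ => S (S (S^[2 * n] f)) := by
      funext n
      rw [show 2 * (n + 1) = (2 * n + 1) + 1 by ring, Function.iterate_succ_apply',
        Function.iterate_succ_apply']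
    rw [h3] at h2
    exact tendsto_nhds_unique h1 h2
  have hit : ∀ n : ℕ, S^[2 * n] g = g := by
    intro n
    induction n with
    | zero => rfl
    | succ n ih =>
      rw [show 2 * (n + 1) = (2 * n + 1) + 1 by ring, Function.iterate_succ_apply',
        Function.iterate_succ_apply', ih, hgg]
  have h0 : inner ℝ f g = 0 := hf g hgg
  have h1 : Tendsto (fun n : ℕ => inner ℝ (S^[2 * n] f) g) atTop (𝓝 (inner ℝ g g)) :=
    hg.inner tendsto_const_nhds
  have h2 : (fun n : ℕ => inner ℝ (S^[2 * n] f) g) = fun _ => (0 : ℝ) := by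
    funext n
    rw [hadj, hit, h0]
  rw [h2] at h1
  have h3 : inner ℝ g g = (0 : ℝ) := tendsto_nhds_unique h1 tendsto_const_nhds |>.symm ▸ rfl
  have h4 : g = 0 := inner_self_eq_zero.1 h3
  rw [h4] at hg
  exact hg

end FLM
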