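import Pool.Agent.LibFL27.MA2

set_option autoImplicit false

open MeasureTheory ProbabilityTheory Topology Filter
open scoped NNReal

namespace FLM

/-- Row MA13. A vector fixed by a nondegenerate Gaussian average is invariant:
`‖g‖² = ⟨Gf s t g, g⟩ = ∫ ⟨ρ p g, g⟩`, `⟨ρ p g, g⟩ ≤ ‖g‖²`, so `⟨ρ p g, g⟩ = ‖g‖²` almost
everywhere for `gg s t`, whose density is positive; both sides are continuous, so everywhere, and
`‖ρ p g - g‖² = 2 ‖g‖² - 2 ⟨ρ p g, g⟩ = 0`. -/
theorem fixed_inv {H : Type*} [NormedAddCommGroup H] [InnerProductSpace ℝ H] [CompleteSpace H]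
    (ρ : ℝ × ℝ → H →L[ℝ] H) (hρ : Rep2 ρ) (s t : ℝ≥0) (hs : 0 < s) (ht : 0 < t) (g : H)
    (hg : Gf ρ s t g = g) (p : ℝ × ℝ) : ρ p g = g := by
  have hprob : IsProbabilityMeasure (gg s t) := gg_facts.1 s t
  have hle : ∀ q, inner ℝ (ρ q g) g ≤ ‖g‖ ^ 2 := by
    intro q
    have h1 := real_inner_le_norm (ρ q g) g
    rw [hρ.iso, ← sq] at h1
    exact h1
  have hcont : Continuous fun q => inner ℝ (ρ q g) g := (hρ.cont g).inner continuous_const
  have hint : Integrable (fun q => inner ℝ (ρ q g) g) (gg s t) := by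
    refine Integrable.of_bound hcont.aestronglyMeasurable (‖g‖ ^ 2)
      (Filter.Eventually.of_forall fun q => ?_)
    have h1 := norm_inner_le_norm (𝕜 := ℝ) (ρ q g) g
    rw [hρ.iso, ← sq] at h1
    exact h1
  have hI : ∫ q, (‖g‖ ^ 2 - inner ℝ (ρ q g) g) ∂(gg s t) = 0 := by
    rw [integral_sub (integrable_const _) hint, ← (Gf_facts ρ hρ).2.2.1 s t g g, hg,
      real_inner_self_eq_norm_sq, integral_const, probReal_univ, one_smul, sub_self]
  have hae : (fun q => ‖g‖ ^ 2 - inner ℝ (ρ q g) g) =ᵐ[gg s t] 0 :=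
    (integral_eq_zero_iff_of_nonneg (fun q => sub_nonneg.2 (hle q))
      ((integrable_const _).sub hint)).1 hI
  have hac : (volume : Measure (ℝ × ℝ)) ≪ gg s t :=
    (gaussianReal_absolutelyContinuous' 0 hs.ne').prod (gaussianReal_absolutelyContinuous' 0 ht.ne')
  have hall : (fun q => ‖g‖ ^ 2 - inner ℝ (ρ q g) g) = 0 :=
    (Continuous.ae_eq_iff_eq (volume : Measure (ℝ × ℝ)) (continuous_const.sub hcont)
      continuous_zero).1 (hac.ae_eq hae)
  have hp : ‖g‖ ^ 2 - inner ℝ (ρ p g) g = 0 := congrFun hall p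
  have hn : ‖ρ p g - g‖ ^ 2 = 0 := by
    rw [norm_sub_sq_real, hρ.iso]
    linarith
  exact sub_eq_zero.1 (norm_eq_zero.1 (pow_eq_zero_iff two_ne_zero |>.1 hn))

end FLM
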