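import Pool.Agent.LibFL27.MA12
import Pool.Agent.LibFL27.MA13

set_option autoImplicit false

open MeasureTheory ProbabilityTheory Topology Filter
open scoped NNReal

namespace FLM

/-- Row MA14. MA12 with `S = Gf (s/2) (t/2)`: `S^(2k) = Gf (k s) (k t)` (MA2), so
`Gf (s 2^N) (t 2^N) f = S^(2 · 2^N) f`; `S (S g) = g` gives `Gf s t g = g`, so `g` is invariant
(MA13). -/
theorem Gf_lim {H : Type*} [NormedAddCommGroup H] [InnerProductSpace ℝ H] [CompleteSpace H]
    (ρ : ℝ × ℝ → H →L[ℝ] H) (hρ : Rep2 ρ) (f : H)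
    (hf : ∀ g, (∀ p, ρ p g = g) → inner ℝ f g = 0) (s t : ℝ≥0) (hs : 0 < s) (ht : 0 < t) :
    Tendsto (fun N : ℕ => Gf ρ (s * 2 ^ N) (t * 2 ^ N) f) atTop (𝓝 0) := by
  obtain ⟨hadd, hsmul, -, hn, hsym, hsg, hzero⟩ := Gf_facts ρ hρ
  have hpow : ∀ (k : ℕ) (g : H),
      (Gf ρ (s / 2) (t / 2))^[k] g = Gf ρ ((k : ℝ≥0) * (s / 2)) ((k : ℝ≥0) * (t / 2)) g := by
    intro k
    induction k with
    | zero =>
      intro g
      simp [hzero]
    | succ k ih =>
      intro g
      rw [Function.iterate_succ_apply', ih, ← hsg]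
      congr 1
      · push_cast; ring
      · push_cast; ring
  have h2 : ∀ g, Gf ρ (s / 2) (t / 2) (Gf ρ (s / 2) (t / 2) g) = Gf ρ s t g := by
    intro g
    rw [← hsg, add_halves, add_halves]
  have hlim := pow_zero_lim (Gf ρ (s / 2) (t / 2)) (fun f g => hadd _ _ f g)
    (fun c f => hsmul _ _ c f) (fun f => hn _ _ f) (fun f g => hsym _ _ f g) f (by
      intro g hg
      rw [h2] at hg
      exact hf g (fun p => fixed_inv ρ hρ s t hs ht g hg p))
  have hcomp := hlim.comp (tendsto_pow_atTop_atTop_of_one_lt (by norm_num : 1 < 2))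
  refine hcomp.congr ?_
  intro N
  simp only [Function.comp_apply]
  rw [hpow]
  congr 1
  · push_cast
    rw [mul_comm (2 : ℝ≥0), mul_assoc, mul_comm]
    congr 1
    exact mul_div_cancel₀ s two_ne_zero
  · push_cast
    rw [mul_comm (2 : ℝ≥0), mul_assoc, mul_comm]
    congr 1
    exact mul_div_cancel₀ t two_ne_zero

end FLM
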