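import Pool.Agent.LibFL27.MA1

set_option autoImplicit false

open MeasureTheory ProbabilityTheory Topology Filter
open scoped NNReal

namespace FLM

private theorem MA2_int {H : Type*} [NormedAddCommGroup H] [InnerProductSpace ℝ H]
    (ρ : ℝ × ℝ → H →L[ℝ] H) (hρ : Rep2 ρ) (μ : Measure (ℝ × ℝ)) [IsFiniteMeasure μ] (f : H) :
    Integrable (fun p => ρ p f) μ :=
  Integrable.of_bound (hρ.cont f).aestronglyMeasurable ‖f‖
    (Eventually.of_forall fun p => (hρ.iso p f).le)

private theorem MA2_adj {H : Type*} [NormedAddCommGroup H] [InnerProductSpace ℝ H]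
    (ρ : ℝ × ℝ → H →L[ℝ] H) (hρ : Rep2 ρ) (p : ℝ × ℝ) (f h : H) :
    inner ℝ (ρ p f) h = inner ℝ f (ρ (-p) h) := by
  let L : H →ₗᵢ[ℝ] H := ⟨(ρ p : H →ₗ[ℝ] H), fun x => hρ.iso p x⟩
  have hL : ∀ x, L x = ρ p x := fun x => rfl
  have h1 : ρ p (ρ (-p) h) = h := by
    rw [← hρ.add, add_neg_cancel, hρ.zero]
  have h2 := L.inner_map_map f (ρ (-p) h)
  rw [hL, hL, h1] at h2
  exact h2

/-- Row MA2. The Gaussian averages form a commutative semigroup of self-adjoint contractions
(MA1; `p ↦ ρ p f` is continuous and bounded by `‖f‖`, so integrable; `⟨ρ p f, h⟩ = ⟨f, ρ (-p) h⟩`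
because `ρ (-p)` is a linear isometry and the inverse of `ρ p`; `integral_prod`,
`integral_map`, `ContinuousLinearMap.integral_comp_comm`, `integral_inner`). -/
theorem Gf_facts {H : Type*} [NormedAddCommGroup H] [InnerProductSpace ℝ H] [CompleteSpace H]
    (ρ : ℝ × ℝ → H →L[ℝ] H) (hρ : Rep2 ρ) :
    (∀ s t f h, Gf ρ s t (f + h) = Gf ρ s t f + Gf ρ s t h) ∧
    (∀ s t (c : ℝ) f, Gf ρ s t (c • f) = c • Gf ρ s t f) ∧
    (∀ s t f h, inner ℝ (Gf ρ s t f) h = ∫ p, inner ℝ (ρ p f) h ∂(gg s t)) ∧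
    (∀ s t f, ‖Gf ρ s t f‖ ≤ ‖f‖) ∧
    (∀ s t f h, inner ℝ (Gf ρ s t f) h = inner ℝ f (Gf ρ s t h)) ∧
    (∀ s t s' t' f, Gf ρ (s + s') (t + t') f = Gf ρ s t (Gf ρ s' t' f)) ∧
    (∀ f, Gf ρ 0 0 f = f) := by
  obtain ⟨g1, g2, -, g4, g5⟩ := gg_facts
  have hin : ∀ s t f h, inner ℝ (Gf ρ s t f) h = ∫ p, inner ℝ (ρ p f) h ∂(gg s t) := by
    intro s t f h
    have := g1 s t
    rw [real_inner_comm]
    unfold Gf
    rw [← integral_inner (MA2_int ρ hρ (gg s t) f) h]
    exact integral_congr_ae (Eventually.of_forall fun p => real_inner_comm _ _)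
  refine ⟨?_, ?_, hin, ?_, ?_, ?_, ?_⟩
  · intro s t f h
    have := g1 s t
    unfold Gf
    rw [← integral_add (MA2_int ρ hρ (gg s t) f) (MA2_int ρ hρ (gg s t) h)]
    exact integral_congr_ae (Eventually.of_forall fun p => map_add (ρ p) f h)
  · intro s t c f
    unfold Gf
    rw [← integral_smul]
    exact integral_congr_ae (Eventually.of_forall fun p => map_smul (ρ p) c f)
  · intro s t f
    have := g1 s t
    unfold Gf
    have h1 := norm_integral_le_of_norm_le_const (μ := gg s t) (f := fun p => ρ p f) (C := ‖f‖)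
      (Eventually.of_forall fun p => (hρ.iso p f).le)
    simpa using h1
  · intro s t f h
    have := g1 s t
    rw [hin, real_inner_comm, hin]
    have h1 : ∫ p, inner ℝ (ρ p h) f ∂(gg s t) =
        ∫ p, inner ℝ (ρ p h) f ∂((gg s t).map (fun p => -p)) := by rw [g2]
    rw [h1, integral_map measurable_neg.aemeasurable
      ((hρ.cont h).inner continuous_const).aestronglyMeasurable]
    refine integral_congr_ae (Eventually.of_forall fun p => ?_)
    show inner ℝ (ρ p f) h = inner ℝ (ρ (-p) h) f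
    rw [MA2_adj ρ hρ p f h, real_inner_comm]
  · intro s t s' t' f
    have := g1 s t
    have := g1 s' t'
    unfold Gf
    have hm : Measurable (fun q : (ℝ × ℝ) × (ℝ × ℝ) => q.1 + q.2) :=
      measurable_fst.add measurable_snd
    rw [← g5 s t s' t', integral_map hm.aemeasurable (hρ.cont f).aestronglyMeasurable]
    have hi : Integrable (fun q : (ℝ × ℝ) × (ℝ × ℝ) => ρ (q.1 + q.2) f)
        ((gg s t).prod (gg s' t')) :=
      Integrable.of_bound
        ((hρ.cont f).comp (continuous_fst.add continuous_snd)).aestronglyMeasurable ‖f‖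
        (Eventually.of_forall fun p => (hρ.iso _ f).le)
    rw [integral_prod _ hi]
    refine integral_congr_ae (Eventually.of_forall fun p => ?_)
    show ∫ q, ρ (p + q) f ∂(gg s' t') = ρ p (∫ q, ρ q f ∂(gg s' t'))
    rw [← (ρ p).integral_comp_comm (MA2_int ρ hρ (gg s' t') f)]
    exact integral_congr_ae (Eventually.of_forall fun q => hρ.add p q f)
  · intro f
    unfold Gf
    rw [g4, integral_dirac, hρ.zero]

end FLM
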