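import Pool.Agent.LibFL27.MA2

set_option autoImplicit false

open MeasureTheory ProbabilityTheory Topology Filter
open scoped NNReal

namespace FLM

/-- Row MA3. Positivity: with `F = Gf (s/2) (t/2) f`: `⟨Gf s t f, f⟩ = ‖F‖²`,
`⟨Gf (s+a) (t+b) f, f⟩ = ⟨Gf a b F, F⟩ ≤ ‖F‖²`, and for `F = Gf (r/2) (r/2) f`:
`⟨Gf r r f, f⟩ - 2 ⟨Gf (r+h) (r+h) f, f⟩ + ⟨Gf (r+2h) (r+2h) f, f⟩ = ‖F - Gf h h F‖²`. -/
theorem Gf_pos {H : Type*} [NormedAddCommGroup H] [InnerProductSpace ℝ H] [CompleteSpace H]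
    (ρ : ℝ × ℝ → H →L[ℝ] H) (hρ : Rep2 ρ) :
    (∀ s t f, 0 ≤ inner ℝ (Gf ρ s t f) f) ∧ (∀ s t f, inner ℝ (Gf ρ s t f) f ≤ ‖f‖ ^ 2) ∧
    (∀ s t a b f, inner ℝ (Gf ρ (s + a) (t + b) f) f ≤ inner ℝ (Gf ρ s t f) f) ∧
    (∀ r h f, 2 * inner ℝ (Gf ρ (r + h) (r + h) f) f ≤
      inner ℝ (Gf ρ r r f) f + inner ℝ (Gf ρ (r + 2 * h) (r + 2 * h) f) f) := by
  obtain ⟨-, -, -, hnorm, hsa, hsemi, -⟩ := Gf_facts ρ hρ
  have hq : ∀ s t f, inner ℝ (Gf ρ s t f) f = ‖Gf ρ (s / 2) (t / 2) f‖ ^ 2 := by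
    intro s t f
    have h : Gf ρ s t f = Gf ρ (s / 2) (t / 2) (Gf ρ (s / 2) (t / 2) f) := by
      rw [← hsemi, add_halves, add_halves]
    rw [h, hsa, real_inner_self_eq_norm_sq]
  have hk : ∀ s t a b f, inner ℝ (Gf ρ (s + a) (t + b) f) f =
      inner ℝ (Gf ρ a b (Gf ρ (s / 2) (t / 2) f)) (Gf ρ (s / 2) (t / 2) f) := by
    intro s t a b f
    have h : Gf ρ (s + a) (t + b) f =
        Gf ρ (s / 2) (t / 2) (Gf ρ a b (Gf ρ (s / 2) (t / 2) f)) := by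
      rw [← hsemi, ← hsemi]
      congr 1
      · rw [add_right_comm, add_halves]
      · rw [add_right_comm, add_halves]
    rw [h, hsa]
  have hle : ∀ s t f, inner ℝ (Gf ρ s t f) f ≤ ‖f‖ ^ 2 := by
    intro s t f
    rw [hq]
    exact pow_le_pow_left₀ (norm_nonneg _) (hnorm _ _ _) 2
  refine ⟨fun s t f => ?_, hle, fun s t a b f => ?_, fun r h f => ?_⟩
  · rw [hq]
    exact sq_nonneg _
  · rw [hk, hq s t f]
    exact hle _ _ _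
  · rw [hk, hk, hq r r f, hq (2 * h) (2 * h)]
    have h2 : 2 * h / 2 = h := mul_div_cancel_left₀ h two_ne_zero
    rw [h2]
    have h3 := @norm_sub_sq_real H _ _ (Gf ρ (r / 2) (r / 2) f)
      (Gf ρ h h (Gf ρ (r / 2) (r / 2) f))
    have h4 := sq_nonneg ‖Gf ρ (r / 2) (r / 2) f - Gf ρ h h (Gf ρ (r / 2) (r / 2) f)‖
    rw [h3, real_inner_comm] at h4
    linarith

end FLM
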