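import Pool.Agent.LibFL27.MA2

set_option autoImplicit false

open MeasureTheory ProbabilityTheory Topology Filter
open scoped NNReal

namespace FLM

theorem MA4_map_aux {H : Type*} [NormedAddCommGroup H] [InnerProductSpace ℝ H] [CompleteSpace H]
    (ρ : ℝ × ℝ → H →L[ℝ] H) (hρ : Rep2 ρ) (s t : ℝ≥0) (c d : ℝ) (f : H) :
    Gf ρ (⟨c ^ 2, sq_nonneg c⟩ * s) (⟨d ^ 2, sq_nonneg d⟩ * t) f =
      ∫ p, ρ (c * p.1, d * p.2) f ∂(gg s t) := by
  unfold Gf
  rw [← gg_facts.2.2.1 s t c d]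
  have hm : Measurable fun p : ℝ × ℝ => (c * p.1, d * p.2) := by fun_prop
  rw [integral_map hm.aemeasurable (hρ.cont f).aestronglyMeasurable]

/-- Row MA4. Continuity in the variances: `Gf ρ s t f = ∫ ρ (√s x, √t y) f d(gg 1 1)` (MA1, scaling)
and dominated convergence (`continuous_of_dominated`); and conjugation by an operator that scales
the two coordinates (MA1, scaling). -/
theorem Gf_cont {H : Type*} [NormedAddCommGroup H] [InnerProductSpace ℝ H] [CompleteSpace H]
    (ρ : ℝ × ℝ → H →L[ℝ] H) (hρ : Rep2 ρ) :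
    (∀ f, Continuous fun q : ℝ≥0 × ℝ≥0 => Gf ρ q.1 q.2 f) ∧
    (∀ (D : H →L[ℝ] H) (c d : ℝ), (∀ p f, ρ p (D f) = D (ρ (c * p.1, d * p.2) f)) →
      ∀ s t f, Gf ρ s t (D f) = D (Gf ρ (⟨c ^ 2, sq_nonneg c⟩ * s) (⟨d ^ 2, sq_nonneg d⟩ * t) f)) := by
  constructor
  · intro f
    have : IsProbabilityMeasure (gg 1 1) := gg_facts.1 1 1
    have key : ∀ q : ℝ≥0 × ℝ≥0, Gf ρ q.1 q.2 f =
        ∫ p, ρ (Real.sqrt q.1 * p.1, Real.sqrt q.2 * p.2) f ∂(gg 1 1) := by
      intro q
      rw [← MA4_map_aux ρ hρ 1 1 (Real.sqrt q.1) (Real.sqrt q.2) f]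
      congr 1
      · rw [mul_one]
        exact NNReal.eq (Real.sq_sqrt q.1.2).symm
      · rw [mul_one]
        exact NNReal.eq (Real.sq_sqrt q.2.2).symm
    simp_rw [key]
    refine continuous_of_dominated (bound := fun _ => ‖f‖) ?_ ?_ (integrable_const _) ?_
    · intro q
      have : Continuous fun p : ℝ × ℝ => ρ (Real.sqrt q.1 * p.1, Real.sqrt q.2 * p.2) f :=
        (hρ.cont f).comp (by fun_prop)
      exact this.aestronglyMeasurable
    · intro q
      exact Eventually.of_forall fun p => (hρ.iso _ f).le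
    · refine Eventually.of_forall fun p => (hρ.cont f).comp ?_
      fun_prop
  · intro D c d hD s t f
    have : IsProbabilityMeasure (gg s t) := gg_facts.1 s t
    rw [MA4_map_aux ρ hρ s t c d f]
    have hc : Continuous fun p : ℝ × ℝ => ρ (c * p.1, d * p.2) f :=
      (hρ.cont f).comp (by fun_prop)
    have hi : Integrable (fun p : ℝ × ℝ => ρ (c * p.1, d * p.2) f) (gg s t) := by
      refine Integrable.of_bound hc.aestronglyMeasurable ‖f‖ ?_
      exact Eventually.of_forall fun p => (hρ.iso _ f).le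
    rw [← ContinuousLinearMap.integral_comp_comm D hi]
    unfold Gf
    simp_rw [hD]

end FLM
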