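import Mathlib

set_option autoImplicit false

open Topology Filter
open scoped NNReal

namespace FLM

private theorem MA5_anti (u : ℝ≥0 → ℝ) (hm : ∀ r h, 2 * u (r + h) ≤ u r + u (r + 2 * h))
    (δ : ℝ≥0) : Antitone fun i : ℕ => u ((i : ℝ≥0) * δ) - u (((i + 1 : ℕ) : ℝ≥0) * δ) := by
  refine antitone_nat_of_succ_le fun i => ?_
  have h := hm ((i : ℝ≥0) * δ) δ
  have h1 : ((i + 1 : ℕ) : ℝ≥0) * δ = (i : ℝ≥0) * δ + δ := by push_cast; ring
  have h2 : ((i + 1 + 1 : ℕ) : ℝ≥0) * δ = (i : ℝ≥0) * δ + 2 * δ := by push_cast; ring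
  show u (((i + 1 : ℕ) : ℝ≥0) * δ) - u (((i + 1 + 1 : ℕ) : ℝ≥0) * δ) ≤
    u ((i : ℝ≥0) * δ) - u (((i + 1 : ℕ) : ℝ≥0) * δ)
  rw [h1, h2]
  linarith

private theorem MA5_grid (u : ℝ≥0 → ℝ) (hm : ∀ r h, 2 * u (r + h) ≤ u r + u (r + 2 * h))
    (δ : ℝ≥0) (n k : ℕ) :
    (n : ℝ) * (u (((2 * n : ℕ) : ℝ≥0) * δ) - u (((2 * n + k : ℕ) : ℝ≥0) * δ)) ≤
      k * (u ((n : ℝ≥0) * δ) - u (((2 * n : ℕ) : ℝ≥0) * δ)) := by
  have hA := MA5_anti u hm δ
  set D : ℕ → ℝ := fun i : ℕ => u ((i : ℝ≥0) * δ) - u (((i + 1 : ℕ) : ℝ≥0) * δ) with hD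
  have h1 : ∑ i ∈ Finset.range k, D (2 * n + i) =
      u (((2 * n : ℕ) : ℝ≥0) * δ) - u (((2 * n + k : ℕ) : ℝ≥0) * δ) :=
    Finset.sum_range_sub' (fun i : ℕ => u (((2 * n + i : ℕ) : ℝ≥0) * δ)) k
  have h2 : ∑ i ∈ Finset.range n, D (n + i) =
      u ((n : ℝ≥0) * δ) - u (((n + n : ℕ) : ℝ≥0) * δ) :=
    Finset.sum_range_sub' (fun i : ℕ => u (((n + i : ℕ) : ℝ≥0) * δ)) n
  have h3 : ∑ i ∈ Finset.range k, D (2 * n + i) ≤ k * D (2 * n) := by
    have h := Finset.sum_le_card_nsmul (Finset.range k) (fun i => D (2 * n + i)) (D (2 * n))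
      fun i _ => hA (Nat.le_add_right _ _)
    rwa [Finset.card_range, nsmul_eq_mul] at h
  have h4 : (n : ℝ) * D (2 * n) ≤ ∑ i ∈ Finset.range n, D (n + i) := by
    have h := Finset.card_nsmul_le_sum (Finset.range n) (fun i => D (n + i)) (D (2 * n))
      fun i hi => hA (by have := Finset.mem_range.1 hi; omega)
    rwa [Finset.card_range, nsmul_eq_mul] at h
  rw [show n + n = 2 * n by ring] at h2
  rw [← h1, ← h2]
  have hk : (0 : ℝ) ≤ k := Nat.cast_nonneg k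
  have hn : (0 : ℝ) ≤ n := Nat.cast_nonneg n
  calc (n : ℝ) * ∑ i ∈ Finset.range k, D (2 * n + i) ≤ n * (k * D (2 * n)) :=
        mul_le_mul_of_nonneg_left h3 hn
    _ = k * (n * D (2 * n)) := by ring
    _ ≤ k * ∑ i ∈ Finset.range n, D (n + i) := mul_le_mul_of_nonneg_left h4 hk

private theorem MA5_step (u : ℝ≥0 → ℝ) (ha : Antitone u)
    (hm : ∀ r h, 2 * u (r + h) ≤ u r + u (r + 2 * h)) (r h : ℝ≥0) (hr : 0 < r) (n : ℕ)
    (hn : 0 < n) :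
    u r - u (r + h) ≤ (2 * ((h : ℝ) / r) + 1 / n) * (u (r / 2) - u r) := by
  have hn' : (0 : ℝ≥0) < n := by exact_mod_cast hn
  have hnR : (0 : ℝ) < n := by exact_mod_cast hn
  have hrR : (0 : ℝ) < r := by exact_mod_cast hr
  set δ : ℝ≥0 := r / (2 * n) with hδ
  have hδ0 : 0 < δ := by positivity
  have hδR : (0 : ℝ) < δ := by exact_mod_cast hδ0
  have e1 : (n : ℝ≥0) * δ = r / 2 := by
    rw [hδ]
    field_simp
  have e2 : ((2 * n : ℕ) : ℝ≥0) * δ = r := by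
    rw [hδ]
    push_cast
    field_simp
  set k : ℕ := ⌈h / δ⌉₊ with hk
  have hk1 : h ≤ k * δ := by
    have h1 : h / δ ≤ k := Nat.le_ceil _
    rwa [div_le_iff₀ hδ0] at h1
  have hk2 : (k : ℝ) ≤ 2 * n * ((h : ℝ) / r) + 1 := by
    have h1 : (k : ℝ≥0) < h / δ + 1 := Nat.ceil_lt_add_one zero_le
    have h2 : (k : ℝ) < (h : ℝ) / δ + 1 := by exact_mod_cast h1
    have h3 : (δ : ℝ) = r / (2 * n) := by rw [hδ]; push_cast; rfl
    have h4 : (h : ℝ) / δ = 2 * n * ((h : ℝ) / r) := by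
      rw [h3]
      field_simp
    rw [h4] at h2
    exact h2.le
  have h1 := MA5_grid u hm δ n k
  have e3 : ((2 * n + k : ℕ) : ℝ≥0) * δ = r + k * δ := by
    rw [← e2]
    push_cast
    ring
  rw [e1, e2, e3] at h1
  have h2 : u (r + k * δ) ≤ u (r + h) := ha (add_le_add_right hk1 r)
  have hc : 0 ≤ u (r / 2) - u r := sub_nonneg.2 (ha (NNReal.half_le_self r))
  have h3 : (k : ℝ) * (u (r / 2) - u r) ≤
      (2 * n * ((h : ℝ) / r) + 1) * (u (r / 2) - u r) := mul_le_mul_of_nonneg_right hk2 hc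
  have h4 : (n : ℝ) * (u r - u (r + h)) ≤
      n * ((2 * ((h : ℝ) / r) + 1 / n) * (u (r / 2) - u r)) := by
    have h5 : (n : ℝ) * ((2 * ((h : ℝ) / r) + 1 / n) * (u (r / 2) - u r)) =
        (2 * n * ((h : ℝ) / r) + 1) * (u (r / 2) - u r) := by
      field_simp
    rw [h5]
    refine le_trans ?_ (h1.trans h3)
    exact mul_le_mul_of_nonneg_left (by linarith) hnR.le
  exact le_of_mul_le_mul_left h4 hnR

private theorem MA5_slope (u : ℝ≥0 → ℝ) (ha : Antitone u)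
    (hm : ∀ r h, 2 * u (r + h) ≤ u r + u (r + 2 * h)) (r h : ℝ≥0) (hr : 0 < r) :
    u r - u (r + h) ≤ 2 * ((h : ℝ) / r) * (u (r / 2) - u r) := by
  have hc : 0 ≤ u (r / 2) - u r := sub_nonneg.2 (ha (NNReal.half_le_self r))
  refine le_of_forall_pos_le_add fun e he => ?_
  obtain ⟨n, hn⟩ := exists_nat_gt ((u (r / 2) - u r) / e)
  have hn0 : (0 : ℝ) < n := lt_of_le_of_lt (div_nonneg hc he.le) hn
  have h1 := MA5_step u ha hm r h hr n (by exact_mod_cast hn0)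
  rw [div_lt_iff₀ he] at hn
  have h2 : 1 / (n : ℝ) * (u (r / 2) - u r) ≤ e := by
    rw [one_div, inv_mul_le_iff₀ hn0]
    linarith
  linarith [h1, h2, add_mul (2 * ((h : ℝ) / r)) (1 / (n : ℝ)) (u (r / 2) - u r)]

/-- Row MA5. A nonnegative continuous decreasing midpoint convex function is convex, so for
`r = A + B > 0`, `η = A / (A + B) ≤ 1` the slopes decrease:
`u r - u (r + η r) ≤ 2 η (u (r/2) - u r)`; apply this at `r = 2^j (A + B)` and telescope. -/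
theorem conv_sum (u : ℝ≥0 → ℝ) (M : ℝ) (h0 : ∀ r, 0 ≤ u r) (hM : ∀ r, u r ≤ M)
    (hc : Continuous u) (ha : Antitone u)
    (hm : ∀ r h, 2 * u (r + h) ≤ u r + u (r + 2 * h)) (A B : ℝ≥0) (hAB : 0 < A + B) (N : ℕ) :
    ∑ j ∈ Finset.range N, (u (2 ^ j * (A + B)) - u (2 ^ j * (2 * A + B))) ≤
      2 * ((A : ℝ) / (A + B)) * M := by
  have hη : (0 : ℝ) ≤ 2 * ((A : ℝ) / (A + B)) := by positivity
  have hj : ∀ j ∈ Finset.range N, u (2 ^ j * (A + B)) - u (2 ^ j * (2 * A + B)) ≤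
      2 * ((A : ℝ) / (A + B)) * (u (2 ^ j * (A + B) / 2) - u (2 ^ (j + 1) * (A + B) / 2)) := by
    intro j _
    have h2 : (0 : ℝ≥0) < 2 ^ j := by positivity
    have h1 := MA5_slope u ha hm (2 ^ j * (A + B)) (2 ^ j * A) (mul_pos h2 hAB)
    have e1 : (2 : ℝ≥0) ^ j * (A + B) + 2 ^ j * A = 2 ^ j * (2 * A + B) := by ring
    have e2 : (2 : ℝ≥0) ^ (j + 1) * (A + B) / 2 = 2 ^ j * (A + B) := by
      rw [pow_succ, div_eq_iff (by norm_num : (2 : ℝ≥0) ≠ 0)]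
      ring
    have e3 : (((2 ^ j * A : ℝ≥0) : ℝ) / ((2 ^ j * (A + B) : ℝ≥0) : ℝ)) = (A : ℝ) / (A + B) := by
      push_cast
      exact mul_div_mul_left _ _ (by positivity)
    rw [e1, e3] at h1
    rw [e2]
    exact h1
  refine (Finset.sum_le_sum hj).trans ?_
  rw [← Finset.mul_sum]
  have h3 : ∑ j ∈ Finset.range N, (u (2 ^ j * (A + B) / 2) - u (2 ^ (j + 1) * (A + B) / 2)) =
      u (2 ^ 0 * (A + B) / 2) - u (2 ^ N * (A + B) / 2) :=
    Finset.sum_range_sub' (fun j : ℕ => u (2 ^ j * (A + B) / 2)) N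
  rw [h3]
  refine mul_le_mul_of_nonneg_left ?_ hη
  have h4 := hM (2 ^ 0 * (A + B) / 2)
  have h5 := h0 (2 ^ N * (A + B) / 2)
  linarith

end FLM
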