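import Pool.Agent.LibFL27.MA1

set_option autoImplicit false

open MeasureTheory ProbabilityTheory Topology Filter
open scoped NNReal

namespace FLM

/-- radial density -/
private noncomputable def MA6_k (r : ℝ) : ℝ := r * ((2 * Real.pi)⁻¹ * Real.exp (-r ^ 2 / 2))

private noncomputable def MA6_kap : Measure ℝ :=
  (volume.restrict (Set.Ioi (0 : ℝ))).withDensity (fun r => ENNReal.ofReal (MA6_k r))

private noncomputable def MA6_M : Measure ℝ := volume.restrict (Set.Ioo (-Real.pi) Real.pi)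

private instance MA6_finM : IsFiniteMeasure MA6_M := by
  unfold MA6_M
  infer_instance

private theorem MA6_k_cont : Continuous MA6_k := by
  unfold MA6_k
  fun_prop

private theorem MA6_k_int : Integrable MA6_k := by
  have h1 : Integrable (fun x : ℝ => x * Real.exp (-(1 / 2 : ℝ) * x ^ 2)) :=
    integrable_mul_exp_neg_mul_sq (by norm_num)
  refine (h1.const_mul ((2 * Real.pi)⁻¹)).congr (Filter.Eventually.of_forall fun x => ?_)
  simp only [MA6_k]
  have : -x ^ 2 / 2 = -(1 / 2 : ℝ) * x ^ 2 := by ring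
  rw [this]
  ring

private instance MA6_finK : IsFiniteMeasure MA6_kap := by
  unfold MA6_kap
  exact isFiniteMeasure_withDensity_ofReal (MA6_k_int.integrableOn.2)

private instance MA6_sK : SFinite (volume.restrict (Set.Ioi (0 : ℝ))) := inferInstance

private theorem MA6_pdf (x y : ℝ) : (gaussianPDF 0 1 x * gaussianPDF 0 1 y).toReal =
    (2 * Real.pi)⁻¹ * Real.exp (-(x ^ 2 + y ^ 2) / 2) := by
  rw [ENNReal.toReal_mul, gaussianPDF, gaussianPDF, ENNReal.toReal_ofReal (gaussianPDFReal_nonneg _ _ _),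
    ENNReal.toReal_ofReal (gaussianPDFReal_nonneg _ _ _), gaussianPDFReal, gaussianPDFReal]
  have h1 : (0 : ℝ) < 2 * Real.pi := by positivity
  have h2 : (√(2 * Real.pi * ((1 : ℝ≥0) : ℝ)))⁻¹ * (√(2 * Real.pi * ((1 : ℝ≥0) : ℝ)))⁻¹ =
      (2 * Real.pi)⁻¹ := by
    rw [← mul_inv, NNReal.coe_one, mul_one, Real.mul_self_sqrt h1.le]
  have h3 : Real.exp (-(x - 0) ^ 2 / (2 * ((1 : ℝ≥0) : ℝ))) *
      Real.exp (-(y - 0) ^ 2 / (2 * ((1 : ℝ≥0) : ℝ))) = Real.exp (-(x ^ 2 + y ^ 2) / 2) := by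
    rw [← Real.exp_add, NNReal.coe_one]
    congr 1
    ring
  rw [← h2, ← h3]
  ring

/-- polar coordinates for the standard Gaussian -/
private theorem MA6_polar (ψ : ℝ × ℝ → ℝ) : ∫ p, ψ p ∂(gg 1 1) =
    ∫ z, ψ (z.1 * Real.cos z.2, z.1 * Real.sin z.2) ∂(MA6_kap.prod MA6_M) := by
  have e1 : gg 1 1 = (volume : Measure (ℝ × ℝ)).withDensity
      (fun p => gaussianPDF 0 1 p.1 * gaussianPDF 0 1 p.2) := by
    unfold gg
    rw [gaussianReal_of_var_ne_zero 0 one_ne_zero]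
    rw [prod_withDensity (measurable_gaussianPDF 0 1) (measurable_gaussianPDF 0 1)]
    rfl
  have m1 : Measurable (fun p : ℝ × ℝ => gaussianPDF 0 1 p.1 * gaussianPDF 0 1 p.2) :=
    ((measurable_gaussianPDF 0 1).comp measurable_fst).mul
      ((measurable_gaussianPDF 0 1).comp measurable_snd)
  have f1 : ∀ᵐ p : ℝ × ℝ, gaussianPDF 0 1 p.1 * gaussianPDF 0 1 p.2 < ⊤ := by
    refine Filter.Eventually.of_forall fun p => ?_
    exact ENNReal.mul_lt_top (by simp [gaussianPDF]) (by simp [gaussianPDF])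
  rw [e1, integral_withDensity_eq_integral_toReal_smul m1 f1]
  rw [← integral_comp_polarCoord_symm]
  have e2 : MA6_kap.prod MA6_M = ((volume : Measure (ℝ × ℝ)).restrict
      (Set.Ioi (0 : ℝ) ×ˢ Set.Ioo (-Real.pi) Real.pi)).withDensity
      (fun z => ENNReal.ofReal (MA6_k z.1)) := by
    unfold MA6_kap MA6_M
    rw [prod_withDensity_left (MA6_k_cont.measurable.ennreal_ofReal), Measure.prod_restrict]
    rfl
  have m2 : Measurable (fun z : ℝ × ℝ => ENNReal.ofReal (MA6_k z.1)) :=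
    (MA6_k_cont.comp continuous_fst).measurable.ennreal_ofReal
  rw [e2, integral_withDensity_eq_integral_toReal_smul m2
    (Filter.Eventually.of_forall fun z => ENNReal.ofReal_lt_top)]
  rw [polarCoord_target]
  refine setIntegral_congr_fun (measurableSet_Ioi.prod measurableSet_Ioo) fun z hz => ?_
  have hz1 : (0 : ℝ) < z.1 := hz.1
  have hk : 0 ≤ MA6_k z.1 := by
    unfold MA6_k
    positivity
  simp only [polarCoord_symm_apply, smul_eq_mul]
  rw [MA6_pdf, ENNReal.toReal_ofReal hk]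
  have h4 : (z.1 * Real.cos z.2) ^ 2 + (z.1 * Real.sin z.2) ^ 2 = z.1 ^ 2 := by
    have := Real.sin_sq_add_cos_sq z.2
    linear_combination z.1 ^ 2 * this
  rw [h4]
  unfold MA6_k
  ring

private theorem MA6_gg (s t : ℝ≥0) (h : ℝ × ℝ → ℝ) (hh : Continuous h) :
    ∫ p, h p ∂(gg s t) = ∫ z, h (√(s : ℝ) * (z.1 * Real.cos z.2), √(t : ℝ) * (z.1 * Real.sin z.2))
      ∂(MA6_kap.prod MA6_M) := by
  have h1 : (gg 1 1).map (fun p : ℝ × ℝ => (√(s : ℝ) * p.1, √(t : ℝ) * p.2)) = gg s t := by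
    refine (gg_facts.2.2.1 1 1 (√(s : ℝ)) (√(t : ℝ))).trans ?_
    congr 1
    · refine NNReal.eq ?_
      show √(s : ℝ) ^ 2 * ((1 : ℝ≥0) : ℝ) = s
      rw [NNReal.coe_one, mul_one]
      exact Real.sq_sqrt (NNReal.coe_nonneg s)
    · refine NNReal.eq ?_
      show √(t : ℝ) ^ 2 * ((1 : ℝ≥0) : ℝ) = t
      rw [NNReal.coe_one, mul_one]
      exact Real.sq_sqrt (NNReal.coe_nonneg t)
  rw [← h1, integral_map (by fun_prop) hh.aestronglyMeasurable]
  rw [MA6_polar (fun p => h (√(s : ℝ) * p.1, √(t : ℝ) * p.2))]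

private theorem MA6_int {X : Type} [TopologicalSpace X] [MeasurableSpace X] [BorelSpace X]
    [SecondCountableTopology X] (μ : Measure X) [IsFiniteMeasure μ] (g : X → ℝ) (hg : Continuous g)
    (C : ℝ) (hC : ∀ x, |g x| ≤ C) : Integrable g μ :=
  Integrable.of_bound hg.aestronglyMeasurable C (Filter.Eventually.of_forall fun x => hC x)

private theorem MA6_iv (g : ℝ → ℝ) : ∫ θ in (-Real.pi)..Real.pi, g θ = ∫ θ, g θ ∂MA6_M := by
  rw [intervalIntegral.integral_of_le (by linarith [Real.pi_pos]), integral_Ioc_eq_integral_Ioo]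
  rfl

private theorem MA6_rot (φ : ℝ × ℝ → ℝ) (x y : ℝ) (r q : ℝ) (hr : r * r = x ^ 2 + y ^ 2)
    (hr0 : 0 ≤ r) :
    ∫ θ, φ (Rt θ (q * x, q * y)) ∂MA6_M =
      ∫ θ, φ (r * q * Real.cos θ, r * q * Real.sin θ) ∂MA6_M := by
  obtain ⟨α, ha, hb⟩ : ∃ α : ℝ, x = r * Real.cos α ∧ y = r * Real.sin α := by
    refine ⟨Complex.arg ⟨x, y⟩, ?_⟩
    have hn : ‖(⟨x, y⟩ : ℂ)‖ = r := by
      have h1 : ‖(⟨x, y⟩ : ℂ)‖ * ‖(⟨x, y⟩ : ℂ)‖ = x ^ 2 + y ^ 2 := by
        rw [Complex.norm_mul_self_eq_normSq, Complex.normSq_mk]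
        ring
      rw [← hr] at h1
      exact (mul_self_inj (norm_nonneg _) hr0).1 h1
    have h2 := Complex.norm_mul_cos_arg (⟨x, y⟩ : ℂ)
    have h3 := Complex.norm_mul_sin_arg (⟨x, y⟩ : ℂ)
    rw [hn] at h2 h3
    exact ⟨h2.symm, h3.symm⟩
  rw [← MA6_iv, ← MA6_iv]
  set G : ℝ → ℝ := fun θ => φ (r * q * Real.cos θ, r * q * Real.sin θ) with hG
  have hper : Function.Periodic G (2 * Real.pi) := by
    intro θ
    simp only [hG, Real.cos_add_two_pi, Real.sin_add_two_pi]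
  have h1 : ∀ θ, φ (Rt θ (q * x, q * y)) = G (α - θ) := by
    intro θ
    simp only [hG, Rt]
    rw [Real.cos_sub, Real.sin_sub, ha, hb]
    congr 1
    ext
    · ring
    · ring
  simp only [h1]
  rw [intervalIntegral.integral_comp_sub_left]
  have h2 := hper.intervalIntegral_add_eq (α - Real.pi) (-Real.pi)
  have e1 : α - Real.pi + 2 * Real.pi = α - -Real.pi := by ring
  have e2 : -Real.pi + 2 * Real.pi = Real.pi := by ring
  rw [e1, e2] at h2
  exact h2

/-- Row MA6 (averaging over the rotations). In polar coordinates `(x, y) = ρ (cos ω, sin ω)` of the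
standard Gaussian (`integral_comp_polarCoord_symm`; `gg s t` is the image of `gg 1 1` under
`(√s x, √t y)`): the vector `(√s cos ω, √t sin ω)` has length `√w(ω)`,
`w(ω) = s cos² ω + t sin² ω`, and the integral over all rotations forgets its direction:
both sides are `∫_{-π}^{π} (1/2π) ∫_0^∞ ρ e^(-ρ²/2) ∫_{-π}^{π} φ (ρ √w(ω) (cos θ, sin θ)) dθ dρ dω`. -/
theorem polar_avg (φ : ℝ × ℝ → ℝ) (hφ : Continuous φ) (C : ℝ) (hC : ∀ p, |φ p| ≤ C) (s t : ℝ≥0) :
    ∫ θ in (-Real.pi)..Real.pi, ∫ p, φ (Rt θ p) ∂(gg s t) =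
      ∫ θ in (-Real.pi)..Real.pi, ∫ p, φ p ∂(gg
        (Real.toNNReal ((s : ℝ) * Real.cos θ ^ 2 + (t : ℝ) * Real.sin θ ^ 2))
        (Real.toNNReal ((s : ℝ) * Real.cos θ ^ 2 + (t : ℝ) * Real.sin θ ^ 2))) := by
  rw [MA6_iv, MA6_iv]
  have hw : ∀ ω : ℝ, 0 ≤ (s : ℝ) * Real.cos ω ^ 2 + (t : ℝ) * Real.sin ω ^ 2 := fun ω => by
    positivity
  set W : ℝ → ℝ := fun ω => √((s : ℝ) * Real.cos ω ^ 2 + (t : ℝ) * Real.sin ω ^ 2) with hW
  have hWc : Continuous W := by
    simp only [hW]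
    fun_prop
  have hRt : Continuous (fun z : ℝ × (ℝ × ℝ) => Rt z.1 z.2) := by
    unfold Rt
    fun_prop
  -- left side
  have hL : ∫ θ, ∫ p, φ (Rt θ p) ∂(gg s t) ∂MA6_M =
      ∫ z, ∫ θ, φ (W z.2 * z.1 * Real.cos θ, W z.2 * z.1 * Real.sin θ) ∂MA6_M
        ∂(MA6_kap.prod MA6_M) := by
    have h1 : ∀ θ : ℝ, ∫ p, φ (Rt θ p) ∂(gg s t) = ∫ z, φ (Rt θ
        (√(s : ℝ) * (z.1 * Real.cos z.2), √(t : ℝ) * (z.1 * Real.sin z.2)))
        ∂(MA6_kap.prod MA6_M) := fun θ => by
      refine MA6_gg s t (fun p => φ (Rt θ p)) ?_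
      exact hφ.comp (hRt.comp (by fun_prop : Continuous fun p : ℝ × ℝ => (θ, p)))
    simp only [h1]
    rw [integral_integral_swap]
    · refine integral_congr_ae (Filter.Eventually.of_forall fun z => ?_)
      have h2 := MA6_rot φ (√(s : ℝ) * Real.cos z.2) (√(t : ℝ) * Real.sin z.2) (W z.2) z.1 (by
        simp only [hW]
        rw [Real.mul_self_sqrt (hw _), mul_pow, mul_pow, Real.sq_sqrt (NNReal.coe_nonneg s),
          Real.sq_sqrt (NNReal.coe_nonneg t)])
        (Real.sqrt_nonneg _)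
      simp only
      rw [← h2]
      refine integral_congr_ae (Filter.Eventually.of_forall fun θ => ?_)
      simp only
      congr 2
      ext
      · simp only
        ring
      · simp only
        ring
    · refine MA6_int _ _ ?_ C (fun x => hC _)
      have hc : Continuous (fun x : ℝ × (ℝ × ℝ) => (x.1, ((√(s : ℝ) * (x.2.1 * Real.cos x.2.2),
          √(t : ℝ) * (x.2.1 * Real.sin x.2.2)) : ℝ × ℝ))) := by fun_prop
      exact hφ.comp (hRt.comp hc)
  have hR : ∫ ω, ∫ p, φ p ∂(gg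
        (Real.toNNReal ((s : ℝ) * Real.cos ω ^ 2 + (t : ℝ) * Real.sin ω ^ 2))
        (Real.toNNReal ((s : ℝ) * Real.cos ω ^ 2 + (t : ℝ) * Real.sin ω ^ 2))) ∂MA6_M =
      ∫ ω, ∫ r, ∫ θ, φ (W ω * r * Real.cos θ, W ω * r * Real.sin θ) ∂MA6_M ∂MA6_kap ∂MA6_M := by
    refine integral_congr_ae (Filter.Eventually.of_forall fun ω => ?_)
    simp only
    rw [MA6_gg _ _ φ hφ, Real.coe_toNNReal _ (hw ω)]
    rw [integral_prod]
    · refine integral_congr_ae (Filter.Eventually.of_forall fun r => ?_)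
      refine integral_congr_ae (Filter.Eventually.of_forall fun θ => ?_)
      simp only [hW]
      congr 1
      ext
      · simp only
        ring
      · simp only
        ring
    · refine MA6_int _ _ ?_ C (fun x => hC _)
      refine hφ.comp ?_
      fun_prop
  have hΦ : Continuous (fun u : ℝ => ∫ θ, φ (u * Real.cos θ, u * Real.sin θ) ∂MA6_M) := by
    refine continuous_of_dominated (bound := fun _ => C) ?_ ?_ ?_ ?_
    · intro u
      refine Continuous.aestronglyMeasurable ?_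
      refine hφ.comp ?_
      fun_prop
    · intro u
      exact Filter.Eventually.of_forall fun θ => hC _
    · exact integrable_const C
    · refine Filter.Eventually.of_forall fun θ => ?_
      refine hφ.comp ?_
      fun_prop
  have hΦb : ∀ u : ℝ, |∫ θ, φ (u * Real.cos θ, u * Real.sin θ) ∂MA6_M| ≤
      C * (MA6_M.real Set.univ) := by
    intro u
    have h3 := norm_integral_le_of_norm_le_const (μ := MA6_M)
      (f := fun θ => φ (u * Real.cos θ, u * Real.sin θ)) (C := C)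
      (Filter.Eventually.of_forall fun θ => hC _)
    exact h3
  rw [hL, hR, integral_prod_symm]
  refine MA6_int _ _ ?_ (C * (MA6_M.real Set.univ)) (fun x => hΦb _)
  exact hΦ.comp (by fun_prop : Continuous fun z : ℝ × ℝ => W z.2 * z.1)

end FLM
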