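import Mathlib

set_option autoImplicit false

open MeasureTheory Topology Filter

namespace FLM

/-- Row MA7. The exact value is `2 π √a / (1 + √a)`. Crude proof: if `1/2 < a` the integrand is
at most one. If `a ≤ 1/2` the denominator is `a + (1 - a) sin² θ ≥ a + sin² θ / 2`, and
`|sin θ| ≥ (2/π) |θ|` on `[-π/2, π/2]`, the integrand has period `π`;
`∫ a / (a + c θ²) dθ ≤ π √a / √c` (arctan), or split at `|θ| = √a`. -/
theorem cone_int (a : ℝ) (ha : 0 < a) (ha1 : a ≤ 1) :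
    ∫ θ in (-Real.pi)..Real.pi, a * Real.cos θ ^ 2 / (a * Real.cos θ ^ 2 + Real.sin θ ^ 2) ≤
      20 * √ a := by
  have hpi : 0 < Real.pi := Real.pi_pos
  have hsa : 0 < √ a := Real.sqrt_pos.2 ha
  have hsq : √ a * √ a = a := Real.mul_self_sqrt ha.le
  have hpos : ∀ θ : ℝ, 0 < a * Real.cos θ ^ 2 + Real.sin θ ^ 2 := by
    intro θ
    have h1 := Real.sin_sq_add_cos_sq θ
    have h2 := sq_nonneg (Real.sin θ)
    nlinarith [mul_nonneg h2 (sub_nonneg.2 ha1)]
  set f : ℝ → ℝ := fun θ => a * Real.cos θ ^ 2 / (a * Real.cos θ ^ 2 + Real.sin θ ^ 2) with hf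
  have hcont : Continuous f := by
    refine Continuous.div (by fun_prop) (by fun_prop) fun θ => (hpos θ).ne'
  have hper : Function.Periodic f Real.pi := by
    intro θ
    simp only [hf]
    rw [Real.cos_add_pi, Real.sin_add_pi, neg_sq, neg_sq]
  set k : ℝ := 2 / (Real.pi * √ a) with hk
  have hk0 : 0 < k := by positivity
  have hle : ∀ θ : ℝ, |θ| ≤ Real.pi / 2 → f θ ≤ (1 + (k * θ) ^ 2)⁻¹ := by
    intro θ hθ
    have h1 := Real.mul_abs_le_abs_sin hθ
    have h2 : (2 / Real.pi * θ) ^ 2 ≤ Real.sin θ ^ 2 := by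
      rw [← sq_abs, ← sq_abs (Real.sin θ), abs_mul, abs_of_pos (show (0 : ℝ) < 2 / Real.pi by positivity)]
      exact pow_le_pow_left₀ (by positivity) h1 2
    have h3 : (k * θ) ^ 2 = (2 / Real.pi * θ) ^ 2 / a := by
      have h7 : k ^ 2 = (2 / Real.pi) ^ 2 / a := by
        rw [hk, div_pow, div_pow, mul_pow, sq (√ a), hsq, div_div]
      rw [mul_pow, mul_pow, h7]
      ring
    have h4 : Real.cos θ ^ 2 ≤ 1 := Real.cos_sq_le_one θ
    have h5 : (1 + (k * θ) ^ 2)⁻¹ = a / (a + (2 / Real.pi * θ) ^ 2) := by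
      rw [h3]
      field_simp
    rw [h5]
    simp only [hf]
    rw [div_le_div_iff₀ (hpos θ) (by positivity)]
    have h6 : Real.cos θ ^ 2 * (2 / Real.pi * θ) ^ 2 ≤ Real.sin θ ^ 2 := by
      calc Real.cos θ ^ 2 * (2 / Real.pi * θ) ^ 2 ≤ 1 * (2 / Real.pi * θ) ^ 2 :=
            mul_le_mul_of_nonneg_right h4 (sq_nonneg _)
        _ ≤ Real.sin θ ^ 2 := by rw [one_mul]; exact h2
    nlinarith [mul_le_mul_of_nonneg_left h6 ha.le]
  have hhalf : ∫ θ in (-(Real.pi / 2))..(Real.pi / 2), f θ ≤ 5 * √ a := by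
    have hg : Continuous fun θ : ℝ => (1 + (k * θ) ^ 2)⁻¹ := by
      refine Continuous.inv₀ (by fun_prop) fun θ => ?_
      positivity
    have h1 : ∫ θ in (-(Real.pi / 2))..(Real.pi / 2), f θ ≤
        ∫ θ in (-(Real.pi / 2))..(Real.pi / 2), (1 + (k * θ) ^ 2)⁻¹ := by
      refine intervalIntegral.integral_mono_on (by linarith) (hcont.intervalIntegrable _ _)
        (hg.intervalIntegrable _ _) fun θ hθ => hle θ (abs_le.2 ⟨hθ.1, hθ.2⟩)
    have h2 : ∫ θ in (-(Real.pi / 2))..(Real.pi / 2), (1 + (k * θ) ^ 2)⁻¹ =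
        k⁻¹ * (Real.arctan (k * (Real.pi / 2)) - Real.arctan (k * (-(Real.pi / 2)))) := by
      have h3 := intervalIntegral.integral_comp_mul_left (a := -(Real.pi / 2))
        (b := Real.pi / 2) (fun x : ℝ => (1 + x ^ 2)⁻¹) hk0.ne'
      rw [h3, integral_inv_one_add_sq, smul_eq_mul]
    have h3 : Real.arctan (k * (Real.pi / 2)) - Real.arctan (k * (-(Real.pi / 2))) ≤ Real.pi := by
      have h4 := Real.arctan_lt_pi_div_two (k * (Real.pi / 2))
      have h5 := Real.neg_pi_div_two_lt_arctan (k * (-(Real.pi / 2)))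
      linarith
    have h4 : k⁻¹ * Real.pi ≤ 5 * √ a := by
      have h5 : k⁻¹ * Real.pi = Real.pi ^ 2 / 2 * √ a := by
        rw [hk]
        field_simp
      rw [h5]
      refine mul_le_mul_of_nonneg_right ?_ hsa.le
      have h6 := Real.pi_lt_d2
      nlinarith
    calc ∫ θ in (-(Real.pi / 2))..(Real.pi / 2), f θ ≤ _ := h1
      _ = _ := h2
      _ ≤ k⁻¹ * Real.pi := mul_le_mul_of_nonneg_left h3 (inv_nonneg.2 hk0.le)
      _ ≤ 5 * √ a := h4
  have hA : ∫ θ in (-Real.pi)..0, f θ = ∫ θ in (-(Real.pi / 2))..(Real.pi / 2), f θ := by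
    have h1 := hper.intervalIntegral_add_eq (-Real.pi) (-(Real.pi / 2))
    rw [show -Real.pi + Real.pi = 0 by ring,
      show -(Real.pi / 2) + Real.pi = Real.pi / 2 by ring] at h1
    exact h1
  have hB : ∫ θ in (0 : ℝ)..Real.pi, f θ = ∫ θ in (-(Real.pi / 2))..(Real.pi / 2), f θ := by
    have h1 := hper.intervalIntegral_add_eq 0 (-(Real.pi / 2))
    rw [zero_add, show -(Real.pi / 2) + Real.pi = Real.pi / 2 by ring] at h1
    exact h1
  have hC := intervalIntegral.integral_add_adjacent_intervals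
    (hcont.intervalIntegrable (-Real.pi) 0 (μ := volume))
    (hcont.intervalIntegrable 0 Real.pi (μ := volume))
  show ∫ θ in (-Real.pi)..Real.pi, f θ ≤ 20 * √ a
  rw [← hC, hA, hB]
  linarith

end FLM
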