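import Pool.Agent.LibFL27.MA3

set_option autoImplicit false

open MeasureTheory ProbabilityTheory Topology Filter
open scoped NNReal

namespace FLM

private theorem Bf_add_left {H : Type*} [NormedAddCommGroup H] [InnerProductSpace ℝ H]
    [CompleteSpace H]
    (ρ : ℝ × ℝ → H →L[ℝ] H) (hρ : Rep2 ρ) (a r : ℝ≥0) (N : ℕ) (f g h : H) :
    Bf ρ a r N (f + g) h = Bf ρ a r N f h + Bf ρ a r N g h := by
  obtain ⟨hadd, -, -, -, -, -, -⟩ := Gf_facts ρ hρ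
  unfold Bf
  rw [← Finset.sum_add_distrib]
  refine Finset.sum_congr rfl fun j _ => ?_
  rw [hadd, hadd, inner_add_left, inner_add_left]
  ring

private theorem Bf_smul_left {H : Type*} [NormedAddCommGroup H] [InnerProductSpace ℝ H]
    [CompleteSpace H]
    (ρ : ℝ × ℝ → H →L[ℝ] H) (hρ : Rep2 ρ) (a r : ℝ≥0) (N : ℕ) (c : ℝ) (f h : H) :
    Bf ρ a r N (c • f) h = c * Bf ρ a r N f h := by
  obtain ⟨-, hsmul, -, -, -, -, -⟩ := Gf_facts ρ hρ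
  unfold Bf
  rw [Finset.mul_sum]
  refine Finset.sum_congr rfl fun j _ => ?_
  rw [hsmul, hsmul, real_inner_smul_left, real_inner_smul_left]
  ring

private theorem Bf_symm {H : Type*} [NormedAddCommGroup H] [InnerProductSpace ℝ H]
    [CompleteSpace H]
    (ρ : ℝ × ℝ → H →L[ℝ] H) (hρ : Rep2 ρ) (a r : ℝ≥0) (N : ℕ) (f h : H) :
    Bf ρ a r N f h = Bf ρ a r N h f := by
  obtain ⟨-, -, -, -, hsa, -, -⟩ := Gf_facts ρ hρ
  unfold Bf
  refine Finset.sum_congr rfl fun j _ => ?_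
  rw [hsa, hsa, real_inner_comm, real_inner_comm (Gf ρ (2 * a * (r * 2 ^ j)) (r * 2 ^ j) h) f]

private theorem Bf_expand {H : Type*} [NormedAddCommGroup H] [InnerProductSpace ℝ H]
    [CompleteSpace H]
    (ρ : ℝ × ℝ → H →L[ℝ] H) (hρ : Rep2 ρ) (a r : ℝ≥0) (N : ℕ) (f h : H) (t : ℝ) :
    Bf ρ a r N (f + t • h) (f + t • h) =
      Bf ρ a r N f f + 2 * t * Bf ρ a r N f h + t ^ 2 * Bf ρ a r N h h := by
  rw [Bf_add_left ρ hρ, Bf_smul_left ρ hρ, Bf_symm ρ hρ a r N f (f + t • h),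
    Bf_symm ρ hρ a r N h (f + t • h), Bf_add_left ρ hρ, Bf_smul_left ρ hρ,
    Bf_add_left ρ hρ, Bf_smul_left ρ hρ, Bf_symm ρ hρ a r N h f]
  ring

private theorem Bf_nonneg {H : Type*} [NormedAddCommGroup H] [InnerProductSpace ℝ H]
    [CompleteSpace H]
    (ρ : ℝ × ℝ → H →L[ℝ] H) (hρ : Rep2 ρ) (a r : ℝ≥0) (N : ℕ) (f : H) :
    0 ≤ Bf ρ a r N f f := by
  obtain ⟨-, -, hmono, -⟩ := Gf_pos ρ hρ
  unfold Bf
  refine Finset.sum_nonneg fun j _ => ?_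
  have h1 := hmono (a * (r * 2 ^ j)) (r * 2 ^ j) (a * (r * 2 ^ j)) 0 f
  have e1 : a * (r * 2 ^ j) + a * (r * 2 ^ j) = 2 * a * (r * 2 ^ j) := by ring
  rw [e1, add_zero] at h1
  exact sub_nonneg.2 h1

private theorem Bf_le {H : Type*} [NormedAddCommGroup H] [InnerProductSpace ℝ H]
    [CompleteSpace H]
    (ρ : ℝ × ℝ → H →L[ℝ] H) (hρ : Rep2 ρ) (a r : ℝ≥0) (N : ℕ) (f : H) :
    Bf ρ a r N f f ≤ ‖f‖ ^ 2 := by
  obtain ⟨hpos, hle, hmono, -⟩ := Gf_pos ρ hρ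
  let P : ℕ → ℝ := fun j => inner ℝ (Gf ρ (a * (r * 2 ^ j)) (r * 2 ^ j) f) f
  have key : Bf ρ a r N f f ≤ ∑ j ∈ Finset.range N, (P j - P (j + 1)) := by
    unfold Bf
    refine Finset.sum_le_sum fun j _ => ?_
    have h1 := hmono (2 * a * (r * 2 ^ j)) (r * 2 ^ j) 0 (r * 2 ^ j) f
    have e1 : r * 2 ^ j + r * 2 ^ j = r * 2 ^ (j + 1) := by ring
    have e2 : 2 * a * (r * 2 ^ j) = a * (r * 2 ^ (j + 1)) := by ring
    rw [add_zero, e1] at h1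
    have h2 : P (j + 1) ≤ inner ℝ (Gf ρ (2 * a * (r * 2 ^ j)) (r * 2 ^ j) f) f := by
      refine le_trans (le_of_eq ?_) h1
      show inner ℝ (Gf ρ (a * (r * 2 ^ (j + 1))) (r * 2 ^ (j + 1)) f) f = _
      rw [← e2]
    exact sub_le_sub_left h2 _
  have tel : ∑ j ∈ Finset.range N, (P j - P (j + 1)) = P 0 - P N := by
    exact Finset.sum_range_sub' P N
  rw [tel] at key
  have h0 : P 0 ≤ ‖f‖ ^ 2 := hle _ _ f
  have hN : 0 ≤ P N := hpos _ _ f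
  linarith

/-- Row MA8. The cone form is symmetric, positive and at most `‖f‖²`:
every summand is `≥ 0` (MA3) and at most `⟨G(a r_j, r_j) f, f⟩ - ⟨G(a r_(j+1), r_(j+1)) f, f⟩`
(`2 a r_j = a r_(j+1)`), which telescopes. Cauchy-Schwarz for positive symmetric forms
(from `0 ≤ B (f + t h)` for all `t`). Last: `B(f,f) ≤ 2 B(g,g) + 2 B(f-g,f-g)`. -/
theorem Bf_facts {H : Type*} [NormedAddCommGroup H] [InnerProductSpace ℝ H] [CompleteSpace H]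
    (ρ : ℝ × ℝ → H →L[ℝ] H) (hρ : Rep2 ρ) (a r : ℝ≥0) (N : ℕ) :
    (∀ f, 0 ≤ Bf ρ a r N f f) ∧ (∀ f, Bf ρ a r N f f ≤ ‖f‖ ^ 2) ∧
    (∀ f h, |Bf ρ a r N f h| ≤ √ (Bf ρ a r N f f) * ‖h‖) ∧
    (∀ f g, Bf ρ a r N f f ≤ 2 * Bf ρ a r N g g + 2 * ‖f - g‖ ^ 2) := by
  refine ⟨Bf_nonneg ρ hρ a r N, Bf_le ρ hρ a r N, fun f h => ?_, fun f g => ?_⟩
  · have hq : ∀ t : ℝ, 0 ≤ Bf ρ a r N h h * (t * t) + 2 * Bf ρ a r N f h * t +
        Bf ρ a r N f f := by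
      intro t
      have h1 := Bf_nonneg ρ hρ a r N (f + t • h)
      rw [Bf_expand ρ hρ] at h1
      nlinarith [h1]
    have hd := discrim_le_zero hq
    unfold discrim at hd
    have hsq : Bf ρ a r N f h ^ 2 ≤ Bf ρ a r N f f * Bf ρ a r N h h := by nlinarith [hd]
    have hff := Bf_nonneg ρ hρ a r N f
    have hhh := Bf_le ρ hρ a r N h
    have h3 : Bf ρ a r N f h ^ 2 ≤ (√ (Bf ρ a r N f f) * ‖h‖) ^ 2 := by
      rw [mul_pow, Real.sq_sqrt hff]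
      exact hsq.trans (mul_le_mul_of_nonneg_left hhh hff)
    exact abs_le_of_sq_le_sq h3 (mul_nonneg (Real.sqrt_nonneg _) (norm_nonneg _))
  · have e1 := Bf_expand ρ hρ a r N g (f - g) 1
    have e2 := Bf_expand ρ hρ a r N g (f - g) (-1)
    have h2 := Bf_nonneg ρ hρ a r N (g + (-1 : ℝ) • (f - g))
    rw [e2] at h2
    have e3 : g + (1 : ℝ) • (f - g) = f := by rw [one_smul]; abel
    rw [e3] at e1
    have h4 := Bf_le ρ hρ a r N (f - g)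
    rw [e1]
    nlinarith [h2, h4]

end FLM
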