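import Pool.Agent.LibFL27.MA4
import Pool.Agent.LibFL27.MA5
import Pool.Agent.LibFL27.MA6
import Pool.Agent.LibFL27.MA7
import Pool.Agent.LibFL27.MA8

set_option autoImplicit false

open MeasureTheory ProbabilityTheory Topology Filter
open scoped NNReal

namespace FLM

private theorem MA9_rt (θ : ℝ) (p : ℝ × ℝ) : Rt θ (Rt (-θ) p) = p := by
  have h := Real.sin_sq_add_cos_sq θ
  unfold Rt
  simp only [Real.cos_neg, Real.sin_neg]
  ext
  · simp only
    linear_combination p.1 * h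
  · simp only
    linear_combination p.2 * h

private theorem MA9_inner {H : Type*} [NormedAddCommGroup H] [InnerProductSpace ℝ H]
    (T : H →L[ℝ] H) (hT : ∀ f, ‖T f‖ = ‖f‖) (x y : H) : inner ℝ (T x) (T y) = inner ℝ x y := by
  let L : H →ₗᵢ[ℝ] H := { toLinearMap := (T : H →ₗ[ℝ] H), norm_map' := fun f => hT f }
  exact L.inner_map_map x y

private theorem MA9_GfCont {H : Type*} [NormedAddCommGroup H] [InnerProductSpace ℝ H]
    [CompleteSpace H] (ρ : ℝ × ℝ → H →L[ℝ] H) (hρ : Rep2 ρ) (s t : ℝ≥0) :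
    Continuous fun f => Gf ρ s t f := by
  have hF := Gf_facts ρ hρ
  refine (LipschitzWith.of_dist_le_mul (K := 1) fun x y => ?_).continuous
  have h1 : Gf ρ s t x - Gf ρ s t y = Gf ρ s t (x - y) := by
    have h := hF.1 s t (x - y) y
    rw [sub_add_cancel] at h
    rw [h, add_sub_cancel_right]
  rw [dist_eq_norm, dist_eq_norm, h1]
  simpa using hF.2.2.2.1 s t (x - y)

private theorem MA9_avg {H : Type*} [NormedAddCommGroup H] [InnerProductSpace ℝ H]
    [CompleteSpace H] (ρ : ℝ × ℝ → H →L[ℝ] H) (hρ : Rep2 ρ) (K : ℝ → H →L[ℝ] H)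
    (hK : ∀ θ f, ‖K θ f‖ = ‖f‖)
    (hKρ : ∀ θ p f, ρ (Rt θ p) (K θ f) = K θ (ρ p f)) (s t : ℝ≥0) (f : H) :
    ∫ θ in (-Real.pi)..Real.pi, inner ℝ (Gf ρ s t (K θ f)) (K θ f) =
      ∫ θ in (-Real.pi)..Real.pi, inner ℝ (Gf ρ
        (Real.toNNReal ((s : ℝ) * Real.cos θ ^ 2 + (t : ℝ) * Real.sin θ ^ 2))
        (Real.toNNReal ((s : ℝ) * Real.cos θ ^ 2 + (t : ℝ) * Real.sin θ ^ 2)) f) f := by
  have hF := (Gf_facts ρ hρ).2.2.1
  have hφ : Continuous fun p => inner ℝ (ρ p f) f := (hρ.cont f).inner continuous_const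
  have hC : ∀ p, |inner ℝ (ρ p f) f| ≤ ‖f‖ * ‖f‖ := by
    intro p
    have h := abs_real_inner_le_norm (ρ p f) f
    rwa [hρ.iso] at h
  have h1 : ∀ θ, inner ℝ (Gf ρ s t (K θ f)) (K θ f) =
      (fun θ' => ∫ p, inner ℝ (ρ (Rt θ' p) f) f ∂(gg s t)) (-θ) := by
    intro θ
    rw [hF]
    refine integral_congr_ae (Filter.Eventually.of_forall fun p => ?_)
    change inner ℝ (ρ p (K θ f)) (K θ f) = inner ℝ (ρ (Rt (-θ) p) f) f
    have h2 := hKρ θ (Rt (-θ) p) f
    rw [MA9_rt] at h2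
    rw [h2, MA9_inner (K θ) (hK θ)]
  calc ∫ θ in (-Real.pi)..Real.pi, inner ℝ (Gf ρ s t (K θ f)) (K θ f)
      = ∫ θ in (-Real.pi)..Real.pi,
          (fun θ' => ∫ p, inner ℝ (ρ (Rt θ' p) f) f ∂(gg s t)) (-θ) := by
        refine intervalIntegral.integral_congr fun θ _ => ?_
        exact h1 θ
    _ = ∫ θ in (-Real.pi)..Real.pi, ∫ p, inner ℝ (ρ (Rt θ p) f) f ∂(gg s t) := by
        have h := intervalIntegral.integral_comp_neg (a := -Real.pi) (b := Real.pi)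
          (fun θ' => ∫ p, inner ℝ (ρ (Rt θ' p) f) f ∂(gg s t))
        rw [neg_neg] at h
        exact h
    _ = _ := by
        rw [polar_avg (fun p => inner ℝ (ρ p f) f) hφ _ hC s t]
        refine intervalIntegral.integral_congr fun θ _ => ?_
        rw [← hF]

private theorem MA9_w (a r : ℝ≥0) (j : ℕ) (θ : ℝ) :
    Real.toNNReal (((a * (r * 2 ^ j) : ℝ≥0) : ℝ) * Real.cos θ ^ 2 +
      ((r * 2 ^ j : ℝ≥0) : ℝ) * Real.sin θ ^ 2) =
      2 ^ j * (a * r * Real.toNNReal (Real.cos θ ^ 2) + r * Real.toNNReal (Real.sin θ ^ 2)) := by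
  apply NNReal.eq
  rw [Real.coe_toNNReal _ (by positivity)]
  push_cast
  rw [Real.coe_toNNReal _ (sq_nonneg _), Real.coe_toNNReal _ (sq_nonneg _)]
  ring

private theorem MA9_w2 (a r : ℝ≥0) (j : ℕ) (θ : ℝ) :
    Real.toNNReal (((2 * a * (r * 2 ^ j) : ℝ≥0) : ℝ) * Real.cos θ ^ 2 +
      ((r * 2 ^ j : ℝ≥0) : ℝ) * Real.sin θ ^ 2) =
      2 ^ j * (2 * (a * r * Real.toNNReal (Real.cos θ ^ 2)) +
        r * Real.toNNReal (Real.sin θ ^ 2)) := by
  apply NNReal.eq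
  rw [Real.coe_toNNReal _ (by positivity)]
  push_cast
  rw [Real.coe_toNNReal _ (sq_nonneg _), Real.coe_toNNReal _ (sq_nonneg _)]
  ring

/-- Row MA9 (average of the cone form over the rotations). As `ρ p (K θ f) = K θ (ρ (Rt (-θ) p) f)`
(`Rt θ (Rt (-θ) p) = p`) and `K θ` is isometric, `⟨G(s,t) K θ f, K θ f⟩ =
∫ ⟨ρ (Rt (-θ) p) f, f⟩ d(gg s t)`; MA6 (substitute `θ → -θ`) gives
`∫ ⟨G(s,t) K θ f, K θ f⟩ dθ = ∫ u (s cos² θ + t sin² θ) dθ`, `u r = ⟨G(r,r) f, f⟩`. For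
`s = a r_j` or `2 a r_j`, `t = r_j` sum over `j` and use MA5 with `A = a r cos² θ`,
`B = r sin² θ`, `M = ‖f‖²` (MA3, MA4), then MA7. -/
theorem Bf_avg {H : Type*} [NormedAddCommGroup H] [InnerProductSpace ℝ H] [CompleteSpace H]
    (ρ : ℝ × ℝ → H →L[ℝ] H) (hρ : Rep2 ρ) (K : ℝ → H →L[ℝ] H) (hK : ∀ θ f, ‖K θ f‖ = ‖f‖)
    (hKc : ∀ f, Continuous fun θ => K θ f)
    (hKρ : ∀ θ p f, ρ (Rt θ p) (K θ f) = K θ (ρ p f)) (a r : ℝ≥0) (ha : 0 < a) (ha1 : a ≤ 1)
    (hr : 0 < r) (N : ℕ) (f : H) :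
    ∫ θ in (-Real.pi)..Real.pi, Bf ρ a r N (K θ f) (K θ f) ≤ 40 * √ (a : ℝ) * ‖f‖ ^ 2 := by
  classical
  have hpos := Gf_pos ρ hρ
  have hcont := (Gf_cont ρ hρ).1 f
  set u : ℝ≥0 → ℝ := fun x => inner ℝ (Gf ρ x x f) f with hu
  have hc : Continuous u := by
    have h := hcont.comp (Continuous.prodMk (continuous_id (X := ℝ≥0)) continuous_id)
    exact Continuous.inner h continuous_const
  have h0 : ∀ x, 0 ≤ u x := fun x => hpos.1 x x f
  have hM : ∀ x, u x ≤ ‖f‖ ^ 2 := fun x => hpos.2.1 x x f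
  have hanti : Antitone u := by
    intro x y hxy
    have h := hpos.2.2.1 x x (y - x) (y - x) f
    rwa [add_tsub_cancel_of_le hxy] at h
  have hm : ∀ x h, 2 * u (x + h) ≤ u x + u (x + 2 * h) := fun x h => hpos.2.2.2 x h f
  -- continuity of the single terms
  have hG : ∀ s t : ℝ≥0, Continuous fun θ => inner ℝ (Gf ρ s t (K θ f)) (K θ f) := fun s t =>
    ((MA9_GfCont ρ hρ s t).comp (hKc f)).inner (hKc f)
  have hU : ∀ s t : ℝ≥0, Continuous fun θ : ℝ => u (Real.toNNReal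
      ((s : ℝ) * Real.cos θ ^ 2 + (t : ℝ) * Real.sin θ ^ 2)) := fun s t => by
    refine hc.comp (continuous_real_toNNReal.comp ?_)
    fun_prop
  have hstep : ∫ θ in (-Real.pi)..Real.pi, Bf ρ a r N (K θ f) (K θ f) =
      ∫ θ in (-Real.pi)..Real.pi, ∑ j ∈ Finset.range N,
        (u (2 ^ j * (a * r * Real.toNNReal (Real.cos θ ^ 2) + r * Real.toNNReal (Real.sin θ ^ 2))) -
          u (2 ^ j * (2 * (a * r * Real.toNNReal (Real.cos θ ^ 2)) +
            r * Real.toNNReal (Real.sin θ ^ 2)))) := by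
    have e1 : ∫ θ in (-Real.pi)..Real.pi, Bf ρ a r N (K θ f) (K θ f) =
        ∑ j ∈ Finset.range N, ((∫ θ in (-Real.pi)..Real.pi,
          inner ℝ (Gf ρ (a * (r * 2 ^ j)) (r * 2 ^ j) (K θ f)) (K θ f)) -
          ∫ θ in (-Real.pi)..Real.pi,
            inner ℝ (Gf ρ (2 * a * (r * 2 ^ j)) (r * 2 ^ j) (K θ f)) (K θ f)) := by
      unfold Bf
      rw [intervalIntegral.integral_finsetSum]
      · refine Finset.sum_congr rfl fun j _ => ?_
        rw [intervalIntegral.integral_sub]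
        · exact (hG _ _).intervalIntegrable _ _
        · exact (hG _ _).intervalIntegrable _ _
      · intro j _
        exact ((hG _ _).sub (hG _ _)).intervalIntegrable _ _
    have e2 : ∫ θ in (-Real.pi)..Real.pi, ∑ j ∈ Finset.range N,
        (u (2 ^ j * (a * r * Real.toNNReal (Real.cos θ ^ 2) + r * Real.toNNReal (Real.sin θ ^ 2))) -
          u (2 ^ j * (2 * (a * r * Real.toNNReal (Real.cos θ ^ 2)) +
            r * Real.toNNReal (Real.sin θ ^ 2)))) =
        ∑ j ∈ Finset.range N, ((∫ θ in (-Real.pi)..Real.pi, u (Real.toNNReal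
          (((a * (r * 2 ^ j) : ℝ≥0) : ℝ) * Real.cos θ ^ 2 +
            ((r * 2 ^ j : ℝ≥0) : ℝ) * Real.sin θ ^ 2))) -
          ∫ θ in (-Real.pi)..Real.pi, u (Real.toNNReal
          (((2 * a * (r * 2 ^ j) : ℝ≥0) : ℝ) * Real.cos θ ^ 2 +
            ((r * 2 ^ j : ℝ≥0) : ℝ) * Real.sin θ ^ 2))) := by
      have e3 : ∀ θ : ℝ, ∑ j ∈ Finset.range N,
          (u (2 ^ j * (a * r * Real.toNNReal (Real.cos θ ^ 2) +
            r * Real.toNNReal (Real.sin θ ^ 2))) -
          u (2 ^ j * (2 * (a * r * Real.toNNReal (Real.cos θ ^ 2)) +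
            r * Real.toNNReal (Real.sin θ ^ 2)))) =
          ∑ j ∈ Finset.range N, (u (Real.toNNReal
          (((a * (r * 2 ^ j) : ℝ≥0) : ℝ) * Real.cos θ ^ 2 +
            ((r * 2 ^ j : ℝ≥0) : ℝ) * Real.sin θ ^ 2)) -
          u (Real.toNNReal
          (((2 * a * (r * 2 ^ j) : ℝ≥0) : ℝ) * Real.cos θ ^ 2 +
            ((r * 2 ^ j : ℝ≥0) : ℝ) * Real.sin θ ^ 2))) := by
        intro θ
        refine Finset.sum_congr rfl fun j _ => ?_
        rw [MA9_w, MA9_w2]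
      simp_rw [e3]
      rw [intervalIntegral.integral_finsetSum]
      · refine Finset.sum_congr rfl fun j _ => ?_
        rw [intervalIntegral.integral_sub]
        · exact (hU _ _).intervalIntegrable _ _
        · exact (hU _ _).intervalIntegrable _ _
      · intro j _
        exact ((hU _ _).sub (hU _ _)).intervalIntegrable _ _
    rw [e1, e2]
    refine Finset.sum_congr rfl fun j _ => ?_
    rw [MA9_avg ρ hρ K hK hKρ, MA9_avg ρ hρ K hK hKρ]
  have hden : ∀ θ : ℝ, 0 < (a : ℝ) * Real.cos θ ^ 2 + Real.sin θ ^ 2 := by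
    intro θ
    have ha' : (0 : ℝ) < a := by exact_mod_cast ha
    have ha1' : (a : ℝ) ≤ 1 := by exact_mod_cast ha1
    have h1 := Real.sin_sq_add_cos_sq θ
    have h2 : 0 ≤ (1 - (a : ℝ)) * Real.sin θ ^ 2 :=
      mul_nonneg (by linarith) (sq_nonneg _)
    have h3 : (a : ℝ) * Real.cos θ ^ 2 + Real.sin θ ^ 2 =
        a + (1 - (a : ℝ)) * Real.sin θ ^ 2 := by
      linear_combination (a : ℝ) * h1
    rw [h3]
    linarith
  have hpt : ∀ θ : ℝ, ∑ j ∈ Finset.range N,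
        (u (2 ^ j * (a * r * Real.toNNReal (Real.cos θ ^ 2) + r * Real.toNNReal (Real.sin θ ^ 2))) -
          u (2 ^ j * (2 * (a * r * Real.toNNReal (Real.cos θ ^ 2)) +
            r * Real.toNNReal (Real.sin θ ^ 2)))) ≤
      2 * ‖f‖ ^ 2 * ((a : ℝ) * Real.cos θ ^ 2 /
        ((a : ℝ) * Real.cos θ ^ 2 + Real.sin θ ^ 2)) := by
    intro θ
    have hr' : (0 : ℝ) < r := by exact_mod_cast hr
    have hAB : 0 < a * r * Real.toNNReal (Real.cos θ ^ 2) +
        r * Real.toNNReal (Real.sin θ ^ 2) := by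
      rw [← NNReal.coe_pos]
      push_cast
      rw [Real.coe_toNNReal _ (sq_nonneg _), Real.coe_toNNReal _ (sq_nonneg _)]
      have h := mul_pos hr' (hden θ)
      linarith
    have h := conv_sum u (‖f‖ ^ 2) h0 hM hc hanti hm (a * r * Real.toNNReal (Real.cos θ ^ 2))
      (r * Real.toNNReal (Real.sin θ ^ 2)) hAB N
    refine h.trans (le_of_eq ?_)
    push_cast
    rw [Real.coe_toNNReal _ (sq_nonneg _), Real.coe_toNNReal _ (sq_nonneg _)]
    have h5 : (a : ℝ) * r * Real.cos θ ^ 2 / ((a : ℝ) * r * Real.cos θ ^ 2 + r * Real.sin θ ^ 2) =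
        (a : ℝ) * Real.cos θ ^ 2 / ((a : ℝ) * Real.cos θ ^ 2 + Real.sin θ ^ 2) := by
      have h6 : (a : ℝ) * r * Real.cos θ ^ 2 + r * Real.sin θ ^ 2 =
          r * ((a : ℝ) * Real.cos θ ^ 2 + Real.sin θ ^ 2) := by ring
      rw [h6, div_eq_div_iff (mul_pos hr' (hden θ)).ne' (hden θ).ne']
      ring
    rw [h5]
    ring
  have hL : Continuous fun θ : ℝ => ∑ j ∈ Finset.range N,
        (u (2 ^ j * (a * r * Real.toNNReal (Real.cos θ ^ 2) + r * Real.toNNReal (Real.sin θ ^ 2))) -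
          u (2 ^ j * (2 * (a * r * Real.toNNReal (Real.cos θ ^ 2)) +
            r * Real.toNNReal (Real.sin θ ^ 2)))) := by
    refine continuous_finsetSum _ fun j _ => ?_
    have hco : Continuous fun θ : ℝ => Real.toNNReal (Real.cos θ ^ 2) :=
      continuous_real_toNNReal.comp (by fun_prop)
    have hsi : Continuous fun θ : ℝ => Real.toNNReal (Real.sin θ ^ 2) :=
      continuous_real_toNNReal.comp (by fun_prop)
    exact (hc.comp (continuous_const.mul
      ((continuous_const.mul hco).add (continuous_const.mul hsi)))).sub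
      (hc.comp (continuous_const.mul ((continuous_const.mul (continuous_const.mul hco)).add
        (continuous_const.mul hsi))))
  have hR : Continuous fun θ : ℝ => 2 * ‖f‖ ^ 2 * ((a : ℝ) * Real.cos θ ^ 2 /
        ((a : ℝ) * Real.cos θ ^ 2 + Real.sin θ ^ 2)) := by
    refine continuous_const.mul (Continuous.div (by fun_prop) (by fun_prop) fun θ => ?_)
    exact (hden θ).ne'
  rw [hstep]
  have hpi : -Real.pi ≤ Real.pi := by linarith [Real.pi_pos]
  refine (intervalIntegral.integral_mono hpi (hL.intervalIntegrable _ _)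
    (hR.intervalIntegrable _ _) hpt).trans ?_
  rw [intervalIntegral.integral_const_mul]
  have hci := cone_int (a : ℝ) (by exact_mod_cast ha) (by exact_mod_cast ha1)
  have hn : 0 ≤ 2 * ‖f‖ ^ 2 := by positivity
  calc 2 * ‖f‖ ^ 2 * ∫ θ in (-Real.pi)..Real.pi, (a : ℝ) * Real.cos θ ^ 2 /
        ((a : ℝ) * Real.cos θ ^ 2 + Real.sin θ ^ 2)
      ≤ 2 * ‖f‖ ^ 2 * (20 * √ (a : ℝ)) := mul_le_mul_of_nonneg_left hci hn
    _ = 40 * √ (a : ℝ) * ‖f‖ ^ 2 := by ring

end FLM
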