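import Pool.Agent.LibFL27.MG

set_option autoImplicit false

open Matrix MeasureTheory Topology Filter LibNC38
open LibNC27 hiding Mt

namespace FLM

private theorem MB1_mat {n : ℕ} (i j : Fin n) (h : i ≠ j) (s c : ℝ) (hc : c ≠ 0) :
    tv i j h ((Real.exp s - 1) / c) * tv j i h.symm c *
      tv i j h (-((Real.exp s - 1) / (c * Real.exp s))) =
    dgm (s • Hv i j) * tv j i h.symm (c * Real.exp s) := by
  apply Subtype.ext
  show Matrix.transvection i j ((Real.exp s - 1) / c) * Matrix.transvection j i c *
      Matrix.transvection i j (-((Real.exp s - 1) / (c * Real.exp s))) =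
    Matrix.diagonal (fun a => Real.exp ((s • Hv i j).1 a)) *
      Matrix.transvection j i (c * Real.exp s)
  have hl : Real.exp s ≠ 0 := (Real.exp_pos s).ne'
  have hy : ∀ a, (s • Hv i j).1 a = s * ((if a = i then (1 : ℝ) else 0) - (if a = j then 1 else 0)) :=
    fun a => rfl
  have e1 : Matrix.transvection i j ((Real.exp s - 1) / c) * Matrix.transvection j i c *
      Matrix.transvection i j (-((Real.exp s - 1) / (c * Real.exp s))) =
      1 + Matrix.single j i c + Matrix.single i i (Real.exp s - 1) +
        Matrix.single j j (Real.exp (-s) - 1) := by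
    unfold Matrix.transvection
    rw [Real.exp_neg]
    ext p q
    simp only [Matrix.add_mul, Matrix.mul_add, Matrix.one_mul, Matrix.mul_one,
      Matrix.single_mul_single_same, Matrix.single_mul_single_of_ne _ _ _ _ h.symm,
      Matrix.add_apply, Matrix.single_apply, Matrix.zero_apply]
    by_cases hpi : i = p
    · by_cases hqj : j = q
      · subst hpi
        subst hqj
        simp only [h, h.symm, and_self, and_false, false_and, if_true, if_false,
          Matrix.one_apply_ne h]
        field_simp
        ring
      · have hpj : ¬ j = p := fun h1 => h (hpi.trans h1.symm)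
        simp only [hpi, hqj, hpj, and_self, and_false, false_and, if_false, true_and]
        by_cases hqi : i = q
        · have : p = q := hpi.symm.trans hqi
          subst this
          simp only [if_true, Matrix.one_apply_eq]
          field_simp
          ring
        · have : ¬ p = q := fun h1 => hqi (hpi.trans h1)
          simp [this]
    · by_cases hpj : j = p
      · simp only [hpi, hpj, false_and, true_and, if_false]
        by_cases hqj : j = q
        · have h2 : p = q := hpj.symm.trans hqj
          have hqi : ¬ i = q := fun h1 => h (h1.trans hqj.symm)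
          have hqi' : ¬ i = p := hpi
          simp only [hqj, hqi, h2, if_true, if_false, Matrix.one_apply_eq]
          field_simp
          ring
        · have h2 : ¬ p = q := fun h1 => hqj (hpj.trans h1)
          simp only [hqj, if_false, Matrix.one_apply_ne h2, h2]
          by_cases hqi : i = q
          · simp [hqi]
          · simp [hqi]
      · simp [hpi, hpj]
  rw [e1]
  ext p q
  rw [Matrix.diagonal_mul, hy]
  unfold Matrix.transvection
  simp only [Matrix.add_apply, Matrix.single_apply]
  by_cases hpi : p = i
  · subst hpi
    have h1 : ¬ j = p := fun h1 => h h1.symm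
    simp only [h, h1, false_and, if_false, if_true, true_and, sub_zero, mul_one, add_zero]
    by_cases hq : p = q
    · subst hq
      simp
    · simp [hq, Matrix.one_apply_ne hq]
  · have hpi' : ¬ i = p := fun h1 => hpi h1.symm
    by_cases hpj : p = j
    · subst hpj
      simp only [hpi, hpi', false_and, if_false, if_true, true_and, zero_sub, mul_neg, mul_one,
        add_zero]
      by_cases hq : p = q
      · subst hq
        have h3 : ¬ i = p := h
        simp [h3]
      · have h4 : ¬ p = q := hq
        simp only [Matrix.one_apply_ne hq, h4, if_false, add_zero, zero_add]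
        by_cases hqi : i = q
        · simp only [hqi, if_true]
          rw [Real.exp_neg]
          field_simp
        · simp [hqi]
    · have hpj' : ¬ j = p := fun h1 => hpj h1.symm
      simp [hpi, hpj, hpi', hpj']

/-- Row MB1 (Mautner, first step). Let `φ a = ⟨π a f, f⟩`; `φ (u a u') = φ a` for `u, u'` in
`tv i j h ℝ`. For `c ≠ 0`, `l = e^s`: `tv i j ((l-1)/c) * tv j i c * tv i j (-(l-1)/(c l)) =
dgm (s • Hv i j) * tv j i (c l)` (a 2 x 2 computation; entrywise), so `φ (tv j i c) =
φ (dgm (s • Hv i j) * tv j i (c l))`; let `c → 0` (strong continuity, `tv_cont`):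
`‖f‖² = φ (dgm (s • Hv i j))`, hence `‖π (dgm ..) f - f‖² = 0`. -/
theorem maut_diag {n : ℕ} {H : Type*} [NormedAddCommGroup H] [InnerProductSpace ℝ H]
    (π : SL n → H →L[ℝ] H) (hπ : RepG π) (i j : Fin n) (h : i ≠ j) (f : H)
    (hf : ∀ r, π (tv i j h r) f = f) (s : ℝ) : π (dgm (s • Hv i j)) f = f := by
  have hD : ∀ (u x u' : SL n), π u f = f → π u' f = f →
      ‖π (u * x * u') f - f‖ = ‖π x f - f‖ := by
    intro u x u' hu hu'
    have e1 : π (u * x * u') f - f = π u (π x f - f) := by
      rw [hπ.mul, hu', hπ.mul, map_sub, hu]
    rw [e1, hπ.iso]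
  have hc1 : Continuous fun c : ℝ => ‖π (tv j i h.symm c) f - f‖ :=
    (((hπ.cont f).comp (tv_cont j i h.symm)).sub continuous_const).norm
  have hc2 : Continuous fun c : ℝ =>
      ‖π (dgm (s • Hv i j) * tv j i h.symm (c * Real.exp s)) f - f‖ := by
    have h3 : Continuous fun c : ℝ => π (dgm (s • Hv i j)) (π (tv j i h.symm (c * Real.exp s)) f) :=
      (π (dgm (s • Hv i j))).continuous.comp
        ((hπ.cont f).comp ((tv_cont j i h.symm).comp (continuous_id.mul continuous_const)))
    simp only [hπ.mul]
    exact (h3.sub continuous_const).norm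
  have heq : Set.EqOn (fun c : ℝ => ‖π (tv j i h.symm c) f - f‖)
      (fun c : ℝ => ‖π (dgm (s • Hv i j) * tv j i h.symm (c * Real.exp s)) f - f‖) {0}ᶜ := by
    intro c hc
    have hc0 : c ≠ 0 := hc
    show ‖π (tv j i h.symm c) f - f‖ =
      ‖π (dgm (s • Hv i j) * tv j i h.symm (c * Real.exp s)) f - f‖
    rw [← MB1_mat i j h s c hc0]
    exact (hD _ _ _ (hf _) (hf _)).symm
  have hall := Continuous.ext_on (dense_compl_singleton (0 : ℝ)) hc1 hc2 heq
  have h0 := congrFun hall 0
  simp only [zero_mul, tv_zero, mul_one, hπ.one, sub_self, norm_zero] at h0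
  exact sub_eq_zero.1 (norm_eq_zero.1 h0.symm)

end FLM
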