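import Pool.Agent.LibFL27.MG

set_option autoImplicit false

open Matrix MeasureTheory Topology Filter LibNC38
open LibNC27 hiding Mt

namespace FLM

/-- Row MB2 (Mautner, contraction; compare `LibNC38.J2a` `mautner`). `f` is fixed by `dgm (m • w)`,
`m ∈ ℤ`; `tv i j h r * dgm y = dgm y * tv i j h (r * exp (y j - y i))` (`tv_conj`), so
`‖π (tv i j h r) f - f‖ = ‖π (tv i j h (r * exp (m (w j - w i)))) f - f‖ → 0` for `m → ± ∞`. -/
theorem maut_root {n : ℕ} {H : Type*} [NormedAddCommGroup H] [InnerProductSpace ℝ H]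
    (π : SL n → H →L[ℝ] H) (hπ : RepG π) (w : V0 n) (f : H) (hf : π (dgm w) f = f)
    (i j : Fin n) (h : i ≠ j) (hw : w.1 i ≠ w.1 j) (r : ℝ) : π (tv i j h r) f = f := by
  obtain ⟨-, hadd, -, -, -, -, -, -, -, -, -, hz⟩ := @flat_facts n
  have hnat : ∀ m : ℕ, π (dgm (m • w)) f = f := by
    intro m
    induction m with
    | zero => rw [zero_smul, hz, hπ.one]
    | succ m ih => rw [succ_nsmul, hadd, hπ.mul, hf, ih]
  have hneg : ∀ m : ℕ, π (dgm (m • (-w))) f = f := by
    intro m
    have h1 : dgm (m • (-w)) * dgm (m • w) = 1 := by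
      rw [← hadd, smul_neg, neg_add_cancel, hz]
    have h2 : π (dgm (m • (-w)) * dgm (m • w)) f = f := by rw [h1, hπ.one]
    rwa [hπ.mul, hnat] at h2
  have main : ∀ z : V0 n, (∀ m : ℕ, π (dgm (m • z)) f = f) → z.1 j < z.1 i →
      π (tv i j h r) f = f := by
    intro z hzinv hlt
    have hlim : Tendsto (fun m : ℕ => tv i j h (r * Real.exp ((m • z).1 j - (m • z).1 i)))
        atTop (𝓝 (1 : SL n)) := by
      rw [← tv_zero i j h]
      refine (tv_cont i j h).continuousAt.tendsto.comp ?_
      have h2 : Tendsto (fun m : ℕ => r * Real.exp (-((z.1 i - z.1 j) * m))) atTop (𝓝 (r * 0)) := by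
        refine Tendsto.const_mul r ?_
        refine Real.tendsto_exp_neg_atTop_nhds_zero.comp ?_
        exact tendsto_natCast_atTop_atTop.const_mul_atTop (by linarith)
      rw [mul_zero] at h2
      refine h2.congr fun m => ?_
      congr 2
      have e1 : (m • z).1 j = (m : ℝ) * z.1 j := by
        simp [nsmul_eq_mul]
      have e2 : (m • z).1 i = (m : ℝ) * z.1 i := by
        simp [nsmul_eq_mul]
      rw [e1, e2]; ring
    have hlim2 : Tendsto (fun m : ℕ =>
        ‖π (tv i j h (r * Real.exp ((m • z).1 j - (m • z).1 i))) f - f‖) atTop (𝓝 ‖π 1 f - f‖) :=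
      ((((hπ.cont f).tendsto 1).comp hlim).sub_const f).norm
    have heq : ∀ m : ℕ, ‖π (tv i j h (r * Real.exp ((m • z).1 j - (m • z).1 i))) f - f‖ =
        ‖π (tv i j h r) f - f‖ := by
      intro m
      have h3 : π (tv i j h r * dgm (m • z)) f =
          π (dgm (m • z) * tv i j h (r * Real.exp ((m • z).1 j - (m • z).1 i))) f := by
        rw [tv_conj]
      rw [hπ.mul, hπ.mul, hzinv] at h3
      have h4 : π (tv i j h r) f - f = π (dgm (m • z))
          (π (tv i j h (r * Real.exp ((m • z).1 j - (m • z).1 i))) f - f) := by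
        rw [map_sub, hzinv, h3]
      rw [h4, hπ.iso]
    have h5 : ‖π (tv i j h r) f - f‖ = ‖π 1 f - f‖ :=
      tendsto_nhds_unique (tendsto_const_nhds.congr fun m => (heq m).symm) hlim2
    rw [hπ.one, sub_self, norm_zero, norm_eq_zero, sub_eq_zero] at h5
    exact h5
  rcases lt_or_gt_of_ne hw with h' | h'
  · refine main (-w) hneg ?_
    show -(w.1 j) < -(w.1 i)
    linarith
  · exact main w hnat h'

end FLM
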