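import Pool.Agent.LibFL27.MB1
import Pool.Agent.LibFL27.MB2

set_option autoImplicit false

open Matrix MeasureTheory Topology Filter LibNC38
open LibNC27 hiding Mt

namespace FLM

/-- Row MB3 (Mautner). By MB1 `f` is fixed by `dgm w`, `w = Hv i j ≠ 0`; by MB2 by all `tv p q` with
`w p ≠ w q`; if `w p = w q` there is `k` with `w k ≠ w p` and `tv p q c` is the commutator of `tv p k c`
and `tv k q 1` (`tv_comm`, see `mautner_all` in `LibNC38.J2`); `gen_tv` (`LibNC38.J3`) and
`Subgroup.closure_induction` (see `const_of_inv` in `LibNC38.J4`). -/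
theorem maut_all {n : ℕ} {H : Type*} [NormedAddCommGroup H] [InnerProductSpace ℝ H]
    (π : SL n → H →L[ℝ] H) (hπ : RepG π) (i j : Fin n) (h : i ≠ j) (f : H)
    (hf : ∀ r, π (tv i j h r) f = f) (a : SL n) : π a f = f := by
  have hwd : π (dgm (Hv i j)) f = f := by
    have h1 := maut_diag π hπ i j h f hf 1
    rwa [one_smul] at h1
  have hHv : ∀ a, (Hv i j : V0 n).1 a =
      (if a = i then (1 : ℝ) else 0) - (if a = j then 1 else 0) := fun a => rfl
  have hwi : (Hv i j : V0 n).1 i = 1 := by
    rw [hHv, if_pos rfl, if_neg h, sub_zero]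
  have hwj : (Hv i j : V0 n).1 j = -1 := by
    rw [hHv, if_pos rfl, if_neg h.symm, zero_sub]
  have hroot : ∀ (p q : Fin n) (hpq : p ≠ q), (Hv i j : V0 n).1 p ≠ (Hv i j : V0 n).1 q →
      ∀ c : ℝ, π (tv p q hpq c) f = f :=
    fun p q hpq hne c => maut_root π hπ (Hv i j) f hwd p q hpq hne c
  have hall : ∀ (p q : Fin n) (hpq : p ≠ q) (c : ℝ), π (tv p q hpq c) f = f := by
    intro p q hpq c
    by_cases hne : (Hv i j : V0 n).1 p = (Hv i j : V0 n).1 q
    · have hex : ∃ k, (Hv i j : V0 n).1 k ≠ (Hv i j : V0 n).1 p := by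
        by_cases h1 : (Hv i j : V0 n).1 p = 1
        · refine ⟨j, ?_⟩
          rw [hwj, h1]
          norm_num
        · exact ⟨i, by rw [hwi]; exact Ne.symm h1⟩
      obtain ⟨k, hk⟩ := hex
      have hpk : p ≠ k := by
        rintro rfl
        exact hk rfl
      have hkq : k ≠ q := by
        rintro rfl
        exact hk hne.symm
      have hA : ∀ c : ℝ, π (tv p k hpk c) f = f := hroot p k hpk (Ne.symm hk)
      have hB : ∀ c : ℝ, π (tv k q hkq c) f = f := hroot k q hkq (by rw [← hne]; exact hk)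
      have h1 : π (tv p k hpk c * tv k q hkq 1) f = f := by
        rw [hπ.mul, hB, hA]
      rw [tv_comm p q k hpq hpk hkq c, hπ.mul, hπ.mul, hA, hB] at h1
      exact h1
    · exact hroot p q hpq hne c
  let S : Subgroup (SL n) :=
    { carrier := {g | π g f = f}
      one_mem' := hπ.one f
      mul_mem' := fun {a b} ha hb => by
        show π (a * b) f = f
        have ha' : π a f = f := ha
        have hb' : π b f = f := hb
        rw [hπ.mul, hb', ha']
      inv_mem' := fun {a} ha => by
        show π a⁻¹ f = f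
        have ha' : π a f = f := ha
        have h1 : π (a⁻¹ * a) f = π a⁻¹ f := by rw [hπ.mul, ha']
        rw [← h1, inv_mul_cancel, hπ.one] }
  have h1 : Subgroup.closure {g : SL n | ∃ (i j : Fin n) (h : i ≠ j) (c : ℝ), g = tv i j h c} ≤
      S := by
    rw [Subgroup.closure_le]
    rintro _ ⟨p, q, hpq, c, rfl⟩
    exact hall p q hpq c
  rw [gen_tv] at h1
  exact h1 (Subgroup.mem_top a)

end FLM
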