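import Pool.Agent.LibFL27.MB3
import Pool.Agent.LibFL27.MA11
import Pool.Agent.LibFL27.MA14
import Pool.Agent.LibNC27.V1

set_option autoImplicit false

open Matrix MeasureTheory Topology Filter LibNC38
open LibNC27 hiding Mt

namespace FLM

/-- the two transvections -/
private def tt {n : ℕ} (i j k : Fin n) (hik : i ≠ k) (hjk : j ≠ k) (p : ℝ × ℝ) : SL n :=
  tv i k hik p.1 * tv j k hjk p.2

private theorem tt_val {n : ℕ} (i j k : Fin n) (hik : i ≠ k) (hjk : j ≠ k) (p : ℝ × ℝ) :
    (tt i j k hik hjk p).1 = 1 + (Matrix.single i k p.1 + Matrix.single j k p.2) := by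
  show Matrix.transvection i k p.1 * Matrix.transvection j k p.2 = _
  unfold Matrix.transvection
  have h1 : Matrix.single i k p.1 * Matrix.single j k p.2 = 0 :=
    Matrix.single_mul_single_of_ne _ _ _ _ (Ne.symm hjk) _
  rw [Matrix.add_mul, Matrix.mul_add, Matrix.mul_add, h1, Matrix.one_mul, Matrix.one_mul,
    Matrix.mul_one, add_zero, add_assoc, add_comm (Matrix.single j k p.2)]

private theorem tt_zero {n : ℕ} (i j k : Fin n) (hik : i ≠ k) (hjk : j ≠ k) :
    tt i j k hik hjk 0 = 1 := by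
  unfold tt
  rw [Prod.fst_zero, Prod.snd_zero, tv_zero, tv_zero, one_mul]

private theorem tt_left {n : ℕ} (i j k : Fin n) (hik : i ≠ k) (hjk : j ≠ k) (r : ℝ) :
    tt i j k hik hjk (r, 0) = tv i k hik r := by
  unfold tt
  rw [tv_zero, mul_one]

private theorem tt_add {n : ℕ} (i j k : Fin n) (hik : i ≠ k) (hjk : j ≠ k) (p q : ℝ × ℝ) :
    tt i j k hik hjk (p + q) = tt i j k hik hjk p * tt i j k hik hjk q := by
  apply Subtype.ext
  show (tt i j k hik hjk (p + q)).1 = (tt i j k hik hjk p).1 * (tt i j k hik hjk q).1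
  rw [tt_val, tt_val, tt_val]
  have z : (Matrix.single i k p.1 + Matrix.single j k p.2) *
      (Matrix.single i k q.1 + Matrix.single j k q.2) = (0 : Matrix (Fin n) (Fin n) ℝ) := by
    rw [Matrix.add_mul, Matrix.mul_add, Matrix.mul_add,
      Matrix.single_mul_single_of_ne _ _ _ _ (Ne.symm hik),
      Matrix.single_mul_single_of_ne _ _ _ _ (Ne.symm hjk),
      Matrix.single_mul_single_of_ne _ _ _ _ (Ne.symm hik),
      Matrix.single_mul_single_of_ne _ _ _ _ (Ne.symm hjk)]
    simp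
  have aux : ∀ P Q : Matrix (Fin n) (Fin n) ℝ, P * Q = 0 → (1 + P) * (1 + Q) = 1 + (P + Q) := by
    intro P Q hPQ
    rw [Matrix.add_mul, Matrix.mul_add, Matrix.mul_add, hPQ, Matrix.one_mul, Matrix.one_mul,
      Matrix.mul_one, add_zero]
    abel
  rw [aux _ _ z, Prod.fst_add, Prod.snd_add, Matrix.single_add, Matrix.single_add]
  abel

private theorem tt_cont {n : ℕ} (i j k : Fin n) (hik : i ≠ k) (hjk : j ≠ k) :
    Continuous fun p => tt i j k hik hjk p := by
  have h1 : Continuous fun p : ℝ × ℝ => tv i k hik p.1 := (tv_cont i k hik).comp continuous_fst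
  have h2 : Continuous fun p : ℝ × ℝ => tv j k hjk p.2 := (tv_cont j k hjk).comp continuous_snd
  exact h1.mul h2

private theorem tt_conj {n : ℕ} (i j k : Fin n) (hik : i ≠ k) (hjk : j ≠ k) (p : ℝ × ℝ)
    (y : V0 n) :
    tt i j k hik hjk p * dgm y = dgm y * tt i j k hik hjk
      (Real.exp (-(y.1 i - y.1 k)) * p.1, Real.exp (-(y.1 j - y.1 k)) * p.2) := by
  unfold tt
  have e1 : Real.exp (-(y.1 i - y.1 k)) * p.1 = p.1 * Real.exp (y.1 k - y.1 i) := by
    rw [neg_sub, mul_comm]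
  have e2 : Real.exp (-(y.1 j - y.1 k)) * p.2 = p.2 * Real.exp (y.1 k - y.1 j) := by
    rw [neg_sub, mul_comm]
  rw [e1, e2, mul_assoc, tv_conj, ← mul_assoc, tv_conj, mul_assoc]

private theorem tt_rot {n : ℕ} (i j k : Fin n) (h : i ≠ j) (hik : i ≠ k) (hjk : j ≠ k)
    (θ : ℝ) (p : ℝ × ℝ) :
    tt i j k hik hjk (Rt θ p) * rot i j θ = rot i j θ * tt i j k hik hjk p := by
  have hr : (rot i j θ).1 = rotM i j θ := (rot_facts i j h).1 θ
  apply Subtype.ext
  show (tt i j k hik hjk (Rt θ p)).1 * (rot i j θ).1 = (rot i j θ).1 * (tt i j k hik hjk p).1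
  rw [tt_val, tt_val, hr, Matrix.add_mul, Matrix.mul_add, Matrix.one_mul, Matrix.mul_one]
  congr 1
  have hk : ∀ (c : Fin n) (x : ℝ), Matrix.single c k x * rotM i j θ = Matrix.single c k x := by
    intro c x
    ext a b
    rw [Matrix.mul_apply, Fintype.sum_eq_single k]
    · by_cases ha : c = a
      · subst ha
        rw [Matrix.single_apply, Matrix.single_apply]
        unfold rotM
        rw [if_neg hik.symm, if_neg hjk.symm]
        by_cases hb : k = b
        · subst hb
          simp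
        · simp [hb]
      · rw [Matrix.single_apply, Matrix.single_apply, if_neg (fun e => ha e.1),
          if_neg (fun e => ha e.1), zero_mul]
    · intro m hm
      rw [Matrix.single_apply, if_neg (fun e => hm e.2.symm), zero_mul]
  rw [Matrix.add_mul, hk, hk, Matrix.mul_add]
  have hc : ∀ (c : Fin n) (x : ℝ) (a b : Fin n),
      (rotM i j θ * Matrix.single c k x) a b = if k = b then rotM i j θ a c * x else 0 := by
    intro c x a b
    rw [Matrix.mul_apply, Fintype.sum_eq_single c]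
    · rw [Matrix.single_apply]
      by_cases hb : k = b
      · simp [hb]
      · simp [hb]
    · intro m hm
      rw [Matrix.single_apply, if_neg (fun e => hm e.1.symm), mul_zero]
  ext a b
  rw [Matrix.add_apply, Matrix.add_apply, hc, hc, Matrix.single_apply, Matrix.single_apply]
  unfold Rt rotM
  by_cases hb : k = b
  · subst hb
    by_cases ha : a = i
    · subst ha
      simp [h, h.symm]
    · by_cases ha' : a = j
      · subst ha'
        simp [h, h.symm]
      · simp [ha, ha', Ne.symm ha, Ne.symm ha']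
  · simp [hb]

private theorem inner_iso {H : Type*} [NormedAddCommGroup H] [InnerProductSpace ℝ H]
    (D : H →L[ℝ] H) (hD : ∀ f, ‖D f‖ = ‖f‖) (f g : H) : inner ℝ (D f) (D g) = inner ℝ f g := by
  rw [real_inner_eq_norm_add_mul_self_sub_norm_mul_self_sub_norm_mul_self_div_two,
    real_inner_eq_norm_add_mul_self_sub_norm_mul_self_sub_norm_mul_self_div_two,
    ← map_add, hD, hD, hD]

/-- Row MB4 (mixing in a Hilbert space). Choose `k ≠ i, j`. `ρ p = π (tv i k p.1 * tv j k p.2)` is a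
`Rep2` (these transvections commute and add), `K θ = π (rot i j θ)`: `tv i k x * tv j k z =
1 + (x e_i + z e_j) e_kᵀ`, so `tv.. (Rt θ p) * rot i j θ = rot i j θ * tv.. p` (`rot e_i = cos θ e_i -
sin θ e_j`, `rot e_j = sin θ e_i + cos θ e_j`); `D = π (dgm y)`, `D' = π (dgm y)⁻¹`,
`α = y i - y k`, `β = y j - y k` (`tv_conj`). `hlim` from MA14: if `ρ p g = g` for all `p` then
`g` is fixed by `tv i k`, so by everything (MB3), and `⟨D f₁, g⟩ = ⟨D f₁, D g⟩ = ⟨f₁, g⟩ = 0`. -/
theorem mix_H {n : ℕ} (hn : 3 ≤ n) {H : Type*} [NormedAddCommGroup H] [InnerProductSpace ℝ H]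
    [CompleteSpace H] (π : SL n → H →L[ℝ] H) (hπ : RepG π) (i j : Fin n) (h : i ≠ j) (y : V0 n)
    (hy : y.1 j ≤ y.1 i) (f₁ f₂ : H) (L₁ L₂ : ℝ) (hL₁ : ∀ θ, ‖π (rot i j θ) f₁ - f₁‖ ≤ L₁ * |θ|)
    (hL₂ : ∀ θ, ‖π (rot i j θ) f₂ - f₂‖ ≤ L₂ * |θ|)
    (h0 : ∀ g, (∀ a, π a g = g) → inner ℝ f₁ g = 0) :
    |inner ℝ (π (dgm y) f₁) f₂| ≤
      40 * Real.exp (-(y.1 i - y.1 j) / 6) * (‖f₁‖ + L₁) * (‖f₂‖ + L₂) := by
  obtain ⟨k, hk⟩ : ∃ k : Fin n, k ∉ ({i, j} : Finset (Fin n)) := by
    by_contra hcon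
    push Not at hcon
    have h1 : (Finset.univ : Finset (Fin n)) ⊆ {i, j} := fun x _ => hcon x
    have h2 := Finset.card_le_card h1
    rw [Finset.card_univ, Fintype.card_fin] at h2
    have h3 : ({i, j} : Finset (Fin n)).card ≤ 2 := Finset.card_le_two
    omega
  have hki : k ≠ i := fun e => hk (by rw [e]; exact Finset.mem_insert_self _ _)
  have hkj : k ≠ j := fun e => hk (by rw [e]; exact Finset.mem_insert_of_mem (Finset.mem_singleton_self _))
  have hik : i ≠ k := hki.symm
  have hjk : j ≠ k := hkj.symm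
  let ρ : ℝ × ℝ → H →L[ℝ] H := fun p => π (tt i j k hik hjk p)
  have hρ : Rep2 ρ := by
    refine ⟨fun f => ?_, fun p q f => ?_, fun p f => hπ.iso _ f, fun f => ?_⟩
    · show π (tt i j k hik hjk 0) f = f
      rw [tt_zero, hπ.one]
    · show π (tt i j k hik hjk (p + q)) f = π (tt i j k hik hjk p) (π (tt i j k hik hjk q) f)
      rw [tt_add, hπ.mul]
    · exact (hπ.cont f).comp (tt_cont i j k hik hjk)
  have hrc : Continuous fun θ => rot i j θ := (rot_facts i j h).2.2.2.2.2.1
  have key := two_cones ρ hρ (fun θ => π (rot i j θ)) (fun θ f => hπ.iso _ f)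
    (fun f => (hπ.cont f).comp hrc)
    (fun θ p f => by
      show π (tt i j k hik hjk (Rt θ p)) (π (rot i j θ) f) =
        π (rot i j θ) (π (tt i j k hik hjk p) f)
      rw [← hπ.mul, ← hπ.mul, tt_rot i j k h hik hjk])
    (π (dgm y)) (π (dgm y)⁻¹) (fun f => hπ.iso _ f)
    (fun f => by rw [← hπ.mul, mul_inv_cancel, hπ.one])
    (y.1 i - y.1 k) (y.1 j - y.1 k) (sub_le_sub_right hy _)
    (fun p f => by
      show π (tt i j k hik hjk p) (π (dgm y) f) = π (dgm y) (π (tt i j k hik hjk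
        (Real.exp (-(y.1 i - y.1 k)) * p.1, Real.exp (-(y.1 j - y.1 k)) * p.2)) f)
      rw [← hπ.mul, ← hπ.mul, tt_conj])
    f₁ f₂ L₁ L₂ hL₁ hL₂
    (fun s t hs ht => by
      refine Gf_lim ρ hρ (π (dgm y) f₁) (fun g hg => ?_) s t hs ht
      have hfix : ∀ r, π (tv i k hik r) g = g := by
        intro r
        have := hg (r, 0)
        rw [← tt_left i j k hik hjk r]
        exact this
      have hall := maut_all π hπ i k hik g hfix
      calc inner ℝ (π (dgm y) f₁) g = inner ℝ (π (dgm y) f₁) (π (dgm y) g) := by rw [hall]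
        _ = inner ℝ f₁ g := inner_iso _ (fun f => hπ.iso _ f) _ _
        _ = 0 := h0 g hall)
  have e : (y.1 i - y.1 k) - (y.1 j - y.1 k) = y.1 i - y.1 j := by ring
  rw [e] at key
  exact key

end FLM
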