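import Pool.Agent.LibFL27.MG
import Pool.Agent.LibNC38.G1a
import Pool.Agent.LibNC38.G6a

set_option autoImplicit false

open Matrix MeasureTheory Topology Filter LibNC38
open LibNC27 hiding Mt
open scoped Pointwise

namespace FLM

private theorem mc1_w {G : Type*} [Group G] [TopologicalSpace G] [IsTopologicalGroup G]
    [LocallyCompactSpace G] [T2Space G] (Γ : Subgroup G)
    (hfin : ∀ K : Set G, IsCompact K → {γ : G | γ ∈ Γ ∧ γ ∈ K}.Finite)
    (hc : ∃ Q : Set G, IsCompact Q ∧ ∀ g : G, ∃ γ ∈ Γ, γ * g ∈ Q) :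
    ∃ w : G → ℝ, Continuous w ∧ HasCompactSupport w ∧ (∀ g, 0 ≤ w g) ∧
      ∀ g, HasSum (fun γ : Γ => w (γ.1 * g)) 1 := by
  obtain ⟨Q, hQ, hQc⟩ := hc
  obtain ⟨f, f1, -, fs, f01⟩ := exists_continuous_one_zero_of_isCompact hQ isClosed_empty
    (Set.disjoint_empty Q)
  -- finitely many translates over a compact set
  have hK : ∀ K : Set G, IsCompact K →
      {γ : Γ | ∃ g ∈ K, f (γ.1 * g) ≠ 0}.Finite := by
    intro K hK
    have h1 : IsCompact (tsupport f * K⁻¹) := fs.isCompact.mul hK.inv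
    have h2 := hfin _ h1
    refine Set.Finite.of_finite_image (f := Subtype.val) (h2.subset ?_)
      Subtype.val_injective.injOn
    rintro _ ⟨γ, ⟨g, hg, hfg⟩, rfl⟩
    refine ⟨γ.2, ?_⟩
    refine Set.mem_mul.2 ⟨γ.1 * g, subset_tsupport _ hfg, g⁻¹, Set.inv_mem_inv.2 hg, ?_⟩
    group
  have hpt : ∀ g : G, {γ : Γ | f (γ.1 * g) ≠ 0}.Finite := by
    intro g
    refine (hK {g} isCompact_singleton).subset ?_
    intro γ hγ
    exact ⟨g, rfl, hγ⟩
  have hsm : ∀ g : G, Summable fun γ : Γ => f (γ.1 * g) := fun g =>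
    summable_of_hasFiniteSupport (hpt g)
  -- the sum
  have hSc : Continuous fun g : G => ∑' γ : Γ, f (γ.1 * g) := by
    have e : (fun g : G => ∑' γ : Γ, f (γ.1 * g)) = fun g : G => ∑ᶠ γ : Γ, f (γ.1 * g) := by
      funext g
      exact tsum_eq_finsum (hpt g)
    rw [e]
    refine continuous_finsum (fun γ => by fun_prop) ?_
    intro g
    obtain ⟨K, hKc, hKn⟩ := exists_compact_mem_nhds g
    refine ⟨K, hKn, (hK K hKc).subset ?_⟩
    rintro γ ⟨x, hx1, hx2⟩
    exact ⟨x, hx2, hx1⟩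
  have hSp : ∀ g : G, 0 < ∑' γ : Γ, f (γ.1 * g) := by
    intro g
    obtain ⟨γ, hγ, hγg⟩ := hQc g
    have h1 : f (γ * g) = 1 := f1 hγg
    have h2 := (hsm g).le_tsum (⟨γ, hγ⟩ : Γ) (fun j _ => (f01 _).1)
    have h3 : (1 : ℝ) ≤ ∑' γ : Γ, f (γ.1 * g) := by
      rw [← h1]; exact h2
    linarith
  have hSi : ∀ (δ : Γ) (g : G), ∑' γ : Γ, f (γ.1 * (δ.1 * g)) = ∑' γ : Γ, f (γ.1 * g) := by
    intro δ g
    rw [← (Equiv.mulRight δ).tsum_eq (fun γ : Γ => f (γ.1 * g))]
    refine tsum_congr fun γ => ?_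
    rw [Equiv.coe_mulRight, Subgroup.coe_mul, mul_assoc]
  refine ⟨fun g => f g / ∑' γ : Γ, f (γ.1 * g), ?_, ?_, ?_, ?_⟩
  · exact f.continuous.div hSc fun g => (hSp g).ne'
  · have : (fun g : G => f g / ∑' γ : Γ, f (γ.1 * g)) =
        fun g : G => f g * (∑' γ : Γ, f (γ.1 * g))⁻¹ := by
      funext g; rw [div_eq_mul_inv]
    rw [this]
    exact fs.mul_right
  · intro g
    exact div_nonneg (f01 g).1 (hSp g).le
  · intro g
    have h1 : (fun γ : Γ => f (γ.1 * g) / ∑' δ : Γ, f (δ.1 * (γ.1 * g))) =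
        fun γ : Γ => f (γ.1 * g) / ∑' δ : Γ, f (δ.1 * g) := by
      funext γ
      rw [hSi γ g]
    have h2 := (hsm g).hasSum.div_const (∑' δ : Γ, f (δ.1 * g))
    rw [div_self (hSp g).ne'] at h2
    rw [← h1] at h2
    exact h2

attribute [local instance] mSL

/-- Row MC1 (weight). `lam` = Haar measure (`SL_top`, `Measure.haar` as in `LibNC38.G1`; right
translation multiplies it by a constant, `Measure.modularCharacter` or uniqueness of Haar measure).
`f ≥ 0` continuous with compact support, `f > 0` on the compact set `Q` of `Coc` (Urysohn,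
`exists_continuous_one_of_compact_subset_open` or the distance function). `S g = ∑_γ f (γ g)`: on a
compact set only finitely many `γ` matter (`disc_finite` in `LibNC38.G6a`), so `S` is continuous,
positive, left `Γ`-invariant; `w = f / S`, then scale `lam` so that `∫ w = 1` (`w ≥ 0` continuous,
not zero, `lam` positive on open sets). -/
theorem wt_ex {n : ℕ} (Γ : Subgroup (SL n)) (hd : Disc Γ) (hc : Coc Γ) :
    ∃ (lam : Measure (SL n)) (w : SL n → ℝ), Wt Γ lam w := by
  obtain ⟨hT, hL, hS, hG, -⟩ := SL_top (n := n)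
  have : BorelSpace (SL n) := ⟨rfl⟩
  obtain ⟨w, wc, ws, w0, w1⟩ := mc1_w Γ (fun K hK => disc_finite Γ hd K hK) hc
  obtain ⟨x, hx⟩ : ∃ x, w x ≠ 0 := by
    by_contra hcon
    have h1 : ∀ x, w x = 0 := fun x => by
      by_contra h
      exact hcon ⟨x, h⟩
    have h2 := w1 1
    have h3 : (fun γ : Γ => w (γ.1 * 1)) = fun _ => 0 := by
      funext γ; exact h1 _
    rw [h3] at h2
    exact zero_ne_one (hasSum_zero.unique h2)
  have hpos : 0 < ∫ x, w x ∂(Measure.haar : Measure (SL n)) :=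
    wc.integral_pos_of_hasCompactSupport_nonneg_nonzero ws w0 hx
  set I : ℝ := ∫ x, w x ∂(Measure.haar : Measure (SL n)) with hI
  have hc0 : ENNReal.ofReal I⁻¹ ≠ 0 := by
    rw [Ne, ENNReal.ofReal_eq_zero, not_le]
    exact inv_pos.2 hpos
  have hct : ENNReal.ofReal I⁻¹ ≠ ⊤ := ENNReal.ofReal_ne_top
  refine ⟨ENNReal.ofReal I⁻¹ • Measure.haar, w, ?_⟩
  refine { sig := ?_, fin := ?_, opn := ?_, left := ?_, right := ?_, cont := wc, supp := ws,
           nonneg := w0, sum := w1, one := ?_ }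
  · have h : SigmaFinite (Real.toNNReal I⁻¹ • (Measure.haar : Measure (SL n))) := inferInstance
    exact h
  · intro K hK
    rw [Measure.smul_apply, smul_eq_mul]
    exact ENNReal.mul_lt_top hct.lt_top hK.measure_lt_top
  · intro U hU hne
    rw [Measure.smul_apply, smul_eq_mul]
    exact ENNReal.mul_pos hc0 (hU.measure_pos _ hne).ne'
  · intro g
    rw [Measure.map_smul, map_mul_left_eq_self]
  · intro q
    refine ⟨(Measure.modularCharacterFun q : NNReal), ?_, ENNReal.coe_ne_top, ?_⟩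
    · exact ENNReal.coe_ne_zero.2 (Measure.modularCharacterFun_pos q).ne'
    · have h := Measure.map_right_mul_eq_modularCharacterFun_smul
        (Measure.haar : Measure (SL n)) q
      rw [Measure.map_smul, h, smul_comm]
      rfl
  · rw [integral_smul_measure, ENNReal.toReal_ofReal (inv_pos.2 hpos).le, ← hI, smul_eq_mul,
      inv_mul_cancel₀ hpos.ne']

end FLM
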