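import Pool.Agent.LibFL27.MD
import Pool.Agent.LibNC27.RDefs

set_option autoImplicit false

open Matrix MeasureTheory Topology Filter LibNC38
open LibNC27 hiding Mt

namespace FLM

/-- strongly continuous isometric representation of `SL_n(ℝ)` -/
structure RepG {n : ℕ} {H : Type*} [NormedAddCommGroup H] [InnerProductSpace ℝ H]
    (π : SL n → H →L[ℝ] H) : Prop where
  one : ∀ f, π 1 f = f
  mul : ∀ a b f, π (a * b) f = π a (π b f)
  iso : ∀ a f, ‖π a f‖ = ‖f‖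
  cont : ∀ f, Continuous fun a => π a f

/-- the Borel σ-algebra of `SL n` (use it as a local instance) -/
@[reducible] def mSL (n : ℕ) : MeasurableSpace (SL n) := borel (SL n)

attribute [local instance] mSL

/-- Haar measure `lam` on `SL n` and a weight `w` with `∑_γ w (γ g) = 1`, `∫ w = 1` -/
structure Wt {n : ℕ} (Γ : Subgroup (SL n)) (lam : Measure (SL n)) (w : SL n → ℝ) : Prop where
  sig : SigmaFinite lam
  fin : ∀ K : Set (SL n), IsCompact K → lam K < ⊤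
  opn : ∀ U : Set (SL n), IsOpen U → U.Nonempty → 0 < lam U
  left : ∀ g : SL n, lam.map (fun x => g * x) = lam
  right : ∀ q : SL n, ∃ c : ENNReal, c ≠ 0 ∧ c ≠ ⊤ ∧ lam.map (fun x => x * q) = c • lam
  cont : Continuous w
  supp : HasCompactSupport w
  nonneg : ∀ g, 0 ≤ w g
  sum : ∀ g, HasSum (fun γ : Γ => w (γ.1 * g)) 1
  one : ∫ x, w x ∂lam = 1

/-- right invariant probability on `Γ \ G` with a lower bound for small balls and a variance
inequality -/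
structure Nu {n : ℕ} (Γ : Subgroup (SL n)) (ν : Measure (SL n)) : Prop where
  prob : ν Set.univ = 1
  cpt : ∃ K : Set (SL n), IsCompact K ∧ ν Kᶜ = 0
  inv : ∀ F, Inv Γ F → ∀ q : SL n, ∫ g, F (g * q) ∂ν = ∫ g, F g ∂ν
  low : ∃ (c0 : ℝ) (D : ℕ), 0 < c0 ∧ ∀ F, Inv Γ F → (∀ g, 0 ≤ F g) → ∀ (g : SL n) (r a : ℝ), 0 < r →
    r ≤ 1 → 0 ≤ a → (∀ q : SL n, (∀ i j, |q.1 i j - (1 : Matrix (Fin n) (Fin n) ℝ) i j| ≤ r) →
      a ≤ F (g * q)) → c0 * r ^ D * a ≤ ∫ x, F x ∂ν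
  var : ∃ (β : Measure (SL n)) (C : ℝ), β Set.univ < ⊤ ∧ 0 ≤ C ∧ ∀ F, Inv Γ F →
    ∫ x, ∫ y, (F x - F y) ^ 2 ∂ν ∂ν ≤ C * ∫ g, ∫ x, (F (x * g) - F x) ^ 2 ∂ν ∂β

/-- the Hilbert space of `Γ \ G`: completion of the continuous left `Γ`-invariant functions for
the inner product `∫ F G dν`, with the right regular representation -/
structure Model {n : ℕ} (Γ : Subgroup (SL n)) (ν : Measure (SL n)) {H : Type*}
    [NormedAddCommGroup H] [InnerProductSpace ℝ H] (ι : Fn n → H) (π : SL n → H →L[ℝ] H) : Prop where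
  rep : RepG π
  inn : ∀ F G, Inv Γ F → Inv Γ G → inner ℝ (ι F) (ι G) = ∫ x, F x * G x ∂ν
  act : ∀ F (q : SL n), Inv Γ F → π q (ι F) = ι (fun g => F (g * q))
  sub : ∀ F G, Inv Γ F → Inv Γ G → ι (fun g => F g - G g) = ι F - ι G
  dens : ∀ h : H, ∀ ε > 0, ∃ F, Inv Γ F ∧ ‖h - ι F‖ < ε

end FLM
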