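import Pool.Agent.LibFL27.Defs
import Pool.Agent.LibFL27.MG
import Pool.Agent.LibNC27.V1

set_option autoImplicit false

open Matrix MeasureTheory Topology Filter LibNC38 FL27
open LibNC27 hiding Mt

namespace FLM

/-- the generator `E_ij - E_ji` -/
private noncomputable def MC10x {n : ℕ} (i j : Fin n) : Mt n := fun a b =>
  if a = i ∧ b = j then 1 else if a = j ∧ b = i then -1 else 0

private theorem MC10_mul {n : ℕ} (i j : Fin n) (h : i ≠ j) (M : Mt n) (a b : Fin n) :
    (M * MC10x i j) a b = if b = j then M a i else if b = i then - M a j else 0 := by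
  rw [Matrix.mul_apply]
  by_cases hb : b = j
  · subst hb
    rw [if_pos rfl, Fintype.sum_eq_single i]
    · simp [MC10x]
    · intro k hk
      simp [MC10x, hk, h.symm]
  · by_cases hb' : b = i
    · subst hb'
      rw [if_neg hb, if_pos rfl, Fintype.sum_eq_single j]
      · simp [MC10x, h.symm]
      · intro k hk
        simp [MC10x, hk, hb]
    · rw [if_neg hb, if_neg hb']
      refine Finset.sum_eq_zero fun k _ => ?_
      simp [MC10x, hb, hb']

private theorem MC10_der {n : ℕ} (i j : Fin n) (h : i ≠ j) (θ : ℝ) (a b : Fin n) :
    HasDerivAt (fun s => rotM i j s a b) ((rotM i j θ * MC10x i j) a b) θ := by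
  rw [MC10_mul i j h]
  unfold rotM
  by_cases ha : a = i
  · subst ha
    by_cases hb : b = a
    · subst hb
      simp only [if_true, if_neg h, if_neg h.symm]
      exact Real.hasDerivAt_cos θ
    · by_cases hb' : b = j
      · subst hb'
        simp only [if_true, if_neg hb]
        exact Real.hasDerivAt_sin θ
      · simp only [if_true, if_neg hb, if_neg hb']
        exact hasDerivAt_const _ _
  · by_cases ha' : a = j
    · subst ha'
      by_cases hb : b = a
      · subst hb
        simp only [if_true, if_neg ha, if_neg h]
        exact Real.hasDerivAt_cos θ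
      · by_cases hb' : b = i
        · subst hb'
          simp only [if_true, if_neg ha, if_neg hb]
          exact (Real.hasDerivAt_sin θ).neg
        · simp only [if_true, if_neg ha, if_neg hb, if_neg hb']
          exact hasDerivAt_const _ _
    · simp only [if_neg ha, if_neg ha']
      by_cases hb : b = j
      · simp only [if_pos hb]
        exact hasDerivAt_const _ _
      · by_cases hb' : b = i
        · simp only [if_neg hb, if_pos hb', neg_zero]
          exact hasDerivAt_const _ _
        · simp only [if_neg hb, if_neg hb']
          exact hasDerivAt_const _ _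

/-- Row MC10. `x = E_ij - E_ji` has trace zero and entries in `[-1, 1]`; the curve
`s ↦ g * rot i j (θ + s)` has derivative `(g rot i j θ) x` at `0` (`rot_facts`: value, additivity), so by
`RD` the function `θ ↦ F (g * rot i j θ)` has derivative `F' (g * rot i j θ)`, `|F'| ≤ M`; mean
value inequality. -/
theorem BD_lip {n : ℕ} (F : Fn n) (M : ℝ) (hF : BD 1 M F) (i j : Fin n) (h : i ≠ j) (g : SL n)
    (θ : ℝ) : |F (g * rot i j θ) - F g| ≤ M * |θ| := by
  have hR := rot_facts i j h
  obtain ⟨F', hRD, hF'⟩ := hF.2 (MC10x i j) (by
    unfold Matrix.trace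
    refine Finset.sum_eq_zero fun k _ => ?_
    simp only [Matrix.diag_apply, MC10x]
    rw [if_neg (fun hk => h (hk.1.symm.trans hk.2)), if_neg (fun hk => h (hk.2.symm.trans hk.1))]) (by
    intro a b
    unfold MC10x
    split_ifs <;> simp)
  have hder : ∀ u : ℝ, HasDerivAt (fun s => F (g * rot i j s)) (F' (g * rot i j u)) u := by
    intro u
    have hc := hRD (fun s => g * rot i j (u + s)) (by
      intro a b
      have e1 : (fun s => ((g * rot i j (u + s)).1) a b) =
          fun s => ∑ k, g.1 a k * rotM i j (u + s) k b := by
        funext s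
        show (g.1 * (rot i j (u + s)).1) a b = _
        rw [hR.1, Matrix.mul_apply]
      have e2 : (((g * rot i j (u + 0)).1) * MC10x i j) a b =
          ∑ k, g.1 a k * (rotM i j u * MC10x i j) k b := by
        show ((g.1 * (rot i j (u + 0)).1) * MC10x i j) a b = _
        rw [hR.1, add_zero, Matrix.mul_assoc, Matrix.mul_apply]
      rw [e1, e2]
      refine HasDerivAt.fun_sum fun k _ => ?_
      refine HasDerivAt.const_mul _ ?_
      have h3 := MC10_der i j h u k b
      have h4 : HasDerivAt (fun s => rotM i j s k b) ((rotM i j u * MC10x i j) k b) (u + 0) := by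
        rw [add_zero]; exact h3
      exact HasDerivAt.comp_const_add u 0 h4)
    simp only [add_zero] at hc
    have h5 : HasDerivAt (fun s => F (g * rot i j (u + s))) (F' (g * rot i j u)) (u - u) := by
      rw [sub_self]; exact hc
    have h6 := HasDerivAt.comp_sub_const u u h5
    simpa using h6
  have hmv := Convex.norm_image_sub_le_of_norm_hasDerivWithin_le (𝕜 := ℝ)
    (f := fun s => F (g * rot i j s)) (f' := fun u => F' (g * rot i j u)) (C := M) (s := Set.univ)
    (x := 0) (y := θ) (fun u _ => (hder u).hasDerivWithinAt) (fun u _ => hF'.2 _) convex_univ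
    (Set.mem_univ _) (Set.mem_univ _)
  simp only [hR.2.2.2.1, mul_one, sub_zero, Real.norm_eq_abs] at hmv
  exact hmv

end FLM
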