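import Pool.Agent.LibFL27.MC2

set_option autoImplicit false

open Matrix MeasureTheory Topology Filter LibNC38
open LibNC27 hiding Mt

namespace FLM

attribute [local instance] mSL

private theorem mc3_aux {n : ℕ} (Γ : Subgroup (SL n)) (hd : Disc Γ) (lam : Measure (SL n))
    (w : SL n → ℝ) (h : Wt Γ lam w) (q : SL n) (c : ENNReal)
    (hc : lam.map (fun x => x * q) = c • lam) (F : Fn n) (hF : Inv Γ F) :
    ∫ x, F (x * q) * w x ∂lam = c.toReal * ∫ x, F x * w x ∂lam := by
  have hB : BorelSpace (SL n) := ⟨rfl⟩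
  have hFc : Continuous F := hF.cont
  have hwc : Continuous w := h.cont
  have hvc : Continuous fun x : SL n => w (x * q⁻¹) :=
    hwc.comp (continuous_mul_const q⁻¹)
  have hvs : HasCompactSupport fun x : SL n => w (x * q⁻¹) :=
    h.supp.comp_homeomorph (Homeomorph.mulRight q⁻¹)
  have hGc : Continuous fun y : SL n => F y * w (y * q⁻¹) := hFc.mul hvc
  have hm : AEMeasurable (fun x : SL n => x * q) lam :=
    (continuous_mul_const q).measurable.aemeasurable
  have e1 : ∫ y, F y * w (y * q⁻¹) ∂(lam.map fun x => x * q) =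
      ∫ x, F (x * q) * w (x * q * q⁻¹) ∂lam :=
    integral_map hm hGc.aestronglyMeasurable
  rw [hc, integral_smul_measure] at e1
  have e2 : ∫ x, F (x * q) * w (x * q * q⁻¹) ∂lam = ∫ x, F (x * q) * w x ∂lam := by
    refine integral_congr_ae (Filter.Eventually.of_forall fun x => ?_)
    show F (x * q) * w (x * q * q⁻¹) = F (x * q) * w x
    rw [mul_inv_cancel_right]
  have e3 : ∫ x, F x * w (x * q⁻¹) ∂lam = ∫ x, F x * w x ∂lam := by
    rw [unfold Γ hd lam w h F hF (fun x => w (x * q⁻¹)) hvc hvs]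
    refine integral_congr_ae (Filter.Eventually.of_forall fun x => ?_)
    show F x * w x * ∑' γ : Γ, w (γ.1 * x * q⁻¹) = F x * w x
    have e4 : ∑' γ : Γ, w (γ.1 * x * q⁻¹) = 1 := by
      have e5 := (h.sum (x * q⁻¹)).tsum_eq
      rw [← e5]
      refine tsum_congr fun γ => ?_
      rw [mul_assoc]
    rw [e4, mul_one]
  rw [← e2, ← e1, e3, smul_eq_mul]

/-- Row MC3 (right invariance). With `c = c(q)` of `Wt.right`: `∫ F(x q) w(x) = c' ∫ F(x) w(x q⁻¹)`,
`c'` a positive constant depending only on `q`; MC2 with `v x = w (x q⁻¹)`,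
`∑' γ, v (γ x) = ∑' γ, w (γ (x q⁻¹)) = 1`: `= c' ∫ F w`. For `F = 1`: `c' = 1` (`Wt.one`). -/
theorem w_inv {n : ℕ} (Γ : Subgroup (SL n)) (hd : Disc Γ) (lam : Measure (SL n)) (w : SL n → ℝ)
    (h : Wt Γ lam w) (F : Fn n) (hF : Inv Γ F) (q : SL n) :
    ∫ x, F (x * q) * w x ∂lam = ∫ x, F x * w x ∂lam := by
  obtain ⟨c, -, -, hc⟩ := h.right q
  have h1 := mc3_aux Γ hd lam w h q c hc (fun _ => 1) ⟨continuous_const, fun _ _ _ => rfl⟩
  have h2 : c.toReal = 1 := by
    have h3 : ∫ x, (1 : ℝ) * w x ∂lam = 1 := by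
      refine Eq.trans (integral_congr_ae (Filter.Eventually.of_forall fun x => ?_)) h.one
      show 1 * w x = w x
      rw [one_mul]
    have h6 : ∫ x, (1 : ℝ) * w x ∂lam = c.toReal * ∫ x, (1 : ℝ) * w x ∂lam := h1
    rw [h3, mul_one] at h6
    exact h6.symm
  rw [mc3_aux Γ hd lam w h q c hc F hF, h2, one_mul]

end FLM
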