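import Pool.Agent.LibFL27.MG
import Pool.Agent.LibNC38.G1a

set_option autoImplicit false

open Matrix MeasureTheory Topology Filter LibNC38
open LibNC27 hiding Mt

namespace FLM

attribute [local instance] mSL

/-- general version -/
private theorem MC4_gen {G : Type*} [Group G] [TopologicalSpace G] [IsTopologicalGroup G]
    [SecondCountableTopology G] [T2Space G] [MeasurableSpace G] [BorelSpace G]
    (lam : Measure G) [SigmaFinite lam] [IsFiniteMeasureOnCompacts lam]
    (hleft : ∀ g : G, lam.map (fun x => g * x) = lam) (w : G → ℝ) (hc : Continuous w)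
    (hs : HasCompactSupport w) (h0 : ∀ g, 0 ≤ w g) :
    ∃ (K : Set G) (C : ℝ), IsCompact K ∧ 0 ≤ C ∧ ∀ F : G → ℝ, Continuous F →
      ∫ x, (∫ y, (F x - F y) ^ 2 * w y ∂lam) * w x ∂lam ≤
        C * ∫ g in K, ∫ x, (F (x * g) - F x) ^ 2 * w x ∂lam ∂lam := by
  classical
  have hT : IsCompact (tsupport w) := hs
  obtain ⟨C, hC⟩ := hc.bounded_above_of_compact_support hs
  have hC0 : 0 ≤ C := le_trans (norm_nonneg _) (hC 1)
  have hwC : ∀ x, w x ≤ C := fun x => le_trans (le_abs_self _) (hC x)
  have hKc : IsCompact ((fun p : G × G => p.1⁻¹ * p.2) '' (tsupport w ×ˢ tsupport w)) :=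
    (hT.prod hT).image (by fun_prop)
  refine ⟨(fun p : G × G => p.1⁻¹ * p.2) '' (tsupport w ×ˢ tsupport w), C, hKc, hC0, ?_⟩
  intro F hF
  set K : Set G := (fun p : G × G => p.1⁻¹ * p.2) '' (tsupport w ×ˢ tsupport w) with hK
  have hKm : MeasurableSet K := hKc.measurableSet
  have hTm : MeasurableSet (tsupport w) := hT.measurableSet
  -- the function of two variables
  have hcont : Continuous (fun p : G × G => (F (p.1 * p.2) - F p.1) ^ 2 * w p.1) := by fun_prop
  have hint : Integrable (fun p : G × G => (F (p.1 * p.2) - F p.1) ^ 2 * w p.1)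
      (lam.prod (lam.restrict K)) := by
    have hsub : Function.support (fun p : G × G => (F (p.1 * p.2) - F p.1) ^ 2 * w p.1) ⊆
        tsupport w ×ˢ (Set.univ : Set G) := by
      intro p hp
      refine ⟨?_, Set.mem_univ _⟩
      refine subset_tsupport w ?_
      intro h
      exact hp (by simp [h])
    rw [← integrableOn_iff_integrable_of_support_subset hsub, IntegrableOn,
      ← Measure.prod_restrict, Measure.restrict_univ, Measure.prod_restrict]
    exact hcont.continuousOn.integrableOn_compact (hT.prod hKc)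
  -- the pointwise bound
  have hpt : ∀ x, (∫ y, (F x - F y) ^ 2 * w y ∂lam) * w x ≤
      C * ((∫ g in K, (F (x * g) - F x) ^ 2 ∂lam) * w x) := by
    intro x
    by_cases hx : w x = 0
    · simp [hx]
    have hxT : x ∈ tsupport w := subset_tsupport w hx
    have h1 : ∫ y, (F x - F y) ^ 2 * w y ∂lam = ∫ g, (F x - F (x * g)) ^ 2 * w (x * g) ∂lam := by
      conv_lhs => rw [← hleft x]
      rw [integral_map (by fun_prop) (by
        refine Continuous.aestronglyMeasurable ?_
        fun_prop)]
    have h2 : ∫ g, (F x - F (x * g)) ^ 2 * w (x * g) ∂lam ≤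
        ∫ g, K.indicator (fun g => C * (F (x * g) - F x) ^ 2) g ∂lam := by
      refine integral_mono_of_nonneg ?_ ?_ ?_
      · exact Filter.Eventually.of_forall fun g => mul_nonneg (sq_nonneg _) (h0 _)
      · rw [integrable_indicator_iff hKm]
        have hcx : Continuous fun g => C * (F (x * g) - F x) ^ 2 := by fun_prop
        exact hcx.continuousOn.integrableOn_compact hKc
      · refine Filter.Eventually.of_forall fun g => ?_
        by_cases hg : g ∈ K
        · simp only [Set.indicator_of_mem hg]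
          have : (F x - F (x * g)) ^ 2 = (F (x * g) - F x) ^ 2 := by ring
          rw [this, mul_comm C]
          exact mul_le_mul_of_nonneg_left (hwC _) (sq_nonneg _)
        · simp only [Set.indicator_of_notMem hg]
          have hz : w (x * g) = 0 := by
            by_contra hne
            refine hg ⟨(x, x * g), ⟨hxT, subset_tsupport w hne⟩, ?_⟩
            simp
          simp [hz]
    rw [h1]
    rw [integral_indicator hKm, integral_const_mul] at h2
    calc (∫ g, (F x - F (x * g)) ^ 2 * w (x * g) ∂lam) * w x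
        ≤ (C * ∫ g in K, (F (x * g) - F x) ^ 2 ∂lam) * w x := mul_le_mul_of_nonneg_right h2 (h0 x)
      _ = _ := by ring
  have hswap : ∫ x, (∫ g in K, (F (x * g) - F x) ^ 2 ∂lam) * w x ∂lam =
      ∫ g in K, ∫ x, (F (x * g) - F x) ^ 2 * w x ∂lam ∂lam := by
    have h1 : ∀ x, (∫ g in K, (F (x * g) - F x) ^ 2 ∂lam) * w x =
        ∫ g in K, (F (x * g) - F x) ^ 2 * w x ∂lam := fun x => (integral_mul_const _ _).symm
    simp_rw [h1]
    exact integral_integral_swap (f := fun x g => (F (x * g) - F x) ^ 2 * w x) hint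
  have hintx : Integrable (fun x => C * ((∫ g in K, (F (x * g) - F x) ^ 2 ∂lam) * w x)) lam := by
    have h1 := hint.integral_prod_left
    refine Integrable.const_mul ?_ C
    refine h1.congr (Filter.Eventually.of_forall fun x => ?_)
    simp only
    rw [← integral_mul_const]
  calc ∫ x, (∫ y, (F x - F y) ^ 2 * w y ∂lam) * w x ∂lam
      ≤ ∫ x, C * ((∫ g in K, (F (x * g) - F x) ^ 2 ∂lam) * w x) ∂lam := by
        refine integral_mono_of_nonneg ?_ hintx (Filter.Eventually.of_forall hpt)
        refine Filter.Eventually.of_forall fun x => mul_nonneg ?_ (h0 x)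
        exact integral_nonneg fun y => mul_nonneg (sq_nonneg _) (h0 y)
    _ = C * ∫ x, (∫ g in K, (F (x * g) - F x) ^ 2 ∂lam) * w x ∂lam := integral_const_mul _ _
    _ = _ := by rw [hswap]

/-- Row MC4 (variance inequality). `T` = support of `w`, `K = {x⁻¹ y : x, y ∈ T}` compact,
`C = max w`. `∫ w(x) ∫ w(y) (F x - F y)² ≤ C ∫ w(x) ∫ 1_T(y) (F x - F y)²`, in the inner integral
`y = x g` (left invariance), `1_T(x g) ≤ 1_K(g)` for `x ∈ T`; Fubini (all functions are bounded with
support in compact sets). Only continuity of `F` is used. -/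
theorem w_var {n : ℕ} (Γ : Subgroup (SL n)) (lam : Measure (SL n)) (w : SL n → ℝ)
    (h : Wt Γ lam w) : ∃ (K : Set (SL n)) (C : ℝ), IsCompact K ∧ 0 ≤ C ∧ ∀ F : Fn n, Continuous F →
      ∫ x, (∫ y, (F x - F y) ^ 2 * w y ∂lam) * w x ∂lam ≤
        C * ∫ g in K, ∫ x, (F (x * g) - F x) ^ 2 * w x ∂lam ∂lam := by
  obtain ⟨hT2, -, hS, hG, -⟩ := SL_top (n := n)
  have : BorelSpace (SL n) := ⟨rfl⟩
  have := h.sig
  have : IsFiniteMeasureOnCompacts lam := ⟨fun K hK => h.fin K hK⟩
  exact MC4_gen lam h.left w h.cont h.supp h.nonneg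

end FLM
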