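import Pool.Agent.LibFL27.MG

set_option autoImplicit false

open Matrix MeasureTheory Topology Filter LibNC38
open LibNC27 hiding Mt

namespace FLM

attribute [local instance] mSL

private theorem bl_cont {n : ℕ} (i j : Fin n) : Continuous fun q : SL n => q.1 i j :=
  (continuous_apply j).comp ((continuous_apply i).comp continuous_subtype_val)

private theorem bl_closed {n : ℕ} (r : ℝ) :
    IsClosed {q : SL n | ∀ i j, |q.1 i j - (1 : Matrix (Fin n) (Fin n) ℝ) i j| ≤ r} := by
  simp only [Set.ofPred_forall]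
  refine isClosed_iInter fun i => isClosed_iInter fun j => ?_
  exact isClosed_le (((bl_cont i j).sub continuous_const).abs) continuous_const

private theorem bl_bounded {n : ℕ} (C : ℝ) : IsCompact {g : SL n | ∀ i j, |g.1 i j| ≤ C} := by
  have h1 : IsCompact {A : Matrix (Fin n) (Fin n) ℝ | ∀ i j, |A i j| ≤ C} := by
    have h2 : IsCompact (Set.pi Set.univ fun _ : Fin n => Set.pi Set.univ fun _ : Fin n =>
        Set.Icc (-C) C) :=
      isCompact_univ_pi fun _ => isCompact_univ_pi fun _ => isCompact_Icc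
    have e : {A : Matrix (Fin n) (Fin n) ℝ | ∀ i j, |A i j| ≤ C} =
        (Set.pi Set.univ fun _ : Fin n => Set.pi Set.univ fun _ : Fin n => Set.Icc (-C) C) := by
      apply Set.ext
      intro A
      constructor
      · intro h i _ j _
        exact abs_le.1 (h i j)
      · intro h i j
        exact abs_le.2 (h i trivial j trivial)
    rw [e]
    exact h2
  exact Matrix.SpecialLinearGroup.isClosedEmbedding_val.isCompact_preimage h1

private theorem bl_compact {n : ℕ} (r : ℝ) :
    IsCompact {q : SL n | ∀ i j, |q.1 i j - (1 : Matrix (Fin n) (Fin n) ℝ) i j| ≤ r} := by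
  refine (bl_bounded (n := n) (r + 1)).of_isClosed_subset (bl_closed r) ?_
  intro q hq i j
  have h1 := hq i j
  have h2 : |(1 : Matrix (Fin n) (Fin n) ℝ) i j| ≤ 1 := by
    rw [Matrix.one_apply]
    split_ifs <;> simp
  calc |q.1 i j| = |(q.1 i j - (1 : Matrix (Fin n) (Fin n) ℝ) i j) +
        (1 : Matrix (Fin n) (Fin n) ℝ) i j| := by rw [sub_add_cancel]
    _ ≤ _ := abs_add_le _ _
    _ ≤ r + 1 := add_le_add h1 h2

private theorem bl_inv {n : ℕ} : ∃ B : ℝ, 1 ≤ B ∧ ∀ q : SL n,
    (∀ i j, |q.1 i j - (1 : Matrix (Fin n) (Fin n) ℝ) i j| ≤ 1 / 2) →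
      ∀ i j, |(q⁻¹).1 i j| ≤ B := by
  have h : ∀ i j : Fin n, ∃ b : ℝ, ∀ q ∈ {q : SL n | ∀ i j,
      |q.1 i j - (1 : Matrix (Fin n) (Fin n) ℝ) i j| ≤ 1 / 2}, ‖(q⁻¹).1 i j‖ ≤ b := by
    intro i j
    exact (bl_compact (n := n) (1 / 2)).exists_bound_of_continuousOn
      (((bl_cont i j).comp continuous_inv).continuousOn)
  choose b hb using h
  refine ⟨1 + ∑ i, ∑ j, |b i j|, ?_, ?_⟩
  · have : 0 ≤ ∑ i, ∑ j, |b i j| := Finset.sum_nonneg fun i _ => Finset.sum_nonneg fun j _ =>
      abs_nonneg _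
    linarith
  · intro q hq i j
    have h1 : |(q⁻¹).1 i j| ≤ b i j := hb i j q hq
    have h2 : |b i j| ≤ ∑ j, |b i j| :=
      Finset.single_le_sum (f := fun j => |b i j|) (fun _ _ => abs_nonneg _) (Finset.mem_univ j)
    have h3 : ∑ j, |b i j| ≤ ∑ i, ∑ j, |b i j| :=
      Finset.single_le_sum (f := fun i => ∑ j, |b i j|)
        (fun _ _ => Finset.sum_nonneg fun _ _ => abs_nonneg _) (Finset.mem_univ i)
    have h4 := le_abs_self (b i j)
    linarith

/-- Row MC5a (Haar measure of small balls). `K = {q : |q i j - 1 i j| ≤ 1/2 for all i, j}` is compact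
(`bounded_compact` in `LibNC38.G6a`, closed) and a neighbourhood of `1`, so `0 < lam K < ⊤`. Entries of
`g⁻¹`, `g ∈ K`, are at most `B = B(n)` (compactness or the adjugate). Cover the cube of matrices by
`≤ (C/r)^(n²)` cubes of side `r / (n B)` (or smaller; e.g. by the map
`g ↦ (⌊g i j / s⌋)` with finitely many values) and choose one point `g_k ∈ K` in every cube that meets
`K`: for `g ∈ K` in the same cube the matrix `g_k⁻¹ g = 1 + g_k⁻¹ (g - g_k)` is in the ball, so
`K ⊆ ⋃ g_k U_r` and `lam K ≤ (C/r)^(n²) lam U_r`. -/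
theorem ball_low {n : ℕ} (Γ : Subgroup (SL n)) (lam : Measure (SL n)) (w : SL n → ℝ)
    (h : Wt Γ lam w) : ∃ (c0 : ℝ) (D : ℕ), 0 < c0 ∧ ∀ r : ℝ, 0 < r → r ≤ 1 →
      c0 * r ^ D ≤ (lam {q : SL n | ∀ i j, |q.1 i j - (1 : Matrix (Fin n) (Fin n) ℝ) i j| ≤ r}).toReal := by
  classical
  have : BorelSpace (SL n) := ⟨rfl⟩
  obtain ⟨B, hB1, hB⟩ := bl_inv (n := n)
  have hB0 : 0 < B := lt_of_lt_of_le one_pos hB1
  set K : Set (SL n) := {q : SL n | ∀ i j,
    |q.1 i j - (1 : Matrix (Fin n) (Fin n) ℝ) i j| ≤ 1 / 2} with hK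
  have hKtop : lam K < ⊤ := h.fin K (bl_compact _)
  have hKpos : 0 < lam K := by
    have ho : IsOpen {q : SL n | ∀ i j, |q.1 i j - (1 : Matrix (Fin n) (Fin n) ℝ) i j| < 1 / 2} := by
      simp only [Set.ofPred_forall]
      refine isOpen_iInter_of_finite fun i => isOpen_iInter_of_finite fun j => ?_
      exact isOpen_lt (((bl_cont i j).sub continuous_const).abs) continuous_const
    have hne : {q : SL n | ∀ i j,
        |q.1 i j - (1 : Matrix (Fin n) (Fin n) ℝ) i j| < 1 / 2}.Nonempty := by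
      refine ⟨1, fun i j => ?_⟩
      rw [Matrix.SpecialLinearGroup.coe_one, sub_self, abs_zero]
      norm_num
    refine lt_of_lt_of_le (h.opn _ ho hne) (measure_mono ?_)
    intro q hq i j
    exact (hq i j).le
  set C : ℝ := 3 * ((n : ℝ) + 1) * B + 3 with hC
  have hn0 : (0 : ℝ) ≤ n := Nat.cast_nonneg n
  have hC0 : 0 < C := by positivity
  have hKr : 0 < (lam K).toReal := ENNReal.toReal_pos hKpos.ne' hKtop.ne
  refine ⟨(lam K).toReal / C ^ (Fintype.card (Fin n × Fin n)), Fintype.card (Fin n × Fin n),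
    by positivity, ?_⟩
  intro r hr0 hr1
  set U : Set (SL n) := {q : SL n | ∀ i j,
    |q.1 i j - (1 : Matrix (Fin n) (Fin n) ℝ) i j| ≤ r} with hU
  have hUm : MeasurableSet U := (bl_closed r).measurableSet
  have hUtop : lam U < ⊤ := h.fin U (bl_compact r)
  set s : ℝ := r / (((n : ℝ) + 1) * B) with hs
  have hs0 : 0 < s := by positivity
  set R : ℝ := 3 / 2 / s with hR
  set m : ℤ := ⌈R⌉ with hm
  have hR0 : 0 ≤ R := by positivity
  let φ : SL n → (Fin n × Fin n → ℤ) := fun g p => ⌊g.1 p.1 p.2 / s⌋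
  let F : Finset (Fin n × Fin n → ℤ) := Fintype.piFinset fun _ => Finset.Icc (-m) m
  -- the values of `φ` on `K`
  have hφ : ∀ g ∈ K, φ g ∈ F := by
    intro g hg
    rw [Fintype.mem_piFinset]
    intro p
    have h1 := hg p.1 p.2
    have h2 : |(1 : Matrix (Fin n) (Fin n) ℝ) p.1 p.2| ≤ 1 := by
      rw [Matrix.one_apply]
      split_ifs <;> simp
    have h3 : |g.1 p.1 p.2| ≤ 3 / 2 := by
      calc |g.1 p.1 p.2| = |(g.1 p.1 p.2 - (1 : Matrix (Fin n) (Fin n) ℝ) p.1 p.2) +
            (1 : Matrix (Fin n) (Fin n) ℝ) p.1 p.2| := by rw [sub_add_cancel]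
        _ ≤ _ := abs_add_le _ _
        _ ≤ 1 / 2 + 1 := add_le_add h1 h2
        _ = 3 / 2 := by norm_num
    have h4 : |g.1 p.1 p.2 / s| ≤ R := by
      rw [abs_div, abs_of_pos hs0]
      exact div_le_div_of_nonneg_right h3 hs0.le
    have h5 := abs_le.1 h4
    rw [Finset.mem_Icc]
    constructor
    · refine Int.le_floor.2 ?_
      push_cast
      have := Int.le_ceil R
      linarith [h5.1]
    · exact_mod_cast (Int.floor_le (g.1 p.1 p.2 / s)).trans (h5.2.trans (Int.le_ceil R))
  -- every cell is in a translate of `U`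
  have hcell : ∀ v, lam (K ∩ φ ⁻¹' {v}) ≤ lam U := by
    intro v
    rcases Set.eq_empty_or_nonempty (K ∩ φ ⁻¹' {v}) with he | ⟨g, hg, hgv⟩
    · rw [he, measure_empty]
      exact zero_le
    · have hgv' : φ g = v := hgv
      have hcont : Continuous fun x : SL n => g⁻¹ * x := by fun_prop
      have e : lam ((fun x : SL n => g⁻¹ * x) ⁻¹' U) = lam U := by
        rw [← Measure.map_apply hcont.measurable hUm, h.left]
      rw [← e]
      refine measure_mono ?_
      rintro x ⟨hx, hxv⟩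
      have hxv' : φ x = v := hxv
      intro i j
      have hxg : ∀ k, |x.1 k j - g.1 k j| ≤ s := by
        intro k
        have h1 : ⌊x.1 k j / s⌋ = ⌊g.1 k j / s⌋ := congrFun (hxv'.trans hgv'.symm) (k, j)
        have h2 := Int.abs_sub_lt_one_of_floor_eq_floor h1
        rw [← sub_div, abs_div, abs_of_pos hs0, div_lt_one hs0] at h2
        exact h2.le
      have h1 : (g⁻¹ * x).1 i j - (1 : Matrix (Fin n) (Fin n) ℝ) i j =
          ∑ k, (g⁻¹).1 i k * (x.1 k j - g.1 k j) := by
        have e1 : (1 : Matrix (Fin n) (Fin n) ℝ) = (g⁻¹ * g).1 := by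
          rw [inv_mul_cancel]
          rfl
        rw [e1, Matrix.SpecialLinearGroup.coe_mul, Matrix.SpecialLinearGroup.coe_mul,
          Matrix.mul_apply, Matrix.mul_apply, ← Finset.sum_sub_distrib]
        exact Finset.sum_congr rfl fun k _ => by ring
      rw [h1]
      calc |∑ k, (g⁻¹).1 i k * (x.1 k j - g.1 k j)|
          ≤ ∑ k, |(g⁻¹).1 i k * (x.1 k j - g.1 k j)| := Finset.abs_sum_le_sum_abs _ _
        _ ≤ ∑ _k : Fin n, B * s := by
            refine Finset.sum_le_sum fun k _ => ?_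
            rw [abs_mul]
            exact mul_le_mul (hB g hg i k) (hxg k) (abs_nonneg _) hB0.le
        _ = n * (B * s) := by
            rw [Finset.sum_const, Finset.card_univ, Fintype.card_fin, nsmul_eq_mul]
        _ ≤ ((n : ℝ) + 1) * (B * s) := by
            refine mul_le_mul_of_nonneg_right ?_ (by positivity)
            linarith
        _ = r := by
            rw [hs]
            field_simp
  -- union bound
  have hun : lam K ≤ (F.card : ENNReal) * lam U := by
    have hsub : K ⊆ ⋃ v ∈ F, (K ∩ φ ⁻¹' {v}) := by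
      intro g hg
      simp only [Set.mem_iUnion]
      exact ⟨φ g, hφ g hg, hg, rfl⟩
    calc lam K ≤ lam (⋃ v ∈ F, (K ∩ φ ⁻¹' {v})) := measure_mono hsub
      _ ≤ ∑ v ∈ F, lam (K ∩ φ ⁻¹' {v}) := measure_biUnion_finset_le _ _
      _ ≤ ∑ _v ∈ F, lam U := Finset.sum_le_sum fun v _ => hcell v
      _ = (F.card : ENNReal) * lam U := by rw [Finset.sum_const, nsmul_eq_mul]
  have hunr : (lam K).toReal ≤ F.card * (lam U).toReal := by
    have h1 := ENNReal.toReal_mono (ENNReal.mul_ne_top (ENNReal.natCast_ne_top _) hUtop.ne) hun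
    rwa [ENNReal.toReal_mul, ENNReal.toReal_natCast] at h1
  -- the number of cells
  have hm0 : 0 ≤ m := Int.ceil_nonneg hR0
  have hcard : (F.card : ℝ) ≤ (C / r) ^ (Fintype.card (Fin n × Fin n)) := by
    have h1 : F.card = (Finset.Icc (-m) m).card ^ (Fintype.card (Fin n × Fin n)) := by
      rw [Fintype.card_piFinset, Finset.prod_const, Finset.card_univ]
    rw [h1]
    push_cast
    refine pow_le_pow_left₀ (Nat.cast_nonneg _) ?_ _
    rw [Int.card_Icc]
    have h2 : (((m + 1 - -m).toNat : ℕ) : ℝ) = 2 * (m : ℝ) + 1 := by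
      have h3 : (((m + 1 - -m).toNat : ℕ) : ℤ) = 2 * m + 1 := by
        rw [Int.toNat_of_nonneg (by linarith)]
        ring
      have h4 : ((((m + 1 - -m).toNat : ℕ) : ℤ) : ℝ) = ((2 * m + 1 : ℤ) : ℝ) := by rw [h3]
      push_cast at h4
      exact h4
    rw [h2]
    have h5 : (m : ℝ) < R + 1 := Int.ceil_lt_add_one R
    have h6 : 2 * R = 3 * ((n : ℝ) + 1) * B / r := by
      rw [hR, hs]
      field_simp
    have h7 : (3 : ℝ) ≤ 3 / r := by
      rw [le_div_iff₀ hr0]
      linarith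
    calc 2 * (m : ℝ) + 1 ≤ 2 * R + 3 := by linarith
      _ ≤ 3 * ((n : ℝ) + 1) * B / r + 3 / r := by linarith
      _ = C / r := by rw [hC, add_div]
  have hfin : (lam K).toReal ≤ (C / r) ^ (Fintype.card (Fin n × Fin n)) * (lam U).toReal :=
    hunr.trans (mul_le_mul_of_nonneg_right hcard ENNReal.toReal_nonneg)
  rw [div_pow, div_mul_eq_mul_div, le_div_iff₀ (by positivity)] at hfin
  rw [div_mul_eq_mul_div, div_le_iff₀ (by positivity)]
  linarith

end FLM
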