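import Pool.Agent.LibFL27.MC2
import Pool.Agent.LibFL27.MC5a
import Pool.Agent.LibNC38.G1a
import Pool.Agent.LibNC38.G6a

set_option autoImplicit false

open Matrix MeasureTheory Topology Filter LibNC38
open LibNC27 hiding Mt
open scoped Pointwise

namespace FLM

attribute [local instance] mSL

private noncomputable def mc5nd {n : ℕ} (y : SL n) : ℝ :=
  ‖(fun i j => y.1 i j - (1 : Matrix (Fin n) (Fin n) ℝ) i j : Fin n → Fin n → ℝ)‖

private theorem mc5nd_cont {n : ℕ} : Continuous (mc5nd (n := n)) := by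
  unfold mc5nd
  refine Continuous.norm ?_
  refine continuous_pi fun i => continuous_pi fun j => ?_
  have h1 : Continuous fun y : SL n => y.1 i j :=
    (continuous_apply_apply i j).comp continuous_subtype_val
  exact h1.sub continuous_const

private theorem mc5nd_le {n : ℕ} (y : SL n) {r : ℝ} (hr : 0 ≤ r) :
    mc5nd y ≤ r ↔ ∀ i j, |y.1 i j - (1 : Matrix (Fin n) (Fin n) ℝ) i j| ≤ r := by
  unfold mc5nd
  rw [pi_norm_le_iff_of_nonneg hr]
  refine forall_congr' fun i => ?_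
  rw [pi_norm_le_iff_of_nonneg hr]
  rfl

private theorem mc5_compact {n : ℕ} (r : ℝ) (hr : r ≤ 1) : IsCompact {y : SL n | mc5nd y ≤ r} := by
  refine IsCompact.of_isClosed_subset (bounded_compact (n := n) 2)
    (isClosed_le mc5nd_cont continuous_const) ?_
  intro y hy i j
  have h1 := (mc5nd_le y zero_le_one).1 (le_trans hy hr) i j
  have h2 : |(1 : Matrix (Fin n) (Fin n) ℝ) i j| ≤ 1 := by
    rw [Matrix.one_apply]
    split_ifs <;> simp
  have h3 : y.1 i j = (y.1 i j - (1 : Matrix (Fin n) (Fin n) ℝ) i j) + (1 : Matrix (Fin n) (Fin n) ℝ) i j := by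
    ring
  rw [h3]
  refine (abs_add_le _ _).trans ?_
  linarith

/-- Row MC5 (lower bound). By invariance (`Coc`) assume `g ∈ Q` (replace `g` by `γ g`). `U_r` = entrywise ball.
Let `v` be continuous, `0 ≤ v ≤ 1`, `v = 1` on `g U_(r/2)`, `v = 0` outside `g U_r` (for instance
`v x = max 0 (min 1 (2 - 2 d(g⁻¹ x)/r))`, `d` = largest entry of `|. - 1|`). For every `x` at most `M₀`
elements `γ` have `γ x ∈ g U_1` (`γ γ'⁻¹ ∈ Q U_1 U_1⁻¹ Q⁻¹`, `disc_finite`), and `F x ≥ a` if there is one, so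
`a ∑' γ, v (γ x) ≤ M₀ F x`. By MC2 (constant function):
`∫ v = ∫ w ∑' v(γ x) ≤ (M₀/a) ∫ F w`, and `∫ v ≥ lam (g U_(r/2)) = lam U_(r/2) ≥ c0 (r/2)^D` (MC5a). -/
theorem w_low {n : ℕ} (Γ : Subgroup (SL n)) (hd : Disc Γ) (hc : Coc Γ) (lam : Measure (SL n))
    (w : SL n → ℝ) (h : Wt Γ lam w) : ∃ (c0 : ℝ) (D : ℕ), 0 < c0 ∧ ∀ F, Inv Γ F → (∀ g, 0 ≤ F g) →
      ∀ (g : SL n) (r a : ℝ), 0 < r → r ≤ 1 → 0 ≤ a →
        (∀ q : SL n, (∀ i j, |q.1 i j - (1 : Matrix (Fin n) (Fin n) ℝ) i j| ≤ r) → a ≤ F (g * q)) →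
          c0 * r ^ D * a ≤ ∫ x, F x * w x ∂lam := by
  classical
  obtain ⟨hT2, hLC, hSC, hTG, -⟩ := SL_top (n := n)
  have hBS : BorelSpace (SL n) := ⟨rfl⟩
  have hFM : IsFiniteMeasureOnCompacts lam := ⟨fun K hK => h.fin K hK⟩
  obtain ⟨Q, hQ, hQc⟩ := hc
  obtain ⟨c0, D, hc0, hball⟩ := ball_low Γ lam w h
  have hBc : IsCompact {y : SL n | mc5nd y ≤ 1} := mc5_compact 1 le_rfl
  have hKc : IsCompact (Q * {y : SL n | mc5nd y ≤ 1}) := hQ.mul hBc
  have hKK := hKc.mul hKc.inv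
  have hfin := disc_finite Γ hd _ hKK
  have hfin' : {γ : Γ | γ.1 ∈ (Q * {y : SL n | mc5nd y ≤ 1}) * (Q * {y : SL n | mc5nd y ≤ 1})⁻¹}.Finite :=
    (hfin.preimage (f := fun γ : Γ => γ.1) Subtype.val_injective.injOn).subset fun γ hγ => ⟨γ.2, hγ⟩
  set S := hfin'.toFinset with hS
  have hM : (0 : ℝ) < (S.card : ℝ) + 1 := by positivity
  refine ⟨c0 / 2 ^ D / ((S.card : ℝ) + 1), D, by positivity, ?_⟩
  intro F hF hF0 g r a hr hr1 ha hFa
  obtain ⟨γ0, hγ0, hg⟩ := hQc g
  obtain ⟨g', hg'⟩ : ∃ g', g' = γ0 * g := ⟨_, rfl⟩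
  rw [← hg'] at hg
  have hFa' : ∀ q, mc5nd q ≤ r → a ≤ F (g' * q) := by
    intro q hq
    rw [hg', mul_assoc, hF.inv γ0 hγ0]
    exact hFa q ((mc5nd_le q hr.le).1 hq)
  have hnc : Continuous fun x : SL n => mc5nd (g'⁻¹ * x) :=
    mc5nd_cont.comp (continuous_const_mul g'⁻¹)
  obtain ⟨v, hv⟩ : ∃ v : SL n → ℝ, v = fun x => max 0 (min 1 (2 - 2 * mc5nd (g'⁻¹ * x) / r)) := ⟨_, rfl⟩
  have hvc : Continuous v := by
    rw [hv]
    exact continuous_const.max (continuous_const.min (continuous_const.sub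
      ((continuous_const.mul hnc).div_const r)))
  have hv0 : ∀ x, 0 ≤ v x := fun x => by rw [hv]; exact le_max_left _ _
  have hv1 : ∀ x, v x ≤ 1 := fun x => by rw [hv]; exact max_le zero_le_one (min_le_left _ _)
  have hvr : ∀ x, v x ≠ 0 → mc5nd (g'⁻¹ * x) ≤ r := by
    intro x hx
    by_contra hcon
    push Not at hcon
    apply hx
    have h1 : 2 - 2 * mc5nd (g'⁻¹ * x) / r ≤ 0 := by
      rw [sub_nonpos, le_div_iff₀ hr]
      linarith
    rw [hv]
    exact max_eq_left ((min_le_right _ _).trans h1)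
  have hvh : ∀ x, mc5nd (g'⁻¹ * x) ≤ r / 2 → v x = 1 := by
    intro x hx
    have h1 : 2 * mc5nd (g'⁻¹ * x) / r ≤ 1 := by
      rw [div_le_one hr]
      linarith
    have h2 : 1 ≤ 2 - 2 * mc5nd (g'⁻¹ * x) / r := by linarith
    rw [hv]
    show max 0 (min 1 (2 - 2 * mc5nd (g'⁻¹ * x) / r)) = 1
    rw [min_eq_left h2, max_eq_right zero_le_one]
  have hvs : HasCompactSupport v := by
    refine HasCompactSupport.of_support_subset_isCompact
      ((mc5_compact (n := n) r hr1).image (continuous_const_mul g')) ?_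
    intro x hx
    exact ⟨g'⁻¹ * x, hvr x hx, mul_inv_cancel_left g' x⟩
  have hunf := FLM.unfold Γ hd lam w h (fun _ => 1) ⟨continuous_const, fun _ _ _ => rfl⟩ v hvc hvs
  simp only [one_mul] at hunf
  have hpt : ∀ x, a * ∑' γ : Γ, v (γ.1 * x) ≤ ((S.card : ℝ) + 1) * F x := by
    intro x
    by_cases hex : ∃ γ1 : Γ, v (γ1.1 * x) ≠ 0
    · obtain ⟨γ1, hγ1⟩ := hex
      have haF : a ≤ F x := by
        have h1 := hFa' (g'⁻¹ * (γ1.1 * x)) (hvr _ hγ1)
        rwa [mul_inv_cancel_left, hF.inv γ1.1 γ1.2] at h1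
      have hmem : ∀ γ : Γ, v (γ.1 * x) ≠ 0 → γ.1 * x ∈ Q * {y : SL n | mc5nd y ≤ 1} := by
        intro γ hne
        exact ⟨g', hg, g'⁻¹ * (γ.1 * x), (hvr _ hne).trans hr1, mul_inv_cancel_left g' _⟩
      have hsum : ∑' γ : Γ, v (γ.1 * x) = ∑ γ ∈ S.image (fun s => s * γ1), v (γ.1 * x) := by
        refine tsum_eq_sum fun γ hγ => ?_
        by_contra hne
        apply hγ
        rw [Finset.mem_image]
        refine ⟨γ * γ1⁻¹, ?_, inv_mul_cancel_right γ γ1⟩
        rw [hS, Set.Finite.mem_toFinset]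
        show (γ.1 * γ1.1⁻¹) ∈ (Q * {y : SL n | mc5nd y ≤ 1}) * (Q * {y : SL n | mc5nd y ≤ 1})⁻¹
        have e : γ.1 * γ1.1⁻¹ = (γ.1 * x) * (γ1.1 * x)⁻¹ := by
          rw [_root_.mul_inv_rev, mul_assoc, mul_inv_cancel_left]
        rw [e]
        exact Set.mul_mem_mul (hmem γ hne) (Set.inv_mem_inv.2 (hmem γ1 hγ1))
      have hle : ∑ γ ∈ S.image (fun s => s * γ1), v (γ.1 * x) ≤ (S.card : ℝ) + 1 := by
        calc ∑ γ ∈ S.image (fun s => s * γ1), v (γ.1 * x)
            ≤ ∑ γ ∈ S.image (fun s => s * γ1), (1 : ℝ) := Finset.sum_le_sum fun γ _ => hv1 _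
          _ = ((S.image (fun s => s * γ1)).card : ℝ) := by simp
          _ ≤ (S.card : ℝ) := by exact_mod_cast Finset.card_image_le
          _ ≤ (S.card : ℝ) + 1 := by linarith
      rw [hsum]
      calc a * ∑ γ ∈ S.image (fun s => s * γ1), v (γ.1 * x)
          ≤ a * ((S.card : ℝ) + 1) := mul_le_mul_of_nonneg_left hle ha
        _ ≤ F x * ((S.card : ℝ) + 1) := mul_le_mul_of_nonneg_right haF hM.le
        _ = ((S.card : ℝ) + 1) * F x := mul_comm _ _
    · push Not at hex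
      simp only [hex, tsum_zero, mul_zero]
      exact mul_nonneg hM.le (hF0 x)
  have hint : a * ∫ x, v x ∂lam ≤ ((S.card : ℝ) + 1) * ∫ x, F x * w x ∂lam := by
    rw [hunf, ← integral_const_mul, ← integral_const_mul]
    refine integral_mono_of_nonneg ?_ ?_ ?_
    · refine Eventually.of_forall fun x => ?_
      exact mul_nonneg ha (mul_nonneg (h.nonneg x) (tsum_nonneg fun _ => hv0 _))
    · exact ((hF.cont.mul h.cont).integrable_of_hasCompactSupport h.supp.mul_left).const_mul _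
    · refine Eventually.of_forall fun x => ?_
      have h1 := mul_le_mul_of_nonneg_right (hpt x) (h.nonneg x)
      show a * (w x * ∑' γ : Γ, v (γ.1 * x)) ≤ ((S.card : ℝ) + 1) * (F x * w x)
      calc a * (w x * ∑' γ : Γ, v (γ.1 * x)) = (a * ∑' γ : Γ, v (γ.1 * x)) * w x := by ring
        _ ≤ ((S.card : ℝ) + 1) * F x * w x := h1
        _ = ((S.card : ℝ) + 1) * (F x * w x) := by ring
  have hlow : c0 * (r / 2) ^ D ≤ ∫ x, v x ∂lam := by
    have hcl : ∀ i j, IsClosed {q : SL n | |q.1 i j - (1 : Matrix (Fin n) (Fin n) ℝ) i j| ≤ r / 2} := by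
      intro i j
      have h1 : Continuous fun y : SL n => y.1 i j :=
        (continuous_apply_apply i j).comp continuous_subtype_val
      exact isClosed_le (h1.sub continuous_const).abs continuous_const
    have hm : MeasurableSet {q : SL n | ∀ i j, |q.1 i j - (1 : Matrix (Fin n) (Fin n) ℝ) i j| ≤ r / 2} := by
      refine IsClosed.measurableSet ?_
      simp only [Set.ofPred_forall]
      exact isClosed_iInter fun i => isClosed_iInter fun j => hcl i j
    have hA : MeasurableSet {x : SL n | mc5nd (g'⁻¹ * x) ≤ r / 2} :=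
      (isClosed_le hnc continuous_const).measurableSet
    have hAlam : lam {x : SL n | mc5nd (g'⁻¹ * x) ≤ r / 2} =
        lam {q : SL n | ∀ i j, |q.1 i j - (1 : Matrix (Fin n) (Fin n) ℝ) i j| ≤ r / 2} := by
      conv_rhs => rw [← h.left g'⁻¹]
      rw [Measure.map_apply (continuous_const_mul _).measurable hm]
      congr 1
      ext x
      exact mc5nd_le _ (by positivity)
    have hAfin : lam {x : SL n | mc5nd (g'⁻¹ * x) ≤ r / 2} < ⊤ := by
      refine h.fin _ ?_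
      refine IsCompact.of_isClosed_subset
        ((mc5_compact (n := n) r hr1).image (continuous_const_mul g')) (isClosed_le hnc continuous_const) ?_
      intro x hx
      exact ⟨g'⁻¹ * x, le_trans hx (by linarith : r / 2 ≤ r), mul_inv_cancel_left g' x⟩
    have h1 := hball (r / 2) (by positivity) (by linarith)
    rw [← hAlam] at h1
    refine h1.trans ?_
    have h2 : (lam {x : SL n | mc5nd (g'⁻¹ * x) ≤ r / 2}).toReal =
        ∫ x, {x : SL n | mc5nd (g'⁻¹ * x) ≤ r / 2}.indicator (1 : SL n → ℝ) x ∂lam := by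
      rw [integral_indicator_one hA]
      rfl
    rw [h2]
    refine integral_mono ?_ (hvc.integrable_of_hasCompactSupport hvs) ?_
    · exact (integrable_indicator_iff hA).2 (integrableOn_const (hs := hAfin.ne))
    · intro x
      by_cases hx : x ∈ {x : SL n | mc5nd (g'⁻¹ * x) ≤ r / 2}
      · rw [Set.indicator_of_mem hx, hvh x hx]
        rfl
      · rw [Set.indicator_of_notMem hx]
        exact hv0 x
  have hfinal : c0 * (r / 2) ^ D * a ≤ ((S.card : ℝ) + 1) * ∫ x, F x * w x ∂lam := by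
    calc c0 * (r / 2) ^ D * a ≤ (∫ x, v x ∂lam) * a := mul_le_mul_of_nonneg_right hlow ha
      _ = a * ∫ x, v x ∂lam := mul_comm _ _
      _ ≤ _ := hint
  have e : c0 / 2 ^ D / ((S.card : ℝ) + 1) * r ^ D * a = (c0 * (r / 2) ^ D * a) / ((S.card : ℝ) + 1) := by
    rw [div_pow]
    field_simp
  rw [e, div_le_iff₀ hM]
  linarith

end FLM
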