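import Pool.Agent.LibFL27.MC1
import Pool.Agent.LibFL27.MC3
import Pool.Agent.LibFL27.MC4
import Pool.Agent.LibFL27.MC5

set_option autoImplicit false

open Matrix MeasureTheory Topology Filter LibNC38
open LibNC27 hiding Mt

namespace FLM

attribute [local instance] mSL

/-- Row MC6. `ν = lam.withDensity (fun x => ENNReal.ofReal (w x))`
(`integral_withDensity_eq_integral_toReal_smul` or `integral_withDensity_eq_integral_smul`), compact
set = `tsupport w`, `β = lam.restrict K` of MC4 (`lam K < ⊤`). -/
theorem nu_ex {n : ℕ} (Γ : Subgroup (SL n)) (hd : Disc Γ) (hc : Coc Γ) :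
    ∃ ν : Measure (SL n), Nu Γ ν := by
  haveI : BorelSpace (SL n) := ⟨rfl⟩
  obtain ⟨lam, w, h⟩ := wt_ex Γ hd hc
  haveI : SigmaFinite lam := h.sig
  haveI : IsFiniteMeasureOnCompacts lam := ⟨fun K hK => h.fin K hK⟩
  have hwm : Measurable fun x => ENNReal.ofReal (w x) :=
    ENNReal.measurable_ofReal.comp h.cont.measurable
  have key : ∀ F : SL n → ℝ, ∫ x, F x ∂(lam.withDensity fun x => ENNReal.ofReal (w x)) =
      ∫ x, F x * w x ∂lam := by
    intro F
    rw [integral_withDensity_eq_integral_toReal_smul hwm
      (Eventually.of_forall fun x => ENNReal.ofReal_lt_top)]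
    refine integral_congr_ae (Eventually.of_forall fun x => ?_)
    simp only [ENNReal.toReal_ofReal (h.nonneg x), smul_eq_mul]
    ring
  have hint : Integrable w lam := h.cont.integrable_of_hasCompactSupport h.supp
  refine ⟨lam.withDensity fun x => ENNReal.ofReal (w x), ?_, ?_, ?_, ?_, ?_⟩
  · rw [withDensity_apply _ MeasurableSet.univ, Measure.restrict_univ,
      ← ofReal_integral_eq_lintegral_ofReal hint (Eventually.of_forall h.nonneg), h.one,
      ENNReal.ofReal_one]
  · refine ⟨tsupport w, h.supp, ?_⟩
    have hm : MeasurableSet (tsupport w)ᶜ := (isClosed_tsupport w).measurableSet.compl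
    rw [withDensity_apply _ hm]
    rw [setLIntegral_congr_fun (g := fun _ => 0) hm ?_, lintegral_zero]
    intro x hx
    have : w x = 0 := image_eq_zero_of_notMem_tsupport hx
    simp [this]
  · intro F hF q
    rw [key, key]
    exact w_inv Γ hd lam w h F hF q
  · obtain ⟨c0, D, hc0, H⟩ := w_low Γ hd hc lam w h
    refine ⟨c0, D, hc0, ?_⟩
    intro F hF hF0 g r a hr hr1 ha hq
    rw [key]
    exact H F hF hF0 g r a hr hr1 ha hq
  · obtain ⟨K, C, hK, hC, H⟩ := w_var Γ lam w h
    refine ⟨lam.restrict K, C, ?_, hC, ?_⟩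
    · rw [Measure.restrict_apply_univ]
      exact h.fin K hK
    · intro F hF
      have := H F hF.cont
      simp only [key]
      exact this

end FLM
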