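import Pool.Agent.LibFL27.MC7

set_option autoImplicit false

open Matrix MeasureTheory Topology Filter LibNC38
open LibNC27 hiding Mt

namespace FLM

attribute [local instance] mSL

private theorem MC8_bs (n : ℕ) : BorelSpace (SL n) := ⟨rfl⟩

attribute [local instance] MC8_bs

/-- continuous left invariant functions -/
private def MC8_E {n : ℕ} (Γ : Subgroup (SL n)) : Submodule ℝ (Fn n) where
  carrier := {F | Inv Γ F}
  add_mem' := by
    intro F G hF hG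
    exact ⟨hF.cont.add hG.cont, fun γ hγ g => by
      show F (γ * g) + G (γ * g) = F g + G g
      rw [hF.inv γ hγ, hG.inv γ hγ]⟩
  zero_mem' := ⟨continuous_const, fun _ _ _ => rfl⟩
  smul_mem' := by
    intro c F hF
    exact ⟨hF.cont.const_smul c, fun γ hγ g => by
      show c • F (γ * g) = c • F g
      rw [hF.inv γ hγ]⟩

private theorem MC8_mem {n : ℕ} {Γ : Subgroup (SL n)} (F : MC8_E Γ) : Inv Γ F.1 := F.2

private theorem MC8_mul {n : ℕ} {Γ : Subgroup (SL n)} {F G : Fn n} (hF : Inv Γ F) (hG : Inv Γ G) :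
    Inv Γ (fun x => F x * G x) :=
  ⟨hF.cont.mul hG.cont, fun γ hγ g => by
    show F (γ * g) * G (γ * g) = F g * G g
    rw [hF.inv γ hγ, hG.inv γ hγ]⟩

private theorem MC8_tr {n : ℕ} {Γ : Subgroup (SL n)} {F : Fn n} (hF : Inv Γ F) (a : SL n) :
    Inv Γ (fun g => F (g * a)) :=
  ⟨hF.cont.comp (continuous_id.mul continuous_const), fun γ hγ g => by
    show F (γ * g * a) = F (g * a)
    rw [mul_assoc, hF.inv γ hγ]⟩

private theorem MC8_lp {n : ℕ} {Γ : Subgroup (SL n)} (hc : Coc Γ) (ν : Measure (SL n))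
    [IsProbabilityMeasure ν] {F : Fn n} (hF : Inv Γ F) : MemLp F 2 ν := by
  obtain ⟨⟨B, hB⟩, -⟩ := unif Γ hc F hF.cont hF.inv
  exact MemLp.of_bound hF.cont.aestronglyMeasurable B
    (Filter.Eventually.of_forall fun x => by rw [Real.norm_eq_abs]; exact hB x)

/-- the map to `L²` -/
private noncomputable def MC8_i {n : ℕ} {Γ : Subgroup (SL n)} (hc : Coc Γ) (ν : Measure (SL n))
    [IsProbabilityMeasure ν] : MC8_E Γ →ₗ[ℝ] Lp ℝ 2 ν where
  toFun F := (MC8_lp hc ν F.2).toLp F.1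
  map_add' F G := by
    exact MemLp.toLp_add (MC8_lp hc ν F.2) (MC8_lp hc ν G.2)
  map_smul' c F := by
    exact MemLp.toLp_const_smul c (MC8_lp hc ν F.2)

private theorem MC8_inner {n : ℕ} {Γ : Subgroup (SL n)} (hc : Coc Γ) (ν : Measure (SL n))
    [IsProbabilityMeasure ν] (F G : MC8_E Γ) :
    inner ℝ (MC8_i hc ν F) (MC8_i hc ν G) = ∫ x, F.1 x * G.1 x ∂ν := by
  rw [L2.inner_def]
  refine integral_congr_ae ?_
  filter_upwards [(MC8_lp hc ν F.2).coeFn_toLp, (MC8_lp hc ν G.2).coeFn_toLp] with x h1 h2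
  have h3 : (MC8_i hc ν F : Lp ℝ 2 ν) x = F.1 x := h1
  have h4 : (MC8_i hc ν G : Lp ℝ 2 ν) x = G.1 x := h2
  rw [h3, h4]
  show G.1 x * F.1 x = F.1 x * G.1 x
  exact mul_comm _ _

/-- right translation -/
private def MC8_T {n : ℕ} {Γ : Subgroup (SL n)} (a : SL n) : MC8_E Γ →ₗ[ℝ] MC8_E Γ where
  toFun F := ⟨fun g => F.1 (g * a), MC8_tr F.2 a⟩
  map_add' _ _ := rfl
  map_smul' _ _ := rfl

private theorem MC8_norm {n : ℕ} {Γ : Subgroup (SL n)} (hc : Coc Γ) (ν : Measure (SL n))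
    [IsProbabilityMeasure ν] (F : MC8_E Γ) :
    ‖MC8_i hc ν F‖ ^ 2 = ∫ x, F.1 x * F.1 x ∂ν := by
  rw [← real_inner_self_eq_norm_sq, MC8_inner]

private theorem MC8_iso {n : ℕ} {Γ : Subgroup (SL n)} (hc : Coc Γ) (ν : Measure (SL n))
    [IsProbabilityMeasure ν] (hν : Nu Γ ν) (a : SL n) (F : MC8_E Γ) :
    ‖MC8_i hc ν (MC8_T a F)‖ = ‖MC8_i hc ν F‖ := by
  have h1 := MC8_norm hc ν F
  have h2 := MC8_norm hc ν (MC8_T a F)
  have h3 := hν.inv (fun x => F.1 x * F.1 x) (MC8_mul F.2 F.2) a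
  have h4 : ‖MC8_i hc ν (MC8_T a F)‖ ^ 2 = ‖MC8_i hc ν F‖ ^ 2 := by
    rw [h1, h2, ← h3]
    rfl
  exact (pow_left_inj₀ (norm_nonneg _) (norm_nonneg _) two_ne_zero).1 h4

private theorem MC8_small {n : ℕ} {Γ : Subgroup (SL n)} (hc : Coc Γ) (ν : Measure (SL n))
    [IsProbabilityMeasure ν] (F : MC8_E Γ) (ε : ℝ) (hε : 0 ≤ ε) (h : ∀ x, |F.1 x| ≤ ε) :
    ‖MC8_i hc ν F‖ ≤ ε := by
  have h1 := MC8_norm hc ν F
  have h2 : ‖∫ x, F.1 x * F.1 x ∂ν‖ ≤ ε * ε * ν.real Set.univ := by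
    refine norm_integral_le_of_norm_le_const (Filter.Eventually.of_forall fun x => ?_)
    rw [norm_mul, Real.norm_eq_abs]
    exact mul_le_mul (h x) (h x) (abs_nonneg _) hε
  rw [probReal_univ, mul_one] at h2
  have h3 : ‖MC8_i hc ν F‖ ^ 2 ≤ ε ^ 2 := by
    rw [h1, sq]
    exact (le_abs_self _).trans h2
  exact (pow_le_pow_iff_left₀ (norm_nonneg _) hε two_ne_zero).1 h3

private theorem MC8_cont {n : ℕ} {Γ : Subgroup (SL n)} (hc : Coc Γ) (ν : Measure (SL n))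
    [IsProbabilityMeasure ν] (F : MC8_E Γ) :
    Continuous fun a : SL n => MC8_i hc ν (MC8_T a F) := by
  rw [continuous_iff_continuousAt]
  intro a₀
  rw [ContinuousAt, Metric.tendsto_nhds]
  intro ε hε
  obtain ⟨-, hu⟩ := unif Γ hc F.1 F.2.cont F.2.inv
  obtain ⟨U, hU, hUF⟩ := hu (ε / 2) (by positivity)
  have h1 : Tendsto (fun a : SL n => a₀⁻¹ * a) (𝓝 a₀) (𝓝 1) := by
    have h2 : Continuous fun a : SL n => a₀⁻¹ * a := continuous_const.mul continuous_id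
    have h3 := h2.tendsto a₀
    rwa [inv_mul_cancel] at h3
  filter_upwards [h1 hU] with a ha
  rw [dist_eq_norm, ← map_sub]
  refine lt_of_le_of_lt (MC8_small hc ν _ (ε / 2) (by positivity) fun x => ?_) (by linarith)
  show |F.1 (x * a) - F.1 (x * a₀)| ≤ ε / 2
  have h4 := hUF (x * a₀) (a₀⁻¹ * a) ha
  rwa [mul_assoc x a₀, mul_inv_cancel_left] at h4

/-- Row MC8 (the Hilbert space). `E` = the submodule of `Fn n` of all `F` with `Inv Γ F` (they are
bounded, `LibNC38.unif`, so in `L²(ν)`; `BorelSpace (SL n)` is `⟨rfl⟩`, second countable by `SL_top`).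
`H` = topological closure of the image of `E` in `Lp ℝ 2 ν` (a closed submodule, complete), `ι` = the map
to it (`ι F = 0` if `F` is not `Inv`), `T a F = F (· * a)`, isometric by `Nu.inv` applied to `F²`;
strongly continuous by `unif` (uniform continuity) and `ν univ = 1`; MC7 gives `π`. Alternatively the
completion (`UniformSpace.Completion`) of `E` with the seminorm `√ ∫ F²`. -/
theorem model_ex {n : ℕ} (Γ : Subgroup (SL n)) (hc : Coc Γ) (ν : Measure (SL n)) (hν : Nu Γ ν) :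
    ∃ (H : Type) (_ : NormedAddCommGroup H) (_ : InnerProductSpace ℝ H) (_ : CompleteSpace H)
      (ι : Fn n → H) (π : SL n → H →L[ℝ] H), Model Γ ν ι π := by
  classical
  have : IsProbabilityMeasure ν := ⟨hν.prob⟩
  let i0 : MC8_E Γ →ₗ[ℝ] Lp ℝ 2 ν := MC8_i hc ν
  let Hs : Submodule ℝ (Lp ℝ 2 ν) := (LinearMap.range i0).topologicalClosure
  have hmem : ∀ F, i0 F ∈ Hs := fun F => Submodule.le_topologicalClosure _ ⟨F, rfl⟩
  let i1 : MC8_E Γ →ₗ[ℝ] Hs := LinearMap.codRestrict Hs i0 hmem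
  have hcs : CompleteSpace Hs :=
    (Submodule.isClosed_topologicalClosure (LinearMap.range i0)).completeSpace_coe
  have hdense : ∀ h : Hs, ∀ ε > 0, ∃ F : MC8_E Γ, ‖h - i1 F‖ < ε := by
    intro h ε hε
    have h1 : (h : Lp ℝ 2 ν) ∈ closure ((LinearMap.range i0 : Submodule ℝ (Lp ℝ 2 ν)) : Set (Lp ℝ 2 ν)) := h.2
    obtain ⟨_, ⟨F, rfl⟩, hF⟩ := Metric.mem_closure_iff.1 h1 ε hε
    refine ⟨F, ?_⟩
    rw [dist_eq_norm] at hF
    exact hF
  have hdr : DenseRange i1 := by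
    intro h
    rw [Metric.mem_closure_iff]
    intro ε hε
    obtain ⟨F, hF⟩ := hdense h ε hε
    exact ⟨i1 F, ⟨F, rfl⟩, by rw [dist_eq_norm]; exact hF⟩
  obtain ⟨π, hπ, hπi⟩ := ext_rep i1 hdr (fun a => MC8_T a)
    (fun F => by
      apply Subtype.ext
      funext g
      show F.1 (g * 1) = F.1 g
      rw [mul_one])
    (fun a b F => by
      apply Subtype.ext
      funext g
      show F.1 (g * (a * b)) = F.1 (g * a * b)
      rw [mul_assoc])
    (fun a F => MC8_iso hc ν hν a F)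
    (fun F => (MC8_cont hc ν F).subtype_mk _)
  let ι : Fn n → Hs := fun F => if h : Inv Γ F then i1 ⟨F, h⟩ else 0
  have hι : ∀ F (h : Inv Γ F), ι F = i1 ⟨F, h⟩ := fun F h => dif_pos h
  refine ⟨Hs, inferInstance, inferInstance, hcs, ι, π, ?_⟩
  refine ⟨hπ, ?_, ?_, ?_, ?_⟩
  · intro F G hF hG
    rw [hι F hF, hι G hG]
    exact MC8_inner hc ν ⟨F, hF⟩ ⟨G, hG⟩
  · intro F q hF
    rw [hι F hF, hι _ (MC8_tr hF q), hπi]
    rfl
  · intro F G hF hG
    have h1 : Inv Γ (fun g => F g - G g) :=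
      ⟨hF.cont.sub hG.cont, fun γ hγ g => by
        show F (γ * g) - G (γ * g) = F g - G g
        rw [hF.inv γ hγ, hG.inv γ hγ]⟩
    rw [hι F hF, hι G hG, hι _ h1, ← map_sub]
    rfl
  · intro h ε hε
    obtain ⟨F, hF⟩ := hdense h ε hε
    refine ⟨F.1, F.2, ?_⟩
    rw [hι F.1 F.2]
    exact hF

end FLM
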