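import Pool.Agent.LibFL27.MG
import Pool.Agent.LibNC38.J1

set_option autoImplicit false

open Matrix MeasureTheory Topology Filter LibNC38
open LibNC27 hiding Mt

namespace FLM

attribute [local instance] mSL

private theorem MC9_int {n : ℕ} {Γ : Subgroup (SL n)} (hc : Coc Γ) (ν : Measure (SL n))
    (hν : ν Set.univ = 1) {F : Fn n} (hF : Inv Γ F) : Integrable F ν := by
  haveI : IsProbabilityMeasure ν := ⟨hν⟩
  haveI : BorelSpace (SL n) := ⟨rfl⟩
  obtain ⟨⟨B, hB⟩, -⟩ := LibNC38.unif Γ hc F hF.cont hF.inv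
  exact Integrable.of_bound hF.cont.aestronglyMeasurable B (ae_of_all _ hB)

/-- Row MC9 (invariant vectors are constant). Choose `F_k` (`Inv`) with `‖h - ι F_k‖ < 1/(k+1)`; then
`∫ (F_k(x g) - F_k(x))² dν = ‖π g (ι F_k) - ι F_k‖² ≤ 4/(k+1)²` for all `g`. By `Nu.var`:
`2 (∫ F_k² - (∫ F_k)²) ≤ C β(univ) 4/(k+1)²`, i.e. `‖ι F_k - (∫ F_k) ι 1‖ → 0`. With `∫ F = 0`:
`⟨ι F, h⟩ = lim ⟨ι F, ι F_k⟩ = lim ∫ F (F_k - ∫ F_k) = 0` (Cauchy-Schwarz). `Inv` functions are
bounded (`LibNC38.unif`), so everything is integrable for the probability `ν`. -/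
theorem const_orth {n : ℕ} (Γ : Subgroup (SL n)) (hc : Coc Γ) (ν : Measure (SL n)) (hν : Nu Γ ν)
    {H : Type*} [NormedAddCommGroup H] [InnerProductSpace ℝ H] (ι : Fn n → H)
    (π : SL n → H →L[ℝ] H) (hM : Model Γ ν ι π) (h : H) (hh : ∀ a, π a h = h) (F : Fn n)
    (hF : Inv Γ F) (h0 : ∫ x, F x ∂ν = 0) : inner ℝ (ι F) h = 0 := by
  haveI : IsProbabilityMeasure ν := ⟨hν.prob⟩
  obtain ⟨β, C, hβ, hC, hvar⟩ := hν.var
  haveI : IsFiniteMeasure β := ⟨hβ⟩
  set b : ℝ := β.real Set.univ with hb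
  have hb0 : 0 ≤ b := measureReal_nonneg
  have key : ∀ ε : ℝ, 0 < ε →
      |inner ℝ (ι F) h| ≤ (‖ι F‖ * (1 + Real.sqrt (2 * C * b))) * ε := by
    intro ε hε
    obtain ⟨G, hG, hGh⟩ := hM.dens h ε hε
    set m : ℝ := ∫ x, G x ∂ν with hm
    have hGm : Inv Γ (fun g => G g - m) :=
      ⟨hG.cont.sub continuous_const, fun γ hγ g => by show G (γ * g) - m = G g - m; rw [hG.inv γ hγ]⟩
    have hGG : Inv Γ (fun g => G g * G g) :=
      ⟨hG.cont.mul hG.cont, fun γ hγ g => by
        show G (γ * g) * G (γ * g) = G g * G g; rw [hG.inv γ hγ]⟩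
    have hFG : Inv Γ (fun g => F g * G g) :=
      ⟨hF.cont.mul hG.cont, fun γ hγ g => by
        show F (γ * g) * G (γ * g) = F g * G g; rw [hG.inv γ hγ, hF.inv γ hγ]⟩
    have iG := MC9_int hc ν hν.prob hG
    have iGG := MC9_int hc ν hν.prob hGG
    have iF := MC9_int hc ν hν.prob hF
    have iFG := MC9_int hc ν hν.prob hFG
    -- the translates
    have h1 : ∀ a : SL n, ∫ x, (G (x * a) - G x) ^ 2 ∂ν ≤ (2 * ε) ^ 2 := by
      intro a
      have hGa : Inv Γ (fun g => G (g * a)) :=
        ⟨hG.cont.comp (continuous_mul_right a), fun γ hγ g => by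
          show G (γ * g * a) = G (g * a); rw [mul_assoc, hG.inv γ hγ]⟩
      have hD : Inv Γ (fun g => G (g * a) - G g) :=
        ⟨hGa.cont.sub hG.cont, fun γ hγ g => by
          show G (γ * g * a) - G (γ * g) = G (g * a) - G g
          rw [mul_assoc, hG.inv γ hγ, hG.inv γ hγ]⟩
      have e : ι (fun g => G (g * a) - G g) = π a (ι G) - ι G := by
        rw [hM.sub _ _ hGa hG, hM.act G a hG]
      have n1 : ‖π a (ι G) - ι G‖ ≤ 2 * ε := by
        have e2 : π a (ι G) - ι G = π a (ι G - h) + (h - ι G) := by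
          rw [map_sub, hh a]; abel
        rw [e2]
        have t1 : ‖π a (ι G - h)‖ ≤ ε := by
          rw [hM.rep.iso, norm_sub_rev]; exact hGh.le
        calc ‖π a (ι G - h) + (h - ι G)‖ ≤ ‖π a (ι G - h)‖ + ‖h - ι G‖ := norm_add_le _ _
          _ ≤ ε + ε := add_le_add t1 hGh.le
          _ = 2 * ε := by ring
      have n2 : ∫ x, (G (x * a) - G x) ^ 2 ∂ν = ‖π a (ι G) - ι G‖ ^ 2 := by
        rw [← e, ← real_inner_self_eq_norm_sq, hM.inn _ _ hD hD]
        refine integral_congr_ae (ae_of_all _ fun x => ?_)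
        show (G (x * a) - G x) ^ 2 = (G (x * a) - G x) * (G (x * a) - G x)
        ring
      rw [n2]
      exact pow_le_pow_left₀ (norm_nonneg _) n1 2
    have h2 : ∫ x, ∫ y, (G x - G y) ^ 2 ∂ν ∂ν ≤ C * ((2 * ε) ^ 2 * b) := by
      refine (hvar G hG).trans (mul_le_mul_of_nonneg_left ?_ hC)
      have t : ∫ g, ∫ x, (G (x * g) - G x) ^ 2 ∂ν ∂β ≤ ∫ _g : SL n, (2 * ε) ^ 2 ∂β := by
        refine integral_mono_of_nonneg (ae_of_all _ fun g => ?_) (integrable_const _)
          (ae_of_all _ fun g => h1 g)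
        exact integral_nonneg fun x => sq_nonneg _
      refine t.trans (le_of_eq ?_)
      rw [integral_const, smul_eq_mul, mul_comm]
    have h3 : ∫ x, ∫ y, (G x - G y) ^ 2 ∂ν ∂ν = 2 * ((∫ x, G x * G x ∂ν) - m ^ 2) := by
      have s1 : ∀ x, ∫ y, (G x - G y) ^ 2 ∂ν = G x * G x - 2 * G x * m + ∫ y, G y * G y ∂ν := by
        intro x
        have s2 : ∀ y, (G x - G y) ^ 2 = (G x * G x - (2 * G x) * G y) + G y * G y := by
          intro y; ring
        rw [integral_congr_ae (ae_of_all _ s2), integral_add, integral_sub, integral_const,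
          integral_const_mul]
        · simp only [probReal_univ, smul_eq_mul, ← hm]
          ring
        · exact integrable_const _
        · exact iG.const_mul _
        · exact (integrable_const _).sub (iG.const_mul _)
        · exact iGG
      rw [integral_congr_ae (ae_of_all _ s1)]
      have s3 : ∀ x, G x * G x - 2 * G x * m + ∫ y, G y * G y ∂ν =
          (G x * G x - (2 * m) * G x) + ∫ y, G y * G y ∂ν := by
        intro x; ring
      rw [integral_congr_ae (ae_of_all _ s3), integral_add, integral_sub, integral_const,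
        integral_const_mul]
      · simp only [probReal_univ, smul_eq_mul, ← hm]
        ring
      · exact iGG
      · exact iG.const_mul _
      · exact iGG.sub (iG.const_mul _)
      · exact integrable_const _
    have h4 : ‖ι (fun g => G g - m)‖ ^ 2 = (∫ x, G x * G x ∂ν) - m ^ 2 := by
      rw [← real_inner_self_eq_norm_sq, hM.inn _ _ hGm hGm]
      have s3 : ∀ x, (G x - m) * (G x - m) = (G x * G x - (2 * m) * G x) + m ^ 2 := by
        intro x; ring
      rw [integral_congr_ae (ae_of_all _ s3), integral_add, integral_sub, integral_const,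
        integral_const_mul]
      · simp only [probReal_univ, smul_eq_mul, ← hm]
        ring
      · exact iGG
      · exact iG.const_mul _
      · exact iGG.sub (iG.const_mul _)
      · exact integrable_const _
    have h5 : ‖ι (fun g => G g - m)‖ ≤ Real.sqrt (2 * C * b) * ε := by
      have t : ‖ι (fun g => G g - m)‖ ^ 2 ≤ (Real.sqrt (2 * C * b) * ε) ^ 2 := by
        rw [mul_pow, Real.sq_sqrt (by positivity), h4]
        rw [h3] at h2
        nlinarith [h2]
      exact (pow_le_pow_iff_left₀ (norm_nonneg _) (by positivity) two_ne_zero).1 t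
    have h6 : inner ℝ (ι F) (ι (fun g => G g - m)) = inner ℝ (ι F) (ι G) := by
      rw [hM.inn _ _ hF hGm, hM.inn _ _ hF hG]
      have s3 : ∀ x, F x * (G x - m) = F x * G x - m * F x := by
        intro x; ring
      rw [integral_congr_ae (ae_of_all _ s3), integral_sub iFG (iF.const_mul _),
        integral_const_mul, h0]
      ring
    have h7 : inner ℝ (ι F) h =
        inner ℝ (ι F) (h - ι G) + inner ℝ (ι F) (ι (fun g => G g - m)) := by
      rw [h6, ← inner_add_right]
      congr 1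
      abel
    rw [h7]
    calc |inner ℝ (ι F) (h - ι G) + inner ℝ (ι F) (ι (fun g => G g - m))|
        ≤ |inner ℝ (ι F) (h - ι G)| + |inner ℝ (ι F) (ι (fun g => G g - m))| := abs_add_le _ _
      _ ≤ ‖ι F‖ * ‖h - ι G‖ + ‖ι F‖ * ‖ι (fun g => G g - m)‖ :=
          add_le_add (abs_real_inner_le_norm _ _) (abs_real_inner_le_norm _ _)
      _ ≤ ‖ι F‖ * ε + ‖ι F‖ * (Real.sqrt (2 * C * b) * ε) :=
          add_le_add (mul_le_mul_of_nonneg_left hGh.le (norm_nonneg _))
            (mul_le_mul_of_nonneg_left h5 (norm_nonneg _))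
      _ = (‖ι F‖ * (1 + Real.sqrt (2 * C * b))) * ε := by ring
  set M : ℝ := ‖ι F‖ * (1 + Real.sqrt (2 * C * b)) with hMdef
  have hM0 : 0 ≤ M := by positivity
  have h8 : |inner ℝ (ι F) h| ≤ 0 := by
    refine le_of_forall_pos_le_add fun δ hδ => ?_
    have := key (δ / (M + 1)) (by positivity)
    refine this.trans ?_
    rw [zero_add, mul_div_assoc', div_le_iff₀ (by positivity)]
    nlinarith
  exact abs_nonpos_iff.1 h8

end FLM
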