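import Pool.Agent.LibFL27.MB4
import Pool.Agent.LibFL27.MC6
import Pool.Agent.LibFL27.MC8
import Pool.Agent.LibFL27.MC9
import Pool.Agent.LibFL27.MC10

set_option autoImplicit false

open Matrix MeasureTheory Topology Filter LibNC38 FL27
open LibNC27 hiding Mt

namespace FLM

attribute [local instance] mSL

theorem m11_BD {n : ℕ} {F : Fn n} {M : ℝ} (h : BD 1 M F) : Continuous F ∧ ∀ g, |F g| ≤ M := by
  unfold BD at h
  exact h.1

theorem m11_int {n : ℕ} (ν : Measure (SL n)) (hp : ν Set.univ = 1) (F : Fn n) (hc : Continuous F)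
    (M : ℝ) (hM : ∀ g, |F g| ≤ M) : Integrable F ν := by
  have : BorelSpace (SL n) := ⟨rfl⟩
  have : IsFiniteMeasure ν := ⟨by rw [hp]; exact ENNReal.one_lt_top⟩
  refine Integrable.of_bound hc.measurable.aestronglyMeasurable M ?_
  exact Eventually.of_forall fun g => by rw [Real.norm_eq_abs]; exact hM g

theorem m11_abs {n : ℕ} (ν : Measure (SL n)) (hp : ν Set.univ = 1) (F : Fn n)
    (M : ℝ) (hM : ∀ g, |F g| ≤ M) : |∫ x, F x ∂ν| ≤ M := by
  have : IsProbabilityMeasure ν := ⟨hp⟩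
  have h := norm_integral_le_of_norm_le_const (μ := ν) (f := F) (C := M)
    (Eventually.of_forall fun g => by rw [Real.norm_eq_abs]; exact hM g)
  rw [Real.norm_eq_abs] at h
  simpa [Measure.real, hp] using h

theorem m11_norm {n : ℕ} (Γ : Subgroup (SL n)) (ν : Measure (SL n)) (hp : ν Set.univ = 1)
    {H : Type*} [NormedAddCommGroup H] [InnerProductSpace ℝ H] (ι : Fn n → H)
    (π : SL n → H →L[ℝ] H) (hM : Model Γ ν ι π) (F : Fn n) (hF : Inv Γ F) (B : ℝ) (hB : 0 ≤ B)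
    (hb : ∀ g, |F g| ≤ B) : ‖ι F‖ ≤ B := by
  have h1 : ‖ι F‖ ^ 2 ≤ B ^ 2 := by
    rw [← real_inner_self_eq_norm_sq, hM.inn F F hF hF]
    refine (le_abs_self _).trans (m11_abs ν hp (fun x => F x * F x) (B ^ 2) fun g => ?_)
    rw [abs_mul, pow_two]
    exact mul_le_mul (hb g) (hb g) (abs_nonneg _) hB
  exact le_of_sq_le_sq' h1 hB
where
  le_of_sq_le_sq' {a b : ℝ} (h : a ^ 2 ≤ b ^ 2) (hb : 0 ≤ b) : a ≤ b :=
    (le_abs_self a).trans ((sq_le_sq.1 h).trans (le_of_eq (abs_of_nonneg hb)))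

theorem m11_ij {n : ℕ} (hn : 3 ≤ n) (y : V0 n) :
    ∃ i j : Fin n, i ≠ j ∧ y.1 j ≤ y.1 i ∧ ‖y‖ ≤ n * (y.1 i - y.1 j) := by
  have : NeZero n := ⟨by omega⟩
  obtain ⟨i, -, hi⟩ := Finset.exists_max_image (Finset.univ : Finset (Fin n)) (fun k => y.1 k)
    ⟨0, Finset.mem_univ _⟩
  obtain ⟨j, -, hj⟩ := Finset.exists_min_image (Finset.univ : Finset (Fin n)) (fun k => y.1 k)
    ⟨0, Finset.mem_univ _⟩
  have hs := sum_V0 y
  have hn0 : (0 : ℝ) < n := by exact_mod_cast (by omega : 0 < n)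
  have hipos : 0 ≤ y.1 i := by
    by_contra hneg
    push Not at hneg
    have : ∑ k, y.1 k < 0 := by
      have h1 : ∑ k : Fin n, y.1 k ≤ ∑ _k : Fin n, y.1 i :=
        Finset.sum_le_sum fun k _ => hi k (Finset.mem_univ _)
      simp only [Finset.sum_const, Finset.card_univ, Fintype.card_fin, nsmul_eq_mul] at h1
      nlinarith
    linarith
  have hjneg : y.1 j ≤ 0 := by
    by_contra hpos
    push Not at hpos
    have : 0 < ∑ k, y.1 k := by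
      have h1 : ∑ _k : Fin n, y.1 j ≤ ∑ k : Fin n, y.1 k :=
        Finset.sum_le_sum fun k _ => hj k (Finset.mem_univ _)
      simp only [Finset.sum_const, Finset.card_univ, Fintype.card_fin, nsmul_eq_mul] at h1
      nlinarith
    linarith
  have habs : ∀ k, |y.1 k| ≤ y.1 i - y.1 j := fun k => by
    have h1 := hi k (Finset.mem_univ _)
    have h2 := hj k (Finset.mem_univ _)
    simp only at h1 h2
    rw [abs_le]
    constructor <;> linarith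
  have hnorm : ‖y‖ ≤ n * (y.1 i - y.1 j) := by
    have e1 : ‖y‖ = ‖y.1‖ := rfl
    rw [e1, EuclideanSpace.norm_eq]
    refine Real.sqrt_le_iff.2 ⟨by nlinarith, ?_⟩
    have h1 : ∑ k : Fin n, ‖y.1 k‖ ^ 2 ≤ ∑ _k : Fin n, (y.1 i - y.1 j) ^ 2 := by
      refine Finset.sum_le_sum fun k _ => ?_
      rw [Real.norm_eq_abs]
      exact pow_le_pow_left₀ (abs_nonneg _) (habs k) 2
    simp only [Finset.sum_const, Finset.card_univ, Fintype.card_fin, nsmul_eq_mul] at h1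
    refine h1.trans ?_
    rw [mul_pow]
    have h2 : (n : ℝ) ≤ (n : ℝ) ^ 2 := by
      have : (1 : ℝ) ≤ n := by exact_mod_cast (by omega : 1 ≤ n)
      nlinarith
    exact mul_le_mul_of_nonneg_right h2 (sq_nonneg _)
  by_cases hij : i = j
  · -- all coordinates vanish
    subst hij
    have h0 : ∀ k, y.1 k = 0 := fun k => by
      have := habs k
      simp only [sub_self] at this
      exact abs_eq_zero.1 (le_antisymm this (abs_nonneg _))
    have hy0 : ‖y‖ ≤ 0 := by simpa using hnorm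
    refine ⟨⟨0, by omega⟩, ⟨1, by omega⟩, by simp [Fin.ext_iff], by rw [h0, h0], ?_⟩
    rw [h0, h0]
    simpa using hy0
  · exact ⟨i, j, hij, by linarith, hnorm⟩

/-- Row MC11 (board M). `ν` from MC6, `H, ι, π` from MC8. `c_a = ∫ F_a dν`, `f_a = ι (F_a - c_a)`:
`‖f_a‖ ≤ 2 M_a`, `‖π (rot i j θ) f_a - f_a‖ ≤ M_a |θ|` (MC10, `inn`, `act`, `sub`), `h0` of MB4 from MC9.
`⟨π (dgm y) f₁, f₂⟩ = ∫ F₁(g dgm y) F₂(g) - c₁ c₂` (`Nu.inv`). Choose `i ≠ j` with `y i` maximal, `y j`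
minimal (any `i ≠ j` if `y = 0`): `y i - y j ≥ max |y k| ≥ ‖y‖ / n` as `∑ y k = 0`.
`C = 360`, `c = 1 / (6 n)`. -/
theorem M_stat : MStat := by
  intro n hn Γ hd hc
  obtain ⟨ν, hν⟩ := nu_ex Γ hd hc
  obtain ⟨H, i1, i2, i3, ι, π, hM⟩ := model_ex Γ hc ν hν
  have hn0 : (0 : ℝ) < n := by exact_mod_cast (by omega : 0 < n)
  have hbor : BorelSpace (SL n) := ⟨rfl⟩
  have hprob : IsProbabilityMeasure ν := ⟨hν.prob⟩
  refine ⟨ν, 360, 1 / (6 * n), ⟨hν.prob, hν.cpt, hν.inv, hν.low, by positivity, ?_⟩⟩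
  intro F₁ F₂ M₁ M₂ hI₁ hI₂ hB₁ hB₂ y
  obtain ⟨hc₁, hb₁⟩ := m11_BD hB₁
  obtain ⟨hc₂, hb₂⟩ := m11_BD hB₂
  have hM₁ : 0 ≤ M₁ := (abs_nonneg _).trans (hb₁ 1)
  have hM₂ : 0 ≤ M₂ := (abs_nonneg _).trans (hb₂ 1)
  obtain ⟨i, j, hij, hy, hnorm⟩ := m11_ij hn y
  -- the centred functions
  have key : ∀ (F : Fn n) (M : ℝ), Inv Γ F → BD 1 M F → 0 ≤ M →
      Inv Γ (fun g => F g - ∫ x, F x ∂ν) ∧
      (∀ g, |F g - ∫ x, F x ∂ν| ≤ 2 * M) ∧
      ‖ι (fun g => F g - ∫ x, F x ∂ν)‖ ≤ 2 * M ∧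
      ∀ θ, ‖π (rot i j θ) (ι (fun g => F g - ∫ x, F x ∂ν)) - ι (fun g => F g - ∫ x, F x ∂ν)‖ ≤
        M * |θ| := by
    intro F M hI hB hM0
    obtain ⟨hcF, hbF⟩ := m11_BD hB
    have hinv : Inv Γ (fun g => F g - ∫ x, F x ∂ν) :=
      ⟨hcF.sub continuous_const, fun γ hγ g => by
        show F (γ * g) - _ = F g - _
        rw [hI.inv γ hγ g]⟩
    have hbd : ∀ g, |F g - ∫ x, F x ∂ν| ≤ 2 * M := fun g => by
      have h1 := hbF g
      have h2 := m11_abs ν hν.prob F M hbF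
      calc |F g - ∫ x, F x ∂ν| ≤ |F g| + |∫ x, F x ∂ν| := abs_sub _ _
        _ ≤ 2 * M := by linarith
    refine ⟨hinv, hbd, m11_norm Γ ν hν.prob ι π hM _ hinv (2 * M) (by positivity) hbd, fun θ => ?_⟩
    have hinv' : Inv Γ (fun g => (fun g => F g - ∫ x, F x ∂ν) (g * rot i j θ)) :=
      ⟨hinv.cont.comp (continuous_id.mul continuous_const), fun γ hγ g => by
        show (fun g => F g - ∫ x, F x ∂ν) (γ * g * rot i j θ) = _
        rw [mul_assoc]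
        exact hinv.inv γ hγ _⟩
    rw [hM.act _ (rot i j θ) hinv, ← hM.sub _ _ hinv' hinv]
    refine m11_norm Γ ν hν.prob ι π hM _ ⟨hinv'.cont.sub hinv.cont, fun γ hγ g => ?_⟩ (M * |θ|)
      (by positivity) fun g => ?_
    · have e1 : F (γ * g * rot i j θ) - ∫ x, F x ∂ν = F (g * rot i j θ) - ∫ x, F x ∂ν :=
        hinv'.inv γ hγ g
      have e2 : F (γ * g) - ∫ x, F x ∂ν = F g - ∫ x, F x ∂ν := hinv.inv γ hγ g
      show (F (γ * g * rot i j θ) - ∫ x, F x ∂ν) - (F (γ * g) - ∫ x, F x ∂ν) =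
        (F (g * rot i j θ) - ∫ x, F x ∂ν) - (F g - ∫ x, F x ∂ν)
      rw [e1, e2]
    · have h := BD_lip F M hB i j hij g θ
      show |(F (g * rot i j θ) - ∫ x, F x ∂ν) - (F g - ∫ x, F x ∂ν)| ≤ M * |θ|
      rw [sub_sub_sub_cancel_right]
      exact h
  obtain ⟨hJ₁, hd₁, hn₁, hL₁⟩ := key F₁ M₁ hI₁ hB₁ hM₁
  obtain ⟨hJ₂, hd₂, hn₂, hL₂⟩ := key F₂ M₂ hI₂ hB₂ hM₂
  have hint₁ := m11_int ν hν.prob F₁ hc₁ M₁ hb₁
  have hint₂ := m11_int ν hν.prob F₂ hc₂ M₂ hb₂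
  set c₁ : ℝ := ∫ x, F₁ x ∂ν with hc₁d
  set c₂ : ℝ := ∫ x, F₂ x ∂ν with hc₂d
  have hzero : ∫ x, (F₁ x - c₁) ∂ν = 0 := by
    rw [integral_sub hint₁ (integrable_const _), integral_const]
    simp [← hc₁d]
  have hmix := mix_H hn π hM.rep i j hij y hy (ι fun g => F₁ g - c₁) (ι fun g => F₂ g - c₂) M₁ M₂
    hL₁ hL₂ (fun g hg => const_orth Γ hc ν hν ι π hM g hg _ hJ₁ hzero)
  have hJ' : Inv Γ (fun g => (fun g => F₁ g - c₁) (g * dgm y)) :=
    ⟨hJ₁.cont.comp (continuous_id.mul continuous_const), fun γ hγ g => by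
      show (fun g => F₁ g - c₁) (γ * g * dgm y) = _
      rw [mul_assoc]
      exact hJ₁.inv γ hγ _⟩
  rw [hM.act _ (dgm y) hJ₁, hM.inn _ _ hJ' hJ₂] at hmix
  -- compute the integral
  have hcd : Continuous fun g : SL n => F₁ (g * dgm y) :=
    hc₁.comp (continuous_id.mul continuous_const)
  have hintd : Integrable (fun g : SL n => F₁ (g * dgm y)) ν :=
    m11_int ν hν.prob _ hcd M₁ fun g => hb₁ _
  have hintp : Integrable (fun g : SL n => F₁ (g * dgm y) * F₂ g) ν :=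
    m11_int ν hν.prob _ (hcd.mul hc₂) (M₁ * M₂) fun g => by
      rw [abs_mul]
      exact mul_le_mul (hb₁ _) (hb₂ g) (abs_nonneg _) hM₁
  have hcomp : ∫ g, (F₁ (g * dgm y) - c₁) * (F₂ g - c₂) ∂ν =
      (∫ g, F₁ (g * dgm y) * F₂ g ∂ν) - c₁ * c₂ := by
    have e1 : ∀ g : SL n, (F₁ (g * dgm y) - c₁) * (F₂ g - c₂) =
        (F₁ (g * dgm y) * F₂ g - c₂ * F₁ (g * dgm y)) - (c₁ * F₂ g - c₁ * c₂) := fun g => by ring
    simp_rw [e1]
    have hs1 : Integrable (fun g : SL n => F₁ (g * dgm y) * F₂ g - c₂ * F₁ (g * dgm y)) ν :=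
      hintp.sub (hintd.const_mul c₂)
    have hs2 : Integrable (fun g : SL n => c₁ * F₂ g - c₁ * c₂) ν :=
      (hint₂.const_mul c₁).sub (integrable_const _)
    rw [integral_sub hs1 hs2,
      integral_sub hintp (hintd.const_mul c₂), integral_sub (hint₂.const_mul c₁) (integrable_const _),
      integral_const_mul, integral_const_mul, hν.inv F₁ hI₁ (dgm y), integral_const]
    simp only [probReal_univ, one_smul, ← hc₁d, ← hc₂d]
    ring
  have hmix' : |(∫ g, F₁ (g * dgm y) * F₂ g ∂ν) - c₁ * c₂| ≤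
      40 * Real.exp (-(y.1 i - y.1 j) / 6) * (‖ι fun g => F₁ g - c₁‖ + M₁) *
        (‖ι fun g => F₂ g - c₂‖ + M₂) := by
    rw [← hcomp]; exact hmix
  refine hmix'.trans ?_
  have hexp : Real.exp (-(y.1 i - y.1 j) / 6) ≤ Real.exp (-(1 / (6 * n) * ‖y‖)) := by
    refine Real.exp_le_exp.2 ?_
    have h1 : 1 / (6 * n) * ‖y‖ ≤ (y.1 i - y.1 j) / 6 := by
      rw [div_mul_eq_mul_div, one_mul, div_le_div_iff₀ (by positivity) (by norm_num)]
      nlinarith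
    linarith
  have hA : 40 * Real.exp (-(y.1 i - y.1 j) / 6) * (‖ι fun g => F₁ g - c₁‖ + M₁) *
        (‖ι fun g => F₂ g - c₂‖ + M₂) ≤
      40 * Real.exp (-(1 / (6 * n) * ‖y‖)) * (3 * M₁) * (3 * M₂) := by
    have h1 : ‖ι fun g => F₁ g - c₁‖ + M₁ ≤ 3 * M₁ := by linarith
    have h2 : ‖ι fun g => F₂ g - c₂‖ + M₂ ≤ 3 * M₂ := by linarith
    gcongr
  refine hA.trans (le_of_eq ?_)
  ring

end FLM
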