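import Pool.Agent.LibFL27.MG
import Pool.Agent.LibNC38.G6a

set_option autoImplicit false

open Matrix MeasureTheory Topology Filter LibNC38
open LibNC27 hiding Mt

namespace FLM

attribute [local instance] mSL

/-- Row MC2 (unfolding). Only finitely many `γ` have `v (γ⁻¹ x) w x ≠ 0` or `v x w (γ x) ≠ 0` for some
`x` (compact supports, `disc_finite` in `LibNC38.G6a`: `γ ∈ supp w * (supp v)⁻¹`); so
`∫ F v = ∫ F v ∑ w(γ x) = ∑_γ ∫ F(x) v(x) w(γ x) = ∑_γ ∫ F(γ⁻¹ x) v(γ⁻¹ x) w(x) = ∫ F w ∑ v(γ⁻¹ x)`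
(left invariance), and the sum over `γ⁻¹` is the sum over `γ`. -/
theorem unfold {n : ℕ} (Γ : Subgroup (SL n)) (hd : Disc Γ) (lam : Measure (SL n)) (w : SL n → ℝ)
    (h : Wt Γ lam w) (F : Fn n) (hF : Inv Γ F) (v : SL n → ℝ) (hv : Continuous v)
    (hvs : HasCompactSupport v) :
    ∫ x, F x * v x ∂lam = ∫ x, F x * w x * ∑' γ : Γ, v (γ.1 * x) ∂lam := by
  classical
  haveI : BorelSpace (SL n) := ⟨rfl⟩
  haveI : IsFiniteMeasureOnCompacts lam := ⟨fun K hK => h.fin K hK⟩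
  obtain ⟨K, hKdef⟩ : ∃ K : Set (SL n),
      K = (fun p : SL n × SL n => p.1 * p.2⁻¹) '' (tsupport w ×ˢ tsupport v) := ⟨_, rfl⟩
  have hK : IsCompact K := by
    rw [hKdef]
    exact (h.supp.prod hvs).image (by fun_prop)
  have hfin : {γ : Γ | γ.1 ∈ K}.Finite := by
    refine ((disc_finite Γ hd K hK).preimage (f := fun γ : Γ => γ.1)
      (Subtype.val_injective.injOn)).subset ?_
    intro γ hγ
    exact ⟨γ.2, hγ⟩
  obtain ⟨T, hT⟩ : ∃ T : Finset Γ, ∀ γ : Γ, γ ∈ T ↔ γ.1 ∈ K :=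
    ⟨hfin.toFinset, fun γ => by rw [Set.Finite.mem_toFinset]; rfl⟩
  have hKm : ∀ (γ x : SL n), v x ≠ 0 → w (γ * x) ≠ 0 → γ ∈ K := by
    intro γ x h1 h2
    rw [hKdef]
    exact ⟨(γ * x, x), ⟨subset_tsupport w h2, subset_tsupport v h1⟩, mul_inv_cancel_right γ x⟩
  have h1 : ∀ x, F x * v x = ∑ γ ∈ T, F x * v x * w (γ.1 * x) := by
    intro x
    have e1 : HasSum (fun γ : Γ => F x * v x * w (γ.1 * x)) (F x * v x * 1) :=
      (h.sum x).mul_left (F x * v x)
    have e2 : HasSum (fun γ : Γ => F x * v x * w (γ.1 * x))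
        (∑ γ ∈ T, F x * v x * w (γ.1 * x)) := by
      refine hasSum_sum_of_ne_finset_zero fun γ hγ => ?_
      by_contra hne
      have g1 : v x ≠ 0 := fun h0 => hne (by rw [h0, mul_zero, zero_mul])
      have g2 : w (γ.1 * x) ≠ 0 := fun h0 => hne (by rw [h0, mul_zero])
      exact hγ ((hT γ).2 (hKm γ.1 x g1 g2))
    have e3 := e1.unique e2
    rwa [mul_one] at e3
  have h2 : ∀ x, F x * w x * ∑' γ : Γ, v (γ.1 * x) =
      ∑ γ ∈ T, F x * w x * v ((γ.1)⁻¹ * x) := by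
    intro x
    have e1 : ∑' γ : Γ, v (γ.1 * x) = ∑' γ : Γ, v ((γ.1)⁻¹ * x) :=
      ((Equiv.inv Γ).tsum_eq (fun γ : Γ => v (γ.1 * x))).symm
    rw [e1, ← tsum_mul_left]
    refine tsum_eq_sum fun γ hγ => ?_
    by_contra hne
    have g1 : w x ≠ 0 := fun h0 => hne (by rw [h0, mul_zero, zero_mul])
    have g2 : v ((γ.1)⁻¹ * x) ≠ 0 := fun h0 => hne (by rw [h0, mul_zero])
    refine hγ ((hT γ).2 (hKm γ.1 ((γ.1)⁻¹ * x) g2 ?_))
    rw [mul_inv_cancel_left]
    exact g1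
  have h3 : ∀ γ : SL n, γ ∈ Γ → ∫ x, F x * v x * w (γ * x) ∂lam =
      ∫ x, F x * w x * v (γ⁻¹ * x) ∂lam := by
    intro γ hγ
    have hc : Continuous (fun y : SL n => F y * w y * v (γ⁻¹ * y)) :=
      (hF.cont.mul h.cont).mul (hv.comp (continuous_const.mul continuous_id))
    have hm : Continuous (fun y : SL n => γ * y) := continuous_const.mul continuous_id
    have e1 : ∫ y, F y * w y * v (γ⁻¹ * y) ∂(lam.map (fun x => γ * x)) =
        ∫ x, F (γ * x) * w (γ * x) * v (γ⁻¹ * (γ * x)) ∂lam :=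
      integral_map hm.measurable.aemeasurable hc.aestronglyMeasurable
    rw [h.left γ] at e1
    rw [e1]
    refine integral_congr_ae (Filter.Eventually.of_forall fun x => ?_)
    show F x * v x * w (γ * x) = F (γ * x) * w (γ * x) * v (γ⁻¹ * (γ * x))
    rw [hF.inv γ hγ, inv_mul_cancel_left]
    ring
  have hi : ∀ γ ∈ T, Integrable (fun x => F x * v x * w (γ.1 * x)) lam := by
    intro γ _
    refine Continuous.integrable_of_hasCompactSupport ?_ ?_
    · exact (hF.cont.mul hv).mul (h.cont.comp (continuous_const.mul continuous_id))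
    · have g1 : HasCompactSupport (fun x => F x * v x) := hvs.mul_left
      exact g1.mul_right
  have hj : ∀ γ ∈ T, Integrable (fun x => F x * w x * v ((γ.1)⁻¹ * x)) lam := by
    intro γ _
    refine Continuous.integrable_of_hasCompactSupport ?_ ?_
    · exact (hF.cont.mul h.cont).mul (hv.comp (continuous_const.mul continuous_id))
    · have g1 : HasCompactSupport (fun x => F x * w x) := h.supp.mul_left
      exact g1.mul_right
  calc ∫ x, F x * v x ∂lam = ∫ x, ∑ γ ∈ T, F x * v x * w (γ.1 * x) ∂lam :=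
        integral_congr_ae (Filter.Eventually.of_forall fun x => h1 x)
    _ = ∑ γ ∈ T, ∫ x, F x * v x * w (γ.1 * x) ∂lam := integral_finset_sum T hi
    _ = ∑ γ ∈ T, ∫ x, F x * w x * v ((γ.1)⁻¹ * x) ∂lam :=
        Finset.sum_congr rfl fun γ _ => h3 γ.1 γ.2
    _ = ∫ x, ∑ γ ∈ T, F x * w x * v ((γ.1)⁻¹ * x) ∂lam := (integral_finset_sum T hj).symm
    _ = ∫ x, F x * w x * ∑' γ : Γ, v (γ.1 * x) ∂lam :=
        integral_congr_ae (Filter.Eventually.of_forall fun x => (h2 x).symm)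

end FLM
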