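import Pool.Agent.LibFL27.MG
import Pool.Agent.LibNC38.J1

set_option autoImplicit false

open Matrix MeasureTheory Topology Filter LibNC38
open LibNC27 hiding Mt

namespace FLM

/-- Row MC7a (extension of a representation by density; abstract). The isometric linear map
`ι F ↦ ι (T a F)` is well defined on the dense range of `ι` and extends to `H` (for instance
`LinearMap.extend`, `ContinuousLinearMap.extend`, or by hand through Cauchy sequences); the group law and
strong continuity pass to the closure (`ε/3`, all maps are isometries). -/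
theorem ext_rep {n : ℕ} {E : Type*} [AddCommGroup E] [Module ℝ E] {H : Type*} [NormedAddCommGroup H]
    [InnerProductSpace ℝ H] [CompleteSpace H] (ι : E →ₗ[ℝ] H) (hι : DenseRange ι)
    (T : SL n → E →ₗ[ℝ] E) (h1 : ∀ F, T 1 F = F) (hm : ∀ a b F, T (a * b) F = T a (T b F))
    (hi : ∀ a F, ‖ι (T a F)‖ = ‖ι F‖) (hc : ∀ F, Continuous fun a => ι (T a F)) :
    ∃ π : SL n → H →L[ℝ] H, RepG π ∧ ∀ a F, π a (ι F) = ι (T a F) := by
  have hb : ∀ a : SL n, ∀ F : E, ‖(ι ∘ₗ T a) F‖ ≤ 1 * ‖ι F‖ := fun a F => by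
    rw [one_mul, LinearMap.comp_apply, hi]
  have heq : ∀ (a : SL n) (F : E), (ι ∘ₗ T a).extendOfNorm ι (ι F) = ι (T a F) := fun a F =>
    LinearMap.extendOfNorm_eq hι ⟨1, hb a⟩ F
  have hiso : ∀ (a : SL n) (f : H), ‖(ι ∘ₗ T a).extendOfNorm ι f‖ = ‖f‖ := by
    intro a f
    refine hι.induction (P := fun f => ‖(ι ∘ₗ T a).extendOfNorm ι f‖ = ‖f‖) ?_ ?_ f
    · rintro _ ⟨F, rfl⟩
      rw [heq, hi]
    · exact isClosed_eq (((ι ∘ₗ T a).extendOfNorm ι).continuous.norm) continuous_norm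
  refine ⟨fun a => (ι ∘ₗ T a).extendOfNorm ι, ⟨?_, ?_, hiso, ?_⟩, heq⟩
  · intro f
    refine hι.induction (P := fun f => (ι ∘ₗ T 1).extendOfNorm ι f = f) ?_ ?_ f
    · rintro _ ⟨F, rfl⟩
      rw [heq, h1]
    · exact isClosed_eq ((ι ∘ₗ T 1).extendOfNorm ι).continuous continuous_id
  · intro a b f
    refine hι.induction (P := fun f => (ι ∘ₗ T (a * b)).extendOfNorm ι f =
      (ι ∘ₗ T a).extendOfNorm ι ((ι ∘ₗ T b).extendOfNorm ι f)) ?_ ?_ f
    · rintro _ ⟨F, rfl⟩
      rw [heq, heq, heq, hm]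
    · exact isClosed_eq ((ι ∘ₗ T (a * b)).extendOfNorm ι).continuous
        (((ι ∘ₗ T a).extendOfNorm ι).continuous.comp ((ι ∘ₗ T b).extendOfNorm ι).continuous)
  · intro f
    refine continuous_iff_continuousAt.2 fun a0 => ?_
    rw [ContinuousAt, Metric.tendsto_nhds]
    intro ε hε
    obtain ⟨F, hF⟩ : ∃ F, ι F ∈ Metric.ball f (ε / 3) :=
      hι.exists_mem_open Metric.isOpen_ball ⟨f, Metric.mem_ball_self (by positivity)⟩
    have hF' : dist (ι F) f < ε / 3 := hF
    have h2 := (Metric.tendsto_nhds.1 ((hc F).continuousAt (x := a0))) (ε / 3) (by positivity)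
    filter_upwards [h2] with a ha
    have e1 : dist ((ι ∘ₗ T a).extendOfNorm ι f) (ι (T a F)) < ε / 3 := by
      rw [← heq a F, dist_eq_norm, ← map_sub, hiso, ← dist_eq_norm, dist_comm]
      exact hF'
    have e2 : dist (ι (T a0 F)) ((ι ∘ₗ T a0).extendOfNorm ι f) < ε / 3 := by
      rw [← heq a0 F, dist_eq_norm, ← map_sub, hiso, ← dist_eq_norm]
      exact hF'
    have e3 := dist_triangle4 ((ι ∘ₗ T a).extendOfNorm ι f) (ι (T a F)) (ι (T a0 F))
      ((ι ∘ₗ T a0).extendOfNorm ι f)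
    linarith

end FLM
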