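import Mathlib

set_option autoImplicit false

open MeasureTheory ProbabilityTheory Topology Filter
open scoped NNReal

namespace FLM

/-- strongly continuous isometric representation of `ℝ²` -/
structure Rep2 {H : Type*} [NormedAddCommGroup H] [InnerProductSpace ℝ H]
    (ρ : ℝ × ℝ → H →L[ℝ] H) : Prop where
  zero : ∀ f, ρ 0 f = f
  add : ∀ p q f, ρ (p + q) f = ρ p (ρ q f)
  iso : ∀ p f, ‖ρ p f‖ = ‖f‖
  cont : ∀ f, Continuous fun p => ρ p f

/-- the centred Gaussian measure on `ℝ²` with variances `s, t` -/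
noncomputable def gg (s t : ℝ≥0) : Measure (ℝ × ℝ) := (gaussianReal 0 s).prod (gaussianReal 0 t)

/-- Gaussian average -/
noncomputable def Gf {H : Type*} [NormedAddCommGroup H] [InnerProductSpace ℝ H]
    (ρ : ℝ × ℝ → H →L[ℝ] H) (s t : ℝ≥0) (f : H) : H := ∫ p, ρ p f ∂(gg s t)

/-- rotation of the plane -/
noncomputable def Rt (θ : ℝ) (p : ℝ × ℝ) : ℝ × ℝ :=
  (Real.cos θ * p.1 + Real.sin θ * p.2, -Real.sin θ * p.1 + Real.cos θ * p.2)

/-- the cone form: `∑ ⟨(G(a r_j, r_j) - G(2 a r_j, r_j)) f, h⟩`, `r_j = 2^j r`, `j < N` -/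
noncomputable def Bf {H : Type*} [NormedAddCommGroup H] [InnerProductSpace ℝ H]
    (ρ : ℝ × ℝ → H →L[ℝ] H) (a r : ℝ≥0) (N : ℕ) (f h : H) : ℝ :=
  ∑ j ∈ Finset.range N, (inner ℝ (Gf ρ (a * (r * 2 ^ j)) (r * 2 ^ j) f) h -
    inner ℝ (Gf ρ (2 * a * (r * 2 ^ j)) (r * 2 ^ j) f) h)

end FLM
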