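import Pool.Agent.LibFL27.CR1

set_option autoImplicit false
set_option maxSynthPendingDepth 3

open Topology Filter Set
open scoped ContDiff

namespace NS38

private theorem P1_zero {E J : Type} [NormedAddCommGroup E] [NormedSpace ℝ E] [Fintype J]
    (b : Module.Basis J ℝ E) (x : E) (k : ℕ) : JB b k 0 (fun _ => (0:ℝ)) x := by
  induction k with
  | zero =>
    show |(0:ℝ)| ≤ 0
    simp
  | succ k ih =>
    refine ⟨by simp, fun i => ?_⟩
    have h : (fun y : E => fderiv ℝ (fun _ : E => (0:ℝ)) y (b i)) = fun _ => (0:ℝ) := by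
      funext y
      simp
    rw [h]
    exact ih

private theorem P1_sum {E J : Type} [NormedAddCommGroup E] [NormedSpace ℝ E] [Fintype J]
    (b : Module.Basis J ℝ E) {Ω : Set E} (hΩ : IsOpen Ω) (x : E) (hx : x ∈ Ω) (k : ℕ)
    {ι : Type} (s : Finset ι) (M : ι → ℝ) (g : ι → E → ℝ)
    (hg : ∀ l, ContDiffOn ℝ ∞ (g l) Ω) (h : ∀ l, JB b k (M l) (g l) x) :
    JB b k (∑ l ∈ s, M l) (fun y => ∑ l ∈ s, g l y) x := by
  classical
  obtain ⟨-, -, f3, -, -, -, -⟩ := jb_facts b hΩ x hx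
  induction s using Finset.induction_on with
  | empty =>
    simp only [Finset.sum_empty]
    exact P1_zero b x k
  | insert a s ha ih =>
    simp only [Finset.sum_insert ha]
    exact f3 k _ _ _ _ (hg a) (ContDiffOn.sum fun l _ => hg l) (h a) ih

private theorem P1_chain {E J : Type} [NormedAddCommGroup E] [NormedSpace ℝ E]
    [FiniteDimensional ℝ E] [Fintype J] (b : Module.Basis J ℝ E) {f : E → E} {F : E → ℝ} {y : E}
    (hf : DifferentiableAt ℝ f y) (hF : DifferentiableAt ℝ F (f y)) (i : J) :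
    fderiv ℝ (fun y => F (f y)) y (b i) =
      ∑ l, fderiv ℝ F (f y) (b l) * fderiv ℝ (fun y => b.repr (f y) l) y (b i) := by
  have h1 : fderiv ℝ (fun y => F (f y)) y = (fderiv ℝ F (f y)).comp (fderiv ℝ f y) :=
    fderiv_comp y hF hf
  have h2 : ∀ l, fderiv ℝ (fun y => b.repr (f y) l) y (b i) = b.repr (fderiv ℝ f y (b i)) l := by
    intro l
    have h3 := ((LinearMap.toContinuousLinearMap (b.coord l)).hasFDerivAt (x := f y)).comp y
      hf.hasFDerivAt
    have h4 : HasFDerivAt (fun y => b.repr (f y) l)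
      ((LinearMap.toContinuousLinearMap (b.coord l)).comp (fderiv ℝ f y)) y := h3
    rw [h4.fderiv]
    rfl
  rw [h1]
  simp only [h2]
  rw [ContinuousLinearMap.comp_apply]
  conv_lhs => rw [← b.sum_repr (fderiv ℝ f y (b i))]
  rw [map_sum]
  refine Finset.sum_congr rfl fun l _ => ?_
  rw [map_smul, smul_eq_mul, mul_comm]

/-- Row P1 (Mathlib and CR0). Chain rule for `JB`. PLAN. Induction on `k` for all `F`:
`D_i (F ∘ f) = ∑ l, (D_l F ∘ f) * D_i (f^l)` on `Ω'`, `jb_facts` (CR0). `K` depends on `k, B` only. -/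
theorem jb_comp {E J : Type} [NormedAddCommGroup E] [NormedSpace ℝ E] [FiniteDimensional ℝ E]
    [Fintype J] (b : Module.Basis J ℝ E) (k : ℕ) (B : ℝ) : ∃ K : ℝ, 0 ≤ K ∧
    ∀ (Ω Ω' : Set E), IsOpen Ω → IsOpen Ω' → ∀ x ∈ Ω', ∀ f : E → E, ContDiffOn ℝ ∞ f Ω' →
      (∀ y ∈ Ω', f y ∈ Ω) → (∀ l, JB b k B (fun y => b.repr (f y) l) x) →
      ∀ (F : E → ℝ) (M : ℝ), ContDiffOn ℝ ∞ F Ω → 0 ≤ M → JB b k M F (f x) →
        JB b k (K * M) (fun y => F (f y)) x := by
  classical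
  induction k with
  | zero =>
    refine ⟨1, zero_le_one, ?_⟩
    intro Ω Ω' _ _ x _ f _ _ _ F M _ _ h
    rw [one_mul]
    exact h
  | succ k ih =>
    obtain ⟨K, hK0, hK⟩ := ih
    have hKB : 0 ≤ 2 ^ k * (K * |B|) :=
      mul_nonneg (pow_nonneg zero_le_two _) (mul_nonneg hK0 (abs_nonneg B))
    have hC : 0 ≤ (Fintype.card J : ℝ) * (2 ^ k * (K * |B|)) :=
      mul_nonneg (Nat.cast_nonneg _) hKB
    refine ⟨1 + (Fintype.card J : ℝ) * (2 ^ k * (K * |B|)), by linarith, ?_⟩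
    intro Ω Ω' hΩ hΩ' x hx f hf hfΩ hfB F M hF hM hFM
    obtain ⟨f1, f2, f3, f4, f5, f6, f7⟩ := jb_facts b hΩ' x hx
    refine ⟨?_, fun i => ?_⟩
    · have h1 : |F (f x)| ≤ M := hFM.1
      have h2 : 0 ≤ (Fintype.card J : ℝ) * (2 ^ k * (K * |B|)) * M := mul_nonneg hC hM
      have h3 : (1 + (Fintype.card J : ℝ) * (2 ^ k * (K * |B|))) * M =
        M + (Fintype.card J : ℝ) * (2 ^ k * (K * |B|)) * M := by ring
      rw [h3]
      linarith
    · have hfsm : ∀ l, ContDiffOn ℝ ∞ (fun y => b.repr (f y) l) Ω' := fun l =>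
        (LinearMap.toContinuousLinearMap (b.coord l)).contDiff.comp_contDiffOn hf
      have hfd : ∀ l, ContDiffOn ℝ ∞ (fun y => fderiv ℝ (fun y => b.repr (f y) l) y (b i)) Ω' :=
        fun l => ((hfsm l).fderiv_of_isOpen hΩ' (by simp)).clm_apply contDiffOn_const
      have hFd : ∀ l, ContDiffOn ℝ ∞ (fun z => fderiv ℝ F z (b l)) Ω :=
        fun l => (hF.fderiv_of_isOpen hΩ (by simp)).clm_apply contDiffOn_const
      have hFf : ∀ l, ContDiffOn ℝ ∞ (fun y => fderiv ℝ F (f y) (b l)) Ω' :=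
        fun l => (hFd l).comp hf hfΩ
      have hfB' : ∀ l, JB b k B (fun y => b.repr (f y) l) x := fun l => f2 k B _ (hfB l)
      have h1 : ∀ l, JB b k (K * M) (fun y => fderiv ℝ F (f y) (b l)) x := fun l =>
        hK Ω Ω' hΩ hΩ' x hx f hf hfΩ hfB' (fun z => fderiv ℝ F z (b l)) M (hFd l) hM (hFM.2 l)
      have h2 : ∀ l, JB b k |B| (fun y => fderiv ℝ (fun y => b.repr (f y) l) y (b i)) x :=
        fun l => f1 k B |B| _ (le_abs_self B) ((hfB l).2 i)
      have h3 : ∀ l, JB b k (2 ^ k * ((K * M) * |B|))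
          (fun y => fderiv ℝ F (f y) (b l) * fderiv ℝ (fun y => b.repr (f y) l) y (b i)) x :=
        fun l => f4 k (K * M) |B| _ _ (mul_nonneg hK0 hM) (abs_nonneg B) (hFf l) (hfd l)
          (h1 l) (h2 l)
      have h4 := P1_sum b hΩ' x hx k Finset.univ (fun _ : J => 2 ^ k * ((K * M) * |B|)) _
        (fun l => (hFf l).mul (hfd l)) h3
      have h5 : JB b k ((1 + (Fintype.card J : ℝ) * (2 ^ k * (K * |B|))) * M)
          (fun y => ∑ l, fderiv ℝ F (f y) (b l) *
            fderiv ℝ (fun y => b.repr (f y) l) y (b i)) x := by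
        refine f1 k _ _ _ ?_ h4
        rw [Finset.sum_const, Finset.card_univ, nsmul_eq_mul]
        have h6 : (1 + (Fintype.card J : ℝ) * (2 ^ k * (K * |B|))) * M =
          M + (Fintype.card J : ℝ) * (2 ^ k * ((K * M) * |B|)) := by ring
        rw [h6]
        linarith
      refine f6 k _ _ _ ?_ h5
      intro y hy
      exact (P1_chain b ((hf.contDiffAt (hΩ'.mem_nhds hy)).differentiableAt (by simp))
        ((hF.contDiffAt (hΩ.mem_nhds (hfΩ y hy))).differentiableAt (by simp)) i).symm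

end NS38
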