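import Pool.Agent.LibFL27.PDefs
import Pool.Agent.LibFL27.CDefs
import Pool.Agent.LibFL27.CA1
import Pool.Agent.LibFL27.CA4b
import Pool.Agent.LibFL27.CA5
import Pool.Agent.LibFL27.CS3
import Pool.Agent.LibFL27.CS0
import Pool.Agent.LibNG38.GA0
import Pool.Agent.LibNC38.J1

set_option autoImplicit false
set_option maxSynthPendingDepth 3

open Matrix MeasureTheory Topology Filter LibNC38
open LibNC27 hiding Mt
open scoped Matrix.Norms.Elementwise ContDiff

namespace FL27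

private theorem P11_bd {n : ℕ} (k : ℕ) : ∀ (M : ℝ) (F : Fn n), WB 1 k M F → BD k M F := by
  induction k with
  | zero => intro M F h; exact h
  | succ k ih =>
    intro M F h
    refine ⟨h.1, fun x hx0 hx1 => ?_⟩
    obtain ⟨F', h1, h2⟩ := h.2 x ⟨hx0, hx1⟩
    rw [mul_one] at h2
    exact ⟨F', h1, ih M F' h2⟩

private theorem P11_exp {n : ℕ} (v : Mt n) :
    v = ∑ i, ∑ j, v i j • Matrix.single i j (1 : ℝ) := by
  conv_lhs => rw [Matrix.matrix_eq_sum_single v]
  refine Finset.sum_congr rfl fun i _ => Finset.sum_congr rfl fun j _ => ?_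
  rw [Matrix.smul_single, smul_eq_mul, mul_one]

/-- sums over pairs of bounded functions with bounded coefficients -/
private theorem P11_sum {n : ℕ} (k : ℕ) (ι : Type) (s : Finset ι) (M : ι → ℝ) (F : ι → Fn n)
    (hM : ∀ i ∈ s, 0 ≤ M i) (h : ∀ i ∈ s, WB 1 k (M i) (F i)) (c : ι → ℝ)
    (hc : ∀ i ∈ s, |c i| ≤ 1) :
    WB 1 k (s.card * ∑ i ∈ s, M i) (fun g => ∑ i ∈ s, c i * F i g) := by
  obtain ⟨-, wmono, -, -, wmul, -, wsum, -⟩ := wb_alg (n := n)
  refine wsum 1 k _ ι s (fun i g => c i * F i g) zero_le_one fun i hi => ?_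
  refine wmono 1 1 k _ _ _ zero_le_one le_rfl ?_ (mul_nonneg (abs_nonneg _) (hM i hi))
    (wmul 1 k _ (c i) _ (h i hi))
  calc |c i| * M i ≤ 1 * M i := mul_le_mul_of_nonneg_right (hc i hi) (hM i hi)
    _ = M i := one_mul _
    _ ≤ ∑ i ∈ s, M i := Finset.single_le_sum (f := M) hM hi

private theorem P11_wb {n : ℕ} (Γ : Subgroup (SL n)) (hc : Coc Γ) (k : ℕ) : ∀ F : Fn n, SG k F →
    (∀ γ ∈ Γ, ∀ g, F (γ * g) = F g) → ∃ M : ℝ, 0 ≤ M ∧ WB 1 k M F := by
  obtain ⟨-, wmono, -, -, -, -, -, -⟩ := wb_alg (n := n)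
  have hb : ∀ F : Fn n, Continuous F → (∀ γ ∈ Γ, ∀ g, F (γ * g) = F g) →
      ∃ M : ℝ, 0 ≤ M ∧ ∀ g, |F g| ≤ M := by
    intro F hF hi
    obtain ⟨B, hB⟩ := (unif Γ hc F hF hi).1
    exact ⟨|B|, abs_nonneg _, fun g => (hB g).trans (le_abs_self _)⟩
  induction k with
  | zero =>
    intro F hF hi
    obtain ⟨M, hM, h⟩ := hb F hF hi
    exact ⟨M, hM, hF, h⟩
  | succ k ih =>
    intro F hF hi
    obtain ⟨M0, hM0, hM0b⟩ := hb F hF.1 hi
    obtain ⟨G, hG, hGs, hG1⟩ := sg_lin k F hF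
    obtain ⟨runiq, -, -, -, -, -, -, rtr, -⟩ := rd_rules (n := n)
    have hGinv0 : ∀ x : Mt n, x.trace = 0 → ∀ γ ∈ Γ, ∀ g, G x (γ * g) = G x g := by
      intro x hx γ hγ g
      have h1 := rtr x F (G x) γ (hG x hx)
      have h2 : (fun g => F (γ * g)) = F := funext fun g => hi γ hγ g
      rw [h2] at h1
      exact congrFun (runiq x F _ _ hx h1 (hG x hx)) g
    have hGinv : ∀ (a b : Fin n), ∀ γ ∈ Γ, ∀ g,
        G (Matrix.single a b 1) (γ * g) = G (Matrix.single a b 1) g := by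
      intro a b γ hγ g
      set x : Mt n := Matrix.single a b 1 - ((Matrix.single a b (1 : ℝ)).trace / n) • (1 : Mt n) with hx
      have hx0 : x.trace = 0 := by
        have hn : (n : ℝ) ≠ 0 := by
          have : 0 < n := a.pos
          exact_mod_cast this.ne'
        rw [hx, Matrix.trace_sub, Matrix.trace_smul, Matrix.trace_one, Fintype.card_fin, smul_eq_mul,
          div_mul_cancel₀ _ hn, sub_self]
      have hGx : G x = G (Matrix.single a b 1) := by
        rw [hx, map_sub, map_smul, hG1, smul_zero, sub_zero]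
      rw [← hGx]
      exact hGinv0 x hx0 γ hγ g
    choose M hM hMb using fun q : Fin n × Fin n => ih (G (Matrix.single q.1 q.2 1)) (hGs _)
      (hGinv q.1 q.2)
    have hS : 0 ≤ ((Finset.univ : Finset (Fin n × Fin n)).card : ℝ) *
        ∑ q : Fin n × Fin n, M q :=
      mul_nonneg (Nat.cast_nonneg _) (Finset.sum_nonneg fun q _ => hM q)
    refine ⟨M0 + ((Finset.univ : Finset (Fin n × Fin n)).card : ℝ) * ∑ q : Fin n × Fin n, M q,
      add_nonneg hM0 hS, ⟨hF.1, fun g => (hM0b g).trans (le_add_of_nonneg_right hS)⟩, ?_⟩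
    intro x hx
    refine ⟨G x, hG x hx.1, ?_⟩
    have h3 := P11_sum k (Fin n × Fin n) Finset.univ M (fun q => G (Matrix.single q.1 q.2 1))
      (fun q _ => hM q) (fun q _ => hMb q) (fun q => x q.1 q.2) (fun q _ => hx.2 q.1 q.2)
    have h4 : (fun g => ∑ q : Fin n × Fin n, x q.1 q.2 * G (Matrix.single q.1 q.2 1) g) = G x := by
      funext g
      conv_rhs => rw [P11_exp x]
      rw [map_sum, Fintype.sum_prod_type, Finset.sum_apply]
      refine Finset.sum_congr rfl fun i _ => ?_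
      rw [map_sum, Finset.sum_apply]
      refine Finset.sum_congr rfl fun j _ => ?_
      rw [map_smul, Pi.smul_apply, smul_eq_mul]
    rw [h4] at h3
    rw [mul_one]
    exact wmono 1 1 k _ _ _ zero_le_one le_rfl (le_add_of_nonneg_left hM0) hS h3

private theorem P11_tan {n : ℕ} (v : Mt n) (hv : Sym0 v) (g : SL n) :
    IsTan (act g (o n)) (g.1 * v * g.1ᵀ) := by
  refine ⟨?_, ?_⟩
  · rw [Matrix.transpose_mul, Matrix.transpose_mul, Matrix.transpose_transpose, hv.1, Matrix.mul_assoc]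
  · have h1 : (act g (o n)).1 = g.1 * g.1ᵀ := by
      change g.1 * 1 * g.1ᵀ = _
      rw [Matrix.mul_one]
    have hu : IsUnit g.1.det := by
      rw [g.2]
      exact isUnit_one
    rw [h1, Matrix.mul_inv_rev, Matrix.mul_assoc, Matrix.trace_mul_comm]
    have h2 : g.1⁻¹ * (g.1 * v * g.1ᵀ) = v * g.1ᵀ := by
      rw [Matrix.mul_assoc, ← Matrix.mul_assoc, Matrix.nonsing_inv_mul _ hu, Matrix.one_mul]
    rw [h2, Matrix.mul_assoc, Matrix.mul_nonsing_inv _ (by rwa [Matrix.det_transpose]),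
      Matrix.mul_one, hv.2]

private theorem P11_inv {n : ℕ} (Γ : Subgroup (SL n)) (κ : PD n → Fm n) (h1 : FmOK Γ κ)
    (v w : Mt n) (hv : Sym0 v) (hw : Sym0 w) : ∀ γ ∈ Γ, ∀ g, Jf κ v w (γ * g) = Jf κ v w g := by
  intro γ hγ g
  have hact : act (γ * g) (o n) = act γ (act g (o n)) := by
    apply Subtype.ext
    change (γ * g).1 * 1 * (γ * g).1ᵀ = γ.1 * (g.1 * 1 * g.1ᵀ) * γ.1ᵀ
    rw [Matrix.SpecialLinearGroup.coe_mul, Matrix.transpose_mul]
    simp only [Matrix.mul_assoc]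
  have hcj : ∀ z : Mt n, (γ * g).1 * z * (γ * g).1ᵀ = γ.1 * (g.1 * z * g.1ᵀ) * γ.1ᵀ := by
    intro z
    rw [Matrix.SpecialLinearGroup.coe_mul, Matrix.transpose_mul]
    simp only [Matrix.mul_assoc]
  have hd : ∀ z : Mt n, Sym0 z → κ (act (γ * g) (o n)) ((γ * g).1 * z * (γ * g).1ᵀ)
      ((γ * g).1 * z * (γ * g).1ᵀ) = κ (act g (o n)) (g.1 * z * g.1ᵀ) (g.1 * z * g.1ᵀ) := by
    intro z hz
    rw [hact, hcj]
    exact h1.inv γ hγ _ _ (P11_tan z hz g)
  have hpol : ∀ (p : PD n) (a b : Mt n), κ p a b = (κ p (a + b) (a + b) - κ p a a - κ p b b) / 2 := by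
    intro p a b
    have := h1.symm p b a
    simp only [map_add, LinearMap.add_apply]
    linarith
  have hvw : Sym0 (v + w) := ⟨by rw [Matrix.transpose_add, hv.1, hw.1], by
    rw [Matrix.trace_add, hv.2, hw.2, add_zero]⟩
  have hadd : ∀ q : SL n, q.1 * v * q.1ᵀ + q.1 * w * q.1ᵀ = q.1 * (v + w) * q.1ᵀ := by
    intro q
    rw [Matrix.mul_add, Matrix.add_mul]
  unfold Jf
  rw [hpol, hpol (act g (o n)), hadd, hadd, hd _ hvw, hd v hv, hd w hw]

private theorem P11_pr {n : ℕ} (v : Mt n) : Sym0 (pr0 v) := by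
  have h : pr0 v = (1 / 2 : ℝ) • (v + vᵀ) - (v.trace / n) • (1 : Mt n) := rfl
  constructor
  · rw [h, Matrix.transpose_sub, Matrix.transpose_smul, Matrix.transpose_smul, Matrix.transpose_add,
      Matrix.transpose_transpose, Matrix.transpose_one, add_comm vᵀ v]
  · rw [h, Matrix.trace_sub, Matrix.trace_smul, Matrix.trace_smul, Matrix.trace_add,
      Matrix.trace_transpose, Matrix.trace_one, Fintype.card_fin, smul_eq_mul, smul_eq_mul]
    rcases Nat.eq_zero_or_pos n with h0 | h0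
    · subst h0
      simp [Matrix.trace]
    · have hn : (n : ℝ) ≠ 0 := by exact_mod_cast h0.ne'
      field_simp
      ring

private theorem P11_pr0 {n : ℕ} (v : Mt n) (hv : Sym0 v) : pr0 v = v := by
  have h : pr0 v = (1 / 2 : ℝ) • (v + vᵀ) - (v.trace / n) • (1 : Mt n) := rfl
  rw [h, hv.1, hv.2, zero_div, zero_smul, sub_zero, ← two_smul ℝ v, smul_smul]
  norm_num

/-- Row P11. Smooth invariant forms have finite bounds. PLAN. `sg_jf` (CS3), `rd_frechet` (CS0: linear in the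
direction), expansion in finitely many `v, w, x`; the word derivatives are left `Γ`-invariant and continuous,
so bounded (`LibNC38.unif`, `Coc`). -/
theorem tb_smooth {n : ℕ} (Γ : Subgroup (SL n)) (hc : Coc Γ) (κ : PD n → Fm n) (h1 : FmOK Γ κ)
    (h2 : CmF ∞ κ) (k : ℕ) : ∃ M : ℝ, 0 ≤ M ∧ TB k M κ := by
  choose M hM hMb using fun q : (Fin n × Fin n) × (Fin n × Fin n) =>
    P11_wb Γ hc k (Jf κ (pr0 (Matrix.single q.1.1 q.1.2 1)) (pr0 (Matrix.single q.2.1 q.2.2 1)))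
      (sg_jf κ h2 _ _ k) (P11_inv Γ κ h1 _ _ (P11_pr _) (P11_pr _))
  refine ⟨((Finset.univ : Finset ((Fin n × Fin n) × (Fin n × Fin n))).card : ℝ) *
    ∑ q : (Fin n × Fin n) × (Fin n × Fin n), M q,
    mul_nonneg (Nat.cast_nonneg _) (Finset.sum_nonneg fun q _ => hM q), ?_⟩
  intro v w hv hw hv1 hw1
  apply P11_bd
  have h3 := P11_sum k ((Fin n × Fin n) × (Fin n × Fin n)) Finset.univ M
    (fun q => Jf κ (pr0 (Matrix.single q.1.1 q.1.2 1)) (pr0 (Matrix.single q.2.1 q.2.2 1)))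
    (fun q _ => hM q) (fun q _ => hMb q) (fun q => v q.1.1 q.1.2 * w q.2.1 q.2.2) (fun q _ => by
      rw [abs_mul]
      exact mul_le_one₀ (hv1 _ _) (abs_nonneg _) (hw1 _ _))
  have h4 : (fun g => ∑ q : (Fin n × Fin n) × (Fin n × Fin n), v q.1.1 q.1.2 * w q.2.1 q.2.2 *
      Jf κ (pr0 (Matrix.single q.1.1 q.1.2 1)) (pr0 (Matrix.single q.2.1 q.2.2 1)) g) =
      Jf κ v w := by
    funext g
    have ev : g.1 * v * g.1ᵀ = ∑ q : Fin n × Fin n,
        v q.1 q.2 • (g.1 * pr0 (Matrix.single q.1 q.2 1) * g.1ᵀ) := by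
      conv_lhs => rw [← P11_pr0 v hv, P11_exp v]
      rw [Fintype.sum_prod_type]
      simp only [map_sum, map_smul, Finset.mul_sum, Finset.sum_mul, Matrix.mul_sum, Matrix.sum_mul,
        Matrix.mul_smul, Matrix.smul_mul]
    have ew : g.1 * w * g.1ᵀ = ∑ q : Fin n × Fin n,
        w q.1 q.2 • (g.1 * pr0 (Matrix.single q.1 q.2 1) * g.1ᵀ) := by
      conv_lhs => rw [← P11_pr0 w hw, P11_exp w]
      rw [Fintype.sum_prod_type]
      simp only [map_sum, map_smul, Finset.mul_sum, Finset.sum_mul, Matrix.mul_sum, Matrix.sum_mul,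
        Matrix.mul_smul, Matrix.smul_mul]
    unfold Jf
    rw [ev, ew]
    simp only [map_sum, LinearMap.sum_apply, map_smul, LinearMap.smul_apply, smul_eq_mul]
    rw [Fintype.sum_prod_type, Finset.sum_comm]
    refine Finset.sum_congr rfl fun i _ => ?_
    rw [Finset.mul_sum]
    refine Finset.sum_congr rfl fun j _ => ?_
    ring
  rw [h4] at h3
  exact h3

end FL27
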