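import Pool.Agent.LibFL27.PDefs

set_option autoImplicit false
set_option maxSynthPendingDepth 3

open Matrix MeasureTheory Topology Filter LibNC38
open LibNC27 hiding Mt
open scoped Matrix.Norms.Elementwise ContDiff

namespace FL27

private theorem P12_low {n : ℕ} (Γ : Subgroup (SL n)) (hc : Coc Γ) (κ : PD n → Fm n) (h : FmOK Γ κ)
    (hpos : ∀ p v, IsTan p v → v ≠ 0 → 0 < κ p v v) :
    ∃ C : ℝ, 1 ≤ C ∧ ∀ x v, IsTan x v → spd x v ^ 2 ≤ C * κ x v v := by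
  obtain ⟨Q, hQ, hcov⟩ := hc
  obtain ⟨-, hmul, hact⟩ := act_facts (n := n)
  obtain ⟨hs1, hs2, -, -⟩ := spd_facts (n := n)
  have hcont2 : Continuous fun w : Mt n => ∑ i, ∑ j, w i j ^ 2 :=
    continuous_finsetSum _ fun i _ => continuous_finsetSum _ fun j _ =>
      (continuous_id.matrix_elem i j).pow 2
  have hcl : IsClosed {w : Mt n | ∑ i, ∑ j, w i j ^ 2 = 1 ∧ wᵀ = w ∧ w.trace = 0} := by
    have h1 : IsClosed {w : Mt n | ∑ i, ∑ j, w i j ^ 2 = 1} := isClosed_eq hcont2 continuous_const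
    have h2 : IsClosed {w : Mt n | wᵀ = w} :=
      isClosed_eq continuous_id.matrix_transpose continuous_id
    have h3 : IsClosed {w : Mt n | w.trace = 0} :=
      isClosed_eq continuous_id.matrix_trace continuous_const
    exact h1.inter (h2.inter h3)
  have hS : IsCompact {w : Mt n | ∑ i, ∑ j, w i j ^ 2 = 1 ∧ wᵀ = w ∧ w.trace = 0} := by
    have hbox : IsCompact (Set.pi Set.univ fun _ : Fin n => Set.pi Set.univ fun _ : Fin n =>
        Set.Icc (-1 : ℝ) 1) :=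
      isCompact_univ_pi fun _ => isCompact_univ_pi fun _ => isCompact_Icc
    refine IsCompact.of_isClosed_subset hbox hcl ?_
    intro w hw i _ j _
    have h1 : w i j ^ 2 ≤ 1 := by
      have h2 : w i j ^ 2 ≤ ∑ j, w i j ^ 2 :=
        Finset.single_le_sum (f := fun j => w i j ^ 2) (fun _ _ => sq_nonneg _) (Finset.mem_univ j)
      have h3 : (∑ j, w i j ^ 2) ≤ ∑ i, ∑ j, w i j ^ 2 :=
        Finset.single_le_sum (f := fun i => ∑ j, w i j ^ 2)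
          (fun _ _ => Finset.sum_nonneg fun _ _ => sq_nonneg _) (Finset.mem_univ i)
      exact (h2.trans h3).trans (le_of_eq hw.1)
    exact abs_le.1 ((sq_le_one_iff_abs_le_one _).1 h1)
  have hΨ : Continuous fun x : SL n × Mt n => κ (act x.1 (o n)) (x.1.1 * x.2 * x.1.1ᵀ)
      (x.1.1 * x.2 * x.1.1ᵀ) := by
    have h1 : Continuous fun x : SL n × Mt n => x.1.1 := continuous_subtype_val.comp continuous_fst
    have h2 : Continuous fun x : SL n × Mt n => x.1.1 * x.2 * x.1.1ᵀ :=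
      (h1.matrix_mul continuous_snd).matrix_mul h1.matrix_transpose
    have h3 : Continuous fun x : SL n × Mt n => act x.1 (o n) :=
      hact.comp (continuous_fst.prodMk continuous_const)
    exact (fm_cont Γ κ h).comp (h3.prodMk h2)
  have hΨpos : ∀ x ∈ Q ×ˢ {w : Mt n | ∑ i, ∑ j, w i j ^ 2 = 1 ∧ wᵀ = w ∧ w.trace = 0},
      0 < κ (act x.1 (o n)) (x.1.1 * x.2 * x.1.1ᵀ) (x.1.1 * x.2 * x.1.1ᵀ) := by
    rintro ⟨q, w⟩ ⟨-, hw1, hw2, hw3⟩
    have hwo : IsTan (o n) w := by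
      refine ⟨hw2, ?_⟩
      have e : (o n).1⁻¹ = (1 : Mt n) := by
        show (1 : Mt n)⁻¹ = 1
        rw [inv_one]
      rw [e, Matrix.one_mul]
      exact hw3
    refine hpos _ _ (tan_facts.2.1 q (o n) w hwo) ?_
    intro h0
    have hq1 : q⁻¹.1 * q.1 = 1 := by
      rw [← Matrix.SpecialLinearGroup.coe_mul, inv_mul_cancel, Matrix.SpecialLinearGroup.coe_one]
    have hq2 : q.1ᵀ * q⁻¹.1ᵀ = 1 := by rw [← Matrix.transpose_mul, hq1, Matrix.transpose_one]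
    have hw0 : w = 0 := by
      calc w = 1 * w * 1 := by rw [one_mul, mul_one]
        _ = (q⁻¹.1 * q.1) * w * (q.1ᵀ * q⁻¹.1ᵀ) := by rw [hq1, hq2]
        _ = q⁻¹.1 * (q.1 * w * q.1ᵀ) * q⁻¹.1ᵀ := by simp only [Matrix.mul_assoc]
        _ = 0 := by rw [h0, Matrix.mul_zero, Matrix.zero_mul]
    rw [hw0] at hw1
    simp at hw1
  have hΨi : ContinuousOn (fun x : SL n × Mt n => (κ (act x.1 (o n)) (x.1.1 * x.2 * x.1.1ᵀ)
      (x.1.1 * x.2 * x.1.1ᵀ))⁻¹)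
      (Q ×ˢ {w : Mt n | ∑ i, ∑ j, w i j ^ 2 = 1 ∧ wᵀ = w ∧ w.trace = 0}) :=
    hΨ.continuousOn.inv₀ fun x hx => (hΨpos x hx).ne'
  obtain ⟨C, hC⟩ := (hQ.prod hS).exists_bound_of_continuousOn hΨi
  refine ⟨max C 1, le_max_right _ _, ?_⟩
  intro x v hv
  obtain ⟨t, -, -, hx⟩ := chol x
  obtain ⟨γ, hγ, hγt⟩ := hcov t
  -- the vector at the base point
  obtain ⟨w, hw⟩ : ∃ w : Mt n, w = t⁻¹.1 * v * t⁻¹.1ᵀ := ⟨_, rfl⟩
  have ht1 : t.1 * t⁻¹.1 = 1 := by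
    rw [← Matrix.SpecialLinearGroup.coe_mul, mul_inv_cancel, Matrix.SpecialLinearGroup.coe_one]
  have ht1' : t⁻¹.1 * t.1 = 1 := by
    rw [← Matrix.SpecialLinearGroup.coe_mul, inv_mul_cancel, Matrix.SpecialLinearGroup.coe_one]
  have h2t : t⁻¹.1ᵀ * t.1ᵀ = 1 := by rw [← Matrix.transpose_mul, ht1, Matrix.transpose_one]
  have hvw : v = t.1 * w * t.1ᵀ := by
    rw [hw]
    calc v = 1 * v * 1 := by rw [one_mul, mul_one]
      _ = (t.1 * t⁻¹.1) * v * (t⁻¹.1ᵀ * t.1ᵀ) := by rw [ht1, h2t]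
      _ = t.1 * (t⁻¹.1 * v * t⁻¹.1ᵀ) * t.1ᵀ := by simp only [Matrix.mul_assoc]
  have hwt : wᵀ = w := by
    rw [hw, Matrix.transpose_mul, Matrix.transpose_mul, Matrix.transpose_transpose, hv.1,
      Matrix.mul_assoc]
  have hwtr : w.trace = 0 := by
    have h1 : x.1⁻¹ = t⁻¹.1ᵀ * t⁻¹.1 := by
      have h2 : x.1 = t.1 * t.1ᵀ := by
        rw [hx]
        change t.1 * 1 * t.1ᵀ = _
        rw [Matrix.mul_one]
      refine Matrix.inv_eq_left_inv ?_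
      rw [h2]
      calc t⁻¹.1ᵀ * t⁻¹.1 * (t.1 * t.1ᵀ) = t⁻¹.1ᵀ * (t⁻¹.1 * t.1) * t.1ᵀ := by
            simp only [Matrix.mul_assoc]
        _ = 1 := by rw [ht1', Matrix.mul_one, h2t]
    have h3 := hv.2
    rw [h1, Matrix.mul_assoc, Matrix.trace_mul_comm] at h3
    rw [hw]
    exact h3
  have hsq : spd x v ^ 2 = ∑ i, ∑ j, w i j ^ 2 := by
    rw [hvw, hx, hs1, hs2 w hwt, Real.sq_sqrt]
    exact Finset.sum_nonneg fun _ _ => Finset.sum_nonneg fun _ _ => sq_nonneg _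
  have hκ : κ x v v = κ (act (γ * t) (o n)) ((γ * t).1 * w * (γ * t).1ᵀ)
      ((γ * t).1 * w * (γ * t).1ᵀ) := by
    rw [← h.inv γ hγ x v hv]
    have h1 : act γ x = act (γ * t) (o n) := by rw [hmul, ← hx]
    have h2 : γ.1 * v * γ.1ᵀ = (γ * t).1 * w * (γ * t).1ᵀ := by
      rw [Matrix.SpecialLinearGroup.coe_mul, Matrix.transpose_mul, hvw]
      simp only [Matrix.mul_assoc]
    rw [h1, h2]
  rw [hsq, hκ]
  obtain ⟨q, hq⟩ : ∃ q, q = γ * t := ⟨_, rfl⟩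
  rw [← hq] at hγt ⊢
  obtain ⟨σ, hσ⟩ : ∃ σ : ℝ, σ = ∑ i, ∑ j, w i j ^ 2 := ⟨_, rfl⟩
  have hσ0 : 0 ≤ σ := by
    rw [hσ]
    exact Finset.sum_nonneg fun _ _ => Finset.sum_nonneg fun _ _ => sq_nonneg _
  rw [← hσ]
  rcases hσ0.eq_or_lt with h0 | hpos'
  · have hw0 : w = 0 := by
      ext i j
      have h2 : w i j ^ 2 ≤ ∑ j, w i j ^ 2 :=
        Finset.single_le_sum (f := fun j => w i j ^ 2) (fun _ _ => sq_nonneg _) (Finset.mem_univ j)
      have h3 : (∑ j, w i j ^ 2) ≤ ∑ i, ∑ j, w i j ^ 2 :=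
        Finset.single_le_sum (f := fun i => ∑ j, w i j ^ 2)
          (fun _ _ => Finset.sum_nonneg fun _ _ => sq_nonneg _) (Finset.mem_univ i)
      have h4 : w i j ^ 2 ≤ 0 := by
        rw [← hσ, ← h0] at h3
        exact h2.trans h3
      have h5 : w i j ^ 2 = 0 := le_antisymm h4 (sq_nonneg _)
      simpa using h5
    rw [hw0, ← h0]
    simp
  · have hr : 0 < √σ := Real.sqrt_pos.2 hpos'
    have hr2 : √σ ^ 2 = σ := Real.sq_sqrt hσ0
    obtain ⟨w', hw'⟩ : ∃ w' : Mt n, w' = (√σ)⁻¹ • w := ⟨_, rfl⟩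
    have hww : w = √σ • w' := by
      rw [hw', smul_smul, mul_inv_cancel₀ hr.ne', one_smul]
    have hw'S : w' ∈ {w : Mt n | ∑ i, ∑ j, w i j ^ 2 = 1 ∧ wᵀ = w ∧ w.trace = 0} := by
      refine ⟨?_, ?_, ?_⟩
      · have h1 : ∑ i, ∑ j, w' i j ^ 2 = ((√σ)⁻¹) ^ 2 * ∑ i, ∑ j, w i j ^ 2 := by
          rw [Finset.mul_sum]
          refine Finset.sum_congr rfl fun i _ => ?_
          rw [Finset.mul_sum]
          refine Finset.sum_congr rfl fun j _ => ?_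
          rw [hw', Matrix.smul_apply, smul_eq_mul, mul_pow]
        rw [h1, ← hσ, inv_pow, hr2, inv_mul_cancel₀ hpos'.ne']
      · rw [hw', Matrix.transpose_smul, hwt]
      · rw [hw', Matrix.trace_smul, hwtr, smul_zero]
    have hmem : (q, w') ∈ Q ×ˢ {w : Mt n | ∑ i, ∑ j, w i j ^ 2 = 1 ∧ wᵀ = w ∧ w.trace = 0} :=
      ⟨hγt, hw'S⟩
    have hb := hC (q, w') hmem
    have hp := hΨpos (q, w') hmem
    simp only at hb hp
    rw [Real.norm_eq_abs, abs_of_pos (inv_pos.2 hp)] at hb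
    have e1 : κ (act q (o n)) (q.1 * w * q.1ᵀ) (q.1 * w * q.1ᵀ) =
        σ * κ (act q (o n)) (q.1 * w' * q.1ᵀ) (q.1 * w' * q.1ᵀ) := by
      have e2 : q.1 * w * q.1ᵀ = √σ • (q.1 * w' * q.1ᵀ) := by
        rw [hww, Matrix.mul_smul, Matrix.smul_mul]
      rw [e2, LinearMap.map_smul₂, map_smul, smul_eq_mul, smul_eq_mul, ← mul_assoc,
        ← pow_two, hr2]
    rw [e1]
    have h3 : 1 ≤ max C 1 * κ (act q (o n)) (q.1 * w' * q.1ᵀ) (q.1 * w' * q.1ᵀ) := by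
      have h4 : (κ (act q (o n)) (q.1 * w' * q.1ᵀ) (q.1 * w' * q.1ᵀ))⁻¹ ≤ max C 1 :=
        hb.trans (le_max_left _ _)
      calc (1 : ℝ) = (κ (act q (o n)) (q.1 * w' * q.1ᵀ) (q.1 * w' * q.1ᵀ))⁻¹ *
            κ (act q (o n)) (q.1 * w' * q.1ᵀ) (q.1 * w' * q.1ᵀ) := (inv_mul_cancel₀ hp.ne').symm
        _ ≤ _ := mul_le_mul_of_nonneg_right h4 hp.le
    calc σ = σ * 1 := (mul_one σ).symm
      _ ≤ σ * (max C 1 * κ (act q (o n)) (q.1 * w' * q.1ᵀ) (q.1 * w' * q.1ᵀ)) :=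
          mul_le_mul_of_nonneg_left h3 hσ0
      _ = _ := by ring

/-- Row P12. Comparison with `g`. PLAN. Compactness of `Γ \ G` and of the unit sphere in the frame. -/
theorem met_cmp {n : ℕ} (Γ : Subgroup (SL n)) (hc : Coc Γ) (h : PD n → Fm n) (hh : SMet Γ h) :
    ∃ B : ℝ, 1 ≤ B ∧ ∀ p v, IsTan p v → B⁻¹ * spd p v ^ 2 ≤ h p v v ∧ h p v v ≤ B * spd p v ^ 2 := by
  obtain ⟨C, hC1, hC⟩ := P12_low Γ hc h hh.ok hh.pos
  obtain ⟨B, hB0, hB⟩ := fm_bdd Γ hc h hh.ok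
  refine ⟨max C B, hC1.trans (le_max_left _ _), ?_⟩
  intro p v hv
  have hpos : 0 < max C B := lt_of_lt_of_le (lt_of_lt_of_le one_pos hC1) (le_max_left _ _)
  have h1 := hC p v hv
  have h2 := hB p v hv
  have hs : 0 ≤ spd p v ^ 2 := sq_nonneg _
  have hh0 : 0 ≤ h p v v := by
    have h3 : 0 ≤ C * h p v v := hs.trans h1
    have h4 : 0 < C := lt_of_lt_of_le one_pos hC1
    exact nonneg_of_mul_nonneg_right h3 h4
  refine ⟨?_, ?_⟩
  · rw [inv_mul_le_iff₀ hpos]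
    exact h1.trans (mul_le_mul_of_nonneg_right (le_max_left _ _) hh0)
  · exact (le_abs_self _).trans (h2.trans (mul_le_mul_of_nonneg_right (le_max_right _ _) hs))

end FL27
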