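import Pool.Agent.LibFL27.P8
import Pool.Agent.LibFL27.P10
import Pool.Agent.LibFL27.P11
import Pool.Agent.LibFL27.P12
import Pool.Agent.LibFL27.A10

set_option autoImplicit false
set_option maxSynthPendingDepth 3

open Matrix MeasureTheory Topology Filter LibNC38
open LibNC27 hiding Mt
open scoped Matrix.Norms.Elementwise ContDiff

namespace FL27

private theorem P13_mono {n : ℕ} (k : ℕ) (M M' : ℝ) (hM : M ≤ M') :
    ∀ F : Fn n, BD k M F → BD k M' F := by
  induction k with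
  | zero =>
    intro F h
    exact ⟨h.1, fun g => (h.2 g).trans hM⟩
  | succ k ih =>
    intro F h
    refine ⟨⟨h.1.1, fun g => (h.1.2 g).trans hM⟩, fun x hx hx1 => ?_⟩
    obtain ⟨F', h1, h2⟩ := h.2 x hx hx1
    exact ⟨F', h1, ih F' h2⟩

private theorem P13_down {n : ℕ} (k : ℕ) (M : ℝ) : ∀ F : Fn n, BD (k + 1) M F → BD k M F := by
  induction k with
  | zero =>
    intro F h
    exact h.1
  | succ k ih =>
    intro F h
    refine ⟨h.1, fun x hx hx1 => ?_⟩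
    obtain ⟨F', h1, h2⟩ := h.2 x hx hx1
    exact ⟨F', h1, ih F' h2⟩

private theorem P13_add {n : ℕ} (k : ℕ) (M M' : ℝ) : ∀ F G : Fn n, BD k M F → BD k M' G →
    BD k (M + M') (fun g => F g + G g) := by
  induction k with
  | zero =>
    intro F G h h'
    exact ⟨h.1.add h'.1, fun g => (abs_add_le _ _).trans (add_le_add (h.2 g) (h'.2 g))⟩
  | succ k ih =>
    intro F G h h'
    refine ⟨⟨h.1.1.add h'.1.1, fun g => (abs_add_le _ _).trans (add_le_add (h.1.2 g) (h'.1.2 g))⟩,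
      fun x hx hx1 => ?_⟩
    obtain ⟨F', h1, h2⟩ := h.2 x hx hx1
    obtain ⟨G', h3, h4⟩ := h'.2 x hx hx1
    exact ⟨fun g => F' g + G' g, fun c hc => (h1 c hc).add (h3 c hc), ih F' G' h2 h4⟩

private theorem P13_smul {n : ℕ} (k : ℕ) (r M : ℝ) : ∀ F : Fn n, BD k M F →
    BD k (|r| * M) (fun g => r * F g) := by
  have hb : ∀ (F : Fn n), (∀ g, |F g| ≤ M) → ∀ g, |r * F g| ≤ |r| * M := by
    intro F h g
    rw [abs_mul]
    exact mul_le_mul_of_nonneg_left (h g) (abs_nonneg r)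
  induction k with
  | zero =>
    intro F h
    exact ⟨continuous_const.mul h.1, hb F h.2⟩
  | succ k ih =>
    intro F h
    refine ⟨⟨continuous_const.mul h.1.1, hb F h.1.2⟩, fun x hx hx1 => ?_⟩
    obtain ⟨F', h1, h2⟩ := h.2 x hx hx1
    exact ⟨fun g => r * F' g, fun c hc => (h1 c hc).const_mul r, ih F' h2⟩

/-- the `C⁰` bound of a form -/
private theorem P13_form {n : ℕ} (κ : PD n → Fm n) (ε : ℝ) (k : ℕ) (htb : TB k ε κ)
    (p : PD n) (v : Mt n) (hv : IsTan p v) : |κ p v v| ≤ ε * spd p v ^ 2 := by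
  have e : (fun p => (fun p => κ p + gF p) p - gF p) = κ := by
    funext p
    exact add_sub_cancel_right _ _
  have h1 := near_form (fun p => κ p + gF p) ε k (by rw [e]; exact htb) p v hv
  have h2 : (κ p + gF p) v v = κ p v v + gF p v v := rfl
  rw [h2, gF_self p v hv, add_sub_cancel_right] at h1
  exact h1

private theorem P13_cmf {n : ℕ} (h h' : PD n → Fm n) (h1 : CmF ∞ h) (h2 : CmF ∞ h') :
    CmF ∞ (fun p => h' p - h p) := by
  obtain ⟨U, κ, hU, hκ, hs⟩ := h1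
  obtain ⟨U', κ', hU', hκ', hs'⟩ := h2
  refine ⟨U ∩ U', fun A => κ' A - κ A, hU.inter hU', fun p => ⟨⟨(hκ p).1, (hκ' p).1⟩, ?_⟩,
    fun v w => ?_⟩
  · show κ' p.1 - κ p.1 = h' p - h p
    rw [(hκ p).2, (hκ' p).2]
  · exact ((hs' v w).mono Set.inter_subset_right).sub ((hs v w).mono Set.inter_subset_left)

/-- polarisation -/
private theorem P13_polar {n : ℕ} (a b : Fm n) (ha : ∀ v w, a v w = a w v)
    (hb : ∀ v w, b v w = b w v) (p : PD n) (hab : ∀ v, IsTan p v → a v v = b v v) (v w : Mt n)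
    (hv : IsTan p v) (hw : IsTan p w) : a v w = b v w := by
  have hvw : IsTan p (v + w) := by
    refine ⟨?_, ?_⟩
    · rw [Matrix.transpose_add, hv.1, hw.1]
    · rw [Matrix.mul_add, Matrix.trace_add, hv.2, hw.2, add_zero]
  have h1 := hab _ hvw
  have h2 := hab v hv
  have h3 := hab w hw
  have e : ∀ c : Fm n, c (v + w) (v + w) = c v v + c v w + (c w v + c w w) := by
    intro c
    rw [map_add, map_add, LinearMap.add_apply, LinearMap.add_apply]
    ring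
  rw [e a, e b, ha w v, hb w v] at h1
  linarith

/-- Row P13 (assembly). Near every metric `h0`, all or none of the metrics without conjugate points are
homothetic to `g`. PLAN. `m = m0 + 1`, `m0, ε0` from `HStat`. Bounds for `h0` (P11, P12), so for `h` near `h0` with
`B` fixed (`near_form`-like: `TB 0 ε κ` gives `|κ(v,v)| ≤ C ε |v|²`); `pul φ h = c gF`, `hom_const`, `pul_tb` (order
`m0`) for `κ = h' - h`: `c⁻¹ • pul φ h'` is `Near Γ m0 ε0` (`state_pul`, CG8; on tangent vectors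
`c⁻¹ pul φ h' - gF = c⁻¹ pul φ (h' - h)`), so `Hom`; compose with `φ⁻¹` (`Hom` of `c⁻¹ • pul φ h'` gives `Hom` of `h'`:
`orb_trans` with `φ ∘ φ'`). -/
theorem hom_unif (hH : HStat) {n : ℕ} (hn : 3 ≤ n) (Γ : Subgroup (SL n)) (hd : Disc Γ)
    (hc : Coc Γ) : ∃ m : ℕ, ∀ h0 : PD n → Fm n, SMet Γ h0 → ∃ ε : ℝ, 0 < ε ∧
      ∀ h h' : PD n → Fm n, SMet Γ h → SMet Γ h' → NoConj (dN (nrm h')) →
        TB m ε (fun p => h p - h0 p) → TB m ε (fun p => h' p - h0 p) → Hom Γ h → Hom Γ h' := by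
  obtain ⟨m0, ε0, hε0, hS⟩ := hH n hn Γ hd hc
  refine ⟨m0 + 1, fun h0 hh0 => ?_⟩
  obtain ⟨M0, hM0, htb0⟩ := tb_smooth Γ hc h0 hh0.ok hh0.sm (m0 + 1)
  obtain ⟨B0, hB0, hcmp⟩ := met_cmp Γ hc h0 hh0
  set B : ℝ := max (2 * B0) (M0 + 1) with hB
  have hB1 : 1 ≤ B := (by linarith : (1 : ℝ) ≤ 2 * B0).trans (le_max_left _ _)
  have hBpos : 0 < B := by linarith
  obtain ⟨K, hK, hpul⟩ := pul_tb hn m0 B hB1
  set ε : ℝ := min (B0⁻¹ / 2) (ε0 / (2 * B * K)) with hε
  have hB0pos : 0 < B0 := by linarith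
  have hεpos : 0 < ε := lt_min (by positivity) (by positivity)
  have hε1 : ε ≤ B0⁻¹ / 2 := min_le_left _ _
  have hB0i : B0⁻¹ ≤ 1 := inv_le_one_of_one_le₀ hB0
  have hε2 : B * (K * (2 * ε)) ≤ ε0 := by
    have h1 : ε ≤ ε0 / (2 * B * K) := min_le_right _ _
    rw [le_div_iff₀ (by positivity)] at h1
    linarith
  refine ⟨ε, hεpos, fun h h' hh hh' hnc htb htb' hhom => ?_⟩
  obtain ⟨φ, c, hφ, hc0, hpc⟩ := hhom
  -- bounds of `h`
  have hbd : ∀ p v, IsTan p v → B⁻¹ * spd p v ^ 2 ≤ h p v v ∧ h p v v ≤ B * spd p v ^ 2 := by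
    intro p v hv
    have h1 := abs_le.1 (P13_form _ ε (m0 + 1) htb p v hv)
    have h2 : (h p - h0 p) v v = h p v v - h0 p v v := rfl
    rw [h2] at h1
    obtain ⟨h3, h4⟩ := hcmp p v hv
    have hs : 0 ≤ spd p v ^ 2 := sq_nonneg _
    have h5 : B⁻¹ ≤ B0⁻¹ / 2 := by
      have : (2 * B0)⁻¹ = B0⁻¹ / 2 := by
        rw [mul_inv]
        ring
      rw [← this]
      exact inv_anti₀ (by positivity) (le_max_left _ _)
    have h6 : B0 + ε ≤ B := by
      have : 2 * B0 ≤ B := le_max_left _ _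
      linarith
    have h7 : B⁻¹ * spd p v ^ 2 ≤ (B0⁻¹ - ε) * spd p v ^ 2 :=
      mul_le_mul_of_nonneg_right (by linarith) hs
    have h8 : (B0 + ε) * spd p v ^ 2 ≤ B * spd p v ^ 2 := mul_le_mul_of_nonneg_right h6 hs
    constructor
    · linarith [h1.1]
    · linarith [h1.2]
  have htbh : TB (m0 + 1) B h := by
    intro v w hv hw hv1 hw1
    have h1 := htb v w hv hw hv1 hw1
    have h2 := htb0 v w hv hw hv1 hw1
    have h3 := P13_add (m0 + 1) _ _ _ _ h1 h2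
    have e : (fun g => Jf (fun p => h p - h0 p) v w g + Jf h0 v w g) = Jf h v w := by
      funext g
      show (h (act g (o n)) - h0 (act g (o n))) (g.1 * v * g.1ᵀ) (g.1 * w * g.1ᵀ) +
        h0 (act g (o n)) (g.1 * v * g.1ᵀ) (g.1 * w * g.1ᵀ) =
        h (act g (o n)) (g.1 * v * g.1ᵀ) (g.1 * w * g.1ᵀ)
      rw [LinearMap.sub_apply, LinearMap.sub_apply, sub_add_cancel]
    rw [e] at h3
    refine P13_mono _ _ _ ?_ _ h3
    have : M0 + 1 ≤ B := le_max_right _ _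
    linarith
  obtain ⟨hc1, hc2⟩ := hom_const hn Γ hd hc B hB1 h hh hbd φ c hφ hc0 hpc
  -- the difference
  have hκ : TB m0 (2 * ε) (fun p => h' p - h p) := by
    intro v w hv hw hv1 hw1
    have h1 := P13_down _ _ _ (htb v w hv hw hv1 hw1)
    have h2 := P13_down _ _ _ (htb' v w hv hw hv1 hw1)
    have h3 := P13_add m0 _ _ _ _ h2 (P13_smul m0 (-1) _ _ h1)
    have e : (fun g => Jf (fun p => h' p - h0 p) v w g + -1 * Jf (fun p => h p - h0 p) v w g) =
        Jf (fun p => h' p - h p) v w := by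
      funext g
      show (h' (act g (o n)) - h0 (act g (o n))) (g.1 * v * g.1ᵀ) (g.1 * w * g.1ᵀ) +
        -1 * (h (act g (o n)) - h0 (act g (o n))) (g.1 * v * g.1ᵀ) (g.1 * w * g.1ᵀ) =
        (h' (act g (o n)) - h (act g (o n))) (g.1 * v * g.1ᵀ) (g.1 * w * g.1ᵀ)
      rw [LinearMap.sub_apply, LinearMap.sub_apply, LinearMap.sub_apply, LinearMap.sub_apply,
        LinearMap.sub_apply, LinearMap.sub_apply]
      ring
    rw [e] at h3
    refine P13_mono _ _ _ ?_ _ h3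
    rw [abs_neg, abs_one]
    linarith
  have hpk := hpul Γ φ h c hφ hh (fun p v hv => (hbd p v hv).1) htbh hc1 hc2 hpc
    (fun p => h' p - h p) (2 * ε) (by positivity) (P13_cmf h h' hh.sm hh'.sm) hκ
  obtain ⟨s1, s2, s3, s4⟩ := state_pul (by omega) Γ φ hφ c hc0 h' hh'.ok hh'.pos hh'.sm hnc
  have hnear : Near Γ m0 ε0 (fun p => c⁻¹ • pul φ h' p) := by
    refine ⟨s1, s2, ?_, s4⟩
    intro v w hv hw hv1 hw1
    have h1 := P13_smul m0 c⁻¹ _ _ (hpk v w hv hw hv1 hw1)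
    have e : (fun g => c⁻¹ * Jf (pul φ (fun p => h' p - h p)) v w g) =
        Jf (fun p => (fun p => c⁻¹ • pul φ h' p) p - gF p) v w := by
      funext g
      have hto : ∀ u : Mt n, Sym0 u → IsTan (o n) u := by
        intro u hu
        refine ⟨hu.1, ?_⟩
        have e1 : (o n).1⁻¹ = (1 : Mt n) := by
          show (1 : Mt n)⁻¹ = 1
          exact inv_one
        rw [e1, Matrix.one_mul]
        exact hu.2
      have hV := tan_facts.2.1 g (o n) v (hto v hv)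
      have hW := tan_facts.2.1 g (o n) w (hto w hw)
      have hpol := P13_polar (pul φ h (act g (o n))) (c • gF (act g (o n)))
        (fun a b => hh.ok.symm _ _ _)
        (fun a b => by
          show c * gF (act g (o n)) a b = c * gF (act g (o n)) b a
          rw [(fmOK_gF (n := n) Γ).symm])
        (act g (o n)) (fun u hu => hpc _ u hu) _ _ hV hW
      have hpol' : pul φ h (act g (o n)) (g.1 * v * g.1ᵀ) (g.1 * w * g.1ᵀ) =
          c * gF (act g (o n)) (g.1 * v * g.1ᵀ) (g.1 * w * g.1ᵀ) := hpol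
      have hd1 : pul φ (fun p => h' p - h p) (act g (o n)) (g.1 * v * g.1ᵀ) (g.1 * w * g.1ᵀ) =
          pul φ h' (act g (o n)) (g.1 * v * g.1ᵀ) (g.1 * w * g.1ᵀ) -
          pul φ h (act g (o n)) (g.1 * v * g.1ᵀ) (g.1 * w * g.1ᵀ) := rfl
      show c⁻¹ * pul φ (fun p => h' p - h p) (act g (o n)) (g.1 * v * g.1ᵀ) (g.1 * w * g.1ᵀ) =
        c⁻¹ * pul φ h' (act g (o n)) (g.1 * v * g.1ᵀ) (g.1 * w * g.1ᵀ) -
        gF (act g (o n)) (g.1 * v * g.1ᵀ) (g.1 * w * g.1ᵀ)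
      rw [hd1, hpol', mul_sub, ← mul_assoc, inv_mul_cancel₀ hc0.ne', one_mul]
    rw [e] at h1
    refine P13_mono _ _ _ ?_ _ h1
    have hci : |c⁻¹| ≤ B := by
      rw [abs_of_pos (inv_pos.2 hc0)]
      calc c⁻¹ ≤ (B⁻¹)⁻¹ := inv_anti₀ (inv_pos.2 hBpos) hc1
        _ = B := inv_inv B
    calc |c⁻¹| * (K * (2 * ε)) ≤ B * (K * (2 * ε)) :=
          mul_le_mul_of_nonneg_right hci (by positivity)
      _ ≤ ε0 := hε2
  obtain ⟨φ', c', hφ', hc0', hpc'⟩ := hS _ s3 hnear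
  obtain ⟨o1, o2⟩ := orb_trans Γ φ φ' hφ hφ' c c' h' (fun p => c⁻¹ • pul φ h' p) gF
    (fun p v _ => by
      show pul φ h' p v v = c * (c⁻¹ * pul φ h' p v v)
      rw [← mul_assoc, mul_inv_cancel₀ hc0.ne', one_mul]) hpc'
  exact ⟨fun p => φ (φ' p), c * c', o1, mul_pos hc0 hc0', o2⟩

end FL27
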