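import Pool.Agent.LibFL27.P13

set_option autoImplicit false
set_option maxSynthPendingDepth 3

open Matrix MeasureTheory Topology Filter LibNC38
open LibNC27 hiding Mt
open scoped Matrix.Norms.Elementwise ContDiff

namespace FL27

/-- Row P14. Paths of metrics without conjugate points. PLAN. `hom_unif` and connectedness of `[0, 1]`
(`IsPreconnected`, or `sSup` argument: near every `t0` the property is constant; from `TB m ε (h t - h t0)`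
take `h0 = h t0`). -/
theorem hom_path (hH : HStat) {n : ℕ} (hn : 3 ≤ n) (Γ : Subgroup (SL n)) (hd : Disc Γ)
    (hc : Coc Γ) : ∃ m : ℕ, ∀ h : ℝ → PD n → Fm n,
      (∀ t ∈ Set.Icc (0 : ℝ) 1, SMet Γ (h t) ∧ NoConj (dN (nrm (h t)))) →
      (∀ t0 ∈ Set.Icc (0 : ℝ) 1, ∀ ε > 0, ∃ δ > 0, ∀ t ∈ Set.Icc (0 : ℝ) 1, |t - t0| < δ →
        TB m ε (fun p => h t p - h t0 p)) →
      Hom Γ (h 0) → ∀ t ∈ Set.Icc (0 : ℝ) 1, Hom Γ (h t) := by
  obtain ⟨m, hm⟩ := hom_unif hH hn Γ hd hc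
  refine ⟨m, fun h hS hT h0 t ht => ?_⟩
  have key : ∀ x ∈ Set.Icc (0 : ℝ) 1, ∀ᶠ y in 𝓝[Set.Icc (0 : ℝ) 1] x,
      (Hom Γ (h x) → Hom Γ (h y)) ∧ (Hom Γ (h y) → Hom Γ (h x)) := by
    intro x hx
    obtain ⟨ε, hε, hu⟩ := hm (h x) (hS x hx).1
    obtain ⟨δ, hδ, hTT⟩ := hT x hx ε hε
    have h1 : ∀ᶠ y in 𝓝[Set.Icc (0 : ℝ) 1] x, y ∈ Set.Icc (0 : ℝ) 1 :=
      eventually_mem_nhdsWithin
    have h2 : ∀ᶠ y in 𝓝[Set.Icc (0 : ℝ) 1] x, y ∈ Metric.ball x δ :=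
      mem_nhdsWithin_of_mem_nhds (Metric.ball_mem_nhds x hδ)
    filter_upwards [h1, h2] with y hy1 hy2
    have hy3 : |y - x| < δ := by
      rw [Metric.mem_ball, Real.dist_eq] at hy2
      exact hy2
    have a1 := hTT y hy1 hy3
    have a2 := hTT x hx (by rw [sub_self, abs_zero]; exact hδ)
    exact ⟨hu (h x) (h y) (hS x hx).1 (hS y hy1).1 (hS y hy1).2 a2 a1,
      hu (h y) (h x) (hS y hy1).1 (hS x hx).1 (hS x hx).2 a1 a2⟩
  exact isPreconnected_Icc.induction₂' (fun x y => Hom Γ (h x) → Hom Γ (h y)) key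
    (fun x y z _ _ _ hxy hyz hx => hyz (hxy hx)) (Set.left_mem_Icc.2 zero_le_one) ht h0

end FL27
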