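import Pool.Agent.LibFL27.CR1
import Pool.Agent.LibNS38.B4

set_option autoImplicit false
set_option maxSynthPendingDepth 3

open Topology Filter Set
open scoped ContDiff

namespace NS38

private theorem P2_sum {E J : Type} [NormedAddCommGroup E] [NormedSpace ℝ E] {Ω : Set E}
    (G : E → E → E → ℝ) (hb : Bil G Ω) (x : E) (hx : x ∈ Ω) (I : Finset J) (a : J → ℝ)
    (v : J → E) (w : E) :
    G x (∑ l ∈ I, a l • v l) w = ∑ l ∈ I, a l * G x (v l) w := by
  classical
  induction I using Finset.induction_on with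
  | empty =>
    have h := hb.smul x hx 0 0 w
    simpa using h
  | insert i I hi ih =>
    rw [Finset.sum_insert hi, Finset.sum_insert hi, hb.add x hx, hb.smul x hx, ih]

private theorem P2_ne {E J : Type} [NormedAddCommGroup E] [NormedSpace ℝ E] [Fintype J]
    [DecidableEq J] (b : Module.Basis J ℝ E) {Ω : Set E} (G : E → E → E → ℝ) (hG : Met G Ω)
    (x : E) (hx : x ∈ Ω) :
    (Matrix.of fun i j => G x (b i) (b j) : Matrix J J ℝ).det ≠ 0 := by
  intro h0
  obtain ⟨v, hv0, hv⟩ := Matrix.exists_mulVec_eq_zero_iff.mpr h0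
  have hne : (∑ l, v l • b l) ≠ 0 := by
    intro h
    apply hv0
    funext i
    have h2 := Fintype.linearIndependent_iff.mp b.linearIndependent v h i
    exact h2
  have hpos := hG.pos x hx _ hne
  have hbil := hG.bil
  rw [P2_sum _ hbil x hx] at hpos
  have hz : ∀ i, G x (b i) (∑ l, v l • b l) = 0 := by
    intro i
    rw [hbil.symm x hx, P2_sum _ hbil x hx]
    have h3 := congrFun hv i
    simp only [Matrix.mulVec, dotProduct, Matrix.of_apply, Pi.zero_apply] at h3
    rw [← h3]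
    refine Finset.sum_congr rfl fun l _ => ?_
    rw [hbil.symm x hx (b l) (b i)]
    ring
  simp only [hz, mul_zero, Finset.sum_const_zero, lt_irrefl] at hpos

private theorem P2_formula {E J : Type} [NormedAddCommGroup E] [NormedSpace ℝ E]
    [FiniteDimensional ℝ E] [Fintype J] [DecidableEq J] (b : Module.Basis J ℝ E) {Ω : Set E}
    (G : E → E → E → ℝ) (hG : Met G Ω) (C : E → E →L[ℝ] E →L[ℝ] E) (hC : Kos G C Ω) (x : E)
    (hx : x ∈ Ω) (i j l : J) :
    ((Matrix.of fun i j => G x (b i) (b j) : Matrix J J ℝ).det)⁻¹ *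
      (∑ r ∈ (Finset.univ : Finset J),
        (((1 / 2 : ℝ) * ((fderiv ℝ (fun y => G y (b j) (b r)) x (b i) +
          fderiv ℝ (fun y => G y (b i) (b r)) x (b j)) +
          (-1 : ℝ) * fderiv ℝ (fun y => G y (b i) (b j)) x (b r))) *
          (Matrix.of fun i j => G x (b i) (b j) : Matrix J J ℝ).adjugate r l)) =
      b.repr (C x (b i) (b j)) l := by
  have hbil := hG.bil
  have hk : ∀ r, (∑ q, b.repr (C x (b i) (b j)) q * G x (b q) (b r)) =
      (1 / 2 : ℝ) * ((fderiv ℝ (fun y => G y (b j) (b r)) x (b i) +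
        fderiv ℝ (fun y => G y (b i) (b r)) x (b j)) +
        (-1 : ℝ) * fderiv ℝ (fun y => G y (b i) (b j)) x (b r)) := by
    intro r
    have h1 := hC x hx (b r) (b i) (b j)
    have h2 : G x (C x (b i) (b j)) (b r) =
        ∑ q, b.repr (C x (b i) (b j)) q * G x (b q) (b r) := by
      conv_lhs => rw [← b.sum_repr (C x (b i) (b j))]
      exact P2_sum _ hbil x hx _ _ _ _
    rw [← h2]
    linarith
  have hv : Matrix.vecMul (fun q => b.repr (C x (b i) (b j)) q)
      ((Matrix.of fun i j => G x (b i) (b j) : Matrix J J ℝ) *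
        (Matrix.of fun i j => G x (b i) (b j) : Matrix J J ℝ).adjugate) l =
      b.repr (C x (b i) (b j)) l *
        (Matrix.of fun i j => G x (b i) (b j) : Matrix J J ℝ).det := by
    rw [Matrix.mul_adjugate, Matrix.vecMul_smul, Matrix.vecMul_one, Pi.smul_apply,
      smul_eq_mul, mul_comm]
  rw [← Matrix.vecMul_vecMul] at hv
  have hsum : (∑ r ∈ (Finset.univ : Finset J),
        (((1 / 2 : ℝ) * ((fderiv ℝ (fun y => G y (b j) (b r)) x (b i) +
          fderiv ℝ (fun y => G y (b i) (b r)) x (b j)) +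
          (-1 : ℝ) * fderiv ℝ (fun y => G y (b i) (b j)) x (b r))) *
          (Matrix.of fun i j => G x (b i) (b j) : Matrix J J ℝ).adjugate r l)) =
      b.repr (C x (b i) (b j)) l *
        (Matrix.of fun i j => G x (b i) (b j) : Matrix J J ℝ).det := by
    rw [← hv]
    simp only [Matrix.vecMul, dotProduct]
    refine Finset.sum_congr rfl fun r _ => ?_
    congr 1
    exact (hk r).symm
  rw [hsum, mul_comm, mul_assoc, mul_inv_cancel₀ (P2_ne b G hG x hx), mul_one]

private def P2_J {E J : Type} [NormedAddCommGroup E] [NormedSpace ℝ E] [Fintype J]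
    (b : Module.Basis J ℝ E) (Ω : Set E) (x : E) (k : ℕ) (M : ℝ) (f : E → ℝ) : Prop :=
  ContDiffOn ℝ ∞ f Ω ∧ JB b k M f x

private theorem P2_const {E J : Type} [NormedAddCommGroup E] [NormedSpace ℝ E] [Fintype J]
    (b : Module.Basis J ℝ E) (x : E) (k : ℕ) (M : ℝ) (hM : 0 ≤ M) : ∀ c : ℝ, |c| ≤ M →
    JB b k M (fun _ => c) x := by
  induction k with
  | zero =>
    intro c hc
    exact hc
  | succ k ih =>
    intro c hc
    refine ⟨hc, fun i => ?_⟩
    have h := ih 0 (by rw [abs_zero]; exact hM)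
    have e : (fun y : E => fderiv ℝ (fun _ : E => c) y (b i)) = fun _ => (0 : ℝ) := by
      funext y
      simp
    rw [e]
    exact h

private theorem P2_addJ {E J : Type} [NormedAddCommGroup E] [NormedSpace ℝ E] [Fintype J]
    (b : Module.Basis J ℝ E) {Ω : Set E} (hΩ : IsOpen Ω) {x : E} (hx : x ∈ Ω) {k : ℕ} {M M' : ℝ}
    {f g : E → ℝ} (hf : P2_J b Ω x k M f) (hg : P2_J b Ω x k M' g) :
    P2_J b Ω x k (M + M') (fun y => f y + g y) :=
  ⟨hf.1.add hg.1, (jb_facts b hΩ x hx).2.2.1 k M M' f g hf.1 hg.1 hf.2 hg.2⟩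

private theorem P2_mulJ {E J : Type} [NormedAddCommGroup E] [NormedSpace ℝ E] [Fintype J]
    (b : Module.Basis J ℝ E) {Ω : Set E} (hΩ : IsOpen Ω) {x : E} (hx : x ∈ Ω) {k : ℕ} {M M' : ℝ}
    {f g : E → ℝ} (hM : 0 ≤ M) (hM' : 0 ≤ M') (hf : P2_J b Ω x k M f)
    (hg : P2_J b Ω x k M' g) : P2_J b Ω x k (2 ^ k * (M * M')) (fun y => f y * g y) :=
  ⟨hf.1.mul hg.1, (jb_facts b hΩ x hx).2.2.2.1 k M M' f g hM hM' hf.1 hg.1 hf.2 hg.2⟩

private theorem P2_smulJ {E J : Type} [NormedAddCommGroup E] [NormedSpace ℝ E] [Fintype J]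
    (b : Module.Basis J ℝ E) {Ω : Set E} (hΩ : IsOpen Ω) {x : E} (hx : x ∈ Ω) {k : ℕ} {M : ℝ}
    {f : E → ℝ} (r : ℝ) (hf : P2_J b Ω x k M f) :
    P2_J b Ω x k (|r| * M) (fun y => r * f y) :=
  ⟨contDiffOn_const.mul hf.1, (jb_facts b hΩ x hx).2.2.2.2.1 k M r f hf.1 hf.2⟩

private theorem P2_congrJ {E J : Type} [NormedAddCommGroup E] [NormedSpace ℝ E] [Fintype J]
    (b : Module.Basis J ℝ E) {Ω : Set E} (hΩ : IsOpen Ω) {x : E} (hx : x ∈ Ω) {k : ℕ} {M : ℝ}
    {f g : E → ℝ} (h : ∀ y ∈ Ω, f y = g y) (hf : P2_J b Ω x k M f) : P2_J b Ω x k M g :=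
  ⟨hf.1.congr fun y hy => (h y hy).symm, (jb_facts b hΩ x hx).2.2.2.2.2.1 k M f g h hf.2⟩

private theorem P2_monoJ {E J : Type} [NormedAddCommGroup E] [NormedSpace ℝ E] [Fintype J]
    (b : Module.Basis J ℝ E) {Ω : Set E} (hΩ : IsOpen Ω) {x : E} (hx : x ∈ Ω) {k : ℕ} {M M' : ℝ}
    {f : E → ℝ} (h : M ≤ M') (hf : P2_J b Ω x k M f) : P2_J b Ω x k M' f :=
  ⟨hf.1, (jb_facts b hΩ x hx).1 k M M' f h hf.2⟩

private theorem P2_derJ {E J : Type} [NormedAddCommGroup E] [NormedSpace ℝ E] [Fintype J]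
    (b : Module.Basis J ℝ E) {Ω : Set E} (hΩ : IsOpen Ω) {x : E} {k : ℕ} {M : ℝ}
    {f : E → ℝ} (i : J) (hf : P2_J b Ω x (k + 1) M f) :
    P2_J b Ω x k M (fun y => fderiv ℝ f y (b i)) :=
  ⟨(hf.1.fderiv_of_isOpen hΩ (by simp)).clm_apply contDiffOn_const, hf.2.2 i⟩

private theorem P2_sumJ {E J ι : Type} [NormedAddCommGroup E] [NormedSpace ℝ E] [Fintype J]
    (b : Module.Basis J ℝ E) {Ω : Set E} (hΩ : IsOpen Ω) {x : E} (hx : x ∈ Ω) (k : ℕ) (M : ℝ)
    (I : Finset ι) (f : ι → E → ℝ) (hf : ∀ i ∈ I, P2_J b Ω x k M (f i)) :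
    P2_J b Ω x k (I.card * M) (fun y => ∑ i ∈ I, f i y) := by
  classical
  induction I using Finset.induction_on with
  | empty =>
    refine ⟨?_, ?_⟩
    · simp only [Finset.sum_empty]
      exact contDiffOn_const
    · have h := P2_const b x k 0 le_rfl 0 (by simp)
      simpa using h
  | insert a s ha ih =>
    have h1 := ih fun i hi => hf i (Finset.mem_insert_of_mem hi)
    have h2 := P2_addJ b hΩ hx (hf a (Finset.mem_insert_self a s)) h1
    simp only [Finset.sum_insert ha, Finset.card_insert_of_notMem ha]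
    refine P2_monoJ b hΩ hx (le_of_eq ?_) h2
    push_cast
    ring

private theorem P2_prodJ {E J ι : Type} [NormedAddCommGroup E] [NormedSpace ℝ E] [Fintype J]
    (b : Module.Basis J ℝ E) {Ω : Set E} (hΩ : IsOpen Ω) {x : E} (hx : x ∈ Ω) (k : ℕ) (M : ℝ)
    (hM : 0 ≤ M) (I : Finset ι) (f : ι → E → ℝ) (hf : ∀ i ∈ I, P2_J b Ω x k M (f i)) :
    P2_J b Ω x k ((2 ^ k * M) ^ I.card) (fun y => ∏ i ∈ I, f i y) := by
  classical
  induction I using Finset.induction_on with
  | empty =>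
    refine ⟨?_, ?_⟩
    · simp only [Finset.prod_empty]
      exact contDiffOn_const
    · have h := P2_const b x k 1 zero_le_one 1 (by simp)
      simpa using h
  | insert a s ha ih =>
    have h1 := ih fun i hi => hf i (Finset.mem_insert_of_mem hi)
    have h2 := P2_mulJ b hΩ hx hM (by positivity) (hf a (Finset.mem_insert_self a s)) h1
    simp only [Finset.prod_insert ha, Finset.card_insert_of_notMem ha]
    refine P2_monoJ b hΩ hx (le_of_eq ?_) h2
    ring

/-- bound of the determinant -/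
private noncomputable def P2_D (m p k : ℕ) (M : ℝ) : ℝ := p * (2 ^ k * (1 * (2 ^ k * M) ^ m))

private theorem P2_detJ {E J : Type} [NormedAddCommGroup E] [NormedSpace ℝ E] [Fintype J]
    [DecidableEq J] (b : Module.Basis J ℝ E) {Ω : Set E} (hΩ : IsOpen Ω) {x : E} (hx : x ∈ Ω)
    (k : ℕ) (M : ℝ) (hM : 0 ≤ M) (N : E → Matrix J J ℝ)
    (hN : ∀ i j, P2_J b Ω x k M (fun y => N y i j)) :
    P2_J b Ω x k (P2_D (Fintype.card J) (Fintype.card (Equiv.Perm J)) k M)
      (fun y => (N y).det) := by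
  have h1 : P2_J b Ω x k ((Finset.univ : Finset (Equiv.Perm J)).card *
      (2 ^ k * (1 * (2 ^ k * M) ^ (Finset.univ : Finset J).card)))
      (fun y => ∑ σ ∈ (Finset.univ : Finset (Equiv.Perm J)),
        (((Equiv.Perm.sign σ : ℤ) : ℝ) * ∏ i ∈ (Finset.univ : Finset J), N y (σ i) i)) := by
    refine P2_sumJ b hΩ hx k _ _ (fun σ y => (((Equiv.Perm.sign σ : ℤ) : ℝ) *
      ∏ i ∈ (Finset.univ : Finset J), N y (σ i) i)) fun σ _ => ?_
    refine P2_mulJ b hΩ hx zero_le_one (by positivity) ⟨contDiffOn_const, ?_⟩ ?_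
    · refine P2_const b x k 1 zero_le_one _ ?_
      rcases Int.units_eq_one_or (Equiv.Perm.sign σ) with h | h <;> rw [h] <;> simp
    · exact P2_prodJ b hΩ hx k M hM _ (fun i y => N y (σ i) i) fun i _ => hN _ _
  exact P2_congrJ b hΩ hx (fun y _ => (Matrix.det_apply' _).symm) h1

private theorem P2_adjJ {E J : Type} [NormedAddCommGroup E] [NormedSpace ℝ E] [Fintype J]
    [DecidableEq J] (b : Module.Basis J ℝ E) {Ω : Set E} (hΩ : IsOpen Ω) {x : E} (hx : x ∈ Ω)
    (k : ℕ) (M : ℝ) (hM : 1 ≤ M) (N : E → Matrix J J ℝ)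
    (hN : ∀ i j, P2_J b Ω x k M (fun y => N y i j)) (r l : J) :
    P2_J b Ω x k (P2_D (Fintype.card J) (Fintype.card (Equiv.Perm J)) k M)
      (fun y => (N y).adjugate r l) := by
  have hM0 : 0 ≤ M := zero_le_one.trans hM
  have h1 : P2_J b Ω x k (P2_D (Fintype.card J) (Fintype.card (Equiv.Perm J)) k M)
      (fun y => ((N y).updateRow l (Pi.single r 1)).det) := by
    refine P2_detJ b hΩ hx k M hM0 _ fun i j => ?_
    by_cases h : i = l
    · subst h
      refine P2_congrJ b hΩ hx (f := fun _ => (Pi.single r (1 : ℝ) : J → ℝ) j) (fun y _ => ?_)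
        ⟨contDiffOn_const, ?_⟩
      · rw [Matrix.updateRow_self]
      · refine P2_const b x k M hM0 _ ?_
        by_cases hj : j = r
        · subst hj
          rw [Pi.single_eq_same, abs_one]
          exact hM
        · rw [Pi.single_eq_of_ne hj, abs_zero]
          exact hM0
    · refine P2_congrJ b hΩ hx (fun y _ => ?_) (hN i j)
      rw [Matrix.updateRow_ne h]
  exact P2_congrJ b hΩ hx (fun y _ => (Matrix.adjugate_apply _ _ _).symm) h1

private theorem P2_low {E J : Type} [NormedAddCommGroup E] [NormedSpace ℝ E]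
    [FiniteDimensional ℝ E] [Fintype J] [DecidableEq J] (b : Module.Basis J ℝ E) (B : ℝ)
    (hB : 1 ≤ B) : ∃ c : ℝ, 0 < c ∧ ∀ N : J → J → ℝ, (∀ i j, |N i j| ≤ B) →
      (∀ v : J → ℝ, B⁻¹ * ‖∑ l, v l • b l‖ ^ 2 ≤ ∑ i, ∑ j, v i * v j * N i j) →
      c ≤ |(Matrix.of N : Matrix J J ℝ).det| := by
  set K : Set (J → J → ℝ) := {N | (∀ i j, |N i j| ≤ B) ∧
    ∀ v : J → ℝ, B⁻¹ * ‖∑ l, v l • b l‖ ^ 2 ≤ ∑ i, ∑ j, v i * v j * N i j} with hK
  have hcl : IsClosed K := by
    have h1 : K = (⋂ i, ⋂ j, {N : J → J → ℝ | |N i j| ≤ B}) ∩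
        ⋂ v : J → ℝ, {N : J → J → ℝ | B⁻¹ * ‖∑ l, v l • b l‖ ^ 2 ≤
          ∑ i, ∑ j, v i * v j * N i j} := by
      ext N
      simp [hK]
    rw [h1]
    refine IsClosed.inter ?_ ?_
    · refine isClosed_iInter fun i => isClosed_iInter fun j => isClosed_le ?_ continuous_const
      exact ((continuous_apply j).comp (continuous_apply i)).abs
    · refine isClosed_iInter fun v => isClosed_le continuous_const ?_
      refine continuous_finsetSum _ fun i _ => continuous_finsetSum _ fun j _ => ?_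
      exact continuous_const.mul ((continuous_apply j).comp (continuous_apply i))
  have hcp : IsCompact K := by
    refine (isCompact_closedBall (0 : J → J → ℝ) B).of_isClosed_subset hcl ?_
    intro N hN
    rw [Metric.mem_closedBall, dist_pi_le_iff (zero_le_one.trans hB)]
    intro i
    rw [dist_pi_le_iff (zero_le_one.trans hB)]
    intro j
    rw [Real.dist_eq, Pi.zero_apply, Pi.zero_apply, sub_zero]
    exact hN.1 i j
  have hne : ∀ N ∈ K, (Matrix.of N : Matrix J J ℝ).det ≠ 0 := by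
    intro N hN h0
    obtain ⟨v, hv0, hv⟩ := Matrix.exists_mulVec_eq_zero_iff.mpr h0
    have hne' : (∑ l, v l • b l) ≠ 0 := by
      intro h
      apply hv0
      funext i
      exact Fintype.linearIndependent_iff.mp b.linearIndependent v h i
    have h1 := hN.2 v
    have h2 : ∑ i, ∑ j, v i * v j * N i j = 0 := by
      refine Finset.sum_eq_zero fun i _ => ?_
      have h3 := congrFun hv i
      simp only [Matrix.mulVec, dotProduct, Matrix.of_apply, Pi.zero_apply] at h3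
      calc ∑ j, v i * v j * N i j = v i * ∑ j, N i j * v j := by
            rw [Finset.mul_sum]
            refine Finset.sum_congr rfl fun j _ => ?_
            ring
        _ = 0 := by rw [h3, mul_zero]
    rw [h2] at h1
    have h4 : 0 < B⁻¹ * ‖∑ l, v l • b l‖ ^ 2 := by
      have h5 : 0 < ‖∑ l, v l • b l‖ := norm_pos_iff.mpr hne'
      have h6 : 0 < B := zero_lt_one.trans_le hB
      positivity
    linarith
  rcases K.eq_empty_or_nonempty with he | hn
  · refine ⟨1, one_pos, fun N h1 h2 => ?_⟩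
    have : N ∈ K := ⟨h1, h2⟩
    rw [he] at this
    exact this.elim
  · have hc : Continuous fun N : J → J → ℝ => |(Matrix.of N : Matrix J J ℝ).det| := by
      refine (Continuous.matrix_det ?_).abs
      exact continuous_id
    obtain ⟨N0, hN0, hmin⟩ := hcp.exists_isMinOn hn hc.continuousOn
    refine ⟨|(Matrix.of N0 : Matrix J J ℝ).det|, abs_pos.mpr (hne N0 hN0), fun N h1 h2 => ?_⟩
    exact hmin (show N ∈ K from ⟨h1, h2⟩)

/-- Row P2. Bounds of the Christoffel symbols (compare `chr_ju`, CR2). PLAN. Gram matrix `G (b i) (b j)`,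
determinant at `x` at least `c (B) > 0`, nonzero on `Ω`; `jb_facts`, `jb_inv`; Koszul formula with
`Matrix.adjugate` as in CR2. -/
theorem chr_jb {E J : Type} [NormedAddCommGroup E] [NormedSpace ℝ E] [FiniteDimensional ℝ E]
    [Fintype J] [DecidableEq J] (b : Module.Basis J ℝ E) (k : ℕ) (B : ℝ) (hB : 1 ≤ B) :
    ∃ B' : ℝ, 0 ≤ B' ∧ ∀ (Ω : Set E), IsOpen Ω → ∀ x ∈ Ω, ∀ (G : E → E → E → ℝ)
      (C : E → E →L[ℝ] E →L[ℝ] E), Met G Ω → ContDiffOn ℝ ∞ C Ω → Kos G C Ω →
      (∀ i j, JB b (k + 1) B (fun y => G y (b i) (b j)) x) → (∀ v, B⁻¹ * ‖v‖ ^ 2 ≤ G x v v) →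
      ∀ i j l, JB b k B' (fun y => b.repr (C y (b i) (b j)) l) x := by
  obtain ⟨c, hc, hlow⟩ := P2_low b B hB
  have hB0 : 0 ≤ B := zero_le_one.trans hB
  set D : ℝ := P2_D (Fintype.card J) (Fintype.card (Equiv.Perm J)) k B with hD
  have hD0 : 0 ≤ D := by
    rw [hD]
    unfold P2_D
    positivity
  obtain ⟨I, hI0, hI⟩ := jb_inv b k D c hD0 hc
  refine ⟨2 ^ k * (I * ((Finset.univ : Finset J).card *
    (2 ^ k * (|(1 / 2 : ℝ)| * ((B + B) + |(-1 : ℝ)| * B) * D)))), by positivity, ?_⟩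
  intro Ω hΩ x hx G C hG hC hK hJ hlo i j l
  obtain ⟨bMono, bDown, -, -, -, bCongr, -⟩ := jb_facts b hΩ x hx
  have hM1 : ∀ i j, P2_J b Ω x (k + 1) B (fun y => G y (b i) (b j)) :=
    fun i j => ⟨hG.smooth _ _, hJ i j⟩
  have hM : ∀ i j, P2_J b Ω x k B
      (fun y => (Matrix.of fun i j => G y (b i) (b j) : Matrix J J ℝ) i j) :=
    fun i j => ⟨hG.smooth _ _, bDown k _ _ (hJ i j)⟩
  have hDet := P2_detJ b hΩ hx k B hB0
    (fun y => (Matrix.of fun i j => G y (b i) (b j) : Matrix J J ℝ)) hM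
  have hne : ∀ y ∈ Ω, (Matrix.of fun i j => G y (b i) (b j) : Matrix J J ℝ).det ≠ 0 :=
    fun y hy => P2_ne b G hG y hy
  have hcd : c ≤ |(Matrix.of fun i j => G x (b i) (b j) : Matrix J J ℝ).det| := by
    refine hlow (fun i j => G x (b i) (b j)) (fun i j => (hJ i j).1) fun v => ?_
    have h1 := hlo (∑ l, v l • b l)
    have h2 : G x (∑ l, v l • b l) (∑ l, v l • b l) =
        ∑ i, ∑ j, v i * v j * G x (b i) (b j) := by
      rw [P2_sum _ hG.bil x hx]
      refine Finset.sum_congr rfl fun i _ => ?_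
      rw [hG.bil.symm x hx, P2_sum _ hG.bil x hx, Finset.mul_sum]
      refine Finset.sum_congr rfl fun j _ => ?_
      rw [hG.bil.symm x hx (b j) (b i)]
      ring
    rw [h2] at h1
    exact h1
  have hInv : P2_J b Ω x k I
      (fun y => ((Matrix.of fun i j => G y (b i) (b j) : Matrix J J ℝ).det)⁻¹) :=
    ⟨hDet.1.inv hne, hI Ω hΩ x hx _ hDet.1 hne hcd hDet.2⟩
  have hSum : P2_J b Ω x k ((Finset.univ : Finset J).card *
      (2 ^ k * (|(1 / 2 : ℝ)| * ((B + B) + |(-1 : ℝ)| * B) * D)))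
      (fun y => ∑ r ∈ (Finset.univ : Finset J),
        (((1 / 2 : ℝ) * ((fderiv ℝ (fun y => G y (b j) (b r)) y (b i) +
          fderiv ℝ (fun y => G y (b i) (b r)) y (b j)) +
          (-1 : ℝ) * fderiv ℝ (fun y => G y (b i) (b j)) y (b r))) *
          (Matrix.of fun i j => G y (b i) (b j) : Matrix J J ℝ).adjugate r l)) := by
    refine P2_sumJ b hΩ hx k _ _ (fun r y =>
        (((1 / 2 : ℝ) * ((fderiv ℝ (fun y => G y (b j) (b r)) y (b i) +
          fderiv ℝ (fun y => G y (b i) (b r)) y (b j)) +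
          (-1 : ℝ) * fderiv ℝ (fun y => G y (b i) (b j)) y (b r))) *
          (Matrix.of fun i j => G y (b i) (b j) : Matrix J J ℝ).adjugate r l)) fun r _ => ?_
    refine P2_mulJ b hΩ hx (by positivity) hD0 ?_ (P2_adjJ b hΩ hx k B hB _ hM r l)
    refine P2_smulJ b hΩ hx (1 / 2) ?_
    refine P2_addJ b hΩ hx (P2_addJ b hΩ hx ?_ ?_) (P2_smulJ b hΩ hx (-1) ?_)
    · exact P2_derJ b hΩ i (hM1 j r)
    · exact P2_derJ b hΩ j (hM1 i r)
    · exact P2_derJ b hΩ r (hM1 i j)
  have hfin := P2_mulJ b hΩ hx hI0 (by positivity) hInv hSum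
  exact (P2_congrJ b hΩ hx (fun y hy => P2_formula b G hG C hK y hy i j l) hfin).2

end NS38
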