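import Pool.Agent.LibFL27.P1
import Pool.Agent.LibFL27.P2
import Pool.Agent.LibNS38.B4

set_option autoImplicit false
set_option maxSynthPendingDepth 3

open Topology Filter Set
open scoped ContDiff

namespace NS38

private structure P3D {E J : Type} [NormedAddCommGroup E] [NormedSpace ℝ E] [Fintype J]
    (b : Module.Basis J ℝ E) (k : ℕ) (B Bc : ℝ) (Ω Ω' : Set E) (x : E) (f : E → E)
    (C C' : E → E →L[ℝ] E →L[ℝ] E) : Prop where
  o : IsOpen Ω
  o' : IsOpen Ω'
  hx : x ∈ Ω'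
  sf : ContDiffOn ℝ ∞ f Ω'
  mf : ∀ y ∈ Ω', f y ∈ Ω
  sC : ContDiffOn ℝ ∞ C Ω
  sC' : ContDiffOn ℝ ∞ C' Ω'
  tr : ∀ y ∈ Ω', ∀ v w, fderiv ℝ f y (C' y v w) =
    C (f y) (fderiv ℝ f y v) (fderiv ℝ f y w) + fderiv ℝ (fderiv ℝ f) y v w
  b0 : ∀ l, |b.repr (f x) l| ≤ B
  b1 : ∀ i l, |b.repr (fderiv ℝ f x (b i)) l| ≤ B
  bC : ∀ i j l, JB b k Bc (fun y => b.repr (C y (b i) (b j)) l) (f x)
  bC' : ∀ i j l, JB b k Bc (fun y => b.repr (C' y (b i) (b j)) l) x

private theorem P3_val {E J : Type} [NormedAddCommGroup E] [NormedSpace ℝ E] [Fintype J]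
    (b : Module.Basis J ℝ E) (k : ℕ) (M : ℝ) (f : E → ℝ) (x : E) (h : JB b k M f x) :
    |f x| ≤ M := by
  cases k with
  | zero => exact h
  | succ k => exact h.1

private theorem P3_down {E J : Type} [NormedAddCommGroup E] [NormedSpace ℝ E] [Fintype J]
    (b : Module.Basis J ℝ E) (x : E) (k : ℕ) (M : ℝ) (f : E → ℝ) (h : JB b (k + 1) M f x) :
    JB b k M f x := (jb_facts b isOpen_univ x (mem_univ x)).2.1 k M f h

private theorem P3_le {E J : Type} [NormedAddCommGroup E] [NormedSpace ℝ E] [Fintype J]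
    (b : Module.Basis J ℝ E) (x : E) (j k : ℕ) (hjk : j ≤ k) (M : ℝ) (f : E → ℝ)
    (h : JB b k M f x) : JB b j M f x := by
  induction k, hjk using Nat.le_induction with
  | base => exact h
  | succ k _ ih => exact ih (P3_down b x k M f h)

private theorem P3_sum {E J T : Type} [NormedAddCommGroup E] [NormedSpace ℝ E] [Fintype J]
    (b : Module.Basis J ℝ E) {Ω : Set E} (hΩ : IsOpen Ω) (x : E) (hx : x ∈ Ω) (k : ℕ) (M : ℝ)
    (F : T → E → ℝ) (hs : ∀ t, ContDiffOn ℝ ∞ (F t) Ω) (hF : ∀ t, JB b k M (F t) x)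
    (s : Finset T) : JB b k (s.card * M) (fun y => ∑ t ∈ s, F t y) x := by
  classical
  obtain ⟨-, -, f3, -, f5, f6, f7⟩ := jb_facts b hΩ x hx
  induction s using Finset.induction_on with
  | empty =>
    obtain ⟨M0, -, h0⟩ := f7 k (fun _ => 0) contDiffOn_const
    have h1 := f5 k M0 0 (fun _ => 0) contDiffOn_const h0
    rw [abs_zero, zero_mul] at h1
    simpa using h1
  | insert t s ht ih =>
    have h1 := f3 k M (s.card * M) (F t) (fun y => ∑ t ∈ s, F t y) (hs t)
      (ContDiffOn.sum fun t _ => hs t) (hF t) ih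
    rw [Finset.card_insert_of_notMem ht]
    have e : M + s.card * M = ((s.card + 1 : ℕ) : ℝ) * M := by
      push_cast
      ring
    rw [← e]
    refine f6 k _ _ _ (fun y _ => ?_) h1
    rw [Finset.sum_insert ht]

private theorem P3_fd {E J : Type} [NormedAddCommGroup E] [NormedSpace ℝ E]
    [FiniteDimensional ℝ E] [Fintype J] (b : Module.Basis J ℝ E) {F : Type}
    [NormedAddCommGroup F] [NormedSpace ℝ F] (g : F → E) (y : F)
    (hg : DifferentiableAt ℝ g y) (v : F) (l : J) :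
    fderiv ℝ (fun z => b.repr (g z) l) y v = b.repr (fderiv ℝ g y v) l := by
  have h1 : HasFDerivAt (fun z => LinearMap.toContinuousLinearMap (b.coord l) (g z))
      ((LinearMap.toContinuousLinearMap (b.coord l)).comp (fderiv ℝ g y)) y :=
    (LinearMap.toContinuousLinearMap (b.coord l)).hasFDerivAt.comp y hg.hasFDerivAt
  have h2 : (fun z => LinearMap.toContinuousLinearMap (b.coord l) (g z)) =
      fun z => b.repr (g z) l := rfl
  rw [h2] at h1
  rw [h1.fderiv]
  rfl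

private theorem P3_sm {E J : Type} [NormedAddCommGroup E] [NormedSpace ℝ E]
    [FiniteDimensional ℝ E] [Fintype J] (b : Module.Basis J ℝ E) {F : Type}
    [NormedAddCommGroup F] [NormedSpace ℝ F] {Ω : Set F} (g : F → E) (hg : ContDiffOn ℝ ∞ g Ω)
    (l : J) : ContDiffOn ℝ ∞ (fun z => b.repr (g z) l) Ω :=
  (LinearMap.toContinuousLinearMap (b.coord l)).contDiff.comp_contDiffOn hg

private theorem P3_ind {E J : Type} [NormedAddCommGroup E] [NormedSpace ℝ E]
    [FiniteDimensional ℝ E] [Fintype J] (b : Module.Basis J ℝ E) (k : ℕ) (B Bc : ℝ) (hB : 0 ≤ B)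
    (hBc : 0 ≤ Bc) (j : ℕ) (hj : j ≤ k + 1) : ∃ Bj : ℝ, 0 ≤ Bj ∧
    ∀ (Ω Ω' : Set E) (x : E) (f : E → E) (C C' : E → E →L[ℝ] E →L[ℝ] E),
      P3D b k B Bc Ω Ω' x f C C' → ∀ l, JB b (j + 1) Bj (fun y => b.repr (f y) l) x := by
  induction j with
  | zero =>
    refine ⟨B, hB, ?_⟩
    intro Ω Ω' x f C C' H l
    refine ⟨H.b0 l, fun i => ?_⟩
    show |fderiv ℝ (fun y => b.repr (f y) l) x (b i)| ≤ B
    rw [P3_fd b f x ((H.sf.contDiffAt (H.o'.mem_nhds H.hx)).differentiableAt (by simp))]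
    exact H.b1 i l
  | succ j ih =>
    obtain ⟨Bj, hBj, ih⟩ := ih (by omega)
    have hjk : j ≤ k := by omega
    obtain ⟨K, hK, hcomp⟩ := jb_comp b j Bj
    set N : ℝ := ((Finset.univ : Finset J).card : ℝ) with hN
    set t1 : ℝ := 2 ^ j * (Bc * Bj) with ht1
    set t2 : ℝ := 2 ^ j * ((2 ^ j * (Bj * Bj)) * (K * Bc)) with ht2
    refine ⟨max Bj (N * t1 + |(-1 : ℝ)| * (N * (N * t2))), le_max_of_le_left hBj, ?_⟩
    intro Ω Ω' x f C C' H l
    have hS := ih Ω Ω' x f C C' H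
    obtain ⟨f1, f2, f3, f4, f5, f6, f7⟩ := jb_facts b H.o' x H.hx
    have hdf : ∀ y ∈ Ω', DifferentiableAt ℝ f y := fun y hy =>
      (H.sf.contDiffAt (H.o'.mem_nhds hy)).differentiableAt (by simp)
    have hsDf : ContDiffOn ℝ ∞ (fderiv ℝ f) Ω' := H.sf.fderiv_of_isOpen H.o' (by simp)
    have hdDf : ∀ y ∈ Ω', DifferentiableAt ℝ (fderiv ℝ f) y := fun y hy =>
      (hsDf.contDiffAt (H.o'.mem_nhds hy)).differentiableAt (by simp)
    -- first derivatives
    have e1 : ∀ (l i : J), ∀ y ∈ Ω', fderiv ℝ (fun y => b.repr (f y) l) y (b i) =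
        b.repr (fderiv ℝ f y (b i)) l := fun l i y hy => P3_fd b f y (hdf y hy) (b i) l
    have s1 : ∀ l i : J, ContDiffOn ℝ ∞ (fun y => b.repr (fderiv ℝ f y (b i)) l) Ω' :=
      fun l i => P3_sm b _ (hsDf.clm_apply contDiffOn_const) l
    have J1 : ∀ l i : J, JB b j Bj (fun y => b.repr (fderiv ℝ f y (b i)) l) x := fun l i =>
      f6 j Bj _ _ (e1 l i) ((hS l).2 i)
    -- second derivatives
    have e2 : ∀ (l i i' : J), ∀ y ∈ Ω',
        fderiv ℝ (fun y => fderiv ℝ (fun y => b.repr (f y) l) y (b i)) y (b i') =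
          b.repr (fderiv ℝ (fderiv ℝ f) y (b i') (b i)) l := by
      intro l i i' y hy
      have he : (fun y => fderiv ℝ (fun y => b.repr (f y) l) y (b i)) =ᶠ[𝓝 y]
          fun y => b.repr (fderiv ℝ f y (b i)) l := by
        filter_upwards [H.o'.mem_nhds hy] with z hz using e1 l i z hz
      have hd2 : HasFDerivAt (fun y => fderiv ℝ f y (b i))
          ((fderiv ℝ (fderiv ℝ f) y).flip (b i)) y := by
        have := (hdDf y hy).hasFDerivAt.clm_apply (hasFDerivAt_const (b i) y)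
        simpa using this
      rw [he.fderiv_eq, P3_fd b (fun y => fderiv ℝ f y (b i)) y hd2.differentiableAt, hd2.fderiv]
      rfl
    -- the formula
    have e3 : ∀ (l i i' : J), ∀ y ∈ Ω',
        (∑ m, b.repr (C' y (b i') (b i)) m * b.repr (fderiv ℝ f y (b m)) l) +
          (-1) * (∑ m, ∑ r, (b.repr (fderiv ℝ f y (b i')) m * b.repr (fderiv ℝ f y (b i)) r) *
            b.repr (C (f y) (b m) (b r)) l) =
        fderiv ℝ (fun y => fderiv ℝ (fun y => b.repr (f y) l) y (b i)) y (b i') := by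
      intro l i i' y hy
      rw [e2 l i i' y hy]
      have h1 := H.tr y hy (b i') (b i)
      have h2 : fderiv ℝ f y (C' y (b i') (b i)) =
          ∑ m, b.repr (C' y (b i') (b i)) m • fderiv ℝ f y (b m) := by
        conv_lhs => rw [← b.sum_repr (C' y (b i') (b i))]
        rw [map_sum]
        refine Finset.sum_congr rfl fun m _ => ?_
        rw [map_smul]
      have h3a : ∀ w, C (f y) (fderiv ℝ f y (b i')) w =
          ∑ m, b.repr (fderiv ℝ f y (b i')) m • C (f y) (b m) w := by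
        intro w
        conv_lhs => rw [← b.sum_repr (fderiv ℝ f y (b i'))]
        rw [map_sum, ContinuousLinearMap.sum_apply]
        refine Finset.sum_congr rfl fun m _ => ?_
        rw [map_smul, ContinuousLinearMap.smul_apply]
      have h3b : ∀ m, C (f y) (b m) (fderiv ℝ f y (b i)) =
          ∑ r, b.repr (fderiv ℝ f y (b i)) r • C (f y) (b m) (b r) := by
        intro m
        conv_lhs => rw [← b.sum_repr (fderiv ℝ f y (b i))]
        rw [map_sum]
        refine Finset.sum_congr rfl fun r _ => ?_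
        rw [map_smul]
      have h3 : C (f y) (fderiv ℝ f y (b i')) (fderiv ℝ f y (b i)) =
          ∑ m, ∑ r, (b.repr (fderiv ℝ f y (b i')) m * b.repr (fderiv ℝ f y (b i)) r) •
            C (f y) (b m) (b r) := by
        rw [h3a]
        refine Finset.sum_congr rfl fun m _ => ?_
        rw [h3b, Finset.smul_sum]
        refine Finset.sum_congr rfl fun r _ => ?_
        rw [smul_smul]
      have h4 : fderiv ℝ (fderiv ℝ f) y (b i') (b i) =
          (∑ m, b.repr (C' y (b i') (b i)) m • fderiv ℝ f y (b m)) -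
            ∑ m, ∑ r, (b.repr (fderiv ℝ f y (b i')) m * b.repr (fderiv ℝ f y (b i)) r) •
              C (f y) (b m) (b r) := by
        rw [← h2, ← h3, h1]
        abel
      rw [h4, map_sub, Finsupp.sub_apply, map_sum, map_sum, Finsupp.finset_sum_apply,
        Finsupp.finset_sum_apply]
      have h5 : ∀ m, b.repr (b.repr (C' y (b i') (b i)) m • fderiv ℝ f y (b m)) l =
          b.repr (C' y (b i') (b i)) m * b.repr (fderiv ℝ f y (b m)) l := by
        intro m
        rw [map_smul, Finsupp.smul_apply, smul_eq_mul]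
      have h6 : ∀ m, b.repr (∑ r, (b.repr (fderiv ℝ f y (b i')) m *
          b.repr (fderiv ℝ f y (b i)) r) • C (f y) (b m) (b r)) l =
          ∑ r, (b.repr (fderiv ℝ f y (b i')) m * b.repr (fderiv ℝ f y (b i)) r) *
            b.repr (C (f y) (b m) (b r)) l := by
        intro m
        rw [map_sum, Finsupp.finset_sum_apply]
        refine Finset.sum_congr rfl fun r _ => ?_
        rw [map_smul, Finsupp.smul_apply, smul_eq_mul]
      rw [Finset.sum_congr rfl fun m _ => h5 m, Finset.sum_congr rfl fun m _ => h6 m]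
      ring
    -- smoothness
    have sC' : ∀ i i' m, ContDiffOn ℝ ∞ (fun y => b.repr (C' y (b i') (b i)) m) Ω' := fun i i' m =>
      P3_sm b _ ((H.sC'.clm_apply contDiffOn_const).clm_apply contDiffOn_const) m
    have sC0 : ∀ m r l, ContDiffOn ℝ ∞ (fun y => b.repr (C y (b m) (b r)) l) Ω := fun m r l =>
      P3_sm b _ ((H.sC.clm_apply contDiffOn_const).clm_apply contDiffOn_const) l
    have sC : ∀ m r l, ContDiffOn ℝ ∞ (fun y => b.repr (C (f y) (b m) (b r)) l) Ω' :=
      fun m r l => (sC0 m r l).comp H.sf H.mf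
    -- bounds of the terms
    have J2 : ∀ i i' m l, JB b j t1
        (fun y => b.repr (C' y (b i') (b i)) m * b.repr (fderiv ℝ f y (b m)) l) x := by
      intro i i' m l
      exact f4 j Bc Bj _ _ hBc hBj (sC' i i' m) (s1 l m)
        (P3_le b x j k hjk Bc _ (H.bC' i' i m)) (J1 l m)
    have J3 : ∀ m r l, JB b j (K * Bc) (fun y => b.repr (C (f y) (b m) (b r)) l) x := by
      intro m r l
      exact hcomp Ω Ω' H.o H.o' x H.hx f H.sf H.mf (fun l => P3_down b x j Bj _ (hS l))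
        (fun y => b.repr (C y (b m) (b r)) l) Bc (sC0 m r l) hBc
        (P3_le b (f x) j k hjk Bc _ (H.bC m r l))
    have J4 : ∀ i i' m r l, JB b j t2 (fun y => (b.repr (fderiv ℝ f y (b i')) m *
        b.repr (fderiv ℝ f y (b i)) r) * b.repr (C (f y) (b m) (b r)) l) x := by
      intro i i' m r l
      exact f4 j (2 ^ j * (Bj * Bj)) (K * Bc) _ _ (by positivity) (by positivity)
        ((s1 m i').mul (s1 r i)) (sC m r l) (f4 j Bj Bj _ _ hBj hBj (s1 m i') (s1 r i) (J1 m i')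
          (J1 r i)) (J3 m r l)
    have s4 : ∀ i i' m r l, ContDiffOn ℝ ∞ (fun y => (b.repr (fderiv ℝ f y (b i')) m *
        b.repr (fderiv ℝ f y (b i)) r) * b.repr (C (f y) (b m) (b r)) l) Ω' :=
      fun i i' m r l => ((s1 m i').mul (s1 r i)).mul (sC m r l)
    have J5 : ∀ i i', JB b j (N * t1) (fun y => ∑ m, b.repr (C' y (b i') (b i)) m *
        b.repr (fderiv ℝ f y (b m)) l) x := fun i i' =>
      P3_sum b H.o' x H.hx j t1 (fun m y => b.repr (C' y (b i') (b i)) m *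
        b.repr (fderiv ℝ f y (b m)) l) (fun m => (sC' i i' m).mul (s1 l m))
        (fun m => J2 i i' m l) Finset.univ
    have J6 : ∀ i i', JB b j (N * (N * t2)) (fun y => ∑ m, ∑ r,
        (b.repr (fderiv ℝ f y (b i')) m * b.repr (fderiv ℝ f y (b i)) r) *
          b.repr (C (f y) (b m) (b r)) l) x := fun i i' =>
      P3_sum b H.o' x H.hx j (N * t2) (fun m y => ∑ r,
        (b.repr (fderiv ℝ f y (b i')) m * b.repr (fderiv ℝ f y (b i)) r) *
          b.repr (C (f y) (b m) (b r)) l) (fun m => ContDiffOn.sum fun r _ => s4 i i' m r l)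
        (fun m => P3_sum b H.o' x H.hx j t2 (fun r y => (b.repr (fderiv ℝ f y (b i')) m *
          b.repr (fderiv ℝ f y (b i)) r) * b.repr (C (f y) (b m) (b r)) l)
          (fun r => s4 i i' m r l) (fun r => J4 i i' m r l) Finset.univ) Finset.univ
    have s5 : ∀ i i', ContDiffOn ℝ ∞ (fun y => ∑ m, b.repr (C' y (b i') (b i)) m *
        b.repr (fderiv ℝ f y (b m)) l) Ω' := fun i i' =>
      ContDiffOn.sum fun m _ => (sC' i i' m).mul (s1 l m)
    have s6 : ∀ i i', ContDiffOn ℝ ∞ (fun y => ∑ m, ∑ r,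
        (b.repr (fderiv ℝ f y (b i')) m * b.repr (fderiv ℝ f y (b i)) r) *
          b.repr (C (f y) (b m) (b r)) l) Ω' := fun i i' =>
      ContDiffOn.sum fun m _ => ContDiffOn.sum fun r _ => s4 i i' m r l
    refine ⟨(P3_val b _ _ _ x (hS l)).trans (le_max_left _ _), fun i => ⟨?_, fun i' => ?_⟩⟩
    · exact (P3_val b _ _ _ x ((hS l).2 i)).trans (le_max_left _ _)
    · refine f1 j _ _ _ (le_max_right _ _) (f6 j _ _ _ (e3 l i i') ?_)
      exact f3 j _ _ _ _ (s5 i i') (contDiffOn_const.mul (s6 i i')) (J5 i i')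
        (f5 j _ (-1) _ (s6 i i') (J6 i i'))

/-- Row P3. Jets of isometries are bounded. PLAN. `Df` is injective, so bijective; `chr_trans` (LibNS38/B4):
`D_i D_j f^l = ∑ m, D_m f^l * C'^m_ij - ∑ m r, (C^l_mr ∘ f) * D_i f^m * D_j f^r` on `Ω'`; `|Df x|` from the metrics at `x`;
induction: `JB` of order `k'` of `f, Df` gives order `k'` of `D²f` (`jb_comp`, `chr_jb`, `jb_facts`), so order `k' + 2`
of `f`. -/
theorem iso_jets {E J : Type} [NormedAddCommGroup E] [NormedSpace ℝ E] [FiniteDimensional ℝ E]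
    [Fintype J] [DecidableEq J] (b : Module.Basis J ℝ E) (k : ℕ) (B : ℝ) (hB : 1 ≤ B) :
    ∃ B' : ℝ, 0 ≤ B' ∧ ∀ (Ω Ω' : Set E), IsOpen Ω → IsOpen Ω' → ∀ x ∈ Ω',
      ∀ (G G' : E → E → E → ℝ) (f : E → E) (c : ℝ), Met G Ω → Met G' Ω' → ContDiffOn ℝ ∞ f Ω' →
      (∀ y ∈ Ω', f y ∈ Ω) → 0 < c → c ≤ B →
      (∀ y ∈ Ω', ∀ v w, G (f y) (fderiv ℝ f y v) (fderiv ℝ f y w) = c * G' y v w) →
      (∀ i j, JB b (k + 1) B (fun y => G y (b i) (b j)) (f x)) →
      (∀ v, B⁻¹ * ‖v‖ ^ 2 ≤ G (f x) v v) →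
      (∀ i j, JB b (k + 1) B (fun y => G' y (b i) (b j)) x) → (∀ v, B⁻¹ * ‖v‖ ^ 2 ≤ G' x v v) →
      (∀ l, |b.repr (f x) l| ≤ B) → ∀ l, JB b (k + 2) B' (fun y => b.repr (f y) l) x := by
  obtain ⟨Bc, hBc, hC⟩ := chr_jb b k B hB
  set S : ℝ := ∑ l, ‖LinearMap.toContinuousLinearMap (b.coord l)‖ with hS
  have hS0 : 0 ≤ S := Finset.sum_nonneg fun l _ => norm_nonneg _
  have hB0 : (0 : ℝ) < B := by linarith
  obtain ⟨Bk, hBk, hI⟩ := P3_ind b k (S * B ^ 2 + B) Bc (by positivity) hBc (k + 1) le_rfl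
  refine ⟨Bk, hBk, ?_⟩
  intro Ω Ω' hΩ hΩ' x hx G G' f c hG hG' hf hm hc hcB hp g1 g2 g3 g4 g5
  obtain ⟨C, hCs, hCK⟩ := (kos_facts hΩ).2.2.2.1 G hG
  obtain ⟨C', hCs', hCK'⟩ := (kos_facts hΩ').2.2.2.1 G' hG'
  have hzero : ∀ y ∈ Ω, ∀ w, G y 0 w = 0 := by
    intro y hy w
    have h := hG.bil.smul y hy 0 0 w
    simpa using h
  have hsur : ∀ y ∈ Ω', Function.Surjective (fderiv ℝ f y) := by
    intro y hy
    have hinj : Function.Injective ((fderiv ℝ f y : E →L[ℝ] E) : E →ₗ[ℝ] E) := by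
      rw [injective_iff_map_eq_zero]
      intro v hv
      have hv' : fderiv ℝ f y v = 0 := hv
      by_contra hne
      have h1 := hp y hy v v
      rw [hv', hzero _ (hm y hy)] at h1
      have h2 := mul_pos hc (hG'.pos y hy v hne)
      linarith
    exact LinearMap.injective_iff_surjective.1 hinj
  have htr := chr_trans hΩ hΩ' hG hG' f hf hm hsur c hc hp C C' hCs hCs' hCK hCK'
  refine hI Ω Ω' x f C C' ⟨hΩ, hΩ', hx, hf, hm, hCs, hCs', htr, ?_, ?_, ?_, ?_⟩
  · intro l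
    have : 0 ≤ S * B ^ 2 := by positivity
    linarith [g5 l]
  · intro i l
    have h1 : ‖fderiv ℝ f x (b i)‖ ≤ B ^ 2 := by
      have h2 := g2 (fderiv ℝ f x (b i))
      rw [hp x hx] at h2
      have h3 : |G' x (b i) (b i)| ≤ B := P3_val b _ _ _ x (g3 i i)
      have h4 : G' x (b i) (b i) ≤ B := (le_abs_self _).trans h3
      have h5 : 0 ≤ G' x (b i) (b i) := (by positivity : (0 : ℝ) ≤ B⁻¹ * ‖b i‖ ^ 2).trans (g4 (b i))
      have h6 : c * G' x (b i) (b i) ≤ B * B := mul_le_mul hcB h4 h5 hB0.le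
      have h7 : ‖fderiv ℝ f x (b i)‖ ^ 2 ≤ B * (B * B) := by
        have h8 : B⁻¹ * ‖fderiv ℝ f x (b i)‖ ^ 2 ≤ B * B := h2.trans h6
        rw [inv_mul_le_iff₀ hB0] at h8
        exact h8
      have h9 : B * (B * B) ≤ (B ^ 2) ^ 2 := by
        have : 0 ≤ B ^ 3 * (B - 1) := mul_nonneg (by positivity) (by linarith)
        nlinarith
      exact abs_le_of_sq_le_sq' (h7.trans h9) (by positivity) |>.2
    have h2 : |b.repr (fderiv ℝ f x (b i)) l| ≤
        ‖LinearMap.toContinuousLinearMap (b.coord l)‖ * ‖fderiv ℝ f x (b i)‖ := by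
      have := (LinearMap.toContinuousLinearMap (b.coord l)).le_opNorm (fderiv ℝ f x (b i))
      rw [Real.norm_eq_abs] at this
      exact this
    have h3 : ‖LinearMap.toContinuousLinearMap (b.coord l)‖ ≤ S :=
      Finset.single_le_sum (f := fun l => ‖LinearMap.toContinuousLinearMap (b.coord l)‖)
        (fun l _ => norm_nonneg _) (Finset.mem_univ l)
    have h4 : ‖LinearMap.toContinuousLinearMap (b.coord l)‖ * ‖fderiv ℝ f x (b i)‖ ≤ S * B ^ 2 :=
      mul_le_mul h3 h1 (norm_nonneg _) hS0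
    linarith
  · exact fun i j l => hC Ω hΩ (f x) (hm x hx) G C hG hCs hCK g1 g2 i j l
  · exact fun i j l => hC Ω' hΩ' x hx G' C' hG' hCs' hCK' g3 g4 i j l

end NS38
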