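import Pool.Agent.LibFL27.PDefs
import Pool.Agent.LibFL27.CR5

set_option autoImplicit false
set_option maxSynthPendingDepth 3

open Matrix MeasureTheory Topology Filter LibNC38
open LibNC27 hiding Mt
open scoped Matrix.Norms.Elementwise ContDiff

namespace FL27

private theorem P4_pr {n : ℕ} (v : Mt n) (hv : Sym0 v) : pr0 v = v := by
  show (1 / 2 : ℝ) • (v + vᵀ) - (v.trace / n) • (1 : Mt n) = v
  rw [hv.1, hv.2, zero_div, zero_smul, sub_zero]
  ext i j
  simp only [Matrix.smul_apply, Matrix.add_apply, smul_eq_mul]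
  ring

/-- the spanning family -/
private noncomputable def P4_P {n : ℕ} (i j : Fin n) : Mt n := pr0 (Matrix.single i j (1 : ℝ))

private theorem P4_exp {n : ℕ} (v : Mt n) (hv : Sym0 v) :
    v = ∑ i, ∑ j, v i j • P4_P i j := by
  have h1 : v = ∑ i, ∑ j, v i j • Matrix.single i j (1 : ℝ) := by
    conv_lhs => rw [Matrix.matrix_eq_sum_single v]
    refine Finset.sum_congr rfl fun i _ => Finset.sum_congr rfl fun j _ => ?_
    rw [Matrix.smul_single, smul_eq_mul, mul_one]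
  have h2 : pr0 v = ∑ i, ∑ j, v i j • P4_P i j := by
    conv_lhs => rw [h1]
    simp only [map_sum, map_smul]
    rfl
  rw [← h2]
  exact (P4_pr v hv).symm

private theorem P4_sym {n : ℕ} (hn : 1 ≤ n) (v : Mt n) : Sym0 (pr0 v) := by
  have hn0 : (n : ℝ) ≠ 0 := by
    have : 0 < n := hn
    exact_mod_cast this.ne'
  constructor
  · show ((1 / 2 : ℝ) • (v + vᵀ) - (v.trace / n) • (1 : Mt n))ᵀ =
      (1 / 2 : ℝ) • (v + vᵀ) - (v.trace / n) • (1 : Mt n)
    rw [Matrix.transpose_sub, Matrix.transpose_smul, Matrix.transpose_smul, Matrix.transpose_one,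
      Matrix.transpose_add, Matrix.transpose_transpose, add_comm]
  · show ((1 / 2 : ℝ) • (v + vᵀ) - (v.trace / n) • (1 : Mt n)).trace = 0
    rw [Matrix.trace_sub, Matrix.trace_smul, Matrix.trace_smul, Matrix.trace_one, Matrix.trace_add,
      Matrix.trace_transpose, Fintype.card_fin, smul_eq_mul, smul_eq_mul]
    field_simp
    ring

private theorem P4_box {n : ℕ} (hn : 1 ≤ n) (i j : Fin n) : Bx (P4_P i j) := by
  have hn1 : (1 : ℝ) ≤ n := by exact_mod_cast hn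
  have hn0 : (0 : ℝ) < n := by linarith
  have hi0 : 0 ≤ 1 / (n : ℝ) := by positivity
  have hi1 : 1 / (n : ℝ) ≤ 1 := by
    rw [div_le_one hn0]
    exact hn1
  intro a b
  show |((1 / 2 : ℝ) • (Matrix.single i j (1 : ℝ) + (Matrix.single i j (1 : ℝ))ᵀ) -
    ((Matrix.single i j (1 : ℝ)).trace / n) • (1 : Mt n)) a b| ≤ 1
  rw [Matrix.transpose_single]
  simp only [Matrix.sub_apply, Matrix.smul_apply, Matrix.add_apply, smul_eq_mul]
  by_cases hij : i = j
  · subst hij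
    rw [Matrix.trace_single_eq_same]
    by_cases hab : a = b
    · subst hab
      rw [Matrix.one_apply_eq]
      by_cases hia : i = a
      · subst hia
        rw [Matrix.single_apply_same, abs_le]
        constructor <;> linarith
      · rw [Matrix.single_apply_of_row_ne hia, abs_le]
        constructor <;> linarith
    · rw [Matrix.one_apply_ne hab]
      by_cases hia : i = a
      · subst hia
        rw [Matrix.single_apply_of_col_ne _ _ hab, abs_le]
        constructor <;> linarith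
      · rw [Matrix.single_apply_of_row_ne hia, abs_le]
        constructor <;> linarith
  · rw [Matrix.trace_single_eq_of_ne _ _ _ hij, zero_div, zero_mul, sub_zero]
    have e1 : 0 ≤ Matrix.single i j (1 : ℝ) a b ∧ Matrix.single i j (1 : ℝ) a b ≤ 1 := by
      rw [Matrix.single_apply]
      split_ifs
      · exact ⟨zero_le_one, le_rfl⟩
      · exact ⟨le_rfl, zero_le_one⟩
    have e2 : 0 ≤ Matrix.single j i (1 : ℝ) a b ∧ Matrix.single j i (1 : ℝ) a b ≤ 1 := by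
      rw [Matrix.single_apply]
      split_ifs
      · exact ⟨zero_le_one, le_rfl⟩
      · exact ⟨le_rfl, zero_le_one⟩
    rw [abs_le]
    constructor <;> linarith [e1.1, e1.2, e2.1, e2.2]

private theorem P4_zero {E J : Type} [NormedAddCommGroup E] [NormedSpace ℝ E] [Fintype J]
    (b : Module.Basis J ℝ E) (k : ℕ) (x : E) : NS38.JB b k 0 (fun _ => (0 : ℝ)) x := by
  induction k with
  | zero =>
    show |(0 : ℝ)| ≤ 0
    rw [abs_zero]
  | succ k ih =>
    refine ⟨by rw [abs_zero], fun i => ?_⟩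
    have h1 : (fun y : E => fderiv ℝ (fun _ : E => (0 : ℝ)) y (b i)) = fun _ => (0 : ℝ) := by
      funext y
      rw [fderiv_fun_const]
      rfl
    rw [h1]
    exact ih

private theorem P4_sum {E J : Type} [NormedAddCommGroup E] [NormedSpace ℝ E] [Fintype J]
    (b : Module.Basis J ℝ E) {Ω : Set E} (hΩ : IsOpen Ω) (x : E) (hx : x ∈ Ω) (k : ℕ)
    {I : Type} (s : Finset I) (M : I → ℝ) (f : I → E → ℝ)
    (hf : ∀ i ∈ s, ContDiffOn ℝ ∞ (f i) Ω) (hM : ∀ i ∈ s, NS38.JB b k (M i) (f i) x) :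
    NS38.JB b k (∑ i ∈ s, M i) (fun y => ∑ i ∈ s, f i y) x := by
  classical
  induction s using Finset.induction_on with
  | empty =>
    simp only [Finset.sum_empty]
    exact P4_zero b k x
  | insert a s ha ih =>
    have h1 := ih (fun i hi => hf i (Finset.mem_insert_of_mem hi))
      (fun i hi => hM i (Finset.mem_insert_of_mem hi))
    have h2 := hM a (Finset.mem_insert_self a s)
    have h3 : ContDiffOn ℝ ∞ (fun y => ∑ i ∈ s, f i y) Ω :=
      ContDiffOn.sum fun i hi => hf i (Finset.mem_insert_of_mem hi)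
    have h4 := (NS38.jb_facts b hΩ x hx).2.2.1 k (M a) (∑ i ∈ s, M i) (f a)
      (fun y => ∑ i ∈ s, f i y) (hf a (Finset.mem_insert_self a s)) h3 h2 h1
    rw [Finset.sum_insert ha]
    simp only [Finset.sum_insert ha]
    exact h4

private theorem P4_tan {n : ℕ} (g : SL n) (w : Mt n) (hw : IsTan (act g (o n)) w) :
    Sym0 ((g⁻¹).1 * w * (g⁻¹).1ᵀ) ∧ g.1 * ((g⁻¹).1 * w * (g⁻¹).1ᵀ) * g.1ᵀ = w := by
  have hinv' : g.1 * (g⁻¹ : SL n).1 = 1 := by
    rw [← Matrix.SpecialLinearGroup.coe_mul, mul_inv_cancel, Matrix.SpecialLinearGroup.coe_one]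
  have hinvt' : (g⁻¹ : SL n).1ᵀ * g.1ᵀ = 1 := by
    rw [← Matrix.transpose_mul, hinv', Matrix.transpose_one]
  have h1 := (tan_facts (n := n)).2.1 g⁻¹ _ w hw
  have h2 : act g⁻¹ (act g (o n)) = o n := by
    rw [← (act_facts (n := n)).2.1, inv_mul_cancel, (act_facts (n := n)).1]
  rw [h2] at h1
  refine ⟨⟨h1.1, ?_⟩, ?_⟩
  · have h3 := h1.2
    change ((1 : Mt n)⁻¹ * _).trace = 0 at h3
    rw [inv_one, Matrix.one_mul] at h3
    exact h3
  · calc g.1 * ((g⁻¹ : SL n).1 * w * (g⁻¹ : SL n).1ᵀ) * g.1ᵀ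
        = (g.1 * (g⁻¹ : SL n).1) * w * ((g⁻¹ : SL n).1ᵀ * g.1ᵀ) := by
          simp only [Matrix.mul_assoc]
      _ = w := by rw [hinv', hinvt', Matrix.one_mul, Matrix.mul_one]

private theorem P4_bil {n : ℕ} (κ : PD n → Fm n) (v w : Mt n) (hv : Sym0 v) (hw : Sym0 w)
    (g : SL n) : Jf κ v w g =
      ∑ x : (Fin n × Fin n) × (Fin n × Fin n),
        (v x.1.1 x.1.2 * w x.2.1 x.2.2) * Jf κ (P4_P x.1.1 x.1.2) (P4_P x.2.1 x.2.2) g := by
  have hbil : Jf κ v w g = ∑ i, ∑ j, v i j * ∑ k, ∑ l, w k l * Jf κ (P4_P i j) (P4_P k l) g := by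
    have e1 : ∀ v' : Mt n, Jf κ v' w g = ∑ k, ∑ l, w k l * Jf κ v' (P4_P k l) g := by
      intro v'
      unfold Jf
      conv_lhs => rw [P4_exp w hw]
      simp only [Matrix.mul_sum, Matrix.sum_mul, Matrix.mul_smul, Matrix.smul_mul, map_sum,
        map_smul, smul_eq_mul]
    have e2 : Jf κ v w g = ∑ i, ∑ j, v i j * Jf κ (P4_P i j) w g := by
      unfold Jf
      conv_lhs => rw [P4_exp v hv]
      simp only [Matrix.mul_sum, Matrix.sum_mul, Matrix.mul_smul, Matrix.smul_mul, map_sum,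
        map_smul, smul_eq_mul, LinearMap.sum_apply, LinearMap.smul_apply]
    rw [e2]
    refine Finset.sum_congr rfl fun i _ => Finset.sum_congr rfl fun j _ => ?_
    rw [e1]
  rw [hbil, Fintype.sum_prod_type, Fintype.sum_prod_type]
  refine Finset.sum_congr rfl fun i _ => Finset.sum_congr rfl fun j _ => ?_
  rw [Fintype.sum_prod_type, Finset.mul_sum]
  refine Finset.sum_congr rfl fun k _ => ?_
  rw [Finset.mul_sum]
  refine Finset.sum_congr rfl fun l _ => ?_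
  show v i j * (w k l * _) = v i j * w k l * _
  ring

private theorem P4_one {n : ℕ} (hn : 1 ≤ n) {J : Type} [Fintype J] (b : Module.Basis J ℝ (Mt n))
    (k : ℕ) (v w : Mt n) :
    ∃ C : ℝ, 0 ≤ C ∧ ∀ (κ : PD n → Fm n) (ε : ℝ), 0 ≤ ε → CmF ∞ κ → TB k ε κ →
        NS38.JB b k (C * ε) (fun A => Kc κ v w A) 1 := by
  have hret : ret (1 : Mt n) = o n := ret_self (o n)
  obtain ⟨U, s, hU, h1U, hUP, hs1, hsm, hact⟩ := sec_loc (1 : Mt n) (mem_PU (o n)) (1 : SL n)
    (by rw [hret]; exact (act_facts (n := n)).1 (o n))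
  have hF : ∀ F : Fn n, (∀ j, SG j F) → ContDiffOn ℝ ∞ (fun A => F (s A)) U :=
    fun F hF => sg_sec F hF U hU s hsm
  obtain ⟨C0, hC0, hjet⟩ := bd_jb b U hU 1 h1U s hsm hF k
  -- the coefficient functions
  have hinv : ContDiffOn ℝ ∞ (fun A => ((s A)⁻¹ : SL n).1) U := by
    have h1 : ContDiffOn ℝ ∞ (fun A => ((s A).1)⁻¹) U := by
      refine cd_inv hsm fun A _ => ?_
      rw [(s A).2]
      exact one_ne_zero
    refine h1.congr fun A _ => ?_
    have h2 : ((s A)⁻¹ : SL n).1 * (s A).1 = 1 := by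
      rw [← Matrix.SpecialLinearGroup.coe_mul, inv_mul_cancel, Matrix.SpecialLinearGroup.coe_one]
    exact (Matrix.inv_eq_left_inv h2).symm
  have hfd : ∀ u : Mt n, ContDiffOn ℝ ∞ (fun A : Mt n => fderiv ℝ (fun B : Mt n => (ret B).1) A u) U := by
    intro u
    have h1 : ContDiffOn ℝ ∞ (fun B : Mt n => ((ret B).1 : Mt n)) (PU n) := ret_smooth
    have h2 := h1.fderiv_of_isOpen (m := ∞) PU_open (by simp)
    exact (h2.clm_apply contDiffOn_const).mono hUP
  let c : Mt n → Mt n → Mt n := fun u A =>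
    ((s A)⁻¹ : SL n).1 * fderiv ℝ (fun B : Mt n => (ret B).1) A u * ((s A)⁻¹ : SL n).1ᵀ
  have hc : ∀ u, ContDiffOn ℝ ∞ (c u) U := fun u =>
    cd_mul (cd_mul hinv (hfd u)) (cd_transpose hinv)
  let q : (Fin n × Fin n) × (Fin n × Fin n) → Mt n → ℝ := fun x A =>
    c v A x.1.1 x.1.2 * c w A x.2.1 x.2.2
  have hq : ∀ x, ContDiffOn ℝ ∞ (q x) U := fun x =>
    (cd_entry (hc v) x.1.1 x.1.2).mul (cd_entry (hc w) x.2.1 x.2.2)
  have hqM : ∀ x, ∃ M, 0 ≤ M ∧ NS38.JB b k M (q x) 1 := fun x =>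
    (NS38.jb_facts b hU 1 h1U).2.2.2.2.2.2 k (q x) (hq x)
  choose M hM0 hM using hqM
  refine ⟨∑ x, 2 ^ k * (M x * C0), Finset.sum_nonneg fun x _ => ?_, ?_⟩
  · have := hM0 x
    positivity
  intro κ ε hε hκs hT
  have hterm : ∀ x : (Fin n × Fin n) × (Fin n × Fin n),
      ContDiffOn ℝ ∞ (fun A => Jf κ (P4_P x.1.1 x.1.2) (P4_P x.2.1 x.2.2) (s A)) U ∧
      NS38.JB b k (C0 * ε) (fun A => Jf κ (P4_P x.1.1 x.1.2) (P4_P x.2.1 x.2.2) (s A)) 1 := by
    intro x
    have hsg := sg_jf κ hκs (P4_P x.1.1 x.1.2) (P4_P x.2.1 x.2.2)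
    refine ⟨hF _ hsg, hjet _ ε hε hsg ?_⟩
    exact hT _ _ (P4_sym hn _) (P4_sym hn _) (P4_box hn _ _) (P4_box hn _ _)
  have hsum := P4_sum b hU 1 h1U k Finset.univ (fun x => 2 ^ k * (M x * (C0 * ε)))
    (fun x A => q x A * Jf κ (P4_P x.1.1 x.1.2) (P4_P x.2.1 x.2.2) (s A))
    (fun x _ => (hq x).mul (hterm x).1)
    (fun x _ => (NS38.jb_facts b hU 1 h1U).2.2.2.1 k (M x) (C0 * ε) (q x) _ (hM0 x)
      (mul_nonneg hC0 hε) (hq x) (hterm x).1 (hM x) (hterm x).2)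
  have hcon : (∑ x, 2 ^ k * (M x * C0)) * ε =
      ∑ x : (Fin n × Fin n) × (Fin n × Fin n), 2 ^ k * (M x * (C0 * ε)) := by
    rw [Finset.sum_mul]
    refine Finset.sum_congr rfl fun x _ => ?_
    ring
  rw [hcon]
  refine (NS38.jb_facts b hU 1 h1U).2.2.2.2.2.1 k _ _ _ ?_ hsum
  intro A hA
  have hAP : A ∈ PU n := hUP hA
  have hd : DifferentiableAt ℝ (fun B : Mt n => (ret B).1) A :=
    ((ret_smooth (m := 1)).contDiffAt (PU_open.mem_nhds hAP)).differentiableAt one_ne_zero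
  have htan : ∀ u, IsTan (act (s A) (o n)) (fderiv ℝ (fun B : Mt n => (ret B).1) A u) := by
    intro u
    rw [hact A hA]
    exact tan_fderiv _ A hd u
  have hv1 := P4_tan (s A) _ (htan v)
  have hw1 := P4_tan (s A) _ (htan w)
  have e1 := P4_bil κ (c v A) (c w A) hv1.1 hw1.1 (s A)
  have e2 : Jf κ (c v A) (c w A) (s A) = Kc κ v w A := by
    unfold Jf
    show κ (act (s A) (o n)) ((s A).1 * (((s A)⁻¹).1 * _ * ((s A)⁻¹).1ᵀ) * (s A).1ᵀ)
      ((s A).1 * (((s A)⁻¹).1 * _ * ((s A)⁻¹).1ᵀ) * (s A).1ᵀ) = _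
    rw [hv1.2, hw1.2, hact A hA]
    rfl
  show ∑ x, q x A * Jf κ (P4_P x.1.1 x.1.2) (P4_P x.2.1 x.2.2) (s A) = _
  rw [← e2, e1]

/-- Row P4. Jets at `1` of a form with bounds `TB` (compare `prodm_jb`, CR5, whose proof is the same with
`κ` instead of `h - gF` and `k` instead of `3`: there `prodm h - prodm gF = Kc (h - gF)`). -/
theorem tb_jb {n : ℕ} (hn : 1 ≤ n) {J : Type} [Fintype J] (b : Module.Basis J ℝ (Mt n)) (k : ℕ) :
    ∃ K : ℝ, 0 ≤ K ∧ ∀ (κ : PD n → Fm n) (M : ℝ), 0 ≤ M → CmF ∞ κ → TB k M κ →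
      ∀ i j, NS38.JB b k (K * M) (fun A => Kc κ (b i) (b j) A) 1 := by
  have h1 : ∀ i j : J, ∃ C : ℝ, 0 ≤ C ∧ ∀ (κ : PD n → Fm n) (M : ℝ), 0 ≤ M → CmF ∞ κ →
      TB k M κ → NS38.JB b k (C * M) (fun A => Kc κ (b i) (b j) A) 1 :=
    fun i j => P4_one hn b k (b i) (b j)
  choose C hC0 hC using h1
  refine ⟨∑ i, ∑ j, C i j, Finset.sum_nonneg fun i _ => Finset.sum_nonneg fun j _ => hC0 i j, ?_⟩
  intro κ M hM hκ hT i j
  refine (NS38.jb_facts b PU_open (1 : Mt n) (mem_PU (o n))).1 k (C i j * M) _ _ ?_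
    (hC i j κ M hM hκ hT)
  refine mul_le_mul_of_nonneg_right ?_ hM
  calc C i j ≤ ∑ j', C i j' :=
        Finset.single_le_sum (f := fun j' => C i j') (fun j' _ => hC0 i j') (Finset.mem_univ j)
    _ ≤ ∑ i', ∑ j', C i' j' :=
        Finset.single_le_sum (f := fun i' => ∑ j', C i' j')
          (fun i' _ => Finset.sum_nonneg fun j' _ => hC0 i' j') (Finset.mem_univ i)

end FL27
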