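import Pool.Agent.LibFL27.PDefs
import Pool.Agent.LibFL27.CR0

set_option autoImplicit false
set_option maxSynthPendingDepth 3

open Matrix MeasureTheory Topology Filter LibNC38
open LibNC27 hiding Mt
open scoped Matrix.Norms.Elementwise ContDiff

namespace FL27

private theorem P5_det {n : ℕ} (x : Mt n) (hx : x.trace = 0) :
    HasDerivAt (fun s : ℝ => (1 + s • x : Mt n).det) 0 0 := by
  have h1 : (fun s : ℝ => (1 + s • x : Mt n).det) = fun s : ℝ => 1 + x.trace * s +
      (Matrix.det (1 + (Polynomial.X : Polynomial ℝ) • x.map Polynomial.C)).divX.divX.eval s * s ^ 2 := by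
    funext s
    exact Matrix.det_one_add_smul s x
  rw [h1, hx]
  set q := (Matrix.det (1 + (Polynomial.X : Polynomial ℝ) • x.map Polynomial.C)).divX.divX
  have h2 : HasDerivAt (fun s : ℝ => 1 + 0 * s + q.eval s * s ^ 2)
      (0 * 1 + (q.derivative.eval 0 * 0 ^ 2 + q.eval 0 * (((2 : ℕ) : ℝ) * 0 ^ (2 - 1)))) 0 :=
    (((hasDerivAt_id (0 : ℝ)).const_mul (0 : ℝ)).const_add 1).add
      ((q.hasDerivAt 0).mul (hasDerivAt_pow 2 (0 : ℝ)))
  simpa using h2

private theorem P5_curve {n : ℕ} (g : SL n) (x : Mt n) (hx : x.trace = 0) :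
    ∃ c : ℝ → SL n, c 0 = g ∧ ∀ a b, HasDerivAt (fun s => (c s).1 a b) ((g.1 * x) a b) 0 := by
  classical
  rcases isEmpty_or_nonempty (Fin n) with hn | ⟨⟨i0⟩⟩
  · exact ⟨fun _ => g, rfl, fun a => (hn.false a).elim⟩
  set d : ℝ → ℝ := fun s => (1 + s • x : Mt n).det with hd
  have hd0 : d 0 = 1 := by simp [hd]
  have hdd : HasDerivAt d 0 0 := P5_det x hx
  let m : ℝ → Mt n := fun s => (1 + s • x : Mt n).updateRow i0 ((d s)⁻¹ • (1 + s • x : Mt n) i0)
  have hm : ∀ s, d s ≠ 0 → (m s).det = 1 := by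
    intro s hs
    show ((1 + s • x : Mt n).updateRow i0 ((d s)⁻¹ • (1 + s • x : Mt n) i0)).det = 1
    rw [Matrix.det_updateRow_smul, Matrix.updateRow_eq_self]
    exact inv_mul_cancel₀ hs
  have hm0 : m 0 = 1 := by
    show (1 + (0 : ℝ) • x : Mt n).updateRow i0 ((d 0)⁻¹ • (1 + (0 : ℝ) • x : Mt n) i0) = 1
    rw [hd0, inv_one, one_smul, Matrix.updateRow_eq_self, zero_smul, add_zero]
  let c : ℝ → SL n := fun s => if h : d s ≠ 0 then g * ⟨m s, hm s h⟩ else g
  have hc0 : c 0 = g := by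
    show (if h : d 0 ≠ 0 then g * ⟨m 0, hm 0 h⟩ else g) = g
    rw [dif_pos (by rw [hd0]; exact one_ne_zero)]
    apply Subtype.ext
    show g.1 * m 0 = g.1
    rw [hm0, mul_one]
  refine ⟨c, hc0, ?_⟩
  intro a b
  have hev : ∀ᶠ s in 𝓝 (0 : ℝ), d s ≠ 0 :=
    hdd.continuousAt.eventually_ne (by rw [hd0]; exact one_ne_zero)
  have hmd : ∀ k, HasDerivAt (fun s => m s k b) (x k b) 0 := by
    intro k
    have h1 : ∀ k' : Fin n, HasDerivAt (fun s : ℝ => (1 + s • x : Mt n) k' b) (x k' b) 0 := by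
      intro k'
      have h2 : HasDerivAt (fun s : ℝ => (1 : Mt n) k' b + s * x k' b) (1 * x k' b) 0 :=
        ((hasDerivAt_id (0 : ℝ)).mul_const (x k' b)).const_add _
      rw [one_mul] at h2
      exact h2
    by_cases hk : k = i0
    · subst hk
      have h3 : HasDerivAt (fun s : ℝ => (d s)⁻¹ * (1 + s • x : Mt n) k b)
          ((-0 / (d 0) ^ 2) * (1 + (0 : ℝ) • x : Mt n) k b + (d 0)⁻¹ * x k b) 0 :=
        (hdd.inv (by rw [hd0]; exact one_ne_zero)).mul (h1 k)
      have h4 : ((-0 / (d 0) ^ 2) * (1 + (0 : ℝ) • x : Mt n) k b + (d 0)⁻¹ * x k b) = x k b := by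
        rw [hd0]; simp
      rw [h4] at h3
      have h5 : (fun s => m s k b) = fun s : ℝ => (d s)⁻¹ * (1 + s • x : Mt n) k b := by
        funext s
        show ((1 + s • x : Mt n).updateRow k ((d s)⁻¹ • (1 + s • x : Mt n) k)) k b = _
        rw [Matrix.updateRow_self]
        rfl
      rw [h5]
      exact h3
    · have h5 : (fun s => m s k b) = fun s : ℝ => (1 + s • x : Mt n) k b := by
        funext s
        show ((1 + s • x : Mt n).updateRow i0 ((d s)⁻¹ • (1 + s • x : Mt n) i0)) k b = _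
        rw [Matrix.updateRow_ne hk]
      rw [h5]
      exact h1 k
  have h6 : HasDerivAt (fun s => ∑ k, g.1 a k * m s k b) (∑ k, g.1 a k * x k b) 0 :=
    HasDerivAt.fun_sum (fun k _ => (hmd k).const_mul (g.1 a k))
  have h7 : (g.1 * x) a b = ∑ k, g.1 a k * x k b := Matrix.mul_apply
  rw [h7]
  refine h6.congr_of_eventuallyEq ?_
  filter_upwards [hev] with s hs
  show (if h : d s ≠ 0 then g * ⟨m s, hm s h⟩ else g).1 a b = _
  rw [dif_pos hs]
  show (g.1 * m s) a b = _
  exact Matrix.mul_apply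

private theorem P5_mono {n : ℕ} (k : ℕ) : ∀ (M M' : ℝ) (F : Fn n), M ≤ M' → BD k M F →
    BD k M' F := by
  induction k with
  | zero =>
    intro M M' F h hF
    exact ⟨hF.1, fun g => (hF.2 g).trans h⟩
  | succ k ih =>
    intro M M' F h hF
    refine ⟨⟨hF.1.1, fun g => (hF.1.2 g).trans h⟩, fun x hx hx1 => ?_⟩
    obtain ⟨F', h1, h2⟩ := hF.2 x hx hx1
    exact ⟨F', h1, ih M M' F' h h2⟩

private theorem P5_mat {n : ℕ} {c : ℝ → Mt n} {y : Mt n} {t : ℝ}
    (h : ∀ a b, HasDerivAt (fun u => c u a b) (y a b) t) : HasDerivAt c y t := by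
  have h1 : HasDerivAt (fun u => fun a b => c u a b) (fun a b => y a b) t := by
    rw [hasDerivAt_pi]
    intro a
    rw [hasDerivAt_pi]
    intro b
    exact h a b
  exact h1

private theorem P5_key {n : ℕ} (F : Fn n) (f : SL n → Mt n → ℝ) (U : SL n → Set (Mt n))
    (hU : ∀ q, IsOpen (U q) ∧ (1 : Mt n) ∈ U q ∧ ContDiffOn ℝ ∞ (f q) (U q))
    (hF : ∀ q g : SL n, g.1 ∈ U q → F (q * g) = f q g.1) (q g : SL n) (hg : g.1 ∈ U q)
    (c : ℝ → SL n) (x : Mt n) (hc0 : c 0 = q * g)
    (hc : ∀ a b, HasDerivAt (fun s => (c s).1 a b) (((c 0).1 * x) a b) 0) :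
    HasDerivAt (fun s => F (c s)) (fderiv ℝ (f q) g.1 (g.1 * x)) 0 := by
  have h1 : HasDerivAt (fun s => (c s).1) ((c 0).1 * x) 0 := P5_mat hc
  have h2 : HasDerivAt (fun s => q⁻¹.1 * (c s).1) (q⁻¹.1 * ((c 0).1 * x)) 0 :=
    (LinearMap.toContinuousLinearMap (LinearMap.mulLeft ℝ q⁻¹.1)).hasFDerivAt.comp_hasDerivAt 0 h1
  have e0 : q⁻¹.1 * (c 0).1 = g.1 := by
    rw [hc0]
    show (q⁻¹ * (q * g)).1 = g.1
    rw [inv_mul_cancel_left]
  have e1 : q⁻¹.1 * ((c 0).1 * x) = g.1 * x := by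
    rw [← Matrix.mul_assoc, e0]
  rw [e1] at h2
  obtain ⟨hUo, -, hUs⟩ := hU q
  have h3 : DifferentiableAt ℝ (f q) (q⁻¹.1 * (c 0).1) := by
    rw [e0]
    exact (hUs.contDiffAt (hUo.mem_nhds hg)).differentiableAt (by simp)
  have h4 : HasDerivAt (fun s => f q (q⁻¹.1 * (c s).1)) (fderiv ℝ (f q) (q⁻¹.1 * (c 0).1) (g.1 * x)) 0 :=
    h3.hasFDerivAt.comp_hasDerivAt 0 h2
  rw [e0] at h4
  refine h4.congr_of_eventuallyEq ?_
  have h5 : ∀ᶠ s in 𝓝 (0 : ℝ), q⁻¹.1 * (c s).1 ∈ U q :=
    h2.continuousAt.eventually_mem (by rw [e0]; exact hUo.mem_nhds hg)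
  filter_upwards [h5] with s hs
  have h6 := hF q (q⁻¹ * c s) hs
  rw [mul_inv_cancel_left] at h6
  exact h6

private theorem P5_cont {n : ℕ} (F : Fn n) (f : SL n → Mt n → ℝ) (U : SL n → Set (Mt n))
    (hU : ∀ q, IsOpen (U q) ∧ (1 : Mt n) ∈ U q ∧ ContDiffOn ℝ ∞ (f q) (U q))
    (hF : ∀ q g : SL n, g.1 ∈ U q → F (q * g) = f q g.1) : Continuous F := by
  rw [continuous_iff_continuousAt]
  intro q
  obtain ⟨hUo, hU1, hUs⟩ := hU q
  have h1 : Continuous fun g : SL n => (q⁻¹ * g).1 :=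
    continuous_subtype_val.comp (continuous_const.mul continuous_id)
  have e0 : (q⁻¹ * q).1 = (1 : Mt n) := by
    rw [inv_mul_cancel]
    rfl
  have h2 : ContinuousAt (f q) (q⁻¹ * q).1 := by
    rw [e0]
    exact hUs.continuousOn.continuousAt (hUo.mem_nhds hU1)
  have h3 : ContinuousAt (fun g : SL n => f q (q⁻¹ * g).1) q :=
    ContinuousAt.comp (f := fun g : SL n => (q⁻¹ * g).1) h2 h1.continuousAt
  refine h3.congr ?_
  have h4 : ∀ᶠ g in 𝓝 q, (q⁻¹ * g).1 ∈ U q :=
    h1.continuousAt.eventually_mem (by rw [e0]; exact hUo.mem_nhds hU1)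
  filter_upwards [h4] with g hg
  have h6 := hF q (q⁻¹ * g) hg
  rw [mul_inv_cancel_left] at h6
  exact h6.symm

private theorem P5_sm {E : Type} [NormedAddCommGroup E] [NormedSpace ℝ E]
    {Ω : Set E} (hΩ : IsOpen Ω) {f : E → ℝ} (hf : ContDiffOn ℝ ∞ f Ω) (v : E → E)
    (hv : ContDiffOn ℝ ∞ v Ω) : ContDiffOn ℝ ∞ (fun y => fderiv ℝ f y (v y)) Ω :=
  (hf.fderiv_of_isOpen hΩ (by simp)).clm_apply hv

private theorem P5_zero {E J : Type} [NormedAddCommGroup E] [NormedSpace ℝ E] [Fintype J]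
    (b : Module.Basis J ℝ E) (x : E) (k : ℕ) : NS38.JB b k 0 (fun _ => (0 : ℝ)) x := by
  induction k with
  | zero =>
    show |(0 : ℝ)| ≤ 0
    rw [abs_zero]
  | succ k ih =>
    refine ⟨by rw [abs_zero], fun i => ?_⟩
    have e : (fun y : E => fderiv ℝ (fun _ : E => (0 : ℝ)) y (b i)) = fun _ => 0 := by
      funext y
      rw [fderiv_fun_const]
      rfl
    rw [e]
    exact ih

private theorem P5_sum {E J I : Type} [NormedAddCommGroup E] [NormedSpace ℝ E] [Fintype J]
    (b : Module.Basis J ℝ E) {Ω : Set E} (hΩ : IsOpen Ω) (x : E) (hx : x ∈ Ω) (k : ℕ) (s : Finset I)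
    (N : I → ℝ) (g : I → E → ℝ) (hg : ∀ i, ContDiffOn ℝ ∞ (g i) Ω)
    (h : ∀ i, NS38.JB b k (N i) (g i) x) :
    NS38.JB b k (∑ i ∈ s, N i) (fun y => ∑ i ∈ s, g i y) x := by
  classical
  induction s using Finset.induction_on with
  | empty =>
    simp only [Finset.sum_empty]
    exact P5_zero b x k
  | insert i s hi ih =>
    simp only [Finset.sum_insert hi]
    exact (NS38.jb_facts b hΩ x hx).2.2.1 k _ _ (g i) (fun y => ∑ i ∈ s, g i y) (hg i)
      (ContDiffOn.sum fun i _ => hg i) (h i) ih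

/-- Row P5. From jets at `1` of all left translates to word derivatives. PLAN. Induction on `k` for all `F, f`:
`F' q = D (f q) (1) x`, represented by `f' q A = D (f q) (A) (A * x) = ∑ l, D_l (f q) (A) * b.repr (A * x) l`
(`F (q * g * g') = f q (g * g').1` for `g` in `U q` and `g'` near `1`); `RD x F F'`: for a curve `c`, `q = c 0`,
`F (c s) = f q (q⁻¹ * c s).1`, chain rule; `jb_facts` (product with the linear functions `b.repr (A * x) l`,
uniformly for `x` in the box). Continuity of `F` from `f q`. -/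
theorem jb_bd {n : ℕ} {J : Type} [Fintype J] (b : Module.Basis J ℝ (Mt n)) (k : ℕ) :
    ∃ K : ℝ, 0 ≤ K ∧ ∀ (F : Fn n) (M : ℝ) (f : SL n → Mt n → ℝ) (U : SL n → Set (Mt n)), 0 ≤ M →
      (∀ q, IsOpen (U q) ∧ (1 : Mt n) ∈ U q ∧ ContDiffOn ℝ ∞ (f q) (U q)) →
      (∀ q g : SL n, g.1 ∈ U q → F (q * g) = f q g.1) → (∀ q, NS38.JB b k M (f q) 1) →
      BD k (K * M) F := by
  classical
  have h1v : (1 : SL n).1 = (1 : Mt n) := rfl
  induction k with
  | zero =>
    refine ⟨1, zero_le_one, fun F M f U hM hU hF hJ => ⟨P5_cont F f U hU hF, fun g => ?_⟩⟩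
    have h1 := hF g 1 (hU g).2.1
    rw [mul_one] at h1
    rw [h1, one_mul]
    exact hJ g
  | succ k ih =>
    obtain ⟨K, hK, ih⟩ := ih
    let φ : J × Fin n × Fin n → Mt n →ₗ[ℝ] ℝ := fun p =>
      (b.coord p.1).comp (LinearMap.mulRight ℝ (Matrix.single p.2.1 p.2.2 (1 : ℝ)))
    have hφ : ∀ p A, φ p A = b.repr (A * Matrix.single p.2.1 p.2.2 (1 : ℝ)) p.1 := fun p A => rfl
    have hφs : ∀ p, ContDiff ℝ ∞ fun A => φ p A := fun p =>
      (LinearMap.toContinuousLinearMap (φ p)).contDiff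
    choose m hm0 hm using fun p : J × Fin n × Fin n =>
      (NS38.jb_facts b isOpen_univ (1 : Mt n) (Set.mem_univ _)).2.2.2.2.2.2 k (fun A => φ p A)
        (hφs p).contDiffOn
    obtain ⟨S, hS⟩ : ∃ S : ℝ, S = ∑ p, 2 ^ k * m p := ⟨_, rfl⟩
    have hS0 : 0 ≤ S := by
      rw [hS]
      exact Finset.sum_nonneg fun p _ => mul_nonneg (by positivity) (hm0 p)
    refine ⟨1 + K * S, by positivity, fun F M f U hM hU hF hJ => ?_⟩
    have hKM : 0 ≤ K * S * M := by positivity
    refine ⟨⟨P5_cont F f U hU hF, fun g => ?_⟩, fun x hx hx1 => ?_⟩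
    · have h1 := hF g 1 (hU g).2.1
      rw [mul_one] at h1
      rw [h1]
      have h2 : |f g 1| ≤ M := (hJ g).1
      have h3 : |f g (1 : SL n).1| ≤ M := h2
      linarith
    · refine ⟨fun q => fderiv ℝ (f q) 1 x, fun c hc => ?_, ?_⟩
      · have h1 := P5_key F f U hU hF (c 0) 1 (hU (c 0)).2.1 c x (mul_one _).symm hc
        rw [h1v, one_mul] at h1
        exact h1
      · have h2 := ih (fun q => fderiv ℝ (f q) 1 x) (S * M) (fun q A => fderiv ℝ (f q) A (A * x)) U
          (by positivity) (fun q => ⟨(hU q).1, (hU q).2.1, ?_⟩) (fun q g hg => ?_) (fun q => ?_)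
        · refine P5_mono k _ _ _ ?_ h2
          have e : K * (S * M) = K * S * M := by ring
          rw [e]
          linarith
        · exact P5_sm (hU q).1 (hU q).2.2 (fun A => A * x)
            (LinearMap.toContinuousLinearMap (LinearMap.mulRight ℝ x)).contDiff.contDiffOn
        · obtain ⟨c, hc0, hc⟩ := P5_curve (q * g) x hx
          have hc' : ∀ a b, HasDerivAt (fun s => (c s).1 a b) (((c 0).1 * x) a b) 0 := by
            rw [hc0]
            exact hc
          have d1 := P5_key F f U hU hF q g hg c x hc0 hc'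
          have d2 := P5_key F f U hU hF (q * g) 1 (hU (q * g)).2.1 c x (by rw [hc0, mul_one]) hc'
          rw [h1v, one_mul] at d2
          exact d2.unique d1
        · obtain ⟨hUo, hU1, hUs⟩ := hU q
          have hterm : ∀ A : Mt n, ∑ p : J × Fin n × Fin n,
              x p.2.1 p.2.2 * (fderiv ℝ (f q) A (b p.1) * φ p A) = fderiv ℝ (f q) A (A * x) := by
            intro A
            have e1 : x = ∑ a, ∑ c, x a c • Matrix.single a c (1 : ℝ) := by
              conv_lhs => rw [Matrix.matrix_eq_sum_single x]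
              refine Finset.sum_congr rfl fun a _ => Finset.sum_congr rfl fun c _ => ?_
              rw [Matrix.smul_single, smul_eq_mul, mul_one]
            have e2 : ∀ l : J, b.repr (A * x) l = ∑ a, ∑ c, x a c * φ (l, a, c) A := by
              intro l
              conv_lhs => rw [e1]
              rw [Finset.mul_sum]
              simp only [Finset.mul_sum, Matrix.mul_smul, map_sum, map_smul, Finsupp.coe_finset_sum,
                Finset.sum_apply, Finsupp.smul_apply, smul_eq_mul]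
              rfl
            have e3 : A * x = ∑ l, b.repr (A * x) l • b l := (b.sum_repr (A * x)).symm
            rw [e3, map_sum, Fintype.sum_prod_type]
            refine Finset.sum_congr rfl fun l _ => ?_
            rw [Fintype.sum_prod_type, map_smul, smul_eq_mul]
            have e4 : b.repr (∑ l, b.repr (A * x) l • b l) l = b.repr (A * x) l := by rw [← e3]
            rw [e2 l, Finset.sum_mul]
            refine Finset.sum_congr rfl fun a _ => ?_
            rw [Finset.sum_mul]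
            refine Finset.sum_congr rfl fun c _ => ?_
            ring
          have hfs : ∀ p : J × Fin n × Fin n, ContDiffOn ℝ ∞ (fun A => fderiv ℝ (f q) A (b p.1))
              (U q) := fun p => P5_sm hUo hUs (fun _ => b p.1) contDiffOn_const
          obtain ⟨j1, -, -, j4, j5, j6, -⟩ := NS38.jb_facts b hUo (1 : Mt n) hU1
          have hJp : ∀ p : J × Fin n × Fin n, NS38.JB b k (2 ^ k * (M * m p))
              (fun A => x p.2.1 p.2.2 * (fderiv ℝ (f q) A (b p.1) * φ p A)) 1 := by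
            intro p
            have i1 := j4 k M (m p) (fun A => fderiv ℝ (f q) A (b p.1)) (fun A => φ p A) hM (hm0 p)
              (hfs p) (hφs p).contDiffOn ((hJ q).2 p.1) (hm p)
            have i2 := j5 k _ (x p.2.1 p.2.2) (fun A => fderiv ℝ (f q) A (b p.1) * φ p A)
              ((hfs p).mul (hφs p).contDiffOn) i1
            refine j1 k _ _ _ ?_ i2
            exact mul_le_of_le_one_left (mul_nonneg (by positivity) (mul_nonneg hM (hm0 p)))
              (hx1 _ _)
          have hsum := P5_sum b hUo (1 : Mt n) hU1 k Finset.univ (fun p => 2 ^ k * (M * m p))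
            (fun p A => x p.2.1 p.2.2 * (fderiv ℝ (f q) A (b p.1) * φ p A))
            (fun p => contDiffOn_const.mul ((hfs p).mul (hφs p).contDiffOn)) hJp
          have e5 : ∑ p, 2 ^ k * (M * m p) = S * M := by
            rw [hS, Finset.sum_mul]
            refine Finset.sum_congr rfl fun p _ => ?_
            ring
          rw [e5] at hsum
          exact j6 k _ _ _ (fun A _ => hterm A) hsum

end FL27
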