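import Pool.Agent.LibFL27.P5
import Pool.Agent.LibFL27.P1
import Pool.Agent.LibFL27.P4

set_option autoImplicit false
set_option maxSynthPendingDepth 3

open Matrix MeasureTheory Topology Filter LibNC38
open LibNC27 hiding Mt
open scoped Matrix.Norms.Elementwise ContDiff

namespace FL27

private theorem P6_zero {E J : Type} [NormedAddCommGroup E] [NormedSpace ℝ E] [Fintype J]
    (b : Module.Basis J ℝ E) (k : ℕ) (x : E) : NS38.JB b k 0 (fun _ => (0 : ℝ)) x := by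
  induction k with
  | zero =>
    show |(0 : ℝ)| ≤ 0
    rw [abs_zero]
  | succ k ih =>
    refine ⟨by rw [abs_zero], fun i => ?_⟩
    have h1 : (fun y : E => fderiv ℝ (fun _ : E => (0 : ℝ)) y (b i)) = fun _ => (0 : ℝ) := by
      funext y
      rw [fderiv_fun_const]
      rfl
    rw [h1]
    exact ih

private theorem P6_sum {E J : Type} [NormedAddCommGroup E] [NormedSpace ℝ E] [Fintype J]
    (b : Module.Basis J ℝ E) {Ω : Set E} (hΩ : IsOpen Ω) (x : E) (hx : x ∈ Ω) (k : ℕ)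
    {I : Type} (s : Finset I) (M : I → ℝ) (f : I → E → ℝ)
    (hf : ∀ i ∈ s, ContDiffOn ℝ ∞ (f i) Ω) (hM : ∀ i ∈ s, NS38.JB b k (M i) (f i) x) :
    NS38.JB b k (∑ i ∈ s, M i) (fun y => ∑ i ∈ s, f i y) x := by
  classical
  induction s using Finset.induction_on with
  | empty =>
    simp only [Finset.sum_empty]
    exact P6_zero b k x
  | insert a s ha ih =>
    have h1 := ih (fun i hi => hf i (Finset.mem_insert_of_mem hi))
      (fun i hi => hM i (Finset.mem_insert_of_mem hi))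
    have h2 := hM a (Finset.mem_insert_self a s)
    have h3 : ContDiffOn ℝ ∞ (fun y => ∑ i ∈ s, f i y) Ω :=
      ContDiffOn.sum fun i hi => hf i (Finset.mem_insert_of_mem hi)
    have h4 := (NS38.jb_facts b hΩ x hx).2.2.1 k (M a) (∑ i ∈ s, M i) (f a)
      (fun y => ∑ i ∈ s, f i y) (hf a (Finset.mem_insert_self a s)) h3 h2 h1
    rw [Finset.sum_insert ha]
    simp only [Finset.sum_insert ha]
    exact h4

/-- the coefficients are smooth -/
private theorem P6_smooth {n : ℕ} (κ : PD n → Fm n) (hκ : CmF ∞ κ) (v w : Mt n) :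
    ContDiffOn ℝ ∞ (fun A : Mt n => Kc κ v w A) (PU n) := by
  obtain ⟨U, K, hU, hK, hs⟩ := hκ
  have hF : ContDiffOn ℝ ∞ (fun A : Mt n => (ret A).1) (PU n) := ret_smooth
  have hd : ∀ v : Mt n, ContDiffOn ℝ ∞
      (fun A : Mt n => fderiv ℝ (fun B : Mt n => (ret B).1) A v) (PU n) := by
    intro v
    have h2 := hF.fderiv_of_isOpen (m := ∞) PU_open (by simp)
    exact h2.clm_apply contDiffOn_const
  have hb : ∀ a b : Mt n, ContDiffOn ℝ ∞ (fun A : Mt n => κ (ret A) a b) (PU n) := by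
    intro a b
    have h7 : ContDiffOn ℝ ∞ (fun A : Mt n => K (ret A).1 a b) (PU n) :=
      (hs a b).comp hF fun A _ => (hK _).1
    refine h7.congr fun A _ => ?_
    show κ (ret A) a b = K (ret A).1 a b
    rw [(hK _).2]
  exact cd_bil (K := fun A : Mt n => κ (ret A)) hb (hd v) (hd w)

/-- the coefficients are bilinear -/
private theorem P6_bil {n : ℕ} {J : Type} [Fintype J] (b : Module.Basis J ℝ (Mt n))
    (κ : PD n → Fm n) (v w A : Mt n) :
    Kc κ v w A = ∑ i, ∑ j, b.repr v i * b.repr w j * Kc κ (b i) (b j) A := by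
  have hv : v = ∑ i, b.repr v i • b i := (b.sum_repr v).symm
  have hw : w = ∑ j, b.repr w j • b j := (b.sum_repr w).symm
  have e1 : ∀ v' : Mt n, Kc κ v' w A = ∑ j, b.repr w j * Kc κ v' (b j) A := by
    intro v'
    unfold Kc
    conv_lhs => rw [hw]
    simp only [map_sum, map_smul, smul_eq_mul]
  have e2 : Kc κ v w A = ∑ i, b.repr v i * Kc κ (b i) w A := by
    unfold Kc
    conv_lhs => rw [hv]
    simp only [map_sum, map_smul, smul_eq_mul, LinearMap.sum_apply, LinearMap.smul_apply]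
  rw [e2]
  refine Finset.sum_congr rfl fun i _ => ?_
  rw [e1, Finset.mul_sum]
  refine Finset.sum_congr rfl fun j _ => ?_
  ring

/-- coordinates of `A E_ab Aᵀ` -/
private noncomputable def P6_r {n : ℕ} {J : Type} [Fintype J] (b : Module.Basis J ℝ (Mt n))
    (c : Fin n × Fin n) (i : J) (A : Mt n) : ℝ :=
  b.repr (A * Matrix.single c.1 c.2 (1 : ℝ) * Aᵀ) i

private theorem P6_coord {n : ℕ} {J : Type} [Fintype J] (b : Module.Basis J ℝ (Mt n)) (i : J)
    {f : Mt n → Mt n} {S : Set (Mt n)} (hf : ContDiffOn ℝ ∞ f S) :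
    ContDiffOn ℝ ∞ (fun A => b.repr (f A) i) S := by
  exact cd_lin (η := fun _ : Mt n => b.coord i) (fun w => contDiffOn_const) hf

private theorem P6_rs {n : ℕ} {J : Type} [Fintype J] (b : Module.Basis J ℝ (Mt n))
    (c : Fin n × Fin n) (i : J) (S : Set (Mt n)) : ContDiffOn ℝ ∞ (P6_r b c i) S :=
  P6_coord b i (cd_mul (cd_mul contDiffOn_id contDiffOn_const) (cd_transpose contDiffOn_id))

private theorem P6_rexp {n : ℕ} {J : Type} [Fintype J] (b : Module.Basis J ℝ (Mt n))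
    (v A : Mt n) (i : J) :
    b.repr (A * v * Aᵀ) i = ∑ c : Fin n × Fin n, v c.1 c.2 * P6_r b c i A := by
  have h1 : v = ∑ c : Fin n × Fin n, v c.1 c.2 • Matrix.single c.1 c.2 (1 : ℝ) := by
    rw [Fintype.sum_prod_type]
    conv_lhs => rw [Matrix.matrix_eq_sum_single v]
    refine Finset.sum_congr rfl fun i _ => Finset.sum_congr rfl fun j _ => ?_
    rw [Matrix.smul_single, smul_eq_mul, mul_one]
  have h2 : b.coord i (A * v * Aᵀ) = ∑ c : Fin n × Fin n, v c.1 c.2 *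
      b.coord i (A * Matrix.single c.1 c.2 (1 : ℝ) * Aᵀ) := by
    conv_lhs => rw [h1]
    simp only [Matrix.mul_sum, Matrix.sum_mul, Matrix.mul_smul, Matrix.smul_mul, map_sum,
      map_smul, smul_eq_mul]
  exact h2

/-- Row P6. From the jets at `1` of the translates of a form to `TB`. PLAN. `jb_bd` with
`f q A = Kc (trq q κ) (A v Aᵀ) (A w Aᵀ) (A Aᵀ)` (`Jf κ v w (q * g) = Jf (trq q κ) v w g`; `D ret(p)` is the identity on
tangent vectors at `p ∈ PD n`), expanded in the basis; `jb_comp` for `A ↦ A Aᵀ`. -/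
theorem jb_tb {n : ℕ} (hn : 1 ≤ n) {J : Type} [Fintype J] (b : Module.Basis J ℝ (Mt n)) (k : ℕ) :
    ∃ K : ℝ, 0 ≤ K ∧ ∀ (κ : PD n → Fm n) (M : ℝ), 0 ≤ M → CmF ∞ κ →
      (∀ q i j, NS38.JB b k M (fun A => Kc (trq q κ) (b i) (b j) A) 1) → TB k (K * M) κ := by
  classical
  obtain ⟨K0, hK0, hbd⟩ := jb_bd (n := n) b k
  -- the domain
  set Ω : Set (Mt n) := {A : Mt n | A * Aᵀ ∈ PU n} with hΩd
  have hsq : ∀ S : Set (Mt n), ContDiffOn ℝ ∞ (fun A : Mt n => A * Aᵀ) S := fun S =>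
    cd_mul contDiffOn_id (cd_transpose contDiffOn_id)
  have hΩ : IsOpen Ω := by
    have h1 : Continuous (fun A : Mt n => A * Aᵀ) := by fun_prop
    exact PU_open.preimage h1
  have h11 : (1 : Mt n) * (1 : Mt n)ᵀ = 1 := by rw [Matrix.transpose_one, Matrix.mul_one]
  have h1Ω : (1 : Mt n) ∈ Ω := by
    show (1 : Mt n) * (1 : Mt n)ᵀ ∈ PU n
    rw [h11]
    exact mem_PU (o n)
  have hF := NS38.jb_facts b hΩ (1 : Mt n) h1Ω
  -- jets of `A Aᵀ`
  have hB : ∃ B : ℝ, ∀ l, NS38.JB b k B (fun A : Mt n => b.repr (A * Aᵀ) l) 1 := by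
    choose m hm0 hm using fun l : J => hF.2.2.2.2.2.2 k (fun A : Mt n => b.repr (A * Aᵀ) l)
      (P6_coord b l (hsq Ω))
    exact ⟨∑ l, m l, fun l => hF.1 k (m l) _ _
      (Finset.single_le_sum (f := m) (fun j _ => hm0 j) (Finset.mem_univ l)) (hm l)⟩
  obtain ⟨B, hB⟩ := hB
  obtain ⟨K1, hK1, hcomp⟩ := NS38.jb_comp b k B
  -- jets of the products of the coordinates
  let I : Type := (J × J) × ((Fin n × Fin n) × (Fin n × Fin n))
  let ρ : I → Mt n → ℝ := fun x A => P6_r b x.2.1 x.1.1 A * P6_r b x.2.2 x.1.2 A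
  have hρ : ∀ x, ContDiffOn ℝ ∞ (ρ x) Ω := fun x =>
    (P6_rs b x.2.1 x.1.1 Ω).mul (P6_rs b x.2.2 x.1.2 Ω)
  choose R hR0 hR using fun x : I => hF.2.2.2.2.2.2 k (ρ x) (hρ x)
  set K2 : ℝ := ∑ x : I, 2 ^ k * (R x * K1) with hK2
  have hK20 : 0 ≤ K2 := Finset.sum_nonneg fun x _ => by
    have := hR0 x
    positivity
  refine ⟨K0 * K2, mul_nonneg hK0 hK20, ?_⟩
  intro κ M hM hκ hJ v w hv hw hv1 hw1
  have hKM : 0 ≤ K2 * M := mul_nonneg hK20 hM
  rw [mul_assoc]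
  have hsm : ∀ q : SL n, ∀ i j, ContDiffOn ℝ ∞ (fun A => Kc (trq q κ) (b i) (b j) A) (PU n) :=
    fun q i j => P6_smooth _ ((trq_facts q κ).2.1 hκ) _ _
  have hsmG : ∀ q : SL n, ∀ i j,
      ContDiffOn ℝ ∞ (fun A => Kc (trq q κ) (b i) (b j) (A * Aᵀ)) Ω := by
    intro q i j
    exact (hsm q i j).comp (hsq Ω) fun A hA => hA
  have hjG : ∀ q : SL n, ∀ i j,
      NS38.JB b k (K1 * M) (fun A => Kc (trq q κ) (b i) (b j) (A * Aᵀ)) 1 := by
    intro q i j
    refine hcomp (PU n) Ω PU_open hΩ 1 h1Ω (fun A : Mt n => A * Aᵀ) (hsq Ω) (fun A hA => hA) hB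
      (fun A => Kc (trq q κ) (b i) (b j) A) M (hsm q i j) hM ?_
    show NS38.JB b k M (fun A => Kc (trq q κ) (b i) (b j) A) ((1 : Mt n) * (1 : Mt n)ᵀ)
    rw [h11]
    exact hJ q i j
  -- the functions
  let f : SL n → Mt n → ℝ := fun q A => ∑ x : I, (v x.2.1.1 x.2.1.2 * w x.2.2.1 x.2.2.2) *
    (ρ x A * Kc (trq q κ) (b x.1.1) (b x.1.2) (A * Aᵀ))
  have hfs : ∀ q, ContDiffOn ℝ ∞ (f q) Ω := fun q =>
    ContDiffOn.sum fun x _ => contDiffOn_const.mul ((hρ x).mul (hsmG q x.1.1 x.1.2))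
  have hfe : ∀ (q : SL n) (A : Mt n),
      f q A = Kc (trq q κ) (A * v * Aᵀ) (A * w * Aᵀ) (A * Aᵀ) := by
    intro q A
    rw [P6_bil b]
    show ∑ x : (J × J) × ((Fin n × Fin n) × (Fin n × Fin n)), _ = _
    rw [Fintype.sum_prod_type, Fintype.sum_prod_type]
    refine Finset.sum_congr rfl fun i _ => Finset.sum_congr rfl fun j _ => ?_
    rw [P6_rexp, P6_rexp, Fintype.sum_prod_type, Finset.sum_mul_sum, Finset.sum_mul]
    refine Finset.sum_congr rfl fun c _ => ?_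
    rw [Finset.sum_mul]
    refine Finset.sum_congr rfl fun d _ => ?_
    show v c.1 c.2 * w d.1 d.2 * (P6_r b c i A * P6_r b d j A * _) = _
    ring
  refine hbd (Jf κ v w) (K2 * M) f (fun _ => Ω) hKM (fun q => ⟨hΩ, h1Ω, hfs q⟩) ?_ ?_
  · intro q g _
    rw [hfe]
    have hp : (act g (o n)).1 = g.1 * g.1ᵀ := by
      show g.1 * (1 : Mt n) * g.1ᵀ = _
      rw [Matrix.mul_one]
    have ht : ∀ u : Mt n, Sym0 u → IsTan (act g (o n)) (g.1 * u * g.1ᵀ) := by
      intro u hu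
      refine (tan_facts (n := n)).2.1 g (o n) u ⟨hu.1, ?_⟩
      show ((1 : Mt n)⁻¹ * u).trace = 0
      rw [inv_one, Matrix.one_mul]
      exact hu.2
    have hid : ∀ u : Mt n, Sym0 u →
        fderiv ℝ (fun C : Mt n => (ret C).1) (g.1 * g.1ᵀ) (g.1 * u * g.1ᵀ) = g.1 * u * g.1ᵀ := by
      intro u hu
      have h1 := dff_facts.2.2.1.2 (act g (o n)) _ (ht u hu)
      unfold dff at h1
      rw [hp] at h1
      exact h1
    unfold Kc
    rw [hid v hv, hid w hw, ← hp, ret_self]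
    show κ (act (q * g) (o n)) ((q * g).1 * v * (q * g).1ᵀ) ((q * g).1 * w * (q * g).1ᵀ) =
      κ (act q (act g (o n))) (q.1 * (g.1 * v * g.1ᵀ) * q.1ᵀ) (q.1 * (g.1 * w * g.1ᵀ) * q.1ᵀ)
    rw [(act_facts (n := n)).2.1, Matrix.SpecialLinearGroup.coe_mul, Matrix.transpose_mul]
    simp only [Matrix.mul_assoc]
  · intro q
    have hterm : ∀ x : I, NS38.JB b k (2 ^ k * (R x * (K1 * M)))
        (fun A => (v x.2.1.1 x.2.1.2 * w x.2.2.1 x.2.2.2) *
          (ρ x A * Kc (trq q κ) (b x.1.1) (b x.1.2) (A * Aᵀ))) 1 := by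
      intro x
      have h1 := hF.2.2.2.1 k (R x) (K1 * M) (ρ x)
        (fun A => Kc (trq q κ) (b x.1.1) (b x.1.2) (A * Aᵀ)) (hR0 x) (mul_nonneg hK1 hM)
        (hρ x) (hsmG q x.1.1 x.1.2) (hR x) (hjG q x.1.1 x.1.2)
      have h2 := hF.2.2.2.2.1 k _ (v x.2.1.1 x.2.1.2 * w x.2.2.1 x.2.2.2) _
        ((hρ x).mul (hsmG q x.1.1 x.1.2)) h1
      refine hF.1 k _ _ _ ?_ h2
      have h3 : |v x.2.1.1 x.2.1.2 * w x.2.2.1 x.2.2.2| ≤ 1 := by
        rw [abs_mul]
        exact mul_le_one₀ (hv1 _ _) (abs_nonneg _) (hw1 _ _)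
      have h4 : 0 ≤ 2 ^ k * (R x * (K1 * M)) := by
        have := hR0 x
        positivity
      exact mul_le_of_le_one_left h4 h3
    have hsum := P6_sum b hΩ 1 h1Ω k (Finset.univ : Finset I)
      (fun x => 2 ^ k * (R x * (K1 * M))) _
      (fun x _ => contDiffOn_const.mul ((hρ x).mul (hsmG q x.1.1 x.1.2))) (fun x _ => hterm x)
    have hcon : K2 * M = ∑ x : I, 2 ^ k * (R x * (K1 * M)) := by
      rw [hK2, Finset.sum_mul]
      refine Finset.sum_congr rfl fun x _ => ?_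
      ring
    rw [hcon]
    exact hsum

end FL27
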