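import Pool.Agent.LibFL27.PDefs

set_option autoImplicit false
set_option maxSynthPendingDepth 3

open Matrix MeasureTheory Topology Filter LibNC38
open LibNC27 hiding Mt
open scoped Matrix.Norms.Elementwise ContDiff

namespace FL27

private theorem P7_dA {n : ℕ} {f : Mt n → Mt n} (hf : ContDiffOn ℝ ∞ f (PU n)) {A : Mt n}
    (hA : A ∈ PU n) : DifferentiableAt ℝ f A :=
  (hf.differentiableOn (by simp)).differentiableAt (PU_open.mem_nhds hA)

private theorem P7_chainA {n : ℕ} {F L : Mt n → Mt n} {A : Mt n}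
    (hL : DifferentiableAt ℝ L A) (hF : DifferentiableAt ℝ F (L A)) (v : Mt n) :
    fderiv ℝ F (L A) (fderiv ℝ L A v) = fderiv ℝ (fun C => F (L C)) A v := by
  have h := hF.hasFDerivAt.comp A hL.hasFDerivAt
  have h1 : fderiv ℝ (fun C => F (L C)) A = (fderiv ℝ F (L A)).comp (fderiv ℝ L A) := h.fderiv
  rw [h1]
  rfl

/-- the conjugation as a linear map -/
private noncomputable def P7_C {n : ℕ} (q : Mt n) : Mt n →ₗ[ℝ] Mt n where
  toFun := fun A => q * A * qᵀ
  map_add' := by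
    intro A B
    rw [Matrix.mul_add, Matrix.add_mul]
  map_smul' := by
    intro r A
    rw [Matrix.mul_smul, Matrix.smul_mul, RingHom.id_apply]

private theorem P7_conj {n : ℕ} (q : Mt n) {F : Mt n → Mt n} {A : Mt n}
    (hF : DifferentiableAt ℝ F A) (v : Mt n) :
    fderiv ℝ (fun C => q * F C * qᵀ) A v = q * fderiv ℝ F A v * qᵀ := by
  have e3 : HasFDerivAt (fun C : Mt n => q * F C * qᵀ)
      ((LinearMap.toContinuousLinearMap (P7_C q)).comp (fderiv ℝ F A)) A :=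
    (LinearMap.toContinuousLinearMap (P7_C q)).hasFDerivAt.comp A hF.hasFDerivAt
  rw [e3.fderiv]
  rfl

private theorem P7_act {n : ℕ} (g : SL n) (p : PD n) : act g (act g⁻¹ p) = p := by
  rw [← act_facts.2.1, mul_inv_cancel, act_facts.1]

private theorem P7_q {n : ℕ} (q : SL n) (p : PD n) : ret (q.1 * p.1 * q.1ᵀ) = act q p :=
  ret_self (act q p)

private theorem P7_sm {n : ℕ} (φ : PD n → PD n) (hφ : SmX φ) (q : SL n) :
    ContDiffOn ℝ ∞ (fun A : Mt n => (φ (act q (ret A))).1) (PU n) := by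
  have h1 : ContDiffOn ℝ ∞ (fun A : Mt n => q.1 * A * q.1ᵀ) (PU n) :=
    cd_mul (cd_mul contDiffOn_const contDiffOn_id) contDiffOn_const
  have h2 : ContDiffOn ℝ ∞ (fun A : Mt n => (φ (ret (q.1 * A * q.1ᵀ))).1) (PU n) :=
    ContDiffOn.comp (g := fun A : Mt n => (φ (ret A)).1) hφ h1
      (fun A hA => (ret_facts.1 q A hA).1)
  refine h2.congr fun A hA => ?_
  rw [(ret_facts.1 q A hA).2]

/-- Row P7. Pull backs in the coordinates. PLAN. `ret` is equivariant (`ret (q A qᵀ) = act q (ret A)`), chain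
rules; `ret (lft a φ A) = φ (ret A)` (`lft_facts`), so `D ret (f A) (Df v) = D (φ' ∘ ret) (A) v`. -/
theorem kc_pul {n : ℕ} (hn : 1 ≤ n) (φ : PD n → PD n) (hφ : SmX φ) (q g1 : SL n) (a : ℝ)
    (ha : 0 < a) (κ : PD n → Fm n) :
    SmX (fun p => act g1⁻¹ (φ (act q p))) ∧ ∀ A ∈ PU n, ∀ v w,
      Kc (trq q (pul φ κ)) v w A = Kc (trq g1 κ)
        (fderiv ℝ (lft a (fun p => act g1⁻¹ (φ (act q p)))) A v)
        (fderiv ℝ (lft a (fun p => act g1⁻¹ (φ (act q p)))) A w)
        (lft a (fun p => act g1⁻¹ (φ (act q p))) A) := by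
  have hψ : SmX (fun p => act g1⁻¹ (φ (act q p))) := by
    have h1 : ContDiffOn ℝ ∞ (fun A : Mt n => (g1⁻¹).1 * (φ (act q (ret A))).1 * (g1⁻¹).1ᵀ)
        (PU n) := cd_mul (cd_mul contDiffOn_const (P7_sm φ hφ q)) contDiffOn_const
    exact h1
  refine ⟨hψ, ?_⟩
  intro A hA v w
  obtain ⟨lv, -, -, -, lsm⟩ := lft_facts hn
  obtain ⟨hBU, hBr, -, -⟩ := lv a (fun p => act g1⁻¹ (φ (act q p))) A hA
  have hL : DifferentiableAt ℝ (lft a (fun p => act g1⁻¹ (φ (act q p)))) A :=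
    P7_dA (lsm a _ hψ) hA
  have hret : ∀ {C : Mt n}, C ∈ PU n → DifferentiableAt ℝ (fun C : Mt n => (ret C).1) C :=
    fun hC => P7_dA ret_smooth hC
  have hnhds : PU n ∈ 𝓝 A := PU_open.mem_nhds hA
  -- the derivative on the right-hand side
  have k1 : ∀ u : Mt n, g1.1 * (fderiv ℝ (fun C : Mt n => (ret C).1)
      (lft a (fun p => act g1⁻¹ (φ (act q p))) A)
      (fderiv ℝ (lft a (fun p => act g1⁻¹ (φ (act q p)))) A u)) * g1.1ᵀ =
      fderiv ℝ (fun C : Mt n => (φ (act q (ret C))).1) A u := by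
    intro u
    rw [P7_chainA (F := fun C : Mt n => (ret C).1) hL (hret hBU) u]
    have e2 : (fun C : Mt n => (ret (lft a (fun p => act g1⁻¹ (φ (act q p))) C)).1) =ᶠ[𝓝 A]
        fun C : Mt n => (act g1⁻¹ (φ (act q (ret C)))).1 := by
      filter_upwards [hnhds] with C hC
      rw [(lv a (fun p => act g1⁻¹ (φ (act q p))) C hC).2.1]
    rw [e2.fderiv_eq]
    have e3 : DifferentiableAt ℝ (fun C : Mt n => (act g1⁻¹ (φ (act q (ret C)))).1) A :=
      P7_dA hψ hA
    rw [← P7_conj g1.1 e3 u]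
    have e4 : (fun C : Mt n => g1.1 * (act g1⁻¹ (φ (act q (ret C)))).1 * g1.1ᵀ) =
        fun C : Mt n => (φ (act q (ret C))).1 := by
      funext C
      exact congrArg Subtype.val (P7_act g1 (φ (act q (ret C))))
    rw [e4]
  -- the derivative on the left-hand side
  have k2 : ∀ u : Mt n, dff φ (act q (ret A))
      (q.1 * (fderiv ℝ (fun C : Mt n => (ret C).1) A u) * q.1ᵀ) =
      fderiv ℝ (fun C : Mt n => (φ (act q (ret C))).1) A u := by
    intro u
    have hd : DifferentiableAt ℝ (fun C : Mt n => q.1 * (ret C).1 * q.1ᵀ) A :=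
      P7_dA (cd_mul (cd_mul contDiffOn_const ret_smooth) contDiffOn_const) hA
    have hq : DifferentiableAt ℝ (fun D : Mt n => (φ (ret D)).1)
        ((fun C : Mt n => q.1 * (ret C).1 * q.1ᵀ) A) :=
      P7_dA hφ (mem_PU (act q (ret A)))
    have e1 := P7_chainA (F := fun D : Mt n => (φ (ret D)).1)
      (L := fun C : Mt n => q.1 * (ret C).1 * q.1ᵀ) hd hq u
    rw [P7_conj q.1 (hret hA) u] at e1
    have e4 : (fun C : Mt n => (φ (ret (q.1 * (ret C).1 * q.1ᵀ))).1) =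
        fun C : Mt n => (φ (act q (ret C))).1 := by
      funext C
      rw [P7_q]
    rw [e4] at e1
    exact e1
  have e0 : act g1 (ret (lft a (fun p => act g1⁻¹ (φ (act q p))) A)) = φ (act q (ret A)) := by
    rw [hBr]
    exact P7_act g1 (φ (act q (ret A)))
  have lhs : Kc (trq q (pul φ κ)) v w A = κ (φ (act q (ret A)))
      (dff φ (act q (ret A)) (q.1 * (fderiv ℝ (fun C : Mt n => (ret C).1) A v) * q.1ᵀ))
      (dff φ (act q (ret A)) (q.1 * (fderiv ℝ (fun C : Mt n => (ret C).1) A w) * q.1ᵀ)) := rfl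
  rw [lhs, k2 v, k2 w]
  have rhs : Kc (trq g1 κ)
      (fderiv ℝ (lft a (fun p => act g1⁻¹ (φ (act q p)))) A v)
      (fderiv ℝ (lft a (fun p => act g1⁻¹ (φ (act q p)))) A w)
      (lft a (fun p => act g1⁻¹ (φ (act q p))) A) =
      κ (act g1 (ret (lft a (fun p => act g1⁻¹ (φ (act q p))) A)))
        (g1.1 * (fderiv ℝ (fun C : Mt n => (ret C).1)
          (lft a (fun p => act g1⁻¹ (φ (act q p))) A)
          (fderiv ℝ (lft a (fun p => act g1⁻¹ (φ (act q p)))) A v)) * g1.1ᵀ)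
        (g1.1 * (fderiv ℝ (fun C : Mt n => (ret C).1)
          (lft a (fun p => act g1⁻¹ (φ (act q p))) A)
          (fderiv ℝ (lft a (fun p => act g1⁻¹ (φ (act q p)))) A w)) * g1.1ᵀ) := rfl
  rw [rhs, k1 v, k1 w, e0]

end FL27
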