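import Pool.Agent.LibFL27.P1
import Pool.Agent.LibFL27.P3
import Pool.Agent.LibFL27.P4
import Pool.Agent.LibFL27.P6
import Pool.Agent.LibFL27.P7

set_option autoImplicit false
set_option maxSynthPendingDepth 3

open Matrix MeasureTheory Topology Filter LibNC38
open LibNC27 hiding Mt
open scoped Matrix.Norms.Elementwise ContDiff

namespace FL27

private theorem P8_exp {E J : Type} [AddCommGroup E] [Module ℝ E] [Fintype J]
    (b : Module.Basis J ℝ E) (B : E → E → ℝ) (hadd : ∀ u v w, B (u + v) w = B u w + B v w)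
    (hsm : ∀ (r : ℝ) (v w : E), B (r • v) w = r * B v w) (hsy : ∀ v w, B v w = B w v) (v w : E) :
    B v w = ∑ i, ∑ j, b.repr v i * b.repr w j * B (b i) (b j) := by
  let L : E →ₗ[ℝ] E →ₗ[ℝ] ℝ := LinearMap.mk₂ ℝ B hadd (fun r v w => hsm r v w)
    (fun u v w => by rw [hsy, hadd, hsy v u, hsy w u])
    (fun r v w => by rw [hsy, hsm, hsy w v]; rfl)
  have hL : ∀ v w, L v w = B v w := fun v w => rfl
  have e1 : ∀ v w, L v w = ∑ j, b.repr w j * L v (b j) := by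
    intro v w
    conv_lhs => rw [← b.sum_repr w]
    rw [map_sum]
    refine Finset.sum_congr rfl fun j _ => ?_
    rw [map_smul, smul_eq_mul]
  rw [hsy, ← hL, e1]
  refine Finset.sum_congr rfl fun i _ => ?_
  rw [hL, hsy, ← hL, e1, Finset.mul_sum]
  refine Finset.sum_congr rfl fun j _ => ?_
  rw [hL]
  ring

private theorem P8_low {E J : Type} [NormedAddCommGroup E] [NormedSpace ℝ E]
    [FiniteDimensional ℝ E] [Fintype J] (b : Module.Basis J ℝ E) (B0 : E → E → ℝ)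
    (hadd : ∀ u v w, B0 (u + v) w = B0 u w + B0 v w)
    (hsm : ∀ (r : ℝ) (v w : E), B0 (r • v) w = r * B0 v w) (hsy : ∀ v w, B0 v w = B0 w v)
    (hpos : ∀ v, v ≠ 0 → 0 < B0 v v) : ∃ c0 : ℝ, 0 < c0 ∧ ∀ v, c0 * ‖v‖ ^ 2 ≤ B0 v v := by
  -- lower bound of B0
  have hcont : Continuous fun v => B0 v v := by
    have h1 : (fun v => B0 v v) = fun v => ∑ i, ∑ j, b.repr v i * b.repr v j * B0 (b i) (b j) :=
      funext fun v => P8_exp b B0 hadd hsm hsy v v
    rw [h1]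
    have h2 : ∀ i, Continuous fun v => b.repr v i := fun i =>
      (LinearMap.toContinuousLinearMap (b.coord i)).continuous
    exact continuous_finsetSum _ fun i _ => continuous_finsetSum _ fun j _ =>
      ((h2 i).mul (h2 j)).mul continuous_const
  have hscale : ∀ (r : ℝ) v, B0 (r • v) (r • v) = r ^ 2 * B0 v v := by
    intro r v
    rw [hsm, hsy, hsm]
    ring
  have h0 : B0 0 0 = 0 := by
    have := hscale 0 0
    simpa using this
  rcases (Metric.sphere (0 : E) 1).eq_empty_or_nonempty with he | hne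
  · refine ⟨1, one_pos, fun v => ?_⟩
    have hv : v = 0 := by
      by_contra hv
      have h1 : (‖v‖⁻¹ : ℝ) • v ∈ Metric.sphere (0 : E) 1 := by
        rw [mem_sphere_zero_iff_norm, norm_smul, norm_inv, norm_norm,
          inv_mul_cancel₀ (norm_ne_zero_iff.2 hv)]
      rw [he] at h1
      exact h1
    rw [hv, h0]
    simp
  · obtain ⟨v0, hv0, hmin⟩ := (isCompact_sphere (0 : E) 1).exists_isMinOn hne hcont.continuousOn
    have hv0' : v0 ≠ 0 := by
      rintro rfl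
      rw [mem_sphere_zero_iff_norm, norm_zero] at hv0
      exact zero_ne_one hv0
    refine ⟨B0 v0 v0, hpos v0 hv0', fun v => ?_⟩
    rcases eq_or_ne v 0 with rfl | hv
    · rw [h0]
      simp
    · have hnv : 0 < ‖v‖ := norm_pos_iff.2 hv
      have h1 : (‖v‖⁻¹ : ℝ) • v ∈ Metric.sphere (0 : E) 1 := by
        rw [mem_sphere_zero_iff_norm, norm_smul, norm_inv, norm_norm,
          inv_mul_cancel₀ hnv.ne']
      have h2 : B0 v0 v0 ≤ B0 ((‖v‖⁻¹ : ℝ) • v) ((‖v‖⁻¹ : ℝ) • v) := hmin h1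
      rw [hscale] at h2
      have h3 := mul_le_mul_of_nonneg_right h2 (sq_nonneg ‖v‖)
      have h4 : (‖v‖⁻¹ : ℝ) ^ 2 * B0 v v * ‖v‖ ^ 2 = B0 v v := by
        field_simp
      rw [h4] at h3
      exact h3

private theorem P8_RD {n : ℕ} (q : SL n) (x : Mt n) (F F' : Fn n) (h : RD x F F') :
    RD x (fun g => F (q * g)) (fun g => F' (q * g)) := by
  intro c hc
  refine h (fun s => q * c s) ?_
  intro a b
  have e1 : (fun s => (q * c s).1 a b) = fun s => ∑ j, q.1 a j * (c s).1 j b := by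
    funext s
    exact Matrix.mul_apply
  have e2 : ((q * c 0).1 * x) a b = ∑ j, q.1 a j * ((c 0).1 * x) j b := by
    have e3 : (q * c 0).1 * x = q.1 * ((c 0).1 * x) := by
      show q.1 * (c 0).1 * x = _
      rw [Matrix.mul_assoc]
    rw [e3]
    exact Matrix.mul_apply
  show HasDerivAt (fun s => (q * c s).1 a b) (((q * c 0).1 * x) a b) 0
  rw [e1, e2]
  exact HasDerivAt.fun_sum fun j _ => (hc j b).const_mul (q.1 a j)

private theorem P8_BD {n : ℕ} (q : SL n) (k : ℕ) (M : ℝ) (F : Fn n) (h : BD k M F) :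
    BD k M (fun g => F (q * g)) := by
  induction k generalizing F with
  | zero => exact ⟨h.1.comp (continuous_const.mul continuous_id), fun g => h.2 _⟩
  | succ k ih =>
    obtain ⟨⟨h1, h2⟩, h3⟩ := h
    refine ⟨⟨h1.comp (continuous_const.mul continuous_id), fun g => h2 _⟩, ?_⟩
    intro x hx hx1
    obtain ⟨F', hF', hB⟩ := h3 x hx hx1
    exact ⟨fun g => F' (q * g), P8_RD q x F F' hF', ih F' hB⟩

private theorem P8_u {n : ℕ} (q : SL n) : IsUnit q.1.det := by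
  rw [q.2]
  exact isUnit_one

private theorem P8_ut {n : ℕ} (q : SL n) : IsUnit (q.1ᵀ).det := by
  rw [Matrix.det_transpose]
  exact P8_u q

private theorem P8_gF {n : ℕ} (q : SL n) (p : PD n) (v w : Mt n) :
    gF (act q p) (q.1 * v * q.1ᵀ) (q.1 * w * q.1ᵀ) = gF p v w := by
  rw [gF_apply, gF_apply]
  have hi : (act q p).1⁻¹ = (q.1ᵀ)⁻¹ * (p.1⁻¹ * q.1⁻¹) := by
    show (q.1 * p.1 * q.1ᵀ)⁻¹ = _
    rw [Matrix.mul_inv_rev, Matrix.mul_inv_rev]
  have hc : ∀ u : Mt n, (act q p).1⁻¹ * (q.1 * u * q.1ᵀ) = (q.1ᵀ)⁻¹ * (p.1⁻¹ * u * q.1ᵀ) := by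
    intro u
    rw [hi]
    have e1 : (q.1ᵀ)⁻¹ * (p.1⁻¹ * q.1⁻¹) * (q.1 * u * q.1ᵀ) =
        (q.1ᵀ)⁻¹ * (p.1⁻¹ * ((q.1⁻¹ * q.1) * u) * q.1ᵀ) := by
      simp only [Matrix.mul_assoc]
    rw [e1, Matrix.nonsing_inv_mul _ (P8_u q), Matrix.one_mul]
  rw [hc v, hc w]
  have e2 : (q.1ᵀ)⁻¹ * (p.1⁻¹ * v * q.1ᵀ) * ((q.1ᵀ)⁻¹ * (p.1⁻¹ * w * q.1ᵀ)) =
      (q.1ᵀ)⁻¹ * (p.1⁻¹ * v * ((q.1ᵀ * (q.1ᵀ)⁻¹) * (p.1⁻¹ * w * q.1ᵀ))) := by
    simp only [Matrix.mul_assoc]
  rw [e2, Matrix.mul_nonsing_inv _ (P8_ut q), Matrix.one_mul, Matrix.trace_mul_comm]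
  have e3 : p.1⁻¹ * v * (p.1⁻¹ * w * q.1ᵀ) * (q.1ᵀ)⁻¹ =
      p.1⁻¹ * v * (p.1⁻¹ * w * (q.1ᵀ * (q.1ᵀ)⁻¹)) := by
    simp only [Matrix.mul_assoc]
  rw [e3, Matrix.mul_nonsing_inv _ (P8_ut q), Matrix.mul_one]

private theorem P8_gen {E F X : Type*} [NormedAddCommGroup E] [NormedSpace ℝ E]
    [NormedAddCommGroup F] [NormedSpace ℝ F] [NormedAddCommGroup X] [NormedSpace ℝ X]
    {f : E → F} {s : Set E} (hs : IsOpen s) (hf : ContDiffOn ℝ ∞ f s) (v : E)
    {g : X → E} {u : Set X} (hg : ContDiffOn ℝ ∞ g u) (hm : Set.MapsTo g u s) :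
    ContDiffOn ℝ ∞ (fun x => fderiv ℝ f (g x) v) u := by
  have h1 : ContDiffOn ℝ ∞ (fderiv ℝ f) s := ContDiffOn.fderiv_of_isOpen hf hs (by simp)
  have h2 := h1.comp hg hm
  have h3 : ContDiffOn ℝ ∞ (fun _ : X => v) u := contDiffOn_const
  exact h2.clm_apply h3

private theorem P8_cm {n : ℕ} (φ : PD n → PD n) (hφ : SmX φ) (h : PD n → Fm n)
    (h3 : CmF ∞ h) (v w : Mt n) :
    ContDiffOn ℝ ∞ (fun A : Mt n => pul φ h (ret A) v w) (PU n) := by
  obtain ⟨U, K, hU, hK, hs⟩ := h3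
  have hF : ContDiffOn ℝ ∞ (fun A : Mt n => (φ (ret A)).1) (PU n) := hφ
  have hd : ∀ v : Mt n, ContDiffOn ℝ ∞ (fun A : Mt n => dff φ (ret A) v) (PU n) := fun v =>
    P8_gen (f := fun A : Mt n => (φ (ret A)).1) (g := fun A : Mt n => (ret A).1) PU_open hF v
      ret_smooth fun A _ => mem_PU _
  have hb : ∀ a b : Mt n, ContDiffOn ℝ ∞ (fun A : Mt n => h (φ (ret A)) a b) (PU n) := by
    intro a b
    have h7 : ContDiffOn ℝ ∞ (fun A : Mt n => K (φ (ret A)).1 a b) (PU n) :=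
      (hs a b).comp hF fun A _ => (hK _).1
    refine h7.congr fun A _ => ?_
    show h (φ (ret A)) a b = K (φ (ret A)).1 a b
    rw [(hK _).2]
  exact cd_bil (K := fun A : Mt n => h (φ (ret A))) hb (hd v) (hd w)

private theorem P8_crd {X E J : Type} [NormedAddCommGroup X] [NormedSpace ℝ X]
    [NormedAddCommGroup E] [NormedSpace ℝ E] [FiniteDimensional ℝ E] [Fintype J]
    (b : Module.Basis J ℝ E) {f : X → E} {s : Set X} (hf : ContDiffOn ℝ ∞ f s) (l : J) :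
    ContDiffOn ℝ ∞ (fun y => b.repr (f y) l) s :=
  (LinearMap.toContinuousLinearMap (b.coord l)).contDiff.comp_contDiffOn hf

private theorem P8_dcrd {E J : Type} [NormedAddCommGroup E] [NormedSpace ℝ E]
    [FiniteDimensional ℝ E] [Fintype J] (b : Module.Basis J ℝ E) (f : E → E) (y : E)
    (hf : DifferentiableAt ℝ f y) (l : J) (v : E) :
    fderiv ℝ (fun y => b.repr (f y) l) y v = b.repr (fderiv ℝ f y v) l := by
  have h2 : HasFDerivAt (fun y => (LinearMap.toContinuousLinearMap (b.coord l)) (f y))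
      ((LinearMap.toContinuousLinearMap (b.coord l)).comp (fderiv ℝ f y)) y :=
    (LinearMap.toContinuousLinearMap (b.coord l)).hasFDerivAt.comp y hf.hasFDerivAt
  have h3 : fderiv ℝ (fun y => b.repr (f y) l) y =
      (LinearMap.toContinuousLinearMap (b.coord l)).comp (fderiv ℝ f y) := h2.fderiv
  rw [h3]
  rfl

private theorem P8_one {n : ℕ} : (1 : Mt n) ∈ PU n := mem_PU (o n)

private theorem P8_bd_mono {n : ℕ} (k : ℕ) (M M' : ℝ) (hM : M ≤ M') :
    ∀ F : Fn n, BD k M F → BD k M' F := by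
  induction k with
  | zero =>
    intro F hF
    exact ⟨hF.1, fun g => (hF.2 g).trans hM⟩
  | succ k ih =>
    intro F hF
    obtain ⟨⟨h1, h2⟩, h3⟩ := hF
    refine ⟨⟨h1, fun g => (h2 g).trans hM⟩, fun x hx hx1 => ?_⟩
    obtain ⟨F', hF', hB⟩ := h3 x hx hx1
    exact ⟨F', hF', ih F' hB⟩

private theorem P8_tb_mono {n : ℕ} {k : ℕ} {M M' : ℝ} (hM : M ≤ M') {κ : PD n → Fm n}
    (h : TB k M κ) : TB k M' κ :=
  fun v w hv hw hv1 hw1 => P8_bd_mono k M M' hM _ (h v w hv hw hv1 hw1)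

private theorem P8_trq {n : ℕ} (q : SL n) (k : ℕ) (M : ℝ) (κ : PD n → Fm n) (hT : TB k M κ) :
    TB k M (trq q κ) := by
  intro v w hv hw hv1 hw1
  have h1 := P8_BD q k M _ (hT v w hv hw hv1 hw1)
  have e : Jf (trq q κ) v w = fun g => Jf κ v w (q * g) := by
    funext g
    have e0 : act (q * g) (o n) = act q (act g (o n)) := act_facts.2.1 q g (o n)
    have e1 : ∀ u : Mt n, (q * g).1 * u * (q * g).1ᵀ = q.1 * (g.1 * u * g.1ᵀ) * q.1ᵀ := by
      intro u
      have e2 : (q * g).1 = q.1 * g.1 := rfl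
      rw [e2, Matrix.transpose_mul]
      simp only [Matrix.mul_assoc]
    show κ (act q (act g (o n))) (q.1 * (g.1 * v * g.1ᵀ) * q.1ᵀ)
        (q.1 * (g.1 * w * g.1ᵀ) * q.1ᵀ) =
      κ (act (q * g) (o n)) ((q * g).1 * v * (q * g).1ᵀ) ((q * g).1 * w * (q * g).1ᵀ)
    rw [e0, e1, e1]
  rw [e]
  exact h1

private theorem P8_sm {n : ℕ} {κ : PD n → Fm n} (hκ : CmF ∞ κ) (v w : Mt n) :
    ContDiffOn ℝ ∞ (fun A : Mt n => κ (ret A) v w) (PU n) := by
  obtain ⟨U, K, hU, hK, hs⟩ := hκ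
  have h7 : ContDiffOn ℝ ∞ (fun A : Mt n => K (ret A).1 v w) (PU n) :=
    (hs v w).comp ret_smooth fun A _ => (hK _).1
  refine h7.congr fun A _ => ?_
  show κ (ret A) v w = K (ret A).1 v w
  rw [(hK _).2]

private theorem P8_pulcm {n : ℕ} (φ : PD n → PD n) (hφ : SmX φ) (κ : PD n → Fm n)
    (hκ : CmF ∞ κ) : CmF ∞ (pul φ κ) := by
  refine ⟨PU n, fun A => pul φ κ (ret A), PU_open, fun p => ⟨mem_PU p, ?_⟩, fun v w => ?_⟩
  · show pul φ κ (ret p.1) = pul φ κ p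
    rw [ret_self]
  · exact P8_cm φ hφ κ hκ v w

private theorem P8_fd {n : ℕ} (v : Mt n) :
    ContDiffOn ℝ ∞ (fun A : Mt n => fderiv ℝ (fun B : Mt n => (ret B).1) A v) (PU n) := by
  have h1 : ContDiffOn ℝ ∞ (fun B : Mt n => ((ret B).1 : Mt n)) (PU n) := ret_smooth
  have h2 := h1.fderiv_of_isOpen (m := ∞) PU_open (by simp)
  exact h2.clm_apply contDiffOn_const

private theorem P8_kcs {n : ℕ} {κ : PD n → Fm n}
    (hκ : ∀ v w, ContDiffOn ℝ ∞ (fun A : Mt n => κ (ret A) v w) (PU n)) (v w : Mt n) :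
    ContDiffOn ℝ ∞ (fun A : Mt n => Kc κ v w A) (PU n) := by
  unfold Kc
  exact cd_bil (K := fun A : Mt n => κ (ret A)) hκ (P8_fd v) (P8_fd w)

private theorem P8_metX {n : ℕ} {Γ : Subgroup (SL n)} {h : PD n → Fm n} (hS : SMet Γ h) :
    MetX h := ⟨P8_sm hS.sm, hS.ok.symm, hS.pos⟩

private theorem P8_split {n : ℕ} (h : PD n → Fm n) (A v w : Mt n) :
    prodm h A v w = Kc h v w A + prodm (fun _ => (0 : Fm n)) A v w := by
  unfold prodm Kc
  simp only [LinearMap.zero_apply]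
  ring

private theorem P8_nonneg {n : ℕ} (A v : Mt n) : 0 ≤ prodm (fun _ => (0 : Fm n)) A v v := by
  unfold prodm
  simp only [LinearMap.zero_apply]
  have h1 : 0 ≤ 1 / (n : ℝ) * ((syp A)⁻¹ * syp v).trace * ((syp A)⁻¹ * syp v).trace := by
    rw [mul_assoc]
    exact mul_nonneg (by positivity) (mul_self_nonneg _)
  have h2 : 0 ≤ ((skp v)ᵀ * skp v).trace := by
    have h3 : ((skp v)ᵀ * skp v).trace = ∑ j, ∑ i, skp v i j ^ 2 := by
      simp only [Matrix.trace, Matrix.diag, Matrix.mul_apply, Matrix.transpose_apply]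
      refine Finset.sum_congr rfl fun j _ => Finset.sum_congr rfl fun i _ => ?_
      ring
    rw [h3]
    exact Finset.sum_nonneg fun j _ => Finset.sum_nonneg fun i _ => sq_nonneg _
  linarith

private theorem P8_unif {J : Type} [Fintype J] (P : J → J → ℝ → Prop)
    (mono : ∀ i j M M', M ≤ M' → P i j M → P i j M') (h : ∀ i j, ∃ M, 0 ≤ M ∧ P i j M) :
    ∃ M, 0 ≤ M ∧ ∀ i j, P i j M := by
  choose M h0 hM using h
  refine ⟨∑ i, ∑ j, M i j, Finset.sum_nonneg fun i _ => Finset.sum_nonneg fun j _ => h0 i j,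
    fun i j => mono i j (M i j) _ ?_ (hM i j)⟩
  have h1 : M i j ≤ ∑ j, M i j :=
    Finset.single_le_sum (f := fun j => M i j) (fun j _ => h0 i j) (Finset.mem_univ j)
  have h2 : ∑ j, M i j ≤ ∑ i, ∑ j, M i j :=
    Finset.single_le_sum (f := fun i => ∑ j, M i j)
      (fun i _ => Finset.sum_nonneg fun j _ => h0 i j) (Finset.mem_univ i)
  exact h1.trans h2

private theorem P8_sum {E J : Type} [NormedAddCommGroup E] [NormedSpace ℝ E] [Fintype J]
    (b : Module.Basis J ℝ E) {Ω : Set E} (hΩ : IsOpen Ω) (x : E) (hx : x ∈ Ω) (k : ℕ) (M : ℝ)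
    {ι : Type} (f : ι → E → ℝ) (s : Finset ι)
    (hf : ∀ i ∈ s, ContDiffOn ℝ ∞ (f i) Ω) (h : ∀ i ∈ s, NS38.JB b k M (f i) x) :
    NS38.JB b k (s.card * M) (fun y => ∑ i ∈ s, f i y) x := by
  classical
  obtain ⟨-, -, j3, -, j5, j6, j7⟩ := NS38.jb_facts b hΩ x hx
  induction s using Finset.induction_on with
  | empty =>
    obtain ⟨M', -, hM'⟩ := j7 k (fun _ => (0 : ℝ)) contDiffOn_const
    have h1 := j5 k M' 0 (fun _ => (0 : ℝ)) contDiffOn_const hM'
    have h2 : |(0 : ℝ)| * M' = ((∅ : Finset ι).card : ℝ) * M := by simp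
    rw [h2] at h1
    refine j6 k _ _ _ ?_ h1
    intro y _
    simp
  | insert a s ha ih =>
    have h1 := ih (fun i hi => hf i (Finset.mem_insert_of_mem hi))
      (fun i hi => h i (Finset.mem_insert_of_mem hi))
    have h2 := h a (Finset.mem_insert_self a s)
    have hs : ContDiffOn ℝ ∞ (fun y => ∑ i ∈ s, f i y) Ω :=
      ContDiffOn.sum fun i hi => hf i (Finset.mem_insert_of_mem hi)
    have h3 := j3 k M _ _ _ (hf a (Finset.mem_insert_self a s)) hs h2 h1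
    have h4 : M + (s.card : ℝ) * M = ((insert a s).card : ℝ) * M := by
      rw [Finset.card_insert_of_notMem ha]
      push_cast
      ring
    rw [h4] at h3
    refine j6 k _ _ _ ?_ h3
    intro y _
    rw [Finset.sum_insert ha]

private theorem P8_exp2 {n : ℕ} {J : Type} [Fintype J] (b : Module.Basis J ℝ (Mt n))
    (κ : PD n → Fm n) (v w A : Mt n) :
    Kc κ v w A = ∑ l, ∑ m, b.repr v l * (b.repr w m * Kc κ (b l) (b m) A) := by
  unfold Kc
  conv_lhs => rw [← b.sum_repr v, ← b.sum_repr w]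
  simp only [map_sum, map_smul, LinearMap.sum_apply, LinearMap.smul_apply, smul_eq_mul,
    Finset.mul_sum]
  rw [Finset.sum_comm]
  refine Finset.sum_congr rfl fun l _ => Finset.sum_congr rfl fun m _ => ?_
  ring

/-- the equation of the homothety in the coordinates -/
private theorem P8_kcc {n : ℕ} (φ : PD n → PD n) (h : PD n → Fm n)
    (hs : ∀ p v w, h p v w = h p w v) (c : ℝ)
    (hp : ∀ p v, IsTan p v → pul φ h p v v = c * gF p v v) (q : SL n) (A : Mt n) (hA : A ∈ PU n)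
    (v w : Mt n) : Kc (trq q (pul φ h)) v w A = c * Kc gF v w A := by
  have hd : DifferentiableAt ℝ (fun B : Mt n => (ret B).1) A :=
    ((ret_smooth (m := ∞)).differentiableOn (by simp)).differentiableAt (PU_open.mem_nhds hA)
  have ht : ∀ u, IsTan (ret A) (fderiv ℝ (fun B : Mt n => (ret B).1) A u) := fun u =>
    tan_fderiv (fun B : Mt n => ret B) A hd u
  unfold Kc
  generalize fderiv ℝ (fun B : Mt n => (ret B).1) A = L at ht
  have hV := ht v
  have hW := ht w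
  have hVW : IsTan (ret A) (L v + L w) := by
    have := tan_facts.2.2.1 (ret A) (L v) (L w) 1 1 hV hW
    simpa using this
  have hd1 : ∀ u, IsTan (ret A) u → trq q (pul φ h) (ret A) u u = c * gF (ret A) u u := by
    intro u hu
    have h1 := hp (act q (ret A)) (q.1 * u * q.1ᵀ) (tan_facts.2.1 q (ret A) u hu)
    rw [P8_gF q (ret A) u u] at h1
    exact h1
  have h1 := hd1 _ hV
  have h2 := hd1 _ hW
  have h3 := hd1 _ hVW
  have s1 : trq q (pul φ h) (ret A) (L v) (L w) = trq q (pul φ h) (ret A) (L w) (L v) :=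
    hs _ _ _
  have s2 : gF (ret A) (L v) (L w) = gF (ret A) (L w) (L v) := by
    rw [gF_apply, gF_apply, Matrix.trace_mul_comm]
  have e : ∀ (K : Fm n) (x y : Mt n), K (x + y) (x + y) = K x x + K x y + (K y x + K y y) := by
    intro K x y
    simp only [map_add, LinearMap.add_apply]
    ring
  rw [e, e, ← s1, ← s2, h1, h2] at h3
  linarith

/-- Row P8 (assembly). Pull backs by homotheties of metrics with bounded geometry are bounded. PLAN. For
`q : SL n` let `act g1 (o n) = φ (act q (o n))`, `φ' = act g1⁻¹ ∘ φ ∘ act q`, `f = lft (√c) φ'`, `f 1 = 1`;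
`pul φ' (trq g1 h) = c gF`, `prodm_pull`: `iso_jets` with `G = prodm (trq g1 h)`, `G' = prodm gF`, `Ω = Ω' = PU n`, `x = 1`
(bounds of `G` from `tb_jb`, the other two terms of `prodm` are fixed); then `kc_pul`, `jb_comp`, `tb_jb` for
`trq g1 κ` and `jb_tb`. -/
theorem pul_tb {n : ℕ} (hn : 3 ≤ n) (k : ℕ) (B : ℝ) (hB : 1 ≤ B) : ∃ K : ℝ, 0 < K ∧
    ∀ (Γ : Subgroup (SL n)) (φ : PD n → PD n) (h : PD n → Fm n) (c : ℝ), Dfm Γ φ → SMet Γ h →
      (∀ p v, IsTan p v → B⁻¹ * spd p v ^ 2 ≤ h p v v) → TB (k + 1) B h → B⁻¹ ≤ c → c ≤ B →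
      (∀ p v, IsTan p v → pul φ h p v v = c * gF p v v) →
      ∀ (κ : PD n → Fm n) (ε : ℝ), 0 ≤ ε → CmF ∞ κ → TB k ε κ →
        TB k (K * ε) (pul φ κ) := by
  classical
  have hn1 : 1 ≤ n := by omega
  have hB0 : 0 ≤ B := by linarith
  have hBp : 0 < B := by linarith
  let b := Module.finBasis ℝ (Mt n)
  obtain ⟨K6, hK6, hjt⟩ := jb_tb hn1 b k
  obtain ⟨K4, hK4, htj⟩ := tb_jb hn1 b k
  obtain ⟨K5, hK5, htj1⟩ := tb_jb hn1 b (k + 1)
  have hG0 : NS38.Met (prodm (gF : PD n → Fm n)) (PU n) := met_prodm hn1 gF (prodm_gF hn1).1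
  obtain ⟨lam, hlam, hlow⟩ := P8_low b (prodm gF 1)
    (fun u v w => hG0.bil.add 1 P8_one u v w) (fun r v w => hG0.bil.smul 1 P8_one r v w)
    (fun v w => hG0.bil.symm 1 P8_one v w) (fun v hv => hG0.pos 1 P8_one v hv)
  have hfac := NS38.jb_facts b PU_open (1 : Mt n) P8_one
  obtain ⟨j1, j2, j3, j4, j5, j6, j7⟩ := hfac
  obtain ⟨M1, hM1, hj1⟩ := P8_unif
    (fun i j M => NS38.JB b (k + 1) M (fun y => prodm (gF : PD n → Fm n) y (b i) (b j)) 1)
    (fun i j M M' hMM hh => j1 _ _ _ _ hMM hh)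
    (fun i j => j7 (k + 1) _ (hG0.smooth (b i) (b j)))
  have hTs : ∀ v w, ContDiffOn ℝ ∞ (fun A : Mt n => prodm (fun _ => (0 : Fm n)) A v w) (PU n) := by
    intro v w
    have h1 : (fun A : Mt n => prodm (fun _ => (0 : Fm n)) A v w) =
        fun A => prodm gF A v w - Kc gF v w A := by
      funext A
      rw [P8_split gF A v w]
      ring
    rw [h1]
    exact (hG0.smooth v w).sub (P8_kcs (prodm_gF hn1).1.smooth v w)
  obtain ⟨M2, hM2, hj2⟩ := P8_unif
    (fun i j M => NS38.JB b (k + 1) M (fun y => prodm (fun _ => (0 : Fm n)) y (b i) (b j)) 1)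
    (fun i j M M' hMM hh => j1 _ _ _ _ hMM hh)
    (fun i j => j7 (k + 1) _ (hTs (b i) (b j)))
  have hM30 : 0 ≤ ∑ l, |b.repr (1 : Mt n) l| := Finset.sum_nonneg fun l _ => abs_nonneg _
  have hM3 : ∀ l, |b.repr (1 : Mt n) l| ≤ ∑ l, |b.repr (1 : Mt n) l| := fun l =>
    Finset.single_le_sum (f := fun l => |b.repr (1 : Mt n) l|) (fun l _ => abs_nonneg _)
      (Finset.mem_univ l)
  obtain ⟨M3, hM3e⟩ : ∃ M3 : ℝ, M3 = ∑ l, |b.repr (1 : Mt n) l| := ⟨_, rfl⟩
  rw [← hM3e] at hM30 hM3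
  obtain ⟨B2, hB2e⟩ : ∃ B2 : ℝ, B2 = K5 * B + M1 + M2 + M3 + B + B / lam := ⟨_, rfl⟩
  have hq1 : 0 ≤ K5 * B := mul_nonneg hK5 hB0
  have hq2 : 0 < B / lam := div_pos hBp hlam
  have hB21 : 1 ≤ B2 := by linarith
  have hB2a : K5 * B + M2 ≤ B2 := by linarith
  have hB2b : M1 ≤ B2 := by linarith
  have hB2c : M3 ≤ B2 := by linarith
  have hB2d : B ≤ B2 := by linarith
  have hB2e' : B / lam ≤ B2 := by linarith
  have hinv : B2⁻¹ ≤ B⁻¹ * lam := by
    have h1 : B2⁻¹ ≤ (B / lam)⁻¹ := inv_anti₀ hq2 hB2e'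
    have h2 : (B / lam)⁻¹ = B⁻¹ * lam := by
      rw [inv_div]
      ring
    rw [h2] at h1
    exact h1
  have hBi1 : B⁻¹ ≤ 1 := inv_le_one_of_one_le₀ hB
  have hBi0 : 0 ≤ B⁻¹ := inv_nonneg.2 hB0
  obtain ⟨B', hB', hiso⟩ := NS38.iso_jets b k B2 hB21
  obtain ⟨K1, hK1, hcomp⟩ := NS38.jb_comp b k B'
  obtain ⟨N, hN⟩ : ∃ N : ℝ, N = (Finset.univ : Finset (Fin (Module.finrank ℝ (Mt n)))).card :=
    ⟨_, rfl⟩
  have hN0 : 0 ≤ N := by
    rw [hN]
    exact Nat.cast_nonneg _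
  obtain ⟨C, hC⟩ : ∃ C : ℝ, C = N * (N * (2 ^ k * (B' * (2 ^ k * (B' * (K1 * K4)))))) := ⟨_, rfl⟩
  have hC0 : 0 ≤ C := by
    rw [hC]
    positivity
  refine ⟨K6 * C + 1, by positivity, ?_⟩
  intro Γ φ h c hφ hS hlo hTB hc1 hc2 hp κ ε hε hκ hTκ
  have hc0 : 0 < c := lt_of_lt_of_le (inv_pos.2 hBp) hc1
  have ha : 0 < √ c := Real.sqrt_pos.2 hc0
  have ha2 : √ c ^ 2 = c := Real.sq_sqrt hc0.le
  have hX : MetX h := P8_metX hS
  have hfin : TB k (K6 * (C * ε)) (pul φ κ) := by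
    refine hjt (pul φ κ) (C * ε) (mul_nonneg hC0 hε) (P8_pulcm φ hφ.smooth κ hκ) ?_
    intro q i j
    obtain ⟨g1, hg⟩ : ∃ g1 : SL n, act g1 (o n) = φ (act q (o n)) :=
      ⟨tch (φ (act q (o n))), (tch_eq _).symm⟩
    obtain ⟨hsm', hkc⟩ := kc_pul hn1 φ hφ.smooth q g1 (√ c) ha κ
    have hkh := (kc_pul hn1 φ hφ.smooth q g1 (√ c) ha h).2
    have hφo : act g1⁻¹ (φ (act q (o n))) = o n := by
      rw [← hg, ← act_facts.2.1, inv_mul_cancel, act_facts.1]
    obtain ⟨φ', hφ'⟩ : ∃ φ' : PD n → PD n, φ' = fun p => act g1⁻¹ (φ (act q p)) := ⟨_, rfl⟩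
    rw [← hφ'] at hsm' hkc hkh
    have hφo' : φ' (o n) = o n := by
      rw [hφ']
      exact hφo
    obtain ⟨f, hf⟩ : ∃ f : Mt n → Mt n, f = lft (√ c) φ' := ⟨_, rfl⟩
    have hfs : ContDiffOn ℝ ∞ f (PU n) := by
      rw [hf]
      exact (lft_facts hn1).2.2.2.2 (√ c) φ' hsm'
    have hmap : ∀ y ∈ PU n, f y ∈ PU n := by
      intro y hy
      rw [hf]
      exact ((lft_facts hn1).1 (√ c) φ' y hy).1
    have hf1 : f 1 = 1 := by
      have e1 : ret (1 : Mt n) = o n := ret_self (o n)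
      have e2 : syp (1 : Mt n) = 1 := syp_self (o n)
      have e3 : ell (1 : Mt n) = 0 := by
        unfold ell
        rw [e2, Matrix.det_one, Real.log_one, mul_zero]
      have e4 : skp (1 : Mt n) = 0 := by
        unfold skp
        rw [Matrix.transpose_one, sub_self, smul_zero]
      rw [hf]
      show Real.exp (√ c * ell 1) • (φ' (ret 1)).1 + √ c • skp 1 = 1
      rw [e1, e3, e4, hφo', mul_zero, Real.exp_zero, one_smul, smul_zero, add_zero]
      rfl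
    rw [← hf] at hkc hkh
    have hG : NS38.Met (prodm (trq g1 h)) (PU n) := met_prodm hn1 _ ((trq_facts g1 h).1 hX)
    have hzero : ∀ y ∈ PU n, ∀ v w, prodm (fun _ => (0 : Fm n)) (f y) (fderiv ℝ f y v)
        (fderiv ℝ f y w) = c * prodm (fun _ => (0 : Fm n)) y v w := by
      intro y hy v w
      have h1 := prodm_pull hn1 (fun _ => (0 : Fm n)) (fun _ => (0 : Fm n)) (fun p v w => rfl)
        (fun p v w => rfl) φ' hsm' (√ c) ha (by
          intro p v _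
          rw [pul_apply]
          simp only [LinearMap.zero_apply, mul_zero]) y hy v w
      rw [ha2, ← hf] at h1
      exact h1
    have heq : ∀ y ∈ PU n, ∀ v w, prodm (trq g1 h) (f y) (fderiv ℝ f y v) (fderiv ℝ f y w) =
        c * prodm gF y v w := by
      intro y hy v w
      rw [P8_split (trq g1 h), P8_split gF, hzero y hy v w, ← hkh y hy v w,
        P8_kcc φ h hS.ok.symm c hp q y hy v w]
      ring
    have hJG : ∀ i j, NS38.JB b (k + 1) B2 (fun y => prodm (trq g1 h) y (b i) (b j)) (f 1) := by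
      intro i j
      rw [hf1]
      have h1 := htj1 (trq g1 h) B hB0 ((trq_facts g1 h).2.1 hS.sm) (P8_trq g1 (k + 1) B h hTB) i j
      have h2 := j3 (k + 1) _ _ _ _
        (P8_kcs (P8_sm ((trq_facts g1 h).2.1 hS.sm)) (b i) (b j)) (hTs (b i) (b j)) h1 (hj2 i j)
      refine j1 _ _ _ _ hB2a (j6 _ _ _ _ ?_ h2)
      intro y _
      exact (P8_split (trq g1 h) y (b i) (b j)).symm
    have hlowG : ∀ v, B2⁻¹ * ‖v‖ ^ 2 ≤ prodm (trq g1 h) (f 1) v v := by
      intro v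
      rw [hf1]
      have e1 : B⁻¹ * Kc gF v v 1 ≤ Kc (trq g1 h) v v 1 := by
        have hd : DifferentiableAt ℝ (fun B : Mt n => (ret B).1) (1 : Mt n) :=
          ((ret_smooth (m := ∞)).differentiableOn (by simp)).differentiableAt
            (PU_open.mem_nhds P8_one)
        have ht : IsTan (ret (1 : Mt n)) (fderiv ℝ (fun B : Mt n => (ret B).1) 1 v) :=
          tan_fderiv (fun B : Mt n => ret B) (1 : Mt n) hd v
        unfold Kc
        generalize fderiv ℝ (fun B : Mt n => (ret B).1) 1 v = u at ht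
        have ht' := tan_facts.2.1 g1 (ret 1) u ht
        have h1 := hlo (act g1 (ret 1)) (g1.1 * u * g1.1ᵀ) ht'
        rw [← gF_self _ _ ht', P8_gF g1 (ret 1) u u] at h1
        exact h1
      have e2 := hlow v
      have e3 := P8_nonneg (1 : Mt n) v
      rw [P8_split gF] at e2
      rw [P8_split (trq g1 h)]
      have e4 : B⁻¹ * (lam * ‖v‖ ^ 2) ≤
          B⁻¹ * (Kc gF v v 1 + prodm (fun _ => (0 : Fm n)) 1 v v) :=
        mul_le_mul_of_nonneg_left e2 hBi0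
      have e5 : B⁻¹ * prodm (fun _ => (0 : Fm n)) 1 v v ≤ 1 * prodm (fun _ => (0 : Fm n)) 1 v v :=
        mul_le_mul_of_nonneg_right hBi1 e3
      have e6 : B2⁻¹ * ‖v‖ ^ 2 ≤ B⁻¹ * lam * ‖v‖ ^ 2 :=
        mul_le_mul_of_nonneg_right hinv (sq_nonneg _)
      rw [mul_add] at e4
      linarith
    have hlowF : ∀ v, B2⁻¹ * ‖v‖ ^ 2 ≤ prodm (gF : PD n → Fm n) 1 v v := by
      intro v
      have e6 : B2⁻¹ * ‖v‖ ^ 2 ≤ B⁻¹ * lam * ‖v‖ ^ 2 :=
        mul_le_mul_of_nonneg_right hinv (sq_nonneg _)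
      have e7 : B⁻¹ * lam * ‖v‖ ^ 2 ≤ 1 * lam * ‖v‖ ^ 2 :=
        mul_le_mul_of_nonneg_right (mul_le_mul_of_nonneg_right hBi1 hlam.le) (sq_nonneg _)
      have e8 := hlow v
      linarith
    have hJ := hiso (PU n) (PU n) PU_open PU_open 1 P8_one (prodm (trq g1 h)) (prodm gF) f c hG hG0
      hfs hmap hc0 (hc2.trans hB2d) heq hJG hlowG (fun i j => j1 _ _ _ _ hB2b (hj1 i j)) hlowF
      (fun l => by
        rw [hf1]
        exact (hM3 l).trans hB2c)
    -- the derivatives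
    have hDs : ∀ l i, ContDiffOn ℝ ∞ (fun y => b.repr (fderiv ℝ f y (b i)) l) (PU n) := by
      intro l i
      exact P8_crd b (P8_gen PU_open hfs (b i) contDiffOn_id fun y hy => hy) l
    have hDj : ∀ l i, NS38.JB b k B' (fun y => b.repr (fderiv ℝ f y (b i)) l) 1 := by
      intro l i
      have h1 := (hJ l).2 i
      refine j6 k _ _ _ ?_ (j2 k _ _ h1)
      intro y hy
      have hdf : DifferentiableAt ℝ f y :=
        (hfs.differentiableOn (by simp)).differentiableAt (PU_open.mem_nhds hy)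
      exact P8_dcrd b f y hdf l (b i)
    have hFj : ∀ l m, NS38.JB b k (K1 * (K4 * ε)) (fun y => Kc (trq g1 κ) (b l) (b m) (f y)) 1 := by
      intro l m
      have hκ1 : CmF ∞ (trq g1 κ) := (trq_facts g1 κ).2.1 hκ
      refine hcomp (PU n) (PU n) PU_open PU_open 1 P8_one f hfs hmap
        (fun l => j2 k _ _ (j2 (k + 1) _ _ (hJ l))) (fun y => Kc (trq g1 κ) (b l) (b m) y) (K4 * ε)
        (P8_kcs (P8_sm hκ1) (b l) (b m)) (mul_nonneg hK4 hε) ?_
      rw [hf1]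
      exact htj (trq g1 κ) ε hε hκ1 (P8_trq g1 k ε κ hTκ) l m
    have hFs : ∀ l m, ContDiffOn ℝ ∞ (fun y => Kc (trq g1 κ) (b l) (b m) (f y)) (PU n) := by
      intro l m
      have hκ1 : CmF ∞ (trq g1 κ) := (trq_facts g1 κ).2.1 hκ
      exact (P8_kcs (P8_sm hκ1) (b l) (b m)).comp hfs hmap
    have hKK : 0 ≤ K1 * (K4 * ε) := mul_nonneg hK1 (mul_nonneg hK4 hε)
    have ht1 : ∀ l m, NS38.JB b k (2 ^ k * (B' * (2 ^ k * (B' * (K1 * (K4 * ε))))))
        (fun y => b.repr (fderiv ℝ f y (b i)) l * (b.repr (fderiv ℝ f y (b j)) m *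
          Kc (trq g1 κ) (b l) (b m) (f y))) 1 := by
      intro l m
      have h1 := j4 k _ _ _ _ hB' hKK (hDs m j) (hFs l m) (hDj m j) (hFj l m)
      exact j4 k _ _ _ _ hB' (by positivity) (hDs l i) ((hDs m j).mul (hFs l m)) (hDj l i) h1
    have ht2 : ∀ l, NS38.JB b k (N * (2 ^ k * (B' * (2 ^ k * (B' * (K1 * (K4 * ε)))))))
        (fun y => ∑ m, b.repr (fderiv ℝ f y (b i)) l * (b.repr (fderiv ℝ f y (b j)) m *
          Kc (trq g1 κ) (b l) (b m) (f y))) 1 := by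
      intro l
      rw [hN]
      exact P8_sum b PU_open 1 P8_one k _ (fun m y => b.repr (fderiv ℝ f y (b i)) l *
        (b.repr (fderiv ℝ f y (b j)) m * Kc (trq g1 κ) (b l) (b m) (f y))) Finset.univ
        (fun m _ => (hDs l i).mul ((hDs m j).mul (hFs l m))) (fun m _ => ht1 l m)
    have ht3 : NS38.JB b k (N * (N * (2 ^ k * (B' * (2 ^ k * (B' * (K1 * (K4 * ε))))))))
        (fun y => ∑ l, ∑ m, b.repr (fderiv ℝ f y (b i)) l * (b.repr (fderiv ℝ f y (b j)) m *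
          Kc (trq g1 κ) (b l) (b m) (f y))) 1 := by
      conv => arg 3; rw [hN]
      exact P8_sum b PU_open 1 P8_one k _ (fun l y => ∑ m, b.repr (fderiv ℝ f y (b i)) l *
        (b.repr (fderiv ℝ f y (b j)) m * Kc (trq g1 κ) (b l) (b m) (f y))) Finset.univ
        (fun l _ => ContDiffOn.sum fun m _ => (hDs l i).mul ((hDs m j).mul (hFs l m)))
        (fun l _ => by
          have := ht2 l
          rwa [hN] at this)
    have hCe : N * (N * (2 ^ k * (B' * (2 ^ k * (B' * (K1 * (K4 * ε))))))) = C * ε := by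
      rw [hC]
      ring
    rw [hCe] at ht3
    refine j6 k _ _ _ ?_ ht3
    intro y hy
    rw [hkc y hy (b i) (b j)]
    exact (P8_exp2 b (trq g1 κ) (fderiv ℝ f y (b i)) (fderiv ℝ f y (b j)) (f y)).symm
  refine P8_tb_mono ?_ hfin
  nlinarith [hε]

end FL27
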