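import Pool.Agent.LibFL27.HBase
import Pool.Agent.LibFL27.CR9
import Pool.Agent.LibFL27.CG8

set_option autoImplicit false
set_option maxSynthPendingDepth 3

open Matrix MeasureTheory Topology Filter LibNC38
open LibNC27 hiding Mt
open scoped Matrix.Norms.Elementwise ContDiff

namespace FL27

/-- coefficients of a form on `PD n` in the coordinates of `PU n` -/
noncomputable def Kc {n : ℕ} (κ : PD n → Fm n) (v w A : Mt n) : ℝ :=
  κ (ret A) (fderiv ℝ (fun B : Mt n => (ret B).1) A v) (fderiv ℝ (fun B : Mt n => (ret B).1) A w)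

/-- smooth invariant Riemannian metric -/
structure SMet {n : ℕ} (Γ : Subgroup (SL n)) (h : PD n → Fm n) : Prop where
  ok : FmOK Γ h
  sm : CmF ∞ h
  pos : ∀ p v, IsTan p v → v ≠ 0 → 0 < h p v v

end FL27
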