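import Pool.Agent.LibFL27.DefsV
import Pool.Agent.LibFL27.B0

set_option autoImplicit false
set_option maxSynthPendingDepth 3

open Matrix MeasureTheory Topology Filter LibNC38
open LibNC27 hiding Mt
open scoped Matrix.Norms.Elementwise

namespace FL27

private theorem Q1_bd_scale {n : ℕ} {a : ℝ} (ha : 0 ≤ a) :
    ∀ (k : ℕ) (M : ℝ) (F : Fn n), BD k M F → BD k (a * M) (fun g => a * F g) := by
  intro k
  induction k with
  | zero =>
    intro M F h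
    refine ⟨continuous_const.mul h.1, fun g => ?_⟩
    rw [abs_mul, abs_of_nonneg ha]
    exact mul_le_mul_of_nonneg_left (h.2 g) ha
  | succ k ih =>
    intro M F h
    refine ⟨⟨continuous_const.mul h.1.1, fun g => ?_⟩, fun x hx hx1 => ?_⟩
    · rw [abs_mul, abs_of_nonneg ha]
      exact mul_le_mul_of_nonneg_left (h.1.2 g) ha
    · obtain ⟨F', hF, hB⟩ := h.2 x hx hx1
      exact ⟨fun g => a * F' g, fun c hc => (hF c hc).const_mul a, ih M F' hB⟩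

private theorem Q1_bd_pred {n : ℕ} :
    ∀ (k : ℕ) (M : ℝ) (F : Fn n), BD (k + 1) M F → BD k M F := by
  intro k
  induction k with
  | zero => exact fun M F h => h.1
  | succ k ih =>
    intro M F h
    refine ⟨h.1, fun x hx hx1 => ?_⟩
    obtain ⟨F', hF, hB⟩ := h.2 x hx hx1
    exact ⟨F', hF, ih M F' hB⟩

private theorem Q1_tb {n : ℕ} {κ : PD n → Fm n} {δ : ℝ} (hδ : 0 < δ) (h : TB 6 δ κ) :
    TB 4 1 (fun p => δ⁻¹ • κ p) := by
  intro v w hv hw hv1 hw1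
  have h1 : BD 4 δ (Jf κ v w) := Q1_bd_pred 4 _ _ (Q1_bd_pred 5 _ _ (h v w hv hw hv1 hw1))
  have h2 := Q1_bd_scale (inv_nonneg.2 hδ.le) 4 δ _ h1
  rw [inv_mul_cancel₀ hδ.ne'] at h2
  exact h2

private theorem Q1_jm_smul {n : ℕ} {Γ : Subgroup (SL n)} {J : Mt n →ₗ[ℝ] Mt n →ₗ[ℝ] Fn n}
    {J1 : Mt n →ₗ[ℝ] Mt n →ₗ[ℝ] Mt n →ₗ[ℝ] Fn n}
    {J2 : Mt n →ₗ[ℝ] Mt n →ₗ[ℝ] Mt n →ₗ[ℝ] Mt n →ₗ[ℝ] Fn n} (a : ℝ) (h : Jm Γ J J1 J2) :
    Jm Γ (a • J) (a • J1) (a • J2) where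
  cont0 v w := (h.cont0 v w).const_smul a
  cont1 x v w := (h.cont1 x v w).const_smul a
  cont2 x y v w := (h.cont2 x y v w).const_smul a
  sym0 v w := by
    show a • J v w = a • J w v
    rw [h.sym0]
  inv γ hγ v w h1 h2 h3 h4 g := by
    show a * J v w (γ * g) = a * J v w g
    rw [h.inv γ hγ v w h1 h2 h3 h4 g]
  ort0 k hk v w g := by
    show a * J v w (g * k) = a * J (k.1 * v * k.1ᵀ) (k.1 * w * k.1ᵀ) g
    rw [h.ort0 k hk v w g]
  ort1 k hk x v w g := by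
    show a * J1 x v w (g * k) = a * J1 (k.1 * x * k.1ᵀ) (k.1 * v * k.1ᵀ) (k.1 * w * k.1ᵀ) g
    rw [h.ort1 k hk x v w g]
  d1 x v w c hc := (h.d1 x v w c hc).const_mul a
  d2 x y v w c hc := (h.d2 x y v w c hc).const_mul a
  com2 x y v w hxy := by
    show a • J2 x y v w = a • J2 y x v w
    rw [h.com2 x y v w hxy]

private theorem Q1_c2F_gF {n : ℕ} : LibNC27.C2F (gF : PD n → Fm n) := by
  have hlin : ∀ A : Mt n, ∃ B : Fm n, ∀ v w, B v w = (A⁻¹ * v * (A⁻¹ * w)).trace := fun A =>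
    ⟨LinearMap.mk₂ ℝ (fun v w => (A⁻¹ * v * (A⁻¹ * w)).trace)
      (by intro a b c; rw [Matrix.mul_add, Matrix.add_mul, Matrix.trace_add])
      (by intro r a c; rw [Matrix.mul_smul, Matrix.smul_mul, Matrix.trace_smul])
      (by intro a b c; rw [Matrix.mul_add, Matrix.mul_add, Matrix.trace_add])
      (by intro r a c; rw [Matrix.mul_smul, Matrix.mul_smul, Matrix.trace_smul]),
      fun v w => rfl⟩
  choose B hB using hlin
  refine ⟨{A | A.det ≠ 0}, B, ?_, fun p => ⟨?_, ?_⟩, fun v w => ?_⟩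
  · have hc : Continuous fun A : Mt n => A.det := continuous_id.matrix_det
    exact isOpen_ne_fun hc continuous_const
  · show p.1.det ≠ 0
    rw [p.2.2]
    exact one_ne_zero
  · refine LinearMap.ext fun v => LinearMap.ext fun w => ?_
    rw [hB, gF_apply]
  · simp only [hB]
    have h1 : ContDiffOn ℝ 2 (fun A : Mt n => A⁻¹) {A | A.det ≠ 0} :=
      cd_inv contDiffOn_id fun x hx => hx
    exact cd_trace (cd_mul (cd_mul h1 contDiffOn_const) (cd_mul h1 contDiffOn_const))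

private theorem Q1_apx {n : ℕ} {Γ : Subgroup (SL n)} {M σ δ M' σ' : ℝ} {κ : PD n → Fm n} {c : ℝ}
    {ξ : PD n → Mt n →ₗ[ℝ] ℝ} (hδ : 0 < δ) (h : Apx Γ M σ (fun p => δ⁻¹ • κ p) c ξ)
    (hM : δ * M ≤ M') (hσ : δ * σ ≤ σ') :
    Apx Γ M' σ' κ (δ * c) (fun p => δ • ξ p) where
  bc := by
    rw [abs_mul, abs_of_pos hδ]
    exact (mul_le_mul_of_nonneg_left h.bc hδ.le).trans hM
  bd p v hv := by
    show |δ * ξ p v| ≤ M' * spd p v
    rw [abs_mul, abs_of_pos hδ]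
    have h1 := mul_le_mul_of_nonneg_left (h.bd p v hv) hδ.le
    have h2 := mul_le_mul_of_nonneg_right hM (spd_facts.2.2.2 p v)
    linarith
  cont v hv := continuous_const.mul (h.cont v hv)
  inv γ hγ p v hv := by
    show |δ * ξ (act γ p) (γ.1 * v * γ.1ᵀ) - δ * ξ p v| ≤ σ' * spd p v
    rw [← mul_sub, abs_mul, abs_of_pos hδ]
    have h1 := mul_le_mul_of_nonneg_left (h.inv γ hγ p v hv) hδ.le
    have h2 := mul_le_mul_of_nonneg_right hσ (spd_facts.2.2.2 p v)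
    linarith
  int g z hz := by
    have h1 := h.int g z hz
    have h2 : (∫ s in (0 : ℝ)..1, (κ (act g (sg (s • z))) (gvel g z s) (gvel g z s) -
        (δ * c) * spd (act g (sg (s • z))) (gvel g z s) ^ 2)) =
        δ * ∫ s in (0 : ℝ)..1, ((δ⁻¹ • κ (act g (sg (s • z)))) (gvel g z s) (gvel g z s) -
        c * spd (act g (sg (s • z))) (gvel g z s) ^ 2) := by
      rw [← intervalIntegral.integral_const_mul]
      refine intervalIntegral.integral_congr fun s _ => ?_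
      show κ (act g (sg (s • z))) (gvel g z s) (gvel g z s) -
        (δ * c) * spd (act g (sg (s • z))) (gvel g z s) ^ 2 =
        δ * (δ⁻¹ * κ (act g (sg (s • z))) (gvel g z s) (gvel g z s) -
        c * spd (act g (sg (s • z))) (gvel g z s) ^ 2)
      rw [mul_sub, ← mul_assoc, mul_inv_cancel₀ hδ.ne', one_mul, mul_assoc]
    rw [h2]
    show |δ * ξ (act g (sg z)) (gvel g z 1) - δ * ξ (act g (sg 0)) (gvel g z 0) - δ * _| ≤ σ'
    rw [← mul_sub, ← mul_sub, abs_mul, abs_of_pos hδ]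
    exact (mul_le_mul_of_nonneg_left h1 hδ.le).trans hσ


/-- Row Q1. B and D together: apply `DStat` to `κ = δ⁻¹ (h - gF)`; `J` exists because `h` is smooth (see how
LibNS38 / LibNC27 get `Jm` from `CmF ∞`: `jm_exists`, N1). -/
theorem q_main (hB : BStat) (hD : DStat) : QStat := by
  intro n hn Γ hd hc
  obtain ⟨CB, bB, hCB, hbB, HB⟩ := hB n hn Γ hd hc
  obtain ⟨CD, bD, hCD, hbD, hbD1, HD⟩ := hD n hn Γ hd hc
  have hp1 : 0 < CB ^ bB⁻¹ := Real.rpow_pos_of_pos hCB _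
  have hp2 : 0 < CD * CB ^ bD := mul_pos hCD (Real.rpow_pos_of_pos hCB _)
  refine ⟨CB + CB ^ bB⁻¹ + CD + CD * CB ^ bD, bB * bD, by positivity, mul_pos hbB hbD, ?_⟩
  intro h δ hδ hCδ hsm hN
  set C := CB + CB ^ bB⁻¹ + CD + CD * CB ^ bD with hCdef
  -- the tensor `h - gF`
  have hsub : (fun p => h p - gF p) = fun p : PD n => h p + (-1 : ℝ) • (gF p : Fm n) := by
    funext p
    rw [neg_one_smul, sub_eq_add_neg]
  have hok : FmOK Γ (fun p => h p - gF p) := by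
    rw [hsub]
    exact fmOK_add Γ _ _ hN.ok (fmOK_smul Γ _ (fmOK_gF Γ) (-1))
  have hc2h : LibNC27.C2F h := by
    obtain ⟨U, κ', hU, hκ', hsm'⟩ := hsm
    exact ⟨U, κ', hU, hκ', fun v w => (hsm' v w).of_le (WithTop.coe_le_coe.2 le_top)⟩
  have hc2 : LibNC27.C2F (fun p => h p - gF p) := by
    rw [hsub]
    exact c2F_add _ _ hc2h (c2F_smul _ Q1_c2F_gF (-1))
  obtain ⟨V, Jt, hV, hg, hk, hs, hJt, ho⟩ := LibNC27.amb_exists _ hc2
  obtain ⟨J, J1, J2, hJ, HJ⟩ := LibNC27.jm_exists Γ _ hok V Jt hV hg hk hs hJt ho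
  have hCBδ : CB * δ ≤ 1 := by
    refine le_trans (mul_le_mul_of_nonneg_right ?_ hδ.le) hCδ
    rw [hCdef]
    linarith
  have hflat := HB h δ hδ hCBδ hN J J1 J2 HJ hJ
  have hσ0 : 0 < CB * δ ^ bB := mul_pos hCB (Real.rpow_pos_of_pos hδ _)
  have hσ1 : CB * δ ^ bB ≤ 1 := by
    have h1 : CB ^ bB⁻¹ * δ ≤ 1 := by
      refine le_trans (mul_le_mul_of_nonneg_right ?_ hδ.le) hCδ
      rw [hCdef]
      linarith
    have h2 : (CB ^ bB⁻¹ * δ) ^ bB ≤ 1 := Real.rpow_le_one (by positivity) h1 hbB.le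
    rw [Real.mul_rpow hp1.le hδ.le, ← Real.rpow_mul hCB.le, inv_mul_cancel₀ hbB.ne',
      Real.rpow_one] at h2
    exact h2
  have hflat' : FlatQ (CB * δ ^ bB) (δ⁻¹ • J2) := by
    intro v w hv hw g
    have h1 := hflat v w hv hw g
    show |δ⁻¹ * J2 (dM w) (dM w) (dM v) (dM v) g - 2 * (δ⁻¹ * J2 (dM w) (dM v) (dM v) (dM w) g) +
      δ⁻¹ * J2 (dM v) (dM v) (dM w) (dM w) g| ≤ CB * δ ^ bB
    have h2 : δ⁻¹ * J2 (dM w) (dM w) (dM v) (dM v) g - 2 * (δ⁻¹ * J2 (dM w) (dM v) (dM v) (dM w) g) +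
        δ⁻¹ * J2 (dM v) (dM v) (dM w) (dM w) g = δ⁻¹ * (J2 (dM w) (dM w) (dM v) (dM v) g -
        2 * J2 (dM w) (dM v) (dM v) (dM w) g + J2 (dM v) (dM v) (dM w) (dM w) g) := by ring
    rw [h2, abs_mul, abs_of_pos (inv_pos.2 hδ)]
    have h3 := mul_le_mul_of_nonneg_left h1 (inv_nonneg.2 hδ.le)
    have h4 : δ⁻¹ * (CB * δ * δ ^ bB) = CB * δ ^ bB := by
      field_simp
    rw [h4] at h3
    exact h3
  obtain ⟨c, ξ, hA⟩ := HD (fun p => δ⁻¹ • (h p - gF p)) (CB * δ ^ bB)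
    (fmOK_smul Γ _ hok δ⁻¹) hσ0 hσ1 (Q1_tb hδ hN.tb) (δ⁻¹ • J) (δ⁻¹ • J1) (δ⁻¹ • J2)
    (Q1_jm_smul δ⁻¹ HJ) (fun v w g => by
      show δ⁻¹ * J v w g = _
      rw [hJ]
      rfl) hflat'
  refine ⟨δ * c, fun p => δ • ξ p, Q1_apx (κ := fun p => h p - gF p) hδ hA ?_ ?_⟩
  · rw [mul_comm]
    refine mul_le_mul_of_nonneg_right ?_ hδ.le
    rw [hCdef]
    linarith
  · have h1 : (CB * δ ^ bB) ^ bD = CB ^ bD * δ ^ (bB * bD) := by
      rw [Real.mul_rpow hCB.le (Real.rpow_nonneg hδ.le _), ← Real.rpow_mul hδ.le]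
    rw [h1]
    have h2 : δ * (CD * (CB ^ bD * δ ^ (bB * bD))) = (CD * CB ^ bD) * δ * δ ^ (bB * bD) := by ring
    rw [h2]
    refine mul_le_mul_of_nonneg_right (mul_le_mul_of_nonneg_right ?_ hδ.le)
      (Real.rpow_nonneg hδ.le _)
    rw [hCdef]
    linarith

end FL27
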