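import Pool.Agent.LibFL27.MC11
import Pool.Agent.LibFL27.A13
import Pool.Agent.LibFL27.B10
import Pool.Agent.LibFL27.D8
import Pool.Agent.LibFL27.Q1

set_option autoImplicit false

namespace FL27

/-- Quantitative first order rigidity (boards M, A, B, D). -/
theorem q_stat : QStat := q_main (B_main AStat_proof FLM.M_stat) D_main

end FL27
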